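import Pool.Agent.Work.MP_0c3a8f_co.PB.Defs

/-!
# MP_0c3a8f_co, phase B: the statements of all items

`q = qq r = 1 - 1/r`.  The proofs are in the specifications (table `helpwanted`).
-/

open Finset

namespace MP0c3a8f

/-! ### A. The rough structure -/

/-- (STRL) partition of an `F`-free graph with linear defect -/
def STRL_statement : Prop :=
  ∀ (W : Type) [Fintype W] (F : SimpleGraph W) (r : ℕ) (C : ℝ), 3 ≤ r → Crit r F →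
    F.Colorable (r + 1) → ∃ C₁ : ℝ, 1 ≤ C₁ ∧ ∃ m₀ : ℕ, ∀ (V : Type) [Fintype V]
    (G : SimpleGraph V), F.Free G → m₀ ≤ G.edgeSet.ncard →
      2 * qq r * G.edgeSet.ncard - lam G ^ 2 ≤ C * Real.sqrt G.edgeSet.ncard →
      ∃ (z : V → ℝ) (f : V → Option (Fin r)), ZD G z (lam G) G.edgeSet.ncard ∧ Indep G f ∧
        lam G ^ 2 ≤ 2 * qq r * G.edgeSet.ncard ∧
        Lin r C₁ (Real.sqrt G.edgeSet.ncard) G z f ∧
        (∀ v, f v = none →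
          nb G (fun i => z i ^ 2) v ≤ (qq r - 1 / (16 * (r : ℝ))) * ∑ i, z i ^ 2) ∧
        ∀ t, |cw (fun i => z i ^ 2) f (some t) - (∑ i, z i ^ 2) / r|
          ≤ C₁ * Real.sqrt (Real.sqrt G.edgeSet.ncard)

open Classical in
/-- `v` is a vertex of small cost -/
def Cheap {V : Type} [Fintype V] {r : ℕ} (C : ℝ) (G : SimpleGraph V) (z : V → ℝ)
    (f : V → Option (Fin r)) (v : V) : Prop :=
  0 < z v ∧ ∑ u, adj G v u * (z u - 1 / z v) ^ 2 ≤ 2 * C ^ 2 ∧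
    (∑ u, if f u ≠ none ∧ f u ≠ f v ∧ ¬ G.Adj v u then z u ^ 2 else 0) ≤ 2 * C ^ 2

/-- (CHP) every class has a vertex of small cost -/
def CHP_statement : Prop :=
  ∀ (r : ℕ) (C M : ℝ) (V : Type) [Fintype V] (G : SimpleGraph V) (z : V → ℝ)
    (f : V → Option (Fin r)), 1 ≤ C → 0 < M → Lin r C M G z f →
    ∀ t, ∃ v, f v = some t ∧ Cheap C G z f v

/-- (ZET) the vertices of small cost have `z v` close to `1` -/
def ZET_statement : Prop :=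
  ∀ (r : ℕ) (C η : ℝ), 3 ≤ r → 1 ≤ C → 0 < η → ∃ M₀ : ℝ, ∀ (M : ℝ) (V : Type) [Fintype V]
    (G : SimpleGraph V) (z : V → ℝ) (f : V → Option (Fin r)) (v : Fin r → V), M₀ ≤ M → 0 < M →
    Lin r C M G z f → (∀ t, f (v t) = some t ∧ Cheap C G z f (v t)) →
    ∀ t, |1 / z (v t) - 1| ≤ η

open Classical in
/-- (NRML) all but boundedly many vertices are close to `1` or to `0` -/
def NRML_statement : Prop :=
  ∀ (r : ℕ) (C : ℝ), 3 ≤ r → 1 ≤ C → ∃ C₂ : ℝ, 0 ≤ C₂ ∧ ∀ δ : ℝ, 0 < δ → δ ≤ 1 / 4 →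
    ∃ (K : ℕ) (M₀ : ℝ), ∀ (M : ℝ) (V : Type) [Fintype V] (G : SimpleGraph V) (z : V → ℝ)
    (f : V → Option (Fin r)), M₀ ≤ M → Lin r C M G z f →
      {v | δ < z v ∧ ¬ (f v ≠ none ∧ |z v - 1| ≤ δ)}.ncard ≤ K ∧
      ∑ v, (if z v ≤ 1 / 4 then z v ^ 2 else 0) ≤ C₂

/-- (ZMAX) `z` is bounded -/
def ZMAX_statement : Prop :=
  ∀ (r : ℕ) (C : ℝ), 3 ≤ r → 1 ≤ C → ∃ C₄ : ℝ, 1 ≤ C₄ ∧ ∃ m₀ : ℕ, ∀ (V : Type) [Fintype V]
    (G : SimpleGraph V) (z : V → ℝ) (f : V → Option (Fin r)) (l : ℝ) (m : ℕ), m₀ ≤ m →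
    ZD G z l m → (m : ℝ) ≤ l ^ 2 → Lin r C (Real.sqrt m) G z f → ∀ v, z v ≤ C₄

/-- (EST0) fine estimates -/
def EST0_statement : Prop :=
  ∀ (W : Type) [Fintype W] (F : SimpleGraph W) (r : ℕ) (C : ℝ), 3 ≤ r → Crit r F →
    F.Colorable (r + 1) → ∃ C₆ : ℝ, 1 ≤ C₆ ∧ ∀ η : ℝ, 0 < η → η ≤ 1 / 10 → ∃ K m₀ : ℕ,
    ∀ (V : Type) [Fintype V] (G : SimpleGraph V), F.Free G → m₀ ≤ G.edgeSet.ncard →
      2 * qq r * G.edgeSet.ncard - lam G ^ 2 ≤ C * Real.sqrt G.edgeSet.ncard →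
      ∃ (z : V → ℝ) (f g : V → Option (Fin r)) (E : Finset V),
        ZD G z (lam G) G.edgeSet.ncard ∧ Indep G f ∧
        lam G ^ 2 ≤ 2 * qq r * G.edgeSet.ncard ∧ (G.edgeSet.ncard : ℝ) ≤ lam G ^ 2 ∧
        E.card ≤ K ∧ (∀ v, g v ≠ none → g v = f v ∧ |z v - 1| ≤ η) ∧
        (∀ v, v ∉ E → g v = none → z v ≤ η) ∧ (∀ v ∈ E, g v = none) ∧
        (∀ v, |lam G * z v - ((∑ t, nbn G g v t : ℕ) : ℝ)|
          ≤ C₆ * η * Real.sqrt G.edgeSet.ncard) ∧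
        (∀ t, |(siz g t : ℝ) - lam G / (qq r * r)| ≤ C₆ * η * Real.sqrt G.edgeSet.ncard) ∧
        (∀ v, z v ≤ 1 + C₆ * η) ∧ ∀ v, f v = none → z v ≤ 1 - 1 / (16 * (r : ℝ)) + C₆ * η

/-- (ROUGH) the rough structure -/
def ROUGH_statement : Prop :=
  ∀ (W : Type) [Fintype W] (F : SimpleGraph W) (r : ℕ) (C : ℝ), 3 ≤ r → Crit r F →
    F.Colorable (r + 1) → ∀ δ : ℝ, 0 < δ → δ ≤ 1 / (40 * (r : ℝ)) → ∃ K m₀ : ℕ,
    ∀ (V : Type) [Fintype V] (G : SimpleGraph V), F.Free G → m₀ ≤ G.edgeSet.ncard →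
      2 * qq r * G.edgeSet.ncard - lam G ^ 2 ≤ C * Real.sqrt G.edgeSet.ncard →
      ∃ (z : V → ℝ) (g : V → Option (Fin r)) (U : Finset V),
        Rough r δ K G z g U G.edgeSet.ncard

/-! ### B. The main inequality -/

/-- (CNTU) counting of the edges -/
def CNTU_statement : Prop :=
  ∀ (r : ℕ) (V : Type) [Fintype V] (G : SimpleGraph V) (g : V → Option (Fin r)) (U : Finset V),
    Indep G g → (∀ v ∈ U, g v = none) → ∃ e : ℕ, 2 * e ≤ U.card * (U.card - 1) ∧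
      2 * G.edgeSet.ncard + 2 * (missSet G g).ncard + ∑ t, siz g t ^ 2
        = (∑ t, siz g t) ^ 2 + 2 * (∑ v ∈ U, ∑ t, nbn G g v t) + 2 * e
          + 2 * (lightSet G g U).ncard

/-- (COMPU) comparison with the graph with complete core -/
def COMPU_statement : Prop :=
  ∀ (r : ℕ) (δ : ℝ) (V : Type) [Fintype V] (G : SimpleGraph V) (z : V → ℝ)
    (g : V → Option (Fin r)) (U : Finset V) (m : ℕ), 3 ≤ r → 0 < δ → δ ≤ 1 / 40 →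
    Flat r δ G z g U m → m = G.edgeSet.ncard →
    lam G ^ 2 ≤ lam (KU G g U) ^ 2 + 8 * δ * (lightSet G g U).ncard
      - (4 * qq r - 10 * δ) * (missSet G g).ncard

/-- (KW1) complete multipartite graphs -/
def KW1_statement : Prop :=
  ∀ (r : ℕ) (ε : ℝ), 3 ≤ r → 0 < ε → ∃ δ₁ > (0 : ℝ), ∃ n₀ : ℕ, ∀ (V : Type) [Fintype V]
    (G : SimpleGraph V) (g : V → Option (Fin r)), IsKU G g ∅ → n₀ ≤ ∑ t, siz g t →
    (∀ t, |(siz g t : ℝ) - ((∑ s, siz g s : ℕ) : ℝ) / r| ≤ δ₁ * ((∑ s, siz g s : ℕ) : ℝ)) →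
    lam G ^ 2 ≤ qq r ^ 2 * ((∑ s, siz g s : ℕ) : ℝ) ^ 2 - (2 * qq r ^ 2 - ε) * dev (siz g)

/-- (KW2) deletion of a set of vertices -/
def KW2_statement : Prop :=
  ∀ (V : Type) [Fintype V] (G G₀ : SimpleGraph V) (U : Finset V) (x : V → ℝ),
    (∀ u v, G₀.Adj u v ↔ G.Adj u v ∧ u ∉ U ∧ v ∉ U) → (∀ i, 0 ≤ x i) → ∑ i, x i ^ 2 = 1 →
    (∀ i, ∑ j, adj G i j * x j = lam G * x i) → lam G₀ ≤ lam G ∧
    lam G * (1 - 2 * ∑ v ∈ U, x v ^ 2) ≤ lam G₀ * (1 - ∑ v ∈ U, x v ^ 2)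

/-- (KW3) upper bounds for the entries of the Perron vector -/
def KW3_statement : Prop :=
  ∀ (r K : ℕ), 3 ≤ r → ∃ (C : ℝ) (n₀ : ℕ), 0 ≤ C ∧ ∀ (V : Type) [Fintype V]
    (G : SimpleGraph V) (g : V → Option (Fin r)) (U : Finset V) (x : V → ℝ) (n : ℕ),
    IsKU G g U → U.card ≤ K → n₀ ≤ n → ∑ t, siz g t = n →
    (∀ t, |(siz g t : ℝ) - (n : ℝ) / r| ≤ n / (4 * (r : ℝ))) → (∀ i, 0 ≤ x i) →
    ∑ i, x i ^ 2 = 1 → (∀ i, ∑ j, adj G i j * x j = lam G * x i) →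
    (n : ℝ) / 2 ≤ lam G ∧ lam G ≤ 2 * n ∧
    (∀ v, g v ≠ none → x v ^ 2 ≤ 1 / n * (1 + C * (1 + Real.sqrt (dev (siz g))) / n)) ∧
    ∀ v ∈ U, (lam G * x v) ^ 2 ≤ ((∑ t, nbn G g v t : ℕ) : ℝ) ^ 2 / n
      + C * (1 + Real.sqrt (dev (siz g)))

/-- (KW) complete multipartite core and boundedly many other vertices -/
def KW_statement : Prop :=
  ∀ (r : ℕ) (ε : ℝ), 3 ≤ r → 0 < ε → ∃ δ₁ > (0 : ℝ), ∀ K : ℕ, ∃ (C : ℝ) (n₀ : ℕ), 0 ≤ C ∧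
    ∀ (V : Type) [Fintype V] (G : SimpleGraph V) (g : V → Option (Fin r)) (U : Finset V)
    (n : ℕ), IsKU G g U → U.card ≤ K → n₀ ≤ n → ∑ t, siz g t = n →
    (∀ t, |(siz g t : ℝ) - (n : ℝ) / r| ≤ δ₁ * n) →
    lam G ^ 2 ≤ qq r ^ 2 * (n : ℝ) ^ 2 - (2 * qq r ^ 2 - ε) * dev (siz g)
      + 2 * (∑ v ∈ U, ((∑ t, nbn G g v t : ℕ) : ℝ) ^ 2) / n
      + C * (1 + Real.sqrt (dev (siz g)))

/-- (MAIN) the main inequality -/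
def MAIN_statement : Prop :=
  ∀ (r : ℕ) (ε : ℝ), 3 ≤ r → 0 < ε → ∃ δ₀ > (0 : ℝ), ∀ δ : ℝ, 0 < δ → δ ≤ δ₀ → ∀ K : ℕ,
    ∃ (C : ℝ) (n₀ : ℕ), 0 ≤ C ∧ ∀ (V : Type) [Fintype V] (G : SimpleGraph V) (z : V → ℝ)
    (g : V → Option (Fin r)) (U : Finset V) (n : ℕ), Rough r δ K G z g U G.edgeSet.ncard →
    n₀ ≤ n → ∑ t, siz g t = n →
    (2 * qq r - ε) * ((missSet G g).ncard + (lightSet G g U).ncard)
      + qq r * (1 - 2 / (r : ℝ) - ε) * dev (siz g)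
      + ∑ v ∈ U, 2 * ((∑ t, nbn G g v t : ℕ) : ℝ)
          * (qq r - ((∑ t, nbn G g v t : ℕ) : ℝ) / n)
      - C * (1 + Real.sqrt (dev (siz g)))
      ≤ 2 * qq r * G.edgeSet.ncard - lam G ^ 2

/-! ### C. The optimisation -/

/-- (OPTC) the real inequality -/
def OPTC_statement : Prop :=
  ∀ (r : ℕ) (ε c : ℝ), 3 ≤ r → 0 < ε → 0 < c → c < 1 / 2 → ∃ γ > (0 : ℝ),
    ∀ (ι : Type) (U : Finset ι) (t : ι → ℝ) (x α β ν : ℝ) (k : ℤ), ε ≤ x →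
    x ≤ 1 - 2 / (r : ℝ) - ε → 0 ≤ α → 0 ≤ β → 0 ≤ ν → (∀ i ∈ U, c ≤ t i ∧ t i ≤ 1 - c) →
    ∑ i ∈ U, t i + β - α - ν + k = x →
    (x * (1 - x) + γ ≤ ∑ i ∈ U, t i * (1 - t i) + (1 - ε / 2) * (α + β)
      + (1 - 2 / (r : ℝ) - ε / 2) * ν) ∨
    (U.card = 1 ∧ k = 0 ∧ x * (1 - x) + ε / 2 * (α + β + ν)
      ≤ ∑ i ∈ U, t i * (1 - t i) + (1 - ε / 2) * (α + β) + (1 - 2 / (r : ℝ) - ε / 2) * ν)

/-- (OPT) the optimisation -/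
def OPT_statement : Prop :=
  ∀ (r : ℕ) (ε c C C₀ : ℝ) (K : ℕ), 3 ≤ r → 0 < ε → 0 < c → c < 1 / 2 → 0 ≤ C → 0 ≤ C₀ →
    ∃ N n₀ : ℕ, ∀ (n n₁ D : ℕ) (dv dT a b e : ℝ) (ι : Type) (U : Finset ι) (d : ι → ℝ),
    n₀ ≤ n → ε * (qq r * n) ≤ D → (D : ℝ) ≤ (1 - 2 / (r : ℝ) - ε) * (qq r * n) →
    0 ≤ dv → 0 ≤ dT → dT ≤ r → 0 ≤ a → 0 ≤ b → 0 ≤ e → e ≤ (K : ℝ) ^ 2 → U.card ≤ K →
    (∀ i ∈ U, c * (qq r * n₁) ≤ d i ∧ d i ≤ (1 - c) * (qq r * n₁)) →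
    qq r * (n₁ : ℝ) ^ 2 - dv + 2 * ∑ i ∈ U, d i + 2 * e - 2 * a + 2 * b
      = qq r * (n : ℝ) ^ 2 - dT + 2 * D →
    (2 * qq r - ε / 4) * (a + b) + qq r * (1 - 2 / (r : ℝ) - ε / 4) * dv
      + ∑ i ∈ U, 2 * d i * (qq r - d i / n₁) - C * (1 + Real.sqrt dv)
      ≤ 2 * D * (qq r - D / n) + C₀ →
    U.card = 1 ∧ n₁ = n ∧ a + b + dv ≤ N

/-! ### D. The structure theorem -/

/-- (FLAT) the Perron vector of a graph with bounded defect -/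
def FLAT_statement : Prop :=
  ∀ (r N : ℕ) (C : ℝ), 3 ≤ r → ∃ (C' : ℝ) (n₀ : ℕ), ∀ (V : Type) [Fintype V]
    (G : SimpleGraph V) (z : V → ℝ) (g : V → Option (Fin r)) (w : V) (n : ℕ), n₀ ≤ n →
    ZD G z (lam G) G.edgeSet.ncard → Indep G g → g w = none → ∑ t, siz g t = n →
    ((missSet G g).ncard : ℝ) + ((lightSet G g {w}).ncard : ℝ) + dev (siz g) ≤ N →
    (∀ v, z v ≤ 2) → |2 * (G.edgeSet.ncard : ℝ) - qq r * (n : ℝ) ^ 2| ≤ C * n →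
    |2 * qq r * (G.edgeSet.ncard : ℝ) - lam G ^ 2| ≤ C * n →
    (∀ v, g v ≠ none → |z v - 1| ≤ C' / n) ∧ (∀ v, g v = none → v ≠ w → z v ≤ C' / n) ∧
      |z w - ((∑ t, nbn G g w t : ℕ) : ℝ) / (qq r * n)| ≤ C' / n

/-- (STRB) the structure theorem -/
def STRB_statement : Prop :=
  ∀ (W : Type) [Fintype W] (F : SimpleGraph W) (r : ℕ) (ε C₀ : ℝ), 3 ≤ r → Crit r F →
    F.Colorable (r + 1) → 0 < ε → ∃ N : ℕ, ∀ δ > (0 : ℝ), ∃ n₀ : ℕ, ∀ n ≥ n₀, ∀ D : ℕ,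
    ε * (qq r * n) ≤ D → (D : ℝ) ≤ (1 - 2 / (r : ℝ) - ε) * (qq r * n) →
    ∀ (V : Type) [Fintype V] (G : SimpleGraph V), F.Free G →
      G.edgeSet.ncard = (SimpleGraph.turanGraph n r).edgeSet.ncard + D →
      2 * qq r * G.edgeSet.ncard - lam G ^ 2 ≤ 2 * D * (qq r - D / n) + C₀ →
      ∃ (z : V → ℝ) (g : V → Option (Fin r)) (w : V), Str r N n δ G z g w G.edgeSet.ncard

/-! ### E. Asymptotics of the spectral radius of the core with one vertex -/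

/-- (SECEQ) the secular equation -/
def SECEQ_statement : Prop :=
  ∀ (r : ℕ) (V : Type) [Fintype V] (G : SimpleGraph V) (g : V → Option (Fin r)) (w : V),
    IsKU G g {w} → 0 < lam G →
    (1 - ∑ t, (siz g t : ℝ) / (lam G + siz g t)) *
      (lam G ^ 2 - ∑ t, (nbn G g w t : ℝ) + ∑ t, (nbn G g w t : ℝ) ^ 2 / (lam G + siz g t))
      = lam G * (∑ t, (nbn G g w t : ℝ) / (lam G + siz g t)) ^ 2

/-- (SECAS) asymptotic solution of the secular equation -/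
def SECAS_statement : Prop :=
  ∀ (r N : ℕ) (C ε : ℝ), 3 ≤ r → 0 < ε → ∃ n₀ : ℕ, ∀ (n : ℕ) (σ a : Fin r → ℕ) (l : ℝ),
    n₀ ≤ n → ∑ t, σ t = n → dev σ ≤ N → (∀ t, a t ≤ σ t) → |l - qq r * n| ≤ C →
    (1 - ∑ t, (σ t : ℝ) / (l + σ t)) *
      (l ^ 2 - ∑ t, (a t : ℝ) + ∑ t, (a t : ℝ) ^ 2 / (l + σ t))
      = l * (∑ t, (a t : ℝ) / (l + σ t)) ^ 2 → |l ^ 2 - Mu r σ a| ≤ ε

/-- (SEC) asymptotics of the spectral radius -/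
def SEC_statement : Prop :=
  ∀ (r N : ℕ) (ε : ℝ), 3 ≤ r → 0 < ε → ∃ n₀ : ℕ, ∀ (V : Type) [Fintype V]
    (G : SimpleGraph V) (g : V → Option (Fin r)) (w : V) (n : ℕ), n₀ ≤ n → IsKU G g {w} →
    ∑ t, siz g t = n → dev (siz g) ≤ N →
    |lam G ^ 2 - Mu r (siz g) (nbn G g w)| ≤ ε ∧ |lam G - qq r * n| ≤ N + 10

/-- (LBG) lower bound for the defect -/
def LBG_statement : Prop :=
  ∀ (r N : ℕ) (ε : ℝ), 3 ≤ r → 0 < ε → ∃ δ > (0 : ℝ), ∃ n₀ : ℕ, ∀ (V : Type) [Fintype V]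
    (G : SimpleGraph V) (z : V → ℝ) (g : V → Option (Fin r)) (w : V) (n : ℕ), n₀ ≤ n →
    Str r N n δ G z g w G.edgeSet.ncard →
    Kap r (siz g) (nbn G g w) + 2 * qq r * ((missSet G g).ncard + (lightSet G g {w}).ncard) - ε
      ≤ 2 * qq r * G.edgeSet.ncard - lam G ^ 2

/-- (UB1) upper bound for the defect, type one -/
def UB1_statement : Prop :=
  ∀ (r N : ℕ) (ε : ℝ), 3 ≤ r → 0 < ε → ∃ n₀ : ℕ, ∀ (V : Type) [Fintype V]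
    (G : SimpleGraph V) (f : V → Option (Fin r)) (w p p' : V) (i j : Fin r) (n : ℕ), n₀ ≤ n →
    Ty1 G f w p p' i j → ∑ t, siz f t = n → dev (siz f) ≤ N →
    2 * qq r * G.edgeSet.ncard - lam G ^ 2 ≤ Kap r (siz f) (nbn G f w) + 2 * qq r + ε

/-- (UB2) upper bound for the defect, type two -/
def UB2_statement : Prop :=
  ∀ (r N : ℕ) (ε : ℝ), 3 ≤ r → 0 < ε → ∃ n₀ : ℕ, ∀ (V : Type) [Fintype V]
    (G : SimpleGraph V) (f : V → Option (Fin r)) (w u : V) (v : Fin r → V) (i : Fin r) (n : ℕ),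
    n₀ ≤ n → Ty2 G f w u v i → ∑ t, siz f t = n → dev (siz f) ≤ N →
    2 * qq r * G.edgeSet.ncard - lam G ^ 2 ≤ Kap r (siz f) (nbn G f w) + 2 * qq r * r + ε

/-! ### G. Comparison of types -/

/-- `Kap` up to `o(1)`, in the variables `x = D/(qn)` etc. -/
noncomputable def Kx (r n D : ℕ) (σ a : Fin r → ℕ) : ℝ :=
  let x : ℝ := D / (qq r * n)
  2 * D * (qq r - D / n) + (qq r ^ 2 * x ^ 4 * (1 + 2 * qq r) - 2 * qq r * x ^ 3)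
    + 2 * qq r * ((1 - 2 * x) * (∑ t, (a t : ℝ) - D) + (1 / 2 - 1 / (r : ℝ)) * dev σ
      + 2 * x / r * ∑ t, (r * (a t : ℝ) / n) * ((σ t : ℝ) - n / r)
      + x ^ 2 / (qq r * r ^ 2) * ∑ t, (r * (a t : ℝ) / n) ^ 2)

/-- (EXP) expansion of `Kap` -/
def EXP_statement : Prop :=
  ∀ (r N : ℕ) (ε : ℝ), 3 ≤ r → 0 < ε → ∃ n₀ : ℕ, ∀ (n D : ℕ) (σ a : Fin r → ℕ), n₀ ≤ n →
    ∑ t, σ t = n → dev σ ≤ N → (∀ t, a t ≤ σ t) → D ≤ n → |(∑ t, (a t : ℝ)) - D| ≤ N →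
    |Kap r σ a - Kx r n D σ a| ≤ ε

/-- target vectors of type one -/
def Tg1 (r n D : ℕ) (a : Fin r → ℕ) : Prop :=
  (∀ t : Fin r, t.val ≤ 1 → a t = 1) ∧ (∀ t, 1 ≤ a t ∧ a t ≤ tz r n t) ∧ ∑ t, a t = D + 1 ∧
  ((∀ t : Fin r, 2 ≤ t.val → tz r n t = n / r → a t = tz r n t) ∨
    ∀ t : Fin r, 2 ≤ t.val → n / r < tz r n t → a t = 1)

/-- target vectors of type two -/
def Tg2 (r n D : ℕ) (a : Fin r → ℕ) : Prop :=
  (∀ t : Fin r, t.val = 0 → a t = 0) ∧ (∀ t : Fin r, t.val ≠ 0 → 1 ≤ a t) ∧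
  (∀ t, a t ≤ tz r n t) ∧ ∑ t, a t + r = D ∧
  ((∀ t : Fin r, 1 ≤ t.val → tz r n t = n / r → a t = tz r n t) ∨
    ∀ t : Fin r, 1 ≤ t.val → n / r < tz r n t → a t = 1)

/-- (GRE) existence of target vectors -/
def GRE_statement : Prop :=
  ∀ (r : ℕ) (ε : ℝ), 3 ≤ r → 0 < ε → ∃ n₀ : ℕ, ∀ n ≥ n₀, ∀ D : ℕ, ε * (qq r * n) ≤ D →
    (D : ℝ) ≤ (1 - 2 / (r : ℝ) - ε) * (qq r * n) → (∃ a, Tg1 r n D a) ∧ ∃ a, Tg2 r n D a

/-- (JF1) all other types are worse, first interval -/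
def JF1_statement : Prop :=
  ∀ (r : ℕ) (ε : ℝ), 3 ≤ r → 0 < ε → ∃ c > (0 : ℝ), ∀ N : ℕ, ∃ n₀ : ℕ, ∀ n ≥ n₀, ∀ D : ℕ,
    (1 / ((r : ℝ) + 1) + 1 / (r : ℝ) ^ 5) * (qq r * n) ≤ D →
    (D : ℝ) ≤ (1 - 2 / (r : ℝ) - ε) * (qq r * n) → ∀ (σ a a' : Fin r → ℕ) (α b : ℕ),
    ∑ t, σ t = n → dev σ ≤ N → (∀ t, a t ≤ σ t) → α + b ≤ N →
    2 * D + 2 * α + ∑ t, σ t ^ 2 = ∑ t, tz r n t ^ 2 + 2 * ∑ t, a t + 2 * b →
    (α = 0 → r ≤ b) → ¬ (α = 1 ∧ b = 0) → Tg1 r n D a' →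
    Kap r (tz r n) a' + 2 * qq r + c ≤ Kap r σ a + 2 * qq r * (α + b)

/-- (JF2) all other types are worse, second interval -/
def JF2_statement : Prop :=
  ∀ (r : ℕ) (ε : ℝ), 3 ≤ r → 0 < ε → ∃ c > (0 : ℝ), ∀ N : ℕ, ∃ n₀ : ℕ, ∀ n ≥ n₀, ∀ D : ℕ,
    ε * (qq r * n) ≤ D → (D : ℝ) ≤ (1 / ((r : ℝ) + 1) - 1 / (r : ℝ) ^ 5) * (qq r * n) →
    ∀ (σ a a' : Fin r → ℕ) (α b : ℕ),
    ∑ t, σ t = n → dev σ ≤ N → (∀ t, a t ≤ σ t) → α + b ≤ N →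
    2 * D + 2 * α + ∑ t, σ t ^ 2 = ∑ t, tz r n t ^ 2 + 2 * ∑ t, a t + 2 * b →
    (α = 0 → r ≤ b) → ¬ (α = 0 ∧ b = r) → Tg2 r n D a' →
    Kap r (tz r n) a' + 2 * qq r * r + c ≤ Kap r σ a + 2 * qq r * (α + b)

/-- (JB) unbalanced parts are worse -/
def JB_statement : Prop :=
  ∀ (r : ℕ) (ε : ℝ), 3 ≤ r → 0 < ε → ∃ c > (0 : ℝ), ∀ N : ℕ, ∃ n₀ : ℕ, ∀ n ≥ n₀, ∀ D : ℕ,
    ε * (qq r * n) ≤ D → (D : ℝ) ≤ (1 - 2 / (r : ℝ) - ε) * (qq r * n) →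
    ∀ (σ a : Fin r → ℕ) (Φ : Finset (Fin r)), ∑ t, σ t = n → dev σ ≤ N →
    (∀ t, a t ≤ σ t) → Φ.card ≤ 2 → (∀ t ∈ Φ, a t ≤ 1) → (∀ t, t ∉ Φ → 1 ≤ a t) →
    |(∑ t, (a t : ℝ)) - D| ≤ N → ∑ t, tz r n t ^ 2 < ∑ t, σ t ^ 2 →
    ∃ (π : Equiv.Perm (Fin r)) (a' : Fin r → ℕ), (∀ t ∈ Φ, a' t = a t) ∧
      (∀ t, t ∉ Φ → 1 ≤ a' t) ∧ (∀ t, a' t ≤ tz r n (π t)) ∧
      2 * ∑ t, a' t + ∑ t, σ t ^ 2 = 2 * ∑ t, a t + ∑ t, tz r n t ^ 2 ∧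
      Kap r (fun t => tz r n (π t)) a' + c ≤ Kap r σ a

/-! ### H. The families -/

/-- (FAM1) -/
def FAM1_statement : Prop :=
  ∀ (r : ℕ) (τ a : Fin r → ℕ) (i j : Fin r), 3 ≤ r → i ≠ j → a i = 1 → a j = 1 →
    (∀ t, 1 ≤ a t ∧ a t ≤ τ t) → ∃ (k : ℕ) (H : SimpleGraph (Fin k))
      (f : Fin k → Option (Fin r)) (w p p' : Fin k), Th1 H f w p p' i j ∧
      (∀ t, siz f t = τ t) ∧ ∀ t, nbn H f w t = a t

/-- (FAM2) -/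
def FAM2_statement : Prop :=
  ∀ (r : ℕ) (τ a : Fin r → ℕ) (i t₀ : Fin r), 3 ≤ r → a i = 0 → 1 ≤ τ i →
    (∀ t, t ≠ i → 1 ≤ a t ∧ a t ≤ τ t) → t₀ ≠ i → a t₀ < τ t₀ →
    ∃ (k : ℕ) (H : SimpleGraph (Fin k)) (f : Fin k → Option (Fin r)) (w u : Fin k)
      (v : Fin r → Fin k), Th2 H f w u v i ∧ (∀ t, t ≠ i → (H.Adj w (v t) ↔ t ≠ t₀)) ∧
      (∀ t, siz f t = τ t) ∧ ∀ t, nbn H f w t = a t

/-- (MEM1) graphs of type one -/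
def MEM1_statement : Prop :=
  ∀ (r : ℕ) (V : Type) [Fintype V] (G : SimpleGraph V) (f : V → Option (Fin r))
    (w p p' : V) (i j : Fin r), 3 ≤ r → Th1 G f w p p' i j → (∀ t, 2 ≤ siz f t) →
    (⊤ : SimpleGraph (Fin (r + 1))).Free G ∧ ¬ G.Colorable r ∧ (∀ v, ∃ u, G.Adj v u) ∧
    2 * G.edgeSet.ncard + 2 + ∑ t, siz f t ^ 2 = (∑ t, siz f t) ^ 2 + 2 * ∑ t, nbn G f w t

/-- (MEM2) graphs of type two -/
def MEM2_statement : Prop :=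
  ∀ (r : ℕ) (V : Type) [Fintype V] (G : SimpleGraph V) (f : V → Option (Fin r))
    (w u : V) (v : Fin r → V) (i : Fin r), 3 ≤ r → Th2 G f w u v i → (∀ t, 1 ≤ siz f t) →
    (⊤ : SimpleGraph (Fin (r + 1))).Free G ∧ ¬ G.Colorable r ∧ (∀ v, ∃ u, G.Adj v u) ∧
    2 * G.edgeSet.ncard + ∑ t, siz f t ^ 2
      = (∑ t, siz f t) ^ 2 + 2 * ∑ t, nbn G f w t + 2 * r

/-! ### I. Classification -/

/-- (CLA) complete core -/
def CLA_statement : Prop :=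
  ∀ (r : ℕ) (V : Type) [Fintype V] (G : SimpleGraph V) (g : V → Option (Fin r)) (w : V),
    3 ≤ r → Indep G g → g w = none → (missSet G g).ncard = 0 → (∀ t, 1 ≤ siz g t) →
    (⊤ : SimpleGraph (Fin (r + 1))).Free G → ¬ G.Colorable r → (∀ v, ∃ u, G.Adj v u) →
    r ≤ (lightSet G g {w}).ncard ∧
      ((lightSet G g {w}).ncard = r → ∃ (u : V) (v : Fin r → V) (i : Fin r), Th2 G g w u v i)

/-- (CLB) one missing edge -/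
def CLB_statement : Prop :=
  ∀ (r : ℕ) (V : Type) [Fintype V] (G : SimpleGraph V) (g : V → Option (Fin r)) (w : V),
    3 ≤ r → Indep G g → g w = none → (missSet G g).ncard = 1 →
    (lightSet G g {w}).ncard = 0 → (∀ t, 2 ≤ siz g t) →
    (⊤ : SimpleGraph (Fin (r + 1))).Free G → ¬ G.Colorable r → (∀ v, ∃ u, G.Adj v u) →
    ∃ (p p' : V) (i j : Fin r), Th1 G g w p p' i j

/-! ### K. Exact comparison -/

open Classical in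
/-- (EIG1) the eigenvalue equations of a graph of type one -/
def EIG1_statement : Prop :=
  ∀ (r : ℕ) (V : Type) [Fintype V] (G : SimpleGraph V) (f : V → Option (Fin r))
    (w p p' : V) (i j : Fin r) (x : V → ℝ) (l : ℝ), Ty1 G f w p p' i j →
    (∀ v, ∑ u, adj G v u * x u = l * x v) →
    (∀ v t, f v = some t → v ≠ p → v ≠ p' →
      l * x v = (∑ s, cw x f (some s) - cw x f (some t)) + if G.Adj w v then x w else 0) ∧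
    (l * x p = (∑ s, cw x f (some s) - cw x f (some i)) + (if G.Adj w p then x w else 0)
      - x p') ∧
    (l * x p' = (∑ s, cw x f (some s) - cw x f (some j)) + (if G.Adj w p' then x w else 0)
      - x p) ∧
    (∀ t, l * cw x f (some t) = siz f t * (∑ s, cw x f (some s) - cw x f (some t))
      + nbn G f w t * x w - (if t = i then x p' else 0) - if t = j then x p else 0) ∧
    l * x w = ∑ v, if f v ≠ none ∧ G.Adj w v then x v else 0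

open Classical in
/-- (EIG2) the eigenvalue equations of a graph of type two -/
def EIG2_statement : Prop :=
  ∀ (r : ℕ) (V : Type) [Fintype V] (G : SimpleGraph V) (f : V → Option (Fin r))
    (w u : V) (v : Fin r → V) (i : Fin r) (x : V → ℝ) (l : ℝ), Ty2 G f w u v i →
    (∀ y, ∑ z, adj G y z * x z = l * x y) →
    (∀ y t, f y = some t → l * x y = (∑ s, cw x f (some s) - cw x f (some t))
      + (if G.Adj w y then x w else 0) + if G.Adj u y then x u else 0) ∧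
    (∀ t, l * cw x f (some t) = siz f t * (∑ s, cw x f (some s) - cw x f (some t))
      + nbn G f w t * x w + if t ≠ i then x u else 0) ∧
    (l * x w = (∑ y, if f y ≠ none ∧ G.Adj w y then x y else 0) + x u) ∧
    l * x u = x w + ∑ t, if t ≠ i then x (v t) else 0

/-- (GAP1) estimates for the Perron vector, type one -/
def GAP1_statement : Prop :=
  ∀ (r : ℕ) (ε : ℝ), 3 ≤ r → 0 < ε → ∃ n₀ : ℕ, ∀ (V : Type) [Fintype V] (G : SimpleGraph V)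
    (f : V → Option (Fin r)) (w p p' : V) (i j : Fin r) (x : V → ℝ) (n : ℕ), n₀ ≤ n →
    Ty1 G f w p p' i j → Bal n f → ε * n ≤ ((∑ t, nbn G f w t : ℕ) : ℝ) →
    ((∑ t, nbn G f w t : ℕ) : ℝ) ≤ (1 - 2 / (r : ℝ)) * (qq r * n) + 1 → (∀ v, 0 ≤ x v) → x ≠ 0 →
    (∀ v, ∑ u, adj G v u * x u = lam G * x v) →
    (n : ℝ) / 2 ≤ lam G ∧ 0 < ∑ s, cw x f (some s) ∧ 0 < x w ∧
    (∀ v, f v ≠ none → x v ≤ 2 * (∑ s, cw x f (some s)) / n ∧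
      (1 - 1 / (4 * (r : ℝ))) * (∑ s, cw x f (some s)) / n ≤ x v) ∧
    ∀ k l, siz f k = siz f l + 1 →
      (∑ s, cw x f (some s)) / (2 * n) ≤ cw x f (some k) - cw x f (some l) ∧
      (nbn G f w k ≤ 1 → cw x f (some k) - cw x f (some l)
        ≤ (qq r + 1 / (4 * (r : ℝ))) * (∑ s, cw x f (some s)) / n)

/-- (GAP2) estimates for the Perron vector, type two -/
def GAP2_statement : Prop :=
  ∀ (r : ℕ) (ε : ℝ), 3 ≤ r → 0 < ε → ∃ n₀ : ℕ, ∀ (V : Type) [Fintype V] (G : SimpleGraph V)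
    (f : V → Option (Fin r)) (w u : V) (v : Fin r → V) (i : Fin r) (x : V → ℝ) (n : ℕ),
    n₀ ≤ n → Ty2 G f w u v i → Bal n f → ε * n ≤ ((∑ t, nbn G f w t : ℕ) : ℝ) →
    ((∑ t, nbn G f w t : ℕ) : ℝ) ≤ (1 - 2 / (r : ℝ)) * (qq r * n) + 1 → (∀ y, 0 ≤ x y) → x ≠ 0 →
    (∀ y, ∑ z, adj G y z * x z = lam G * x y) →
    (n : ℝ) / 2 ≤ lam G ∧ 0 < ∑ s, cw x f (some s) ∧ 0 < x w ∧ 0 < x u ∧ x u < x w ∧
    x u ≤ (∑ s, cw x f (some s)) / (4 * n) ∧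
    (∀ y, f y ≠ none → x y ≤ 2 * (∑ s, cw x f (some s)) / n) ∧
    ∀ k l, siz f k = siz f l + 1 →
      (∑ s, cw x f (some s)) / (2 * n) ≤ cw x f (some k) - cw x f (some l)

/-- (MV1) moving neighbours of `w`, type one -/
def MV1_statement : Prop :=
  ∀ (r : ℕ) (ε : ℝ), 3 ≤ r → 0 < ε → ∃ n₀ : ℕ, ∀ (V : Type) [Fintype V]
    (G G' : SimpleGraph V) (f : V → Option (Fin r)) (w p p' : V) (i j k l : Fin r)
    (M M' : Finset V) (n : ℕ), n₀ ≤ n → Ty1 G f w p p' i j → Ty1 G' f w p p' i j →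
    Bal n f → ε * n ≤ ((∑ t, nbn G f w t : ℕ) : ℝ) →
    ((∑ t, nbn G f w t : ℕ) : ℝ) ≤ (1 - 2 / (r : ℝ)) * (qq r * n) + 1 → k ≠ l → M.Nonempty →
    M.card = M'.card → (∀ y ∈ M, f y = some k ∧ G.Adj w y ∧ y ≠ p ∧ y ≠ p') →
    (∀ y ∈ M', f y = some l ∧ ¬ G.Adj w y ∧ y ≠ p ∧ y ≠ p') →
    (∀ y, G'.Adj w y ↔ (G.Adj w y ∧ y ∉ M) ∨ y ∈ M') →
    (siz f k = siz f l + 1 ∨ (siz f k = siz f l ∧ k ≠ i ∧ k ≠ j ∧ l ≠ i ∧ l ≠ j ∧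
      nbn G f w l + 2 * M.card ≤ nbn G f w k)) → lam G < lam G'

/-- (MV2) moving neighbours of `w`, type two -/
def MV2_statement : Prop :=
  ∀ (r : ℕ) (ε : ℝ), 3 ≤ r → 0 < ε → ∃ n₀ : ℕ, ∀ (V : Type) [Fintype V]
    (G G' : SimpleGraph V) (f : V → Option (Fin r)) (w u : V) (v : Fin r → V) (i k l : Fin r)
    (M M' : Finset V) (n : ℕ), n₀ ≤ n → Ty2 G f w u v i → Ty2 G' f w u v i →
    Bal n f → ε * n ≤ ((∑ t, nbn G f w t : ℕ) : ℝ) →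
    ((∑ t, nbn G f w t : ℕ) : ℝ) ≤ (1 - 2 / (r : ℝ)) * (qq r * n) + 1 → k ≠ l → M.Nonempty →
    M.card = M'.card → (∀ y ∈ M, f y = some k ∧ G.Adj w y ∧ ¬ G.Adj u y) →
    (∀ y ∈ M', f y = some l ∧ ¬ G.Adj w y ∧ ¬ G.Adj u y) →
    (∀ y, f y ≠ none → (G'.Adj w y ↔ (G.Adj w y ∧ y ∉ M) ∨ y ∈ M')) →
    (siz f k = siz f l + 1 ∨ (siz f k = siz f l ∧ k ≠ i ∧ l ≠ i ∧
      nbn G f w l + 2 * M.card ≤ nbn G f w k)) → lam G < lam G'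

/-- (SW1) moving the missing edge, type one -/
def SW1_statement : Prop :=
  ∀ (r : ℕ) (ε : ℝ), 3 ≤ r → 0 < ε → ∃ n₀ : ℕ, ∀ (V : Type) [Fintype V]
    (G G' : SimpleGraph V) (f : V → Option (Fin r)) (w p p' c : V) (i j k : Fin r)
    (n : ℕ), n₀ ≤ n → Ty1 G f w p p' i j → Ty1 G' f w c p' k j →
    Bal n f → ε * n ≤ ((∑ t, nbn G f w t : ℕ) : ℝ) →
    ((∑ t, nbn G f w t : ℕ) : ℝ) ≤ (1 - 2 / (r : ℝ)) * (qq r * n) + 1 → k ≠ i →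
    (∀ y, G'.Adj w y ↔ G.Adj w y) → G.Adj w p → G.Adj w c → nbn G f w k = 1 →
    siz f k = siz f i + 1 → lam G < lam G'

/-- (US2) moving a neighbour of `u`, type two -/
def US2_statement : Prop :=
  ∀ (r : ℕ) (ε : ℝ), 3 ≤ r → 0 < ε → ∃ n₀ : ℕ, ∀ (V : Type) [Fintype V]
    (G G' : SimpleGraph V) (f : V → Option (Fin r)) (w u y y' : V) (v : Fin r → V)
    (i k l : Fin r) (n : ℕ), n₀ ≤ n → Ty2 G f w u v i →
    Bal n f → ε * n ≤ ((∑ t, nbn G f w t : ℕ) : ℝ) →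
    ((∑ t, nbn G f w t : ℕ) : ℝ) ≤ (1 - 2 / (r : ℝ)) * (qq r * n) + 1 →
    f y = some k → f y' = some l → G.Adj u y → ¬ G.Adj u y' → ¬ G.Adj w y →
    (∀ x z, G'.Adj x z ↔ (G.Adj x z ∧ s(x, z) ≠ s(u, y)) ∨ s(x, z) = s(u, y')) →
    ((k = l ∧ G.Adj w y') ∨ (siz f k = siz f l + 1 ∧ ¬ G.Adj w y')) → lam G < lam G'

/-- (TI2) ties -/
def TI2_statement : Prop :=
  ∀ (r : ℕ) (V V' : Type) [Fintype V] [Fintype V'] (G : SimpleGraph V) (G' : SimpleGraph V')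
    (f : V → Option (Fin r)) (f' : V' → Option (Fin r)) (w u : V) (w' u' : V')
    (v : Fin r → V) (v' : Fin r → V') (i : Fin r), 3 ≤ r → Ty2 G f w u v i →
    Ty2 G' f' w' u' v' i → (∀ t, 1 ≤ siz f t) → (∀ t, siz f t = siz f' t) →
    (∀ t, nbn G f w t = nbn G' f' w' t) → (∃! t, t ≠ i ∧ ¬ G.Adj w (v t)) →
    (∃! t, t ≠ i ∧ ¬ G'.Adj w' (v' t)) → lam G = lam G'

/-- (GV) uniqueness of greedy vectors -/
def GV_statement : Prop :=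
  ∀ (r n lo : ℕ) (a b : Fin r → ℕ),
    (∀ t : Fin r, t.val < lo → a t = b t) → ∑ t, a t = ∑ t, b t →
    (∀ t : Fin r, lo ≤ t.val → 1 ≤ a t ∧ a t ≤ tz r n t ∧ 1 ≤ b t ∧ b t ≤ tz r n t) →
    (∀ s t : Fin r, lo ≤ s.val → lo ≤ t.val → tz r n s = tz r n t →
      a s ≤ a t + 1 ∧ b s ≤ b t + 1) →
    (∀ s t : Fin r, lo ≤ s.val → lo ≤ t.val → tz r n t < tz r n s →
      (2 ≤ a s → a t = tz r n t) ∧ (2 ≤ b s → b t = tz r n t)) →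
    ∃ π : Equiv.Perm (Fin r), (∀ t, tz r n (π t) = tz r n t) ∧
      (∀ t : Fin r, t.val < lo → π t = t) ∧ ∀ t, b (π t) = a t

/-- (ISO1) graphs of type one with the same parameters are isomorphic -/
def ISO1_statement : Prop :=
  ∀ (r : ℕ) (V V' : Type) [Fintype V] [Fintype V'] (G : SimpleGraph V) (G' : SimpleGraph V')
    (f : V → Option (Fin r)) (f' : V' → Option (Fin r)) (w p p₁ : V) (w' p' p₁' : V')
    (i j : Fin r), Th1 G f w p p₁ i j → Th1 G' f' w' p' p₁' i j →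
    (∀ t, siz f t = siz f' t) → (∀ t, nbn G f w t = nbn G' f' w' t) → Nonempty (G ≃g G')

/-- (REL) relabelling of the classes -/
def REL_statement : Prop :=
  ∀ (r : ℕ) (V : Type) [Fintype V] (G : SimpleGraph V) (f : V → Option (Fin r))
    (π : Equiv.Perm (Fin r)),
    (∀ t, siz (fun v => (f v).map π) (π t) = siz f t) ∧
    (∀ w t, nbn G (fun v => (f v).map π) w (π t) = nbn G f w t) ∧
    (∀ w p p' i j, Th1 G f w p p' i j → Th1 G (fun v => (f v).map π) w p p' (π i) (π j) ∧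
      Th1 G f w p' p j i) ∧
    ∀ w u v i, Th2 G f w u v i →
      Th2 G (fun v => (f v).map π) w u (fun t => v (π.symm t)) (π i)

/-! ### L. Final statements -/

/-- first interval -/
def R1 (r n D : ℕ) (ε : ℝ) : Prop :=
  (1 / ((r : ℝ) + 1) + 1 / (r : ℝ) ^ 5) * (qq r * n) ≤ D ∧
    (D : ℝ) ≤ (1 - 2 / (r : ℝ) - ε) * (qq r * n)

/-- second interval -/
def R2 (r n D : ℕ) (ε : ℝ) : Prop :=
  ε * (qq r * n) ≤ D ∧ (D : ℝ) ≤ (1 / ((r : ℝ) + 1) - 1 / (r : ℝ) ^ 5) * (qq r * n)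

/-- `G` has maximal spectral radius for `F = K_{r+1}` and `m = e(T_r(n)) + D` -/
def Mx {V : Type} [Fintype V] (r n D : ℕ) (G : SimpleGraph V) : Prop :=
  IsMaximiser r ((SimpleGraph.turanGraph n r).edgeSet.ncard + D)
    (⊤ : SimpleGraph (Fin (r + 1))) G

/-- (TOP1) -/
def TOP1_statement : Prop :=
  ∀ (r : ℕ) (ε : ℝ), 3 ≤ r → 0 < ε → ∃ n₀ : ℕ, ∀ n ≥ n₀, ∀ D : ℕ, R1 r n D ε →
    (∃ (k : ℕ) (G : SimpleGraph (Fin k)), Mx r n D G) ∧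
    ∀ (V : Type) [Fintype V] (G : SimpleGraph V), Mx r n D G →
      ∃ (f : V → Option (Fin r)) (w p p' : V) (i j : Fin r), Th1 G f w p p' i j ∧ Bal n f ∧
        ∑ t, nbn G f w t = D + 1

/-- (TOP2) -/
def TOP2_statement : Prop :=
  ∀ (r : ℕ) (ε : ℝ), 3 ≤ r → 0 < ε → ∃ n₀ : ℕ, ∀ n ≥ n₀, ∀ D : ℕ, R2 r n D ε →
    (∃ (k : ℕ) (G : SimpleGraph (Fin k)), Mx r n D G) ∧
    ∀ (V : Type) [Fintype V] (G : SimpleGraph V), Mx r n D G →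
      ∃ (f : V → Option (Fin r)) (w u : V) (v : Fin r → V) (i : Fin r), Th2 G f w u v i ∧
        Bal n f ∧ ∑ t, nbn G f w t + r = D

/-- (EVF1) the neighbours of `w` are spread greedily, type one -/
def EVF1_statement : Prop :=
  ∀ (r : ℕ) (ε : ℝ), 3 ≤ r → 0 < ε → ∃ n₀ : ℕ, ∀ n ≥ n₀, ∀ D : ℕ, R1 r n D ε →
    ∀ (V : Type) [Fintype V] (G : SimpleGraph V) (f : V → Option (Fin r)) (w p p' : V)
    (i j : Fin r), Mx r n D G → Th1 G f w p p' i j → Bal n f → ∑ t, nbn G f w t = D + 1 →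
    (∀ k l, k ≠ i → k ≠ j → l ≠ i → l ≠ j → siz f k = siz f l →
      nbn G f w k ≤ nbn G f w l + 1) ∧
    (∀ k l, k ≠ i → k ≠ j → l ≠ i → l ≠ j → siz f k = siz f l + 1 → 2 ≤ nbn G f w k →
      nbn G f w l = siz f l) ∧
    ∀ k, k ≠ i → k ≠ j → nbn G f w k + 2 ≤ siz f k ∨ ∃ l, siz f k + 1 = siz f l

/-- (ORD1) the missing edge is between classes of maximal size, type one -/
def ORD1_statement : Prop :=
  ∀ (r : ℕ) (ε : ℝ), 3 ≤ r → 0 < ε → ∃ n₀ : ℕ, ∀ n ≥ n₀, ∀ D : ℕ, R1 r n D ε →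
    ∀ (V : Type) [Fintype V] (G : SimpleGraph V) (f : V → Option (Fin r)) (w p p' : V)
    (i j : Fin r), Mx r n D G → Th1 G f w p p' i j → Bal n f → ∑ t, nbn G f w t = D + 1 →
    ∀ k, k ≠ i → k ≠ j → siz f k ≤ siz f i

/-- (EXC2) exactly one neighbour of `u` is not a neighbour of `w`, type two -/
def EXC2_statement : Prop :=
  ∀ (r : ℕ) (ε : ℝ), 3 ≤ r → 0 < ε → ∃ n₀ : ℕ, ∀ n ≥ n₀, ∀ D : ℕ, R2 r n D ε →
    ∀ (V : Type) [Fintype V] (G : SimpleGraph V) (f : V → Option (Fin r)) (w u : V)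
    (v : Fin r → V) (i : Fin r), Mx r n D G → Th2 G f w u v i → Bal n f →
    ∑ t, nbn G f w t + r = D → ∃! t, t ≠ i ∧ ¬ G.Adj w (v t)

/-- (RLC2) relocation of the exception, type two -/
def RLC2_statement : Prop :=
  ∀ (r n D : ℕ) (V : Type) [Fintype V] (G : SimpleGraph V) (f : V → Option (Fin r))
    (w u : V) (v : Fin r → V) (i k : Fin r), 3 ≤ r → r ≤ n → Mx r n D G → Th2 G f w u v i →
    Bal n f → (∃! t, t ≠ i ∧ ¬ G.Adj w (v t)) → k ≠ i → nbn G f w k < siz f k →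
    ∃ (G' : SimpleGraph V) (v' : Fin r → V), Mx r n D G' ∧ Th2 G' f w u v' i ∧
      (∀ t, t ≠ i → (G'.Adj w (v' t) ↔ t ≠ k)) ∧ (∀ y, G'.Adj w y ↔ G.Adj w y)

/-- (EVF2) the neighbours of `w` are spread greedily, type two -/
def EVF2_statement : Prop :=
  ∀ (r : ℕ) (ε : ℝ), 3 ≤ r → 0 < ε → ∃ n₀ : ℕ, ∀ n ≥ n₀, ∀ D : ℕ, R2 r n D ε →
    ∀ (V : Type) [Fintype V] (G : SimpleGraph V) (f : V → Option (Fin r)) (w u : V)
    (v : Fin r → V) (i : Fin r), Mx r n D G → Th2 G f w u v i → Bal n f →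
    ∑ t, nbn G f w t + r = D →
    (∀ k l, k ≠ i → l ≠ i → siz f k = siz f l → nbn G f w k ≤ nbn G f w l + 1) ∧
    (∀ k l, k ≠ i → l ≠ i → siz f k = siz f l + 1 → 2 ≤ nbn G f w k →
      nbn G f w l = siz f l)

/-- (ORD2) `w` is in a class of maximal size, type two -/
def ORD2_statement : Prop :=
  ∀ (r : ℕ) (ε : ℝ), 3 ≤ r → 0 < ε → ∃ n₀ : ℕ, ∀ n ≥ n₀, ∀ D : ℕ, R2 r n D ε →
    ∀ (V : Type) [Fintype V] (G : SimpleGraph V) (f : V → Option (Fin r)) (w u : V)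
    (v : Fin r → V) (i : Fin r), Mx r n D G → Th2 G f w u v i → Bal n f →
    ∑ t, nbn G f w t + r = D → ∀ k, siz f k ≤ siz f i

/-- (FIN1) the first theorem -/
def FIN1_statement : Prop :=
  ∀ (r : ℕ) (ε : ℝ), 3 ≤ r → 0 < ε → ∃ n₀ : ℕ, ∀ n ≥ n₀, ∀ D : ℕ, R1 r n D ε →
    (∃ (k : ℕ) (G : SimpleGraph (Fin k)), Mx r n D G) ∧
    (∀ (V : Type) [Fintype V] (G : SimpleGraph V), Mx r n D G ↔ IsG1 r n D G) ∧
    ∀ (V V' : Type) [Fintype V] [Fintype V'] (G : SimpleGraph V) (G' : SimpleGraph V'),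
      IsG1 r n D G → IsG1 r n D G' → Nonempty (G ≃g G')

/-- (FIN2) the second theorem -/
def FIN2_statement : Prop :=
  ∀ (r : ℕ) (ε : ℝ), 3 ≤ r → 0 < ε → ∃ n₀ : ℕ, ∀ n ≥ n₀, ∀ D : ℕ, R2 r n D ε →
    (∃ (k : ℕ) (G : SimpleGraph (Fin k)), Mx r n D G) ∧
    ∀ (V : Type) [Fintype V] (G : SimpleGraph V), Mx r n D G ↔ IsG2 r n D G

end MP0c3a8f
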