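import Pool.Agent.Work.MP_0c3a8f_co.PB.Stmts

/-!
# MP_0c3a8f_co, phase B: the whole range, and general color-critical graphs: statements

`q = qq r = 1 - 1/r`.  The proofs are in the specifications (table `helpwanted`).
-/

open Finset

namespace MP0c3a8f

/-! ### M. The whole range for complete graphs -/

/-- the whole range -/
def RR (r n D : ℕ) (ε : ℝ) : Prop :=
  ε * (qq r * n) ≤ D ∧ (D : ℝ) ≤ (1 - 2 / (r : ℝ) - ε) * (qq r * n)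

/-- the limit of `(2(1-1/r)m - λ²) / (2(1-1/r))` for the second family minus the same for the first
family -/
noncomputable def gap (r n D : ℕ) : ℝ :=
  2 * ((r : ℝ) + 1) * ((D : ℝ) / (qq r * n)) - 2
    - if n % r ≤ 1 then ((D : ℝ) / (qq r * n)) ^ 4 / (r * ((r : ℝ) - 2)) else 0

/-- evenly spread over the classes `≥ lo` of equal size -/
def Ev (r n lo : ℕ) (a : Fin r → ℕ) : Prop :=
  ∀ s t : Fin r, lo ≤ s.val → lo ≤ t.val → tz r n s = tz r n t → a s ≤ a t + 1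

/-- (GREE) existence of even target vectors -/
def GREE_statement : Prop :=
  ∀ (r : ℕ) (ε : ℝ), 3 ≤ r → 0 < ε → ∃ n₀ : ℕ, ∀ n ≥ n₀, ∀ D : ℕ, RR r n D ε →
    (∃ a, Tg1 r n D a ∧ Ev r n 2 a) ∧ (∃ a, Tg2 r n D a ∧ Ev r n 1 a) ∧
      ∃ a, Tg1 r n (D - 1) a ∧ 1 ≤ D

/-- (JFA) all other types are worse -/
def JFA_statement : Prop :=
  ∀ (r : ℕ) (ε : ℝ), 3 ≤ r → 0 < ε → ∃ c > (0 : ℝ), ∀ N : ℕ, ∃ n₀ : ℕ, ∀ n ≥ n₀, ∀ D : ℕ,
    RR r n D ε → ∀ (σ a a₁ a₂ : Fin r → ℕ) (α b : ℕ),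
    ∑ t, σ t = n → dev σ ≤ N → (∀ t, a t ≤ σ t) → α + b ≤ N →
    2 * D + 2 * α + ∑ t, σ t ^ 2 = ∑ t, tz r n t ^ 2 + 2 * ∑ t, a t + 2 * b →
    (α = 0 → r ≤ b) → ¬ (α = 1 ∧ b = 0) → ¬ (α = 0 ∧ b = r) → Tg1 r n D a₁ → Tg2 r n D a₂ →
    Kap r (tz r n) a₁ + 2 * qq r + c ≤ Kap r σ a + 2 * qq r * (α + b) ∨
      Kap r (tz r n) a₂ + 2 * qq r * r + c ≤ Kap r σ a + 2 * qq r * (α + b)

/-- (JFB) type two is worse if `gap` is positive -/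
def JFB_statement : Prop :=
  ∀ (r : ℕ) (ε : ℝ), 3 ≤ r → 0 < ε → ∃ c > (0 : ℝ), ∀ N : ℕ, ∃ n₀ : ℕ, ∀ n ≥ n₀, ∀ D : ℕ,
    RR r n D ε → ε ≤ gap r n D → ∀ (σ a a₁ : Fin r → ℕ),
    ∑ t, σ t = n → dev σ ≤ N → (∀ t, a t ≤ σ t) →
    2 * D + ∑ t, σ t ^ 2 = ∑ t, tz r n t ^ 2 + 2 * ∑ t, a t + 2 * r →
    (∃ i, a i = 0) → Tg1 r n D a₁ → Ev r n 2 a₁ →
    Kap r (tz r n) a₁ + 2 * qq r + c ≤ Kap r σ a + 2 * qq r * r

/-- (JFC) type one is worse if `gap` is negative -/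
def JFC_statement : Prop :=
  ∀ (r : ℕ) (ε : ℝ), 3 ≤ r → 0 < ε → ∃ c > (0 : ℝ), ∀ N : ℕ, ∃ n₀ : ℕ, ∀ n ≥ n₀, ∀ D : ℕ,
    RR r n D ε → gap r n D ≤ -ε → ∀ (σ a a₂ : Fin r → ℕ),
    ∑ t, σ t = n → dev σ ≤ N → (∀ t, a t ≤ σ t) →
    2 * D + 2 + ∑ t, σ t ^ 2 = ∑ t, tz r n t ^ 2 + 2 * ∑ t, a t →
    (∃ i j, i ≠ j ∧ a i ≤ 1 ∧ a j ≤ 1) → Tg2 r n D a₂ → Ev r n 1 a₂ →
    Kap r (tz r n) a₂ + 2 * qq r * r + c ≤ Kap r σ a + 2 * qq r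

/-- (TOP3) the maximisers are of type one or two -/
def TOP3_statement : Prop :=
  ∀ (r : ℕ) (ε : ℝ), 3 ≤ r → 0 < ε → ∃ n₀ : ℕ, ∀ n ≥ n₀, ∀ D : ℕ, RR r n D ε →
    (∃ (k : ℕ) (G : SimpleGraph (Fin k)), Mx r n D G) ∧
    ∀ (V : Type) [Fintype V] (G : SimpleGraph V), Mx r n D G →
      (-ε < gap r n D ∧ ∃ (f : V → Option (Fin r)) (w p p' : V) (i j : Fin r),
        Th1 G f w p p' i j ∧ Bal n f ∧ ∑ t, nbn G f w t = D + 1) ∨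
      (gap r n D < ε ∧ ∃ (f : V → Option (Fin r)) (w u : V) (v : Fin r → V) (i : Fin r),
        Th2 G f w u v i ∧ Bal n f ∧ ∑ t, nbn G f w t + r = D)

/-- (EVFR1) -/
def EVFR1_statement : Prop :=
  ∀ (r : ℕ) (ε : ℝ), 3 ≤ r → 0 < ε → ∃ n₀ : ℕ, ∀ n ≥ n₀, ∀ D : ℕ, RR r n D ε →
    ∀ (V : Type) [Fintype V] (G : SimpleGraph V) (f : V → Option (Fin r)) (w p p' : V)
    (i j : Fin r), Mx r n D G → Th1 G f w p p' i j → Bal n f → ∑ t, nbn G f w t = D + 1 →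
    (∀ k l, k ≠ i → k ≠ j → l ≠ i → l ≠ j → siz f k = siz f l →
      nbn G f w k ≤ nbn G f w l + 1) ∧
    (∀ k l, k ≠ i → k ≠ j → l ≠ i → l ≠ j → siz f k = siz f l + 1 → 2 ≤ nbn G f w k →
      nbn G f w l = siz f l) ∧
    ∀ k, k ≠ i → k ≠ j → nbn G f w k + 2 ≤ siz f k ∨ ∃ l, siz f k + 1 = siz f l

/-- (ORDR1) -/
def ORDR1_statement : Prop :=
  ∀ (r : ℕ) (ε : ℝ), 3 ≤ r → 0 < ε → ∃ n₀ : ℕ, ∀ n ≥ n₀, ∀ D : ℕ, RR r n D ε →
    ∀ (V : Type) [Fintype V] (G : SimpleGraph V) (f : V → Option (Fin r)) (w p p' : V)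
    (i j : Fin r), Mx r n D G → Th1 G f w p p' i j → Bal n f → ∑ t, nbn G f w t = D + 1 →
    ∀ k, k ≠ i → k ≠ j → siz f k ≤ siz f i

/-- (EXCR2) -/
def EXCR2_statement : Prop :=
  ∀ (r : ℕ) (ε : ℝ), 3 ≤ r → 0 < ε → ∃ n₀ : ℕ, ∀ n ≥ n₀, ∀ D : ℕ, RR r n D ε →
    ∀ (V : Type) [Fintype V] (G : SimpleGraph V) (f : V → Option (Fin r)) (w u : V)
    (v : Fin r → V) (i : Fin r), Mx r n D G → Th2 G f w u v i → Bal n f →
    ∑ t, nbn G f w t + r = D → ∃! t, t ≠ i ∧ ¬ G.Adj w (v t)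

/-- (EVFR2) -/
def EVFR2_statement : Prop :=
  ∀ (r : ℕ) (ε : ℝ), 3 ≤ r → 0 < ε → ∃ n₀ : ℕ, ∀ n ≥ n₀, ∀ D : ℕ, RR r n D ε →
    ∀ (V : Type) [Fintype V] (G : SimpleGraph V) (f : V → Option (Fin r)) (w u : V)
    (v : Fin r → V) (i : Fin r), Mx r n D G → Th2 G f w u v i → Bal n f →
    ∑ t, nbn G f w t + r = D →
    (∀ k l, k ≠ i → l ≠ i → siz f k = siz f l → nbn G f w k ≤ nbn G f w l + 1) ∧
    (∀ k l, k ≠ i → l ≠ i → siz f k = siz f l + 1 → 2 ≤ nbn G f w k →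
      nbn G f w l = siz f l)

/-- (ORDR2) -/
def ORDR2_statement : Prop :=
  ∀ (r : ℕ) (ε : ℝ), 3 ≤ r → 0 < ε → ∃ n₀ : ℕ, ∀ n ≥ n₀, ∀ D : ℕ, RR r n D ε →
    ∀ (V : Type) [Fintype V] (G : SimpleGraph V) (f : V → Option (Fin r)) (w u : V)
    (v : Fin r → V) (i : Fin r), Mx r n D G → Th2 G f w u v i → Bal n f →
    ∑ t, nbn G f w t + r = D → ∀ k, siz f k ≤ siz f i

/-- (FIN3) the final theorem for complete graphs -/
def FIN3_statement : Prop :=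
  ∀ (r : ℕ) (ε : ℝ), 3 ≤ r → 0 < ε → ∃ n₀ : ℕ, ∀ n ≥ n₀, ∀ D : ℕ, RR r n D ε →
    (∃ (k : ℕ) (G : SimpleGraph (Fin k)), Mx r n D G) ∧
    (∀ (V : Type) [Fintype V] (G : SimpleGraph V), Mx r n D G ↔
      (IsG1 r n D G ∨ IsG2 r n D G) ∧ ∀ (U : Type) [Fintype U] (H : SimpleGraph U),
        (IsG1 r n D H ∨ IsG2 r n D H) → lam H ≤ lam G) ∧
    (∀ (V U : Type) [Fintype V] [Fintype U] (G : SimpleGraph V) (H : SimpleGraph U),
      IsG1 r n D G → IsG1 r n D H → Nonempty (G ≃g H)) ∧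
    (∀ (V U : Type) [Fintype V] [Fintype U] (G : SimpleGraph V) (H : SimpleGraph U),
      IsG2 r n D G → IsG2 r n D H → lam G = lam H) ∧
    (ε ≤ gap r n D → ∀ (V : Type) [Fintype V] (G : SimpleGraph V),
      Mx r n D G ↔ IsG1 r n D G) ∧
    (gap r n D ≤ -ε → ∀ (V : Type) [Fintype V] (G : SimpleGraph V),
      Mx r n D G ↔ IsG2 r n D G)

/-! ### N. General color-critical graphs -/

/-- `G` is the complete `r`-partite graph with `n` vertices and one more vertex `w` up to a bounded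
number of edges -/
structure Bd {V : Type} {r : ℕ} (n N : ℕ) (G : SimpleGraph V) (g : V → Option (Fin r))
    (w : V) : Prop where
  indep : Indep G g
  out : g w = none
  tot : ∑ t, siz g t = n
  bnd : ((missSet G g).ncard : ℝ) + ((lightSet G g {w}).ncard : ℝ) + dev (siz g) ≤ N

/-- the cost -/
noncomputable def Cst {V : Type} {r : ℕ} (G : SimpleGraph V) (g : V → Option (Fin r))
    (w : V) : ℝ :=
  Kap r (siz g) (nbn G g w) + 2 * qq r * ((missSet G g).ncard + (lightSet G g {w}).ncard)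

/-- (UBG) upper bound for the defect -/
def UBG_statement : Prop :=
  ∀ (r N : ℕ) (ε : ℝ), 3 ≤ r → 0 < ε → ∃ n₀ : ℕ, ∀ (V : Type) [Fintype V]
    (G : SimpleGraph V) (g : V → Option (Fin r)) (w : V) (n : ℕ), n₀ ≤ n → Bd n N G g w →
    2 * qq r * G.edgeSet.ncard - lam G ^ 2 ≤ Cst G g w + ε

/-- (KXB) upper bound for `Kap` -/
def KXB_statement : Prop :=
  ∀ (r N : ℕ), 3 ≤ r → ∃ (C : ℝ) (n₀ : ℕ), ∀ n ≥ n₀, ∀ (D : ℕ) (σ a : Fin r → ℕ),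
    ∑ t, σ t = n → dev σ ≤ N → (∀ t, a t ≤ σ t) → D ≤ n → |(∑ t, (a t : ℝ)) - D| ≤ N →
    |Kap r σ a - 2 * D * (qq r - D / n)| ≤ C

/-- (MEMB) there are cheap members -/
def MEMB_statement : Prop :=
  ∀ (W : Type) [Fintype W] (F : SimpleGraph W) (r : ℕ), 3 ≤ r → ¬ F.Colorable r →
    ∃ b n₀ : ℕ, ∀ n ≥ n₀, ∀ D : ℕ, b < D → D ≤ (r - 1) * (n / r) →
      ∃ (k : ℕ) (G : SimpleGraph (Fin k)) (g : Fin k → Option (Fin r)) (w : Fin k),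
        F.Free G ∧ ¬ G.Colorable r ∧ (∀ v, ∃ u, G.Adj v u) ∧ Indep G g ∧ g w = none ∧
        (missSet G g).ncard = 0 ∧ (lightSet G g {w}).ncard = b ∧ (∀ t, siz g t = tz r n t) ∧
        ∑ t, nbn G g w t + b = D

/-- `G` has maximal spectral radius for `F` and `m = e(T_r(n)) + D` -/
def MxF {V W : Type} [Fintype V] (r n D : ℕ) (F : SimpleGraph W) (G : SimpleGraph V) : Prop :=
  IsMaximiser r ((SimpleGraph.turanGraph n r).edgeSet.ncard + D) F G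

/-- the defect `2(1-1/r)m - λ²` -/
noncomputable def Def {V : Type} [Fintype V] (r : ℕ) (G : SimpleGraph V) : ℝ :=
  2 * qq r * G.edgeSet.ncard - lam G ^ 2

/-- (STRG) the structure of the graphs with large spectral radius for all color-critical `F` -/
def STRG_statement : Prop :=
  ∀ (W : Type) [Fintype W] (F : SimpleGraph W) (r : ℕ) (ε C : ℝ), 3 ≤ r → Crit r F →
    F.Colorable (r + 1) → 0 < ε → ∃ N : ℕ, ∀ η > (0 : ℝ), ∃ n₀ : ℕ, ∀ n ≥ n₀, ∀ D : ℕ,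
    RR r n D ε → ∀ (V : Type) [Fintype V] (G : SimpleGraph V), F.Free G →
      G.edgeSet.ncard = (SimpleGraph.turanGraph n r).edgeSet.ncard + D →
      Def r G ≤ 2 * D * (qq r - D / n) + C →
      ∃ (g : V → Option (Fin r)) (w : V), Bd n N G g w ∧ |Def r G - Cst G g w| ≤ η

/-- (MAXG) the maximisers for all color-critical `F` -/
def MAXG_statement : Prop :=
  ∀ (W : Type) [Fintype W] (F : SimpleGraph W) (r : ℕ) (ε : ℝ), 3 ≤ r → Crit r F →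
    F.Colorable (r + 1) → ¬ F.Colorable r → 0 < ε → ∃ N : ℕ, ∀ (η : ℝ) (N' : ℕ), 0 < η →
    ∃ n₀ : ℕ, ∀ n ≥ n₀, ∀ D : ℕ, RR r n D ε →
    (∃ (k : ℕ) (G : SimpleGraph (Fin k)), MxF r n D F G) ∧
    ∀ (V : Type) [Fintype V] (G : SimpleGraph V), MxF r n D F G →
      |Def r G - 2 * D * (qq r - D / n)| ≤ N ∧
      ∃ (g : V → Option (Fin r)) (w : V), Bd n N G g w ∧ |Def r G - Cst G g w| ≤ η ∧
        |((∑ t, nbn G g w t : ℕ) : ℝ) - D| ≤ N ∧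
        ∀ (U : Type) [Fintype U] (H : SimpleGraph U) (h : U → Option (Fin r)) (u : U),
          InN r ((SimpleGraph.turanGraph n r).edgeSet.ncard + D) F H → Bd n N' H h u →
          Cst G g w ≤ Cst H h u + η

/-! ### O. Color-critical graphs which need no other modification -/

/-- complete multipartite core and one more vertex `w` -/
structure Ty0 {V : Type} {r : ℕ} (G : SimpleGraph V) (f : V → Option (Fin r)) (w : V) :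
    Prop where
  out : ∀ v, f v = none ↔ v = w
  core : ∀ u v, f u ≠ none → f v ≠ none → (G.Adj u v ↔ f u ≠ f v)

/-- no graph with complete core and one more vertex, which has only one neighbour in each of two
classes, contains `F` -/
def Gen2 {W : Type} (r : ℕ) (F : SimpleGraph W) : Prop :=
  ∀ (V : Type) [Fintype V] (G : SimpleGraph V) (f : V → Option (Fin r)) (w : V)
    (i j : Fin r), i ≠ j → Ty0 G f w → nbn G f w i = 1 → nbn G f w j = 1 → F.Free G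

/-- (FAMZ) -/
def FAMZ_statement : Prop :=
  ∀ (r : ℕ) (τ a : Fin r → ℕ), 3 ≤ r → (∀ t, a t ≤ τ t) →
    ∃ (k : ℕ) (H : SimpleGraph (Fin k)) (f : Fin k → Option (Fin r)) (w : Fin k),
      Ty0 H f w ∧ (∀ t, siz f t = τ t) ∧ ∀ t, nbn H f w t = a t

/-- (MEMZ) -/
def MEMZ_statement : Prop :=
  ∀ (r : ℕ) (V : Type) [Fintype V] (G : SimpleGraph V) (f : V → Option (Fin r)) (w : V),
    3 ≤ r → Ty0 G f w → (∀ t, 1 ≤ siz f t) →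
    (G.Colorable r ↔ ∃ t, nbn G f w t = 0) ∧ (1 ≤ ∑ t, nbn G f w t → ∀ v, ∃ u, G.Adj v u) ∧
    2 * G.edgeSet.ncard + ∑ t, siz f t ^ 2 = (∑ t, siz f t) ^ 2 + 2 * ∑ t, nbn G f w t

/-- (EMBZ) two classes with few neighbours -/
def EMBZ_statement : Prop :=
  ∀ (W : Type) [Fintype W] (F : SimpleGraph W) (r : ℕ), 3 ≤ r → Crit r F →
    ∀ (V : Type) [Fintype V] (G : SimpleGraph V) (f : V → Option (Fin r)) (w : V),
      Ty0 G f w → F.Free G → (∀ t, Fintype.card W + 1 ≤ siz f t) → (∀ t, 1 ≤ nbn G f w t) →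
      ∃ i j, i ≠ j ∧ nbn G f w i ≤ Fintype.card W ∧ nbn G f w j ≤ Fintype.card W

/-- (JFZ) all other types are worse -/
def JFZ_statement : Prop :=
  ∀ (r : ℕ) (ε : ℝ), 3 ≤ r → 0 < ε → ∃ c > (0 : ℝ), ∀ N : ℕ, ∃ n₀ : ℕ, ∀ n ≥ n₀, ∀ D : ℕ,
    RR r n D ε → ∀ (σ a a' : Fin r → ℕ) (α b : ℕ),
    ∑ t, σ t = n → dev σ ≤ N → (∀ t, a t ≤ σ t) → α + b ≤ N →
    2 * D + 2 * α + ∑ t, σ t ^ 2 = ∑ t, tz r n t ^ 2 + 2 * ∑ t, a t + 2 * b →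
    ¬ (α = 0 ∧ b = 0) → Tg1 r n (D - 1) a' → 1 ≤ D →
    Kap r (tz r n) a' + c ≤ Kap r σ a + 2 * qq r * (α + b)

/-- (JBZ) unbalanced parts are worse -/
def JBZ_statement : Prop :=
  ∀ (r : ℕ) (ε : ℝ), 3 ≤ r → 0 < ε → ∃ c > (0 : ℝ), ∀ N : ℕ, ∃ n₀ : ℕ, ∀ n ≥ n₀, ∀ D : ℕ,
    RR r n D ε → ∀ (σ a : Fin r → ℕ) (i j : Fin r), i ≠ j → ∑ t, σ t = n → dev σ ≤ N →
    (∀ t, a t ≤ σ t) → a i ≤ N → a j ≤ N → |(∑ t, (a t : ℝ)) - D| ≤ N →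
    ∑ t, tz r n t ^ 2 < ∑ t, σ t ^ 2 →
    ∃ (π : Equiv.Perm (Fin r)) (a' : Fin r → ℕ), a' i = 1 ∧ a' j = 1 ∧ (∀ t, 1 ≤ a' t) ∧
      (∀ t, a' t ≤ tz r n (π t)) ∧
      2 * ∑ t, a' t + ∑ t, σ t ^ 2 = 2 * ∑ t, a t + ∑ t, tz r n t ^ 2 ∧
      Kap r (fun t => tz r n (π t)) a' + c ≤ Kap r σ a

/-- (TOPZ) the maximisers have complete core and no light vertices -/
def TOPZ_statement : Prop :=
  ∀ (W : Type) [Fintype W] (F : SimpleGraph W) (r : ℕ) (ε : ℝ), 3 ≤ r → Crit r F →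
    F.Colorable (r + 1) → Gen2 r F → 0 < ε → ∃ n₀ : ℕ, ∀ n ≥ n₀, ∀ D : ℕ, RR r n D ε →
    (∃ (k : ℕ) (G : SimpleGraph (Fin k)), MxF r n D F G) ∧
    ∀ (V : Type) [Fintype V] (G : SimpleGraph V), MxF r n D F G →
      ∃ (f : V → Option (Fin r)) (w : V), Ty0 G f w ∧ Bal n f ∧ ∑ t, nbn G f w t = D ∧
        ∀ t, 1 ≤ nbn G f w t

/-- the Turán graph `T_r(n)` and one new vertex `w` with `D` neighbours, at least one in each
class -/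
def IsG0 {V : Type} (r n D : ℕ) (G : SimpleGraph V) : Prop :=
  ∃ (f : V → Option (Fin r)) (w : V), Ty0 G f w ∧ (∀ t, siz f t = tz r n t) ∧
    ∑ t, nbn G f w t = D ∧ ∀ t, 1 ≤ nbn G f w t

/-- (GENX) the final theorem -/
def GENX_statement : Prop :=
  ∀ (W : Type) [Fintype W] (F : SimpleGraph W) (r : ℕ) (ε : ℝ), 3 ≤ r → Crit r F →
    F.Colorable (r + 1) → Gen2 r F → 0 < ε → ∃ n₀ : ℕ, ∀ n ≥ n₀, ∀ D : ℕ, RR r n D ε →
    (∃ (k : ℕ) (G : SimpleGraph (Fin k)), MxF r n D F G) ∧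
    ∀ (V : Type) [Fintype V] (G : SimpleGraph V), MxF r n D F G ↔
      (IsG0 r n D G ∧ F.Free G) ∧ ∀ (U : Type) [Fintype U] (H : SimpleGraph U),
        IsG0 r n D H → F.Free H → lam H ≤ lam G

end MP0c3a8f
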