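import Pool.Agent.Work.MP_0c3a8f_co.PB.Stmts5

/-!
# MP_0c3a8f_co: one vertex and a complete multipartite graph up to `O(1)` edges, all sizes

`q = qq r = 1 - 1/r`.  The proofs are in the specifications (table `helpwanted`).
-/

open Finset

namespace MP0c3a8f

/-- number of the missing pairs at `v` -/
noncomputable def mdeg {V : Type} {r : ℕ} (G : SimpleGraph V) (g : V → Option (Fin r))
    (v : V) : ℕ :=
  {u | g v ≠ none ∧ g u ≠ none ∧ g u ≠ g v ∧ ¬ G.Adj v u}.ncard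

/-- nonnegative eigenvector for the eigenvalue `lam G`, normalised on the core -/
structure Per {V : Type} [Fintype V] {r : ℕ} (G : SimpleGraph V) (z : V → ℝ)
    (g : V → Option (Fin r)) (n : ℕ) : Prop where
  nonneg : ∀ v, 0 ≤ z v
  eig : ∀ v, ∑ u, adj G v u * z u = lam G * z v
  sum : ∑ t, cw z g (some t) = n

/-- complete multipartite up to `O(n^(1/4))` edges -/
structure NK {V : Type} {r : ℕ} (n : ℕ) (C : ℝ) (G : SimpleGraph V)
    (g : V → Option (Fin r)) : Prop where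
  indep : Indep G g
  tot : ∑ t, siz g t = n
  dev : dev (siz g) ≤ C * n
  few : ((missSet G g).ncard : ℝ) + (outSet G g).ncard ≤ C * Real.sqrt (Real.sqrt n)

/-- (FLU) the Perron vector -/
def FLU_statement : Prop :=
  ∀ (r : ℕ) (C : ℝ), 3 ≤ r → 0 ≤ C → ∃ (C' : ℝ) (n₀ : ℕ), 0 ≤ C' ∧ ∀ (V : Type) [Fintype V]
    (G : SimpleGraph V) (g : V → Option (Fin r)) (n : ℕ), n₀ ≤ n → NK n C G g →
    (∃ z, Per G z g n) ∧ ∀ z, Per G z g n →
      (∀ v, g v ≠ none → |z v - 1| ≤ C' / Real.sqrt n) ∧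
      (∀ v, g v = none → z v ≤ C' * Real.sqrt (Real.sqrt n) / n) ∧
      |lam G - qq r * n| ≤ C' * Real.sqrt (Real.sqrt n) ∧
      ∀ t, |(n : ℝ) - cw z g (some t) - lam G| ≤ C' * Real.sqrt n

/-- (UPL) upper bound for the spectral radius -/
def UPL_statement : Prop :=
  ∀ (r : ℕ) (C : ℝ), 3 ≤ r → 0 ≤ C → ∃ (C' : ℝ) (n₀ : ℕ), 0 ≤ C' ∧ ∀ (V : Type) [Fintype V]
    (G : SimpleGraph V) (g : V → Option (Fin r)) (n : ℕ), n₀ ≤ n → NK n C G g →
    lam G ^ 2 ≤ lam (KU G g ∅) ^ 2 - 4 * qq r * (missSet G g).ncard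
      + C' / Real.sqrt (Real.sqrt n)

/-- (LOL) lower bound for the spectral radius -/
def LOL_statement : Prop :=
  ∀ (r : ℕ) (C : ℝ), 3 ≤ r → 0 ≤ C → ∃ (C' : ℝ) (n₀ : ℕ), 0 ≤ C' ∧ ∀ (V : Type) [Fintype V]
    (G : SimpleGraph V) (g : V → Option (Fin r)) (n : ℕ), n₀ ≤ n → NK n C G g →
    lam (KU G g ∅) ^ 2 - 4 * qq r * (missSet G g).ncard - C' / Real.sqrt (Real.sqrt n)
      ≤ lam G ^ 2

/-- (TRK) complete multipartite graphs with the same sizes of the classes -/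
def TRK_statement : Prop :=
  ∀ (r : ℕ) (V U : Type) [Fintype V] [Fintype U] (G : SimpleGraph V) (H : SimpleGraph U)
    (g : V → Option (Fin r)) (f : U → Option (Fin r)), IsKU G g ∅ → IsKU H f ∅ →
    (∀ t, siz g t = siz f t) → lam G = lam H

/-- (BLA) few light edges or no missing pairs -/
def BLA_statement : Prop :=
  ∀ (W : Type) [Fintype W] (F : SimpleGraph W) (r : ℕ) (C : ℝ), 3 ≤ r → ¬ F.Colorable r →
    0 ≤ C → ∃ b₀ n₀ : ℕ, ∀ (V : Type) [Fintype V] (G : SimpleGraph V)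
    (g : V → Option (Fin r)) (n m : ℕ), n₀ ≤ n → IsMaximiser r m F G → NK n C G g →
    (outSet G g).ncard ≤ b₀ ∨ (missSet G g).ncard = 0

/-- (SSWU) comparison with a single vertex -/
def SSWU_statement : Prop :=
  ∀ (r : ℕ) (C : ℝ), 3 ≤ r → 0 ≤ C → ∃ n₀ : ℕ, ∀ (V : Type) [Fintype V]
    (G H : SimpleGraph V) (g : V → Option (Fin r)) (w : V) (n d : ℕ), n₀ ≤ n →
    NK n C G g → (missSet G g).ncard = 0 → g w = none →
    (∀ v, g v = none → ∑ t, nbn G g v t ≤ ∑ t, nbn G g w t) →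
    IsKU H g {w} → ∑ t, nbn H g w t = d → d ≤ (outSet G g).ncard → lam H ≤ lam G →
    (lightSet G g {w}).ncard ≤ 4 * ((outSet G g).ncard - d) + 12

/-- (SWM) changing the missing pairs -/
def SWM_statement : Prop :=
  ∀ (W : Type) [Fintype W] (F : SimpleGraph W) (r : ℕ) (V : Type) [Fintype V]
    (G H : SimpleGraph V) (g : V → Option (Fin r)), 3 ≤ r → F.Free G → ¬ G.Colorable r →
    (∀ v, ∃ u, G.Adj v u) → Indep G g → Indep H g →
    (∀ t, Fintype.card W + 2 * ((missSet G g).ncard + (missSet H g).ncard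
      + (outSet G g).ncard) + 2 ≤ siz g t) →
    (∀ u v, g u = none → (H.Adj u v ↔ G.Adj u v)) →
    (∀ u v, (∃ x, g x = none ∧ G.Adj u x) → (∃ x, g x = none ∧ G.Adj v x) →
      (H.Adj u v ↔ G.Adj u v)) →
    F.Free H ∧ ¬ H.Colorable r ∧ ∀ v, ∃ u, H.Adj v u

/-- (SWS) changing the missing pairs, spectral comparison -/
def SWS_statement : Prop :=
  ∀ (r b₀ : ℕ) (C : ℝ), 3 ≤ r → 0 ≤ C → ∃ (C' : ℝ) (n₀ : ℕ), 0 ≤ C' ∧
    ∀ (V : Type) [Fintype V] (G H : SimpleGraph V) (z : V → ℝ) (g : V → Option (Fin r))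
    (n : ℕ), n₀ ≤ n → NK n C G g → NK n C H g → (outSet G g).ncard ≤ b₀ →
    (∀ u v, g u = none → (H.Adj u v ↔ G.Adj u v)) → Per G z g n →
    miss H (fun v => (n : ℝ) - cw z g (g v)) g ≤ miss G (fun v => (n : ℝ) - cw z g (g v)) g →
    lam H ≤ lam G →
    ∑ v, (mdeg H g v : ℝ) ^ 2 ≤ ∑ v, (mdeg G g v : ℝ) ^ 2
      + C' * ((missSet G g).ncard + (missSet H g).ncard + 1)

/-- (SQN) graphs with large sum of the squares of the degrees are stars up to `O(1)` edges -/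
def SQN_statement : Prop :=
  ∀ C : ℝ, 0 ≤ C → ∃ N : ℕ, ∀ (V : Type) [Fintype V] [Nonempty V] (M : SimpleGraph V),
    (M.edgeSet.ncard : ℝ) ^ 2 - C * (M.edgeSet.ncard + 1)
      ≤ ∑ v, (({u | M.Adj v u}.ncard : ℕ) : ℝ) ^ 2 →
    ∃ w, {e | e ∈ M.edgeSet ∧ w ∉ e}.ncard ≤ N

/-- (MKH) replacing missing pairs by a star -/
def MKH_statement : Prop :=
  ∀ (r : ℕ) (V : Type) [Fintype V] (G : SimpleGraph V) (g : V → Option (Fin r))
    (Y : Option (Fin r) → ℝ), 3 ≤ r → Indep G g → (∀ t, 0 ≤ Y (some t)) →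
    (∀ t, (missSet G g).ncard + (outSet G g).ncard + 1 ≤ siz g t) →
    ∃ (H : SimpleGraph V) (a₁ : ℕ), Indep H g ∧ (∀ u v, g u = none → (H.Adj u v ↔ G.Adj u v)) ∧
      (∀ u v, (∃ x, g x = none ∧ G.Adj u x) → (∃ x, g x = none ∧ G.Adj v x) →
        (H.Adj u v ↔ G.Adj u v)) ∧
      (missSet H g).ncard = (missSet G g).ncard ∧
      miss H (fun v => Y (g v)) g ≤ miss G (fun v => Y (g v)) g ∧
      (missSet G g).ncard ≤ a₁ + (outSet G g).ncard ^ 2 ∧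
      (a₁ : ℝ) ^ 2 ≤ ∑ v, (mdeg H g v : ℝ) ^ 2

/-- (FNW) there is a special vertex -/
def FNW_statement : Prop :=
  ∀ (W : Type) [Fintype W] (F : SimpleGraph W) (r : ℕ) (C : ℝ), 3 ≤ r → ¬ F.Colorable r →
    0 ≤ C → ∃ N n₀ : ℕ, ∀ (V : Type) [Fintype V] (G : SimpleGraph V)
    (g : V → Option (Fin r)) (n m : ℕ), n₀ ≤ n → IsMaximiser r m F G → NK n C G g →
    ∃ w, {e | e ∈ missSet G g ∧ w ∉ e}.ncard + {e | e ∈ outSet G g ∧ w ∉ e}.ncard ≤ N

/-- alternative two, with a special vertex `w` -/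
def AltIIw {V : Type} [Fintype V] (r n B N : ℕ) (G : SimpleGraph V) : Prop :=
  |Def r G - AB r n B| ≤ N * Real.sqrt (Real.sqrt n) ∧
    ∃ (g : V → Option (Fin r)) (w : V), Indep G g ∧ ∑ t, siz g t = n ∧
      {e | e ∈ missSet G g ∧ w ∉ e}.ncard + {e | e ∈ outSet G g ∧ w ∉ e}.ncard ≤ N ∧
      ((missSet G g).ncard : ℝ) + ((outSet G g).ncard : ℝ) ≤ N * Real.sqrt (Real.sqrt n) ∧
      ∃ t₀, B * |(siz g t₀ : ℝ) - (n / r + Real.sqrt (2 * B * ((r : ℝ) - 1) / r))|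
          ≤ N * (n * Real.sqrt (Real.sqrt n)) ∧
        ∀ t, t ≠ t₀ → Real.sqrt B * ((siz g t : ℝ)
          - (n / r - Real.sqrt (2 * B * ((r : ℝ) - 1) / r) / ((r : ℝ) - 1))) ^ 2
          ≤ N * (n * Real.sqrt (Real.sqrt n))

/-- (FINB) all maximisers for all sufficiently large `m` -/
def FINB_statement : Prop :=
  ∀ (W : Type) [Fintype W] (F : SimpleGraph W) (r : ℕ), 3 ≤ r → Crit r F →
    F.Colorable (r + 1) → ¬ F.Colorable r → ∃ N m₀ : ℕ, ∀ m ≥ m₀,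
    ∃ n D B : ℕ, (SimpleGraph.turanGraph n r).edgeSet.ncard + D = m ∧
      m + B = (SimpleGraph.turanGraph (n + 1) r).edgeSet.ncard ∧
      (∃ (k : ℕ) (G : SimpleGraph (Fin k)), IsMaximiser r m F G) ∧
      ∀ (V : Type) [Fintype V] (G : SimpleGraph V), IsMaximiser r m F G →
        |Def r G - min (2 * D * (qq r - D / n)) (AB r (n + 1) B)|
          ≤ N * Real.sqrt (Real.sqrt n) ∧
        (AltI r n D N G ∨ AltIIw r (n + 1) B N G)

end MP0c3a8f
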