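import Pool.Agent.Work.MP_0c3a8f_co.PB.Stmts6

/-!
# MP_0c3a8f_co: the extremal graphs minimise the cost up to `o(1)`, all sizes

`q = qq r = 1 - 1/r`.  The proofs are in the specifications (table `helpwanted`).
-/

open Finset

namespace MP0c3a8f

/-- (BDU) the spectral radius of a graph which is complete multipartite with one more vertex, up to
boundedly many edges -/
def BDU_statement : Prop :=
  ∀ r N : ℕ, 3 ≤ r → ∃ (C : ℝ) (n₀ : ℕ), 0 ≤ C ∧ ∀ (V : Type) [Fintype V]
    (G : SimpleGraph V) (g : V → Option (Fin r)) (w : V) (n : ℕ), n₀ ≤ n → Bd n N G g w →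
    |lam G ^ 2 - (lam (KU G g {w}) ^ 2 - 4 * qq r * (missSet G g).ncard)| ≤ C / n

/-- the cost (used for `U = ∅` and `U = {w}`): `2qm - λ(K)² + 4qa`, where `K` is the complete
multipartite graph on the parts with the vertices in `U` and their edges to the parts, and `a` is
the number of missing pairs -/
noncomputable def Cs {V : Type} [Fintype V] {r : ℕ} (m : ℕ) (G : SimpleGraph V)
    (g : V → Option (Fin r)) (U : Finset V) : ℝ :=
  2 * qq r * m + 4 * qq r * (missSet G g).ncard - lam (KU G g U) ^ 2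

/-- no graph of type one or two in `N_r(m, F)` has cost less than `c - η` -/
def LowC {W : Type} (r m n N : ℕ) (η : ℝ) (F : SimpleGraph W) (c : ℝ) : Prop :=
  ∀ (Y : Type) [Fintype Y] (H : SimpleGraph Y) (h : Y → Option (Fin r)), InN r m F H →
    (∀ u, Bd n N H h u → c ≤ Cs m H h {u} + η) ∧ (NK (n + 1) N H h → c ≤ Cs m H h ∅ + η)

/-- alternative one: the core has `n` vertices, `m = e(T_r(n)) + D` -/
def TyI {V : Type} [Fintype V] {r : ℕ} (n D N : ℕ) (G : SimpleGraph V)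
    (g : V → Option (Fin r)) (w : V) : Prop :=
  |Def r G - 2 * D * (qq r - D / n)| ≤ N ∧ Bd n N G g w ∧
    (N ≤ D → N * D ≤ n → (missSet G g).ncard = 0 ∧
      ∃ π : Equiv.Perm (Fin r), ∀ t, siz g t = tz r n (π t))

/-- alternative two: the core has `n` vertices, `m = e(T_r(n)) - B` -/
def TyII {V : Type} [Fintype V] {r : ℕ} (n B N : ℕ) (G : SimpleGraph V)
    (g : V → Option (Fin r)) (w : V) : Prop :=
  |Def r G - AB r n B| ≤ N * Real.sqrt (Real.sqrt n) ∧ NK n N G g ∧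
    {e | e ∈ missSet G g ∧ w ∉ e}.ncard + {e | e ∈ outSet G g ∧ w ∉ e}.ncard ≤ N ∧
    ∃ t₀, B * |(siz g t₀ : ℝ) - (n / r + Real.sqrt (2 * B * ((r : ℝ) - 1) / r))|
        ≤ N * (n * Real.sqrt (Real.sqrt n)) ∧
      ∀ t, t ≠ t₀ → Real.sqrt B * ((siz g t : ℝ)
        - (n / r - Real.sqrt (2 * B * ((r : ℝ) - 1) / r) / ((r : ℝ) - 1))) ^ 2
        ≤ N * (n * Real.sqrt (Real.sqrt n))

/-- (FIND) all maximisers for all sufficiently large `m` -/
def FIND_statement : Prop :=
  ∀ (W : Type) [Fintype W] (F : SimpleGraph W) (r : ℕ), 3 ≤ r → Crit r F →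
    F.Colorable (r + 1) → ¬ F.Colorable r → ∃ N : ℕ, ∀ (η : ℝ) (N' : ℕ), 0 < η → ∃ m₀ : ℕ,
    ∀ m ≥ m₀, ∃ n D B : ℕ, (SimpleGraph.turanGraph n r).edgeSet.ncard + D = m ∧
      m + B = (SimpleGraph.turanGraph (n + 1) r).edgeSet.ncard ∧
      (∃ (k : ℕ) (G : SimpleGraph (Fin k)), IsMaximiser r m F G) ∧
      ∀ (V : Type) [Fintype V] (G : SimpleGraph V), IsMaximiser r m F G →
        |Def r G - min (2 * D * (qq r - D / n)) (AB r (n + 1) B)|
          ≤ N * Real.sqrt (Real.sqrt n) ∧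
        ∃ (g : V → Option (Fin r)) (w : V),
          (TyI n D N G g w ∧ |Def r G - Cs m G g {w}| ≤ η ∧
            LowC r m n N' η F (Cs m G g {w})) ∨
          (TyII (n + 1) B N G g w ∧ |Def r G - Cs m G g ∅| ≤ η ∧
            LowC r m n N' η F (Cs m G g ∅))

end MP0c3a8f
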