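import Pool.Agent.Work.MP_0c3a8f_co.PB.Stmts7

/-!
# MP_0c3a8f_co: the exact extremal graphs for `F = K_{r+1}` in the upper range
`m = e(T_r(n)) - B`, `ε (1-1/r) n ≤ B ≤ (2/r - ε) (1-1/r) n`

`q = qq r = 1 - 1/r`.  The proofs are in the specifications (table `helpwanted`).
-/

open Finset

namespace MP0c3a8f

/-! ### Definitions -/

/-- `G` has maximal spectral radius for `F = K_{r+1}` and `m` edges -/
def MxK {V : Type} [Fintype V] (r m : ℕ) (G : SimpleGraph V) : Prop :=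
  IsMaximiser r m (⊤ : SimpleGraph (Fin (r + 1))) G

/-- nearly complete multipartite with one large class `i` -/
structure NL {V : Type} {r : ℕ} (n : ℕ) (C c : ℝ) (G : SimpleGraph V)
    (g : V → Option (Fin r)) (i : Fin r) : Prop where
  nk : NK n C G g
  big : ∀ t, t ≠ i → (siz g t : ℝ) + c * Real.sqrt n ≤ siz g i

open Classical in
/-- weight of the missing neighbours of `v` -/
noncomputable def muv {V : Type} [Fintype V] {r : ℕ} (G : SimpleGraph V)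
    (g : V → Option (Fin r)) (z : V → ℝ) (v : V) : ℝ :=
  ∑ u, if g v ≠ none ∧ g u ≠ none ∧ g u ≠ g v ∧ ¬ G.Adj v u then z u else 0

open Classical in
/-- weight of the light neighbours of `v` -/
noncomputable def omv {V : Type} [Fintype V] {r : ℕ} (G : SimpleGraph V)
    (g : V → Option (Fin r)) (z : V → ℝ) (v : V) : ℝ :=
  ∑ u, if g u = none ∧ G.Adj v u then z u else 0

open Classical in
/-- weight of the core neighbours of `v` -/
noncomputable def cov {V : Type} [Fintype V] {r : ℕ} (G : SimpleGraph V)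
    (g : V → Option (Fin r)) (z : V → ℝ) (v : V) : ℝ :=
  ∑ u, if g u ≠ none ∧ G.Adj v u then z u else 0

/-- `n` minus the weight of the class `t` -/
noncomputable def tv {V : Type} [Fintype V] {r : ℕ} (g : V → Option (Fin r)) (z : V → ℝ)
    (n : ℕ) (t : Fin r) : ℝ :=
  (n : ℝ) - cw z g (some t)

/-- number of the core neighbours of `v` -/
noncomputable def cnb {V : Type} {r : ℕ} (G : SimpleGraph V) (g : V → Option (Fin r)) (v : V) :
    ℕ :=
  {u | g u ≠ none ∧ G.Adj v u}.ncard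

/-- number of the vertices of `L` in the class `t` -/
noncomputable def lc {V : Type} {r : ℕ} (L : Finset V) (g : V → Option (Fin r)) (t : Fin r) :
    ℕ :=
  {v | v ∈ L ∧ g v = some t}.ncard

/-- type `P`: the complete multipartite graph without the edges between the vertex `q i` of the
part `i` and the vertices in `L` (in the other parts), and one new vertex `w`, joined to one
vertex `q t` of each part, at least one of them in `L` -/
structure TyP {V : Type} {r : ℕ} (G : SimpleGraph V) (f : V → Option (Fin r)) (w : V)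
    (q : Fin r → V) (i : Fin r) (L : Finset V) : Prop where
  out : ∀ v, f v = none ↔ v = w
  hq : ∀ t, f (q t) = some t
  wn : ∀ v, G.Adj w v ↔ ∃ t, v = q t
  hL : ∀ v ∈ L, f v ≠ none ∧ f v ≠ some i
  core : ∀ u v, f u ≠ none → f v ≠ none →
    (G.Adj u v ↔ f u ≠ f v ∧ ¬ (u = q i ∧ v ∈ L) ∧ ¬ (v = q i ∧ u ∈ L))
  ex : ∃ t, q t ∈ L
  room : ∀ t, L.card + 2 ≤ siz f t

/-- the extremal graphs of type `P` with parts of the sizes `σ t` and `a` missing edges -/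
def IsXP {V : Type} {r : ℕ} (σ : Fin r → ℕ) (a : ℕ) (G : SimpleGraph V) : Prop :=
  ∃ (f : V → Option (Fin r)) (w : V) (q : Fin r → V) (i : Fin r) (L : Finset V),
    TyP G f w q i L ∧ (∃! t, q t ∈ L) ∧ L.card = a ∧ (∀ t, siz f t = σ t) ∧
    (∀ t, t ≠ i → σ t < σ i) ∧
    (∀ v ∈ L, ∀ t, f v = some t → ∀ s, s ≠ i → σ s ≤ σ t) ∧
    ∀ s t, s ≠ i → t ≠ i → σ s = σ t → lc L f s ≤ lc L f t + 1

/-- the extremal graphs of type `Q` with parts of the sizes `σ t`, one missing edge and `b` outer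
edges -/
def IsXQ {V : Type} {r : ℕ} (σ : Fin r → ℕ) (b : ℕ) (G : SimpleGraph V) : Prop :=
  ∃ (f : V → Option (Fin r)) (w p p' : V) (i j : Fin r), Th1 G f w p p' i j ∧
    ∑ t, nbn G f w t = b ∧ (∀ t, siz f t = σ t) ∧ (∀ t, t ≠ i → σ t < σ i) ∧
    (∀ t, t ≠ i → σ t ≤ σ j) ∧
    ∀ s t, s ≠ i → s ≠ j → t ≠ i → t ≠ j →
      (σ s = σ t → nbn G f w s ≤ nbn G f w t + 1) ∧ (σ t < σ s → nbn G f w s = 1)

/-- the extremal graphs of type `R` with parts of the sizes `σ t`, no missing edge and `b` outer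
edges -/
def IsXR {V : Type} {r : ℕ} (σ : Fin r → ℕ) (b : ℕ) (G : SimpleGraph V) : Prop :=
  ∃ (f : V → Option (Fin r)) (w u : V) (v : Fin r → V) (i : Fin r), Th2 G f w u v i ∧
    (∃! t, t ≠ i ∧ ¬ G.Adj w (v t)) ∧ ∑ t, nbn G f w t + r = b ∧ (∀ t, siz f t = σ t) ∧
    (∀ t, t ≠ i → σ t < σ i) ∧
    ∀ s t, s ≠ i → t ≠ i →
      (σ s = σ t → nbn G f w s ≤ nbn G f w t + 1) ∧ (σ t < σ s → nbn G f w s = 1)

/-- the candidates for the extremal graphs with parts of the sizes `σ t` and `m` edges -/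
def IsX {V : Type} {r : ℕ} (σ : Fin r → ℕ) (m : ℕ) (G : SimpleGraph V) : Prop :=
  (∀ t, 2 ≤ σ t) ∧ G.edgeSet.ncard = m ∧
    ((∃ a, IsXP σ a G) ∨ (∃ b, r + 1 ≤ b ∧ b ≤ 2 * r - 1 ∧ IsXQ σ b G) ∨ ∃ b, IsXR σ b G)

/-! ### General tools -/

/-- (NLU) the structure of the extremal graphs in the upper range -/
def NLU_statement : Prop :=
  ∀ (r : ℕ) (ε : ℝ), 3 ≤ r → 0 < ε → ∃ (C c : ℝ) (n₀ : ℕ), 0 ≤ C ∧ 0 < c ∧ ∀ n ≥ n₀,
    ∀ B m : ℕ, RU r n B ε → m + B = (SimpleGraph.turanGraph n r).edgeSet.ncard →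
    ∀ (V : Type) [Fintype V] (G : SimpleGraph V), MxK r m G →
      ∃ (g : V → Option (Fin r)) (i : Fin r), NL n C c G g i

/-- (RSI) restriction to a set of vertices which contains all edges -/
def RSI_statement : Prop :=
  ∀ (V : Type) [Fintype V] (H : SimpleGraph V) (S : Set V) [Fintype S], S.Nonempty →
    (∀ u v, H.Adj u v → u ∈ S ∧ v ∈ S) →
    lam H ≤ lam (H.comap (Subtype.val : S → V)) ∧
    (H.comap (Subtype.val : S → V)).edgeSet.ncard = H.edgeSet.ncard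

/-- (QMB) comparison graphs of type one on the same vertex set -/
def QMB_statement : Prop :=
  ∀ (r m : ℕ) (V : Type) [Fintype V] (G : SimpleGraph V) (g : V → Option (Fin r))
    (w p p' : V) (i j : Fin r) (A : Finset V), 3 ≤ r → MxK r m G → g w = none → i ≠ j →
    (∀ v ∈ A, g v ≠ none) → (∀ v, (v ∈ A ∧ g v = some i) ↔ v = p) →
    (∀ v, (v ∈ A ∧ g v = some j) ↔ v = p') → (∀ t, ∃ v ∈ A, g v = some t) →
    (∀ t, 2 ≤ siz g t) →
    2 * m + 2 + ∑ t, siz g t ^ 2 = (∑ t, siz g t) ^ 2 + 2 * A.card →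
    ∃ H : SimpleGraph V, Indep H g ∧ (∀ u v, g u = none → u ≠ w → ¬ H.Adj u v) ∧
      (∀ v, H.Adj w v ↔ v ∈ A) ∧
      (∀ u v, g u ≠ none → g v ≠ none → (H.Adj u v ↔ g u ≠ g v ∧ s(u, v) ≠ s(p, p'))) ∧
      lam H ≤ lam G

/-- (RMB) comparison graphs of type two on the same vertex set -/
def RMB_statement : Prop :=
  ∀ (r m : ℕ) (V : Type) [Fintype V] (G : SimpleGraph V) (g : V → Option (Fin r))
    (w u : V) (v : Fin r → V) (i : Fin r) (A : Finset V), 3 ≤ r → MxK r m G → g w = none →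
    g u = none → w ≠ u → (∀ x ∈ A, g x ≠ none ∧ g x ≠ some i) →
    (∀ t, t ≠ i → ∃ x ∈ A, g x = some t) → (∀ t, t ≠ i → g (v t) = some t) →
    (∃ t, t ≠ i ∧ v t ∉ A) → (∀ t, 1 ≤ siz g t) →
    2 * m + ∑ t, siz g t ^ 2 = (∑ t, siz g t) ^ 2 + 2 * A.card + 2 * r →
    ∃ H : SimpleGraph V, Indep H g ∧ (missSet H g).ncard = 0 ∧ H.Adj w u ∧
      (∀ x y, g x = none → x ≠ w → x ≠ u → ¬ H.Adj x y) ∧
      (∀ x, g x ≠ none → (H.Adj w x ↔ x ∈ A)) ∧
      (∀ x, g x ≠ none → (H.Adj u x ↔ ∃ t, t ≠ i ∧ x = v t)) ∧ lam H ≤ lam G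

/-- (MVE) moving an edge -/
def MVE_statement : Prop :=
  ∀ (V : Type) [Fintype V] (G H : SimpleGraph V) (z : V → ℝ) (w y y' : V), (∀ v, 0 ≤ z v) →
    (∀ v, ∑ u, adj G v u * z u = lam G * z v) → 0 < lam G → 0 < z w → w ≠ y' →
    G.Adj w y → ¬ G.Adj w y' →
    (∀ u v, H.Adj u v ↔ (G.Adj u v ∧ s(u, v) ≠ s(w, y)) ∨ s(u, v) = s(w, y')) →
    z w / lam G * adj G y y' < lam G * (z y' - z y) + z w → lam G < lam H

/-- (TCL) the eigenvalue equations and the weights of the classes -/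
def TCL_statement : Prop :=
  ∀ (r : ℕ) (C : ℝ), 3 ≤ r → 0 ≤ C → ∃ (C' : ℝ) (n₀ : ℕ), 0 ≤ C' ∧ ∀ (V : Type) [Fintype V]
    (G : SimpleGraph V) (z : V → ℝ) (g : V → Option (Fin r)) (n : ℕ), n₀ ≤ n → NK n C G g →
    Per G z g n →
    (∀ v t, g v = some t → lam G * z v = tv g z n t - muv G g z v + omv G g z v) ∧
    (∀ t, (lam G + siz g t) * tv g z n t = lam G * n
      + (cw (fun v => muv G g z v) g (some t) - cw (fun v => omv G g z v) g (some t))) ∧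
    ∀ s t, siz g s ≤ siz g t →
      ((siz g t : ℝ) - siz g s) / 2 - C' * ((missSet G g).ncard + 1) / n
        ≤ tv g z n s - tv g z n t

open Classical in
/-- (SWZ) second order comparison with a graph with one light vertex -/
def SWZ_statement : Prop :=
  ∀ (r : ℕ) (C : ℝ), 3 ≤ r → 0 ≤ C → ∃ (C' : ℝ) (n₀ : ℕ), 0 ≤ C' ∧ ∀ (V : Type) [Fintype V]
    (G H : SimpleGraph V) (z : V → ℝ) (g : V → Option (Fin r)) (w : V) (n : ℕ), n₀ ≤ n →
    NK n C G g → NK n C H g → g w = none → (∀ u v, g u = none → u ≠ w → ¬ H.Adj u v) →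
    Per G z g n → lam H ≤ lam G →
    (miss G (fun v => (n : ℝ) - cw z g (g v)) g - miss H (fun v => (n : ℝ) - cw z g (g v)) g)
        / lam G
      + (∑ v, muv H g z v ^ 2 - ∑ v, muv G g z v ^ 2)
      + (cov H g z w ^ 2 - ∑ v, if g v = none then cov G g z v ^ 2 else 0)
      ≤ C' * ((missSet G g).ncard + (missSet H g).ncard + (outSet G g).ncard
          + (outSet H g).ncard + 1) ^ 3 / n

open Classical in
/-- (SWR) second order comparison with a graph with two light vertices, complete core -/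
def SWR_statement : Prop :=
  ∀ (r : ℕ) (C : ℝ), 3 ≤ r → 0 ≤ C → ∃ n₀ : ℕ, ∀ (V : Type) [Fintype V]
    (G H : SimpleGraph V) (z : V → ℝ) (g : V → Option (Fin r)) (w u : V) (n : ℕ), n₀ ≤ n →
    NK n C G g → (missSet G g).ncard = 0 → Indep H g → (missSet H g).ncard = 0 →
    g w = none → g u = none → w ≠ u → H.Adj w u →
    (∀ x y, g x = none → x ≠ w → x ≠ u → ¬ H.Adj x y) → Per G z g n → lam H ≤ lam G →
    cov H g z w ^ 2 + cov H g z u ^ 2 + 2 * (cov H g z w * cov H g z u) / lam G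
      ≤ ∑ x, if g x = none then cov G g z x ^ 2 + cov G g z x * omv G g z x else 0

/-- (SQE) sums of squares of degrees -/
def SQE_statement : Prop :=
  ∀ (V : Type) [Fintype V] [Nonempty V] (M : SimpleGraph V),
    ∑ v, ({u | M.Adj v u}.ncard) ^ 2 ≤ M.edgeSet.ncard ^ 2 + M.edgeSet.ncard ∧
    ((∀ x y z, M.Adj x y → M.Adj y z → ¬ M.Adj x z) → (∃ w, ∀ e ∈ M.edgeSet, w ∈ e) ∨
      2 * ∑ v, ({u | M.Adj v u}.ncard) ^ 2 + M.edgeSet.ncard
        ≤ 2 * (M.edgeSet.ncard ^ 2 + M.edgeSet.ncard))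

/-- (MEMP) graphs of type `P` -/
def MEMP_statement : Prop :=
  ∀ (r : ℕ) (V : Type) [Fintype V] (G : SimpleGraph V) (f : V → Option (Fin r)) (w : V)
    (q : Fin r → V) (i : Fin r) (L : Finset V), 3 ≤ r → TyP G f w q i L →
    (⊤ : SimpleGraph (Fin (r + 1))).Free G ∧ ¬ G.Colorable r ∧ (∀ v, ∃ u, G.Adj v u) ∧
    Indep G f ∧ (missSet G f).ncard = L.card ∧ (outSet G f).ncard = r ∧
    2 * G.edgeSet.ncard + 2 * L.card + ∑ t, siz f t ^ 2 = (∑ t, siz f t) ^ 2 + 2 * r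

/-- (FAMP) existence of graphs of type `P` -/
def FAMP_statement : Prop :=
  ∀ (r a : ℕ) (τ : Fin r → ℕ), 3 ≤ r → 1 ≤ a → (∀ t, a + 2 ≤ τ t) →
    ∃ (k : ℕ) (H : SimpleGraph (Fin k)) (f : Fin k → Option (Fin r)) (w : Fin k)
      (q : Fin r → Fin k) (i : Fin r) (L : Finset (Fin k)), TyP H f w q i L ∧ L.card = a ∧
      ∀ t, siz f t = τ t

open Classical in
/-- (RLE) complete core: the numbers of core neighbours of the light vertices -/
def RLE_statement : Prop :=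
  ∀ (r b : ℕ) (V : Type) [Fintype V] (G : SimpleGraph V) (g : V → Option (Fin r)), 3 ≤ r →
    Indep G g → (missSet G g).ncard = 0 → (∀ t, 1 ≤ siz g t) →
    (⊤ : SimpleGraph (Fin (r + 1))).Free G → ¬ G.Colorable r → (∀ v, ∃ u, G.Adj v u) →
    (outSet G g).ncard = b →
    2 * r - 1 ≤ b ∧ ∃ w, g w = none ∧ (∀ x, g x = none → cnb G g x ≤ cnb G g w) ∧
      (lightSet G g {w}).ncard + cnb G g w = b ∧
      ((lightSet G g {w}).ncard = r ∨
        ((∑ x, if g x = none then cnb G g x ^ 2 else 0) + 1 ≤ (b - r) ^ 2 + (r - 1) ^ 2 ∧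
          (4 * r ≤ b → (∑ x, if g x = none then cnb G g x ^ 2 else 0) + b
            ≤ (b - r) ^ 2 + (r - 1) ^ 2)))

/-- (CAB) the numbers of missing pairs and outer edges -/
def CAB_statement : Prop :=
  ∀ (r : ℕ) (C : ℝ), 3 ≤ r → 0 ≤ C → ∃ n₀ : ℕ, ∀ (V : Type) [Fintype V] (G : SimpleGraph V)
    (g : V → Option (Fin r)) (n m : ℕ), n₀ ≤ n → MxK r m G → NK n C G g →
    ((outSet G g).ncard = r ∧ 1 ≤ (missSet G g).ncard) ∨
    ((missSet G g).ncard = 1 ∧ r + 1 ≤ (outSet G g).ncard ∧ (outSet G g).ncard ≤ 2 * r - 1) ∨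
    ((missSet G g).ncard = 0 ∧ 2 * r - 1 ≤ (outSet G g).ncard)

/-! ### The three types -/

/-- (PST) type `P` -/
def PST_statement : Prop :=
  ∀ (r : ℕ) (C c : ℝ), 3 ≤ r → 0 ≤ C → 0 < c → ∃ n₀ : ℕ, ∀ (V : Type) [Fintype V]
    (G : SimpleGraph V) (g : V → Option (Fin r)) (i : Fin r) (n m : ℕ), n₀ ≤ n →
    MxK r m G → NL n C c G g i → (outSet G g).ncard = r → 1 ≤ (missSet G g).ncard →
    ∃ (w : V) (q : Fin r → V) (L : Finset V), TyP G g w q i L

/-- (PEV) the leaves, type `P` -/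
def PEV_statement : Prop :=
  ∀ (r : ℕ) (C c : ℝ), 3 ≤ r → 0 ≤ C → 0 < c → ∃ n₀ : ℕ, ∀ (V : Type) [Fintype V]
    (G : SimpleGraph V) (g : V → Option (Fin r)) (w : V) (q : Fin r → V) (i : Fin r)
    (L : Finset V) (n m : ℕ), n₀ ≤ n → MxK r m G → NL n C c G g i → TyP G g w q i L →
    (∃! t, q t ∈ L) ∧
    (∀ v ∈ L, ∀ t, g v = some t → ∀ s, s ≠ i → siz g s ≤ siz g t) ∧
    ∀ s t, s ≠ i → t ≠ i → siz g s = siz g t → lc L g s ≤ lc L g t + 1

/-- (QST) type `Q` -/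
def QST_statement : Prop :=
  ∀ (r : ℕ) (C c : ℝ), 3 ≤ r → 0 ≤ C → 0 < c → ∃ n₀ : ℕ, ∀ (V : Type) [Fintype V]
    (G : SimpleGraph V) (g : V → Option (Fin r)) (i : Fin r) (n m : ℕ), n₀ ≤ n →
    MxK r m G → NL n C c G g i → (missSet G g).ncard = 1 → r + 1 ≤ (outSet G g).ncard →
    (outSet G g).ncard ≤ 2 * r - 1 →
    ∃ (w p p' : V) (j : Fin r), Th1 G g w p p' i j ∧ (∀ t, t ≠ i → siz g t ≤ siz g j) ∧
      ∑ t, nbn G g w t = (outSet G g).ncard

/-- (QEV) the neighbours of `w`, type `Q` -/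
def QEV_statement : Prop :=
  ∀ (r : ℕ) (C : ℝ), 3 ≤ r → 0 ≤ C → ∃ n₀ : ℕ, ∀ (V : Type) [Fintype V]
    (G : SimpleGraph V) (g : V → Option (Fin r)) (w p p' : V) (i j : Fin r) (n m : ℕ),
    n₀ ≤ n → MxK r m G → NK n C G g → Th1 G g w p p' i j →
    ∀ s t, s ≠ i → s ≠ j → t ≠ i → t ≠ j →
      (siz g s = siz g t → nbn G g w s ≤ nbn G g w t + 1) ∧
      (siz g t < siz g s → nbn G g w s = 1)

/-- (RST) type `R` -/
def RST_statement : Prop :=
  ∀ (r : ℕ) (C : ℝ), 3 ≤ r → 0 ≤ C → ∃ n₀ : ℕ, ∀ (V : Type) [Fintype V]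
    (G : SimpleGraph V) (g : V → Option (Fin r)) (n m : ℕ), n₀ ≤ n →
    MxK r m G → NK n C G g → (missSet G g).ncard = 0 →
    ∃ (w u : V) (v : Fin r → V) (k : Fin r), Th2 G g w u v k

/-- (RII) `w` belongs to the largest class, type `R` -/
def RII_statement : Prop :=
  ∀ (r : ℕ) (C c : ℝ), 3 ≤ r → 0 ≤ C → 0 < c → ∃ n₀ : ℕ, ∀ (V : Type) [Fintype V]
    (G : SimpleGraph V) (g : V → Option (Fin r)) (w u : V) (v : Fin r → V) (i k : Fin r)
    (n m : ℕ), n₀ ≤ n → MxK r m G → NL n C c G g i → Th2 G g w u v k → k = i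

/-- (REV) the neighbours of `w`, type `R` -/
def REV_statement : Prop :=
  ∀ (r : ℕ) (C : ℝ), 3 ≤ r → 0 ≤ C → ∃ n₀ : ℕ, ∀ (V : Type) [Fintype V]
    (G : SimpleGraph V) (g : V → Option (Fin r)) (w u : V) (v : Fin r → V) (i : Fin r)
    (n m : ℕ), n₀ ≤ n → MxK r m G → NK n C G g → Th2 G g w u v i →
    (∃! t, t ≠ i ∧ ¬ G.Adj w (v t)) ∧
    ∀ s t, s ≠ i → t ≠ i →
      (siz g s = siz g t → nbn G g w s ≤ nbn G g w t + 1) ∧
      (siz g t < siz g s → nbn G g w s = 1)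

/-! ### Uniqueness and the final theorem -/

/-- (TIP) ties, type `P` -/
def TIP_statement : Prop :=
  ∀ (r : ℕ) (V V' : Type) [Fintype V] [Fintype V'] (G : SimpleGraph V) (G' : SimpleGraph V')
    (f : V → Option (Fin r)) (f' : V' → Option (Fin r)) (w : V) (w' : V') (q : Fin r → V)
    (q' : Fin r → V') (i : Fin r) (L : Finset V) (L' : Finset V') (π : Equiv.Perm (Fin r)),
    3 ≤ r → TyP G f w q i L → TyP G' f' w' q' (π i) L' → (∀ t, siz f' (π t) = siz f t) →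
    (∀ t, lc L' f' (π t) = lc L f t) → (∃! t, q t ∈ L) → (∃! t, q' t ∈ L') → lam G = lam G'

/-- (GVG) uniqueness of even greedy vectors -/
def GVG_statement : Prop :=
  ∀ (r m₀ : ℕ) (A : Finset (Fin r)) (ρ : Fin r → ℤ) (d d' : Fin r → ℕ),
    (∀ t, t ∉ A → d t = d' t) → (∀ t ∈ A, m₀ ≤ d t ∧ m₀ ≤ d' t) →
    (∀ k ∈ A, ∀ l ∈ A, ρ l < ρ k → d k = m₀ ∧ d' k = m₀) →
    (∀ k ∈ A, ∀ l ∈ A, ρ k = ρ l → d k ≤ d l + 1 ∧ d' k ≤ d' l + 1) →
    ∑ t, d t = ∑ t, d' t →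
    ∃ π : Equiv.Perm (Fin r), (∀ t, t ∉ A → π t = t) ∧ (∀ t, ρ (π t) = ρ t) ∧
      ∀ t, d' (π t) = d t

/-- (UNX) the candidates with given sizes of the parts have the same spectral radius -/
def UNX_statement : Prop :=
  ∀ (r m : ℕ) (σ : Fin r → ℕ) (V U : Type) [Fintype V] [Fintype U] (G : SimpleGraph V)
    (H : SimpleGraph U), 3 ≤ r → IsX σ m G → IsX σ m H → lam G = lam H

/-- (FINC) the extremal graphs for `K_{r+1}` in the upper range -/
def FINC_statement : Prop :=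
  ∀ (r : ℕ) (ε : ℝ), 3 ≤ r → 0 < ε → ∃ n₀ : ℕ, ∀ n ≥ n₀, ∀ B m : ℕ, RU r n B ε →
    m + B = (SimpleGraph.turanGraph n r).edgeSet.ncard →
    (∃ (k : ℕ) (G : SimpleGraph (Fin k)), MxK r m G) ∧
    ∀ (V : Type) [Fintype V] (G : SimpleGraph V), MxK r m G ↔
      (∃ σ : Fin r → ℕ, ∑ t, σ t = n ∧ IsX σ m G) ∧
        ∀ (U : Type) [Fintype U] (H : SimpleGraph U) (σ : Fin r → ℕ), ∑ t, σ t = n →
          IsX σ m H → lam H ≤ lam G

end MP0c3a8f
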