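import Pool.Agent.Work.MP_0c3a8f_co.PB.Stmts11
import Pool.Agent.Work.MP_0c3a8f_co.Bd.B16

/-!
# MP_0c3a8f_co: structure and cost of the extremal graphs, all `F`, all sizes
-/

set_option autoImplicit false

open Finset

namespace MP0c3a8f

/-- (FINM) all maximisers for all sufficiently large `m`: structure and cost -/
def FINM_statement : Prop :=
  ∀ (W : Type) [Fintype W] (F : SimpleGraph W) (r : ℕ), 3 ≤ r → Crit r F →
    F.Colorable (r + 1) → ¬ F.Colorable r → ∃ N : ℕ, ∀ (η : ℝ) (N' : ℕ), 0 < η →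
    ∃ m₀ : ℕ, ∀ m ≥ m₀,
    ∃ n D B : ℕ, (SimpleGraph.turanGraph n r).edgeSet.ncard + D = m ∧
      m + B = (SimpleGraph.turanGraph (n + 1) r).edgeSet.ncard ∧ 1 ≤ B ∧
      (∃ (k : ℕ) (G : SimpleGraph (Fin k)), IsMaximiser r m F G) ∧
      ∀ (V : Type) [Fintype V] (G : SimpleGraph V), IsMaximiser r m F G →
        |Def r G - min (2 * D * (qq r - D / n)) (AB r (n + 1) B)|
          ≤ N * Real.sqrt (Real.sqrt n) ∧
        ∃ (g : V → Option (Fin r)) (w : V),
          (KI n D N G g w ∧ |Def r G - Cs m G g {w}| ≤ η ∧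
            LowC r m n N' η F (Cs m G g {w})) ∨
          (KII (n + 1) B N G g w ∧ |Def r G - Cs m G g ∅| ≤ η ∧
            LowC r m n N' η F (Cs m G g ∅))

open ItemFIND in
theorem prfFINM : P_statement → DEV_statement → FINK_statement → BDU_statement →
    UPL_statement → LOL_statement → FINM_statement := by
  classical
  intro hP hDe hB hBD hU hL W _ F r hr hcrit hcol hncol
  obtain ⟨N, m0, h1⟩ := hB W F r hr hcrit hcol hncol
  refine ⟨N, fun η N' hη => ?_⟩
  have hη2 : 0 < η / 2 := by linarith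
  have key : ∀ M : ℕ, ∃ n₀ : ℕ, ∀ n ≥ n₀, ∀ (V : Type) [Fintype V]
      (G : SimpleGraph V) (g : V → Option (Fin r)) (m : ℕ), G.edgeSet.ncard = m →
      (∀ w, Bd n M G g w → |Def r G - Cs m G g {w}| ≤ η / 2) ∧
      (NK (n + 1) M G g → |Def r G - Cs m G g ∅| ≤ η / 2) := by
    intro M
    obtain ⟨C1, n1, -, k1⟩ := hBD r M hr
    obtain ⟨C2, n2, -, k2⟩ := hU r M hr (Nat.cast_nonneg M)
    obtain ⟨C3, n3, -, k3⟩ := hL r M hr (Nat.cast_nonneg M)
    obtain ⟨a1, s1⟩ := small C1 (η / 2) hη2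
    obtain ⟨a2, s2⟩ := small C2 (η / 2) hη2
    obtain ⟨a3, s3⟩ := small C3 (η / 2) hη2
    refine ⟨n1 + n2 + n3 + a1 + a2 + a3, fun n hn V _ G g m hG => ⟨fun w hw => ?_, fun hk => ?_⟩⟩
    · have e1 := k1 V G g w n (by omega) hw
      have e2 := (s1 n (by omega)).1
      rw [abs_le] at e1
      exact def_cs g {w} hG (by linarith [e1.2]) (by linarith [e1.1])
    · have e1 := k2 V G g (n + 1) (by omega) hk
      have e2 := k3 V G g (n + 1) (by omega) hk
      have e3 := (s2 (n + 1) (by omega)).2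
      have e4 := (s3 (n + 1) (by omega)).2
      exact def_cs g ∅ hG (by linarith) (by linarith)
  obtain ⟨n1, k1⟩ := key N
  obtain ⟨n2, k2⟩ := key N'
  refine ⟨max m0 ((n1 + n2 + 1) ^ 2), fun m hm => ?_⟩
  rw [ge_iff_le, max_le_iff] at hm
  obtain ⟨n, D, B, e1, e2, e0, e3, e4⟩ := h1 m hm.1
  have hn : n1 + n2 + 1 ≤ n + 1 := by
    have h3 := turan_le hDe r (n + 1) (by omega)
    have h4 : (n1 + n2 + 1) ^ 2 ≤ (n + 1) ^ 2 := by omega
    exact (Nat.pow_le_pow_iff_left (by norm_num)).1 h4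
  refine ⟨n, D, B, e1, e2, e0, e3, fun V _ G hG => ?_⟩
  obtain ⟨e5, g, w, e6⟩ := e4 V G hG
  refine ⟨e5, g, w, ?_⟩
  have hGm : G.edgeSet.ncard = m := hG.1.size
  have low : ∀ c : ℝ, c ≤ Def r G + η / 2 → LowC r m n N' η F c := by
    intro c hc Y _ H h hH
    have d1 : Def r G ≤ Def r H := def_le hGm hH.size (lam_nonneg hP hH) (hG.2 Y H hH)
    have d2 := k2 n (by omega) Y H h m hH.size
    refine ⟨fun u hu => ?_, fun hk => ?_⟩
    · have d3 := (abs_le.1 (d2.1 u hu)).2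
      linarith
    · have d3 := (abs_le.1 (d2.2 hk)).2
      linarith
  rcases e6 with e6 | e6
  · have a5 := (k1 n (by omega) V G g m hGm).1 w e6.2.1
    refine Or.inl ⟨e6, a5.trans (by linarith), low _ ?_⟩
    linarith [(abs_le.1 a5).1]
  · have a5 := (k1 n (by omega) V G g m hGm).2 e6.2.1
    refine Or.inr ⟨e6, a5.trans (by linarith), low _ ?_⟩
    linarith [(abs_le.1 a5).1]

end MP0c3a8f
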