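import Pool.Agent.Work.MP_0c3a8f_co.PB.Stmts

/-!
# MP_0c3a8f_co, phase B: item ISO1
-/

open Finset

namespace MP0c3a8f

namespace ItemISO1

open Classical in
/-- the key of a vertex -/
noncomputable def key {V : Type} {r : ℕ} (G : SimpleGraph V) (f : V → Option (Fin r)) (w v : V) :
    Option (Fin r) × Bool := (f v, decide (G.Adj w v))

theorem key_eq {V : Type} {r : ℕ} (G : SimpleGraph V) (f : V → Option (Fin r)) (w v : V)
    (o : Option (Fin r)) (b : Bool) :
    key G f w v = (o, b) ↔ f v = o ∧ (G.Adj w v ↔ b = true) := by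
  unfold key
  rw [Prod.mk.injEq]
  cases b <;> simp

theorem uniq {V : Type} {r : ℕ} [Fintype V] {G : SimpleGraph V} {f : V → Option (Fin r)} {w : V}
    {i : Fin r} (h : nbn G f w i = 1) {p x : V} (hp : f p = some i) (hwp : G.Adj w p)
    (hx : f x = some i) (hwx : G.Adj w x) : x = p := by
  unfold nbn at h
  rw [Set.ncard_eq_one] at h
  obtain ⟨a, ha⟩ := h
  have h1 : p ∈ {v | f v = some i ∧ G.Adj w v} := ⟨hp, hwp⟩
  have h2 : x ∈ {v | f v = some i ∧ G.Adj w v} := ⟨hx, hwx⟩
  rw [ha] at h1 h2
  rw [Set.mem_singleton_iff.1 h1, Set.mem_singleton_iff.1 h2]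

theorem split {V : Type} {r : ℕ} [Fintype V] (G : SimpleGraph V) (f : V → Option (Fin r)) (w : V)
    (t : Fin r) : nbn G f w t + {v | f v = some t ∧ ¬ G.Adj w v}.ncard = siz f t := by
  unfold nbn siz
  rw [← Set.ncard_union_eq _ (Set.toFinite _) (Set.toFinite _)]
  · congr 1
    ext v
    simp only [Set.mem_union, Set.mem_ofPred_eq]
    tauto
  · rw [Set.disjoint_left]
    intro v h1 h2
    exact h2.2 h1.2

end ItemISO1

open ItemISO1 in
theorem prfISO1 : ISO1_statement := by
  classical
  intro r V V' _ _ G G' f f' w p p₁ w' p' p₁' i j h h' hs hn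
  have hcard : ∀ c : Option (Fin r) × Bool,
      Nonempty ({a // key G f w a = c} ≃ {b // key G' f' w' b = c}) := by
    rintro ⟨o, b⟩
    rw [← Finite.card_eq]
    change Nat.card ↥{a | key G f w a = (o, b)} = Nat.card ↥{a | key G' f' w' a = (o, b)}
    rw [Nat.card_coe_set_eq, Nat.card_coe_set_eq]
    simp only [key_eq]
    have hA : ∀ t, {v | f v = some t ∧ ¬ G.Adj w v}.ncard
        = {v | f' v = some t ∧ ¬ G'.Adj w' v}.ncard := by
      intro t
      have h1 := split G f w t
      have h2 := split G' f' w' t
      have h3 := hs t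
      have h4 := hn t
      omega
    cases o with
    | none =>
      cases b with
      | true =>
        have e1 : {a | f a = none ∧ (G.Adj w a ↔ true = true)} = ∅ := by
          ext v
          simp only [Set.mem_ofPred_eq, iff_true, Set.mem_empty_iff_false, iff_false, not_and]
          intro hv hwv
          rw [(h.ty.out v).1 hv] at hwv
          exact G.loopless.irrefl _ hwv
        have e2 : {a | f' a = none ∧ (G'.Adj w' a ↔ true = true)} = ∅ := by
          ext v
          simp only [Set.mem_ofPred_eq, iff_true, Set.mem_empty_iff_false, iff_false, not_and]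
          intro hv hwv
          rw [(h'.ty.out v).1 hv] at hwv
          exact G'.loopless.irrefl _ hwv
        rw [e1, e2, Set.ncard_empty, Set.ncard_empty]
      | false =>
        have e1 : {a | f a = none ∧ (G.Adj w a ↔ false = true)} = {w} := by
          ext v
          simp only [Set.mem_ofPred_eq, Set.mem_singleton_iff]
          constructor
          · rintro ⟨hv, _⟩
            exact (h.ty.out v).1 hv
          · rintro rfl
            exact ⟨(h.ty.out v).2 rfl, by simp⟩
        have e2 : {a | f' a = none ∧ (G'.Adj w' a ↔ false = true)} = {w'} := by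
          ext v
          simp only [Set.mem_ofPred_eq, Set.mem_singleton_iff]
          constructor
          · rintro ⟨hv, _⟩
            exact (h'.ty.out v).1 hv
          · rintro rfl
            exact ⟨(h'.ty.out v).2 rfl, by simp⟩
        rw [e1, e2, Set.ncard_singleton, Set.ncard_singleton]
    | some t =>
      cases b with
      | true => simpa [nbn] using hn t
      | false => simpa using hA t
  let e : V ≃ V' := Equiv.ofFiberEquiv (f := key G f w) (g := key G' f' w')
    (fun c => (hcard c).some)
  have he : ∀ v, key G' f' w' (e v) = key G f w v := fun v => Equiv.ofFiberEquiv_map _ v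
  have he1 : ∀ v, f' (e v) = f v := fun v => congrArg Prod.fst (he v)
  have he2 : ∀ v, G'.Adj w' (e v) ↔ G.Adj w v := by
    intro v
    have := congrArg Prod.snd (he v)
    simpa [key] using this
  have hw : e w = w' := (h'.ty.out _).1 (by rw [he1]; exact (h.ty.out w).2 rfl)
  have hp : e p = p' := uniq h'.ni h'.ty.hp h'.wp (by rw [he1]; exact h.ty.hp) ((he2 p).2 h.wp)
  have hp₁ : e p₁ = p₁' :=
    uniq h'.nj h'.ty.hp' h'.wp' (by rw [he1]; exact h.ty.hp') ((he2 p₁).2 h.wp')
  refine ⟨⟨e, ?_⟩⟩
  intro a b
  by_cases ha : f a = none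
  · have haw := (h.ty.out a).1 ha
    rw [haw, hw]
    exact he2 b
  · by_cases hb : f b = none
    · have hbw := (h.ty.out b).1 hb
      rw [hbw, hw, G'.adj_comm, G.adj_comm]
      exact he2 a
    · rw [h.ty.core a b ha hb, h'.ty.core (e a) (e b) (by rwa [he1]) (by rwa [he1]), he1, he1,
        ← hp, ← hp₁]
      simp only [Ne, Sym2.eq_iff, e.injective.eq_iff]

end MP0c3a8f
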