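import Pool.Agent.Work.MP_0c3a8f_co.PB.Stmts2

/-!
# MP_0c3a8f_co, phase B: exact extremal graphs for a class of color-critical graphs: statements

The class contains the complete multipartite graphs `K_{1,1,s,...,s}`, `s ≥ 2`.
-/

open Finset

namespace MP0c3a8f

/-- `F` is not contained in a graph with complete core and one more vertex which has less than `s`
neighbours in each of two classes, but it is contained in all other such graphs with large
classes where the additional vertex has a neighbour in every class -/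
structure Fs {W : Type} (r s s₁ : ℕ) (F : SimpleGraph W) : Prop where
  free : ∀ (V : Type) [Fintype V] (G : SimpleGraph V) (f : V → Option (Fin r)) (w : V)
    (i j : Fin r), i ≠ j → Ty0 G f w → nbn G f w i < s → nbn G f w j < s → F.Free G
  cont : ∀ (V : Type) [Fintype V] (G : SimpleGraph V) (f : V → Option (Fin r)) (w : V),
    Ty0 G f w → (∀ t, s₁ ≤ siz f t) → (∀ t, 1 ≤ nbn G f w t) → F.Free G →
    ∃ i j, i ≠ j ∧ nbn G f w i < s ∧ nbn G f w j < s

/-- the extremal graphs: the Turán graph `T_r(n)` (classes `t < n % r` have one vertex more) and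
one new vertex `w` with `D` neighbours, at least one in each class and less than `s` in each of
the classes `0` and `1`; subject to this, the neighbours are spread evenly over the classes of
equal size, and if `w` has two neighbours in a large class then it is joined to all vertices of
the small classes -/
def IsGs {V : Type} (r n D s : ℕ) (G : SimpleGraph V) : Prop :=
  ∃ (f : V → Option (Fin r)) (w : V), Ty0 G f w ∧ (∀ t, siz f t = tz r n t) ∧
    ∑ t, nbn G f w t = D ∧ (∀ t, 1 ≤ nbn G f w t) ∧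
    (∀ t : Fin r, t.val ≤ 1 → nbn G f w t < s) ∧
    (∀ k l : Fin r, (2 ≤ l.val ∨ nbn G f w l + 1 < s) → tz r n k = tz r n l →
      nbn G f w k ≤ nbn G f w l + 1) ∧
    ∀ k l : Fin r, (2 ≤ l.val ∨ nbn G f w l + 1 < s) → tz r n l < tz r n k →
      2 ≤ nbn G f w k → nbn G f w l = tz r n l

open Classical in
/-- (EIG0) the eigenvalue equations of a graph of type zero -/
def EIG0_statement : Prop :=
  ∀ (r : ℕ) (V : Type) [Fintype V] (G : SimpleGraph V) (f : V → Option (Fin r))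
    (w : V) (x : V → ℝ) (l : ℝ), Ty0 G f w →
    (∀ v, ∑ u, adj G v u * x u = l * x v) →
    (∀ v t, f v = some t →
      l * x v = (∑ s, cw x f (some s) - cw x f (some t)) + if G.Adj w v then x w else 0) ∧
    (∀ t, l * cw x f (some t) = siz f t * (∑ s, cw x f (some s) - cw x f (some t))
      + nbn G f w t * x w) ∧
    l * x w = ∑ v, if f v ≠ none ∧ G.Adj w v then x v else 0

/-- (GAP0) estimates for the Perron vector, type zero -/
def GAP0_statement : Prop :=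
  ∀ (r : ℕ) (ε : ℝ), 3 ≤ r → 0 < ε → ∃ n₀ : ℕ, ∀ (V : Type) [Fintype V] (G : SimpleGraph V)
    (f : V → Option (Fin r)) (w : V) (x : V → ℝ) (n : ℕ), n₀ ≤ n →
    Ty0 G f w → Bal n f → ε * n ≤ ((∑ t, nbn G f w t : ℕ) : ℝ) →
    ((∑ t, nbn G f w t : ℕ) : ℝ) ≤ (1 - 2 / (r : ℝ)) * (qq r * n) + 1 → (∀ v, 0 ≤ x v) → x ≠ 0 →
    (∀ v, ∑ u, adj G v u * x u = lam G * x v) →
    (n : ℝ) / 2 ≤ lam G ∧ 0 < ∑ s, cw x f (some s) ∧ 0 < x w ∧
    ∀ k l, siz f k = siz f l + 1 →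
      (∑ s, cw x f (some s)) / (2 * n) ≤ cw x f (some k) - cw x f (some l)

/-- (MV0) moving neighbours of `w`, type zero -/
def MV0_statement : Prop :=
  ∀ (r : ℕ) (ε : ℝ), 3 ≤ r → 0 < ε → ∃ n₀ : ℕ, ∀ (V : Type) [Fintype V]
    (G G' : SimpleGraph V) (f : V → Option (Fin r)) (w : V) (k l : Fin r)
    (M M' : Finset V) (n : ℕ), n₀ ≤ n → Ty0 G f w → Ty0 G' f w →
    Bal n f → ε * n ≤ ((∑ t, nbn G f w t : ℕ) : ℝ) →
    ((∑ t, nbn G f w t : ℕ) : ℝ) ≤ (1 - 2 / (r : ℝ)) * (qq r * n) + 1 → k ≠ l → M.Nonempty →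
    M.card = M'.card → (∀ y ∈ M, f y = some k ∧ G.Adj w y) →
    (∀ y ∈ M', f y = some l ∧ ¬ G.Adj w y) →
    (∀ y, G'.Adj w y ↔ (G.Adj w y ∧ y ∉ M) ∨ y ∈ M') →
    (siz f k = siz f l + 1 ∨ (siz f k = siz f l ∧
      nbn G f w l + 2 * M.card ≤ nbn G f w k)) → lam G < lam G'

/-- (ISO0) graphs of type zero with the same parameters are isomorphic -/
def ISO0_statement : Prop :=
  ∀ (r : ℕ) (V V' : Type) [Fintype V] [Fintype V'] (G : SimpleGraph V) (G' : SimpleGraph V')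
    (f : V → Option (Fin r)) (f' : V' → Option (Fin r)) (w : V) (w' : V'),
    Ty0 G f w → Ty0 G' f' w' → (∀ t, siz f t = siz f' t) →
    (∀ t, nbn G f w t = nbn G' f' w' t) → Nonempty (G ≃g G')

/-- the conditions on the numbers of neighbours in `IsGs` -/
structure Vs (r n D s : ℕ) (a : Fin r → ℕ) : Prop where
  le : ∀ t, a t ≤ tz r n t
  sum : ∑ t, a t = D
  pos : ∀ t, 1 ≤ a t
  cap : ∀ t : Fin r, t.val ≤ 1 → a t < s
  even : ∀ k l : Fin r, (2 ≤ l.val ∨ a l + 1 < s) → tz r n k = tz r n l → a k ≤ a l + 1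
  greedy : ∀ k l : Fin r, (2 ≤ l.val ∨ a l + 1 < s) → tz r n l < tz r n k → 2 ≤ a k →
    a l = tz r n l

/-- (GVC) uniqueness -/
def GVC_statement : Prop :=
  ∀ (r s : ℕ) (ε : ℝ), 3 ≤ r → 2 ≤ s → 0 < ε → ∃ n₀ : ℕ, ∀ n ≥ n₀, ∀ D : ℕ, RR r n D ε →
    ∀ a b : Fin r → ℕ, Vs r n D s a → Vs r n D s b →
    ∃ π : Equiv.Perm (Fin r), (∀ t, tz r n (π t) = tz r n t) ∧ ∀ t, b (π t) = a t

/-- (PICK) the choice of the two classes and local optimality -/
def PICK_statement : Prop :=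
  ∀ (W : Type) [Fintype W] (F : SimpleGraph W) (r s s₁ : ℕ) (ε : ℝ), 3 ≤ r → 2 ≤ s →
    Fs r s s₁ F → 0 < ε → ∃ n₀ : ℕ, ∀ n ≥ n₀, ∀ D : ℕ, RR r n D ε →
    ∀ (V : Type) [Fintype V] (G : SimpleGraph V) (f : V → Option (Fin r)) (w : V),
      MxF r n D F G → Ty0 G f w → Bal n f → ∑ t, nbn G f w t = D → (∀ t, 1 ≤ nbn G f w t) →
      ∃ i j, i ≠ j ∧ nbn G f w i < s ∧ nbn G f w j < s ∧ siz f j ≤ siz f i ∧
        (∀ k, k ≠ i → k ≠ j → siz f k ≤ siz f j) ∧
        (∀ k l, (l ≠ i ∧ l ≠ j ∨ nbn G f w l + 1 < s) → siz f k = siz f l →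
          nbn G f w k ≤ nbn G f w l + 1) ∧
        ∀ k l, (l ≠ i ∧ l ≠ j ∨ nbn G f w l + 1 < s) → siz f k = siz f l + 1 →
          2 ≤ nbn G f w k → nbn G f w l = siz f l

/-- (FINS) the final theorem for the class `Fs` -/
def FINS_statement : Prop :=
  ∀ (W : Type) [Fintype W] (F : SimpleGraph W) (r s s₁ : ℕ) (ε : ℝ), 3 ≤ r → 2 ≤ s →
    Crit r F → F.Colorable (r + 1) → Fs r s s₁ F → 0 < ε → ∃ n₀ : ℕ, ∀ n ≥ n₀, ∀ D : ℕ,
    RR r n D ε →
    (∃ (k : ℕ) (G : SimpleGraph (Fin k)), MxF r n D F G) ∧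
    (∀ (V : Type) [Fintype V] (G : SimpleGraph V), MxF r n D F G ↔ IsGs r n D s G) ∧
    ∀ (V U : Type) [Fintype V] [Fintype U] (G : SimpleGraph V) (H : SimpleGraph U),
      IsGs r n D s G → IsGs r n D s H → Nonempty (G ≃g H)

/-- the complete multipartite graph `K_{1,1,s,...,s}` with `r + 1` classes -/
def Kms (r s : ℕ) : SimpleGraph (Σ t : Fin (r + 1), Fin (if t.val ≤ 1 then 1 else s)) :=
  SimpleGraph.completeMultipartiteGraph fun t : Fin (r + 1) => Fin (if t.val ≤ 1 then 1 else s)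

/-- (MPF) the graphs `K_{1,1,s,...,s}` -/
def MPF_statement : Prop :=
  ∀ r s : ℕ, 3 ≤ r → 2 ≤ s → (Kms r s).chromaticNumber = r + 1 ∧ ColorCritical (Kms r s) ∧
    Fs r s (s + 1) (Kms r s)

end MP0c3a8f
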