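import Pool.Agent.Work.MP_0c3a8f_co.PB.Stmts

/-! Item EVF1 (helper94): the neighbours of `w` are spread greedily, type one. -/

set_option autoImplicit false

open Finset

namespace MP0c3a8f

namespace ItemEVF1

variable {r : ℕ} {V : Type}

/-- replace the edge `w y` by `w y'` -/
def mv (G : SimpleGraph V) (w y y' : V) (h : w ≠ y') : SimpleGraph V where
  Adj a b := (G.Adj a b ∧ s(a, b) ≠ s(w, y)) ∨ s(a, b) = s(w, y')
  symm := ⟨fun a b hab => by
    rcases hab with hab | hab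
    · left; refine ⟨hab.1.symm, ?_⟩; rw [Sym2.eq_swap]; exact hab.2
    · right; rw [Sym2.eq_swap]; exact hab⟩
  loopless := ⟨fun a ha => by
    rcases ha with ha | ha
    · exact G.loopless.irrefl a ha.1
    · rw [Sym2.eq_iff] at ha
      rcases ha with ⟨h1, h2⟩ | ⟨h1, h2⟩
      · exact h (h1.symm.trans h2)
      · exact h (h2.symm.trans h1)⟩

theorem mv_adj_w (G : SimpleGraph V) (w y y' : V) (h : w ≠ y') (z : V) :
    (mv G w y y' h).Adj w z ↔ (G.Adj w z ∧ z ≠ y) ∨ z = y' := by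
  change ((G.Adj w z ∧ s(w, z) ≠ s(w, y)) ∨ s(w, z) = s(w, y')) ↔ _
  rw [Sym2.congr_right, Ne, Sym2.congr_right]

theorem mv_adj_ne (G : SimpleGraph V) (w y y' : V) (h : w ≠ y') (a b : V) (ha : a ≠ w)
    (hb : b ≠ w) : (mv G w y y' h).Adj a b ↔ G.Adj a b := by
  change ((G.Adj a b ∧ s(a, b) ≠ s(w, y)) ∨ s(a, b) = s(w, y')) ↔ _
  have h1 : s(a, b) ≠ s(w, y) := by
    intro e; rw [Sym2.eq_iff] at e
    rcases e with ⟨e, _⟩ | ⟨_, e⟩
    · exact ha e
    · exact hb e
  have h2 : s(a, b) ≠ s(w, y') := by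
    intro e; rw [Sym2.eq_iff] at e
    rcases e with ⟨e, _⟩ | ⟨_, e⟩
    · exact ha e
    · exact hb e
  simp [h1, h2]

variable [Fintype V] {G : SimpleGraph V} {f : V → Option (Fin r)} {w p p' : V}
  {i j : Fin r}

/-- one step: no neighbour of `w` can be moved -/
theorem step (hMEM : MEM1_statement) {n D : ℕ} (hr : 3 ≤ r)
    (hMV : ∀ (G' : SimpleGraph V) (k l : Fin r) (M M' : Finset V), Ty1 G' f w p p' i j →
      k ≠ l → M.Nonempty → M.card = M'.card →
      (∀ y ∈ M, f y = some k ∧ G.Adj w y ∧ y ≠ p ∧ y ≠ p') →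
      (∀ y ∈ M', f y = some l ∧ ¬ G.Adj w y ∧ y ≠ p ∧ y ≠ p') →
      (∀ y, G'.Adj w y ↔ (G.Adj w y ∧ y ∉ M) ∨ y ∈ M') →
      (siz f k = siz f l + 1 ∨ (siz f k = siz f l ∧ k ≠ i ∧ k ≠ j ∧ l ≠ i ∧ l ≠ j ∧
        nbn G f w l + 2 * M.card ≤ nbn G f w k)) → lam G < lam G')
    (hMx : Mx r n D G) (hT : Th1 G f w p p' i j) (hs : ∀ t, 2 ≤ siz f t)
    {k l : Fin r} (hki : k ≠ i) (hkj : k ≠ j) (hli : l ≠ i) (hlj : l ≠ j) (hkl : k ≠ l)
    (h2 : 2 ≤ nbn G f w k) (hl : nbn G f w l < siz f l)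
    (hc : siz f k = siz f l + 1 ∨ (siz f k = siz f l ∧ nbn G f w l + 2 ≤ nbn G f w k)) :
    False := by
  classical
  have hfw : f w = none := (hT.ty.out w).2 rfl
  have hne : ∀ v, f v ≠ none → v ≠ w := fun v hv e => hv (e ▸ hfw)
  -- the vertices `y` and `y'`
  obtain ⟨y, hy⟩ : {v | f v = some k ∧ G.Adj w v}.Nonempty := by
    rw [← Set.ncard_pos (Set.toFinite _)]
    change 0 < nbn G f w k
    omega
  obtain ⟨y', hy', hy'n⟩ : ∃ y', f y' = some l ∧ ¬ G.Adj w y' := by
    by_contra hcon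
    push Not at hcon
    have : siz f l ≤ nbn G f w l := by
      unfold siz nbn
      apply Set.ncard_le_ncard _ (Set.toFinite _)
      intro v hv
      exact ⟨hv, hcon v hv⟩
    omega
  have hyk : f y = some k := hy.1
  have hyw : G.Adj w y := hy.2
  have hwy' : w ≠ y' := fun e => by rw [← e, hfw] at hy'; exact absurd hy' (by simp)
  have hyp : y ≠ p := fun e => hki (by
    have := hT.ty.hp; rw [← e, hyk] at this; exact Option.some_injective _ this)
  have hyp' : y ≠ p' := fun e => hkj (by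
    have := hT.ty.hp'; rw [← e, hyk] at this; exact Option.some_injective _ this)
  have hy'p : y' ≠ p := fun e => hli (by
    have := hT.ty.hp; rw [← e, hy'] at this; exact Option.some_injective _ this)
  have hy'p' : y' ≠ p' := fun e => hlj (by
    have := hT.ty.hp'; rw [← e, hy'] at this; exact Option.some_injective _ this)
  set G' := mv G w y y' hwy' with hG'
  have hadj : ∀ z, G'.Adj w z ↔ (G.Adj w z ∧ z ≠ y) ∨ z = y' := mv_adj_w G w y y' hwy'
  have hTy : Ty1 G' f w p p' i j := by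
    refine ⟨hT.ty.out, hT.ty.ij, hT.ty.hp, hT.ty.hp', ?_⟩
    intro a b ha hb
    rw [hG', mv_adj_ne G w y y' hwy' a b (hne a ha) (hne b hb)]
    exact hT.ty.core a b ha hb
  -- the numbers of neighbours
  have hnk : nbn G' f w k + 1 = nbn G f w k := by
    have : {v | f v = some k ∧ G'.Adj w v} = {v | f v = some k ∧ G.Adj w v} \ {y} := by
      ext v
      simp only [Set.mem_ofPred_eq, Set.mem_sdiff, Set.mem_singleton_iff, hadj]
      constructor
      · rintro ⟨h1, h3 | h3⟩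
        · exact ⟨⟨h1, h3.1⟩, h3.2⟩
        · subst h3; rw [h1] at hy'; exact absurd (Option.some_injective _ hy') hkl
      · rintro ⟨⟨h1, h3⟩, h4⟩
        exact ⟨h1, Or.inl ⟨h3, h4⟩⟩
    unfold nbn
    rw [this]
    exact Set.ncard_sdiff_singleton_add_one hy (Set.toFinite _)
  have hnl : nbn G' f w l = nbn G f w l + 1 := by
    have : {v | f v = some l ∧ G'.Adj w v} = insert y' {v | f v = some l ∧ G.Adj w v} := by
      ext v
      simp only [Set.mem_ofPred_eq, Set.mem_insert_iff, hadj]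
      constructor
      · rintro ⟨h1, h3 | h3⟩
        · exact Or.inr ⟨h1, h3.1⟩
        · exact Or.inl h3
      · rintro (h1 | ⟨h1, h3⟩)
        · subst h1; exact ⟨hy', Or.inr rfl⟩
        · refine ⟨h1, Or.inl ⟨h3, ?_⟩⟩
          rintro rfl
          rw [hyk] at h1; exact hkl (Option.some_injective _ h1)
    unfold nbn
    rw [this]
    exact Set.ncard_insert_of_notMem (fun hmem => hy'n hmem.2) (Set.toFinite _)
  have hno : ∀ t, t ≠ k → t ≠ l → nbn G' f w t = nbn G f w t := by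
    intro t htk htl
    have : {v | f v = some t ∧ G'.Adj w v} = {v | f v = some t ∧ G.Adj w v} := by
      ext v
      simp only [Set.mem_ofPred_eq, hadj]
      constructor
      · rintro ⟨h1, h3 | h3⟩
        · exact ⟨h1, h3.1⟩
        · subst h3; rw [h1] at hy'; exact absurd (Option.some_injective _ hy') htl
      · rintro ⟨h1, h3⟩
        refine ⟨h1, Or.inl ⟨h3, ?_⟩⟩
        rintro rfl
        rw [hyk] at h1; exact htk (Option.some_injective _ h1.symm)
    unfold nbn
    rw [this]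
  have hsum : ∑ t, nbn G' f w t = ∑ t, nbn G f w t := by
    have hlk : l ∈ (univ : Finset (Fin r)).erase k := mem_erase.2 ⟨hkl.symm, mem_univ l⟩
    rw [← add_sum_erase univ (fun t => nbn G' f w t) (mem_univ k),
      ← add_sum_erase univ (fun t => nbn G f w t) (mem_univ k),
      ← add_sum_erase _ (fun t => nbn G' f w t) hlk, ← add_sum_erase _ (fun t => nbn G f w t) hlk]
    have : ∑ t ∈ (univ.erase k).erase l, nbn G' f w t
        = ∑ t ∈ (univ.erase k).erase l, nbn G f w t := by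
      apply sum_congr rfl
      intro t ht
      rw [mem_erase, mem_erase] at ht
      exact hno t ht.2.1 ht.1
    rw [this]
    omega
  have hwp : G'.Adj w p := (hadj p).2 (Or.inl ⟨hT.wp, hyp.symm⟩)
  have hwp' : G'.Adj w p' := (hadj p').2 (Or.inl ⟨hT.wp', hyp'.symm⟩)
  have hT' : Th1 G' f w p p' i j := by
    refine ⟨hTy, hwp, hwp', ?_, ?_, ?_⟩
    · rw [hno i hki.symm hli.symm]; exact hT.ni
    · rw [hno j hkj.symm hlj.symm]; exact hT.nj
    · intro t
      by_cases htk : t = k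
      · subst htk; omega
      · by_cases htl : t = l
        · subst htl; omega
        · rw [hno t htk htl]; exact hT.pos t
  obtain ⟨_, _, _, e1⟩ := hMEM r V G f w p p' i j hr hT hs
  obtain ⟨m1, m2, m3, e2⟩ := hMEM r V G' f w p p' i j hr hT' hs
  rw [hsum] at e2
  have he : G'.edgeSet.ncard = G.edgeSet.ncard := by omega
  have hIn : InN r ((SimpleGraph.turanGraph n r).edgeSet.ncard + D)
      (⊤ : SimpleGraph (Fin (r + 1))) G' :=
    ⟨m1, by rw [he]; exact hMx.1.size, m3, m2⟩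
  have hle := hMx.2 V G' hIn
  have hlt := hMV G' k l {y} {y'} hTy hkl (singleton_nonempty y) (by simp)
    (by intro z hz; rw [mem_singleton] at hz; subst hz; exact ⟨hyk, hyw, hyp, hyp'⟩)
    (by intro z hz; rw [mem_singleton] at hz; subst hz; exact ⟨hy', hy'n, hy'p, hy'p'⟩)
    (by intro z; rw [hadj z]; simp)
    (by
      rcases hc with hc | hc
      · exact Or.inl hc
      · exact Or.inr ⟨hc.1, hki, hkj, hli, hlj, by simpa using hc.2⟩)
  exact absurd hle (not_le.2 hlt)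

theorem main (hMV : MV1_statement) (hMEM : MEM1_statement) : EVF1_statement := by
  intro r ε hr hε
  have hr0 : (0 : ℝ) < r := by
    have : 0 < r := by omega
    exact_mod_cast this
  have hr3 : (3 : ℝ) ≤ r := by exact_mod_cast hr
  have hq : 0 < qq r := by
    unfold qq
    have : 1 / (r : ℝ) < 1 := by rw [div_lt_one hr0]; linarith
    linarith
  set ε' : ℝ := 1 / ((r : ℝ) + 1) * qq r with hε'
  have hε'0 : 0 < ε' := by positivity
  obtain ⟨n₁, hn₁⟩ := hMV r ε' hr hε'0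
  refine ⟨max n₁ (4 * r ^ 2 + 1), ?_⟩
  intro n hn D hR V _ G f w p p' i j hMx hT hB hsumD
  have hnn₁ : n₁ ≤ n := le_trans (le_max_left _ _) hn
  have hn4 : 4 * r ^ 2 + 1 ≤ n := le_trans (le_max_right _ _) hn
  have hn0 : (0 : ℝ) ≤ n := Nat.cast_nonneg n
  -- sizes
  have hs3 : 3 ≤ n / r := by
    rw [Nat.le_div_iff_mul_le (by omega)]
    nlinarith
  have hs : ∀ t, 2 ≤ siz f t := fun t => le_trans (by omega) (hB.1 t).1
  have hD1 : ε' * n ≤ ((∑ t, nbn G f w t : ℕ) : ℝ) := by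
    rw [hsumD]
    push_cast
    have h1 := hR.1
    have h2 : (1 / ((r : ℝ) + 1)) * (qq r * n) ≤ (1 / ((r : ℝ) + 1) + 1 / (r : ℝ) ^ 5) * (qq r * n)
        := by
      apply mul_le_mul_of_nonneg_right _ (by positivity)
      have : 0 < 1 / (r : ℝ) ^ 5 := by positivity
      linarith
    have h3 : ε' * n = (1 / ((r : ℝ) + 1)) * (qq r * n) := by rw [hε']; ring
    rw [h3]
    linarith
  have hD2 : ((∑ t, nbn G f w t : ℕ) : ℝ) ≤ (1 - 2 / (r : ℝ)) * (qq r * n) + 1 := by
    rw [hsumD]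
    push_cast
    have h1 := hR.2
    have h2 : (1 - 2 / (r : ℝ) - ε) * (qq r * n) ≤ (1 - 2 / (r : ℝ)) * (qq r * n) := by
      apply mul_le_mul_of_nonneg_right _ (by positivity)
      linarith
    linarith
  have hmv : ∀ (G' : SimpleGraph V) (k l : Fin r) (M M' : Finset V), Ty1 G' f w p p' i j →
      k ≠ l → M.Nonempty → M.card = M'.card →
      (∀ y ∈ M, f y = some k ∧ G.Adj w y ∧ y ≠ p ∧ y ≠ p') →
      (∀ y ∈ M', f y = some l ∧ ¬ G.Adj w y ∧ y ≠ p ∧ y ≠ p') →
      (∀ y, G'.Adj w y ↔ (G.Adj w y ∧ y ∉ M) ∨ y ∈ M') →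
      (siz f k = siz f l + 1 ∨ (siz f k = siz f l ∧ k ≠ i ∧ k ≠ j ∧ l ≠ i ∧ l ≠ j ∧
        nbn G f w l + 2 * M.card ≤ nbn G f w k)) → lam G < lam G' :=
    fun G' k l M M' hTy hkl hM hMM h1 h2 h3 h4 =>
      hn₁ V G G' f w p p' i j k l M M' n hnn₁ hT.ty hTy hB hD1 hD2 hkl hM hMM h1 h2 h3 h4
  have hle : ∀ t, nbn G f w t ≤ siz f t := by
    intro t
    unfold nbn siz
    exact Set.ncard_le_ncard (fun v hv => hv.1) (Set.toFinite _)
  have P1 : ∀ k l, k ≠ i → k ≠ j → l ≠ i → l ≠ j → siz f k = siz f l →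
      nbn G f w k ≤ nbn G f w l + 1 := by
    intro k l hki hkj hli hlj hkl
    by_contra hcon
    push Not at hcon
    have hk := hle k
    have hne : k ≠ l := by rintro rfl; omega
    have hpos := hT.pos l
    exact step hMEM hr hmv hMx hT hs hki hkj hli hlj hne (by omega) (by omega)
      (Or.inr ⟨hkl, by omega⟩)
  have P2 : ∀ k l, k ≠ i → k ≠ j → l ≠ i → l ≠ j → siz f k = siz f l + 1 →
      2 ≤ nbn G f w k → nbn G f w l = siz f l := by
    intro k l hki hkj hli hlj hkl h2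
    by_contra hcon
    have hl := hle l
    have hne : k ≠ l := by rintro rfl; omega
    exact step hMEM hr hmv hMx hT hs hki hkj hli hlj hne h2 (by omega) (Or.inl hkl)
  refine ⟨P1, P2, ?_⟩
  intro k hki hkj
  by_contra hcon
  push Not at hcon
  obtain ⟨hc1, hc2⟩ := hcon
  have hk := (hB.1 k)
  have hk2 : 2 ≤ nbn G f w k := by omega
  have hall : ∀ l, l ≠ i → l ≠ j → n / r ≤ nbn G f w l + 2 := by
    intro l hli hlj
    have hl := (hB.1 l)
    have hc := hc2 l
    rcases Nat.lt_or_ge (siz f l) (siz f k) with h | h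
    · have := P2 k l hki hkj hli hlj (by omega) hk2
      omega
    · have := P1 k l hki hkj hli hlj (by omega)
      omega
  -- summation
  have hdiv : (n : ℝ) / r - 1 ≤ ((n / r : ℕ) : ℝ) := by
    have h1 : n < r * (n / r + 1) := by
      have := Nat.lt_mul_div_succ n (show 0 < r by omega)
      simpa using this
    have h2 : (n : ℝ) < r * ((n / r : ℕ) + 1) := by exact_mod_cast h1
    rw [sub_le_iff_le_add, div_le_iff₀ hr0]
    nlinarith
  have hsum : ((r : ℝ) - 2) * ((n : ℝ) / r - 3) ≤ ((∑ t, nbn G f w t : ℕ) : ℝ) := by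
    have hij : i ≠ j := hT.ty.ij
    have hji : j ∈ (univ : Finset (Fin r)).erase i := mem_erase.2 ⟨hij.symm, mem_univ j⟩
    have hcard : (((univ : Finset (Fin r)).erase i).erase j).card = r - 2 := by
      rw [card_erase_of_mem hji, card_erase_of_mem (mem_univ i), card_univ, Fintype.card_fin]
      omega
    have h1 : ∑ t ∈ (univ.erase i).erase j, ((n : ℝ) / r - 3)
        ≤ ∑ t ∈ (univ.erase i).erase j, (nbn G f w t : ℝ) := by
      apply sum_le_sum
      intro t ht
      rw [mem_erase, mem_erase] at ht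
      have := hall t ht.2.1 ht.1
      have h3 : ((n / r : ℕ) : ℝ) ≤ nbn G f w t + 2 := by exact_mod_cast this
      linarith
    rw [sum_const, hcard, nsmul_eq_mul] at h1
    have h2 : ∑ t ∈ (univ.erase i).erase j, (nbn G f w t : ℝ) ≤ ∑ t, (nbn G f w t : ℝ) := by
      apply sum_le_sum_of_subset_of_nonneg
      · intro t _; exact mem_univ t
      · intro t _ _; exact Nat.cast_nonneg _
    have h3 : ((r - 2 : ℕ) : ℝ) = (r : ℝ) - 2 := by
      rw [Nat.cast_sub (by omega)]; norm_num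
    rw [h3] at h1
    push_cast
    linarith
  rw [hsumD] at hsum
  push_cast at hsum
  have hD3 : (D : ℝ) ≤ (1 - 2 / (r : ℝ)) * (qq r * n) := by
    rw [hsumD] at hD2
    push_cast at hD2
    linarith
  have hn4' : (4 : ℝ) * r ^ 2 + 1 ≤ n := by exact_mod_cast hn4
  unfold qq at hD3
  -- multiply by r^2
  have e1 : (1 - 2 / (r : ℝ)) * ((1 - 1 / (r : ℝ)) * n) = ((r : ℝ) - 2) * ((r - 1) * n) / r ^ 2 := by
    field_simp
  rw [e1, le_div_iff₀ (by positivity)] at hD3
  have e2 : ((r : ℝ) - 2) * ((n : ℝ) / r - 3) = ((r : ℝ) - 2) * (n - 3 * r) / r := by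
    field_simp
  rw [e2, div_le_iff₀ hr0] at hsum
  have h5 : ((r : ℝ) - 2) * (n - 3 * r) * r ≤ (D + 1) * r ^ 2 := by
    have := mul_le_mul_of_nonneg_right hsum hr0.le
    nlinarith
  have h6 : ((r : ℝ) - 2) * n ≤ 3 * (r - 2) * r ^ 2 + r ^ 2 := by nlinarith
  have h7 : ((r : ℝ) - 2) * (4 * r ^ 2 + 1) ≤ 3 * (r - 2) * r ^ 2 + r ^ 2 :=
    le_trans (mul_le_mul_of_nonneg_left hn4' (by linarith)) h6
  nlinarith [sq_nonneg (r : ℝ)]

end ItemEVF1

theorem prfEVF1 : MV1_statement → MEM1_statement → EVF1_statement := ItemEVF1.main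

end MP0c3a8f
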