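import Pool.Agent.Work.MP_0c3a8f_co.PB.Stmts

/-!
# MP_0c3a8f_co, phase B, item EVF2: the neighbours of `w` are spread greedily, type two
-/

set_option autoImplicit false

open Finset

namespace MP0c3a8f

namespace EVF2

variable {V : Type}

/-- `G` with the edge `w y` replaced by `w y'` -/
def mv (G : SimpleGraph V) (w y y' : V) (h : w ≠ y') : SimpleGraph V where
  Adj a b := (G.Adj a b ∧ ¬ (a = w ∧ b = y) ∧ ¬ (a = y ∧ b = w)) ∨ (a = w ∧ b = y') ∨ (a = y' ∧ b = w)
  symm := ⟨fun a b hab => by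
    rcases hab with ⟨h1, h2, h3⟩ | ⟨h1, h2⟩ | ⟨h1, h2⟩
    · exact Or.inl ⟨h1.symm, fun h => h3 ⟨h.2, h.1⟩, fun h => h2 ⟨h.2, h.1⟩⟩
    · exact Or.inr (Or.inr ⟨h2, h1⟩)
    · exact Or.inr (Or.inl ⟨h2, h1⟩)⟩
  loopless := ⟨fun a ha => by
    rcases ha with ⟨h1, _, _⟩ | ⟨h1, h2⟩ | ⟨h1, h2⟩
    · exact G.loopless.irrefl a h1
    · exact h (h1.symm.trans h2)
    · exact h (h2.symm.trans h1)⟩

theorem mv_adj {G : SimpleGraph V} {w y y' : V} {h : w ≠ y'} {a b : V} (ha : a ≠ w) (hb : b ≠ w) :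
    (mv G w y y' h).Adj a b ↔ G.Adj a b := by
  constructor
  · rintro (⟨h1, _, _⟩ | ⟨h1, _⟩ | ⟨_, h1⟩)
    · exact h1
    · exact absurd h1 ha
    · exact absurd h1 hb
  · intro h1
    exact Or.inl ⟨h1, fun h2 => ha h2.1, fun h2 => hb h2.2⟩

theorem mv_adj_w {G : SimpleGraph V} {w y y' : V} {h : w ≠ y'} (hy : w ≠ y) {b : V} :
    (mv G w y y' h).Adj w b ↔ (G.Adj w b ∧ b ≠ y) ∨ b = y' := by
  constructor
  · rintro (⟨h1, h2, _⟩ | ⟨_, h2⟩ | ⟨h1, _⟩)
    · exact Or.inl ⟨h1, fun h3 => h2 ⟨rfl, h3⟩⟩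
    · exact Or.inr h2
    · exact absurd h1 h
  · rintro (⟨h1, h2⟩ | h1)
    · exact Or.inl ⟨h1, fun h3 => h2 h3.2, fun h3 => hy h3.1⟩
    · exact Or.inr (Or.inl ⟨rfl, h1⟩)

theorem mv_ty2 {r : ℕ} {G : SimpleGraph V} {f : V → Option (Fin r)} {w u : V} {v : Fin r → V}
    {i k l : Fin r} {y y' : V} (hT : Ty2 G f w u v i) (hy : f y = some k) (hy' : f y' = some l)
    (h : w ≠ y') : Ty2 (mv G w y y' h) f w u v i := by
  have hfw : f w = none := (hT.out w).2 (Or.inl rfl)
  have hfu : f u = none := (hT.out u).2 (Or.inr rfl)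
  have huy : u ≠ y := by intro h1; rw [← h1, hfu] at hy; exact absurd hy (by simp)
  have huy' : u ≠ y' := by intro h1; rw [← h1, hfu] at hy'; exact absurd hy' (by simp)
  have hne : ∀ x, f x ≠ none → x ≠ w := by intro x hx h1; rw [h1] at hx; exact hx hfw
  refine ⟨hT.out, hT.ne, ?_, ?_, hT.hv, ?_⟩
  · intro a b ha hb
    rw [mv_adj (hne a ha) (hne b hb)]
    exact hT.core a b ha hb
  · exact Or.inl ⟨hT.uw, fun h1 => hT.ne h1.1.symm, fun h1 => huy h1.1⟩
  · intro z hz
    rw [mv_adj (fun h1 => hT.ne h1.symm) (hne z hz)]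
    exact hT.un z hz

open Classical in
theorem mv_nbn [Fintype V] {r : ℕ} {G : SimpleGraph V} {f : V → Option (Fin r)} {w : V}
    {k l : Fin r} {y y' : V} (hy : f y = some k) (hy' : f y' = some l) (hwy : G.Adj w y)
    (hwy' : ¬ G.Adj w y') (h : w ≠ y') (t : Fin r) :
    nbn (mv G w y y' h) f w t + (if t = k then 1 else 0)
      = nbn G f w t + (if t = l then 1 else 0) := by
  have hwyne : w ≠ y := G.ne_of_adj hwy
  have hyy' : y ≠ y' := by intro h1; rw [h1] at hwy; exact hwy' hwy
  -- add `y` back / remove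
  have e1 : nbn (mv G w y y' h) f w t + (if t = k then 1 else 0) =
      {z | f z = some t ∧ (G.Adj w z ∨ z = y')}.ncard := by
    unfold nbn
    by_cases htk : t = k
    · rw [if_pos htk]
      have : {z | f z = some t ∧ (G.Adj w z ∨ z = y')} =
          insert y {z | f z = some t ∧ (mv G w y y' h).Adj w z} := by
        ext z
        simp only [Set.mem_setOf_eq, Set.mem_insert_iff, mv_adj_w hwyne]
        constructor
        · rintro ⟨h1, h2 | h2⟩
          · by_cases h3 : z = y
            · exact Or.inl h3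
            · exact Or.inr ⟨h1, Or.inl ⟨h2, h3⟩⟩
          · exact Or.inr ⟨h1, Or.inr h2⟩
        · rintro (h1 | ⟨h1, h2 | h2⟩)
          · rw [h1]; exact ⟨by rw [hy, htk], Or.inl hwy⟩
          · exact ⟨h1, Or.inl h2.1⟩
          · exact ⟨h1, Or.inr h2⟩
      rw [this, Set.ncard_insert_of_notMem]
      · simp only [Set.mem_setOf_eq, mv_adj_w hwyne]
        rintro ⟨-, h2 | h2⟩
        · exact h2.2 rfl
        · exact hyy' h2
    · rw [if_neg htk, add_zero]
      congr 1
      ext z
      simp only [Set.mem_setOf_eq, mv_adj_w hwyne]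
      constructor
      · rintro ⟨h1, h2 | h2⟩
        · exact ⟨h1, Or.inl h2.1⟩
        · exact ⟨h1, Or.inr h2⟩
      · rintro ⟨h1, h2 | h2⟩
        · refine ⟨h1, Or.inl ⟨h2, ?_⟩⟩
          intro h3
          rw [h3, hy] at h1
          exact htk (Option.some.inj h1).symm
        · exact ⟨h1, Or.inr h2⟩
  have e2 : nbn G f w t + (if t = l then 1 else 0) =
      {z | f z = some t ∧ (G.Adj w z ∨ z = y')}.ncard := by
    unfold nbn
    by_cases htl : t = l
    · rw [if_pos htl]
      have : {z | f z = some t ∧ (G.Adj w z ∨ z = y')} =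
          insert y' {z | f z = some t ∧ G.Adj w z} := by
        ext z
        simp only [Set.mem_setOf_eq, Set.mem_insert_iff]
        constructor
        · rintro ⟨h1, h2 | h2⟩
          · exact Or.inr ⟨h1, h2⟩
          · exact Or.inl h2
        · rintro (h1 | ⟨h1, h2⟩)
          · rw [h1]; exact ⟨by rw [hy', htl], Or.inr rfl⟩
          · exact ⟨h1, Or.inl h2⟩
      rw [this, Set.ncard_insert_of_notMem]
      · simp only [Set.mem_setOf_eq]
        rintro ⟨-, h2⟩
        exact hwy' h2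
    · rw [if_neg htl, add_zero]
      congr 1
      ext z
      simp only [Set.mem_setOf_eq]
      constructor
      · rintro ⟨h1, h2⟩
        exact ⟨h1, Or.inl h2⟩
      · rintro ⟨h1, h2 | h2⟩
        · exact ⟨h1, h2⟩
        · exfalso
          rw [h2, hy'] at h1
          exact htl (Option.some.inj h1).symm
  rw [e1, e2]

/-- a neighbour different from `a` -/
theorem ex_nbr [Fintype V] {r : ℕ} {G : SimpleGraph V} {f : V → Option (Fin r)} {w : V}
    {k : Fin r} (a : V) (h : 2 ≤ nbn G f w k) : ∃ y, f y = some k ∧ G.Adj w y ∧ y ≠ a := by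
  by_contra hc
  push Not at hc
  have : {z | f z = some k ∧ G.Adj w z} ⊆ {a} := by
    intro z hz
    exact hc z hz.1 hz.2
  have h2 := Set.ncard_le_ncard this (Set.finite_singleton a)
  rw [Set.ncard_singleton] at h2
  unfold nbn at h
  omega

/-- a non-neighbour different from `a` -/
theorem ex_non [Fintype V] {r : ℕ} {G : SimpleGraph V} {f : V → Option (Fin r)} {w : V}
    {l : Fin r} (a : V) (h : nbn G f w l + 2 ≤ siz f l) :
    ∃ y, f y = some l ∧ ¬ G.Adj w y ∧ y ≠ a := by
  by_contra hc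
  push Not at hc
  have : {z | f z = some l} ⊆ {z | f z = some l ∧ G.Adj w z} ∪ {a} := by
    intro z hz
    by_cases h1 : G.Adj w z
    · exact Or.inl ⟨hz, h1⟩
    · exact Or.inr (hc z hz h1)
  have h2 := Set.ncard_le_ncard this (Set.toFinite _)
  have h3 := Set.ncard_union_le {z | f z = some l ∧ G.Adj w z} {a}
  rw [Set.ncard_singleton] at h3
  unfold nbn siz at h
  omega

theorem ex_non1 [Fintype V] {r : ℕ} {G : SimpleGraph V} {f : V → Option (Fin r)} {w : V}
    {l : Fin r} (h : nbn G f w l < siz f l) :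
    ∃ y, f y = some l ∧ ¬ G.Adj w y := by
  by_contra hc
  push Not at hc
  have : {z | f z = some l} ⊆ {z | f z = some l ∧ G.Adj w z} := by
    intro z hz
    exact ⟨hz, hc z hz⟩
  have h2 := Set.ncard_le_ncard this (Set.toFinite _)
  unfold nbn siz at h
  omega

theorem nbn_le [Fintype V] {r : ℕ} (G : SimpleGraph V) (f : V → Option (Fin r)) (w : V)
    (l : Fin r) : nbn G f w l ≤ siz f l := by
  unfold nbn siz
  exact Set.ncard_le_ncard (fun z hz => hz.1) (Set.toFinite _)

/-- the membership part: `mv G` is again a candidate -/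
theorem mem [Fintype V] {r n D : ℕ} {G : SimpleGraph V} {f : V → Option (Fin r)} {w u : V}
    {v : Fin r → V} {i k l : Fin r} {y y' : V} (hMEM : MEM2_statement) (hr : 3 ≤ r)
    (hM : Mx r n D G) (hT : Th2 G f w u v i) (hs : ∀ t, 1 ≤ siz f t) (hki : k ≠ i) (hli : l ≠ i)
    (hy : f y = some k) (hwy : G.Adj w y) (hk2 : 2 ≤ nbn G f w k)
    (hy' : f y' = some l) (hwy' : ¬ G.Adj w y') (hyl : y' ≠ v l) (h : w ≠ y') :
    lam (mv G w y y' h) ≤ lam G := by
  have hwyne : w ≠ y := G.ne_of_adj hwy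
  have hTy := mv_ty2 hT.ty hy hy' h
  have hn := mv_nbn hy hy' hwy hwy' h
  have hTh : Th2 (mv G w y y' h) f w u v i := by
    refine ⟨hTy, ?_, ?_, ?_⟩
    · have := hn i
      rw [if_neg (Ne.symm hki), if_neg (Ne.symm hli), hT.ni] at this
      simpa using this
    · intro t ht
      have h1 := hn t
      have h2 := hT.pos t ht
      by_cases htk : t = k
      · rw [htk] at h1 h2 ⊢
        simp only [if_true] at h1
        split_ifs at h1 <;> omega
      · rw [if_neg htk] at h1
        split_ifs at h1 <;> omega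
    · obtain ⟨t0, ht0, hex⟩ := hT.exc
      refine ⟨t0, ht0, ?_⟩
      rw [mv_adj_w hwyne]
      rintro (h1 | h1)
      · exact hex h1.1
      · have h2 := hT.ty.hv t0 ht0
        rw [h1, hy'] at h2
        have h3 : l = t0 := Option.some.inj h2
        apply hyl
        rw [← h1, h3]
  obtain ⟨a1, a2, a3, a4⟩ := hMEM r V (mv G w y y' h) f w u v i hr hTh hs
  obtain ⟨-, -, -, b4⟩ := hMEM r V G f w u v i hr hT hs
  have hsum : ∑ t, nbn (mv G w y y' h) f w t = ∑ t, nbn G f w t := by
    have h1 : ∑ t, (nbn (mv G w y y' h) f w t + (if t = k then 1 else 0)) =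
        ∑ t, (nbn G f w t + (if t = l then 1 else 0)) := Finset.sum_congr rfl fun t _ => hn t
    rw [Finset.sum_add_distrib, Finset.sum_add_distrib, Finset.sum_ite_eq' Finset.univ k,
      Finset.sum_ite_eq' Finset.univ l] at h1
    simpa using h1
  have hcard : (mv G w y y' h).edgeSet.ncard = G.edgeSet.ncard := by
    rw [hsum] at a4
    omega
  apply hM.2
  exact ⟨a1, by rw [hcard]; exact hM.1.size, a3, a2⟩

end EVF2

theorem prfEVF2 : MV2_statement → MEM2_statement → EXC2_statement → RLC2_statement →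
    EVF2_statement := by
  intro hMV hMEM hEXC hRLC r ε hr hε
  have hr0 : (3 : ℝ) ≤ r := by exact_mod_cast hr
  have hrpos : (0 : ℝ) < r := by linarith
  have hq : qq r = 1 - 1 / (r : ℝ) := rfl
  have hqpos : 0 < qq r := by
    rw [hq]
    have : 1 / (r : ℝ) ≤ 1 / 3 := one_div_le_one_div_of_le (by norm_num) hr0
    linarith
  have hε' : 0 < ε * qq r / 2 := by positivity
  obtain ⟨n1, hn1⟩ := hMV r (ε * qq r / 2) hr hε'
  obtain ⟨n2, hn2⟩ := hEXC r ε hr hε
  obtain ⟨n3, hn3⟩ := exists_nat_ge ((r : ℝ) / (ε * qq r / 2))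
  refine ⟨n1 + n2 + n3 + 2 * r + 2, ?_⟩
  intro n hn D hD V _ G f w u v i hMx hTh hBal hsum
  have hn1' : n1 ≤ n := by omega
  have hn2' : n2 ≤ n := by omega
  have hrn : 2 * r + 2 ≤ n := by omega
  have hnn3 : (r : ℝ) ≤ ε * qq r / 2 * n := by
    have h1 : (r : ℝ) / (ε * qq r / 2) ≤ n := by
      refine hn3.trans ?_
      have : n3 ≤ n := by omega
      exact_mod_cast this
    rw [div_le_iff₀ hε'] at h1
    linarith
  have hDr : ((∑ t, nbn G f w t : ℕ) : ℝ) + r = D := by exact_mod_cast hsum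
  have hlow : (ε * qq r / 2) * n ≤ ((∑ t, nbn G f w t : ℕ) : ℝ) := by
    have h1 := hD.1
    have : ε * (qq r * n) = 2 * (ε * qq r / 2 * n) := by ring
    rw [this] at h1
    linarith
  have hnpos : (0 : ℝ) ≤ n := Nat.cast_nonneg _
  have hDle : (D : ℝ) ≤ 1 / ((r : ℝ) + 1) * (qq r * n) := by
    refine hD.2.trans ?_
    apply mul_le_mul_of_nonneg_right _ (by positivity)
    have : 0 ≤ 1 / (r : ℝ) ^ 5 := by positivity
    linarith
  have hup : ((∑ t, nbn G f w t : ℕ) : ℝ) ≤ (1 - 2 / (r : ℝ)) * (qq r * n) + 1 := by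
    have h1 : 1 / ((r : ℝ) + 1) ≤ 1 - 2 / (r : ℝ) := by
      rw [div_le_iff₀ (by linarith)]
      have h2 : (1 - 2 / (r : ℝ)) * (r + 1) = r - 1 - 2 / r := by field_simp; ring
      rw [h2]
      have h3 : 2 / (r : ℝ) ≤ 2 / 3 := div_le_div_of_nonneg_left (by norm_num) (by norm_num) hr0
      linarith
    have h4 := mul_le_mul_of_nonneg_right h1 (by positivity : 0 ≤ qq r * (n : ℝ))
    linarith
  have hs : ∀ t, 1 ≤ siz f t := by
    intro t
    refine le_trans ?_ (hBal.1 t).1
    have : r ≤ n := by omega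
    exact (Nat.one_le_div_iff (by omega)).2 this
  -- the basic move
  have basic : ∀ (H : SimpleGraph V) (v' : Fin r → V) (k l : Fin r) (y y' : V), Mx r n D H →
      Th2 H f w u v' i → (∀ t, nbn H f w t = nbn G f w t) → k ≠ i → l ≠ i → k ≠ l →
      f y = some k → H.Adj w y → y ≠ v' k → 2 ≤ nbn G f w k →
      f y' = some l → ¬ H.Adj w y' → y' ≠ v' l →
      (siz f k = siz f l + 1 ∨ (siz f k = siz f l ∧ nbn G f w l + 2 ≤ nbn G f w k)) → False := by
    intro H v' k l y y' hMH hTH hnb hki hli hkl hy hwy hyk hk2 hy' hwy' hyl hcond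
    have hfw : f w = none := (hTH.ty.out w).2 (Or.inl rfl)
    have hne : w ≠ y' := by intro h1; rw [← h1, hfw] at hy'; exact absurd hy' (by simp)
    have hwyne : w ≠ y := H.ne_of_adj hwy
    have hle := EVF2.mem hMEM hr hMH hTH hs hki hli hy hwy (by rw [hnb]; exact hk2) hy' hwy' hyl hne
    have hsumH : (∑ t, nbn H f w t : ℕ) = ∑ t, nbn G f w t :=
      Finset.sum_congr rfl fun t _ => hnb t
    have huy : ¬ H.Adj u y := by
      intro h1
      rw [hTH.ty.un y (by rw [hy]; simp)] at h1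
      obtain ⟨t, ht, h2⟩ := h1
      have h3 := hTH.ty.hv t ht
      rw [← h2, hy] at h3
      have h4 : k = t := Option.some.inj h3
      exact hyk (by rw [h4]; exact h2)
    have huy' : ¬ H.Adj u y' := by
      intro h1
      rw [hTH.ty.un y' (by rw [hy']; simp)] at h1
      obtain ⟨t, ht, h2⟩ := h1
      have h3 := hTH.ty.hv t ht
      rw [← h2, hy'] at h3
      have h4 : l = t := Option.some.inj h3
      exact hyl (by rw [h4]; exact h2)
    have hlt := hn1 V H (EVF2.mv H w y y' hne) f w u v' i k l {y} {y'} n hn1' hTH.ty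
      (EVF2.mv_ty2 hTH.ty hy hy' hne) hBal (by rw [hsumH]; exact hlow) (by rw [hsumH]; exact hup)
      hkl (Finset.singleton_nonempty y) (by simp)
      (by
        intro z hz
        rw [Finset.mem_singleton] at hz
        rw [hz]; exact ⟨hy, hwy, huy⟩)
      (by
        intro z hz
        rw [Finset.mem_singleton] at hz
        rw [hz]; exact ⟨hy', hwy', huy'⟩)
      (by
        intro z _
        rw [EVF2.mv_adj_w hwyne, Finset.mem_singleton, Finset.mem_singleton])
      (by
        rcases hcond with h1 | ⟨h1, h2⟩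
        · exact Or.inl h1
        · refine Or.inr ⟨h1, hki, hli, ?_⟩
          rw [hnb, hnb, Finset.card_singleton]
          omega)
    exact absurd hlt (not_lt.2 hle)
  have part1 : ∀ k l, k ≠ i → l ≠ i → siz f k = siz f l → nbn G f w k ≤ nbn G f w l + 1 := by
    intro k l hki hli hsz
    by_contra hc
    push Not at hc
    have hkl : k ≠ l := by
      intro h1; rw [h1] at hc; omega
    have hk2 : 2 ≤ nbn G f w k := by omega
    obtain ⟨y, hy, hwy, hyk⟩ := EVF2.ex_nbr (v k) hk2
    have hle := EVF2.nbn_le G f w k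
    obtain ⟨y', hy', hwy', hyl⟩ := EVF2.ex_non (G := G) (f := f) (w := w) (l := l) (v l) (by omega)
    exact basic G v k l y y' hMx hTh (fun _ => rfl) hki hli hkl hy hwy hyk hk2 hy' hwy' hyl
      (Or.inr ⟨hsz, by omega⟩)
  refine ⟨part1, ?_⟩
  intro k l hki hli hsz hk2
  by_contra hc
  have hkl : k ≠ l := by
    intro h1; rw [h1] at hsz; omega
  have hlt : nbn G f w l < siz f l := lt_of_le_of_ne (EVF2.nbn_le G f w l) hc
  obtain ⟨y, hy, hwy, hyk⟩ := EVF2.ex_nbr (v k) hk2
  obtain ⟨z, hz, hwz⟩ := EVF2.ex_non1 hlt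
  by_cases hzl : z = v l
  swap
  · exact basic G v k l y z hMx hTh (fun _ => rfl) hki hli hkl hy hwy hyk hk2 hz hwz hzl (Or.inl hsz)
  rcases lt_or_ge (nbn G f w k) (siz f k) with hfull | hfull
  · obtain ⟨G2, v2, m1, m2, m3, m4⟩ := hRLC r n D V G f w u v i k hr (by omega) hMx hTh hBal
      (hn2 n hn2' D hD V G f w u v i hMx hTh hBal hsum) hki hfull
    have hnb : ∀ t, nbn G2 f w t = nbn G f w t := by
      intro t
      unfold nbn
      congr 1
      ext x
      simp only [Set.mem_setOf_eq, m4]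
    have hy2 : y ≠ v2 k := by
      intro h1
      have h2 : G2.Adj w y := (m4 y).2 hwy
      rw [h1] at h2
      exact ((m3 k hki).1 h2) rfl
    have hz2 : z ≠ v2 l := by
      intro h1
      have h2 : G2.Adj w (v2 l) := (m3 l hli).2 (Ne.symm hkl)
      rw [← h1, m4] at h2
      exact hwz h2
    exact basic G2 v2 k l y z m1 m2 hnb hki hli hkl hy ((m4 y).2 hwy) hy2 hk2 hz
      (fun h1 => hwz ((m4 z).1 h1)) hz2 (Or.inl hsz)
  · have hfull' : nbn G f w k = siz f k := le_antisymm (EVF2.nbn_le G f w k) hfull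
    have hsk : siz f k = n / r + 1 := by
      have h1 := hBal.1 k
      have h2 := hBal.1 l
      omega
    have hall : ∀ t, t ≠ i → n / r ≤ nbn G f w t + 1 := by
      intro t hti
      have h1 := hBal.1 t
      rcases Nat.lt_or_ge (siz f t) (siz f k) with h2 | h2
      · -- small class
        by_contra h3
        push Not at h3
        obtain ⟨z', hz', hwz', hzt⟩ :=
          EVF2.ex_non (G := G) (f := f) (w := w) (l := t) (v t) (by omega)
        have hkt : k ≠ t := by intro h4; rw [h4] at h2; omega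
        exact basic G v k t y z' hMx hTh (fun _ => rfl) hki hti hkt hy hwy hyk hk2 hz' hwz' hzt
          (Or.inl (by omega))
      · have h4 : siz f k = siz f t := by omega
        have := part1 k t hki hti h4
        omega
    have hcard : (Finset.univ.erase i).card = r - 1 := by
      rw [Finset.card_erase_of_mem (Finset.mem_univ i), Finset.card_univ, Fintype.card_fin]
    have h5 : (r - 1) * (n / r) ≤ ∑ t ∈ Finset.univ.erase i, (nbn G f w t + 1) := by
      rw [← hcard, ← smul_eq_mul, ← Finset.sum_const]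
      apply Finset.sum_le_sum
      intro t ht
      exact hall t (Finset.ne_of_mem_erase ht)
    rw [Finset.sum_add_distrib, Finset.sum_const, hcard, smul_eq_mul, mul_one] at h5
    have h6 : ∑ t ∈ Finset.univ.erase i, nbn G f w t ≤ ∑ t, nbn G f w t :=
      Finset.sum_le_sum_of_subset (Finset.erase_subset _ _)
    have h7 : (r - 1) * (n / r) + r ≤ D + (r - 1) := by omega
    have h8 : ((r - 1 : ℕ) : ℝ) = (r : ℝ) - 1 := by
      rw [Nat.cast_sub (by omega)]; simp
    have h9 : ((r : ℝ) - 1) * ((n / r : ℕ) : ℝ) + r ≤ D + ((r : ℝ) - 1) := by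
      have : (((r - 1) * (n / r) + r : ℕ) : ℝ) ≤ ((D + (r - 1) : ℕ) : ℝ) := by exact_mod_cast h7
      push_cast at this
      rw [h8] at this
      exact this
    have h10 : (n : ℝ) / r - 1 ≤ ((n / r : ℕ) : ℝ) := by
      have h11 : n < r * (n / r + 1) := by
        have := Nat.lt_mul_div_succ n (by omega : 0 < r)
        exact this
      have h12 : (n : ℝ) ≤ r * (((n / r : ℕ) : ℝ) + 1) := by exact_mod_cast h11.le
      rw [sub_le_iff_le_add, div_le_iff₀ hrpos]
      linarith
    have h13 : qq r * n = ((r : ℝ) - 1) * ((n : ℝ) / r) := by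
      rw [hq]; field_simp
    rw [h13] at hDle
    set x : ℝ := (n : ℝ) / r with hx
    have hx2 : 2 ≤ x := by
      rw [hx, le_div_iff₀ hrpos]
      have : (2 * r + 2 : ℝ) ≤ n := by exact_mod_cast hrn
      linarith
    have h14 : ((r : ℝ) - 1) * (x - 1) ≤ ((r : ℝ) - 1) * ((n / r : ℕ) : ℝ) :=
      mul_le_mul_of_nonneg_left h10 (by linarith)
    have h15 : 1 / ((r : ℝ) + 1) ≤ 1 / 4 := one_div_le_one_div_of_le (by norm_num) (by linarith)
    have h16 : 1 / ((r : ℝ) + 1) * (((r : ℝ) - 1) * x) ≤ 1 / 4 * (((r : ℝ) - 1) * x) :=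
      mul_le_mul_of_nonneg_right h15 (by nlinarith)
    nlinarith

end MP0c3a8f
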