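import Pool.Agent.Work.MP_0c3a8f_co.PB.Stmts

/-!
# MP_0c3a8f_co, phase B: item GAP1
-/

open Finset

namespace MP0c3a8f

namespace ItemGAP1

open Classical in
theorem nbn_eq {V : Type} [Fintype V] {r : ℕ} (G : SimpleGraph V) (f : V → Option (Fin r))
    (w : V) (t : Fin r) :
    (nbn G f w t : ℝ) = ∑ v, if f v = some t ∧ G.Adj w v then (1 : ℝ) else 0 := by
  unfold nbn
  rw [Finset.sum_boole, Set.ncard_eq_toFinset_card']
  congr 2
  ext v
  simp

open Classical in
theorem sum_nbn {V : Type} [Fintype V] {r : ℕ} (G : SimpleGraph V) (f : V → Option (Fin r))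
    (w : V) : ((∑ t, nbn G f w t : ℕ) : ℝ)
      = ∑ v, if f v ≠ none ∧ G.Adj w v then (1 : ℝ) else 0 := by
  push_cast
  rw [Finset.sum_congr rfl fun t _ => nbn_eq G f w t, Finset.sum_comm]
  refine Finset.sum_congr rfl fun v _ => ?_
  cases h : f v with
  | none => simp
  | some s =>
    by_cases hw : G.Adj w v
    · simp [hw]
    · simp [hw]

open Classical in
theorem sum_cw {V : Type} [Fintype V] {r : ℕ} (x : V → ℝ) (f : V → Option (Fin r)) :
    ∑ t, cw x f (some t) = ∑ v, if f v ≠ none then x v else 0 := by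
  unfold cw
  rw [Finset.sum_comm]
  refine Finset.sum_congr rfl fun v _ => ?_
  cases h : f v with
  | none => simp
  | some s => simp

theorem nbn_le {V : Type} [Fintype V] {r : ℕ} (G : SimpleGraph V) (f : V → Option (Fin r))
    (w : V) (t : Fin r) : nbn G f w t ≤ siz f t :=
  Set.ncard_le_ncard (fun _ h => h.1) (Set.toFinite _)

theorem le_cw {V : Type} [Fintype V] {r : ℕ} (x : V → ℝ) (hx : ∀ v, 0 ≤ x v)
    (f : V → Option (Fin r)) (v : V) (t : Fin r) (hv : f v = some t) :
    x v ≤ cw x f (some t) := by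
  classical
  unfold cw
  have h := Finset.single_le_sum (f := fun v => if f v = some t then x v else 0)
    (fun u _ => by split_ifs; exacts [hx u, le_rfl]) (Finset.mem_univ v)
  simpa [hv] using h

theorem cw_nonneg {V : Type} [Fintype V] {r : ℕ} (x : V → ℝ) (hx : ∀ v, 0 ≤ x v)
    (f : V → Option (Fin r)) (t : Option (Fin r)) : 0 ≤ cw x f t := by
  classical
  unfold cw
  exact Finset.sum_nonneg fun v _ => by split_ifs; exacts [hx v, le_rfl]

theorem ex_nb {V : Type} [Fintype V] {r : ℕ} (G : SimpleGraph V) (f : V → Option (Fin r))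
    (w : V) (h : 0 < ((∑ t, nbn G f w t : ℕ) : ℝ)) : ∃ v, f v ≠ none ∧ G.Adj w v := by
  by_contra hcon
  push Not at hcon
  have : ((∑ t, nbn G f w t : ℕ) : ℝ) = 0 := by
    rw [sum_nbn]
    refine Finset.sum_eq_zero fun v _ => ?_
    rw [if_neg]
    rintro ⟨h1, h2⟩
    exact hcon v h1 h2
  linarith

/-- the case `∑ X t = n` -/
theorem norm (hE : EIG1_statement) {r : ℕ} (hr : 3 ≤ r) {V : Type} [Fintype V]
    (G : SimpleGraph V) (f : V → Option (Fin r)) (w p p' : V) (i j : Fin r) (x : V → ℝ) (n : ℕ)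
    (l : ℝ) (hn : 400 * r ≤ n) (hty : Ty1 G f w p p' i j) (hB : Bal n f)
    (hd1 : 0 < ((∑ t, nbn G f w t : ℕ) : ℝ))
    (hd2 : ((∑ t, nbn G f w t : ℕ) : ℝ) ≤ (1 - 2 / (r : ℝ)) * (qq r * n) + 1)
    (hx : ∀ v, 0 ≤ x v) (hT : ∑ s, cw x f (some s) = n)
    (heig : ∀ v, ∑ u, adj G v u * x u = l * x v) :
    (n : ℝ) / 2 ≤ l ∧ 0 < x w ∧
    (∀ v, f v ≠ none → x v ≤ 2 ∧ 1 - 1 / (4 * (r : ℝ)) ≤ x v) ∧
    ∀ k l, siz f k = siz f l + 1 →
      1 / 2 ≤ cw x f (some k) - cw x f (some l) ∧
      (nbn G f w k ≤ 1 → cw x f (some k) - cw x f (some l) ≤ qq r + 1 / (4 * (r : ℝ))) := by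
  classical
  obtain ⟨hA, hBp, hCp, hD, hEw⟩ := hE r V G f w p p' i j x l hty heig
  simp only [hT] at hA hBp hCp hD
  set X : Fin r → ℝ := fun t => cw x f (some t) with hX
  have hXnn : ∀ t, 0 ≤ X t := fun t => cw_nonneg x hx f _
  -- numbers
  have hr0 : (3 : ℝ) ≤ r := by exact_mod_cast hr
  have hrpos : (0 : ℝ) < r := by linarith
  obtain ⟨u, hu⟩ : ∃ u : ℝ, u = 1 / (r : ℝ) := ⟨_, rfl⟩
  have hupos : 0 < u := by rw [hu]; positivity
  have hu3 : u ≤ 1 / 3 := by rw [hu, div_le_div_iff₀ hrpos (by norm_num)]; linarith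
  obtain ⟨N, hN⟩ : ∃ N : ℝ, N = n := ⟨_, rfl⟩
  have hnr : (400 : ℝ) * r ≤ N := by rw [hN]; exact_mod_cast hn
  have hNu : 400 ≤ N * u := by
    rw [hu, mul_one_div, le_div_iff₀ hrpos]; exact hnr
  have hN1200 : 1200 ≤ N := by linarith
  have hNpos : 0 < N := by linarith
  have hq : qq r = 1 - u := by rw [hu]; rfl
  have h2r : 2 / (r : ℝ) = 2 * u := by rw [hu]; ring
  have h4r : 1 / (4 * (r : ℝ)) = u / 4 := by rw [hu]; field_simp
  rw [h2r, hq, ← hN] at hd2
  rw [← hN] at hA hBp hCp hD hT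
  rw [h4r, ← hN, hq]
  -- the sizes
  have hσ : ∀ t, N * u - 1 ≤ (siz f t : ℝ) ∧ (siz f t : ℝ) ≤ N * u + 1 := by
    intro t
    obtain ⟨h1, h2⟩ := hB.1 t
    have h3 : N * u = (n : ℝ) / r := by rw [hu, hN]; ring
    have h4 : ((n / r : ℕ) : ℝ) ≤ (n : ℝ) / r := Nat.cast_div_le
    have h5 : (n : ℝ) / r ≤ ((n / r : ℕ) : ℝ) + 1 := by
      rw [div_le_iff₀ hrpos]
      have h6 : n < (n / r + 1) * r := by
        have := Nat.div_add_mod n r
        have h7 := Nat.mod_lt n (show 0 < r by omega)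
        nlinarith
      have h8 : (n : ℝ) < ((n / r + 1 : ℕ) : ℝ) * r := by exact_mod_cast h6
      push_cast at h8
      linarith
    have h6 : ((n / r : ℕ) : ℝ) ≤ siz f t := by exact_mod_cast h1
    have h7 : (siz f t : ℝ) ≤ ((n / r : ℕ) : ℝ) + 1 := by exact_mod_cast h2
    rw [h3]
    constructor <;> linarith
  have hσn : ∑ t, (siz f t : ℝ) = N := by
    rw [hN]; exact_mod_cast hB.2
  have ha : ∀ t, 0 ≤ (nbn G f w t : ℝ) ∧ (nbn G f w t : ℝ) ≤ N * u + 1 := by
    intro t
    refine ⟨Nat.cast_nonneg _, le_trans ?_ (hσ t).2⟩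
    exact_mod_cast nbn_le G f w t
  obtain ⟨d, hd⟩ : ∃ d : ℝ, d = ((∑ t, nbn G f w t : ℕ) : ℝ) := ⟨_, rfl⟩
  rw [← hd] at hd1 hd2
  have hda : ∑ t, (nbn G f w t : ℝ) = d := by rw [hd]; push_cast; rfl
  have hdN : d ≤ N := by nlinarith only [hd2, hupos, hu3, hNu, hNpos]
  obtain ⟨ξ, hξ⟩ : ∃ ξ : ℝ, ξ = x w := ⟨_, rfl⟩
  have hξ0 : 0 ≤ ξ := hξ ▸ hx w
  -- the sum of the equations
  have hsum : l * N = N * N - ∑ t, (siz f t : ℝ) * X t + d * ξ - x p' - x p := by
    calc l * N = ∑ t, l * X t := by rw [← Finset.mul_sum, hT]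
      _ = ∑ t, ((siz f t : ℝ) * (N - X t) + nbn G f w t * ξ - (if t = i then x p' else 0)
            - if t = j then x p else 0) := by
          refine Finset.sum_congr rfl fun t _ => ?_
          rw [hξ]
          exact hD t
      _ = _ := by
          rw [Finset.sum_sub_distrib, Finset.sum_sub_distrib, Finset.sum_add_distrib]
          simp only [Finset.sum_ite_eq', Finset.mem_univ, if_true]
          rw [← Finset.sum_mul, hda]
          simp only [mul_sub]
          rw [Finset.sum_sub_distrib, ← Finset.sum_mul, hσn]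
  have hs1 : ∑ t, (siz f t : ℝ) * X t ≤ (N * u + 1) * N := by
    calc ∑ t, (siz f t : ℝ) * X t ≤ ∑ t, (N * u + 1) * X t :=
          Finset.sum_le_sum fun t _ => mul_le_mul_of_nonneg_right (hσ t).2 (hXnn t)
      _ = (N * u + 1) * N := by rw [← Finset.mul_sum, hT]
  have hs2 : (N * u - 1) * N ≤ ∑ t, (siz f t : ℝ) * X t := by
    calc (N * u - 1) * N = ∑ t, (N * u - 1) * X t := by rw [← Finset.mul_sum, hT]
      _ ≤ ∑ t, (siz f t : ℝ) * X t :=
          Finset.sum_le_sum fun t _ => mul_le_mul_of_nonneg_right (hσ t).1 (hXnn t)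
  have hXle : ∀ t, X t ≤ N := fun t => by
    rw [← hT]
    exact Finset.single_le_sum (f := fun t => X t) (fun s _ => hXnn s) (Finset.mem_univ t)
  have hxX : ∀ v t, f v = some t → x v ≤ X t := fun v t hv => le_cw x hx f v t hv
  have hxp : x p ≤ N := (hxX p i hty.hp).trans (hXle i)
  have hxp' : x p' ≤ N := (hxX p' j hty.hp').trans (hXle j)
  have hdξ : 0 ≤ d * ξ := mul_nonneg hd1.le hξ0
  have hl1 : N / 2 ≤ l := by
    have h1 : N * (N - (N * u + 1) - 2) ≤ N * l := by nlinarith only [hsum, hs1, hxp, hxp', hdξ]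
    have h2 := le_of_mul_le_mul_left h1 hNpos
    nlinarith only [h2, hu3, hNpos, hN1200]
  have hlpos : 0 < l := by linarith
  -- `ξ ≤ 2`
  have hξE : l * ξ ≤ N := by
    rw [hξ, hEw, ← hT, sum_cw]
    refine Finset.sum_le_sum fun v _ => ?_
    by_cases h1 : f v ≠ none
    · by_cases h2 : G.Adj w v
      · rw [if_pos ⟨h1, h2⟩, if_pos h1]
      · rw [if_neg (fun h => h2 h.2), if_pos h1]; exact hx v
    · rw [if_neg (fun h => h1 h.1), if_neg h1]
  have hξ2 : ξ ≤ 2 := by nlinarith only [hξE, hl1, hξ0, hNpos]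
  -- core entries
  have hup : ∀ v t, f v = some t → l * x v ≤ N - X t + ξ := by
    intro v t hv
    by_cases h1 : v = p
    · subst h1
      have h2 : t = i := Option.some.inj (hv.symm.trans hty.hp)
      rw [hBp, h2, hξ]
      have := hx p'
      have h3 := hx w
      split_ifs <;> linarith
    · by_cases h2 : v = p'
      · subst h2
        have h2 : t = j := Option.some.inj (hv.symm.trans hty.hp')
        rw [hCp, h2, hξ]
        have := hx p
        have h3 := hx w
        split_ifs <;> linarith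
      · rw [hA v t hv h1 h2, hξ]
        have h3 := hx w
        split_ifs <;> linarith
  have hx3 : ∀ v t, f v = some t → x v ≤ 3 := by
    intro v t hv
    have h1 := hup v t hv
    have h2 := hXnn t
    have h3 : l * x v ≤ l * 3 := by linarith
    exact le_of_mul_le_mul_left h3 hlpos
  have hp3 := hx3 p i hty.hp
  have hp3' := hx3 p' j hty.hp'
  have hlow : ∀ v t, f v = some t → N - X t - 3 ≤ l * x v := by
    intro v t hv
    by_cases h1 : v = p
    · subst h1
      have h2 : t = i := Option.some.inj (hv.symm.trans hty.hp)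
      rw [hBp, h2]
      have h3 := hx w
      split_ifs <;> linarith
    · by_cases h2 : v = p'
      · subst h2
        have h2 : t = j := Option.some.inj (hv.symm.trans hty.hp')
        rw [hCp, h2]
        have h3 := hx w
        split_ifs <;> linarith
      · rw [hA v t hv h1 h2]
        have h3 := hx w
        split_ifs <;> linarith
  -- the bounds for `l`
  have hlL : N * (1 - u) - 2 ≤ l := by
    have h1 : N * (N * (1 - u) - 2) ≤ N * l := by nlinarith only [hsum, hs1, hp3, hp3', hdξ, hN1200]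
    exact le_of_mul_le_mul_left h1 hNpos
  have hlU : l ≤ N * (1 - u) + 3 := by
    have h2 : d * ξ ≤ N * 2 := mul_le_mul hdN hξ2 hξ0 hNpos.le
    have h1 : N * l ≤ N * (N * (1 - u) + 3) := by
      nlinarith only [hsum, hs2, hx p, hx p', h2]
    exact le_of_mul_le_mul_left h1 hNpos
  -- the class sums
  obtain ⟨s, hs⟩ : ∃ s : Fin r → ℝ, ∀ t, s t = (if t = i then x p' else 0)
      + if t = j then x p else 0 := ⟨_, fun t => rfl⟩
  have hs03 : ∀ t, 0 ≤ s t ∧ s t ≤ 3 := by
    intro t
    rw [hs]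
    by_cases h1 : t = i
    · have h2 : t ≠ j := fun h => hty.ij (h1.symm.trans h)
      rw [if_pos h1, if_neg h2, add_zero]
      exact ⟨hx p', hp3'⟩
    · by_cases h2 : t = j
      · rw [if_neg h1, if_pos h2, zero_add]
        exact ⟨hx p, hp3⟩
      · rw [if_neg h1, if_neg h2]; norm_num
  have hDs : ∀ t, l * X t = siz f t * (N - X t) + nbn G f w t * ξ - s t := by
    intro t
    have h1 := hD t
    rw [hs, hξ]
    have h2 : l * X t = siz f t * (N - X t) + nbn G f w t * x w - (if t = i then x p' else 0)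
      - if t = j then x p else 0 := h1
    rw [h2]; ring
  have hNu1 : N * u ≤ N * (1 / 3) := mul_le_mul_of_nonneg_left hu3 hNpos.le
  have hXU : ∀ t, X t ≤ N * u + 6 := by
    intro t
    have h1 := hDs t
    obtain ⟨h2, h3⟩ := hσ t
    obtain ⟨h4, h5⟩ := ha t
    obtain ⟨h6, h7⟩ := hs03 t
    have h8 : (nbn G f w t : ℝ) * ξ ≤ (N * u + 1) * 2 := mul_le_mul h5 hξ2 hξ0 (by linarith)
    have h9 : (siz f t : ℝ) * N ≤ (N * u + 1) * N := mul_le_mul_of_nonneg_right h3 hNpos.le
    have h10 : (N - 3) * X t ≤ (l + siz f t) * X t :=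
      mul_le_mul_of_nonneg_right (by linarith) (hXnn t)
    have h11 : (N - 3) * X t ≤ (N - 3) * (N * u + 6) := by
      have : (l + siz f t) * X t ≤ (N * u + 1) * N + (N * u + 1) * 2 := by linarith
      nlinarith only [this, h10, hNu1, hN1200]
    exact le_of_mul_le_mul_left h11 (by linarith)
  have hXL : ∀ t, N * u - 4 ≤ X t := by
    intro t
    have h1 := hDs t
    obtain ⟨h2, h3⟩ := hσ t
    obtain ⟨h4, h5⟩ := ha t
    obtain ⟨h6, h7⟩ := hs03 t
    have h8 : 0 ≤ (nbn G f w t : ℝ) * ξ := mul_nonneg h4 hξ0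
    have h9 : (N * u - 1) * N ≤ (siz f t : ℝ) * N := mul_le_mul_of_nonneg_right h2 hNpos.le
    have h10 : (l + siz f t) * X t ≤ (N + 4) * X t :=
      mul_le_mul_of_nonneg_right (by linarith) (hXnn t)
    have h11 : (N + 4) * (N * u - 4) ≤ (N + 4) * X t := by
      have : (N * u - 1) * N - 3 ≤ (l + siz f t) * X t := by linarith
      nlinarith only [this, h10, hNu1, hN1200]
    exact le_of_mul_le_mul_left h11 (by linarith)
  -- core entries, fine
  have hxu : ∀ v t, f v = some t → (N * (1 - u) - 2) * x v ≤ N * (1 - u) + 6 := by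
    intro v t hv
    have h1 := hup v t hv
    have h2 := hXL t
    have h3 : (N * (1 - u) - 2) * x v ≤ l * x v := mul_le_mul_of_nonneg_right hlL (hx v)
    linarith
  have hxl : ∀ v t, f v = some t → N * (1 - u) - 9 ≤ (N * (1 - u) + 3) * x v := by
    intro v t hv
    have h1 := hlow v t hv
    have h2 := hXU t
    have h3 : l * x v ≤ (N * (1 - u) + 3) * x v := mul_le_mul_of_nonneg_right hlU (hx v)
    linarith
  have hxv2 : ∀ v t, f v = some t → x v ≤ 2 := by
    intro v t hv
    have h1 : (N * (1 - u) - 2) * x v ≤ (N * (1 - u) - 2) * 2 := by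
      have := hxu v t hv
      linarith
    exact le_of_mul_le_mul_left h1 (by linarith)
  have hxv1 : ∀ v t, f v = some t → 1 - u / 4 ≤ x v := by
    intro v t hv
    have h1 : (N * (1 - u) + 3) * (1 - u / 4) ≤ (N * (1 - u) + 3) * x v := by
      have := hxl v t hv
      nlinarith only [this, hNu, hu3, hupos]
    exact le_of_mul_le_mul_left h1 (by linarith)
  have hxn : ∀ v t, f v = some t → N * x v ≤ N + 16 := by
    intro v t hv
    have h1 := hxu v t hv
    have h2 : (N * (1 - u) - 2) * (N * x v) ≤ (N * (1 - u) - 2) * (N + 16) := by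
      have h3 : N * ((N * (1 - u) - 2) * x v) ≤ N * (N * (1 - u) + 6) :=
        mul_le_mul_of_nonneg_left h1 hNpos.le
      nlinarith only [h3, hNu1, hN1200]
    exact le_of_mul_le_mul_left h2 (by linarith)
  -- `ξ > 0`
  have hξpos : 0 < ξ := by
    obtain ⟨v, hv1, hv2⟩ := ex_nb G f w (hd ▸ hd1)
    obtain ⟨t, ht⟩ := Option.ne_none_iff_exists'.1 hv1
    have h1 := hxv1 v t ht
    have h2 : x v ≤ l * ξ := by
      rw [hξ, hEw]
      have h := Finset.single_le_sum (f := fun v => if f v ≠ none ∧ G.Adj w v then x v else 0)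
        (fun u _ => by split_ifs; exacts [hx u, le_rfl]) (Finset.mem_univ v)
      simpa [hv1, hv2] using h
    have h3 : 0 < l * ξ := by linarith
    exact (mul_pos_iff_of_pos_left hlpos).1 h3
  -- fine upper bound for `ξ`
  have hξU : N * ξ ≤ N * (1 - 2 * u) + 23 := by
    have h1 : N * (l * ξ) ≤ d * (N + 16) := by
      rw [hξ, hEw, hd, sum_nbn, Finset.mul_sum, Finset.sum_mul]
      refine Finset.sum_le_sum fun v _ => ?_
      by_cases h1 : f v ≠ none ∧ G.Adj w v
      · rw [if_pos h1, if_pos h1, one_mul]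
        obtain ⟨t, ht⟩ := Option.ne_none_iff_exists'.1 h1.1
        exact hxn v t ht
      · rw [if_neg h1, if_neg h1]; simp
    have h2 : (N * (1 - u) - 2) * (N * ξ) ≤ N * (l * ξ) := by
      have : (N * (1 - u) - 2) * (N * ξ) ≤ l * (N * ξ) :=
        mul_le_mul_of_nonneg_right hlL (by positivity)
      linarith
    have h3 : d * (N + 16) ≤ ((1 - 2 * u) * ((1 - u) * N) + 1) * (N + 16) :=
      mul_le_mul_of_nonneg_right hd2 (by linarith)
    have h4 : ((1 - 2 * u) * ((1 - u) * N) + 1) * (N + 16)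
        ≤ (N * (1 - u) - 2) * (N * (1 - 2 * u) + 23) := by
      -- `(7 q + 16 q (2u) - 2 (1 - 2u) - 1) N ≥ 62`
      have h5 : 0 ≤ N * u * (1 - u) := by
        have : 0 ≤ N * u := by positivity
        have h6 : 0 ≤ 1 - u := by linarith
        positivity
      nlinarith only [h5, hNu1, hN1200, hNu]
    have h5 : (N * (1 - u) - 2) * (N * ξ) ≤ (N * (1 - u) - 2) * (N * (1 - 2 * u) + 23) := by
      linarith
    exact le_of_mul_le_mul_left h5 (by linarith)
  refine ⟨hl1, hξ ▸ hξpos, ?_, ?_⟩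
  · intro v hv
    obtain ⟨t, ht⟩ := Option.ne_none_iff_exists'.1 hv
    exact ⟨hxv2 v t ht, hxv1 v t ht⟩
  · intro k m hkm
    have hkm' : (siz f k : ℝ) = siz f m + 1 := by exact_mod_cast hkm
    have h1 := hDs k
    have h2 := hDs m
    obtain ⟨h3, h4⟩ := hs03 k
    obtain ⟨h5, h6⟩ := hs03 m
    obtain ⟨h7, h8⟩ := ha k
    obtain ⟨h9, h10⟩ := ha m
    obtain ⟨h11, h12⟩ := hσ m
    have h13 := hXU k
    have h14 := hXL k
    have hdiff : (l + siz f m) * (X k - X m)
        = (N - X k) + ((nbn G f w k : ℝ) - nbn G f w m) * ξ - s k + s m := by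
      rw [hkm'] at h1
      linarith
    change 1 / 2 ≤ X k - X m ∧ (nbn G f w k ≤ 1 → X k - X m ≤ 1 - u + u / 4)
    constructor
    · have h15 : (nbn G f w m : ℝ) * ξ ≤ N * u * (1 - 2 * u) + 10 := by
        have h16 : (nbn G f w m : ℝ) * (N * ξ) ≤ (N * u + 1) * (N * (1 - 2 * u) + 23) :=
          mul_le_mul h10 hξU (by positivity) (by linarith)
        have h17 : N * ((nbn G f w m : ℝ) * ξ) ≤ N * (N * u * (1 - 2 * u) + 10) := by
          nlinarith only [h16, hNu1, hN1200, hNu]
        exact le_of_mul_le_mul_left h17 hNpos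
      have h16 : 0 ≤ (nbn G f w k : ℝ) * ξ := mul_nonneg h7 hξ0
      have h17 : 5 / 9 * N - 19 ≤ (l + siz f m) * (X k - X m) := by
        rw [hdiff]
        have h18 : 5 / 9 * N ≤ N - N * u - N * u * (1 - 2 * u) := by
          have h19 : 5 / 9 ≤ 1 - 2 * u + 2 * u ^ 2 := by nlinarith only [hu3, hupos]
          have := mul_le_mul_of_nonneg_left h19 hNpos.le
          linarith
        linarith
      have h18 : 0 < X k - X m := by
        have h19 : 0 < (l + siz f m) * (X k - X m) := by linarith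
        exact (mul_pos_iff_of_pos_left (by linarith)).1 h19
      have h19 : (l + siz f m) * (X k - X m) ≤ (N + 4) * (X k - X m) :=
        mul_le_mul_of_nonneg_right (by linarith) h18.le
      have h20 : (N + 4) * (1 / 2) ≤ (N + 4) * (X k - X m) := by linarith
      exact le_of_mul_le_mul_left h20 (by linarith)
    · intro hk1
      have hk1' : (nbn G f w k : ℝ) ≤ 1 := by exact_mod_cast hk1
      have h15 : (nbn G f w k : ℝ) * ξ ≤ 1 * 2 := mul_le_mul hk1' hξ2 hξ0 (by norm_num)
      have h16 : 0 ≤ (nbn G f w m : ℝ) * ξ := mul_nonneg h9 hξ0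
      have h17 : (l + siz f m) * (X k - X m) ≤ N * (1 - u) + 9 := by
        rw [hdiff]; linarith
      rcases le_or_gt (X k - X m) 0 with h18 | h18
      · linarith
      · have h19 : (N - 3) * (X k - X m) ≤ (l + siz f m) * (X k - X m) :=
          mul_le_mul_of_nonneg_right (by linarith) h18.le
        have h20 : (N - 3) * (X k - X m) ≤ (N - 3) * (1 - u + u / 4) := by
          nlinarith only [h19, h17, hNu, hupos]
        exact le_of_mul_le_mul_left h20 (by linarith)

theorem cw_smul {V : Type} [Fintype V] {r : ℕ} (x : V → ℝ) (f : V → Option (Fin r)) (c : ℝ)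
    (o : Option (Fin r)) : cw (fun v => c * x v) f o = c * cw x f o := by
  classical
  unfold cw
  rw [Finset.mul_sum]
  refine Finset.sum_congr rfl fun v _ => ?_
  split_ifs <;> simp

end ItemGAP1

open ItemGAP1 in
theorem prfGAP1 : P_statement → EIG1_statement → GAP1_statement := by
  classical
  intro _ hE r ε hr hε
  refine ⟨400 * r, ?_⟩
  intro V _ G f w p p' i j x n hn hty hB hd1 hd2 hx hx0 heig
  have hnpos : (0 : ℝ) < n := by
    have : 0 < n := by omega
    exact_mod_cast this
  have hd1' : 0 < ((∑ t, nbn G f w t : ℕ) : ℝ) := lt_of_lt_of_le (by positivity) hd1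
  set T := ∑ s, cw x f (some s) with hT
  have hTnn : 0 ≤ T := Finset.sum_nonneg fun t _ => cw_nonneg x hx f _
  have hTpos : 0 < T := by
    rcases hTnn.lt_or_eq with h | h
    · exact h
    · exfalso
      have hX0 : ∀ t, cw x f (some t) = 0 := fun t =>
        (Finset.sum_eq_zero_iff_of_nonneg fun t _ => cw_nonneg x hx f _).1 h.symm t
          (Finset.mem_univ t)
      have hc0 : ∀ v, f v ≠ none → x v = 0 := by
        intro v hv
        obtain ⟨t, ht⟩ := Option.ne_none_iff_exists'.1 hv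
        have := le_cw x hx f v t ht
        rw [hX0 t] at this
        exact le_antisymm this (hx v)
      obtain ⟨hA, hBp, hCp, hD, hEw⟩ := hE r V G f w p p' i j x (lam G) hty heig
      obtain ⟨v, hv1, hv2⟩ := ex_nb G f w hd1'
      obtain ⟨t, ht⟩ := Option.ne_none_iff_exists'.1 hv1
      have hp0 : x p = 0 := hc0 p (by rw [hty.hp]; simp)
      have hp0' : x p' = 0 := hc0 p' (by rw [hty.hp']; simp)
      have hxw : x w = 0 := by
        by_cases h1 : v = p
        · subst h1
          rw [hp0, hp0', if_pos hv2, ← hT, ← h, hX0] at hBp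
          linarith
        · by_cases h2 : v = p'
          · subst h2
            rw [hp0, hp0', if_pos hv2, ← hT, ← h, hX0] at hCp
            linarith
          · have h3 := hA v t ht h1 h2
            rw [hc0 v hv1, if_pos hv2, ← hT, ← h, hX0] at h3
            linarith
      apply hx0
      ext v
      by_cases hv : f v = none
      · rw [(hty.out v).1 hv, hxw]; rfl
      · rw [hc0 v hv]; rfl
  have hc : 0 < (n : ℝ) / T := by positivity
  have hcT : (n : ℝ) / T * T = n := by field_simp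
  obtain ⟨h1, h2, h3, h4⟩ := norm hE hr G f w p p' i j (fun v => n / T * x v) n (lam G) hn hty hB
    hd1' hd2 (fun v => mul_nonneg hc.le (hx v))
    (by simp only [cw_smul]; rw [← Finset.mul_sum, ← hT, hcT])
    (by
      intro v
      have := heig v
      calc ∑ u, adj G v u * (n / T * x u) = n / T * ∑ u, adj G v u * x u := by
            rw [Finset.mul_sum]
            exact Finset.sum_congr rfl fun u _ => by ring
        _ = lam G * (n / T * x v) := by rw [this]; ring)
  refine ⟨h1, hTpos, (mul_pos_iff_of_pos_left hc).1 h2, ?_, ?_⟩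
  · intro v hv
    obtain ⟨h5, h6⟩ := h3 v hv
    constructor
    · rw [le_div_iff₀ hnpos]
      rw [div_mul_eq_mul_div, div_le_iff₀ hTpos] at h5
      linarith
    · rw [div_le_iff₀ hnpos]
      rw [div_mul_eq_mul_div, le_div_iff₀ hTpos] at h6
      linarith
  · intro k m hkm
    obtain ⟨h5, h6⟩ := h4 k m hkm
    simp only [cw_smul] at h5 h6
    rw [← mul_sub, div_mul_eq_mul_div] at h5 h6
    constructor
    · rw [div_le_iff₀ (by positivity)]
      rw [le_div_iff₀ hTpos] at h5
      linarith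
    · intro hk1
      have h7 := h6 hk1
      rw [le_div_iff₀ hnpos]
      rw [div_le_iff₀ hTpos] at h7
      linarith

end MP0c3a8f
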