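import Pool.Agent.Work.MP_0c3a8f_co.PB.Stmts9

/-!
# MP_0c3a8f_co: the exact extremal graphs for `F = K_{r+1}` for all sufficiently large `m`

`q = qq r = 1 - 1/r`.  The proofs are in the specifications (table `helpwanted`).
-/

open Finset

namespace MP0c3a8f

/-! ### The candidates -/

/-- the candidates of type `P` with parts of the sizes `σ t` -/
def IsYP {V : Type} {r : ℕ} (σ : Fin r → ℕ) (G : SimpleGraph V) : Prop :=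
  ∃ (f : V → Option (Fin r)) (w : V) (q : Fin r → V) (i : Fin r) (L : Finset V),
    TyP G f w q i L ∧ (∃! t, q t ∈ L) ∧ (∀ t, siz f t = σ t) ∧ (∀ t, σ t ≤ σ i) ∧
    (∀ v ∈ L, ∀ t, f v = some t → ∀ s, s ≠ i → σ s ≤ σ t) ∧
    ∀ s t, s ≠ i → t ≠ i → σ s = σ t → lc L f s ≤ lc L f t + 1

/-- the candidates of type `Q` with parts of the sizes `σ t` -/
def IsYQ {V : Type} {r : ℕ} (σ : Fin r → ℕ) (G : SimpleGraph V) : Prop :=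
  ∃ (f : V → Option (Fin r)) (w p p' : V) (i j : Fin r), Th1 G f w p p' i j ∧
    (∀ t, siz f t = σ t) ∧ (∀ t, σ t ≤ σ i) ∧ (∀ t, t ≠ i → σ t ≤ σ j) ∧
    ∀ s t, s ≠ i → s ≠ j → t ≠ i → t ≠ j →
      (σ s = σ t → nbn G f w s ≤ nbn G f w t + 1) ∧
      (σ t < σ s → 2 ≤ nbn G f w s → nbn G f w t = σ t)

/-- the candidates of type `R` with parts of the sizes `σ t` -/
def IsYR {V : Type} {r : ℕ} (σ : Fin r → ℕ) (G : SimpleGraph V) : Prop :=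
  ∃ (f : V → Option (Fin r)) (w u : V) (v : Fin r → V) (i : Fin r), Th2 G f w u v i ∧
    (∃! t, t ≠ i ∧ ¬ G.Adj w (v t)) ∧ (∀ t, siz f t = σ t) ∧ (∀ t, σ t ≤ σ i) ∧
    ∀ s t, s ≠ i → t ≠ i →
      (σ s = σ t → nbn G f w s ≤ nbn G f w t + 1) ∧
      (σ t < σ s → 2 ≤ nbn G f w s → nbn G f w t = σ t)

/-- the candidates with parts of the sizes `σ t` and `m` edges -/
def IsY {V : Type} {r : ℕ} (σ : Fin r → ℕ) (m : ℕ) (G : SimpleGraph V) : Prop :=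
  (∀ t, 2 ≤ σ t) ∧ G.edgeSet.ncard = m ∧ (IsYP σ G ∨ IsYQ σ G ∨ IsYR σ G)

/-- the candidates with `m` edges and `n` or `n + 1` vertices in the parts -/
def IsZ {V : Type} (r n m : ℕ) (G : SimpleGraph V) : Prop :=
  ∃ σ : Fin r → ℕ, (∑ t, σ t = n ∨ ∑ t, σ t = n + 1) ∧ IsY σ m G

/-! ### The transition range -/

/-- around the transition, `D` is about `(1 - 2/r) (1 - 1/r) n` -/
def RX (r n D : ℕ) : Prop :=
  (1 - 2 / (r : ℝ) - 1 / (4 * (r : ℝ) ^ 2)) * (qq r * n) ≤ D ∧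
    (D : ℝ) ≤ (1 - 2 / (r : ℝ) + 1 / (4 * (r : ℝ) ^ 2)) * (qq r * n)

/-- (CSB) the defect is the cost up to `o(1)` -/
def CSB_statement : Prop :=
  ∀ (r N : ℕ) (ε : ℝ), 3 ≤ r → 0 < ε → ∃ n₀ : ℕ, ∀ (V : Type) [Fintype V]
    (G : SimpleGraph V) (g : V → Option (Fin r)) (w : V) (n : ℕ), n₀ ≤ n → Bd n N G g w →
    |Def r G - Cst G g w| ≤ ε

/-- (JFT) all other types are worse -/
def JFT_statement : Prop :=
  ∀ r : ℕ, 3 ≤ r → ∃ c > (0 : ℝ), ∀ N : ℕ, ∃ n₀ : ℕ, ∀ n ≥ n₀, ∀ D : ℕ, RX r n D →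
    ∀ (σ a a' : Fin r → ℕ) (α b : ℕ),
    ∑ t, σ t = n → dev σ ≤ N → (∀ t, a t ≤ σ t) → α + b ≤ N →
    2 * D + 2 * α + ∑ t, σ t ^ 2 = ∑ t, tz r n t ^ 2 + 2 * ∑ t, a t + 2 * b →
    (α = 0 → r ≤ b) → ¬ (α = 1 ∧ b = 0) → Tg1 r n D a' →
    Kap r (tz r n) a' + 2 * qq r + c ≤ Kap r σ a + 2 * qq r * (α + b)

/-- (JBT) unbalanced parts are worse -/
def JBT_statement : Prop :=
  ∀ r : ℕ, 3 ≤ r → ∃ c > (0 : ℝ), ∀ N : ℕ, ∃ n₀ : ℕ, ∀ n ≥ n₀, ∀ D : ℕ, RX r n D →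
    ∀ (σ a : Fin r → ℕ) (Φ : Finset (Fin r)), ∑ t, σ t = n → dev σ ≤ N →
    (∀ t, a t ≤ σ t) → Φ.card ≤ 2 → (∀ t ∈ Φ, a t ≤ 1) → (∀ t, t ∉ Φ → 1 ≤ a t) →
    |(∑ t, (a t : ℝ)) - D| ≤ N → ∑ t, tz r n t ^ 2 < ∑ t, σ t ^ 2 →
    ∃ (π : Equiv.Perm (Fin r)) (a' : Fin r → ℕ), (∀ t ∈ Φ, a' t = a t) ∧
      (∀ t, t ∉ Φ → 1 ≤ a' t) ∧ (∀ t, a' t ≤ tz r n (π t)) ∧
      2 * ∑ t, a' t + ∑ t, σ t ^ 2 = 2 * ∑ t, a t + ∑ t, tz r n t ^ 2 ∧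
      Kap r (fun t => tz r n (π t)) a' + c ≤ Kap r σ a

/-- (GRT) existence of target vectors -/
def GRT_statement : Prop :=
  ∀ r n D : ℕ, 3 ≤ r → r ≤ D → D ≤ (r - 2) * (n / r) → ∃ a, Tg1 r n D a

/-- (TPT) the extremal graphs of alternative one are of type `Q`, with balanced classes -/
def TPT_statement : Prop :=
  ∀ r N : ℕ, 3 ≤ r → ∃ n₀ : ℕ, ∀ (V : Type) [Fintype V] (G : SimpleGraph V)
    (g : V → Option (Fin r)) (w : V) (n D : ℕ), n₀ ≤ n → RX r n D → Mx r n D G →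
    Bd n N G g w → (∃ (p p' : V) (i j : Fin r), Th1 G g w p p' i j) ∧ Bal n g ∧
      ∑ t, nbn G g w t = D + 1

/-- (QEL) the neighbours of `w`, type `Q` -/
def QEL_statement : Prop :=
  ∀ r N : ℕ, 3 ≤ r → ∃ n₀ : ℕ, ∀ (V : Type) [Fintype V] (G : SimpleGraph V)
    (g : V → Option (Fin r)) (w p p' : V) (i j : Fin r) (n m : ℕ), n₀ ≤ n → MxK r m G →
    Bd n N G g w → Th1 G g w p p' i j →
    ∀ s t, s ≠ i → s ≠ j → t ≠ i → t ≠ j →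
      (siz g s = siz g t → nbn G g w s ≤ nbn G g w t + 1) ∧
      (siz g t < siz g s → 2 ≤ nbn G g w s → nbn G g w t = siz g t)

/-- (TVQ) test vectors for graphs of type `Q` -/
def TVQ_statement : Prop :=
  ∀ (r : ℕ) (V : Type) [Fintype V] (H : SimpleGraph V) (f : V → Option (Fin r))
    (w p p' : V) (i j : Fin r) (l ω P P' S : ℝ) (T : Fin r → ℝ), Th1 H f w p p' i j → 0 < l →
    (∀ t, t ≠ i → t ≠ j → T t * (l + siz f t) = l * S - nbn H f w t * ω) →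
    T i * (l + siz f i) = l * S + P' - ω → T j * (l + siz f j) = l * S + P - ω →
    l * P = T i - P' + ω → l * P' = T j - P + ω →
    0 < (((r : ℝ) - 1) * S - ∑ t, T t) * (r * S - ∑ t, T t)
      + (P + P' + ∑ t, (if t = i ∨ t = j then 0 else nbn H f w t * (T t + ω) / l) - l * ω) * ω →
    l < lam H

/-- (ORQ) the missing edge is between larger classes, type `Q` -/
def ORQ_statement : Prop :=
  ∀ r N : ℕ, 3 ≤ r → ∃ n₀ : ℕ, ∀ (V U : Type) [Fintype V] [Fintype U] (G : SimpleGraph V)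
    (H : SimpleGraph U) (f : V → Option (Fin r)) (f' : U → Option (Fin r)) (w p p' : V)
    (w' p₁ p₁' : U) (i j k : Fin r) (n : ℕ), n₀ ≤ n → Bd n N G f w →
    Th1 G f w p p' i j → Th1 H f' w' p₁ p₁' i j → k ≠ i → k ≠ j →
    siz f i < siz f k → siz f' i = siz f k → siz f' k = siz f i →
    (∀ t, t ≠ i → t ≠ k → siz f' t = siz f t) → (∀ t, nbn H f' w' t = nbn G f w t) →
    lam G < lam H

/-- (FIT) the extremal graphs of alternative one are candidates of type `Q` -/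
def FIT_statement : Prop :=
  ∀ r N : ℕ, 3 ≤ r → ∃ n₀ : ℕ, ∀ (V : Type) [Fintype V] (G : SimpleGraph V)
    (g : V → Option (Fin r)) (w : V) (n D : ℕ), n₀ ≤ n → RX r n D → Mx r n D G →
    Bd n N G g w → (∀ t, 2 ≤ siz g t) ∧ IsYQ (siz g) G

/-! ### Uniqueness -/

/-- (GVH) uniqueness of greedy vectors -/
def GVH_statement : Prop :=
  ∀ (r : ℕ) (A : Finset (Fin r)) (σ d d' : Fin r → ℕ), (∀ t, t ∉ A → d t = d' t) →
    (∀ t ∈ A, 1 ≤ d t ∧ d t ≤ σ t ∧ 1 ≤ d' t ∧ d' t ≤ σ t) →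
    (∀ s ∈ A, ∀ t ∈ A, σ s = σ t → d s ≤ d t + 1 ∧ d' s ≤ d' t + 1) →
    (∀ s ∈ A, ∀ t ∈ A, σ t < σ s → (2 ≤ d s → d t = σ t) ∧ (2 ≤ d' s → d' t = σ t)) →
    ∑ t, d t = ∑ t, d' t →
    ∃ π : Equiv.Perm (Fin r), (∀ t, t ∉ A → π t = t) ∧ (∀ t, σ (π t) = σ t) ∧
      ∀ t, d' (π t) = d t

/-- (UNP) uniqueness, type `P` -/
def UNP_statement : Prop :=
  ∀ (r m : ℕ) (σ : Fin r → ℕ) (V U : Type) [Fintype V] [Fintype U] (G : SimpleGraph V)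
    (H : SimpleGraph U), 3 ≤ r → G.edgeSet.ncard = m → H.edgeSet.ncard = m → IsYP σ G →
    IsYP σ H → lam G = lam H

/-- (UNQ) uniqueness, type `Q` -/
def UNQ_statement : Prop :=
  ∀ (r m : ℕ) (σ : Fin r → ℕ) (V U : Type) [Fintype V] [Fintype U] (G : SimpleGraph V)
    (H : SimpleGraph U), 3 ≤ r → (∀ t, 2 ≤ σ t) → G.edgeSet.ncard = m → H.edgeSet.ncard = m →
    IsYQ σ G → IsYQ σ H → Nonempty (G ≃g H)

/-- (UNR) uniqueness, type `R` -/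
def UNR_statement : Prop :=
  ∀ (r m : ℕ) (σ : Fin r → ℕ) (V U : Type) [Fintype V] [Fintype U] (G : SimpleGraph V)
    (H : SimpleGraph U), 3 ≤ r → (∀ t, 2 ≤ σ t) → G.edgeSet.ncard = m → H.edgeSet.ncard = m →
    IsYR σ G → IsYR σ H → lam G = lam H

/-! ### The regimes and the final theorem -/

/-- (YCV) conversions -/
def YCV_statement : Prop :=
  ∀ (r n D : ℕ) (V : Type) [Fintype V] (G : SimpleGraph V), 3 ≤ r → 2 * r ≤ n →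
    (∀ t : Fin r, 2 ≤ tz r n t) ∧ ∑ t : Fin r, tz r n t = n ∧
    (IsG1 r n D G → G.edgeSet.ncard = (SimpleGraph.turanGraph n r).edgeSet.ncard + D ∧
      IsYQ (fun t : Fin r => tz r n t) G) ∧
    (IsG2 r n D G → G.edgeSet.ncard = (SimpleGraph.turanGraph n r).edgeSet.ncard + D ∧
      IsYR (fun t : Fin r => tz r n t) G)

/-- (YIN) the candidates are in `N_r(m, K_{r+1})` -/
def YIN_statement : Prop :=
  ∀ (r m : ℕ) (σ : Fin r → ℕ) (V : Type) [Fintype V] (G : SimpleGraph V), 3 ≤ r →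
    IsY σ m G → InN r m (⊤ : SimpleGraph (Fin (r + 1))) G

/-- (YNL) one large class -/
def YNL_statement : Prop :=
  ∀ (r : ℕ) (C c : ℝ), 3 ≤ r → 0 ≤ C → 0 < c → ∃ n₀ : ℕ, ∀ (V : Type) [Fintype V]
    (G : SimpleGraph V) (g : V → Option (Fin r)) (i : Fin r) (n m : ℕ), n₀ ≤ n →
    MxK r m G → NL n C c G g i → IsY (siz g) m G

/-- (YNB) nearly balanced classes -/
def YNB_statement : Prop :=
  ∀ (r : ℕ) (C : ℝ), 3 ≤ r → 0 ≤ C → ∃ ε > (0 : ℝ), ∃ n₀ : ℕ, ∀ (V : Type) [Fintype V]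
    (G : SimpleGraph V) (g : V → Option (Fin r)) (n m : ℕ), n₀ ≤ n → MxK r m G →
    NK n C G g → dev (siz g) ≤ ε * n → IsY (siz g) m G

/-- (SDX) small `D`, the extremal graphs have type `R` -/
def SDX_statement : Prop :=
  ∀ r N : ℕ, 3 ≤ r → ∃ ε > (0 : ℝ), ∃ b₁ n₀ : ℕ, ∀ n ≥ n₀, ∀ D : ℕ, b₁ ≤ D →
    (D : ℝ) ≤ ε * n → N ≤ D → N * D ≤ n → ∀ (V : Type) [Fintype V] (G : SimpleGraph V),
    Mx r n D G → AltI r n D N G → IsG2 r n D G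

/-- (YAB) alternative two -/
def YAB_statement : Prop :=
  ∀ r N : ℕ, 3 ≤ r → ∃ n₀ : ℕ, ∀ (V : Type) [Fintype V] (G : SimpleGraph V) (n B m : ℕ),
    n₀ ≤ n → B ≤ n → m + B = (SimpleGraph.turanGraph n r).edgeSet.ncard → MxK r m G →
    AltII r n B N G → ∃ σ : Fin r → ℕ, ∑ t, σ t = n ∧ IsY σ m G

/-- (YRA) small `D` -/
def YRA_statement : Prop :=
  ∀ r : ℕ, 3 ≤ r → ∃ ε > (0 : ℝ), ∃ N n₀ : ℕ, ∀ n ≥ n₀, ∀ D : ℕ, (D : ℝ) ≤ ε * n →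
    ∀ (V : Type) [Fintype V] (G : SimpleGraph V), Mx r n D G →
      ((D : ℝ) < N * Real.sqrt (Real.sqrt n) → ∃ σ : Fin r → ℕ, ∑ t, σ t = n ∧
        IsY σ ((SimpleGraph.turanGraph n r).edgeSet.ncard + D) G) ∧
      (N * Real.sqrt (Real.sqrt n) ≤ D → IsG2 r n D G)

/-- (YRC) the transition range -/
def YRC_statement : Prop :=
  ∀ r : ℕ, 3 ≤ r → ∃ ε > (0 : ℝ), ∃ n₀ : ℕ, ∀ n ≥ n₀, ∀ D B : ℕ, RT r n D B ε →
    ∀ (V : Type) [Fintype V] (G : SimpleGraph V), Mx r n D G →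
      IsZ r n ((SimpleGraph.turanGraph n r).edgeSet.ncard + D) G

/-- (YRD) the upper range -/
def YRD_statement : Prop :=
  ∀ (r : ℕ) (ε : ℝ), 3 ≤ r → 0 < ε → ∃ n₀ : ℕ, ∀ n ≥ n₀, ∀ B m : ℕ,
    (B : ℝ) ≤ (2 / (r : ℝ) - ε) * (qq r * n) →
    m + B = (SimpleGraph.turanGraph n r).edgeSet.ncard →
    ∀ (V : Type) [Fintype V] (G : SimpleGraph V), MxK r m G →
      ∃ σ : Fin r → ℕ, ∑ t, σ t = n ∧ IsY σ m G

/-- (PCK) the regimes -/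
def PCK_statement : Prop :=
  ∀ (r : ℕ) (ε₁ ε₂ : ℝ), 3 ≤ r → 0 < ε₁ → 0 < ε₂ → ∀ n₀ : ℕ, ∃ m₀ : ℕ, ∀ m ≥ m₀,
    ∃ n D B : ℕ, n₀ ≤ n ∧ (SimpleGraph.turanGraph n r).edgeSet.ncard + D = m ∧
      m + B = (SimpleGraph.turanGraph (n + 1) r).edgeSet.ncard ∧ 1 ≤ B ∧
      ((D : ℝ) ≤ ε₁ * n ∨ RR r n D (min ε₁ (ε₂ / 2)) ∨ RT r n D B ε₂ ∨
        (B : ℝ) ≤ (2 / (r : ℝ) - ε₂ / 2) * (qq r * ((n + 1 : ℕ) : ℝ)))

/-- (FINE) the extremal graphs for `K_{r+1}` for all sufficiently large `m` -/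
def FINE_statement : Prop :=
  ∀ (r : ℕ) (ε : ℝ), 3 ≤ r → 0 < ε → ∃ N m₀ : ℕ, ∀ m ≥ m₀, ∃ n D : ℕ,
    (SimpleGraph.turanGraph n r).edgeSet.ncard + D = m ∧
    m < (SimpleGraph.turanGraph (n + 1) r).edgeSet.ncard ∧
    (∃ (k : ℕ) (G : SimpleGraph (Fin k)), MxK r m G) ∧
    (∀ (V : Type) [Fintype V] (G : SimpleGraph V), MxK r m G ↔
      IsZ r n m G ∧ ∀ (U : Type) [Fintype U] (H : SimpleGraph U), IsZ r n m H →
        lam H ≤ lam G) ∧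
    (N * Real.sqrt (Real.sqrt n) ≤ D → (D : ℝ) ≤ (1 - 2 / (r : ℝ) - ε) * (qq r * n) →
      (gap r n D ≤ -ε → ∀ (V : Type) [Fintype V] (G : SimpleGraph V),
        MxK r m G ↔ IsG2 r n D G) ∧
      (ε ≤ gap r n D → ∀ (V : Type) [Fintype V] (G : SimpleGraph V),
        MxK r m G ↔ IsG1 r n D G))

end MP0c3a8f
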