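import Pool.Agent.Work.MP_0c3a8f_co.PB.Stmts2

/-!
# MP_0c3a8f_co: the structure in the upper range `m = e(T_r(n)) - B`, `B ≤ (2/r - ε)(1-1/r)n`

`q = qq r = 1 - 1/r`.  The proofs are in the specifications (table `helpwanted`).
-/

open Finset

namespace MP0c3a8f

/-- the upper range -/
def RU (r n B : ℕ) (ε : ℝ) : Prop :=
  ε * (qq r * n) ≤ B ∧ (B : ℝ) ≤ (2 / (r : ℝ) - ε) * (qq r * n)

/-- sum of the cubes of the deviations of the sizes of the classes -/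
noncomputable def cub {r : ℕ} (σ : Fin r → ℕ) : ℝ :=
  ∑ t, ((σ t : ℝ) - (∑ s, (σ s : ℝ)) / r) ^ 3

/-- the maximum of `∑ x³` for `∑ x = 0`, `∑ x² = 1` -/
noncomputable def cr (r : ℕ) : ℝ := ((r : ℝ) - 2) / Real.sqrt (r * ((r : ℝ) - 1))

/-- the main part of `2(1-1/r)m - λ²` -/
noncomputable def AB (r n B : ℕ) : ℝ :=
  2 * qq r * (1 - 2 / (r : ℝ)) * B
    - 2 * qq r ^ 2 * cr r * (2 * B * Real.sqrt (2 * B)) / n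

/-- (KWS) complete multipartite graphs -/
def KWS_statement : Prop :=
  ∀ (r : ℕ) (C : ℝ), 3 ≤ r → 0 ≤ C → ∃ (C' : ℝ) (n₀ : ℕ), ∀ (V : Type) [Fintype V]
    (G : SimpleGraph V) (g : V → Option (Fin r)) (n : ℕ), IsKU G g ∅ → n₀ ≤ n →
    ∑ t, siz g t = n → dev (siz g) ≤ C * n →
    |lam G ^ 2 - (qq r ^ 2 * (n : ℝ) ^ 2 - 2 * qq r ^ 2 * dev (siz g)
      + 2 * qq r ^ 2 * cub (siz g) / n)| ≤ C' ∧ (n : ℝ) / 2 ≤ lam G ∧ lam G ≤ qq r * n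

/-- (KWU) complete multipartite core and boundedly many other vertices -/
def KWU_statement : Prop :=
  ∀ (r K : ℕ) (C : ℝ), 3 ≤ r → 0 ≤ C → ∃ (C' : ℝ) (n₀ : ℕ), 0 ≤ C' ∧ ∀ (V : Type) [Fintype V]
    (G : SimpleGraph V) (g : V → Option (Fin r)) (U : Finset V) (n : ℕ), IsKU G g U →
    U.card ≤ K → n₀ ≤ n → ∑ t, siz g t = n → dev (siz g) ≤ C * n →
    lam G ^ 2 ≤ qq r ^ 2 * (n : ℝ) ^ 2 - 2 * qq r ^ 2 * dev (siz g)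
      + 2 * (∑ v ∈ U, ((∑ t, nbn G g v t : ℕ) : ℝ) ^ 2) / n + C' * Real.sqrt n

/-- (MAINU) the main inequality for `dev = O(n)` -/
def MAINU_statement : Prop :=
  ∀ r : ℕ, 3 ≤ r → ∃ δ₀ > (0 : ℝ), ∀ δ : ℝ, 0 < δ → δ ≤ δ₀ → ∀ (K : ℕ) (C₁ : ℝ), 0 ≤ C₁ →
    ∃ (C : ℝ) (n₀ : ℕ), 0 ≤ C ∧ ∀ (V : Type) [Fintype V] (G : SimpleGraph V) (z : V → ℝ)
    (g : V → Option (Fin r)) (U : Finset V) (n : ℕ), Rough r δ K G z g U G.edgeSet.ncard →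
    n₀ ≤ n → ∑ t, siz g t = n → dev (siz g) ≤ C₁ * n →
    (2 * qq r - 1 / (4 * (r : ℝ) ^ 2)) * ((missSet G g).ncard + (lightSet G g U).ncard)
      + qq r * (1 - 2 / (r : ℝ)) * dev (siz g)
      + ∑ v ∈ U, 2 * ((∑ t, nbn G g v t : ℕ) : ℝ)
          * (qq r - ((∑ t, nbn G g v t : ℕ) : ℝ) / n)
      - C * Real.sqrt n ≤ 2 * qq r * G.edgeSet.ncard - lam G ^ 2

/-- (OPUC) the real inequality -/
def OPUC_statement : Prop :=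
  ∀ (r : ℕ) (ε c : ℝ), 3 ≤ r → 0 < ε → 0 < c → c < 1 / (r : ℝ) → ∃ γ > (0 : ℝ),
    ∀ (ι : Type) (U : Finset ι) (t : ι → ℝ) (y α β ν : ℝ) (k : ℤ), ε ≤ y →
    y ≤ 2 / (r : ℝ) - ε → 0 ≤ α → 0 ≤ β → 0 ≤ ν → (∀ i ∈ U, c ≤ t i ∧ t i ≤ 1 - c) →
    ∑ i ∈ U, t i + β - α - ν + k = -y →
    ((1 - 2 / (r : ℝ)) * y + γ ≤ ∑ i ∈ U, t i * (1 - t i)
      + (1 - 1 / (4 * (r : ℝ) ^ 2)) * (α + β) + (1 - 2 / (r : ℝ)) * ν) ∨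
    (U = ∅ ∧ k = 0 ∧ (1 - 2 / (r : ℝ)) * y + γ * (α + β)
      ≤ (1 - 1 / (4 * (r : ℝ) ^ 2)) * (α + β) + (1 - 2 / (r : ℝ)) * ν)

/-- (RGU) rough bounds -/
def RGU_statement : Prop :=
  ∀ (r K : ℕ) (C C₀ : ℝ), 3 ≤ r → 0 ≤ C → 0 ≤ C₀ → ∃ (C₁ : ℝ) (n₀ : ℕ), 0 ≤ C₁ ∧
    ∀ (n n₁ B : ℕ) (dv dT a b e : ℝ) (ι : Type) (U : Finset ι) (d : ι → ℝ), n₀ ≤ n → B ≤ n →
    0 ≤ dv → 0 ≤ dT → dT ≤ r → 0 ≤ a → 0 ≤ b → 0 ≤ e → e ≤ (K : ℝ) ^ 2 → U.card ≤ K →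
    (∀ i ∈ U, 0 ≤ d i ∧ d i ≤ qq r * n₁) →
    qq r * (n₁ : ℝ) ^ 2 - dv + 2 * ∑ i ∈ U, d i + 2 * e - 2 * a + 2 * b
      = qq r * (n : ℝ) ^ 2 - dT - 2 * B →
    (2 * qq r - 1 / (4 * (r : ℝ) ^ 2)) * (a + b)
      + qq r * (1 - 2 / (r : ℝ) - 1 / (4 * (r : ℝ) ^ 2)) * dv
      + ∑ i ∈ U, 2 * d i * (qq r - d i / n₁) - C * (1 + Real.sqrt dv) ≤ C₀ * n →
    a + b ≤ C₁ * n ∧ dv ≤ C₁ * n ∧ |(n₁ : ℝ) - n| ≤ C₁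

/-- (OPU) the optimisation -/
def OPU_statement : Prop :=
  ∀ (r K : ℕ) (ε c C : ℝ), 3 ≤ r → 0 < ε → 0 < c → c < 1 / (r : ℝ) → 0 ≤ C →
    ∃ N n₀ : ℕ, ∀ (n n₁ B : ℕ) (dv dT a b e : ℝ) (ι : Type) (U : Finset ι) (d : ι → ℝ),
    n₀ ≤ n → RU r n B ε → 0 ≤ dv → 0 ≤ dT → dT ≤ r → 0 ≤ a → 0 ≤ b → 0 ≤ e →
    e ≤ (K : ℝ) ^ 2 → U.card ≤ K → |(n₁ : ℝ) - n| ≤ C →
    (∀ i ∈ U, c * (qq r * n₁) ≤ d i ∧ d i ≤ (1 - c) * (qq r * n₁)) →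
    qq r * (n₁ : ℝ) ^ 2 - dv + 2 * ∑ i ∈ U, d i + 2 * e - 2 * a + 2 * b
      = qq r * (n : ℝ) ^ 2 - dT - 2 * B →
    (2 * qq r - 1 / (4 * (r : ℝ) ^ 2)) * (a + b) + qq r * (1 - 2 / (r : ℝ)) * dv
      + ∑ i ∈ U, 2 * d i * (qq r - d i / n₁)
      ≤ 2 * qq r * (1 - 2 / (r : ℝ)) * B + C * Real.sqrt n →
    U = ∅ ∧ n₁ = n ∧ a + b ≤ N * Real.sqrt n

/-- (STU) the rough structure in the upper range -/
def STU_statement : Prop :=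
  ∀ (W : Type) [Fintype W] (F : SimpleGraph W) (r : ℕ) (ε C₀ δ : ℝ), 3 ≤ r → Crit r F →
    F.Colorable (r + 1) → 0 < ε → 0 ≤ C₀ → 0 < δ → ∃ N n₀ : ℕ, ∀ n ≥ n₀, ∀ B : ℕ,
    RU r n B ε → ∀ (V : Type) [Fintype V] (G : SimpleGraph V), F.Free G →
      G.edgeSet.ncard + B = (SimpleGraph.turanGraph n r).edgeSet.ncard →
      Def r G ≤ 2 * qq r * (1 - 2 / (r : ℝ)) * B + C₀ * Real.sqrt n →
      ∃ (z : V → ℝ) (g : V → Option (Fin r)), Flat r δ G z g ∅ G.edgeSet.ncard ∧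
        ∑ t, siz g t = n ∧
        ((missSet G g).ncard : ℝ) + ((lightSet G g ∅).ncard : ℝ) ≤ N * Real.sqrt n

/-- (S3M) the maximum of the sum of cubes, and stability -/
def S3M_statement : Prop :=
  ∀ r : ℕ, 3 ≤ r → ∃ C : ℝ, 0 ≤ C ∧ ∀ (x : Fin r → ℝ) (v Δ : ℝ), ∑ t, x t = 0 →
    ∑ t, x t ^ 2 = v → 0 < v →
    ∑ t, x t ^ 3 ≤ cr r * (v * Real.sqrt v) ∧
    (cr r * (v * Real.sqrt v) - Δ ≤ ∑ t, x t ^ 3 → ∃ t₀,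
      |x t₀ - Real.sqrt (v * ((r : ℝ) - 1) / r)| ≤ C * Δ / v ∧
      ∀ t, t ≠ t₀ → (x t + Real.sqrt (v * ((r : ℝ) - 1) / r) / ((r : ℝ) - 1)) ^ 2
        ≤ C * Δ / Real.sqrt v)

/-- (NUM) sizes of the classes of a good graph -/
def NUM_statement : Prop :=
  ∀ (r b : ℕ) (ε : ℝ), 3 ≤ r → 0 < ε → ∃ (C : ℝ) (n₀ : ℕ), 0 ≤ C ∧ ∀ n ≥ n₀, ∀ B : ℕ,
    ε * (qq r * n) ≤ B → B ≤ n → ∃ (σ : Fin r → ℕ) (a : ℕ), ∑ t, σ t = n ∧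
      ∑ t, σ t ^ 2 + 2 * a = ∑ t, tz r n t ^ 2 + 2 * B + 2 * b ∧
      (a : ℝ) ≤ C * Real.sqrt (Real.sqrt n) ∧
      cr r * (2 * B * Real.sqrt (2 * B)) - C * n ≤ cub σ ∧
      ∀ t, (n : ℝ) / (2 * r) ≤ σ t

/-- (MEMU) members with given sizes of the classes -/
def MEMU_statement : Prop :=
  ∀ (W : Type) [Fintype W] (F : SimpleGraph W) (r : ℕ), 3 ≤ r → ¬ F.Colorable r →
    ∃ b n₀ : ℕ, ∀ (σ : Fin r → ℕ) (a : ℕ), (∀ t, n₀ + a ≤ σ t) →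
      ∃ (k : ℕ) (G : SimpleGraph (Fin k)) (g : Fin k → Option (Fin r)),
        F.Free G ∧ ¬ G.Colorable r ∧ (∀ v, ∃ u, G.Adj v u) ∧ Indep G g ∧
        (missSet G g).ncard = a ∧ (outSet G g).ncard = b ∧ ∀ t, siz g t = σ t

/-- (LOWU) upper bound for the defect -/
def LOWU_statement : Prop :=
  ∀ (r : ℕ) (C : ℝ), 3 ≤ r → 0 ≤ C → ∃ (C' : ℝ) (n₀ : ℕ), ∀ (V : Type) [Fintype V]
    (G : SimpleGraph V) (g : V → Option (Fin r)) (n : ℕ), Indep G g → n₀ ≤ n →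
    ∑ t, siz g t = n → dev (siz g) ≤ C * n → ((missSet G g).ncard : ℝ) ≤ C * Real.sqrt n →
    Def r G ≤ qq r * (1 - 2 / (r : ℝ)) * dev (siz g)
      + 2 * qq r * ((missSet G g).ncard + (outSet G g).ncard)
      - 2 * qq r ^ 2 * cub (siz g) / n + C'

/-- (UPU) lower bound for the defect -/
def UPU_statement : Prop :=
  ∀ (r : ℕ) (C : ℝ), 3 ≤ r → 0 ≤ C → ∃ (C' : ℝ) (n₀ : ℕ), ∀ (V : Type) [Fintype V] (δ : ℝ)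
    (G : SimpleGraph V) (z : V → ℝ) (g : V → Option (Fin r)) (n : ℕ), 0 < δ → δ ≤ 1 / 40 →
    Flat r δ G z g ∅ G.edgeSet.ncard → n₀ ≤ n → ∑ t, siz g t = n → dev (siz g) ≤ C * n →
    qq r * (1 - 2 / (r : ℝ)) * dev (siz g)
      + (2 * qq r - 10 * δ) * ((missSet G g).ncard + (lightSet G g ∅).ncard)
      - 2 * qq r ^ 2 * cub (siz g) / n - C' ≤ Def r G

/-- (CHU) cheap members -/
def CHU_statement : Prop :=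
  ∀ (W : Type) [Fintype W] (F : SimpleGraph W) (r : ℕ) (ε : ℝ), 3 ≤ r → ¬ F.Colorable r →
    0 < ε → ∃ (C : ℝ) (n₀ : ℕ), 0 ≤ C ∧ ∀ n ≥ n₀, ∀ B m : ℕ, RU r n B ε →
    m + B = (SimpleGraph.turanGraph n r).edgeSet.ncard →
    ∃ (k : ℕ) (G : SimpleGraph (Fin k)), InN r m F G ∧
      Def r G ≤ AB r n B + C * Real.sqrt (Real.sqrt n)

/-- (FINU) the final theorem for the upper range -/
def FINU_statement : Prop :=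
  ∀ (W : Type) [Fintype W] (F : SimpleGraph W) (r : ℕ) (ε : ℝ), 3 ≤ r → Crit r F →
    F.Colorable (r + 1) → ¬ F.Colorable r → 0 < ε → ∃ N n₀ : ℕ, ∀ n ≥ n₀, ∀ B m : ℕ,
    RU r n B ε → m + B = (SimpleGraph.turanGraph n r).edgeSet.ncard →
    (∃ (k : ℕ) (G : SimpleGraph (Fin k)), IsMaximiser r m F G) ∧
    ∀ (V : Type) [Fintype V] (G : SimpleGraph V), IsMaximiser r m F G →
      |Def r G - AB r n B| ≤ N * Real.sqrt (Real.sqrt n) ∧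
      ∃ g : V → Option (Fin r), Indep G g ∧ ∑ t, siz g t = n ∧
        ((missSet G g).ncard : ℝ) + ((outSet G g).ncard : ℝ) ≤ N * Real.sqrt (Real.sqrt n) ∧
        ∃ t₀, |(siz g t₀ : ℝ) - (n / r + Real.sqrt (2 * B * ((r : ℝ) - 1) / r))|
            ≤ N * Real.sqrt (Real.sqrt n) ∧
          ∀ t, t ≠ t₀ → ((siz g t : ℝ)
            - (n / r - Real.sqrt (2 * B * ((r : ℝ) - 1) / r) / ((r : ℝ) - 1))) ^ 2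
            ≤ N * (Real.sqrt n * Real.sqrt (Real.sqrt n))

end MP0c3a8f
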