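import Pool.Agent.Work.MP_0c3a8f_co.PB.Stmts
import Pool.Agent.Work.MP_0c3a8f_co.Bd.B01

/-!
# COMPU: comparison with the graph with complete core
-/

open Finset

namespace MP0c3a8f

namespace COMPU

/-- the pair meets a light vertex -/
def Lt {V : Type} {r : ℕ} (G : SimpleGraph V) (g : V → Option (Fin r)) (U : Finset V)
    (i j : V) : Prop :=
  G.Adj i j ∧ ((g i = none ∧ i ∉ U) ∨ (g j = none ∧ j ∉ U))

/-- the pair is missing -/
def Ms {V : Type} {r : ℕ} (G : SimpleGraph V) (g : V → Option (Fin r)) (i j : V) : Prop :=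
  g i ≠ none ∧ g j ≠ none ∧ g i ≠ g j ∧ ¬ G.Adj i j

open Classical in
theorem light_count {V : Type} [Fintype V] {r : ℕ} (G : SimpleGraph V) (g : V → Option (Fin r))
    (U : Finset V) :
    ∑ i, ∑ j, (if Lt G g U i j then (1 : ℝ) else 0) = 2 * ((lightSet G g U).ncard : ℝ) := by
  have h0 := cnv_count (fun i j => Lt G g U i j)
    (fun i j h => ⟨h.1.symm, h.2.symm⟩) (fun i h => G.loopless.irrefl i h.1)
  refine h0.trans ?_
  congr 3
  ext e
  unfold lightSet Lt
  simp only [Set.mem_ofPred_eq]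
  constructor
  · rintro ⟨v, w, rfl, h, h2⟩
    refine ⟨(SimpleGraph.mem_edgeSet G).2 h, ?_⟩
    rcases h2 with h2 | h2
    · exact ⟨v, Sym2.mem_mk_left _ _, h2⟩
    · exact ⟨w, Sym2.mem_mk_right _ _, h2⟩
  · induction e using Sym2.ind with
    | _ v w =>
      rintro ⟨h, u, hu, h2⟩
      refine ⟨v, w, rfl, (SimpleGraph.mem_edgeSet G).1 h, ?_⟩
      rcases Sym2.mem_iff.1 hu with rfl | rfl
      · exact Or.inl h2
      · exact Or.inr h2

open Classical in
theorem miss_count {V : Type} [Fintype V] {r : ℕ} (G : SimpleGraph V) (g : V → Option (Fin r)) :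
    ∑ i, ∑ j, (if Ms G g i j then (1 : ℝ) else 0) = 2 * ((missSet G g).ncard : ℝ) := by
  have h := cnv_miss G g
  unfold Ms
  convert h

open Classical in
theorem pair {V : Type} [Fintype V] {r : ℕ} {δ : ℝ} {G : SimpleGraph V} {z : V → ℝ}
    {g : V → Option (Fin r)} {U : Finset V} {m : ℕ} (hδ : 0 < δ) (hδ' : δ ≤ 1 / 40)
    (hF : Flat r δ G z g U m) (i j : V) :
    adj G i j * (z i * z j) ≤ adj (KU G g U) i j * (z i * z j)
      + 2 * δ * (if Lt G g U i j then (1 : ℝ) else 0)
      - (1 - 2 * δ) * (if Ms G g i j then (1 : ℝ) else 0) := by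
  have hi0 := hF.zd.nonneg i
  have hj0 := hF.zd.nonneg j
  have hij : 0 ≤ z i * z j := mul_nonneg hi0 hj0
  by_cases hA : G.Adj i j
  · have e1 : adj G i j = 1 := by unfold adj; rw [if_pos hA]
    have e2 : ¬ Ms G g i j := fun h => h.2.2.2 hA
    rw [e1, if_neg e2]
    by_cases hL : Lt G g U i j
    · rw [if_pos hL]
      have e3 : 0 ≤ adj (KU G g U) i j * (z i * z j) := by
        apply mul_nonneg _ hij
        unfold adj
        split_ifs <;> norm_num
      have e4 : z i * z j ≤ 2 * δ := by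
        rcases hL.2 with h | h
        · have h1 := hF.light i h.1 h.2
          have h2 := hF.bd j
          calc z i * z j ≤ δ * (1 + δ) := mul_le_mul h1 h2 hj0 hδ.le
            _ ≤ 2 * δ := by nlinarith
        · have h1 := hF.light j h.1 h.2
          have h2 := hF.bd i
          calc z i * z j ≤ (1 + δ) * δ := mul_le_mul h2 h1 hj0 (by linarith)
            _ ≤ 2 * δ := by nlinarith
      linarith
    · rw [if_neg hL]
      have hi : g i ≠ none ∨ i ∈ U := by
        by_contra hc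
        rw [not_or, not_not] at hc
        exact hL ⟨hA, Or.inl hc⟩
      have hj : g j ≠ none ∨ j ∈ U := by
        by_contra hc
        rw [not_or, not_not] at hc
        exact hL ⟨hA, Or.inr hc⟩
      have e5 : (KU G g U).Adj i j := by
        by_cases hU : i ∈ U ∨ j ∈ U
        · exact Or.inr ⟨hA, hU, hi, hj⟩
        · rw [not_or] at hU
          have hi' := hi.resolve_right hU.1
          have hj' := hj.resolve_right hU.2
          exact Or.inl ⟨hi', hj', fun h => hF.indep i j hi' h hA⟩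
      have e6 : adj (KU G g U) i j = 1 := by unfold adj; rw [if_pos e5]
      rw [e6]
      linarith
  · have e1 : adj G i j = 0 := by unfold adj; rw [if_neg hA]
    have e2 : ¬ Lt G g U i j := fun h => hA h.1
    rw [e1, if_neg e2]
    by_cases hM : Ms G g i j
    · rw [if_pos hM]
      have e5 : (KU G g U).Adj i j := Or.inl ⟨hM.1, hM.2.1, hM.2.2.1⟩
      have e6 : adj (KU G g U) i j = 1 := by unfold adj; rw [if_pos e5]
      rw [e6]
      have h1 := (abs_le.1 (hF.core i hM.1)).1
      have h2 := (abs_le.1 (hF.core j hM.2.1)).1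
      have h3 : (1 - δ) * (1 - δ) ≤ z i * z j :=
        mul_le_mul (by linarith) (by linarith) (by linarith) hi0
      nlinarith
    · rw [if_neg hM]
      have e3 : 0 ≤ adj (KU G g U) i j * (z i * z j) := by
        apply mul_nonneg _ hij
        unfold adj
        split_ifs <;> norm_num
      linarith

theorem arith {l L m a b q δ : ℝ} (hδ : 0 < δ) (hδ' : δ ≤ 1 / 40) (hl : 0 < l)
    (hm : 0 < m) (ha : 0 ≤ a) (hb : 0 ≤ b) (hbm : b ≤ m) (hq : q ≤ 1)
    (h1 : (2 * q - δ) * m ≤ l ^ 2) (h2 : l ^ 2 ≤ 2 * q * m)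
    (h : 2 * m * l ≤ L * (2 * m) + (4 * δ * b - 2 * (1 - 2 * δ) * a) * l) :
    l ^ 2 ≤ L ^ 2 + 8 * δ * b - (4 * q - 10 * δ) * a := by
  obtain ⟨E, hE⟩ : ∃ E, E = 4 * δ * b - 2 * (1 - 2 * δ) * a := ⟨_, rfl⟩
  rw [← hE] at h
  have hE2 : E ≤ 2 * m := by
    have e1 : δ * b ≤ 1 / 40 * m := mul_le_mul hδ' hbm hb (by norm_num)
    have e2 : 0 ≤ (1 - 2 * δ) * a := mul_nonneg (by linarith) ha
    rw [hE]
    linarith
  have h3 : l * (2 * m - E) ≤ L * (2 * m) := by linarith
  have h4 : (l * (2 * m - E)) ^ 2 ≤ (L * (2 * m)) ^ 2 :=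
    pow_le_pow_left₀ (mul_nonneg hl.le (by linarith)) h3 2
  -- l^2 (m^2 - m E) * 4 ≤ l^2 (2m-E)^2 ≤ 4 m^2 L^2
  have h5 : l ^ 2 * (m - E) ≤ L ^ 2 * m := by
    have h6 : 4 * m * (l ^ 2 * (m - E)) ≤ 4 * m * (L ^ 2 * m) := by
      nlinarith [mul_nonneg (sq_nonneg l) (sq_nonneg E)]
    exact le_of_mul_le_mul_left h6 (by linarith)
  have h7 : l ^ 2 * E ≤ (8 * δ * b - (4 * q - 10 * δ) * a) * m := by
    rw [hE]
    have f1 : l ^ 2 * (4 * δ * b) ≤ 8 * δ * b * m := by
      have g1 : l ^ 2 * (4 * δ * b) ≤ 2 * q * m * (4 * δ * b) :=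
        mul_le_mul_of_nonneg_right h2 (by positivity)
      have g2 : 2 * q * m * (4 * δ * b) ≤ 2 * 1 * m * (4 * δ * b) := by
        apply mul_le_mul_of_nonneg_right _ (by positivity)
        apply mul_le_mul_of_nonneg_right _ hm.le
        linarith
      linarith
    have f2 : (4 * q - 10 * δ) * a * m ≤ l ^ 2 * (2 * (1 - 2 * δ) * a) := by
      have g1 : (2 * q - δ) * m * (2 * (1 - 2 * δ) * a) ≤ l ^ 2 * (2 * (1 - 2 * δ) * a) :=
        mul_le_mul_of_nonneg_right h1 (by
          have : 0 ≤ 1 - 2 * δ := by linarith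
          positivity)
      have g2 : (4 * q - 10 * δ) * a * m ≤ (2 * q - δ) * m * (2 * (1 - 2 * δ) * a) := by
        have g3 : 0 ≤ a * m := by positivity
        have g4 : (4 * q - 10 * δ) ≤ (2 * q - δ) * (2 * (1 - 2 * δ)) := by nlinarith
        have g5 := mul_le_mul_of_nonneg_right g4 g3
        linarith
      linarith
    linarith
  have h8 : l ^ 2 * m ≤ (L ^ 2 + 8 * δ * b - (4 * q - 10 * δ) * a) * m := by linarith
  exact le_of_mul_le_mul_right h8 hm

end COMPU

theorem prfCOMPU : P_statement → COMPU_statement := by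
  classical
  intro hP r δ V _ G z g U m hr hδ hδ' hF hm
  have hl := hF.zd.lpos
  have hm0 : (0 : ℝ) < m := by exact_mod_cast hF.zd.mpos
  have hne : Nonempty V := by
    by_contra hc
    rw [not_nonempty_iff] at hc
    have h := hF.zd.norm
    rw [Finset.univ_eq_empty, Finset.sum_empty, mul_zero] at h
    linarith
  obtain ⟨-, hQ, -⟩ := hP V (KU G g U)
  have hq1 := hQ z
  have hqG : qf G z = 2 * m := by
    unfold qf
    have e1 : ∀ i, ∑ j, adj G i j * (z i * z j) = z i * (lam G * z i) := by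
      intro i
      rw [← hF.zd.eig i, Finset.mul_sum]
      exact Finset.sum_congr rfl fun j _ => by ring
    rw [Finset.sum_congr rfl fun i _ => e1 i, ← hF.zd.norm, Finset.mul_sum]
    exact Finset.sum_congr rfl fun i _ => by ring
  have hcmp : qf G z ≤ qf (KU G g U) z + 2 * δ * (2 * ((lightSet G g U).ncard : ℝ))
      - (1 - 2 * δ) * (2 * ((missSet G g).ncard : ℝ)) := by
    rw [← COMPU.light_count, ← COMPU.miss_count]
    unfold qf
    simp only [Finset.mul_sum]
    rw [← Finset.sum_add_distrib, ← Finset.sum_sub_distrib]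
    apply Finset.sum_le_sum
    intro i _
    rw [← Finset.sum_add_distrib, ← Finset.sum_sub_distrib]
    apply Finset.sum_le_sum
    intro j _
    exact COMPU.pair hδ hδ' hF i j
  have hb : ((lightSet G g U).ncard : ℝ) ≤ m := by
    rw [hm]
    have : (lightSet G g U).ncard ≤ G.edgeSet.ncard :=
      Set.ncard_le_ncard (fun e he => he.1) (Set.toFinite _)
    exact_mod_cast this
  have hq : qq r ≤ 1 := by
    unfold qq
    have : (0 : ℝ) ≤ 1 / r := by positivity
    linarith
  apply COMPU.arith hδ hδ' hl hm0 (Nat.cast_nonneg _) (Nat.cast_nonneg _) hb hq hF.low hF.up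
  have h6 : 2 * (m : ℝ) ≤ lam (KU G g U) * ∑ i, z i ^ 2
      + 2 * δ * (2 * ((lightSet G g U).ncard : ℝ))
      - (1 - 2 * δ) * (2 * ((missSet G g).ncard : ℝ)) := by
    rw [← hqG]
    linarith
  have h7 := mul_le_mul_of_nonneg_right h6 hl.le
  have h8 := hF.zd.norm
  have h9 : lam (KU G g U) * (2 * (m : ℝ)) = lam (KU G g U) * (∑ i, z i ^ 2) * lam G := by
    rw [← h8]
    ring
  linarith

end MP0c3a8f
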