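import Pool.Agent.Work.MP_0c3a8f_co.PB.Stmts

/-!
# MP_0c3a8f_co, phase B: item EST0, fine estimates
-/

open Finset

namespace MP0c3a8f

namespace EST0x

open Classical in
/-- the vertices with `z` close to `1` keep their part -/
noncomputable def gc {V : Type} {r : ℕ} (z : V → ℝ) (f : V → Option (Fin r)) (e : ℝ) (v : V) :
    Option (Fin r) :=
  if f v ≠ none ∧ |z v - 1| ≤ e then f v else none

open Classical in
/-- the exceptional vertices -/
noncomputable def Ex {V : Type} [Fintype V] {r : ℕ} (z : V → ℝ) (f : V → Option (Fin r)) (e : ℝ) :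
    Finset V :=
  univ.filter (fun v => e < z v ∧ ¬ (f v ≠ none ∧ |z v - 1| ≤ e))

section

variable {V : Type} {r : ℕ} {z : V → ℝ} {f : V → Option (Fin r)} {e : ℝ}

lemma gc_ne {v : V} : gc z f e v ≠ none ↔ f v ≠ none ∧ |z v - 1| ≤ e := by
  unfold gc
  by_cases h : f v ≠ none ∧ |z v - 1| ≤ e
  · rw [if_pos h]; exact ⟨fun _ => h, fun _ => h.1⟩
  · rw [if_neg h]; exact ⟨fun h2 => absurd rfl h2, fun h2 => absurd h2 h⟩

lemma gc_eq {v : V} (h : gc z f e v ≠ none) : gc z f e v = f v := by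
  have h2 := gc_ne.1 h
  unfold gc
  rw [if_pos h2]

lemma gc_some {v : V} {t : Fin r} (h : gc z f e v = some t) : f v = some t ∧ |z v - 1| ≤ e := by
  have h1 : gc z f e v ≠ none := by rw [h]; exact Option.some_ne_none t
  exact ⟨by rw [← gc_eq h1, h], (gc_ne.1 h1).2⟩

end

section

variable {V : Type} [Fintype V] {r : ℕ}

lemma adj_nonneg (G : SimpleGraph V) (u v : V) : 0 ≤ adj G u v := by
  unfold adj; split_ifs <;> norm_num

lemma adj_le_one (G : SimpleGraph V) (u v : V) : adj G u v ≤ 1 := by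
  unfold adj; split_ifs <;> norm_num

lemma mem_Ex {z : V → ℝ} {f : V → Option (Fin r)} {e : ℝ} {v : V} :
    v ∈ Ex z f e ↔ e < z v ∧ gc z f e v = none := by
  unfold Ex
  rw [Finset.mem_filter]
  constructor
  · rintro ⟨_, h1, h2⟩
    refine ⟨h1, ?_⟩
    by_contra h3
    exact h2 (gc_ne.1 h3)
  · rintro ⟨h1, h2⟩
    refine ⟨Finset.mem_univ _, h1, fun h3 => ?_⟩
    exact (gc_ne.2 h3) h2

open Classical in
lemma siz_cast (g : V → Option (Fin r)) (t : Fin r) :
    (siz g t : ℝ) = ∑ v, if g v = some t then (1 : ℝ) else 0 := by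
  unfold siz
  rw [Set.ncard_eq_toFinset_card', Set.toFinset_ofPred, Finset.card_filter]
  push_cast
  rfl

open Classical in
lemma nbn_cast (G : SimpleGraph V) (g : V → Option (Fin r)) (w : V) (t : Fin r) :
    (nbn G g w t : ℝ) = ∑ v, if g v = some t then adj G w v else 0 := by
  unfold nbn
  rw [Set.ncard_eq_toFinset_card', Set.toFinset_ofPred, Finset.card_filter]
  push_cast
  refine Finset.sum_congr rfl fun v _ => ?_
  unfold adj
  by_cases h1 : g v = some t
  · by_cases h2 : G.Adj w v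
    · simp [h1, h2]
    · simp [h1, h2]
  · simp [h1]

open Classical in
lemma sum_opt (c : ℝ) (o : Option (Fin r)) :
    ∑ t : Fin r, (if o = some t then c else 0) = if o ≠ none then c else 0 := by
  cases o with
  | none => simp
  | some s =>
    rw [if_pos (Option.some_ne_none s)]
    rw [Finset.sum_eq_single s]
    · simp
    · intro t _ ht
      rw [if_neg]
      intro h
      exact ht (Option.some.inj h).symm
    · intro h; exact absurd (Finset.mem_univ s) h

open Classical in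
lemma sum_nbn (G : SimpleGraph V) (g : V → Option (Fin r)) (w : V) :
    ((∑ t, nbn G g w t : ℕ) : ℝ) = ∑ v, if g v ≠ none then adj G w v else 0 := by
  push_cast
  rw [Finset.sum_congr rfl fun t _ => nbn_cast G g w t, Finset.sum_comm]
  exact Finset.sum_congr rfl fun v _ => sum_opt _ _

lemma nbn_le_siz (G : SimpleGraph V) (g : V → Option (Fin r)) (w : V) (t : Fin r) :
    nbn G g w t ≤ siz g t :=
  Set.ncard_le_ncard (fun _ h => h.1) (Set.toFinite _)

/-- number of core vertices -/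
noncomputable def nc (g : V → Option (Fin r)) : ℝ := by
  classical
  exact ∑ v, if g v ≠ none then (1 : ℝ) else 0

open Classical in
lemma nc_eq (g : V → Option (Fin r)) : nc g = ∑ v, if g v ≠ none then (1 : ℝ) else 0 := by
  unfold nc
  exact Finset.sum_congr rfl fun v _ => by split_ifs <;> rfl

lemma siz_le_nc (g : V → Option (Fin r)) (t : Fin r) : (siz g t : ℝ) ≤ nc g := by
  classical
  rw [siz_cast, nc_eq]
  refine Finset.sum_le_sum fun v _ => ?_
  by_cases h : g v = some t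
  · rw [if_pos h, if_pos (by rw [h]; exact Option.some_ne_none t)]
  · rw [if_neg h]; split_ifs <;> norm_num

lemma nc_le {z : V → ℝ} {f : V → Option (Fin r)} {e : ℝ} (he0 : 0 < e) (he : e ≤ 1 / 10) :
    81 / 100 * nc (gc z f e) ≤ ∑ v, z v ^ 2 := by
  classical
  rw [nc_eq, Finset.mul_sum]
  refine Finset.sum_le_sum fun v _ => ?_
  by_cases h : gc z f e v ≠ none
  · rw [if_pos h]
    have h2 := abs_le.1 (gc_ne.1 h).2
    nlinarith
  · rw [if_neg h]; nlinarith [sq_nonneg (z v)]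

/-- first estimate -/
lemma est1 {G : SimpleGraph V} {z : V → ℝ} {f : V → Option (Fin r)} {e l s C₁ C₄ : ℝ} {K : ℕ}
    (he0 : 0 < e) (he : e ≤ 1 / 10) (h4 : e * C₄ ≤ 1 / 2)
    (hz : ∀ v, 0 ≤ z v) (hz4 : ∀ v, z v ≤ C₄)
    (heig : ∀ v, ∑ u, adj G v u * z u = l * z v)
    (hed : ∑ i, ∑ j, adj G i j * (z i * z j - 1) ^ 2 ≤ C₁ * s)
    (hK : (Ex z f e).card ≤ K) (hKe : K * C₄ ≤ e * s) (hnc : nc (gc z f e) ≤ 3 * s) (v : V) :
    |l * z v - ((∑ t, nbn G (gc z f e) v t : ℕ) : ℝ)| ≤ (4 + 4 * C₁) * e * s := by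
  classical
  have hC4 : 0 ≤ C₄ := (hz v).trans (hz4 v)
  rw [sum_nbn, ← heig v, ← Finset.sum_sub_distrib]
  have hpt : ∀ u, |adj G v u * z u - (if gc z f e u ≠ none then adj G v u else 0)| ≤
      e * (if gc z f e u ≠ none then (1 : ℝ) else 0) + (if u ∈ Ex z f e then C₄ else 0) +
        4 * e * (adj G v u * (z v * z u - 1) ^ 2) := by
    intro u
    have ha := adj_nonneg G v u
    have ha1 := adj_le_one G v u
    have hc : 0 ≤ 4 * e * (adj G v u * (z v * z u - 1) ^ 2) := by positivity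
    by_cases h : gc z f e u ≠ none
    · rw [if_pos h, if_pos h]
      have h2 := (gc_ne.1 h).2
      have h3 : (0 : ℝ) ≤ (if u ∈ Ex z f e then C₄ else 0) := by split_ifs <;> linarith
      have h5 : |adj G v u * z u - adj G v u| ≤ e := by
        rw [show adj G v u * z u - adj G v u = adj G v u * (z u - 1) by ring, abs_mul,
          abs_of_nonneg ha]
        calc adj G v u * |z u - 1| ≤ 1 * e := by
              apply mul_le_mul ha1 h2 (abs_nonneg _) zero_le_one
          _ = e := one_mul e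
      linarith
    · rw [if_neg h, if_neg h, sub_zero, mul_zero, zero_add]
      push Not at h
      by_cases h2 : u ∈ Ex z f e
      · rw [if_pos h2]
        have h5 : |adj G v u * z u| ≤ C₄ := by
          rw [abs_of_nonneg (mul_nonneg ha (hz u))]
          calc adj G v u * z u ≤ 1 * C₄ := mul_le_mul ha1 (hz4 u) (hz u) zero_le_one
            _ = C₄ := one_mul _
        linarith
      · rw [if_neg h2, zero_add]
        have h3 : z u ≤ e := by
          by_contra hcon
          exact h2 (mem_Ex.2 ⟨not_le.1 hcon, h⟩)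
        have h5 : z v * z u ≤ 1 / 2 := by
          calc z v * z u ≤ C₄ * e := mul_le_mul (hz4 v) h3 (hz u) hC4
            _ = e * C₄ := mul_comm _ _
            _ ≤ 1 / 2 := h4
        have h6 : 1 / 4 ≤ (z v * z u - 1) ^ 2 := by nlinarith
        rw [abs_of_nonneg (mul_nonneg ha (hz u))]
        calc adj G v u * z u ≤ adj G v u * e := mul_le_mul_of_nonneg_left h3 ha
          _ = 4 * e * (adj G v u * (1 / 4)) := by ring
          _ ≤ 4 * e * (adj G v u * (z v * z u - 1) ^ 2) := by gcongr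
  have hrow : ∑ u, adj G v u * (z v * z u - 1) ^ 2 ≤ C₁ * s := by
    refine le_trans ?_ hed
    exact Finset.single_le_sum (f := fun i => ∑ j, adj G i j * (z i * z j - 1) ^ 2)
      (fun i _ => Finset.sum_nonneg fun j _ => mul_nonneg (adj_nonneg G i j) (sq_nonneg _))
      (Finset.mem_univ v)
  have hEx : ∑ u, (if u ∈ Ex z f e then C₄ else 0) ≤ K * C₄ := by
    rw [← Finset.sum_filter, Finset.sum_const, nsmul_eq_mul]
    have : (Finset.univ.filter (fun u => u ∈ Ex z f e)).card ≤ K := by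
      rw [Finset.filter_mem_eq_inter, Finset.univ_inter]; exact hK
    have h2 : ((Finset.univ.filter (fun u => u ∈ Ex z f e)).card : ℝ) ≤ K := by exact_mod_cast this
    gcongr
  calc |∑ u, (adj G v u * z u - (if gc z f e u ≠ none then adj G v u else 0))|
      ≤ ∑ u, |adj G v u * z u - (if gc z f e u ≠ none then adj G v u else 0)| :=
        Finset.abs_sum_le_sum_abs _ _
    _ ≤ ∑ u, (e * (if gc z f e u ≠ none then (1 : ℝ) else 0) + (if u ∈ Ex z f e then C₄ else 0) +
        4 * e * (adj G v u * (z v * z u - 1) ^ 2)) := Finset.sum_le_sum fun u _ => hpt u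
    _ = e * nc (gc z f e) + (∑ u, (if u ∈ Ex z f e then C₄ else 0)) +
        4 * e * ∑ u, adj G v u * (z v * z u - 1) ^ 2 := by
        rw [Finset.sum_add_distrib, Finset.sum_add_distrib, nc_eq, Finset.mul_sum, Finset.mul_sum]
    _ ≤ e * (3 * s) + e * s + 4 * e * (C₁ * s) := by
        have := hEx.trans hKe
        gcongr
    _ = (4 + 4 * C₁) * e * s := by ring

/-- second estimate -/
lemma est2 {z : V → ℝ} {f : V → Option (Fin r)} {e s C₂ C₄ : ℝ} {K : ℕ}
    (he0 : 0 < e) (he : e ≤ 1 / 10)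
    (hz : ∀ v, 0 ≤ z v) (hz4 : ∀ v, z v ≤ C₄)
    (hsm : ∀ W : Finset V, (∀ v ∈ W, z v ≤ 1 / 4) → ∑ v ∈ W, z v ^ 2 ≤ C₂)
    (hK : (Ex z f e).card ≤ K) (hKe : K * C₄ ^ 2 + C₂ ≤ e * s) (hnc : nc (gc z f e) ≤ 3 * s)
    (t : Fin r) :
    |cw (fun i => z i ^ 2) f (some t) - (siz (gc z f e) t : ℝ)| ≤ 8 * e * s := by
  classical
  have hs : 0 ≤ e * s := by
    have h1 : 0 ≤ C₂ := by simpa using hsm ∅ (by simp)
    have h2 : (0 : ℝ) ≤ K * C₄ ^ 2 := by positivity
    linarith
  have hcw : cw (fun i => z i ^ 2) f (some t) = ∑ v, if f v = some t then z v ^ 2 else 0 := by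
    unfold cw
    exact Finset.sum_congr rfl fun v _ => by split_ifs <;> rfl
  rw [hcw, siz_cast, ← Finset.sum_sub_distrib]
  have hpt : ∀ v, |(if f v = some t then z v ^ 2 else 0) -
      (if gc z f e v = some t then (1 : ℝ) else 0)| ≤
      21 / 10 * e * (if gc z f e v ≠ none then (1 : ℝ) else 0) +
        (if v ∈ Ex z f e then C₄ ^ 2 else 0) + (if z v ≤ 1 / 4 then z v ^ 2 else 0) := by
    intro v
    have hb : (0 : ℝ) ≤ (if v ∈ Ex z f e then C₄ ^ 2 else 0) := by
      split_ifs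
      · positivity
      · exact le_rfl
    have hc : (0 : ℝ) ≤ (if z v ≤ 1 / 4 then z v ^ 2 else 0) := by
      split_ifs
      · positivity
      · exact le_rfl
    by_cases h : gc z f e v ≠ none
    · by_cases h2 : gc z f e v = some t
      · have h3 := gc_some h2
        rw [if_pos h3.1, if_pos h2, if_pos h]
        have h4 := abs_le.1 h3.2
        have h5 : |z v ^ 2 - 1| ≤ 21 / 10 * e := by
          rw [abs_le]
          constructor <;> nlinarith
        linarith
      · have h3 : f v ≠ some t := by rw [← gc_eq h]; exact h2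
        rw [if_neg h3, if_neg h2, if_pos h, sub_zero, abs_zero]
        linarith
    · rw [if_neg h]
      push Not at h
      have h2 : gc z f e v ≠ some t := by rw [h]; exact (Option.some_ne_none t).symm
      rw [if_neg h2, sub_zero, mul_zero, zero_add]
      have h3 : |(if f v = some t then z v ^ 2 else 0)| ≤ z v ^ 2 := by
        split_ifs
        · rw [abs_of_nonneg (sq_nonneg _)]
        · rw [abs_zero]; positivity
      refine h3.trans ?_
      by_cases h4 : v ∈ Ex z f e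
      · rw [if_pos h4]
        have : z v ^ 2 ≤ C₄ ^ 2 := pow_le_pow_left₀ (hz v) (hz4 v) 2
        linarith
      · have h5 : z v ≤ e := by
          by_contra hcon
          exact h4 (mem_Ex.2 ⟨not_le.1 hcon, h⟩)
        rw [if_pos (by linarith : z v ≤ 1 / 4)]
        linarith
  have hEx : ∑ u, (if u ∈ Ex z f e then C₄ ^ 2 else 0) ≤ K * C₄ ^ 2 := by
    rw [← Finset.sum_filter, Finset.sum_const, nsmul_eq_mul]
    have : (Finset.univ.filter (fun u => u ∈ Ex z f e)).card ≤ K := by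
      rw [Finset.filter_mem_eq_inter, Finset.univ_inter]; exact hK
    have h2 : ((Finset.univ.filter (fun u => u ∈ Ex z f e)).card : ℝ) ≤ K := by exact_mod_cast this
    gcongr
  have hsm' : ∑ v, (if z v ≤ 1 / 4 then z v ^ 2 else 0) ≤ C₂ := by
    rw [← Finset.sum_filter]
    exact hsm _ fun v hv => (Finset.mem_filter.1 hv).2
  calc |∑ v, ((if f v = some t then z v ^ 2 else 0) -
      (if gc z f e v = some t then (1 : ℝ) else 0))|
      ≤ ∑ v, |(if f v = some t then z v ^ 2 else 0) -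
      (if gc z f e v = some t then (1 : ℝ) else 0)| := Finset.abs_sum_le_sum_abs _ _
    _ ≤ ∑ v, (21 / 10 * e * (if gc z f e v ≠ none then (1 : ℝ) else 0) +
        (if v ∈ Ex z f e then C₄ ^ 2 else 0) + (if z v ≤ 1 / 4 then z v ^ 2 else 0)) :=
        Finset.sum_le_sum fun v _ => hpt v
    _ = 21 / 10 * e * nc (gc z f e) + (∑ v, (if v ∈ Ex z f e then C₄ ^ 2 else 0)) +
        ∑ v, (if z v ≤ 1 / 4 then z v ^ 2 else 0) := by
        rw [Finset.sum_add_distrib, Finset.sum_add_distrib, nc_eq, Finset.mul_sum]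
    _ ≤ 21 / 10 * e * (3 * s) + K * C₄ ^ 2 + C₂ := by gcongr
    _ ≤ 8 * e * s := by nlinarith

end

lemma a1 {s C q l : ℝ} (hs : 0 ≤ s) (hC : 3 * C ≤ s) (hq : 2 / 3 ≤ q)
    (h : 2 * q * s ^ 2 - l ^ 2 ≤ C * s) : s ^ 2 ≤ l ^ 2 := by
  have h1 : 3 * C * s ≤ s * s := mul_le_mul_of_nonneg_right hC hs
  have h2 : 2 / 3 * s ^ 2 ≤ q * s ^ 2 := mul_le_mul_of_nonneg_right hq (sq_nonneg s)
  nlinarith

lemma a2 {m q l : ℝ} (hm : 0 ≤ m) (hq : q ≤ 1) (h : l ^ 2 ≤ 2 * q * m) : l ^ 2 ≤ 2 ^ 2 * m := by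
  have h2 : q * m ≤ 1 * m := mul_le_mul_of_nonneg_right hq hm
  linarith

lemma a3 {q c l Z C : ℝ} (hc : 0 ≤ c) (h1 : l ≤ Z) (h2 : q * Z ≤ l + C) :
    (q - c) * Z ≤ l * (1 - c) + C := by
  have h3 : c * l ≤ c * Z := mul_le_mul_of_nonneg_left h1 hc
  linarith

lemma a4 {e : ℝ} (h0 : 0 ≤ e) (h1 : e ≤ 1 / 10) : 1 ≤ (1 + 3 * e) * (1 - e) ^ 2 := by
  have h2 : (1 + 3 * e) * (1 - e) ^ 2 = 1 + e * (1 - 5 * e + 3 * e ^ 2) := by ring
  have h3 : 0 ≤ e * (1 - 5 * e + 3 * e ^ 2) := by
    apply mul_nonneg h0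
    have := sq_nonneg e
    linarith
  linarith

lemma a5 {l zv N r c C e s C₁ : ℝ} (h1 : l * zv - N ≤ (4 + 4 * C₁) * e * s)
    (h6 : N ≤ (1 + 3 * e) * (l * (1 - c) + C))
    (h8 : 3 * e * (l * (1 - c)) ≤ 6 * (e * s)) (h9 : (1 + 3 * e) * C ≤ e * s)
    (h10 : 0 ≤ 10 * r * (e * s)) (hes : 0 ≤ e * s) :
    l * zv ≤ l * (1 - c) + (10 * r + 11 + 4 * C₁) * e * s := by
  have h : (1 + 3 * e) * (l * (1 - c) + C) = l * (1 - c) + 3 * e * (l * (1 - c)) + (1 + 3 * e) * C := by
    ring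
  rw [h] at h6
  linarith

lemma qq_r {r : ℕ} (hr : 3 ≤ r) : qq r * r = r - 1 := by
  have : (0 : ℝ) < r := by
    have : (3 : ℝ) ≤ r := by exact_mod_cast hr
    linarith
  unfold qq
  field_simp

lemma qq_lo {r : ℕ} (hr : 3 ≤ r) : 2 / 3 ≤ qq r := by
  have h3 : (3 : ℝ) ≤ r := by exact_mod_cast hr
  unfold qq
  have : 1 / (r : ℝ) ≤ 1 / 3 := by gcongr
  linarith

lemma qq_hi (r : ℕ) : qq r ≤ 1 := by
  unfold qq
  have : 0 ≤ 1 / (r : ℝ) := by positivity
  linarith

end EST0x

open EST0x in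
theorem prfEST0 : STRL_statement → NRML_statement → ZMAX_statement → EST0_statement := by
  intro hSTRL hNRML hZMAX
  intro W _ F r C hr hcrit hcol
  obtain ⟨C₁, hC₁, m₁, hS⟩ := hSTRL W F r C hr hcrit hcol
  obtain ⟨C₂, hC₂, hN⟩ := hNRML r C₁ hr hC₁
  obtain ⟨C₄, hC₄, m₂, hZ⟩ := hZMAX r C₁ hr hC₁
  have hr3 : (3 : ℝ) ≤ r := by exact_mod_cast hr
  have hq0 := qq_lo hr
  have hq1 := qq_hi r
  have hqr := qq_r hr
  refine ⟨10 * r + 11 + 4 * C₁, by linarith, ?_⟩
  intro η hη0 hη
  set e : ℝ := min η (1 / (2 * C₄)) with he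
  have he0 : 0 < e := by
    rw [he]; exact lt_min hη0 (by positivity)
  have heη : e ≤ η := min_le_left _ _
  have he10 : e ≤ 1 / 10 := heη.trans hη
  have he4 : e * C₄ ≤ 1 / 2 := by
    have h1 : e ≤ 1 / (2 * C₄) := min_le_right _ _
    have h2 : 0 < C₄ := by linarith
    calc e * C₄ ≤ 1 / (2 * C₄) * C₄ := by gcongr
      _ = 1 / 2 := by field_simp
  obtain ⟨K, M₀, hNe⟩ := hN e he0 (by linarith)
  set S₀ : ℝ := max 1 (max M₀ (max (3 * |C|) (max ((K * C₄) / e) (max ((K * C₄ ^ 2 + C₂) / e)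
    (max ((C₁ / e) ^ 2) (2 * |C| / e)))))) with hS₀
  refine ⟨K, max m₁ (max m₂ (⌈S₀ ^ 2⌉₊ + 1)), ?_⟩
  intro V _ G hfree hm hdef
  have hm1 : m₁ ≤ G.edgeSet.ncard := (le_max_left _ _).trans hm
  have hm2 : m₂ ≤ G.edgeSet.ncard := ((le_max_left _ _).trans (le_max_right _ _)).trans hm
  have hm3 : ⌈S₀ ^ 2⌉₊ + 1 ≤ G.edgeSet.ncard :=
    ((le_max_right _ _).trans (le_max_right _ _)).trans hm
  obtain ⟨z, f, hzd, hind, hup, hlin, hnone, hcls⟩ := hS V G hfree hm1 hdef
  set m : ℕ := G.edgeSet.ncard with hmdef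
  set s : ℝ := Real.sqrt m with hs
  set l : ℝ := lam G with hl
  have hS1 : S₀ ≤ s := by
    rw [hs]
    apply Real.le_sqrt_of_sq_le
    have h1 : S₀ ^ 2 ≤ (⌈S₀ ^ 2⌉₊ : ℝ) := Nat.le_ceil _
    have h2 : ((⌈S₀ ^ 2⌉₊ : ℕ) : ℝ) ≤ m := by exact_mod_cast (Nat.le_succ _).trans hm3
    linarith
  have k1 : 1 ≤ s := (le_max_left _ _).trans hS1
  have k' := (le_max_right _ _).trans hS1
  have k2 : M₀ ≤ s := (le_max_left _ _).trans k'
  have k'' := (le_max_right _ _).trans k'
  have k3 : 3 * |C| ≤ s := (le_max_left _ _).trans k''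
  have k''' := (le_max_right _ _).trans k''
  have k4 : (K * C₄) / e ≤ s := (le_max_left _ _).trans k'''
  have k4' := (le_max_right _ _).trans k'''
  have k5 : (K * C₄ ^ 2 + C₂) / e ≤ s := (le_max_left _ _).trans k4'
  have k5' := (le_max_right _ _).trans k4'
  have k6 : (C₁ / e) ^ 2 ≤ s := (le_max_left _ _).trans k5'
  have k7 : 2 * |C| / e ≤ s := (le_max_right _ _).trans k5'
  have hs0 : 0 < s := by linarith
  have hs2 : s ^ 2 = m := Real.sq_sqrt (Nat.cast_nonneg m)
  have j4 : K * C₄ ≤ e * s := by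
    rw [div_le_iff₀ he0] at k4; linarith
  have j5 : K * C₄ ^ 2 + C₂ ≤ e * s := by
    rw [div_le_iff₀ he0] at k5; linarith
  have j7 : 2 * |C| ≤ e * s := by
    rw [div_le_iff₀ he0] at k7; linarith
  have j6 : C₁ * Real.sqrt s ≤ e * s := by
    have h1 : C₁ / e ≤ Real.sqrt s := Real.le_sqrt_of_sq_le k6
    rw [div_le_iff₀ he0] at h1
    have h2 : Real.sqrt s * Real.sqrt s = s := Real.mul_self_sqrt hs0.le
    calc C₁ * Real.sqrt s ≤ (Real.sqrt s * e) * Real.sqrt s := by gcongr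
      _ = e * (Real.sqrt s * Real.sqrt s) := by ring
      _ = e * s := by rw [h2]
  have hC0 : 0 ≤ |C| := abs_nonneg C
  have hdef' : 2 * qq r * m - l ^ 2 ≤ |C| * s := by
    refine hdef.trans ?_
    exact mul_le_mul_of_nonneg_right (le_abs_self C) hs0.le
  have hl0 : 0 < l := hzd.lpos
  -- `m ≤ l²`
  have hml : (m : ℝ) ≤ l ^ 2 := by
    rw [← hs2] at hdef' ⊢
    exact a1 hs0.le k3 hq0 hdef'
  have hsl : s ≤ l := by
    rw [← hs2] at hml
    exact le_of_sq_le_sq hml hl0.le
  have hls : l ≤ 2 * s := by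
    have h1 : l ^ 2 ≤ (2 * s) ^ 2 := by
      rw [mul_pow, hs2]
      exact a2 (Nat.cast_nonneg m) hq1 hup
    exact le_of_sq_le_sq h1 (by positivity)
  set Z : ℝ := ∑ v, z v ^ 2 with hZdef
  have hlZ : l * Z = 2 * m := hzd.norm
  have hZ0 : 0 ≤ Z := Finset.sum_nonneg fun v _ => sq_nonneg _
  have hZs : Z ≤ 2 * s := by
    have h1 : s * Z ≤ l * Z := mul_le_mul_of_nonneg_right hsl hZ0
    rw [hlZ, ← hs2] at h1
    have h2 : s * Z ≤ s * (2 * s) := by linarith [h1, sq s]
    exact le_of_mul_le_mul_left h2 hs0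
  have hqZ1 : l ≤ qq r * Z := by
    have h1 : l * l ≤ l * (qq r * Z) := by
      calc l * l = l ^ 2 := by ring
        _ ≤ 2 * qq r * m := hup
        _ = qq r * (l * Z) := by rw [hlZ]; ring
        _ = l * (qq r * Z) := by ring
    exact le_of_mul_le_mul_left h1 hl0
  have hqZ2 : qq r * Z ≤ l + |C| := by
    have h1 : l * (qq r * Z) ≤ l * (l + |C|) := by
      calc l * (qq r * Z) = qq r * (l * Z) := by ring
        _ = 2 * qq r * m := by rw [hlZ]; ring
        _ ≤ l ^ 2 + |C| * s := by linarith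
        _ ≤ l ^ 2 + |C| * l := by gcongr
        _ = l * (l + |C|) := by ring
    exact le_of_mul_le_mul_left h1 hl0
  have hlZ2 : l ≤ Z := hqZ1.trans (mul_le_of_le_one_left hZ0 hq1)
  have hzM := hZ V G z f l m hm2 hzd hml hlin
  obtain ⟨hN1, hN2⟩ := hNe s V G z f k2 hlin
  set g : V → Option (Fin r) := gc z f e with hg
  set E : Finset V := Ex z f e with hE
  have hEK : E.card ≤ K := by
    classical
    refine le_trans (le_of_eq ?_) hN1
    rw [Set.ncard_eq_toFinset_card', Set.toFinset_ofPred, hE]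
    unfold Ex
    congr 1
  have hnc : nc g ≤ 3 * s := by
    have := nc_le (z := z) (f := f) he0 he10
    rw [← hg, ← hZdef] at this
    linarith
  have e1 : ∀ v, |l * z v - ((∑ t, nbn G g v t : ℕ) : ℝ)| ≤ (4 + 4 * C₁) * e * s := fun v =>
    est1 he0 he10 he4 hzd.nonneg hzM hzd.eig hlin.ed hEK j4 hnc v
  have hsm : ∀ W : Finset V, (∀ v ∈ W, z v ≤ 1 / 4) → ∑ v ∈ W, z v ^ 2 ≤ C₂ := by
    classical
    intro W hW
    refine le_trans ?_ hN2
    calc ∑ v ∈ W, z v ^ 2 = ∑ v ∈ W, (if z v ≤ 1 / 4 then z v ^ 2 else 0) :=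
          Finset.sum_congr rfl fun v hv => by rw [if_pos (hW v hv)]
      _ ≤ ∑ v, (if z v ≤ 1 / 4 then z v ^ 2 else 0) := by
          apply Finset.sum_le_univ_sum_of_nonneg
          intro v
          split_ifs
          · positivity
          · exact le_rfl
      _ = _ := Finset.sum_congr rfl fun v _ => by split_ifs <;> rfl
  have e2 : ∀ t, |cw (fun i => z i ^ 2) f (some t) - (siz g t : ℝ)| ≤ 8 * e * s := fun t =>
    est2 he0 he10 hzd.nonneg hzM hsm hEK j5 hnc t
  have hqr0 : 0 < qq r * r := by rw [hqr]; linarith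
  have e3 : ∀ t, |(siz g t : ℝ) - l / (qq r * r)| ≤ 10 * e * s := by
    intro t
    have h1 := abs_le.1 (e2 t)
    have h2 := abs_le.1 ((hcls t).trans j6)
    have h3 : l / (qq r * r) ≤ Z / r := by
      rw [div_le_div_iff₀ hqr0 (by linarith)]
      have h5 := mul_le_mul_of_nonneg_right hqZ1 (by linarith : (0 : ℝ) ≤ r)
      linarith
    have h4 : Z / r ≤ l / (qq r * r) + e * s := by
      have h5 : Z / r = (qq r * Z) / (qq r * r) := by
        rw [mul_div_mul_left _ _ (by linarith : qq r ≠ 0)]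
      have h6 : (qq r * Z) / (qq r * r) ≤ (l + |C|) / (qq r * r) := by gcongr
      have h7 : |C| / (qq r * r) ≤ |C| := div_le_self hC0 (by rw [hqr]; linarith)
      rw [add_div] at h6
      rw [h5]
      linarith
    have hes : 0 ≤ e * s := by positivity
    rw [abs_le]
    constructor <;> linarith [h1.1, h1.2, h2.1, h2.2]
  have hes : 0 ≤ e * s := by positivity
  have hdivl : ∀ A x : ℝ, l * x ≤ l * A + (10 * r + 11 + 4 * C₁) * e * s →
      x ≤ A + (10 * r + 11 + 4 * C₁) * e := by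
    intro A x h
    have h1 : (10 * r + 11 + 4 * C₁) * e * s ≤ (10 * r + 11 + 4 * C₁) * e * l := by
      have : 0 ≤ (10 * r + 11 + 4 * C₁) * e := by
        apply mul_nonneg _ he0.le; linarith
      exact mul_le_mul_of_nonneg_left hsl this
    have h2 : l * x ≤ l * (A + (10 * r + 11 + 4 * C₁) * e) := by linarith
    exact le_of_mul_le_mul_left h2 hl0
  have e4 : ∀ v, f v = none → z v ≤ 1 - 1 / (16 * (r : ℝ)) + (10 * r + 11 + 4 * C₁) * e := by
    classical
    intro v hv
    apply hdivl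
    have h1 := (abs_le.1 (e1 v)).2
    have h2 := hnone v hv
    have h3 : (1 - e) ^ 2 * ((∑ t, nbn G g v t : ℕ) : ℝ) ≤ nb G (fun i => z i ^ 2) v := by
      rw [sum_nbn, Finset.mul_sum]
      unfold nb
      refine Finset.sum_le_sum fun u _ => ?_
      have ha := adj_nonneg G v u
      by_cases h : g u ≠ none
      · rw [if_pos h]
        have h4 := abs_le.1 (gc_ne.1 h).2
        have h5 : (1 - e) ^ 2 ≤ z u ^ 2 := by
          apply pow_le_pow_left₀ (by linarith)
          linarith [h4.1]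
        calc (1 - e) ^ 2 * adj G v u ≤ z u ^ 2 * adj G v u := by gcongr
          _ = adj G v u * z u ^ 2 := mul_comm _ _
      · rw [if_neg h, mul_zero]
        positivity
    set N : ℝ := ((∑ t, nbn G g v t : ℕ) : ℝ) with hNdef
    have hN0 : 0 ≤ N := Nat.cast_nonneg _
    have h4 : (qq r - 1 / (16 * (r : ℝ))) * Z ≤ l * (1 - 1 / (16 * (r : ℝ))) + |C| := by
      have h5 : 0 ≤ 1 / (16 * (r : ℝ)) := by positivity
      exact a3 h5 hlZ2 hqZ2
    have h5 : (1 - e) ^ 2 * N ≤ l * (1 - 1 / (16 * (r : ℝ))) + |C| := (h3.trans h2).trans h4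
    have h6 : N ≤ (1 + 3 * e) * (l * (1 - 1 / (16 * (r : ℝ))) + |C|) := by
      have h7 : 1 ≤ (1 + 3 * e) * (1 - e) ^ 2 := a4 he0.le he10
      calc N ≤ (1 + 3 * e) * (1 - e) ^ 2 * N := le_mul_of_one_le_left hN0 h7
        _ = (1 + 3 * e) * ((1 - e) ^ 2 * N) := by ring
        _ ≤ _ := by gcongr
    have h7 : l * (1 - 1 / (16 * (r : ℝ))) ≤ 2 * s := by
      have h8 : 0 ≤ 1 / (16 * (r : ℝ)) := by positivity
      have h9 : l * (1 - 1 / (16 * (r : ℝ))) ≤ l * 1 :=
        mul_le_mul_of_nonneg_left (by linarith) hl0.le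
      linarith
    have h8 : 3 * e * (l * (1 - 1 / (16 * (r : ℝ)))) ≤ 6 * (e * s) := by
      calc 3 * e * (l * (1 - 1 / (16 * (r : ℝ)))) ≤ 3 * e * (2 * s) := by gcongr
        _ = 6 * (e * s) := by ring
    have h9 : (1 + 3 * e) * |C| ≤ e * s := by
      calc (1 + 3 * e) * |C| ≤ 2 * |C| := mul_le_mul_of_nonneg_right (by linarith) hC0
        _ ≤ e * s := j7
    have h10 : 0 ≤ 10 * (r : ℝ) * (e * s) := by positivity
    exact a5 h1 h6 h8 h9 h10 hes
  refine ⟨z, f, g, E, hzd, hind, hup, hml, hEK, ?_, ?_, ?_, ?_, ?_, ?_, ?_⟩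
  · intro v hv
    exact ⟨gc_eq hv, ((gc_ne.1 hv).2).trans heη⟩
  · intro v hvE hv
    have : z v ≤ e := by
      by_contra hcon
      exact hvE (mem_Ex.2 ⟨not_le.1 hcon, hv⟩)
    linarith
  · intro v hv
    exact (mem_Ex.1 hv).2
  · intro v
    refine (e1 v).trans ?_
    have h1 : (4 + 4 * C₁) * e ≤ (10 * r + 11 + 4 * C₁) * η := by
      apply mul_le_mul (by linarith) heη he0.le (by linarith)
    exact mul_le_mul_of_nonneg_right h1 hs0.le
  · intro t
    refine (e3 t).trans ?_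
    have h1 : 10 * e ≤ (10 * r + 11 + 4 * C₁) * η := by
      apply mul_le_mul (by linarith) heη he0.le (by linarith)
    exact mul_le_mul_of_nonneg_right h1 hs0.le
  · intro v
    have hce : (10 * r + 11 + 4 * C₁) * e ≤ (10 * r + 11 + 4 * C₁) * η := by
      apply mul_le_mul_of_nonneg_left heη (by linarith)
    by_cases hv : f v = none
    · have h1 := e4 v hv
      have h2 : 0 ≤ 1 / (16 * (r : ℝ)) := by positivity
      linarith
    · obtain ⟨t, ht⟩ := Option.ne_none_iff_exists'.1 hv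
      refine le_trans (hdivl 1 (z v) ?_) (by linarith)
      have h1 := (abs_le.1 (e1 v)).2
      have hzero : nbn G g v t = 0 := by
        unfold nbn
        rw [Set.ncard_eq_zero (Set.toFinite _)]
        ext u
        simp only [Set.mem_ofPred_eq, Set.mem_empty_iff_false, iff_false, not_and]
        intro hu hadj
        have h2 := gc_some hu
        exact hind v u hv (by rw [ht, h2.1]) hadj
      have h2 : ((∑ t', nbn G g v t' : ℕ) : ℝ) ≤ (r - 1) * (l / (qq r * r) + 10 * e * s) := by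
        push_cast
        rw [← Finset.add_sum_erase _ _ (Finset.mem_univ t), hzero, Nat.cast_zero, zero_add]
        calc ∑ x ∈ Finset.univ.erase t, (nbn G g v x : ℝ)
            ≤ ∑ x ∈ Finset.univ.erase t, (l / (qq r * r) + 10 * e * s) := by
              refine Finset.sum_le_sum fun x _ => ?_
              have h3 : (nbn G g v x : ℝ) ≤ siz g x := by exact_mod_cast nbn_le_siz G g v x
              have h4 := (abs_le.1 (e3 x)).2
              linarith
          _ = (r - 1) * (l / (qq r * r) + 10 * e * s) := by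
              rw [Finset.sum_const, Finset.card_erase_of_mem (Finset.mem_univ t),
                Finset.card_univ, Fintype.card_fin, nsmul_eq_mul, Nat.cast_sub (by omega)]
              push_cast; ring
      have h3 : ((r : ℝ) - 1) * (l / (qq r * r)) = l := by
        rw [hqr]
        have : (r : ℝ) - 1 ≠ 0 := by linarith
        field_simp
      have h4 : ((r : ℝ) - 1) * (10 * e * s) ≤ 10 * r * (e * s) := by linarith
      rw [mul_add, h3] at h2
      linarith
  · intro v hv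
    have h1 := e4 v hv
    have hce : (10 * r + 11 + 4 * C₁) * e ≤ (10 * r + 11 + 4 * C₁) * η := by
      apply mul_le_mul_of_nonneg_left heη (by linarith)
    linarith

end MP0c3a8f
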