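import Pool.Agent.Work.MP_0c3a8f_co.PB.Stmts2

/-! Item EXCR2 (adapted from Item EXC2 of helper87): uniqueness of the exception, type two. -/

set_option autoImplicit false

open Finset

namespace MP0c3a8f

namespace ItemEXCR2

variable {r : ℕ} {V : Type} {G : SimpleGraph V} {f : V → Option (Fin r)} {w u : V}
  {v : Fin r → V} {i : Fin r}

theorem fw (h : Ty2 G f w u v i) : f w = none := (h.out w).2 (Or.inl rfl)

theorem fu (h : Ty2 G f w u v i) : f u = none := (h.out u).2 (Or.inr rfl)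

/-- move the edge `u y` to `u y'` -/
def mv (G : SimpleGraph V) (u y y' : V) (hne : u ≠ y') : SimpleGraph V where
  Adj x z := (G.Adj x z ∧ s(x, z) ≠ s(u, y)) ∨ s(x, z) = s(u, y')
  symm := ⟨fun x z h => by
    rcases h with h | h
    · exact Or.inl ⟨h.1.symm, by rw [Sym2.eq_swap]; exact h.2⟩
    · exact Or.inr (by rw [Sym2.eq_swap]; exact h)⟩
  loopless := ⟨fun x h => by
    rcases h with h | h
    · exact G.loopless.irrefl x h.1
    · rcases Sym2.eq_iff.1 h with ⟨h1, h2⟩ | ⟨h1, h2⟩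
      · exact hne (h1.symm.trans h2)
      · exact hne (h2.symm.trans h1)⟩

theorem mv_adj (y y' : V) (hne : u ≠ y') (x z : V) :
    (mv G u y y' hne).Adj x z ↔ (G.Adj x z ∧ s(x, z) ≠ s(u, y)) ∨ s(x, z) = s(u, y') := Iff.rfl

theorem mv_adj_of_ne (y y' : V) (hne : u ≠ y') (x z : V) (hx : x ≠ u) (hz : z ≠ u) :
    (mv G u y y' hne).Adj x z ↔ G.Adj x z := by
  have h : ∀ a, s(x, z) ≠ s(u, a) := by
    intro a ha
    rcases Sym2.eq_iff.1 ha with ⟨h1, _⟩ | ⟨_, h2⟩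
    · exact hx h1
    · exact hz h2
  rw [mv_adj]
  constructor
  · rintro (h1 | h1)
    · exact h1.1
    · exact absurd h1 (h y')
  · intro h1
    exact Or.inl ⟨h1, h y⟩

theorem mv_adj_u (y y' : V) (hne : u ≠ y') (x : V) :
    (mv G u y y' hne).Adj u x ↔ (G.Adj u x ∧ x ≠ y) ∨ x = y' := by
  rw [mv_adj]
  constructor
  · rintro (h1 | h1)
    · refine Or.inl ⟨h1.1, fun h2 => h1.2 (by rw [h2])⟩
    · refine Or.inr ?_
      rcases Sym2.eq_iff.1 h1 with ⟨_, h2⟩ | ⟨h2, _⟩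
      · exact h2
      · exact absurd h2 hne
  · rintro (h1 | h1)
    · refine Or.inl ⟨h1.1, fun h2 => ?_⟩
      rcases Sym2.eq_iff.1 h2 with ⟨_, h3⟩ | ⟨_, h3⟩
      · exact h1.2 h3
      · exact G.loopless.irrefl u (by rw [h3] at h1; exact h1.1)
    · exact Or.inr (by rw [h1])

theorem ne_u (h : Ty2 G f w u v i) {x : V} (hx : f x ≠ none) : x ≠ u := fun hxu =>
  hx (by rw [hxu]; exact fu h)

theorem nbn_mv (h : Ty2 G f w u v i) (y y' : V) (hne : u ≠ y') (t : Fin r) :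
    nbn (mv G u y y' hne) f w t = nbn G f w t := by
  unfold nbn
  congr 1
  ext x
  simp only [Set.mem_setOf_eq]
  constructor
  · rintro ⟨h1, h2⟩
    exact ⟨h1, (mv_adj_of_ne y y' hne w x h.ne (ne_u h (by rw [h1]; simp))).1 h2⟩
  · rintro ⟨h1, h2⟩
    exact ⟨h1, (mv_adj_of_ne y y' hne w x h.ne (ne_u h (by rw [h1]; simp))).2 h2⟩

theorem th2_mv [DecidableEq (Fin r)] (h : Th2 G f w u v i) (t1 t2 : Fin r) (h1 : t1 ≠ i) (h2 : t2 ≠ i)
    (h12 : t1 ≠ t2) (hw1 : ¬ G.Adj w (v t1)) (y' : V) (hy' : f y' = some t2)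
    (hne : u ≠ y') :
    Th2 (mv G u (v t2) y' hne) f w u (Function.update v t2 y') i := by
  have hT := h.ty
  refine ⟨⟨hT.out, hT.ne, ?_, ?_, ?_, ?_⟩, ?_, ?_, ?_⟩
  · intro x z hx hz
    rw [mv_adj_of_ne _ _ _ _ _ (ne_u hT hx) (ne_u hT hz)]
    exact hT.core x z hx hz
  · rw [mv_adj_u]
    refine Or.inl ⟨hT.uw, fun hwy => ?_⟩
    have : f w = some t2 := by rw [hwy]; exact hT.hv t2 h2
    rw [fw hT] at this
    exact absurd this (by simp)
  · intro t ht
    by_cases htt : t = t2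
    · subst htt
      rw [Function.update_self]
      exact hy'
    · rw [Function.update_of_ne htt]
      exact hT.hv t ht
  · intro x hx
    rw [mv_adj_u, hT.un x hx]
    constructor
    · rintro (⟨⟨t, ht, hxt⟩, hx2⟩ | h3)
      · have htt : t ≠ t2 := fun h4 => hx2 (by rw [hxt, h4])
        exact ⟨t, ht, by rw [Function.update_of_ne htt]; exact hxt⟩
      · exact ⟨t2, h2, by rw [Function.update_self]; exact h3⟩
    · rintro ⟨t, ht, hxt⟩
      by_cases htt : t = t2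
      · subst htt
        rw [Function.update_self] at hxt
        exact Or.inr hxt
      · rw [Function.update_of_ne htt] at hxt
        refine Or.inl ⟨⟨t, ht, hxt⟩, fun h4 => htt ?_⟩
        have e1 := hT.hv t ht
        have e2 := hT.hv t2 h2
        rw [← hxt, h4, e2] at e1
        exact (Option.some.inj e1).symm
  · rw [nbn_mv hT]
    exact h.ni
  · intro t ht
    rw [nbn_mv hT]
    exact h.pos t ht
  · refine ⟨t1, h1, ?_⟩
    rw [Function.update_of_ne h12]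
    rw [mv_adj_of_ne _ _ _ _ _ hT.ne (ne_u hT (by rw [hT.hv t1 h1]; simp))]
    exact hw1

theorem qpos {r : ℕ} (hr : 3 ≤ r) : 0 < qq r := by
  unfold qq
  have h3 : (3 : ℝ) ≤ r := by exact_mod_cast hr
  have : 1 / (r : ℝ) ≤ 1 / 3 := one_div_le_one_div_of_le (by norm_num) h3
  linarith

end ItemEXCR2

open ItemEXCR2

theorem prfEXCR2 : US2_statement → MEM2_statement → EXCR2_statement := by
  intro hUS hMEM r ε hr hε
  have hq := qpos hr
  obtain ⟨n₁, hn₁⟩ := hUS r (ε * qq r / 2) hr (by positivity)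
  obtain ⟨n₂, hn₂⟩ := exists_nat_ge (2 * (r : ℝ) / (ε * qq r))
  refine ⟨max (max n₁ n₂) r, ?_⟩
  intro n hn D hD V _ G f w u v i hMx hTh hBal hsum
  have hnn1 : n₁ ≤ n := le_trans (le_trans (le_max_left _ _) (le_max_left _ _)) hn
  have hnn2 : n₂ ≤ n := le_trans (le_trans (le_max_right _ _) (le_max_left _ _)) hn
  have hnr : r ≤ n := le_trans (le_max_right _ _) hn
  have hsiz : ∀ t, 1 ≤ siz f t := by
    intro t
    have h1 := (hBal.1 t).1
    have h2 : 1 ≤ n / r := (Nat.one_le_div_iff (by omega)).2 hnr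
    omega
  have hT := hTh.ty
  obtain ⟨t1, ht1, hw1⟩ := hTh.exc
  refine ⟨t1, ⟨ht1, hw1⟩, ?_⟩
  rintro t2 ⟨ht2, hw2⟩
  by_contra hne21
  have h12 : t1 ≠ t2 := fun h => hne21 h.symm
  -- a neighbour of `w` in the class `t2`
  obtain ⟨y', hy', hwy'⟩ : ∃ y', f y' = some t2 ∧ G.Adj w y' := by
    have h1 := hTh.pos t2 ht2
    unfold nbn at h1
    obtain ⟨y', hy'⟩ := (Set.ncard_pos (Set.toFinite _)).1 h1
    exact ⟨y', hy'.1, hy'.2⟩
  have hne : u ≠ y' := fun h => ne_u hT (x := y') (by rw [hy']; simp) h.symm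
  have huy' : ¬ G.Adj u y' := by
    intro h
    obtain ⟨t, ht, hyt⟩ := (hT.un y' (by rw [hy']; simp)).1 h
    have e1 := hT.hv t ht
    rw [← hyt, hy'] at e1
    have e2 : t2 = t := Option.some.inj e1
    rw [hyt, ← e2] at hwy'
    exact hw2 hwy'
  have huy : G.Adj u (v t2) := (hT.un _ (by rw [hT.hv t2 ht2]; simp)).2 ⟨t2, ht2, rfl⟩
  have hD1 : ((∑ t, nbn G f w t : ℕ) : ℝ) = D - r := by
    have : ((∑ t, nbn G f w t + r : ℕ) : ℝ) = D := by exact_mod_cast hsum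
    push_cast at this ⊢
    linarith
  have hr3 : (3 : ℝ) ≤ r := by exact_mod_cast hr
  have hlow : ε * qq r / 2 * n ≤ ((∑ t, nbn G f w t : ℕ) : ℝ) := by
    rw [hD1]
    have h1 := hD.1
    have h2 : 2 * (r : ℝ) / (ε * qq r) ≤ n := le_trans hn₂ (by exact_mod_cast hnn2)
    rw [div_le_iff₀ (by positivity)] at h2
    nlinarith [h1, h2]
  have hup : ((∑ t, nbn G f w t : ℕ) : ℝ) ≤ (1 - 2 / (r : ℝ)) * (qq r * n) + 1 := by
    rw [hD1]
    have h1 := hD.2
    have h3 : (1 - 2 / (r : ℝ) - ε) * (qq r * n) ≤ (1 - 2 / (r : ℝ)) * (qq r * n) :=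
      mul_le_mul_of_nonneg_right (by linarith) (by positivity)
    linarith
  have hlt : lam G < lam (mv G u (v t2) y' hne) :=
    hn₁ V G (mv G u (v t2) y' hne) f w u (v t2) y' v i t2 t2 n hnn1 hT hBal hlow hup
      (hT.hv t2 ht2) hy' huy huy' hw2 (fun x z => mv_adj _ _ hne x z) (Or.inl ⟨rfl, hwy'⟩)
  have hTh' := th2_mv hTh t1 t2 ht1 ht2 h12 hw1 y' hy' hne
  obtain ⟨_, _, _, c4⟩ := hMEM r V G f w u v i hr hTh hsiz
  obtain ⟨d1, d2, d3, d4⟩ := hMEM r V (mv G u (v t2) y' hne) f w u _ i hr hTh' hsiz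
  have hsm : ∑ t, nbn (mv G u (v t2) y' hne) f w t = ∑ t, nbn G f w t :=
    Finset.sum_congr rfl fun t _ => nbn_mv hT _ _ hne t
  rw [hsm] at d4
  have hcard : (mv G u (v t2) y' hne).edgeSet.ncard = G.edgeSet.ncard := by omega
  have hIn : InN r ((SimpleGraph.turanGraph n r).edgeSet.ncard + D)
      (⊤ : SimpleGraph (Fin (r + 1))) (mv G u (v t2) y' hne) :=
    ⟨d1, by rw [hcard]; exact hMx.1.size, d3, d2⟩
  exact absurd (hMx.2 V _ hIn) (not_le.2 hlt)

end MP0c3a8f
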