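import Pool.Agent.Work.MP_0c3a8f_co.PB.Stmts

open Finset

namespace MP0c3a8f

namespace EXPaux

lemma core {q n d D S T h N : ℝ} (hn : 0 < n) (hq1 : 2 / 3 ≤ q) (hq2 : q ≤ 1) (hN : 0 ≤ N)
    (hd0 : 0 ≤ d) (hdn : d ≤ n) (hD0 : 0 ≤ D) (hDn : D ≤ n) (hh : h = d - D) (hhN : |h| ≤ N)
    (hS0 : 0 ≤ S) (hS : S ≤ n ^ 2) (hT : |T| ≤ n * (N + 1)) :
    |-(2 * h ^ 2 / n) + 4 * h * T / n ^ 2 - 2 * (d ^ 3 - D ^ 3) / (q ^ 2 * n ^ 3)
      + (1 + 2 * q) * (d ^ 4 - D ^ 4) / (q ^ 2 * n ^ 4)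
      + 2 * (d ^ 2 - D ^ 2) * S / (q ^ 2 * n ^ 4)| ≤ (6 * N ^ 2 + 100 * N) / n := by
  have hq0 : 0 < q := by linarith
  have hq2' : 4 / 9 ≤ q ^ 2 := by nlinarith
  -- normalised variables
  set α := d / n with hα
  set β := D / n with hβ
  set s := S / n ^ 2 with hs
  set τ := T / n with hτ
  set A := h / n with hA
  have e : -(2 * h ^ 2 / n) + 4 * h * T / n ^ 2 - 2 * (d ^ 3 - D ^ 3) / (q ^ 2 * n ^ 3)
      + (1 + 2 * q) * (d ^ 4 - D ^ 4) / (q ^ 2 * n ^ 4)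
      + 2 * (d ^ 2 - D ^ 2) * S / (q ^ 2 * n ^ 4)
      = A * (-(2 * h) + 4 * τ - 2 * (α ^ 2 + α * β + β ^ 2) / q ^ 2
        + (1 + 2 * q) * (α + β) * (α ^ 2 + β ^ 2) / q ^ 2 + 2 * (α + β) * s / q ^ 2) := by
    rw [hα, hβ, hs, hτ, hA, hh]
    field_simp
    ring
  rw [e, abs_mul]
  have hα0 : 0 ≤ α := by positivity
  have hβ0 : 0 ≤ β := by positivity
  have hα1 : α ≤ 1 := by rw [hα, div_le_one hn]; exact hdn
  have hβ1 : β ≤ 1 := by rw [hβ, div_le_one hn]; exact hDn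
  have hs0 : 0 ≤ s := by positivity
  have hs1 : s ≤ 1 := by rw [hs, div_le_one (by positivity)]; exact hS
  have hτ1 : |τ| ≤ N + 1 := by
    rw [hτ, abs_div, abs_of_pos hn, div_le_iff₀ hn]
    linarith
  have hAn : |A| ≤ N / n := by
    rw [hA, abs_div, abs_of_pos hn]
    exact div_le_div_of_nonneg_right hhN hn.le
  have hqi : 1 / q ^ 2 ≤ 9 / 4 := by
    rw [div_le_iff₀ (by positivity)]
    linarith
  have hqi0 : 0 ≤ 1 / q ^ 2 := by positivity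
  have b1 : |2 * (α ^ 2 + α * β + β ^ 2) / q ^ 2| ≤ 6 * (9 / 4) := by
    rw [abs_of_nonneg (by positivity)]
    rw [show 2 * (α ^ 2 + α * β + β ^ 2) / q ^ 2 = 2 * (α ^ 2 + α * β + β ^ 2) * (1 / q ^ 2) by ring]
    apply mul_le_mul _ hqi hqi0 (by norm_num)
    nlinarith [mul_le_one₀ hα1 hβ0 hβ1]
  have b2 : |(1 + 2 * q) * (α + β) * (α ^ 2 + β ^ 2) / q ^ 2| ≤ 12 * (9 / 4) := by
    rw [abs_of_nonneg (by positivity)]
    rw [show (1 + 2 * q) * (α + β) * (α ^ 2 + β ^ 2) / q ^ 2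
      = ((1 + 2 * q) * (α + β) * (α ^ 2 + β ^ 2)) * (1 / q ^ 2) by ring]
    apply mul_le_mul _ hqi hqi0 (by norm_num)
    have h1 : (1 + 2 * q) * (α + β) ≤ 3 * 2 := by
      apply mul_le_mul (by linarith) (by linarith) (by positivity) (by norm_num)
    have h2 : α ^ 2 + β ^ 2 ≤ 2 := by nlinarith
    calc (1 + 2 * q) * (α + β) * (α ^ 2 + β ^ 2) ≤ (3 * 2) * 2 := by
          apply mul_le_mul h1 h2 (by positivity) (by norm_num)
      _ = 12 := by norm_num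
  have b3 : |2 * (α + β) * s / q ^ 2| ≤ 4 * (9 / 4) := by
    rw [abs_of_nonneg (by positivity)]
    rw [show 2 * (α + β) * s / q ^ 2 = (2 * (α + β) * s) * (1 / q ^ 2) by ring]
    apply mul_le_mul _ hqi hqi0 (by norm_num)
    calc 2 * (α + β) * s ≤ 4 * 1 := by
          apply mul_le_mul (by linarith) hs1 hs0 (by norm_num)
      _ = 4 := by norm_num
  have b0 : |-(2 * h) + 4 * τ| ≤ 6 * N + 4 := by
    rw [abs_le] at hhN hτ1 ⊢
    constructor <;> linarith [hhN.1, hhN.2, hτ1.1, hτ1.2]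
  have hB : |-(2 * h) + 4 * τ - 2 * (α ^ 2 + α * β + β ^ 2) / q ^ 2
        + (1 + 2 * q) * (α + β) * (α ^ 2 + β ^ 2) / q ^ 2 + 2 * (α + β) * s / q ^ 2|
      ≤ 6 * N + 100 := by
    rw [abs_le] at b0 b1 b2 b3 ⊢
    constructor <;> linarith [b0.1, b0.2, b1.1, b1.2, b2.1, b2.2, b3.1, b3.2]
  calc |A| * |-(2 * h) + 4 * τ - 2 * (α ^ 2 + α * β + β ^ 2) / q ^ 2
        + (1 + 2 * q) * (α + β) * (α ^ 2 + β ^ 2) / q ^ 2 + 2 * (α + β) * s / q ^ 2|
      ≤ N / n * (6 * N + 100) := by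
        apply mul_le_mul hAn hB (abs_nonneg _) (by positivity)
    _ = (6 * N ^ 2 + 100 * N) / n := by ring

end EXPaux

open EXPaux in
theorem prfEXP : EXP_statement := by
  intro r N ε hr hε
  refine ⟨⌈(6 * (N : ℝ) ^ 2 + 100 * N) / ε⌉₊ + 1, ?_⟩
  intro n D σ a hn hσ hdev haσ hD hdD
  have hn1 : 1 ≤ n := by omega
  have hn0 : (0 : ℝ) < n := by exact_mod_cast hn1
  have hr0 : (0 : ℝ) < r := by
    have : 0 < r := by omega
    exact_mod_cast this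
  have hr3 : (3 : ℝ) ≤ r := by exact_mod_cast hr
  have hq1 : 2 / 3 ≤ qq r := by
    unfold qq
    have : 1 / (r : ℝ) ≤ 1 / 3 := by
      apply one_div_le_one_div_of_le (by norm_num) hr3
    linarith
  have hq2 : qq r ≤ 1 := by
    unfold qq
    have : 0 < 1 / (r : ℝ) := by positivity
    linarith
  have hq0 : 0 < qq r := by linarith
  have hqr : 1 / (r : ℝ) = 1 - qq r := by unfold qq; ring
  have hσR : ∑ t, (σ t : ℝ) = n := by exact_mod_cast hσ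
  have hδ : ∀ t, |(σ t : ℝ) - (n : ℝ) / r| ≤ N + 1 := by
    intro t
    have h1 : ((σ t : ℝ) - (n : ℝ) / r) ^ 2 ≤ N := by
      refine le_trans ?_ hdev
      unfold dev
      have := Finset.single_le_sum (f := fun t => ((σ t : ℝ) - (∑ s, (σ s : ℝ)) / r) ^ 2)
        (fun i _ => sq_nonneg _) (Finset.mem_univ t)
      simp only [hσR] at this ⊢
      exact this
    rw [abs_le]
    constructor <;> nlinarith [Nat.cast_nonneg (α := ℝ) N]
  set d : ℝ := ∑ t, (a t : ℝ) with hd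
  set S : ℝ := ∑ t, (a t : ℝ) ^ 2 with hS
  set T : ℝ := ∑ t, (a t : ℝ) * ((σ t : ℝ) - n / r) with hT
  have hd0 : 0 ≤ d := Finset.sum_nonneg fun t _ => Nat.cast_nonneg _
  have hdn : d ≤ n := by
    rw [← hσR]
    exact Finset.sum_le_sum fun t _ => by exact_mod_cast haσ t
  have hS0 : 0 ≤ S := Finset.sum_nonneg fun t _ => sq_nonneg _
  have hSn : S ≤ (n : ℝ) ^ 2 := by
    calc S ≤ ∑ t, (a t : ℝ) * d := by
          apply Finset.sum_le_sum
          intro t _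
          rw [pow_two]
          apply mul_le_mul_of_nonneg_left _ (Nat.cast_nonneg _)
          exact Finset.single_le_sum (f := fun t => (a t : ℝ)) (fun i _ => Nat.cast_nonneg _)
            (Finset.mem_univ t)
      _ = d * d := by rw [← Finset.sum_mul]
      _ ≤ (n : ℝ) ^ 2 := by nlinarith
  have hTn : |T| ≤ n * ((N : ℝ) + 1) := by
    calc |T| ≤ ∑ t, |(a t : ℝ) * ((σ t : ℝ) - n / r)| := Finset.abs_sum_le_sum_abs _ _
      _ ≤ ∑ t, (a t : ℝ) * ((N : ℝ) + 1) := by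
          apply Finset.sum_le_sum
          intro t _
          rw [abs_mul, abs_of_nonneg (Nat.cast_nonneg (α := ℝ) _)]
          exact mul_le_mul_of_nonneg_left (hδ t) (Nat.cast_nonneg _)
      _ = d * ((N : ℝ) + 1) := by rw [← Finset.sum_mul]
      _ ≤ n * ((N : ℝ) + 1) := by
          apply mul_le_mul_of_nonneg_right hdn (by positivity)
  have hDn : (D : ℝ) ≤ n := by exact_mod_cast hD
  have hD0 : (0 : ℝ) ≤ D := Nat.cast_nonneg _
  have e1 : ∑ t, (r * (a t : ℝ) / n) * ((σ t : ℝ) - n / r) = (r / n) * T := by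
    rw [hT, Finset.mul_sum]
    apply Finset.sum_congr rfl
    intro t _
    ring
  have e2 : ∑ t, (r * (a t : ℝ) / n) ^ 2 = (r / n) ^ 2 * S := by
    rw [hS, Finset.mul_sum]
    apply Finset.sum_congr rfl
    intro t _
    ring
  have key : Kap r σ a - Kx r n D σ a
      = -(2 * (d - D) ^ 2 / n) + 4 * (d - D) * T / n ^ 2
        - 2 * (d ^ 3 - D ^ 3) / (qq r ^ 2 * n ^ 3)
        + (1 + 2 * qq r) * (d ^ 4 - D ^ 4) / (qq r ^ 2 * n ^ 4)
        + 2 * (d ^ 2 - D ^ 2) * S / (qq r ^ 2 * n ^ 4) := by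
    have hr' : (r : ℝ) ≠ 0 := hr0.ne'
    have hrq : (r : ℝ) * (1 - qq r) = 1 := by
      rw [← hqr]; field_simp
    unfold Kap Kx Mu
    simp only [hσR]
    rw [e1, e2, ← hd, ← hS, ← hT, show (1 : ℝ) / 2 - 1 / (r : ℝ) = qq r - 1 / 2 by rw [hqr]; ring]
    field_simp
    ring
  rw [key]
  refine le_trans (core hn0 hq1 hq2 (Nat.cast_nonneg N) hd0 hdn hD0 hDn rfl hdD hS0 hSn hTn) ?_
  rw [div_le_iff₀ hn0]
  have : (6 * (N : ℝ) ^ 2 + 100 * N) / ε ≤ n := by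
    refine le_trans (Nat.le_ceil _) ?_
    exact_mod_cast (by omega : ⌈(6 * (N : ℝ) ^ 2 + 100 * N) / ε⌉₊ ≤ n)
  rw [div_le_iff₀ hε] at this
  linarith

end MP0c3a8f
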