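import Pool.Agent.Work.MP_0c3a8f_co.PB.Stmts

/-!
# MP_0c3a8f_co, phase B: the first family
-/

open Finset

namespace MP0c3a8f

namespace ItemFAM1

lemma ncard_lt {n a : ℕ} (h : a ≤ n) : {y : Fin n | y.val < a}.ncard = a := by
  have e : {y : Fin n | y.val < a} = Fin.castLE h '' Set.univ := by
    ext y
    constructor
    · intro hy
      exact ⟨⟨y.val, hy⟩, trivial, rfl⟩
    · rintro ⟨z, -, rfl⟩
      exact z.2
  rw [e, Set.ncard_image_of_injective _ (Fin.castLE_injective h), Set.ncard_univ, Nat.card_fin]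

lemma transfer {V : Type} [Fintype V] {r : ℕ} (G : SimpleGraph V) (g : V → Option (Fin r)) :
    ∃ (k : ℕ) (e : V ≃ Fin k) (H : SimpleGraph (Fin k)) (f : Fin k → Option (Fin r)),
      (∀ x y, H.Adj (e x) (e y) ↔ G.Adj x y) ∧ (∀ x, f (e x) = g x) ∧
      (∀ t, siz f t = siz g t) ∧ ∀ w t, nbn H f (e w) t = nbn G g w t := by
  refine ⟨Fintype.card V, Fintype.equivFin V, G.comap (Fintype.equivFin V).symm,
    fun x => g ((Fintype.equivFin V).symm x), ?_, ?_, ?_, ?_⟩
  · intro x y
    simp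
  · intro x
    simp
  · intro t
    unfold siz
    have e : {v : Fin (Fintype.card V) | g ((Fintype.equivFin V).symm v) = some t} =
        (Fintype.equivFin V) '' {v | g v = some t} := by
      ext x
      constructor
      · intro hx
        exact ⟨(Fintype.equivFin V).symm x, hx, by simp⟩
      · rintro ⟨v, hv, rfl⟩
        simpa using hv
    rw [e, Set.ncard_image_of_injective _ (Fintype.equivFin V).injective]
  · intro w t
    unfold nbn
    have e : {v : Fin (Fintype.card V) | g ((Fintype.equivFin V).symm v) = some t ∧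
        (G.comap (Fintype.equivFin V).symm).Adj ((Fintype.equivFin V) w) v} =
        (Fintype.equivFin V) '' {v | g v = some t ∧ G.Adj w v} := by
      ext x
      constructor
      · intro hx
        refine ⟨(Fintype.equivFin V).symm x, ⟨hx.1, ?_⟩, by simp⟩
        have := hx.2
        simpa using this
      · rintro ⟨v, hv, rfl⟩
        refine ⟨?_, ?_⟩
        · simpa using hv.1
        · simpa using hv.2
    rw [e, Set.ncard_image_of_injective _ (Fintype.equivFin V).injective]

/-- the adjacency relation -/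
def rel {r : ℕ} (τ a : Fin r → ℕ) (i j : Fin r) :
    Option (Σ t : Fin r, Fin (τ t)) → Option (Σ t : Fin r, Fin (τ t)) → Prop
  | none, none => False
  | none, some q => q.2.val < a q.1
  | some q, none => q.2.val < a q.1
  | some q, some q' => q.1 ≠ q'.1 ∧ ¬ (q.1 = i ∧ q.2.val = 0 ∧ q'.1 = j ∧ q'.2.val = 0) ∧
      ¬ (q.1 = j ∧ q.2.val = 0 ∧ q'.1 = i ∧ q'.2.val = 0)

/-- the graph -/
def gr {r : ℕ} (τ a : Fin r → ℕ) (i j : Fin r) :
    SimpleGraph (Option (Σ t : Fin r, Fin (τ t))) where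
  Adj := rel τ a i j
  symm := ⟨fun x y h => by
    rcases x with _ | q <;> rcases y with _ | q'
    · exact h
    · exact h
    · exact h
    · exact ⟨h.1.symm, fun h' => h.2.2 ⟨h'.2.2.1, h'.2.2.2, h'.1, h'.2.1⟩,
        fun h' => h.2.1 ⟨h'.2.2.1, h'.2.2.2, h'.1, h'.2.1⟩⟩⟩
  loopless := ⟨fun x h => by
    rcases x with _ | q
    · exact h
    · exact h.1 rfl⟩

/-- the classes -/
def clF {r : ℕ} (τ : Fin r → ℕ) : Option (Σ t : Fin r, Fin (τ t)) → Option (Fin r)
  | none => none
  | some q => some q.1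

lemma inj_some {r : ℕ} (τ : Fin r → ℕ) (t : Fin r) :
    Function.Injective (fun y : Fin (τ t) => (some ⟨t, y⟩ : Option (Σ t : Fin r, Fin (τ t)))) := by
  intro y y' h
  simp only [Option.some.injEq] at h
  exact eq_of_heq (Sigma.mk.inj h).2

lemma siz_clF {r : ℕ} (τ : Fin r → ℕ) (t : Fin r) : siz (clF τ) t = τ t := by
  unfold siz
  have e : {v | clF τ v = some t} =
      (fun y : Fin (τ t) => (some ⟨t, y⟩ : Option (Σ t : Fin r, Fin (τ t)))) '' Set.univ := by
    ext x
    constructor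
    · intro hx
      rcases x with _ | ⟨s, y⟩
      · exact absurd hx (by simp [clF])
      · have hs : s = t := by simpa [clF] using hx
        subst hs
        exact ⟨y, trivial, rfl⟩
    · rintro ⟨y, -, rfl⟩
      rfl
  rw [e, Set.ncard_image_of_injective _ (inj_some τ t), Set.ncard_univ, Nat.card_fin]

lemma nbn_clF {r : ℕ} (τ a : Fin r → ℕ) (i j t : Fin r) (h : a t ≤ τ t) :
    nbn (gr τ a i j) (clF τ) none t = a t := by
  unfold nbn
  have e : {v | clF τ v = some t ∧ (gr τ a i j).Adj none v} =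
      (fun y : Fin (τ t) => (some ⟨t, y⟩ : Option (Σ t : Fin r, Fin (τ t)))) ''
        {y : Fin (τ t) | y.val < a t} := by
    ext x
    constructor
    · intro hx
      rcases x with _ | ⟨s, y⟩
      · exact absurd hx.1 (by simp [clF])
      · have hs : s = t := by simpa [clF] using hx.1
        subst hs
        exact ⟨y, hx.2, rfl⟩
    · rintro ⟨y, hy, rfl⟩
      exact ⟨rfl, hy⟩
  rw [e, Set.ncard_image_of_injective _ (inj_some τ t), ncard_lt h]

lemma eq_iff {r : ℕ} {τ : Fin r → ℕ} {i : Fin r} (h : 0 < τ i) (q : Σ t : Fin r, Fin (τ t)) :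
    q = ⟨i, ⟨0, h⟩⟩ ↔ q.1 = i ∧ q.2.val = 0 := by
  obtain ⟨t, y⟩ := q
  constructor
  · intro h'
    cases h'
    exact ⟨rfl, rfl⟩
  · rintro ⟨h1, h2⟩
    simp only at h1 h2
    subst h1
    congr 1
    exact Fin.ext h2

end ItemFAM1

open ItemFAM1 in
theorem prfFAM1 : FAM1_statement := by
  intro r τ a i j hr hij hai haj ha
  obtain ⟨k, e, H, f, hadj, hf, hsiz, hnbn⟩ := transfer (gr τ a i j) (clF τ)
  have hi : 0 < τ i := by have := ha i; omega
  have hj : 0 < τ j := by have := ha j; omega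
  have hn : ∀ t, nbn H f (e none) t = a t := fun t => by rw [hnbn, nbn_clF _ _ _ _ _ (ha t).2]
  refine ⟨k, H, f, e none, e (some ⟨i, ⟨0, hi⟩⟩), e (some ⟨j, ⟨0, hj⟩⟩), ?_, ?_, hn⟩
  · refine ⟨⟨?_, hij, ?_, ?_, ?_⟩, ?_, ?_, ?_, ?_, ?_⟩
    · intro v
      obtain ⟨x, rfl⟩ := e.surjective v
      rw [hf, e.injective.eq_iff]
      rcases x with _ | q <;> simp [clF]
    · rw [hf]; rfl
    · rw [hf]; rfl
    · intro u v hu hv
      obtain ⟨x, rfl⟩ := e.surjective u
      obtain ⟨y, rfl⟩ := e.surjective v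
      rw [hf] at hu hv
      rw [hadj, hf, hf]
      rcases x with _ | q
      · exact absurd rfl hu
      rcases y with _ | q'
      · exact absurd rfl hv
      have h1 : (gr τ a i j).Adj (some q) (some q') ↔ q.1 ≠ q'.1 ∧
          ¬ (q.1 = i ∧ q.2.val = 0 ∧ q'.1 = j ∧ q'.2.val = 0) ∧
          ¬ (q.1 = j ∧ q.2.val = 0 ∧ q'.1 = i ∧ q'.2.val = 0) := Iff.rfl
      rw [h1]
      have h2 : clF τ (some q) ≠ clF τ (some q') ↔ q.1 ≠ q'.1 := by simp [clF]
      rw [h2, Ne, Ne, Sym2.eq_iff, e.injective.eq_iff, e.injective.eq_iff, e.injective.eq_iff,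
        e.injective.eq_iff, Option.some_inj, Option.some_inj, Option.some_inj, Option.some_inj,
        eq_iff hi, eq_iff hj, eq_iff hi, eq_iff hj]
      tauto
    · rw [hadj]
      show 0 < a i
      omega
    · rw [hadj]
      show 0 < a j
      omega
    · rw [hn, hai]
    · rw [hn, haj]
    · intro t
      rw [hn]
      exact (ha t).1
  · intro t
    rw [hsiz, siz_clF]

end MP0c3a8f
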