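import Pool.Agent.Work.MP_0c3a8f_co.PB.Stmts2
import Pool.Agent.Work.MP_0c3a8f_co.PB.ItemFAM1

/-!
# MP_0c3a8f_co, phase B: the family with complete core
-/

open Finset

namespace MP0c3a8f

namespace ItemFAMZ

/-- the adjacency relation -/
def rel {r : ℕ} (τ a : Fin r → ℕ) :
    Option (Σ t : Fin r, Fin (τ t)) → Option (Σ t : Fin r, Fin (τ t)) → Prop
  | none, none => False
  | none, some q => q.2.val < a q.1
  | some q, none => q.2.val < a q.1
  | some q, some q' => q.1 ≠ q'.1

/-- the graph -/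
def gr {r : ℕ} (τ a : Fin r → ℕ) :
    SimpleGraph (Option (Σ t : Fin r, Fin (τ t))) where
  Adj := rel τ a
  symm := ⟨fun x y h => by
    rcases x with _ | q <;> rcases y with _ | q'
    · exact h
    · exact h
    · exact h
    · exact Ne.symm h⟩
  loopless := ⟨fun x h => by
    rcases x with _ | q
    · exact h
    · exact h rfl⟩

lemma nbn_clF {r : ℕ} (τ a : Fin r → ℕ) (t : Fin r) (h : a t ≤ τ t) :
    nbn (gr τ a) (ItemFAM1.clF τ) none t = a t := by
  unfold nbn
  have e : {v | ItemFAM1.clF τ v = some t ∧ (gr τ a).Adj none v} =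
      (fun y : Fin (τ t) => (some ⟨t, y⟩ : Option (Σ t : Fin r, Fin (τ t)))) ''
        {y : Fin (τ t) | y.val < a t} := by
    ext x
    constructor
    · intro hx
      rcases x with _ | ⟨s, y⟩
      · exact absurd hx.1 (by simp [ItemFAM1.clF])
      · have hs : s = t := by simpa [ItemFAM1.clF] using hx.1
        subst hs
        exact ⟨y, hx.2, rfl⟩
    · rintro ⟨y, hy, rfl⟩
      exact ⟨rfl, hy⟩
  rw [e, Set.ncard_image_of_injective _ (ItemFAM1.inj_some τ t), ItemFAM1.ncard_lt h]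

end ItemFAMZ

open ItemFAMZ in
theorem prfFAMZ : FAMZ_statement := by
  intro r τ a hr ha
  obtain ⟨k, e, H, f, hadj, hf, hsiz, hnbn⟩ := ItemFAM1.transfer (gr τ a) (ItemFAM1.clF τ)
  refine ⟨k, H, f, e none, ⟨?_, ?_⟩, fun t => ?_, fun t => ?_⟩
  · intro v
    obtain ⟨x, rfl⟩ := e.surjective v
    rw [hf, e.injective.eq_iff]
    rcases x with _ | q <;> simp [ItemFAM1.clF]
  · intro u v hu hv
    obtain ⟨x, rfl⟩ := e.surjective u
    obtain ⟨y, rfl⟩ := e.surjective v
    rw [hf] at hu hv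
    rw [hadj, hf, hf]
    rcases x with _ | q
    · exact absurd rfl hu
    rcases y with _ | q'
    · exact absurd rfl hv
    have h1 : (gr τ a).Adj (some q) (some q') ↔ q.1 ≠ q'.1 := Iff.rfl
    rw [h1]
    simp [ItemFAM1.clF]
  · rw [hsiz, ItemFAM1.siz_clF]
  · rw [hnbn, nbn_clF _ _ _ (ha t)]

end MP0c3a8f
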