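import Pool.Agent.Work.MP_0c3a8f_co.PB.Stmts

set_option autoImplicit false

open Finset

namespace MP0c3a8f

namespace FLAT

variable {V : Type} [Fintype V] {r : ℕ}

open Classical in
lemma siz_eq (g : V → Option (Fin r)) (t : Fin r) :
    (siz g t : ℝ) = ∑ v, if g v = some t then (1 : ℝ) else 0 := by
  unfold siz
  rw [Finset.sum_boole]
  congr 1
  rw [← Set.ncard_coe_finset]
  congr 1
  ext v
  simp

open Classical in
lemma nbn_eq (G : SimpleGraph V) (g : V → Option (Fin r)) (w : V) (t : Fin r) :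
    (nbn G g w t : ℝ) = ∑ v, if g v = some t then adj G w v else 0 := by
  unfold nbn adj
  have : ∀ v, (if g v = some t then (if G.Adj w v then (1 : ℝ) else 0) else 0) =
      if g v = some t ∧ G.Adj w v then (1 : ℝ) else 0 := by
    intro v
    by_cases h1 : g v = some t <;> by_cases h2 : G.Adj w v <;> simp [h1, h2]
  simp_rw [this]
  rw [Finset.sum_boole]
  congr 1
  rw [← Set.ncard_coe_finset]
  congr 1
  ext v
  simp

open Classical in
lemma sum_cls (g : V → Option (Fin r)) (F : V → ℝ) :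
    ∑ t, ∑ v, (if g v = some t then F v else 0) = ∑ v, if g v ≠ none then F v else 0 := by
  rw [Finset.sum_comm]
  apply Finset.sum_congr rfl
  intro v _
  rcases h : g v with _ | s
  · simp
  · simp

omit [Fintype V] in
lemma adj_nonneg (G : SimpleGraph V) (u v : V) : 0 ≤ adj G u v := by
  unfold adj; split_ifs <;> norm_num

omit [Fintype V] in
lemma adj_le_one (G : SimpleGraph V) (u v : V) : adj G u v ≤ 1 := by
  unfold adj; split_ifs <;> norm_num

open Classical in
/-- number of missing partners -/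
lemma miss_count (G : SimpleGraph V) (g : V → Option (Fin r)) (v : V) (hv : g v ≠ none) :
    ∑ u, (if g u ≠ none ∧ g u ≠ g v ∧ ¬ G.Adj v u then (1 : ℝ) else 0) ≤
      ((missSet G g).ncard : ℝ) := by
  rw [Finset.sum_boole]
  have : (Finset.univ.filter (fun u => g u ≠ none ∧ g u ≠ g v ∧ ¬ G.Adj v u)).card ≤
      (missSet G g).ncard := by
    rw [← Set.ncard_coe_finset]
    apply Set.ncard_le_ncard_of_injOn (fun u => s(v, u))
    · intro u hu
      simp only [Finset.coe_filter, Finset.mem_univ, true_and, Set.mem_ofPred_eq] at hu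
      exact ⟨v, u, rfl, hv, hu.1, hu.2.1.symm, hu.2.2⟩
    · intro a _ b _ hab
      simpa [Sym2.eq_iff] using (Sym2.congr_right.mp hab)
  exact_mod_cast this

open Classical in
/-- number of light neighbours -/
lemma light_count (G : SimpleGraph V) (g : V → Option (Fin r)) (U : Finset V) (v : V) :
    ∑ u, (if g u = none ∧ u ∉ U then adj G v u else 0) ≤
      ((lightSet G g U).ncard : ℝ) := by
  have h : ∀ u, (if g u = none ∧ u ∉ U then adj G v u else 0) =
      if (g u = none ∧ u ∉ U) ∧ G.Adj v u then (1 : ℝ) else 0 := by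
    intro u
    unfold adj
    by_cases h1 : g u = none ∧ u ∉ U <;> by_cases h2 : G.Adj v u <;> simp [h1, h2]
  simp_rw [h]
  rw [Finset.sum_boole]
  have : (Finset.univ.filter (fun u => (g u = none ∧ u ∉ U) ∧ G.Adj v u)).card ≤
      (lightSet G g U).ncard := by
    rw [← Set.ncard_coe_finset]
    apply Set.ncard_le_ncard_of_injOn (fun u => s(v, u))
    · intro u hu
      simp only [Finset.coe_filter, Finset.mem_univ, true_and, Set.mem_ofPred_eq] at hu
      exact ⟨hu.2, u, by simp, hu.1.1, hu.1.2⟩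
    · intro a _ b _ hab
      simpa [Sym2.eq_iff] using (Sym2.congr_right.mp hab)
  exact_mod_cast this

open Classical in
/-- degree of a light vertex -/
lemma light_deg (G : SimpleGraph V) (g : V → Option (Fin r)) (U : Finset V) (v : V)
    (hv : g v = none) (hU : v ∉ U) :
    ∑ u, adj G v u ≤ ((lightSet G g U).ncard : ℝ) := by
  have h : ∀ u, adj G v u = if G.Adj v u then (1 : ℝ) else 0 := fun u => rfl
  simp_rw [h]
  rw [Finset.sum_boole]
  have : (Finset.univ.filter (fun u => G.Adj v u)).card ≤ (lightSet G g U).ncard := by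
    rw [← Set.ncard_coe_finset]
    apply Set.ncard_le_ncard_of_injOn (fun u => s(v, u))
    · intro u hu
      simp only [Finset.coe_filter, Finset.mem_univ, true_and, Set.mem_ofPred_eq] at hu
      exact ⟨hu, v, by simp, hv, hU⟩
    · intro a _ b _ hab
      simpa [Sym2.eq_iff] using (Sym2.congr_right.mp hab)
  exact_mod_cast this

open Classical in
/-- sum of the degrees of the light vertices -/
lemma light_sum (G : SimpleGraph V) (g : V → Option (Fin r)) (U : Finset V) :
    ∑ v, (if g v = none ∧ v ∉ U then ∑ u, adj G v u else 0) ≤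
      2 * ((lightSet G g U).ncard : ℝ) := by
  have h : ∀ v, (if g v = none ∧ v ∉ U then ∑ u, adj G v u else 0) =
      ∑ u, if (g v = none ∧ v ∉ U) ∧ G.Adj v u then (1 : ℝ) else 0 := by
    intro v
    unfold adj
    by_cases h1 : g v = none ∧ v ∉ U
    · simp [h1]
    · simp [h1]
  simp_rw [h]
  rw [← Finset.sum_product' (f := fun v u => if (g v = none ∧ v ∉ U) ∧ G.Adj v u then (1 : ℝ) else 0),
    Finset.sum_boole]
  set P := (Finset.univ ×ˢ Finset.univ : Finset (V × V)).filter
    (fun x => (g x.1 = none ∧ x.1 ∉ U) ∧ G.Adj x.1 x.2) with hP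
  have h1 : P.card ≤ 2 * (P.image (fun x => s(x.1, x.2))).card := by
    apply Finset.card_le_mul_card_image
    intro e he
    rw [Finset.mem_image] at he
    obtain ⟨⟨a, b⟩, _, rfl⟩ := he
    have : P.filter (fun x => s(x.1, x.2) = s(a, b)) ⊆ {(a, b), (b, a)} := by
      rintro ⟨c, d⟩ hx
      rw [Finset.mem_filter] at hx
      have := hx.2
      simp only [Sym2.eq_iff] at this
      rcases this with ⟨rfl, rfl⟩ | ⟨rfl, rfl⟩ <;> simp
    exact (Finset.card_le_card this).trans Finset.card_le_two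
  have h2 : (P.image (fun x => s(x.1, x.2))).card ≤ (lightSet G g U).ncard := by
    rw [← Set.ncard_coe_finset]
    apply Set.ncard_le_ncard _ (Set.toFinite _)
    intro e he
    rw [Finset.coe_image] at he
    obtain ⟨⟨a, b⟩, hab, rfl⟩ := he
    rw [hP] at hab
    simp only [Finset.coe_filter, Finset.mem_product, Finset.mem_univ, true_and,
      Set.mem_ofPred_eq] at hab
    exact ⟨hab.2, a, by simp, hab.1.1, hab.1.2⟩
  have : P.card ≤ 2 * (lightSet G g U).ncard := h1.trans (by omega)
  exact_mod_cast this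

open Classical in
lemma split3 (g : V → Option (Fin r)) (w : V) (hw : g w = none) (F : V → ℝ) :
    ∑ v, F v = ∑ v, (if g v ≠ none then F v else 0) + F w +
      ∑ v, (if g v = none ∧ v ∉ ({w} : Finset V) then F v else 0) := by
  have h1 : F w = ∑ v, if v = w then F v else 0 := by
    rw [Finset.sum_ite_eq' Finset.univ w F]; simp
  rw [h1, ← Finset.sum_add_distrib, ← Finset.sum_add_distrib]
  apply Finset.sum_congr rfl
  intro v _
  by_cases hv : v = w
  · subst hv; simp [hw]
  · by_cases hg : g v = none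
    · simp [hg, hv]
    · simp [hg, hv]

open Classical in
/-- the eigenvalue equation at a core vertex -/
lemma core_eq (G : SimpleGraph V) (z : V → ℝ) (g : V → Option (Fin r)) (w v : V) (t : Fin r)
    (N l : ℝ) (hz0 : ∀ u, 0 ≤ z u) (hz2 : ∀ u, z u ≤ 2)
    (heig : ∑ u, adj G v u * z u = l * z v) (hind : Indep G g) (hw : g w = none)
    (hv : g v = some t) (h1 : ((missSet G g).ncard : ℝ) ≤ N)
    (h2 : ((lightSet G g {w}).ncard : ℝ) ≤ N) :
    |l * z v - (∑ u, (if g u ≠ none then z u else 0) - ∑ u, if g u = some t then z u else 0)|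
      ≤ 2 * N + 2 := by
  have hvn : g v ≠ none := by rw [hv]; simp
  rw [← heig, split3 g w hw (fun u => adj G v u * z u)]
  have e1 : ∑ u, (if g u ≠ none then adj G v u * z u else 0) =
      (∑ u, (if g u ≠ none then z u else 0) - ∑ u, if g u = some t then z u else 0) -
      ∑ u, if g u ≠ none ∧ g u ≠ g v ∧ ¬ G.Adj v u then z u else 0 := by
    rw [← Finset.sum_sub_distrib, ← Finset.sum_sub_distrib]
    apply Finset.sum_congr rfl
    intro u _
    by_cases hu : g u = none
    · simp [hu]
    · by_cases hu2 : g u = some t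
      · have : ¬ G.Adj v u := hind v u hvn (by rw [hv, hu2])
        simp [hu2, hv, adj, this]
      · by_cases hu3 : G.Adj v u
        · simp [hu, hu2, adj, hu3]
        · simp [hu, hu2, adj, hu3, hv]
  have e2 : 0 ≤ ∑ u, (if g u ≠ none ∧ g u ≠ g v ∧ ¬ G.Adj v u then z u else 0) :=
    Finset.sum_nonneg (fun u _ => by split_ifs; exacts [hz0 u, le_refl _])
  have e3 : ∑ u, (if g u ≠ none ∧ g u ≠ g v ∧ ¬ G.Adj v u then z u else 0) ≤ 2 * N := by
    calc _ ≤ ∑ u, 2 * (if g u ≠ none ∧ g u ≠ g v ∧ ¬ G.Adj v u then (1 : ℝ) else 0) := by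
            apply Finset.sum_le_sum
            intro u _
            split_ifs
            · linarith [hz2 u]
            · simp
      _ = 2 * ∑ u, (if g u ≠ none ∧ g u ≠ g v ∧ ¬ G.Adj v u then (1 : ℝ) else 0) := by
            rw [Finset.mul_sum]
      _ ≤ 2 * N := by linarith [miss_count G g v hvn]
  have e4 : 0 ≤ adj G v w * z w := mul_nonneg (adj_nonneg _ _ _) (hz0 w)
  have e5 : adj G v w * z w ≤ 2 := by
    have := mul_le_mul (adj_le_one G v w) (hz2 w) (hz0 w) (by norm_num)
    linarith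
  have e6 : 0 ≤ ∑ u, (if g u = none ∧ u ∉ ({w} : Finset V) then adj G v u * z u else 0) :=
    Finset.sum_nonneg (fun u _ => by
      split_ifs
      exacts [mul_nonneg (adj_nonneg _ _ _) (hz0 u), le_refl _])
  have e7 : ∑ u, (if g u = none ∧ u ∉ ({w} : Finset V) then adj G v u * z u else 0) ≤ 2 * N := by
    calc _ ≤ ∑ u, 2 * (if g u = none ∧ u ∉ ({w} : Finset V) then adj G v u else 0) := by
            apply Finset.sum_le_sum
            intro u _
            split_ifs
            · rw [mul_comm]; exact mul_le_mul_of_nonneg_right (hz2 u) (adj_nonneg G v u)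
            · simp
      _ = 2 * ∑ u, (if g u = none ∧ u ∉ ({w} : Finset V) then adj G v u else 0) := by
            rw [Finset.mul_sum]
      _ ≤ 2 * N := by linarith [light_count G g {w} v]
  rw [e1, abs_le]
  constructor <;> linarith

/-- solution of the two equations -/
lemma real1 (l σ T X z B : ℝ) (hl : 0 < l) (hσ : 0 ≤ σ) (hB : 0 ≤ B)
    (h1 : |l * X - σ * (T - X)| ≤ B * σ) (h2 : |l * z - (T - X)| ≤ B) :
    |z - T / (l + σ)| ≤ 2 * B / l := by
  have hls : 0 < l + σ := by linarith
  have e1 : l * z - l * (T / (l + σ)) = (l * z - (T - X)) -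
      (l * X - σ * (T - X)) / (l + σ) := by
    field_simp
    ring
  have h3 : |(l * X - σ * (T - X)) / (l + σ)| ≤ B := by
    rw [abs_div, abs_of_pos hls, div_le_iff₀ hls, mul_add]
    linarith [mul_nonneg hB hl.le]
  have h4 : |l * z - l * (T / (l + σ))| ≤ 2 * B := by
    rw [e1]
    calc _ ≤ |l * z - (T - X)| + |(l * X - σ * (T - X)) / (l + σ)| := abs_sub _ _
      _ ≤ 2 * B := by linarith
  rw [← mul_sub, abs_mul, abs_of_pos hl] at h4
  rw [le_div_iff₀ hl]
  linarith

lemma real2 (l σ τ T n M : ℝ) (hn : 0 < n) (hl : n / 2 ≤ l) (hσ : 0 ≤ σ) (hτ : 0 ≤ τ)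
    (hT0 : 0 ≤ T) (hT : T ≤ 2 * n) (hM : |σ - τ| ≤ M) :
    |T / (l + σ) - T / (l + τ)| ≤ 8 * M / n := by
  have hl0 : 0 < l := by linarith
  have h1 : 0 < l + σ := by linarith
  have h2 : 0 < l + τ := by linarith
  have e : T / (l + σ) - T / (l + τ) = T * (τ - σ) / ((l + σ) * (l + τ)) := by
    field_simp
    ring
  have hM0 : 0 ≤ M := (abs_nonneg _).trans hM
  rw [e, abs_div, abs_mul, abs_of_nonneg hT0, abs_of_pos (mul_pos h1 h2), abs_sub_comm,
    div_le_div_iff₀ (mul_pos h1 h2) hn]
  have h3 : n ^ 2 ≤ 4 * ((l + σ) * (l + τ)) := by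
    have : n / 2 * (n / 2) ≤ (l + σ) * (l + τ) :=
      mul_le_mul (by linarith) (by linarith) (by linarith) h1.le
    have e : n ^ 2 = 4 * (n / 2 * (n / 2)) := by ring
    rw [e]; linarith
  calc T * |σ - τ| * n ≤ (2 * n) * M * n := by
        apply mul_le_mul_of_nonneg_right _ hn.le
        exact mul_le_mul hT hM (abs_nonneg _) (by linarith)
    _ = 2 * M * n ^ 2 := by ring
    _ ≤ 2 * M * (4 * ((l + σ) * (l + τ))) := mul_le_mul_of_nonneg_left h3 (by linarith)
    _ = 8 * M * ((l + σ) * (l + τ)) := by ring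

lemma real3 (ζ c : ℝ) (h0 : 0 ≤ ζ) (h : |ζ ^ 2 - 1| ≤ c) : |ζ - 1| ≤ c := by
  have e : ζ ^ 2 - 1 = (ζ - 1) * (ζ + 1) := by ring
  rw [e, abs_mul, abs_of_nonneg (show 0 ≤ ζ + 1 by linarith)] at h
  rw [mul_add, mul_one] at h
  linarith [mul_nonneg (abs_nonneg (ζ - 1)) h0]

end FLAT

open FLAT in
open Classical in
theorem prfFLAT : P_statement → FLAT_statement := by
  intro _ r N C hr
  set q := qq r with hq
  have hr3 : (3 : ℝ) ≤ r := by exact_mod_cast hr
  have hq1 : (2 : ℝ) / 3 ≤ q := by
    have : 1 / (r : ℝ) ≤ 1 / 3 := one_div_le_one_div_of_le (by norm_num) hr3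
    rw [hq]; unfold qq; linarith
  have hq2 : q ≤ 1 := by
    have : 0 ≤ 1 / (r : ℝ) := by positivity
    rw [hq]; unfold qq; linarith
  set Nr : ℝ := (N : ℝ) with hNr
  have hN0 : 0 ≤ Nr := Nat.cast_nonneg _
  set Ca : ℝ := 16 * (Nr + 1) with hCa
  set Cc : ℝ := 6 * Ca + 4 + 16 * Nr + 6 * |C| with hCc
  set Cd : ℝ := Ca + Cc + 2 * Nr with hCd
  set C' : ℝ := Ca + Cc + 4 * Nr + 2 * Cd + 6 * |C| with hC'
  have hC0 : 0 ≤ |C| := abs_nonneg _
  have hCa0 : 0 ≤ Ca := by positivity
  have hCc0 : 0 ≤ Cc := by positivity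
  have hCd0 : 0 ≤ Cd := by positivity
  obtain ⟨n₁, hn₁⟩ := exists_nat_ge (100 * |C|)
  refine ⟨C', n₁ + 1, ?_⟩
  intro V _ G z g w n hn hzd hind hw hsiz hbd hz2 hm1 hm2
  set l := lam G with hl
  have hl0 : 0 < l := hzd.lpos
  have hz0 := hzd.nonneg
  have hnR : 100 * |C| ≤ (n : ℝ) := by
    have : (n₁ : ℝ) + 1 ≤ n := by exact_mod_cast hn
    linarith
  have hn1 : (1 : ℝ) ≤ n := by
    have : 1 ≤ n := by omega
    exact_mod_cast this
  have hn0 : (0 : ℝ) < n := by linarith
  set m : ℝ := (G.edgeSet.ncard : ℝ) with hmdef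
  have hCC : C ≤ |C| := le_abs_self C
  have hCn : C * n ≤ |C| * n := mul_le_mul_of_nonneg_right hCC hn0.le
  have hm1' : |2 * m - q * (n : ℝ) ^ 2| ≤ |C| * n := hm1.trans hCn
  have hm2' : |2 * q * m - l ^ 2| ≤ |C| * n := hm2.trans hCn
  -- size of l
  have hq0' : 0 ≤ q := by linarith
  have hqm : |l ^ 2 - q ^ 2 * (n : ℝ) ^ 2| ≤ 2 * |C| * n := by
    have e : l ^ 2 - q ^ 2 * (n : ℝ) ^ 2 =
        q * (2 * m - q * (n : ℝ) ^ 2) - (2 * q * m - l ^ 2) := by ring
    have h1 : |q * (2 * m - q * (n : ℝ) ^ 2)| ≤ |C| * n := by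
      rw [abs_mul, abs_of_nonneg hq0']
      calc q * |2 * m - q * (n : ℝ) ^ 2| ≤ 1 * (|C| * n) :=
            mul_le_mul hq2 hm1' (abs_nonneg _) (by norm_num)
        _ = |C| * n := one_mul _
    rw [e]
    calc _ ≤ |q * (2 * m - q * (n : ℝ) ^ 2)| + |2 * q * m - l ^ 2| := abs_sub _ _
      _ ≤ |C| * n + |C| * n := add_le_add h1 hm2'
      _ = 2 * |C| * n := by ring
  rw [abs_le] at hm1'
  have hlhalf : (n : ℝ) / 2 ≤ l := by
    have h1 : (4 : ℝ) / 9 * (n : ℝ) ^ 2 ≤ q ^ 2 * (n : ℝ) ^ 2 := by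
      apply mul_le_mul_of_nonneg_right _ (sq_nonneg _)
      calc (4 : ℝ) / 9 = (2 / 3) ^ 2 := by norm_num
        _ ≤ q ^ 2 := pow_le_pow_left₀ (by norm_num) hq1 2
    have h2 : 100 * |C| * n ≤ (n : ℝ) ^ 2 := by
      rw [sq]; exact mul_le_mul_of_nonneg_right hnR hn0.le
    have h3 : ((n : ℝ) / 2) ^ 2 ≤ l ^ 2 := by
      have := (abs_le.mp hqm).1
      have e : ((n : ℝ) / 2) ^ 2 = (n : ℝ) ^ 2 / 4 := by ring
      have h4 : (0 : ℝ) ≤ (n : ℝ) ^ 2 := sq_nonneg _
      rw [e]
      linarith
    exact (pow_le_pow_iff_left₀ (by positivity) hl0.le two_ne_zero).mp h3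
  have hlq : |l - q * n| ≤ 2 * |C| := by
    have hqn : 0 ≤ q * n := mul_nonneg hq0' hn0.le
    have hpos : 0 < l + q * n := by linarith
    have hge : (n : ℝ) ≤ l + q * n := by
      have := mul_le_mul_of_nonneg_right hq1 hn0.le
      linarith
    have e : l ^ 2 - q ^ 2 * (n : ℝ) ^ 2 = (l - q * n) * (l + q * n) := by ring
    rw [e, abs_mul, abs_of_pos hpos] at hqm
    have h1 : |l - q * n| * (l + q * n) ≤ 2 * |C| * (l + q * n) :=
      hqm.trans (mul_le_mul_of_nonneg_left hge (by linarith))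
    exact le_of_mul_le_mul_right h1 hpos
  have hlq' : |q * n - l| ≤ 2 * |C| := by rw [abs_sub_comm]; exact hlq
  have hmn : (missSet G g).ncard ≤ Nr := by
    have h1 : 0 ≤ dev (siz g) := Finset.sum_nonneg (fun _ _ => sq_nonneg _)
    have h2 : (0 : ℝ) ≤ ((lightSet G g {w}).ncard : ℝ) := Nat.cast_nonneg _
    linarith
  have hln : (lightSet G g {w}).ncard ≤ Nr := by
    have h1 : 0 ≤ dev (siz g) := Finset.sum_nonneg (fun _ _ => sq_nonneg _)
    have h2 : (0 : ℝ) ≤ ((missSet G g).ncard : ℝ) := Nat.cast_nonneg _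
    linarith
  have hdev : dev (siz g) ≤ Nr := by
    have h1 : (0 : ℝ) ≤ ((missSet G g).ncard : ℝ) := Nat.cast_nonneg _
    have h2 : (0 : ℝ) ≤ ((lightSet G g {w}).ncard : ℝ) := Nat.cast_nonneg _
    linarith
  have hsizR : (∑ t, (siz g t : ℝ)) = n := by exact_mod_cast hsiz
  have hdiff : ∀ t, |(siz g t : ℝ) - n / r| ≤ Nr + 1 := by
    intro t
    have h1 : ((siz g t : ℝ) - n / r) ^ 2 ≤ Nr := by
      calc ((siz g t : ℝ) - n / r) ^ 2 ≤ ∑ t, ((siz g t : ℝ) - n / r) ^ 2 :=
            Finset.single_le_sum (f := fun t => ((siz g t : ℝ) - n / r) ^ 2)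
              (fun _ _ => sq_nonneg _) (Finset.mem_univ t)
        _ = dev (siz g) := by unfold dev; rw [hsizR]
        _ ≤ Nr := hdev
    apply abs_le_of_sq_le_sq _ (by linarith)
    have e : (Nr + 1) ^ 2 = Nr ^ 2 + 2 * Nr + 1 := by ring
    rw [e]; linarith [sq_nonneg Nr]
  set T := ∑ u, (if g u ≠ none then z u else 0) with hT
  have hcount : ∑ u, (if g u ≠ none then (1 : ℝ) else 0) = n := by
    rw [← sum_cls g (fun _ => (1 : ℝ)), ← hsizR]
    exact Finset.sum_congr rfl (fun t _ => (siz_eq g t).symm)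
  have hT0 : 0 ≤ T := Finset.sum_nonneg (fun u _ => by split_ifs; exacts [hz0 u, le_refl _])
  have hT2 : T ≤ 2 * n := by
    rw [← hcount, hT, Finset.mul_sum]
    apply Finset.sum_le_sum
    intro u _
    split_ifs
    · linarith [hz2 u]
    · simp
  set B : ℝ := 2 * Nr + 2 with hB
  have hB0 : 0 ≤ B := by positivity
  set ζ : ℝ := T / (l + n / r) with hζ
  have hnr0 : 0 ≤ (n : ℝ) / r := by positivity
  have hζ0 : 0 ≤ ζ := by positivity
  have hζ4 : ζ ≤ 4 := by
    rw [hζ, div_le_iff₀ (by linarith)]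
    linarith
  have hcore : ∀ v, g v ≠ none → |z v - ζ| ≤ Ca / n := by
    intro v hv
    obtain ⟨t, ht⟩ := Option.ne_none_iff_exists'.mp hv
    set X := ∑ u, (if g u = some t then z u else 0) with hX
    have h1 : ∀ u, g u = some t → |l * z u - (T - X)| ≤ B := by
      intro u hu
      exact core_eq G z g w u t Nr l hz0 hz2 (hzd.eig u) hind hw hu hmn hln
    have h2 : |l * X - (siz g t : ℝ) * (T - X)| ≤ B * siz g t := by
      have e : l * X - (siz g t : ℝ) * (T - X) =
          ∑ u, if g u = some t then l * z u - (T - X) else 0 := by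
        rw [siz_eq, hX, Finset.mul_sum, Finset.sum_mul, ← Finset.sum_sub_distrib]
        apply Finset.sum_congr rfl
        intro u _
        split_ifs <;> ring
      rw [e, siz_eq, Finset.mul_sum]
      refine (Finset.abs_sum_le_sum_abs _ _).trans (Finset.sum_le_sum ?_)
      intro u _
      split_ifs with hu
      · rw [mul_one]; exact h1 u hu
      · simp
    have h3 := real1 l (siz g t) T X (z v) B hl0 (Nat.cast_nonneg _) hB0 h2 (h1 v ht)
    have h4 := real2 l (siz g t) (n / r) T n (Nr + 1) hn0 hlhalf (Nat.cast_nonneg _) hnr0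
      hT0 hT2 (hdiff t)
    have h5 : 2 * B / l ≤ 4 * B / n := by
      rw [div_le_div_iff₀ hl0 hn0]
      have := mul_le_mul_of_nonneg_left hlhalf (show 0 ≤ 4 * B by positivity)
      linarith
    calc |z v - ζ| ≤ |z v - T / (l + siz g t)| + |T / (l + siz g t) - ζ| := abs_sub_le _ _ _
      _ ≤ 2 * B / l + 8 * (Nr + 1) / n := add_le_add h3 h4
      _ ≤ 4 * B / n + 8 * (Nr + 1) / n := by linarith
      _ = Ca / n := by rw [hCa, hB]; field_simp; ring
  -- the light vertices
  have hlight : ∀ v, g v = none → v ≠ w → l * z v ≤ 2 * ∑ u, adj G v u := by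
    intro v _ _
    rw [← hzd.eig v, Finset.mul_sum]
    apply Finset.sum_le_sum
    intro u _
    rw [mul_comm]; exact mul_le_mul_of_nonneg_right (hz2 u) (adj_nonneg G v u)
  have hlight1 : ∀ v, g v = none → v ≠ w → z v ≤ 4 * Nr / n := by
    intro v hv hvw
    have h1 := hlight v hv hvw
    have h2 := light_deg G g {w} v hv (by simpa using hvw)
    rw [le_div_iff₀ hn0]
    have := mul_le_mul_of_nonneg_left hlhalf (hz0 v)
    linarith
  have hlight2 : ∑ v, (if g v = none ∧ v ∉ ({w} : Finset V) then z v ^ 2 else 0) ≤ 16 * Nr := by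
    have h1 : l * ∑ v, (if g v = none ∧ v ∉ ({w} : Finset V) then z v ^ 2 else 0) ≤ 8 * Nr := by
      calc _ = ∑ v, (if g v = none ∧ v ∉ ({w} : Finset V) then l * z v ^ 2 else 0) := by
              rw [Finset.mul_sum]
              apply Finset.sum_congr rfl
              intro v _
              split_ifs <;> simp
        _ ≤ ∑ v, 4 * (if g v = none ∧ v ∉ ({w} : Finset V) then ∑ u, adj G v u else 0) := by
              apply Finset.sum_le_sum
              intro v _
              split_ifs with hv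
              · have := hlight v hv.1 (by simpa using hv.2)
                have h2 : l * z v ^ 2 ≤ 2 * (l * z v) := by
                  have := mul_le_mul_of_nonneg_left (hz2 v) (mul_nonneg hl0.le (hz0 v))
                  linarith [show l * z v ^ 2 = l * z v * z v by ring]
                linarith
              · simp
        _ = 4 * ∑ v, (if g v = none ∧ v ∉ ({w} : Finset V) then ∑ u, adj G v u else 0) := by
              rw [Finset.mul_sum]
        _ ≤ 8 * Nr := by linarith [light_sum G g {w}]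
    have h2 : (0 : ℝ) ≤ ∑ v, (if g v = none ∧ v ∉ ({w} : Finset V) then z v ^ 2 else 0) :=
      Finset.sum_nonneg (fun v _ => by split_ifs; exacts [sq_nonneg _, le_refl _])
    have h3 := mul_le_mul_of_nonneg_right hlhalf h2
    have h4 := mul_le_mul_of_nonneg_right hn1 h2
    linarith
  have hlight3 : 0 ≤ ∑ v, (if g v = none ∧ v ∉ ({w} : Finset V) then z v ^ 2 else 0) :=
    Finset.sum_nonneg (fun v _ => by split_ifs; exacts [sq_nonneg _, le_refl _])
  -- the norm
  have hnorm1 : |∑ v, (if g v ≠ none then z v ^ 2 else 0) - n * ζ ^ 2| ≤ 6 * Ca := by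
    have e : ∑ v, (if g v ≠ none then z v ^ 2 else 0) - n * ζ ^ 2 =
        ∑ v, if g v ≠ none then z v ^ 2 - ζ ^ 2 else 0 := by
      rw [← hcount, Finset.sum_mul, ← Finset.sum_sub_distrib]
      apply Finset.sum_congr rfl
      intro v _
      split_ifs <;> ring
    have e2 : 6 * Ca = ∑ u, (if g u ≠ none then (1 : ℝ) else 0) * (6 * Ca / n) := by
      rw [← Finset.sum_mul, hcount]
      field_simp
    rw [e, e2]
    refine (Finset.abs_sum_le_sum_abs _ _).trans (Finset.sum_le_sum ?_)
    intro v _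
    split_ifs with hv
    · have e3 : z v ^ 2 - ζ ^ 2 = (z v - ζ) * (z v + ζ) := by ring
      have h1 : |z v + ζ| ≤ 6 := by
        rw [abs_of_nonneg (by linarith [hz0 v])]
        linarith [hz2 v]
      rw [e3, abs_mul, one_mul]
      calc |z v - ζ| * |z v + ζ| ≤ (Ca / n) * 6 :=
            mul_le_mul (hcore v hv) h1 (abs_nonneg _) (by positivity)
        _ = 6 * Ca / n := by ring
    · simp
  have hnorm2 : |n * ζ ^ 2 - 2 * m / l| ≤ 6 * Ca + 4 + 16 * Nr := by
    have h1 : 2 * m / l = ∑ v, z v ^ 2 := by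
      rw [div_eq_iff hl0.ne', hmdef, ← hzd.norm, mul_comm]
    rw [h1, split3 g w hw (fun v => z v ^ 2)]
    rw [abs_le] at hnorm1 ⊢
    have h2 : z w ^ 2 ≤ 4 := by
      have := pow_le_pow_left₀ (hz0 w) (hz2 w) 2
      linarith
    have h3 : 0 ≤ z w ^ 2 := sq_nonneg _
    constructor <;> linarith [hnorm1.1, hnorm1.2]
  have hnorm3 : |2 * m / l - n| ≤ 6 * |C| := by
    have h1 : |2 * m - l * n| ≤ 3 * |C| * n := by
      have e : 2 * m - l * n = (2 * m - q * (n : ℝ) ^ 2) + (q * n - l) * n := by ring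
      rw [e]
      calc _ ≤ |2 * m - q * (n : ℝ) ^ 2| + |(q * n - l) * n| := abs_add_le _ _
        _ ≤ |C| * n + 2 * |C| * n := by
            apply add_le_add (abs_le.mpr hm1')
            rw [abs_mul, abs_of_pos hn0]
            exact mul_le_mul_of_nonneg_right hlq' hn0.le
        _ = 3 * |C| * n := by ring
    have e : 2 * m / l - n = (2 * m - l * n) / l := by field_simp
    rw [e, abs_div, abs_of_pos hl0, div_le_iff₀ hl0]
    have := mul_le_mul_of_nonneg_left hlhalf (show 0 ≤ 6 * |C| by positivity)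
    linarith
  have hζ1 : |ζ - 1| ≤ Cc / n := by
    apply real3 _ _ hζ0
    have h1 : |n * (ζ ^ 2 - 1)| ≤ Cc := by
      have e : n * (ζ ^ 2 - 1) = (n * ζ ^ 2 - 2 * m / l) + (2 * m / l - n) := by ring
      rw [e]
      calc _ ≤ |n * ζ ^ 2 - 2 * m / l| + |2 * m / l - n| := abs_add_le _ _
        _ ≤ Cc := by rw [hCc]; linarith
    rw [abs_mul, abs_of_pos hn0] at h1
    rw [le_div_iff₀ hn0]
    linarith
  have hcore1 : ∀ v, g v ≠ none → |z v - 1| ≤ (Ca + Cc) / n := by
    intro v hv
    calc |z v - 1| ≤ |z v - ζ| + |ζ - 1| := abs_sub_le _ _ _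
      _ ≤ Ca / n + Cc / n := add_le_add (hcore v hv) hζ1
      _ = (Ca + Cc) / n := by ring
  refine ⟨?_, ?_, ?_⟩
  · intro v hv
    refine (hcore1 v hv).trans (div_le_div_of_nonneg_right ?_ hn0.le)
    rw [hC']; linarith
  · intro v hv hvw
    refine (hlight1 v hv hvw).trans (div_le_div_of_nonneg_right ?_ hn0.le)
    rw [hC']; linarith
  · -- the vertex w
    have hd : ((∑ t, nbn G g w t : ℕ) : ℝ) = ∑ v, if g v ≠ none then adj G w v else 0 := by
      push_cast
      rw [← sum_cls g (fun v => adj G w v)]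
      exact Finset.sum_congr rfl (fun t _ => nbn_eq G g w t)
    set d : ℝ := ((∑ t, nbn G g w t : ℕ) : ℝ) with hdd
    have hd0 : 0 ≤ d := Nat.cast_nonneg _
    have hdn : d ≤ n := by
      rw [hd, ← hcount]
      apply Finset.sum_le_sum
      intro v _
      split_ifs
      · exact adj_le_one G w v
      · exact le_refl _
    have h1 : |l * z w - d| ≤ Cd := by
      rw [← hzd.eig w, split3 g w hw (fun u => adj G w u * z u), hd]
      have e0 : adj G w w * z w = 0 := by simp [adj]
      have e1 : |∑ v, (if g v ≠ none then adj G w v * z v else 0) -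
          ∑ v, (if g v ≠ none then adj G w v else 0)| ≤ Ca + Cc := by
        rw [← Finset.sum_sub_distrib]
        have e2 : Ca + Cc = ∑ u, (if g u ≠ none then (1 : ℝ) else 0) * ((Ca + Cc) / n) := by
          rw [← Finset.sum_mul, hcount]
          field_simp
        rw [e2]
        refine (Finset.abs_sum_le_sum_abs _ _).trans (Finset.sum_le_sum ?_)
        intro v _
        split_ifs with hv
        · have e3 : adj G w v * z v - adj G w v = adj G w v * (z v - 1) := by ring
          rw [e3, abs_mul, abs_of_nonneg (adj_nonneg G w v)]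
          exact mul_le_mul (adj_le_one G w v) (hcore1 v hv) (abs_nonneg _) (by norm_num)
        · simp
      have e3 : 0 ≤ ∑ v, (if g v = none ∧ v ∉ ({w} : Finset V) then adj G w v * z v else 0) :=
        Finset.sum_nonneg (fun v _ => by
          split_ifs
          exacts [mul_nonneg (adj_nonneg _ _ _) (hz0 v), le_refl _])
      have e4 : ∑ v, (if g v = none ∧ v ∉ ({w} : Finset V) then adj G w v * z v else 0) ≤
          2 * Nr := by
        calc _ ≤ ∑ u, 2 * (if g u = none ∧ u ∉ ({w} : Finset V) then adj G w u else 0) := by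
                apply Finset.sum_le_sum
                intro u _
                split_ifs
                · rw [mul_comm]; exact mul_le_mul_of_nonneg_right (hz2 u) (adj_nonneg G w u)
                · simp
          _ = 2 * ∑ u, (if g u = none ∧ u ∉ ({w} : Finset V) then adj G w u else 0) := by
                rw [Finset.mul_sum]
          _ ≤ 2 * Nr := by linarith [light_count G g {w} w]
      rw [e0]
      rw [abs_le] at e1 ⊢
      rw [hCd]
      constructor <;> linarith [e1.1, e1.2]
    have h2 : |z w - d / l| ≤ 2 * Cd / n := by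
      have e : z w - d / l = (l * z w - d) / l := by field_simp
      rw [e, abs_div, abs_of_pos hl0, div_le_div_iff₀ hl0 hn0]
      have h5 := mul_le_mul_of_nonneg_right h1 hn0.le
      have h6 := mul_le_mul_of_nonneg_left hlhalf (show 0 ≤ 2 * Cd by positivity)
      linarith
    have hq0 : 0 < q := by linarith
    have h3 : |d / l - d / (q * n)| ≤ 6 * |C| / n := by
      have hqn : 0 < q * n := mul_pos hq0 hn0
      have e : d / l - d / (q * n) = d * (q * n - l) / (l * (q * n)) := by
        field_simp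
      rw [e, abs_div, abs_mul, abs_of_nonneg hd0, abs_of_pos (mul_pos hl0 hqn),
        div_le_div_iff₀ (mul_pos hl0 hqn) hn0]
      have h4 : (n : ℝ) ^ 2 ≤ 3 * (l * (q * n)) := by
        have : (n : ℝ) / 2 * (2 / 3 * n) ≤ l * (q * n) :=
          mul_le_mul hlhalf (mul_le_mul_of_nonneg_right hq1 hn0.le) (by positivity) hl0.le
        have e : (n : ℝ) ^ 2 = 3 * ((n : ℝ) / 2 * (2 / 3 * n)) := by ring
        rw [e]; linarith
      calc d * |q * n - l| * n ≤ n * (2 * |C|) * n := by
            apply mul_le_mul_of_nonneg_right _ hn0.le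
            exact mul_le_mul hdn hlq' (abs_nonneg _) hn0.le
        _ = 2 * |C| * (n : ℝ) ^ 2 := by ring
        _ ≤ 2 * |C| * (3 * (l * (q * n))) := mul_le_mul_of_nonneg_left h4 (by positivity)
        _ = 6 * |C| * (l * (q * n)) := by ring
    calc |z w - d / (q * n)| ≤ |z w - d / l| + |d / l - d / (q * n)| := abs_sub_le _ _ _
      _ ≤ 2 * Cd / n + 6 * |C| / n := add_le_add h2 h3
      _ = (2 * Cd + 6 * |C|) / n := by ring
      _ ≤ C' / n := by
          apply div_le_div_of_nonneg_right _ hn0.le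
          rw [hC']; linarith

end MP0c3a8f
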