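import Pool.Agent.Work.MP_0c3a8f_co.PB.Stmts

set_option autoImplicit false

open Finset

namespace MP0c3a8f

namespace GAP2aux

lemma sum_core {V : Type} [Fintype V] {r : ℕ} (f : V → Option (Fin r)) (F : V → ℝ) :
    ∑ t : Fin r, ∑ y, (if f y = some t then F y else 0) =
      ∑ y, if f y ≠ none then F y else 0 := by
  rw [Finset.sum_comm]
  apply Finset.sum_congr rfl
  intro y _
  rcases h : f y with _ | s
  · simp
  · simp

open Classical in
lemma nbn_eq {V : Type} [Fintype V] {r : ℕ} (G : SimpleGraph V) (f : V → Option (Fin r)) (w : V)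
    (t : Fin r) : (nbn G f w t : ℝ) =
      ∑ y, if f y = some t then (if G.Adj w y then (1 : ℝ) else 0) else 0 := by
  unfold nbn
  rw [Set.ncard_eq_toFinset_card' ]
  rw [Finset.card_eq_sum_ones]
  push_cast
  rw [show ({v | f v = some t ∧ G.Adj w v} : Set V).toFinset =
    Finset.univ.filter (fun v => f v = some t ∧ G.Adj w v) by ext; simp]
  rw [Finset.sum_filter]
  apply Finset.sum_congr rfl
  intro y _
  by_cases h1 : f y = some t <;> by_cases h2 : G.Adj w y <;> simp [h1, h2]

open Classical in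
lemma nbn_le_siz {V : Type} [Fintype V] {r : ℕ} (G : SimpleGraph V) (f : V → Option (Fin r)) (w : V)
    (t : Fin r) : nbn G f w t ≤ siz f t := by
  unfold nbn siz
  apply Set.ncard_le_ncard _ (Set.toFinite _)
  intro y hy
  exact hy.1

lemma div_bounds {n r : ℕ} (hr : 3 ≤ r) (s : ℕ) (h : n / r ≤ s ∧ s ≤ n / r + 1) :
    (n : ℝ) / r - 1 ≤ s ∧ (s : ℝ) ≤ (n : ℝ) / r + 1 := by
  have hr0 : (0 : ℝ) < r := by positivity
  have h1 : ((n / r : ℕ) : ℝ) ≤ (n : ℝ) / r := Nat.cast_div_le
  have h2 : (n : ℝ) / r - 1 ≤ ((n / r : ℕ) : ℝ) := by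
    have : n < (n / r + 1) * r := by
      have := Nat.lt_div_mul_add (a := n) (b := r) (by omega)
      nlinarith
    have h3 : (n : ℝ) < (((n / r : ℕ) : ℝ) + 1) * r := by exact_mod_cast this
    rw [sub_le_iff_le_add, div_le_iff₀ hr0]
    exact h3.le
  constructor
  · have : ((n / r : ℕ) : ℝ) ≤ s := by exact_mod_cast h.1
    linarith
  · have : (s : ℝ) ≤ ((n / r : ℕ) : ℝ) + 1 := by exact_mod_cast h.2
    linarith

/-- the gap inequality in scaled variables -/
lemma gap_scaled {ρ W U lam' A s c : ℝ} (hρ0 : 0 < ρ) (hρ : ρ ≤ 1 / 3) (hW0 : 0 ≤ W)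
    (hU0 : 0 ≤ U) (hU : U ≤ 1) (hW : W ≤ (1 - 2 * ρ) + 12 / 1000) (hl : (1 - ρ) - 1 / 1000 ≤ lam')
    (hA : A ≤ 1 + 1 / 1000) (hA0 : 0 ≤ A)
    (hc0 : 0 ≤ c) (hc : c ≤ 1 / 1000) (hs : s ≤ ρ + 1 / 1000) (hs0 : 0 ≤ s) :
    (A + c) * (s * W + U * c + A / 2) ≤ lam' := by
  have h1 : s * W ≤ (ρ + 1 / 1000) * ((1 - 2 * ρ) + 12 / 1000) := by
    apply mul_le_mul hs hW hW0 (by linarith)
  have h2 : U * c ≤ 1 / 1000 := by nlinarith
  have h3 : s * W + U * c + A / 2 ≤
      (ρ + 1 / 1000) * ((1 - 2 * ρ) + 12 / 1000) + 1 / 1000 + (1 + 1 / 1000) / 2 := by linarith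
  have h4 : 0 ≤ s * W + U * c + A / 2 := by positivity
  calc (A + c) * (s * W + U * c + A / 2)
      ≤ (1 + 2 / 1000) * ((ρ + 1 / 1000) * ((1 - 2 * ρ) + 12 / 1000) + 1 / 1000
        + (1 + 1 / 1000) / 2) := by
        apply mul_le_mul (by linarith) h3 h4 (by norm_num)
    _ ≤ (1 - ρ) - 1 / 1000 := by nlinarith
    _ ≤ lam' := hl

/-- all the estimates which follow from the equations -/
lemma est {r : ℕ} (hr : 3 ≤ r) {N l T xw xu d ε : ℝ} {σ a X e : Fin r → ℝ}
    (hN : 100000 * (r : ℝ) ≤ N) (hNε : 200 * (r : ℝ) ≤ ε * N) (hε : 0 < ε)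
    (hT : 0 < T) (hTX : ∑ t, X t = T) (hX : ∀ t, 0 ≤ X t)
    (hσ : ∀ t, N / r - 1 ≤ σ t ∧ σ t ≤ N / r + 1) (hσN : ∑ t, σ t = N)
    (ha : ∀ t, 0 ≤ a t ∧ a t ≤ σ t) (had : ∑ t, a t = d) (he : ∀ t, 0 ≤ e t ∧ e t ≤ 1)
    (hxw : 0 ≤ xw) (hxu : 0 ≤ xu)
    (hd1 : ε * N ≤ d) (hd2 : d ≤ (1 - 2 / (r : ℝ)) * ((1 - 1 / (r : ℝ)) * N) + 1)
    (E2 : ∀ t, l * X t = σ t * (T - X t) + a t * xw + e t * xu)
    (E3 : l * xw ≤ T + xu) (E4 : l * xu ≤ xw + T)
    (E3' : ∀ M, (∀ t, ∀ z, 0 ≤ z → l * z ≤ (T - X t) + xw + xu → z ≤ M) → l * xw ≤ d * M + xu)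
    (E3'' : ∀ m, (∀ t, ∀ z, 0 ≤ z → (T - X t) ≤ l * z → m ≤ z) → d * m ≤ l * xw)
    (E4' : ∀ M, (∀ t, ∀ z, 0 ≤ z → l * z ≤ (T - X t) + xw + xu → z ≤ M) → l * xu ≤ xw + r * M) :
    N / 2 ≤ l ∧ 0 < xw ∧ xu < xw ∧ xu ≤ T / (4 * N) ∧
    (∀ t, ∀ z, 0 ≤ z → l * z ≤ (T - X t) + xw + xu → z ≤ 2 * T / N) ∧
    ∀ k m, σ k = σ m + 1 → T / (2 * N) ≤ X k - X m := by
  have hR : (3 : ℝ) ≤ r := by exact_mod_cast hr
  have hR0 : (0 : ℝ) < r := by linarith
  have hN0 : 0 < N := by linarith
  set ρ : ℝ := 1 / (r : ℝ) with hρ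
  have hρ0 : 0 < ρ := by positivity
  have hρ3 : ρ ≤ 1 / 3 := by
    rw [hρ]; exact one_div_le_one_div_of_le (by norm_num) hR
  have hρr : ρ * r = 1 := by rw [hρ]; field_simp
  have hNr : N / r = ρ * N := by rw [hρ]; field_simp
  have h2r : 2 / (r : ℝ) = 2 * ρ := by rw [hρ]; ring
  rw [hNr] at hσ
  rw [h2r] at hd2
  have hXT : ∀ t, X t ≤ T := fun t => by
    rw [← hTX]; exact Finset.single_le_sum (fun s _ => hX s) (Finset.mem_univ t)
  -- (L1)
  have hL0 : ∀ t, (ρ * N - 1) * T ≤ X t * (l + (ρ * N - 1)) := by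
    intro t
    have h1 := E2 t
    have h2 := (hσ t).1
    have h3 : 0 ≤ a t * xw := mul_nonneg (ha t).1 hxw
    have h4 : 0 ≤ e t * xu := mul_nonneg (he t).1 hxu
    have h5 := mul_nonneg (sub_nonneg.2 h2) (sub_nonneg.2 (hXT t))
    linarith [mul_comm (X t) l, h5, h1, h3, h4]
  have hL1 : r * (ρ * N - 1) ≤ l + (ρ * N - 1) := by
    have h1 : ∑ t : Fin r, (ρ * N - 1) * T ≤ ∑ t, X t * (l + (ρ * N - 1)) :=
      Finset.sum_le_sum (fun t _ => hL0 t)
    rw [Finset.sum_const, Finset.card_univ, Fintype.card_fin,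
      nsmul_eq_mul, ← Finset.sum_mul, hTX] at h1
    have h2 : T * (r * (ρ * N - 1)) ≤ T * (l + (ρ * N - 1)) := by linarith
    exact le_of_mul_le_mul_left h2 hT
  have hL1' : N - r ≤ l + (ρ * N - 1) := by
    have : r * (ρ * N - 1) = N - r := by
      have : r * (ρ * N - 1) = (ρ * r) * N - r := by ring
      rw [this, hρr]; ring
    linarith
  -- (L2)
  have hρN : ρ * N ≤ N / 3 := by
    have := mul_le_mul_of_nonneg_right hρ3 hN0.le
    linarith
  have hρN0 : 0 < ρ * N := by positivity
  have hl2 : N / 2 ≤ l := by linarith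
  have hlq : (1 - ρ) * N - r ≤ l := by linarith
  have hlpos : 0 < l := by linarith
  -- (L3)
  have hwu : N * (xw + xu) ≤ 8 * T := by
    have h1 : (N / 4) * (xw + xu) ≤ (l - 1) * (xw + xu) :=
      mul_le_mul_of_nonneg_right (by linarith) (by linarith)
    linarith
  have hNxw : N * xw ≤ 8 * T := by
    have := mul_nonneg hN0.le hxu
    linarith
  have hNxu : N * xu ≤ 8 * T := by
    have := mul_nonneg hN0.le hxw
    linarith
  -- (L4)
  have hL4 : ∀ t, ∀ z, 0 ≤ z → l * z ≤ (T - X t) + xw + xu → z ≤ (1 + 2 / 1000) * T / N := by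
    intro t z hz h
    have h1 := hL0 t
    have h2 : (T - X t) * (l + (ρ * N - 1)) ≤ T * l := by linarith
    have hA : 0 < l + (ρ * N - 1) := by linarith
    have h3 : l * z * (l + (ρ * N - 1)) ≤ T * l + (xw + xu) * (l + (ρ * N - 1)) := by
      have := mul_le_mul_of_nonneg_right h hA.le
      linarith
    -- divide by `l + ..`
    have h4 : l * z ≤ T * l / (N - r) + (xw + xu) := by
      have hNr0 : 0 < N - r := by linarith
      have h5 : T * l / (l + (ρ * N - 1)) ≤ T * l / (N - r) :=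
        div_le_div_of_nonneg_left (by positivity) hNr0 hL1'
      have h6 : l * z ≤ T * l / (l + (ρ * N - 1)) + (xw + xu) := by
        rw [div_add' _ _ _ hA.ne', le_div_iff₀ hA]
        linarith
      linarith
    have h7 : T * l / (N - r) ≤ (1 + 1 / 1000) * T * l / N := by
      have hNr0 : 0 < N - r := by linarith
      rw [div_le_div_iff₀ hNr0 hN0]
      have : N ≤ (1 + 1 / 1000) * (N - r) := by linarith
      calc T * l * N ≤ T * l * ((1 + 1 / 1000) * (N - r)) :=
            mul_le_mul_of_nonneg_left this (by positivity)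
        _ = (1 + 1 / 1000) * T * l * (N - r) := by ring
    have h8 : xw + xu ≤ (1 / 1000) * T * l / N := by
      rw [le_div_iff₀ hN0]
      have : T * 16000 ≤ T * l := mul_le_mul_of_nonneg_left (by linarith) hT.le
      linarith
    have h9 : l * z ≤ l * ((1 + 2 / 1000) * T / N) := by
      have : l * ((1 + 2 / 1000) * T / N) = (1 + 1 / 1000) * T * l / N + (1 / 1000) * T * l / N := by
        ring
      linarith
    exact le_of_mul_le_mul_left h9 hlpos
  have hL4' : ∀ t, ∀ z, 0 ≤ z → l * z ≤ (T - X t) + xw + xu → z ≤ 2 * T / N := by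
    intro t z hz h
    refine (hL4 t z hz h).trans ?_
    gcongr
    norm_num
  -- (L5)
  have hL5 : N * N * xu ≤ (16 + 4 * r) * T := by
    have h1 := E4' _ hL4'
    have h2 : N * (l * xu) ≤ N * xw + r * (2 * T) := by
      calc N * (l * xu) ≤ N * (xw + r * (2 * T / N)) := mul_le_mul_of_nonneg_left h1 hN0.le
        _ = N * xw + r * (2 * T) := by field_simp
    have h3 : N * (N / 2 * xu) ≤ N * (l * xu) :=
      mul_le_mul_of_nonneg_left (mul_le_mul_of_nonneg_right hl2 hxu) hN0.le
    linarith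
  have hL5' : N * xu ≤ (1 / 1000) * T := by
    have h1 : (16 + 4 * r) ≤ (1 / 1000) * N := by linarith
    have h2 : N * (N * xu) ≤ N * ((1 / 1000) * T) := by
      have := mul_le_mul_of_nonneg_right h1 hT.le
      linarith
    exact le_of_mul_le_mul_left h2 hN0
  -- (L6)
  have hdN : d ≤ N := by
    rw [← had, ← hσN]; exact Finset.sum_le_sum (fun t _ => (ha t).2)
  have hd0 : 0 ≤ d := by rw [← had]; exact Finset.sum_nonneg (fun t _ => (ha t).1)
  have hL6 : l ≤ (1 - ρ) * N + 10 := by
    have h1 : ∑ t, l * X t ≤ ∑ t, (σ t * T - (ρ * N - 1) * X t + a t * xw + xu) := by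
      apply Finset.sum_le_sum
      intro t _
      rw [E2 t]
      have h2 := (hσ t).1
      have h3 := mul_nonneg (sub_nonneg.2 h2) (hX t)
      have h4 := mul_le_mul_of_nonneg_right (he t).2 hxu
      linarith
    rw [← Finset.mul_sum, hTX, Finset.sum_add_distrib, Finset.sum_add_distrib,
      Finset.sum_sub_distrib, ← Finset.sum_mul, ← Finset.sum_mul, ← Finset.mul_sum, hσN, hTX, had,
      Finset.sum_const, Finset.card_univ, Fintype.card_fin, nsmul_eq_mul] at h1
    have h2 : d * xw ≤ N * xw := mul_le_mul_of_nonneg_right hdN hxw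
    have h3 : r * xu ≤ N * xu := mul_le_mul_of_nonneg_right (by linarith) hxu
    have h4 : T * l ≤ T * ((1 - ρ) * N + 10) := by linarith
    exact le_of_mul_le_mul_left h4 hT
  -- (L7)
  have hL7 : ∀ t, T / 2 ≤ T - X t := by
    intro t
    have h1 := E2 t
    have h2 := (hσ t).2
    have h3 : a t * xw ≤ 8 * T := by
      have : a t ≤ N := by
        refine le_trans ?_ hdN
        rw [← had]; exact Finset.single_le_sum (fun s _ => (ha s).1) (Finset.mem_univ t)
      have := mul_le_mul_of_nonneg_right this hxw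
      linarith
    have h4 : e t * xu ≤ T := by
      have : e t * xu ≤ 1 * xu := mul_le_mul_of_nonneg_right (he t).2 hxu
      have : 1 * xu ≤ N * xu := mul_le_mul_of_nonneg_right (by linarith) hxu
      linarith
    have hs0 : 0 ≤ σ t := (ha t).1.trans (ha t).2
    have h5 : X t * (l + σ t) ≤ T * (σ t + 9) := by linarith
    have h6 : σ t + 18 ≤ l := by linarith
    have h7 : T * (σ t + 9) ≤ T / 2 * (l + σ t) := by
      have := mul_le_mul_of_nonneg_left h6 hT.le
      linarith
    have h8 : X t * (l + σ t) ≤ T / 2 * (l + σ t) := h5.trans h7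
    have := le_of_mul_le_mul_right h8 (by linarith)
    linarith
  -- (L8)
  have hL8 : ∀ t, ∀ z, 0 ≤ z → (T - X t) ≤ l * z → T / (4 * N) ≤ z := by
    intro t z hz h
    rw [div_le_iff₀ (by positivity)]
    have h1 := hL7 t
    have h2 : l ≤ 2 * N := by linarith
    have h3 := mul_le_mul_of_nonneg_right h2 hz
    linarith
  -- (L9)
  have hL9 : ε * T / 8 ≤ N * xw := by
    have h1 := E3'' _ hL8
    have h2 : l ≤ 2 * N := by linarith
    have h3 : ε * N * (T / (4 * N)) ≤ d * (T / (4 * N)) :=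
      mul_le_mul_of_nonneg_right hd1 (by positivity)
    have h4 : ε * N * (T / (4 * N)) = ε * T / 4 := by field_simp
    have h5 : l * xw ≤ 2 * N * xw := mul_le_mul_of_nonneg_right h2 hxw
    linarith
  have hwpos : 0 < xw := by
    have : 0 < ε * T / 8 := by positivity
    exact pos_of_mul_pos_right (this.trans_le hL9) hN0.le
  have huw : xu < xw := by
    have h1 : N * (N * xu) < N * (N * xw) := by
      have h2 : N * (N * xu) ≤ (16 + 4 * r) * T := by linarith
      have h3 : (16 + 4 * r) * T < N * (ε * T / 8) := by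
        have h4 : (16 + 4 * (r : ℝ)) < ε * N / 8 := by linarith
        have h5 : N * (ε * T / 8) = (ε * N / 8) * T := by ring
        rw [h5]
        exact mul_lt_mul_of_pos_right h4 hT
      have h6 : N * (ε * T / 8) ≤ N * (N * xw) := mul_le_mul_of_nonneg_left hL9 hN0.le
      linarith
    exact lt_of_mul_lt_mul_left (lt_of_mul_lt_mul_left h1 hN0.le) hN0.le
  have hu4 : xu ≤ T / (4 * N) := by
    rw [le_div_iff₀ (by positivity)]
    linarith
  -- (L10)
  obtain ⟨W, hW⟩ : ∃ W, W = N * xw / T := ⟨_, rfl⟩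
  obtain ⟨U, hU⟩ : ∃ U, U = N * xu / T := ⟨_, rfl⟩
  have hWT : N * xw = W * T := by rw [hW]; field_simp
  have hUT : N * xu = U * T := by rw [hU]; field_simp
  have hW0 : 0 ≤ W := by rw [hW]; positivity
  have hU0 : 0 ≤ U := by rw [hU]; positivity
  have hW8 : W ≤ 8 := by rw [hW, div_le_iff₀ hT]; exact hNxw
  have hU1 : U ≤ 1 / 1000 := by rw [hU, div_le_iff₀ hT]; exact hL5'
  have hWup : W ≤ (1 - 2 * ρ) + 12 / 1000 := by
    have h1 := E3' _ hL4
    have h2 : l * (N * xw) ≤ d * ((1 + 2 / 1000) * T) + N * xu := by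
      have h3 : N * (l * xw) ≤ N * (d * ((1 + 2 / 1000) * T / N) + xu) :=
        mul_le_mul_of_nonneg_left h1 hN0.le
      have h4 : N * (d * ((1 + 2 / 1000) * T / N) + xu) = d * ((1 + 2 / 1000) * T) + N * xu := by
        field_simp
      linarith
    rw [hWT, hUT] at h2
    have h3 : T * (l * W) ≤ T * (d * (1 + 2 / 1000) + U) := by linarith
    have h4 : l * W ≤ d * (1 + 2 / 1000) + U := le_of_mul_le_mul_left h3 hT
    have h5 : ((1 - ρ) * N - r) * W ≤ l * W := mul_le_mul_of_nonneg_right hlq hW0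
    have h6 : ((1 - ρ) * N) * W ≤ ((1 - 2 * ρ) * ((1 - ρ) * N) + 1) * (1 + 2 / 1000) + 1
        + 8 * r := by
      have h7 := mul_le_mul_of_nonneg_left hW8 hR0.le
      linarith
    set Q := (1 - ρ) * N with hQ
    have hQ0 : 60000 * (r : ℝ) ≤ Q := by linarith
    have h7 : Q * W ≤ Q * ((1 - 2 * ρ) + 12 / 1000) := by
      have := mul_nonneg hρ0.le (by linarith : (0 : ℝ) ≤ Q)
      linarith
    exact le_of_mul_le_mul_left h7 (by linarith)
  refine ⟨hl2, hwpos, huw, hu4, hL4', ?_⟩
  -- (L11)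
  intro k m hkm
  set A := l + σ m with hA
  have hs0 : 0 ≤ σ m := (ha m).1.trans (ha m).2
  have hA0 : 0 < A := by linarith
  have hk : σ k * T ≤ X k * (A + 1) := by
    have h1 := E2 k
    have h3 : 0 ≤ a k * xw := mul_nonneg (ha k).1 hxw
    have h4 : 0 ≤ e k * xu := mul_nonneg (he k).1 hxu
    have h5 : A + 1 = l + σ k := by rw [hkm, hA]; ring
    rw [h5]
    linarith
  have hm : X m * A ≤ σ m * T + σ m * xw + xu := by
    have h1 := E2 m
    have h3 : a m * xw ≤ σ m * xw := mul_le_mul_of_nonneg_right (ha m).2 hxw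
    have h4 : e m * xu ≤ 1 * xu := mul_le_mul_of_nonneg_right (he m).2 hxu
    rw [hA]
    linarith
  have hsc := gap_scaled (ρ := ρ) (W := W) (U := U) (lam' := l / N) (A := A / N) (s := σ m / N)
    (c := 1 / N) hρ0 hρ3 hW0 hU0 (by linarith) hWup
    (by rw [le_div_iff₀ hN0]; linarith)
    (by rw [div_le_iff₀ hN0, hA]; linarith [(hσ m).2])
    (by positivity) (by positivity)
    (by rw [div_le_iff₀ hN0]; linarith)
    (by rw [div_le_iff₀ hN0]; linarith [(hσ m).2]) (by positivity)
  have hsc' : (A + 1) * (σ m * W + U + A / 2) ≤ l * N := by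
    have h1 : (A / N + 1 / N) * (σ m / N * W + U * (1 / N) + A / N / 2) =
        (A + 1) * (σ m * W + U + A / 2) / (N * N) := by field_simp
    rw [h1, div_le_div_iff₀ (by positivity) hN0] at hsc
    have h2 : N * ((A + 1) * (σ m * W + U + A / 2)) ≤ N * (l * N) := by linarith
    exact le_of_mul_le_mul_left h2 hN0
  -- multiply by `A * (A + 1) * N`
  have hfin : (A * (A + 1)) * (T / 2) ≤ (A * (A + 1)) * (N * (X k - X m)) := by
    have h1 : A * N * (σ k * T) ≤ A * N * (X k * (A + 1)) :=
      mul_le_mul_of_nonneg_left hk (by positivity)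
    have h2 : (A + 1) * N * (X m * A) ≤ (A + 1) * N * (σ m * T + σ m * xw + xu) :=
      mul_le_mul_of_nonneg_left hm (by positivity)
    have h3 : (A + 1) * N * (σ m * T + σ m * xw + xu) =
        (A + 1) * (N * σ m * T + σ m * (W * T) + U * T) := by
      rw [← hWT, ← hUT]; ring
    have h4 : T * ((A + 1) * (σ m * W + U + A / 2)) ≤ T * (l * N) :=
      mul_le_mul_of_nonneg_left hsc' hT.le
    rw [h3] at h2
    rw [hkm] at h1
    have h5 : A * N * ((σ m + 1) * T) - (A + 1) * (N * σ m * T) = T * (l * N) := by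
      rw [hA]; ring
    linarith
  have hfin2 : T / 2 ≤ N * (X k - X m) := le_of_mul_le_mul_left hfin (by positivity)
  rw [div_le_iff₀ (by positivity)]
  linarith

end GAP2aux

open Classical in
theorem prfGAP2 : P_statement → EIG2_statement → GAP2_statement := by
  intro hP hE r ε hr hε
  refine ⟨100000 * r + ⌈200 * (r : ℝ) / ε⌉₊, ?_⟩
  intro V _ G f w u v i x n hn hT2 hBal hd1 hd2 hx0 hxne heig
  have : Nonempty V := ⟨w⟩
  have hl0 : 0 ≤ lam G := (hP V G).1
  obtain ⟨E1, E2, E3, E4⟩ := hE r V G f w u v i x (lam G) hT2 heig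
  have hR : (3 : ℝ) ≤ r := by exact_mod_cast hr
  have hR0 : (0 : ℝ) < r := by linarith
  have hn' : (100000 * (r : ℝ) + (⌈200 * (r : ℝ) / ε⌉₊ : ℝ)) ≤ (n : ℝ) := by exact_mod_cast hn
  have hceil : 200 * (r : ℝ) / ε ≤ (⌈200 * (r : ℝ) / ε⌉₊ : ℝ) := Nat.le_ceil _
  have hN : 100000 * (r : ℝ) ≤ (n : ℝ) := by
    have : (0 : ℝ) ≤ (⌈200 * (r : ℝ) / ε⌉₊ : ℝ) := by positivity
    linarith
  have hNε : 200 * (r : ℝ) ≤ ε * n := by
    have h1 : 200 * (r : ℝ) / ε ≤ n := by linarith
    rw [div_le_iff₀ hε] at h1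
    linarith
  have hN0 : (0 : ℝ) < n := by linarith
  -- classes
  have hX : ∀ t, 0 ≤ cw x f (some t) := by
    intro t
    unfold cw
    apply Finset.sum_nonneg
    intro y _
    split_ifs
    · exact hx0 y
    · exact le_rfl
  have hXy : ∀ y t, f y = some t → x y ≤ cw x f (some t) := by
    intro y t hy
    unfold cw
    have h1 : ∀ z ∈ Finset.univ, 0 ≤ (if f z = some t then x z else 0) := by
      intro z _
      split_ifs
      · exact hx0 z
      · exact le_rfl
    have h2 := Finset.single_le_sum h1 (Finset.mem_univ y)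
    rw [if_pos hy] at h2
    exact h2
  set T := ∑ s, cw x f (some s) with hTdef
  have hXT : ∀ t, cw x f (some t) ≤ T := fun t =>
    Finset.single_le_sum (fun s _ => hX s) (Finset.mem_univ t)
  have hT0 : 0 ≤ T := Finset.sum_nonneg (fun s _ => hX s)
  have hTcore : T = ∑ y, if f y ≠ none then x y else 0 := by
    rw [hTdef, ← GAP2aux.sum_core f x]
    rfl
  have hdcore : ((∑ t, nbn G f w t : ℕ) : ℝ) =
      ∑ y, if f y ≠ none then (if G.Adj w y then (1 : ℝ) else 0) else 0 := by
    push_cast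
    rw [← GAP2aux.sum_core f]
    apply Finset.sum_congr rfl
    intro t _
    exact GAP2aux.nbn_eq G f w t
  set d : ℝ := ((∑ t, nbn G f w t : ℕ) : ℝ) with hd
  have hdpos : 0 < d := by
    have : 0 < ε * n := by positivity
    linarith
  -- `T > 0`
  have hTpos : 0 < T := by
    rcases hT0.lt_or_eq with h | h
    · exact h
    exfalso
    have hX0 : ∀ t, cw x f (some t) = 0 := fun t => le_antisymm ((hXT t).trans h.symm.le) (hX t)
    have hcore0 : ∀ y, f y ≠ none → x y = 0 := by
      intro y hy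
      obtain ⟨t, ht⟩ := Option.ne_none_iff_exists'.1 hy
      exact le_antisymm ((hXy y t ht).trans (hX0 t).le) (hx0 y)
    have hxw : x w = 0 := by
      by_contra hne
      -- a core neighbour of `w`
      have : ∃ y, f y ≠ none ∧ G.Adj w y := by
        by_contra hcon
        push Not at hcon
        have : d = 0 := by
          rw [hdcore]
          apply Finset.sum_eq_zero
          intro y _
          by_cases hy : f y ≠ none
          · rw [if_pos hy, if_neg (hcon y hy)]
          · rw [if_neg hy]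
        linarith
      obtain ⟨y, hy, hwy⟩ := this
      obtain ⟨t, ht⟩ := Option.ne_none_iff_exists'.1 hy
      have h1 := E1 y t ht
      rw [hcore0 y hy, ← h, hX0 t, if_pos hwy] at h1
      have h2 : 0 ≤ (if G.Adj u y then x u else 0) := by
        split_ifs
        · exact hx0 u
        · exact le_rfl
      have h3 := hx0 w
      apply hne
      linarith
    have hxu : x u = 0 := by
      -- a neighbour of `u`
      have : ∃ t : Fin r, t ≠ i := by
        by_cases h0 : i = ⟨0, by omega⟩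
        · refine ⟨⟨1, by omega⟩, ?_⟩
          rw [h0]
          simp [Fin.ext_iff]
        · exact ⟨⟨0, by omega⟩, fun h => h0 h.symm⟩
      obtain ⟨t, ht⟩ := this
      have hft := hT2.hv t ht
      have hfn : f (v t) ≠ none := by rw [hft]; simp
      have h1 := E1 (v t) t hft
      have hadj : G.Adj u (v t) := (hT2.un (v t) hfn).2 ⟨t, ht, rfl⟩
      rw [hcore0 _ hfn, ← h, hX0 t, if_pos hadj, hxw] at h1
      have h2 : (if G.Adj w (v t) then (0 : ℝ) else 0) = 0 := by split_ifs <;> rfl
      rw [h2] at h1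
      linarith
    apply hxne
    funext y
    by_cases hy : f y ≠ none
    · exact hcore0 y hy
    · push Not at hy
      rcases (hT2.out y).1 hy with h' | h'
      · rw [h']; exact hxw
      · rw [h']; exact hxu
  -- the sum over the neighbours of `w`
  set SW := ∑ y, if f y ≠ none ∧ G.Adj w y then x y else 0 with hSW
  have hSWT : SW ≤ T := by
    rw [hSW, hTcore]
    apply Finset.sum_le_sum
    intro y _
    by_cases h1 : f y ≠ none
    · by_cases h2 : G.Adj w y
      · rw [if_pos ⟨h1, h2⟩, if_pos h1]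
      · rw [if_neg (fun h => h2 h.2), if_pos h1]; exact hx0 y
    · rw [if_neg (fun h => h1 h.1), if_neg h1]
  have hSU : ∀ M, (∀ t, x (v t) ≤ M ∨ t = i) → 0 ≤ M →
      (∑ t, if t ≠ i then x (v t) else 0) ≤ r * M := by
    intro M hM hM0
    calc (∑ t, if t ≠ i then x (v t) else 0) ≤ ∑ _t : Fin r, M := by
          apply Finset.sum_le_sum
          intro t _
          split_ifs with h
          · exact (hM t).resolve_right h
          · exact hM0
      _ = r * M := by simp
  have hSUT : (∑ t, if t ≠ i then x (v t) else 0) ≤ T := by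
    rw [hTdef]
    apply Finset.sum_le_sum
    intro t _
    split_ifs with h
    · exact hXy _ _ (hT2.hv t h)
    · exact hX t
  -- core entries
  have hcoreUp : ∀ y t, f y = some t → lam G * x y ≤ (T - cw x f (some t)) + x w + x u := by
    intro y t hy
    rw [E1 y t hy]
    have h1 : (if G.Adj w y then x w else 0) ≤ x w := by
      split_ifs
      · exact le_rfl
      · exact hx0 w
    have h2 : (if G.Adj u y then x u else 0) ≤ x u := by
      split_ifs
      · exact le_rfl
      · exact hx0 u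
    linarith
  have hcoreLow : ∀ y t, f y = some t → (T - cw x f (some t)) ≤ lam G * x y := by
    intro y t hy
    rw [E1 y t hy]
    have h1 : 0 ≤ (if G.Adj w y then x w else 0) := by
      split_ifs
      · exact hx0 w
      · exact le_rfl
    have h2 : 0 ≤ (if G.Adj u y then x u else 0) := by
      split_ifs
      · exact hx0 u
      · exact le_rfl
    linarith
  have key := GAP2aux.est (r := r) hr (N := n) (l := lam G) (T := T) (xw := x w) (xu := x u)
    (d := d) (ε := ε) (σ := fun t => (siz f t : ℝ)) (a := fun t => (nbn G f w t : ℝ))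
    (X := fun t => cw x f (some t)) (e := fun t => if t ≠ i then (1 : ℝ) else 0)
    hN hNε hε hTpos rfl hX (fun t => GAP2aux.div_bounds hr _ (hBal.1 t))
    (by exact_mod_cast hBal.2)
    (fun t => ⟨by positivity, by exact_mod_cast GAP2aux.nbn_le_siz G f w t⟩)
    (by rw [hd]; push_cast; rfl)
    (fun t => by
      show 0 ≤ (if t ≠ i then (1 : ℝ) else 0) ∧ (if t ≠ i then (1 : ℝ) else 0) ≤ 1
      split_ifs <;> norm_num)
    (hx0 w) (hx0 u) hd1 hd2
    (fun t => by
      have h1 := E2 t
      show lam G * cw x f (some t) = siz f t * (T - cw x f (some t)) + nbn G f w t * x w +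
        (if t ≠ i then (1 : ℝ) else 0) * x u
      rw [h1]
      split_ifs <;> ring)
    (by rw [E3]; linarith) (by rw [E4]; linarith)
    (fun M hM => by
      rw [E3]
      have h1 : SW ≤ d * M := by
        rw [hdcore, Finset.sum_mul]
        apply Finset.sum_le_sum
        intro y _
        by_cases h1 : f y ≠ none
        · by_cases h2 : G.Adj w y
          · rw [if_pos ⟨h1, h2⟩, if_pos h1, if_pos h2, one_mul]
            obtain ⟨t, ht⟩ := Option.ne_none_iff_exists'.1 h1
            exact hM t _ (hx0 y) (hcoreUp y t ht)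
          · rw [if_neg (fun h => h2 h.2), if_pos h1, if_neg h2, zero_mul]
        · rw [if_neg (fun h => h1 h.1), if_neg h1, zero_mul]
      linarith)
    (fun m hm => by
      rw [E3]
      have h1 : d * m ≤ SW := by
        rw [hdcore, Finset.sum_mul]
        apply Finset.sum_le_sum
        intro y _
        by_cases h1 : f y ≠ none
        · by_cases h2 : G.Adj w y
          · rw [if_pos h1, if_pos h2, one_mul, if_pos (And.intro h1 h2)]
            obtain ⟨t, ht⟩ := Option.ne_none_iff_exists'.1 h1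
            exact hm t _ (hx0 y) (hcoreLow y t ht)
          · rw [if_pos h1, if_neg h2, zero_mul, if_neg (fun h => h2 h.2)]
        · rw [if_neg h1, zero_mul, if_neg (fun h => h1 h.1)]
      have := hx0 u
      linarith)
    (fun M hM => by
      rw [E4]
      have h1 : (∑ t, if t ≠ i then x (v t) else 0) ≤ r * M := by
        apply hSU
        · intro t
          by_cases h : t = i
          · exact Or.inr h
          · left
            exact hM t _ (hx0 _) (hcoreUp _ t (hT2.hv t h))
        · refine hM i 0 le_rfl ?_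
          rw [mul_zero]
          have := hXT i
          have := hx0 w
          have := hx0 u
          linarith
      linarith)
  obtain ⟨k1, k2, k3, k4, k5, k6⟩ := key
  refine ⟨k1, hTpos, k2, ?_, k3, k4, ?_, ?_⟩
  · -- `x u > 0`
    by_contra hneg
    have hxu0 : x u = 0 := le_antisymm (not_lt.1 hneg) (hx0 u)
    rw [hxu0, mul_zero] at E4
    have h1 : 0 ≤ (∑ t, if t ≠ i then x (v t) else 0) := by
      apply Finset.sum_nonneg
      intro t _
      split_ifs
      · exact hx0 _
      · exact le_rfl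
    linarith
  · intro y hy
    obtain ⟨t, ht⟩ := Option.ne_none_iff_exists'.1 hy
    exact k5 t _ (hx0 y) (hcoreUp y t ht)
  · intro k m hkm
    apply k6 k m
    show (siz f k : ℝ) = siz f m + 1
    exact_mod_cast hkm

end MP0c3a8f
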