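import Pool.Agent.Work.MP_0c3a8f_co.PB.Stmts2

/-!
# MP_0c3a8f_co, phase B, item GREE: even target vectors
-/

open Finset

namespace MP0c3a8f

namespace ItemGREE

/-- one unit is moved from `s` to `t` -/
def mv {r : ℕ} (a : Fin r → ℕ) (s t : Fin r) : Fin r → ℕ :=
  Function.update (Function.update a s (a s - 1)) t (a t + 1)

theorem sum_upd {r : ℕ} (g : Fin r → ℕ) (s : Fin r) (x : ℕ) :
    ∑ u, Function.update g s x u + g s = ∑ u, g u + x := by
  rw [Finset.sum_update_of_mem (Finset.mem_univ s)]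
  have h := Finset.add_sum_erase Finset.univ g (Finset.mem_univ s)
  rw [Finset.sdiff_singleton_eq_erase]
  omega

theorem sum_mv {r : ℕ} (f : ℕ → ℕ) (a : Fin r → ℕ) {s t : Fin r} (h : s ≠ t) :
    ∑ u, f (mv a s t u) + f (a s) + f (a t) = ∑ u, f (a u) + f (a s - 1) + f (a t + 1) := by
  have e : (fun u => f (mv a s t u)) =
      Function.update (Function.update (fun u => f (a u)) s (f (a s - 1))) t (f (a t + 1)) := by
    funext u
    unfold mv
    by_cases h1 : u = t
    · subst h1; simp
    · rw [Function.update_of_ne h1, Function.update_of_ne h1]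
      by_cases h2 : u = s
      · subst h2; simp
      · rw [Function.update_of_ne h2, Function.update_of_ne h2]
  have h1 := sum_upd (Function.update (fun u => f (a u)) s (f (a s - 1))) t (f (a t + 1))
  have h2 := sum_upd (fun u => f (a u)) s (f (a s - 1))
  rw [Function.update_of_ne h.symm] at h1
  have h3 : ∑ u, f (mv a s t u) = ∑ u, Function.update
      (Function.update (fun u => f (a u)) s (f (a s - 1))) t (f (a t + 1)) u := by
    rw [← e]
  omega

theorem mv_t {r : ℕ} (a : Fin r → ℕ) (s t : Fin r) : mv a s t t = a t + 1 := by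
  unfold mv; simp

theorem mv_s {r : ℕ} (a : Fin r → ℕ) {s t : Fin r} (h : s ≠ t) : mv a s t s = a s - 1 := by
  unfold mv
  rw [Function.update_of_ne h, Function.update_self]

theorem mv_ne {r : ℕ} (a : Fin r → ℕ) {s t u : Fin r} (h : u ≠ s) (h' : u ≠ t) :
    mv a s t u = a u := by
  unfold mv
  rw [Function.update_of_ne h', Function.update_of_ne h]

theorem even_of {r n lo : ℕ} {P : (Fin r → ℕ) → Prop} (h : ∃ a, P a)
    (hP : ∀ a, P a → ∀ s t : Fin r, lo ≤ s.val → lo ≤ t.val → tz r n s = tz r n t → s ≠ t →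
      a t + 2 ≤ a s → P (mv a s t)) : ∃ a, P a ∧ Ev r n lo a := by
  classical
  have hex : ∃ m, ∃ a, P a ∧ ∑ u, a u ^ 2 = m := by
    obtain ⟨a, ha⟩ := h
    exact ⟨_, a, ha, rfl⟩
  obtain ⟨a, ha, ham⟩ := Nat.find_spec hex
  have hmin : ∀ a', P a' → ∑ u, a u ^ 2 ≤ ∑ u, a' u ^ 2 := by
    intro a' ha'
    rw [ham]
    exact Nat.find_min' hex ⟨a', ha', rfl⟩
  refine ⟨a, ha, fun s t hs ht hst => ?_⟩
  by_contra hc
  push Not at hc
  have hne : s ≠ t := by
    rintro rfl
    omega
  have h1 := hmin _ (hP a ha s t hs ht hst hne (by omega))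
  have h2 := sum_mv (fun x => x ^ 2) a hne
  obtain ⟨d, hd⟩ : ∃ d, a s = a t + 2 + d := ⟨a s - (a t + 2), by omega⟩
  rw [hd] at h2
  have h3 : a t + 2 + d - 1 = a t + 1 + d := by omega
  rw [h3] at h2
  nlinarith

theorem tz_small {r n : ℕ} (t : Fin r) : n / r ≤ tz r n t := by
  unfold tz
  split_ifs <;> omega

theorem T1 {r n D : ℕ} (h : ∃ a, Tg1 r n D a) : ∃ a, Tg1 r n D a ∧ Ev r n 2 a := by
  apply even_of h
  intro a ha s t hs ht hst hne hat
  obtain ⟨h1, h2, h3, h4⟩ := ha
  refine ⟨?_, ?_, ?_, ?_⟩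
  · intro u hu
    rw [mv_ne a (by rintro rfl; omega) (by rintro rfl; omega)]
    exact h1 u hu
  · intro u
    by_cases e1 : u = t
    · subst e1
      rw [mv_t]
      have := (h2 s).2
      omega
    · by_cases e2 : u = s
      · subst e2
        rw [mv_s a hne]
        have := (h2 u).2
        have := (h2 t).1
        omega
      · rw [mv_ne a e2 e1]
        exact h2 u
  · have h5 := sum_mv (fun x => x) a hne
    omega
  · rcases h4 with h4 | h4
    · left
      have h5 : tz r n s ≠ n / r := by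
        intro h5
        have h6 := h4 t ht (by omega)
        have := (h2 s).2
        omega
      intro u hu hu'
      rw [mv_ne a (by rintro rfl; exact h5 hu') (by rintro rfl; exact h5 (by omega))]
      exact h4 u hu hu'
    · right
      have h5 : ¬ n / r < tz r n s := by
        intro h5
        have := h4 s hs h5
        omega
      intro u hu hu'
      rw [mv_ne a (by rintro rfl; exact h5 hu') (by rintro rfl; exact h5 (by omega))]
      exact h4 u hu hu'

theorem T2 {r n D : ℕ} (h : ∃ a, Tg2 r n D a) : ∃ a, Tg2 r n D a ∧ Ev r n 1 a := by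
  apply even_of h
  intro a ha s t hs ht hst hne hat
  obtain ⟨h0, h1, h2, h3, h4⟩ := ha
  refine ⟨?_, ?_, ?_, ?_, ?_⟩
  · intro u hu
    rw [mv_ne a (by rintro rfl; omega) (by rintro rfl; omega)]
    exact h0 u hu
  · intro u hu
    by_cases e1 : u = t
    · subst e1
      rw [mv_t]
      omega
    · by_cases e2 : u = s
      · subst e2
        rw [mv_s a hne]
        omega
      · rw [mv_ne a e2 e1]
        exact h1 u hu
  · intro u
    by_cases e1 : u = t
    · subst e1
      rw [mv_t]
      have := h2 s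
      omega
    · by_cases e2 : u = s
      · subst e2
        rw [mv_s a hne]
        have := h2 u
        omega
      · rw [mv_ne a e2 e1]
        exact h2 u
  · have h5 := sum_mv (fun x => x) a hne
    omega
  · rcases h4 with h4 | h4
    · left
      have h5 : tz r n s ≠ n / r := by
        intro h5
        have h6 := h4 t ht (by omega)
        have := h2 s
        omega
      intro u hu hu'
      rw [mv_ne a (by rintro rfl; exact h5 hu') (by rintro rfl; exact h5 (by omega))]
      exact h4 u hu hu'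
    · right
      have h5 : ¬ n / r < tz r n s := by
        intro h5
        have := h4 s hs h5
        omega
      intro u hu hu'
      rw [mv_ne a (by rintro rfl; exact h5 hu') (by rintro rfl; exact h5 (by omega))]
      exact h4 u hu hu'

end ItemGREE

open ItemGREE in
theorem prfGREE : GRE_statement → GREE_statement := by
  intro hGRE r ε hr hε
  obtain ⟨n₁, h₁⟩ := hGRE r ε hr hε
  obtain ⟨n₂, h₂⟩ := hGRE r (ε / 2) hr (by positivity)
  refine ⟨max (max n₁ n₂) (⌈3 / ε⌉₊ + 1), fun n hn D hRR => ?_⟩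
  have hn1 : n₁ ≤ n := (le_max_left _ _).trans ((le_max_left _ _).trans hn)
  have hn2 : n₂ ≤ n := (le_max_right _ _).trans ((le_max_left _ _).trans hn)
  have hn3 : ⌈3 / ε⌉₊ + 1 ≤ n := (le_max_right _ _).trans hn
  obtain ⟨hD1, hD2⟩ := hRR
  obtain ⟨g1, g2⟩ := h₁ n hn1 D hD1 hD2
  refine ⟨T1 g1, T2 g2, ?_⟩
  have hr' : (3 : ℝ) ≤ r := by exact_mod_cast hr
  have hq : 2 / 3 ≤ qq r := by
    unfold qq
    have h1 : 1 / (r : ℝ) ≤ 1 / 3 := one_div_le_one_div_of_le (by norm_num) hr'
    linarith
  have hn4 : 3 / ε ≤ (n : ℝ) := by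
    have h1 : 3 / ε ≤ (⌈3 / ε⌉₊ : ℝ) := Nat.le_ceil _
    have h2 : ((⌈3 / ε⌉₊ + 1 : ℕ) : ℝ) ≤ n := by exact_mod_cast hn3
    push_cast at h2
    linarith
  have hn5 : 3 ≤ ε * n := by
    rw [div_le_iff₀ hε] at hn4
    linarith
  have hqn : 2 ≤ ε * (qq r * n) := by
    have h1 : ε * (qq r * n) = qq r * (ε * n) := by ring
    rw [h1]
    calc (2 : ℝ) = 2 / 3 * 3 := by norm_num
      _ ≤ qq r * (ε * n) := mul_le_mul hq hn5 (by norm_num) (by linarith)
  have hD3 : 1 ≤ D := by
    by_contra hc
    have : D = 0 := by omega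
    rw [this] at hD1
    norm_num at hD1
    linarith
  have hcast : ((D - 1 : ℕ) : ℝ) = (D : ℝ) - 1 := by
    rw [Nat.cast_sub hD3]
    simp
  obtain ⟨⟨a, ha⟩, _⟩ := h₂ n hn2 (D - 1) (by
    rw [hcast]
    linarith) (by
    rw [hcast]
    nlinarith)
  exact ⟨a, ha, hD3⟩

end MP0c3a8f
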