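import Pool.Agent.Work.MP_0c3a8f_co.PB.Stmts

/-!
# MP_0c3a8f_co, phase B, item JB: unbalanced parts are worse
-/

open Finset

namespace MP0c3a8f

namespace ItemJB

theorem abs_le_sq (z : ℤ) : |z| ≤ z ^ 2 := by
  rw [← sq_abs]
  rcases eq_or_lt_of_le (abs_nonneg z) with h | h
  · rw [← h]; norm_num
  · nlinarith

theorem tz_anti (r n : ℕ) {s t : Fin r} (h : s ≤ t) : tz r n t ≤ tz r n s := by
  unfold tz
  have h1 : s.val ≤ t.val := h
  split_ifs <;> omega

theorem tz_cases (r n : ℕ) (t : Fin r) : tz r n t = n / r ∨ tz r n t = n / r + 1 := by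
  unfold tz
  split_ifs
  · right; rfl
  · left; rfl

/-- a permutation which makes the sizes comparable -/
theorem align0 (r n : ℕ) (σ : Fin r → ℕ) :
    ∃ π : Equiv.Perm (Fin r), ∀ s t, tz r n (π s) < tz r n (π t) → σ s ≤ σ t := by
  refine ⟨(Tuple.sort σ).symm.trans Fin.revPerm, fun s t hst => ?_⟩
  by_contra hlt
  push Not at hlt
  have hmono := Tuple.monotone_sort σ
  have h1 : (Tuple.sort σ).symm t ≤ (Tuple.sort σ).symm s := by
    by_contra hc
    push Not at hc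
    have := hmono hc.le
    simp only [Function.comp, Equiv.apply_symm_apply] at this
    omega
  have h2 : (((Tuple.sort σ).symm.trans Fin.revPerm) s) ≤
      (((Tuple.sort σ).symm.trans Fin.revPerm) t) := by
    simp only [Equiv.trans_apply, Fin.revPerm_apply]
    exact Fin.rev_le_rev.2 h1
  have h3 := tz_anti r n h2
  omega

theorem align (r n : ℕ) (σ : Fin r → ℕ) (hσ : ∑ t, σ t = n) (htz : ∑ t, tz r n t = n) :
    ∃ π : Equiv.Perm (Fin r),
      0 ≤ ∑ t, (tz r n (π t) : ℤ) * ((σ t : ℤ) - tz r n (π t)) := by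
  obtain ⟨π, hπ⟩ := align0 r n σ
  refine ⟨π, ?_⟩
  set e : Fin r → ℤ := fun t => (σ t : ℤ) - tz r n (π t) with he
  have hsum : ∑ t, e t = 0 := by
    rw [he, Finset.sum_sub_distrib]
    have h1 : ∑ t, (tz r n (π t) : ℤ) = n := by
      rw [Equiv.sum_comp π (fun t => (tz r n t : ℤ))]
      exact_mod_cast htz
    have h2 : ∑ t, (σ t : ℤ) = n := by exact_mod_cast hσ
    rw [h1, h2, sub_self]
  classical
  set L := Finset.univ.filter (fun t => tz r n (π t) = n / r + 1) with hL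
  have h1 : ∑ t, (tz r n (π t) : ℤ) * e t = ∑ t ∈ L, e t := by
    have h2 : ∀ t, (tz r n (π t) : ℤ) * e t =
        ((n / r : ℕ) : ℤ) * e t + if tz r n (π t) = n / r + 1 then e t else 0 := by
      intro t
      rcases tz_cases r n (π t) with h | h
      · rw [if_neg (by omega), h]; ring
      · rw [if_pos h, h]; push_cast; ring
    rw [Finset.sum_congr rfl fun t _ => h2 t, Finset.sum_add_distrib, ← Finset.mul_sum, hsum,
      mul_zero, zero_add, hL, Finset.sum_filter]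
  change 0 ≤ ∑ t, (tz r n (π t) : ℤ) * e t
  rw [h1]
  by_contra hneg
  push Not at hneg
  obtain ⟨t, htL, ht⟩ := Finset.exists_lt_of_sum_lt (s := L) (f := e) (g := fun _ => 0)
    (by simpa using hneg)
  have htL' : tz r n (π t) = n / r + 1 := (Finset.mem_filter.1 htL).2
  have hσt : σ t ≤ n / r := by
    have : e t < 0 := ht
    rw [he] at this
    simp only at this
    omega
  have h2 : ∑ t ∈ Finset.univ.filter (fun t => ¬ tz r n (π t) = n / r + 1), e t ≤ 0 := by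
    refine Finset.sum_nonpos fun s hs => ?_
    have hs' := (Finset.mem_filter.1 hs).2
    have hs2 : tz r n (π s) = n / r := (tz_cases r n (π s)).resolve_right hs'
    have hs3 := hπ s t (by omega)
    rw [he]
    simp only
    omega
  have h3 := Finset.sum_filter_add_sum_filter_not Finset.univ
    (fun t => tz r n (π t) = n / r + 1) e
  rw [hsum] at h3
  rw [hL] at hneg
  linarith

/-- changing a vector within bounds -/
theorem adjust {α : Type} [DecidableEq α] (s : Finset α) (lo hi : α → ℕ) (A : ℕ)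
    (h1 : ∑ t ∈ s, lo t ≤ A) (h2 : A ≤ ∑ t ∈ s, hi t) (k : ℕ) : ∀ b : α → ℕ,
    (∀ t ∈ s, lo t ≤ b t ∧ b t ≤ hi t) → ∑ t ∈ s, b t ≤ A + k → A ≤ ∑ t ∈ s, b t + k →
    ∃ b' : α → ℕ, (∀ t ∈ s, lo t ≤ b' t ∧ b' t ≤ hi t) ∧ ∑ t ∈ s, b' t = A ∧
      (∀ t, b' t ≤ b t + k ∧ b t ≤ b' t + k) := by
  induction k with
  | zero =>
    intro b hb h3 h4
    exact ⟨b, hb, by omega, fun t => ⟨le_rfl, le_rfl⟩⟩
  | succ k ih =>
    intro b hb h3 h4
    rcases lt_trichotomy (∑ t ∈ s, b t) A with h | h | h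
    · obtain ⟨t, hts, ht⟩ : ∃ t ∈ s, b t < hi t := by
        apply Finset.exists_lt_of_sum_lt
        omega
      have hsum : ∑ x ∈ s, Function.update b t (b t + 1) x = ∑ x ∈ s, b x + 1 := by
        rw [Finset.sum_update_of_mem hts, ← Finset.add_sum_erase s b hts,
          Finset.sdiff_singleton_eq_erase]
        ring
      obtain ⟨b', hb1, hb2, hb3⟩ := ih (Function.update b t (b t + 1)) (by
        intro x hx
        by_cases hxt : x = t
        · subst hxt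
          rw [Function.update_self]
          have := hb x hx
          omega
        · rw [Function.update_of_ne hxt]
          exact hb x hx) (by omega) (by omega)
      refine ⟨b', hb1, hb2, fun x => ?_⟩
      have := hb3 x
      by_cases hxt : x = t
      · subst hxt
        rw [Function.update_self] at this
        omega
      · rw [Function.update_of_ne hxt] at this
        omega
    · exact ⟨b, hb, h, fun t => ⟨by omega, by omega⟩⟩
    · obtain ⟨t, hts, ht⟩ : ∃ t ∈ s, lo t < b t := by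
        apply Finset.exists_lt_of_sum_lt
        omega
      have hsum : ∑ x ∈ s, Function.update b t (b t - 1) x + 1 = ∑ x ∈ s, b x := by
        rw [Finset.sum_update_of_mem hts, ← Finset.add_sum_erase s b hts,
          Finset.sdiff_singleton_eq_erase]
        omega
      obtain ⟨b', hb1, hb2, hb3⟩ := ih (Function.update b t (b t - 1)) (by
        intro x hx
        by_cases hxt : x = t
        · subst hxt
          rw [Function.update_self]
          have := hb x hx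
          omega
        · rw [Function.update_of_ne hxt]
          exact hb x hx) (by omega) (by omega)
      refine ⟨b', hb1, hb2, fun x => ?_⟩
      have := hb3 x
      by_cases hxt : x = t
      · subst hxt
        rw [Function.update_self] at this
        omega
      · rw [Function.update_of_ne hxt] at this
        omega

theorem even_diff {r : ℕ} (σ τ : Fin r → ℕ) (h : ∑ t, σ t = ∑ t, τ t) :
    (2 : ℤ) ∣ ∑ t, (σ t : ℤ) ^ 2 - ∑ t, (τ t : ℤ) ^ 2 := by
  have h1 : ∀ ρ : Fin r → ℕ, (2 : ℤ) ∣ ∑ t, (ρ t : ℤ) ^ 2 - ∑ t, (ρ t : ℤ) := by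
    intro ρ
    rw [← Finset.sum_sub_distrib]
    refine Finset.dvd_sum fun t _ => ?_
    have h2 : ((ρ t : ℤ)) ^ 2 - ρ t = ρ t * (ρ t - 1) := by ring
    rw [h2]
    exact (Int.even_mul_pred_self _).two_dvd
  have h3 : ∑ t, (σ t : ℤ) = ∑ t, (τ t : ℤ) := by exact_mod_cast h
  have h4 := (h1 σ).sub (h1 τ)
  rw [h3] at h4
  have h5 : ∑ t, (σ t : ℤ) ^ 2 - ∑ t, (τ t : ℤ) ^ 2 = ∑ t, (σ t : ℤ) ^ 2 - ∑ t, (τ t : ℤ) -
      (∑ t, (τ t : ℤ) ^ 2 - ∑ t, (τ t : ℤ)) := by ring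
  rw [h5]
  exact h4

/-- the combinatorial part -/
theorem comb (hD : DEV_statement) (r N n D : ℕ) (ε : ℝ) (hr : 3 ≤ r)
    (hn : r ≤ n) (hn2 : 2 * (N : ℝ) + 2 + r ≤ ε * (qq r * n)) (hD1 : ε * (qq r * n) ≤ D)
    (hD2 : (D : ℝ) ≤ (1 - 2 / (r : ℝ) - ε) * (qq r * n)) (σ a : Fin r → ℕ) (Φ : Finset (Fin r))
    (hσ : ∑ t, σ t = n) (hdev : dev σ ≤ N) (ha : ∀ t, a t ≤ σ t) (hΦ : Φ.card ≤ 2)
    (hΦ1 : ∀ t ∈ Φ, a t ≤ 1) (hΦ2 : ∀ t, t ∉ Φ → 1 ≤ a t) (hsum : |(∑ t, (a t : ℝ)) - D| ≤ N)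
    (hlt : ∑ t, tz r n t ^ 2 < ∑ t, σ t ^ 2) :
    ∃ (π : Equiv.Perm (Fin r)) (a' : Fin r → ℕ), (∀ t ∈ Φ, a' t = a t) ∧
      (∀ t, t ∉ Φ → 1 ≤ a' t) ∧ (∀ t, a' t ≤ tz r n (π t)) ∧
      2 * ∑ t, a' t + ∑ t, σ t ^ 2 = 2 * ∑ t, a t + ∑ t, tz r n t ^ 2 ∧
      (∀ t, (a' t : ℤ) ≤ a t + 2 * N ∧ (a t : ℤ) ≤ a' t + 2 * N) ∧
      2 ≤ ∑ t, ((σ t : ℤ) - tz r n (π t)) ^ 2 ∧
      ∑ t, ((σ t : ℤ) - tz r n (π t)) ^ 2 ≤ ∑ t, (σ t : ℤ) ^ 2 - ∑ t, (tz r n t : ℤ) ^ 2 ∧
      (∑ t, (σ t : ℤ) ^ 2 - ∑ t, (tz r n t : ℤ) ^ 2 ≤ N) := by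
  classical
  have hr1 : 1 ≤ r := by omega
  obtain ⟨hd1, hd2, hd3, hd4, -, -⟩ := hD r n σ hr1 hσ
  obtain ⟨-, -, -, hd5, -, -⟩ := hD r n (tz r n) hr1 hd1
  obtain ⟨π, hπ⟩ := align r n σ hσ hd1
  set τ : Fin r → ℕ := fun t => tz r n (π t) with hτ
  set e : Fin r → ℤ := fun t => (σ t : ℤ) - τ t with he
  have hτn : ∑ t, τ t = n := by
    rw [hτ, Equiv.sum_comp π (fun t => tz r n t)]
    exact hd1
  have hτ2 : ∑ t, (τ t : ℤ) ^ 2 = ∑ t, (tz r n t : ℤ) ^ 2 := by
    rw [hτ]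
    exact Equiv.sum_comp π (fun t => (tz r n t : ℤ) ^ 2)
  have hesum : ∑ t, e t = 0 := by
    rw [he, Finset.sum_sub_distrib]
    have h1 : ∑ t, (τ t : ℤ) = n := by exact_mod_cast hτn
    have h2 : ∑ t, (σ t : ℤ) = n := by exact_mod_cast hσ
    rw [h1, h2, sub_self]
  set P : ℤ := ∑ t, (σ t : ℤ) ^ 2 - ∑ t, (tz r n t : ℤ) ^ 2 with hP
  set Q : ℤ := ∑ t, e t ^ 2 with hQ
  have hPQ : P = 2 * ∑ t, (τ t : ℤ) * e t + Q := by
    rw [hP, hQ, ← hτ2, Finset.mul_sum, ← Finset.sum_add_distrib, ← Finset.sum_sub_distrib]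
    refine Finset.sum_congr rfl fun t _ => ?_
    rw [he]; ring
  have hQP : Q ≤ P := by
    rw [hPQ]
    have : 0 ≤ ∑ t, (τ t : ℤ) * e t := hπ
    linarith
  have hP0 : 0 < P := by
    rw [hP]
    have : ((∑ t, tz r n t ^ 2 : ℕ) : ℤ) < ((∑ t, σ t ^ 2 : ℕ) : ℤ) := by exact_mod_cast hlt
    push_cast at this
    linarith
  have hPN : P ≤ N := by
    have h0 : 0 ≤ dev (tz r n) := Finset.sum_nonneg fun t _ => sq_nonneg _
    have h1 : (P : ℝ) = dev σ - dev (tz r n) := by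
      rw [hd4, hd5, hP]
      push_cast
      ring
    have h2 : (P : ℝ) ≤ N := by rw [h1]; linarith
    exact_mod_cast h2
  have habs : ∀ t, |e t| ≤ e t ^ 2 := fun t => abs_le_sq (e t)
  have hQabs : ∑ t, |e t| ≤ Q := Finset.sum_le_sum fun t _ => habs t
  have hQ2 : 2 ≤ Q := by
    by_contra hcon
    push Not at hcon
    have hne : ∃ t, e t ≠ 0 := by
      by_contra hall
      push Not at hall
      have h0 : P = 0 := by
        rw [hPQ, hQ]
        simp [hall]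
      omega
    obtain ⟨t, ht⟩ := hne
    have h1 : |e t| ≤ 1 := by
      have h2 : |e t| ≤ ∑ s, |e s| := Finset.single_le_sum (fun s _ => abs_nonneg (e s))
        (Finset.mem_univ t)
      linarith
    have h2 : e t + ∑ s ∈ Finset.univ.erase t, e s = 0 := by
      rw [Finset.add_sum_erase _ _ (Finset.mem_univ t)]
      exact hesum
    have h3 : |e t| + ∑ s ∈ Finset.univ.erase t, |e s| ≤ Q := by
      rw [Finset.add_sum_erase _ (fun s => |e s|) (Finset.mem_univ t)]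
      exact hQabs
    have h4 : |∑ s ∈ Finset.univ.erase t, e s| ≤ ∑ s ∈ Finset.univ.erase t, |e s| :=
      Finset.abs_sum_le_sum_abs _ _
    have h5 : ∑ s ∈ Finset.univ.erase t, e s = - e t := by linarith
    rw [h5, abs_neg] at h4
    have h6 : 1 ≤ |e t| := Int.one_le_abs ht
    linarith
  obtain ⟨S, hS⟩ := even_diff σ τ (hσ.trans hτn.symm)
  rw [hτ2] at hS
  change P = 2 * S at hS
  have hS1 : 1 ≤ S := by omega
  have hSN : 2 * S ≤ N := by omega
  have het : ∀ t, |e t| ≤ N := by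
    intro t
    have h2 : |e t| ≤ ∑ s, |e s| := Finset.single_le_sum (fun s _ => abs_nonneg (e s))
      (Finset.mem_univ t)
    linarith
  have hq0 : (0 : ℝ) < r := by exact_mod_cast hr1
  have hτ1 : ∀ t, n / r ≤ τ t := by
    intro t
    rcases tz_cases r n (π t) with h | h
    · exact h.ge
    · rw [hτ]; simp only; omega
  have hnr : 1 ≤ n / r := (Nat.one_le_div_iff (by omega)).2 hn
  set s : Finset (Fin r) := Φᶜ with hs
  have hscard : s.card = r - Φ.card := by rw [hs, Finset.card_compl, Fintype.card_fin]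
  have hsplit : ∀ f : Fin r → ℕ, ∑ t, f t = ∑ t ∈ Φ, f t + ∑ t ∈ s, f t := by
    intro f
    rw [hs, Finset.sum_add_sum_compl]
  have hΦa : ∑ t ∈ Φ, a t ≤ 2 := by
    calc ∑ t ∈ Φ, a t ≤ ∑ _t ∈ Φ, 1 := Finset.sum_le_sum hΦ1
      _ = Φ.card := by simp
      _ ≤ 2 := hΦ
  obtain ⟨S', rfl⟩ : ∃ S' : ℕ, S = S' := ⟨S.toNat, by omega⟩
  rw [abs_le] at hsum
  have hlow : S' + r ≤ ∑ t ∈ s, a t := by
    have h1 := hsplit a
    have h2 : ((∑ t, a t : ℕ) : ℝ) = ((∑ t ∈ Φ, a t : ℕ) : ℝ) + ((∑ t ∈ s, a t : ℕ) : ℝ) := by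
      exact_mod_cast h1
    have h3 : ((∑ t, a t : ℕ) : ℝ) = ∑ t, (a t : ℝ) := by push_cast; rfl
    have h4 : ((∑ t ∈ Φ, a t : ℕ) : ℝ) ≤ 2 := by exact_mod_cast hΦa
    have h5 : (S' : ℝ) ≤ N := by
      have : (S' : ℤ) ≤ N := by omega
      exact_mod_cast this
    have h6 : (S' : ℝ) + r ≤ ((∑ t ∈ s, a t : ℕ) : ℝ) := by linarith
    exact_mod_cast h6
  set A : ℕ := ∑ t ∈ s, a t - S' with hA
  have hAS : A + S' = ∑ t ∈ s, a t := by omega
  have hup : A ≤ ∑ t ∈ s, τ t := by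
    have h1 : (A : ℝ) ≤ D + N := by
      have h2 : (A : ℝ) ≤ ((∑ t, a t : ℕ) : ℝ) := by
        have := hsplit a
        exact_mod_cast (by omega : A ≤ ∑ t, a t)
      have h3 : ((∑ t, a t : ℕ) : ℝ) = ∑ t, (a t : ℝ) := by push_cast; rfl
      linarith
    have h4 : (r - 2) * (n / r) ≤ ∑ t ∈ s, τ t := by
      calc (r - 2) * (n / r) ≤ s.card * (n / r) := by
            apply Nat.mul_le_mul_right
            omega
        _ = ∑ _t ∈ s, n / r := by rw [Finset.sum_const, smul_eq_mul]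
        _ ≤ ∑ t ∈ s, τ t := Finset.sum_le_sum fun t _ => hτ1 t
    have h5 : (n : ℝ) / r - 1 ≤ ((n / r : ℕ) : ℝ) := by
      have h6 : n < (n / r + 1) * r := by
        rw [mul_comm]
        exact Nat.lt_mul_div_succ n (by omega)
      have h7 : (n : ℝ) < (((n / r : ℕ) : ℝ) + 1) * r := by exact_mod_cast h6
      have h8 : (n : ℝ) / r < ((n / r : ℕ) : ℝ) + 1 := by rwa [div_lt_iff₀ hq0]
      linarith
    have h9 : (A : ℝ) ≤ (((r - 2) * (n / r) : ℕ) : ℝ) := by
      have hc : (((r - 2 : ℕ)) : ℝ) = (r : ℝ) - 2 := by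
        rw [Nat.cast_sub (by omega)]; norm_num
      rw [Nat.cast_mul, hc]
      have hr3 : (3 : ℝ) ≤ r := by exact_mod_cast hr
      have h10 : ((r : ℝ) - 2) * ((n : ℝ) / r - 1) ≤ ((r : ℝ) - 2) * ((n / r : ℕ) : ℝ) := by
        apply mul_le_mul_of_nonneg_left h5
        linarith
      refine le_trans ?_ h10
      have h11 : ((r : ℝ) - 2) * ((n : ℝ) / r - 1) = (1 - 2 / (r : ℝ)) * n - (r - 2) := by
        field_simp
      rw [h11]
      have hqle : qq r ≤ 1 := by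
        unfold qq
        have : 0 < 1 / (r : ℝ) := by positivity
        linarith
      have hn0 : (0 : ℝ) ≤ n := Nat.cast_nonneg n
      have h12 : 0 ≤ 1 - 2 / (r : ℝ) := by
        rw [sub_nonneg, div_le_one hq0]
        linarith
      have h13 : (1 - 2 / (r : ℝ)) * (qq r * n) ≤ (1 - 2 / (r : ℝ)) * n := by
        apply mul_le_mul_of_nonneg_left _ h12
        exact mul_le_of_le_one_left hn0 hqle
      have h14 : (1 - 2 / (r : ℝ) - ε) * (qq r * n) =
          (1 - 2 / (r : ℝ)) * (qq r * n) - ε * (qq r * n) := by ring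
      have hN0 : (0 : ℝ) ≤ N := Nat.cast_nonneg N
      linarith
    have h10 : A ≤ (r - 2) * (n / r) := by exact_mod_cast h9
    exact h10.trans h4
  have hab : ∀ t, (a t : ℤ) ≤ min (a t) (τ t) + |e t| := by
    intro t
    rcases le_total (a t) (τ t) with h | h
    · rw [min_eq_left h]
      have := abs_nonneg (e t)
      omega
    · rw [min_eq_right h]
      have h1 := le_abs_self (e t)
      have h2 : (a t : ℤ) ≤ σ t := by exact_mod_cast ha t
      have h3 : e t = (σ t : ℤ) - τ t := rfl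
      linarith
  obtain ⟨b', hb1, hb2, hb3⟩ := adjust s (fun _ => 1) τ A (by
      rw [Finset.sum_const, smul_eq_mul, mul_one]
      omega) hup N (fun t => min (a t) (τ t)) (by
      intro t ht
      have h1 : 1 ≤ a t := hΦ2 t (by rw [hs, Finset.mem_compl] at ht; exact ht)
      have h2 : 1 ≤ τ t := hnr.trans (hτ1 t)
      exact ⟨le_min h1 h2, min_le_right _ _⟩) (by
      have h1 : ∑ t ∈ s, min (a t) (τ t) ≤ ∑ t ∈ s, a t :=
        Finset.sum_le_sum fun t _ => min_le_left _ _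
      omega) (by
      have h1 : ∑ t ∈ s, (a t : ℤ) ≤ ∑ t ∈ s, (((min (a t) (τ t) : ℕ) : ℤ) + |e t|) := by
        refine Finset.sum_le_sum fun t _ => ?_
        have := hab t
        push_cast at this ⊢
        exact this
      rw [Finset.sum_add_distrib] at h1
      have h2 : ∑ t ∈ s, |e t| ≤ ∑ t, |e t| :=
        Finset.sum_le_sum_of_subset_of_nonneg (Finset.subset_univ s) fun t _ _ => abs_nonneg _
      have h3 : ∑ t ∈ s, (a t : ℤ) = ((∑ t ∈ s, a t : ℕ) : ℤ) := by push_cast; rfl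
      have h4 : ∑ t ∈ s, ((min (a t) (τ t) : ℕ) : ℤ) =
          ((∑ t ∈ s, min (a t) (τ t) : ℕ) : ℤ) := by push_cast; rfl
      rw [h3, h4] at h1
      omega)
  refine ⟨π, fun t => if t ∈ Φ then a t else b' t, ?_, ?_, ?_, ?_, ?_, hQ2, hQP, hPN⟩
  · intro t ht
    simp only [if_pos ht]
  · intro t ht
    simp only [if_neg ht]
    exact (hb1 t (by rw [hs, Finset.mem_compl]; exact ht)).1
  · intro t
    by_cases ht : t ∈ Φ
    · simp only [if_pos ht]
      exact (hΦ1 t ht).trans (hnr.trans (hτ1 t))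
    · simp only [if_neg ht]
      exact (hb1 t (by rw [hs, Finset.mem_compl]; exact ht)).2
  · have h1 : ∑ t, (if t ∈ Φ then a t else b' t) = ∑ t ∈ Φ, a t + A := by
      rw [hsplit]
      congr 1
      · exact Finset.sum_congr rfl fun t ht => if_pos ht
      · rw [← hb2]
        refine Finset.sum_congr rfl fun t ht => if_neg ?_
        rwa [hs, Finset.mem_compl] at ht
    rw [h1]
    have h2 := hsplit a
    have h3 : (∑ t, (σ t : ℤ) ^ 2) = ((∑ t, σ t ^ 2 : ℕ) : ℤ) := by push_cast; rfl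
    have h4 : (∑ t, (tz r n t : ℤ) ^ 2) = ((∑ t, tz r n t ^ 2 : ℕ) : ℤ) := by push_cast; rfl
    rw [hP, h3, h4] at hS
    omega
  · intro t
    by_cases ht : t ∈ Φ
    · simp only [if_pos ht]
      omega
    · simp only [if_neg ht]
      have h1 := hb3 t
      have h2 := hab t
      have h3 := het t
      have h4 : min (a t) (τ t) ≤ a t := min_le_left _ _
      push_cast at h2
      omega

theorem analytic (r : ℕ) (n N x q P Q : ℝ) (σ τ a a' : Fin r → ℝ) (hr : 3 ≤ r) (hn : 0 < n)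
    (hN : 0 ≤ N) (hx : 0 ≤ x) (hx1 : x ≤ 1 - 2 / (r : ℝ)) (hq : q = 1 - 1 / (r : ℝ))
    (hσ : ∑ t, σ t = n) (hτ : ∑ t, τ t = n) (hP : P = 2 * (∑ t, a t - ∑ t, a' t))
    (hQ2 : 2 ≤ Q) (hQP : Q ≤ P) (hPN : P ≤ N)
    (habs : ∑ t, |σ t - τ t| ≤ Q) (ha0 : ∀ t, 0 ≤ a t) (ha0' : ∀ t, 0 ≤ a' t)
    (ha : ∀ t, a t ≤ σ t) (ha' : ∀ t, a' t ≤ τ t) (haa : ∀ t, |a t - a' t| ≤ 2 * N)
    (hτ1 : ∀ t, |τ t - n / r| ≤ 1)
    (hn2 : (r : ℝ) ^ 2 * ((1 + N) * N + 4 * r * N + 6 * N) ≤ n) :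
    3 / (r : ℝ) ^ 2 ≤ (1 - 2 * x) * (∑ t, a t - ∑ t, a' t) + (1 / 2 - 1 / (r : ℝ)) * P
      + 2 * x / r * (∑ t, (r * a t / n) * (σ t - n / r) - ∑ t, (r * a' t / n) * (τ t - n / r))
      + x ^ 2 / (q * r ^ 2) * (∑ t, (r * a t / n) ^ 2 - ∑ t, (r * a' t / n) ^ 2) := by
  have hr0 : (0 : ℝ) < r := by
    have : 0 < r := by omega
    exact_mod_cast this
  have hr3 : (3 : ℝ) ≤ r := by exact_mod_cast hr
  have hq1 : 2 / 3 ≤ q := by
    rw [hq]
    have : 1 / (r : ℝ) ≤ 1 / 3 := one_div_le_one_div_of_le (by norm_num) hr3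
    linarith
  have hq0 : 0 < q := by linarith
  have hx1' : x ≤ 1 := by
    have : 0 < 2 / (r : ℝ) := by positivity
    linarith
  -- third term
  have e3 : 2 * x / r * (∑ t, (r * a t / n) * (σ t - n / r) - ∑ t, (r * a' t / n) * (τ t - n / r))
      = 2 * x / n * (∑ t, a t * (σ t - τ t) + ∑ t, (a t - a' t) * (τ t - n / r)) := by
    rw [← Finset.sum_sub_distrib, ← Finset.sum_add_distrib, Finset.mul_sum, Finset.mul_sum]
    refine Finset.sum_congr rfl fun t _ => ?_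
    field_simp
    ring
  have e4 : x ^ 2 / (q * r ^ 2) * (∑ t, (r * a t / n) ^ 2 - ∑ t, (r * a' t / n) ^ 2)
      = x ^ 2 / (q * n ^ 2) * ∑ t, (a t - a' t) * (a t + a' t) := by
    rw [← Finset.sum_sub_distrib, Finset.mul_sum, Finset.mul_sum]
    refine Finset.sum_congr rfl fun t _ => ?_
    field_simp
    ring
  set M : ℝ := n / r + 1 + N with hM
  have hM0 : 0 ≤ M := by rw [hM]; positivity
  have habsN : ∀ t, |σ t - τ t| ≤ N := by
    intro t
    have h2 : |σ t - τ t| ≤ ∑ s, |σ s - τ s| :=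
      Finset.single_le_sum (f := fun s => |σ s - τ s|) (fun s _ => abs_nonneg _)
        (Finset.mem_univ t)
    linarith
  have haM : ∀ t, a t ≤ M := by
    intro t
    have h1 := (abs_le.1 (hτ1 t)).2
    have h2 := (abs_le.1 (habsN t)).2
    have h3 := ha t
    rw [hM]
    linarith
  have b1 : -(M * Q / 2) ≤ ∑ t, a t * (σ t - τ t) := by
    have h1 : ∀ t, M * ((σ t - τ t) - |σ t - τ t|) / 2 ≤ a t * (σ t - τ t) := by
      intro t
      rcases le_total 0 (σ t - τ t) with h | h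
      · rw [abs_of_nonneg h]
        have := mul_nonneg (ha0 t) h
        linarith
      · rw [abs_of_nonpos h]
        have := mul_le_mul_of_nonpos_right (haM t) h
        linarith
    have h2 := Finset.sum_le_sum (s := Finset.univ) fun t _ => h1 t
    have h3 : ∑ t, M * ((σ t - τ t) - |σ t - τ t|) / 2 = - (M * (∑ t, |σ t - τ t|) / 2) := by
      rw [← Finset.sum_div, ← Finset.mul_sum, Finset.sum_sub_distrib, Finset.sum_sub_distrib,
        hσ, hτ]
      ring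
    rw [h3] at h2
    have h4 : M * (∑ t, |σ t - τ t|) ≤ M * Q := mul_le_mul_of_nonneg_left habs hM0
    linarith
  have b2 : -(2 * N * r) ≤ ∑ t, (a t - a' t) * (τ t - n / r) := by
    have h1 : ∀ t : Fin r, -(2 * N) ≤ (a t - a' t) * (τ t - n / r) := by
      intro t
      have h2 : |(a t - a' t) * (τ t - n / r)| ≤ 2 * N * 1 := by
        rw [abs_mul]
        exact mul_le_mul (haa t) (hτ1 t) (abs_nonneg _) (by linarith)
      have := (abs_le.1 h2).1
      linarith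
    have h2 := Finset.sum_le_sum (s := (Finset.univ : Finset (Fin r))) fun t _ => h1 t
    rw [Finset.sum_const, Finset.card_univ, Fintype.card_fin, nsmul_eq_mul] at h2
    linarith
  have b3 : -(4 * N * n) ≤ ∑ t, (a t - a' t) * (a t + a' t) := by
    have h1 : ∀ t, -(2 * N) * (σ t + τ t) ≤ (a t - a' t) * (a t + a' t) := by
      intro t
      have h2 := (abs_le.1 (haa t)).1
      have h3 : 0 ≤ a t + a' t := add_nonneg (ha0 t) (ha0' t)
      have h4 : a t + a' t ≤ σ t + τ t := add_le_add (ha t) (ha' t)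
      have h5 := mul_le_mul_of_nonneg_right h2 h3
      have h6 : -(2 * N) * (σ t + τ t) ≤ -(2 * N) * (a t + a' t) :=
        mul_le_mul_of_nonpos_left h4 (by linarith)
      exact h6.trans h5
    have h2 := Finset.sum_le_sum (s := (Finset.univ : Finset (Fin r))) fun t _ => h1 t
    rw [← Finset.mul_sum, Finset.sum_add_distrib, hσ, hτ] at h2
    linarith
  rw [e3, e4]
  have c3 : 2 * x / n * (-(M * Q / 2) + -(2 * N * r)) ≤
      2 * x / n * (∑ t, a t * (σ t - τ t) + ∑ t, (a t - a' t) * (τ t - n / r)) := by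
    apply mul_le_mul_of_nonneg_left _ (by positivity)
    linarith
  have c4 : x ^ 2 / (q * n ^ 2) * (-(4 * N * n)) ≤
      x ^ 2 / (q * n ^ 2) * ∑ t, (a t - a' t) * (a t + a' t) :=
    mul_le_mul_of_nonneg_left b3 (by positivity)
  have d3 : 2 * x / n * (-(M * Q / 2) + -(2 * N * r)) =
      -(x * Q / r) - (x * ((1 + N) * Q) + 4 * x * r * N) / n := by
    rw [hM]
    field_simp
    ring
  have d4 : x ^ 2 / (q * n ^ 2) * (-(4 * N * n)) = -(x ^ 2 / q * (4 * N)) / n := by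
    field_simp
  have hQN : Q ≤ N := hQP.trans hPN
  have f1 : x * ((1 + N) * Q) ≤ (1 + N) * N := by
    calc x * ((1 + N) * Q) ≤ 1 * ((1 + N) * N) := by gcongr
      _ = _ := one_mul _
  have f2 : 4 * x * r * N ≤ 4 * r * N := by
    have : x * (4 * r * N) ≤ 1 * (4 * r * N) := by gcongr
    linarith
  have f3 : x ^ 2 / q * (4 * N) ≤ 6 * N := by
    have h1 : x ^ 2 ≤ 1 := pow_le_one₀ hx hx1'
    have h2 : x ^ 2 / q ≤ 3 / 2 := by
      rw [div_le_iff₀ hq0]
      linarith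
    calc x ^ 2 / q * (4 * N) ≤ 3 / 2 * (4 * N) := by gcongr
      _ = 6 * N := by ring
  have f4 : (x * ((1 + N) * Q) + 4 * x * r * N + x ^ 2 / q * (4 * N)) / n ≤ 1 / (r : ℝ) ^ 2 := by
    rw [div_le_div_iff₀ hn (by positivity)]
    have h1 : (x * ((1 + N) * Q) + 4 * x * r * N + x ^ 2 / q * (4 * N)) * (r : ℝ) ^ 2 ≤
        ((1 + N) * N + 4 * r * N + 6 * N) * (r : ℝ) ^ 2 := by
      gcongr
    linarith
  have g1 : 2 / (r : ℝ) ^ 2 ≤ q - x - x / r := by
    have h1 : x * (1 + 1 / (r : ℝ)) ≤ (1 - 2 / (r : ℝ)) * (1 + 1 / (r : ℝ)) := by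
      apply mul_le_mul_of_nonneg_right hx1 (by positivity)
    have h2 : (1 - 2 / (r : ℝ)) * (1 + 1 / (r : ℝ)) = 1 - 1 / r - 2 / (r : ℝ) ^ 2 := by
      field_simp
      ring
    have h3 : x * (1 + 1 / (r : ℝ)) = x + x / r := by ring
    rw [h2, h3] at h1
    rw [hq]
    linarith
  have g2 : 0 ≤ q - x := by
    have h1 : 0 ≤ x / r := by positivity
    have h2 : 0 < 2 / (r : ℝ) ^ 2 := by positivity
    linarith
  have g3 : (1 - 2 * x) * (∑ t, a t - ∑ t, a' t) + (1 / 2 - 1 / (r : ℝ)) * P = (q - x) * P := by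
    rw [hP, hq]; ring
  have g4 : (q - x) * Q ≤ (q - x) * P := mul_le_mul_of_nonneg_left hQP g2
  have g5 : 2 / (r : ℝ) ^ 2 * 2 ≤ (q - x - x / r) * Q := by
    have h2 : 0 < 2 / (r : ℝ) ^ 2 := by positivity
    calc 2 / (r : ℝ) ^ 2 * 2 ≤ 2 / (r : ℝ) ^ 2 * Q := by gcongr
      _ ≤ (q - x - x / r) * Q := by
        apply mul_le_mul_of_nonneg_right g1
        linarith
  have g6 : (q - x - x / r) * Q = (q - x) * Q - x * Q / r := by ring
  have g7 : 2 / (r : ℝ) ^ 2 * 2 = 4 / (r : ℝ) ^ 2 := by ring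
  have g8 : 4 / (r : ℝ) ^ 2 = 3 / (r : ℝ) ^ 2 + 1 / (r : ℝ) ^ 2 := by ring
  have g9 : (x * ((1 + N) * Q) + 4 * x * r * N + x ^ 2 / q * (4 * N)) / n =
      (x * ((1 + N) * Q) + 4 * x * r * N) / n + (x ^ 2 / q * (4 * N)) / n := by ring
  have g10 : -(x ^ 2 / q * (4 * N)) / n = -((x ^ 2 / q * (4 * N)) / n) := by ring
  rw [d3] at c3
  rw [d4, g10] at c4
  rw [g9] at f4
  rw [g3]
  linarith

end ItemJB

theorem prfJB : EXP_statement → DEV_statement → JB_statement := by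
  intro hE hD r ε hr hε
  have hr0 : (0 : ℝ) < r := by
    have : 0 < r := by omega
    exact_mod_cast this
  have hr3 : (3 : ℝ) ≤ r := by exact_mod_cast hr
  have hq1 : 2 / 3 ≤ qq r := by
    unfold qq
    have : 1 / (r : ℝ) ≤ 1 / 3 := one_div_le_one_div_of_le (by norm_num) hr3
    linarith
  have hq0 : 0 < qq r := by linarith
  have hq2 : qq r ≤ 1 := by
    unfold qq
    have : 0 < 1 / (r : ℝ) := by positivity
    linarith
  refine ⟨qq r / (r : ℝ) ^ 2, by positivity, fun N => ?_⟩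
  obtain ⟨n₁, hn₁⟩ := hE r (3 * N + r) (qq r / (r : ℝ) ^ 2) hr (by positivity)
  obtain ⟨n₂, hn₂⟩ := exists_nat_ge ((2 * (N : ℝ) + 2 + r) / (ε * qq r))
  obtain ⟨n₃, hn₃⟩ := exists_nat_ge
    ((r : ℝ) ^ 2 * ((1 + (N : ℝ)) * N + 4 * r * N + 6 * N))
  refine ⟨max n₁ (max n₂ (max n₃ r)), fun n hn D hD1 hD2 σ a Φ hσ hdev ha hΦ hΦ1 hΦ2 hsum hlt => ?_⟩
  have hnn1 : n₁ ≤ n := (le_max_left _ _).trans hn
  have hnn2 : n₂ ≤ n := (le_max_left _ _).trans ((le_max_right _ _).trans hn)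
  have hnn3 : n₃ ≤ n :=
    (le_max_left _ _).trans ((le_max_right _ _).trans ((le_max_right _ _).trans hn))
  have hnr : r ≤ n :=
    (le_max_right _ _).trans ((le_max_right _ _).trans ((le_max_right _ _).trans hn))
  have hn0 : (0 : ℝ) < n := by
    have : 0 < n := by omega
    exact_mod_cast this
  have hc2 : 2 * (N : ℝ) + 2 + r ≤ ε * (qq r * n) := by
    have h1 : (n₂ : ℝ) ≤ n := by exact_mod_cast hnn2
    have h2 := hn₂.trans h1
    rw [div_le_iff₀ (by positivity)] at h2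
    linarith
  have hc3 : (r : ℝ) ^ 2 * ((1 + (N : ℝ)) * N + 4 * r * N + 6 * N) ≤ n := by
    have h1 : (n₃ : ℝ) ≤ n := by exact_mod_cast hnn3
    exact hn₃.trans h1
  obtain ⟨π, a', g1, g2, g3, g4, g5, g6, g7, g8⟩ := ItemJB.comb hD r N n D ε hr hnr hc2 hD1 hD2
    σ a Φ hσ hdev ha hΦ hΦ1 hΦ2 hsum hlt
  refine ⟨π, a', g1, g2, g3, g4, ?_⟩
  have hr1 : 1 ≤ r := by omega
  obtain ⟨hd1, hd2, hd3, hd4, -, -⟩ := hD r n σ hr1 hσ
  obtain ⟨-, -, -, hd5, -, -⟩ := hD r n (tz r n) hr1 hd1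
  have hτn : ∑ t, tz r n (π t) = n := by
    rw [Equiv.sum_comp π (fun t => tz r n t)]
    exact hd1
  obtain ⟨-, -, -, hd6, -, -⟩ := hD r n (fun t => tz r n (π t)) hr1 hτn
  have hτ2 : ∑ t, (tz r n (π t) : ℝ) ^ 2 = ∑ t, (tz r n t : ℝ) ^ 2 :=
    Equiv.sum_comp π (fun t => (tz r n t : ℝ) ^ 2)
  have hdevτ : dev (fun t => tz r n (π t)) = dev (tz r n) := by rw [hd6, hd5, hτ2]
  set P : ℝ := dev σ - dev (fun t => tz r n (π t)) with hP
  set Q : ℝ := ∑ t, ((σ t : ℝ) - tz r n (π t)) ^ 2 with hQ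
  have hPr : P = ((∑ t, (σ t : ℤ) ^ 2 - ∑ t, (tz r n t : ℤ) ^ 2 : ℤ) : ℝ) := by
    rw [hP, hd4, hdevτ, hd5]
    push_cast
    ring
  have hQr : Q = ((∑ t, ((σ t : ℤ) - tz r n (π t)) ^ 2 : ℤ) : ℝ) := by
    rw [hQ]
    push_cast
    rfl
  have hQ2 : 2 ≤ Q := by rw [hQr]; exact_mod_cast g6
  have hQP : Q ≤ P := by rw [hQr, hPr]; exact_mod_cast g7
  have hPN : P ≤ N := by rw [hPr]; exact_mod_cast g8
  have hPa : P = 2 * (∑ t, (a t : ℝ) - ∑ t, (a' t : ℝ)) := by
    have h1 : 2 * ∑ t, (a' t : ℝ) + ∑ t, (σ t : ℝ) ^ 2 =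
        2 * ∑ t, (a t : ℝ) + ∑ t, (tz r n t : ℝ) ^ 2 := by exact_mod_cast g4
    rw [hP, hd4, hdevτ, hd5]
    linarith
  set x : ℝ := D / (qq r * n) with hx
  have hx0 : 0 ≤ x := by rw [hx]; positivity
  have hx1 : x ≤ 1 - 2 / (r : ℝ) := by
    have h1 : x ≤ 1 - 2 / (r : ℝ) - ε := by
      rw [hx, div_le_iff₀ (by positivity)]
      exact hD2
    linarith
  have habs : ∑ t, |(σ t : ℝ) - tz r n (π t)| ≤ Q := by
    rw [hQ]
    refine Finset.sum_le_sum fun t _ => ?_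
    have h1 : |(σ t : ℤ) - tz r n (π t)| ≤ ((σ t : ℤ) - tz r n (π t)) ^ 2 :=
      ItemJB.abs_le_sq _
    exact_mod_cast h1
  have hτ1 : ∀ t, |(tz r n (π t) : ℝ) - (n : ℝ) / r| ≤ 1 := by
    intro t
    have h5 : (n : ℝ) / r - 1 ≤ ((n / r : ℕ) : ℝ) := by
      have h6 : n < (n / r + 1) * r := by
        rw [mul_comm]
        exact Nat.lt_mul_div_succ n (by omega)
      have h7 : (n : ℝ) < (((n / r : ℕ) : ℝ) + 1) * r := by exact_mod_cast h6
      have h8 : (n : ℝ) / r < ((n / r : ℕ) : ℝ) + 1 := by rwa [div_lt_iff₀ hr0]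
      linarith
    have h6 : ((n / r : ℕ) : ℝ) ≤ (n : ℝ) / r := Nat.cast_div_le
    rw [abs_le]
    unfold tz
    by_cases hc : (π t).val < n % r
    · rw [if_pos hc]
      push_cast
      constructor <;> linarith
    · rw [if_neg hc]
      push_cast
      constructor <;> linarith
  have key := ItemJB.analytic r n N x (qq r) P Q (fun t => (σ t : ℝ))
    (fun t => (tz r n (π t) : ℝ)) (fun t => (a t : ℝ)) (fun t => (a' t : ℝ)) hr hn0
    (Nat.cast_nonneg N) hx0 hx1 rfl (by exact_mod_cast hσ) (by exact_mod_cast hτn) hPa hQ2 hQP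
    hPN habs (fun t => Nat.cast_nonneg _) (fun t => Nat.cast_nonneg _)
    (fun t => by exact_mod_cast ha t) (fun t => by exact_mod_cast g3 t) (by
      intro t
      have h1 := g5 t
      have h2 : (a' t : ℝ) ≤ a t + 2 * N := by exact_mod_cast h1.1
      have h3 : (a t : ℝ) ≤ a' t + 2 * N := by exact_mod_cast h1.2
      rw [abs_le]
      constructor <;> linarith) hτ1 hc3
  have hN0 : (0 : ℝ) ≤ N := Nat.cast_nonneg N
  have hDn : D ≤ n := by
    have h1 : (D : ℝ) ≤ n := by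
      refine hD2.trans ?_
      have h2 : 1 - 2 / (r : ℝ) - ε ≤ 1 := by
        have : 0 < 2 / (r : ℝ) := by positivity
        linarith
      have h3 : qq r * n ≤ 1 * n := by gcongr
      have h4 : 0 ≤ qq r * n := by positivity
      have h5 := mul_le_mul_of_nonneg_right h2 h4
      linarith
    exact_mod_cast h1
  have k1 := hn₁ n D σ a hnn1 hσ (hdev.trans (by push_cast; linarith)) ha hDn
    (hsum.trans (by push_cast; linarith))
  have k2 := hn₁ n D (fun t => tz r n (π t)) a' hnn1 hτn (by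
      rw [hdevτ]; push_cast; linarith) g3 hDn (by
      have h1 : |(∑ t, (a' t : ℝ)) - D| ≤ |(∑ t, (a t : ℝ)) - D| + |P / 2| := by
        have h2 : (∑ t, (a' t : ℝ)) - D = ((∑ t, (a t : ℝ)) - D) - P / 2 := by
          rw [hPa]; ring
        rw [h2]
        exact abs_sub _ _
      have h2 : |P / 2| ≤ N := by
        rw [abs_of_nonneg (by linarith)]
        linarith
      push_cast
      linarith)
  have hdiff : Kx r n D σ a - Kx r n D (fun t => tz r n (π t)) a' =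
      2 * qq r * ((1 - 2 * x) * (∑ t, (a t : ℝ) - ∑ t, (a' t : ℝ)) + (1 / 2 - 1 / (r : ℝ)) * P
      + 2 * x / r * (∑ t, (r * (a t : ℝ) / n) * ((σ t : ℝ) - n / r)
        - ∑ t, (r * (a' t : ℝ) / n) * ((tz r n (π t) : ℝ) - n / r))
      + x ^ 2 / (qq r * r ^ 2) * (∑ t, (r * (a t : ℝ) / n) ^ 2 - ∑ t, (r * (a' t : ℝ) / n) ^ 2)) := by
    unfold Kx
    simp only [← hx]
    rw [hP]
    ring
  have hfin : 2 * qq r * (3 / (r : ℝ) ^ 2) ≤
      Kx r n D σ a - Kx r n D (fun t => tz r n (π t)) a' := by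
    rw [hdiff]
    exact mul_le_mul_of_nonneg_left key (by positivity)
  have k1' := (abs_le.1 k1).1
  have k2' := (abs_le.1 k2).2
  have hpos : 0 < qq r / (r : ℝ) ^ 2 := by positivity
  have he : 2 * qq r * (3 / (r : ℝ) ^ 2) = 6 * (qq r / (r : ℝ) ^ 2) := by ring
  rw [he] at hfin
  linarith

end MP0c3a8f
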