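import Pool.Agent.Work.MP_0c3a8f_co.PB.Stmts2
import Pool.Agent.Work.MP_0c3a8f_co.PB.ItemJB

/-!
# MP_0c3a8f_co, phase B, item JBZ: unbalanced parts are worse, two classes with few neighbours
-/

open Finset

namespace MP0c3a8f

namespace ItemJBZ

/-- a bounded change of the vector changes the two sums by `O(1/n)` -/
theorem sums {r : ℕ} (n N R x q : ℝ) (s a b : Fin r → ℝ) (hr : 0 < (r : ℝ)) (hn : 0 < n)
    (hN : 0 ≤ N) (hR : 0 ≤ R) (hx0 : 0 ≤ x) (hx1 : x ≤ 1) (hq0 : 0 < q) (hq1 : q ≤ 1)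
    (ha0 : ∀ t, 0 ≤ a t) (ha1 : ∀ t, a t ≤ n) (hb0 : ∀ t, 0 ≤ b t) (hb1 : ∀ t, b t ≤ n)
    (hab : ∀ t, |b t - a t| ≤ R) (hs : ∀ t, |s t - n / r| ≤ N) :
    2 * q * (2 * x / r * (∑ t, (r * b t / n) * (s t - n / r) - ∑ t, (r * a t / n) * (s t - n / r))
      + x ^ 2 / (q * r ^ 2) * (∑ t, (r * b t / n) ^ 2 - ∑ t, (r * a t / n) ^ 2))
    ≤ 4 * r * R * (N + 1) / n := by
  have h1 : ∑ t, (r * b t / n) * (s t - n / r) - ∑ t, (r * a t / n) * (s t - n / r) ≤
      r * (r * R / n * N) := by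
    rw [← Finset.sum_sub_distrib]
    have : ∀ t ∈ (Finset.univ : Finset (Fin r)), (r * b t / n) * (s t - n / r) -
        (r * a t / n) * (s t - n / r) ≤ r * R / n * N := by
      intro t _
      have e : (r * b t / n) * (s t - n / r) - (r * a t / n) * (s t - n / r) =
          r / n * ((b t - a t) * (s t - n / r)) := by ring
      rw [e]
      have e2 : (b t - a t) * (s t - n / r) ≤ R * N := by
        calc (b t - a t) * (s t - n / r) ≤ |(b t - a t) * (s t - n / r)| := le_abs_self _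
          _ = |b t - a t| * |s t - n / r| := abs_mul _ _
          _ ≤ R * N := mul_le_mul (hab t) (hs t) (abs_nonneg _) hR
      calc r / n * ((b t - a t) * (s t - n / r)) ≤ r / n * (R * N) := by gcongr
        _ = r * R / n * N := by ring
    calc _ ≤ ∑ _t : Fin r, r * R / n * N := Finset.sum_le_sum this
      _ = r * (r * R / n * N) := by
        rw [Finset.sum_const, Finset.card_univ, Fintype.card_fin, nsmul_eq_mul]
  have h2 : ∑ t, (r * b t / n) ^ 2 - ∑ t, (r * a t / n) ^ 2 ≤ r * (r ^ 2 * (2 * R) / n) := by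
    rw [← Finset.sum_sub_distrib]
    have : ∀ t ∈ (Finset.univ : Finset (Fin r)), (r * b t / n) ^ 2 - (r * a t / n) ^ 2 ≤
        r ^ 2 * (2 * R) / n := by
      intro t _
      have e : (r * b t / n) ^ 2 - (r * a t / n) ^ 2 =
          r ^ 2 / n ^ 2 * ((b t - a t) * (b t + a t)) := by
        field_simp
        ring
      rw [e]
      have e2 : (b t - a t) * (b t + a t) ≤ R * (2 * n) := by
        have e3 := le_of_abs_le (hab t)
        have e4 : 0 ≤ b t + a t := by linarith [ha0 t, hb0 t]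
        have e5 : b t + a t ≤ 2 * n := by linarith [ha1 t, hb1 t]
        calc (b t - a t) * (b t + a t) ≤ R * (b t + a t) := mul_le_mul_of_nonneg_right e3 e4
          _ ≤ R * (2 * n) := mul_le_mul_of_nonneg_left e5 hR
      calc r ^ 2 / n ^ 2 * ((b t - a t) * (b t + a t)) ≤ r ^ 2 / n ^ 2 * (R * (2 * n)) := by
            gcongr
        _ = r ^ 2 * (2 * R) / n := by field_simp
    calc _ ≤ ∑ _t : Fin r, r ^ 2 * (2 * R) / n := Finset.sum_le_sum this
      _ = r * (r ^ 2 * (2 * R) / n) := by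
        rw [Finset.sum_const, Finset.card_univ, Fintype.card_fin, nsmul_eq_mul]
  have h3 : 2 * x / r * (∑ t, (r * b t / n) * (s t - n / r) - ∑ t, (r * a t / n) * (s t - n / r)) ≤
      2 * r * R * N / n := by
    calc _ ≤ 2 * x / r * (r * (r * R / n * N)) := by gcongr
      _ = x * (2 * r * R * N / n) := by field_simp
      _ ≤ 1 * (2 * r * R * N / n) := by gcongr
      _ = 2 * r * R * N / n := one_mul _
  have h4 : q * (x ^ 2 / (q * r ^ 2) * (∑ t, (r * b t / n) ^ 2 - ∑ t, (r * a t / n) ^ 2)) ≤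
      2 * r * R / n := by
    calc _ ≤ q * (x ^ 2 / (q * r ^ 2) * (r * (r ^ 2 * (2 * R) / n))) := by gcongr
      _ = x ^ 2 * (2 * r * R / n) := by field_simp
      _ ≤ 1 ^ 2 * (2 * r * R / n) := by gcongr
      _ = 2 * r * R / n := by ring
  have h5 : q * (2 * r * R * N / n) ≤ 1 * (2 * r * R * N / n) := by gcongr
  have h6 := mul_le_mul_of_nonneg_left h3 hq0.le
  have e : 4 * r * R * (N + 1) / n = 2 * (1 * (2 * r * R * N / n)) + 2 * (2 * r * R / n) := by ring
  rw [e]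
  linarith

theorem sq_le_nat {z : ℝ} {N : ℕ} (h : z ^ 2 ≤ N) : |z| ≤ N := by
  by_contra hc
  push Not at hc
  have h0 : (0 : ℝ) ≤ N := Nat.cast_nonneg N
  have h1 : (N : ℝ) ^ 2 < z ^ 2 := by
    rw [← sq_abs z]
    exact pow_lt_pow_left₀ hc h0 (by norm_num)
  have h2 : (N : ℝ) ≤ (N : ℝ) ^ 2 := by
    have : N ≤ N ^ 2 := Nat.le_self_pow (by norm_num) N
    exact_mod_cast this
  linarith

end ItemJBZ

theorem prfJBZ : EXP_statement → DEV_statement → JBZ_statement := by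
  intro hE hD r ε hr hε
  have hr0 : (0 : ℝ) < r := by
    have : 0 < r := by omega
    exact_mod_cast this
  have hr3 : (3 : ℝ) ≤ r := by exact_mod_cast hr
  have hq1 : 2 / 3 ≤ qq r := by
    unfold qq
    have : 1 / (r : ℝ) ≤ 1 / 3 := one_div_le_one_div_of_le (by norm_num) hr3
    linarith
  have hq0 : 0 < qq r := by linarith
  have hq2 : qq r ≤ 1 := by
    unfold qq
    have : 0 < 1 / (r : ℝ) := by positivity
    linarith
  obtain ⟨c, hc, hJ⟩ := prfJB hE hD r ε hr hε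
  refine ⟨c / 2, by positivity, fun N => ?_⟩
  obtain ⟨n₁, hn₁⟩ := hJ N
  obtain ⟨n₂, hn₂⟩ := hE r N (c / 8) hr (by positivity)
  set R : ℕ := 2 * N + r + 3 with hR
  obtain ⟨n₃, hn₃⟩ := exists_nat_ge ((3 * (N : ℝ) + 3 + r) / (ε * qq r))
  obtain ⟨n₄, hn₄⟩ := exists_nat_ge (4 * r * R * ((N : ℝ) + 1) / (c / 4))
  obtain ⟨n₅, hn₅⟩ := exists_nat_ge ((r : ℝ) * (N + 1))
  refine ⟨max n₁ (max n₂ (max n₃ (max n₄ (max n₅ 1)))),
    fun n hn D hRR σ a i j hij hσ hdev ha hai haj hsum hlt => ?_⟩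
  have hnn1 : n₁ ≤ n := (le_max_left _ _).trans hn
  have hn' := (le_max_right _ _).trans hn
  have hnn2 : n₂ ≤ n := (le_max_left _ _).trans hn'
  have hn'' := (le_max_right _ _).trans hn'
  have hnn3 : n₃ ≤ n := (le_max_left _ _).trans hn''
  have hn''' := (le_max_right _ _).trans hn''
  have hnn4 : n₄ ≤ n := (le_max_left _ _).trans hn'''
  have hn4 := (le_max_right _ _).trans hn'''
  have hnn5 : n₅ ≤ n := (le_max_left _ _).trans hn4
  have hnn6 : 1 ≤ n := (le_max_right _ _).trans hn4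
  have hn0 : (0 : ℝ) < n := by exact_mod_cast hnn6
  have hN0 : (0 : ℝ) ≤ N := Nat.cast_nonneg N
  obtain ⟨hD1, hD2⟩ := hRR
  have hc3 : 3 * (N : ℝ) + 3 + r ≤ ε * (qq r * n) := by
    have h1 : (n₃ : ℝ) ≤ n := by exact_mod_cast hnn3
    have h2 := hn₃.trans h1
    rw [div_le_iff₀ (by positivity)] at h2
    linarith
  have hc4 : 4 * r * R * ((N : ℝ) + 1) / n ≤ c / 4 := by
    have h1 : (n₄ : ℝ) ≤ n := by exact_mod_cast hnn4
    have h2 := hn₄.trans h1
    rw [div_le_iff₀ (by positivity)] at h2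
    rw [div_le_iff₀ hn0]
    linarith
  have hc5 : (r : ℝ) * (N + 1) ≤ n := by
    have h1 : (n₅ : ℝ) ≤ n := by exact_mod_cast hnn5
    exact hn₅.trans h1
  have hdist : ∀ t, |(σ t : ℝ) - n / r| ≤ N := by
    intro t
    apply ItemJBZ.sq_le_nat
    have h1 : ∑ s, (σ s : ℝ) = n := by exact_mod_cast hσ
    have h2 : ((σ t : ℝ) - n / r) ^ 2 ≤ dev σ := by
      unfold dev
      rw [h1]
      exact Finset.single_le_sum (f := fun t => ((σ t : ℝ) - n / r) ^ 2)
        (fun s _ => sq_nonneg _) (Finset.mem_univ t)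
    exact h2.trans hdev
  have hσ1 : ∀ t, 1 ≤ σ t := by
    intro t
    have h1 := (abs_le.1 (hdist t)).1
    have h2 : (N : ℝ) + 1 ≤ n / r := by
      rw [le_div_iff₀ hr0]
      linarith
    have h3 : (1 : ℝ) ≤ σ t := by linarith
    exact_mod_cast h3
  have hqn : qq r * (n : ℝ) ≤ n := by
    have := mul_le_mul_of_nonneg_right hq2 hn0.le
    linarith
  have hDup : (D : ℝ) ≤ (1 - 2 / (r : ℝ)) * n - ε * (qq r * n) := by
    have h0 : 0 ≤ 1 - 2 / (r : ℝ) := by
      have : 2 / (r : ℝ) ≤ 2 / 3 := by gcongr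
      linarith
    have h1 := mul_le_mul_of_nonneg_left hqn h0
    have h2 : (1 - 2 / (r : ℝ) - ε) * (qq r * n) = (1 - 2 / (r : ℝ)) * (qq r * n) -
      ε * (qq r * n) := by ring
    rw [h2] at hD2
    linarith
  have hDn : D ≤ n := by
    have h0 : 0 < 2 / (r : ℝ) := by positivity
    have h1 : (D : ℝ) ≤ n := by
      have h3 : 0 ≤ ε * (qq r * n) := by positivity
      have h4 : 0 ≤ 2 / (r : ℝ) * n := by positivity
      have h5 : (1 - 2 / (r : ℝ)) * n = n - 2 / (r : ℝ) * n := by ring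
      rw [h5] at hDup
      linarith
    exact_mod_cast h1
  have hsum' := abs_le.1 hsum
  classical
  set s : Finset (Fin r) := Finset.univ.filter (fun t => t ≠ i ∧ t ≠ j) with hs
  have hsplit : ∀ g : Fin r → ℕ, ∑ t, g t = ∑ t ∈ s, g t + (g i + g j) := by
    intro g
    have h1 : Finset.univ.filter (fun t => ¬ (t ≠ i ∧ t ≠ j)) = {i, j} := by
      ext t
      simp only [Finset.mem_filter, Finset.mem_univ, true_and, Finset.mem_insert,
        Finset.mem_singleton]
      tauto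
    have h2 := Finset.sum_filter_add_sum_filter_not Finset.univ (fun t => t ≠ i ∧ t ≠ j) g
    rw [h1, Finset.sum_pair hij] at h2
    exact h2.symm
  have hsc : s.card ≤ r := by
    calc s.card ≤ (Finset.univ : Finset (Fin r)).card := Finset.card_le_card (Finset.subset_univ _)
      _ = r := by rw [Finset.card_univ, Fintype.card_fin]
  have hSa : ((∑ t, a t : ℕ) : ℝ) = ∑ t, (a t : ℝ) := by push_cast; rfl
  have hA2 : r + 2 ≤ ∑ t, a t := by
    have h1 : ((r + 2 : ℕ) : ℝ) ≤ ((∑ t, a t : ℕ) : ℝ) := by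
      rw [hSa]
      push_cast
      linarith [hsum'.1]
    exact_mod_cast h1
  have hlo : ∑ t ∈ s, (fun _ => 1 : Fin r → ℕ) t ≤ ∑ t, a t - 2 := by
    simp only [Finset.sum_const, smul_eq_mul, mul_one]
    omega
  have hhi : ∑ t, a t - 2 ≤ ∑ t ∈ s, σ t := by
    have h1 := hsplit σ
    rw [hσ] at h1
    have h2 := (abs_le.1 (hdist i)).2
    have h3 := (abs_le.1 (hdist j)).2
    have h4 : ((∑ t, a t : ℕ) : ℝ) ≤ ((∑ t ∈ s, σ t : ℕ) : ℝ) := by
      have h5 : (n : ℝ) = ((∑ t ∈ s, σ t : ℕ) : ℝ) + (σ i + σ j) := by exact_mod_cast h1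
      have h6 : (1 - 2 / (r : ℝ)) * n = n - 2 * (n / r) := by ring
      rw [h6] at hDup
      rw [hSa]
      linarith [hsum'.2]
    have h5 : ∑ t, a t ≤ ∑ t ∈ s, σ t := by exact_mod_cast h4
    omega
  set b : Fin r → ℕ := fun t => max (a t) 1 with hb
  have hbs1 : ∑ t ∈ s, a t ≤ ∑ t ∈ s, b t := Finset.sum_le_sum fun t _ => le_max_left _ _
  have hbs2 : ∑ t ∈ s, b t ≤ ∑ t ∈ s, a t + r := by
    calc ∑ t ∈ s, b t ≤ ∑ t ∈ s, (a t + 1) := Finset.sum_le_sum fun t _ => by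
          rw [hb]; simp only; omega
      _ = ∑ t ∈ s, a t + s.card := by rw [Finset.sum_add_distrib]; simp
      _ ≤ ∑ t ∈ s, a t + r := by omega
  have hspa := hsplit a
  obtain ⟨b', hb1, hb2, hb3⟩ := ItemJB.adjust s (fun _ => 1) σ (∑ t, a t - 2) hlo hhi
    (2 * N + r + 2) b (fun t _ => ⟨le_max_right _ _, max_le (ha t) (hσ1 t)⟩)
    (by omega) (by omega)
  set a₂ : Fin r → ℕ := fun t => if t = i ∨ t = j then 1 else b' t with ha₂
  have ha2i : a₂ i = 1 := by rw [ha₂]; simp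
  have ha2j : a₂ j = 1 := by rw [ha₂]; simp
  have hmem : ∀ t, t ≠ i → t ≠ j → t ∈ s := fun t h1 h2 => by
    rw [hs, Finset.mem_filter]
    exact ⟨Finset.mem_univ _, h1, h2⟩
  have ha2t : ∀ t, t ∈ s → a₂ t = b' t := by
    intro t ht
    rw [hs, Finset.mem_filter] at ht
    rw [ha₂]
    simp only
    rw [if_neg (by tauto)]
  have hsum2 : ∑ t, a₂ t = ∑ t, a t := by
    rw [hsplit a₂, Finset.sum_congr rfl ha2t, hb2, ha2i, ha2j]
    omega
  have hle2 : ∀ t, 1 ≤ a₂ t ∧ a₂ t ≤ σ t := by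
    intro t
    by_cases h1 : t = i
    · rw [h1, ha2i]; exact ⟨le_rfl, hσ1 i⟩
    · by_cases h2 : t = j
      · rw [h2, ha2j]; exact ⟨le_rfl, hσ1 j⟩
      · have h3 := hmem t h1 h2
        rw [ha2t t h3]
        exact hb1 t h3
  have hdiff : ∀ t, |(a₂ t : ℝ) - a t| ≤ R := by
    intro t
    have key : a₂ t ≤ a t + R ∧ a t ≤ a₂ t + R := by
      by_cases h1 : t = i
      · rw [h1, ha2i]; omega
      · by_cases h2 : t = j
        · rw [h2, ha2j]; omega
        · have h3 := hmem t h1 h2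
          rw [ha2t t h3]
          have h4 := hb3 t
          have h5 : b t ≤ a t + 1 ∧ a t ≤ b t := by
            rw [hb]; simp only; omega
          omega
    have k1 : (a₂ t : ℝ) ≤ a t + R := by exact_mod_cast key.1
    have k2 : (a t : ℝ) ≤ a₂ t + R := by exact_mod_cast key.2
    rw [abs_le]
    constructor <;> linarith
  have hsumR : ∑ t, (a₂ t : ℝ) = ∑ t, (a t : ℝ) := by exact_mod_cast hsum2
  obtain ⟨π, a', g1, g2, g3, g4, g5⟩ := hn₁ n hnn1 D hD1 hD2 σ a₂ {i, j} hσ hdev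
    (fun t => (hle2 t).2) (Finset.card_le_two) (by
      intro t ht
      rw [Finset.mem_insert, Finset.mem_singleton] at ht
      rcases ht with rfl | rfl
      · rw [ha2i]
      · rw [ha2j]) (fun t _ => (hle2 t).1) (by rw [hsumR]; exact hsum) hlt
  have hi' : a' i = 1 := by rw [g1 i (by simp), ha2i]
  have hj' : a' j = 1 := by rw [g1 j (by simp), ha2j]
  refine ⟨π, a', hi', hj', ?_, g3, ?_, ?_⟩
  · intro t
    by_cases ht : t ∈ ({i, j} : Finset (Fin r))
    · rw [Finset.mem_insert, Finset.mem_singleton] at ht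
      rcases ht with rfl | rfl
      · rw [hi']
      · rw [hj']
    · exact g2 t ht
  · rw [g4, hsum2]
  · have k1 := hn₂ n D σ a hnn2 hσ hdev ha hDn hsum
    have k2 := hn₂ n D σ a₂ hnn2 hσ hdev (fun t => (hle2 t).2) hDn (by rw [hsumR]; exact hsum)
    have hx0 : 0 ≤ (D : ℝ) / (qq r * n) := by positivity
    have hx1 : (D : ℝ) / (qq r * n) ≤ 1 := by
      rw [div_le_one (by positivity)]
      have h1 : 1 - 2 / (r : ℝ) - ε ≤ 1 := by
        have : 0 < 2 / (r : ℝ) := by positivity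
        linarith
      have h2 : 0 ≤ qq r * (n : ℝ) := by positivity
      have h3 := mul_le_mul_of_nonneg_right h1 h2
      linarith
    have hσn : ∀ t, σ t ≤ n := by
      intro t
      rw [← hσ]
      exact Finset.single_le_sum (fun s _ => Nat.zero_le _) (Finset.mem_univ t)
    have key := ItemJBZ.sums (r := r) (n : ℝ) N R ((D : ℝ) / (qq r * n)) (qq r)
      (fun t => (σ t : ℝ)) (fun t => (a t : ℝ)) (fun t => (a₂ t : ℝ)) hr0 hn0 hN0
      (Nat.cast_nonneg R) hx0 hx1 hq0 hq2 (fun t => Nat.cast_nonneg _)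
      (fun t => by exact_mod_cast (ha t).trans (hσn t)) (fun t => Nat.cast_nonneg _)
      (fun t => by exact_mod_cast (hle2 t).2.trans (hσn t)) hdiff hdist
    have hKx : Kx r n D σ a₂ - Kx r n D σ a ≤ 4 * r * R * ((N : ℝ) + 1) / n := by
      refine le_trans (le_of_eq ?_) key
      unfold Kx
      simp only
      rw [hsumR]
      ring
    have k1' := (abs_le.1 k1).1
    have k2' := (abs_le.1 k2).2
    linarith

end MP0c3a8f
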