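import Pool.Agent.Work.MP_0c3a8f_co.PB.Stmts

/-!
# MP_0c3a8f_co, phase B: item JF1
-/

open Finset

namespace MP0c3a8f

namespace JF1

theorem term1 (p y κ θ : ℝ) (s : ℤ) (hy : 0 ≤ y) (hp : y * (1 + κ) ≤ p) (h0 : 0 ≤ θ)
    (h1 : θ ≤ 1 + κ) (hκ : 0 ≤ κ) : 0 ≤ p * ((s : ℝ) * (s - 1)) + 2 * y * (θ * s) := by
  have hp0 : 0 ≤ p := le_trans (by positivity) hp
  rcases le_or_gt 0 s with hs | hs
  · have h2 : (0 : ℝ) ≤ (s : ℝ) * (s - 1) := by
      have : 0 ≤ s * (s - 1) := by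
        rcases hs.eq_or_lt with h | h
        · rw [← h]; simp
        · exact mul_nonneg hs (by omega)
      exact_mod_cast this
    have h3 : (0 : ℝ) ≤ s := by exact_mod_cast hs
    positivity
  · have h2 : (s : ℝ) ≤ -1 := by exact_mod_cast (by omega : s ≤ -1)
    have h3 : y * θ ≤ p := (mul_le_mul_of_nonneg_left h1 hy).trans hp
    have h4 : -2 * (s : ℝ) ≤ s * (s - 1) := by nlinarith
    nlinarith [mul_nonneg hp0 (sub_nonneg.2 h4), mul_nonneg (sub_nonneg.2 h3) (by linarith : (0 : ℝ) ≤ -s)]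

theorem term2 (p y κ θ : ℝ) (s : ℤ) (hy : 0 ≤ y) (hp : y * (1 + κ) ≤ p) (h0 : 0 ≤ θ)
    (h1 : θ ≤ 1 + κ) (hκ : 0 ≤ κ) (hκ1 : κ ≤ 1) :
    -(2 * y * κ) ≤ p * ((s : ℝ) * (s - 1)) + 2 * y * ((1 - θ) * (1 - s)) := by
  have hp0 : 0 ≤ p := le_trans (by positivity) hp
  have hyκ : 0 ≤ y * κ := mul_nonneg hy hκ
  rcases lt_trichotomy s 0 with hs | hs | hs
  · have h2 : (s : ℝ) ≤ -1 := by exact_mod_cast (by omega : s ≤ -1)
    have h4 : (1 - (s : ℝ)) ≤ s * (s - 1) := by nlinarith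
    have h5 : 2 * y * κ ≤ p := by nlinarith [mul_nonneg hy (sub_nonneg.2 hκ1)]
    have h6 : -κ * (1 - s) ≤ (1 - θ) * (1 - (s : ℝ)) :=
      mul_le_mul_of_nonneg_right (by linarith) (by linarith)
    have h7 : 2 * y * (-κ * (1 - s)) ≤ 2 * y * ((1 - θ) * (1 - (s : ℝ))) :=
      mul_le_mul_of_nonneg_left h6 (by positivity)
    have h8 : p * (1 - (s : ℝ)) ≤ p * (s * (s - 1)) := mul_le_mul_of_nonneg_left h4 hp0
    have h9 : 0 ≤ (p - 2 * y * κ) * (1 - (s : ℝ)) := mul_nonneg (by linarith) (by linarith)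
    nlinarith
  · subst hs
    simp only [Int.cast_zero, zero_mul, mul_zero, sub_zero, mul_one, zero_add]
    nlinarith [mul_nonneg hy (by linarith : (0 : ℝ) ≤ 1 + κ - θ)]
  · rcases eq_or_lt_of_le (by omega : (1 : ℤ) ≤ s) with h | h
    · rw [← h]; simp; positivity
    · have h2 : (2 : ℝ) ≤ s := by exact_mod_cast (by omega : (2 : ℤ) ≤ s)
      have h4 : 2 * ((s : ℝ) - 1) ≤ s * (s - 1) := by nlinarith
      have h6 : (1 - (s : ℝ)) ≤ (1 - θ) * (1 - (s : ℝ)) := by nlinarith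
      have h7 : 2 * y * (1 - (s : ℝ)) ≤ 2 * y * ((1 - θ) * (1 - (s : ℝ))) :=
        mul_le_mul_of_nonneg_left h6 (by positivity)
      have h8 : p * (2 * ((s : ℝ) - 1)) ≤ p * (s * (s - 1)) := mul_le_mul_of_nonneg_left h4 hp0
      have h9 : 0 ≤ (p - y) * ((s : ℝ) - 1) := mul_nonneg (by linarith) (by linarith)
      nlinarith

/-- the linear part -/
theorem linear {r : ℕ} (hr : 1 ≤ r) (p x κ : ℝ) (θ : Fin r → ℝ) (s : Fin r → ℤ) (ρ : ℝ)
    (hx : 0 ≤ x) (hp : x / r * (1 + κ) ≤ p) (h0 : ∀ t, 0 ≤ θ t) (h1 : ∀ t, θ t ≤ 1 + κ)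
    (hκ : 0 ≤ κ) (hκ1 : κ ≤ 1) (hs : ∑ t, (s t : ℝ) = ρ) :
    2 * x / r * max 0 (∑ t, θ t - (r - ρ)) - 2 * x * κ ≤
      p * ∑ t, (s t : ℝ) * (s t - 1) + 2 * x / r * ∑ t, θ t * s t := by
  have hr0 : (0 : ℝ) < r := by exact_mod_cast hr
  have hy : 0 ≤ x / r := by positivity
  have e2 : 2 * x / r = 2 * (x / r) := by ring
  rw [e2]
  rcases le_total (∑ t, θ t - (r - ρ)) 0 with h | h
  · rw [max_eq_left h]
    have := Finset.sum_nonneg fun (t : Fin r) (_ : t ∈ Finset.univ) =>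
      term1 p (x / r) κ (θ t) (s t) hy hp (h0 t) (h1 t) hκ
    rw [Finset.sum_add_distrib, ← Finset.mul_sum, ← Finset.mul_sum] at this
    have h3 : 0 ≤ 2 * x * κ := by positivity
    linarith
  · rw [max_eq_right h]
    have := Finset.sum_le_sum fun (t : Fin r) (_ : t ∈ Finset.univ) =>
      term2 p (x / r) κ (θ t) (s t) hy hp (h0 t) (h1 t) hκ hκ1
    rw [Finset.sum_add_distrib, ← Finset.mul_sum, ← Finset.mul_sum] at this
    simp only [Finset.sum_const, Finset.card_univ, Fintype.card_fin, nsmul_eq_mul] at this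
    have e3 : ∑ t, (1 - θ t) * (1 - (s t : ℝ)) =
        r - ρ - ∑ t, θ t + ∑ t, θ t * s t := by
      rw [← hs]
      have : ∀ t, (1 - θ t) * (1 - (s t : ℝ)) = 1 - (s t : ℝ) - θ t + θ t * s t := fun t => by ring
      simp only [this, Finset.sum_add_distrib, Finset.sum_sub_distrib, Finset.sum_const,
        Finset.card_univ, Fintype.card_fin, nsmul_eq_mul, mul_one]
    rw [e3] at this
    have e4 : (r : ℝ) * -(2 * (x / r) * κ) = -(2 * x * κ) := by field_simp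
    rw [e4] at this
    nlinarith

theorem card_lt {r ρ : ℕ} (h : ρ ≤ r) :
    ∑ t : Fin r, (if t.val < ρ then (1 : ℝ) else 0) = ρ := by
  rw [Fin.sum_univ_eq_sum_range (fun i => if i < ρ then (1 : ℝ) else 0) r, ← Finset.sum_filter]
  have : (Finset.range r).filter (fun i => i < ρ) = Finset.range ρ := by
    ext i; simp only [Finset.mem_filter, Finset.mem_range]; omega
  rw [this]; simp

theorem gval (r : ℕ) (hr : 3 ≤ r) (x : ℝ) (α b : ℕ)
    (hx1 : 1 / ((r : ℝ) + 1) + 1 / (r : ℝ) ^ 5 ≤ x) (hx2 : x ≤ 1 - 2 / (r : ℝ))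
    (h0 : α = 0 → r ≤ b) (h1 : ¬ (α = 1 ∧ b = 0)) :
    1 / (r : ℝ) ^ 5 ≤ (2 - 2 * x) * ((α : ℝ) - 1) + 2 * x * b - x ^ 3 / r := by
  have hr3 : (3 : ℝ) ≤ r := by exact_mod_cast hr
  have hr0 : (0 : ℝ) < r := by linarith
  have hx0 : 0 < x := lt_of_lt_of_le (by positivity) hx1
  have h2r : 0 < 2 / (r : ℝ) := by positivity
  have hxle : x ≤ 1 := by linarith
  have hr4 : 1 / (r : ℝ) ^ 4 ≤ 1 / (r : ℝ) :=
    one_div_le_one_div_of_le hr0 (by nlinarith [pow_le_pow_right₀ (by linarith : (1 : ℝ) ≤ r) (by norm_num : 1 ≤ 4)])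
  have hr5 : 1 / (r : ℝ) ^ 5 ≤ 1 / (r : ℝ) :=
    one_div_le_one_div_of_le hr0 (by nlinarith [pow_le_pow_right₀ (by linarith : (1 : ℝ) ≤ r) (by norm_num : 1 ≤ 5)])
  have hx3 : x ^ 3 ≤ 1 := pow_le_one₀ hx0.le hxle
  have hx3r : x ^ 3 / r ≤ 1 / r := by gcongr
  have hr1 : 0 < 1 / (r : ℝ) := by positivity
  rcases Nat.eq_zero_or_pos α with ha | ha
  · have hb : (r : ℝ) ≤ b := by exact_mod_cast h0 ha
    subst ha
    have h2 : 2 * x * r ≤ 2 * x * b := mul_le_mul_of_nonneg_left hb (by positivity)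
    rcases le_or_gt x (1 / r) with hc | hc
    · have h3 : x ^ 3 / r ≤ 1 / (r : ℝ) ^ 4 := by
        have : x ^ 3 ≤ (1 / (r : ℝ)) ^ 3 := pow_le_pow_left₀ hx0.le hc 3
        calc x ^ 3 / r ≤ (1 / (r : ℝ)) ^ 3 / r := by gcongr
          _ = 1 / (r : ℝ) ^ 4 := by field_simp
      have h4 : 2 * ((r : ℝ) + 1) * (1 / ((r : ℝ) + 1) + 1 / (r : ℝ) ^ 5) ≤ 2 * ((r : ℝ) + 1) * x :=
        mul_le_mul_of_nonneg_left hx1 (by positivity)
      have h5 : 2 * ((r : ℝ) + 1) * (1 / ((r : ℝ) + 1) + 1 / (r : ℝ) ^ 5) =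
          2 + 2 * ((r : ℝ) + 1) * (1 / (r : ℝ) ^ 5) := by field_simp
      have h6 : 1 / (r : ℝ) ^ 4 = r * (1 / (r : ℝ) ^ 5) := by field_simp
      have h7 : 0 < 1 / (r : ℝ) ^ 5 := by positivity
      rw [h5] at h4
      rw [h6] at h3
      push_cast
      nlinarith
    · have h3 : 1 ≤ x * r := ((div_lt_iff₀ hr0).1 hc).le
      push_cast
      have h4 : 1 / (r : ℝ) ≤ x := hc.le
      nlinarith
  · rcases Nat.eq_zero_or_pos b with hb | hb
    · have h2 : (2 : ℝ) ≤ α := by exact_mod_cast (by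
        rcases Nat.lt_or_ge α 2 with h | h
        · exact absurd ⟨by omega, hb⟩ h1
        · exact h : 2 ≤ α)
      have h3 : (2 - 2 * x) * 1 ≤ (2 - 2 * x) * ((α : ℝ) - 1) :=
        mul_le_mul_of_nonneg_left (by linarith) (by linarith)
      have h4 : 2 / (r : ℝ) = 2 * (1 / r) := by ring
      subst hb
      push_cast
      nlinarith
    · have h2 : (1 : ℝ) ≤ α := by exact_mod_cast ha
      have h3 : (1 : ℝ) ≤ b := by exact_mod_cast hb
      have h4 : 0 ≤ (2 - 2 * x) * ((α : ℝ) - 1) := mul_nonneg (by linarith) (by linarith)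
      have h5 : 2 * x * 1 ≤ 2 * x * b := mul_le_mul_of_nonneg_left h3 (by positivity)
      have h6 : x ^ 3 / r ≤ x := by
        rw [div_le_iff₀ hr0]
        have : x ^ 3 = x * x ^ 2 := by ring
        rw [this]
        refine mul_le_mul_of_nonneg_left ?_ hx0.le
        nlinarith
      have h7 : 1 / (r : ℝ) ^ 5 ≤ x := by
        have : (0 : ℝ) < 1 / ((r : ℝ) + 1) := by positivity
        linarith
      linarith

theorem sum_le {r : ℕ} {n : ℕ} (hr : 1 ≤ r) (hn : 1 ≤ n) (a : Fin r → ℕ)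
    (h : ∀ t : Fin r, t.val < n % r → a t = 1) :
    ∑ t, (r * (a t : ℝ) / n) * (if t.val < n % r then (1 : ℝ) else 0) ≤ (r : ℝ) ^ 2 / n := by
  have hn0 : (0 : ℝ) < n := by exact_mod_cast hn
  have e : ∀ t : Fin r, (r * (a t : ℝ) / n) * (if t.val < n % r then (1 : ℝ) else 0) ≤ r / n := by
    intro t
    split_ifs with ht
    · rw [h t ht]; simp
    · simp only [mul_zero]; positivity
  calc _ ≤ ∑ _t : Fin r, (r : ℝ) / n := Finset.sum_le_sum fun t _ => e t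
    _ = (r : ℝ) ^ 2 / n := by
      simp only [Finset.sum_const, Finset.card_univ, Fintype.card_fin, nsmul_eq_mul]; ring

theorem target_large {r n D : ℕ} (hr : 3 ≤ r) (hn : 1 ≤ n) (a : Fin r → ℕ) (h : Tg1 r n D a) :
    ∑ t, (r * (a t : ℝ) / n) * (if t.val < n % r then (1 : ℝ) else 0) ≤
      max 0 (∑ t, r * (a t : ℝ) / n - (r - (n % r : ℕ))) + (r : ℝ) ^ 2 / n := by
  have hn0 : (0 : ℝ) < n := by exact_mod_cast hn
  have hr0 : (0 : ℝ) < r := by exact_mod_cast (by omega : 0 < r)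
  obtain ⟨h1, h2, h3, h4⟩ := h
  have key : (∀ t : Fin r, t.val < n % r → a t = 1) →
      ∑ t, (r * (a t : ℝ) / n) * (if t.val < n % r then (1 : ℝ) else 0) ≤
      max 0 (∑ t, r * (a t : ℝ) / n - (r - (n % r : ℕ))) + (r : ℝ) ^ 2 / n := fun h =>
    (sum_le (by omega) hn a h).trans (by linarith [le_max_left (0 : ℝ) (∑ t, r * (a t : ℝ) / n - (r - (n % r : ℕ)))])
  rcases h4 with h4 | h4
  · rcases Nat.lt_or_ge (n % r) 2 with hρ | hρ
    · exact key fun t ht => h1 t (by omega)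
    · -- all small classes are full
      have hmod : n % r < r := Nat.mod_lt _ (by omega)
      have hdm : (r : ℝ) * ((n / r : ℕ) : ℝ) + ((n % r : ℕ) : ℝ) = n := by
        exact_mod_cast Nat.div_add_mod n r
      have e1 : ∑ t, r * (a t : ℝ) / n =
          ∑ t, (r * (a t : ℝ) / n) * (if t.val < n % r then (1 : ℝ) else 0) +
          ∑ t : Fin r, (r * ((n / r : ℕ) : ℝ) / n) * (1 - if t.val < n % r then (1 : ℝ) else 0) := by
        rw [← Finset.sum_add_distrib]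
        refine Finset.sum_congr rfl fun t _ => ?_
        split_ifs with ht
        · ring
        · have h5 : tz r n t = n / r := by simp [tz, ht]
          rw [h4 t (by omega) h5, h5]
          ring
      rw [← Finset.mul_sum, Finset.sum_sub_distrib, card_lt hmod.le] at e1
      simp only [Finset.sum_const, Finset.card_univ, Fintype.card_fin, nsmul_eq_mul, mul_one] at e1
      have hρr : ((n % r : ℕ) : ℝ) ≤ r := by exact_mod_cast hmod.le
      have hρ0 : (0 : ℝ) ≤ ((n % r : ℕ) : ℝ) := by positivity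
      have e2 : (r * ((n / r : ℕ) : ℝ) / n) * (r - ((n % r : ℕ) : ℝ)) =
          (r - ((n % r : ℕ) : ℝ)) - ((n % r : ℕ) : ℝ) * (r - ((n % r : ℕ) : ℝ)) / n := by
        have : (r : ℝ) * ((n / r : ℕ) : ℝ) = n - ((n % r : ℕ) : ℝ) := by linarith
        rw [this]; field_simp
      rw [e2] at e1
      have e3 : ((n % r : ℕ) : ℝ) * (r - ((n % r : ℕ) : ℝ)) / n ≤ (r : ℝ) ^ 2 / n := by
        gcongr
        nlinarith
      have e4 := le_max_right (0 : ℝ) (∑ t, r * (a t : ℝ) / n - (r - (n % r : ℕ)))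
      linarith
  · refine key fun t ht => ?_
    rcases Nat.lt_or_ge t.val 2 with h5 | h5
    · exact h1 t (by omega)
    · exact h4 t h5 (by simp [tz, ht])

theorem target_sq {r n : ℕ} (hr : 3 ≤ r) (hn : 1 ≤ n) (a : Fin r → ℕ) (h : ∀ t, a t ≤ tz r n t) :
    ∑ t, (r * (a t : ℝ) / n) ^ 2 ≤ (1 + r / n) * ∑ t, r * (a t : ℝ) / n := by
  have hn0 : (0 : ℝ) < n := by exact_mod_cast hn
  have hr0 : (0 : ℝ) < r := by exact_mod_cast (by omega : 0 < r)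
  have hdm : (r : ℝ) * ((n / r : ℕ) : ℝ) ≤ n := by
    exact_mod_cast Nat.mul_div_le n r
  rw [Finset.mul_sum]
  refine Finset.sum_le_sum fun t _ => ?_
  have h1 : (a t : ℝ) ≤ (n / r : ℕ) + 1 := by
    have : a t ≤ n / r + 1 := (h t).trans (by unfold tz; split_ifs <;> omega)
    exact_mod_cast this
  have h2 : r * (a t : ℝ) / n ≤ 1 + r / n := by
    rw [div_le_iff₀ hn0]
    have : (1 + r / n) * (n : ℝ) = n + r := by field_simp
    rw [this]
    nlinarith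
  have h3 : 0 ≤ r * (a t : ℝ) / n := by positivity
  rw [sq]
  exact mul_le_mul_of_nonneg_right h2 h3

/-- the final linear combination -/
theorem assemble (x α b q c W dT y L L' z z' M A Q Q' E1 E2 E3 X3 κx : ℝ)
    (hfin : (1 - 2 * x) * (α - b + W / 2) + c * (dT + W) + (α + b) -
      ((1 - 2 * x) * 1 + c * dT + 1) = (2 - 2 * x) * (α - 1) + 2 * x * b + (q - x) * W)
    (hlin : y * M - κx ≤ (q - x) * W + y * L) (hQ : 0 ≤ Q) (hQ' : Q' ≤ X3 + E3)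
    (hD2 : y * (L' - z') - y * (M - z) ≤ A) (hD3 : A ≤ E1) (hD4 : κx ≤ E2) :
    (2 - 2 * x) * (α - 1) + 2 * x * b - X3 - (E1 + E2 + E3) ≤
      ((1 - 2 * x) * (α - b + W / 2) + c * (dT + W) + y * (L - z) + Q + (α + b)) -
      ((1 - 2 * x) * 1 + c * dT + y * (L' - z') + Q' + 1) := by
  have e1 : y * (L - z) = y * L - y * z := by ring
  have e2 : y * (M - z) = y * M - y * z := by ring
  rw [e1]
  rw [e2] at hD2
  linarith

theorem sq_le_aux (u N : ℝ) (h : u ^ 2 ≤ N) : u ≤ N + 1 := by nlinarith [sq_nonneg (u - 1)]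

theorem theta_le (r N n σ a : ℝ) (hr : 0 < r) (hn : 0 < n) (h1 : (σ - n / r) ^ 2 ≤ N)
    (ha : a ≤ σ) : r * a / n ≤ 1 + r * (N + 1) / n := by
  have h2 := sq_le_aux _ _ h1
  rw [div_le_iff₀ hn]
  have h4 : (1 + r * (N + 1) / n) * n = n + r * (N + 1) := by field_simp
  rw [h4]
  have h5 : a ≤ n / r + (N + 1) := by linarith
  calc r * a ≤ r * (n / r + (N + 1)) := by gcongr
    _ = n + r * (N + 1) := by field_simp

theorem kap_le (r N n : ℕ) (hr : 1 ≤ r) (hn : 1 ≤ n) (hnN : r ^ 2 * (N + 1) ≤ n) :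
    (r : ℝ) * (N + 1) / n ≤ 1 / r ∧ (r : ℝ) / n ≤ 1 := by
  have hn0 : (0 : ℝ) < n := by exact_mod_cast hn
  have hr0 : (0 : ℝ) < r := by exact_mod_cast hr
  have h1 : (r : ℝ) ^ 2 * (N + 1) ≤ n := by exact_mod_cast hnN
  constructor
  · rw [div_le_div_iff₀ hn0 hr0]
    nlinarith
  · rw [div_le_one hn0]
    have h2 : r ≤ n := by
      refine le_trans ?_ hnN
      nlinarith
    exact_mod_cast h2

theorem p_le (r x κ : ℝ) (hr : 3 ≤ r) (hx0 : 0 ≤ x) (hx2 : x ≤ 1 - 2 / r) (hκ : κ ≤ 1 / r) :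
    x / r * (1 + κ) ≤ 1 - 1 / r - x := by
  have hr0 : 0 < r := by linarith
  have h1 : x / r * (1 + κ) ≤ x / r * (1 + 1 / r) := by gcongr
  have h2 : x * (1 + 1 / r + (1 / r) * (1 / r)) ≤
      (1 - 2 / r) * (1 + 1 / r + (1 / r) * (1 / r)) :=
    mul_le_mul_of_nonneg_right hx2 (by positivity)
  have h3 : (1 - 2 / r) * (1 + 1 / r + (1 / r) * (1 / r)) =
      1 - 1 / r - (1 / r) * (1 / r) - 2 * (1 / r) * ((1 / r) * (1 / r)) := by
    field_simp; ring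
  have h4 : 0 ≤ (1 / r) * (1 / r) := by positivity
  have h5 : 0 ≤ 2 * (1 / r) * ((1 / r) * (1 / r)) := by positivity
  have h6 : x / r * (1 + 1 / r) = x * (1 / r + (1 / r) * (1 / r)) := by ring
  rw [h6] at h1
  have h7 : x * (1 + 1 / r + (1 / r) * (1 / r)) = x + x * (1 / r + (1 / r) * (1 / r)) := by ring
  linarith

theorem Q_le (r n x q Q' Th' : ℝ) (hr : 3 ≤ r) (hn : 0 < n) (hx0 : 0 ≤ x) (hx1 : x ≤ 1)
    (hq : q * r = r - 1) (hrn1 : r / n ≤ 1) (hThx : Th' = (r - 1) * x + r / n)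
    (hsq : Q' ≤ (1 + r / n) * Th') :
    x ^ 2 / (q * r ^ 2) * Q' ≤ x ^ 3 / r + (2 * r ^ 2 + r) / n := by
  have hr0 : 0 < r := by linarith
  have hqpos : 0 < q * r ^ 2 := by rw [sq, ← mul_assoc, hq]; nlinarith
  have hq0 : q ≠ 0 := by rintro rfl; simp at hqpos
  have hrn : 0 ≤ r / n := by positivity
  have h2 : (1 + r / n) * Th' ≤ (r - 1) * x + (r + 2) * (r / n) := by
    rw [hThx]
    have h3 : (r - 1) * x ≤ r := by nlinarith
    have h4 : r / n * ((r - 1) * x) ≤ r / n * r := mul_le_mul_of_nonneg_left h3 hrn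
    have h5 : r / n * (r / n) ≤ r / n * 1 := mul_le_mul_of_nonneg_left hrn1 hrn
    nlinarith
  have h3 : x ^ 2 / (q * r ^ 2) * ((r - 1) * x) = x ^ 3 / r := by
    rw [← hq]; field_simp
  have h4 : x ^ 2 / (q * r ^ 2) ≤ 1 := by
    rw [div_le_one hqpos, sq r, ← mul_assoc, hq]
    nlinarith
  have h5 : 0 ≤ (r + 2) * (r / n) := by positivity
  have h6 : (r + 2) * (r / n) ≤ (2 * r ^ 2 + r) / n := by
    have : (r + 2) * (r / n) = (r ^ 2 + 2 * r) / n := by ring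
    rw [this]
    exact div_le_div_of_nonneg_right (by nlinarith) hn.le
  calc x ^ 2 / (q * r ^ 2) * Q' ≤ x ^ 2 / (q * r ^ 2) * ((r - 1) * x + (r + 2) * (r / n)) := by
        refine mul_le_mul_of_nonneg_left (hsq.trans h2) (by positivity)
    _ = x ^ 3 / r + x ^ 2 / (q * r ^ 2) * ((r + 2) * (r / n)) := by rw [mul_add, h3]
    _ ≤ x ^ 3 / r + 1 * ((r + 2) * (r / n)) := by
        have := mul_le_mul_of_nonneg_right h4 h5
        linarith
    _ ≤ _ := by linarith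

theorem D_le (r n N x ρ Th Th' L' : ℝ) (hr : 0 < r) (hn : 0 < n) (hx0 : 0 ≤ x) (hx1 : x ≤ 1)
    (hρ0 : 0 ≤ ρ) (hρr : ρ ≤ r) (hdiff : |Th - Th'| ≤ r * (3 * N + 1) / n)
    (hL : L' ≤ max 0 (Th' - (r - ρ)) + r ^ 2 / n) :
    2 * x / r * (L' - ρ / r * Th') - 2 * x / r * (max 0 (Th - (r - ρ)) - ρ / r * Th) ≤
      (12 * N + 4 + 2 * r) / n := by
  have hy : 0 ≤ 2 * x / r := by positivity
  have hmax : max 0 (Th' - (r - ρ)) - max 0 (Th - (r - ρ)) ≤ |Th - Th'| := by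
    have h1 : Th' - (r - ρ) ≤ Th - (r - ρ) + |Th - Th'| := by
      have := neg_abs_le (Th - Th'); linarith
    have h2 : max 0 (Th' - (r - ρ)) ≤ max 0 (Th - (r - ρ)) + |Th - Th'| := by
      apply max_le
      · have := le_max_left 0 (Th - (r - ρ)); have := abs_nonneg (Th - Th'); linarith
      · have := le_max_right 0 (Th - (r - ρ)); linarith
    linarith
  have hρ1 : ρ / r * (Th - Th') ≤ |Th - Th'| := by
    have h1 : ρ / r ≤ 1 := (div_le_one hr).2 hρr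
    have h2 : 0 ≤ ρ / r := by positivity
    calc ρ / r * (Th - Th') ≤ ρ / r * |Th - Th'| := mul_le_mul_of_nonneg_left (le_abs_self _) h2
      _ ≤ 1 * |Th - Th'| := mul_le_mul_of_nonneg_right h1 (abs_nonneg _)
      _ = _ := one_mul _
  have hD2 : 2 * x / r * (L' - ρ / r * Th') - 2 * x / r * (max 0 (Th - (r - ρ)) - ρ / r * Th) ≤
      2 * x / r * (2 * |Th - Th'| + r ^ 2 / n) := by
    rw [← mul_sub]
    refine mul_le_mul_of_nonneg_left ?_ hy
    have : ρ / r * (Th - Th') = ρ / r * Th - ρ / r * Th' := by ring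
    linarith
  refine hD2.trans ?_
  have h1 : 2 * x / r ≤ 2 / r := by
    rw [div_le_div_iff_of_pos_right hr]; linarith
  calc 2 * x / r * (2 * |Th - Th'| + r ^ 2 / n)
      ≤ 2 / r * (2 * (r * (3 * N + 1) / n) + r ^ 2 / n) := by gcongr
    _ = (12 * N + 4 + 2 * r) / n := by field_simp; ring

/-- the numbers `W` and `s` -/
theorem basic (r N n D : ℕ) (hr : 3 ≤ r) (σ a : Fin r → ℕ) (α b : ℕ) (hDEV : DEV_statement)
    (hσ : ∑ t, σ t = n) (hdev : dev σ ≤ N) (hαb : α + b ≤ N)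
    (hm : 2 * D + 2 * α + ∑ t, σ t ^ 2 = ∑ t, tz r n t ^ 2 + 2 * ∑ t, a t + 2 * b) :
    ∃ (s : Fin r → ℤ) (W : ℝ), (∀ t, (s t : ℝ) = (σ t : ℝ) - ((n / r : ℕ) : ℝ)) ∧
      ∑ t, (s t : ℝ) = ((n % r : ℕ) : ℝ) ∧ ∑ t, (s t : ℝ) * (s t - 1) = W ∧
      dev σ = dev (tz r n) + W ∧ 0 ≤ dev (tz r n) ∧ 0 ≤ W ∧ W ≤ N ∧
      ∑ t, (a t : ℝ) - D = α - b + W / 2 := by
  have hr0 : (0 : ℝ) < r := by exact_mod_cast (by omega : 0 < r)
  obtain ⟨hT1, -, -, hdσ, -, -⟩ := hDEV r n σ (by omega) hσ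
  have hdT' := (hDEV r n (tz r n) (by omega) hT1).2.2.2.1
  have hmod : n % r < r := Nat.mod_lt _ (by omega)
  have hdm : (r : ℝ) * ((n / r : ℕ) : ℝ) + ((n % r : ℕ) : ℝ) = n := by
    exact_mod_cast Nat.div_add_mod n r
  have hσr : ∑ t, (σ t : ℝ) = n := by exact_mod_cast hσ
  have hssum : ∑ t, ((σ t : ℝ) - ((n / r : ℕ) : ℝ)) = ((n % r : ℕ) : ℝ) := by
    simp only [Finset.sum_sub_distrib, hσr, Finset.sum_const, Finset.card_univ,
      Fintype.card_fin, nsmul_eq_mul]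
    linarith
  have htz2 : ∑ t, (tz r n t : ℝ) ^ 2 = r * ((n / r : ℕ) : ℝ) ^ 2 +
      (2 * ((n / r : ℕ) : ℝ) + 1) * ((n % r : ℕ) : ℝ) := by
    have : ∀ t : Fin r, (tz r n t : ℝ) ^ 2 = ((n / r : ℕ) : ℝ) ^ 2 +
        (2 * ((n / r : ℕ) : ℝ) + 1) * if t.val < n % r then (1 : ℝ) else 0 := fun t => by
      unfold tz; split_ifs <;> push_cast <;> ring
    simp only [this, Finset.sum_add_distrib, ← Finset.mul_sum, card_lt hmod.le, Finset.sum_const,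
      Finset.card_univ, Fintype.card_fin, nsmul_eq_mul]
  have hσ2 : ∑ t, (σ t : ℝ) ^ 2 = r * ((n / r : ℕ) : ℝ) ^ 2 +
      (2 * ((n / r : ℕ) : ℝ) + 1) * ((n % r : ℕ) : ℝ) +
      ∑ t, ((σ t : ℝ) - ((n / r : ℕ) : ℝ)) * (((σ t : ℝ) - ((n / r : ℕ) : ℝ)) - 1) := by
    have : ∀ t : Fin r, (σ t : ℝ) ^ 2 = ((n / r : ℕ) : ℝ) ^ 2 +
        (2 * ((n / r : ℕ) : ℝ) + 1) * ((σ t : ℝ) - ((n / r : ℕ) : ℝ)) +
        ((σ t : ℝ) - ((n / r : ℕ) : ℝ)) * (((σ t : ℝ) - ((n / r : ℕ) : ℝ)) - 1) := fun t => by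
      ring
    rw [Finset.sum_congr rfl fun t _ => this t, Finset.sum_add_distrib, Finset.sum_add_distrib,
      ← Finset.mul_sum, hssum]
    simp only [Finset.sum_const, Finset.card_univ, Fintype.card_fin, nsmul_eq_mul]
  have hmr : 2 * (D : ℝ) + 2 * α + ∑ t, (σ t : ℝ) ^ 2 =
      ∑ t, (tz r n t : ℝ) ^ 2 + 2 * ∑ t, (a t : ℝ) + 2 * b := by exact_mod_cast hm
  have hdT0 : 0 ≤ dev (tz r n) := Finset.sum_nonneg fun t _ => sq_nonneg _
  have hW0 : 0 ≤ ∑ t, ((σ t : ℝ) - ((n / r : ℕ) : ℝ)) * (((σ t : ℝ) - ((n / r : ℕ) : ℝ)) - 1) := by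
    refine Finset.sum_nonneg fun t _ => ?_
    have h1 : 0 ≤ ((σ t : ℤ) - ((n / r : ℕ) : ℤ)) * (((σ t : ℤ) - ((n / r : ℕ) : ℤ)) - 1) := by
      rcases le_or_gt ((σ t : ℤ) - ((n / r : ℕ) : ℤ)) 0 with h | h
      · exact mul_nonneg_of_nonpos_of_nonpos h (by omega)
      · exact mul_nonneg h.le (by omega)
    have h2 : (0 : ℝ) ≤ (((((σ t : ℤ) - ((n / r : ℕ) : ℤ)) * (((σ t : ℤ) - ((n / r : ℕ) : ℤ)) - 1)) : ℤ) : ℝ) := by
      exact_mod_cast h1
    push_cast at h2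
    exact h2
  generalize hW : ∑ t, ((σ t : ℝ) - ((n / r : ℕ) : ℝ)) * (((σ t : ℝ) - ((n / r : ℕ) : ℝ)) - 1) = W at *
  have hWdev : dev σ = dev (tz r n) + W := by rw [hdσ, hdT', htz2, hσ2]; ring
  refine ⟨fun t => (σ t : ℤ) - ((n / r : ℕ) : ℤ), W, fun t => by push_cast; rfl, ?_, ?_, hWdev, hdT0,
    hW0, by linarith, ?_⟩
  · push_cast; exact hssum
  · push_cast; exact hW
  · rw [hσ2, htz2] at hmr; linarith

/-- the final comparison -/
theorem core (r N n D : ℕ) (hr : 3 ≤ r) (hn : 1 ≤ n) (hnN : r ^ 2 * (N + 1) ≤ n)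
    (σ a a' : Fin r → ℕ) (α b : ℕ) (x : ℝ) (hxD : (D : ℝ) = x * (qq r * n)) (hx0 : 0 ≤ x)
    (hx2 : x ≤ 1 - 2 / (r : ℝ)) (hDEV : DEV_statement) (hσ : ∑ t, σ t = n) (hdev : dev σ ≤ N)
    (ha : ∀ t, a t ≤ σ t) (hαb : α + b ≤ N)
    (hm : 2 * D + 2 * α + ∑ t, σ t ^ 2 = ∑ t, tz r n t ^ 2 + 2 * ∑ t, a t + 2 * b)
    (hT : Tg1 r n D a') :
    |(∑ t, (a t : ℝ)) - D| ≤ 3 * N ∧
    (2 - 2 * x) * ((α : ℝ) - 1) + 2 * x * b - x ^ 3 / r
        - ((12 * N + 4 + 2 * r) / n + 2 * r * (N + 1) / n + (2 * r ^ 2 + r) / n) ≤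
      ((1 - 2 * x) * (∑ t, (a t : ℝ) - D) + (1 / 2 - 1 / (r : ℝ)) * dev σ
        + 2 * x / r * ∑ t, (r * (a t : ℝ) / n) * ((σ t : ℝ) - n / r)
        + x ^ 2 / (qq r * r ^ 2) * ∑ t, (r * (a t : ℝ) / n) ^ 2 + (α + b)) -
      ((1 - 2 * x) * (∑ t, (a' t : ℝ) - D) + (1 / 2 - 1 / (r : ℝ)) * dev (tz r n)
        + 2 * x / r * ∑ t, (r * (a' t : ℝ) / n) * ((tz r n t : ℝ) - n / r)
        + x ^ 2 / (qq r * r ^ 2) * ∑ t, (r * (a' t : ℝ) / n) ^ 2 + 1) := by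
  have hn0 : (0 : ℝ) < n := by exact_mod_cast hn
  have hr3 : (3 : ℝ) ≤ r := by exact_mod_cast hr
  have hr0 : (0 : ℝ) < r := by linarith
  have hq : qq r = 1 - 1 / (r : ℝ) := rfl
  have hqr : qq r * r = r - 1 := by rw [hq]; field_simp
  have hxle : x ≤ 1 := by
    have : 0 < 2 / (r : ℝ) := by positivity
    linarith
  obtain ⟨s, W, hsr, hssum, hW, hWdev, hdT0, hW0, hWN, hh⟩ :=
    basic r N n D hr σ a α b hDEV hσ hdev hαb hm
  obtain ⟨hκ1, hrn1⟩ := kap_le r N n (by omega) hn hnN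
  have hκ0 : 0 ≤ (r : ℝ) * (N + 1) / n := by positivity
  have hmod : n % r < r := Nat.mod_lt _ (by omega)
  have hdm : (r : ℝ) * ((n / r : ℕ) : ℝ) + ((n % r : ℕ) : ℝ) = n := by
    exact_mod_cast Nat.div_add_mod n r
  have hρ0 : (0 : ℝ) ≤ ((n % r : ℕ) : ℝ) := by positivity
  have hρr : ((n % r : ℕ) : ℝ) ≤ r := by exact_mod_cast hmod.le
  have hσr : ∑ t, (σ t : ℝ) = n := by exact_mod_cast hσ
  have hαbr : (α : ℝ) + b ≤ N := by exact_mod_cast hαb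
  have hα0 : (0 : ℝ) ≤ α := by positivity
  have hb0 : (0 : ℝ) ≤ b := by positivity
  have hhN : |(∑ t, (a t : ℝ)) - D| ≤ 3 * N := by
    rw [hh, abs_le]; constructor <;> linarith
  refine ⟨hhN, ?_⟩
  have ha'0 : ∑ t, (a' t : ℝ) = D + 1 := by exact_mod_cast hT.2.2.1
  have ha' : ∑ t, (a' t : ℝ) - D = 1 := by linarith
  have hθ0 : ∀ t, 0 ≤ r * (a t : ℝ) / n := fun t => by positivity
  have hθ1 : ∀ t, r * (a t : ℝ) / n ≤ 1 + r * (N + 1) / n := fun t => by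
    refine theta_le r N n (σ t) (a t) hr0 hn0 (le_trans ?_ hdev) (by exact_mod_cast ha t)
    have h1 := Finset.single_le_sum (f := fun t => ((σ t : ℝ) - (∑ s, (σ s : ℝ)) / r) ^ 2)
      (fun t _ => sq_nonneg _) (Finset.mem_univ t)
    simp only [hσr] at h1
    unfold dev
    rw [hσr]
    exact h1
  have hThe : ∑ t, r * (a t : ℝ) / n = r * (∑ t, (a t : ℝ)) / n := by
    rw [← Finset.sum_div, ← Finset.mul_sum]
  have hThe' : ∑ t, r * (a' t : ℝ) / n = r * (∑ t, (a' t : ℝ)) / n := by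
    rw [← Finset.sum_div, ← Finset.mul_sum]
  have hdiff : |∑ t, r * (a t : ℝ) / n - ∑ t, r * (a' t : ℝ) / n| ≤ r * (3 * N + 1) / n := by
    have : ∑ t, r * (a t : ℝ) / n - ∑ t, r * (a' t : ℝ) / n =
        r * ((∑ t, (a t : ℝ) - D) - 1) / n := by
      rw [hThe, hThe', ← ha']; ring
    rw [this, abs_div, abs_mul, abs_of_pos hr0, abs_of_pos hn0]
    refine div_le_div_of_nonneg_right (mul_le_mul_of_nonneg_left ?_ hr0.le) hn0.le
    have h1 := abs_le.1 hhN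
    rw [abs_le]; constructor <;> linarith
  have hThx : ∑ t, r * (a' t : ℝ) / n = (r - 1) * x + r / n := by
    rw [hThe', ha'0, hxD]
    have : (r : ℝ) * (x * (qq r * n) + 1) / n = (qq r * r) * x + r / n := by field_simp
    rw [this, hqr]
  have hp : x / r * (1 + r * (N + 1) / n) ≤ qq r - x := p_le r x _ hr3 hx0 hx2 hκ1
  have hlin := linear (by omega : 1 ≤ r) (qq r - x) x _ (fun t => r * (a t : ℝ) / n) s _ hx0 hp hθ0
    hθ1 hκ0 (hκ1.trans ((div_le_one hr0).2 (by linarith))) hssum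
  rw [hW] at hlin
  have hL := target_large hr hn a' hT
  have hsq := target_sq hr hn a' (fun t => (hT.2.1 t).2)
  have hQ' := Q_le r n x (qq r) _ _ hr3 hn0 hx0 hxle hqr hrn1 hThx hsq
  have hnr : (n : ℝ) / r = ((n / r : ℕ) : ℝ) + ((n % r : ℕ) : ℝ) / r := by
    rw [← hdm]; field_simp
  have e1 : ∑ t, (r * (a t : ℝ) / n) * ((σ t : ℝ) - n / r) =
      ∑ t, (r * (a t : ℝ) / n) * s t - ((n % r : ℕ) : ℝ) / r * ∑ t, r * (a t : ℝ) / n := by
    rw [Finset.mul_sum, ← Finset.sum_sub_distrib]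
    refine Finset.sum_congr rfl fun t _ => ?_
    rw [hsr t, hnr]; ring
  have e1' : ∑ t, (r * (a' t : ℝ) / n) * ((tz r n t : ℝ) - n / r) =
      ∑ t, (r * (a' t : ℝ) / n) * (if t.val < n % r then (1 : ℝ) else 0) -
        ((n % r : ℕ) : ℝ) / r * ∑ t, r * (a' t : ℝ) / n := by
    rw [Finset.mul_sum, ← Finset.sum_sub_distrib]
    refine Finset.sum_congr rfl fun t _ => ?_
    have : (tz r n t : ℝ) = ((n / r : ℕ) : ℝ) + if t.val < n % r then (1 : ℝ) else 0 := by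
      unfold tz; split_ifs <;> push_cast <;> ring
    rw [this, hnr]; ring
  have hD := D_le r n N x ((n % r : ℕ) : ℝ) _ _ _ hr0 hn0 hx0 hxle hρ0 hρr hdiff hL
  have hD4 : 2 * x * (r * (N + 1) / n) ≤ 2 * r * (N + 1) / n := by
    calc 2 * x * (r * (N + 1) / n) ≤ 2 * 1 * (r * (N + 1) / n) :=
          mul_le_mul_of_nonneg_right (by linarith) hκ0
      _ = _ := by ring
  rw [e1, e1', hh, ha', hWdev]
  have hQ1 : 0 ≤ x ^ 2 / (qq r * r ^ 2) * ∑ t, (r * (a t : ℝ) / n) ^ 2 := by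
    have hqpos : 0 ≤ qq r := by
      have : 1 / (r : ℝ) ≤ 1 := (div_le_one hr0).2 (by linarith)
      rw [hq]; linarith
    have : 0 ≤ ∑ t, (r * (a t : ℝ) / n) ^ 2 := Finset.sum_nonneg fun t _ => sq_nonneg _
    positivity
  exact assemble x α b (qq r) (1 / 2 - 1 / (r : ℝ)) W (dev (tz r n)) (2 * x / r) _ _ _ _ _ _ _ _ _ _
    _ _ _ (by rw [hq]; ring) hlin hQ1 hQ' hD le_rfl hD4

end JF1

theorem prfJF1 : EXP_statement → DEV_statement → JF1_statement := by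
  intro hE hDEV r ε hr hε
  have hr3 : (3 : ℝ) ≤ r := by exact_mod_cast hr
  have hr0 : (0 : ℝ) < r := by linarith
  have hr1 : 1 / (r : ℝ) ≤ 1 / 3 := by
    apply one_div_le_one_div_of_le <;> linarith
  have hq0 : 0 < qq r := by
    have : qq r = 1 - 1 / (r : ℝ) := rfl
    linarith
  have hq1 : qq r ≤ 1 := by
    have : qq r = 1 - 1 / (r : ℝ) := rfl
    have : 0 < 1 / (r : ℝ) := by positivity
    linarith
  have h5 : (0 : ℝ) < 1 / (r : ℝ) ^ 5 := by positivity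
  refine ⟨qq r * (1 / (r : ℝ) ^ 5), by positivity, fun N => ?_⟩
  obtain ⟨n₁, hn₁⟩ := hE r (3 * N + 3 * r) (qq r * (1 / (r : ℝ) ^ 5) / 4) hr (by positivity)
  set K : ℝ := (12 * N + 4 + 2 * r) + 2 * r * (N + 1) + (2 * r ^ 2 + r) with hK
  have hK0 : 0 < K := by positivity
  obtain ⟨n₂, hn₂⟩ := exists_nat_gt (K / (1 / (r : ℝ) ^ 5 / 4))
  refine ⟨n₁ + n₂ + r ^ 2 * (N + 1) + 1, fun n hn D hD1 hD2 σ a a' α b hσ hdev ha hαb hm h0 h1 hT =>
    ?_⟩
  have hn0 : (0 : ℝ) < n := by exact_mod_cast (by omega : 0 < n)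
  have hqn : 0 < qq r * n := by positivity
  set x : ℝ := D / (qq r * n) with hx
  have hxD : (D : ℝ) = x * (qq r * n) := by rw [hx]; field_simp
  have hx1 : 1 / ((r : ℝ) + 1) + 1 / (r : ℝ) ^ 5 ≤ x := by
    rw [hx, le_div_iff₀ hqn]; exact hD1
  have hx2 : x ≤ 1 - 2 / (r : ℝ) := by
    rw [hx, div_le_iff₀ hqn]
    exact hD2.trans (mul_le_mul_of_nonneg_right (by linarith) hqn.le)
  have hx0 : 0 ≤ x := by positivity
  obtain ⟨c1, c2⟩ := JF1.core r N n D hr (by omega) (by omega) σ a a' α b x hxD hx0 hx2 hDEV hσ hdev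
    ha hαb hm hT
  have c3 := JF1.gval r hr x α b hx1 hx2 h0 h1
  have hDn : D ≤ n := by
    have : (D : ℝ) ≤ n := by
      rw [hxD]
      have : 0 < 2 / (r : ℝ) := by positivity
      have hx' : x ≤ 1 := by linarith
      calc x * (qq r * n) ≤ 1 * (1 * n) := by gcongr
        _ = n := by ring
    exact_mod_cast this
  have hN' : ((3 * N + 3 * r : ℕ) : ℝ) = 3 * N + 3 * r := by push_cast; ring
  have hNn : (0 : ℝ) ≤ N := by positivity
  have d1 := hn₁ n D σ a (by omega) hσ (by rw [hN']; linarith) ha hDn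
    (by rw [hN']; linarith)
  obtain ⟨hT1, -, hdT, -, -, -⟩ := hDEV r n (tz r n) (by omega) (hDEV r n σ (by omega) hσ).1
  have ha' : ∑ t, (a' t : ℝ) - D = 1 := by
    have := hT.2.2.1
    have h' : ∑ t, (a' t : ℝ) = D + 1 := by exact_mod_cast this
    linarith
  have d2 := hn₁ n D (tz r n) a' (by omega) hT1 (by rw [hN']; linarith) (fun t => (hT.2.1 t).2) hDn
    (by rw [hN', ha']; simp only [abs_one]; linarith)
  have hKn : K / n ≤ 1 / (r : ℝ) ^ 5 / 4 := by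
    have h6 : (n₂ : ℝ) ≤ n := by exact_mod_cast (by omega : n₂ ≤ n)
    rw [div_lt_iff₀ (by positivity)] at hn₂
    rw [div_le_iff₀ hn0]
    nlinarith
  rw [← add_div, ← add_div, ← hK] at c2
  have d1' := (abs_le.1 d1).1
  have d2' := (abs_le.1 d2).2
  unfold Kx at d1' d2'
  simp only [← hx] at d1' d2'
  set J1 : ℝ := (1 - 2 * x) * (∑ t, (a t : ℝ) - D) + (1 / 2 - 1 / (r : ℝ)) * dev σ
        + 2 * x / r * ∑ t, (r * (a t : ℝ) / n) * ((σ t : ℝ) - n / r)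
        + x ^ 2 / (qq r * r ^ 2) * ∑ t, (r * (a t : ℝ) / n) ^ 2 with hJ1
  set J2 : ℝ := (1 - 2 * x) * (∑ t, (a' t : ℝ) - D) + (1 / 2 - 1 / (r : ℝ)) * dev (tz r n)
        + 2 * x / r * ∑ t, (r * (a' t : ℝ) / n) * ((tz r n t : ℝ) - n / r)
        + x ^ 2 / (qq r * r ^ 2) * ∑ t, (r * (a' t : ℝ) / n) ^ 2 with hJ2
  have c4 : 1 / (r : ℝ) ^ 5 - 1 / (r : ℝ) ^ 5 / 4 ≤ J1 + (α + b) - (J2 + 1) := by linarith
  have c5 := mul_le_mul_of_nonneg_left c4 (by positivity : (0 : ℝ) ≤ 2 * qq r)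
  have c6 : 2 * qq r * (J1 + (α + b) - (J2 + 1)) =
      2 * qq r * J1 + 2 * qq r * (α + b) - 2 * qq r * J2 - 2 * qq r := by ring
  have c7 : 2 * qq r * (1 / (r : ℝ) ^ 5 - 1 / (r : ℝ) ^ 5 / 4) =
      3 / 2 * (qq r * (1 / (r : ℝ) ^ 5)) := by ring
  rw [c6, c7] at c5
  linarith

end MP0c3a8f
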