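import Pool.Agent.Work.MP_0c3a8f_co.PB.Stmts

/-!
# MP_0c3a8f_co, phase B, item JF2
-/

set_option autoImplicit false

open Finset

namespace MP0c3a8f

namespace JF2x

lemma qq_pos {r : ℕ} (hr : 3 ≤ r) : 0 < qq r := by
  unfold qq
  have h3 : (3 : ℝ) ≤ r := by exact_mod_cast hr
  have : 1 / (r : ℝ) < 1 := by rw [div_lt_one (by linarith)]; linarith
  linarith

lemma qq_le {r : ℕ} : qq r ≤ 1 := by
  unfold qq
  have : 0 ≤ 1 / (r : ℝ) := by positivity
  linarith

/-- integers -/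
lemma int_sq (s : ℤ) : 0 ≤ (s : ℝ) * (s - 1) := by
  rcases le_or_gt s 0 with h | h
  · have : (s : ℝ) ≤ 0 := by exact_mod_cast h
    nlinarith
  · have : (1 : ℝ) ≤ s := by exact_mod_cast h
    nlinarith

lemma int_bd (s : ℤ) (B : ℝ) (h : (s : ℝ) * (s - 1) ≤ B) : |(s : ℝ)| ≤ B + 1 := by
  have h0 : 0 ≤ B := (int_sq s).trans h
  rw [abs_le]
  rcases le_or_gt s 0 with h1 | h1
  · have h2 : (s : ℝ) ≤ 0 := by exact_mod_cast h1
    constructor
    · nlinarith
    · linarith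
  · rcases le_or_gt s 1 with h2 | h2
    · have h3 : (1 : ℝ) ≤ s := by exact_mod_cast h1
      have h4 : (s : ℝ) ≤ 1 := by exact_mod_cast h2
      constructor <;> linarith
    · have h3 : (2 : ℝ) ≤ s := by exact_mod_cast h2
      constructor
      · linarith
      · nlinarith

/-- the first estimate of one term -/
lemma term_a (s : ℤ) (θ η B : ℝ) (h0 : 0 ≤ θ) (h1 : θ ≤ 1 + η) (hη : 0 ≤ η)
    (hB : (s : ℝ) * (s - 1) ≤ B) : -(θ * s) ≤ (s : ℝ) * (s - 1) / 2 + η * (B + 2) := by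
  have hb := abs_le.1 (int_bd s B hB)
  have hs := int_sq s
  have hB0 : 0 ≤ B := hs.trans hB
  rcases le_or_gt 0 s with h | h
  · have h2 : (0 : ℝ) ≤ s := by exact_mod_cast h
    have : 0 ≤ θ * s := mul_nonneg h0 h2
    have : 0 ≤ η * (B + 2) := by positivity
    linarith
  · have h2 : (s : ℝ) ≤ -1 := by
      have : s ≤ -1 := by omega
      exact_mod_cast this
    have h3 : θ * (-s) ≤ (1 + η) * (-s) := mul_le_mul_of_nonneg_right h1 (by linarith)
    have h4 : η * (-s) ≤ η * (B + 2) := mul_le_mul_of_nonneg_left (by linarith) hη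
    nlinarith

/-- the second estimate of one term -/
lemma term_b (s : ℤ) (θ η B : ℝ) (h0 : 0 ≤ θ) (h1 : θ ≤ 1 + η) (hη : 0 ≤ η)
    (hB : (s : ℝ) * (s - 1) ≤ B) :
    (θ - 1) * (1 - s) ≤ (s : ℝ) * (s - 1) / 2 + η * (B + 2) := by
  have hb := abs_le.1 (int_bd s B hB)
  have hs := int_sq s
  have hB0 : 0 ≤ B := hs.trans hB
  have h5 : 0 ≤ η * (B + 2) := by positivity
  rcases le_or_gt s 1 with h | h
  · have h2 : (s : ℝ) ≤ 1 := by exact_mod_cast h
    have h3 : (θ - 1) * (1 - s) ≤ η * (1 - s) := mul_le_mul_of_nonneg_right (by linarith) (by linarith)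
    have h4 : η * (1 - s) ≤ η * (B + 2) := mul_le_mul_of_nonneg_left (by linarith) hη
    linarith
  · have h2 : (2 : ℝ) ≤ s := by
      have : 2 ≤ s := by omega
      exact_mod_cast this
    have h3 : (1 - θ) * (s - 1) ≤ 1 * (s - 1) := mul_le_mul_of_nonneg_right (by linarith) (by linarith)
    nlinarith

/-- the excess as a sum -/
lemma exc (hDev : DEV_statement) {r n : ℕ} (hr : 3 ≤ r) (σ : Fin r → ℕ) (hσ : ∑ t, σ t = n) :
    dev σ - dev (tz r n) = ∑ t, ((σ t : ℝ) - (n / r : ℕ)) * ((σ t : ℝ) - (n / r : ℕ) - 1) := by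
  have h1 : ∑ t, tz r n t = n := (hDev r n σ (by omega) hσ).1
  have hd1 := (hDev r n σ (by omega) hσ).2.2.2.1
  have hd2 := (hDev r n (tz r n) (by omega) h1).2.2.2.1
  rw [hd1, hd2]
  have hσR : ∑ t, (σ t : ℝ) = n := by exact_mod_cast hσ
  have hTR : ∑ t, (tz r n t : ℝ) = n := by exact_mod_cast h1
  set m0 : ℝ := ((n / r : ℕ) : ℝ) with hm0
  have e1 : ∀ t, (σ t : ℝ) ^ 2 = ((σ t : ℝ) - m0) * ((σ t : ℝ) - m0 - 1)
      + ((2 * m0 + 1) * (σ t : ℝ) - m0 * (m0 + 1)) := by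
    intro t; ring
  have e2 : ∀ t, (tz r n t : ℝ) ^ 2 = ((2 * m0 + 1) * (tz r n t : ℝ) - m0 * (m0 + 1)) := by
    intro t
    have : ((tz r n t : ℝ) - m0) * ((tz r n t : ℝ) - m0 - 1) = 0 := by
      unfold tz
      push_cast
      split_ifs <;> simp [hm0]
    nlinarith [this]
  have s1 : ∑ t, (σ t : ℝ) ^ 2 = ∑ t, ((σ t : ℝ) - m0) * ((σ t : ℝ) - m0 - 1)
      + ((2 * m0 + 1) * n - r * (m0 * (m0 + 1))) := by
    rw [Finset.sum_congr rfl (fun t _ => e1 t), Finset.sum_add_distrib, Finset.sum_sub_distrib,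
      ← Finset.mul_sum, hσR]
    simp
  have s2 : ∑ t, (tz r n t : ℝ) ^ 2 = (2 * m0 + 1) * n - r * (m0 * (m0 + 1)) := by
    rw [Finset.sum_congr rfl (fun t _ => e2 t), Finset.sum_sub_distrib,
      ← Finset.mul_sum, hTR]
    simp
  rw [s1, s2]
  ring

/-- the main estimate -/
lemma core (hDev : DEV_statement) {r n N D : ℕ} (hr : 3 ≤ r) (hn : 1 ≤ n) (σ a a' : Fin r → ℕ)
    (hσ : ∑ t, σ t = n) (hdev : dev σ ≤ N) (ha : ∀ t, a t ≤ σ t) (hT : Tg2 r n D a') :
    0 ≤ dev σ - dev (tz r n) ∧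
    -((dev σ - dev (tz r n)) / 2) - ((r * (N + 1) / n) * (r * (N + 2)) + r ^ 2 / n
      + 2 * (r / n * |(∑ t, (a t : ℝ)) - ∑ t, (a' t : ℝ)|)) ≤
    ∑ t, (r * (a t : ℝ) / n) * ((σ t : ℝ) - n / r)
      - ∑ t, (r * (a' t : ℝ) / n) * ((tz r n t : ℝ) - n / r) := by
  have hr0 : (0 : ℝ) < r := by
    have : 0 < r := by omega
    exact_mod_cast this
  have hn0 : (0 : ℝ) < n := by exact_mod_cast hn
  have hdT : 0 ≤ dev (tz r n) := by
    unfold dev
    exact Finset.sum_nonneg fun t _ => sq_nonneg _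
  have hE := exc hDev hr σ hσ
  set E := dev σ - dev (tz r n) with hEd
  have hEN : E ≤ N := by linarith
  let m0 : ℕ := n / r
  let ρ : ℕ := n % r
  have hρ : ρ < r := Nat.mod_lt _ (by omega)
  have hdm : r * m0 + ρ = n := Nat.div_add_mod n r
  have hdmR : (r : ℝ) * m0 + ρ = n := by exact_mod_cast hdm
  have hnr : (n : ℝ) / r = m0 + ρ / r := by
    rw [← hdmR]; field_simp
  let s : Fin r → ℤ := fun t => (σ t : ℤ) - m0
  have hs : ∀ t, (s t : ℝ) = (σ t : ℝ) - m0 := by intro t; simp [s]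
  have hEs : E = ∑ t, (s t : ℝ) * ((s t : ℝ) - 1) := by
    rw [hE]
    apply Finset.sum_congr rfl
    intro t _
    rw [hs]
  have hE0 : 0 ≤ E := by
    rw [hEs]
    exact Finset.sum_nonneg fun t _ => int_sq _
  have hsB : ∀ t, (s t : ℝ) * ((s t : ℝ) - 1) ≤ N := by
    intro t
    refine le_trans ?_ hEN
    rw [hEs]
    exact Finset.single_le_sum (f := fun t => (s t : ℝ) * ((s t : ℝ) - 1))
      (fun t _ => int_sq _) (Finset.mem_univ t)
  refine ⟨hE0, ?_⟩
  set η : ℝ := r * (N + 1) / n with hη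
  have hη0 : 0 ≤ η := by positivity
  let θ : Fin r → ℝ := fun t => r * (a t : ℝ) / n
  let θ' : Fin r → ℝ := fun t => r * (a' t : ℝ) / n
  have hθ0 : ∀ t, 0 ≤ θ t := fun t => by simp only [θ]; positivity
  have hθ'0 : ∀ t, 0 ≤ θ' t := fun t => by simp only [θ']; positivity
  have hm0n : (r : ℝ) * m0 ≤ n := by
    have : (0 : ℝ) ≤ ρ := Nat.cast_nonneg _
    linarith
  have hθ1 : ∀ t, θ t ≤ 1 + η := by
    intro t
    have h1 : (a t : ℝ) ≤ σ t := by exact_mod_cast ha t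
    have h2 : (σ t : ℝ) = m0 + s t := by rw [hs]; ring
    have h3 := (abs_le.1 (int_bd (s t) N (hsB t))).2
    simp only [θ, hη]
    rw [div_le_iff₀ hn0, add_mul, div_mul_cancel₀ _ hn0.ne']
    have h4 : (r : ℝ) * a t ≤ r * (m0 + (N + 1)) := by
      apply mul_le_mul_of_nonneg_left _ hr0.le
      linarith
    linarith
  -- sums
  set Θ := ∑ t, θ t with hΘ
  set Θ' := ∑ t, θ' t with hΘ'
  have hdiff : |Θ - Θ'| = r / n * |(∑ t, (a t : ℝ)) - ∑ t, (a' t : ℝ)| := by
    have : Θ - Θ' = r / n * ((∑ t, (a t : ℝ)) - ∑ t, (a' t : ℝ)) := by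
      simp only [hΘ, hΘ', θ, θ']
      rw [← Finset.sum_div, ← Finset.sum_div, ← Finset.mul_sum, ← Finset.mul_sum]
      ring
    rw [this, abs_mul, abs_of_nonneg (by positivity)]
  rw [← hdiff]
  have hT1 : ∑ t, tz r n t = n := (hDev r n σ (by omega) hσ).1
  let i : Fin r → ℝ := fun t => if t.val < ρ then 1 else 0
  have hi : ∀ t, (tz r n t : ℝ) = m0 + i t := by
    intro t
    simp only [tz, i, m0, ρ]
    push_cast
    rfl
  have hS : ∑ t, (r * (a t : ℝ) / n) * ((σ t : ℝ) - n / r) = ∑ t, θ t * s t - ρ / r * Θ := by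
    rw [hΘ, Finset.mul_sum, ← Finset.sum_sub_distrib]
    apply Finset.sum_congr rfl
    intro t _
    rw [hs, hnr]
    simp only [θ]
    ring
  have hS' : ∑ t, (r * (a' t : ℝ) / n) * ((tz r n t : ℝ) - n / r)
      = ∑ t, θ' t * i t - ρ / r * Θ' := by
    rw [hΘ', Finset.mul_sum, ← Finset.sum_sub_distrib]
    apply Finset.sum_congr rfl
    intro t _
    rw [hi, hnr]
    simp only [θ']
    ring
  rw [hS, hS']
  have hρr : (ρ : ℝ) / r ≤ 1 := by
    rw [div_le_one hr0]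
    exact_mod_cast hρ.le
  have hρ0 : 0 ≤ (ρ : ℝ) / r := by positivity
  have habs := abs_le.1 (le_refl |Θ - Θ'|)
  have hρd : |(ρ : ℝ) / r * (Θ - Θ')| ≤ |Θ - Θ'| := by
    rw [abs_mul, abs_of_nonneg hρ0]
    exact mul_le_of_le_one_left (abs_nonneg _) hρr
  have hρd' := abs_le.1 hρd
  have hcard : ∑ _t : Fin r, (1 : ℝ) = r := by simp
  obtain ⟨g0, g1, g2, g3, g4⟩ := hT
  have hη2 : ∑ t : Fin r, ((s t : ℝ) * ((s t : ℝ) - 1) / 2 + η * (N + 2))
      = E / 2 + η * (r * (N + 2)) := by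
    rw [Finset.sum_add_distrib, ← Finset.sum_div, ← hEs]
    simp
    ring
  -- use of (a)
  have useA : ∑ t, θ' t * i t ≤ (r : ℝ) ^ 2 / n →
      -(E / 2) - (η * (r * (N + 2)) + (r : ℝ) ^ 2 / n + 2 * |Θ - Θ'|) ≤
      ∑ t, θ t * s t - ρ / r * Θ - (∑ t, θ' t * i t - ρ / r * Θ') := by
    intro h
    have h1 : -(∑ t, θ t * s t) ≤ E / 2 + η * (r * (N + 2)) := by
      rw [← hη2, ← Finset.sum_neg_distrib]
      exact Finset.sum_le_sum fun t _ => term_a (s t) (θ t) η N (hθ0 t) (hθ1 t) hη0 (hsB t)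
    have h2 : (ρ : ℝ) / r * (Θ - Θ') = ρ / r * Θ - ρ / r * Θ' := by ring
    have h3 := abs_nonneg (Θ - Θ')
    linarith [hρd'.1, hρd'.2]
  have hsum1s : ∑ t, (1 - (s t : ℝ)) = r - ρ := by
    have hσR : ∑ t, (σ t : ℝ) = n := by exact_mod_cast hσ
    rw [Finset.sum_sub_distrib, hcard]
    have : ∑ t, (s t : ℝ) = ρ := by
      rw [Finset.sum_congr rfl (fun t _ => hs t), Finset.sum_sub_distrib, hσR]
      simp
      linarith
    rw [this]
  by_cases hz : ρ = 0
  · apply useA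
    have : ∑ t, θ' t * i t = 0 := by
      apply Finset.sum_eq_zero
      intro t _
      simp only [i]
      rw [if_neg (by omega), mul_zero]
    rw [this]
    positivity
  · rcases g4 with g4 | g4
    · -- all small classes are full
      have hf : (r : ℝ) - ρ - (r : ℝ) ^ 2 / n ≤ ∑ t, θ' t * (1 - i t) := by
        have h1 : ∀ t : Fin r, (1 - i t) - (r : ℝ) / n ≤ θ' t * (1 - i t) := by
          intro t
          by_cases h : t.val < ρ
          · simp only [i]
            rw [if_pos h]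
            have : 0 ≤ (r : ℝ) / n := by positivity
            linarith
          · have h5 : tz r n t = n / r := by
              simp only [tz]
              rw [if_neg h, add_zero]
            have h6 := g4 t (by omega) h5
            simp only [i, θ']
            rw [if_neg h, h6, h5, sub_zero, mul_one]
            rw [le_div_iff₀ hn0, sub_mul, div_mul_cancel₀ _ hn0.ne', one_mul]
            have h7 : (ρ : ℝ) ≤ r := by exact_mod_cast hρ.le
            have h8 : ((n / r : ℕ) : ℝ) = m0 := rfl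
            rw [h8]
            linarith
        have h2 := Finset.sum_le_sum (s := Finset.univ) fun t _ => h1 t
        have h3 : ∑ t : Fin r, ((1 - i t) - (r : ℝ) / n) = r - ρ - (r : ℝ) ^ 2 / n := by
          have hTR : ∑ t, (tz r n t : ℝ) = n := by exact_mod_cast hT1
          have h4 : ∑ t, i t = ρ := by
            have : ∑ t, (tz r n t : ℝ) = ∑ t : Fin r, ((m0 : ℝ) + i t) :=
              Finset.sum_congr rfl (fun t _ => hi t)
            rw [this, Finset.sum_add_distrib] at hTR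
            simp only [Finset.sum_const, Finset.card_univ, Fintype.card_fin, nsmul_eq_mul] at hTR
            linarith
          rw [Finset.sum_sub_distrib, Finset.sum_sub_distrib, hcard, h4]
          simp
          ring
        rw [← h3]
        exact h2
      have h1 : ∑ t, (θ t - 1) * (1 - (s t : ℝ)) ≤ E / 2 + η * (r * (N + 2)) := by
        rw [← hη2]
        exact Finset.sum_le_sum fun t _ => term_b (s t) (θ t) η N (hθ0 t) (hθ1 t) hη0 (hsB t)
      have h2 : ∑ t, (θ t - 1) * (1 - (s t : ℝ)) = Θ - ∑ t, θ t * s t - (r - ρ) := by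
        rw [← hsum1s, hΘ, ← Finset.sum_sub_distrib, ← Finset.sum_sub_distrib]
        apply Finset.sum_congr rfl
        intro t _
        ring
      have h3 : ∑ t, θ' t * (1 - i t) = Θ' - ∑ t, θ' t * i t := by
        rw [hΘ', ← Finset.sum_sub_distrib]
        apply Finset.sum_congr rfl
        intro t _
        ring
      have h4 : (ρ : ℝ) / r * (Θ - Θ') = ρ / r * Θ - ρ / r * Θ' := by ring
      rw [h2] at h1
      rw [h3] at hf
      linarith [hρd'.1, hρd'.2, habs.1, habs.2]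
    · -- all large classes except the class 0 have one neighbour
      apply useA
      have h1 : ∀ t : Fin r, θ' t * i t ≤ (r : ℝ) / n := by
        intro t
        by_cases h : t.val < ρ
        · simp only [i, θ']
          rw [if_pos h, mul_one]
          apply div_le_div_of_nonneg_right _ hn0.le
          have h5 : (a' t : ℝ) ≤ 1 := by
            by_cases h0 : t.val = 0
            · rw [g0 t h0]; simp
            · have h6 : n / r < tz r n t := by
                simp only [tz]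
                rw [if_pos h]
                omega
              rw [g4 t (by omega) h6]
              simp
          nlinarith
        · simp only [i]
          rw [if_neg h, mul_zero]
          positivity
      calc ∑ t, θ' t * i t ≤ ∑ _t : Fin r, (r : ℝ) / n := Finset.sum_le_sum fun t _ => h1 t
        _ = (r : ℝ) ^ 2 / n := by simp; ring

/-- bound for the sum of squares of the target -/
lemma quad (hDev : DEV_statement) {r n D : ℕ} (hr : 3 ≤ r) (hn : 1 ≤ n) (a' : Fin r → ℕ)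
    (hT : Tg2 r n D a') (x : ℝ) (hx0 : 0 ≤ x) (hx1 : x ≤ 1) (hDx : (D : ℝ) = qq r * n * x) :
    x ^ 2 / (qq r * r ^ 2) * ∑ t, (r * (a' t : ℝ) / n) ^ 2 ≤ x ^ 3 / r + 1 / n := by
  have hr0 : (0 : ℝ) < r := by
    have : 0 < r := by omega
    exact_mod_cast this
  have hn0 : (0 : ℝ) < n := by exact_mod_cast hn
  have hq := qq_pos hr
  obtain ⟨g0, g1, g2, g3, g4⟩ := hT
  have hdm : r * (n / r) ≤ n := Nat.mul_div_le n r
  have hdmR : (r : ℝ) * (n / r : ℕ) ≤ n := by exact_mod_cast hdm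
  have h1 : ∀ t, (r * (a' t : ℝ) / n) ^ 2 ≤ (1 + r / n) * (r * (a' t : ℝ) / n) := by
    intro t
    have h2 : (a' t : ℝ) ≤ (n / r : ℕ) + 1 := by
      have h3 : a' t ≤ n / r + 1 := by
        refine (g2 t).trans ?_
        simp only [tz]
        split_ifs <;> omega
      exact_mod_cast h3
    have h4 : r * (a' t : ℝ) / n ≤ 1 + r / n := by
      rw [div_le_iff₀ hn0, add_mul, div_mul_cancel₀ _ hn0.ne', one_mul]
      nlinarith
    have h5 : 0 ≤ r * (a' t : ℝ) / n := by positivity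
    rw [sq]
    exact mul_le_mul_of_nonneg_right h4 h5
  have h2 : ∑ t, (r * (a' t : ℝ) / n) ^ 2 ≤ (1 + r / n) * (r * (qq r * x)) := by
    refine (Finset.sum_le_sum fun t _ => h1 t).trans ?_
    rw [← Finset.mul_sum, ← Finset.sum_div, ← Finset.mul_sum]
    apply mul_le_mul_of_nonneg_left _ (by positivity)
    rw [div_le_iff₀ hn0]
    have h6 : (∑ t, (a' t : ℝ)) ≤ D := by
      have : (∑ t, a' t) ≤ D := by omega
      exact_mod_cast this
    have h7 : (r : ℝ) * ∑ t, (a' t : ℝ) ≤ r * D := mul_le_mul_of_nonneg_left h6 hr0.le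
    rw [hDx] at h7
    calc (r : ℝ) * ∑ t, (a' t : ℝ) ≤ r * (qq r * n * x) := h7
      _ = r * (qq r * x) * n := by ring
  have h3 : x ^ 2 / (qq r * r ^ 2) * ∑ t, (r * (a' t : ℝ) / n) ^ 2
      ≤ x ^ 2 / (qq r * r ^ 2) * ((1 + r / n) * (r * (qq r * x))) :=
    mul_le_mul_of_nonneg_left h2 (by positivity)
  refine h3.trans ?_
  have h4 : x ^ 2 / (qq r * r ^ 2) * ((1 + r / n) * (r * (qq r * x)))
      = x ^ 3 / r + x ^ 3 / n := by
    field_simp
  rw [h4]
  have h5 : x ^ 3 ≤ 1 := pow_le_one₀ hx0 hx1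
  have h6 : x ^ 3 / n ≤ 1 / n := div_le_div_of_nonneg_right h5 hn0.le
  linarith

end JF2x

open JF2x in
theorem prfJF2 : EXP_statement → DEV_statement → JF2_statement := by
  intro hEXP hDev r ε hr hε
  have hrN : 0 < r := by omega
  have hr3 : (3 : ℝ) ≤ r := by exact_mod_cast hr
  have hr0 : (0 : ℝ) < r := by linarith
  have hq := qq_pos hr
  have hq1 := qq_le (r := r)
  set q := qq r with hqd
  have hqe : q = 1 - 1 / (r : ℝ) := rfl
  set μ : ℝ := min (((r : ℝ) + 2) / r ^ 5) ε with hμ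
  have hμ0 : 0 < μ := lt_min (by positivity) hε
  refine ⟨q * μ, by positivity, ?_⟩
  intro N
  obtain ⟨n1, hn1⟩ := hEXP r (2 * N + r) (q * μ / 4) hr (by positivity)
  set K' : ℝ := (r : ℝ) ^ 2 * ((N + 1) * (N + 2)) + r ^ 2 + 2 * (r * (2 * N + r)) + 1 with hK'
  have hK0 : 0 < K' := by positivity
  refine ⟨max n1 (max 1 ⌈4 * K' / μ⌉₊), ?_⟩
  intro n hn D hD1 hD2 σ a a' α b hσ hdev ha hαb hE hb1 hb2 hT
  have hnn1 : n1 ≤ n := (le_max_left _ _).trans hn
  have hn1' : 1 ≤ n := ((le_max_left _ _).trans (le_max_right _ _)).trans hn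
  have hnK : 4 * K' / μ ≤ n := by
    have h1 : ⌈4 * K' / μ⌉₊ ≤ n := ((le_max_right _ _).trans (le_max_right _ _)).trans hn
    exact (Nat.le_ceil _).trans (by exact_mod_cast h1)
  have hn0 : (0 : ℝ) < n := by exact_mod_cast hn1'
  have hK4 : K' / n ≤ μ / 4 := by
    rw [div_le_iff₀ hμ0] at hnK
    rw [div_le_iff₀ hn0]
    linarith
  set x : ℝ := D / (q * n) with hx
  have hqn : 0 < q * n := by positivity
  have hDx : (D : ℝ) = q * n * x := by
    rw [hx]; field_simp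
  have hxε : ε ≤ x := by
    rw [hx, le_div_iff₀ hqn]; exact hD1
  have hx0 : 0 < x := by linarith
  have hxX : x ≤ 1 / ((r : ℝ) + 1) - 1 / (r : ℝ) ^ 5 := by
    rw [hx, div_le_iff₀ hqn]; exact hD2
  have hr5 : 0 < 1 / (r : ℝ) ^ 5 := by positivity
  have hxr1 : x * (r + 1) ≤ 1 := by
    have : x ≤ 1 / ((r : ℝ) + 1) := by linarith
    rwa [le_div_iff₀ (by linarith)] at this
  have hx1 : x ≤ 1 / 4 := by nlinarith
  have hxr : x ≤ 1 / r := by
    rw [le_div_iff₀ hr0]; nlinarith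
  have hDn : D ≤ n := by
    have : (D : ℝ) ≤ n := by
      rw [hDx]
      have h1 : q * x ≤ 1 := by nlinarith
      nlinarith
    exact_mod_cast this
  have hTz : ∑ t, tz r n t = n := (hDev r n σ (by omega) hσ).1
  obtain ⟨hE0, hcore⟩ := core hDev hr hn1' σ a a' hσ hdev ha hT
  set E := dev σ - dev (tz r n) with hEd
  have hdT : 0 ≤ dev (tz r n) := by
    unfold dev
    exact Finset.sum_nonneg fun t _ => sq_nonneg _
  have hEN : E ≤ N := by linarith
  have hd1 := (hDev r n σ (by omega) hσ).2.2.2.1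
  have hd2 := (hDev r n (tz r n) (by omega) hTz).2.2.2.1
  have hdTr : dev (tz r n) ≤ r := (hDev r n σ (by omega) hσ).2.2.1
  -- the numbers of neighbours
  have hER : 2 * (D : ℝ) + 2 * α + ∑ t, (σ t : ℝ) ^ 2
      = ∑ t, (tz r n t : ℝ) ^ 2 + 2 * ∑ t, (a t : ℝ) + 2 * b := by exact_mod_cast hE
  have hsa : (∑ t, (a t : ℝ)) - D = α - b + E / 2 := by
    rw [hEd, hd1, hd2]
    linarith
  have hsa' : (∑ t, (a' t : ℝ)) = D - r := by
    have h1 := hT.2.2.2.1
    have : (∑ t, (a' t : ℝ)) + r = D := by exact_mod_cast h1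
    linarith
  have hαbR : (α : ℝ) + b ≤ N := by exact_mod_cast hαb
  have hα0 : (0 : ℝ) ≤ α := Nat.cast_nonneg _
  have hb0 : (0 : ℝ) ≤ b := Nat.cast_nonneg _
  have hN0 : (0 : ℝ) ≤ N := Nat.cast_nonneg _
  have habs1 : |(∑ t, (a t : ℝ)) - D| ≤ 2 * N := by
    rw [hsa, abs_le]
    constructor <;> linarith
  have e1 := hn1 n D σ a hnn1 hσ (by push_cast; linarith) ha hDn (by push_cast; linarith)
  have e2 := hn1 n D (tz r n) a' hnn1 hTz (by push_cast; linarith) hT.2.2.1 hDn (by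
    rw [hsa']
    push_cast
    rw [show (D : ℝ) - r - D = -r by ring, abs_neg, abs_of_nonneg hr0.le]
    linarith)
  have e1' := (abs_le.1 e1).1
  have e2' := (abs_le.1 e2).2
  have hdd : |(∑ t, (a t : ℝ)) - ∑ t, (a' t : ℝ)| ≤ 2 * N + r := by
    rw [hsa']
    have h1 := abs_le.1 habs1
    rw [abs_le]
    constructor <;> linarith [h1.1, h1.2]
  have hquad := quad hDev hr hn1' a' hT x hx0.le (by linarith) (by rw [hDx])
  rw [← hqd] at hquad
  set S := ∑ t, (r * (a t : ℝ) / n) * ((σ t : ℝ) - n / r) with hS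
  set S' := ∑ t, (r * (a' t : ℝ) / n) * ((tz r n t : ℝ) - n / r) with hS'
  set Q := ∑ t, (r * (a t : ℝ) / n) ^ 2 with hQ
  set Q' := ∑ t, (r * (a' t : ℝ) / n) ^ 2 with hQ'
  have hQ0 : 0 ≤ Q := Finset.sum_nonneg fun t _ => sq_nonneg _
  have hKx : Kx r n D σ a - Kx r n D (tz r n) a'
      = 2 * q * ((1 - 2 * x) * ((∑ t, (a t : ℝ)) - ∑ t, (a' t : ℝ)) + (1 / 2 - 1 / (r : ℝ)) * E
        + 2 * x / r * (S - S') + x ^ 2 / (q * r ^ 2) * (Q - Q')) := by
    unfold Kx
    simp only [← hqd, ← hx, ← hS, ← hS', ← hQ, ← hQ']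
    rw [hEd]
    ring
  -- error term
  set err : ℝ := (r * (N + 1) / n) * (r * (N + 2)) + (r : ℝ) ^ 2 / n
      + 2 * (r / n * |(∑ t, (a t : ℝ)) - ∑ t, (a' t : ℝ)|) with herr
  have herr0 : 0 ≤ err := by positivity
  have herr1 : err ≤ (K' - 1) / n := by
    have h1 : r / n * |(∑ t, (a t : ℝ)) - ∑ t, (a' t : ℝ)| ≤ r / n * (2 * N + r) :=
      mul_le_mul_of_nonneg_left hdd (by positivity)
    have h2 : (K' - 1) / n = (r * (N + 1) / n) * (r * (N + 2)) + (r : ℝ) ^ 2 / n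
        + 2 * (r / n * (2 * N + r)) := by
      rw [hK']; field_simp; ring
    rw [h2, herr]
    linarith
  have h2xr : 2 * x / r ≤ 1 := by
    rw [div_le_one hr0]; linarith
  have h2xr0 : 0 ≤ 2 * x / r := by positivity
  have hS1 : 2 * x / r * (S - S') ≥ -(x / r * E) - (K' - 1) / n := by
    have h1 : 2 * x / r * (-(E / 2) - err) ≤ 2 * x / r * (S - S') :=
      mul_le_mul_of_nonneg_left hcore h2xr0
    have h2 : 2 * x / r * err ≤ 1 * err := mul_le_mul_of_nonneg_right h2xr herr0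
    have h3 : 2 * x / r * (-(E / 2) - err) = -(x / r * E) - 2 * x / r * err := by ring
    linarith
  have hQ1 : x ^ 2 / (q * r ^ 2) * (Q - Q') ≥ -(x ^ 3 / r) - 1 / n := by
    have h1 : 0 ≤ x ^ 2 / (q * r ^ 2) * Q := by positivity
    have h2 : x ^ 2 / (q * r ^ 2) * (Q - Q')
        = x ^ 2 / (q * r ^ 2) * Q - x ^ 2 / (q * r ^ 2) * Q' := by ring
    linarith
  -- the coefficient of `E`
  have hcE : 0 ≤ 1 - x - 1 / (r : ℝ) - x / r := by
    have h1 : x / r ≤ 1 / r := div_le_div_of_nonneg_right (by linarith) hr0.le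
    have h2 : 1 / (r : ℝ) ≤ 1 / 3 := one_div_le_one_div_of_le (by norm_num) hr3
    linarith
  have hcE' : 0 ≤ (1 - x - 1 / (r : ℝ) - x / r) * E := mul_nonneg hcE hE0
  -- main part
  have hx3 : x ^ 3 / r ≤ 1 / (r : ℝ) ^ 4 := by
    rw [div_le_div_iff₀ hr0 (by positivity)]
    have h1 : x ^ 3 ≤ (1 / (r : ℝ)) ^ 3 := pow_le_pow_left₀ hx0.le hxr 3
    have h2 : (1 / (r : ℝ)) ^ 3 * r ^ 4 = 1 * r := by field_simp
    calc x ^ 3 * (r : ℝ) ^ 4 ≤ (1 / (r : ℝ)) ^ 3 * r ^ 4 :=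
          mul_le_mul_of_nonneg_right h1 (by positivity)
      _ = 1 * r := h2
  have hmain : μ ≤ (2 - 2 * x) * α + 2 * x * b - 2 * x * r - x ^ 3 / r := by
    rcases Nat.eq_zero_or_pos α with hα | hα
    · have hb3 : r + 1 ≤ b := by
        have h1 := hb1 hα
        have h2 : b ≠ r := fun h => hb2 ⟨hα, h⟩
        omega
      have hb4 : (r : ℝ) + 1 ≤ b := by exact_mod_cast hb3
      have h3 : x ^ 3 / r ≤ x := by
        rw [div_le_iff₀ hr0]
        have h4 : x ^ 3 ≤ x * 1 := by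
          have : x ^ 2 ≤ 1 := pow_le_one₀ hx0.le (by linarith)
          calc x ^ 3 = x * x ^ 2 := by ring
            _ ≤ x * 1 := mul_le_mul_of_nonneg_left this hx0.le
        nlinarith
      have h5 : 2 * x * b ≥ 2 * x * (r + 1) := mul_le_mul_of_nonneg_left hb4 (by linarith)
      have h6 : μ ≤ ε := min_le_right _ _
      rw [hα]
      simp only [Nat.cast_zero, mul_zero]
      linarith
    · have hα1 : (1 : ℝ) ≤ α := by exact_mod_cast hα
      have h1 : (2 - 2 * x) * 1 ≤ (2 - 2 * x) * α := mul_le_mul_of_nonneg_left hα1 (by linarith)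
      have h2 : 0 ≤ 2 * x * b := by positivity
      have h3 : 2 * (((r : ℝ) + 1) / r ^ 5) ≤ 2 - 2 * x - 2 * x * r := by
        have h4 : x * (r + 1) ≤ (1 / ((r : ℝ) + 1) - 1 / (r : ℝ) ^ 5) * (r + 1) :=
          mul_le_mul_of_nonneg_right hxX (by linarith)
        have h5 : (1 / ((r : ℝ) + 1) - 1 / (r : ℝ) ^ 5) * (r + 1) = 1 - (r + 1) / r ^ 5 := by
          field_simp
        linarith
      have h6 : μ ≤ ((r : ℝ) + 2) / r ^ 5 := min_le_left _ _
      have h7 : 1 / (r : ℝ) ^ 4 = r / r ^ 5 := by field_simp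
      have h8 : 2 * (((r : ℝ) + 1) / r ^ 5) - r / r ^ 5 = (r + 2) / r ^ 5 := by ring
      linarith
  have hJ : (1 - 2 * x) * ((∑ t, (a t : ℝ)) - ∑ t, (a' t : ℝ)) + (1 / 2 - 1 / (r : ℝ)) * E
        + 2 * x / r * (S - S') + x ^ 2 / (q * r ^ 2) * (Q - Q') + (α + b - r) ≥ 3 / 4 * μ := by
    have h1 : (1 - 2 * x) * ((∑ t, (a t : ℝ)) - ∑ t, (a' t : ℝ))
        = (1 - 2 * x) * (α - b + E / 2 + r) := by
      rw [hsa', ← hsa]; ring
    have h2 : (K' - 1) / n + 1 / n = K' / n := by ring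
    rw [h1]
    have h3 : (1 - 2 * x) * (α - b + E / 2 + r) + (1 / 2 - 1 / (r : ℝ)) * E - x / r * E
        + (α + b - r) = (2 - 2 * x) * α + 2 * x * b - 2 * x * r
        + (1 - x - 1 / (r : ℝ) - x / r) * E := by ring
    linarith
  have hfin := mul_le_mul_of_nonneg_left hJ (show (0 : ℝ) ≤ 2 * q by positivity)
  have h9 : 2 * q * ((1 - 2 * x) * ((∑ t, (a t : ℝ)) - ∑ t, (a' t : ℝ))
        + (1 / 2 - 1 / (r : ℝ)) * E
        + 2 * x / r * (S - S') + x ^ 2 / (q * r ^ 2) * (Q - Q') + (α + b - r))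
      = (Kx r n D σ a - Kx r n D (tz r n) a') + 2 * q * (α + b) - 2 * q * r := by
    rw [hKx]; ring
  rw [h9] at hfin
  have h10 : 2 * q * (3 / 4 * μ) = q * μ + 2 * (q * μ / 4) := by ring
  rw [h10] at hfin
  linarith

end MP0c3a8f
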