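import Pool.Agent.Work.MP_0c3a8f_co.PB.Stmts2
import Pool.Agent.Work.MP_0c3a8f_co.PB.ItemJF1
import Pool.Agent.Work.MP_0c3a8f_co.PB.ItemJF2

/-!
# MP_0c3a8f_co, phase B, item JFA: all other types are worse, whole range
-/

set_option autoImplicit false

open Finset

namespace MP0c3a8f

namespace JFAx

/-- the value of the first comparison -/
theorem gval (r : ℕ) (hr : 3 ≤ r) (x ε : ℝ) (α b : ℕ) (hε : 0 < ε) (hx1 : ε ≤ x)
    (hx2 : x ≤ 1 - 2 / (r : ℝ)) (h0 : 1 ≤ α) (h1 : ¬ (α = 1 ∧ b = 0)) :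
    min ε (1 / (r : ℝ)) ≤ (2 - 2 * x) * ((α : ℝ) - 1) + 2 * x * b - x ^ 3 / r := by
  have hr3 : (3 : ℝ) ≤ r := by exact_mod_cast hr
  have hr0 : (0 : ℝ) < r := by linarith
  have hx0 : 0 < x := by linarith
  have h2r : 0 < 2 / (r : ℝ) := by positivity
  have hxle : x ≤ 1 := by linarith
  have hx3 : x ^ 3 ≤ 1 := pow_le_one₀ hx0.le hxle
  have hx3r : x ^ 3 / r ≤ 1 / r := by gcongr
  have hr1 : 0 < 1 / (r : ℝ) := by positivity
  rcases Nat.eq_zero_or_pos b with hb | hb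
  · have h2 : (2 : ℝ) ≤ α := by exact_mod_cast (by
      rcases Nat.lt_or_ge α 2 with h | h
      · exact absurd ⟨by omega, hb⟩ h1
      · exact h : 2 ≤ α)
    have h3 : (2 - 2 * x) * 1 ≤ (2 - 2 * x) * ((α : ℝ) - 1) :=
      mul_le_mul_of_nonneg_left (by linarith) (by linarith)
    have h4 : 2 / (r : ℝ) = 2 * (1 / r) := by ring
    subst hb
    have h5 : min ε (1 / (r : ℝ)) ≤ 1 / r := min_le_right _ _
    push_cast
    linarith
  · have h2 : (1 : ℝ) ≤ α := by exact_mod_cast h0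
    have h3 : (1 : ℝ) ≤ b := by exact_mod_cast hb
    have h4 : 0 ≤ (2 - 2 * x) * ((α : ℝ) - 1) := mul_nonneg (by linarith) (by linarith)
    have h5 : 2 * x * 1 ≤ 2 * x * b := mul_le_mul_of_nonneg_left h3 (by positivity)
    have h6 : x ^ 3 / r ≤ x := by
      rw [div_le_iff₀ hr0]
      have : x ^ 3 = x * x ^ 2 := by ring
      rw [this]
      refine mul_le_mul_of_nonneg_left ?_ hx0.le
      have h8 : x ^ 2 ≤ 1 := pow_le_one₀ hx0.le hxle
      linarith only [h8, hr3]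
    have h7 : min ε (1 / (r : ℝ)) ≤ ε := min_le_left _ _
    linarith

/-- the first comparison -/
theorem caseA (hE : EXP_statement) (hDEV : DEV_statement) (r : ℕ) (ε : ℝ) (hr : 3 ≤ r)
    (hε : 0 < ε) (N : ℕ) : ∃ n₀ : ℕ, ∀ n ≥ n₀, ∀ D : ℕ,
    RR r n D ε → ∀ (σ a a' : Fin r → ℕ) (α b : ℕ),
    ∑ t, σ t = n → dev σ ≤ N → (∀ t, a t ≤ σ t) → α + b ≤ N →
    2 * D + 2 * α + ∑ t, σ t ^ 2 = ∑ t, tz r n t ^ 2 + 2 * ∑ t, a t + 2 * b →
    1 ≤ α → ¬ (α = 1 ∧ b = 0) → Tg1 r n D a' →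
    Kap r (tz r n) a' + 2 * qq r + qq r * min ε (1 / (r : ℝ)) ≤
      Kap r σ a + 2 * qq r * (α + b) := by
  have hr3 : (3 : ℝ) ≤ r := by exact_mod_cast hr
  have hr0 : (0 : ℝ) < r := by linarith
  have hr1 : 1 / (r : ℝ) ≤ 1 / 3 := by
    apply one_div_le_one_div_of_le <;> linarith
  have hq0 : 0 < qq r := by
    have : qq r = 1 - 1 / (r : ℝ) := rfl
    linarith
  have hq1 : qq r ≤ 1 := by
    have : qq r = 1 - 1 / (r : ℝ) := rfl
    have : 0 < 1 / (r : ℝ) := by positivity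
    linarith
  set μ : ℝ := min ε (1 / (r : ℝ)) with hμ
  have h5 : (0 : ℝ) < μ := lt_min hε (by positivity)
  obtain ⟨n₁, hn₁⟩ := hE r (3 * N + 3 * r) (qq r * μ / 4) hr (by positivity)
  set K : ℝ := (12 * N + 4 + 2 * r) + 2 * r * (N + 1) + (2 * r ^ 2 + r) with hK
  have hK0 : 0 < K := by positivity
  obtain ⟨n₂, hn₂⟩ := exists_nat_gt (K / (μ / 4))
  refine ⟨n₁ + n₂ + r ^ 2 * (N + 1) + 1, fun n hn D hD σ a a' α b hσ hdev ha hαb hm h0 h1 hT => ?_⟩
  obtain ⟨hD1, hD2⟩ := hD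
  have hn0 : (0 : ℝ) < n := by exact_mod_cast (by omega : 0 < n)
  have hqn : 0 < qq r * n := by positivity
  set x : ℝ := D / (qq r * n) with hx
  have hxD : (D : ℝ) = x * (qq r * n) := by rw [hx]; field_simp
  have hx1 : ε ≤ x := by
    rw [hx, le_div_iff₀ hqn]; exact hD1
  have hx2 : x ≤ 1 - 2 / (r : ℝ) := by
    rw [hx, div_le_iff₀ hqn]
    exact hD2.trans (mul_le_mul_of_nonneg_right (by linarith only [hε]) hqn.le)
  have hx0 : 0 ≤ x := by positivity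
  obtain ⟨c1, c2⟩ := JF1.core r N n D hr (by omega) (by omega) σ a a' α b x hxD hx0 hx2 hDEV hσ hdev
    ha hαb hm hT
  have c3 := gval r hr x ε α b hε hx1 hx2 h0 h1
  rw [← hμ] at c3
  have hDn : D ≤ n := by
    have : (D : ℝ) ≤ n := by
      rw [hxD]
      have : 0 < 2 / (r : ℝ) := by positivity
      have hx' : x ≤ 1 := by linarith only [hx2, this]
      calc x * (qq r * n) ≤ 1 * (1 * n) := by gcongr
        _ = n := by ring
    exact_mod_cast this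
  have hN' : ((3 * N + 3 * r : ℕ) : ℝ) = 3 * N + 3 * r := by push_cast; ring
  have hNn : (0 : ℝ) ≤ N := by positivity
  have d1 := hn₁ n D σ a (by omega) hσ (by rw [hN']; linarith only [hr3, hdev]) ha hDn
    (by rw [hN']; linarith only [hr3, c1])
  obtain ⟨hT1, -, hdT, -, -, -⟩ := hDEV r n (tz r n) (by omega) (hDEV r n σ (by omega) hσ).1
  have ha' : ∑ t, (a' t : ℝ) - D = 1 := by
    have := hT.2.2.1
    have h' : ∑ t, (a' t : ℝ) = D + 1 := by exact_mod_cast this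
    linarith only [h']
  have d2 := hn₁ n D (tz r n) a' (by omega) hT1 (by rw [hN']; linarith only [hr3,
      hdT]) (fun t => (hT.2.1 t).2) hDn
    (by rw [hN', ha']; simp only [abs_one]; linarith only [hr3])
  have hKn : K / n ≤ μ / 4 := by
    have h6 : (n₂ : ℝ) ≤ n := by exact_mod_cast (by omega : n₂ ≤ n)
    rw [div_lt_iff₀ (by positivity)] at hn₂
    rw [div_le_iff₀ hn0]
    have h7 : (n₂ : ℝ) * (μ / 4) ≤ n * (μ / 4) :=
      mul_le_mul_of_nonneg_right h6 (by positivity)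
    linarith only [h7, hn₂]
  rw [← add_div, ← add_div, ← hK] at c2
  have d1' := (abs_le.1 d1).1
  have d2' := (abs_le.1 d2).2
  unfold Kx at d1' d2'
  simp only [← hx] at d1' d2'
  set J1 : ℝ := (1 - 2 * x) * (∑ t, (a t : ℝ) - D) + (1 / 2 - 1 / (r : ℝ)) * dev σ
        + 2 * x / r * ∑ t, (r * (a t : ℝ) / n) * ((σ t : ℝ) - n / r)
        + x ^ 2 / (qq r * r ^ 2) * ∑ t, (r * (a t : ℝ) / n) ^ 2 with hJ1
  set J2 : ℝ := (1 - 2 * x) * (∑ t, (a' t : ℝ) - D) + (1 / 2 - 1 / (r : ℝ)) * dev (tz r n)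
        + 2 * x / r * ∑ t, (r * (a' t : ℝ) / n) * ((tz r n t : ℝ) - n / r)
        + x ^ 2 / (qq r * r ^ 2) * ∑ t, (r * (a' t : ℝ) / n) ^ 2 with hJ2
  have c4 : μ - μ / 4 ≤ J1 + (α + b) - (J2 + 1) := by linarith only [c3, hKn, c2]
  have c5 := mul_le_mul_of_nonneg_left c4 (by positivity : (0 : ℝ) ≤ 2 * qq r)
  have c6 : 2 * qq r * (J1 + (α + b) - (J2 + 1)) =
      2 * qq r * J1 + 2 * qq r * (α + b) - 2 * qq r * J2 - 2 * qq r := by ring
  have c7 : 2 * qq r * (μ - μ / 4) =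
      3 / 2 * (qq r * μ) := by ring
  rw [c6, c7] at c5
  linarith only [d1', d2', c5]

open JF2x in
/-- the second comparison -/
theorem caseB (hEXP : EXP_statement) (hDev : DEV_statement) (r : ℕ) (ε : ℝ) (hr : 3 ≤ r)
    (hε : 0 < ε) (N : ℕ) : ∃ n₀ : ℕ, ∀ n ≥ n₀, ∀ D : ℕ,
    RR r n D ε → ∀ (σ a a' : Fin r → ℕ) (α b : ℕ),
    ∑ t, σ t = n → dev σ ≤ N → (∀ t, a t ≤ σ t) → α + b ≤ N →
    2 * D + 2 * α + ∑ t, σ t ^ 2 = ∑ t, tz r n t ^ 2 + 2 * ∑ t, a t + 2 * b →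
    α = 0 → r + 1 ≤ b → Tg2 r n D a' →
    Kap r (tz r n) a' + 2 * qq r * r + qq r * min ε (1 / (r : ℝ)) ≤
      Kap r σ a + 2 * qq r * (α + b) := by
  have hrN : 0 < r := by omega
  have hr3 : (3 : ℝ) ≤ r := by exact_mod_cast hr
  have hr0 : (0 : ℝ) < r := by linarith
  have hq := qq_pos hr
  have hq1 := qq_le (r := r)
  set q := qq r with hqd
  have hqe : q = 1 - 1 / (r : ℝ) := rfl
  set μ : ℝ := min ε (1 / (r : ℝ)) with hμ
  have hμ0 : 0 < μ := lt_min hε (by positivity)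
  obtain ⟨n1, hn1⟩ := hEXP r (2 * N + r) (q * μ / 4) hr (by positivity)
  set K' : ℝ := (r : ℝ) ^ 2 * ((N + 1) * (N + 2)) + r ^ 2 + 2 * (r * (2 * N + r)) + 1 with hK'
  have hK0 : 0 < K' := by positivity
  refine ⟨max n1 (max 1 ⌈4 * K' / μ⌉₊), ?_⟩
  intro n hn D hD σ a a' α b hσ hdev ha hαb hE hα hb3 hT
  obtain ⟨hD1, hD2⟩ := hD
  have hnn1 : n1 ≤ n := (le_max_left _ _).trans hn
  have hn1' : 1 ≤ n := ((le_max_left _ _).trans (le_max_right _ _)).trans hn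
  have hnK : 4 * K' / μ ≤ n := by
    have h1 : ⌈4 * K' / μ⌉₊ ≤ n := ((le_max_right _ _).trans (le_max_right _ _)).trans hn
    exact (Nat.le_ceil _).trans (by exact_mod_cast h1)
  have hn0 : (0 : ℝ) < n := by exact_mod_cast hn1'
  have hK4 : K' / n ≤ μ / 4 := by
    rw [div_le_iff₀ hμ0] at hnK
    rw [div_le_iff₀ hn0]
    linarith only [hnK]
  set x : ℝ := D / (q * n) with hx
  have hqn : 0 < q * n := by positivity
  have hDx : (D : ℝ) = q * n * x := by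
    rw [hx]; field_simp
  have hxε : ε ≤ x := by
    rw [hx, le_div_iff₀ hqn]; exact hD1
  have hx0 : 0 < x := by linarith only [hε, hxε]
  have hxX : x ≤ 1 - 2 / (r : ℝ) - ε := by
    rw [hx, div_le_iff₀ hqn]; exact hD2
  have h2r0 : 0 < 2 / (r : ℝ) := by positivity
  have hx1 : x ≤ 1 := by linarith only [hε, hxX, h2r0]
  have hDn : D ≤ n := by
    have : (D : ℝ) ≤ n := by
      rw [hDx]
      calc q * n * x ≤ 1 * n * 1 := by gcongr
        _ = n := by ring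
    exact_mod_cast this
  have hTz : ∑ t, tz r n t = n := (hDev r n σ (by omega) hσ).1
  obtain ⟨hE0, hcore⟩ := core hDev hr hn1' σ a a' hσ hdev ha hT
  set E := dev σ - dev (tz r n) with hEd
  have hdT : 0 ≤ dev (tz r n) := by
    unfold dev
    exact Finset.sum_nonneg fun t _ => sq_nonneg _
  have hEN : E ≤ N := by linarith only [hdev, hdT]
  have hd1 := (hDev r n σ (by omega) hσ).2.2.2.1
  have hd2 := (hDev r n (tz r n) (by omega) hTz).2.2.2.1
  have hdTr : dev (tz r n) ≤ r := (hDev r n σ (by omega) hσ).2.2.1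
  -- the numbers of neighbours
  have hER : 2 * (D : ℝ) + 2 * α + ∑ t, (σ t : ℝ) ^ 2
      = ∑ t, (tz r n t : ℝ) ^ 2 + 2 * ∑ t, (a t : ℝ) + 2 * b := by exact_mod_cast hE
  have hsa : (∑ t, (a t : ℝ)) - D = α - b + E / 2 := by
    rw [hEd, hd1, hd2]
    linarith only [hER]
  have hsa' : (∑ t, (a' t : ℝ)) = D - r := by
    have h1 := hT.2.2.2.1
    have : (∑ t, (a' t : ℝ)) + r = D := by exact_mod_cast h1
    linarith only [this]
  have hαbR : (α : ℝ) + b ≤ N := by exact_mod_cast hαb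
  have hα0 : (0 : ℝ) ≤ α := Nat.cast_nonneg _
  have hb0 : (0 : ℝ) ≤ b := Nat.cast_nonneg _
  have hN0 : (0 : ℝ) ≤ N := Nat.cast_nonneg _
  have habs1 : |(∑ t, (a t : ℝ)) - D| ≤ 2 * N := by
    rw [hsa, abs_le]
    constructor <;> linarith
  have e1 := hn1 n D σ a hnn1 hσ (by push_cast; linarith only [hε, hr3, hdev, hxε, hxX,
      h2r0]) ha hDn (by push_cast; linarith only [hε, hr3, hxε, hxX, h2r0, habs1])
  have e2 := hn1 n D (tz r n) a' hnn1 hTz (by push_cast; linarith only [hε, hr3, hdev, hxε, hxX,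
      h2r0, hE0]) hT.2.2.1 hDn (by
    rw [hsa']
    push_cast
    rw [show (D : ℝ) - r - D = -r by ring, abs_neg, abs_of_nonneg hr0.le]
    linarith only [])
  have e1' := (abs_le.1 e1).1
  have e2' := (abs_le.1 e2).2
  have hdd : |(∑ t, (a t : ℝ)) - ∑ t, (a' t : ℝ)| ≤ 2 * N + r := by
    rw [hsa']
    have h1 := abs_le.1 habs1
    rw [abs_le]
    constructor <;> linarith [h1.1, h1.2]
  have hquad := quad hDev hr hn1' a' hT x hx0.le (by linarith only [hε, hxX, h2r0]) (by rw [hDx])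
  rw [← hqd] at hquad
  set S := ∑ t, (r * (a t : ℝ) / n) * ((σ t : ℝ) - n / r) with hS
  set S' := ∑ t, (r * (a' t : ℝ) / n) * ((tz r n t : ℝ) - n / r) with hS'
  set Q := ∑ t, (r * (a t : ℝ) / n) ^ 2 with hQ
  set Q' := ∑ t, (r * (a' t : ℝ) / n) ^ 2 with hQ'
  have hQ0 : 0 ≤ Q := Finset.sum_nonneg fun t _ => sq_nonneg _
  have hKx : Kx r n D σ a - Kx r n D (tz r n) a'
      = 2 * q * ((1 - 2 * x) * ((∑ t, (a t : ℝ)) - ∑ t, (a' t : ℝ)) + (1 / 2 - 1 / (r : ℝ)) * E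
        + 2 * x / r * (S - S') + x ^ 2 / (q * r ^ 2) * (Q - Q')) := by
    unfold Kx
    simp only [← hqd, ← hx, ← hS, ← hS', ← hQ, ← hQ']
    rw [hEd]
    ring
  -- error term
  set err : ℝ := (r * (N + 1) / n) * (r * (N + 2)) + (r : ℝ) ^ 2 / n
      + 2 * (r / n * |(∑ t, (a t : ℝ)) - ∑ t, (a' t : ℝ)|) with herr
  have herr0 : 0 ≤ err := by positivity
  have herr1 : err ≤ (K' - 1) / n := by
    have h1 : r / n * |(∑ t, (a t : ℝ)) - ∑ t, (a' t : ℝ)| ≤ r / n * (2 * N + r) :=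
      mul_le_mul_of_nonneg_left hdd (by positivity)
    have h2 : (K' - 1) / n = (r * (N + 1) / n) * (r * (N + 2)) + (r : ℝ) ^ 2 / n
        + 2 * (r / n * (2 * N + r)) := by
      rw [hK']; field_simp; ring
    rw [h2, herr]
    linarith only [h1]
  have h2xr : 2 * x / r ≤ 1 := by
    rw [div_le_one hr0]; linarith only [hε, hr3, hxε, hxX, h2r0]
  have h2xr0 : 0 ≤ 2 * x / r := by positivity
  have hS1 : 2 * x / r * (S - S') ≥ -(x / r * E) - (K' - 1) / n := by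
    have h1 : 2 * x / r * (-(E / 2) - err) ≤ 2 * x / r * (S - S') :=
      mul_le_mul_of_nonneg_left hcore h2xr0
    have h2 : 2 * x / r * err ≤ 1 * err := mul_le_mul_of_nonneg_right h2xr herr0
    have h3 : 2 * x / r * (-(E / 2) - err) = -(x / r * E) - 2 * x / r * err := by ring
    linarith only [herr1, h1, h2, h3]
  have hQ1 : x ^ 2 / (q * r ^ 2) * (Q - Q') ≥ -(x ^ 3 / r) - 1 / n := by
    have h1 : 0 ≤ x ^ 2 / (q * r ^ 2) * Q := by positivity
    have h2 : x ^ 2 / (q * r ^ 2) * (Q - Q')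
        = x ^ 2 / (q * r ^ 2) * Q - x ^ 2 / (q * r ^ 2) * Q' := by ring
    linarith
  -- the coefficient of `E`
  have hcE : 0 ≤ 1 - x - 1 / (r : ℝ) - x / r := by
    have h1 : x / r ≤ (1 - 2 / (r : ℝ)) / r :=
      div_le_div_of_nonneg_right (by linarith only [hε, hxX]) hr0.le
    have h2 : (1 - 2 / (r : ℝ)) / r = 1 / r - 2 / (r : ℝ) ^ 2 := by
      field_simp
    have h3 : 0 ≤ 2 / (r : ℝ) ^ 2 := by positivity
    have h4 : 2 / (r : ℝ) = 2 * (1 / r) := by ring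
    linarith only [hε, hxX, h1, h2, h3, h4]
  have hcE' : 0 ≤ (1 - x - 1 / (r : ℝ) - x / r) * E := mul_nonneg hcE hE0
  -- main part
  have hmain : μ ≤ (2 - 2 * x) * α + 2 * x * b - 2 * x * r - x ^ 3 / r := by
    have hb4 : (r : ℝ) + 1 ≤ b := by exact_mod_cast hb3
    have h3 : x ^ 3 / r ≤ x := by
      rw [div_le_iff₀ hr0]
      have h4 : x ^ 3 ≤ x * 1 := by
        have : x ^ 2 ≤ 1 := pow_le_one₀ hx0.le (by linarith only [hε, hxX, h2r0])
        calc x ^ 3 = x * x ^ 2 := by ring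
          _ ≤ x * 1 := mul_le_mul_of_nonneg_left this hx0.le
      have h7 : x * 1 ≤ x * r := mul_le_mul_of_nonneg_left (by linarith only [hr3]) hx0.le
      linarith only [h4, h7]
    have h5 : 2 * x * b ≥ 2 * x * (r + 1) := mul_le_mul_of_nonneg_left hb4 (by linarith only [hε,
        hxε])
    have h6 : μ ≤ ε := min_le_left _ _
    rw [hα]
    simp only [Nat.cast_zero, mul_zero]
    linarith only [hxε, h3, h5, h6]
  have hJ : (1 - 2 * x) * ((∑ t, (a t : ℝ)) - ∑ t, (a' t : ℝ)) + (1 / 2 - 1 / (r : ℝ)) * E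
        + 2 * x / r * (S - S') + x ^ 2 / (q * r ^ 2) * (Q - Q') + (α + b - r) ≥ 3 / 4 * μ := by
    have h1 : (1 - 2 * x) * ((∑ t, (a t : ℝ)) - ∑ t, (a' t : ℝ))
        = (1 - 2 * x) * (α - b + E / 2 + r) := by
      rw [hsa', ← hsa]; ring
    have h2 : (K' - 1) / n + 1 / n = K' / n := by ring
    rw [h1]
    have h3 : (1 - 2 * x) * (α - b + E / 2 + r) + (1 / 2 - 1 / (r : ℝ)) * E - x / r * E
        + (α + b - r) = (2 - 2 * x) * α + 2 * x * b - 2 * x * r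
        + (1 - x - 1 / (r : ℝ) - x / r) * E := by ring
    linarith only [hK4, hS1, hQ1, hcE', hmain, h2]
  have hfin := mul_le_mul_of_nonneg_left hJ (show (0 : ℝ) ≤ 2 * q by positivity)
  have h9 : 2 * q * ((1 - 2 * x) * ((∑ t, (a t : ℝ)) - ∑ t, (a' t : ℝ))
        + (1 / 2 - 1 / (r : ℝ)) * E
        + 2 * x / r * (S - S') + x ^ 2 / (q * r ^ 2) * (Q - Q') + (α + b - r))
      = (Kx r n D σ a - Kx r n D (tz r n) a') + 2 * q * (α + b) - 2 * q * r := by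
    rw [hKx]; ring
  rw [h9] at hfin
  have h10 : 2 * q * (3 / 4 * μ) = q * μ + 2 * (q * μ / 4) := by ring
  rw [h10] at hfin
  linarith only [e1', e2', hfin]

end JFAx

theorem prfJFA : EXP_statement → DEV_statement → JFA_statement := by
  intro hE hDEV r ε hr hε
  have hr0 : (0 : ℝ) < r := by
    have : 0 < r := by omega
    exact_mod_cast this
  have hμ : 0 < min ε (1 / (r : ℝ)) := lt_min hε (by positivity)
  refine ⟨qq r * min ε (1 / (r : ℝ)), mul_pos (JF2x.qq_pos hr) hμ, fun N => ?_⟩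
  obtain ⟨n₁, h₁⟩ := JFAx.caseA hE hDEV r ε hr hε N
  obtain ⟨n₂, h₂⟩ := JFAx.caseB hE hDEV r ε hr hε N
  refine ⟨max n₁ n₂, fun n hn D hD σ a a₁ a₂ α b hσ hdev ha hαb hm h0 h1 h2 hT1 hT2 => ?_⟩
  rcases Nat.eq_zero_or_pos α with hα | hα
  · right
    have h3 := h0 hα
    have h4 : b ≠ r := fun h => h2 ⟨hα, h⟩
    exact h₂ n ((le_max_right _ _).trans hn) D hD σ a a₂ α b hσ hdev ha hαb hm hα (by omega) hT2
  · left
    exact h₁ n ((le_max_left _ _).trans hn) D hD σ a a₁ α b hσ hdev ha hαb hm hα h1 hT1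

end MP0c3a8f
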