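import Pool.Agent.Work.MP_0c3a8f_co.PB.Stmts2
import Pool.Agent.Work.MP_0c3a8f_co.PB.ItemJF1
import Pool.Agent.Work.MP_0c3a8f_co.PB.ItemJF2

/-!
# MP_0c3a8f_co, phase B, item JFB
-/

set_option autoImplicit false

open Finset

namespace MP0c3a8f

namespace JFBx

/-- evenly spread numbers -/
lemma even_sq {r : ℕ} (Sm : Finset (Fin r)) (θ : Fin r → ℝ) (δ : ℝ) (hne : Sm.Nonempty)
    (h : ∀ s ∈ Sm, ∀ t ∈ Sm, θ s ≤ θ t + δ) :
    ∑ t ∈ Sm, θ t ^ 2 ≤ (∑ t ∈ Sm, θ t) ^ 2 / Sm.card + Sm.card * δ ^ 2 := by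
  have hm : (0 : ℝ) < Sm.card := by exact_mod_cast hne.card_pos
  set M := ∑ t ∈ Sm, θ t with hM
  have h1 : ∀ t ∈ Sm, (θ t - M / Sm.card) ^ 2 ≤ δ ^ 2 := by
    intro t ht
    have h2 : Sm.card * θ t ≤ M + Sm.card * δ := by
      have : ∑ s ∈ Sm, θ t ≤ ∑ s ∈ Sm, (θ s + δ) := Finset.sum_le_sum fun s hs => h t ht s hs
      rw [Finset.sum_add_distrib] at this
      simpa using this
    have h3 : M ≤ Sm.card * θ t + Sm.card * δ := by
      have : ∑ s ∈ Sm, θ s ≤ ∑ s ∈ Sm, (θ t + δ) := Finset.sum_le_sum fun s hs => h s hs t ht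
      rw [Finset.sum_add_distrib] at this
      simpa using this
    have h4 : θ t - M / Sm.card ≤ δ := by
      rw [sub_le_iff_le_add, ← sub_le_iff_le_add', le_div_iff₀ hm]
      nlinarith
    have h5 : -δ ≤ θ t - M / Sm.card := by
      rw [le_sub_iff_add_le, ← le_sub_iff_add_le', div_le_iff₀ hm]
      nlinarith
    exact sq_le_sq' h5 h4
  have h2 : ∑ t ∈ Sm, (θ t - M / Sm.card) ^ 2 = ∑ t ∈ Sm, θ t ^ 2 - M ^ 2 / Sm.card := by
    have : ∀ t ∈ Sm, (θ t - M / Sm.card) ^ 2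
        = θ t ^ 2 - 2 * (M / Sm.card) * θ t + (M / Sm.card) ^ 2 := fun t _ => by ring
    rw [Finset.sum_congr rfl this, Finset.sum_add_distrib, Finset.sum_sub_distrib,
      ← Finset.mul_sum, ← hM]
    simp only [Finset.sum_const, nsmul_eq_mul]
    field_simp
    ring
  have h3 : ∑ t ∈ Sm, (θ t - M / Sm.card) ^ 2 ≤ ∑ t ∈ Sm, δ ^ 2 := Finset.sum_le_sum h1
  rw [h2] at h3
  simp only [Finset.sum_const, nsmul_eq_mul] at h3
  linarith

/-- Cauchy -/
lemma cs {r : ℕ} (θ w : Fin r → ℝ) (m : ℝ) (hw : ∀ t, w t ^ 2 = w t) (hm : ∑ t, w t = m)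
    (hm0 : 0 < m) : (∑ t, θ t * w t) ^ 2 / m ≤ ∑ t, θ t ^ 2 := by
  have h1 := Finset.sum_mul_sq_le_sq_mul_sq Finset.univ θ w
  rw [Finset.sum_congr rfl (fun t _ => hw t), hm] at h1
  rw [div_le_iff₀ hm0]
  exact h1

lemma int_two (s : ℤ) (h : s * (s - 1) ≠ 0) : (2 : ℝ) ≤ (s : ℝ) * (s - 1) := by
  have h1 : 2 ≤ s * (s - 1) := by
    rcases lt_trichotomy s 0 with h2 | h2 | h2
    · nlinarith
    · simp [h2] at h
    · rcases eq_or_lt_of_le (show 1 ≤ s by omega) with h3 | h3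
      · simp [← h3] at h
      · nlinarith
  exact_mod_cast h1

/-- the lower bound, case `E = 0` -/
lemma low0 (x q r m Θ P Q : ℝ) (hx0 : 0 ≤ x) (hq : 0 < q) (hr : 0 < r) (hm : 1 ≤ m)
    (hP : 0 ≤ P) (hQ : (Θ - P) ^ 2 / m ≤ Q) (h1 : x * Θ ≤ q * r) :
    x ^ 2 / (q * r ^ 2) * (Θ ^ 2 / m) ≤ 2 * x / r * P + x ^ 2 / (q * r ^ 2) * Q := by
  have hm0 : 0 < m := by linarith
  have hc : 0 ≤ x ^ 2 / (q * r ^ 2) := by positivity
  have h2 : x ^ 2 / (q * r ^ 2) * ((Θ - P) ^ 2 / m) ≤ x ^ 2 / (q * r ^ 2) * Q :=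
    mul_le_mul_of_nonneg_left hQ hc
  have h3 : x ^ 2 / (q * r ^ 2) * (Θ ^ 2 / m) - x ^ 2 / (q * r ^ 2) * ((Θ - P) ^ 2 / m)
      ≤ 2 * x / r * P := by
    have e1 : x ^ 2 / (q * r ^ 2) * (Θ ^ 2 / m) - x ^ 2 / (q * r ^ 2) * ((Θ - P) ^ 2 / m)
        = (x / r * P) * ((2 * (x * Θ) - x * P) / (q * r * m)) := by
      field_simp
      ring
    have e2 : 2 * x / r * P = (x / r * P) * 2 := by ring
    rw [e1, e2]
    apply mul_le_mul_of_nonneg_left _ (by positivity)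
    rw [div_le_iff₀ (by positivity)]
    have h4 : q * r ≤ q * r * m := by
      have : 0 < q * r := by positivity
      nlinarith
    have h5 : 0 ≤ x * P := by positivity
    linarith
  linarith

/-- the target vector: there is a nonempty set `Sm` of small classes, evenly filled; all other
numbers are one -/
lemma target {r n D : ℕ} (hr : 3 ≤ r) (hn : 2 * r ^ 2 < n)
    (a' : Fin r → ℕ) (hT : Tg1 r n D a') (hEv : Ev r n 2 a') (x : ℝ) (hx1 : x ≤ 1 / r)
    (hDx : (D : ℝ) = qq r * n * x) :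
    ∃ m : ℕ, 1 ≤ m ∧ (n % r ≤ 1 → m = r - 2) ∧ (2 ≤ n % r → m = r - n % r) ∧
      ∑ t, (r * (a' t : ℝ) / n) ^ 2 ≤ (∑ t, r * (a' t : ℝ) / n) ^ 2 / m + 2 * r ^ 3 / n ∧
      ∀ t : Fin r, t.val < n % r → a' t = 1 := by
  have hr0 : (0 : ℝ) < r := by
    have : 0 < r := by omega
    exact_mod_cast this
  have hr3 : (3 : ℝ) ≤ r := by exact_mod_cast hr
  have hn1 : 1 ≤ n := by omega
  have hn0 : (0 : ℝ) < n := by exact_mod_cast hn1
  have hnR : 2 * (r : ℝ) ^ 2 < n := by exact_mod_cast hn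
  have hρ : n % r < r := Nat.mod_lt _ (by omega)
  have hdm : r * (n / r) + n % r = n := Nat.div_add_mod n r
  obtain ⟨g0, g1, g2, g3⟩ := hT
  -- all large classes have one neighbour
  have hlarge : ∀ t : Fin r, t.val < max 2 (n % r) → a' t = 1 := by
    intro t ht
    by_cases h2 : t.val ≤ 1
    · exact g0 t h2
    · have h3 : t.val < n % r := by
        rcases lt_max_iff.1 ht with h | h
        · omega
        · exact h
      rcases g3 with g3 | g3
      · exfalso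
        -- the small class `n % r` is full
        let t0 : Fin r := ⟨n % r, hρ⟩
        have h4 : tz r n t0 = n / r := by simp [tz, t0]
        have h5 : a' t0 = n / r := by rw [g3 t0 (by simp only [t0]; omega) h4, h4]
        have h6 : a' t0 ≤ ∑ t, a' t := Finset.single_le_sum (fun _ _ => Nat.zero_le _)
          (Finset.mem_univ t0)
        rw [h5, g2] at h6
        have h7 : ((n / r : ℕ) : ℝ) ≤ D + 1 := by exact_mod_cast h6
        have h8 : (r : ℝ) * (n / r : ℕ) + (n % r : ℕ) = n := by exact_mod_cast hdm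
        have h9 : ((n % r : ℕ) : ℝ) ≤ r := by exact_mod_cast hρ.le
        have h10 : (r : ℝ) * D ≤ (1 - 1 / r) * n := by
          rw [hDx]
          unfold qq
          have h11 : r * ((1 - 1 / (r : ℝ)) * n * x) ≤ r * ((1 - 1 / (r : ℝ)) * n * (1 / r)) := by
            have h12 : 0 ≤ 1 - 1 / (r : ℝ) := by
              have : 1 / (r : ℝ) ≤ 1 := by rw [div_le_one hr0]; linarith
              linarith
            gcongr
          refine h11.trans (le_of_eq ?_)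
          field_simp
        have h13 : (1 - 1 / (r : ℝ)) * n = n - n / r := by ring
        rw [h13] at h10
        have h14 : (n : ℝ) / r > 2 * r := by
          rw [gt_iff_lt, lt_div_iff₀ hr0]
          nlinarith
        nlinarith
      · exact g3 t (by omega) (by simp only [tz]; rw [if_pos h3]; omega)
  let lo := max 2 (n % r)
  let Sm : Finset (Fin r) := Finset.univ.filter fun t => lo ≤ t.val
  have hlo : lo < r := max_lt (by omega) hρ
  have hcard : Sm.card = r - lo := by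
    have h1 : Sm = Finset.univ.filter fun t : Fin r => ¬ t.val < lo := by
      apply Finset.filter_congr
      intro t _
      simp
    have h2 := Finset.card_filter_add_card_filter_not (s := (Finset.univ : Finset (Fin r)))
      (fun t : Fin r => t.val < lo)
    have h3 : (Finset.univ.filter fun t : Fin r => t.val < lo).card = lo := by
      rw [Fin.card_filter_val_lt]
      simp
      omega
    rw [← h1, h3] at h2
    simp only [Finset.card_univ, Fintype.card_fin] at h2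
    omega
  have hne : Sm.Nonempty := by
    rw [← Finset.card_pos, hcard]; omega
  refine ⟨r - lo, by omega, ?_, ?_, ?_, ?_⟩
  · intro h
    have : lo = 2 := by simp only [lo]; omega
    omega
  · intro h
    have : lo = n % r := by simp only [lo]; omega
    omega
  · let θ : Fin r → ℝ := fun t => r * (a' t : ℝ) / n
    have hθ0 : ∀ t, 0 ≤ θ t := fun t => by simp only [θ]; positivity
    have h1 : ∀ s ∈ Sm, ∀ t ∈ Sm, θ s ≤ θ t + r / n := by
      intro s hs t ht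
      simp only [Sm, Finset.mem_filter, Finset.mem_univ, true_and, lo] at hs ht
      have h2 : tz r n s = tz r n t := by
        simp only [tz]
        rw [if_neg (by omega), if_neg (by omega)]
      have h3 : (a' s : ℝ) ≤ a' t + 1 := by
        exact_mod_cast hEv s t (by omega) (by omega) h2
      simp only [θ]
      rw [← add_div]
      apply div_le_div_of_nonneg_right _ hn0.le
      nlinarith
    have h2 := even_sq Sm θ (r / n) hne h1
    rw [hcard] at h2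
    have h3 : ∑ t, θ t ^ 2 = ∑ t ∈ Sm, θ t ^ 2 + ∑ t ∈ Smᶜ, θ t ^ 2 :=
      (Finset.sum_add_sum_compl Sm _).symm
    have h4 : ∑ t ∈ Smᶜ, θ t ^ 2 ≤ r * (r / n) ^ 2 := by
      have h5 : ∀ t ∈ Smᶜ, θ t ^ 2 = (r / n) ^ 2 := by
        intro t ht
        have h6 : t.val < lo := by
          by_contra h7
          apply Finset.mem_compl.1 ht
          simp only [Sm, Finset.mem_filter, Finset.mem_univ, true_and]
          omega
        simp only [θ]
        rw [hlarge t h6]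
        simp
      rw [Finset.sum_congr rfl h5, Finset.sum_const, nsmul_eq_mul]
      apply mul_le_mul_of_nonneg_right _ (by positivity)
      have : (Smᶜ).card ≤ r := by
        have := Finset.card_le_univ (Smᶜ)
        simpa using this
      exact_mod_cast this
    have h5 : ∑ t ∈ Sm, θ t ≤ ∑ t, θ t :=
      Finset.sum_le_sum_of_subset_of_nonneg (Finset.subset_univ _) fun t _ _ => hθ0 t
    have h6 : 0 ≤ ∑ t ∈ Sm, θ t := Finset.sum_nonneg fun t _ => hθ0 t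
    have hm0 : (0 : ℝ) < ((r - lo : ℕ) : ℝ) := by
      have : 0 < r - lo := by omega
      exact_mod_cast this
    have h7 : (∑ t ∈ Sm, θ t) ^ 2 / ((r - lo : ℕ) : ℝ) ≤ (∑ t, θ t) ^ 2 / ((r - lo : ℕ) : ℝ) := by
      apply div_le_div_of_nonneg_right _ hm0.le
      exact pow_le_pow_left₀ h6 h5 2
    have h8 : ((r - lo : ℕ) : ℝ) * (r / n) ^ 2 ≤ r * (r / n) ^ 2 := by
      apply mul_le_mul_of_nonneg_right _ (by positivity)
      have : r - lo ≤ r := by omega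
      exact_mod_cast this
    have h9 : (r : ℝ) * (r / n) ^ 2 ≤ r ^ 3 / n := by
      have h10 : (r : ℝ) * (r / n) ^ 2 = r ^ 3 / n * (1 / n) := by ring
      rw [h10]
      apply mul_le_of_le_one_right (by positivity)
      rw [div_le_one hn0]
      exact_mod_cast hn1
    have h11 : 2 * (r : ℝ) ^ 3 / n = r ^ 3 / n + r ^ 3 / n := by ring
    rw [h11]
    have h12 : ∑ t, (r * (a' t : ℝ) / n) ^ 2 = ∑ t, θ t ^ 2 := rfl
    rw [h12]
    linarith
  · intro t ht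
    exact hlarge t (lt_max_of_lt_right ht)

lemma sqs1 (y Θ a : ℝ) (hy0 : 0 ≤ y) (hy1 : y ≤ 1) (ha : 0 ≤ a) (h : y - a ≤ Θ) :
    y ^ 2 - 2 * a ≤ Θ ^ 2 := by
  nlinarith [sq_nonneg (Θ - y)]

lemma sqs2 (y u a : ℝ) (hy1 : y ≤ 1) (hu : 0 ≤ u) (h : u ≤ a) (h2 : u ^ 2 ≤ a) :
    (y + u) ^ 2 ≤ y ^ 2 + 3 * a := by
  nlinarith

lemma rsq (r n : ℝ) (hr : 3 ≤ r) (hn : 1 ≤ n) : r / n ≤ r ^ 2 / n ∧ (r / n) ^ 2 ≤ r ^ 2 / n := by
  have hn0 : 0 < n := by linarith
  constructor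
  · apply div_le_div_of_nonneg_right _ hn0.le
    nlinarith
  · rw [div_pow]
    apply div_le_div_of_nonneg_left (by positivity) hn0
    nlinarith

lemma mainA (r n x c y Θ Θ' W err : ℝ) (hr3 : 3 ≤ r) (hn0 : 0 < n) (hc0 : 0 ≤ c)
    (hc1 : c ≤ 1 / 54) (hc2 : c = x ^ 2 / ((r - 1) * r)) (hy : y = (r - 1) * x)
    (hΘsq : y ^ 2 - 2 * (r ^ 2 / n) ≤ Θ ^ 2) (hΘ'sq : Θ' ^ 2 ≤ y ^ 2 + 3 * (r ^ 2 / n))
    (hB2 : c * (Θ ^ 2 / (r - 1)) - err ≤ W) :
    -(x ^ 4 / (r * (r - 2))) - 5 * (r ^ 2 / n) - err ≤ W - c * (Θ' ^ 2 / (r - 2)) := by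
  have hrn : 0 ≤ (r : ℝ) ^ 2 / n := by positivity
  have hr1 : (0 : ℝ) < r - 1 := by linarith
  have hr2 : (0 : ℝ) < r - 2 := by linarith
  have h1 : c * ((y ^ 2 - 2 * (r ^ 2 / n)) / (r - 1)) ≤ c * (Θ ^ 2 / (r - 1)) := by
    apply mul_le_mul_of_nonneg_left _ hc0
    exact div_le_div_of_nonneg_right hΘsq (by linarith)
  have h2 : c * (Θ' ^ 2 / (r - 2)) ≤ c * ((y ^ 2 + 3 * (r ^ 2 / n)) / (r - 2)) := by
    apply mul_le_mul_of_nonneg_left _ hc0
    exact div_le_div_of_nonneg_right hΘ'sq (by linarith)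
  have h3 : c * (y ^ 2 / (r - 1)) - c * (y ^ 2 / (r - 2)) = -(x ^ 4 / (r * ((r : ℝ) - 2))) := by
    have hr0 : (0 : ℝ) < r := by linarith
    rw [hc2, hy]
    field_simp
    ring
  have h4 : c * ((y ^ 2 - 2 * (r ^ 2 / n)) / (r - 1))
      = c * (y ^ 2 / (r - 1)) - c * (2 * (r ^ 2 / n) / (r - 1)) := by ring
  have h5 : c * ((y ^ 2 + 3 * (r ^ 2 / n)) / (r - 2))
      = c * (y ^ 2 / (r - 2)) + c * (3 * (r ^ 2 / n) / (r - 2)) := by ring
  have h6 : c * (2 * (r ^ 2 / n) / (r - 1)) ≤ 1 * (2 * (r ^ 2 / n)) := by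
    apply mul_le_mul (by linarith) _ (by positivity) (by norm_num)
    exact div_le_self (by positivity) (by linarith)
  have h7 : c * (3 * (r ^ 2 / n) / (r - 2)) ≤ 1 * (3 * (r ^ 2 / n)) := by
    apply mul_le_mul (by linarith) _ (by positivity) (by norm_num)
    exact div_le_self (by positivity) (by linarith)
  linarith

lemma mainB (r n c y Θ Θ' W err m : ℝ) (hn0 : 0 < n) (hc0 : 0 ≤ c)
    (hc1 : c ≤ 1 / 54) (hm : 1 ≤ m)
    (hΘsq : y ^ 2 - 2 * (r ^ 2 / n) ≤ Θ ^ 2) (hΘ'sq : Θ' ^ 2 ≤ y ^ 2 + 3 * (r ^ 2 / n))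
    (hB1 : c * (Θ ^ 2 / m) - err ≤ W) :
    -0 - 5 * (r ^ 2 / n) - err ≤ W - c * (Θ' ^ 2 / m) := by
  have h1 : c * (Θ' ^ 2 / m) - c * (Θ ^ 2 / m) ≤ 5 * (r ^ 2 / n) := by
    have h2 : c * (Θ' ^ 2 / m) - c * (Θ ^ 2 / m) = c / m * (Θ' ^ 2 - Θ ^ 2) := by ring
    rw [h2]
    have h3 : c / m ≤ 1 := by
      rw [div_le_one (by linarith)]; linarith
    have h4 : 0 ≤ c / m := by positivity
    have h5 : c / m * (Θ' ^ 2 - Θ ^ 2) ≤ c / m * (5 * (r ^ 2 / n)) :=
      mul_le_mul_of_nonneg_left (by linarith) h4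
    have h6 : c / m * (5 * (r ^ 2 / n)) ≤ 1 * (5 * (r ^ 2 / n)) :=
      mul_le_mul_of_nonneg_right h3 (by positivity)
    linarith
  linarith

lemma errs (r n N : ℝ) (hr3 : 3 ≤ r) (hn0 : 0 < n) (hN0 : 0 ≤ N) :
    (r ^ 2 * ((N + 1) * (N + 2)) : ℝ) / n + r ^ 2 / n + r * N / n + 2 * r ^ 3 / n
      + 5 * (r ^ 2 / n) ≤ (10 * r ^ 3 * ((N + 1) * (N + 2)) : ℝ) / n := by
  have h1 : (r ^ 2 * ((N + 1) * (N + 2)) : ℝ) / n + r ^ 2 / n + r * N / n + 2 * r ^ 3 / n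
      + 5 * (r ^ 2 / n) = (r ^ 2 * ((N + 1) * (N + 2)) + r ^ 2 + r * N + 2 * r ^ 3
        + 5 * r ^ 2) / n := by ring
  rw [h1]
  apply div_le_div_of_nonneg_right _ hn0.le
  set w : ℝ := (N + 1) * (N + 2) with hw
  have hw2 : 2 ≤ w := by nlinarith
  have hwN : N ≤ w := by nlinarith
  have hr23 : (r : ℝ) ^ 2 ≤ r ^ 3 := pow_le_pow_right₀ (by linarith) (by norm_num)
  have hr13' : (r : ℝ) ≤ r ^ 3 := by
    calc (r : ℝ) = r ^ 1 := (pow_one _).symm
      _ ≤ r ^ 3 := pow_le_pow_right₀ (by linarith) (by norm_num)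
  have e1 : (r : ℝ) ^ 2 * w ≤ r ^ 3 * w := mul_le_mul_of_nonneg_right hr23 (by linarith)
  have e2 : (r : ℝ) ^ 3 * 2 ≤ r ^ 3 * w := mul_le_mul_of_nonneg_left hw2 (by positivity)
  have e3 : (r : ℝ) * N ≤ r ^ 3 * w := mul_le_mul hr13' hwN hN0 (by positivity)
  linarith

lemma small2 (r n N x ρ Θ Θ' y E : ℝ) (hr0 : 0 < r) (hn0 : 0 < n) (hN0 : 0 ≤ N)
    (h2xr0 : 0 ≤ 2 * x / r) (h2xr : 2 * x / r ≤ 1) (hρ0 : 0 ≤ ρ / r) (hρr : ρ / r ≤ 1)
    (hΘe : Θ = y + r / n * (-r + E / 2)) (hΘ'e : Θ' = y + r / n) (hEN : E ≤ N) :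
    2 * x / r * (ρ / r * (Θ - Θ')) ≤ r * N / n := by
  have h1 : Θ - Θ' ≤ r * N / n := by
    rw [hΘe, hΘ'e]
    have h2 : (r : ℝ) / n * (-r + E / 2) ≤ r / n * N := by
      apply mul_le_mul_of_nonneg_left _ (by positivity)
      linarith
    have h3 : (r : ℝ) / n * N = r * N / n := by ring
    have h4 : 0 ≤ (r : ℝ) / n := by positivity
    linarith
  have h5 : 0 ≤ 2 * x / r * (ρ / r) := mul_nonneg h2xr0 hρ0
  have h6 : 2 * x / r * (ρ / r) ≤ 1 := mul_le_one₀ h2xr hρ0 hρr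
  have h7 : 2 * x / r * (ρ / r * (Θ - Θ')) = 2 * x / r * (ρ / r) * (Θ - Θ') := by ring
  rw [h7]
  calc 2 * x / r * (ρ / r) * (Θ - Θ') ≤ 2 * x / r * (ρ / r) * (r * N / n) :=
        mul_le_mul_of_nonneg_left h1 h5
    _ ≤ 1 * (r * N / n) := mul_le_mul_of_nonneg_right h6 (by positivity)
    _ = r * N / n := one_mul _

lemma linP (x r q E P err : ℝ) (h2xr0 : 0 ≤ 2 * x / r) (h2xr : 2 * x / r ≤ 1)
    (herr0 : 0 ≤ err) (hPa : -P ≤ E / 2 + err) :
    (q - x - x / r) * E - err ≤ (q - x) * E + 2 * x / r * P := by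
  have h1 : 2 * x / r * (-P) ≤ 2 * x / r * (E / 2 + err) :=
    mul_le_mul_of_nonneg_left hPa h2xr0
  have h2 : 2 * x / r * err ≤ 1 * err := mul_le_mul_of_nonneg_right h2xr herr0
  have h4 : 2 * x / r * (E / 2 + err) = x / r * E + 2 * x / r * err := by ring
  have h5 : (q - x - x / r) * E = (q - x) * E - x / r * E := by ring
  have h6 : 2 * x / r * (-P) = -(2 * x / r * P) := by ring
  linarith

lemma big (c Θ m z E : ℝ) (hc1 : c ≤ 1 / 54) (hm : 1 ≤ m) (hΘ0 : 0 ≤ Θ)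
    (hΘ2 : Θ ≤ 3 / 2) (hz : 2 / 9 ≤ z) (hE : 2 ≤ E) : c * (Θ ^ 2 / m) ≤ z * E := by
  have h8 : 4 / 9 ≤ z * E := by nlinarith
  have h9 : Θ ^ 2 / m ≤ 9 / 4 := by
    rw [div_le_iff₀ (by linarith)]
    nlinarith
  have h10 : c * (Θ ^ 2 / m) ≤ 1 / 54 * (9 / 4) :=
    mul_le_mul hc1 h9 (by positivity) (by norm_num)
  linarith

lemma thetaLe (r n N y E Θ : ℝ) (hr0 : 0 < r) (hn0 : 0 < n) (h1 : r * (N + 1) ≤ n)
    (hEN : E ≤ N) (hy : y ≤ 1) (hΘ : Θ = y + r / n * (-r + E / 2)) :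
    Θ ≤ 3 / 2 := by
  have h2 : r / n * (-r + E / 2) ≤ 1 / 2 := by
    rw [div_mul_eq_mul_div, div_le_iff₀ hn0]
    nlinarith
  linarith

lemma cle (x q r : ℝ) (hx0 : 0 ≤ x) (hx13 : x ≤ 1 / 3) (hr3 : 3 ≤ r) (hq : 0 < q)
    (hqr : q * r = r - 1) : x ^ 2 / (q * r ^ 2) ≤ 1 / 54 ∧
      x ^ 2 / (q * r ^ 2) = x ^ 2 / ((r - 1) * r) := by
  have h3 : q * (r : ℝ) ^ 2 = (r - 1) * r := by rw [← hqr]; ring
  constructor
  · rw [div_le_iff₀ (by positivity)]
    have h1 : x ^ 2 ≤ (1 / 3) ^ 2 := pow_le_pow_left₀ hx0 hx13 2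
    have h2 : 6 ≤ q * r ^ 2 := by
      rw [h3]
      nlinarith
    linarith
  · rw [h3]

/-- the main estimate -/
lemma core (hDev : DEV_statement) {r n N D : ℕ} (hr : 3 ≤ r) (hn : 2 * r ^ 2 < n)
    (σ a a' : Fin r → ℕ) (hσ : ∑ t, σ t = n) (hdev : dev σ ≤ N) (ha : ∀ t, a t ≤ σ t)
    (hi : ∃ i, a i = 0) (hT : Tg1 r n D a') (hEv : Ev r n 2 a') (x : ℝ) (hx0 : 0 ≤ x)
    (hx1 : x ≤ 1 / r) (hDx : (D : ℝ) = qq r * n * x)
    (hsa : (∑ t, (a t : ℝ)) = D - r + (dev σ - dev (tz r n)) / 2)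
    (hnN : r * (N + 1) ≤ n) :
    0 ≤ dev σ - dev (tz r n) ∧
    -(if n % r ≤ 1 then x ^ 4 / (r * ((r : ℝ) - 2)) else 0)
      - (10 * r ^ 3 * ((N + 1) * (N + 2)) : ℝ) / n ≤
    (qq r - x) * (dev σ - dev (tz r n))
      + 2 * x / r * (∑ t, (r * (a t : ℝ) / n) * ((σ t : ℝ) - n / r)
        - ∑ t, (r * (a' t : ℝ) / n) * ((tz r n t : ℝ) - n / r))
      + x ^ 2 / (qq r * r ^ 2) * (∑ t, (r * (a t : ℝ) / n) ^ 2 -
        ∑ t, (r * (a' t : ℝ) / n) ^ 2) := by
  have hr0 : (0 : ℝ) < r := by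
    have : 0 < r := by omega
    exact_mod_cast this
  have hr3 : (3 : ℝ) ≤ r := by exact_mod_cast hr
  have hn1 : 1 ≤ n := by omega
  have hn0 : (0 : ℝ) < n := by exact_mod_cast hn1
  have hn1R : (1 : ℝ) ≤ n := by exact_mod_cast hn1
  have hN0 : (0 : ℝ) ≤ N := Nat.cast_nonneg _
  have hq := JF2x.qq_pos hr
  have hq1 := JF2x.qq_le (r := r)
  obtain ⟨m, hm1, hmA, hmB, hQ', hlarge⟩ := target hr hn a' hT hEv x hx1 hDx
  have hdT : 0 ≤ dev (tz r n) := by
    unfold dev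
    exact Finset.sum_nonneg fun t _ => sq_nonneg _
  have hE := JF2x.exc hDev hr σ hσ
  set E := dev σ - dev (tz r n) with hEd
  set q := qq r with hqd
  have hqe : q = 1 - 1 / (r : ℝ) := rfl
  have hqr : q * r = r - 1 := by rw [hqe]; field_simp
  have hEN : E ≤ N := by linarith
  let m0 : ℕ := n / r
  let ρ : ℕ := n % r
  have hρ : ρ < r := Nat.mod_lt _ (by omega)
  have hdm : r * m0 + ρ = n := Nat.div_add_mod n r
  have hdmR : (r : ℝ) * m0 + ρ = n := by exact_mod_cast hdm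
  have hnr : (n : ℝ) / r = m0 + ρ / r := by
    rw [← hdmR]; field_simp
  let s : Fin r → ℤ := fun t => (σ t : ℤ) - m0
  have hs : ∀ t, (s t : ℝ) = (σ t : ℝ) - m0 := by intro t; simp [s]
  have hEs : E = ∑ t, (s t : ℝ) * ((s t : ℝ) - 1) := by
    rw [hE]
    apply Finset.sum_congr rfl
    intro t _
    rw [hs]
  have hE0 : 0 ≤ E := by
    rw [hEs]
    exact Finset.sum_nonneg fun t _ => JF2x.int_sq _
  have hsE : ∀ t, (s t : ℝ) * ((s t : ℝ) - 1) ≤ E := by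
    intro t
    rw [hEs]
    exact Finset.single_le_sum (f := fun t => (s t : ℝ) * ((s t : ℝ) - 1))
      (fun t _ => JF2x.int_sq _) (Finset.mem_univ t)
  have hsB : ∀ t, (s t : ℝ) * ((s t : ℝ) - 1) ≤ N := fun t => (hsE t).trans hEN
  refine ⟨hE0, ?_⟩
  set η : ℝ := r * (N + 1) / n with hη
  have hη0 : 0 ≤ η := by positivity
  have hη1 : η ≤ 1 := by
    rw [hη, div_le_one hn0]; exact_mod_cast hnN
  let θ : Fin r → ℝ := fun t => r * (a t : ℝ) / n
  let θ' : Fin r → ℝ := fun t => r * (a' t : ℝ) / n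
  have hθ0 : ∀ t, 0 ≤ θ t := fun t => by simp only [θ]; positivity
  have hθ'0 : ∀ t, 0 ≤ θ' t := fun t => by simp only [θ']; positivity
  have hm0n : (r : ℝ) * m0 ≤ n := by
    have : (0 : ℝ) ≤ ρ := Nat.cast_nonneg _
    linarith
  have hθ1 : ∀ t, θ t ≤ 1 + η := by
    intro t
    have h1 : (a t : ℝ) ≤ σ t := by exact_mod_cast ha t
    have h2 : (σ t : ℝ) = m0 + s t := by rw [hs]; ring
    have h3 := (abs_le.1 (JF2x.int_bd (s t) N (hsB t))).2
    simp only [θ, hη]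
    rw [div_le_iff₀ hn0, add_mul, div_mul_cancel₀ _ hn0.ne']
    have h4 : (r : ℝ) * a t ≤ r * (m0 + (N + 1)) := by
      apply mul_le_mul_of_nonneg_left _ hr0.le
      linarith
    linarith
  set Θ := ∑ t, θ t with hΘ
  set Θ' := ∑ t, θ' t with hΘ'
  have hΘ0 : 0 ≤ Θ := Finset.sum_nonneg fun t _ => hθ0 t
  set y : ℝ := (r - 1) * x with hy
  have hy0 : 0 ≤ y := mul_nonneg (by linarith) hx0
  have hxr : x * r ≤ 1 := by rwa [le_div_iff₀ hr0] at hx1
  have hy1 : y ≤ 1 := by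
    have : y = x * r - x := by rw [hy]; ring
    linarith
  have hΘe : Θ = y + r / n * (-r + E / 2) := by
    simp only [hΘ, θ]
    rw [← Finset.sum_div, ← Finset.mul_sum, hsa, hDx, hy, ← hqr]
    field_simp
    ring
  have hΘ'e : Θ' = y + r / n := by
    simp only [hΘ', θ']
    have h1 : ∑ t, (a' t : ℝ) = D + 1 := by exact_mod_cast hT.2.2.1
    rw [← Finset.sum_div, ← Finset.mul_sum, h1, hDx, hy, ← hqr]
    field_simp
  have hT1 : ∑ t, tz r n t = n := (hDev r n σ (by omega) hσ).1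
  let i : Fin r → ℝ := fun t => if t.val < ρ then 1 else 0
  have hi' : ∀ t, (tz r n t : ℝ) = m0 + i t := by
    intro t
    simp only [tz, i, m0, ρ]
    push_cast
    rfl
  set P := ∑ t, θ t * s t with hP
  set P' := ∑ t, θ' t * i t with hP'
  have hS : ∑ t, (r * (a t : ℝ) / n) * ((σ t : ℝ) - n / r) = P - ρ / r * Θ := by
    rw [hP, hΘ, Finset.mul_sum, ← Finset.sum_sub_distrib]
    apply Finset.sum_congr rfl
    intro t _
    rw [hs, hnr]
    simp only [θ]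
    ring
  have hS' : ∑ t, (r * (a' t : ℝ) / n) * ((tz r n t : ℝ) - n / r) = P' - ρ / r * Θ' := by
    rw [hP', hΘ', Finset.mul_sum, ← Finset.sum_sub_distrib]
    apply Finset.sum_congr rfl
    intro t _
    rw [hi', hnr]
    simp only [θ']
    ring
  rw [hS, hS']
  have hQe : ∑ t, (r * (a t : ℝ) / n) ^ 2 = ∑ t, θ t ^ 2 := rfl
  have hQe' : ∑ t, (r * (a' t : ℝ) / n) ^ 2 = ∑ t, θ' t ^ 2 := rfl
  rw [hQe'] at hQ'
  rw [hQe, hQe']
  set Q := ∑ t, θ t ^ 2 with hQ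
  set Q' := ∑ t, θ' t ^ 2 with hQ'd
  -- `P'` is small
  have hP'1 : P' ≤ (r : ℝ) ^ 2 / n := by
    have h1 : ∀ t : Fin r, θ' t * i t ≤ (r : ℝ) / n := by
      intro t
      by_cases h : t.val < ρ
      · simp only [i, θ']
        rw [if_pos h, mul_one, hlarge t h]
        simp
      · simp only [i]
        rw [if_neg h, mul_zero]
        positivity
    calc P' ≤ ∑ _t : Fin r, (r : ℝ) / n := Finset.sum_le_sum fun t _ => h1 t
      _ = (r : ℝ) ^ 2 / n := by simp; ring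
  have hρr : (ρ : ℝ) / r ≤ 1 := by
    rw [div_le_one hr0]
    exact_mod_cast hρ.le
  have hρ0 : 0 ≤ (ρ : ℝ) / r := by positivity
  have h2xr : 2 * x / r ≤ 1 := by
    have h1 : x ≤ 1 / 3 := hx1.trans (one_div_le_one_div_of_le (by norm_num) hr3)
    rw [div_le_one hr0]
    linarith
  have h2xr0 : 0 ≤ 2 * x / r := by positivity
  -- the first estimate of `P`
  have hPa : -P ≤ E / 2 + η * (r * (N + 2)) := by
    have h1 : ∑ t : Fin r, ((s t : ℝ) * ((s t : ℝ) - 1) / 2 + η * (N + 2))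
        = E / 2 + η * (r * (N + 2)) := by
      rw [Finset.sum_add_distrib, ← Finset.sum_div, ← hEs]
      simp
      ring
    rw [← h1, hP, ← Finset.sum_neg_distrib]
    exact Finset.sum_le_sum fun t _ =>
      JF2x.term_a (s t) (θ t) η N (hθ0 t) (hθ1 t) hη0 (hsB t)
  have hx13 : x ≤ 1 / 3 := hx1.trans (one_div_le_one_div_of_le (by norm_num) hr3)
  have hr13 : 1 / (r : ℝ) ≤ 1 / 3 := one_div_le_one_div_of_le (by norm_num) hr3
  have hxr9 : x / r ≤ 1 / 9 := by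
    rw [div_eq_mul_one_div]
    calc x * (1 / (r : ℝ)) ≤ 1 / 3 * (1 / 3) :=
          mul_le_mul hx13 hr13 (by positivity) (by norm_num)
      _ = 1 / 9 := by norm_num
  have hz : 2 / 9 ≤ q - x - x / r := by rw [hqe]; linarith
  obtain ⟨hc1, hc2⟩ := cle x q r hx0 hx13 hr3 hq hqr
  set c : ℝ := x ^ 2 / (q * r ^ 2) with hc
  have hc0 : 0 ≤ c := by positivity
  set err : ℝ := η * (r * (N + 2)) with herr
  have herr0 : 0 ≤ err := by positivity
  have herr1 : err = (r ^ 2 * ((N + 1) * (N + 2)) : ℝ) / n := by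
    rw [herr, hη]; ring
  have hlin := linP x r q E P err h2xr0 h2xr herr0 hPa
  have hΘ2 : Θ ≤ 3 / 2 := thetaLe r n N y E Θ hr0 hn0 (by exact_mod_cast hnN) hEN hy1 hΘe
  have hmR : (1 : ℝ) ≤ m := by exact_mod_cast hm1
  have hQ0 : 0 ≤ Q := Finset.sum_nonneg fun t _ => sq_nonneg _
  -- lower bound in the second case
  have hB1 : 2 ≤ n % r → c * (Θ ^ 2 / m) - err ≤ (q - x) * E + 2 * x / r * P + c * Q := by
    intro hρ2
    have hmr : (m : ℝ) = r - ρ := by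
      rw [hmB hρ2, Nat.cast_sub hρ.le]
    by_cases hz0 : ∀ t, s t * (s t - 1) = 0
    · have h01 : ∀ t, s t = 0 ∨ s t = 1 := by
        intro t
        rcases mul_eq_zero.1 (hz0 t) with h | h
        · exact Or.inl h
        · right; omega
      have hP0 : 0 ≤ P := by
        apply Finset.sum_nonneg
        intro t _
        apply mul_nonneg (hθ0 t)
        rcases h01 t with h | h <;> rw [h] <;> simp
      have hss : ∑ t, (s t : ℝ) = ρ := by
        have hσR : ∑ t, (σ t : ℝ) = n := by exact_mod_cast hσ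
        rw [Finset.sum_congr rfl (fun t _ => hs t), Finset.sum_sub_distrib, hσR]
        simp
        linarith
      have h1 := cs θ (fun t => 1 - (s t : ℝ)) m
        (by intro t; rcases h01 t with h | h <;> simp [h])
        (by
          rw [Finset.sum_sub_distrib, hss, hmr]
          simp)
        (by linarith)
      have h2 : ∑ t, θ t * (1 - (s t : ℝ)) = Θ - P := by
        rw [hΘ, hP, ← Finset.sum_sub_distrib]
        apply Finset.sum_congr rfl
        intro t _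
        ring
      rw [h2] at h1
      have h5 : x * Θ ≤ q * r := by
        rw [hqr]
        calc x * Θ ≤ 1 / 3 * (3 / 2) := mul_le_mul hx13 hΘ2 hΘ0 (by norm_num)
          _ ≤ r - 1 := by linarith
      have h3 := low0 x q r m Θ P Q hx0 hq hr0 hmR hP0 h1 h5
      have h4 : 0 ≤ (q - x) * E := by
        apply mul_nonneg _ hE0
        rw [hqe]; linarith
      linarith
    · push Not at hz0
      obtain ⟨t, ht⟩ := hz0
      have h1 : 2 ≤ E := (int_two (s t) ht).trans (hsE t)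
      have h2 := big c Θ m (q - x - x / r) E hc1 hmR hΘ0 hΘ2 hz h1
      have h11 : 0 ≤ c * Q := mul_nonneg hc0 hQ0
      linarith
  -- lower bound in the first case
  have hB2 : c * (Θ ^ 2 / (r - 1)) - err ≤ (q - x) * E + 2 * x / r * P + c * Q := by
    obtain ⟨k, hk⟩ := hi
    have h1 := cs θ (fun t => if t = k then 0 else 1) (r - 1)
      (by intro t; by_cases h : t = k <;> simp [h])
      (by
        have : ∀ t : Fin r, (if t = k then (0 : ℝ) else 1) = 1 - if t = k then 1 else 0 := by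
          intro t; by_cases h : t = k <;> simp [h]
        rw [Finset.sum_congr rfl (fun t _ => this t), Finset.sum_sub_distrib]
        simp)
      (by linarith)
    have h2 : ∑ t, θ t * (if t = k then (0 : ℝ) else 1) = Θ := by
      apply Finset.sum_congr rfl
      intro t _
      by_cases h : t = k
      · simp only [θ, h, hk]; simp
      · rw [if_neg h, mul_one]
    rw [h2] at h1
    have h3 : c * (Θ ^ 2 / (r - 1)) ≤ c * Q := mul_le_mul_of_nonneg_left h1 hc0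
    have h4 : 0 ≤ (q - x - x / r) * E := mul_nonneg (by linarith) hE0
    linarith
  -- the squares of the sums
  obtain ⟨hrn1, hrn2⟩ := rsq r n hr3 hn1R
  have hΘsq : y ^ 2 - 2 * (r ^ 2 / n) ≤ Θ ^ 2 := by
    apply sqs1 y Θ (r ^ 2 / n) hy0 hy1 (by positivity)
    rw [hΘe]
    have h2 : (r : ℝ) / n * (-r + E / 2) = -(r ^ 2 / n) + r / n * (E / 2) := by ring
    have h3 : 0 ≤ (r : ℝ) / n * (E / 2) := by positivity
    linarith
  have hΘ'sq : Θ' ^ 2 ≤ y ^ 2 + 3 * (r ^ 2 / n) := by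
    rw [hΘ'e]
    exact sqs2 y (r / n) (r ^ 2 / n) hy1 (by positivity) hrn1 hrn2
  have hmain : -(if n % r ≤ 1 then x ^ 4 / (r * ((r : ℝ) - 2)) else 0) - 5 * (r ^ 2 / n) - err ≤
      (q - x) * E + 2 * x / r * P + c * Q - c * (Θ' ^ 2 / m) := by
    split_ifs with hcase
    · have hmr : (m : ℝ) = r - 2 := by
        rw [hmA hcase, Nat.cast_sub (by omega)]
        norm_num
      rw [hmr]
      exact mainA r n x c y Θ Θ' _ err hr3 hn0 hc0 hc1 hc2 hy hΘsq hΘ'sq hB2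
    · exact mainB r n c y Θ Θ' _ err m hn0 hc0 hc1 hmR hΘsq hΘ'sq (hB1 (by omega))
  -- the small terms
  have hs1 : 2 * x / r * P' ≤ r ^ 2 / n := by
    have h1 : 2 * x / r * P' ≤ 2 * x / r * (r ^ 2 / n) := mul_le_mul_of_nonneg_left hP'1 h2xr0
    have h2 : 2 * x / r * ((r : ℝ) ^ 2 / n) ≤ 1 * (r ^ 2 / n) :=
      mul_le_mul_of_nonneg_right h2xr (by positivity)
    linarith
  have hs2 := small2 r n N x ρ Θ Θ' y E hr0 hn0 hN0 h2xr0 h2xr hρ0 hρr hΘe hΘ'e hEN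
  have hs3 : c * Q' ≤ c * (Θ' ^ 2 / m) + 2 * r ^ 3 / n := by
    have h1 : c * Q' ≤ c * (Θ' ^ 2 / m + 2 * r ^ 3 / n) := mul_le_mul_of_nonneg_left hQ' hc0
    have h2 : c * (2 * r ^ 3 / n) ≤ 1 * (2 * r ^ 3 / n) :=
      mul_le_mul_of_nonneg_right (by linarith) (by positivity)
    linarith
  have hs4 := errs r n N hr3 hn0 hN0
  rw [← herr1] at hs4
  have hfin : 2 * x / r * (P - ρ / r * Θ - (P' - ρ / r * Θ')) + c * (Q - Q')
      = 2 * x / r * P + c * Q - 2 * x / r * P' - 2 * x / r * (ρ / r * (Θ - Θ')) - c * Q' := by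
    ring
  linarith

end JFBx

open JFBx in
theorem prfJFB : EXP_statement → DEV_statement → JFB_statement := by
  intro hEXP hDev r ε hr hε
  have hr3 : (3 : ℝ) ≤ r := by exact_mod_cast hr
  have hr0 : (0 : ℝ) < r := by linarith
  have hq := JF2x.qq_pos hr
  obtain ⟨c1, hc1, hJF1⟩ := prfJF1 hEXP hDev r ε hr hε
  set q := qq r with hqd
  have hqe : q = 1 - 1 / (r : ℝ) := rfl
  refine ⟨min c1 (q * ε / 2), lt_min hc1 (by positivity), ?_⟩
  intro N
  obtain ⟨nA, hA⟩ := hJF1 (N + r)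
  obtain ⟨nB, hB⟩ := hEXP r (N + r + 1) (q * ε / 8) hr (by positivity)
  set K : ℝ := 10 * r ^ 3 * ((N + 1) * (N + 2)) with hK
  have hK0 : 0 < K := by positivity
  refine ⟨nA + nB + (2 * r ^ 2 + 1) + r * (N + 1) + ⌈4 * K / ε⌉₊, ?_⟩
  intro n hn D hRR hgap σ a a₁ hσ hdev ha hE hi hT hEv
  have hnA : nA ≤ n := by omega
  have hnB : nB ≤ n := by omega
  have hn2 : 2 * r ^ 2 < n := by omega
  have hnN : r * (N + 1) ≤ n := by omega
  have hn1 : 1 ≤ n := by omega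
  have hn0 : (0 : ℝ) < n := by exact_mod_cast hn1
  have hnK : K / n ≤ ε / 4 := by
    have h1 : ⌈4 * K / ε⌉₊ ≤ n := by omega
    have h2 : 4 * K / ε ≤ n := (Nat.le_ceil _).trans (by exact_mod_cast h1)
    rw [div_le_iff₀ hε] at h2
    rw [div_le_iff₀ hn0]
    linarith
  have hN0 : (0 : ℝ) ≤ N := Nat.cast_nonneg _
  by_cases hbig : (1 / ((r : ℝ) + 1) + 1 / (r : ℝ) ^ 5) * (q * n) ≤ D
  · have h1 := hA n hnA D hbig hRR.2 σ a a₁ 0 r hσ (by push_cast; linarith) ha (by omega)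
      (by omega) (fun _ => le_rfl) (by omega) hT
    have h2 := min_le_left c1 (q * ε / 2)
    push_cast at h1
    rw [zero_add] at h1
    linarith
  push Not at hbig
  have hqn : 0 < q * n := by positivity
  set x : ℝ := D / (q * n) with hx
  have hDx : (D : ℝ) = q * n * x := by
    rw [hx]; field_simp
  have hx0 : 0 ≤ x := by positivity
  have hxX : x ≤ 1 / ((r : ℝ) + 1) + 1 / (r : ℝ) ^ 5 := by
    rw [hx, div_le_iff₀ hqn]; exact hbig.le
  have hx1 : x ≤ 1 / r := by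
    refine hxX.trans ?_
    have h1 : 1 / (r : ℝ) ^ 5 ≤ 1 / (r * (r + 1)) := by
      apply one_div_le_one_div_of_le (by positivity)
      have h2 : (r : ℝ) + 1 ≤ r ^ 2 := by nlinarith
      have h3 : (r : ℝ) ^ 2 ≤ r ^ 4 := pow_le_pow_right₀ (by linarith) (by norm_num)
      calc (r : ℝ) * (r + 1) ≤ r * r ^ 4 := mul_le_mul_of_nonneg_left (by linarith) hr0.le
        _ = r ^ 5 := by ring
    have h4 : 1 / ((r : ℝ) + 1) + 1 / (r * (r + 1)) = 1 / r := by
      field_simp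
    linarith
  have hDn : D ≤ n := by
    have h1 : (D : ℝ) ≤ n := by
      rw [hDx]
      have h2 : q ≤ 1 := JF2x.qq_le
      have h3 : x ≤ 1 := hx1.trans (by rw [div_le_one hr0]; linarith)
      have h4 : q * n * x ≤ 1 * n * 1 := by gcongr
      linarith
    exact_mod_cast h1
  have hTz : ∑ t, tz r n t = n := (hDev r n σ (by omega) hσ).1
  have hd1 := (hDev r n σ (by omega) hσ).2.2.2.1
  have hd2 := (hDev r n (tz r n) (by omega) hTz).2.2.2.1
  have hdTr : dev (tz r n) ≤ r := (hDev r n σ (by omega) hσ).2.2.1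
  have hdT : 0 ≤ dev (tz r n) := by
    unfold dev
    exact Finset.sum_nonneg fun t _ => sq_nonneg _
  have hER : 2 * (D : ℝ) + ∑ t, (σ t : ℝ) ^ 2
      = ∑ t, (tz r n t : ℝ) ^ 2 + 2 * ∑ t, (a t : ℝ) + 2 * r := by exact_mod_cast hE
  have hsa : (∑ t, (a t : ℝ)) = D - r + (dev σ - dev (tz r n)) / 2 := by
    rw [hd1, hd2]
    linarith
  have hsa' : ∑ t, (a₁ t : ℝ) = D + 1 := by exact_mod_cast hT.2.2.1
  obtain ⟨hE0, hcore⟩ := core hDev hr hn2 σ a a₁ hσ hdev ha hi hT hEv x hx0 hx1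
    (by rw [hDx]) hsa hnN
  have hgd : gap r n D = 2 * ((r : ℝ) + 1) * x - 2
      - if n % r ≤ 1 then x ^ 4 / (r * ((r : ℝ) - 2)) else 0 := rfl
  rw [hgd] at hgap
  rw [← hK, ← hqd] at hcore
  set g0 : ℝ := if n % r ≤ 1 then x ^ 4 / (r * ((r : ℝ) - 2)) else 0 with hg0
  have e1 := hB n D σ a hnB hσ (by push_cast; linarith) ha hDn (by
    rw [hsa, abs_le]
    push_cast
    constructor <;> linarith)
  have e2 := hB n D (tz r n) a₁ hnB hTz (by push_cast; linarith) (fun t => (hT.2.1 t).2) hDn (by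
    rw [hsa']
    push_cast
    rw [show (D : ℝ) + 1 - D = 1 by ring, abs_one]
    linarith)
  have e1' := (abs_le.1 e1).1
  have e2' := (abs_le.1 e2).2
  set S := ∑ t, (r * (a t : ℝ) / n) * ((σ t : ℝ) - n / r) with hS
  set S' := ∑ t, (r * (a₁ t : ℝ) / n) * ((tz r n t : ℝ) - n / r) with hS'
  set Q := ∑ t, (r * (a t : ℝ) / n) ^ 2 with hQ
  set Q' := ∑ t, (r * (a₁ t : ℝ) / n) ^ 2 with hQ'
  have hKx : Kx r n D σ a - Kx r n D (tz r n) a₁
      = 2 * q * ((1 - 2 * x) * ((∑ t, (a t : ℝ)) - ∑ t, (a₁ t : ℝ))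
        + (1 / 2 - 1 / (r : ℝ)) * (dev σ - dev (tz r n))
        + 2 * x / r * (S - S') + x ^ 2 / (q * r ^ 2) * (Q - Q')) := by
    unfold Kx
    simp only [← hqd, ← hx, ← hS, ← hS', ← hQ, ← hQ']
    ring
  set E := dev σ - dev (tz r n) with hEd
  have hJ : 3 / 4 * ε ≤ (1 - 2 * x) * ((∑ t, (a t : ℝ)) - ∑ t, (a₁ t : ℝ))
      + (1 / 2 - 1 / (r : ℝ)) * E + 2 * x / r * (S - S') + x ^ 2 / (q * r ^ 2) * (Q - Q')
      + (r - 1) := by
    have h1 : (1 - 2 * x) * ((∑ t, (a t : ℝ)) - ∑ t, (a₁ t : ℝ))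
      + (1 / 2 - 1 / (r : ℝ)) * E + (r - 1) = 2 * ((r : ℝ) + 1) * x - 2 + (q - x) * E := by
      rw [hsa, hsa', hqe]; ring
    linarith
  have hfin := mul_le_mul_of_nonneg_left hJ (show (0 : ℝ) ≤ 2 * q by positivity)
  have h9 : 2 * q * ((1 - 2 * x) * ((∑ t, (a t : ℝ)) - ∑ t, (a₁ t : ℝ))
        + (1 / 2 - 1 / (r : ℝ)) * E
        + 2 * x / r * (S - S') + x ^ 2 / (q * r ^ 2) * (Q - Q') + (r - 1))
      = (Kx r n D σ a - Kx r n D (tz r n) a₁) + 2 * q * r - 2 * q := by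
    rw [hKx]; ring
  rw [h9] at hfin
  have h10 := min_le_right c1 (q * ε / 2)
  have h11 : 0 < q * ε := by positivity
  have h12 : 2 * q * (3 / 4 * ε) = 3 / 2 * (q * ε) := by ring
  rw [h12] at hfin
  linarith

end MP0c3a8f
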