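import Pool.Agent.Work.MP_0c3a8f_co.PB.Stmts2
import Pool.Agent.Work.MP_0c3a8f_co.PB.ItemJF1

/-!
# MP_0c3a8f_co, phase B, second part: item JFZ
-/

open Finset

namespace MP0c3a8f

namespace JFZ

/-- the main term -/
theorem gval (r : ℕ) (hr : 3 ≤ r) (x ε : ℝ) (α b : ℕ) (hε : 0 < ε) (hx1 : ε ≤ x)
    (hx2 : x ≤ 1 - 2 / (r : ℝ)) (h0 : ¬ (α = 0 ∧ b = 0)) :
    min ε (1 / (r : ℝ)) ≤ (2 - 2 * x) * (α : ℝ) + 2 * x * b - x ^ 3 / r := by
  have hr3 : (3 : ℝ) ≤ r := by exact_mod_cast hr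
  have hr0 : (0 : ℝ) < r := by linarith
  have hx0 : 0 < x := lt_of_lt_of_le hε hx1
  have h2r : 0 < 2 / (r : ℝ) := by positivity
  have h2r' : 2 / (r : ℝ) = 2 * (1 / r) := by ring
  have hr1 : 0 < 1 / (r : ℝ) := by positivity
  have hxle : x ≤ 1 := by linarith
  have hx3 : x ^ 3 ≤ 1 := pow_le_one₀ hx0.le hxle
  have hx3r : x ^ 3 / r ≤ 1 / r := by gcongr
  have hx3x : x ^ 3 / r ≤ x := by
    rw [div_le_iff₀ hr0]
    have : x ^ 3 = x * x ^ 2 := by ring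
    rw [this]
    refine mul_le_mul_of_nonneg_left ?_ hx0.le
    nlinarith
  have hα0 : (0 : ℝ) ≤ α := by positivity
  have hb0 : (0 : ℝ) ≤ b := by positivity
  rcases Nat.eq_zero_or_pos α with ha | ha
  · have hb : (1 : ℝ) ≤ b := by
      have : 1 ≤ b := by
        rcases Nat.eq_zero_or_pos b with h | h
        · exact absurd ⟨ha, h⟩ h0
        · exact h
      exact_mod_cast this
    have h3 : 0 ≤ (2 - 2 * x) * (α : ℝ) := mul_nonneg (by linarith) hα0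
    have h4 : 2 * x * 1 ≤ 2 * x * b := mul_le_mul_of_nonneg_left hb (by positivity)
    exact (min_le_left _ _).trans (by linarith)
  · have ha1 : (1 : ℝ) ≤ α := by exact_mod_cast ha
    have h3 : (2 - 2 * x) * 1 ≤ (2 - 2 * x) * (α : ℝ) :=
      mul_le_mul_of_nonneg_left ha1 (by linarith)
    have h4 : 0 ≤ 2 * x * b := by positivity
    exact (min_le_right _ _).trans (by linarith)

/-- the final linear combination -/
theorem assemble (x α b q c W dT y L L' z z' M A Q Q' E1 E2 E3 X3 κx : ℝ)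
    (hfin : (1 - 2 * x) * (α - b + W / 2) + c * (dT + W) + (α + b) -
      ((1 - 2 * x) * 0 + c * dT) = (2 - 2 * x) * α + 2 * x * b + (q - x) * W)
    (hlin : y * M - κx ≤ (q - x) * W + y * L) (hQ : 0 ≤ Q) (hQ' : Q' ≤ X3 + E3)
    (hD2 : y * (L' - z') - y * (M - z) ≤ A) (hD3 : A ≤ E1) (hD4 : κx ≤ E2) :
    (2 - 2 * x) * α + 2 * x * b - X3 - (E1 + E2 + E3) ≤
      ((1 - 2 * x) * (α - b + W / 2) + c * (dT + W) + y * (L - z) + Q + (α + b)) -
      ((1 - 2 * x) * 0 + c * dT + y * (L' - z') + Q') := by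
  have e1 : y * (L - z) = y * L - y * z := by ring
  have e2 : y * (M - z) = y * M - y * z := by ring
  rw [e1]
  rw [e2] at hD2
  linarith

/-- the final comparison -/
theorem core (r N n D : ℕ) (hr : 3 ≤ r) (hn : 1 ≤ n) (hnN : r ^ 2 * (N + 1) ≤ n)
    (σ a a' : Fin r → ℕ) (α b : ℕ) (x : ℝ) (hxD : (D : ℝ) = x * (qq r * n)) (hx0 : 0 ≤ x)
    (hx2 : x ≤ 1 - 2 / (r : ℝ)) (hDEV : DEV_statement) (hσ : ∑ t, σ t = n) (hdev : dev σ ≤ N)
    (ha : ∀ t, a t ≤ σ t) (hαb : α + b ≤ N)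
    (hm : 2 * D + 2 * α + ∑ t, σ t ^ 2 = ∑ t, tz r n t ^ 2 + 2 * ∑ t, a t + 2 * b)
    (hD1 : 1 ≤ D) (hT : Tg1 r n (D - 1) a') :
    |(∑ t, (a t : ℝ)) - D| ≤ 3 * N ∧
    (2 - 2 * x) * (α : ℝ) + 2 * x * b - x ^ 3 / r
        - ((12 * N + 4 + 2 * r) / n + 2 * r * (N + 1) / n + (2 * r ^ 2 + r) / n) ≤
      ((1 - 2 * x) * (∑ t, (a t : ℝ) - D) + (1 / 2 - 1 / (r : ℝ)) * dev σ
        + 2 * x / r * ∑ t, (r * (a t : ℝ) / n) * ((σ t : ℝ) - n / r)
        + x ^ 2 / (qq r * r ^ 2) * ∑ t, (r * (a t : ℝ) / n) ^ 2 + (α + b)) -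
      ((1 - 2 * x) * (∑ t, (a' t : ℝ) - D) + (1 / 2 - 1 / (r : ℝ)) * dev (tz r n)
        + 2 * x / r * ∑ t, (r * (a' t : ℝ) / n) * ((tz r n t : ℝ) - n / r)
        + x ^ 2 / (qq r * r ^ 2) * ∑ t, (r * (a' t : ℝ) / n) ^ 2) := by
  have hn0 : (0 : ℝ) < n := by exact_mod_cast hn
  have hr3 : (3 : ℝ) ≤ r := by exact_mod_cast hr
  have hr0 : (0 : ℝ) < r := by linarith
  have hq : qq r = 1 - 1 / (r : ℝ) := rfl
  have hqr : qq r * r = r - 1 := by rw [hq]; field_simp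
  have hxle : x ≤ 1 := by
    have : 0 < 2 / (r : ℝ) := by positivity
    linarith
  obtain ⟨s, W, hsr, hssum, hW, hWdev, hdT0, hW0, hWN, hh⟩ :=
    JF1.basic r N n D hr σ a α b hDEV hσ hdev hαb hm
  obtain ⟨hκ1, hrn1⟩ := JF1.kap_le r N n (by omega) hn hnN
  have hκ0 : 0 ≤ (r : ℝ) * (N + 1) / n := by positivity
  have hmod : n % r < r := Nat.mod_lt _ (by omega)
  have hdm : (r : ℝ) * ((n / r : ℕ) : ℝ) + ((n % r : ℕ) : ℝ) = n := by
    exact_mod_cast Nat.div_add_mod n r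
  have hρ0 : (0 : ℝ) ≤ ((n % r : ℕ) : ℝ) := by positivity
  have hρr : ((n % r : ℕ) : ℝ) ≤ r := by exact_mod_cast hmod.le
  have hσr : ∑ t, (σ t : ℝ) = n := by exact_mod_cast hσ
  have hαbr : (α : ℝ) + b ≤ N := by exact_mod_cast hαb
  have hα0 : (0 : ℝ) ≤ α := by positivity
  have hb0 : (0 : ℝ) ≤ b := by positivity
  have hhN : |(∑ t, (a t : ℝ)) - D| ≤ 3 * N := by
    rw [hh, abs_le]; constructor <;> linarith
  refine ⟨hhN, ?_⟩
  have ha'0 : ∑ t, (a' t : ℝ) = D := by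
    have h1 : ∑ t, a' t = D := by rw [hT.2.2.1]; omega
    exact_mod_cast h1
  have ha' : ∑ t, (a' t : ℝ) - D = 0 := by linarith
  have hθ0 : ∀ t, 0 ≤ r * (a t : ℝ) / n := fun t => by positivity
  have hθ1 : ∀ t, r * (a t : ℝ) / n ≤ 1 + r * (N + 1) / n := fun t => by
    refine JF1.theta_le r N n (σ t) (a t) hr0 hn0 (le_trans ?_ hdev) (by exact_mod_cast ha t)
    have h1 := Finset.single_le_sum (f := fun t => ((σ t : ℝ) - (∑ s, (σ s : ℝ)) / r) ^ 2)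
      (fun t _ => sq_nonneg _) (Finset.mem_univ t)
    simp only [hσr] at h1
    unfold dev
    rw [hσr]
    exact h1
  have hThe : ∑ t, r * (a t : ℝ) / n = r * (∑ t, (a t : ℝ)) / n := by
    rw [← Finset.sum_div, ← Finset.mul_sum]
  have hThe' : ∑ t, r * (a' t : ℝ) / n = r * (∑ t, (a' t : ℝ)) / n := by
    rw [← Finset.sum_div, ← Finset.mul_sum]
  have hdiff : |∑ t, r * (a t : ℝ) / n - ∑ t, r * (a' t : ℝ) / n| ≤ r * (3 * N + 1) / n := by
    have : ∑ t, r * (a t : ℝ) / n - ∑ t, r * (a' t : ℝ) / n =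
        r * (∑ t, (a t : ℝ) - D) / n := by
      rw [hThe, hThe', ha'0]; ring
    rw [this, abs_div, abs_mul, abs_of_pos hr0, abs_of_pos hn0]
    refine div_le_div_of_nonneg_right (mul_le_mul_of_nonneg_left ?_ hr0.le) hn0.le
    linarith
  have hThx : ∑ t, r * (a' t : ℝ) / n = (r - 1) * x := by
    rw [hThe', ha'0, hxD]
    have : (r : ℝ) * (x * (qq r * n)) / n = (qq r * r) * x := by field_simp
    rw [this, hqr]
  have hp : x / r * (1 + r * (N + 1) / n) ≤ qq r - x := JF1.p_le r x _ hr3 hx0 hx2 hκ1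
  have hlin := JF1.linear (by omega : 1 ≤ r) (qq r - x) x _ (fun t => r * (a t : ℝ) / n) s _ hx0 hp
    hθ0 hθ1 hκ0 (hκ1.trans ((div_le_one hr0).2 (by linarith))) hssum
  rw [hW] at hlin
  have hL := JF1.target_large hr hn a' hT
  have hsq := JF1.target_sq hr hn a' (fun t => (hT.2.1 t).2)
  have hrn0 : 0 ≤ (r : ℝ) / n := by positivity
  have hsq' : ∑ t, (r * (a' t : ℝ) / n) ^ 2 ≤ (1 + r / n) * ((r - 1) * x + r / n) := by
    refine hsq.trans (mul_le_mul_of_nonneg_left ?_ (by positivity))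
    rw [hThx]; linarith
  have hQ' := JF1.Q_le r n x (qq r) _ _ hr3 hn0 hx0 hxle hqr hrn1 rfl hsq'
  have hnr : (n : ℝ) / r = ((n / r : ℕ) : ℝ) + ((n % r : ℕ) : ℝ) / r := by
    rw [← hdm]; field_simp
  have e1 : ∑ t, (r * (a t : ℝ) / n) * ((σ t : ℝ) - n / r) =
      ∑ t, (r * (a t : ℝ) / n) * s t - ((n % r : ℕ) : ℝ) / r * ∑ t, r * (a t : ℝ) / n := by
    rw [Finset.mul_sum, ← Finset.sum_sub_distrib]
    refine Finset.sum_congr rfl fun t _ => ?_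
    rw [hsr t, hnr]; ring
  have e1' : ∑ t, (r * (a' t : ℝ) / n) * ((tz r n t : ℝ) - n / r) =
      ∑ t, (r * (a' t : ℝ) / n) * (if t.val < n % r then (1 : ℝ) else 0) -
        ((n % r : ℕ) : ℝ) / r * ∑ t, r * (a' t : ℝ) / n := by
    rw [Finset.mul_sum, ← Finset.sum_sub_distrib]
    refine Finset.sum_congr rfl fun t _ => ?_
    have : (tz r n t : ℝ) = ((n / r : ℕ) : ℝ) + if t.val < n % r then (1 : ℝ) else 0 := by
      unfold tz; split_ifs <;> push_cast <;> ring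
    rw [this, hnr]; ring
  have hD := JF1.D_le r n N x ((n % r : ℕ) : ℝ) _ _ _ hr0 hn0 hx0 hxle hρ0 hρr hdiff hL
  have hD4 : 2 * x * (r * (N + 1) / n) ≤ 2 * r * (N + 1) / n := by
    calc 2 * x * (r * (N + 1) / n) ≤ 2 * 1 * (r * (N + 1) / n) :=
          mul_le_mul_of_nonneg_right (by linarith) hκ0
      _ = _ := by ring
  rw [e1, e1', hh, ha', hWdev]
  have hQ1 : 0 ≤ x ^ 2 / (qq r * r ^ 2) * ∑ t, (r * (a t : ℝ) / n) ^ 2 := by
    have hqpos : 0 ≤ qq r := by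
      have : 1 / (r : ℝ) ≤ 1 := (div_le_one hr0).2 (by linarith)
      rw [hq]; linarith
    have : 0 ≤ ∑ t, (r * (a t : ℝ) / n) ^ 2 := Finset.sum_nonneg fun t _ => sq_nonneg _
    positivity
  exact assemble x α b (qq r) (1 / 2 - 1 / (r : ℝ)) W (dev (tz r n)) (2 * x / r) _ _ _ _ _ _ _ _ _ _
    _ _ _ (by rw [hq]; ring) hlin hQ1 hQ' hD le_rfl hD4

end JFZ

theorem prfJFZ : EXP_statement → DEV_statement → JFZ_statement := by
  intro hE hDEV r ε hr hε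
  have hr3 : (3 : ℝ) ≤ r := by exact_mod_cast hr
  have hr0 : (0 : ℝ) < r := by linarith
  have hr1 : 1 / (r : ℝ) ≤ 1 / 3 := by
    apply one_div_le_one_div_of_le <;> linarith
  have hq0 : 0 < qq r := by
    have : qq r = 1 - 1 / (r : ℝ) := rfl
    linarith
  have hq1 : qq r ≤ 1 := by
    have : qq r = 1 - 1 / (r : ℝ) := rfl
    have : 0 < 1 / (r : ℝ) := by positivity
    linarith
  set g : ℝ := min ε (1 / (r : ℝ)) with hg
  have h5 : (0 : ℝ) < g := lt_min hε (by positivity)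
  refine ⟨qq r * g, by positivity, fun N => ?_⟩
  obtain ⟨n₁, hn₁⟩ := hE r (3 * N + 3 * r) (qq r * g / 4) hr (by positivity)
  set K : ℝ := (12 * N + 4 + 2 * r) + 2 * r * (N + 1) + (2 * r ^ 2 + r) with hK
  have hK0 : 0 < K := by positivity
  obtain ⟨n₂, hn₂⟩ := exists_nat_gt (K / (g / 4))
  refine ⟨n₁ + n₂ + r ^ 2 * (N + 1) + 1, fun n hn D hRR σ a a' α b hσ hdev ha hαb hm h0 hT hD1 =>
    ?_⟩
  obtain ⟨hD0, hD2⟩ := hRR
  have hn0 : (0 : ℝ) < n := by exact_mod_cast (by omega : 0 < n)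
  have hqn : 0 < qq r * n := by positivity
  set x : ℝ := D / (qq r * n) with hx
  have hxD : (D : ℝ) = x * (qq r * n) := by rw [hx]; field_simp
  have hx1 : ε ≤ x := by
    rw [hx, le_div_iff₀ hqn]; exact hD0
  have hx2 : x ≤ 1 - 2 / (r : ℝ) := by
    rw [hx, div_le_iff₀ hqn]
    exact hD2.trans (mul_le_mul_of_nonneg_right (by linarith) hqn.le)
  have hx0 : 0 ≤ x := by positivity
  obtain ⟨c1, c2⟩ := JFZ.core r N n D hr (by omega) (by omega) σ a a' α b x hxD hx0 hx2 hDEV hσ hdev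
    ha hαb hm hD1 hT
  have c3 := JFZ.gval r hr x ε α b hε hx1 hx2 h0
  have hDn : D ≤ n := by
    have : (D : ℝ) ≤ n := by
      rw [hxD]
      have : 0 < 2 / (r : ℝ) := by positivity
      have hx' : x ≤ 1 := by linarith
      calc x * (qq r * n) ≤ 1 * (1 * n) := by gcongr
        _ = n := by ring
    exact_mod_cast this
  have hN' : ((3 * N + 3 * r : ℕ) : ℝ) = 3 * N + 3 * r := by push_cast; ring
  have hNn : (0 : ℝ) ≤ N := by positivity
  have d1 := hn₁ n D σ a (by omega) hσ (by rw [hN']; linarith) ha hDn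
    (by rw [hN']; linarith)
  obtain ⟨hT1, -, hdT, -, -, -⟩ := hDEV r n (tz r n) (by omega) (hDEV r n σ (by omega) hσ).1
  have ha' : ∑ t, (a' t : ℝ) - D = 0 := by
    have h1 : ∑ t, a' t = D := by rw [hT.2.2.1]; omega
    have h' : ∑ t, (a' t : ℝ) = D := by exact_mod_cast h1
    linarith
  have d2 := hn₁ n D (tz r n) a' (by omega) hT1 (by rw [hN']; linarith) (fun t => (hT.2.1 t).2) hDn
    (by rw [hN', ha']; simp only [abs_zero]; linarith)
  have hKn : K / n ≤ g / 4 := by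
    have h6 : (n₂ : ℝ) ≤ n := by exact_mod_cast (by omega : n₂ ≤ n)
    rw [div_lt_iff₀ (by positivity)] at hn₂
    rw [div_le_iff₀ hn0]
    nlinarith
  rw [← add_div, ← add_div, ← hK] at c2
  have d1' := (abs_le.1 d1).1
  have d2' := (abs_le.1 d2).2
  unfold Kx at d1' d2'
  simp only [← hx] at d1' d2'
  set J1 : ℝ := (1 - 2 * x) * (∑ t, (a t : ℝ) - D) + (1 / 2 - 1 / (r : ℝ)) * dev σ
        + 2 * x / r * ∑ t, (r * (a t : ℝ) / n) * ((σ t : ℝ) - n / r)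
        + x ^ 2 / (qq r * r ^ 2) * ∑ t, (r * (a t : ℝ) / n) ^ 2 with hJ1
  set J2 : ℝ := (1 - 2 * x) * (∑ t, (a' t : ℝ) - D) + (1 / 2 - 1 / (r : ℝ)) * dev (tz r n)
        + 2 * x / r * ∑ t, (r * (a' t : ℝ) / n) * ((tz r n t : ℝ) - n / r)
        + x ^ 2 / (qq r * r ^ 2) * ∑ t, (r * (a' t : ℝ) / n) ^ 2 with hJ2
  have c4 : g - g / 4 ≤ J1 + (α + b) - J2 := by linarith
  have c5 := mul_le_mul_of_nonneg_left c4 (by positivity : (0 : ℝ) ≤ 2 * qq r)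
  have c6 : 2 * qq r * (J1 + (α + b) - J2) =
      2 * qq r * J1 + 2 * qq r * (α + b) - 2 * qq r * J2 := by ring
  have c7 : 2 * qq r * (g - g / 4) = 3 / 2 * (qq r * g) := by ring
  rw [c6, c7] at c5
  linarith

end MP0c3a8f
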