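import Pool.Agent.Work.MP_0c3a8f_co.PB.Stmts

/-! Item MEM2 (helper42): graphs of type two. -/

set_option autoImplicit false

open Finset

namespace MP0c3a8f

namespace ItemMEM2

variable {r : ℕ} {V : Type} [Fintype V] {G : SimpleGraph V} {f : V → Option (Fin r)} {w u : V}
  {v : Fin r → V} {i : Fin r}

theorem fw (h : Ty2 G f w u v i) : f w = none := (h.out w).2 (Or.inl rfl)

theorem fu (h : Ty2 G f w u v i) : f u = none := (h.out u).2 (Or.inr rfl)

theorem indep (h : Ty2 G f w u v i) : Indep G f := by
  intro x y hx hxy hadj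
  have hy : f y ≠ none := hxy ▸ hx
  exact ((h.core x y hx hy).1 hadj) hxy

/-- the neighbours of `u` -/
theorem adj_u (h : Ty2 G f w u v i) (y : V) : G.Adj u y ↔ y = w ∨ ∃ t, t ≠ i ∧ y = v t := by
  constructor
  · intro hy
    by_cases hn : f y = none
    · rcases (h.out y).1 hn with h1 | h1
      · exact Or.inl h1
      · subst h1; exact absurd hy (G.loopless.irrefl _)
    · exact Or.inr ((h.un y hn).1 hy)
  · rintro (h1 | ⟨t, ht, h1⟩)
    · subst h1; exact h.uw
    · subst h1
      exact (h.un _ (by rw [h.hv t ht]; simp)).2 ⟨t, ht, rfl⟩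

open Classical in
/-- the set of the neighbours of `u` -/
noncomputable def S (w : V) (v : Fin r → V) (i : Fin r) : Finset V :=
  insert w ((univ.erase i).image v)

theorem mem_S (h : Ty2 G f w u v i) (y : V) : y ∈ S w v i ↔ G.Adj u y := by
  classical
  rw [adj_u h]
  unfold S
  simp only [mem_insert, mem_image, mem_erase, mem_univ, and_true]
  constructor
  · rintro (h1 | ⟨t, h1, h2⟩)
    · exact Or.inl h1
    · exact Or.inr ⟨t, h1, h2.symm⟩
  · rintro (h1 | ⟨t, h1, h2⟩)
    · exact Or.inl h1
    · exact Or.inr ⟨t, h1, h2.symm⟩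

theorem card_S (h : Ty2 G f w u v i) : (S w v i).card = r := by
  classical
  unfold S
  have hr : 0 < r := Fin.pos i
  have hinj : Set.InjOn v ((univ.erase i : Finset (Fin r)) : Set (Fin r)) := by
    intro s hs t ht hst
    have hs' : s ≠ i := by simpa using hs
    have ht' : t ≠ i := by simpa using ht
    have h1 := h.hv s hs'
    have h2 := h.hv t ht'
    rw [hst, h2] at h1
    exact (Option.some_injective _ h1).symm
  rw [card_insert_of_notMem, card_image_of_injOn hinj, card_erase_of_mem (mem_univ i), card_univ,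
    Fintype.card_fin]
  · omega
  · intro hm
    obtain ⟨t, ht, h1⟩ := mem_image.1 hm
    have ht' : t ≠ i := (mem_erase.1 ht).1
    have h2 := h.hv t ht'
    rw [h1, fw h] at h2
    exact absurd h2 (by simp)

theorem nbn_zero {G : SimpleGraph V} {f : V → Option (Fin r)} {w : V} {i : Fin r}
    (h : nbn G f w i = 0) (y : V) (hy : f y = some i) : ¬ G.Adj w y := by
  intro ha
  unfold nbn at h
  rw [Set.ncard_eq_zero (Set.toFinite _)] at h
  exact (Set.eq_empty_iff_forall_notMem.1 h y) ⟨hy, ha⟩

theorem nbn_pos {G : SimpleGraph V} {f : V → Option (Fin r)} {w : V} {t : Fin r}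
    (h : 1 ≤ nbn G f w t) : ∃ y, f y = some t ∧ G.Adj w y := by
  unfold nbn at h
  have h1 : {v | f v = some t ∧ G.Adj w v}.Nonempty := by
    rw [← Set.ncard_pos (Set.toFinite _)]; omega
  obtain ⟨y, hy⟩ := h1
  exact ⟨y, hy.1, hy.2⟩

theorem siz_pos {f : V → Option (Fin r)} {t : Fin r} (h : 1 ≤ siz f t) : ∃ y, f y = some t := by
  unfold siz at h
  have h1 : {v | f v = some t}.Nonempty := by
    rw [← Set.ncard_pos (Set.toFinite _)]; omega
  obtain ⟨y, hy⟩ := h1
  exact ⟨y, hy⟩

theorem free (h : Th2 G f w u v i) : (⊤ : SimpleGraph (Fin (r + 1))).Free G := by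
  classical
  rintro ⟨φ⟩
  have hadj : ∀ a b : Fin (r + 1), a ≠ b → G.Adj (φ a) (φ b) := fun a b hab =>
    φ.toHom.map_adj ((SimpleGraph.top_adj a b).2 hab)
  have hinj : Function.Injective φ := φ.injective
  by_cases hu : ∃ a, φ a = u
  · obtain ⟨a₀, ha₀⟩ := hu
    have hsub : (univ.erase a₀).image φ ⊆ S w v i := by
      intro y hy
      obtain ⟨a, ha, h1⟩ := mem_image.1 hy
      rw [mem_S h.ty, ← h1, ← ha₀]
      exact hadj a₀ a (mem_erase.1 ha).1.symm
    have hcard : ((univ.erase a₀).image φ).card = r := by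
      rw [card_image_of_injective _ hinj, card_erase_of_mem (mem_univ a₀), card_univ,
        Fintype.card_fin]; rfl
    have heq : (univ.erase a₀).image φ = S w v i :=
      eq_of_subset_of_card_le hsub (by rw [card_S h.ty, hcard])
    obtain ⟨t, ht, hnt⟩ := h.exc
    have hw : w ∈ (univ.erase a₀).image φ := by
      rw [heq, mem_S h.ty]; exact h.ty.uw
    have hv : v t ∈ (univ.erase a₀).image φ := by
      rw [heq, mem_S h.ty, adj_u h.ty]; exact Or.inr ⟨t, ht, rfl⟩
    obtain ⟨a, _, h1⟩ := mem_image.1 hw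
    obtain ⟨b, _, h2⟩ := mem_image.1 hv
    have hab : a ≠ b := by
      rintro rfl
      have h3 := h.ty.hv t ht
      rw [← h2, h1, fw h.ty] at h3
      exact absurd h3 (by simp)
    have := hadj a b hab
    rw [h1, h2] at this
    exact hnt this
  · push Not at hu
    by_cases hw : ∃ a, φ a = w
    · obtain ⟨a₀, ha₀⟩ := hw
      have hcore : ∀ a, a ≠ a₀ → f (φ a) ≠ none := by
        intro a ha hn
        rcases (h.ty.out _).1 hn with h1 | h1
        · exact ha (hinj (h1.trans ha₀.symm))
        · exact hu a h1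
      have hc : ∀ a, ∃ t : Fin r, a ≠ a₀ → f (φ a) = some t := by
        intro a
        by_cases ha : a = a₀
        · exact ⟨i, fun hne => absurd ha hne⟩
        · obtain ⟨t, ht⟩ := Option.ne_none_iff_exists'.1 (hcore a ha)
          exact ⟨t, fun _ => ht⟩
      choose c hc using hc
      have hcinj : Set.InjOn c ((univ.erase a₀ : Finset (Fin (r + 1))) : Set (Fin (r + 1))) := by
        intro a ha b hb hab
        have ha' : a ≠ a₀ := by simpa using ha
        have hb' : b ≠ a₀ := by simpa using hb
        by_contra hne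
        have h1 := (h.ty.core _ _ (hcore a ha') (hcore b hb')).1 (hadj a b hne)
        rw [hc a ha', hc b hb', hab] at h1
        exact h1 rfl
      have hcard : ((univ.erase a₀).image c).card = r := by
        rw [card_image_of_injOn hcinj, card_erase_of_mem (mem_univ a₀), card_univ,
          Fintype.card_fin]; rfl
      have huniv : (univ.erase a₀).image c = univ :=
        eq_univ_of_card _ (by rw [hcard, Fintype.card_fin])
      have hi : i ∈ (univ.erase a₀).image c := by rw [huniv]; exact mem_univ i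
      obtain ⟨a, ha, h1⟩ := mem_image.1 hi
      have ha' : a ≠ a₀ := (mem_erase.1 ha).1
      have h2 := hc a ha'
      rw [h1] at h2
      refine nbn_zero h.ni _ h2 ?_
      rw [← ha₀]
      exact hadj a₀ a ha'.symm
    · push Not at hw
      have hcore : ∀ a, f (φ a) ≠ none := by
        intro a hn
        rcases (h.ty.out _).1 hn with h1 | h1
        · exact hw a h1
        · exact hu a h1
      have hc : ∀ a, ∃ t : Fin r, f (φ a) = some t := fun a =>
        Option.ne_none_iff_exists'.1 (hcore a)
      choose c hc using hc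
      obtain ⟨a, b, hab, h1⟩ := Fintype.exists_ne_map_eq_of_card_lt c (by simp)
      have h2 := (h.ty.core _ _ (hcore a) (hcore b)).1 (hadj a b hab)
      rw [hc a, hc b, h1] at h2
      exact h2 rfl

theorem notCol (h : Th2 G f w u v i) (hs : ∀ t, 1 ≤ siz f t) : ¬ G.Colorable r := by
  classical
  rintro ⟨c⟩
  have hb : ∀ t, ∃ y, f y = some t := fun t => siz_pos (hs t)
  choose b hb using hb
  have hcb : Function.Injective (fun t => c (b t)) := by
    intro s t hst
    by_contra hne
    have h1 : G.Adj (b s) (b t) :=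
      (h.ty.core _ _ (by rw [hb]; simp) (by rw [hb]; simp)).2 (by rw [hb, hb]; simpa using hne)
    exact (c.valid h1) hst
  have hsur : Function.Surjective (fun t => c (b t)) := Finite.injective_iff_surjective.1 hcb
  have hcl : ∀ x t, f x = some t → c x = c (b t) := by
    intro x t hx
    obtain ⟨s, hs⟩ := hsur (c x)
    by_cases hst : s = t
    · subst hst; exact hs.symm
    · exfalso
      have h1 : G.Adj x (b s) :=
        (h.ty.core _ _ (by rw [hx]; simp) (by rw [hb]; simp)).2
          (by rw [hx, hb]; simpa using fun h => hst h.symm)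
      exact (c.valid h1) hs.symm
  have hw : c w = c (b i) := by
    obtain ⟨s, hs⟩ := hsur (c w)
    by_cases hsi : s = i
    · subst hsi; exact hs.symm
    · exfalso
      obtain ⟨y, hy, hya⟩ := nbn_pos (h.pos s hsi)
      exact (c.valid hya) (by rw [hcl y s hy]; exact hs.symm)
  obtain ⟨s, hs⟩ := hsur (c u)
  by_cases hsi : s = i
  · subst hsi
    exact (c.valid h.ty.uw) (by rw [hw]; exact hs.symm)
  · have h1 : G.Adj u (v s) := (adj_u h.ty _).2 (Or.inr ⟨s, hsi, rfl⟩)
    exact (c.valid h1) (by rw [hcl (v s) s (h.ty.hv s hsi)]; exact hs.symm)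

theorem noIso (hr : 3 ≤ r) (h : Th2 G f w u v i) (hs : ∀ t, 1 ≤ siz f t) :
    ∀ x, ∃ y, G.Adj x y := by
  intro x
  by_cases hx : f x = none
  · rcases (h.ty.out x).1 hx with h1 | h1
    · subst h1; exact ⟨u, h.ty.uw.symm⟩
    · subst h1; exact ⟨w, h.ty.uw⟩
  · obtain ⟨t, ht⟩ := Option.ne_none_iff_exists'.1 hx
    have : Nontrivial (Fin r) := Fin.nontrivial_iff_two_le.2 (by omega)
    obtain ⟨s, hst⟩ := exists_ne t
    obtain ⟨y, hy⟩ := siz_pos (hs s)
    exact ⟨y, (h.ty.core x y hx (by rw [hy]; simp)).2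
      (by rw [ht, hy]; simpa using fun h => hst h.symm)⟩

theorem light (h : Ty2 G f w u v i) : (lightSet G f {w}).ncard = r := by
  classical
  have heq : lightSet G f {w} = ((S w v i).image (fun y => s(u, y)) : Finset (Sym2 V)) := by
    ext e
    simp only [coe_image, Set.mem_image, mem_coe]
    constructor
    · rintro ⟨he, x, hx, hn, hw⟩
      have hxu : x = u := by
        rcases (h.out x).1 hn with h1 | h1
        · exact absurd (by rw [h1]; simp) hw
        · exact h1
      subst hxu
      obtain ⟨y, rfl⟩ := Sym2.mem_iff_exists.1 hx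
      refine ⟨y, ?_, rfl⟩
      rw [mem_S h]
      exact (SimpleGraph.mem_edgeSet G).1 he
    · rintro ⟨y, hy, rfl⟩
      rw [mem_S h] at hy
      exact ⟨(SimpleGraph.mem_edgeSet G).2 hy, u, Sym2.mem_mk_left _ _, fu h, by
        simpa using h.ne.symm⟩
  rw [heq, Set.ncard_coe_finset, card_image_of_injective, card_S h]
  intro a b hab
  exact Sym2.congr_right.1 hab

end ItemMEM2

theorem prfMEM2 : CNTU_statement → MEM2_statement := by
  intro hC r V _ G f w u v i hr h hs
  refine ⟨ItemMEM2.free h, ItemMEM2.notCol h hs, ItemMEM2.noIso hr h hs, ?_⟩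
  obtain ⟨e, he, hE⟩ := hC r V G f {w} (ItemMEM2.indep h.ty)
    (fun x hx => by rw [mem_singleton.1 hx]; exact ItemMEM2.fw h.ty)
  have he0 : e = 0 := by simp at he; exact he
  have hm : missSet G f = ∅ := by
    rw [Set.eq_empty_iff_forall_notMem]
    rintro e ⟨x, y, _, hx, hy, hne, hna⟩
    exact hna ((h.ty.core x y hx hy).2 hne)
  rw [hm, Set.ncard_empty, ItemMEM2.light h.ty, he0, sum_singleton] at hE
  omega

end MP0c3a8f
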