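import Pool.Agent.Work.MP_0c3a8f_co.PB.Stmts2

/-!
# MP_0c3a8f_co, phase B: there are cheap members (MEMB)
-/

set_option autoImplicit false

open Finset

namespace MP0c3a8f

namespace MEMBx

variable {k r : ℕ}

/-- the graph `H` with the neighbourhood of `w` replaced by `M` -/
def mk (H : SimpleGraph (Fin k)) (w : Fin k) (M : Finset (Fin k)) (hw : w ∉ M) :
    SimpleGraph (Fin k) where
  Adj u v := (u ≠ w ∧ v ≠ w ∧ H.Adj u v) ∨ (u = w ∧ v ∈ M) ∨ (v = w ∧ u ∈ M)
  symm := ⟨fun u v h => by
    rcases h with h | h | h
    · exact Or.inl ⟨h.2.1, h.1, h.2.2.symm⟩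
    · exact Or.inr (Or.inr h)
    · exact Or.inr (Or.inl h)⟩
  loopless := ⟨fun u h => by
    rcases h with h | h | h
    · exact H.loopless.irrefl u h.2.2
    · exact hw (h.1 ▸ h.2)
    · exact hw (h.1 ▸ h.2)⟩

theorem mk_ne {H : SimpleGraph (Fin k)} {w : Fin k} {M : Finset (Fin k)} {hw : w ∉ M}
    {u v : Fin k} (hu : u ≠ w) (hv : v ≠ w) : (mk H w M hw).Adj u v ↔ H.Adj u v := by
  constructor
  · rintro (h | h | h)
    · exact h.2.2
    · exact absurd h.1 hu
    · exact absurd h.1 hv
  · intro h
    exact Or.inl ⟨hu, hv, h⟩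

theorem mk_w {H : SimpleGraph (Fin k)} {w : Fin k} {M : Finset (Fin k)} {hw : w ∉ M}
    {v : Fin k} : (mk H w M hw).Adj w v ↔ v ∈ M := by
  constructor
  · rintro (h | h | h)
    · exact absurd rfl h.1
    · exact h.2
    · exact absurd h.2 hw
  · intro h
    exact Or.inr (Or.inl ⟨rfl, h⟩)

theorem ncard_filter (P : Fin k → Prop) [DecidablePred P] :
    {v | P v}.ncard = (Finset.univ.filter P).card := by
  rw [← Set.ncard_coe_finset]
  congr 1
  ext v
  simp

/-- few vertices of a class are in an outer edge -/
theorem card_outer (H : SimpleGraph (Fin k)) (f : Fin k → Option (Fin r)) (i : Fin r) :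
    {v | f v = some i ∧ ∃ u, H.Adj v u ∧ f u = none}.ncard ≤ (outSet H f).ncard := by
  classical
  have hch : ∀ v : Fin k, ∃ u, (∃ u, H.Adj v u ∧ f u = none) → H.Adj v u ∧ f u = none := by
    intro v
    by_cases h : ∃ u, H.Adj v u ∧ f u = none
    · obtain ⟨u, hu⟩ := h
      exact ⟨u, fun _ => hu⟩
    · exact ⟨v, fun h' => absurd h' h⟩
  choose p hp using hch
  refine Set.ncard_le_ncard_of_injOn (fun v => s(v, p v)) ?_ ?_ (Set.toFinite _)
  · intro v hv
    have h1 := hp v hv.2
    exact ⟨h1.1, p v, Sym2.mem_mk_right _ _, h1.2⟩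
  · intro v hv v' hv' he
    have h1 := hp v hv.2
    have h2 := hp v' hv'.2
    rcases Sym2.eq_iff.1 he with h | h
    · exact h.1
    · exfalso
      have h3 : f v = none := by rw [h.1]; exact h2.2
      rw [hv.1] at h3
      exact Option.some_ne_none _ h3

end MEMBx

open MEMBx in
theorem prfMEMB : NON2_statement → REDS_statement → DEV_statement → MEMB_statement := by
  classical
  intro hN hR _ W _ F r hr hF
  obtain ⟨b, hb1, hreal⟩ := hN W F r hr hF 1
  refine ⟨b, r * (2 * b + 3), ?_⟩
  intro n hn D hbD hD
  have hr0 : 0 < r := by omega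
  obtain ⟨i0, hi0⟩ : ∃ i : Fin r, i.val = 0 := ⟨⟨0, by omega⟩, rfl⟩
  obtain ⟨i1, hi1⟩ : ∃ i : Fin r, i.val = 1 := ⟨⟨1, by omega⟩, rfl⟩
  have hi01 : i0 ≠ i1 := by
    intro h
    rw [h, hi1] at hi0
    omega
  have hnr : 2 * b + 3 ≤ n / r := by
    rw [Nat.le_div_iff_mul_le hr0]
    calc (2 * b + 3) * r = r * (2 * b + 3) := Nat.mul_comm _ _
      _ ≤ n := hn
  have htz : ∀ t, n / r ≤ tz r n t ∧ tz r n t ≤ n / r + 1 := by
    intro t
    unfold tz
    split_ifs <;> omega
  have hnr2 : n / r + 2 ≤ n + 1 := by
    have h1 : n / r * r ≤ n := Nat.div_mul_le_self n r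
    have h2 : n / r * 3 ≤ n / r * r := Nat.mul_le_mul_left _ hr
    omega
  obtain ⟨s, hs, k₀, G₀, f₀, hmod, hfree₀, hcol₀, hiso₀⟩ := hreal (n + 1)
  have hsize₀ := hmod.size
  obtain ⟨k, H, f, hH, hHfree, hHcol, hHiso⟩ := hR W F r
    (fun t => tz r n t + if t = i0 then 1 else 0) (Fin k₀) G₀ f₀ hr hmod.indep
    (by
      intro t
      rw [hmod.miss, hmod.outer]
      have := (htz t).1
      omega)
    (by
      intro t
      rw [hsize₀ t]
      have := (htz t).2
      split_ifs <;> omega)
    hfree₀ hcol₀ hiso₀
  rw [hmod.miss, hmod.outer] at hH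
  -- missing pairs
  have hmiss : ∀ u v, f u ≠ none → f v ≠ none → f u ≠ f v → H.Adj u v := by
    intro u v hu hv huv
    by_contra hcon
    have h1 : missSet H f = ∅ := by
      rw [← Set.ncard_eq_zero (Set.toFinite _)]
      exact hH.miss
    have h2 : s(u, v) ∈ missSet H f := ⟨u, v, rfl, hu, hv, huv, hcon⟩
    rw [h1] at h2
    exact h2
  -- two vertices of the class `0` without outer edges
  have hB := card_outer H f i0
  rw [hH.outer] at hB
  have hclass : {v | f v = some i0}.ncard = tz r n i0 + 1 := by
    have := hH.size i0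
    simpa using this
  obtain ⟨w, w', hww, hw, hw', hwo, hwo'⟩ : ∃ w w', w ≠ w' ∧ f w = some i0 ∧ f w' = some i0 ∧
      (∀ u, H.Adj w u → f u ≠ none) ∧ ∀ u, H.Adj w' u → f u ≠ none := by
    have h1 : 1 < ({v | f v = some i0} \
        {v | f v = some i0 ∧ ∃ u, H.Adj v u ∧ f u = none}).ncard := by
      have h2 := Set.le_ncard_sdiff {v | f v = some i0 ∧ ∃ u, H.Adj v u ∧ f u = none}
        {v | f v = some i0} (Set.toFinite _)
      rw [hclass] at h2
      have := (htz i0).1
      omega
    obtain ⟨w, hw, w', hw', hne⟩ := (Set.one_lt_ncard (Set.toFinite _)).1 h1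
    refine ⟨w, w', hne, hw.1, hw'.1, fun u hu hn => hw.2 ⟨hw.1, u, hu, hn⟩,
      fun u hu hn => hw'.2 ⟨hw'.1, u, hu, hn⟩⟩
  have hadj : ∀ x, f x = some i0 → (∀ u, H.Adj x u → f u ≠ none) → ∀ u,
      (H.Adj x u ↔ f u ≠ none ∧ f u ≠ some i0) := by
    intro x hx hxo u
    constructor
    · intro h
      refine ⟨hxo u h, fun h2 => ?_⟩
      exact hH.indep x u (by rw [hx]; exact Option.some_ne_none _) (by rw [hx, h2]) h
    · rintro ⟨h1, h2⟩
      exact hmiss x u (by rw [hx]; exact Option.some_ne_none _) h1 (by rw [hx]; exact h2.symm)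
  -- the set `M`
  obtain ⟨R, hRdef⟩ : ∃ R : Finset (Fin k),
      R = Finset.univ.filter (fun v => f v ≠ none ∧ f v ≠ some i0) := ⟨_, rfl⟩
  have hmemR : ∀ v, v ∈ R ↔ f v ≠ none ∧ f v ≠ some i0 := by
    intro v
    rw [hRdef]
    simp
  have hRcard : (r - 1) * (n / r) ≤ R.card := by
    have h1 : ((Finset.univ.erase i0).biUnion
        (fun t => Finset.univ.filter (fun v => f v = some t))) ⊆ R := by
      intro v hv
      rw [Finset.mem_biUnion] at hv
      obtain ⟨t, ht, hv⟩ := hv
      rw [Finset.mem_filter] at hv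
      rw [hmemR, hv.2]
      refine ⟨Option.some_ne_none _, fun h => (Finset.mem_erase.1 ht).1 (Option.some_injective _ h)⟩
    have h2 : ((Finset.univ.erase i0).biUnion
        (fun t => Finset.univ.filter (fun v => f v = some t))).card =
        ∑ t ∈ Finset.univ.erase i0, (Finset.univ.filter (fun v => f v = some t)).card := by
      refine Finset.card_biUnion ?_
      intro t _ t' _ htt
      rw [Function.onFun, Finset.disjoint_left]
      intro v hv hv'
      rw [Finset.mem_filter] at hv hv'
      rw [hv.2] at hv'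
      exact htt (Option.some_injective _ hv'.2)
    have h3 : ∀ t ∈ Finset.univ.erase i0,
        n / r ≤ (Finset.univ.filter (fun v => f v = some t)).card := by
      intro t _
      rw [← ncard_filter, hH.size t]
      have := (htz t).1
      omega
    have h4 := Finset.card_nsmul_le_sum (Finset.univ.erase i0)
      (fun t => (Finset.univ.filter (fun v => f v = some t)).card) (n / r) h3
    rw [Finset.card_erase_of_mem (Finset.mem_univ _), Finset.card_univ, Fintype.card_fin,
      smul_eq_mul] at h4
    calc (r - 1) * (n / r) ≤ _ := h4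
      _ = _ := h2.symm
      _ ≤ R.card := Finset.card_le_card h1
  obtain ⟨M, hMR, hMcard⟩ := Finset.exists_subset_card_eq (s := R) (n := D - b) (by omega)
  have hM : ∀ v ∈ M, f v ≠ none ∧ f v ≠ some i0 := fun v hv => (hmemR v).1 (hMR hv)
  have hwM : w ∉ M := fun h => (hM w h).2 hw
  have hMne : M.Nonempty := by
    rw [← Finset.card_pos]
    omega
  obtain ⟨y0, hy0⟩ := hMne
  have hMw : ∀ v ∈ M, v ≠ w := fun v hv h => hwM (h ▸ hv)
  -- a vertex of the class `1`
  obtain ⟨y1, hy1⟩ : ∃ y, f y = some i1 := by
    have h1 : 0 < {v | f v = some i1}.ncard := by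
      rw [hH.size i1]
      have := (htz i1).1
      omega
    obtain ⟨y, hy⟩ := (Set.ncard_pos (Set.toFinite _)).1 h1
    exact ⟨y, hy⟩
  have hy1w : y1 ≠ w := by
    intro h
    rw [h, hw] at hy1
    exact hi01 (Option.some_injective _ hy1)
  have hle : mk H w M hwM ≤ H := by
    intro u v h
    rcases h with h | h | h
    · exact h.2.2
    · rw [h.1]
      exact (hadj w hw hwo v).2 (hM v h.2)
    · rw [h.1]
      exact ((hadj w hw hwo u).2 (hM u h.2)).symm
  obtain ⟨g, hg⟩ : ∃ g : Fin k → Option (Fin r), g = fun v => if v = w then none else f v :=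
    ⟨_, rfl⟩
  have hgw : g w = none := by rw [hg]; simp
  have hgn : ∀ v, v ≠ w → g v = f v := by
    intro v hv
    rw [hg]
    simp [hv]
  have hgnw : ∀ v, g v ≠ none → v ≠ w := by
    intro v hv h
    rw [h] at hv
    exact hv hgw
  refine ⟨k, mk H w M hwM, g, w, ?_, ?_, ?_, ?_, hgw, ?_, ?_, ?_, ?_⟩
  · exact fun h => hHfree (h.trans (SimpleGraph.IsContained.of_le hle))
  · -- not colorable
    rintro ⟨c⟩
    apply hHcol
    refine ⟨SimpleGraph.Coloring.mk (fun v => if v = w then c w' else c v) ?_⟩
    intro u v huv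
    have key : ∀ v, v ≠ w → H.Adj w v → c w' ≠ c v := by
      intro v hv h
      have h1 := (hadj w hw hwo v).1 h
      have h2 : H.Adj w' v := (hadj w' hw' hwo' v).2 h1
      exact c.valid ((mk_ne hww.symm hv).2 h2)
    by_cases hu : u = w
    · have hv : v ≠ w := by
        intro h
        rw [hu, h] at huv
        exact H.loopless.irrefl w huv
      rw [if_pos hu, if_neg hv]
      exact key v hv (hu ▸ huv)
    · by_cases hv : v = w
      · rw [if_neg hu, if_pos hv]
        exact (key u hu (hv ▸ huv.symm)).symm
      · rw [if_neg hu, if_neg hv]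
        exact c.valid ((mk_ne hu hv).2 huv)
  · -- no isolated vertices
    intro v
    by_cases hv : v = w
    · rw [hv]
      exact ⟨y0, mk_w.2 hy0⟩
    · by_cases hvn : f v = none
      · obtain ⟨u, hu⟩ := hHiso v
        have huw : u ≠ w := by
          intro h
          rw [h] at hu
          exact hwo v hu.symm hvn
        exact ⟨u, (mk_ne hv huw).2 hu⟩
      · by_cases hv0 : f v = some i0
        · refine ⟨y1, (mk_ne hv hy1w).2 ?_⟩
          refine hmiss v y1 hvn (by rw [hy1]; exact Option.some_ne_none _) ?_
          rw [hv0, hy1]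
          exact fun h => hi01 (Option.some_injective _ h)
        · exact ⟨w', (mk_ne hv hww.symm).2 ((hadj w' hw' hwo' v).2 ⟨hvn, hv0⟩).symm⟩
  · -- independent classes
    intro u v hu huv h
    have hu' := hgnw u hu
    have hv' : v ≠ w := hgnw v (huv ▸ hu)
    rw [hgn u hu'] at hu huv
    rw [hgn v hv'] at huv
    exact hH.indep u v hu huv ((mk_ne hu' hv').1 h)
  · -- missing pairs
    rw [Set.ncard_eq_zero (Set.toFinite _), Set.eq_empty_iff_forall_notMem]
    rintro e ⟨u, v, -, hu, hv, huv, hn⟩
    have hu' := hgnw u hu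
    have hv' := hgnw v hv
    rw [hgn u hu'] at hu huv
    rw [hgn v hv'] at hv huv
    exact hn ((mk_ne hu' hv').2 (hmiss u v hu hv huv))
  · -- light edges
    have h1 : lightSet (mk H w M hwM) g {w} = outSet H f := by
      ext e
      induction e using Sym2.ind with
      | _ u v =>
        constructor
        · rintro ⟨he, x, hx, hxn, hxw⟩
          have hxw' : x ≠ w := fun h => hxw (by rw [h]; exact Finset.mem_singleton_self w)
          refine ⟨hle he, x, hx, ?_⟩
          rw [← hgn x hxw']
          exact hxn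
        · rintro ⟨he, x, hx, hxn⟩
          have hxw : x ≠ w := by
            intro h
            rw [h, hw] at hxn
            exact Option.some_ne_none _ hxn
          have he' : H.Adj u v := he
          refine ⟨?_, x, hx, by rw [hgn x hxw]; exact hxn, fun h => hxw (Finset.mem_singleton.1 h)⟩
          change (mk H w M hwM).Adj u v
          rcases Sym2.mem_iff.1 hx with h | h
          · have hv : v ≠ w := by
              intro h'
              rw [h'] at he'
              exact hwo u he'.symm (h ▸ hxn)
            exact (mk_ne (h ▸ hxw) hv).2 he'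
          · have hu : u ≠ w := by
              intro h'
              rw [h'] at he'
              exact hwo v he' (h ▸ hxn)
            exact (mk_ne hu (h ▸ hxw)).2 he'
    rw [h1, hH.outer]
  · -- the sizes
    intro t
    unfold siz
    by_cases ht : t = i0
    · have h1 : {v | g v = some t} = {v | f v = some i0} \ {w} := by
        ext v
        constructor
        · intro hv
          have hv1 : g v = some t := hv
          have hv' : v ≠ w := hgnw v (by rw [hv1]; exact Option.some_ne_none _)
          refine ⟨?_, hv'⟩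
          rw [hgn v hv', ht] at hv1
          exact hv1
        · rintro ⟨hv, hv'⟩
          have hv2 : v ≠ w := hv'
          change g v = some t
          rw [hgn v hv2, ht]
          exact hv
      rw [h1, Set.ncard_sdiff_singleton_of_mem (show w ∈ {v | f v = some i0} from hw), hclass, ht]
      omega
    · have h1 : {v | g v = some t} = {v | f v = some t} := by
        ext v
        constructor
        · intro hv
          have hv1 : g v = some t := hv
          have hv' : v ≠ w := hgnw v (by rw [hv1]; exact Option.some_ne_none _)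
          rw [hgn v hv'] at hv1
          exact hv1
        · intro hv
          have hv1 : f v = some t := hv
          have hv2 : v ≠ w := by
            intro h
            rw [h, hw] at hv1
            exact ht (Option.some_injective _ hv1).symm
          change g v = some t
          rw [hgn v hv2]
          exact hv1
      rw [h1, hH.size t, if_neg ht, Nat.add_zero]
  · -- the number of neighbours
    have h1 : ∀ t, nbn (mk H w M hwM) g w t = (M.filter (fun v => g v = some t)).card := by
      intro t
      unfold nbn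
      rw [← Set.ncard_coe_finset]
      congr 1
      ext v
      simp only [Set.mem_ofPred_eq, Finset.coe_filter]
      rw [mk_w]
      exact and_comm
    simp only [h1]
    have h2 : M.card = ∑ t, (M.filter (fun v => g v = some t)).card := by
      have h3 : ∀ v ∈ M, g v ∈ (Finset.univ : Finset (Fin r)).image some := by
        intro v hv
        rw [hgn v (hMw v hv), Finset.mem_image]
        obtain ⟨t, ht⟩ := Option.ne_none_iff_exists'.1 (hM v hv).1
        exact ⟨t, Finset.mem_univ _, ht.symm⟩
      rw [Finset.card_eq_sum_card_fiberwise h3, Finset.sum_image]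
      intro a _ b _ h
      exact Option.some_injective _ h
    rw [← h2, hMcard]
    omega

end MP0c3a8f
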