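import Pool.Agent.Work.MP_0c3a8f_co.PB.Stmts3

/-!
# MP_0c3a8f_co, phase B: the graphs `K_{1,1,s,...,s}`
-/

open Finset

namespace MP0c3a8f

namespace MPF

theorem sz_pos {r s : ℕ} (hs : 2 ≤ s) (t : Fin (r + 1)) : 0 < (if t.val ≤ 1 then 1 else s) := by
  split_ifs <;> omega

/-- the representative of a part -/
def rep {r s : ℕ} (hs : 2 ≤ s) (t : Fin (r + 1)) :
    Σ t : Fin (r + 1), Fin (if t.val ≤ 1 then 1 else s) :=
  ⟨t, ⟨0, sz_pos hs t⟩⟩

theorem adj_iff {r s : ℕ} (u v : Σ t : Fin (r + 1), Fin (if t.val ≤ 1 then 1 else s)) :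
    (Kms r s).Adj u v ↔ u.1 ≠ v.1 := by
  unfold Kms
  rw [SimpleGraph.completeMultipartiteGraph]
  simp

theorem colorable {r s : ℕ} : (Kms r s).Colorable (r + 1) :=
  ⟨SimpleGraph.Coloring.mk (fun v => v.1) (fun {u v} h => (adj_iff u v).1 h)⟩

theorem not_colorable {r s : ℕ} (hs : 2 ≤ s) : ¬ (Kms r s).Colorable r := by
  rintro ⟨C⟩
  have hinj : Function.Injective (fun t : Fin (r + 1) => C (rep hs t)) := by
    intro t t' h
    by_contra hne
    exact C.valid ((adj_iff (rep hs t) (rep hs t')).2 hne) h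
  have := Fintype.card_le_of_injective _ hinj
  simp at this

theorem chrom {r s : ℕ} (hs : 2 ≤ s) : (Kms r s).chromaticNumber = r + 1 :=
  SimpleGraph.chromaticNumber_eq_iff_colorable_not_colorable.2 ⟨colorable, not_colorable hs⟩

theorem eq_rep {r s : ℕ} (hs : 2 ≤ s) (v : Σ t : Fin (r + 1), Fin (if t.val ≤ 1 then 1 else s))
    (h : v.1.val ≤ 1) : v = rep hs v.1 := by
  obtain ⟨t, y, hy⟩ := v
  have h' : t.val ≤ 1 := h
  have hy0 : y = 0 := by
    have := hy
    rw [if_pos h'] at this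
    omega
  subst hy0
  rfl

theorem crit {r s : ℕ} (hr : 3 ≤ r) (hs : 2 ≤ s) : ColorCritical (Kms r s) := by
  have h01 : (⟨0, by omega⟩ : Fin (r + 1)) ≠ ⟨1, by omega⟩ := by
    intro h
    have := congrArg Fin.val h
    simp at this
  refine ⟨s(rep hs ⟨0, by omega⟩, rep hs ⟨1, by omega⟩), ?_, ?_⟩
  · rw [SimpleGraph.mem_edgeSet]
    exact (adj_iff _ _).2 h01
  · rw [chrom hs]
    have hc : ((Kms r s).deleteEdges {s(rep hs ⟨0, by omega⟩, rep hs ⟨1, by omega⟩)}).Colorable r := by
      refine ⟨SimpleGraph.Coloring.mk (fun v => (⟨v.1.val - 1, by have := v.1.2; omega⟩ : Fin r)) ?_⟩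
      intro u v h
      rw [SimpleGraph.deleteEdges_adj] at h
      obtain ⟨h1, h2⟩ := h
      have h1' := (adj_iff u v).1 h1
      intro he
      have he' : u.1.val - 1 = v.1.val - 1 := congrArg Fin.val he
      have hne : u.1.val ≠ v.1.val := fun h => h1' (Fin.ext h)
      apply h2
      rw [Set.mem_singleton_iff]
      have hu : u.1.val ≤ 1 := by omega
      have hv : v.1.val ≤ 1 := by omega
      rw [eq_rep hs u hu, eq_rep hs v hv]
      rcases Nat.eq_zero_or_pos u.1.val with h0 | h0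
      · have e1 : u.1 = ⟨0, by omega⟩ := Fin.ext h0
        have e2 : v.1 = ⟨1, by omega⟩ := Fin.ext (by show v.1.val = 1; omega)
        rw [e1, e2]
      · have e1 : u.1 = ⟨1, by omega⟩ := Fin.ext (by show u.1.val = 1; omega)
        have e2 : v.1 = ⟨0, by omega⟩ := Fin.ext (by show v.1.val = 0; omega)
        rw [e1, e2, Sym2.eq_swap]
    refine lt_of_le_of_lt (SimpleGraph.Colorable.chromaticNumber_le hc) ?_
    have : ((r : ℕ) : ℕ∞) < ((r + 1 : ℕ) : ℕ∞) := by exact_mod_cast Nat.lt_succ_self r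
    simpa using this

theorem free {r s : ℕ} (hs : 2 ≤ s) (V : Type) [Fintype V] (G : SimpleGraph V)
    (f : V → Option (Fin r)) (w : V) (i j : Fin r) (hij : i ≠ j) (hT : Ty0 G f w)
    (hi : nbn G f w i < s) (hj : nbn G f w j < s) : (Kms r s).Free G := by
  classical
  rintro ⟨φ⟩
  have hinj : Function.Injective φ := φ.injective
  have hadj : ∀ u v, (Kms r s).Adj u v → G.Adj (φ u) (φ v) := fun u v h => φ.toHom.map_adj h
  -- `w` is in the image
  obtain ⟨v0, hv0⟩ : ∃ v0, φ v0 = w := by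
    by_contra hno
    push Not at hno
    have hne : ∀ v, f (φ v) ≠ none := fun v h => hno v ((hT.out _).1 h)
    apply not_colorable (r := r) hs
    refine ⟨SimpleGraph.Coloring.mk (fun v => (f (φ v)).get (Option.isSome_iff_ne_none.2 (hne v))) ?_⟩
    intro u v h he
    have := (hT.core (φ u) (φ v) (hne u) (hne v)).1 (hadj u v h)
    exact this (Option.get_inj.1 he)
  have hne : ∀ v, v ≠ v0 → f (φ v) ≠ none := by
    intro v hv h
    exact hv (hinj (((hT.out _).1 h).trans hv0.symm))
  have hcol : ∀ u v, u ≠ v0 → v ≠ v0 → u.1 ≠ v.1 → f (φ u) ≠ f (φ v) := by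
    intro u v hu hv h
    exact (hT.core _ _ (hne u hu) (hne v hv)).1 (hadj u v ((adj_iff u v).2 h))
  -- representatives of the other parts have all colours
  have hrep : ∀ t : Fin (r + 1), t ≠ v0.1 → rep hs t ≠ v0 := by
    intro t ht h
    exact ht (congrArg Sigma.fst h)
  let g : {t : Fin (r + 1) // t ≠ v0.1} → Fin r := fun t =>
    (f (φ (rep hs t.1))).get (Option.isSome_iff_ne_none.2 (hne _ (hrep t.1 t.2)))
  have hg : ∀ t, f (φ (rep hs t.1)) = some (g t) := fun t => (Option.some_get _).symm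
  have hginj : Function.Injective g := by
    intro t t' h
    by_contra hc
    have h1 : t.1 ≠ t'.1 := fun h => hc (Subtype.ext h)
    apply hcol _ _ (hrep t.1 t.2) (hrep t'.1 t'.2) h1
    rw [hg, hg, h]
  have hgsurj : Function.Surjective g := by
    have hcard : Fintype.card {t : Fin (r + 1) // t ≠ v0.1} = Fintype.card (Fin r) := by
      rw [Fintype.card_subtype_compl, Fintype.card_subtype_eq]
      simp
    exact ((Fintype.bijective_iff_injective_and_card g).2 ⟨hginj, hcard⟩).2
  have hpart : ∀ k : Fin r, ∃ t : Fin (r + 1), t ≠ v0.1 ∧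
      (∀ y, f (φ ⟨t, y⟩) = some k) := by
    intro k
    obtain ⟨t, ht⟩ := hgsurj k
    refine ⟨t.1, t.2, fun y => ?_⟩
    have hy0 : (⟨t.1, y⟩ : Σ t : Fin (r + 1), Fin (if t.val ≤ 1 then 1 else s)) ≠ v0 :=
      fun h => t.2 (congrArg Sigma.fst h)
    obtain ⟨k', hk'⟩ := Option.ne_none_iff_exists'.1 (hne _ hy0)
    obtain ⟨t', ht'⟩ := hgsurj k'
    have htt : t' = t := by
      by_contra hc
      have h1 : t'.1 ≠ t.1 := fun h => hc (Subtype.ext h)
      apply hcol _ _ (hrep t'.1 t'.2) hy0 h1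
      rw [hg, ht', hk']
    rw [hk', ← ht', htt, ht]
  have hbound : ∀ k : Fin r, nbn G f w k < s → ∃ t : Fin (r + 1), t ≠ v0.1 ∧ t.val ≤ 1 ∧
      (∀ y, f (φ ⟨t, y⟩) = some k) := by
    intro k hk
    obtain ⟨t, ht, hty⟩ := hpart k
    refine ⟨t, ht, ?_, hty⟩
    by_contra hc
    have hle : (if t.val ≤ 1 then 1 else s) ≤ nbn G f w k := by
      unfold nbn
      have h1 : Function.Injective (fun y : Fin (if t.val ≤ 1 then 1 else s) =>
          (⟨φ ⟨t, y⟩, hty y, by
            rw [← hv0]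
            exact hadj _ _ ((adj_iff _ _).2 (fun h => ht h.symm))⟩ :
            {v | f v = some k ∧ G.Adj w v})) := by
        intro y y' h
        have := hinj (congrArg Subtype.val h)
        simpa using this
      have h2 := Fintype.card_le_of_injective _ h1
      rw [Fintype.card_fin] at h2
      rw [← Nat.card_coe_set_eq, Nat.card_eq_fintype_card]
      exact h2
    rw [if_neg hc] at hle
    omega
  obtain ⟨t1, h11, h12, h13⟩ := hbound i hi
  obtain ⟨t2, h21, h22, h23⟩ := hbound j hj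
  have ht12 : t1 ≠ t2 := by
    intro h
    subst h
    have h1 := h13 ⟨0, sz_pos hs t1⟩
    have h2 := h23 ⟨0, sz_pos hs t1⟩
    rw [h1] at h2
    exact hij (Option.some_injective _ h2)
  have hv2 : ¬ v0.1.val ≤ 1 := by
    intro h
    have e1 : t1.val ≠ v0.1.val := fun h => h11 (Fin.ext h)
    have e2 : t2.val ≠ v0.1.val := fun h => h21 (Fin.ext h)
    have e3 : t1.val ≠ t2.val := fun h => ht12 (Fin.ext h)
    omega
  -- another vertex in the part of `v0`
  obtain ⟨v1, hv1, hv11⟩ : ∃ v1 : Σ t : Fin (r + 1), Fin (if t.val ≤ 1 then 1 else s),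
      v1.1 = v0.1 ∧ v1 ≠ v0 := by
    obtain ⟨t0, y0⟩ := v0
    have hlt : 2 ≤ (if t0.val ≤ 1 then 1 else s) := by
      rw [if_neg hv2]
      exact hs
    haveI : Nontrivial (Fin (if t0.val ≤ 1 then 1 else s)) := Fin.nontrivial_iff_two_le.2 hlt
    obtain ⟨y1, hy1⟩ := exists_ne y0
    refine ⟨⟨t0, y1⟩, rfl, ?_⟩
    intro h
    apply hy1
    simpa using h
  obtain ⟨k, hk⟩ := Option.ne_none_iff_exists'.1 (hne _ hv11)
  obtain ⟨t, ht⟩ := hgsurj k
  apply hcol _ _ (hrep t.1 t.2) hv11 (by rw [hv1]; exact t.2)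
  rw [hg, ht, hk]

theorem emb {V : Type} [Fintype V] (G : SimpleGraph V) {r : ℕ} (f : V → Option (Fin r)) (w : V)
    (k : Fin r) (n : ℕ) (h : n ≤ nbn G f w k) :
    ∃ e : Fin n → V, Function.Injective e ∧ ∀ y, f (e y) = some k ∧ G.Adj w (e y) := by
  classical
  unfold nbn at h
  rw [← Nat.card_coe_set_eq, Nat.card_eq_fintype_card] at h
  obtain ⟨e⟩ := Function.Embedding.nonempty_of_card_le (α := Fin n)
    (β := {v | f v = some k ∧ G.Adj w v}) (by rw [Fintype.card_fin]; exact h)
  exact ⟨fun y => (e y).1, fun y y' h => e.injective (Subtype.ext h), fun y => (e y).2⟩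

theorem cont {r s : ℕ} (hr : 3 ≤ r) (hs : 2 ≤ s) (V : Type) [Fintype V] (G : SimpleGraph V)
    (f : V → Option (Fin r)) (w : V) (hT : Ty0 G f w) (hpos : ∀ t, 1 ≤ nbn G f w t)
    (hF : (Kms r s).Free G) : ∃ i j, i ≠ j ∧ nbn G f w i < s ∧ nbn G f w j < s := by
  classical
  by_contra hno
  push Not at hno
  haveI : NeZero r := ⟨by omega⟩
  obtain ⟨t0, ht0⟩ : ∃ t0 : Fin r, ∀ t, t ≠ t0 → s ≤ nbn G f w t := by
    by_cases h : ∃ i, nbn G f w i < s
    · obtain ⟨i, hi⟩ := h
      exact ⟨i, fun t ht => hno i t ht.symm hi⟩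
    · push Not at h
      exact ⟨0, fun t _ => h t⟩
  apply hF
  let lab : Fin (r + 1) → Option (Fin r) := fun t =>
    Option.map (Equiv.swap (0 : Fin r) t0) (finSuccEquiv r t)
  have hlabinj : Function.Injective lab := by
    intro t t' h
    exact (finSuccEquiv r).injective (Option.map_injective (Equiv.injective _) h)
  have hlab0 : lab 0 = none := by simp [lab]
  have hex : ∀ t : Fin (r + 1), ∃ e : Fin (if t.val ≤ 1 then 1 else s) → V,
      Function.Injective e ∧ ∀ y, f (e y) = lab t ∧ (t ≠ 0 → G.Adj w (e y)) := by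
    intro t
    refine Fin.cases ?_ (fun i => ?_) t
    · refine ⟨fun _ => w, ?_, fun y => ⟨?_, fun h => absurd rfl h⟩⟩
      · intro y y' _
        have h1 : (if ((0 : Fin (r + 1)).val) ≤ 1 then 1 else s) = 1 := by simp
        apply Fin.ext
        have := y.2
        have := y'.2
        omega
      · rw [hlab0]
        exact (hT.out w).2 rfl
    · have hl : lab i.succ = some (Equiv.swap (0 : Fin r) t0 i) := by
        simp [lab]
      by_cases hi : i = 0
      · subst hi
        obtain ⟨e, he1, he2⟩ := emb G f w t0 (if ((0 : Fin r).succ.val) ≤ 1 then 1 else s) (by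
          have : (if ((0 : Fin r).succ.val) ≤ 1 then 1 else s) = 1 := by
            rw [if_pos]
            rw [Fin.val_succ]
            simp
          rw [this]
          exact hpos t0)
        refine ⟨e, he1, fun y => ⟨?_, fun _ => (he2 y).2⟩⟩
        rw [(he2 y).1, hl, Equiv.swap_apply_left]
      · have hne : Equiv.swap (0 : Fin r) t0 i ≠ t0 := by
          intro h
          apply hi
          have := (Equiv.swap_apply_eq_iff).1 h
          rw [this, Equiv.swap_apply_right]
        have hv : ¬ i.succ.val ≤ 1 := by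
          have : i.val ≠ 0 := fun h => hi (Fin.ext (by simpa using h))
          simp only [Fin.val_succ]
          omega
        obtain ⟨e, he1, he2⟩ := emb G f w (Equiv.swap (0 : Fin r) t0 i)
          (if (i.succ.val) ≤ 1 then 1 else s) (by
          rw [if_neg hv]
          exact ht0 _ hne)
        refine ⟨e, he1, fun y => ⟨?_, fun _ => (he2 y).2⟩⟩
        rw [(he2 y).1, hl]
  choose e he1 he2 using hex
  have hzero : ∀ y, e 0 y = w := by
    intro y
    apply (hT.out _).1
    rw [(he2 0 y).1, hlab0]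
  have hnone : ∀ t y, t ≠ 0 → f (e t y) ≠ none := by
    intro t y ht h
    rw [(he2 t y).1] at h
    exact ht (hlabinj (h.trans hlab0.symm))
  refine ⟨⟨⟨fun v => e v.1 v.2, ?_⟩, ?_⟩⟩
  · rintro ⟨t, y⟩ ⟨t', y'⟩ h
    have hne : t ≠ t' := (adj_iff _ _).1 h
    show G.Adj (e t y) (e t' y')
    by_cases h0 : t = 0
    · subst h0
      rw [hzero]
      exact (he2 t' y').2 hne.symm
    · by_cases h0' : t' = 0
      · subst h0'
        rw [hzero]
        exact ((he2 t y).2 h0).symm
      · rw [hT.core _ _ (hnone t y h0) (hnone t' y' h0'), (he2 t y).1, (he2 t' y').1]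
        exact fun h => hne (hlabinj h)
  · rintro ⟨t, y⟩ ⟨t', y'⟩ h
    have h' : e t y = e t' y' := h
    have htt : t = t' := by
      apply hlabinj
      rw [← (he2 t y).1, ← (he2 t' y').1, h']
    subst htt
    rw [he1 t h']

end MPF

/-- (MPF) the graphs `K_{1,1,s,...,s}` -/
theorem prfMPF : MPF_statement := by
  intro r s hr hs
  refine ⟨MPF.chrom hs, MPF.crit hr hs, ⟨?_, ?_⟩⟩
  · intro V _ G f w i j hij hT hi hj
    exact MPF.free hs V G f w i j hij hT hi hj
  · intro V _ G f w hT _ hpos hF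
    exact MPF.cont hr hs V G f w hT hpos hF

end MP0c3a8f
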