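import Pool.Agent.Work.MP_0c3a8f_co.PB.Stmts

/-!
# (NRML) all but boundedly many vertices are close to `1` or to `0`
-/

set_option autoImplicit false

open Finset

namespace MP0c3a8f

namespace ItemNRML

open Classical in
/-- the weight of a vertex -/
noncomputable def Phi {V : Type} [Fintype V] {r : ℕ} (G : SimpleGraph V) (z : V → ℝ)
    (f : V → Option (Fin r)) (v : Fin r → V) (u : V) : ℝ :=
  (if f u = none then z u ^ 2 else 0) +
    ∑ t, (adj G (v t) u * (z u - 1 / z (v t)) ^ 2 +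
      (if f u ≠ none ∧ f u ≠ f (v t) ∧ ¬ G.Adj (v t) u then z u ^ 2 else 0))

open Classical in
theorem sum_Phi {V : Type} [Fintype V] {r : ℕ} {C M : ℝ} {G : SimpleGraph V} {z : V → ℝ}
    {f : V → Option (Fin r)} {v : Fin r → V} (hL : Lin r C M G z f)
    (hv : ∀ t, Cheap C G z f (v t)) :
    ∑ u, Phi G z f v u ≤ C + 4 * r * C ^ 2 := by
  unfold Phi
  rw [sum_add_distrib, sum_comm]
  have h1 : (∑ u, if f u = none then z u ^ 2 else 0) ≤ C := by
    have := hL.non
    unfold cw at this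
    convert this using 3
  have h2 : ∀ t, (∑ u, (adj G (v t) u * (z u - 1 / z (v t)) ^ 2 +
      (if f u ≠ none ∧ f u ≠ f (v t) ∧ ¬ G.Adj (v t) u then z u ^ 2 else 0))) ≤ 4 * C ^ 2 := by
    intro t
    rw [sum_add_distrib]
    obtain ⟨-, h3, h4⟩ := hv t
    have h5 : (∑ u, if f u ≠ none ∧ f u ≠ f (v t) ∧ ¬ G.Adj (v t) u then z u ^ 2 else 0)
        ≤ 2 * C ^ 2 := by convert h4 using 3
    linarith
  have h3 : (∑ t : Fin r, ∑ u, (adj G (v t) u * (z u - 1 / z (v t)) ^ 2 +
      (if f u ≠ none ∧ f u ≠ f (v t) ∧ ¬ G.Adj (v t) u then z u ^ 2 else 0))) ≤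
      r * (4 * C ^ 2) := by
    calc _ ≤ ∑ _t : Fin r, 4 * C ^ 2 := sum_le_sum fun t _ => h2 t
      _ = r * (4 * C ^ 2) := by rw [sum_const, card_univ, Fintype.card_fin, nsmul_eq_mul]
  linarith

open Classical in
/-- lower bound by one term -/
theorem le_Phi {V : Type} [Fintype V] {r : ℕ} {G : SimpleGraph V} {z : V → ℝ}
    {f : V → Option (Fin r)} {v : Fin r → V} {u : V} {x : ℝ}
    (hnone : f u = none → x ≤ z u ^ 2)
    (hsome : f u ≠ none → ∃ t, (G.Adj (v t) u → x ≤ (z u - 1 / z (v t)) ^ 2) ∧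
      (¬ G.Adj (v t) u → f u ≠ f (v t) ∧ x ≤ z u ^ 2)) :
    x ≤ Phi G z f v u := by
  unfold Phi
  have hterm : ∀ t, 0 ≤ adj G (v t) u * (z u - 1 / z (v t)) ^ 2 +
      (if f u ≠ none ∧ f u ≠ f (v t) ∧ ¬ G.Adj (v t) u then z u ^ 2 else 0) := by
    intro t
    have h1 : 0 ≤ adj G (v t) u := by unfold adj; split_ifs <;> norm_num
    have h2 : 0 ≤ (if f u ≠ none ∧ f u ≠ f (v t) ∧ ¬ G.Adj (v t) u then z u ^ 2 else 0) := by
      split_ifs
      · positivity
      · exact le_refl _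
    have h3 : 0 ≤ adj G (v t) u * (z u - 1 / z (v t)) ^ 2 := mul_nonneg h1 (sq_nonneg _)
    linarith
  have hs : 0 ≤ ∑ t, (adj G (v t) u * (z u - 1 / z (v t)) ^ 2 +
      (if f u ≠ none ∧ f u ≠ f (v t) ∧ ¬ G.Adj (v t) u then z u ^ 2 else 0)) :=
    sum_nonneg fun t _ => hterm t
  by_cases hf : f u = none
  · rw [if_pos hf]
    have := hnone hf
    linarith
  · rw [if_neg hf, zero_add]
    obtain ⟨t, h1, h2⟩ := hsome hf
    refine le_trans ?_ (single_le_sum (fun t _ => hterm t) (mem_univ t))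
    by_cases ha : G.Adj (v t) u
    · have e1 : adj G (v t) u = 1 := by unfold adj; rw [if_pos ha]
      have e2 : (if f u ≠ none ∧ f u ≠ f (v t) ∧ ¬ G.Adj (v t) u then z u ^ 2 else 0) = 0 :=
        if_neg fun h => h.2.2 ha
      rw [e1, e2, one_mul, add_zero]
      exact h1 ha
    · have e1 : adj G (v t) u = 0 := by unfold adj; rw [if_neg ha]
      have e2 : (if f u ≠ none ∧ f u ≠ f (v t) ∧ ¬ G.Adj (v t) u then z u ^ 2 else 0) = z u ^ 2 :=
        if_pos ⟨hf, (h2 ha).1, ha⟩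
      rw [e1, e2, zero_mul, zero_add]
      exact (h2 ha).2

theorem exists_ne {r : ℕ} (hr : 3 ≤ r) (s : Fin r) : ∃ t : Fin r, t ≠ s := by
  have : Nontrivial (Fin r) := Fin.nontrivial_iff_two_le.2 (by omega)
  exact _root_.exists_ne s

end ItemNRML

theorem prfNRML : CHP_statement → ZET_statement → NRML_statement := by
  classical
  intro hCHP hZET r C hr hC
  have hB : 0 ≤ C + 4 * r * C ^ 2 := by positivity
  refine ⟨C + 4 * r * C ^ 2, hB, ?_⟩
  intro δ hδ hδ4
  obtain ⟨M₁, hM₁⟩ := hZET r C (δ / 2) hr hC (by linarith)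
  refine ⟨⌈(C + 4 * r * C ^ 2) / (δ ^ 2 / 4)⌉₊, max M₁ 1, ?_⟩
  intro M V _ G z f hM hL
  have hM1 : M₁ ≤ M := (le_max_left _ _).trans hM
  have hM0 : 0 < M := lt_of_lt_of_le one_pos ((le_max_right _ _).trans hM)
  choose v hv using hCHP r C M V G z f hC hM0 hL
  have hζ := hM₁ M V G z f v hM1 hM0 hL hv
  have hsum := ItemNRML.sum_Phi hL fun t => (hv t).2
  have hsomeA : ∀ u, f u ≠ none → ∃ t, f u ≠ f (v t) := by
    intro u hu
    obtain ⟨s, hs⟩ := Option.ne_none_iff_exists'.1 hu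
    obtain ⟨t, ht⟩ := ItemNRML.exists_ne hr s
    refine ⟨t, ?_⟩
    rw [hs, (hv t).1]
    intro h
    exact ht (Option.some.inj h).symm
  constructor
  · set S : Set V := {v | δ < z v ∧ ¬ (f v ≠ none ∧ |z v - 1| ≤ δ)} with hS
    have hpt : ∀ u, (if u ∈ S then δ ^ 2 / 4 else 0) ≤ ItemNRML.Phi G z f v u := by
      intro u
      split_ifs with hu
      · obtain ⟨hu1, hu2⟩ := hu
        have hz2 : δ ^ 2 / 4 ≤ z u ^ 2 := by nlinarith
        apply ItemNRML.le_Phi
        · intro _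
          exact hz2
        · intro hf
          obtain ⟨t, ht⟩ := hsomeA u hf
          refine ⟨t, ?_, fun _ => ⟨ht, hz2⟩⟩
          intro _
          have h1 : δ < |z u - 1| := by
            by_contra hcon
            exact hu2 ⟨hf, not_lt.1 hcon⟩
          have h2 := hζ t
          have h3 : |z u - 1| ≤ |z u - 1 / z (v t)| + |1 / z (v t) - 1| := by
            have := abs_add_le (z u - 1 / z (v t)) (1 / z (v t) - 1)
            rwa [sub_add_sub_cancel] at this
          have h4 : δ / 2 ≤ |z u - 1 / z (v t)| := by linarith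
          have h5 : (δ / 2) ^ 2 ≤ |z u - 1 / z (v t)| ^ 2 :=
            pow_le_pow_left₀ (by linarith) h4 2
          rw [sq_abs] at h5
          calc δ ^ 2 / 4 = (δ / 2) ^ 2 := by ring
            _ ≤ _ := h5
      · apply ItemNRML.le_Phi
        · intro _
          positivity
        · intro hf
          obtain ⟨t, ht⟩ := hsomeA u hf
          exact ⟨t, fun _ => sq_nonneg _, fun _ => ⟨ht, sq_nonneg _⟩⟩
    have hcard : (S.ncard : ℝ) * (δ ^ 2 / 4) = ∑ u, if u ∈ S then δ ^ 2 / 4 else 0 := by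
      rw [← sum_filter, sum_const, nsmul_eq_mul, Set.ncard_eq_toFinset_card']
      congr 3
      ext u
      simp
    have hle : (S.ncard : ℝ) * (δ ^ 2 / 4) ≤ C + 4 * r * C ^ 2 := by
      rw [hcard]
      exact (sum_le_sum fun u _ => hpt u).trans hsum
    have hδ2 : 0 < δ ^ 2 / 4 := by positivity
    have h6 : (S.ncard : ℝ) ≤ (C + 4 * r * C ^ 2) / (δ ^ 2 / 4) := by
      rwa [le_div_iff₀ hδ2]
    exact_mod_cast h6.trans (Nat.le_ceil _)
  · refine le_trans (sum_le_sum fun u _ => ?_) hsum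
    have hz0 := hL.nonneg u
    split_ifs with hu
    · apply ItemNRML.le_Phi
      · intro _
        exact le_refl _
      · intro hf
        obtain ⟨t, ht⟩ := hsomeA u hf
        refine ⟨t, ?_, fun _ => ⟨ht, le_refl _⟩⟩
        intro _
        have h2 := (abs_le.1 (hζ t)).1
        have h3 : 7 / 8 ≤ 1 / z (v t) := by linarith
        nlinarith
    · apply ItemNRML.le_Phi
      · intro _
        positivity
      · intro hf
        obtain ⟨t, ht⟩ := hsomeA u hf
        exact ⟨t, fun _ => sq_nonneg _, fun _ => ⟨ht, sq_nonneg _⟩⟩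

end MP0c3a8f
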