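import Pool.Agent.Work.MP_0c3a8f_co.PB.Stmts

/-!
# MP_0c3a8f_co, phase B: the optimisation (item OPT)
-/

open Finset

namespace MP0c3a8f
namespace OPTI

theorem qq_bd {r : ℕ} (hr : 3 ≤ r) : 2 / 3 ≤ qq r ∧ qq r < 1 := by
  have h3 : (3 : ℝ) ≤ r := by exact_mod_cast hr
  unfold qq
  constructor
  · have : 1 / (r : ℝ) ≤ 1 / 3 := one_div_le_one_div_of_le (by norm_num) h3
    linarith
  · have : 0 < 1 / (r : ℝ) := by positivity
    linarith

theorem sq_sqrt_le {dv : ℝ} (h : 0 ≤ dv) : Real.sqrt dv * Real.sqrt dv = dv :=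
  Real.mul_self_sqrt h

/-- step (1): rough bounds -/
theorem rough (r : ℕ) (ε C C₀ : ℝ) (n n₁ D : ℕ) (dv a b S : ℝ) (hr : 3 ≤ r) (hε : 0 < ε)
    (hC : 0 ≤ C) (hn : 0 < n) (h1 : ε * (qq r * n) ≤ D)
    (h2 : (D : ℝ) ≤ (1 - 2 / (r : ℝ) - ε) * (qq r * n)) (hdv : 0 ≤ dv) (ha : 0 ≤ a) (hb : 0 ≤ b)
    (hS : 0 ≤ S) (hbig : C₀ + C + C ^ 2 / (2 * ε) ≤ n)
    (h3 : (2 * qq r - ε / 4) * (a + b) + qq r * (1 - 2 / (r : ℝ) - ε / 4) * dv
      + S - C * (1 + Real.sqrt dv) ≤ 2 * D * (qq r - D / n) + C₀) :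
    a + b ≤ 3 * n ∧ dv ≤ 6 / ε * n ∧ (D : ℝ) ≤ n ∧ 2 * ε ≤ 1 - 2 / (r : ℝ) := by
  obtain ⟨hq, hq1⟩ := qq_bd hr
  have hn' : (0 : ℝ) < n := by exact_mod_cast hn
  have hqn : 0 < qq r * n := by positivity
  have hr0 : 0 < 2 / (r : ℝ) := by
    have : (0 : ℝ) < r := by positivity
    positivity
  have h2e : 2 * ε ≤ 1 - 2 / (r : ℝ) := by
    have := h1.trans h2
    have := le_of_mul_le_mul_right this hqn
    linarith
  have hDn : (D : ℝ) ≤ n := by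
    have : (1 - 2 / (r : ℝ) - ε) * (qq r * n) ≤ 1 * (1 * n) := by
      apply mul_le_mul (by linarith) (by gcongr) hqn.le (by norm_num)
    linarith
  have hD0 : (0 : ℝ) ≤ D := by positivity
  have hR : 2 * D * (qq r - D / n) ≤ 2 * (n : ℝ) := by
    have hdn : 0 ≤ (D : ℝ) / n := by positivity
    have : 2 * D * (qq r - D / n) ≤ 2 * D * (1 : ℝ) := by
      apply mul_le_mul_of_nonneg_left _ (by positivity)
      linarith
    linarith
  have hs := sq_sqrt_le hdv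
  set s := Real.sqrt dv with hsd
  have hs0 : 0 ≤ s := Real.sqrt_nonneg _
  have ham : C * s ≤ ε / 2 * dv + C ^ 2 / (2 * ε) := by
    rw [← hs]
    have : 0 ≤ (ε * s - C) ^ 2 / (2 * ε) := by positivity
    have h' : (ε * s - C) ^ 2 / (2 * ε) = ε / 2 * (s * s) + C ^ 2 / (2 * ε) - C * s := by
      field_simp
      ring
    linarith
  have e1 : a + b ≤ (2 * qq r - ε / 4) * (a + b) := by
    have : (0 : ℝ) ≤ a + b := by linarith
    nlinarith
  have e2 : ε * dv ≤ qq r * (1 - 2 / (r : ℝ) - ε / 4) * dv := by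
    apply mul_le_mul_of_nonneg_right _ hdv
    nlinarith
  have e3 : a + b + ε / 2 * dv ≤ 3 * n := by linarith
  refine ⟨by nlinarith [mul_nonneg hε.le hdv], ?_, hDn, h2e⟩
  rw [div_mul_eq_mul_div, le_div_iff₀ hε]
  nlinarith

/-- step (2): the number of vertices -/
theorem step2 (r K : ℕ) (ε : ℝ) (n n₁ D : ℕ) (dv dT a b e sd : ℝ) (hr : 3 ≤ r)
    (hn : 0 < n) (hε : 0 < ε) (hdv : 0 ≤ dv) (hdT : 0 ≤ dT) (hdT' : dT ≤ r)
    (ha : 0 ≤ a) (hb : 0 ≤ b) (he : 0 ≤ e) (he' : e ≤ (K : ℝ) ^ 2)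
    (hab : a + b ≤ 3 * n) (hdv' : dv ≤ 6 / ε * n) (hD : (D : ℝ) ≤ n)
    (hsd : 0 ≤ sd) (hsd' : sd ≤ K * n₁)
    (hrel : qq r * (n₁ : ℝ) ^ 2 - dv + 2 * sd + 2 * e - 2 * a + 2 * b
      = qq r * (n : ℝ) ^ 2 - dT + 2 * D) :
    |(n₁ : ℝ) - n| ≤ 2 * (6 / ε + 2 * K + 2 * K ^ 2 + 8 + r) := by
  obtain ⟨hq, hq1⟩ := qq_bd hr
  have hn' : (1 : ℝ) ≤ n := by exact_mod_cast hn
  have hn₁ : (0 : ℝ) ≤ n₁ := by positivity
  set C' := 6 / ε + 2 * K + 2 * K ^ 2 + 8 + r with hC'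
  have h6 : 0 ≤ 6 / ε := by positivity
  have hK : (0 : ℝ) ≤ K := by positivity
  have hr0 : (0 : ℝ) ≤ r := by positivity
  have hD0 : (0 : ℝ) ≤ D := by positivity
  have hC0 : 0 ≤ C' := by positivity
  have hup : C' * (n + n₁) = 6 / ε * n + 2 * K * n + 2 * K ^ 2 * n + 8 * n + r * n
      + (6 / ε * n₁ + 2 * K * n₁ + 2 * K ^ 2 * n₁ + 8 * n₁ + r * n₁) := by
    rw [hC']; ring
  have p1 : (K : ℝ) ^ 2 ≤ K ^ 2 * n := le_mul_of_one_le_right (by positivity) hn'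
  have p2 : (r : ℝ) ≤ r * n := le_mul_of_one_le_right (by positivity) hn'
  have p3 : 0 ≤ 6 / ε * (n₁ : ℝ) := by positivity
  have p4 : (0 : ℝ) ≤ 2 * K ^ 2 * n₁ := by positivity
  have p5 : (0 : ℝ) ≤ r * n₁ := by positivity
  have p6 : (0 : ℝ) ≤ 2 * K * n := by positivity
  have p7 : (0 : ℝ) ≤ K ^ 2 * n := by positivity
  have p8 : (0 : ℝ) ≤ r * n := by positivity
  have p9 : (0 : ℝ) ≤ 2 * K * n₁ := by positivity
  have p10 : 0 ≤ 6 / ε * (n : ℝ) := by positivity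
  have habs : |qq r * (((n₁ : ℝ) - n) * (n + n₁))| ≤ C' * (n + n₁) := by
    have : qq r * (((n₁ : ℝ) - n) * (n + n₁))
      = dv - 2 * sd - 2 * e + 2 * a - 2 * b - dT + 2 * D := by
      linear_combination hrel
    rw [this, abs_le, hup]
    constructor <;> linarith
  rw [abs_mul, abs_mul, abs_of_nonneg (by linarith : 0 ≤ qq r),
    abs_of_pos (by positivity : (0 : ℝ) < n + n₁)] at habs
  have hpos : (0 : ℝ) < n + n₁ := by positivity
  have h3 : qq r * |(n₁ : ℝ) - n| ≤ C' := by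
    have : (qq r * |(n₁ : ℝ) - n|) * (n + n₁) ≤ C' * (n + n₁) := by linarith
    exact le_of_mul_le_mul_right this hpos
  have h4 := abs_nonneg ((n₁ : ℝ) - n)
  nlinarith

/-- step (4): the inequality in the scaled variables -/
theorem step4 (r K : ℕ) (ε C C₀ C7 : ℝ) (n n₁ D : ℕ) (dv dT a b e : ℝ) (k : ℤ)
    {ι : Type} (U : Finset ι) (d : ι → ℝ) (t : ι → ℝ) (hr : 3 ≤ r)
    (hn : 0 < n) (hn₁ : 0 < n₁) (hε : 0 < ε) (hε2 : 2 * ε ≤ 1 - 2 / (r : ℝ))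
    (hdv : 0 ≤ dv) (hdT : 0 ≤ dT) (hdT' : dT ≤ r) (hC : 0 ≤ C) (hC₀ : 0 ≤ C₀) (hC7 : 0 ≤ C7)
    (ha : 0 ≤ a) (hb : 0 ≤ b) (he : 0 ≤ e) (he' : e ≤ (K : ℝ) ^ 2) (hU : U.card ≤ K)
    (hk : (k : ℝ) = n₁ - n) (hk' : |(n₁ : ℝ) - n| ≤ C7)
    (ht : ∀ i, t i = d i / (qq r * n₁)) (ht01 : ∀ i ∈ U, 0 ≤ t i ∧ t i ≤ 1)
    (h1 : ε * (qq r * n) ≤ D) (h2 : (D : ℝ) ≤ (1 - 2 / (r : ℝ) - ε) * (qq r * n))
    (hrel : qq r * (n₁ : ℝ) ^ 2 - dv + 2 * ∑ i ∈ U, d i + 2 * e - 2 * a + 2 * b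
      = qq r * (n : ℝ) ^ 2 - dT + 2 * D)
    (hbig : 2 * (C7 ^ 2 + C7 * K + 2 * K ^ 2 + r) / ε ≤ n)
    (h3 : (2 * qq r - ε / 4) * (a + b) + qq r * (1 - 2 / (r : ℝ) - ε / 4) * dv
      + ∑ i ∈ U, 2 * d i * (qq r - d i / n₁) - C * (1 + Real.sqrt dv)
      ≤ 2 * D * (qq r - D / n) + C₀) :
    ∃ x' : ℝ, ε / 2 ≤ x' ∧ x' ≤ 1 - 2 / (r : ℝ) - ε / 2 ∧
      ∑ i ∈ U, t i + b / (qq r * n) - a / (qq r * n) - dv / (2 * qq r * n) + k = x' ∧
      ∑ i ∈ U, t i * (1 - t i) + (1 - ε / 4) * (a / (qq r * n) + b / (qq r * n))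
        + (1 - 2 / (r : ℝ) - ε / 4) * (dv / (2 * qq r * n)) ≤ x' * (1 - x')
        + (C7 * K + (C7 ^ 2 + C7 * K + 2 * K ^ 2 + r) + 2 * C₀ + 2 * C) * (1 + Real.sqrt dv) / n
      := by
  obtain ⟨hq, hq1⟩ := qq_bd hr
  have hn' : (0 : ℝ) < n := by exact_mod_cast hn
  have hn₁' : (0 : ℝ) < n₁ := by exact_mod_cast hn₁
  have hq0 : 0 < qq r := by linarith
  have hr0 : (0 : ℝ) < r := by positivity
  have hr2 : 0 < 2 / (r : ℝ) := by positivity
  have hK : (0 : ℝ) ≤ K := by positivity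
  have hqn : 0 < qq r * n := by positivity
  have hqn1 : (qq r * n : ℝ) ≠ 0 := hqn.ne'
  have hs0 : 0 ≤ Real.sqrt dv := Real.sqrt_nonneg _
  set s := Real.sqrt dv
  set q := qq r with hqd
  set C8 := C7 ^ 2 + C7 * K + 2 * K ^ 2 + r with hC8
  have hC80 : 0 ≤ C8 := by positivity
  have hd : ∀ i, d i = t i * (q * n₁) := fun i => by
    rw [ht i]; field_simp
  have hst0 : 0 ≤ ∑ i ∈ U, t i := sum_nonneg fun i hi => (ht01 i hi).1
  have hstK : ∑ i ∈ U, t i ≤ K := by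
    calc ∑ i ∈ U, t i ≤ ∑ i ∈ U, (1 : ℝ) := sum_le_sum fun i hi => (ht01 i hi).2
      _ = U.card := by simp
      _ ≤ K := by exact_mod_cast hU
  have hsd : ∑ i ∈ U, d i = (∑ i ∈ U, t i) * (q * n₁) := by
    rw [sum_mul]; exact sum_congr rfl fun i _ => hd i
  set T := ∑ i ∈ U, t i with hT
  -- x and xi
  obtain ⟨x, hx⟩ : ∃ x : ℝ, x = D / (q * n) := ⟨_, rfl⟩
  have hDx : (D : ℝ) = x * (q * n) := by rw [hx]; field_simp
  have hx1 : ε ≤ x := by
    rw [hDx] at h1; exact le_of_mul_le_mul_right h1 hqn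
  have hx2 : x ≤ 1 - 2 / (r : ℝ) - ε := by
    rw [hDx] at h2; exact le_of_mul_le_mul_right h2 hqn
  obtain ⟨ξ, hξ⟩ : ∃ ξ : ℝ, ξ = (k : ℝ) ^ 2 / (2 * n) + k / n * T + e / (q * n)
    + dT / (2 * q * n) := ⟨_, rfl⟩
  have hn1k : (n₁ : ℝ) = n + k := by rw [hk]; ring
  have hkC : |(k : ℝ)| ≤ C7 := by rw [hk]; exact hk'
  have hξn : |ξ * n| ≤ C8 := by
    have e1 : ξ * n = (k : ℝ) ^ 2 / 2 + k * T + e / q + dT / (2 * q) := by
      rw [hξ]; field_simp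
    rw [e1]
    have a1 : (k : ℝ) ^ 2 ≤ C7 ^ 2 := by
      rw [← sq_abs]; exact pow_le_pow_left₀ (abs_nonneg _) hkC 2
    have a2 : |(k : ℝ) * T| ≤ C7 * K := by
      rw [abs_mul, abs_of_nonneg hst0]
      exact mul_le_mul hkC hstK hst0 hC7
    have a3 : e / q ≤ 2 * K ^ 2 := by
      rw [div_le_iff₀ hq0]; nlinarith [sq_nonneg (K : ℝ)]
    have a4 : dT / (2 * q) ≤ r := by
      rw [div_le_iff₀ (by positivity)]; nlinarith
    have a5 : 0 ≤ e / q := by positivity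
    have a6 : 0 ≤ dT / (2 * q) := by positivity
    have a7 := abs_le.mp a2
    have a8 : (0 : ℝ) ≤ (k : ℝ) ^ 2 := sq_nonneg _
    rw [abs_le]
    constructor
    · rw [hC8]; nlinarith [sq_nonneg (K : ℝ), sq_nonneg C7]
    · rw [hC8]; nlinarith [sq_nonneg (K : ℝ), sq_nonneg C7]
  have hξ' : |ξ| ≤ C8 / n := by
    rw [le_div_iff₀ hn']
    rwa [abs_mul, abs_of_pos hn'] at hξn
  have hξ2 : |ξ| ≤ ε / 2 := by
    apply hξ'.trans
    rw [div_le_iff₀ hn']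
    rw [div_le_iff₀ hε] at hbig
    linarith
  have hξa := abs_le.mp hξ2
  refine ⟨x - ξ, by linarith, by linarith, ?_, ?_⟩
  · rw [hx, hξ]
    have : q * ((n : ℝ) + k) ^ 2 - dv + 2 * (T * (q * (n + k))) + 2 * e - 2 * a + 2 * b
      = q * (n : ℝ) ^ 2 - dT + 2 * D := by
      rw [← hn1k, ← hsd]; exact hrel
    field_simp
    linear_combination this
  · have hsum : ∑ i ∈ U, 2 * d i * (q - d i / n₁)
        = (∑ i ∈ U, t i * (1 - t i)) * (2 * q ^ 2 * n₁) := by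
      rw [sum_mul]
      refine sum_congr rfl fun i _ => ?_
      rw [hd i]; field_simp
    set S := ∑ i ∈ U, t i * (1 - t i) with hS
    have hS0 : 0 ≤ S := sum_nonneg fun i hi =>
      mul_nonneg (ht01 i hi).1 (by linarith [(ht01 i hi).2])
    have hSK : S ≤ K := by
      refine le_trans (sum_le_sum fun i hi => ?_) hstK
      nlinarith [(ht01 i hi).1, (ht01 i hi).2]
    have hden : 0 < 2 * q ^ 2 * n := by positivity
    have h2q : 1 / 2 ≤ 2 * q ^ 2 := by nlinarith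
    rw [hsum] at h3
    -- divide by 2 q^2 n
    have h4 : S * (n₁ / n) + (1 - ε / (8 * q)) * (a / (q * n) + b / (q * n))
        + (1 - 2 / (r : ℝ) - ε / 4) * (dv / (2 * q * n))
        ≤ x * (1 - x) + (C₀ + C * (1 + s)) / (2 * q ^ 2 * n) := by
      have e1 : S * (n₁ / n) + (1 - ε / (8 * q)) * (a / (q * n) + b / (q * n))
        + (1 - 2 / (r : ℝ) - ε / 4) * (dv / (2 * q * n)) = ((2 * q - ε / 4) * (a + b)
          + q * (1 - 2 / (r : ℝ) - ε / 4) * dv + S * (2 * q ^ 2 * n₁)) / (2 * q ^ 2 * n) := by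
        field_simp
        ring
      have e2 : x * (1 - x) + (C₀ + C * (1 + s)) / (2 * q ^ 2 * n)
          = (2 * D * (q - D / n) + C₀ + C * (1 + s)) / (2 * q ^ 2 * n) := by
        rw [hDx]
        field_simp
        ring
      rw [e1, e2]
      apply div_le_div_of_nonneg_right _ hden.le
      linarith
    have h5 : (C₀ + C * (1 + s)) / (2 * q ^ 2 * n) ≤ (2 * C₀ + 2 * C) * (1 + s) / n := by
      rw [div_le_div_iff₀ hden hn']
      have e1 : C₀ ≤ C₀ * (1 + s) := le_mul_of_one_le_right hC₀ (by linarith)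
      have e2 : C₀ + C * (1 + s) ≤ (C₀ + C) * (1 + s) := by nlinarith
      have e3 : 0 ≤ (C₀ + C) * (1 + s) := by positivity
      calc (C₀ + C * (1 + s)) * n ≤ (C₀ + C) * (1 + s) * n := by gcongr
        _ = (2 * C₀ + 2 * C) * (1 + s) * (1 / 2 * n) := by ring
        _ ≤ (2 * C₀ + 2 * C) * (1 + s) * (2 * q ^ 2 * n) := by gcongr
    have h6 : S - C7 * K / n ≤ S * (n₁ / n) := by
      have e1 : S * (n₁ / n) = S + S * k / n := by rw [hn1k]; field_simp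
      have e2 : -(C7 * K) ≤ S * k := by
        have := abs_le.mp hkC
        nlinarith
      have e3 : -(C7 * K) / n ≤ S * k / n := div_le_div_of_nonneg_right e2 hn'.le
      rw [e1]
      have e4 : -(C7 * K) / n = -(C7 * K / n) := neg_div _ _
      linarith
    have h7 : (1 - ε / 4) * (a / (q * n) + b / (q * n))
        ≤ (1 - ε / (8 * q)) * (a / (q * n) + b / (q * n)) := by
      apply mul_le_mul_of_nonneg_right _ (by positivity)
      have : ε / (8 * q) ≤ ε / 4 := by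
        apply div_le_div_of_nonneg_left hε.le (by norm_num) (by linarith)
      linarith
    have h8 : x * (1 - x) ≤ (x - ξ) * (1 - (x - ξ)) + C8 / n := by
      have e1 : x * (1 - x) - (x - ξ) * (1 - (x - ξ)) = ξ * (1 - x - (x - ξ)) := by ring
      have e2 : |ξ * (1 - x - (x - ξ))| ≤ C8 / n := by
        rw [abs_mul]
        have e3 : |1 - x - (x - ξ)| ≤ 1 := by
          rw [abs_le]; constructor <;> linarith
        calc |ξ| * |1 - x - (x - ξ)| ≤ |ξ| * 1 := by gcongr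
          _ ≤ C8 / n := by linarith
      have := (abs_le.mp e2).2
      linarith
    have h9 : (C7 * K + C8 + 2 * C₀ + 2 * C) * (1 + s) / n
        = C7 * K * (1 + s) / n + C8 * (1 + s) / n + (2 * C₀ + 2 * C) * (1 + s) / n := by ring
    have h10 : C7 * K / n ≤ C7 * K * (1 + s) / n := by
      apply div_le_div_of_nonneg_right _ hn'.le
      exact le_mul_of_one_le_right (by positivity) (by linarith)
    have h11 : C8 / n ≤ C8 * (1 + s) / n := by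
      apply div_le_div_of_nonneg_right _ hn'.le
      exact le_mul_of_one_le_right (by positivity) (by linarith)
    rw [h9]
    linarith

end OPTI

open OPTI in
theorem prfOPT : OPTC_statement → OPT_statement := by
  intro hO r ε c C C₀ K hr hε hc hc2 hC hC₀
  obtain ⟨γ, hγ, hOPT⟩ := hO r (ε / 2) c hr (by linarith) hc hc2
  obtain ⟨C7, hC7⟩ : ∃ C7 : ℝ, C7 = 2 * (6 / ε + 2 * K + 2 * K ^ 2 + 8 + r) := ⟨_, rfl⟩
  have hC70 : 0 ≤ C7 := by rw [hC7]; positivity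
  obtain ⟨C9, hC9⟩ : ∃ C9 : ℝ, C9 = C7 * K + (C7 ^ 2 + C7 * K + 2 * K ^ 2 + r) + 2 * C₀ + 2 * C :=
    ⟨_, rfl⟩
  have hC90 : 0 ≤ C9 := by rw [hC9]; positivity
  obtain ⟨C10, hC10⟩ : ∃ C10 : ℝ, C10 = 4 * C9 / ε := ⟨_, rfl⟩
  have hC100 : 0 ≤ C10 := by rw [hC10]; positivity
  obtain ⟨hq, hq1⟩ := qq_bd hr
  -- largeness
  obtain ⟨n₀, hn₀⟩ : ∃ n₀ : ℕ, (C₀ + C + C ^ 2 / (2 * ε)) + C7
      + 2 * (C7 ^ 2 + C7 * K + 2 * K ^ 2 + r) / ε + (2 * C9 + 24 * C9 ^ 2 / (ε * γ)) / γ + 1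
        < n₀ := exists_nat_gt _
  have t1 : 0 ≤ C₀ + C + C ^ 2 / (2 * ε) := by positivity
  have t2 : 0 ≤ 2 * (C7 ^ 2 + C7 * K + 2 * K ^ 2 + r) / ε := by positivity
  have t3 : 0 ≤ (2 * C9 + 24 * C9 ^ 2 / (ε * γ)) / γ := by positivity
  refine ⟨⌈2 * C10 * (2 + 4 * C10 + 4 * C10 ^ 2)⌉₊, n₀, ?_⟩
  intro n n₁ D dv dT a b e ι U d hn h1 h2 hdv hdT hdT' ha hb he he' hU hd hrel h3
  have hnn : (n₀ : ℝ) ≤ n := by exact_mod_cast hn
  have hn' : (0 : ℝ) < n := by linarith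
  have hn0 : 0 < n := by exact_mod_cast hn'
  have hn1' : (1 : ℝ) ≤ n := by linarith
  have hd0 : ∀ i ∈ U, 0 ≤ d i := fun i hi => le_trans (by positivity) (hd i hi).1
  have hdn : ∀ i ∈ U, d i ≤ n₁ := fun i hi => by
    refine (hd i hi).2.trans ?_
    have : (1 - c) * (qq r * n₁) ≤ 1 * (1 * (n₁ : ℝ)) := by
      apply mul_le_mul (by linarith) (by gcongr) (by positivity) (by norm_num)
    linarith
  have hS : 0 ≤ ∑ i ∈ U, 2 * d i * (qq r - d i / n₁) := by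
    refine sum_nonneg fun i hi => ?_
    have hi0 := hd0 i hi
    rcases Nat.eq_zero_or_pos n₁ with h0 | h0
    · have : d i = 0 := le_antisymm (by have := hdn i hi; rw [h0] at this; simpa using this) hi0
      rw [this]; simp
    · have h0' : (0 : ℝ) < n₁ := by exact_mod_cast h0
      have : d i / n₁ ≤ qq r := by
        rw [div_le_iff₀ h0']
        refine (hd i hi).2.trans ?_
        have : 0 ≤ qq r * n₁ := by positivity
        nlinarith
      have : 0 ≤ qq r - d i / n₁ := by linarith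
      positivity
  obtain ⟨hab, hdv', hDn, h2e⟩ := rough r ε C C₀ n n₁ D dv a b _ hr hε hC hn0 h1 h2 hdv ha hb hS
    (by linarith) h3
  have hsd0 : 0 ≤ ∑ i ∈ U, d i := sum_nonneg hd0
  have hsdK : ∑ i ∈ U, d i ≤ K * n₁ := by
    calc ∑ i ∈ U, d i ≤ ∑ i ∈ U, (n₁ : ℝ) := sum_le_sum hdn
      _ = U.card * n₁ := by simp
      _ ≤ K * n₁ := by gcongr
  have hk7 := step2 r K ε n n₁ D dv dT a b e _ hr hn0 hε hdv hdT hdT' ha hb he he' hab hdv' hDn
    hsd0 hsdK hrel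
  rw [← hC7] at hk7
  have hn₁' : (0 : ℝ) < n₁ := by
    have := (abs_le.mp hk7).1
    linarith
  have hn₁ : 0 < n₁ := by exact_mod_cast hn₁'
  have hq0 : 0 < qq r := by linarith
  have hqn₁ : 0 < qq r * n₁ := by positivity
  have hqn : 0 < qq r * n := by positivity
  have htc : ∀ i ∈ U, c ≤ d i / (qq r * n₁) ∧ d i / (qq r * n₁) ≤ 1 - c := fun i hi => by
    rw [le_div_iff₀ hqn₁, div_le_iff₀ hqn₁]
    exact hd i hi
  obtain ⟨x', hx1, hx2, hx3, hx4⟩ := step4 r K ε C C₀ C7 n n₁ D dv dT a b e ((n₁ : ℤ) - n) U d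
    (fun i => d i / (qq r * n₁)) hr hn0 hn₁ hε h2e hdv hdT hdT' hC hC₀ hC70 ha hb he he' hU
    (by push_cast; ring) hk7 (fun _ => rfl)
    (fun i hi => ⟨hc.le.trans (htc i hi).1, by linarith [(htc i hi).2]⟩) h1 h2 hrel
    (by linarith) h3
  rw [← hC9] at hx4
  have hs0 : 0 ≤ Real.sqrt dv := Real.sqrt_nonneg _
  have hs := sq_sqrt_le hdv
  have key := hOPT ι U (fun i => d i / (qq r * n₁)) x' (a / (qq r * n)) (b / (qq r * n))
    (dv / (2 * qq r * n)) ((n₁ : ℤ) - n) hx1 (by linarith) (by positivity) (by positivity)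
    (by positivity) htc hx3
  have e4 : ε / 2 / 2 = ε / 4 := by ring
  rw [e4] at key
  rcases key with key | ⟨hc1, hk0, key⟩
  · exfalso
    have h4 : γ ≤ C9 * (1 + Real.sqrt dv) / n := by linarith
    rw [le_div_iff₀ hn'] at h4
    -- C9 * sqrt dv ≤ γ n / 2 + ...
    have h5 : C9 * Real.sqrt dv ≤ ε * γ / 24 * dv + 6 * C9 ^ 2 / (ε * γ) := by
      have : 0 ≤ (ε * γ / 12 * Real.sqrt dv - C9) ^ 2 * (6 / (ε * γ)) := by positivity
      have h' : (ε * γ / 12 * Real.sqrt dv - C9) ^ 2 * (6 / (ε * γ))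
        = ε * γ / 24 * (Real.sqrt dv * Real.sqrt dv) + 6 * C9 ^ 2 / (ε * γ)
          - C9 * Real.sqrt dv := by
        field_simp
        ring
      rw [hs] at h'
      linarith
    have h6 : ε * γ / 24 * dv ≤ γ / 4 * n := by
      have : ε * γ / 24 * dv ≤ ε * γ / 24 * (6 / ε * n) := by gcongr
      have e : ε * γ / 24 * (6 / ε * n) = γ / 4 * n := by field_simp; norm_num
      linarith
    have h7 : (2 * C9 + 24 * C9 ^ 2 / (ε * γ)) / γ < n := by linarith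
    rw [div_lt_iff₀ hγ] at h7
    have h8 : 24 * C9 ^ 2 / (ε * γ) = 4 * (6 * C9 ^ 2 / (ε * γ)) := by ring
    rw [h8] at h7
    have h9 : 0 ≤ 6 * C9 ^ 2 / (ε * γ) := by positivity
    nlinarith
  · have hnn₁ : n₁ = n := by
      have : (n₁ : ℤ) = n := by linarith
      exact_mod_cast this
    refine ⟨hc1, hnn₁, ?_⟩
    have h4 : ε / 4 * (a / (qq r * n) + b / (qq r * n) + dv / (2 * qq r * n))
        ≤ C9 * (1 + Real.sqrt dv) / n := by linarith
    have h5 : (a + b + dv / 2) / n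
        ≤ a / (qq r * n) + b / (qq r * n) + dv / (2 * qq r * n) := by
      have e1 : a / (qq r * n) + b / (qq r * n) + dv / (2 * qq r * n)
        = (a + b + dv / 2) / (qq r * n) := by field_simp
      rw [e1]
      apply div_le_div_of_nonneg_left (by positivity) hqn
      nlinarith
    have h6 : a + b + dv / 2 ≤ C10 * (1 + Real.sqrt dv) := by
      have e1 : ε / 4 * ((a + b + dv / 2) / n) ≤ C9 * (1 + Real.sqrt dv) / n :=
        le_trans (by gcongr) h4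
      have e2 : ε / 4 * ((a + b + dv / 2) / n) = ε / 4 * (a + b + dv / 2) / n := by ring
      rw [e2, div_le_div_iff_of_pos_right hn'] at e1
      rw [hC10, div_mul_eq_mul_div, le_div_iff₀ hε]
      linarith
    have h7 : Real.sqrt dv * Real.sqrt dv ≤ 4 * C10 + 4 * C10 ^ 2 := by
      nlinarith [sq_nonneg (Real.sqrt dv / 2 - C10)]
    have h8 : Real.sqrt dv ≤ 1 + (4 * C10 + 4 * C10 ^ 2) := by
      nlinarith [sq_nonneg (Real.sqrt dv - 1)]
    have h9 : a + b + dv ≤ 2 * C10 * (2 + 4 * C10 + 4 * C10 ^ 2) := by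
      have : C10 * (1 + Real.sqrt dv) ≤ C10 * (2 + 4 * C10 + 4 * C10 ^ 2) :=
        mul_le_mul_of_nonneg_left (by linarith) hC100
      linarith
    exact h9.trans (Nat.le_ceil _)

end MP0c3a8f
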