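import Pool.Agent.Work.MP_0c3a8f_co.PB.Stmts

/-!
# MP_0c3a8f_co, phase B, item ORD2
-/

open Finset

namespace MP0c3a8f
namespace ItemORD2

/-- replace the neighbours `M` of `w` by `M'` -/
def g3 {V : Type} (G : SimpleGraph V) (w : V) (M M' : Finset V) (hM' : w ∉ M') :
    SimpleGraph V where
  Adj a b := (G.Adj a b ∧ ¬ (a = w ∧ b ∈ M) ∧ ¬ (b = w ∧ a ∈ M)) ∨ (a = w ∧ b ∈ M') ∨
    (b = w ∧ a ∈ M')
  symm := ⟨fun a b h => by
    rcases h with h | h | h
    · exact Or.inl ⟨h.1.symm, h.2.2, h.2.1⟩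
    · exact Or.inr (Or.inr h)
    · exact Or.inr (Or.inl h)⟩
  loopless := ⟨fun a h => by
    rcases h with h | h | h
    · exact G.loopless.irrefl a h.1
    · exact hM' (h.1 ▸ h.2)
    · exact hM' (h.1 ▸ h.2)⟩

/-- replace the edge `uy` by `uy'` -/
def g4 {V : Type} (G : SimpleGraph V) (u y y' : V) (hne : u ≠ y') : SimpleGraph V where
  Adj x z := (G.Adj x z ∧ s(x, z) ≠ s(u, y)) ∨ s(x, z) = s(u, y')
  symm := ⟨fun a b h => by
    rcases h with h | h
    · exact Or.inl ⟨h.1.symm, by rw [Sym2.eq_swap]; exact h.2⟩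
    · exact Or.inr (by rw [Sym2.eq_swap]; exact h)⟩
  loopless := ⟨fun a h => by
    rcases h with h | h
    · exact G.loopless.irrefl a h.1
    · rw [Sym2.eq_iff] at h
      rcases h with ⟨h1, h2⟩ | ⟨h1, h2⟩
      · exact hne (h1 ▸ h2)
      · exact hne (h2 ▸ h1)⟩

lemma sne {V : Type} {a b c d : V} (h1 : a ≠ c) (h2 : b ≠ c) : s(a, b) ≠ s(c, d) := by
  intro h
  rw [Sym2.eq_iff] at h
  rcases h with ⟨h3, _⟩ | ⟨_, h4⟩
  · exact h1 h3
  · exact h2 h4

lemma nbn_congr {V : Type} {r : ℕ} {G G' : SimpleGraph V} {f : V → Option (Fin r)} {w : V}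
    {t : Fin r} (h : ∀ y, f y = some t → (G'.Adj w y ↔ G.Adj w y)) :
    nbn G' f w t = nbn G f w t := by
  unfold nbn
  congr 1
  ext y
  constructor
  · rintro ⟨h1, h2⟩
    exact ⟨h1, (h y h1).1 h2⟩
  · rintro ⟨h1, h2⟩
    exact ⟨h1, (h y h1).2 h2⟩

lemma num1 {r n D : ℕ} {ε : ℝ} (hr : 3 ≤ r) (hε : 0 < ε) (h : R2 r n D ε) (S : ℕ)
    (hS : S + r = D) (hn : 3 * (r : ℝ) / ε ≤ n) :
    ε / 3 * n ≤ (S : ℝ) ∧ (S : ℝ) ≤ (1 - 2 / (r : ℝ)) * (qq r * n) + 1 := by
  obtain ⟨h1, h2⟩ := h
  have hr' : (3 : ℝ) ≤ r := by exact_mod_cast hr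
  have hr0 : (0 : ℝ) < r := by linarith
  have hq : (2 : ℝ) / 3 ≤ qq r := by
    unfold qq
    have : 1 / (r : ℝ) ≤ 1 / 3 := by
      apply one_div_le_one_div_of_le <;> linarith
    linarith
  have hn0 : (0 : ℝ) ≤ n := Nat.cast_nonneg n
  have hD : (D : ℝ) = S + r := by rw [← hS]; push_cast; ring
  have hn' : 3 * (r : ℝ) ≤ n * ε := by rwa [div_le_iff₀ hε] at hn
  constructor
  · have h3 : ε * (2 / 3 * n) ≤ ε * (qq r * n) := by
      apply mul_le_mul_of_nonneg_left _ hε.le
      exact mul_le_mul_of_nonneg_right hq hn0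
    nlinarith
  · have hqn : 0 ≤ qq r * n := mul_nonneg (by linarith) hn0
    have h5 : 0 < 1 / (r : ℝ) ^ 5 := by positivity
    have h6 : 1 / ((r : ℝ) + 1) ≤ 1 - 2 / (r : ℝ) := by
      have e1 : 1 / ((r : ℝ) + 1) ≤ 1 / (1 + 3) := by
        apply one_div_le_one_div_of_le <;> linarith
      have e2 : 2 / (r : ℝ) ≤ 2 / 3 := by
        apply div_le_div_of_nonneg_left <;> linarith
      linarith
    have h7 : (1 / ((r : ℝ) + 1) - 1 / (r : ℝ) ^ 5) * (qq r * n)
        ≤ (1 - 2 / (r : ℝ)) * (qq r * n) := by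
      apply mul_le_mul_of_nonneg_right _ hqn
      linarith
    linarith

lemma num2 {r n D m : ℕ} {ε : ℝ} (hr : 3 ≤ r) (h : R2 r n D ε) (hm : n < r * (m + 1))
    (hD : (r - 1) * m + 1 ≤ D) (hn : 2 * r ≤ n) : False := by
  obtain ⟨h1, h2⟩ := h
  have hr' : (3 : ℝ) ≤ r := by exact_mod_cast hr
  have hr0 : (0 : ℝ) < r := by linarith
  have hn0 : (0 : ℝ) ≤ n := Nat.cast_nonneg n
  have hn2 : 2 * (r : ℝ) ≤ n := by exact_mod_cast hn
  have hm' : (n : ℝ) ≤ r * (m + 1) := by exact_mod_cast hm.le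
  have hD' : ((r : ℝ) - 1) * m + 1 ≤ D := by
    have : (((r - 1 : ℕ) : ℝ)) * m + 1 ≤ D := by exact_mod_cast hD
    rwa [Nat.cast_sub (by omega), Nat.cast_one] at this
  have h5 : 0 < 1 / (r : ℝ) ^ 5 := by positivity
  have hq : (2 : ℝ) / 3 ≤ qq r := by
    unfold qq
    have : 1 / (r : ℝ) ≤ 1 / 3 := by
      apply one_div_le_one_div_of_le <;> linarith
    linarith
  have hqn : 0 ≤ qq r * n := mul_nonneg (by linarith) hn0
  have h7 : (1 / ((r : ℝ) + 1) - 1 / (r : ℝ) ^ 5) * (qq r * n) ≤ 1 / 4 * (qq r * n) := by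
    apply mul_le_mul_of_nonneg_right _ hqn
    have e1 : 1 / ((r : ℝ) + 1) ≤ 1 / (1 + 3) := by
      apply one_div_le_one_div_of_le <;> linarith
    linarith
  have h8 : qq r * n = n - n / r := by unfold qq; field_simp
  have h9 : (n : ℝ) / r ≤ m + 1 := by
    rw [div_le_iff₀ hr0]; linarith
  have h10 : ((r : ℝ) - 1) * (n / r) = n - n / r := by field_simp
  have h11 : ((r : ℝ) - 1) * (n / r) ≤ (r - 1) * (m + 1) :=
    mul_le_mul_of_nonneg_left h9 (by linarith)
  have h12 : 2 / 3 * (n : ℝ) ≤ qq r * n := mul_le_mul_of_nonneg_right hq hn0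
  nlinarith

end ItemORD2

open ItemORD2 in
theorem prfORD2 : MV2_statement → US2_statement → MEM2_statement → EXC2_statement →
    RLC2_statement → EVF2_statement → ORD2_statement := by
  classical
  intro hMV hUS hMEM hEXC hRLC hEVF r ε hr hε
  obtain ⟨n1, h1⟩ := hMV r (ε / 3) hr (by positivity)
  obtain ⟨n2, h2⟩ := hUS r (ε / 3) hr (by positivity)
  obtain ⟨n3, h3⟩ := hEXC r ε hr hε
  obtain ⟨n4, h4⟩ := hEVF r ε hr hε
  obtain ⟨n5, h5⟩ := exists_nat_ge (3 * (r : ℝ) / ε)
  refine ⟨n1 + n2 + n3 + n4 + n5 + 2 * r, ?_⟩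
  intro n hn D hD V _ G f w u v i hMx hTh hBal hsum k
  by_contra hcon
  push Not at hcon
  have hn2r : 2 * r ≤ n := by omega
  have hr0 : 0 < r := by omega
  obtain ⟨m, hm⟩ : ∃ m, m = n / r := ⟨_, rfl⟩
  have hm2 : 2 ≤ m := by
    rw [hm, Nat.le_div_iff_mul_le hr0]; exact hn2r
  have hB : ∀ t, m ≤ siz f t ∧ siz f t ≤ m + 1 := by
    intro t; rw [hm]; exact hBal.1 t
  have hmn : n < r * (m + 1) := by
    rw [hm]; exact Nat.lt_mul_div_succ n hr0
  have hsk : siz f k = m + 1 := by
    have a := hB k; have b := hB i; omega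
  have hsi : siz f i = m := by
    have a := hB k; have b := hB i; omega
  have hki : k ≠ i := by
    rintro rfl
    exact lt_irrefl _ hcon
  have hnR : 3 * (r : ℝ) / ε ≤ n := by
    have : (n5 : ℝ) ≤ n := by exact_mod_cast (by omega : n5 ≤ n)
    linarith
  obtain ⟨E1, E2⟩ := h4 n (by omega) D hD V G f w u v i hMx hTh hBal hsum
  -- the class `k` is not almost full
  have hnk : nbn G f w k + 2 ≤ siz f k := by
    by_contra hc
    push Not at hc
    have hge : m ≤ nbn G f w k := by omega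
    have hall : ∀ t, t ≠ i → m ≤ nbn G f w t + 1 := by
      intro t ht
      have hBt := hB t
      rcases (by omega : siz f t = m ∨ siz f t = m + 1) with hh | hh
      · have := E2 k t hki ht (by omega) (by omega)
        omega
      · have := E1 k t hki ht (by omega)
        omega
    have s1 : (univ.erase i).card • m ≤ ∑ t ∈ univ.erase i, (nbn G f w t + 1) :=
      Finset.card_nsmul_le_sum _ _ _ (fun t ht => hall t (Finset.ne_of_mem_erase ht))
    have s2 : (univ.erase i : Finset (Fin r)).card = r - 1 := by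
      rw [Finset.card_erase_of_mem (Finset.mem_univ i), Finset.card_univ, Fintype.card_fin]
    have s3 : ∑ t ∈ univ.erase i, (nbn G f w t + 1)
        = ∑ t ∈ univ.erase i, nbn G f w t + (r - 1) := by
      rw [Finset.sum_add_distrib, Finset.sum_const, s2, smul_eq_mul, mul_one]
    have s4 : ∑ t ∈ univ.erase i, nbn G f w t ≤ ∑ t, nbn G f w t :=
      Finset.sum_le_sum_of_subset (Finset.erase_subset _ _)
    rw [s2, smul_eq_mul, s3] at s1
    exact num2 hr hD hmn (by omega) hn2r
  -- relocation of the exception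
  have hex := h3 n (by omega) D hD V G f w u v i hMx hTh hBal hsum
  obtain ⟨G2, v2, hMx2, hTh2, hadj, hw⟩ :=
    hRLC r n D V G f w u v i k hr (by omega) hMx hTh hBal hex hki (by omega)
  have hnb2 : ∀ t, nbn G2 f w t = nbn G f w t := fun t => nbn_congr (fun y _ => hw y)
  have fw : f w = none := (hTh2.ty.out w).2 (Or.inl rfl)
  have fu : f u = none := (hTh2.ty.out u).2 (Or.inr rfl)
  have hwu : w ≠ u := hTh2.ty.ne
  -- the sets `M` and `M'`
  obtain ⟨M, hM⟩ : ∃ M : Finset V, ∀ y, y ∈ M ↔ f y = some k ∧ G2.Adj w y :=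
    ⟨univ.filter (fun y => f y = some k ∧ G2.Adj w y), by intro y; simp⟩
  obtain ⟨Ci, hCi⟩ : ∃ M : Finset V, ∀ y, y ∈ M ↔ f y = some i :=
    ⟨univ.filter (fun y => f y = some i), by intro y; simp⟩
  have hMc : nbn G2 f w k = M.card := by
    unfold nbn
    rw [← Set.ncard_coe_finset M]
    congr 1
    ext y
    exact (hM y).symm
  have hCc : siz f i = Ci.card := by
    unfold siz
    rw [← Set.ncard_coe_finset Ci]
    congr 1
    ext y
    exact (hCi y).symm
  have hMle : M.card < Ci.card := by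
    rw [← hMc, ← hCc, hnb2]; omega
  obtain ⟨M', hM's, hM'c⟩ := Finset.exists_subset_card_eq hMle.le
  obtain ⟨y', hy'C, hy'M⟩ := Finset.exists_mem_notMem_of_card_lt_card (hM'c ▸ hMle)
  have hM'i : ∀ y ∈ M', f y = some i := fun y hy => (hCi y).1 (hM's hy)
  have fy' : f y' = some i := (hCi y').1 hy'C
  have hMne : M.Nonempty := by
    rw [← Finset.card_pos, ← hMc]
    exact hTh2.pos k hki
  have wi0 : ∀ y, f y = some i → ¬ G2.Adj w y := by
    intro y hy hadjy
    have h0 := hTh2.ni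
    unfold nbn at h0
    rw [Set.ncard_eq_zero (Set.toFinite _)] at h0
    have : y ∈ {v | f v = some i ∧ G2.Adj w v} := ⟨hy, hadjy⟩
    rw [h0] at this
    exact this
  have ui0 : ∀ y, f y = some i → ¬ G2.Adj u y := by
    intro y hy h
    obtain ⟨t, ht, rfl⟩ := (hTh2.ty.un y (by simp [hy])).1 h
    have := hTh2.ty.hv t ht
    rw [this] at hy
    exact ht (Option.some.inj hy)
  have fvk : f (v2 k) = some k := hTh2.ty.hv k hki
  have nwvk : ¬ G2.Adj w (v2 k) := fun h => (hadj k hki).1 h rfl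
  have uM0 : ∀ y ∈ M, ¬ G2.Adj u y := by
    intro y hy h
    have hy1 := (hM y).1 hy
    obtain ⟨t, ht, rfl⟩ := (hTh2.ty.un y (by simp [hy1.1])).1 h
    have h6 := hTh2.ty.hv t ht
    have h7 : t = k := by
      have := hy1.1
      rw [h6] at this
      exact Option.some.inj this
    subst h7
    exact nwvk hy1.2
  have hwM : w ∉ M := by
    intro h; have := ((hM w).1 h).1; rw [fw] at this; cases this
  have hwM' : w ∉ M' := by
    intro h; have := hM'i w h; rw [fw] at this; cases this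
  have huM : u ∉ M := by
    intro h; have := ((hM u).1 h).1; rw [fu] at this; cases this
  have huM' : u ∉ M' := by
    intro h; have := hM'i u h; rw [fu] at this; cases this
  obtain ⟨G3, hG3⟩ : ∃ G3, G3 = g3 G2 w M M' hwM' := ⟨_, rfl⟩
  have hG3w : ∀ y, y ≠ w → (G3.Adj w y ↔ (G2.Adj w y ∧ y ∉ M) ∨ y ∈ M') := by
    intro y hy
    rw [hG3]
    change ((G2.Adj w y ∧ ¬ (w = w ∧ y ∈ M) ∧ ¬ (y = w ∧ w ∈ M)) ∨ (w = w ∧ y ∈ M') ∨
      (y = w ∧ w ∈ M')) ↔ _
    constructor
    · rintro (⟨a, b, c⟩ | ⟨a, b⟩ | ⟨a, b⟩)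
      · exact Or.inl ⟨a, fun h => b ⟨rfl, h⟩⟩
      · exact Or.inr b
      · exact absurd a hy
    · rintro (⟨a, b⟩ | a)
      · exact Or.inl ⟨a, fun h => b h.2, fun h => hy h.1⟩
      · exact Or.inr (Or.inl ⟨rfl, a⟩)
  have hG3o : ∀ a b, a ≠ w → b ≠ w → (G3.Adj a b ↔ G2.Adj a b) := by
    intro a b ha hb
    rw [hG3]
    change ((G2.Adj a b ∧ ¬ (a = w ∧ b ∈ M) ∧ ¬ (b = w ∧ a ∈ M)) ∨ (a = w ∧ b ∈ M') ∨
      (b = w ∧ a ∈ M')) ↔ _
    constructor
    · rintro (⟨c, _, _⟩ | ⟨c, _⟩ | ⟨c, _⟩)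
      · exact c
      · exact absurd c ha
      · exact absurd c hb
    · intro c
      exact Or.inl ⟨c, fun h => ha h.1, fun h => hb h.1⟩
  have newn : ∀ y, f y ≠ none → y ≠ w := by
    rintro y hy rfl; exact hy fw
  have neun : ∀ y, f y ≠ none → y ≠ u := by
    rintro y hy rfl; exact hy fu
  have hTy3 : Ty2 G3 f w u v2 i := by
    refine ⟨hTh2.ty.out, hwu, ?_, ?_, hTh2.ty.hv, ?_⟩
    · intro x y hx hy
      rw [hG3o x y (newn x hx) (newn y hy)]
      exact hTh2.ty.core x y hx hy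
    · apply SimpleGraph.Adj.symm
      rw [hG3w u hwu.symm]
      exact Or.inl ⟨hTh2.ty.uw.symm, huM⟩
    · intro y hy
      rw [hG3o u y hwu.symm (newn y hy)]
      exact hTh2.ty.un y hy
  -- the sums
  have hsum2 : ∑ t, nbn G2 f w t + r = D := by
    rw [← hsum]
    congr 1
    exact Finset.sum_congr rfl (fun t _ => hnb2 t)
  have hN2 := num1 hr hε hD _ hsum2 hnR
  have hne3 : ∀ t, nbn G3 f w t = nbn G2 f w (Equiv.swap i k t) := by
    intro t
    by_cases hti : t = i
    · subst hti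
      rw [Equiv.swap_apply_left, hMc, ← hM'c]
      unfold nbn
      rw [← Set.ncard_coe_finset M']
      congr 1
      ext y
      simp only [Set.mem_ofPred_eq, Finset.mem_coe]
      constructor
      · rintro ⟨a, b⟩
        rw [hG3w y (newn y (by simp [a]))] at b
        rcases b with b | b
        · exact absurd b.1 (wi0 y a)
        · exact b
      · intro a
        refine ⟨hM'i y a, ?_⟩
        rw [hG3w y (newn y (by simp [hM'i y a]))]
        exact Or.inr a
    · by_cases htk : t = k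
      · subst htk
        rw [Equiv.swap_apply_right, hTh2.ni]
        unfold nbn
        rw [Set.ncard_eq_zero (Set.toFinite _)]
        ext y
        simp only [Set.mem_ofPred_eq, Set.mem_empty_iff_false, iff_false]
        rintro ⟨a, b⟩
        rw [hG3w y (newn y (by simp [a]))] at b
        rcases b with b | b
        · exact b.2 ((hM y).2 ⟨a, b.1⟩)
        · have := hM'i y b
          rw [a] at this
          exact hki (Option.some.inj this)
      · rw [Equiv.swap_apply_of_ne_of_ne hti htk]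
        apply nbn_congr
        intro y hy
        rw [hG3w y (newn y (by simp [hy]))]
        constructor
        · rintro (b | b)
          · exact b.1
          · have := hM'i y b
            rw [hy] at this
            exact absurd (Option.some.inj this) hti
        · intro b
          refine Or.inl ⟨b, fun h => ?_⟩
          have := ((hM y).1 h).1
          rw [hy] at this
          exact htk (Option.some.inj this)
  have hS3 : ∑ t, nbn G3 f w t = ∑ t, nbn G2 f w t := by
    rw [Finset.sum_congr rfl (fun t _ => hne3 t)]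
    exact Equiv.sum_comp (Equiv.swap i k) (nbn G2 f w)
  have lam23 : lam G2 < lam G3 := by
    refine h1 V G2 G3 f w u v2 i k i M M' n (by omega) hTh2.ty hTy3 hBal ?_ ?_ hki hMne
      hM'c.symm ?_ ?_ ?_ (Or.inl (by omega))
    · exact_mod_cast hN2.1
    · exact_mod_cast hN2.2
    · intro y hy
      exact ⟨((hM y).1 hy).1, ((hM y).1 hy).2, uM0 y hy⟩
    · intro y hy
      exact ⟨hM'i y hy, wi0 y (hM'i y hy), ui0 y (hM'i y hy)⟩
    · intro y hy
      exact hG3w y (newn y hy)
  -- the second step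
  have hne : u ≠ y' := by
    rintro rfl; rw [fu] at fy'; cases fy'
  obtain ⟨G4, hG4⟩ : ∃ G4, G4 = g4 G3 u (v2 k) y' hne := ⟨_, rfl⟩
  have hG4a : ∀ x z, G4.Adj x z ↔ (G3.Adj x z ∧ s(x, z) ≠ s(u, v2 k)) ∨ s(x, z) = s(u, y') := by
    intro x z; rw [hG4]; exact Iff.rfl
  have nw3k : ¬ G3.Adj w (v2 k) := by
    rw [hG3w _ (newn _ (by simp [fvk]))]
    rintro (b | b)
    · exact nwvk b.1
    · have := hM'i _ b
      rw [fvk] at this
      exact hki (Option.some.inj this)
  have nw3y : ¬ G3.Adj w y' := by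
    rw [hG3w _ (newn _ (by simp [fy']))]
    rintro (b | b)
    · exact wi0 _ fy' b.1
    · exact hy'M b
  have lam34 : lam G3 < lam G4 := by
    refine h2 V G3 G4 f w u (v2 k) y' v2 i k i n (by omega) hTy3 hBal ?_ ?_ fvk fy' ?_ ?_ nw3k
      hG4a (Or.inr ⟨by omega, nw3y⟩)
    · rw [hS3]; exact_mod_cast hN2.1
    · rw [hS3]; exact_mod_cast hN2.2
    · rw [hTy3.un _ (by simp [fvk])]
      exact ⟨k, hki, rfl⟩
    · rw [hTy3.un _ (by simp [fy'])]
      rintro ⟨t, ht, h⟩
      have := hTh2.ty.hv t ht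
      rw [← h, fy'] at this
      exact ht (Option.some.inj this).symm
  have hG4w : ∀ y, f y ≠ none → (G4.Adj w y ↔ G3.Adj w y) := by
    intro y hy
    rw [hG4a]
    constructor
    · rintro (b | b)
      · exact b.1
      · exact absurd b (sne hwu (neun y hy))
    · intro b
      exact Or.inl ⟨b, sne hwu (neun y hy)⟩
  have hnb4 : ∀ t, nbn G4 f w t = nbn G3 f w t :=
    fun t => nbn_congr (fun y hy => hG4w y (by simp [hy]))
  have hup : ∀ t, t ≠ i → Function.update v2 i y' t = v2 t := fun t ht =>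
    Function.update_of_ne ht _ _
  have hTh4 : Th2 G4 f w u (Function.update v2 i y') k := by
    refine ⟨⟨hTh2.ty.out, hwu, ?_, ?_, ?_, ?_⟩, ?_, ?_, ?_⟩
    · intro x y hx hy
      rw [hG4a, ← hTy3.core x y hx hy]
      constructor
      · rintro (b | b)
        · exact b.1
        · exact absurd b (sne (neun x hx) (neun y hy))
      · intro b
        exact Or.inl ⟨b, sne (neun x hx) (neun y hy)⟩
    · rw [hG4a]
      refine Or.inl ⟨hTy3.uw, ?_⟩
      intro h
      rw [Sym2.eq_iff] at h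
      rcases h with ⟨_, h⟩ | ⟨h, _⟩
      · rw [h, fvk] at fw; cases fw
      · rw [h, fvk] at fu; cases fu
    · intro t ht
      by_cases hti : t = i
      · subst hti; simpa using fy'
      · rw [hup t hti]; exact hTh2.ty.hv t hti
    · intro y hy
      rw [hG4a]
      constructor
      · rintro (⟨b, c⟩ | b)
        · obtain ⟨t, ht, rfl⟩ := (hTy3.un y hy).1 b
          have htk : t ≠ k := by
            rintro rfl; exact c rfl
          exact ⟨t, htk, (hup t ht).symm⟩
        · have : y = y' := by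
            rw [Sym2.eq_iff] at b
            rcases b with ⟨_, b⟩ | ⟨b, _⟩
            · exact b
            · exact absurd b hne
          exact ⟨i, hki.symm, by simp [this]⟩
      · rintro ⟨t, ht, h⟩
        by_cases hti : t = i
        · subst hti
          have : y = y' := by simpa using h
          rw [this]
          exact Or.inr rfl
        · rw [hup t hti] at h
          subst h
          refine Or.inl ⟨(hTy3.un _ hy).2 ⟨t, hti, rfl⟩, ?_⟩
          intro h
          rw [Sym2.eq_iff] at h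
          have h6 := hTh2.ty.hv t hti
          rcases h with ⟨_, h⟩ | ⟨h, _⟩
          · rw [h, fvk] at h6
            exact ht (Option.some.inj h6).symm
          · rw [h, fvk] at fu; cases fu
    · rw [hnb4, hne3, Equiv.swap_apply_right]
      exact hTh2.ni
    · intro t ht
      rw [hnb4, hne3]
      by_cases hti : t = i
      · subst hti
        rw [Equiv.swap_apply_left]
        exact hTh2.pos k hki
      · rw [Equiv.swap_apply_of_ne_of_ne hti ht]
        exact hTh2.pos t hti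
    · refine ⟨i, hki.symm, ?_⟩
      rw [Function.update_self, hG4w _ (by simp [fy'])]
      exact nw3y
  -- conclusion
  have hsz : ∀ t, 1 ≤ siz f t := fun t => by have := hB t; omega
  obtain ⟨_, _, _, e2⟩ := hMEM r V G2 f w u v2 i hr hTh2 hsz
  obtain ⟨fr4, nc4, ni4, e4⟩ := hMEM r V G4 f w u _ k hr hTh4 hsz
  have hS4 : ∑ t, nbn G4 f w t = ∑ t, nbn G2 f w t := by
    rw [Finset.sum_congr rfl (fun t _ => hnb4 t)]
    exact hS3
  have hedge : G4.edgeSet.ncard = G2.edgeSet.ncard := by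
    rw [hS4] at e4
    omega
  have hIn : InN r ((SimpleGraph.turanGraph n r).edgeSet.ncard + D)
      (⊤ : SimpleGraph (Fin (r + 1))) G4 :=
    ⟨fr4, hedge.trans hMx2.1.size, ni4, nc4⟩
  have := hMx2.2 V G4 hIn
  linarith

end MP0c3a8f
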