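import Pool.Agent.Work.MP_0c3a8f_co.PB.Stmts3

/-!
# MP_0c3a8f_co, phase B, third part: item PICK (the choice of the two classes, local optimality)
-/

set_option autoImplicit false

open Finset

namespace MP0c3a8f

namespace PICK

variable {r : ℕ} {V : Type}

/-- replace the neighbours `M` of `w` by `M'` -/
def mv (G : SimpleGraph V) (w : V) (M M' : Finset V) (h : w ∉ M') : SimpleGraph V where
  Adj a b := (G.Adj a b ∧ ¬ (a = w ∧ b ∈ M) ∧ ¬ (b = w ∧ a ∈ M)) ∨
    (a = w ∧ b ∈ M') ∨ (b = w ∧ a ∈ M')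
  symm := ⟨fun a b hab => by
    rcases hab with hab | hab | hab
    · exact Or.inl ⟨hab.1.symm, hab.2.2, hab.2.1⟩
    · exact Or.inr (Or.inr hab)
    · exact Or.inr (Or.inl hab)⟩
  loopless := ⟨fun a ha => by
    rcases ha with ha | ⟨ha, hb⟩ | ⟨ha, hb⟩
    · exact G.loopless.irrefl a ha.1
    · exact h (ha ▸ hb)
    · exact h (ha ▸ hb)⟩

theorem mv_adj_w (G : SimpleGraph V) (w : V) (M M' : Finset V) (h : w ∉ M') (hM : w ∉ M)
    (z : V) : (mv G w M M' h).Adj w z ↔ (G.Adj w z ∧ z ∉ M) ∨ z ∈ M' := by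
  change ((G.Adj w z ∧ ¬ (w = w ∧ z ∈ M) ∧ ¬ (z = w ∧ w ∈ M)) ∨
    (w = w ∧ z ∈ M') ∨ (z = w ∧ w ∈ M')) ↔ _
  constructor
  · rintro (⟨h1, h2, h3⟩ | ⟨h1, h2⟩ | ⟨h1, h2⟩)
    · exact Or.inl ⟨h1, fun h4 => h2 ⟨rfl, h4⟩⟩
    · exact Or.inr h2
    · exact absurd h2 h
  · rintro (⟨h1, h2⟩ | h1)
    · exact Or.inl ⟨h1, fun h3 => h2 h3.2, fun h3 => hM h3.2⟩
    · exact Or.inr (Or.inl ⟨rfl, h1⟩)

theorem mv_adj_ne (G : SimpleGraph V) (w : V) (M M' : Finset V) (h : w ∉ M') (a b : V)
    (ha : a ≠ w) (hb : b ≠ w) : (mv G w M M' h).Adj a b ↔ G.Adj a b := by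
  change ((G.Adj a b ∧ ¬ (a = w ∧ b ∈ M) ∧ ¬ (b = w ∧ a ∈ M)) ∨
    (a = w ∧ b ∈ M') ∨ (b = w ∧ a ∈ M')) ↔ _
  constructor
  · rintro (⟨h1, h2, h3⟩ | ⟨h1, h2⟩ | ⟨h1, h2⟩)
    · exact h1
    · exact absurd h1 ha
    · exact absurd h1 hb
  · intro h1
    exact Or.inl ⟨h1, fun h3 => ha h3.1, fun h3 => hb h3.1⟩

theorem nbn_le [Fintype V] (G : SimpleGraph V) (f : V → Option (Fin r)) (w : V) (t : Fin r) :
    nbn G f w t ≤ siz f t :=
  Set.ncard_le_ncard (fun _ hv => hv.1) (Set.toFinite _)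

/-- one step: the neighbours of `w` cannot be moved such that two classes have less than `s` -/
theorem step [Fintype V] {W : Type} [Fintype W] {F : SimpleGraph W} {s s₁ n D : ℕ}
    {G : SimpleGraph V} {f : V → Option (Fin r)} {w : V} (hMEMZ : MEMZ_statement)
    (hr : 3 ≤ r) (hFs : Fs r s s₁ F)
    (hMV : ∀ (G' : SimpleGraph V) (k l : Fin r) (M M' : Finset V), Ty0 G' f w →
      k ≠ l → M.Nonempty → M.card = M'.card →
      (∀ y ∈ M, f y = some k ∧ G.Adj w y) →
      (∀ y ∈ M', f y = some l ∧ ¬ G.Adj w y) →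
      (∀ y, G'.Adj w y ↔ (G.Adj w y ∧ y ∉ M) ∨ y ∈ M') →
      (siz f k = siz f l + 1 ∨ (siz f k = siz f l ∧
        nbn G f w l + 2 * M.card ≤ nbn G f w k)) → lam G < lam G')
    (hMx : MxF r n D F G) (hT : Ty0 G f w) (hsz : ∀ t, 1 ≤ siz f t)
    (hpos : ∀ t, 1 ≤ nbn G f w t) {k l : Fin r} (hkl : k ≠ l) (c : ℕ) (hc1 : 1 ≤ c)
    (hck : c < nbn G f w k) (hcl : nbn G f w l + c ≤ siz f l)
    (hcond : siz f k = siz f l + 1 ∨ (siz f k = siz f l ∧
      nbn G f w l + 2 * c ≤ nbn G f w k)) (i j : Fin r) (hij : i ≠ j)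
    (hi : (if i = k then nbn G f w k - c else if i = l then nbn G f w l + c
      else nbn G f w i) < s)
    (hj : (if j = k then nbn G f w k - c else if j = l then nbn G f w l + c
      else nbn G f w j) < s) : False := by
  classical
  have hfw : f w = none := (hT.out w).2 rfl
  have hne : ∀ v, f v ≠ none → v ≠ w := fun v hv e => hv (e ▸ hfw)
  -- the sets `M` and `M'`
  obtain ⟨M, hM, hMc⟩ : ∃ M : Finset V, (∀ y ∈ M, f y = some k ∧ G.Adj w y) ∧ M.card = c := by
    have h1 : c ≤ {v | f v = some k ∧ G.Adj w v}.toFinset.card := by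
      rw [← Set.ncard_eq_toFinset_card']
      exact hck.le
    obtain ⟨M, h2, h3⟩ := Finset.exists_subset_card_eq h1
    refine ⟨M, fun y hy => ?_, h3⟩
    have := h2 hy
    rw [Set.mem_toFinset] at this
    exact this
  obtain ⟨M', hM', hMc'⟩ : ∃ M : Finset V, (∀ y ∈ M, f y = some l ∧ ¬ G.Adj w y) ∧
      M.card = c := by
    have h0 : {v | f v = some l ∧ G.Adj w v}.ncard + {v | f v = some l ∧ ¬ G.Adj w v}.ncard
        = siz f l := by
      unfold siz
      rw [← Set.ncard_union_eq _ (Set.toFinite _) (Set.toFinite _)]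
      · congr 1
        ext v
        simp only [Set.mem_union, Set.mem_ofPred_eq]
        tauto
      · rw [Set.disjoint_left]
        rintro v ⟨_, h1⟩ ⟨_, h2⟩
        exact h2 h1
    have h1 : c ≤ {v | f v = some l ∧ ¬ G.Adj w v}.toFinset.card := by
      rw [← Set.ncard_eq_toFinset_card']
      unfold nbn at hcl
      omega
    obtain ⟨M, h2, h3⟩ := Finset.exists_subset_card_eq h1
    refine ⟨M, fun y hy => ?_, h3⟩
    have := h2 hy
    rw [Set.mem_toFinset] at this
    exact this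
  have hwM : w ∉ M := fun h => by
    have := (hM w h).1
    rw [hfw] at this
    exact absurd this (by simp)
  have hwM' : w ∉ M' := fun h => by
    have := (hM' w h).1
    rw [hfw] at this
    exact absurd this (by simp)
  set G' := mv G w M M' hwM' with hG'
  have hadj : ∀ z, G'.Adj w z ↔ (G.Adj w z ∧ z ∉ M) ∨ z ∈ M' := mv_adj_w G w M M' hwM' hwM
  have hTy : Ty0 G' f w := by
    refine ⟨hT.out, ?_⟩
    intro a b ha hb
    rw [hG', mv_adj_ne G w M M' hwM' a b (hne a ha) (hne b hb)]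
    exact hT.core a b ha hb
  clear_value G'
  -- the numbers of neighbours
  have hnk : nbn G' f w k + c = nbn G f w k := by
    have h1 : {v | f v = some k ∧ G'.Adj w v} = {v | f v = some k ∧ G.Adj w v} \ (M : Set V) := by
      ext v
      simp only [Set.mem_ofPred_eq, Set.mem_sdiff, Finset.mem_coe, hadj]
      constructor
      · rintro ⟨h1, h3 | h3⟩
        · exact ⟨⟨h1, h3.1⟩, h3.2⟩
        · have := (hM' v h3).1
          rw [h1] at this
          exact absurd (Option.some_injective _ this) hkl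
      · rintro ⟨⟨h1, h3⟩, h4⟩
        exact ⟨h1, Or.inl ⟨h3, h4⟩⟩
    have hsub : (M : Set V) ⊆ {v | f v = some k ∧ G.Adj w v} := fun v hv => hM v hv
    unfold nbn
    rw [h1, Set.ncard_sdiff hsub, Set.ncard_coe_finset, hMc]
    unfold nbn at hck
    omega
  have hnl : nbn G' f w l = nbn G f w l + c := by
    have h1 : {v | f v = some l ∧ G'.Adj w v} = {v | f v = some l ∧ G.Adj w v} ∪ (M' : Set V) := by
      ext v
      simp only [Set.mem_ofPred_eq, Set.mem_union, Finset.mem_coe, hadj]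
      constructor
      · rintro ⟨h1, h3 | h3⟩
        · exact Or.inl ⟨h1, h3.1⟩
        · exact Or.inr h3
      · rintro (⟨h1, h3⟩ | h1)
        · refine ⟨h1, Or.inl ⟨h3, ?_⟩⟩
          intro h4
          have := (hM v h4).1
          rw [h1] at this
          exact hkl (Option.some_injective _ this).symm
        · exact ⟨(hM' v h1).1, Or.inr h1⟩
    unfold nbn
    rw [h1, Set.ncard_union_eq _ (Set.toFinite _) (Set.toFinite _), Set.ncard_coe_finset, hMc']
    rw [Set.disjoint_left]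
    rintro v ⟨_, h3⟩ h4
    exact (hM' v h4).2 h3
  have hno : ∀ t, t ≠ k → t ≠ l → nbn G' f w t = nbn G f w t := by
    intro t htk htl
    have h1 : {v | f v = some t ∧ G'.Adj w v} = {v | f v = some t ∧ G.Adj w v} := by
      ext v
      simp only [Set.mem_ofPred_eq, hadj]
      constructor
      · rintro ⟨h1, h3 | h3⟩
        · exact ⟨h1, h3.1⟩
        · have := (hM' v h3).1
          rw [h1] at this
          exact absurd (Option.some_injective _ this) htl
      · rintro ⟨h1, h3⟩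
        refine ⟨h1, Or.inl ⟨h3, ?_⟩⟩
        intro h4
        have := (hM v h4).1
        rw [h1] at this
        exact htk (Option.some_injective _ this)
    unfold nbn
    rw [h1]
  have hval : ∀ t, nbn G' f w t = if t = k then nbn G f w k - c else
      if t = l then nbn G f w l + c else nbn G f w t := by
    intro t
    split_ifs with h1 h2
    · rw [h1]; omega
    · rw [h2]; exact hnl
    · exact hno t h1 h2
  have hsum : ∑ t, nbn G' f w t = ∑ t, nbn G f w t := by
    have hlk : l ∈ (univ : Finset (Fin r)).erase k := mem_erase.2 ⟨hkl.symm, mem_univ l⟩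
    rw [← add_sum_erase univ (fun t => nbn G' f w t) (mem_univ k),
      ← add_sum_erase univ (fun t => nbn G f w t) (mem_univ k),
      ← add_sum_erase _ (fun t => nbn G' f w t) hlk, ← add_sum_erase _ (fun t => nbn G f w t) hlk]
    have : ∑ t ∈ (univ.erase k).erase l, nbn G' f w t
        = ∑ t ∈ (univ.erase k).erase l, nbn G f w t := by
      apply sum_congr rfl
      intro t ht
      rw [mem_erase, mem_erase] at ht
      exact hno t ht.2.1 ht.1
    rw [this]
    omega
  have hpos' : ∀ t, 1 ≤ nbn G' f w t := by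
    intro t
    rw [hval t]
    have := hpos t
    split_ifs <;> omega
  obtain ⟨_, _, e1⟩ := hMEMZ r V G f w hr hT hsz
  obtain ⟨m1, m2, e2⟩ := hMEMZ r V G' f w hr hTy hsz
  rw [hsum] at e2
  have he : G'.edgeSet.ncard = G.edgeSet.ncard := by omega
  have hnc : ¬ G'.Colorable r := by
    rw [m1]
    rintro ⟨t, ht⟩
    have := hpos' t
    omega
  have hsum1 : 1 ≤ ∑ t, nbn G' f w t :=
    (hpos' k).trans (Finset.single_le_sum (f := fun t => nbn G' f w t)
      (fun t _ => Nat.zero_le _) (mem_univ k))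
  have hfree : F.Free G' := hFs.free V G' f w i j hij hTy (by rw [hval]; exact hi)
    (by rw [hval]; exact hj)
  have hIn : InN r ((SimpleGraph.turanGraph n r).edgeSet.ncard + D) F G' :=
    ⟨hfree, by rw [he]; exact hMx.1.size, m2 hsum1, hnc⟩
  have hle := hMx.2 V G' hIn
  have hlt := hMV G' k l M M' hTy hkl (Finset.card_pos.mp (by omega)) (by rw [hMc, hMc'])
    hM hM' hadj (by rw [hMc]; exact hcond)
  exact absurd hle (not_le.2 hlt)

end PICK

theorem prfPICK : P_statement → MV0_statement → MEMZ_statement → PICK_statement := by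
  intro _ hMV0 hMEMZ W _ F r s s₁ ε hr hs2 hFs hε
  classical
  have hr0 : (0 : ℝ) < r := by
    have : 0 < r := by omega
    exact_mod_cast this
  have hr3 : (3 : ℝ) ≤ r := by exact_mod_cast hr
  have hq : 0 < qq r := by
    unfold qq
    have : 1 / (r : ℝ) < 1 := by rw [div_lt_one hr0]; linarith
    linarith
  obtain ⟨n₁, hn₁⟩ := hMV0 r (ε * qq r) hr (by positivity)
  refine ⟨n₁ + r * (s₁ + 1) + 2 * r ^ 2 + 1, ?_⟩
  intro n hn D hR V _ G f w hMx hT hB hsumD hpos
  have hrr : r * (s₁ + 1) ≤ n := by omega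
  have hdiv : s₁ + 1 ≤ n / r := by
    rw [Nat.le_div_iff_mul_le (by omega)]
    rw [mul_comm]
    exact hrr
  have hn0 : (0 : ℝ) ≤ n := Nat.cast_nonneg n
  have hsz : ∀ t, 1 ≤ siz f t := fun t => le_trans (by omega) (hB.1 t).1
  have hD1 : ε * qq r * n ≤ ((∑ t, nbn G f w t : ℕ) : ℝ) := by
    rw [hsumD]
    have := hR.1
    linarith
  have hD3 : (D : ℝ) ≤ (1 - 2 / (r : ℝ)) * (qq r * n) := by
    have h1 := hR.2
    have h2 : (1 - 2 / (r : ℝ) - ε) * (qq r * n) ≤ (1 - 2 / (r : ℝ)) * (qq r * n) := by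
      apply mul_le_mul_of_nonneg_right _ (by positivity)
      linarith
    linarith
  have hD2 : ((∑ t, nbn G f w t : ℕ) : ℝ) ≤ (1 - 2 / (r : ℝ)) * (qq r * n) + 1 := by
    rw [hsumD]
    linarith
  have hmv : ∀ (G' : SimpleGraph V) (k l : Fin r) (M M' : Finset V), Ty0 G' f w →
      k ≠ l → M.Nonempty → M.card = M'.card →
      (∀ y ∈ M, f y = some k ∧ G.Adj w y) →
      (∀ y ∈ M', f y = some l ∧ ¬ G.Adj w y) →
      (∀ y, G'.Adj w y ↔ (G.Adj w y ∧ y ∉ M) ∨ y ∈ M') →
      (siz f k = siz f l + 1 ∨ (siz f k = siz f l ∧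
        nbn G f w l + 2 * M.card ≤ nbn G f w k)) → lam G < lam G' :=
    fun G' k l M M' hTy hkl hM hMM h1 h2 h3 h4 =>
      hn₁ V G G' f w k l M M' n (by omega) hT hTy hB hD1 hD2 hkl hM hMM h1 h2 h3 h4
  have hle : ∀ t, nbn G f w t ≤ siz f t := PICK.nbn_le G f w
  have key : ∀ (k l : Fin r), k ≠ l → ∀ c : ℕ, 1 ≤ c → c < nbn G f w k →
      nbn G f w l + c ≤ siz f l → (siz f k = siz f l + 1 ∨ (siz f k = siz f l ∧
      nbn G f w l + 2 * c ≤ nbn G f w k)) → ∀ i j : Fin r, i ≠ j →
      (if i = k then nbn G f w k - c else if i = l then nbn G f w l + c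
        else nbn G f w i) < s →
      (if j = k then nbn G f w k - c else if j = l then nbn G f w l + c
        else nbn G f w j) < s → False :=
    fun k l hkl c h1 h2 h3 h4 i j hij h5 h6 =>
      PICK.step hMEMZ hr hFs hmv hMx hT hsz hpos hkl c h1 h2 h3 h4 i j hij h5 h6
  -- the two classes
  obtain ⟨i₀, j₀, hij₀, hi₀, hj₀⟩ := hFs.cont V G f w hT
    (fun t => le_trans (by omega) (hB.1 t).1) hpos hMx.1.free
  set S : Finset (Fin r) := univ.filter fun t => nbn G f w t < s with hS
  have hi₀S : i₀ ∈ S := by rw [hS, mem_filter]; exact ⟨mem_univ _, hi₀⟩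
  have hj₀S : j₀ ∈ S := by rw [hS, mem_filter]; exact ⟨mem_univ _, hj₀⟩
  obtain ⟨i, hiS, himax⟩ := Finset.exists_max_image S (fun t => siz f t) ⟨i₀, hi₀S⟩
  have hne : (S.erase i).Nonempty := by
    by_cases h : i = i₀
    · exact ⟨j₀, mem_erase.2 ⟨fun h1 => hij₀ (by rw [h1, h]), hj₀S⟩⟩
    · exact ⟨i₀, mem_erase.2 ⟨fun h1 => h h1.symm, hi₀S⟩⟩
  obtain ⟨j, hjS, hjmax⟩ := Finset.exists_max_image (S.erase i) (fun t => siz f t) hne
  have hij : i ≠ j := (mem_erase.1 hjS).1.symm
  have hjS' : j ∈ S := (mem_erase.1 hjS).2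
  have hsi : nbn G f w i < s := by
    have := hiS
    rw [hS, mem_filter] at this
    exact this.2
  have hsj : nbn G f w j < s := by
    have := hjS'
    rw [hS, mem_filter] at this
    exact this.2
  -- local optimality
  have hloc : ∀ k l : Fin r, k ≠ l → (l ≠ i ∧ l ≠ j ∨ nbn G f w l + 1 < s) →
      1 < nbn G f w k → nbn G f w l + 1 ≤ siz f l → (siz f k = siz f l + 1 ∨
      (siz f k = siz f l ∧ nbn G f w l + 2 * 1 ≤ nbn G f w k)) → False := by
    intro k l hkl hl h1 h2 h3
    refine key k l hkl 1 le_rfl h1 h2 h3 i j hij ?_ ?_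
    · split_ifs with h4 h5
      · rw [← h4]; omega
      · rcases hl with hl | hl
        · exact absurd h5.symm hl.1
        · exact hl
      · exact hsi
    · split_ifs with h4 h5
      · rw [← h4]; omega
      · rcases hl with hl | hl
        · exact absurd h5.symm hl.2
        · exact hl
      · exact hsj
  have heven : ∀ k l, (l ≠ i ∧ l ≠ j ∨ nbn G f w l + 1 < s) → siz f k = siz f l →
      nbn G f w k ≤ nbn G f w l + 1 := by
    intro k l hl hkl
    by_contra hcon
    push Not at hcon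
    have hk := hle k
    have hne : k ≠ l := by rintro rfl; omega
    have hpl := hpos l
    exact hloc k l hne hl (by omega) (by omega) (Or.inr ⟨hkl, by omega⟩)
  have hgreedy : ∀ k l, (l ≠ i ∧ l ≠ j ∨ nbn G f w l + 1 < s) → siz f k = siz f l + 1 →
      2 ≤ nbn G f w k → nbn G f w l = siz f l := by
    intro k l hl hkl h2
    by_contra hcon
    have hll := hle l
    have hne : k ≠ l := by rintro rfl; omega
    exact hloc k l hne hl (by omega) (by omega) (Or.inl hkl)
  refine ⟨i, j, hij, hsi, hsj, himax j hjS', ?_, heven, hgreedy⟩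
  -- the sizes
  intro k hki hkj
  by_contra hcon
  push Not at hcon
  have hBk := hB.1 k
  have hBj := hB.1 j
  have hkS : ¬ nbn G f w k < s := by
    intro h
    have h1 : k ∈ S.erase i := mem_erase.2 ⟨hki, by rw [hS, mem_filter]; exact ⟨mem_univ _, h⟩⟩
    exact absurd (hjmax k h1) (not_le.2 hcon)
  have hfull : nbn G f w k < siz f k := by
    by_contra hfull
    have hk1 : nbn G f w k = siz f k := le_antisymm (hle k) (not_lt.1 hfull)
    have hall : ∀ l, l ≠ i → l ≠ j → n / r ≤ nbn G f w l + 1 := by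
      intro l hli hlj
      have hBl := hB.1 l
      by_cases h1 : siz f k = siz f l
      · have := heven k l (Or.inl ⟨hli, hlj⟩) h1
        omega
      · have := hgreedy k l (Or.inl ⟨hli, hlj⟩) (by omega) (by omega)
        omega
    -- summation
    have hdivr : (n : ℝ) / r - 1 ≤ ((n / r : ℕ) : ℝ) := by
      have h1 : n < r * (n / r + 1) := by
        have := Nat.lt_mul_div_succ n (show 0 < r by omega)
        simpa using this
      have h2 : (n : ℝ) < r * ((n / r : ℕ) + 1) := by exact_mod_cast h1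
      rw [sub_le_iff_le_add, div_le_iff₀ hr0]
      linarith
    have hsum : ((r : ℝ) - 2) * ((n : ℝ) / r - 2) ≤ ((∑ t, nbn G f w t : ℕ) : ℝ) := by
      have hji : j ∈ (univ : Finset (Fin r)).erase i := mem_erase.2 ⟨hij.symm, mem_univ j⟩
      have hcard : (((univ : Finset (Fin r)).erase i).erase j).card = r - 2 := by
        rw [card_erase_of_mem hji, card_erase_of_mem (mem_univ i), card_univ, Fintype.card_fin]
        omega
      have h1 : ∑ t ∈ (univ.erase i).erase j, ((n : ℝ) / r - 2)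
          ≤ ∑ t ∈ (univ.erase i).erase j, (nbn G f w t : ℝ) := by
        apply sum_le_sum
        intro t ht
        rw [mem_erase, mem_erase] at ht
        have := hall t ht.2.1 ht.1
        have h3 : ((n / r : ℕ) : ℝ) ≤ nbn G f w t + 1 := by exact_mod_cast this
        linarith
      rw [sum_const, hcard, nsmul_eq_mul] at h1
      have h2 : ∑ t ∈ (univ.erase i).erase j, (nbn G f w t : ℝ) ≤ ∑ t, (nbn G f w t : ℝ) := by
        apply sum_le_sum_of_subset_of_nonneg
        · intro t _; exact mem_univ t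
        · intro t _ _; exact Nat.cast_nonneg _
      have h3 : ((r - 2 : ℕ) : ℝ) = (r : ℝ) - 2 := by
        rw [Nat.cast_sub (by omega)]; norm_num
      rw [h3] at h1
      push_cast
      linarith
    rw [hsumD] at hsum
    have hn4 : (2 : ℝ) * r ^ 2 + 1 ≤ n := by
      have : 2 * r ^ 2 + 1 ≤ n := by omega
      exact_mod_cast this
    have h1 : ((r : ℝ) - 2) * ((n : ℝ) / r - 2) ≤ (1 - 2 / (r : ℝ)) * (qq r * n) :=
      hsum.trans hD3
    have h2 : (1 - 2 / (r : ℝ)) * (qq r * n) = ((r : ℝ) - 2) * (n / r - n / r ^ 2) := by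
      unfold qq
      field_simp
    rw [h2] at h1
    have h3 : (n : ℝ) / r - 2 ≤ n / r - n / r ^ 2 :=
      le_of_mul_le_mul_left h1 (by linarith)
    have h4 : (n : ℝ) / r ^ 2 ≤ 2 := by linarith
    rw [div_le_iff₀ (by positivity)] at h4
    linarith
  have hpj := hpos j
  refine key k j hkj (nbn G f w k - nbn G f w j) (by omega) (by omega) (by omega)
    (Or.inl (by omega)) i k hki.symm ?_ ?_
  · rw [if_neg hki.symm, if_neg hij]
    exact hsi
  · rw [if_pos rfl]
    omega

end MP0c3a8f
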