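import Pool.Agent.Work.MP_0c3a8f_co.PB.Stmts

/-! Item RLC2: relocation of the exception, graphs of type two. -/

set_option autoImplicit false

open Finset

namespace MP0c3a8f

namespace ItemRLC2

/-- the neighbours of `u` -/
def P {V : Type} {r : ℕ} (w : V) (v : Fin r → V) (i : Fin r) (y : V) : Prop :=
  y = w ∨ ∃ t, t ≠ i ∧ y = v t

/-- the graph with the edges of `u` replaced -/
def rep {V : Type} {r : ℕ} (G : SimpleGraph V) (w u : V) (v : Fin r → V) (i : Fin r)
    (hu : ¬ P w v i u) : SimpleGraph V where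
  Adj x y := (x ≠ u ∧ y ≠ u ∧ G.Adj x y) ∨ (x = u ∧ P w v i y) ∨ (y = u ∧ P w v i x)
  symm := ⟨fun x y h => by
    rcases h with h | h | h
    · exact Or.inl ⟨h.2.1, h.1, h.2.2.symm⟩
    · exact Or.inr (Or.inr h)
    · exact Or.inr (Or.inl h)⟩
  loopless := ⟨fun x h => by
    rcases h with h | h | h
    · exact G.loopless.irrefl x h.2.2
    · exact hu (h.1 ▸ h.2)
    · exact hu (h.1 ▸ h.2)⟩

section

variable {V : Type} {r : ℕ} {G : SimpleGraph V} {w u : V} {v : Fin r → V} {i : Fin r}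
  {hu : ¬ P w v i u}

lemma adj_of_ne {x y : V} (hx : x ≠ u) (hy : y ≠ u) :
    (rep G w u v i hu).Adj x y ↔ G.Adj x y := by
  constructor
  · rintro (h | h | h)
    · exact h.2.2
    · exact absurd h.1 hx
    · exact absurd h.1 hy
  · intro h
    exact Or.inl ⟨hx, hy, h⟩

lemma adj_u {y : V} : (rep G w u v i hu).Adj u y ↔ P w v i y := by
  constructor
  · rintro (h | h | h)
    · exact absurd rfl h.1
    · exact h.2
    · exact absurd h.2 hu
  · intro h
    exact Or.inr (Or.inl ⟨rfl, h⟩)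

end

end ItemRLC2

open ItemRLC2 in
theorem prfRLC2 : TI2_statement → MEM2_statement → RLC2_statement := by
  classical
  intro hTI hMEM r n D V _ G f w u v i k hr hrn hMx hTh hBal hex hki hnk
  obtain ⟨t₀, ⟨ht₀i, ht₀⟩, huniq⟩ := hex
  have hTy := hTh.ty
  have fw : f w = none := (hTy.out w).2 (Or.inl rfl)
  have fu : f u = none := (hTy.out u).2 (Or.inr rfl)
  have hwu : w ≠ u := hTy.ne
  -- a neighbour of `w` in class `t₀`
  obtain ⟨y₀, hy₀, hy₀w⟩ : ∃ y, f y = some t₀ ∧ G.Adj w y := by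
    have h1 := hTh.pos t₀ ht₀i
    unfold nbn at h1
    obtain ⟨y, hy⟩ := (Set.ncard_pos (Set.toFinite _)).1 h1
    exact ⟨y, hy.1, hy.2⟩
  -- a vertex of class `k` which is not adjacent to `w`
  obtain ⟨yk, hyk, hykw⟩ : ∃ y, f y = some k ∧ ¬ G.Adj w y := by
    unfold nbn siz at hnk
    obtain ⟨y, hy, hy'⟩ := Set.exists_mem_notMem_of_ncard_lt_ncard hnk (Set.toFinite _)
    exact ⟨y, hy, fun h => hy' ⟨hy, h⟩⟩
  set v' : Fin r → V := fun t => if t = k then yk else if t = t₀ then y₀ else v t with hv'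
  have hfv : ∀ t, t ≠ i → f (v' t) = some t := by
    intro t ht
    simp only [hv']
    split_ifs with h1 h2
    · rw [h1, hyk]
    · rw [h2, hy₀]
    · exact hTy.hv t ht
  have hadj : ∀ t, t ≠ i → (G.Adj w (v' t) ↔ t ≠ k) := by
    intro t ht
    simp only [hv']
    split_ifs with h1 h2
    · exact ⟨fun h => absurd h hykw, fun h => absurd h1 h⟩
    · exact ⟨fun _ => h1, fun _ => hy₀w⟩
    · refine ⟨fun _ => h1, fun _ => ?_⟩
      by_contra h3
      exact h2 (huniq t ⟨ht, h3⟩)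
  have hu : ¬ P w v' i u := by
    rintro (h | ⟨t, ht, h⟩)
    · exact hwu h.symm
    · have := hfv t ht
      rw [← h, fu] at this
      exact absurd this (by simp)
  have hne : ∀ y, f y ≠ none → y ≠ u := fun y hy h => hy (h ▸ fu)
  have hadjw : ∀ y, (rep G w u v' i hu).Adj w y ↔ G.Adj w y := by
    intro y
    by_cases hy : y = u
    · rw [hy]
      refine ⟨fun _ => hTy.uw.symm, fun _ => ?_⟩
      exact (adj_u.2 (Or.inl rfl)).symm
    · exact adj_of_ne hwu hy
  have hTy' : Ty2 (rep G w u v' i hu) f w u v' i :=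
    { out := hTy.out
      ne := hTy.ne
      core := fun x y hx hy => (adj_of_ne (hne x hx) (hne y hy)).trans (hTy.core x y hx hy)
      uw := adj_u.2 (Or.inl rfl)
      hv := hfv
      un := fun y hy => adj_u.trans
        ⟨fun h => h.resolve_left fun h => hy (h ▸ fw), fun h => Or.inr h⟩ }
  have hnbn : ∀ t, nbn (rep G w u v' i hu) f w t = nbn G f w t := by
    intro t
    unfold nbn
    congr 1
    ext y
    simp only [Set.mem_setOf_eq, hadjw]
  have hexc : ¬ (rep G w u v' i hu).Adj w (v' k) := by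
    rw [hadjw, hadj k hki]
    exact fun h => h rfl
  have hTh' : Th2 (rep G w u v' i hu) f w u v' i :=
    { ty := hTy'
      ni := by rw [hnbn]; exact hTh.ni
      pos := fun t ht => by rw [hnbn]; exact hTh.pos t ht
      exc := ⟨k, hki, hexc⟩ }
  have hsiz : ∀ t, 1 ≤ siz f t := by
    intro t
    have h1 := (hBal.1 t).1
    have h2 : 1 ≤ n / r := (Nat.one_le_div_iff (by omega)).2 hrn
    omega
  have hlam : lam G = lam (rep G w u v' i hu) := by
    refine hTI r V V G _ f f w u w u v v' i hr hTy hTy' hsiz (fun t => rfl)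
      (fun t => (hnbn t).symm) ⟨t₀, ⟨ht₀i, ht₀⟩, huniq⟩ ⟨k, ⟨hki, hexc⟩, ?_⟩
    rintro t ⟨ht, ht'⟩
    by_contra h
    exact ht' ((hadjw _).2 ((hadj t ht).2 h))
  have hm := hMEM r V G f w u v i hr hTh hsiz
  have hm' := hMEM r V _ f w u v' i hr hTh' hsiz
  refine ⟨rep G w u v' i hu, v', ⟨⟨hm'.1, ?_, hm'.2.2.1, hm'.2.1⟩, ?_⟩, hTh', ?_, hadjw⟩
  · have h1 := hm.2.2.2
    have h2 := hm'.2.2.2
    have h3 : ∑ t, nbn (rep G w u v' i hu) f w t = ∑ t, nbn G f w t :=
      Finset.sum_congr rfl fun t _ => hnbn t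
    rw [h3] at h2
    have h4 := hMx.1.size
    omega
  · intro U _ H hH
    rw [← hlam]
    exact hMx.2 U H hH
  · intro t ht
    rw [hadjw]
    exact hadj t ht

end MP0c3a8f
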