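import Pool.Agent.Work.MP_0c3a8f_co.PB.Stmts

/-!
# MP_0c3a8f_co, phase B: item ROUGH
-/

open Finset

namespace MP0c3a8f

namespace ROUGH

theorem cnt_le {V : Type} [Fintype V] {r : ℕ} (g g' : V → Option (Fin r)) (P : V → Prop)
    (h : ∀ v, g v ≠ none → g' v = g v) (t : Fin r) :
    {v | g v = some t ∧ P v}.ncard ≤ {v | g' v = some t ∧ P v}.ncard := by
  apply Set.ncard_le_ncard _ (Set.toFinite _)
  rintro v ⟨h1, h2⟩
  refine ⟨?_, h2⟩
  rw [h v (by rw [h1]; exact Option.some_ne_none t), h1]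

theorem cnt_le' {V : Type} [Fintype V] {r : ℕ} (g g' : V → Option (Fin r)) (E : Finset V)
    (P : V → Prop) (h : ∀ v, g' v ≠ none → g v = g' v ∨ v ∈ E) (t : Fin r) :
    {v | g' v = some t ∧ P v}.ncard ≤ {v | g v = some t ∧ P v}.ncard + E.card := by
  have h1 : {v | g' v = some t ∧ P v} ⊆ {v | g v = some t ∧ P v} ∪ (E : Set V) := by
    rintro v ⟨h1, h2⟩
    rcases h v (by rw [h1]; exact Option.some_ne_none t) with h3 | h3
    · exact Or.inl ⟨by rw [h3, h1], h2⟩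
    · exact Or.inr h3
  have h2 := (Set.ncard_le_ncard h1 (Set.toFinite _)).trans (Set.ncard_union_le _ _)
  rwa [Set.ncard_coe_finset] at h2

theorem siz_le {V : Type} [Fintype V] {r : ℕ} (g g' : V → Option (Fin r))
    (h : ∀ v, g v ≠ none → g' v = g v) (t : Fin r) : siz g t ≤ siz g' t := by
  have := cnt_le g g' (fun _ => True) h t
  simpa [siz] using this

theorem siz_le' {V : Type} [Fintype V] {r : ℕ} (g g' : V → Option (Fin r)) (E : Finset V)
    (h : ∀ v, g' v ≠ none → g v = g' v ∨ v ∈ E) (t : Fin r) : siz g' t ≤ siz g t + E.card := by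
  have := cnt_le' g g' E (fun _ => True) h t
  simpa [siz] using this

theorem nbn_sum_le {V : Type} [Fintype V] {r : ℕ} (G : SimpleGraph V) (g g' : V → Option (Fin r))
    (h : ∀ v, g v ≠ none → g' v = g v) (w : V) : ∑ t, nbn G g w t ≤ ∑ t, nbn G g' w t :=
  Finset.sum_le_sum fun t _ => cnt_le g g' (fun v => G.Adj w v) h t

theorem nbn_sum_le' {V : Type} [Fintype V] {r : ℕ} (G : SimpleGraph V)
    (g g' : V → Option (Fin r)) (E : Finset V) (h : ∀ v, g' v ≠ none → g v = g' v ∨ v ∈ E)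
    (w : V) : ∑ t, nbn G g' w t ≤ ∑ t, nbn G g w t + r * E.card := by
  have h1 : ∑ t, nbn G g' w t ≤ ∑ t, (nbn G g w t + E.card) :=
    Finset.sum_le_sum fun t _ => cnt_le' g g' E (fun v => G.Adj w v) h t
  rw [Finset.sum_add_distrib, Finset.sum_const, Finset.card_univ, Fintype.card_fin,
    smul_eq_mul] at h1
  exact h1

/-- all numerical facts -/
theorem numU (r : ℝ) (q δ θ s l zv N n1 : ℝ) (hr : 3 ≤ r) (hδ : 0 < δ)
    (hδ1 : δ ≤ 1 / (40 * r)) (hθ : θ = δ ^ 2 / (1000 * r)) (hs : 0 ≤ s)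
    (hsl : s ≤ l) (hz0 : δ < zv) (hz1 : zv < 1 - δ) (hN : |l * zv - N| ≤ 2 * θ * s)
    (hn : |q * n1 - l| ≤ 2 * r * θ * s) :
    δ / 2 * (q * n1) ≤ N ∧ N ≤ (1 - δ / 2) * (q * n1) := by
  have hr0 : 0 < r := by linarith
  have hθ0 : 0 ≤ θ := by rw [hθ]; positivity
  have hrθ : r * θ = δ ^ 2 / 1000 := by rw [hθ]; field_simp
  have hδ2 : δ ≤ 1 / 120 := by
    refine hδ1.trans ?_
    apply one_div_le_one_div_of_le (by norm_num)
    linarith
  have hθ3 : 3 * θ ≤ δ ^ 2 / 1000 := by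
    rw [← hrθ]
    exact mul_le_mul_of_nonneg_right hr hθ0
  have hl : 0 ≤ l := hs.trans hsl
  have hdd : δ ^ 2 ≤ δ / 120 := by
    have := mul_le_mul_of_nonneg_left hδ2 hδ.le
    linarith [sq δ]
  rw [abs_le] at hN hn
  -- products with `s`
  have p1 : 0 ≤ θ * s := mul_nonneg hθ0 hs
  have p2 : r * θ * s = δ ^ 2 / 1000 * s := by rw [hrθ]
  have p3 : δ ^ 2 / 1000 * s ≤ δ / 120000 * l := by
    have h1 : δ ^ 2 / 1000 * s ≤ δ / 120000 * s :=
      mul_le_mul_of_nonneg_right (by linarith) hs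
    have h2 : δ / 120000 * s ≤ δ / 120000 * l := mul_le_mul_of_nonneg_left hsl (by positivity)
    linarith
  have p4 : 3 * (θ * s) ≤ δ / 120000 * l := by
    have h1 : 3 * θ * s ≤ δ ^ 2 / 1000 * s := mul_le_mul_of_nonneg_right hθ3 hs
    linarith
  have hqn1 : q * n1 ≤ l + 2 * (δ / 120000 * l) := by linarith [hn.2]
  have hqn2 : l - 2 * (δ / 120000 * l) ≤ q * n1 := by linarith [hn.1]
  have hlz1 : l * zv ≤ l * (1 - δ) := mul_le_mul_of_nonneg_left hz1.le hl
  have hlz0 : l * δ ≤ l * zv := mul_le_mul_of_nonneg_left hz0.le hl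
  have hdl : 0 ≤ δ * l := mul_nonneg hδ.le hl
  have hddl : δ * (δ * l) ≤ 1 / 120 * (δ * l) := mul_le_mul_of_nonneg_right hδ2 hdl
  constructor
  · have h1 := mul_le_mul_of_nonneg_left hqn1 (by positivity : 0 ≤ δ / 2)
    have e : δ / 2 * (l + 2 * (δ / 120000 * l)) = δ * l / 2 + δ * (δ * l) / 120000 := by ring
    rw [e] at h1
    linarith [hN.1, hN.2]
  · have h1 := mul_le_mul_of_nonneg_left hqn2 (by linarith : 0 ≤ 1 - δ / 2)
    have e : (1 - δ / 2) * (l - 2 * (δ / 120000 * l)) =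
        l - δ * l / 60000 - δ * l / 2 + δ * (δ * l) / 120000 := by ring
    rw [e] at h1
    have h2 : 0 ≤ δ * (δ * l) := mul_nonneg hδ.le hdl
    linarith [hN.1, hN.2]

theorem numN (r q δ θ s l n1 m : ℝ) (hr : 3 ≤ r) (hq : q = 1 - 1 / r) (hδ : 0 < δ)
    (hδ1 : δ ≤ 1 / (40 * r)) (hθ : θ = δ ^ 2 / (1000 * r)) (hs : 0 ≤ s) (hm : s ^ 2 = m)
    (hl : 0 ≤ l) (hlow : (2 * q - δ) * m ≤ l ^ 2) (hn : |n1 - l / q| ≤ 2 * r * θ * s) :
    s ≤ n1 := by
  have hr0 : 0 < r := by linarith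
  have hrθ : r * θ = δ ^ 2 / 1000 := by rw [hθ]; field_simp
  have hδ2 : δ ≤ 1 / 120 := by
    refine hδ1.trans ?_
    apply one_div_le_one_div_of_le (by norm_num)
    linarith
  have hri : 1 / r ≤ 1 / 3 := one_div_le_one_div_of_le (by norm_num) hr
  have hri0 : 0 < 1 / r := by positivity
  have hq1 : q ≤ 1 := by linarith
  have hq2 : 2 / 3 ≤ q := by linarith
  have hq0 : 0 < q := by linarith
  have hkey : (11 / 10 * q * s) ^ 2 ≤ l ^ 2 := by
    refine le_trans ?_ hlow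
    have e : (11 / 10 * q * s) ^ 2 = 121 / 100 * q ^ 2 * m := by rw [← hm]; ring
    rw [e]
    apply mul_le_mul_of_nonneg_right _ (by rw [← hm]; positivity)
    nlinarith
  have h1 : 11 / 10 * q * s ≤ l := le_of_sq_le_sq hkey hl
  have h2 : 11 / 10 * s ≤ l / q := by
    rw [le_div_iff₀ hq0]
    linarith
  rw [abs_le] at hn
  have h3 : 2 * r * θ * s ≤ 1 / 10 * s := by
    apply mul_le_mul_of_nonneg_right _ hs
    have : δ ^ 2 ≤ 1 := by nlinarith
    linarith
  linarith [hn.1]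

end ROUGH

open Classical in
theorem prfROUGH : EST0_statement → ROUGH_statement := by
  intro hE W _ F r C hr hCr hCol δ hδ hδ1
  obtain ⟨C₆, hC₆, hE1⟩ := hE W F r C hr hCr hCol
  have hrR : (3 : ℝ) ≤ (r : ℝ) := by exact_mod_cast hr
  have hr0 : (0 : ℝ) < r := by linarith
  have hδ2 : δ ≤ 1 / 120 := by
    refine hδ1.trans ?_
    apply one_div_le_one_div_of_le (by norm_num)
    linarith
  have hC0 : 0 < C₆ := by linarith
  obtain ⟨η, hηd⟩ : ∃ η : ℝ, η = δ ^ 2 / (1000 * r) / C₆ := ⟨_, rfl⟩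
  obtain ⟨θ, hθd⟩ : ∃ θ : ℝ, θ = δ ^ 2 / (1000 * r) := ⟨_, rfl⟩
  have hθ0 : 0 < θ := by rw [hθd]; positivity
  have hη0 : 0 < η := by rw [hηd]; positivity
  have hCη : C₆ * η = θ := by
    rw [hηd, hθd]
    field_simp
  have hηθ : η ≤ θ := by
    rw [← hCη]
    exact le_mul_of_one_le_left hη0.le hC₆
  have hθδ : θ ≤ δ / 2 := by
    rw [hθd, div_le_iff₀ (by positivity)]
    nlinarith
  have hηδ : η ≤ δ := by linarith
  obtain ⟨K, m₀, hE2⟩ := hE1 η hη0 (by linarith)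
  obtain ⟨M1, hM1⟩ := exists_nat_ge ((r * K / θ) ^ 2)
  obtain ⟨M2, hM2⟩ := exists_nat_ge ((|C| / δ) ^ 2)
  refine ⟨K, max m₀ (max M1 M2), ?_⟩
  intro V _ G hfree hm hdef
  obtain ⟨z, f, g, E, hZD, hInd, hup, hml, hEK, hg1, hg2, hg3, hdeg, hsz, hz1, hz2⟩ :=
    hE2 V G hfree ((le_max_left _ _).trans hm) hdef
  obtain ⟨m, hmd⟩ : ∃ m : ℕ, m = G.edgeSet.ncard := ⟨_, rfl⟩
  rw [← hmd] at hm hdef hZD hup hml hdeg hsz ⊢
  obtain ⟨s, hsd⟩ : ∃ s : ℝ, s = Real.sqrt m := ⟨_, rfl⟩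
  rw [← hsd] at hdef hdeg hsz
  have hs0 : 0 ≤ s := by rw [hsd]; exact Real.sqrt_nonneg _
  have hs2 : s ^ 2 = m := by rw [hsd]; exact Real.sq_sqrt (Nat.cast_nonneg m)
  have hsK : r * K / θ ≤ s := by
    rw [hsd]
    apply Real.le_sqrt_of_sq_le
    refine hM1.trans ?_
    exact_mod_cast ((le_max_left _ _).trans (le_max_right _ _)).trans hm
  have hsC : |C| / δ ≤ s := by
    rw [hsd]
    apply Real.le_sqrt_of_sq_le
    refine hM2.trans ?_
    exact_mod_cast ((le_max_right _ _).trans (le_max_right _ _)).trans hm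
  have hKs : (r : ℝ) * K ≤ θ * s := by
    rw [div_le_iff₀ hθ0] at hsK
    linarith
  have hCs : C * s ≤ δ * m := by
    rw [div_le_iff₀ hδ] at hsC
    have h1 : C * s ≤ |C| * s := mul_le_mul_of_nonneg_right (le_abs_self C) hs0
    have h2 : |C| * s ≤ s * δ * s := mul_le_mul_of_nonneg_right hsC hs0
    have h3 : s * δ * s = δ * m := by rw [← hs2]; ring
    linarith
  obtain ⟨l, hld⟩ : ∃ l : ℝ, l = lam G := ⟨_, rfl⟩
  rw [← hld] at hZD hup hml hdeg hsz hdef
  have hl0 : 0 < l := hZD.lpos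
  have hsl : s ≤ l := by
    apply le_of_sq_le_sq _ hl0.le
    rw [hs2]
    exact hml
  have hqd : qq r = 1 - 1 / (r : ℝ) := rfl
  obtain ⟨q, hq⟩ : ∃ q : ℝ, q = qq r := ⟨_, rfl⟩
  rw [← hq] at hup hsz hdef hqd
  have hri : 1 / (r : ℝ) ≤ 1 / 3 := one_div_le_one_div_of_le (by norm_num) hrR
  have hri0 : 0 < 1 / (r : ℝ) := by positivity
  have hq0 : 0 < q := by linarith
  have hq1 : q ≤ 1 := by linarith
  -- the new partition
  obtain ⟨g', hg'⟩ : ∃ g' : V → Option (Fin r),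
      g' = fun v => if f v ≠ none ∧ |z v - 1| ≤ δ then f v else none := ⟨_, rfl⟩
  have hg'1 : ∀ v, g' v ≠ none → g' v = f v ∧ f v ≠ none ∧ |z v - 1| ≤ δ := by
    intro v hv
    rw [hg'] at hv ⊢
    by_cases hc : f v ≠ none ∧ |z v - 1| ≤ δ
    · simp only [if_pos hc]
      exact ⟨trivial, hc⟩
    · simp only [if_neg hc] at hv
      exact absurd rfl hv
  have hg'2 : ∀ v, f v ≠ none → |z v - 1| ≤ δ → g' v = f v := by
    intro v h1 h2
    rw [hg']
    simp only [if_pos (And.intro h1 h2)]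
  have hA : ∀ v, g v ≠ none → g' v = g v := by
    intro v hv
    obtain ⟨h1, h2⟩ := hg1 v hv
    rw [h1] at hv ⊢
    exact hg'2 v hv (h2.trans hηδ)
  have hB : ∀ v, g' v ≠ none → g v = g' v ∨ v ∈ E := by
    intro v hv
    by_cases h1 : g v = none
    · right
      by_contra h2
      have h3 := hg2 v h2 h1
      have h4 := (hg'1 v hv).2.2
      rw [abs_le] at h4
      linarith [h4.1]
    · left
      exact (hA v h1).symm
  obtain ⟨U, hU⟩ : ∃ U : Finset V, U = univ.filter (fun v => δ < z v ∧ g' v = none) := ⟨_, rfl⟩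
  have hUm : ∀ v, v ∈ U ↔ δ < z v ∧ g' v = none := by
    intro v
    rw [hU, Finset.mem_filter]
    exact ⟨fun h => h.2, fun h => ⟨Finset.mem_univ _, h⟩⟩
  have hUE : U ⊆ E := by
    intro v hv
    rw [hUm] at hv
    by_contra h2
    by_cases h1 : g v = none
    · have h3 := hg2 v h2 h1
      linarith [hv.1]
    · rw [← hA v h1] at h1
      exact h1 hv.2
  have hEK' : (E.card : ℝ) ≤ K := by exact_mod_cast hEK
  have hrE : (r : ℝ) * E.card ≤ θ * s := (mul_le_mul_of_nonneg_left hEK' hr0.le).trans hKs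
  have hE1' : (E.card : ℝ) ≤ θ * s := by
    have : (1 : ℝ) * E.card ≤ r * E.card :=
      mul_le_mul_of_nonneg_right (by linarith) (Nat.cast_nonneg _)
    linarith
  -- degrees
  have hdeg' : ∀ v, |l * z v - ((∑ t, nbn G g' v t : ℕ) : ℝ)| ≤ 2 * θ * s := by
    intro v
    have h1 := hdeg v
    rw [hCη] at h1
    have h2 : ((∑ t, nbn G g v t : ℕ) : ℝ) ≤ ((∑ t, nbn G g' v t : ℕ) : ℝ) := by
      exact_mod_cast ROUGH.nbn_sum_le G g g' hA v
    have h3 : ((∑ t, nbn G g' v t : ℕ) : ℝ) ≤ ((∑ t, nbn G g v t : ℕ) : ℝ) + r * E.card := by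
      exact_mod_cast ROUGH.nbn_sum_le' G g g' E hB v
    rw [abs_le] at h1 ⊢
    constructor
    · linarith [h1.1]
    · have : 0 ≤ θ * s := mul_nonneg hθ0.le hs0
      linarith [h1.2]
  have hsz' : ∀ t, |(siz g' t : ℝ) - l / (q * r)| ≤ 2 * θ * s := by
    intro t
    have h1 := hsz t
    rw [hCη] at h1
    have h2 : (siz g t : ℝ) ≤ siz g' t := by exact_mod_cast ROUGH.siz_le g g' hA t
    have h3 : (siz g' t : ℝ) ≤ siz g t + E.card := by
      exact_mod_cast ROUGH.siz_le' g g' E hB t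
    rw [abs_le] at h1 ⊢
    have : 0 ≤ θ * s := mul_nonneg hθ0.le hs0
    constructor
    · linarith [h1.1]
    · linarith [h1.2]
  obtain ⟨n1, hn1⟩ : ∃ n1 : ℝ, n1 = ((∑ t, siz g' t : ℕ) : ℝ) := ⟨_, rfl⟩
  have hn1s : |n1 - l / q| ≤ 2 * r * θ * s := by
    have e1 : n1 - l / q = ∑ t, ((siz g' t : ℝ) - l / (q * r)) := by
      rw [Finset.sum_sub_distrib, Finset.sum_const, Finset.card_univ, Fintype.card_fin,
        nsmul_eq_mul, hn1, Nat.cast_sum]
      congr 1
      field_simp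
    rw [e1]
    refine (Finset.abs_sum_le_sum_abs _ _).trans ?_
    refine (Finset.sum_le_sum fun t _ => hsz' t).trans ?_
    rw [Finset.sum_const, Finset.card_univ, Fintype.card_fin, nsmul_eq_mul]
    exact le_of_eq (by ring)
  have hqn : |q * n1 - l| ≤ 2 * r * θ * s := by
    have e1 : q * n1 - l = q * (n1 - l / q) := by field_simp
    rw [e1, abs_mul, abs_of_pos hq0]
    have h1 : q * |n1 - l / q| ≤ 1 * |n1 - l / q| :=
      mul_le_mul_of_nonneg_right hq1 (abs_nonneg _)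
    linarith
  have hlow : (2 * q - δ) * m ≤ l ^ 2 := by linarith
  have hsn : s ≤ n1 :=
    ROUGH.numN r q δ θ s l n1 m hrR hqd hδ hδ1 hθd hs0 hs2 hl0.le hlow hn1s
  have hbd : ∀ v, z v ≤ 1 + δ := by
    intro v
    have h1 := hz1 v
    rw [hCη] at h1
    linarith
  refine ⟨z, g', U, ?_⟩
  constructor
  · constructor
    · rw [← hld]
      exact hZD
    · intro v w hv hvw
      have hw : g' w ≠ none := by rw [← hvw]; exact hv
      apply hInd v w (hg'1 v hv).2.1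
      rw [← (hg'1 v hv).1, ← (hg'1 w hw).1]
      exact hvw
    · intro v hv
      exact (hg'1 v hv).2.2
    · intro v hv hvU
      by_contra h1
      push Not at h1
      exact hvU ((hUm v).mpr ⟨h1, hv⟩)
    · exact hbd
    · intro v hv
      exact ((hUm v).mp hv).2
    · rw [← hld, ← hq]
      exact hlow
    · rw [← hld, ← hq]
      exact hup
  · exact (Finset.card_le_card hUE).trans hEK
  · intro v hv
    rw [hUm] at hv
    rw [← hq, ← hn1]
    refine ROUGH.numU r q δ θ s l (z v) _ n1 hrR hδ hδ1 hθd hs0 hsl hv.1 ?_ (hdeg' v) hqn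
    by_cases hf : f v = none
    · have h1 := hz2 v hf
      rw [hCη] at h1
      have h2 : 5 / 2 * δ ≤ 1 / (16 * (r : ℝ)) := by
        have e : 1 / (16 * (r : ℝ)) = 5 / 2 * (1 / (40 * (r : ℝ))) := by
          field_simp
          norm_num
        rw [e]
        linarith
      linarith
    · by_contra h1
      push Not at h1
      have h2 : |z v - 1| ≤ δ := abs_le.mpr ⟨by linarith, by linarith [hbd v]⟩
      have h3 := hg'2 v hf h2
      rw [hv.2] at h3
      exact hf h3.symm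
  · intro t
    rw [← hn1]
    have h1 := hsz' t
    have h2 : |n1 / r - l / (q * r)| ≤ 2 * θ * s := by
      have e1 : n1 / r - l / (q * r) = (n1 - l / q) / r := by field_simp
      rw [e1, abs_div, abs_of_pos hr0, div_le_iff₀ hr0]
      linarith
    rw [abs_le] at h1 h2 ⊢
    have h3 : 4 * θ * s ≤ δ * n1 := by
      have h4 : 4 * θ ≤ δ := by
        have : θ ≤ δ / 4 := by
          rw [hθd, div_le_iff₀ (by positivity)]
          nlinarith
        linarith
      exact mul_le_mul h4 hsn hs0 hδ.le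
    constructor
    · linarith [h1.1, h2.2]
    · linarith [h1.2, h2.1]
  · rw [← hn1, ← hs2]
    exact pow_le_pow_left₀ hs0 hsn 2

end MP0c3a8f
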