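import Pool.Agent.Work.MP_0c3a8f_co.PB.Stmts

/-!
# SEC: asymptotics of the spectral radius
-/

set_option autoImplicit false

open Finset

namespace MP0c3a8f

namespace ItemSEC

open Classical in
/-- indicator of the class `t` -/
noncomputable def e {V : Type} {r : ℕ} (g : V → Option (Fin r)) (t : Fin r) (i : V) : ℝ :=
  if g i = some t then 1 else 0

theorem sum_e {V : Type} [Fintype V] {r : ℕ} (g : V → Option (Fin r)) (t : Fin r) :
    ∑ i, e g t i = (siz g t : ℝ) := by
  classical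
  unfold e siz
  rw [Finset.sum_ite, Finset.sum_const_zero, add_zero, Finset.sum_const, nsmul_eq_mul, mul_one,
    Set.ncard_eq_toFinset_card']
  congr 2
  ext v
  simp

theorem e_none {V : Type} {r : ℕ} {g : V → Option (Fin r)} {i : V} (h : g i = none)
    (t : Fin r) : e g t i = 0 := by
  unfold e
  rw [h, if_neg (by simp)]

theorem sum_e' {V : Type} {r : ℕ} {g : V → Option (Fin r)} {i : V} {s : Fin r}
    (h : g i = some s) : ∑ t, e g t i = 1 := by
  classical
  unfold e
  rw [h]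
  rw [Finset.sum_eq_single s]
  · rw [if_pos rfl]
  · intro t _ ht
    rw [if_neg]
    intro h'
    exact ht (Option.some_injective _ h').symm
  · intro h'
    exact absurd (Finset.mem_univ _) h'

theorem qf_core {V : Type} [Fintype V] {r : ℕ} {G : SimpleGraph V} {g : V → Option (Fin r)}
    {U : Finset V} (hK : IsKU G g U) :
    qf G (fun i => ∑ t, e g t i) = (∑ t, (siz g t : ℝ)) ^ 2 - ∑ t, (siz g t : ℝ) ^ 2 := by
  classical
  have h1 : ∀ i j, adj G i j * ((∑ t, e g t i) * (∑ t, e g t j)) =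
      (∑ t, e g t i) * (∑ t, e g t j) - ∑ t, e g t i * e g t j := by
    intro i j
    rcases hi : g i with _ | s
    · simp [e_none hi]
    rcases hj : g j with _ | t
    · simp [e_none hj]
    rw [sum_e' hi, sum_e' hj]
    have hadj := hK.core i j (by rw [hi]; simp) (by rw [hj]; simp)
    by_cases hst : s = t
    · subst hst
      have h2 : ¬ G.Adj i j := by
        rw [hadj, hi, hj]
        simp
      have h3 : ∑ u, e g u i * e g u j = 1 := by
        rw [← sum_e' hi]
        refine Finset.sum_congr rfl fun u _ => ?_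
        unfold e
        rw [hi, hj]
        split_ifs <;> simp
      rw [h3]
      unfold adj
      rw [if_neg h2]
      ring
    · have h2 : G.Adj i j := by
        rw [hadj, hi, hj]
        intro h
        exact hst (Option.some_injective _ h)
      have h3 : ∑ u, e g u i * e g u j = 0 := by
        refine Finset.sum_eq_zero fun u _ => ?_
        unfold e
        rw [hi, hj]
        split_ifs with h4 h5
        · exact absurd (Option.some_injective _ (h4.trans h5.symm)) hst
        · simp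
        · simp
        · simp
      rw [h3]
      unfold adj
      rw [if_pos h2]
      ring
  unfold qf
  simp only [h1, Finset.sum_sub_distrib]
  congr 1
  · have h2 : ∑ i, ∑ t, e g t i = ∑ t, (siz g t : ℝ) := by
      rw [Finset.sum_comm]
      exact Finset.sum_congr rfl fun t _ => sum_e g t
    rw [pow_two, ← h2, Finset.sum_mul]
    refine Finset.sum_congr rfl fun i _ => ?_
    rw [Finset.mul_sum]
  · have h3 : ∀ i, ∑ j, ∑ t, e g t i * e g t j = ∑ t, e g t i * (siz g t : ℝ) := by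
      intro i
      rw [Finset.sum_comm]
      refine Finset.sum_congr rfl fun t _ => ?_
      rw [← Finset.mul_sum, sum_e]
    simp only [h3]
    rw [Finset.sum_comm]
    refine Finset.sum_congr rfl fun t _ => ?_
    rw [← Finset.sum_mul, sum_e, pow_two]

theorem sq_core {V : Type} [Fintype V] {r : ℕ} (g : V → Option (Fin r)) :
    ∑ i, (∑ t, e g t i) ^ 2 = ∑ t, (siz g t : ℝ) := by
  have h2 : ∑ i, ∑ t, e g t i = ∑ t, (siz g t : ℝ) := by
    rw [Finset.sum_comm]
    exact Finset.sum_congr rfl fun t _ => sum_e g t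
  rw [← h2]
  refine Finset.sum_congr rfl fun i _ => ?_
  rcases hi : g i with _ | s
  · simp [e_none hi]
  · rw [sum_e' hi]; norm_num

theorem dev_eq {r : ℕ} (hr : 1 ≤ r) (σ : Fin r → ℕ) {n : ℕ} (hn : ∑ t, σ t = n) :
    ∑ t, (σ t : ℝ) ^ 2 = dev σ + (n : ℝ) ^ 2 / r := by
  have hn' : ∑ t, (σ t : ℝ) = n := by exact_mod_cast hn
  have hr' : (r : ℝ) ≠ 0 := by exact_mod_cast (by omega : r ≠ 0)
  unfold dev
  rw [hn']
  have h1 : ∀ t, ((σ t : ℝ) - n / r) ^ 2 = (σ t : ℝ) ^ 2 - 2 * (n / r) * σ t + (n / r) ^ 2 :=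
    fun t => by ring
  simp only [h1, Finset.sum_add_distrib, Finset.sum_sub_distrib, ← Finset.mul_sum, hn',
    Finset.sum_const, Finset.card_univ, Fintype.card_fin, nsmul_eq_mul]
  field_simp
  ring

theorem dev_nonneg {r : ℕ} (σ : Fin r → ℕ) : 0 ≤ dev σ := by
  unfold dev
  exact Finset.sum_nonneg fun t _ => sq_nonneg _

theorem dev_le {r : ℕ} (σ : Fin r → ℕ) {n : ℕ} (hn : ∑ t, σ t = n) (t : Fin r) :
    ((σ t : ℝ) - n / r) ^ 2 ≤ dev σ := by
  have hn' : ∑ t, (σ t : ℝ) = n := by exact_mod_cast hn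
  unfold dev
  rw [hn']
  exact Finset.single_le_sum (f := fun t => ((σ t : ℝ) - n / r) ^ 2)
    (fun t _ => sq_nonneg _) (Finset.mem_univ t)

theorem nbn_le {V : Type} [Fintype V] {r : ℕ} (G : SimpleGraph V) (g : V → Option (Fin r))
    (w : V) (t : Fin r) : nbn G g w t ≤ siz g t := by
  unfold nbn siz
  exact Set.ncard_le_ncard (fun v hv => hv.1) (Set.toFinite _)

theorem qq_bd {r : ℕ} (hr : 3 ≤ r) : 2 / 3 ≤ qq r ∧ qq r ≤ 1 := by
  have hr' : (3 : ℝ) ≤ r := by exact_mod_cast hr
  unfold qq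
  constructor
  · have : 1 / (r : ℝ) ≤ 1 / 3 := one_div_le_one_div_of_le (by norm_num) hr'
    linarith
  · have : 0 ≤ 1 / (r : ℝ) := by positivity
    linarith

end ItemSEC

open ItemSEC in
theorem prfSEC : P_statement → SECEQ_statement → SECAS_statement → KW_statement →
    SEC_statement := by
  intro hP hEQ hAS hKW r N ε hr hε
  obtain ⟨δ₁, hδ₁, hKW⟩ := hKW r 1 hr one_pos
  obtain ⟨C, n₁, hC, hKW⟩ := hKW 1
  obtain ⟨n₂, hAS⟩ := hAS r N 2 ε hr hε
  set B : ℝ := N + C * (1 + Real.sqrt N) with hB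
  have hB0 : 0 ≤ B := by positivity
  refine ⟨n₁ + n₂ + N + 4 + ⌈Real.sqrt N / δ₁⌉₊ + ⌈3 * B⌉₊, ?_⟩
  intro V _ G g w n hn hK hsum hdev
  obtain ⟨hq1, hq2⟩ := qq_bd hr
  have hn1 : n₁ ≤ n := by omega
  have hn2 : n₂ ≤ n := by omega
  have hnN : N ≤ n := by omega
  have hn4 : 4 ≤ n := by omega
  have hs : Real.sqrt N / δ₁ ≤ n := by
    refine (Nat.le_ceil _).trans ?_
    exact_mod_cast (by omega : ⌈Real.sqrt N / δ₁⌉₊ ≤ n)
  have hB' : 3 * B ≤ n := by
    refine (Nat.le_ceil _).trans ?_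
    exact_mod_cast (by omega : ⌈3 * B⌉₊ ≤ n)
  have hnR : (4 : ℝ) ≤ n := by exact_mod_cast hn4
  have hNR : (N : ℝ) ≤ n := by exact_mod_cast hnN
  have hn0 : (0 : ℝ) < n := by linarith
  have hsum' : ∑ t, (siz g t : ℝ) = n := by exact_mod_cast hsum
  have : Nonempty V := ⟨w⟩
  -- lower bound
  have hlow : qq r * n - 1 ≤ lam G := by
    have h1 := (hP V G).2.1 (fun i => ∑ t, e g t i)
    rw [qf_core hK, sq_core, hsum', dev_eq (by omega) (siz g) hsum] at h1
    have h2 : (n : ℝ) ^ 2 - (dev (siz g) + (n : ℝ) ^ 2 / r) = qq r * n * n - dev (siz g) := by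
      unfold qq
      ring
    rw [h2] at h1
    have h3 : (qq r * n - 1) * n ≤ lam G * n := by nlinarith
    exact le_of_mul_le_mul_right h3 hn0
  have hlpos : 0 < lam G := by nlinarith
  -- upper bound
  have hup : lam G ≤ qq r * n + 2 := by
    have h1 := hKW V G g {w} n hK (by simp) hn1 hsum (fun t => by
      have h2 := (dev_le (siz g) hsum t).trans hdev
      have h3 : |(siz g t : ℝ) - (n : ℝ) / r| ≤ Real.sqrt N := by
        rw [← Real.sqrt_sq_eq_abs]
        exact Real.sqrt_le_sqrt h2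
      rw [div_le_iff₀ hδ₁] at hs
      linarith)
    rw [Finset.sum_singleton] at h1
    have h4 : ((∑ t, nbn G g w t : ℕ) : ℝ) ≤ n := by
      have : ∑ t, nbn G g w t ≤ n := by
        rw [← hsum]
        exact Finset.sum_le_sum fun t _ => nbn_le G g w t
      exact_mod_cast this
    have h5 : (0 : ℝ) ≤ ((∑ t, nbn G g w t : ℕ) : ℝ) := Nat.cast_nonneg _
    have h6 : 2 * ((∑ t, nbn G g w t : ℕ) : ℝ) ^ 2 / n ≤ 2 * n := by
      rw [div_le_iff₀ hn0]
      nlinarith
    have h7 : Real.sqrt (dev (siz g)) ≤ Real.sqrt N := Real.sqrt_le_sqrt hdev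
    have h8 : C * (1 + Real.sqrt (dev (siz g))) ≤ C * (1 + Real.sqrt N) :=
      mul_le_mul_of_nonneg_left (by linarith) hC
    have h9 : -((2 * qq r ^ 2 - 1) * dev (siz g)) ≤ N := by
      have := dev_nonneg (siz g)
      have h10 : 0 ≤ qq r ^ 2 := sq_nonneg _
      nlinarith
    have h11 : lam G ^ 2 ≤ (qq r * n + 2) ^ 2 := by
      have h12 : lam G ^ 2 ≤ qq r ^ 2 * (n : ℝ) ^ 2 + 2 * n + B := by
        rw [hB]; linarith
      nlinarith
    exact le_of_sq_le_sq h11 (by nlinarith)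
  have habs : |lam G - qq r * n| ≤ 2 := by
    rw [abs_le]
    constructor <;> linarith
  refine ⟨?_, ?_⟩
  · exact hAS n (siz g) (nbn G g w) (lam G) hn2 hsum hdev (nbn_le G g w) habs
      (hEQ r V G g w hK hlpos)
  · have : (0 : ℝ) ≤ N := Nat.cast_nonneg _
    linarith

end MP0c3a8f
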