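import Pool.Agent.Work.MP_0c3a8f_co.PB.Stmts

/-!
# (SECAS) asymptotic solution of the secular equation
-/

open Finset

namespace MP0c3a8f

namespace SECASx

theorem wsum {r : ℕ} (w δ : Fin r → ℝ) (u y W0 S : ℝ) (hW : ∀ t, |w t| ≤ W0)
    (hδ : ∀ t, |δ t| ≤ S) (hu : 0 ≤ u) (hy : |y| ≤ S) (hS : u * S ≤ 1 / 4) :
    |∑ t, w t / (1 + u * y + u * δ t) - ∑ t, w t| ≤ r * (4 * u * S * W0) := by
  rw [← Finset.sum_sub_distrib]
  refine (Finset.abs_sum_le_sum_abs _ _).trans ?_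
  have h : ∀ t ∈ (Finset.univ : Finset (Fin r)),
      |w t / (1 + u * y + u * δ t) - w t| ≤ 4 * u * S * W0 := by
    intro t _
    have h1 := abs_le.1 (hδ t)
    have h2 := abs_le.1 hy
    have h5 : u * (-S) ≤ u * y := mul_le_mul_of_nonneg_left h2.1 hu
    have h6 : u * (-S) ≤ u * δ t := mul_le_mul_of_nonneg_left h1.1 hu
    have h3 : 1 / 2 ≤ 1 + u * y + u * δ t := by linarith only [h5, h6, hS]
    have h0 : 0 < 1 + u * y + u * δ t := by linarith only [h3]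
    have h4 : w t / (1 + u * y + u * δ t) - w t =
        (w t * (u * -(y + δ t))) / (1 + u * y + u * δ t) := by
      field_simp
      ring
    have hS0 : 0 ≤ S := (abs_nonneg _).trans hy
    have hW0 : 0 ≤ W0 := (abs_nonneg _).trans (hW t)
    rw [h4, abs_div, abs_mul, abs_mul, abs_neg, abs_of_nonneg hu, abs_of_pos h0,
      div_le_iff₀ h0]
    have h7 : |y + δ t| ≤ 2 * S := (abs_add_le _ _).trans (by linarith only [hy, hδ t])
    calc |w t| * (u * |y + δ t|) ≤ W0 * (u * (2 * S)) :=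
          mul_le_mul (hW t) (mul_le_mul_of_nonneg_left h7 hu) (by positivity) hW0
      _ = 4 * u * S * W0 * (1 / 2) := by ring
      _ ≤ 4 * u * S * W0 * (1 + u * y + u * δ t) :=
          mul_le_mul_of_nonneg_left h3 (by positivity)
  refine (Finset.sum_le_sum h).trans ?_
  rw [Finset.sum_const, nsmul_eq_mul, Finset.card_univ, Fintype.card_fin]

noncomputable def P1 (q y D a b c : ℝ) : ℝ :=
  q ^ 2 * y ^ 2 + q ^ 3 * a + 2 * q * y ^ 2 - y * D + y * c - y * D ^ 2 + 2 * q * D * b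

noncomputable def P2 (q u y D a b c : ℝ) : ℝ :=
  (y ^ 3 + (y ^ 2 + q * a) * (2 * q * y - D + c) + q ^ 2 * y * a - q * b ^ 2 + 2 * y * D * b)
    + u * ((y ^ 2 + q * a) * y ^ 2 + y * a * (2 * q * y - D + c) - y * b ^ 2)
    + u ^ 2 * (y ^ 3 * a)

noncomputable def Ph (q u y D a b c : ℝ) : ℝ :=
  ((1 + u * y) * y + u * (q + u * y) * a) * ((q + u * y) ^ 2 - u * D + u * c)
    - (q + u * y) * (D - u * b) ^ 2

theorem expand (q u y D a b c : ℝ) :
    Ph q u y D a b c = (q ^ 2 * y - q * D ^ 2) + u * P1 q y D a b c + u ^ 2 * P2 q u y D a b c := by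
  unfold Ph P1 P2
  ring

theorem bnd (K0 : ℝ) : ∃ K : ℝ, 0 ≤ K ∧ ∀ q u y D a b c : ℝ, |q| ≤ K0 → |u| ≤ K0 → |y| ≤ K0 →
    |D| ≤ K0 → |a| ≤ K0 → |b| ≤ K0 → |c| ≤ K0 →
    |P1 q y D a b c| ≤ K ∧ |P2 q u y D a b c| ≤ K := by
  have hc1 : Continuous (fun p : ℝ × ℝ × ℝ × ℝ × ℝ × ℝ × ℝ =>
      P1 p.1 p.2.2.1 p.2.2.2.1 p.2.2.2.2.1 p.2.2.2.2.2.1 p.2.2.2.2.2.2) := by
    unfold P1
    fun_prop
  have hc2 : Continuous (fun p : ℝ × ℝ × ℝ × ℝ × ℝ × ℝ × ℝ =>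
      P2 p.1 p.2.1 p.2.2.1 p.2.2.2.1 p.2.2.2.2.1 p.2.2.2.2.2.1 p.2.2.2.2.2.2) := by
    unfold P2
    fun_prop
  obtain ⟨A, hA⟩ := (isCompact_Icc (a := ((-K0, -K0, -K0, -K0, -K0, -K0, -K0) :
    ℝ × ℝ × ℝ × ℝ × ℝ × ℝ × ℝ)) (b := (K0, K0, K0, K0, K0, K0, K0))).exists_bound_of_continuousOn
    hc1.continuousOn
  obtain ⟨B, hB⟩ := (isCompact_Icc (a := ((-K0, -K0, -K0, -K0, -K0, -K0, -K0) :
    ℝ × ℝ × ℝ × ℝ × ℝ × ℝ × ℝ)) (b := (K0, K0, K0, K0, K0, K0, K0))).exists_bound_of_continuousOn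
    hc2.continuousOn
  refine ⟨max (max A B) 0, le_max_right _ _, ?_⟩
  intro q u y D a b c h1 h2 h3 h4 h5 h6 h7
  rw [abs_le] at h1 h2 h3 h4 h5 h6 h7
  have hm : (q, u, y, D, a, b, c) ∈ Set.Icc ((-K0, -K0, -K0, -K0, -K0, -K0, -K0) :
      ℝ × ℝ × ℝ × ℝ × ℝ × ℝ × ℝ) (K0, K0, K0, K0, K0, K0, K0) :=
    ⟨⟨h1.1, h2.1, h3.1, h4.1, h5.1, h6.1, h7.1⟩, ⟨h1.2, h2.2, h3.2, h4.2, h5.2, h6.2, h7.2⟩⟩
  have hA' := hA _ hm
  have hB' := hB _ hm
  rw [Real.norm_eq_abs] at hA' hB'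
  exact ⟨hA'.trans ((le_max_left _ _).trans (le_max_left _ _)),
    hB'.trans ((le_max_right _ _).trans (le_max_left _ _))⟩

theorem core (K0 : ℝ) (hK0 : 1 ≤ K0) : ∃ K : ℝ, 0 ≤ K ∧ ∀ q u y D a b c e A B : ℝ,
    1 / 2 ≤ q → q ≤ 1 → 0 < u → u ≤ 1 → |y| ≤ K0 → |D| ≤ 1 → |a| ≤ K0 → |b| ≤ K0 → |c| ≤ K0 →
    |a - e| ≤ K0 * u → |b - A| ≤ K0 * u → |c - B| ≤ K0 * u → Ph q u y D a b c = 0 →
    |(q / u + y) ^ 2 - (q ^ 2 / u ^ 2 + 2 * D ^ 2 / u - 2 * q ^ 2 * e - 4 * D * A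
      + 2 * D ^ 3 / q ^ 2 - (1 + 2 * q) * D ^ 4 / q ^ 2 - 2 * D ^ 2 * B / q ^ 2)| ≤ K * u := by
  obtain ⟨K, hK, hb⟩ := bnd K0
  refine ⟨4 * ((8 * K * (4 * K0 + 8) + 5 * K0) + K) + 8 * K * (K0 + 2), by positivity, ?_⟩
  intro q u y D a b c e A B hq1 hq2 hu hu1 hy hD ha hbb hc hae hbA hcB hP
  have hq0 : 0 < q := by linarith only [hq1]
  obtain ⟨hP1, hP2⟩ := hb q u y D a b c (by rw [abs_of_pos hq0]; linarith only [hq2, hK0])
    (by rw [abs_of_pos hu]; linarith only [hu1, hK0]) hy (hD.trans hK0) ha hbb hc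
  rw [expand] at hP
  obtain ⟨p1, hp1⟩ : ∃ p1, p1 = P1 q y D a b c := ⟨_, rfl⟩
  obtain ⟨p2, hp2⟩ : ∃ p2, p2 = P2 q u y D a b c := ⟨_, rfl⟩
  rw [← hp1] at hP1 hP
  rw [← hp2] at hP2 hP
  obtain ⟨y1, hy1⟩ : ∃ y1, y1 = D ^ 2 / q := ⟨_, rfl⟩
  have hqy1 : q * y1 = D ^ 2 := by rw [hy1]; field_simp
  have hD2 : D ^ 2 ≤ 1 := by
    rw [← sq_abs]
    exact pow_le_one₀ (abs_nonneg _) hD
  have hy1n : 0 ≤ y1 := by rw [hy1]; positivity
  have hy12 : y1 ≤ 2 := by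
    rw [hy1, div_le_iff₀ hq0]
    linarith only [hD2, hq1]
  -- first order
  have e1 : q ^ 2 * (y - y1) = -(u * p1 + u ^ 2 * p2) := by
    have : q ^ 2 * y1 = q * D ^ 2 := by rw [← hqy1]; ring
    rw [mul_sub, this]
    linarith only [hP]
  have hu2 : u ^ 2 ≤ u := by
    rw [sq]
    exact mul_le_of_le_one_left hu.le hu1
  have e2 : |u * p1 + u ^ 2 * p2| ≤ 2 * u * K := by
    refine (abs_add_le _ _).trans ?_
    rw [abs_mul, abs_mul, abs_of_pos hu, abs_of_nonneg (sq_nonneg u)]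
    have h1 : u * |p1| ≤ u * K := mul_le_mul_of_nonneg_left hP1 hu.le
    have h2 : u ^ 2 * |p2| ≤ u * K := mul_le_mul hu2 hP2 (abs_nonneg _) hu.le
    linarith only [h1, h2]
  have hq2' : 1 / 4 ≤ q ^ 2 := by
    have := pow_le_pow_left₀ (by norm_num : (0 : ℝ) ≤ 1 / 2) hq1 2
    norm_num at this ⊢
    exact this
  have e3 : |y - y1| ≤ 8 * u * K := by
    have h1 : |q ^ 2 * (y - y1)| ≤ 2 * u * K := by rw [e1, abs_neg]; exact e2
    rw [abs_mul, abs_of_nonneg (sq_nonneg q)] at h1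
    have h2 : 1 / 4 * |y - y1| ≤ q ^ 2 * |y - y1| :=
      mul_le_mul_of_nonneg_right hq2' (abs_nonneg _)
    linarith only [h1, h2]
  -- second order
  obtain ⟨ps, hps⟩ : ∃ ps, ps = P1 q y1 D e A B := ⟨_, rfl⟩
  have e4 : p1 - ps = (y - y1) * ((q ^ 2 + 2 * q) * (y + y1) - D - D ^ 2 + c)
      + (q ^ 3 * (a - e) + 2 * q * D * (b - A) + y1 * (c - B)) := by
    rw [hp1, hps]
    unfold P1
    ring
  have hq2s : q ^ 2 ≤ 1 := pow_le_one₀ hq0.le hq2
  have hq3s : q ^ 3 ≤ 1 := pow_le_one₀ hq0.le hq2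
  have hyy : |y + y1| ≤ K0 + 2 := by
    refine (abs_add_le _ _).trans ?_
    rw [abs_of_nonneg hy1n]
    linarith only [hy, hy12]
  have e5 : |(q ^ 2 + 2 * q) * (y + y1) - D - D ^ 2 + c| ≤ 4 * K0 + 8 := by
    have h1 : |(q ^ 2 + 2 * q) * (y + y1)| ≤ 3 * (K0 + 2) := by
      rw [abs_mul, abs_of_nonneg (by positivity : 0 ≤ q ^ 2 + 2 * q)]
      exact mul_le_mul (by linarith only [hq2s, hq2]) hyy (abs_nonneg _) (by norm_num)
    have h2 := abs_le.1 h1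
    have h3 := abs_le.1 hD
    have h4 := abs_le.1 hc
    have h5 := sq_nonneg D
    rw [abs_le]
    constructor
    · linarith only [h2.1, h3.2, h4.1, hD2]
    · linarith only [h2.2, h3.1, h4.2, h5]
  have e6 : |q ^ 3 * (a - e) + 2 * q * D * (b - A) + y1 * (c - B)| ≤ 5 * K0 * u := by
    have h1 : |q ^ 3 * (a - e)| ≤ K0 * u := by
      rw [abs_mul, abs_of_nonneg (by positivity : 0 ≤ q ^ 3)]
      exact (mul_le_of_le_one_left (abs_nonneg _) hq3s).trans hae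
    have h2 : |2 * q * D * (b - A)| ≤ 2 * (K0 * u) := by
      rw [abs_mul, abs_mul, abs_mul, abs_of_pos hq0, abs_of_pos (by norm_num : (0 : ℝ) < 2)]
      refine mul_le_mul ?_ hbA (abs_nonneg _) (by norm_num)
      calc 2 * q * |D| ≤ 2 * 1 * 1 := mul_le_mul (mul_le_mul_of_nonneg_left hq2 (by norm_num)) hD
            (abs_nonneg _) (by norm_num)
        _ = 2 := by norm_num
    have h3 : |y1 * (c - B)| ≤ 2 * (K0 * u) := by
      rw [abs_mul, abs_of_nonneg hy1n]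
      exact mul_le_mul hy12 hcB (abs_nonneg _) (by norm_num)
    refine (abs_add_le _ _).trans ?_
    have h4 := abs_add_le (q ^ 3 * (a - e)) (2 * q * D * (b - A))
    linarith only [h1, h2, h3, h4]
  have e7 : |p1 - ps| ≤ (8 * K * (4 * K0 + 8) + 5 * K0) * u := by
    rw [e4]
    refine (abs_add_le _ _).trans ?_
    rw [abs_mul]
    have h1 : |y - y1| * |(q ^ 2 + 2 * q) * (y + y1) - D - D ^ 2 + c| ≤
        8 * u * K * (4 * K0 + 8) :=
      mul_le_mul e3 e5 (abs_nonneg _) (by positivity)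
    linarith only [h1, e6]
  have e8 : |q ^ 2 * (y - y1) + u * ps| ≤ u ^ 2 * ((8 * K * (4 * K0 + 8) + 5 * K0) + K) := by
    have h1 : q ^ 2 * (y - y1) + u * ps = -(u * (p1 - ps) + u ^ 2 * p2) := by
      rw [e1]; ring
    rw [h1, abs_neg]
    refine (abs_add_le _ _).trans ?_
    rw [abs_mul, abs_mul, abs_of_pos hu, abs_of_nonneg (sq_nonneg u)]
    have h2 : u * |p1 - ps| ≤ u * ((8 * K * (4 * K0 + 8) + 5 * K0) * u) :=
      mul_le_mul_of_nonneg_left e7 hu.le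
    have h3 : u ^ 2 * |p2| ≤ u ^ 2 * K := mul_le_mul_of_nonneg_left hP2 (sq_nonneg u)
    linarith only [h2, h3]
  -- conclusion
  have e9 : (q / u + y) ^ 2 - (q ^ 2 / u ^ 2 + 2 * D ^ 2 / u - 2 * q ^ 2 * e - 4 * D * A
      + 2 * D ^ 3 / q ^ 2 - (1 + 2 * q) * D ^ 4 / q ^ 2 - 2 * D ^ 2 * B / q ^ 2) =
      2 / (q * u) * (q ^ 2 * (y - y1) + u * ps) + (y - y1) * (y + y1) := by
    rw [hps]
    unfold P1
    rw [hy1]
    field_simp
    ring
  rw [e9]
  refine (abs_add_le _ _).trans ?_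
  rw [abs_mul, abs_mul, abs_of_pos (by positivity : 0 < 2 / (q * u))]
  have h1 : 2 / (q * u) * |q ^ 2 * (y - y1) + u * ps| ≤
      4 * ((8 * K * (4 * K0 + 8) + 5 * K0) + K) * u := by
    have h2 : 2 / (q * u) ≤ 4 / u := by
      rw [div_le_div_iff₀ (by positivity) hu]
      have h3 : u * 1 ≤ u * (2 * q) := mul_le_mul_of_nonneg_left (by linarith only [hq1]) hu.le
      linarith only [h3]
    calc 2 / (q * u) * |q ^ 2 * (y - y1) + u * ps| ≤
        4 / u * (u ^ 2 * ((8 * K * (4 * K0 + 8) + 5 * K0) + K)) :=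
          mul_le_mul h2 e8 (abs_nonneg _) (by positivity)
      _ = 4 * ((8 * K * (4 * K0 + 8) + 5 * K0) + K) * u := by
          field_simp
  have h2 : |y - y1| * |y + y1| ≤ 8 * u * K * (K0 + 2) :=
    mul_le_mul e3 hyy (abs_nonneg _) (by positivity)
  linarith only [h1, h2]

/-- the secular equation in the scaled variables -/
theorem scale {r : ℕ} (hr : 0 < r) (s a : Fin r → ℝ) (n l u q y : ℝ) (hn : 0 < n)
    (hu : u = 1 / n) (hq : q = 1 - 1 / (r : ℝ)) (hy : y = l - q * n) (hs : ∑ t, s t = n)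
    (hd : ∀ t, 0 < l + s t)
    (heq : (1 - ∑ t, s t / (l + s t)) * (l ^ 2 - ∑ t, a t + ∑ t, a t ^ 2 / (l + s t)) =
      l * (∑ t, a t / (l + s t)) ^ 2) :
    Ph q u y (∑ t, a t / n) (∑ t, (s t - n / r) ^ 2 / (1 + u * y + u * (s t - n / r)))
      (∑ t, (a t / n * (s t - n / r)) / (1 + u * y + u * (s t - n / r)))
      (∑ t, (a t / n) ^ 2 / (1 + u * y + u * (s t - n / r))) = 0 := by
  have hr0 : (0 : ℝ) < r := by exact_mod_cast hr
  have hun : u * n = 1 := by rw [hu]; field_simp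
  have hu0 : 0 < u := by rw [hu]; positivity
  have hg : ∀ t, l + s t = n * (1 + u * y + u * (s t - n / r)) := by
    intro t
    have : n * (1 + u * y + u * (s t - n / r)) = n + (u * n) * y + (u * n) * (s t - n / r) := by
      ring
    rw [this, hun, hy, hq]
    ring
  have hg0 : ∀ t, 0 < 1 + u * y + u * (s t - n / r) := by
    intro t
    have h1 := hd t
    rw [hg t] at h1
    exact (mul_pos_iff_of_pos_left hn).1 h1
  obtain ⟨g, hgd⟩ : ∃ g : Fin r → ℝ, g = fun t => 1 + u * y + u * (s t - n / r) := ⟨_, rfl⟩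
  have hgt : ∀ t, 1 + u * y + u * (s t - n / r) = g t := fun t => by rw [hgd]
  simp only [hgt] at hg hg0 ⊢
  have hl : l = n * (q + u * y) := by
    have : n * (q + u * y) = n * q + (u * n) * y := by ring
    rw [this, hun, hy]
    ring
  -- first sum
  have hS : ∑ t, (s t - n / r) = 0 := by
    rw [Finset.sum_sub_distrib, hs, Finset.sum_const, nsmul_eq_mul, Finset.card_univ,
      Fintype.card_fin]
    field_simp
    ring
  have h1 : n * (1 + u * y) ^ 2 * (1 - ∑ t, s t / (l + s t)) =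
      (1 + u * y) * y + u * (q + u * y) * ∑ t, (s t - n / r) ^ 2 / g t := by
    have h2 : ∀ t ∈ (Finset.univ : Finset (Fin r)), n * (1 + u * y) ^ 2 * (s t / (l + s t)) =
        n * (1 + u * y) ^ 2 - l * ((1 + u * y) - u * (s t - n / r)
          + u ^ 2 * ((s t - n / r) ^ 2 / g t)) := by
      intro t _
      have h3 := hg t
      have h4 := (hg0 t).ne'
      have h5 : s t = n * g t - l := by linarith only [h3]
      have h6 : u * (s t - n / r) = g t - (1 + u * y) := by rw [← hgt t]; ring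
      have h7 : u ^ 2 * ((s t - n / r) ^ 2 / g t) = (g t - (1 + u * y)) ^ 2 / g t := by
        rw [← h6]; ring
      rw [h7, h6, h3]
      have h8 : s t / (n * g t) = 1 - l / (n * g t) := by
        rw [h5]
        field_simp
      rw [h8]
      have hn' := hn.ne'
      field_simp
      ring
    have h2s : ∑ t, (n * (1 + u * y) ^ 2 - l * ((1 + u * y) - u * (s t - n / r)
          + u ^ 2 * ((s t - n / r) ^ 2 / g t))) = (r : ℝ) * (n * (1 + u * y) ^ 2) -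
          l * ((r : ℝ) * (1 + u * y) - u * ∑ t, (s t - n / r)
            + u ^ 2 * ∑ t, (s t - n / r) ^ 2 / g t) := by
      rw [Finset.sum_sub_distrib, ← Finset.mul_sum _ _ l, Finset.sum_add_distrib,
        Finset.sum_sub_distrib (f := fun _ => 1 + u * y), ← Finset.mul_sum _ _ u,
        ← Finset.mul_sum _ _ (u ^ 2)]
      simp only [Finset.sum_const, nsmul_eq_mul, Finset.card_univ, Fintype.card_fin]
    rw [mul_sub, mul_one, Finset.mul_sum, Finset.sum_congr rfl h2, h2s, hS]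
    obtain ⟨E, hE⟩ : ∃ E, E = ∑ t, (s t - n / r) ^ 2 / g t := ⟨_, rfl⟩
    rw [← hE]
    have hrq : (r : ℝ) * q = r - 1 := by
      rw [hq]; field_simp
    have hlr : (r : ℝ) * l = n * ((r - 1) + r * (u * y)) := by
      rw [hl, ← hrq]; ring
    have hlu : l * u ^ 2 = u * (q + u * y) := by
      rw [hl]
      calc n * (q + u * y) * u ^ 2 = (u * n) * (u * (q + u * y)) := by ring
        _ = _ := by rw [hun, one_mul]
    calc n * (1 + u * y) ^ 2 - ((r : ℝ) * (n * (1 + u * y) ^ 2) -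
          l * ((r : ℝ) * (1 + u * y) - u * 0 + u ^ 2 * E)) =
        n * (1 + u * y) ^ 2 - (r : ℝ) * (n * (1 + u * y) ^ 2) + (r * l) * (1 + u * y)
          + (l * u ^ 2) * E := by ring
      _ = (u * n) * ((1 + u * y) * y) + u * (q + u * y) * E := by
          rw [hlr, hlu]; ring
      _ = _ := by rw [hun, one_mul]
  -- second sum
  have h2 : (1 + u * y) * ∑ t, a t / (l + s t) =
      ∑ t, a t / n - u * ∑ t, (a t / n * (s t - n / r)) / g t := by
    rw [Finset.mul_sum, Finset.mul_sum, ← Finset.sum_sub_distrib]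
    refine Finset.sum_congr rfl fun t _ => ?_
    have h3 := hg t
    have h4 := (hg0 t).ne'
    have h6 : u * (s t - n / r) = g t - (1 + u * y) := by rw [← hgt t]; ring
    have h7 : u * ((a t / n * (s t - n / r)) / g t) = a t / n * (g t - (1 + u * y)) / g t := by
      rw [← h6]; ring
    rw [h7, h3]
    have hn' := hn.ne'
    field_simp
    ring
  -- third sum
  have h3 : ∑ t, a t ^ 2 / (l + s t) = n * ∑ t, (a t / n) ^ 2 / g t := by
    rw [Finset.mul_sum]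
    refine Finset.sum_congr rfl fun t _ => ?_
    have h3 := hg t
    have h4 := (hg0 t).ne'
    have hn' := hn.ne'
    rw [h3]
    field_simp
  have h4 : ∑ t, a t = n * ∑ t, a t / n := by
    rw [Finset.mul_sum]
    refine Finset.sum_congr rfl fun t _ => ?_
    have hn' := hn.ne'
    field_simp
  unfold Ph
  obtain ⟨E, hE⟩ : ∃ E, E = ∑ t, (s t - n / r) ^ 2 / g t := ⟨_, rfl⟩
  obtain ⟨F, hF⟩ : ∃ F, F = ∑ t, (a t / n * (s t - n / r)) / g t := ⟨_, rfl⟩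
  obtain ⟨R, hR⟩ : ∃ R, R = ∑ t, (a t / n) ^ 2 / g t := ⟨_, rfl⟩
  obtain ⟨D, hD⟩ : ∃ D, D = ∑ t, a t / n := ⟨_, rfl⟩
  obtain ⟨P, hP⟩ : ∃ P, P = ∑ t, s t / (l + s t) := ⟨_, rfl⟩
  obtain ⟨Q, hQ⟩ : ∃ Q, Q = ∑ t, a t / (l + s t) := ⟨_, rfl⟩
  rw [h3, h4, ← hP, ← hQ, ← hR, ← hD] at heq
  rw [← hP, ← hE] at h1
  rw [← hQ, ← hD, ← hF] at h2
  rw [← hE, ← hF, ← hR, ← hD]
  rw [← h1, ← h2]
  have h5 : l ^ 2 - n * D + n * R = n ^ 2 * ((q + u * y) ^ 2 - u * D + u * R) := by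
    have : n ^ 2 * ((q + u * y) ^ 2 - u * D + u * R) =
        (n * (q + u * y)) ^ 2 - (u * n) * (n * D) + (u * n) * (n * R) := by ring
    rw [this, hun, hl]
    ring
  rw [h5] at heq
  have hn2 : n ^ 2 ≠ 0 := by positivity
  apply mul_left_cancel₀ hn2
  rw [mul_zero, mul_sub, sub_eq_zero]
  calc n ^ 2 * (n * (1 + u * y) ^ 2 * (1 - P) * ((q + u * y) ^ 2 - u * D + u * R)) =
      n * (1 + u * y) ^ 2 * ((1 - P) * (n ^ 2 * ((q + u * y) ^ 2 - u * D + u * R))) := by ring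
    _ = n * (1 + u * y) ^ 2 * (l * Q ^ 2) := by rw [heq]
    _ = n ^ 2 * ((q + u * y) * ((1 + u * y) * Q) ^ 2) := by rw [hl]; ring

end SECASx

theorem prfSECAS : SECAS_statement := by
  intro r N C ε hr hε
  have hr0 : (0 : ℝ) < r := by
    have : 0 < r := by omega
    exact_mod_cast this
  have hr3 : (3 : ℝ) ≤ r := by exact_mod_cast hr
  obtain ⟨S, hSd⟩ : ∃ S : ℝ, S = |C| + N + 1 := ⟨_, rfl⟩
  have hN0 : (0 : ℝ) ≤ N := Nat.cast_nonneg N
  have hS1 : 1 ≤ S := by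
    have := abs_nonneg C
    linarith only [this, hSd, hN0]
  -- all weights are at most S
  obtain ⟨K0, hK0d⟩ : ∃ K0 : ℝ, K0 = 2 * r * S + 4 * r * S * S := ⟨_, rfl⟩
  have hSS : 0 ≤ S := by linarith only [hS1]
  have hrS : S ≤ r * S := le_mul_of_one_le_left hSS (by linarith only [hr3])
  have hrSS : 0 ≤ 4 * r * S * S := by positivity
  have hK01 : 1 ≤ K0 := by
    rw [hK0d]
    linarith only [hrS, hS1, hrSS]
  obtain ⟨K, hK, hcore⟩ := SECASx.core K0 hK01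
  refine ⟨⌈K / ε⌉₊ + ⌈4 * S⌉₊ + ⌈2 * r * S⌉₊ + 1, ?_⟩
  intro n σ a l hn hσ hdev ha hl heq
  have hn1 : K / ε ≤ n := by
    refine (Nat.le_ceil _).trans ?_
    have : ⌈K / ε⌉₊ ≤ n := by omega
    exact_mod_cast this
  have hn2 : 4 * S ≤ n := by
    refine (Nat.le_ceil _).trans ?_
    have : ⌈4 * S⌉₊ ≤ n := by omega
    exact_mod_cast this
  have hn3 : 2 * r * S ≤ n := by
    refine (Nat.le_ceil _).trans ?_
    have : ⌈2 * r * S⌉₊ ≤ n := by omega
    exact_mod_cast this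
  have hn0 : (0 : ℝ) < n := by linarith only [hn2, hS1]
  have hσ' : ∑ t, (σ t : ℝ) = n := by exact_mod_cast hσ
  obtain ⟨q, hq⟩ : ∃ q : ℝ, q = 1 - 1 / (r : ℝ) := ⟨_, rfl⟩
  have hqq : qq r = q := hq.symm
  have hq1 : 1 / 2 ≤ q := by
    rw [hq]
    have : 1 / (r : ℝ) ≤ 1 / 3 := one_div_le_one_div_of_le (by norm_num) hr3
    linarith only [this]
  have hq2 : q ≤ 1 := by
    rw [hq]
    have : 0 < 1 / (r : ℝ) := by positivity
    linarith only [this]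
  rw [hqq] at hl
  obtain ⟨y, hy⟩ : ∃ y : ℝ, y = l - q * n := ⟨_, rfl⟩
  obtain ⟨u, hu⟩ : ∃ u : ℝ, u = 1 / (n : ℝ) := ⟨_, rfl⟩
  have hu0 : 0 < u := by rw [hu]; positivity
  have hyS : |y| ≤ S := by
    rw [hy]
    refine hl.trans ((le_abs_self C).trans ?_)
    linarith only [hSd, hN0]
  have hun : u * n = 1 := by rw [hu]; field_simp
  have huS : u * S ≤ 1 / 4 := by
    have h1 : u * (4 * S) ≤ u * n := mul_le_mul_of_nonneg_left hn2 hu0.le
    rw [hun] at h1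
    linarith only [h1]
  have hu1 : u ≤ 1 := by
    have h1 : u * 1 ≤ u * S := mul_le_mul_of_nonneg_left hS1 hu0.le
    linarith only [h1, huS]
  have hdev' : ∑ t, ((σ t : ℝ) - n / r) ^ 2 ≤ N := by
    have := hdev
    unfold dev at this
    rw [hσ'] at this
    exact this
  have hδ2 : ∀ t, ((σ t : ℝ) - n / r) ^ 2 ≤ N := fun t =>
    (Finset.single_le_sum (f := fun t => ((σ t : ℝ) - n / r) ^ 2)
      (fun i _ => sq_nonneg _) (Finset.mem_univ t)).trans hdev'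
  have hNS : (N : ℝ) ≤ S := by
    have := abs_nonneg C
    linarith only [this, hSd]
  have hδ : ∀ t, |(σ t : ℝ) - n / r| ≤ S := by
    intro t
    refine abs_le_of_sq_le_sq ?_ hSS
    refine (hδ2 t).trans (hNS.trans ?_)
    rw [sq]
    exact le_mul_of_one_le_left hSS hS1
  have hpos : ∀ t, 0 < l + (σ t : ℝ) := by
    intro t
    have h1 := abs_le.1 hyS
    have h2 := Nat.cast_nonneg (α := ℝ) (σ t)
    have h3 : (1 / 2 : ℝ) * n ≤ q * n := mul_le_mul_of_nonneg_right hq1 hn0.le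
    linarith only [h1.1, h2, h3, hy, hn2, hS1]
  have hPh := SECASx.scale (by omega) (fun t => (σ t : ℝ)) (fun t => (a t : ℝ)) n l u q y hn0 hu
    hq hy hσ' hpos heq
  -- the weights
  have han : ∀ t, (a t : ℝ) ≤ n := by
    intro t
    have h1 : (a t : ℝ) ≤ σ t := by exact_mod_cast ha t
    have h2 : (σ t : ℝ) ≤ ∑ t, (σ t : ℝ) :=
      Finset.single_le_sum (f := fun t => (σ t : ℝ)) (fun i _ => Nat.cast_nonneg _)
        (Finset.mem_univ t)
    rw [hσ'] at h2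
    exact h1.trans h2
  have hθ0 : ∀ t, 0 ≤ (a t : ℝ) / n := fun t => by positivity
  have hθ1 : ∀ t, (a t : ℝ) / n ≤ 1 := fun t => (div_le_one hn0).2 (han t)
  have hθ : ∀ t, |(a t : ℝ) / n| ≤ 1 := fun t => by rw [abs_of_nonneg (hθ0 t)]; exact hθ1 t
  have w1 : ∀ t, |((σ t : ℝ) - n / r) ^ 2| ≤ S := fun t => by
    rw [abs_of_nonneg (sq_nonneg _)]
    exact (hδ2 t).trans hNS
  have w2 : ∀ t, |(a t : ℝ) / n * ((σ t : ℝ) - n / r)| ≤ S := fun t => by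
    rw [abs_mul]
    exact (mul_le_of_le_one_left (abs_nonneg _) (hθ t)).trans (hδ t)
  have w3 : ∀ t, |((a t : ℝ) / n) ^ 2| ≤ S := fun t => by
    rw [abs_of_nonneg (sq_nonneg _)]
    exact (pow_le_one₀ (hθ0 t) (hθ1 t)).trans hS1
  have gen : ∀ w : Fin r → ℝ, (∀ t, |w t| ≤ S) →
      |∑ t, w t / (1 + u * y + u * ((σ t : ℝ) - n / r)) - ∑ t, w t| ≤ K0 * u ∧
      |∑ t, w t / (1 + u * y + u * ((σ t : ℝ) - n / r))| ≤ K0 := by
    intro w hw
    have h1 := SECASx.wsum w (fun t => (σ t : ℝ) - n / r) u y S S hw hδ hu0.le hyS huS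
    have h2 : |∑ t, w t| ≤ r * S := by
      refine (Finset.abs_sum_le_sum_abs _ _).trans ?_
      refine (Finset.sum_le_sum (fun t _ => hw t)).trans ?_
      rw [Finset.sum_const, nsmul_eq_mul, Finset.card_univ, Fintype.card_fin]
    have h3 : (r : ℝ) * (4 * u * S * S) ≤ K0 * u := by
      rw [hK0d]
      have h4 : 0 ≤ 2 * (r : ℝ) * S * u := by positivity
      linarith only [h4]
    have h5 : (r : ℝ) * (4 * u * S * S) ≤ r * S := by
      have h6 : (r : ℝ) * S * (4 * (u * S)) ≤ r * S * 1 :=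
        mul_le_mul_of_nonneg_left (by linarith only [huS]) (by positivity)
      linarith only [h6]
    refine ⟨h1.trans h3, ?_⟩
    have h7 := abs_add_le (∑ t, w t / (1 + u * y + u * ((σ t : ℝ) - n / r)) - ∑ t, w t)
      (∑ t, w t)
    rw [sub_add_cancel] at h7
    refine h7.trans ?_
    rw [hK0d]
    linarith only [h1, h2, h5, hrSS]
  obtain ⟨g1, g1'⟩ := gen _ w1
  obtain ⟨g2, g2'⟩ := gen _ w2
  obtain ⟨g3, g3'⟩ := gen _ w3
  have hyK : |y| ≤ K0 := by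
    refine hyS.trans ?_
    rw [hK0d]
    linarith only [hrS, hrSS, hS1]
  have hD : |∑ t, (a t : ℝ) / n| ≤ 1 := by
    rw [← Finset.sum_div, abs_of_nonneg (by positivity), div_le_one hn0, ← hσ']
    exact Finset.sum_le_sum (fun t _ => by exact_mod_cast ha t)
  have hfin := hcore q u y (∑ t, (a t : ℝ) / n) _ _ _ _ _ _ hq1 hq2 hu0 hu1 hyK hD g1' g2' g3'
    g1 g2 g3 hPh
  have hKε : K * u ≤ ε := by
    rw [div_le_iff₀ hε] at hn1
    have h1 : u * K ≤ u * (n * ε) := mul_le_mul_of_nonneg_left hn1 hu0.le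
    have h2 : u * (n * ε) = ε := by rw [← mul_assoc, hun, one_mul]
    linarith only [h1, h2]
  refine le_trans (le_of_eq ?_) (hfin.trans hKε)
  congr 1
  have hl' : l = q / u + y := by
    rw [hy, hu]
    field_simp
    ring
  rw [← hl']
  congr 1
  unfold Mu dev
  simp only [hσ', hqq]
  rw [← Finset.sum_div]
  have hs1 : ∑ t, ((a t : ℝ) / n * ((σ t : ℝ) - n / r)) =
      (∑ t, (a t : ℝ) * ((σ t : ℝ) - n / r)) / n := by
    rw [Finset.sum_div]
    refine Finset.sum_congr rfl fun t _ => ?_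
    ring
  have hs2 : ∑ t, ((a t : ℝ) / n) ^ 2 = (∑ t, (a t : ℝ) ^ 2) / n ^ 2 := by
    rw [Finset.sum_div]
    refine Finset.sum_congr rfl fun t _ => ?_
    ring
  rw [hs1, hs2, hu]
  have hq0 : q ≠ 0 := by
    have : 0 < q := by linarith only [hq1]
    exact this.ne'
  have hn' := hn0.ne'
  obtain ⟨d, hd⟩ : ∃ d, d = ∑ t, (a t : ℝ) := ⟨_, rfl⟩
  obtain ⟨A, hA⟩ : ∃ A, A = ∑ t, (a t : ℝ) * ((σ t : ℝ) - n / r) := ⟨_, rfl⟩
  obtain ⟨B, hB⟩ : ∃ B, B = ∑ t, (a t : ℝ) ^ 2 := ⟨_, rfl⟩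
  obtain ⟨E, hE⟩ : ∃ E, E = ∑ t, ((σ t : ℝ) - n / r) ^ 2 := ⟨_, rfl⟩
  rw [← hd, ← hA, ← hB, ← hE]
  field_simp

end MP0c3a8f
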