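import Pool.Agent.Work.MP_0c3a8f_co.PB.Stmts

/-!
# MP_0c3a8f_co, phase B: item SW1
-/

open Finset

namespace MP0c3a8f

namespace SW1

lemma adj_comm {V : Type} (H : SimpleGraph V) (v w : V) : adj H v w = adj H w v := by
  unfold adj
  by_cases h : H.Adj v w
  · rw [if_pos h, if_pos h.symm]
  · rw [if_neg h, if_neg fun h' => h h'.symm]

lemma qf_eq {V : Type} [Fintype V] (H : SimpleGraph V) (x : V → ℝ) :
    qf H x = ∑ v, x v * nb H x v := by
  unfold qf nb
  refine Finset.sum_congr rfl fun v _ => ?_
  rw [Finset.mul_sum]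
  refine Finset.sum_congr rfl fun w _ => ?_
  ring

open Classical in
lemma shift {V : Type} [Fintype V] (H : SimpleGraph V) (a b : V) (hab : H.Adj a b)
    (x : V → ℝ) (D : ℝ) :
    qf H (fun v => x v + ((if v = a then D else 0) - if v = b then D else 0)) =
      qf H x + 2 * D * (nb H x a - nb H x b) - 2 * D ^ 2 := by
  have hs : ∀ f : V → ℝ, ∑ w, f w * ((if w = a then D else 0) - if w = b then D else 0) =
      f a * D - f b * D := by
    intro f
    simp only [mul_sub, Finset.sum_sub_distrib, mul_ite, mul_zero, Finset.sum_ite_eq',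
      Finset.mem_univ, if_true]
  have hrow : ∀ v, ∑ w, adj H v w * ((if w = a then D else 0) - if w = b then D else 0) =
      adj H v a * D - adj H v b * D := fun v => hs _
  have e1 : qf H (fun v => x v + ((if v = a then D else 0) - if v = b then D else 0)) =
      qf H x + ∑ v, ((if v = a then D else 0) - if v = b then D else 0) * nb H x v +
      ∑ v, x v * (adj H v a * D - adj H v b * D) +
      ∑ v, ((if v = a then D else 0) - if v = b then D else 0) *
        (adj H v a * D - adj H v b * D) := by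
    unfold qf nb
    simp only [← hrow, Finset.mul_sum, ← Finset.sum_add_distrib]
    refine Finset.sum_congr rfl fun v _ => Finset.sum_congr rfl fun w _ => ?_
    ring
  have e2 : ∑ v, ((if v = a then D else 0) - if v = b then D else 0) * nb H x v =
      nb H x a * D - nb H x b * D := by
    rw [← hs]
    refine Finset.sum_congr rfl fun v _ => mul_comm _ _
  have e3 : ∑ v, x v * (adj H v a * D - adj H v b * D) = nb H x a * D - nb H x b * D := by
    unfold nb
    rw [Finset.sum_mul, Finset.sum_mul, ← Finset.sum_sub_distrib]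
    refine Finset.sum_congr rfl fun v _ => ?_
    rw [adj_comm H v a, adj_comm H v b]
    ring
  have e4 : ∑ v, ((if v = a then D else 0) - if v = b then D else 0) *
        (adj H v a * D - adj H v b * D) = -2 * D ^ 2 := by
    have : ∑ v, ((if v = a then D else 0) - if v = b then D else 0) *
        (adj H v a * D - adj H v b * D) = ∑ v, (adj H v a * D - adj H v b * D) *
        ((if v = a then D else 0) - if v = b then D else 0) :=
      Finset.sum_congr rfl fun v _ => mul_comm _ _
    rw [this, hs]
    have h1 : adj H a a = 0 := by simp [adj]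
    have h2 : adj H b b = 0 := by simp [adj]
    have h3 : adj H a b = 1 := by simp [adj, hab]
    have h4 : adj H b a = 1 := by simp [adj, hab.symm]
    rw [h1, h2, h3, h4]
    ring
  rw [e1, e2, e3, e4]
  ring

open Classical in
lemma sq {V : Type} [Fintype V] (a b : V) (hab : a ≠ b) (x : V → ℝ) (D : ℝ) :
    ∑ v, (x v + ((if v = a then D else 0) - if v = b then D else 0)) ^ 2 =
      ∑ v, x v ^ 2 + 2 * D * (x a - x b) + 2 * D ^ 2 := by
  have h : ∀ v, (x v + ((if v = a then D else 0) - if v = b then D else 0)) ^ 2 =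
      x v ^ 2 + (if v = a then 2 * D * x v + D ^ 2 else 0) +
        (if v = b then -(2 * D * x v) + D ^ 2 else 0) := by
    intro v
    by_cases ha : v = a
    · have hb : v ≠ b := fun hb => hab (ha.symm.trans hb)
      rw [if_pos ha, if_neg hb, if_pos ha, if_neg hb]
      ring
    · by_cases hb : v = b
      · rw [if_neg ha, if_pos hb, if_neg ha, if_pos hb]
        ring
      · rw [if_neg ha, if_neg hb, if_neg ha, if_neg hb]
        ring
  rw [Finset.sum_congr rfl fun v _ => h v, Finset.sum_add_distrib, Finset.sum_add_distrib,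
    Finset.sum_ite_eq' Finset.univ a, Finset.sum_ite_eq' Finset.univ b]
  simp only [Finset.mem_univ, if_true]
  ring

open Classical in
/-- the entry of an edge -/
noncomputable def ed {V : Type} (u v a b : V) : ℝ := if a = u then (if b = v then 1 else 0) else 0

lemma ed_self {V : Type} (u v : V) : ed u v u v = 1 := by
  unfold ed
  rw [if_pos rfl, if_pos rfl]

lemma ed_zero {V : Type} {u v a b : V} (h : ¬ (a = u ∧ b = v)) : ed u v a b = 0 := by
  unfold ed
  split_ifs with h1 h2
  · exact absurd ⟨h1, h2⟩ h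
  · rfl
  · rfl

open Classical in
lemma sum_ed {V : Type} [Fintype V] (u v a : V) (x : V → ℝ) :
    ∑ b, ed u v a b * x b = if a = u then x v else 0 := by
  unfold ed
  by_cases ha : a = u
  · simp only [if_pos ha, ite_mul, one_mul, zero_mul, Finset.sum_ite_eq', Finset.mem_univ,
      if_true]
  · simp only [if_neg ha, zero_mul, Finset.sum_const_zero]

/-- entries of `G'` -/
lemma adj_eq {V : Type} {r : ℕ} {G G' : SimpleGraph V} {f : V → Option (Fin r)}
    {w p p' c : V} {i j k : Fin r} (hG : Ty1 G f w p p' i j) (hG' : Ty1 G' f w c p' k j)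
    (hki : k ≠ i) (hw : ∀ y, G'.Adj w y ↔ G.Adj w y) (a b : V) :
    adj G' a b + ed c p' a b + ed p' c a b = adj G a b + ed p p' a b + ed p' p a b := by
  have hpn : f p ≠ none := by rw [hG.hp]; simp
  have hpn' : f p' ≠ none := by rw [hG.hp']; simp
  have hcn : f c ≠ none := by rw [hG'.hp]; simp
  have hpp : p ≠ p' := fun h => hG.ij (by
    have := hG.hp'
    rw [← h, hG.hp] at this
    exact Option.some.inj this)
  have hcp' : c ≠ p' := fun h => hG'.ij (by
    have := hG'.hp'
    rw [← h, hG'.hp] at this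
    exact Option.some.inj this)
  have hcp : c ≠ p := fun h => hki (by
    have := hG.hp
    rw [← h, hG'.hp] at this
    exact Option.some.inj this)
  have hfpp : f p ≠ f p' := by
    rw [hG.hp, hG.hp']
    exact fun h => hG.ij (Option.some.inj h)
  have hfcp : f c ≠ f p' := by
    rw [hG'.hp, hG'.hp']
    exact fun h => hG'.ij (Option.some.inj h)
  -- the adjacencies
  have g1 : ¬ G.Adj p p' := fun h => ((hG.core p p' hpn hpn').1 h).2 rfl
  have g2 : ¬ G'.Adj c p' := fun h => ((hG'.core c p' hcn hpn').1 h).2 rfl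
  have g3 : G'.Adj p p' := (hG'.core p p' hpn hpn').2 ⟨hfpp, fun h => by
    rw [Sym2.eq_iff] at h
    rcases h with h | h
    · exact hcp h.1.symm
    · exact hpp h.1⟩
  have g4 : G.Adj c p' := (hG.core c p' hcn hpn').2 ⟨hfcp, fun h => by
    rw [Sym2.eq_iff] at h
    rcases h with h | h
    · exact hcp h.1
    · exact hcp' h.1⟩
  by_cases h1 : a = p ∧ b = p'
  · obtain ⟨rfl, rfl⟩ := h1
    rw [ed_self, ed_zero (fun h => hcp h.1.symm), ed_zero (fun h => hpp h.1),
      ed_zero (fun h => hpp h.1)]
    unfold adj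
    rw [if_pos g3, if_neg g1]
    ring
  by_cases h2 : a = p' ∧ b = p
  · obtain ⟨rfl, rfl⟩ := h2
    rw [ed_self, ed_zero (fun h => hcp' h.1.symm), ed_zero (fun h => hcp h.2.symm),
      ed_zero (fun h => hpp h.1.symm)]
    unfold adj
    rw [if_pos g3.symm, if_neg (fun h => g1 h.symm)]
    ring
  by_cases h3 : a = c ∧ b = p'
  · obtain ⟨rfl, rfl⟩ := h3
    rw [ed_self, ed_zero h1, ed_zero h2, ed_zero (fun h => hcp' h.1)]
    unfold adj
    rw [if_neg g2, if_pos g4]
    ring
  by_cases h4 : a = p' ∧ b = c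
  · obtain ⟨rfl, rfl⟩ := h4
    rw [ed_self, ed_zero h1, ed_zero h2, ed_zero h3]
    unfold adj
    rw [if_neg (fun h => g2 h.symm), if_pos g4.symm]
    ring
  rw [ed_zero h1, ed_zero h2, ed_zero h3, ed_zero h4]
  simp only [add_zero]
  have key : G'.Adj a b ↔ G.Adj a b := by
    by_cases ha : a = w
    · rw [ha]
      exact hw b
    · by_cases hb : b = w
      · rw [hb, SimpleGraph.adj_comm G' a w, SimpleGraph.adj_comm G a w]
        exact hw a
      · have hfa : f a ≠ none := fun h => ha ((hG.out a).1 h)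
        have hfb : f b ≠ none := fun h => hb ((hG.out b).1 h)
        rw [hG.core a b hfa hfb, hG'.core a b hfa hfb]
        have k1 : s(a, b) ≠ s(c, p') := fun h => by
          rw [Sym2.eq_iff] at h
          rcases h with h | h
          · exact h3 h
          · exact h4 h
        have k2 : s(a, b) ≠ s(p, p') := fun h => by
          rw [Sym2.eq_iff] at h
          rcases h with h | h
          · exact h1 h
          · exact h2 h
        exact ⟨fun h => ⟨h.1, k2⟩, fun h => ⟨h.1, k1⟩⟩
  unfold adj
  by_cases h5 : G.Adj a b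
  · rw [if_pos h5, if_pos (key.2 h5)]
  · rw [if_neg h5, if_neg fun h6 => h5 (key.1 h6)]

open Classical in
lemma nb_eq {V : Type} [Fintype V] {r : ℕ} {G G' : SimpleGraph V} {f : V → Option (Fin r)}
    {w p p' c : V} {i j k : Fin r} (hG : Ty1 G f w p p' i j) (hG' : Ty1 G' f w c p' k j)
    (hki : k ≠ i) (hw : ∀ y, G'.Adj w y ↔ G.Adj w y) (x : V → ℝ) (a : V) :
    nb G' x a + (if a = c then x p' else 0) + (if a = p' then x c else 0) =
      nb G x a + (if a = p then x p' else 0) + (if a = p' then x p else 0) := by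
  unfold nb
  rw [← sum_ed c p' a x, ← sum_ed p' c a x, ← sum_ed p p' a x, ← sum_ed p' p a x,
    ← Finset.sum_add_distrib, ← Finset.sum_add_distrib, ← Finset.sum_add_distrib,
    ← Finset.sum_add_distrib]
  refine Finset.sum_congr rfl fun b _ => ?_
  rw [← add_mul, ← add_mul, ← add_mul, ← add_mul, adj_eq hG hG' hki hw a b]

lemma qf_move {V : Type} [Fintype V] {r : ℕ} {G G' : SimpleGraph V} {f : V → Option (Fin r)}
    {w p p' c : V} {i j k : Fin r} (hG : Ty1 G f w p p' i j) (hG' : Ty1 G' f w c p' k j)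
    (hki : k ≠ i) (hw : ∀ y, G'.Adj w y ↔ G.Adj w y) (x : V → ℝ) :
    qf G' x = qf G x + 2 * (x p * x p') - 2 * (x c * x p') := by
  classical
  rw [qf_eq, qf_eq]
  have h : ∀ v, x v * nb G' x v + (if v = c then x v * x p' else 0) +
      (if v = p' then x v * x c else 0) = x v * nb G x v +
      (if v = p then x v * x p' else 0) + (if v = p' then x v * x p else 0) := by
    intro v
    have := congrArg (fun t => x v * t) (nb_eq hG hG' hki hw x v)
    simp only [mul_add, mul_ite, mul_zero] at this
    exact this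
  have h2 := Finset.sum_congr (rfl : (Finset.univ : Finset V) = Finset.univ) fun v _ => h v
  rw [Finset.sum_add_distrib, Finset.sum_add_distrib, Finset.sum_add_distrib,
    Finset.sum_add_distrib, Finset.sum_ite_eq', Finset.sum_ite_eq', Finset.sum_ite_eq',
    Finset.sum_ite_eq'] at h2
  simp only [Finset.mem_univ, if_true] at h2
  linarith

/-- the real inequality -/
lemma real {r n T Xk Xi xp' l D : ℝ} (hr : 3 ≤ r) (hn : 9 ≤ n) (hT : 0 < T) (hl : n / 2 ≤ l)
    (h1 : xp' ≤ 2 * T / n) (h2 : (1 - 1 / (4 * r)) * T / n ≤ xp')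
    (h3 : T / (2 * n) ≤ Xk - Xi) (h4 : Xk - Xi ≤ (1 - 1 / r + 1 / (4 * r)) * T / n)
    (hD : l * D = Xi - Xk + xp') : 0 < D ∧ D < Xk - Xi := by
  have hn0 : 0 < n := by linarith
  have hr0 : 0 < r := by linarith
  have hl0 : 0 < l := by linarith
  have e1 : 0 < l * D := by
    have : (1 - 1 / (4 * r)) * T / n - (1 - 1 / r + 1 / (4 * r)) * T / n = T / (2 * r * n) := by
      field_simp
      ring
    have h5 : 0 < T / (2 * r * n) := by positivity
    rw [hD]
    linarith
  have hD0 : 0 < D := (mul_pos_iff_of_pos_left hl0).1 e1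
  refine ⟨hD0, ?_⟩
  have h6 : n / 2 * D ≤ 2 * T / n := by
    have h7 : n / 2 * D ≤ l * D := mul_le_mul_of_nonneg_right hl hD0.le
    have h8 : 0 < T / (2 * n) := by positivity
    linarith
  have h9 : D ≤ 4 * T / n ^ 2 := by
    rw [le_div_iff₀ (by positivity)]
    rw [le_div_iff₀ hn0] at h6
    nlinarith
  have h10 : 4 * T / n ^ 2 < T / (2 * n) := by
    rw [div_lt_div_iff₀ (by positivity) (by positivity)]
    nlinarith [mul_pos hT hn0]
  linarith

end SW1

theorem prfSW1 : P_statement → EIG1_statement → GAP1_statement → SW1_statement := by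
  intro hP hE hGap r ε hr hε
  classical
  obtain ⟨n₀, hn₀⟩ := hGap r ε hr hε
  refine ⟨max n₀ 9, ?_⟩
  intro V _ G G' f w p p' c i j k n hn hG hG' hbal hlow hup hki hw hwp hwc hnk hs
  have hn0 : n₀ ≤ n := (le_max_left _ _).trans hn
  have hn9 : 9 ≤ n := (le_max_right _ _).trans hn
  have : Nonempty V := ⟨w⟩
  obtain ⟨-, -, x, hx, hx1, hxe⟩ := hP V G
  obtain ⟨-, hq, -⟩ := hP V G'
  have hx0 : x ≠ 0 := by
    rintro rfl
    simp at hx1
  obtain ⟨g1, g2, g3, g4, g5⟩ := hn₀ V G f w p p' i j x n hn0 hG hbal hlow hup hx hx0 hxe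
  obtain ⟨q1, q2, -, -, -⟩ := hE r V G f w p p' i j x (lam G) hG hxe
  have hpn : f p ≠ none := by rw [hG.hp]; simp
  have hpn' : f p' ≠ none := by rw [hG.hp']; simp
  have hcn : f c ≠ none := by rw [hG'.hp]; simp
  have hcp' : c ≠ p' := fun h => hG'.ij (by
    have := hG'.hp'
    rw [← h, hG'.hp] at this
    exact Option.some.inj this)
  have hcp : c ≠ p := fun h => hki (by
    have := hG.hp
    rw [← h, hG'.hp] at this
    exact Option.some.inj this)
  have hpp : p ≠ p' := fun h => hG.ij (by
    have := hG.hp'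
    rw [← h, hG.hp] at this
    exact Option.some.inj this)
  have a1 := q1 c k hG'.hp hcp hcp'
  rw [if_pos hwc] at a1
  rw [if_pos hwp] at q2
  obtain ⟨b1, b2⟩ := g5 k i hs
  have b3 := b2 hnk.le
  obtain ⟨c1, c2⟩ := g4 p' hpn'
  set D := x c - x p with hDdef
  have hD : lam G * D = cw x f (some i) - cw x f (some k) + x p' := by
    rw [hDdef, mul_sub, a1, q2]
    ring
  obtain ⟨d1, d2⟩ := SW1.real (r := r) (n := n) (T := ∑ s, cw x f (some s))
    (Xk := cw x f (some k)) (Xi := cw x f (some i)) (xp' := x p') (l := lam G) (D := D)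
    (by exact_mod_cast hr) (by exact_mod_cast hn9) g2 g1 c1 c2 b1 b3 hD
  have hadj : G'.Adj p c := (hG'.core p c hpn hcn).2 ⟨by
    rw [hG.hp, hG'.hp]
    exact fun h => hki (Option.some.inj h).symm, fun h => by
    rw [Sym2.eq_iff] at h
    rcases h with h | h
    · exact hcp' h.2
    · exact hpp h.1⟩
  have e1 := SW1.shift G' p c hadj x D
  have e2 := SW1.sq p c hcp.symm x D
  have e3 := SW1.qf_move hG hG' hki hw x
  have n1 := SW1.nb_eq hG hG' hki hw x p
  have n2 := SW1.nb_eq hG hG' hki hw x c
  rw [if_neg hcp.symm, if_neg hpp, if_pos rfl, if_neg hpp] at n1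
  rw [if_pos rfl, if_neg hcp', if_neg hcp, if_neg hcp'] at n2
  have n3 : nb G x p = lam G * x p := hxe p
  have n4 : nb G x c = lam G * x c := hxe c
  have n5 : qf G x = lam G := by
    rw [SW1.qf_eq]
    have : ∀ v, x v * nb G x v = lam G * x v ^ 2 := by
      intro v
      have : nb G x v = lam G * x v := hxe v
      rw [this]
      ring
    rw [Finset.sum_congr rfl fun v _ => this v, ← Finset.mul_sum, hx1, mul_one]
  have e4 := hq (fun v => x v + ((if v = p then D else 0) - if v = c then D else 0))
  have e5 : ∑ v, (x v + ((if v = p then D else 0) - if v = c then D else 0)) ^ 2 = 1 := by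
    rw [e2, hx1, hDdef]
    ring
  rw [e5, mul_one, e1, e3, n5] at e4
  have e6 : nb G' x p - nb G' x c = 2 * x p' - lam G * D := by
    rw [hDdef]
    linarith
  rw [e6, hD] at e4
  have e7 : 0 < 2 * D * ((cw x f (some k) - cw x f (some i)) - D) :=
    mul_pos (by linarith) (by linarith)
  have e8 : x c = x p + D := by rw [hDdef]; ring
  rw [e8] at e4
  nlinarith

end MP0c3a8f
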