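import Pool.Agent.Work.MP_0c3a8f_co.PB.Stmts

set_option autoImplicit false

open Finset

namespace MP0c3a8f

namespace TOP2

theorem qq_bounds {r : ℕ} (hr : 3 ≤ r) : 2 / 3 ≤ qq r ∧ qq r ≤ 1 := by
  have hr' : (3 : ℝ) ≤ r := by exact_mod_cast hr
  have h1 : 0 < 1 / (r : ℝ) := by positivity
  have h2 : 1 / (r : ℝ) ≤ 1 / 3 := one_div_le_one_div_of_le (by norm_num) hr'
  unfold qq
  constructor <;> linarith

theorem siz_dev {r : ℕ} (σ : Fin r → ℕ) (t : Fin r) :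
    ((σ t : ℝ) - (∑ s, (σ s : ℝ)) / r) ^ 2 ≤ dev σ := by
  unfold dev
  exact Finset.single_le_sum (f := fun t => ((σ t : ℝ) - (∑ s, (σ s : ℝ)) / r) ^ 2)
    (fun i _ => sq_nonneg _) (Finset.mem_univ t)

theorem abs_dev {r : ℕ} (σ : Fin r → ℕ) (B : ℝ) (hB : 1 ≤ B) (h : dev σ ≤ B) (t : Fin r) :
    |(σ t : ℝ) - (∑ s, (σ s : ℝ)) / r| ≤ B := by
  apply abs_le_of_sq_le_sq _ (by linarith)
  have := siz_dev σ t
  nlinarith

/-- bound for `Kx` -/
theorem kx_bound (r n D : ℕ) (hr : 3 ≤ r) (hn : 1 ≤ n) (hD : (D : ℝ) ≤ qq r * n)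
    (σ a : Fin r → ℕ) (hσ : ∑ t, σ t = n) (hdev : dev σ ≤ r) (ha : ∀ t, a t ≤ σ t)
    (hsum : ∑ t, a t + r = D) :
    Kx r n D σ a ≤ 2 * D * (qq r - D / n) + (3 + 7 * r + 2 * (r : ℝ) ^ 3) := by
  have hr' : (3 : ℝ) ≤ r := by exact_mod_cast hr
  have hn' : (1 : ℝ) ≤ n := by exact_mod_cast hn
  obtain ⟨q1, q2⟩ := qq_bounds hr
  have hsum' : (∑ t, (a t : ℝ)) = D - r := by
    have : (∑ t, (a t : ℝ)) + r = D := by exact_mod_cast hsum
    linarith
  have hσ' : (∑ t, (σ t : ℝ)) = n := by exact_mod_cast hσ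
  have hdev0 : 0 ≤ dev σ := by unfold dev; positivity
  unfold Kx
  rw [hsum']
  set q := qq r with hq
  set x : ℝ := (D : ℝ) / (q * n) with hx
  have hqn : 0 < q * n := by positivity
  have hx0 : 0 ≤ x := by rw [hx]; positivity
  have hx1 : x ≤ 1 := by rw [hx, div_le_one hqn]; exact hD
  have hr0 : (0 : ℝ) < r := by linarith
  -- the terms
  have t1 : q ^ 2 * x ^ 4 * (1 + 2 * q) - 2 * q * x ^ 3 ≤ 3 := by
    have h1 : q ^ 2 ≤ 1 := pow_le_one₀ (by linarith) q2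
    have h2 : x ^ 4 ≤ 1 := pow_le_one₀ hx0 hx1
    have h3 : 0 ≤ x ^ 3 := by positivity
    have h4 : q ^ 2 * x ^ 4 ≤ 1 := mul_le_one₀ h1 (by positivity) h2
    have h5 : q ^ 2 * x ^ 4 * (1 + 2 * q) ≤ 1 * 3 :=
      mul_le_mul h4 (by linarith) (by linarith) (by norm_num)
    nlinarith
  have hA : ∀ t, (r * (a t : ℝ) / n) ≤ r ∧ 0 ≤ (r * (a t : ℝ) / n) := by
    intro t
    refine ⟨?_, by positivity⟩
    rw [div_le_iff₀ (by linarith)]
    apply mul_le_mul_of_nonneg_left _ hr0.le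
    have h1 : σ t ≤ n := by
      rw [← hσ]
      exact Finset.single_le_sum (f := σ) (fun _ _ => Nat.zero_le _) (Finset.mem_univ t)
    exact_mod_cast (ha t).trans h1
  have a1 : (1 - 2 * x) * ((D : ℝ) - r - D) ≤ r := by
    have e1 : (1 - 2 * x) * ((D : ℝ) - r - D) = (2 * x - 1) * r := by ring
    have e2 : (2 * x - 1) * r ≤ 1 * r := mul_le_mul_of_nonneg_right (by linarith) hr0.le
    linarith
  have a2 : (1 / 2 - 1 / (r : ℝ)) * dev σ ≤ r / 2 := by
    have h1 : 0 < 1 / (r : ℝ) := by positivity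
    calc (1 / 2 - 1 / (r : ℝ)) * dev σ ≤ 1 / 2 * dev σ := by
          apply mul_le_mul_of_nonneg_right _ hdev0
          linarith
      _ ≤ 1 / 2 * r := by linarith
      _ = r / 2 := by ring
  have a3 : 2 * x / r * ∑ t, (r * (a t : ℝ) / n) * ((σ t : ℝ) - n / r) ≤ (r : ℝ) ^ 3 := by
    have h1 : ∑ t, (r * (a t : ℝ) / n) * ((σ t : ℝ) - n / r) ≤ (r : ℝ) ^ 3 := by
      calc ∑ t, (r * (a t : ℝ) / n) * ((σ t : ℝ) - n / r) ≤ ∑ _t : Fin r, (r : ℝ) ^ 2 := by
            apply Finset.sum_le_sum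
            intro t _
            have h2 := abs_dev σ r (by linarith) hdev t
            rw [hσ'] at h2
            have h3 := (abs_le.1 h2).2
            obtain ⟨h4, h5⟩ := hA t
            nlinarith [mul_le_mul_of_nonneg_left h3 h5]
        _ = (r : ℝ) ^ 3 := by
            rw [Finset.sum_const, Finset.card_univ, Fintype.card_fin, nsmul_eq_mul]; ring
    have h2 : 2 * x / r ≤ 1 := by
      rw [div_le_one hr0]; linarith
    have h3 : 0 ≤ 2 * x / r := by positivity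
    calc _ ≤ 2 * x / r * (r : ℝ) ^ 3 := mul_le_mul_of_nonneg_left h1 h3
      _ ≤ 1 * (r : ℝ) ^ 3 := mul_le_mul_of_nonneg_right h2 (by positivity)
      _ = _ := one_mul _
  have a4 : x ^ 2 / (q * r ^ 2) * ∑ t, (r * (a t : ℝ) / n) ^ 2 ≤ 2 * r := by
    have h1 : ∑ t, (r * (a t : ℝ) / n) ^ 2 ≤ (r : ℝ) ^ 3 := by
      calc ∑ t, (r * (a t : ℝ) / n) ^ 2 ≤ ∑ _t : Fin r, (r : ℝ) ^ 2 := by
            apply Finset.sum_le_sum
            intro t _
            obtain ⟨h4, h5⟩ := hA t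
            exact pow_le_pow_left₀ h5 h4 2
        _ = (r : ℝ) ^ 3 := by
            rw [Finset.sum_const, Finset.card_univ, Fintype.card_fin, nsmul_eq_mul]; ring
    have h2 : x ^ 2 / (q * r ^ 2) ≤ 2 / r ^ 2 := by
      rw [div_le_div_iff₀ (by positivity) (by positivity)]
      have h3 : x ^ 2 ≤ 1 := pow_le_one₀ hx0 hx1
      have h4 : 0 < (r : ℝ) ^ 2 := by positivity
      nlinarith
    have h3 : 0 ≤ x ^ 2 / (q * r ^ 2) := by positivity
    calc _ ≤ x ^ 2 / (q * r ^ 2) * (r : ℝ) ^ 3 := mul_le_mul_of_nonneg_left h1 h3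
      _ ≤ 2 / r ^ 2 * (r : ℝ) ^ 3 := mul_le_mul_of_nonneg_right h2 (by positivity)
      _ = 2 * r := by field_simp
  set S : ℝ := (1 - 2 * x) * ((D : ℝ) - r - D) + (1 / 2 - 1 / (r : ℝ)) * dev σ
      + 2 * x / r * ∑ t, (r * (a t : ℝ) / n) * ((σ t : ℝ) - n / r)
      + x ^ 2 / (q * r ^ 2) * ∑ t, (r * (a t : ℝ) / n) ^ 2 with hS
  have hS1 : S ≤ r + r / 2 + (r : ℝ) ^ 3 + 2 * r := by rw [hS]; linarith
  have hS2 : 2 * q * S ≤ 2 * (r + r / 2 + (r : ℝ) ^ 3 + 2 * r) := by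
    have h1 : 2 * q * S ≤ 2 * q * (r + r / 2 + (r : ℝ) ^ 3 + 2 * r) :=
      mul_le_mul_of_nonneg_left hS1 (by linarith)
    have h2 : 2 * q * (r + r / 2 + (r : ℝ) ^ 3 + 2 * r) ≤ 2 * (r + r / 2 + (r : ℝ) ^ 3 + 2 * r) :=
      mul_le_mul_of_nonneg_right (by linarith) (by positivity)
    linarith
  change 2 * D * (q - D / n) + (q ^ 2 * x ^ 4 * (1 + 2 * q) - 2 * q * x ^ 3) + 2 * q * S ≤ _
  linarith

theorem nbn_le {V : Type} [Fintype V] {r : ℕ} (G : SimpleGraph V) (g : V → Option (Fin r)) (w : V)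
    (t : Fin r) : nbn G g w t ≤ siz g t := by
  unfold nbn siz
  exact Set.ncard_le_ncard (fun v hv => hv.1) (Set.toFinite _)

/-- a graph of type two which belongs to a vector `a` -/
theorem member (hDEV : DEV_statement) (hFAM2 : FAM2_statement) (hMEM2 : MEM2_statement)
    (r n D : ℕ) (hr : 3 ≤ r) (τ a : Fin r → ℕ) (i : Fin r) (hi : a i = 0)
    (ha : ∀ t, t ≠ i → 1 ≤ a t ∧ a t ≤ τ t) (hτ : ∀ t, 1 ≤ τ t) (hτn : ∑ t, τ t = n)
    (hτ2 : ∑ t, τ t ^ 2 = ∑ t, tz r n t ^ 2) (hsum : ∑ t, a t + r = D) (hlt : D + τ i < n) :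
    ∃ (k : ℕ) (H : SimpleGraph (Fin k)) (f : Fin k → Option (Fin r)) (w u : Fin k)
      (v : Fin r → Fin k), Ty2 H f w u v i ∧ siz f = τ ∧ nbn H f w = a ∧
      InN r ((SimpleGraph.turanGraph n r).edgeSet.ncard + D) (⊤ : SimpleGraph (Fin (r + 1))) H := by
  obtain ⟨t₀, ht₀, hlt₀⟩ : ∃ t₀, t₀ ≠ i ∧ a t₀ < τ t₀ := by
    by_contra hcon
    push Not at hcon
    have h1 : τ i + ∑ t ∈ Finset.univ.erase i, τ t = n := by
      rw [Finset.add_sum_erase _ _ (Finset.mem_univ i), hτn]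
    have h2 : a i + ∑ t ∈ Finset.univ.erase i, a t = ∑ t, a t :=
      Finset.add_sum_erase _ _ (Finset.mem_univ i)
    have h3 : ∑ t ∈ Finset.univ.erase i, τ t ≤ ∑ t ∈ Finset.univ.erase i, a t :=
      Finset.sum_le_sum fun t ht => hcon t (Finset.ne_of_mem_erase ht)
    omega
  obtain ⟨k, H, f, w, u, v, hTh, -, hs, hnb⟩ := hFAM2 r τ a i t₀ hr hi (hτ i) ha ht₀ hlt₀
  obtain ⟨h1, h2, h3, h4⟩ := hMEM2 r (Fin k) H f w u v i hr hTh (fun t => by rw [hs]; exact hτ t)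
  refine ⟨k, H, f, w, u, v, hTh.ty, funext hs, funext hnb, ?_⟩
  refine ⟨h1, ?_, h3, h2⟩
  obtain ⟨d1, -, -, -, -, d6⟩ := hDEV r n τ (by omega) hτn
  unfold Sz at d6
  simp only [hs, hnb] at h4
  rw [hτn, hτ2] at h4
  rw [d1] at d6
  omega

theorem dev_perm (hDEV : DEV_statement) (r n : ℕ) (hr : 3 ≤ r) (τ : Fin r → ℕ)
    (hτn : ∑ t, τ t = n) (hτ2 : ∑ t, τ t ^ 2 = ∑ t, tz r n t ^ 2) : dev τ ≤ r := by
  obtain ⟨d1, -, d3, d4, -, -⟩ := hDEV r n τ (by omega) hτn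
  obtain ⟨-, -, -, e4, -, -⟩ := hDEV r n (tz r n) (by omega) d1
  have : (∑ t, (τ t : ℝ) ^ 2) = ∑ t, (tz r n t : ℝ) ^ 2 := by exact_mod_cast hτ2
  rw [d4, this, ← e4]
  exact d3

end TOP2

theorem prfTOP2 : P_statement → EDG_statement → ISO_statement → CRT_statement → KCC_statement →
    MAXE_statement → DEV_statement → CNTU_statement → STRB_statement → LBG_statement →
    UB2_statement → EXP_statement → GRE_statement → JF2_statement → JB_statement →
    FAM2_statement → MEM2_statement → CLA_statement → TOP2_statement := by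
  intro hP _ _ hCRT hKCC hMAXE hDEV hCNTU hSTRB hLBG hUB2 hEXP hGRE hJF2 hJB hFAM2 hMEM2
    hCLA r ε hr hε
  have hr' : (3 : ℝ) ≤ r := by exact_mod_cast hr
  have hr0 : (0 : ℝ) < r := by linarith
  obtain ⟨q1, q2⟩ := TOP2.qq_bounds hr
  obtain ⟨hchr, hcc⟩ := hKCC r hr
  obtain ⟨hcrit, -, hcol⟩ := hCRT (Fin (r + 1)) ⊤ r hchr hcc
  have hgap : 0 < 1 - 2 / (r : ℝ) - 1 / ((r : ℝ) + 1) := by
    have h1 : 1 - 2 / (r : ℝ) - 1 / ((r : ℝ) + 1) =
        ((r : ℝ) ^ 2 - 2 * r - 2) / (r * (r + 1)) := by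
      field_simp
      ring
    rw [h1]
    apply div_pos
    · nlinarith
    · positivity
  set ε' : ℝ := min ε (1 - 2 / (r : ℝ) - 1 / ((r : ℝ) + 1)) with hε'def
  have hε' : 0 < ε' := lt_min hε hgap
  obtain ⟨c1, hc1, hJF⟩ := hJF2 r ε hr hε
  obtain ⟨c2, hc2, hJB'⟩ := hJB r ε' hr hε'
  set ε1 : ℝ := min (min c1 c2 / 4) 1 with hε1def
  have hcm : 0 < min c1 c2 := lt_min hc1 hc2
  have hε1 : 0 < ε1 := lt_min (by linarith) one_pos
  have hε1a : 4 * ε1 ≤ c1 := by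
    have h1 : ε1 ≤ min c1 c2 / 4 := min_le_left _ _
    have h2 := min_le_left c1 c2
    linarith
  have hε1b : 4 * ε1 ≤ c2 := by
    have h1 : ε1 ≤ min c1 c2 / 4 := min_le_left _ _
    have h2 := min_le_right c1 c2
    linarith
  have hε1c : ε1 ≤ 1 := min_le_right _ _
  set C0 : ℝ := 9 + 9 * r + 2 * (r : ℝ) ^ 3 with hC0
  obtain ⟨nU, hU⟩ := hUB2 r r ε1 hr hε1
  obtain ⟨nE, hE⟩ := hEXP r r 1 hr one_pos
  obtain ⟨nG, hG⟩ := hGRE r ε' hr hε'
  obtain ⟨N, hN⟩ := hSTRB (Fin (r + 1)) ⊤ r ε' C0 hr hcrit hcol hε'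
  obtain ⟨δ, hδ, nL, hL⟩ := hLBG r N ε1 hr hε1
  obtain ⟨nS, hS⟩ := hN δ hδ
  obtain ⟨nJ, hJ⟩ := hJF N
  obtain ⟨nB, hB⟩ := hJB' (N + r)
  refine ⟨nU + nE + nG + nL + nS + nJ + nB + 2 * r + r * (N + 3) + 1, ?_⟩
  intro n hn D hR
  obtain ⟨hR1, hR2⟩ := hR
  have hn1 : 1 ≤ n := by omega
  have hn1' : (1 : ℝ) ≤ n := by exact_mod_cast hn1
  have hqn : 0 < qq r * n := by positivity
  have hlow : ε' * (qq r * n) ≤ D := by
    refine le_trans ?_ hR1
    apply mul_le_mul_of_nonneg_right _ hqn.le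
    exact min_le_left _ _
  have h5pos : 0 ≤ 1 / (r : ℝ) ^ 5 := by positivity
  have hupp : (D : ℝ) ≤ (1 - 2 / (r : ℝ) - ε') * (qq r * n) := by
    refine le_trans hR2 ?_
    apply mul_le_mul_of_nonneg_right _ hqn.le
    have h1 : ε' ≤ 1 - 2 / (r : ℝ) - 1 / ((r : ℝ) + 1) := min_le_right _ _
    linarith
  have hDq : (D : ℝ) ≤ qq r * n := by
    refine hupp.trans ?_
    have h1 : 0 < 2 / (r : ℝ) := by positivity
    calc (1 - 2 / (r : ℝ) - ε') * (qq r * n) ≤ 1 * (qq r * n) :=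
          mul_le_mul_of_nonneg_right (by linarith) hqn.le
      _ = _ := one_mul _
  have hqn1 : qq r * n ≤ n := mul_le_of_le_one_left (by linarith) q2
  have hDn : D ≤ n := by
    have : (D : ℝ) ≤ n := hDq.trans hqn1
    exact_mod_cast this
  have hD4 : 4 * D ≤ n := by
    have h1 : (D : ℝ) ≤ 1 / 4 * (qq r * n) := by
      refine hR2.trans ?_
      apply mul_le_mul_of_nonneg_right _ hqn.le
      have h2 : 1 / ((r : ℝ) + 1) ≤ 1 / 4 := one_div_le_one_div_of_le (by norm_num) (by linarith)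
      linarith
    have h2 : 4 * (D : ℝ) ≤ n := by linarith
    exact_mod_cast h2
  have htz3 : ∀ t, D + tz r n t < n := by
    intro t
    have h1 : tz r n t ≤ n / r + 1 := by
      unfold tz
      split_ifs <;> omega
    have h2 : n / r ≤ n / 3 := Nat.div_le_div_left hr (by norm_num)
    omega
  set T : ℕ := (SimpleGraph.turanGraph n r).edgeSet.ncard with hT
  -- the comparison graph
  obtain ⟨-, ⟨a', hTg⟩⟩ := hG n (by omega) D hlow hupp
  have hTg' := hTg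
  obtain ⟨g1, g2, g3, g4, -⟩ := hTg'
  have htz2 : ∀ t, 2 ≤ tz r n t := by
    intro t
    have h1 : 2 ≤ n / r := by
      rw [Nat.le_div_iff_mul_le (by omega)]
      omega
    unfold tz
    omega
  have htz1 : ∀ t, 1 ≤ tz r n t := fun t => (by norm_num : 1 ≤ 2).trans (htz2 t)
  have hσ0 : ∑ t : Fin r, (if t = ⟨0, by omega⟩ then n else 0) = n := by
    rw [Finset.sum_ite_eq' Finset.univ (⟨0, by omega⟩ : Fin r) (fun _ => n)]
    simp
  obtain ⟨d1, -, d3, -, -, d6⟩ := hDEV r n (fun t => if t = ⟨0, by omega⟩ then n else 0)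
    (by omega) hσ0
  obtain ⟨k₀, H₀, f₀, w₀, u₀, v₀, hty₀, hs₀, hnb₀, hin₀⟩ := TOP2.member hDEV hFAM2 hMEM2 r n D hr
    (tz r n) a' ⟨0, by omega⟩ (g1 _ rfl) (fun t ht => ⟨g2 t (fun h => ht (Fin.ext h)), g3 t⟩)
    htz1 d1 rfl g4 (htz3 _)
  have hk₀ : 2 * qq r * H₀.edgeSet.ncard - lam H₀ ^ 2 ≤
      Kap r (tz r n) a' + 2 * qq r * r + ε1 := by
    have := hU (Fin k₀) H₀ f₀ w₀ u₀ v₀ ⟨0, by omega⟩ n (by omega) hty₀
      (by rw [hs₀]; exact d1) (by rw [hs₀]; exact d3)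
    rwa [hs₀, hnb₀] at this
  have hKap : Kap r (tz r n) a' ≤ 2 * D * (qq r - D / n) + (4 + 7 * r + 2 * (r : ℝ) ^ 3) := by
    have h1 := hE n D (tz r n) a' (by omega) d1 d3 g3 hDn (by
      have : (∑ t, (a' t : ℝ)) + r = D := by exact_mod_cast g4
      have h2 : (∑ t, (a' t : ℝ)) - D = -r := by linarith
      rw [h2, abs_neg, abs_of_nonneg hr0.le])
    have h2 := TOP2.kx_bound r n D hr hn1 hDq (tz r n) a' d1 d3 g3 g4
    have h3 := (abs_le.1 h1).2
    linarith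
  refine ⟨?_, ?_⟩
  · obtain ⟨k, G, hG1, hG2⟩ := hMAXE (Fin (r + 1)) ⊤ r (T + D) ⟨Fin k₀, inferInstance, H₀, hin₀⟩
    exact ⟨k, G, hG1, hG2⟩
  · intro V _ G hMx
    obtain ⟨hIn, hmax⟩ := hMx
    have hsize : G.edgeSet.ncard = T + D := hIn.size
    have hsize₀ : H₀.edgeSet.ncard = T + D := hin₀.size
    have hlam₀ : 0 ≤ lam H₀ := by
      have : Nonempty (Fin k₀) := ⟨w₀⟩
      exact (hP (Fin k₀) H₀).1
    have hle₀ := hmax (Fin k₀) H₀ hin₀
    have hκ : 2 * qq r * G.edgeSet.ncard - lam G ^ 2 ≤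
        Kap r (tz r n) a' + 2 * qq r * r + ε1 := by
      have h1 : lam H₀ ^ 2 ≤ lam G ^ 2 := pow_le_pow_left₀ hlam₀ hle₀ 2
      rw [hsize]
      rw [hsize₀] at hk₀
      linarith
    have hqr : qq r * r ≤ 1 * r := mul_le_mul_of_nonneg_right q2 hr0.le
    obtain ⟨z, g, w, hStr⟩ := hS n (by omega) D hlow hupp V G hIn.free hsize (by
      rw [hC0]; linarith)
    obtain ⟨hflat, htot, hbnd⟩ := hStr
    have hLB := hL V G z g w n (by omega) ⟨hflat, htot, hbnd⟩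
    have hgw : g w = none := hflat.exc w (Finset.mem_singleton_self w)
    have hind : Indep G g := hflat.indep
    set σ : Fin r → ℕ := siz g with hσ
    set a : Fin r → ℕ := nbn G g w with ha
    set α : ℕ := (missSet G g).ncard with hα
    set b : ℕ := (lightSet G g {w}).ncard with hb
    have hdevσ0 : 0 ≤ dev σ := by unfold dev; positivity
    have hαb : α + b ≤ N := by
      have : (α : ℝ) + b ≤ N := by linarith
      exact_mod_cast this
    have hdevσ : dev σ ≤ N := by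
      have h1 : (0 : ℝ) ≤ α := Nat.cast_nonneg _
      have h2 : (0 : ℝ) ≤ b := Nat.cast_nonneg _
      linarith
    have haσ : ∀ t, a t ≤ σ t := fun t => TOP2.nbn_le G g w t
    have htotr : (∑ s, (σ s : ℝ)) = n := by exact_mod_cast htot
    have hσ1 : ∀ t, 1 ≤ σ t := by
      intro t
      have h1 := TOP2.abs_dev σ (N + 1) (by
        have : (0 : ℝ) ≤ N := Nat.cast_nonneg _
        linarith) (by linarith) t
      rw [htotr] at h1
      have h2 := (abs_le.1 h1).1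
      have h3 : (N : ℝ) + 3 ≤ (n : ℝ) / r := by
        rw [le_div_iff₀ (by linarith)]
        have : (N + 3) * r ≤ n := by
          rw [mul_comm]
          omega
        exact_mod_cast this
      have h4 : (1 : ℝ) ≤ σ t := by linarith
      exact_mod_cast h4
    -- the number of edges
    have hrel : 2 * D + 2 * α + ∑ t, σ t ^ 2 = ∑ t, tz r n t ^ 2 + 2 * ∑ t, a t + 2 * b := by
      obtain ⟨e, he, hcnt⟩ := hCNTU r V G g {w} hind (by
        intro v hv
        rw [Finset.mem_singleton] at hv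
        rw [hv]; exact hgw)
      rw [Finset.card_singleton] at he
      rw [Finset.sum_singleton, hsize, htot] at hcnt
      unfold Sz at d6
      rw [d1] at d6
      have he0 : e = 0 := by omega
      rw [he0] at hcnt
      have hcnt' : 2 * (T + D) + 2 * α + ∑ t, σ t ^ 2 = n ^ 2 + 2 * ∑ t, a t + 2 * 0 + 2 * b := hcnt
      omega
    have hcla := fun h0 => hCLA r V G g w hr hind hgw h0 hσ1 hIn.free hIn.notPartite hIn.noIso
    have hal1 : α = 0 ∧ b = r := by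
      by_contra hcon
      have h1 := hJ n (by omega) D hR1 hR2 σ a a' α b htot hdevσ haσ hαb hrel
        (fun h0 => (hcla h0).1) hcon hTg
      linarith
    obtain ⟨hα1, hb0⟩ := hal1
    obtain ⟨u, v, i, hTh⟩ := (hcla hα1).2 hb0
    rw [hα1, hb0] at hrel hLB
    -- balanced classes
    have hsq : ∑ t, σ t ^ 2 ≤ ∑ t, tz r n t ^ 2 := by
      by_contra hcon
      push Not at hcon
      have hdiff : (∑ t, (σ t : ℝ) ^ 2) - ∑ t, (tz r n t : ℝ) ^ 2 ≤ N := by
        obtain ⟨-, -, -, e4, -, -⟩ := hDEV r n σ (by omega) htot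
        obtain ⟨-, -, -, e4', -, -⟩ := hDEV r n (tz r n) (by omega) d1
        have h0 : 0 ≤ dev (tz r n) := by unfold dev; positivity
        linarith
      have hrelr : 2 * (D : ℝ) + ∑ t, (σ t : ℝ) ^ 2 =
          ∑ t, (tz r n t : ℝ) ^ 2 + 2 * ∑ t, (a t : ℝ) + 2 * r := by
        have h1 : 2 * D + ∑ t, σ t ^ 2 = ∑ t, tz r n t ^ 2 + 2 * ∑ t, a t + 2 * r := by
          omega
        exact_mod_cast h1
      have hconr : ∑ t, (tz r n t : ℝ) ^ 2 < ∑ t, (σ t : ℝ) ^ 2 := by exact_mod_cast hcon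
      have hsumr : |(∑ t, (a t : ℝ)) - D| ≤ ((N + r : ℕ) : ℝ) := by
        have hN0 : (0 : ℝ) ≤ N := Nat.cast_nonneg _
        rw [abs_le]
        push_cast
        constructor <;> linarith
      obtain ⟨π, a'', k1, k2, k3, k4, k5⟩ := hB n (by omega) D hlow hupp σ a {i} htot (by
          push_cast; linarith) haσ (by simp) (by
          intro t ht
          rw [Finset.mem_singleton] at ht
          rw [ht]
          exact hTh.ni.le.trans (Nat.zero_le 1)) (by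
          intro t ht
          rw [Finset.mem_singleton] at ht
          exact hTh.pos t ht) hsumr hcon
      have hsq' : ∑ t, (tz r n (π t)) ^ 2 = ∑ t, tz r n t ^ 2 :=
        Equiv.sum_comp π (fun t => tz r n t ^ 2)
      have hsum' : ∑ t, tz r n (π t) = n := by
        rw [Equiv.sum_comp π (fun t => tz r n t)]; exact d1
      have hi : a'' i = 0 := by
        rw [k1 i (Finset.mem_singleton_self _)]; exact hTh.ni
      obtain ⟨k, H, f, w', u', v', hty, hs, hnb, hin⟩ := TOP2.member hDEV hFAM2 hMEM2 r n D hr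
        (fun t => tz r n (π t)) a'' i hi (fun t ht => ⟨k2 t (by
            rw [Finset.mem_singleton]; exact ht), k3 t⟩) (fun t => htz1 _) hsum' hsq'
        (by omega) (htz3 _)
      have h1 := hU (Fin k) H f w' u' v' i n (by omega) hty (by rw [hs]; exact hsum')
        (by rw [hs]; exact TOP2.dev_perm hDEV r n hr _ hsum' hsq')
      rw [hs, hnb] at h1
      have h2 : H.edgeSet.ncard = T + D := hin.size
      have h3 := hmax (Fin k) H hin
      have h4 : 0 ≤ lam H := by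
        have : Nonempty (Fin k) := ⟨w'⟩
        exact (hP (Fin k) H).1
      have h5 : lam H ^ 2 ≤ lam G ^ 2 := pow_le_pow_left₀ h4 h3 2
      rw [h2] at h1
      rw [hsize] at hLB
      push_cast at hLB h1
      linarith
    obtain ⟨-, e2, -, -, e5, -⟩ := hDEV r n σ (by omega) htot
    obtain ⟨π, hπ⟩ := e5 (le_antisymm hsq e2)
    refine ⟨g, w, u, v, i, hTh, ⟨?_, htot⟩, ?_⟩
    · intro t
      have h1 : siz g t = tz r n (π t) := hπ t
      rw [h1]
      unfold tz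
      split_ifs <;> omega
    · have h1 : ∑ t, σ t ^ 2 = ∑ t, tz r n t ^ 2 := le_antisymm hsq e2
      have h2 : ∑ t, a t + r = D := by omega
      exact h2

end MP0c3a8f
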