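import Pool.Agent.Work.MP_0c3a8f_co.PB.Stmts2
import Pool.Agent.Work.MP_0c3a8f_co.PB.ItemTOP1

/-! (TOP3) the maximisers are of type one or two. -/

set_option autoImplicit false

open Finset

namespace MP0c3a8f

namespace TOP3

/-- some class is not completely joined to `w` -/
theorem exists_t0 {r n D : ℕ} (hr : 3 ≤ r) {τ a : Fin r → ℕ} {i : Fin r}
    (hτ : ∑ t, τ t = n) (hτi : τ i ≤ n / r + 1) (hsum : ∑ t, a t + r = D)
    (hD : (D : ℝ) ≤ (1 - 2 / (r : ℝ)) * n) : ∃ t₀, t₀ ≠ i ∧ a t₀ < τ t₀ := by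
  by_contra hcon
  push Not at hcon
  have h1 : n ≤ τ i + ∑ t, a t := by
    rw [← hτ]
    rw [← Finset.add_sum_erase univ τ (mem_univ i), ← Finset.add_sum_erase univ a (mem_univ i)]
    have h2 : ∑ t ∈ univ.erase i, τ t ≤ ∑ t ∈ univ.erase i, a t :=
      sum_le_sum fun t ht => hcon t (ne_of_mem_erase ht)
    omega
  have hr' : (3 : ℝ) ≤ r := by exact_mod_cast hr
  have h2 : n + r ≤ n / r + 1 + D := by omega
  have h3 : (n : ℝ) + r ≤ ((n / r : ℕ) : ℝ) + 1 + D := by exact_mod_cast h2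
  have h4 : ((n / r : ℕ) : ℝ) ≤ (n : ℝ) / r := Nat.cast_div_le
  have h5 : (1 - 2 / (r : ℝ)) * n = n - 2 * ((n : ℝ) / r) := by ring
  have h6 : 0 ≤ (n : ℝ) / r := by positivity
  rw [h5] at hD
  linarith

/-- a graph of type two which belongs to a vector `a` -/
theorem member2 (hDEV : DEV_statement) (hFAM2 : FAM2_statement) (hMEM2 : MEM2_statement)
    (r n D : ℕ) (hr : 3 ≤ r) (τ a : Fin r → ℕ) (i : Fin r) (hi : a i = 0)
    (ha : ∀ t, t ≠ i → 1 ≤ a t ∧ a t ≤ τ t) (hτ : ∀ t, 1 ≤ τ t) (hτn : ∑ t, τ t = n)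
    (hτi : τ i ≤ n / r + 1) (hD : (D : ℝ) ≤ (1 - 2 / (r : ℝ)) * n)
    (hτ2 : ∑ t, τ t ^ 2 = ∑ t, tz r n t ^ 2) (hsum : ∑ t, a t + r = D) :
    ∃ (k : ℕ) (H : SimpleGraph (Fin k)) (f : Fin k → Option (Fin r)) (w u : Fin k)
      (v : Fin r → Fin k),
      Ty2 H f w u v i ∧ siz f = τ ∧ nbn H f w = a ∧
      InN r ((SimpleGraph.turanGraph n r).edgeSet.ncard + D) (⊤ : SimpleGraph (Fin (r + 1))) H := by
  obtain ⟨t₀, ht₀, hlt⟩ := exists_t0 hr hτn hτi hsum hD
  obtain ⟨k, H, f, w, u, v, hTh, -, hs, hnb⟩ := hFAM2 r τ a i t₀ hr hi (hτ i) ha ht₀ hlt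
  obtain ⟨h1, h2, h3, h4⟩ := hMEM2 r (Fin k) H f w u v i hr hTh (fun t => by rw [hs]; exact hτ t)
  refine ⟨k, H, f, w, u, v, hTh.ty, funext hs, funext hnb, ?_⟩
  refine ⟨h1, ?_, h3, h2⟩
  obtain ⟨d1, -, -, -, -, d6⟩ := hDEV r n τ (by omega) hτn
  unfold Sz at d6
  simp only [hs, hnb] at h4
  rw [hτn, hτ2] at h4
  rw [d1] at d6
  omega

theorem lam_sq_le {r m : ℕ} {V : Type} [Fintype V] (hP : P_statement) {G : SimpleGraph V}
    (hG : IsMaximiser r m (⊤ : SimpleGraph (Fin (r + 1))) G) {k : ℕ} {H : SimpleGraph (Fin k)}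
    (w : Fin k) (hH : InN r m (⊤ : SimpleGraph (Fin (r + 1))) H) :
    2 * qq r * G.edgeSet.ncard - lam G ^ 2 ≤ 2 * qq r * H.edgeSet.ncard - lam H ^ 2 := by
  have h4 : 0 ≤ lam H := by
    have : Nonempty (Fin k) := ⟨w⟩
    exact (hP (Fin k) H).1
  have h5 : lam H ^ 2 ≤ lam G ^ 2 := pow_le_pow_left₀ h4 (hG.2 (Fin k) H hH) 2
  rw [hG.1.size, hH.size]
  linarith

end TOP3

theorem prfTOP3 : P_statement → EDG_statement → ISO_statement → CRT_statement → KCC_statement →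
    MAXE_statement → DEV_statement → CNTU_statement → STRB_statement → LBG_statement →
    UB1_statement → UB2_statement → EXP_statement → GREE_statement → JFA_statement →
    JFB_statement → JFC_statement → JB_statement → FAM1_statement → FAM2_statement →
    MEM1_statement → MEM2_statement → CLA_statement → CLB_statement → TOP3_statement := by
  intro hP _ _ hCRT hKCC hMAXE hDEV hCNTU hSTRB hLBG hUB1 hUB2 hEXP hGREE hJFA hJFB hJFC hJB
    hFAM1 hFAM2 hMEM1 hMEM2 hCLA hCLB r ε hr hε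
  have hr' : (3 : ℝ) ≤ r := by exact_mod_cast hr
  obtain ⟨q1, q2⟩ := TOP1.qq_bounds hr
  obtain ⟨hchr, hcc⟩ := hKCC r hr
  obtain ⟨hcrit, -, hcol⟩ := hCRT (Fin (r + 1)) ⊤ r hchr hcc
  obtain ⟨cA, hcA, hJA⟩ := hJFA r ε hr hε
  obtain ⟨cB, hcB, hJB1⟩ := hJFB r ε hr hε
  obtain ⟨cC, hcC, hJC⟩ := hJFC r ε hr hε
  obtain ⟨cJ, hcJ, hJJ⟩ := hJB r ε hr hε
  obtain ⟨ε1, hε1, e1, e2, e3, e4, e5⟩ : ∃ ε1 > (0 : ℝ), 4 * ε1 ≤ cA ∧ 4 * ε1 ≤ cB ∧
      4 * ε1 ≤ cC ∧ 4 * ε1 ≤ cJ ∧ ε1 ≤ 1 := by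
    refine ⟨min (min (min cA cB) (min cC cJ) / 4) 1, lt_min (by positivity) one_pos, ?_, ?_, ?_,
      ?_, min_le_right _ _⟩
    all_goals
      have h0 : min (min (min cA cB) (min cC cJ) / 4) 1 ≤ min (min cA cB) (min cC cJ) / 4 :=
        min_le_left _ _
      have h1 : min (min cA cB) (min cC cJ) ≤ min cA cB := min_le_left _ _
      have h2 : min (min cA cB) (min cC cJ) ≤ min cC cJ := min_le_right _ _
      have h3 : min cA cB ≤ cA := min_le_left _ _
      have h4 : min cA cB ≤ cB := min_le_right _ _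
      have h5 : min cC cJ ≤ cC := min_le_left _ _
      have h6 : min cC cJ ≤ cJ := min_le_right _ _
      linarith
  set C0 : ℝ := 9 + 5 * r + 2 * (r : ℝ) ^ 3 with hC0
  obtain ⟨nU, hU⟩ := hUB1 r r ε1 hr hε1
  obtain ⟨nU2, hU2⟩ := hUB2 r r ε1 hr hε1
  obtain ⟨nE, hE⟩ := hEXP r r 1 hr one_pos
  obtain ⟨nG, hG⟩ := hGREE r ε hr hε
  obtain ⟨N, hN⟩ := hSTRB (Fin (r + 1)) ⊤ r ε C0 hr hcrit hcol hε
  obtain ⟨δ, hδ, nL, hL⟩ := hLBG r N ε1 hr hε1
  obtain ⟨nS, hS⟩ := hN δ hδ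
  obtain ⟨nA, hJA'⟩ := hJA N
  obtain ⟨nB, hJB1'⟩ := hJB1 N
  obtain ⟨nC, hJC'⟩ := hJC N
  obtain ⟨nJ, hJJ'⟩ := hJJ (N + 2 + r)
  refine ⟨nU + nU2 + nE + nG + nL + nS + nA + nB + nC + nJ + 2 * r + r * (N + 3) + 1, ?_⟩
  intro n hn D hR
  obtain ⟨hR1, hR2⟩ := id hR
  have hn1 : 1 ≤ n := by omega
  have hn1' : (1 : ℝ) ≤ n := by exact_mod_cast hn1
  have hqn : 0 < qq r * n := by positivity
  have h2r : 0 < 2 / (r : ℝ) := by positivity
  have h2r' : 2 / (r : ℝ) < 1 := by rw [div_lt_one (by linarith)]; linarith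
  have hDq : (D : ℝ) ≤ qq r * n := by
    refine hR2.trans ?_
    calc (1 - 2 / (r : ℝ) - ε) * (qq r * n) ≤ 1 * (qq r * n) :=
          mul_le_mul_of_nonneg_right (by linarith) hqn.le
      _ = _ := one_mul _
  have hDr : (D : ℝ) ≤ (1 - 2 / (r : ℝ)) * n := by
    refine hR2.trans ?_
    calc (1 - 2 / (r : ℝ) - ε) * (qq r * n) ≤ (1 - 2 / (r : ℝ)) * (qq r * n) :=
          mul_le_mul_of_nonneg_right (by linarith) hqn.le
      _ ≤ (1 - 2 / (r : ℝ)) * (1 * n) := by
          refine mul_le_mul_of_nonneg_left ?_ (by linarith)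
          exact mul_le_mul_of_nonneg_right q2 (by linarith)
      _ = _ := by rw [one_mul]
  have hDn : D ≤ n := by
    have : (D : ℝ) ≤ n := hDq.trans (by nlinarith)
    exact_mod_cast this
  set T : ℕ := (SimpleGraph.turanGraph n r).edgeSet.ncard with hT
  -- the comparison graphs
  obtain ⟨⟨a₁, hTg1, hEv1⟩, ⟨a₂, hTg2, hEv2⟩, -⟩ := hG n (by omega) D hR
  obtain ⟨g1, g2, g3, -⟩ := id hTg1
  obtain ⟨k1, k2, k3, k4, -⟩ := id hTg2
  have htz2 : ∀ t, 2 ≤ tz r n t := by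
    intro t
    have h1 : 2 ≤ n / r := by
      rw [Nat.le_div_iff_mul_le (by omega)]
      omega
    unfold tz
    omega
  have htzi : ∀ t, tz r n t ≤ n / r + 1 := by
    intro t
    unfold tz
    split_ifs <;> omega
  have hσ0 : ∑ t : Fin r, (if t = ⟨0, by omega⟩ then n else 0) = n := by
    rw [Finset.sum_ite_eq' Finset.univ (⟨0, by omega⟩ : Fin r) (fun _ => n)]
    simp
  obtain ⟨d1, -, d3, -, -, d6⟩ := hDEV r n (fun t => if t = ⟨0, by omega⟩ then n else 0)
    (by omega) hσ0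
  obtain ⟨k₀, H₀, f₀, w₀, p₀, p₀', hty₀, hs₀, hnb₀, hin₀⟩ := TOP1.member hDEV hFAM1 hMEM1 r n D hr
    (tz r n) a₁ ⟨0, by omega⟩ ⟨1, by omega⟩ (by simp [Fin.ext_iff]) (g1 _ (by simp)) (g1 _ (by simp))
    g2 htz2 d1 rfl g3
  have hk₀ : 2 * qq r * H₀.edgeSet.ncard - lam H₀ ^ 2 ≤ Kap r (tz r n) a₁ + 2 * qq r + ε1 := by
    have := hU (Fin k₀) H₀ f₀ w₀ p₀ p₀' ⟨0, by omega⟩ ⟨1, by omega⟩ n (by omega) hty₀
      (by rw [hs₀]; exact d1) (by rw [hs₀]; exact d3)
    rwa [hs₀, hnb₀] at this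
  obtain ⟨k₂, H₂, f₂, w₂, u₂, v₂, hty₂, hs₂, hnb₂, hin₂⟩ := TOP3.member2 hDEV hFAM2 hMEM2 r n D hr
    (tz r n) a₂ ⟨0, by omega⟩ (k1 _ rfl)
    (fun t ht => ⟨k2 t (fun h => ht (Fin.ext h)), k3 t⟩) (fun t => by have := htz2 t; omega) d1
    (htzi _) hDr rfl k4
  have hk₂ : 2 * qq r * H₂.edgeSet.ncard - lam H₂ ^ 2 ≤
      Kap r (tz r n) a₂ + 2 * qq r * r + ε1 := by
    have := hU2 (Fin k₂) H₂ f₂ w₂ u₂ v₂ ⟨0, by omega⟩ n (by omega) hty₂
      (by rw [hs₂]; exact d1) (by rw [hs₂]; exact d3)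
    rwa [hs₂, hnb₂] at this
  have hKap : Kap r (tz r n) a₁ ≤ 2 * D * (qq r - D / n) + (6 + 5 * r + 2 * (r : ℝ) ^ 3) := by
    have h1 := hE n D (tz r n) a₁ (by omega) d1 d3 (fun t => (g2 t).2) hDn (by
      have : (∑ t, (a₁ t : ℝ)) = D + 1 := by exact_mod_cast g3
      rw [this]
      have h2 : ((D : ℝ) + 1 - D) = 1 := by ring
      rw [h2, abs_one]
      linarith)
    have h2 := TOP1.kx_bound r n D hr hn1 hDq (tz r n) a₁ d1 d3 (fun t => (g2 t).2) g3
    have h3 := (abs_le.1 h1).2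
    linarith
  refine ⟨?_, ?_⟩
  · obtain ⟨k, G, hG1, hG2⟩ := hMAXE (Fin (r + 1)) ⊤ r (T + D) ⟨Fin k₀, inferInstance, H₀, hin₀⟩
    exact ⟨k, G, hG1, hG2⟩
  · intro V _ G hMx
    have hIn : InN r (T + D) (⊤ : SimpleGraph (Fin (r + 1))) G := hMx.1
    have hsize : G.edgeSet.ncard = T + D := hIn.size
    have hκ : 2 * qq r * G.edgeSet.ncard - lam G ^ 2 ≤ Kap r (tz r n) a₁ + 2 * qq r + ε1 :=
      (TOP3.lam_sq_le hP hMx w₀ hin₀).trans hk₀
    have hκ₂ : 2 * qq r * G.edgeSet.ncard - lam G ^ 2 ≤ Kap r (tz r n) a₂ + 2 * qq r * r + ε1 :=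
      (TOP3.lam_sq_le hP hMx w₂ hin₂).trans hk₂
    obtain ⟨z, g, w, hStr⟩ := hS n (by omega) D hR1 hR2 V G hIn.free hsize (by
      rw [hC0]; linarith)
    obtain ⟨hflat, htot, hbnd⟩ := hStr
    have hLB := hL V G z g w n (by omega) ⟨hflat, htot, hbnd⟩
    have hgw : g w = none := hflat.exc w (Finset.mem_singleton_self w)
    have hind : Indep G g := hflat.indep
    set σ : Fin r → ℕ := siz g with hσ
    set a : Fin r → ℕ := nbn G g w with ha
    set α : ℕ := (missSet G g).ncard with hα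
    set b : ℕ := (lightSet G g {w}).ncard with hb
    have hdevσ0 : 0 ≤ dev σ := by unfold dev; positivity
    have hαb : α + b ≤ N := by
      have : (α : ℝ) + b ≤ N := by linarith
      exact_mod_cast this
    have hdevσ : dev σ ≤ N := by
      have h1 : (0 : ℝ) ≤ α := Nat.cast_nonneg _
      have h2 : (0 : ℝ) ≤ b := Nat.cast_nonneg _
      linarith
    have haσ : ∀ t, a t ≤ σ t := fun t => TOP1.nbn_le G g w t
    have htotr : (∑ s, (σ s : ℝ)) = n := by exact_mod_cast htot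
    have hσ2 : ∀ t, 2 ≤ σ t := by
      intro t
      have h1 := TOP1.abs_dev σ (N + 1) (by
        have : (0 : ℝ) ≤ N := Nat.cast_nonneg _
        linarith) (by linarith) t
      rw [htotr] at h1
      have h2 := (abs_le.1 h1).1
      have h3 : (N : ℝ) + 3 ≤ (n : ℝ) / r := by
        rw [le_div_iff₀ (by linarith)]
        have : (N + 3) * r ≤ n := by
          have := Nat.mul_comm r (N + 3)
          omega
        exact_mod_cast this
      have h4 : (2 : ℝ) ≤ σ t := by linarith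
      exact_mod_cast h4
    -- the number of edges
    have hrel : 2 * D + 2 * α + ∑ t, σ t ^ 2 = ∑ t, tz r n t ^ 2 + 2 * ∑ t, a t + 2 * b := by
      obtain ⟨e, he, hcnt⟩ := hCNTU r V G g {w} hind (by
        intro v hv
        rw [Finset.mem_singleton] at hv
        rw [hv]; exact hgw)
      rw [Finset.card_singleton] at he
      rw [Finset.sum_singleton, hsize, htot] at hcnt
      unfold Sz at d6
      rw [d1] at d6
      have he0 : e = 0 := by omega
      rw [he0] at hcnt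
      have hcnt' : 2 * (T + D) + 2 * α + ∑ t, σ t ^ 2 = n ^ 2 + 2 * ∑ t, a t + 2 * 0 + 2 * b := hcnt
      omega
    have hdiff : (∑ t, (σ t : ℝ) ^ 2) - ∑ t, (tz r n t : ℝ) ^ 2 ≤ N := by
      obtain ⟨-, -, -, e4, -, -⟩ := hDEV r n σ (by omega) htot
      obtain ⟨-, -, -, e4', -, -⟩ := hDEV r n (tz r n) (by omega) d1
      have h0 : 0 ≤ dev (tz r n) := by unfold dev; positivity
      linarith
    obtain ⟨-, f2, -, -, f5, -⟩ := hDEV r n σ (by omega) htot
    have hbal : ∑ t, σ t ^ 2 ≤ ∑ t, tz r n t ^ 2 → Bal n g := by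
      intro hsq
      obtain ⟨π, hπ⟩ := f5 (le_antisymm hsq f2)
      refine ⟨?_, htot⟩
      intro t
      have h1 : siz g t = tz r n (π t) := hπ t
      rw [h1]
      unfold tz
      split_ifs <;> omega
    have hτn : ∀ π : Equiv.Perm (Fin r), ∑ t, tz r n (π t) = n := fun π => by
      rw [Equiv.sum_comp π (fun t => tz r n t)]
      exact d1
    have hτ2 : ∀ π : Equiv.Perm (Fin r), ∑ t, (tz r n (π t)) ^ 2 = ∑ t, tz r n t ^ 2 := fun π =>
      Equiv.sum_comp π (fun t => tz r n t ^ 2)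
    by_cases hcase1 : α = 1 ∧ b = 0
    · -- type one
      left
      obtain ⟨hα1, hb0⟩ := hcase1
      obtain ⟨p, p', i, j, hTh⟩ := hCLB r V G g w hr hind hgw hα1 hb0 hσ2 hIn.free hIn.notPartite
        hIn.noIso
      rw [hα1, hb0] at hrel hLB
      have hLB' : Kap r σ a + 2 * qq r - ε1 ≤ 2 * qq r * G.edgeSet.ncard - lam G ^ 2 := by
        push_cast at hLB
        linarith
      have hgap : -ε < gap r n D := by
        by_contra hg
        have h1 := hJC' n (by omega) D hR (not_lt.mp hg) σ a a₂ htot hdevσ haσ (by omega)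
          ⟨i, j, hTh.ty.ij, hTh.ni.le, hTh.nj.le⟩ hTg2 hEv2
        linarith
      have hsq : ∑ t, σ t ^ 2 ≤ ∑ t, tz r n t ^ 2 := by
        by_contra hcon
        push Not at hcon
        have hrelr : 2 * (D : ℝ) + 2 + ∑ t, (σ t : ℝ) ^ 2 =
            ∑ t, (tz r n t : ℝ) ^ 2 + 2 * ∑ t, (a t : ℝ) := by
          have h0 : 2 * D + 2 + ∑ t, σ t ^ 2 = ∑ t, tz r n t ^ 2 + 2 * ∑ t, a t := by omega
          exact_mod_cast h0
        have hconr : ∑ t, (tz r n t : ℝ) ^ 2 < ∑ t, (σ t : ℝ) ^ 2 := by exact_mod_cast hcon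
        have hsumr : |(∑ t, (a t : ℝ)) - D| ≤ ((N + 2 + r : ℕ) : ℝ) := by
          have hN0 : (0 : ℝ) ≤ N := Nat.cast_nonneg _
          rw [abs_le]
          push_cast
          constructor <;> linarith
        obtain ⟨π, a'', l1, l2, l3, l4, l5⟩ := hJJ' n (by omega) D hR1 hR2 σ a {i, j} htot (by
            push_cast; linarith) haσ Finset.card_le_two (by
            intro t ht
            rw [Finset.mem_insert, Finset.mem_singleton] at ht
            rcases ht with rfl | rfl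
            · exact hTh.ni.le
            · exact hTh.nj.le) (fun t _ => hTh.pos t) hsumr hcon
        have hi : a'' i = 1 := by
          rw [l1 i (Finset.mem_insert_self _ _)]; exact hTh.ni
        have hj : a'' j = 1 := by
          rw [l1 j (Finset.mem_insert_of_mem (Finset.mem_singleton_self _))]; exact hTh.nj
        obtain ⟨k, H, f, w', y, y', hty, hs, hnb, hin⟩ := TOP1.member hDEV hFAM1 hMEM1 r n D hr
          (fun t => tz r n (π t)) a'' i j hTh.ty.ij hi hj (by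
            intro t
            refine ⟨?_, l3 t⟩
            by_cases ht : t ∈ ({i, j} : Finset (Fin r))
            · rw [l1 t ht]; exact hTh.pos t
            · exact l2 t ht) (fun t => htz2 _) (hτn π) (hτ2 π) (by omega)
        have h1 := hU (Fin k) H f w' y y' i j n (by omega) hty (by rw [hs]; exact hτn π)
          (by rw [hs]; exact TOP1.dev_perm hDEV r n hr _ (hτn π) (hτ2 π))
        rw [hs, hnb] at h1
        have h2 := TOP3.lam_sq_le hP hMx w' hin
        linarith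
      refine ⟨hgap, g, w, p, p', i, j, hTh, hbal hsq, ?_⟩
      have h1 : ∑ t, σ t ^ 2 = ∑ t, tz r n t ^ 2 := le_antisymm hsq f2
      have h2 : ∑ t, a t = D + 1 := by omega
      exact h2
    by_cases hcase2 : α = 0 ∧ b = r
    · -- type two
      right
      obtain ⟨hα0, hbr⟩ := hcase2
      obtain ⟨u, v, i, hTh⟩ := (hCLA r V G g w hr hind hgw hα0
        (fun t => (by norm_num : 1 ≤ 2).trans (hσ2 t)) hIn.free hIn.notPartite hIn.noIso).2 hbr
      rw [hα0, hbr] at hrel hLB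
      have hLB' : Kap r σ a + 2 * qq r * r - ε1 ≤ 2 * qq r * G.edgeSet.ncard - lam G ^ 2 := by
        push_cast at hLB
        rw [zero_add] at hLB
        exact hLB
      have hgap : gap r n D < ε := by
        by_contra hg
        have h1 := hJB1' n (by omega) D hR (not_lt.mp hg) σ a a₁ htot hdevσ haσ (by omega)
          ⟨i, hTh.ni⟩ hTg1 hEv1
        linarith
      have hsq : ∑ t, σ t ^ 2 ≤ ∑ t, tz r n t ^ 2 := by
        by_contra hcon
        push Not at hcon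
        have hrelr : 2 * (D : ℝ) + ∑ t, (σ t : ℝ) ^ 2 =
            ∑ t, (tz r n t : ℝ) ^ 2 + 2 * ∑ t, (a t : ℝ) + 2 * r := by
          have h0 : 2 * D + ∑ t, σ t ^ 2 = ∑ t, tz r n t ^ 2 + 2 * ∑ t, a t + 2 * r := by omega
          exact_mod_cast h0
        have hconr : ∑ t, (tz r n t : ℝ) ^ 2 < ∑ t, (σ t : ℝ) ^ 2 := by exact_mod_cast hcon
        have hsumr : |(∑ t, (a t : ℝ)) - D| ≤ ((N + 2 + r : ℕ) : ℝ) := by
          have hN0 : (0 : ℝ) ≤ N := Nat.cast_nonneg _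
          rw [abs_le]
          push_cast
          constructor <;> linarith
        obtain ⟨π, a'', l1, l2, l3, l4, l5⟩ := hJJ' n (by omega) D hR1 hR2 σ a {i} htot (by
            push_cast; linarith) haσ (by rw [Finset.card_singleton]; omega) (by
            intro t ht
            rw [Finset.mem_singleton] at ht
            have h0 : a t = 0 := by rw [ht]; exact hTh.ni
            omega) (fun t ht => hTh.pos t (fun h => ht (Finset.mem_singleton.mpr h))) hsumr hcon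
        have hi : a'' i = 0 := by
          rw [l1 i (Finset.mem_singleton_self _)]; exact hTh.ni
        obtain ⟨k, H, f, w', u', v', hty, hs, hnb, hin⟩ := TOP3.member2 hDEV hFAM2 hMEM2 r n D hr
          (fun t => tz r n (π t)) a'' i hi (by
            intro t ht
            exact ⟨l2 t (fun h => ht (Finset.mem_singleton.mp h)), l3 t⟩)
          (fun t => by have := htz2 (π t); omega) (hτn π) (htzi _) hDr (hτ2 π) (by omega)
        have h1 := hU2 (Fin k) H f w' u' v' i n (by omega) hty (by rw [hs]; exact hτn π)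
          (by rw [hs]; exact TOP1.dev_perm hDEV r n hr _ (hτn π) (hτ2 π))
        rw [hs, hnb] at h1
        have h2 := TOP3.lam_sq_le hP hMx w' hin
        linarith
      refine ⟨hgap, g, w, u, v, i, hTh, hbal hsq, ?_⟩
      have h1 : ∑ t, σ t ^ 2 = ∑ t, tz r n t ^ 2 := le_antisymm hsq f2
      have h2 : ∑ t, a t + r = D := by omega
      exact h2
    · exfalso
      have h1 := hJA' n (by omega) D hR σ a a₁ a₂ α b htot hdevσ haσ hαb hrel (by
        intro h0
        exact (hCLA r V G g w hr hind hgw h0 (fun t => (by norm_num : 1 ≤ 2).trans (hσ2 t))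
          hIn.free hIn.notPartite hIn.noIso).1) hcase1 hcase2 hTg1 hTg2
      rcases h1 with h1 | h1 <;> linarith

end MP0c3a8f
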