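import Pool.Agent.Work.MP_0c3a8f_co.PB.Stmts2
import Pool.Agent.Work.MP_0c3a8f_co.Bd.B08

/-!
# UBG: upper bound for the defect, general structure
-/

open Finset

namespace MP0c3a8f

namespace ItemUBG

theorem isKU {V : Type} {r : ℕ} {G : SimpleGraph V} {g : V → Option (Fin r)} {w : V}
    (hw : g w = none) : IsKU (KU G g {w}) g {w} where
  core u v hu hv := by
    have hu' : u ≠ w := fun h => hu (h ▸ hw)
    have hv' : v ≠ w := fun h => hv (h ▸ hw)
    change (g u ≠ none ∧ g v ≠ none ∧ g u ≠ g v) ∨ _ ↔ _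
    constructor
    · rintro (h | h)
      · exact h.2.2
      · rcases h.2.1 with h1 | h1
        · exact absurd (Finset.mem_singleton.1 h1) hu'
        · exact absurd (Finset.mem_singleton.1 h1) hv'
    · intro h
      exact Or.inl ⟨hu, hv, h⟩
  exc v hv := by
    rw [Finset.mem_singleton.1 hv]
    exact hw
  iso u v hu hu' := by
    rintro (h | h)
    · exact h.1 hu
    · rcases h.2.2.1 with h1 | h1
      · exact h1 hu
      · exact hu' h1

theorem nbn_KU {V : Type} {r : ℕ} {G : SimpleGraph V} {g : V → Option (Fin r)} {w : V}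
    (hw : g w = none) : nbn (KU G g {w}) g w = nbn G g w := by
  funext t
  unfold nbn
  congr 1
  ext v
  constructor
  · rintro ⟨h1, h | h⟩
    · exact absurd hw h.1
    · exact ⟨h1, h.1⟩
  · rintro ⟨h1, h⟩
    refine ⟨h1, Or.inr ⟨h, Or.inl (Finset.mem_singleton_self w),
      Or.inr (Finset.mem_singleton_self w), Or.inl ?_⟩⟩
    change g v = some t at h1
    rw [h1]
    simp

theorem card_pairs {V : Type} [Fintype V] [DecidableEq V] (M : Set (Sym2 V))
    [DecidablePred fun p : V × V => s(p.1, p.2) ∈ M] :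
    ((Finset.univ.filter fun p : V × V => s(p.1, p.2) ∈ M).card : ℝ) ≤ 2 * M.ncard := by
  classical
  have hfin : M.Finite := Set.toFinite M
  have h1 : (Finset.univ.filter fun p : V × V => s(p.1, p.2) ∈ M).card ≤
      2 * hfin.toFinset.card := by
    refine Finset.card_le_mul_card_image_of_maps_to
      (f := fun p : V × V => s(p.1, p.2)) (fun p hp => ?_) 2 fun e _ => ?_
    · rw [Set.Finite.mem_toFinset]
      exact (Finset.mem_filter.1 hp).2
    · induction e with
      | h u v =>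
        calc _ ≤ ({(u, v), (v, u)} : Finset (V × V)).card := by
              refine Finset.card_le_card fun p hp => ?_
              have h2 := (Finset.mem_filter.1 hp).2
              rcases Sym2.eq_iff.1 h2 with ⟨h3, h4⟩ | ⟨h3, h4⟩
              · exact Finset.mem_insert.2 (Or.inl (Prod.ext h3 h4))
              · exact Finset.mem_insert.2 (Or.inr (Finset.mem_singleton.2 (Prod.ext h3 h4)))
          _ ≤ 2 := Finset.card_le_two
  rw [Set.ncard_eq_toFinset_card M hfin]
  exact_mod_cast h1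

theorem qf_le {V : Type} [Fintype V] {r : ℕ} {G : SimpleGraph V} {g : V → Option (Fin r)} {w : V}
    (x : V → ℝ) (hx : ∀ i, 0 ≤ x i) {b : ℝ} (hb : 0 ≤ b)
    (hxb : ∀ u v, g u ≠ none → g v ≠ none → x u * x v ≤ b) :
    qf (KU G g {w}) x ≤ qf G x + 2 * (missSet G g).ncard * b := by
  classical
  have key : ∀ i j, adj (KU G g {w}) i j * (x i * x j) ≤
      adj G i j * (x i * x j) + (if s(i, j) ∈ missSet G g then b else 0) := by
    intro i j
    have hxx : 0 ≤ x i * x j := mul_nonneg (hx i) (hx j)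
    unfold adj
    by_cases h1 : G.Adj i j
    · rw [if_pos h1]
      have : 0 ≤ (if s(i, j) ∈ missSet G g then b else 0) := by split_ifs <;> simp [hb]
      split_ifs <;> linarith
    · rw [if_neg h1]
      by_cases h2 : (KU G g {w}).Adj i j
      · have hA := h2
        rcases h2 with h2 | h2
        · have h3 : s(i, j) ∈ missSet G g := ⟨i, j, rfl, h2.1, h2.2.1, h2.2.2, h1⟩
          rw [if_pos h3, if_pos hA]
          have := hxb i j h2.1 h2.2.1
          linarith
        · exact absurd h2.1 h1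
      · rw [if_neg h2]
        have : 0 ≤ (if s(i, j) ∈ missSet G g then b else 0) := by split_ifs <;> simp [hb]
        linarith
  have h1 : ∑ i, ∑ j, (if s(i, j) ∈ missSet G g then b else 0) =
      ((Finset.univ.filter fun p : V × V => s(p.1, p.2) ∈ missSet G g).card : ℝ) * b := by
    rw [← Finset.sum_product', Finset.univ_product_univ, ← Finset.sum_filter, Finset.sum_const,
      nsmul_eq_mul]
  unfold qf
  calc ∑ i, ∑ j, adj (KU G g {w}) i j * (x i * x j) ≤
      ∑ i, ∑ j, (adj G i j * (x i * x j) + (if s(i, j) ∈ missSet G g then b else 0)) :=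
        Finset.sum_le_sum fun i _ => Finset.sum_le_sum fun j _ => key i j
    _ = ∑ i, ∑ j, adj G i j * (x i * x j) +
        ((Finset.univ.filter fun p : V × V => s(p.1, p.2) ∈ missSet G g).card : ℝ) * b := by
          simp_rw [Finset.sum_add_distrib]
          rw [h1]
    _ ≤ ∑ i, ∑ j, adj G i j * (x i * x j) + 2 * (missSet G g).ncard * b := by
          have := card_pairs (missSet G g)
          gcongr

theorem fin_arith {q n N α L l b M ε s C B : ℝ} (hN : 0 ≤ N) (hα0 : 0 ≤ α) (hα : α ≤ N)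
    (hn : 1 ≤ n) (hε : 0 < ε)
    (_hq0 : 0 ≤ q) (hq1 : q ≤ 1) (hC : 0 ≤ C * (1 + s)) (hB : B = 1 + C * (1 + s))
    (hb : b = 1 / n * (1 + C * (1 + s) / n)) (hL1 : n / 2 ≤ L) (hL2 : L ≤ q * n + (N + 10))
    (hL3 : M - ε / 4 ≤ L ^ 2) (hlL : L - 2 * α * b ≤ l) (hnB : 4 * (N + 1) * B ≤ n)
    (hnX : 16 * (N + 1) * ((N + 10) * B + C * (1 + s)) / ε ≤ n) :
    M - ε / 2 - 4 * q * α ≤ l ^ 2 := by
  have hn0 : 0 < n := by linarith
  have hB1 : 1 ≤ B := by rw [hB]; linarith
  have hnb : n * b = 1 + C * (1 + s) / n := by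
    rw [hb]
    field_simp
  have hnb' : n * b ≤ B := by
    rw [hnb, hB]
    have : C * (1 + s) / n ≤ C * (1 + s) := div_le_self hC hn
    linarith
  have hb0 : 0 ≤ b := by rw [hb]; positivity
  have hpos : 0 ≤ L - 2 * α * b := by
    have h0 : n * (2 * α * b) ≤ 2 * α * B := by
      have : n * (2 * α * b) = 2 * α * (n * b) := by ring
      rw [this]
      exact mul_le_mul_of_nonneg_left hnb' (by linarith)
    have h00 : 2 * α * B ≤ 2 * (N + 1) * B := by nlinarith
    have h1 : n * (2 * α * b) ≤ n * (n / 2) := by nlinarith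
    have h2 : 2 * α * b ≤ n / 2 := le_of_mul_le_mul_left h1 hn0
    linarith
  have hsq : (L - 2 * α * b) ^ 2 ≤ l ^ 2 := pow_le_pow_left₀ hpos hlL 2
  have hLb : L * b ≤ q + ε / (16 * (N + 1)) := by
    have h1 : L * b ≤ (q * n + (N + 10)) * b := mul_le_mul_of_nonneg_right hL2 hb0
    have h2 : (q * n + (N + 10)) * b = q * (n * b) + (N + 10) * b := by ring
    have h3 : q * (n * b) ≤ q + C * (1 + s) / n := by
      rw [hnb]
      have : 0 ≤ C * (1 + s) / n := by positivity
      nlinarith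
    have h4 : b ≤ B / n := by
      rw [le_div_iff₀ hn0]
      linarith
    have h5 : (N + 10) * b ≤ (N + 10) * (B / n) :=
      mul_le_mul_of_nonneg_left h4 (by linarith)
    have h6 : C * (1 + s) / n + (N + 10) * (B / n) ≤ ε / (16 * (N + 1)) := by
      have h7 : C * (1 + s) / n + (N + 10) * (B / n) = ((N + 10) * B + C * (1 + s)) / n := by
        ring
      rw [h7, div_le_div_iff₀ hn0 (by positivity)]
      rw [div_le_iff₀ hε] at hnX
      linarith
    linarith
  have hLb2 : 4 * α * (L * b) ≤ 4 * q * α + ε / 4 := by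
    have h1 : 4 * α * (L * b) ≤ 4 * α * (q + ε / (16 * (N + 1))) :=
      mul_le_mul_of_nonneg_left hLb (by linarith)
    have h2 : 4 * α * (ε / (16 * (N + 1))) ≤ ε / 4 := by
      have h3 : 4 * α * (ε / (16 * (N + 1))) = (α / (N + 1)) * (ε / 4) := by
        field_simp
        ring
      rw [h3]
      have h4 : α / (N + 1) ≤ 1 := by
        rw [div_le_one (by linarith)]
        linarith
      have h5 : 0 ≤ ε / 4 := by linarith
      nlinarith
    linarith
  have h1 : (L - 2 * α * b) ^ 2 = L ^ 2 - 4 * α * (L * b) + 4 * (α * b) ^ 2 := by ring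
  have h2 : 0 ≤ 4 * (α * b) ^ 2 := by positivity
  linarith

end ItemUBG

open ItemUBG in
theorem prfUBG : P_statement → KW3_statement → SEC_statement → CNTU_statement → UBG_statement := by
  intro hP hK hS hC r N ε hr hε
  obtain ⟨C, n₁, hC0, hK⟩ := hK r 1 hr
  obtain ⟨n₂, hS⟩ := hS r N (ε / 4) hr (by positivity)
  set s : ℝ := Real.sqrt N with hs
  have hs0 : 0 ≤ s := Real.sqrt_nonneg _
  set B : ℝ := 1 + C * (1 + s) with hB
  have hN0 : (0 : ℝ) ≤ N := Nat.cast_nonneg N
  have hB1 : 1 ≤ B := by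
    have : 0 ≤ C * (1 + s) := by positivity
    linarith
  obtain ⟨n₃, hn₃⟩ := exists_nat_ge (4 * r * s + 4 * (N + 1) * B +
    16 * (N + 1) * ((N + 10) * B + C * (1 + s)) / ε + 1)
  refine ⟨max n₁ (max n₂ n₃), ?_⟩
  intro V _ G g w n hn hBd
  have hn1 : n₁ ≤ n := le_trans (le_max_left _ _) hn
  have hn2 : n₂ ≤ n := le_trans (le_trans (le_max_left _ _) (le_max_right _ _)) hn
  have hn3 : n₃ ≤ n := le_trans (le_trans (le_max_right _ _) (le_max_right _ _)) hn
  have hn3' : (n₃ : ℝ) ≤ n := by exact_mod_cast hn3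
  have hr0 : (0 : ℝ) < r := by
    have : (3 : ℝ) ≤ r := by exact_mod_cast hr
    linarith
  have hrs : 0 ≤ 4 * r * s := by positivity
  have hX : 0 ≤ 16 * (N + 1) * ((N + 10) * B + C * (1 + s)) / ε := by positivity
  have hBB : 0 ≤ 4 * (N + 1) * B := by positivity
  have hnr : 4 * r * s ≤ n := by linarith
  have hnB : 4 * (N + 1) * B ≤ n := by linarith
  have hnX : 16 * (N + 1) * ((N + 10) * B + C * (1 + s)) / ε ≤ n := by linarith
  have hnpos : (1 : ℝ) ≤ n := by linarith
  have hn0 : (0 : ℝ) < n := by linarith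
  have hw := hBd.out
  have hsz := hBd.tot
  have hα0 : (0 : ℝ) ≤ (missSet G g).ncard := Nat.cast_nonneg _
  have hl0 : (0 : ℝ) ≤ (lightSet G g {w}).ncard := Nat.cast_nonneg _
  have hdev0 := ItemUB1.dev_nonneg (siz g)
  have hbnd := hBd.bnd
  have hdev : dev (siz g) ≤ N := by linarith
  have hα : ((missSet G g).ncard : ℝ) ≤ N := by linarith
  have : Nonempty V := ⟨w⟩
  set K := KU G g {w} with hKdef
  obtain ⟨_, _, x, hx0, hx1, hxe⟩ := hP V K
  have hsum : (∑ t, (siz g t : ℝ)) = n := by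
    rw [← hsz]
    push_cast
    rfl
  have hKU : IsKU K g {w} := isKU hw
  have hdevs : Real.sqrt (dev (siz g)) ≤ s := Real.sqrt_le_sqrt hdev
  have hdd : ∀ t, |(siz g t : ℝ) - (n : ℝ) / r| ≤ n / (4 * (r : ℝ)) := by
    intro t
    have h1 := ItemUB1.abs_le_sqrt_dev (siz g) t
    rw [hsum] at h1
    refine h1.trans (hdevs.trans ?_)
    rw [le_div_iff₀ (by positivity)]
    linarith
  obtain ⟨hl1, _, hl3, _⟩ := hK V K g {w} x n hKU (by simp) hn1 hsz hdd hx0 hx1 hxe
  obtain ⟨hS1, hS2⟩ := hS V K g w n hn2 hKU hsz hdev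
  rw [nbn_KU hw] at hS1
  set L := lam K with hL
  set M := Mu r (siz g) (nbn G g w) with hM
  have hS1' : M - ε / 4 ≤ L ^ 2 := by
    have := (abs_le.1 hS1).1
    linarith
  have hS2' : L ≤ qq r * n + (N + 10) := by
    have := (abs_le.1 hS2).2
    linarith
  have hb : ∀ v, g v ≠ none → x v ^ 2 ≤ 1 / n * (1 + C * (1 + s) / n) := by
    intro v hv
    refine (hl3 v hv).trans ?_
    gcongr
  set b : ℝ := 1 / n * (1 + C * (1 + s) / n) with hbdef
  have hb0 : 0 ≤ b := by rw [hbdef]; positivity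
  have hxb : ∀ u v, g u ≠ none → g v ≠ none → x u * x v ≤ b := by
    intro u v hu hv
    have h1 := hb u hu
    have h2 := hb v hv
    nlinarith [sq_nonneg (x u - x v)]
  have hq := qf_le (G := G) (w := w) x hx0 hb0 hxb
  rw [← hKdef, ItemUB1.qf_eig _ _ _ hx1 hxe] at hq
  have hlG : L - 2 * (missSet G g).ncard * b ≤ lam G := by
    have h1 := (hP V G).2.1 x
    rw [hx1, mul_one] at h1
    linarith
  have hCs : 0 ≤ C * (1 + s) := by positivity
  have hq1 : qq r ≤ 1 := by
    unfold qq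
    have : 0 ≤ 1 / (r : ℝ) := by positivity
    linarith
  have hq0 : 0 ≤ qq r := by
    unfold qq
    have : 1 / (r : ℝ) ≤ 1 := by
      rw [div_le_one hr0]
      have : (3 : ℝ) ≤ r := by exact_mod_cast hr
      linarith
    linarith
  have hfin : M - ε / 2 - 4 * qq r * (missSet G g).ncard ≤ lam G ^ 2 :=
    fin_arith hN0 hα0 hα hnpos hε hq0 hq1 hCs hB hbdef hl1 hS2' hS1' hlG hnB hnX
  -- the number of edges
  obtain ⟨e, he, hcnt⟩ := hC r V G g {w} hBd.indep (by
    intro v hv
    rw [Finset.mem_singleton] at hv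
    rw [hv]
    exact hw)
  have he0 : e = 0 := by
    rw [Finset.card_singleton] at he
    omega
  rw [he0, hsz, Finset.sum_singleton] at hcnt
  have hcnt' : 2 * (G.edgeSet.ncard : ℝ) + 2 * (missSet G g).ncard + ∑ t, (siz g t : ℝ) ^ 2
      = (n : ℝ) ^ 2 + 2 * (∑ t, (nbn G g w t : ℝ)) + 2 * 0 + 2 * (lightSet G g {w}).ncard := by
    exact_mod_cast hcnt
  have hde := ItemUB1.dev_eq (by omega : 1 ≤ r) (siz g)
  rw [hsum] at hde
  have hE : 2 * (G.edgeSet.ncard : ℝ)
      = qq r * n ^ 2 - dev (siz g) + 2 * (∑ t, (nbn G g w t : ℝ)) - 2 * (missSet G g).ncard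
        + 2 * (lightSet G g {w}).ncard := by
    rw [hde]
    unfold qq
    have : (1 - 1 / (r : ℝ)) * (n : ℝ) ^ 2 = n ^ 2 - (n : ℝ) ^ 2 / r := by ring
    rw [this]
    linarith
  have hKap : Kap r (siz g) (nbn G g w) = qq r * (qq r * (n : ℝ) ^ 2 - dev (siz g))
      + 2 * qq r * ∑ t, (nbn G g w t : ℝ) - M := by
    unfold Kap
    rw [hsum]
  unfold Cst
  rw [hKap]
  have h8 : 2 * qq r * (G.edgeSet.ncard : ℝ) = qq r * (2 * G.edgeSet.ncard) := by ring
  rw [h8, hE]
  have h9 : qq r * (qq r * (n : ℝ) ^ 2 - dev (siz g) + 2 * (∑ t, (nbn G g w t : ℝ))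
        - 2 * (missSet G g).ncard + 2 * (lightSet G g {w}).ncard)
      = qq r * (qq r * (n : ℝ) ^ 2 - dev (siz g)) + 2 * qq r * ∑ t, (nbn G g w t : ℝ)
        - 2 * qq r * (missSet G g).ncard + 2 * qq r * (lightSet G g {w}).ncard := by ring
  rw [h9]
  linarith

end MP0c3a8f
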