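import Pool.Agent.Work.MP_0c3a8f_co.PB.Stmts

/-!
# MP_0c3a8f_co, phase B: moving a neighbour of `u`
-/

open Finset

namespace MP0c3a8f

namespace ItemUS2

open Classical in
/-- the indicator of a pair -/
noncomputable def ind {V : Type} (u y a b : V) : ℝ :=
  (if a = u then (if b = y then 1 else 0) else 0) +
    (if a = y then (if b = u then 1 else 0) else 0)

lemma sum_ind {V : Type} [Fintype V] (u y : V) (x : V → ℝ) :
    ∑ a, ∑ b, ind u y a b * (x a * x b) = 2 * (x u * x y) := by
  classical
  have e1 : ∀ a, ∑ b, ind u y a b * (x a * x b) =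
      (if a = u then x a * x y else 0) + (if a = y then x a * x u else 0) := by
    intro a
    unfold ind
    by_cases h1 : a = u <;> by_cases h2 : a = y <;>
      simp [h1, h2, add_mul, Finset.sum_add_distrib, ite_mul]
  rw [Finset.sum_congr rfl (fun a _ => e1 a), Finset.sum_add_distrib, Finset.sum_ite_eq',
    Finset.sum_ite_eq']
  simp
  ring

lemma adj_eq {V : Type} {G G' : SimpleGraph V} {u y y' : V} (huy : u ≠ y) (huy' : u ≠ y')
    (h1 : G.Adj u y) (h2 : ¬ G.Adj u y')
    (h : ∀ x z, G'.Adj x z ↔ (G.Adj x z ∧ s(x, z) ≠ s(u, y)) ∨ s(x, z) = s(u, y')) (a b : V) :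
    adj G' a b = adj G a b - ind u y a b + ind u y' a b := by
  classical
  have hyy : y ≠ y' := by rintro rfl; exact h2 h1
  have h1' : G.Adj y u := h1.symm
  have h2' : ¬ G.Adj y' u := fun h => h2 h.symm
  have hh := h a b
  rw [Ne, Sym2.eq_iff, Sym2.eq_iff] at hh
  unfold adj ind
  by_cases c1 : a = u
  · by_cases c2 : b = y
    · subst c1 c2
      have : ¬ G'.Adj a b := by rw [hh]; tauto
      simp [this, h1, huy, hyy, huy']
    · by_cases c3 : b = y'
      · subst c1 c3
        have : G'.Adj a b := by rw [hh]; tauto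
        simp [this, h2, huy, huy', hyy.symm]
      · subst c1
        have : G'.Adj a b ↔ G.Adj a b := by rw [hh]; tauto
        simp [this, c2, c3, huy, huy']
  · by_cases c2 : b = u
    · by_cases c3 : a = y
      · subst c2 c3
        have : ¬ G'.Adj a b := by rw [hh]; tauto
        simp [this, h1', huy.symm, hyy]
      · by_cases c4 : a = y'
        · subst c2 c4
          have : G'.Adj a b := by rw [hh]; tauto
          simp [this, h2', huy'.symm, hyy.symm]
        · subst c2
          have : G'.Adj a b ↔ G.Adj a b := by rw [hh]; tauto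
          simp [this, c1, c3, c4]
    · have : G'.Adj a b ↔ G.Adj a b := by rw [hh]; tauto
      simp [this, c1, c2]

end ItemUS2

open ItemUS2 in
theorem prfUS2 : P_statement → EIG2_statement → GAP2_statement → US2_statement := by
  intro hP hE hG r ε hr hε
  obtain ⟨n₀, hn₀⟩ := hG r ε hr hε
  refine ⟨max n₀ 1, ?_⟩
  intro V _ G G' f w u y y' v i k l n hn hty hbal hd1 hd2 hy hy' huy huy' hwy hG' hcase
  have hn1 : n₀ ≤ n := le_trans (le_max_left _ _) hn
  have hn2 : 1 ≤ n := le_trans (le_max_right _ _) hn
  have hnR : (0 : ℝ) < n := by exact_mod_cast hn2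
  have : Nonempty V := ⟨w⟩
  obtain ⟨-, -, x, hx0, hx1, hx2⟩ := hP V G
  obtain ⟨-, hP', -⟩ := hP V G'
  have hxne : x ≠ 0 := by
    rintro rfl
    simp at hx1
  obtain ⟨hl, hT, hxw, hxu, huw, hxuT, -, hgap⟩ :=
    hn₀ V G f w u v i x n hn1 hty hbal hd1 hd2 hx0 hxne hx2
  obtain ⟨he, -, -, -⟩ := hE r V G f w u v i x (lam G) hty hx2
  have e1 := he y k hy
  have e2 := he y' l hy'
  rw [if_neg hwy, if_pos huy] at e1
  rw [if_neg huy'] at e2
  have hfu : f u = none := (hty.out u).2 (Or.inr rfl)
  have hne1 : u ≠ y := by rintro rfl; rw [hfu] at hy; exact absurd hy (by simp)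
  have hne2 : u ≠ y' := by rintro rfl; rw [hfu] at hy'; exact absurd hy' (by simp)
  have hlpos : 0 < lam G := lt_of_lt_of_le (by positivity) hl
  have hlt : x y < x y' := by
    have h3 : lam G * x y < lam G * x y' := by
      rw [e1, e2]
      rcases hcase with ⟨hkl, hadj⟩ | ⟨hsz, hadj⟩
      · rw [if_pos hadj, hkl]
        linarith
      · rw [if_neg hadj]
        have h4 := hgap k l hsz
        have h5 : (∑ s, cw x f (some s)) / (2 * n) = 2 * ((∑ s, cw x f (some s)) / (4 * n)) := by
          field_simp
          ring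
        have h6 : 0 < (∑ s, cw x f (some s)) / (4 * n) := by positivity
        linarith
    exact lt_of_mul_lt_mul_left h3 hlpos.le
  have hq : qf G' x = qf G x + 2 * (x u * (x y' - x y)) := by
    unfold qf
    have h3 : ∀ a b, adj G' a b * (x a * x b) = adj G a b * (x a * x b) -
        ind u y a b * (x a * x b) + ind u y' a b * (x a * x b) := by
      intro a b
      rw [adj_eq hne1 hne2 huy huy' hG' a b]
      ring
    simp only [h3, Finset.sum_add_distrib, Finset.sum_sub_distrib, sum_ind]
    ring
  have hq1 : qf G x = lam G := by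
    unfold qf
    have h3 : ∀ a, ∑ b, adj G a b * (x a * x b) = lam G * x a ^ 2 := by
      intro a
      have := hx2 a
      calc ∑ b, adj G a b * (x a * x b) = x a * ∑ b, adj G a b * x b := by
            rw [Finset.mul_sum]
            apply Finset.sum_congr rfl
            intro b _
            ring
        _ = _ := by rw [this]; ring
    rw [Finset.sum_congr rfl (fun a _ => h3 a), ← Finset.mul_sum, hx1, mul_one]
  have h4 := hP' x
  rw [hx1, mul_one, hq, hq1] at h4
  have h5 : 0 < x u * (x y' - x y) := mul_pos hxu (by linarith)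
  linarith

end MP0c3a8f
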