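import Pool.Agent.Work.MP_0c3a8f_co.PB.Stmts

/-!
# MP_0c3a8f_co, phase B: item ZET
-/

open Finset

namespace MP0c3a8f

namespace ZET

variable {V : Type} [Fintype V] {r : ℕ} {C M : ℝ} {G : SimpleGraph V} {z : V → ℝ}
  {f : V → Option (Fin r)}

open Classical in
/-- members of the class `s` adjacent to `w` -/
noncomputable def A (G : SimpleGraph V) (f : V → Option (Fin r)) (s : Fin r) (w : V) : Finset V :=
  univ.filter fun u => f u = some s ∧ G.Adj w u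

lemma mem_A {s : Fin r} {w u : V} : u ∈ A G f s w ↔ f u = some s ∧ G.Adj w u := by
  simp [A]

lemma sumA {w : V} (hc : Cheap C G z f w) (s : Fin r) :
    ∑ u ∈ A G f s w, (z u - 1 / z w) ^ 2 ≤ 2 * C ^ 2 := by
  refine le_trans ?_ hc.2.1
  calc ∑ u ∈ A G f s w, (z u - 1 / z w) ^ 2
      = ∑ u ∈ A G f s w, adj G w u * (z u - 1 / z w) ^ 2 := by
        refine sum_congr rfl fun u hu => ?_
        have h : G.Adj w u := (mem_A.mp hu).2
        simp [adj, h]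
    _ ≤ ∑ u, adj G w u * (z u - 1 / z w) ^ 2 := by
        refine sum_le_univ_sum_of_nonneg fun u => ?_
        unfold adj
        split_ifs <;> positivity

lemma cwA {w : V} (hc : Cheap C G z f w) (s : Fin r) (hs : f w ≠ some s) :
    cw (fun i => z i ^ 2) f (some s) ≤ ∑ u ∈ A G f s w, z u ^ 2 + 2 * C ^ 2 := by
  classical
  refine le_trans ?_ (add_le_add le_rfl hc.2.2)
  unfold cw A
  rw [sum_filter, ← sum_add_distrib]
  refine sum_le_sum fun u _ => ?_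
  have hz : 0 ≤ z u ^ 2 := by positivity
  by_cases h1 : f u = some s
  · by_cases h2 : G.Adj w u
    · rw [if_pos h1, if_pos ⟨h1, h2⟩]
      split_ifs <;> linarith
    · rw [if_pos h1, if_neg (fun h => h2 h.2), if_pos]
      · linarith
      · exact ⟨by simp [h1], by rw [h1]; exact fun h => hs h.symm, h2⟩
  · rw [if_neg h1]
    split_ifs <;> linarith

open Classical in
lemma cwAA {w w' : V} (hc : Cheap C G z f w) (hc' : Cheap C G z f w') (s : Fin r)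
    (hs : f w ≠ some s) (hs' : f w' ≠ some s) :
    cw (fun i => z i ^ 2) f (some s)
      ≤ ∑ u ∈ A G f s w ∩ A G f s w', z u ^ 2 + 2 * C ^ 2 + 2 * C ^ 2 := by
  refine le_trans (cwA hc s hs) (add_le_add ?_ le_rfl)
  refine le_trans ?_ (add_le_add le_rfl hc'.2.2)
  have e1 : ∑ u ∈ A G f s w, z u ^ 2 = ∑ u, if u ∈ A G f s w then z u ^ 2 else 0 := by
    rw [← sum_filter]
    congr 1
    ext u
    simp
  have e2 : ∑ u ∈ A G f s w ∩ A G f s w', z u ^ 2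
      = ∑ u, if u ∈ A G f s w ∩ A G f s w' then z u ^ 2 else 0 := by
    rw [← sum_filter]
    congr 1
    ext u
    simp
  rw [e1, e2, ← sum_add_distrib]
  refine sum_le_sum fun u _ => ?_
  have hz : 0 ≤ z u ^ 2 := by positivity
  by_cases h1 : u ∈ A G f s w
  · by_cases h2 : u ∈ A G f s w'
    · rw [if_pos h1, if_pos (mem_inter.mpr ⟨h1, h2⟩)]
      split_ifs <;> linarith
    · have h3 := mem_A.mp h1
      rw [if_pos h1, if_neg (fun h => h2 (mem_inter.mp h).2), if_pos]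
      · linarith
      · refine ⟨by simp [h3.1], by rw [h3.1]; exact fun h => hs' h.symm, fun h => h2 ?_⟩
        exact mem_A.mpr ⟨h3.1, h⟩
  · rw [if_neg h1]
    split_ifs <;> linarith

/-- Step 1 -/
lemma step1 {w w' : V} (hC : 1 ≤ C) (hc : Cheap C G z f w) (hc' : Cheap C G z f w') (s : Fin r)
    (hs : f w ≠ some s) (hs' : f w' ≠ some s) (hM : 16 * C ^ 3 ≤ M)
    (hcl : M / C ≤ cw (fun i => z i ^ 2) f (some s)) :
    (1 / z w - 1 / z w') ^ 2 * M ≤ 32 * C ^ 3 * (1 / z w) ^ 2 := by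
  classical
  have h1 := cwAA hc hc' s hs hs'
  set I := A G f s w ∩ A G f s w' with hI
  set a := 1 / z w with ha
  set b := 1 / z w' with hb
  have h2 : ∑ u ∈ I, (z u - a) ^ 2 ≤ 2 * C ^ 2 :=
    le_trans (sum_le_sum_of_subset_of_nonneg inter_subset_left fun u _ _ => by positivity)
      (sumA hc s)
  have h3 : ∑ u ∈ I, (z u - b) ^ 2 ≤ 2 * C ^ 2 :=
    le_trans (sum_le_sum_of_subset_of_nonneg inter_subset_right fun u _ _ => by positivity)
      (sumA hc' s)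
  have h4 : ∑ u ∈ I, z u ^ 2 ≤ 2 * (2 * C ^ 2) + 2 * (I.card * a ^ 2) := by
    calc ∑ u ∈ I, z u ^ 2 ≤ ∑ u ∈ I, (2 * (z u - a) ^ 2 + 2 * a ^ 2) :=
          sum_le_sum fun u _ => by nlinarith [sq_nonneg (z u - 2 * a)]
      _ = 2 * ∑ u ∈ I, (z u - a) ^ 2 + 2 * (I.card * a ^ 2) := by
          rw [sum_add_distrib, mul_sum, sum_const, nsmul_eq_mul]
          ring
      _ ≤ _ := by linarith
  have h5 : I.card * (a - b) ^ 2 ≤ 8 * C ^ 2 := by
    calc (I.card : ℝ) * (a - b) ^ 2 = ∑ u ∈ I, (a - b) ^ 2 := by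
          rw [sum_const, nsmul_eq_mul]
      _ ≤ ∑ u ∈ I, (2 * (z u - a) ^ 2 + 2 * (z u - b) ^ 2) :=
          sum_le_sum fun u _ => by nlinarith [sq_nonneg (z u - a + (z u - b))]
      _ = 2 * ∑ u ∈ I, (z u - a) ^ 2 + 2 * ∑ u ∈ I, (z u - b) ^ 2 := by
          rw [sum_add_distrib, mul_sum, mul_sum]
      _ ≤ _ := by linarith
  have hC0 : 0 < C := by linarith
  have h6 : 16 * C ^ 2 ≤ M / C := by
    rw [le_div_iff₀ hC0]
    nlinarith
  have h7 : M / C / 4 ≤ I.card * a ^ 2 := by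
    nlinarith
  have h8 : M ≤ 4 * C * (I.card * a ^ 2) := by
    have : M = 4 * C * (M / C / 4) := by field_simp
    rw [this]
    exact mul_le_mul_of_nonneg_left h7 (by positivity)
  calc (a - b) ^ 2 * M ≤ (a - b) ^ 2 * (4 * C * (I.card * a ^ 2)) :=
        mul_le_mul_of_nonneg_left h8 (sq_nonneg _)
    _ = 4 * C * a ^ 2 * (I.card * (a - b) ^ 2) := by ring
    _ ≤ 4 * C * a ^ 2 * (8 * C ^ 2) := mul_le_mul_of_nonneg_left h5 (by positivity)
    _ = _ := by ring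

lemma step1' {a b ρ : ℝ} (ha : 0 < a) (hρ : 0 < ρ) (hC : 1 ≤ C)
    (h : (a - b) ^ 2 * M ≤ 32 * C ^ 3 * a ^ 2) (hM : 32 * C ^ 3 ≤ M * ρ ^ 2) :
    |b - a| ≤ ρ * a := by
  have hC3 : 0 < C ^ 3 := by positivity
  have h1 : (a - b) ^ 2 * (32 * C ^ 3) ≤ (32 * C ^ 3) * (ρ * a) ^ 2 := by
    calc (a - b) ^ 2 * (32 * C ^ 3) ≤ (a - b) ^ 2 * (M * ρ ^ 2) :=
          mul_le_mul_of_nonneg_left hM (sq_nonneg _)
      _ = ((a - b) ^ 2 * M) * ρ ^ 2 := by ring
      _ ≤ (32 * C ^ 3 * a ^ 2) * ρ ^ 2 := mul_le_mul_of_nonneg_right h (by positivity)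
      _ = _ := by ring
  have h2 : (b - a) ^ 2 ≤ (ρ * a) ^ 2 := by
    have h3 : 0 < 32 * C ^ 3 := by positivity
    have h4 : (b - a) ^ 2 = (a - b) ^ 2 := by ring
    rw [h4]
    nlinarith
  exact abs_le_of_sq_le_sq h2 (by positivity)

/-- Step 2: a set of vertices of the class `s` close to `a` -/
lemma step2 {w : V} {ρ a : ℝ} (hC : 1 ≤ C) (hρ : 0 < ρ) (hρ1 : ρ ≤ 1 / 100)
    (hz : ∀ v, 0 ≤ z v)
    (hc : Cheap C G z f w) (s : Fin r) (hs : f w ≠ some s)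
    (hM : 2 * C * (2 * C ^ 2 + (1 + 1 / ρ) ^ 2 * (2 * C ^ 2)) ≤ M)
    (hcl : M / C ≤ cw (fun i => z i ^ 2) f (some s)) (haw : |1 / z w - a| ≤ ρ * a) :
    ∃ U : Finset V, (∀ u ∈ U, f u = some s ∧ (1 - ρ) ^ 2 * a ≤ z u ∧ z u ≤ (1 + ρ) ^ 2 * a) ∧
      M / (2 * C) ≤ ∑ u ∈ U, z u ^ 2 := by
  classical
  have h1 := cwA hc s hs
  have h2 := sumA hc s
  have hw : 0 < 1 / z w := by
    have := hc.1
    positivity
  set b := 1 / z w with hb
  have hC0 : 0 < C := by linarith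
  refine ⟨(A G f s w).filter fun u => |z u - b| ≤ ρ * b, ?_, ?_⟩
  · intro u hu
    obtain ⟨hu1, hu2⟩ := mem_filter.mp hu
    refine ⟨(mem_A.mp hu1).1, ?_, ?_⟩
    · have e1 := (abs_le.mp hu2).1
      have e2 := (abs_le.mp haw).1
      have e3 : (1 - ρ) * a ≤ b := by linarith
      have e4 : (1 - ρ) * b ≤ z u := by linarith
      calc (1 - ρ) ^ 2 * a = (1 - ρ) * ((1 - ρ) * a) := by ring
        _ ≤ (1 - ρ) * b := mul_le_mul_of_nonneg_left e3 (by linarith)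
        _ ≤ _ := e4
    · have e1 := (abs_le.mp hu2).2
      have e2 := (abs_le.mp haw).2
      have e3 : b ≤ (1 + ρ) * a := by linarith
      have e4 : z u ≤ (1 + ρ) * b := by linarith
      calc z u ≤ (1 + ρ) * b := e4
        _ ≤ (1 + ρ) * ((1 + ρ) * a) := mul_le_mul_of_nonneg_left e3 (by linarith)
        _ = _ := by ring
  · have h3 : ∑ u ∈ (A G f s w).filter (fun u => ¬ |z u - b| ≤ ρ * b), z u ^ 2
        ≤ (1 + 1 / ρ) ^ 2 * (2 * C ^ 2) := by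
      calc ∑ u ∈ (A G f s w).filter (fun u => ¬ |z u - b| ≤ ρ * b), z u ^ 2
          ≤ ∑ u ∈ (A G f s w).filter (fun u => ¬ |z u - b| ≤ ρ * b),
              (1 + 1 / ρ) ^ 2 * (z u - b) ^ 2 := by
            refine sum_le_sum fun u hu => ?_
            have e1 : ρ * b < |z u - b| := not_le.mp (mem_filter.mp hu).2
            have e2 : b ≤ 1 / ρ * |z u - b| := by
              rw [one_div, ← div_eq_inv_mul, le_div_iff₀ hρ]
              linarith
            have e3 : z u ≤ (1 + 1 / ρ) * |z u - b| := by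
              have := le_abs_self (z u - b)
              linarith
            have e4 := pow_le_pow_left₀ (hz u) e3 2
            rw [mul_pow, sq_abs] at e4
            exact e4
        _ ≤ ∑ u ∈ A G f s w, (1 + 1 / ρ) ^ 2 * (z u - b) ^ 2 :=
            sum_le_sum_of_subset_of_nonneg (filter_subset _ _) fun u _ _ => by positivity
        _ = (1 + 1 / ρ) ^ 2 * ∑ u ∈ A G f s w, (z u - b) ^ 2 := by rw [mul_sum]
        _ ≤ _ := mul_le_mul_of_nonneg_left h2 (by positivity)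
    have h4 := sum_filter_add_sum_filter_not (A G f s w) (fun u => |z u - b| ≤ ρ * b)
      (fun u => z u ^ 2)
    have h5 : 2 * C ^ 2 + (1 + 1 / ρ) ^ 2 * (2 * C ^ 2) ≤ M / (2 * C) := by
      rw [le_div_iff₀ (by positivity)]
      linarith
    have h6 : M / C = M / (2 * C) + M / (2 * C) := by
      field_simp
      ring
    linarith

/-- Step 3: a pair with product close to `1` -/
lemma step3 {ρ : ℝ} (hC : 1 ≤ C) (hρ : 0 < ρ) (hρ1 : ρ ≤ 1 / 100) (hM0 : 0 < M)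
    (hM : 8 * C ^ 3 < M * ρ ^ 2) (hL : Lin r C M G z f) {s s' : Fin r} (hss : s ≠ s')
    {U U' : Finset V} (hU : ∀ u ∈ U, f u = some s) (hU' : ∀ u ∈ U', f u = some s')
    (h1 : M / (2 * C) ≤ ∑ u ∈ U, z u ^ 2) (h2 : M / (2 * C) ≤ ∑ u ∈ U', z u ^ 2) :
    ∃ u ∈ U, ∃ v ∈ U', |z u * z v - 1| < ρ * (z u * z v) := by
  classical
  by_contra hcon
  push Not at hcon
  have hC0 : 0 < C := by linarith
  have key : ρ ^ 2 * ((∑ u ∈ U, z u ^ 2) * (∑ v ∈ U', z v ^ 2)) ≤ C * M + C * M := by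
    refine le_trans ?_ (add_le_add hL.ed hL.ms)
    unfold miss
    rw [← sum_add_distrib, sum_mul_sum, mul_sum]
    have nn : ∀ i j : V, 0 ≤ adj G i j * (z i * z j - 1) ^ 2 +
        (if f i ≠ none ∧ f j ≠ none ∧ f i ≠ f j ∧ ¬ G.Adj i j then z i ^ 2 * z j ^ 2 else 0) := by
      intro i j
      unfold adj
      split_ifs <;> positivity
    calc ∑ i ∈ U, ρ ^ 2 * ∑ j ∈ U', z i ^ 2 * z j ^ 2
        ≤ ∑ i ∈ U, ∑ j ∈ U', (adj G i j * (z i * z j - 1) ^ 2 +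
          (if f i ≠ none ∧ f j ≠ none ∧ f i ≠ f j ∧ ¬ G.Adj i j then z i ^ 2 * z j ^ 2 else 0)) := by
          refine sum_le_sum fun i hi => ?_
          rw [mul_sum]
          refine sum_le_sum fun j hj => ?_
          have e1 := hcon i hi j hj
          have e2 : 0 ≤ z i * z j := mul_nonneg (hL.nonneg i) (hL.nonneg j)
          have hρ2 : ρ ^ 2 ≤ 1 := by nlinarith
          by_cases h : G.Adj i j
          · have e3 := pow_le_pow_left₀ (mul_nonneg hρ.le e2) e1 2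
            rw [sq_abs] at e3
            have e4 : adj G i j = 1 := by simp [adj, h]
            rw [e4, if_neg (fun hh => hh.2.2.2 h)]
            nlinarith
          · have e4 : adj G i j = 0 := by simp [adj, h]
            rw [e4, if_pos]
            · have : 0 ≤ z i ^ 2 * z j ^ 2 := by positivity
              nlinarith
            · refine ⟨by simp [hU i hi], by simp [hU' j hj], ?_, h⟩
              rw [hU i hi, hU' j hj]
              exact fun h => hss (Option.some_injective _ h)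
      _ ≤ ∑ i ∈ U, ∑ j, (adj G i j * (z i * z j - 1) ^ 2 +
          (if f i ≠ none ∧ f j ≠ none ∧ f i ≠ f j ∧ ¬ G.Adj i j then z i ^ 2 * z j ^ 2 else 0)) :=
          sum_le_sum fun i _ => sum_le_univ_sum_of_nonneg fun j => nn i j
      _ ≤ ∑ i, ∑ j, (adj G i j * (z i * z j - 1) ^ 2 +
          (if f i ≠ none ∧ f j ≠ none ∧ f i ≠ f j ∧ ¬ G.Adj i j then z i ^ 2 * z j ^ 2 else 0)) :=
          sum_le_univ_sum_of_nonneg fun i => sum_nonneg fun j _ => nn i j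
      _ = _ := by
          refine sum_congr rfl fun i _ => ?_
          rw [sum_add_distrib]
  have h3 : M / (2 * C) * (M / (2 * C)) ≤ (∑ u ∈ U, z u ^ 2) * (∑ v ∈ U', z v ^ 2) :=
    mul_le_mul h1 h2 (by positivity) (le_trans (by positivity) h1)
  have h4 : ρ ^ 2 * (M / (2 * C) * (M / (2 * C))) ≤ 2 * C * M := by
    have := mul_le_mul_of_nonneg_left h3 (sq_nonneg ρ)
    linarith
  have h5 : ρ ^ 2 * (M / (2 * C) * (M / (2 * C))) = (M * ρ ^ 2) * M / (4 * C ^ 2) := by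
    field_simp
    ring
  rw [h5, div_le_iff₀ (by positivity)] at h4
  have h6 : 8 * C ^ 3 * M < M * ρ ^ 2 * M := mul_lt_mul_of_pos_right hM hM0
  nlinarith

/-- the numerical estimate -/
lemma num {a b x y ρ : ℝ} (hρ : 0 < ρ) (hρ1 : ρ ≤ 1 / 100) (ha : 0 < a)
    (hx : (1 - ρ) ^ 2 * a ≤ x) (hx' : x ≤ (1 + ρ) ^ 2 * a)
    (hy : (1 - ρ) ^ 2 * a ≤ y) (hy' : y ≤ (1 + ρ) ^ 2 * a)
    (hxy : |x * y - 1| < ρ * (x * y)) (hb : |b - a| ≤ ρ * a) : |b - 1| ≤ 6 * ρ := by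
  have h1ρ : 0 < 1 - ρ := by linarith
  have x0 : 0 < x := lt_of_lt_of_le (by positivity) hx
  have y0 : 0 < y := lt_of_lt_of_le (by positivity) hy
  obtain ⟨e1, e2⟩ := abs_lt.mp hxy
  have l1 : (1 - ρ) ^ 4 * a ^ 2 ≤ x * y := by
    calc (1 - ρ) ^ 4 * a ^ 2 = ((1 - ρ) ^ 2 * a) * ((1 - ρ) ^ 2 * a) := by ring
      _ ≤ x * y := mul_le_mul hx hy (by positivity) x0.le
  have l2 : x * y ≤ (1 + ρ) ^ 4 * a ^ 2 := by
    calc x * y ≤ ((1 + ρ) ^ 2 * a) * ((1 + ρ) ^ 2 * a) :=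
          mul_le_mul hx' hy' y0.le (by positivity)
      _ = _ := by ring
  have l3 : (1 - ρ) ^ 5 * a ^ 2 ≤ 1 := by
    calc (1 - ρ) ^ 5 * a ^ 2 = (1 - ρ) * ((1 - ρ) ^ 4 * a ^ 2) := by ring
      _ ≤ (1 - ρ) * (x * y) := mul_le_mul_of_nonneg_left l1 h1ρ.le
      _ ≤ 1 := by linarith
  have l4 : 1 ≤ (1 + ρ) ^ 5 * a ^ 2 := by
    calc (1 : ℝ) ≤ (1 + ρ) * (x * y) := by linarith
      _ ≤ (1 + ρ) * ((1 + ρ) ^ 4 * a ^ 2) := mul_le_mul_of_nonneg_left l2 (by linarith)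
      _ = _ := by ring
  have p1 : 1 - 5 * ρ ≤ (1 - ρ) ^ 5 := by
    have := one_add_mul_le_pow (a := -ρ) (by linarith) 5
    have e : (1 + -ρ) ^ 5 = (1 - ρ) ^ 5 := by ring
    rw [e] at this
    push_cast at this
    linarith
  have p2 : (1 + ρ) ^ 5 ≤ 1 + 6 * ρ := by
    have hρ2 : ρ ^ 2 ≤ 1 / 100 * ρ := by nlinarith
    have hρ3 : ρ ^ 3 ≤ 1 / 100 * ρ := by nlinarith [sq_nonneg ρ]
    have hρ4 : ρ ^ 4 ≤ 1 / 100 * ρ := by nlinarith [sq_nonneg ρ, pow_pos hρ 3]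
    have hρ5 : ρ ^ 5 ≤ 1 / 100 * ρ := by nlinarith [sq_nonneg ρ, pow_pos hρ 4]
    have e : (1 + ρ) ^ 5 = 1 + 5 * ρ + 10 * ρ ^ 2 + 10 * ρ ^ 3 + 5 * ρ ^ 4 + ρ ^ 5 := by ring
    rw [e]
    linarith
  have a1 : a ≤ 1 + 4 * ρ := by
    by_contra hcon
    push Not at hcon
    have q1 : (1 + 4 * ρ) ^ 2 < a ^ 2 := by
      exact pow_lt_pow_left₀ hcon (by linarith) (by norm_num)
    have q2 : (1 - 5 * ρ) * a ^ 2 ≤ 1 :=
      le_trans (mul_le_mul_of_nonneg_right p1 (sq_nonneg a)) l3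
    have q3 : (1 - 5 * ρ) * (1 + 4 * ρ) ^ 2 < (1 - 5 * ρ) * a ^ 2 :=
      mul_lt_mul_of_pos_left q1 (by linarith)
    have q4 : (1 : ℝ) ≤ (1 - 5 * ρ) * (1 + 4 * ρ) ^ 2 := by
      have : (1 - 5 * ρ) * (1 + 4 * ρ) ^ 2 = 1 + ρ * (3 - 24 * ρ - 80 * ρ ^ 2) := by ring
      rw [this]
      have : 0 ≤ ρ * (3 - 24 * ρ - 80 * ρ ^ 2) := by
        refine mul_nonneg hρ.le ?_
        nlinarith
      linarith
    linarith
  have a2 : 1 - 4 * ρ ≤ a := by
    by_contra hcon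
    push Not at hcon
    have q1 : a ^ 2 < (1 - 4 * ρ) ^ 2 := pow_lt_pow_left₀ hcon ha.le (by norm_num)
    have q2 : (1 : ℝ) ≤ (1 + 6 * ρ) * a ^ 2 :=
      le_trans l4 (mul_le_mul_of_nonneg_right p2 (sq_nonneg a))
    have q3 : (1 + 6 * ρ) * a ^ 2 < (1 + 6 * ρ) * (1 - 4 * ρ) ^ 2 :=
      mul_lt_mul_of_pos_left q1 (by linarith)
    have q4 : (1 + 6 * ρ) * (1 - 4 * ρ) ^ 2 ≤ 1 := by
      have : (1 + 6 * ρ) * (1 - 4 * ρ) ^ 2 = 1 - ρ * (2 + 32 * ρ - 96 * ρ ^ 2) := by ring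
      rw [this]
      have : 0 ≤ ρ * (2 + 32 * ρ - 96 * ρ ^ 2) := by
        refine mul_nonneg hρ.le ?_
        nlinarith
      linarith
    linarith
  obtain ⟨b1, b2⟩ := abs_le.mp hb
  rw [abs_le]
  constructor
  · nlinarith
  · nlinarith

end ZET

/-- (ZET) the vertices of small cost have `z v` close to `1` -/
theorem prfZET : ZET_statement := by
  intro r C η hr hC hη
  set ρ : ℝ := min (1 / 100) (η / 6) with hρdef
  have hρ : 0 < ρ := lt_min (by norm_num) (by positivity)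
  have hρ1 : ρ ≤ 1 / 100 := min_le_left _ _
  have hρ2 : 6 * ρ ≤ η := by
    have : ρ ≤ η / 6 := min_le_right _ _
    linarith
  have hC0 : 0 < C := by linarith
  refine ⟨16 * C ^ 3 + 32 * C ^ 3 / ρ ^ 2 +
    2 * C * (2 * C ^ 2 + (1 + 1 / ρ) ^ 2 * (2 * C ^ 2)) + 8 * C ^ 3 / ρ ^ 2 + 1, ?_⟩
  intro M V _ G z f v hM hM0 hL hv t
  have p1 : 0 < 16 * C ^ 3 := by positivity
  have p2 : 0 < 32 * C ^ 3 / ρ ^ 2 := by positivity
  have p3 : 0 < 2 * C * (2 * C ^ 2 + (1 + 1 / ρ) ^ 2 * (2 * C ^ 2)) := by positivity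
  have p4 : 0 < 8 * C ^ 3 / ρ ^ 2 := by positivity
  have m1 : 16 * C ^ 3 ≤ M := by linarith
  have m2 : 32 * C ^ 3 ≤ M * ρ ^ 2 := by
    have : 32 * C ^ 3 / ρ ^ 2 ≤ M := by linarith
    rwa [div_le_iff₀ (by positivity)] at this
  have m3 : 2 * C * (2 * C ^ 2 + (1 + 1 / ρ) ^ 2 * (2 * C ^ 2)) ≤ M := by linarith
  have m4 : 8 * C ^ 3 < M * ρ ^ 2 := by
    have : 8 * C ^ 3 / ρ ^ 2 < M := by linarith
    rwa [div_lt_iff₀ (by positivity)] at this
  -- three classes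
  let t0 : Fin r := ⟨0, by omega⟩
  let t1 : Fin r := ⟨1, by omega⟩
  let t2 : Fin r := ⟨2, by omega⟩
  have h01 : t0 ≠ t1 := by simp [t0, t1]
  have h02 : t0 ≠ t2 := by simp [t0, t2]
  have h12 : t1 ≠ t2 := by simp [t1, t2]
  have zp : ∀ s, 0 < 1 / z (v s) := fun s => by
    have := (hv s).2.1
    positivity
  have third : ∀ a b : Fin r, ∃ s : Fin r, s ≠ a ∧ s ≠ b := by
    intro a b
    by_cases e0 : t0 ≠ a ∧ t0 ≠ b
    · exact ⟨t0, e0⟩
    by_cases e1 : t1 ≠ a ∧ t1 ≠ b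
    · exact ⟨t1, e1⟩
    refine ⟨t2, ?_, ?_⟩
    · intro h
      subst h
      simp only [ne_eq, h02, not_false_eq_true, true_and, not_not] at e0
      simp only [ne_eq, h12, not_false_eq_true, true_and, not_not] at e1
      exact h01 (e0.trans e1.symm)
    · intro h
      subst h
      simp only [ne_eq, h02, not_false_eq_true, and_true, not_not] at e0
      simp only [ne_eq, h12, not_false_eq_true, and_true, not_not] at e1
      exact h01 (e0.trans e1.symm)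
  have near : ∀ a b : Fin r, |1 / z (v b) - 1 / z (v a)| ≤ ρ * (1 / z (v a)) := by
    intro a b
    obtain ⟨s, hs1, hs2⟩ := third a b
    refine ZET.step1' (zp a) hρ hC (ZET.step1 hC (hv a).2 (hv b).2 s ?_ ?_ m1 (hL.cls s)) m2
    · rw [(hv a).1]
      exact fun h => hs1 (Option.some_injective _ h).symm
    · rw [(hv b).1]
      exact fun h => hs2 (Option.some_injective _ h).symm
  have hsets : ∀ s : Fin r, ∃ U : Finset V, (∀ u ∈ U, f u = some s ∧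
      (1 - ρ) ^ 2 * (1 / z (v t0)) ≤ z u ∧ z u ≤ (1 + ρ) ^ 2 * (1 / z (v t0))) ∧
      M / (2 * C) ≤ ∑ u ∈ U, z u ^ 2 := by
    intro s
    obtain ⟨s', hs', -⟩ := third s s
    refine ZET.step2 hC hρ hρ1 hL.nonneg (hv s').2 s ?_ m3 (hL.cls s) (near t0 s')
    rw [(hv s').1]
    exact fun h => hs' (Option.some_injective _ h)
  obtain ⟨U, hU1, hU2⟩ := hsets t0
  obtain ⟨U', hU1', hU2'⟩ := hsets t1
  obtain ⟨x, hx, y, hy, hxy⟩ := ZET.step3 hC hρ hρ1 hM0 m4 hL h01 (fun u hu => (hU1 u hu).1)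
    (fun u hu => (hU1' u hu).1) hU2 hU2'
  refine le_trans (ZET.num hρ hρ1 (zp t0) (hU1 x hx).2.1 (hU1 x hx).2.2 (hU1' y hy).2.1
    (hU1' y hy).2.2 hxy (near t0 t)) hρ2

end MP0c3a8f
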