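import Pool.Agent.Work.MP_0c3a8f_co.PB.Stmts

/-!
# OPTC: the real inequality of the optimisation
-/

set_option autoImplicit false

namespace MP0c3a8f

namespace OPTCx

/-- the periodic parabola -/
noncomputable def G (y : ℝ) : ℝ := Int.fract y * (1 - Int.fract y)

theorem G_self {t : ℝ} (h0 : 0 ≤ t) (h1 : t < 1) : G t = t * (1 - t) := by
  unfold G
  rw [Int.fract_eq_self.2 ⟨h0, h1⟩]

theorem fr_add (y y' : ℝ) : Int.fract (y + y') = Int.fract (Int.fract y + Int.fract y') := by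
  have h : y + y' = (Int.fract y + Int.fract y') + ((⌊y⌋ + ⌊y'⌋ : ℤ) : ℝ) := by
    have h1 := Int.floor_add_fract y
    have h2 := Int.floor_add_fract y'
    push_cast
    linarith
  conv_lhs => rw [h]
  rw [Int.fract_add_intCast]

theorem fr_lt {a b : ℝ} (ha : 0 ≤ a) (hb : 0 ≤ b) (h : a + b < 1) : Int.fract (a + b) = a + b :=
  Int.fract_eq_self.2 ⟨by linarith, h⟩

theorem fr_ge {a b : ℝ} (ha : a < 1) (hb : b < 1) (h : 1 ≤ a + b) :
    Int.fract (a + b) = a + b - 1 :=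
  Int.fract_eq_iff.2 ⟨by linarith, by linarith, 1, by push_cast; ring⟩

theorem G_add (y y' : ℝ) : G (y + y') ≤ G y + G y' := by
  unfold G
  rw [fr_add]
  have a0 := Int.fract_nonneg y
  have a1 := Int.fract_lt_one y
  have b0 := Int.fract_nonneg y'
  have b1 := Int.fract_lt_one y'
  by_cases h : Int.fract y + Int.fract y' < 1
  · rw [fr_lt a0 b0 h]
    nlinarith [mul_nonneg a0 b0]
  · rw [fr_ge a1 b1 (not_lt.1 h)]
    nlinarith [mul_nonneg (sub_nonneg.2 a1.le) (sub_nonneg.2 b1.le)]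

theorem G_pair {c t t' : ℝ} (hc : 0 < c) (h1 : c ≤ t) (h2 : t ≤ 1 - c) (h1' : c ≤ t')
    (h2' : t' ≤ 1 - c) : G (t + t') + 2 * c ^ 2 ≤ t * (1 - t) + t' * (1 - t') := by
  unfold G
  by_cases h : t + t' < 1
  · rw [fr_lt (by linarith) (by linarith) h]
    nlinarith [mul_nonneg (sub_nonneg.2 h1) (sub_nonneg.2 h1')]
  · rw [fr_ge (by linarith) (by linarith) (not_lt.1 h)]
    have e1 : 0 ≤ (1 - t) - c := by linarith
    have e2 : 0 ≤ (1 - t') - c := by linarith
    nlinarith [mul_nonneg e1 e2]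

theorem G_sum {ι : Type} [DecidableEq ι] (U : Finset ι) (t : ι → ℝ) :
    G (∑ i ∈ U, t i) ≤ ∑ i ∈ U, G (t i) := by
  induction U using Finset.induction_on with
  | empty => simp [G]
  | insert i U hi ih =>
    rw [Finset.sum_insert hi, Finset.sum_insert hi]
    exact (G_add _ _).trans (by linarith)

/-- the case of the integer zero -/
theorem step0 {ε P x t α β ν : ℝ} (hε : 0 < ε) (hP1 : P ≤ 1) (hx1 : ε ≤ x) (hx2 : x ≤ P - ε)
    (ht0 : 0 ≤ t) (ht1 : t ≤ 1) (hα : 0 ≤ α) (hβ : 0 ≤ β) (hν : 0 ≤ ν)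
    (h : t + β - α - ν = x) :
    x * (1 - x) + ε / 2 * (α + β + ν) ≤
      t * (1 - t) + (1 - ε / 2) * (α + β) + (P - ε / 2) * ν := by
  obtain ⟨u, hu⟩ : ∃ u, u = t - x := ⟨_, rfl⟩
  have ht : t = x + u := by linarith
  have hu2 : u = α + ν - β := by linarith
  subst ht
  by_cases h0 : 0 ≤ u
  · have e1 : 0 ≤ u * β := mul_nonneg h0 hβ
    have b1 : 0 ≤ α * (2 - 2 * x - u - ε) := mul_nonneg hα (by linarith)
    have b2 : 0 ≤ ν * (1 + P - 2 * x - u - ε) := mul_nonneg hν (by linarith)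
    have b3 : 0 ≤ β * (2 * x - ε) := mul_nonneg hβ (by linarith)
    have e2 : u * u = u * α + u * ν - u * β := by
      rw [hu2]; ring
    have e3 : u * (1 - 2 * x) = (α + ν - β) * (1 - 2 * x) := by rw [← hu2]
    nlinarith
  · push Not at h0
    have e1 : 0 ≤ (-u) * (α + ν) := mul_nonneg (by linarith) (by linarith)
    have b1 : 0 ≤ α * (2 - 2 * x - ε) := mul_nonneg hα (by linarith)
    have b2 : 0 ≤ ν * (1 + P - 2 * x - ε) := mul_nonneg hν (by linarith)
    have b3 : 0 ≤ β * (2 * x - ε + u) := mul_nonneg hβ (by linarith)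
    have e2 : u * u = u * α + u * ν - u * β := by
      rw [hu2]; ring
    have e3 : u * (1 - 2 * x) = (α + ν - β) * (1 - 2 * x) := by rw [← hu2]
    nlinarith

/-- the case of a positive integer -/
theorem stepP {ε P x t α β ν κ : ℝ} (hε : 0 < ε) (hP1 : P ≤ 1) (hx1 : ε ≤ x) (hx2 : x ≤ P - ε)
    (ht0 : 0 ≤ t) (ht1 : t ≤ 1) (hα : 0 ≤ α) (hβ : 0 ≤ β) (hκ : 1 ≤ κ)
    (h : t + β - α - ν + κ = x) :
    x * (1 - x) + ε * ((1 - P) / 2) ≤
      t * (1 - t) + (1 - ε / 2) * (α + β) + (P - ε / 2) * ν := by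
  have h1 : 1 - x ≤ α + ν := by linarith
  have h2 : 0 ≤ t * (1 - t) := mul_nonneg ht0 (by linarith)
  have h3 : 0 ≤ (1 - ε / 2) * β := mul_nonneg (by linarith) hβ
  have h4 : 0 ≤ (1 - P) * α := mul_nonneg (by linarith) hα
  have h5 : (P - ε / 2) * (1 - x) ≤ (P - ε / 2) * (α + ν) :=
    mul_le_mul_of_nonneg_left h1 (by linarith)
  have h6 : (x + ε / 2) * (1 - x) ≤ (P - ε / 2) * (1 - x) :=
    mul_le_mul_of_nonneg_right (by linarith) (by linarith)
  have h7 : ε / 2 * (1 - P) ≤ ε / 2 * (1 - x) := mul_le_mul_of_nonneg_left (by linarith) (by linarith)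
  nlinarith

/-- the case of a negative integer -/
theorem stepN {ε P x t α β ν κ : ℝ} (hε : 0 < ε) (hP1 : P ≤ 1) (hx1 : ε ≤ x) (hx2 : x ≤ P - ε)
    (ht0 : 0 ≤ t) (ht1 : t ≤ 1) (hα : 0 ≤ α) (hν : 0 ≤ ν) (hκ : κ ≤ -1)
    (h : t + β - α - ν + κ = x) :
    x * (1 - x) + ε ^ 2 / 2 ≤
      t * (1 - t) + (1 - ε / 2) * (α + β) + (P - ε / 2) * ν := by
  have h1 : 1 + x - t ≤ β := by linarith
  have h2 : 0 ≤ t * (1 - t) := mul_nonneg ht0 (by linarith)
  have h3 : (1 - ε / 2) * (1 + x - t) ≤ (1 - ε / 2) * β := mul_le_mul_of_nonneg_left h1 (by linarith)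
  have h4 : 0 ≤ (1 - ε / 2) * α := mul_nonneg (by linarith) hα
  have h5 : 0 ≤ (P - ε / 2) * ν := mul_nonneg (by linarith) hν
  have h6 : 0 ≤ (1 - ε / 2) * (1 - t) := mul_nonneg (by linarith) (by linarith)
  have h7 : ε * (ε / 2) ≤ x * (x - ε / 2) :=
    mul_le_mul hx1 (by linarith) (by linarith) (by linarith)
  nlinarith

end OPTCx

open OPTCx in
theorem prfOPTC : OPTC_statement := by
  intro r ε c hr hε hc hc2
  have hr0 : (3 : ℝ) ≤ (r : ℝ) := by exact_mod_cast hr
  have hr1 : (0 : ℝ) < (r : ℝ) := by linarith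
  refine ⟨min (2 * c ^ 2) (min (ε ^ 2 / 2) (ε / r)), ?_, ?_⟩
  · refine lt_min (by positivity) (lt_min (by positivity) (by positivity))
  intro ι U t x α β ν k hx1 hx2 hα hβ hν ht hsum
  classical
  have g1 : min (2 * c ^ 2) (min (ε ^ 2 / 2) (ε / r)) ≤ 2 * c ^ 2 := min_le_left _ _
  have g2 : min (2 * c ^ 2) (min (ε ^ 2 / 2) (ε / r)) ≤ ε ^ 2 / 2 :=
    (min_le_right _ _).trans (min_le_left _ _)
  have g3 : min (2 * c ^ 2) (min (ε ^ 2 / 2) (ε / r)) ≤ ε / r :=
    (min_le_right _ _).trans (min_le_right _ _)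
  set γ := min (2 * c ^ 2) (min (ε ^ 2 / 2) (ε / r)) with hγ
  set P : ℝ := 1 - 2 / (r : ℝ) with hP
  have hP1 : P ≤ 1 := by
    have : (0 : ℝ) < 2 / (r : ℝ) := by positivity
    rw [hP]; linarith
  have hP2 : ε * ((1 - P) / 2) = ε / r := by
    rw [hP]
    field_simp
    ring
  -- the sum of the `t i`
  set s := ∑ i ∈ U, t i with hs
  have f0 := Int.fract_nonneg s
  have f1 := (Int.fract_lt_one s).le
  have f2 := Int.floor_add_fract s
  have hGU : ∑ i ∈ U, t i * (1 - t i) = ∑ i ∈ U, G (t i) := by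
    refine Finset.sum_congr rfl fun i hi => ?_
    obtain ⟨a, b⟩ := ht i hi
    rw [G_self (by linarith) (by linarith)]
  have hG1 : G s ≤ ∑ i ∈ U, t i * (1 - t i) := by
    rw [hGU]
    exact G_sum U t
  have hGs : G s = Int.fract s * (1 - Int.fract s) := rfl
  have hk : Int.fract s + β - α - ν + ((k + ⌊s⌋ : ℤ) : ℝ) = x := by
    push_cast
    linarith
  rcases lt_trichotomy (k + ⌊s⌋) 0 with h | h | h
  · left
    have h' : ((k + ⌊s⌋ : ℤ) : ℝ) ≤ -1 := by exact_mod_cast (by omega : k + ⌊s⌋ ≤ -1)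
    have := stepN hε hP1 hx1 hx2 f0 f1 hα hν h' hk
    linarith
  · have hk' : Int.fract s + β - α - ν = x := by
      rw [h] at hk
      push_cast at hk
      linarith
    have st := step0 hε hP1 hx1 hx2 f0 f1 hα hβ hν hk'
    rcases Nat.lt_or_ge 1 U.card with hU | hU
    · left
      obtain ⟨i, hi, j, hj, hij⟩ := Finset.one_lt_card.1 hU
      have hj' : j ∈ U.erase i := Finset.mem_erase.2 ⟨hij.symm, hj⟩
      obtain ⟨a, b⟩ := ht i hi
      obtain ⟨a', b'⟩ := ht j hj
      have p := G_pair hc a b a' b'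
      have q1 : s = (t i + t j) + ∑ l ∈ (U.erase i).erase j, t l := by
        rw [hs, ← Finset.add_sum_erase U t hi, ← Finset.add_sum_erase (U.erase i) t hj']
        ring
      have q2 : ∑ l ∈ U, t l * (1 - t l) = (t i * (1 - t i) + t j * (1 - t j)) +
          ∑ l ∈ (U.erase i).erase j, G (t l) := by
        rw [← Finset.add_sum_erase U (fun l => t l * (1 - t l)) hi,
          ← Finset.add_sum_erase (U.erase i) (fun l => t l * (1 - t l)) hj', add_assoc]
        congr 2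
        refine Finset.sum_congr rfl fun l hl => ?_
        obtain ⟨a, b⟩ := ht l (Finset.mem_of_mem_erase (Finset.mem_of_mem_erase hl))
        rw [G_self (by linarith) (by linarith)]
      have q3 := G_sum ((U.erase i).erase j) t
      have q4 := G_add (t i + t j) (∑ l ∈ (U.erase i).erase j, t l)
      rw [← q1] at q4
      have q5 : 0 ≤ ε / 2 * (α + β + ν) := by positivity
      rw [q2]
      linarith
    · rcases Nat.lt_or_ge U.card 1 with hU0 | hU1
      · left
        have hU' : U = ∅ := Finset.card_eq_zero.1 (by omega)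
        have hs0 : s = 0 := by rw [hs, hU', Finset.sum_empty]
        rw [hs0, Int.fract_zero] at hk' st
        have hβ' : ε ≤ β := by linarith
        have : ε / 2 * ε ≤ ε / 2 * (α + β + ν) :=
          mul_le_mul_of_nonneg_left (by linarith) (by linarith)
        rw [hs0] at hG1
        simp only [G, Int.fract_zero] at hG1
        nlinarith
      · right
        have hU' : U.card = 1 := by omega
        obtain ⟨i, hi⟩ := Finset.card_eq_one.1 hU'
        have hsi : s = t i := by rw [hs, hi, Finset.sum_singleton]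
        obtain ⟨a, b⟩ := ht i (by rw [hi]; exact Finset.mem_singleton_self i)
        have hfl : ⌊s⌋ = 0 := by
          rw [hsi, Int.floor_eq_zero_iff]
          exact ⟨by linarith, by linarith⟩
        refine ⟨hU', by omega, ?_⟩
        linarith
  · left
    have h' : (1 : ℝ) ≤ ((k + ⌊s⌋ : ℤ) : ℝ) := by exact_mod_cast (by omega : 1 ≤ k + ⌊s⌋)
    have := stepP hε hP1 hx1 hx2 f0 f1 hα hβ h' hk
    rw [hP2] at this
    linarith

end MP0c3a8f
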