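import Pool.Agent.Work.MP_0c3a8f_co.PB.Stmts4

/-!
# MP_0c3a8f_co: the structure of the extremal graphs for all sufficiently large `m`

`q = qq r = 1 - 1/r`.  The proofs are in the specifications (table `helpwanted`).
-/

open Finset

namespace MP0c3a8f

/-! ### S. Small `D`, `m = e(T_r(n)) + D` -/

/-- (SLB) upper bound for the spectral radius if there is no vertex of linear degree -/
def SLB_statement : Prop :=
  ∀ r : ℕ, 3 ≤ r → ∃ (C : ℝ) (n₀ : ℕ), 0 ≤ C ∧ ∀ (V : Type) [Fintype V]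
    (G : SimpleGraph V) (z : V → ℝ) (g : V → Option (Fin r)) (w : V) (n : ℕ),
    Flat r (1 / (40 * (r : ℝ))) G z g ∅ G.edgeSet.ncard → g w = none →
    n₀ ≤ n → ∑ t, siz g t = n → dev (siz g) ≤ n →
    16 * (((missSet G g).ncard : ℝ) + (lightSet G g ∅).ncard) ≤ n →
    (∀ v, g v = none → ∑ t, nbn G g v t ≤ ∑ t, nbn G g w t) →
    lam G ^ 2 ≤ lam (KU G g ∅) ^ 2 - 3 * qq r * (missSet G g).ncard
      + 2 * ((lightSet G g ∅).ncard : ℝ) ^ 2 / n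
      - ((lightSet G g ∅).ncard : ℝ) * (lightSet G g {w}).ncard / n
      + C * (1 + Real.sqrt (dev (siz g))) * ((lightSet G g ∅).ncard : ℝ) ^ 2 / (n : ℝ) ^ 2

/-- (STS) the rough structure for small `D` -/
def STS_statement : Prop :=
  ∀ (W : Type) [Fintype W] (F : SimpleGraph W) (r : ℕ) (C₀ : ℝ), 3 ≤ r → Crit r F →
    F.Colorable (r + 1) → 0 ≤ C₀ → ∃ ε > (0 : ℝ), ∃ n₀ : ℕ, ∀ n ≥ n₀, ∀ D : ℕ,
    (D : ℝ) ≤ ε * n → ∀ (V : Type) [Fintype V] (G : SimpleGraph V), F.Free G →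
      G.edgeSet.ncard = (SimpleGraph.turanGraph n r).edgeSet.ncard + D →
      Def r G ≤ 2 * D * (qq r - D / n) + C₀ →
      ∃ (z : V → ℝ) (g : V → Option (Fin r)),
        Flat r (1 / (40 * (r : ℝ))) G z g ∅ G.edgeSet.ncard ∧ ∑ t, siz g t = n ∧
        dev (siz g) ≤ n ∧ 16 * (((missSet G g).ncard : ℝ) + (lightSet G g ∅).ncard) ≤ n

/-- (SBD) bounded defect for small `D` -/
def SBD_statement : Prop :=
  ∀ (r : ℕ) (C₀ : ℝ), 3 ≤ r → 0 ≤ C₀ → ∃ N n₀ : ℕ, ∀ (V : Type) [Fintype V]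
    (G : SimpleGraph V) (z : V → ℝ) (g : V → Option (Fin r)) (w : V) (n D : ℕ), n₀ ≤ n →
    Flat r (1 / (40 * (r : ℝ))) G z g ∅ G.edgeSet.ncard → g w = none → ∑ t, siz g t = n →
    dev (siz g) ≤ n → 16 * (((missSet G g).ncard : ℝ) + (lightSet G g ∅).ncard) ≤ n →
    (∀ v, g v = none → ∑ t, nbn G g v t ≤ ∑ t, nbn G g w t) →
    G.edgeSet.ncard = (SimpleGraph.turanGraph n r).edgeSet.ncard + D →
    Def r G ≤ 2 * D * (qq r - D / n) + C₀ →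
    ((missSet G g).ncard : ℝ) + dev (siz g) ≤ N ∧ 2 * D * (qq r - D / n) - N ≤ Def r G

/-- (SEX) the core is the Turán graph -/
def SEX_statement : Prop :=
  ∀ r N b₀ : ℕ, 3 ≤ r → ∃ ε > (0 : ℝ), ∃ n₀ : ℕ, ∀ (V : Type) [Fintype V]
    (G : SimpleGraph V) (z : V → ℝ) (g : V → Option (Fin r)) (w : V) (U : Type) [Fintype U]
    (H : SimpleGraph U) (h : U → Option (Fin r)) (u : U) (n D : ℕ), n₀ ≤ n → (D : ℝ) ≤ ε * n →
    Flat r (1 / (40 * (r : ℝ))) G z g ∅ G.edgeSet.ncard → g w = none → ∑ t, siz g t = n →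
    ((missSet G g).ncard : ℝ) + dev (siz g) ≤ N →
    (∀ v, g v = none → ∑ t, nbn G g v t ≤ ∑ t, nbn G g w t) →
    G.edgeSet.ncard = (SimpleGraph.turanGraph n r).edgeSet.ncard + D →
    Indep H h → h u = none → (missSet H h).ncard = 0 → (lightSet H h {u}).ncard = b₀ →
    (∀ t, siz h t = tz r n t) → ∑ t, nbn H h u t + b₀ = D → Def r G ≤ Def r H →
    (missSet G g).ncard = 0 ∧ ∑ t, siz g t ^ 2 = ∑ t, tz r n t ^ 2

/-- (SSW) comparison with a single vertex -/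
def SSW_statement : Prop :=
  ∀ r : ℕ, 3 ≤ r → ∃ ε > (0 : ℝ), ∃ n₀ : ℕ, ∀ (V : Type) [Fintype V]
    (G H : SimpleGraph V) (z : V → ℝ) (g : V → Option (Fin r)) (w : V) (n d : ℕ), n₀ ≤ n →
    Flat r (1 / (40 * (r : ℝ))) G z g ∅ G.edgeSet.ncard → g w = none → ∑ t, siz g t = n →
    (missSet G g).ncard = 0 → dev (siz g) ≤ r → ((lightSet G g ∅).ncard : ℝ) ≤ ε * n →
    (∀ v, g v = none → ∑ t, nbn G g v t ≤ ∑ t, nbn G g w t) →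
    IsKU H g {w} → ∑ t, nbn H g w t = d → d ≤ (lightSet G g ∅).ncard → lam H ≤ lam G →
    (lightSet G g {w}).ncard ≤ 4 * ((lightSet G g ∅).ncard - d) + 1

/-- (MEMS) members with prescribed sizes of the classes -/
def MEMS_statement : Prop :=
  ∀ (W : Type) [Fintype W] (F : SimpleGraph W) (r : ℕ), 3 ≤ r → ¬ F.Colorable r →
    ∃ b n₀ : ℕ, ∀ (σ : Fin r → ℕ) (t₀ t₁ : Fin r) (d : ℕ), t₁ ≠ t₀ → (∀ t, n₀ ≤ σ t) →
      1 ≤ d → d + n₀ ≤ σ t₁ →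
      ∃ (k : ℕ) (G : SimpleGraph (Fin k)) (g : Fin k → Option (Fin r)) (w : Fin k),
        F.Free G ∧ ¬ G.Colorable r ∧ (∀ v, ∃ u, G.Adj v u) ∧ Indep G g ∧ g w = none ∧
        (missSet G g).ncard = 0 ∧ (lightSet G g {w}).ncard = b ∧ (∀ t, siz g t = σ t) ∧
        ∀ t, nbn G g w t = if t = t₁ then d else 0

/-- (TRF) transfer -/
def TRF_statement : Prop :=
  ∀ (r : ℕ) (V U : Type) [Fintype V] [Fintype U] (H : SimpleGraph V) (G : SimpleGraph U)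
    (g : V → Option (Fin r)) (f : U → Option (Fin r)) (w : V) (u : U), IsKU H g {w} →
    f u = none → (missSet G f).ncard = 0 → (∀ t, siz g t = siz f t) →
    (∀ t, nbn H g w t ≤ nbn G f u t) → lam H ≤ lam G

/-- (MEMV) members with given sizes of the classes and many outer edges -/
def MEMV_statement : Prop :=
  ∀ (W : Type) [Fintype W] (F : SimpleGraph W) (r : ℕ), 3 ≤ r → ¬ F.Colorable r →
    ∀ b₁ : ℕ, ∃ b ≥ b₁, ∃ n₀ : ℕ, ∀ (σ : Fin r → ℕ) (a : ℕ), (∀ t, n₀ + a ≤ σ t) →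
      ∃ (k : ℕ) (G : SimpleGraph (Fin k)) (g : Fin k → Option (Fin r)),
        F.Free G ∧ ¬ G.Colorable r ∧ (∀ v, ∃ u, G.Adj v u) ∧ Indep G g ∧
        (missSet G g).ncard = a ∧ (outSet G g).ncard = b ∧ ∀ t, siz g t = σ t

/-- (UPS) cheap members, one vertex of large degree -/
def UPS_statement : Prop :=
  ∀ (W : Type) [Fintype W] (F : SimpleGraph W) (r : ℕ), 3 ≤ r → ¬ F.Colorable r →
    ∃ (C : ℝ) (n₀ : ℕ), 0 ≤ C ∧ ∀ n ≥ n₀, ∀ D : ℕ, D ≤ (r - 1) * (n / r) →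
      ∃ (k : ℕ) (G : SimpleGraph (Fin k)),
        InN r ((SimpleGraph.turanGraph n r).edgeSet.ncard + D) F G ∧
        Def r G ≤ 2 * D * (qq r - D / n) + C

/-- alternative one -/
def AltI {V : Type} [Fintype V] (r n D N : ℕ) (G : SimpleGraph V) : Prop :=
  |Def r G - 2 * D * (qq r - D / n)| ≤ N ∧
    ∃ (g : V → Option (Fin r)) (w : V), Bd n N G g w ∧
      (N ≤ D → N * D ≤ n → (missSet G g).ncard = 0 ∧
        ∃ π : Equiv.Perm (Fin r), ∀ t, siz g t = tz r n (π t))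

/-- alternative two -/
def AltII {V : Type} [Fintype V] (r n B N : ℕ) (G : SimpleGraph V) : Prop :=
  |Def r G - AB r n B| ≤ N * Real.sqrt (Real.sqrt n) ∧
    ∃ g : V → Option (Fin r), Indep G g ∧ ∑ t, siz g t = n ∧
      ((missSet G g).ncard : ℝ) + ((outSet G g).ncard : ℝ) ≤ N * Real.sqrt (Real.sqrt n) ∧
      ∃ t₀, B * |(siz g t₀ : ℝ) - (n / r + Real.sqrt (2 * B * ((r : ℝ) - 1) / r))|
          ≤ N * (n * Real.sqrt (Real.sqrt n)) ∧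
        ∀ t, t ≠ t₀ → Real.sqrt B * ((siz g t : ℝ)
          - (n / r - Real.sqrt (2 * B * ((r : ℝ) - 1) / r) / ((r : ℝ) - 1))) ^ 2
          ≤ N * (n * Real.sqrt (Real.sqrt n))

/-- (FNS) all maximisers for small `D` -/
def FNS_statement : Prop :=
  ∀ (W : Type) [Fintype W] (F : SimpleGraph W) (r : ℕ), 3 ≤ r → Crit r F →
    F.Colorable (r + 1) → ¬ F.Colorable r → ∃ ε > (0 : ℝ), ∃ N n₀ : ℕ, ∀ n ≥ n₀, ∀ D : ℕ,
    (D : ℝ) ≤ ε * n → ∀ (V : Type) [Fintype V] (G : SimpleGraph V), MxF r n D F G →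
      AltI r n D N G

/-! ### T. The transition range -/

/-- the transition range, `e(T_r(n)) + D = e(T_r(n+1)) - B` -/
def RT (r n D B : ℕ) (ε : ℝ) : Prop :=
  |(D : ℝ) - (1 - 2 / (r : ℝ)) * (qq r * n)| ≤ ε * (qq r * n) ∧ D + B + n / r = n

/-- (OTC) the real inequality -/
def OTC_statement : Prop :=
  ∀ (r : ℕ) (c : ℝ), 3 ≤ r → 0 < c → c < 1 / (r : ℝ) → ∃ ε > (0 : ℝ), ∃ γ > (0 : ℝ),
    ∀ (ι : Type) (U : Finset ι) (t : ι → ℝ) (x α β ν : ℝ) (k : ℤ),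
    |x - (1 - 2 / (r : ℝ))| ≤ ε → 0 ≤ α → 0 ≤ β → 0 ≤ ν →
    (∀ i ∈ U, c ≤ t i ∧ t i ≤ 1 - c) → ∑ i ∈ U, t i + β - α - ν + k = x →
    (min (x * (1 - x)) ((1 - 2 / (r : ℝ)) * (1 - x)) + γ ≤ ∑ i ∈ U, t i * (1 - t i)
      + (1 - 1 / (4 * (r : ℝ) ^ 2)) * (α + β) + (1 - 2 / (r : ℝ)) * ν) ∨
    (U.card = 1 ∧ k = 0 ∧ x * (1 - x) + γ * (α + β + ν) ≤ ∑ i ∈ U, t i * (1 - t i)
      + (1 - 1 / (4 * (r : ℝ) ^ 2)) * (α + β) + (1 - 2 / (r : ℝ)) * ν) ∨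
    (U = ∅ ∧ k = 1 ∧ (1 - 2 / (r : ℝ)) * (1 - x) + γ * (α + β) ≤ ∑ i ∈ U, t i * (1 - t i)
      + (1 - 1 / (4 * (r : ℝ) ^ 2)) * (α + β) + (1 - 2 / (r : ℝ)) * ν)

/-- (OPT2) the optimisation -/
def OPT2_statement : Prop :=
  ∀ (r : ℕ) (c : ℝ), 3 ≤ r → 0 < c → c < 1 / (r : ℝ) → ∃ ε > (0 : ℝ), ∀ (K : ℕ) (C : ℝ),
    0 ≤ C → ∃ N n₀ : ℕ, ∀ (n n₁ D B : ℕ) (dv dT a b e : ℝ) (ι : Type) (U : Finset ι)
    (d : ι → ℝ),
    n₀ ≤ n → RT r n D B ε → 0 ≤ dv → 0 ≤ dT → dT ≤ r → 0 ≤ a → 0 ≤ b → 0 ≤ e →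
    e ≤ (K : ℝ) ^ 2 → U.card ≤ K → |(n₁ : ℝ) - n| ≤ C →
    (∀ i ∈ U, c * (qq r * n₁) ≤ d i ∧ d i ≤ (1 - c) * (qq r * n₁)) →
    qq r * (n₁ : ℝ) ^ 2 - dv + 2 * ∑ i ∈ U, d i + 2 * e - 2 * a + 2 * b
      = qq r * (n : ℝ) ^ 2 - dT + 2 * D →
    (2 * qq r - 1 / (4 * (r : ℝ) ^ 2)) * (a + b) + qq r * (1 - 2 / (r : ℝ)) * dv
      + ∑ i ∈ U, 2 * d i * (qq r - d i / n₁) ≤ 2 * D * (qq r - D / n) + C * Real.sqrt n →
    (2 * qq r - 1 / (4 * (r : ℝ) ^ 2)) * (a + b) + qq r * (1 - 2 / (r : ℝ)) * dv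
      + ∑ i ∈ U, 2 * d i * (qq r - d i / n₁)
      ≤ 2 * qq r * (1 - 2 / (r : ℝ)) * B + C * Real.sqrt n →
    (U.card = 1 ∧ n₁ = n ∧ a + b + dv ≤ N * Real.sqrt n) ∨
      (U = ∅ ∧ n₁ = n + 1 ∧ a + b ≤ N * Real.sqrt n)

/-- (STT) the structure in the transition range -/
def STT_statement : Prop :=
  ∀ (W : Type) [Fintype W] (F : SimpleGraph W) (r : ℕ), 3 ≤ r → Crit r F →
    F.Colorable (r + 1) → ∃ ε > (0 : ℝ), ∀ C₀ : ℝ, 0 ≤ C₀ → ∃ N n₀ : ℕ, ∀ n ≥ n₀,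
    ∀ D B : ℕ, RT r n D B ε → ∀ (V : Type) [Fintype V] (G : SimpleGraph V), F.Free G →
      G.edgeSet.ncard = (SimpleGraph.turanGraph n r).edgeSet.ncard + D →
      Def r G ≤ 2 * D * (qq r - D / n) + C₀ →
      Def r G ≤ 2 * qq r * (1 - 2 / (r : ℝ)) * B + C₀ * Real.sqrt n →
      (2 * D * (qq r - D / n) - N ≤ Def r G ∧
        ∃ (g : V → Option (Fin r)) (w : V), Bd n N G g w) ∨
      ∃ (z : V → ℝ) (g : V → Option (Fin r)),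
        Flat r (1 / (40 * (r : ℝ))) G z g ∅ G.edgeSet.ncard ∧ ∑ t, siz g t = n + 1 ∧
        ((missSet G g).ncard : ℝ) + (lightSet G g ∅).ncard ≤ N * Real.sqrt n

/-- (FINV) complete multipartite graphs up to `O(√n)` edges -/
def FINV_statement : Prop :=
  ∀ (r N₁ : ℕ) (C₀ : ℝ), 3 ≤ r → 0 ≤ C₀ → ∃ N n₀ : ℕ, ∀ (V : Type) [Fintype V]
    (G : SimpleGraph V) (z : V → ℝ) (g : V → Option (Fin r)) (n B : ℕ), n₀ ≤ n → B ≤ n →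
    Flat r (1 / (40 * (r : ℝ))) G z g ∅ G.edgeSet.ncard → ∑ t, siz g t = n →
    G.edgeSet.ncard + B = (SimpleGraph.turanGraph n r).edgeSet.ncard →
    ((missSet G g).ncard : ℝ) + (lightSet G g ∅).ncard ≤ N₁ * Real.sqrt n →
    Def r G ≤ AB r n B + C₀ * Real.sqrt (Real.sqrt n) → AltII r n B N G

/-- (TURN) the difference of the Turán numbers -/
def TURN_statement : Prop :=
  ∀ r n : ℕ, 1 ≤ r → (SimpleGraph.turanGraph (n + 1) r).edgeSet.ncard + n / r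
    = (SimpleGraph.turanGraph n r).edgeSet.ncard + n

/-- (NUMV) sizes of the classes of a good graph, all `B ≤ n` -/
def NUMV_statement : Prop :=
  ∀ r b : ℕ, 3 ≤ r → ∃ (C : ℝ) (n₀ : ℕ), 0 ≤ C ∧ ∀ n ≥ n₀, ∀ B : ℕ,
    B ≤ n → ∃ (σ : Fin r → ℕ) (a : ℕ), ∑ t, σ t = n ∧
      ∑ t, σ t ^ 2 + 2 * a = ∑ t, tz r n t ^ 2 + 2 * B + 2 * b ∧
      (a : ℝ) ≤ C * Real.sqrt (Real.sqrt n) ∧
      cr r * (2 * B * Real.sqrt (2 * B)) - C * n ≤ cub σ ∧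
      ∀ t, (n : ℝ) / (2 * r) ≤ σ t

/-- (CHUV) cheap members, all `B ≤ n` -/
def CHUV_statement : Prop :=
  ∀ (W : Type) [Fintype W] (F : SimpleGraph W) (r : ℕ), 3 ≤ r → ¬ F.Colorable r →
    ∃ (C : ℝ) (n₀ : ℕ), 0 ≤ C ∧ ∀ n ≥ n₀, ∀ B m : ℕ, B ≤ n →
    m + B = (SimpleGraph.turanGraph n r).edgeSet.ncard →
    ∃ (k : ℕ) (G : SimpleGraph (Fin k)), InN r m F G ∧
      Def r G ≤ AB r n B + C * Real.sqrt (Real.sqrt n)

/-- (FNT) all maximisers in the transition range -/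
def FNT_statement : Prop :=
  ∀ (W : Type) [Fintype W] (F : SimpleGraph W) (r : ℕ), 3 ≤ r → Crit r F →
    F.Colorable (r + 1) → ¬ F.Colorable r → ∃ ε > (0 : ℝ), ∃ N n₀ : ℕ, ∀ n ≥ n₀,
    ∀ D B : ℕ, RT r n D B ε → ∀ (V : Type) [Fintype V] (G : SimpleGraph V), MxF r n D F G →
      AltI r n D N G ∨ AltII r (n + 1) B N G

/-! ### U. The upper range including small `B` -/

/-- (OPUD) the real inequality -/
def OPUD_statement : Prop :=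
  ∀ (r : ℕ) (ε c : ℝ), 3 ≤ r → 0 < ε → 0 < c → c < 1 / (r : ℝ) → ∃ γ > (0 : ℝ),
    ∀ (ι : Type) (U : Finset ι) (t : ι → ℝ) (y α β ν : ℝ) (k : ℤ), 0 ≤ y →
    y ≤ 2 / (r : ℝ) - ε → 0 ≤ α → 0 ≤ β → 0 ≤ ν → (∀ i ∈ U, c ≤ t i ∧ t i ≤ 1 - c) →
    ∑ i ∈ U, t i + β - α - ν + k = -y →
    ((1 - 2 / (r : ℝ)) * y + γ ≤ ∑ i ∈ U, t i * (1 - t i)
      + (1 - 1 / (4 * (r : ℝ) ^ 2)) * (α + β) + (1 - 2 / (r : ℝ)) * ν) ∨
    (U = ∅ ∧ k = 0 ∧ (1 - 2 / (r : ℝ)) * y + γ * (α + β)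
      ≤ (1 - 1 / (4 * (r : ℝ) ^ 2)) * (α + β) + (1 - 2 / (r : ℝ)) * ν)

/-- (OPUE) the optimisation -/
def OPUE_statement : Prop :=
  ∀ (r K : ℕ) (ε c C : ℝ), 3 ≤ r → 0 < ε → 0 < c → c < 1 / (r : ℝ) → 0 ≤ C →
    ∃ N n₀ : ℕ, ∀ (n n₁ B : ℕ) (dv dT a b e : ℝ) (ι : Type) (U : Finset ι) (d : ι → ℝ),
    n₀ ≤ n → (B : ℝ) ≤ (2 / (r : ℝ) - ε) * (qq r * n) → 0 ≤ dv → 0 ≤ dT → dT ≤ r → 0 ≤ a →
    0 ≤ b → 0 ≤ e → e ≤ (K : ℝ) ^ 2 → U.card ≤ K → |(n₁ : ℝ) - n| ≤ C →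
    (∀ i ∈ U, c * (qq r * n₁) ≤ d i ∧ d i ≤ (1 - c) * (qq r * n₁)) →
    qq r * (n₁ : ℝ) ^ 2 - dv + 2 * ∑ i ∈ U, d i + 2 * e - 2 * a + 2 * b
      = qq r * (n : ℝ) ^ 2 - dT - 2 * B →
    (2 * qq r - 1 / (4 * (r : ℝ) ^ 2)) * (a + b) + qq r * (1 - 2 / (r : ℝ)) * dv
      + ∑ i ∈ U, 2 * d i * (qq r - d i / n₁)
      ≤ 2 * qq r * (1 - 2 / (r : ℝ)) * B + C * Real.sqrt n →
    U = ∅ ∧ n₁ = n ∧ a + b ≤ N * Real.sqrt n

/-- (STUE) the rough structure in the upper range -/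
def STUE_statement : Prop :=
  ∀ (W : Type) [Fintype W] (F : SimpleGraph W) (r : ℕ) (ε C₀ : ℝ), 3 ≤ r → Crit r F →
    F.Colorable (r + 1) → 0 < ε → 0 ≤ C₀ → ∃ N n₀ : ℕ, ∀ n ≥ n₀, ∀ B : ℕ,
    (B : ℝ) ≤ (2 / (r : ℝ) - ε) * (qq r * n) → ∀ (V : Type) [Fintype V] (G : SimpleGraph V),
      F.Free G → G.edgeSet.ncard + B = (SimpleGraph.turanGraph n r).edgeSet.ncard →
      Def r G ≤ 2 * qq r * (1 - 2 / (r : ℝ)) * B + C₀ * Real.sqrt n →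
      ∃ (z : V → ℝ) (g : V → Option (Fin r)),
        Flat r (1 / (40 * (r : ℝ))) G z g ∅ G.edgeSet.ncard ∧ ∑ t, siz g t = n ∧
        ((missSet G g).ncard : ℝ) + ((lightSet G g ∅).ncard : ℝ) ≤ N * Real.sqrt n

/-- (FNU) all maximisers in the upper range -/
def FNU_statement : Prop :=
  ∀ (W : Type) [Fintype W] (F : SimpleGraph W) (r : ℕ) (ε : ℝ), 3 ≤ r → Crit r F →
    F.Colorable (r + 1) → ¬ F.Colorable r → 0 < ε → ∃ N n₀ : ℕ, ∀ n ≥ n₀, ∀ B m : ℕ,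
    (B : ℝ) ≤ (2 / (r : ℝ) - ε) * (qq r * n) →
    m + B = (SimpleGraph.turanGraph n r).edgeSet.ncard →
    ∀ (V : Type) [Fintype V] (G : SimpleGraph V), IsMaximiser r m F G → AltII r n B N G

/-! ### V. All sizes -/

/-- (FINA) all maximisers for all sufficiently large `m` -/
def FINA_statement : Prop :=
  ∀ (W : Type) [Fintype W] (F : SimpleGraph W) (r : ℕ), 3 ≤ r → Crit r F →
    F.Colorable (r + 1) → ¬ F.Colorable r → ∃ N m₀ : ℕ, ∀ m ≥ m₀,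
    ∃ n D B : ℕ, (SimpleGraph.turanGraph n r).edgeSet.ncard + D = m ∧
      m + B = (SimpleGraph.turanGraph (n + 1) r).edgeSet.ncard ∧
      (∃ (k : ℕ) (G : SimpleGraph (Fin k)), IsMaximiser r m F G) ∧
      ∀ (V : Type) [Fintype V] (G : SimpleGraph V), IsMaximiser r m F G →
        |Def r G - min (2 * D * (qq r - D / n)) (AB r (n + 1) B)|
          ≤ N * Real.sqrt (Real.sqrt n) ∧
        (AltI r n D N G ∨ AltII r (n + 1) B N G)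

end MP0c3a8f
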