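import Pool.Agent.Work.MP_0c3a8f_co.PB.Stmts4
import Pool.Agent.Work.MP_0c3a8f_co.PB.ItemMEMB

/-!
# MP_0c3a8f_co, phase B: members with given sizes of the classes (MEMU)
-/

set_option autoImplicit false

open Finset

namespace MP0c3a8f

namespace MEMUx

variable {k r : ℕ}

/-- the graph `H` without the edges between `w` and `M` -/
def mk (H : SimpleGraph (Fin k)) (w : Fin k) (M : Finset (Fin k)) : SimpleGraph (Fin k) where
  Adj u v := H.Adj u v ∧ ¬ (u = w ∧ v ∈ M) ∧ ¬ (v = w ∧ u ∈ M)
  symm := ⟨fun _ _ h => ⟨h.1.symm, h.2.2, h.2.1⟩⟩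
  loopless := ⟨fun u h => H.loopless.irrefl u h.1⟩

theorem mk_le {H : SimpleGraph (Fin k)} {w : Fin k} {M : Finset (Fin k)} : mk H w M ≤ H :=
  fun _ _ h => h.1

theorem mk_ne {H : SimpleGraph (Fin k)} {w : Fin k} {M : Finset (Fin k)}
    {u v : Fin k} (hu : u ≠ w) (hv : v ≠ w) (h : H.Adj u v) : (mk H w M).Adj u v :=
  ⟨h, fun h' => hu h'.1, fun h' => hv h'.1⟩

end MEMUx

open MEMUx in
theorem prfMEMU : NON2_statement → REDS_statement → MEMU_statement := by
  classical
  intro hN hR W _ F r hr hF
  obtain ⟨b, -, hreal⟩ := hN W F r hr hF 1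
  refine ⟨b, 2 * b + 3, ?_⟩
  intro σ a hσ
  obtain ⟨i0, hi0⟩ : ∃ i : Fin r, i.val = 0 := ⟨⟨0, by omega⟩, rfl⟩
  obtain ⟨i1, hi1⟩ : ∃ i : Fin r, i.val = 1 := ⟨⟨1, by omega⟩, rfl⟩
  have hi01 : i0 ≠ i1 := by
    intro h
    rw [h, hi1] at hi0
    omega
  obtain ⟨s, hs, k₀, G₀, f₀, hmod, hfree₀, hcol₀, hiso₀⟩ := hreal (∑ t, σ t)
  have hsize₀ := hmod.size
  obtain ⟨k, H, f, hH, hHfree, hHcol, hHiso⟩ := hR W F r σ (Fin k₀) G₀ f₀ hr hmod.indep
    (by
      intro t
      rw [hmod.miss, hmod.outer]
      have := hσ t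
      omega)
    (by
      intro t
      rw [hsize₀ t]
      have : σ t ≤ ∑ t, σ t := Finset.single_le_sum (fun _ _ => Nat.zero_le _) (Finset.mem_univ t)
      omega)
    hfree₀ hcol₀ hiso₀
  rw [hmod.miss, hmod.outer] at hH
  -- missing pairs
  have hmiss : ∀ u v, f u ≠ none → f v ≠ none → f u ≠ f v → H.Adj u v := by
    intro u v hu hv huv
    by_contra hcon
    have h1 : missSet H f = ∅ := by
      rw [← Set.ncard_eq_zero (Set.toFinite _)]
      exact hH.miss
    have h2 : s(u, v) ∈ missSet H f := ⟨u, v, rfl, hu, hv, huv, hcon⟩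
    rw [h1] at h2
    exact h2
  -- two vertices of the class `0` without outer edges
  have hB := MEMBx.card_outer H f i0
  rw [hH.outer] at hB
  obtain ⟨w, w', hww, hw, hw', hwo, hwo'⟩ : ∃ w w', w ≠ w' ∧ f w = some i0 ∧ f w' = some i0 ∧
      (∀ u, H.Adj w u → f u ≠ none) ∧ ∀ u, H.Adj w' u → f u ≠ none := by
    have h1 : 1 < ({v | f v = some i0} \
        {v | f v = some i0 ∧ ∃ u, H.Adj v u ∧ f u = none}).ncard := by
      have h2 := Set.le_ncard_sdiff {v | f v = some i0 ∧ ∃ u, H.Adj v u ∧ f u = none}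
        {v | f v = some i0} (Set.toFinite _)
      rw [hH.size i0] at h2
      have := hσ i0
      omega
    obtain ⟨w, hw, w', hw', hne⟩ := (Set.one_lt_ncard (Set.toFinite _)).1 h1
    refine ⟨w, w', hne, hw.1, hw'.1, fun u hu hn => hw.2 ⟨hw.1, u, hu, hn⟩,
      fun u hu hn => hw'.2 ⟨hw'.1, u, hu, hn⟩⟩
  have hadj : ∀ x, f x = some i0 → (∀ u, H.Adj x u → f u ≠ none) → ∀ u,
      (H.Adj x u ↔ f u ≠ none ∧ f u ≠ some i0) := by
    intro x hx hxo u
    constructor
    · intro h
      refine ⟨hxo u h, fun h2 => ?_⟩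
      exact hH.indep x u (by rw [hx]; exact Option.some_ne_none _) (by rw [hx, h2]) h
    · rintro ⟨h1, h2⟩
      exact hmiss x u (by rw [hx]; exact Option.some_ne_none _) h1 (by rw [hx]; exact h2.symm)
  -- the set `M`
  have hcard1 : (Finset.univ.filter fun v => f v = some i1).card = σ i1 := by
    rw [← MEMBx.ncard_filter, hH.size i1]
  obtain ⟨M, hMR, hMcard⟩ := Finset.exists_subset_card_eq
    (s := Finset.univ.filter fun v => f v = some i1) (n := a) (by
      rw [hcard1]
      have := hσ i1
      omega)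
  have hM : ∀ v ∈ M, f v = some i1 := fun v hv => (Finset.mem_filter.1 (hMR hv)).2
  -- a vertex of the class `1` not in `M`
  obtain ⟨y1, hy1, hy1M⟩ : ∃ y, f y = some i1 ∧ y ∉ M := by
    have h1 : M.card < (Finset.univ.filter fun v => f v = some i1).card := by
      rw [hcard1, hMcard]
      have := hσ i1
      omega
    obtain ⟨y, hy, hyM⟩ := Finset.exists_mem_notMem_of_card_lt_card h1
    exact ⟨y, (Finset.mem_filter.1 hy).2, hyM⟩
  have hne0 : ∀ y, f y = some i1 → y ≠ w := by
    intro y hy h
    rw [h, hw] at hy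
    exact hi01 (Option.some_injective _ hy)
  refine ⟨k, mk H w M, f, ?_, ?_, ?_, ?_, ?_, ?_, hH.size⟩
  · exact fun h => hHfree (h.trans (SimpleGraph.IsContained.of_le mk_le))
  · -- not colorable
    rintro ⟨c⟩
    apply hHcol
    refine ⟨SimpleGraph.Coloring.mk (fun v => if v = w then c w' else c v) ?_⟩
    intro u v huv
    have key : ∀ v, v ≠ w → H.Adj w v → c w' ≠ c v := by
      intro v hv h
      have h1 := (hadj w hw hwo v).1 h
      have h2 : H.Adj w' v := (hadj w' hw' hwo' v).2 h1
      exact c.valid (mk_ne hww.symm hv h2)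
    by_cases hu : u = w
    · have hv : v ≠ w := by
        intro h
        rw [hu, h] at huv
        exact H.loopless.irrefl w huv
      rw [if_pos hu, if_neg hv]
      exact key v hv (hu ▸ huv)
    · by_cases hv : v = w
      · rw [if_neg hu, if_pos hv]
        exact (key u hu (hv ▸ huv.symm)).symm
      · rw [if_neg hu, if_neg hv]
        exact c.valid (mk_ne hu hv huv)
  · -- no isolated vertices
    intro v
    by_cases hv : v = w
    · rw [hv]
      refine ⟨y1, ?_, fun h => hy1M h.2, fun h => hne0 y1 hy1 h.1⟩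
      refine (hadj w hw hwo y1).2 ?_
      rw [hy1]
      exact ⟨Option.some_ne_none _, fun h => hi01 (Option.some_injective _ h).symm⟩
    · by_cases hvn : f v = none
      · obtain ⟨u, hu⟩ := hHiso v
        have huw : u ≠ w := by
          intro h
          rw [h] at hu
          exact hwo v hu.symm hvn
        exact ⟨u, mk_ne hv huw hu⟩
      · by_cases hv0 : f v = some i0
        · refine ⟨y1, mk_ne hv (hne0 y1 hy1) ?_⟩
          refine hmiss v y1 hvn (by rw [hy1]; exact Option.some_ne_none _) ?_
          rw [hv0, hy1]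
          exact fun h => hi01 (Option.some_injective _ h)
        · exact ⟨w', mk_ne hv hww.symm ((hadj w' hw' hwo' v).2 ⟨hvn, hv0⟩).symm⟩
  · -- independent classes
    intro u v hu huv h
    exact hH.indep u v hu huv h.1
  · -- missing pairs
    have h1 : missSet (mk H w M) f = (fun y => s(w, y)) '' (M : Set (Fin k)) := by
      ext e
      constructor
      · rintro ⟨u, v, rfl, hu, hv, huv, hn⟩
        have h2 := hmiss u v hu hv huv
        have h3 : (u = w ∧ v ∈ M) ∨ (v = w ∧ u ∈ M) := by
          by_contra hcon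
          push Not at hcon
          exact hn ⟨h2, fun h => hcon.1 h.1 h.2, fun h => hcon.2 h.1 h.2⟩
        rcases h3 with h3 | h3
        · exact ⟨v, h3.2, by rw [h3.1]⟩
        · exact ⟨u, h3.2, by rw [h3.1]; exact Sym2.eq_swap⟩
      · rintro ⟨y, hy, rfl⟩
        have hy' := hM y hy
        refine ⟨w, y, rfl, by rw [hw]; exact Option.some_ne_none _,
          by rw [hy']; exact Option.some_ne_none _, ?_, fun h => h.2.1 ⟨rfl, hy⟩⟩
        rw [hw, hy']
        exact fun h => hi01 (Option.some_injective _ h)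
    rw [h1, Set.ncard_image_of_injective, Set.ncard_coe_finset, hMcard]
    intro y y' h
    exact Sym2.congr_right.1 h
  · -- outer edges
    have h1 : outSet (mk H w M) f = outSet H f := by
      ext e
      induction e using Sym2.ind with
      | _ u v =>
        constructor
        · rintro ⟨he, x, hx, hxn⟩
          have he' : (mk H w M).Adj u v := he
          exact ⟨he'.1, x, hx, hxn⟩
        · rintro ⟨he, x, hx, hxn⟩
          have he' : H.Adj u v := he
          refine ⟨?_, x, hx, hxn⟩
          change (mk H w M).Adj u v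
          refine ⟨he', fun h => ?_, fun h => ?_⟩
          · rcases Sym2.mem_iff.1 hx with h' | h'
            · rw [h', h.1, hw] at hxn
              exact Option.some_ne_none _ hxn
            · rw [h', hM v h.2] at hxn
              exact Option.some_ne_none _ hxn
          · rcases Sym2.mem_iff.1 hx with h' | h'
            · rw [h', hM u h.2] at hxn
              exact Option.some_ne_none _ hxn
            · rw [h', h.1, hw] at hxn
              exact Option.some_ne_none _ hxn
    rw [h1, hH.outer]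

end MP0c3a8f
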