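import Pool.Agent.Work.MP_0c3a8f_co.PB.Stmts5
import Pool.Agent.Work.MP_0c3a8f_co.PB.ItemCOMPU
import Pool.Agent.Work.MP_0c3a8f_co.Bd.B06

/-!
# MP_0c3a8f_co, phase B: item SLB
-/

open Finset

namespace MP0c3a8f

namespace ItemSLB

/-! ### indicators and degrees -/

/-- indicator of the core -/
noncomputable def ci {V : Type} {r : ℕ} (g : V → Option (Fin r)) (v : V) : ℝ :=
  if g v = none then 0 else 1

/-- indicator of a class -/
noncomputable def ki {V : Type} {r : ℕ} (g : V → Option (Fin r)) (t : Fin r) (v : V) : ℝ :=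
  if g v = some t then 1 else 0

open Classical in
/-- indicator of the missing pairs -/
noncomputable def mi {V : Type} {r : ℕ} (G : SimpleGraph V) (g : V → Option (Fin r))
    (i j : V) : ℝ := if COMPU.Ms G g i j then 1 else 0

section basic

variable {V : Type} {r : ℕ}

theorem ci_none {g : V → Option (Fin r)} {v : V} (h : g v = none) : ci g v = 0 := if_pos h
theorem ci_some {g : V → Option (Fin r)} {v : V} (h : g v ≠ none) : ci g v = 1 := if_neg h
theorem ci_nonneg (g : V → Option (Fin r)) (v : V) : 0 ≤ ci g v := by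
  unfold ci; split_ifs <;> norm_num
theorem ci_le (g : V → Option (Fin r)) (v : V) : 0 ≤ 1 - ci g v := by
  unfold ci; split_ifs <;> norm_num
theorem ci_sq (g : V → Option (Fin r)) (v : V) : ci g v ^ 2 = ci g v := by
  unfold ci; split_ifs <;> norm_num
theorem ki_nonneg (g : V → Option (Fin r)) (t : Fin r) (v : V) : 0 ≤ ki g t v := by
  unfold ki; split_ifs <;> norm_num
theorem ki_le (g : V → Option (Fin r)) (t : Fin r) (v : V) : 0 ≤ ci g v - ki g t v := by
  by_cases h : g v = none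
  · have h1 : ¬ g v = some t := by rw [h]; exact (Option.some_ne_none t).symm
    unfold ci ki
    rw [if_pos h, if_neg h1]
    norm_num
  · unfold ci ki
    rw [if_neg h]
    split_ifs <;> norm_num
theorem mi_nonneg (G : SimpleGraph V) (g : V → Option (Fin r)) (i j : V) : 0 ≤ mi G g i j := by
  unfold mi; split_ifs <;> norm_num
theorem adj_comm (G : SimpleGraph V) (i j : V) : adj G i j = adj G j i := by
  unfold adj
  by_cases h : G.Adj i j
  · rw [if_pos h, if_pos h.symm]
  · rw [if_neg h, if_neg fun h' => h h'.symm]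
theorem adj_self (G : SimpleGraph V) (i : V) : adj G i i = 0 := by
  unfold adj; rw [if_neg (G.loopless.irrefl i)]

/-- the neighbours in the core of a vertex of the class `t` -/
theorem adj_core {G : SimpleGraph V} {g : V → Option (Fin r)} (hI : Indep G g) {u : V} {t : Fin r}
    (hu : g u = some t) (v : V) : adj G u v * ci g v = ci g v - ki g t v - mi G g u v := by
  have hu0 : g u ≠ none := by rw [hu]; exact Option.some_ne_none t
  by_cases hv : g v = none
  · have h1 : ¬ g v = some t := by rw [hv]; exact (Option.some_ne_none t).symm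
    have h2 : ¬ COMPU.Ms G g u v := fun h => h.2.1 hv
    unfold ci ki mi
    rw [if_pos hv, if_neg h1, if_neg h2]
    ring
  · by_cases hvt : g v = some t
    · have h1 : ¬ G.Adj u v := hI u v hu0 (by rw [hu, hvt])
      have h2 : ¬ COMPU.Ms G g u v := fun h => h.2.2.1 (by rw [hu, hvt])
      unfold ci ki mi adj
      rw [if_neg hv, if_pos hvt, if_neg h1, if_neg h2]
      ring
    · by_cases hA : G.Adj u v
      · have h2 : ¬ COMPU.Ms G g u v := fun h => h.2.2.2 hA
        unfold ci ki mi adj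
        rw [if_neg hv, if_neg hvt, if_pos hA, if_neg h2]
        ring
      · have h2 : COMPU.Ms G g u v := ⟨hu0, hv, fun h => hvt (by rw [← h, hu]), hA⟩
        unfold ci ki mi adj
        rw [if_neg hv, if_neg hvt, if_neg hA, if_pos h2]
        ring

end basic

section sums

variable {V : Type} [Fintype V] {r : ℕ}

/-- core degree -/
noncomputable def dc (G : SimpleGraph V) (g : V → Option (Fin r)) (v : V) : ℝ :=
  ∑ u, adj G v u * ci g u

/-- light degree -/
noncomputable def dl (G : SimpleGraph V) (g : V → Option (Fin r)) (v : V) : ℝ :=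
  ∑ u, adj G v u * (1 - ci g u)

/-- number of edges between the core and the light vertices -/
noncomputable def e1 (G : SimpleGraph V) (g : V → Option (Fin r)) : ℝ :=
  ∑ v, (1 - ci g v) * dc G g v

/-- twice the number of edges between the light vertices -/
noncomputable def e2 (G : SimpleGraph V) (g : V → Option (Fin r)) : ℝ :=
  ∑ v, (1 - ci g v) * dl G g v

theorem dc_nonneg (G : SimpleGraph V) (g : V → Option (Fin r)) (v : V) : 0 ≤ dc G g v :=
  sum_nonneg fun u _ => mul_nonneg (ItemKW3.adj_nonneg G v u) (ci_nonneg g u)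

theorem dl_nonneg (G : SimpleGraph V) (g : V → Option (Fin r)) (v : V) : 0 ≤ dl G g v :=
  sum_nonneg fun u _ => mul_nonneg (ItemKW3.adj_nonneg G v u) (ci_le g u)

theorem dc_eq (G : SimpleGraph V) (g : V → Option (Fin r)) (v : V) :
    ((∑ t, nbn G g v t : ℕ) : ℝ) = dc G g v := by
  push_cast
  rw [sum_congr rfl fun t _ => ItemKW3.nbn_eq G g v t, sum_comm]
  unfold dc
  refine sum_congr rfl fun u _ => ?_
  rw [ItemKW3.sum_cls]
  unfold ci
  split_ifs <;> simp

theorem sum_ci (g : V → Option (Fin r)) (n : ℕ) (hn : ∑ t, siz g t = n) : ∑ v, ci g v = n :=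
  ItemKW3.card_core n hn

theorem sum_ki (g : V → Option (Fin r)) (t : Fin r) : ∑ v, ki g t v = siz g t :=
  (ItemKW3.siz_eq g t).symm

theorem sum_mi (G : SimpleGraph V) (g : V → Option (Fin r)) :
    ∑ i, ∑ j, mi G g i j = 2 * ((missSet G g).ncard : ℝ) := COMPU.miss_count G g

theorem light_eq (G : SimpleGraph V) (g : V → Option (Fin r)) :
    2 * ((lightSet G g ∅).ncard : ℝ) = 2 * e1 G g + e2 G g := by
  classical
  rw [← COMPU.light_count]
  have h1 : ∀ i j, (if COMPU.Lt G g ∅ i j then (1 : ℝ) else 0) =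
      (1 - ci g i) * (adj G i j * ci g j) + (1 - ci g j) * (adj G j i * ci g i) +
        (1 - ci g i) * (adj G i j * (1 - ci g j)) := by
    intro i j
    rw [adj_comm G j i]
    unfold COMPU.Lt ci adj
    by_cases hi : g i = none <;> by_cases hj : g j = none <;> by_cases hA : G.Adj i j <;>
      simp [hi, hj, hA]
  have h2 : ∑ i, ∑ j, (1 - ci g j) * (adj G j i * ci g i) = e1 G g := by
    rw [sum_comm]
    unfold e1 dc
    exact sum_congr rfl fun j _ => (mul_sum _ _ _).symm
  have h3 : ∑ i, ∑ j, (1 - ci g i) * (adj G i j * ci g j) = e1 G g := by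
    unfold e1 dc
    exact sum_congr rfl fun j _ => (mul_sum _ _ _).symm
  have h4 : ∑ i, ∑ j, (1 - ci g i) * (adj G i j * (1 - ci g j)) = e2 G g := by
    unfold e2 dl
    exact sum_congr rfl fun j _ => (mul_sum _ _ _).symm
  rw [sum_congr rfl fun i _ => sum_congr rfl fun j _ => h1 i j]
  simp only [sum_add_distrib]
  rw [h2, h3, h4]
  ring

theorem dc_le (G : SimpleGraph V) (g : V → Option (Fin r)) {v : V} (hv : g v = none) :
    dc G g v ≤ e1 G g := by
  have h := single_le_sum (f := fun v => (1 - ci g v) * dc G g v)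
    (fun i _ => mul_nonneg (ci_le g i) (dc_nonneg G g i)) (mem_univ v)
  simp only [ci_none hv, sub_zero, one_mul] at h
  exact h

theorem dl_le (G : SimpleGraph V) (g : V → Option (Fin r)) {v : V} (hv : g v = none) :
    2 * dl G g v ≤ e2 G g := by
  classical
  have h1 : e2 G g = (1 - ci g v) * dl G g v +
      ∑ u ∈ univ.erase v, (1 - ci g u) * dl G g u := by
    unfold e2
    exact (add_sum_erase _ (fun u => (1 - ci g u) * dl G g u) (mem_univ v)).symm
  have h2 : ∑ u ∈ univ.erase v, (1 - ci g u) * (adj G u v * (1 - ci g v)) ≤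
      ∑ u ∈ univ.erase v, (1 - ci g u) * dl G g u := by
    refine sum_le_sum fun u _ => mul_le_mul_of_nonneg_left ?_ (ci_le g u)
    exact single_le_sum (f := fun w => adj G u w * (1 - ci g w))
      (fun i _ => mul_nonneg (ItemKW3.adj_nonneg G u i) (ci_le g i)) (mem_univ v)
  have h3 : ∑ u ∈ univ.erase v, (1 - ci g u) * (adj G u v * (1 - ci g v)) = dl G g v := by
    have h4 := add_sum_erase univ (fun u => (1 - ci g u) * (adj G u v * (1 - ci g v))) (mem_univ v)
    simp only [adj_self, zero_mul, mul_zero, zero_add] at h4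
    rw [h4]
    unfold dl
    refine sum_congr rfl fun u _ => ?_
    rw [ci_none hv, adj_comm G u v]
    ring
  rw [h1, ci_none hv]
  linarith

/-- the eigenvalue equation -/
theorem eig {G : SimpleGraph V} {z : V → ℝ} {l : ℝ} {m : ℕ} (hz : ZD G z l m)
    (g : V → Option (Fin r)) (v : V) :
    l * z v = ∑ u, adj G v u * ci g u * z u + ∑ u, adj G v u * (1 - ci g u) * z u := by
  rw [← hz.eig v, ← sum_add_distrib]
  exact sum_congr rfl fun u _ => by ring

/-- (1) -/
theorem light_bound {δ : ℝ} {G : SimpleGraph V} {z : V → ℝ} {g : V → Option (Fin r)} {m : ℕ}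
    (_hδ : 0 < δ) (hδ1 : δ ≤ 1) (hF : Flat r δ G z g ∅ m) :
    lam G * ∑ v, (1 - ci g v) * z v ≤ (1 + δ) * (lightSet G g ∅).ncard := by
  have h1 : ∀ v, (1 - ci g v) * (lam G * z v) ≤
      (1 - ci g v) * ((1 + δ) * dc G g v + δ * dl G g v) := by
    intro v
    refine mul_le_mul_of_nonneg_left ?_ (ci_le g v)
    rw [eig hF.zd g v]
    unfold dc dl
    rw [mul_sum, mul_sum]
    refine add_le_add (sum_le_sum fun u _ => ?_) (sum_le_sum fun u _ => ?_)
    · have h2 := mul_nonneg (ItemKW3.adj_nonneg G v u) (ci_nonneg g u)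
      have h3 := mul_le_mul_of_nonneg_left (hF.bd u) h2
      linarith
    · have h2 := ItemKW3.adj_nonneg G v u
      have h3 : (1 - ci g u) * z u ≤ (1 - ci g u) * δ := by
        by_cases hu : g u = none
        · rw [ci_none hu]
          have := hF.light u hu (notMem_empty u)
          linarith
        · rw [ci_some hu]
          linarith
      have h4 := mul_le_mul_of_nonneg_left h3 h2
      linarith
  have h2 : lam G * ∑ v, (1 - ci g v) * z v = ∑ v, (1 - ci g v) * (lam G * z v) := by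
    rw [mul_sum]
    exact sum_congr rfl fun v _ => by ring
  have h3 : ∑ v, (1 - ci g v) * ((1 + δ) * dc G g v + δ * dl G g v) =
      (1 + δ) * e1 G g + δ * e2 G g := by
    unfold e1 e2
    rw [mul_sum, mul_sum, ← sum_add_distrib]
    exact sum_congr rfl fun v _ => by ring
  have h4 := light_eq G g
  have h5 : 0 ≤ e2 G g := sum_nonneg fun v _ => mul_nonneg (ci_le g v) (dl_nonneg G g v)
  rw [h2]
  refine (sum_le_sum fun v _ => h1 v).trans ?_
  rw [h3]
  have h6 : ((lightSet G g ∅).ncard : ℝ) = e1 G g + e2 G g / 2 := by linarith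
  rw [h6]
  nlinarith

/-- the missing pairs at a class -/
theorem miss_class (G : SimpleGraph V) (g : V → Option (Fin r)) (t : Fin r) :
    ∑ u, ∑ v, ki g t u * mi G g u v ≤ (missSet G g).ncard := by
  have h1 : ∑ u, ∑ v, ki g t v * mi G g u v = ∑ u, ∑ v, ki g t u * mi G g u v := by
    rw [sum_comm]
    refine sum_congr rfl fun u _ => sum_congr rfl fun v _ => ?_
    congr 1
    unfold mi
    have : COMPU.Ms G g v u ↔ COMPU.Ms G g u v :=
      ⟨fun h => ⟨h.2.1, h.1, h.2.2.1.symm, fun h' => h.2.2.2 h'.symm⟩,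
        fun h => ⟨h.2.1, h.1, h.2.2.1.symm, fun h' => h.2.2.2 h'.symm⟩⟩
    by_cases h : COMPU.Ms G g u v
    · rw [if_pos h, if_pos (this.2 h)]
    · rw [if_neg h, if_neg (fun h' => h (this.1 h'))]
  have h2 : ∑ u, ∑ v, (ki g t u + ki g t v) * mi G g u v ≤ ∑ u, ∑ v, mi G g u v := by
    refine sum_le_sum fun u _ => sum_le_sum fun v _ => ?_
    by_cases h : COMPU.Ms G g u v
    · have h3 : ki g t u + ki g t v ≤ 1 := by
        unfold ki
        by_cases hu : g u = some t
        · have hv : ¬ g v = some t := fun hv => h.2.2.1 (by rw [hu, hv])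
          rw [if_pos hu, if_neg hv]
          norm_num
        · rw [if_neg hu]
          split_ifs <;> norm_num
      exact (mul_le_mul_of_nonneg_right h3 (mi_nonneg G g u v)).trans_eq (one_mul _)
    · have : mi G g u v = 0 := if_neg h
      rw [this, mul_zero]
  have h3 : ∑ u, ∑ v, (ki g t u + ki g t v) * mi G g u v =
      ∑ u, ∑ v, ki g t u * mi G g u v + ∑ u, ∑ v, ki g t v * mi G g u v := by
    simp only [add_mul, sum_add_distrib]
  rw [h3, h1, sum_mi] at h2
  linarith

/-- (2) -/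
theorem class_bound {δ : ℝ} {G : SimpleGraph V} {z : V → ℝ} {g : V → Option (Fin r)} {m : ℕ}
    (hF : Flat r δ G z g ∅ m) {u : V} {t : Fin r} (hu : g u = some t) :
    lam G * z u ≤ ∑ v, (ci g v - ki g t v) * z v + ∑ v, (1 - ci g v) * z v ∧
    (lam G + siz g t) * ∑ v, (ci g v - ki g t v) * z v ≤
      lam G * ∑ v, ci g v * z v + (1 + δ) * (missSet G g).ncard := by
  have hz := hF.zd.nonneg
  have hcore : ∀ u, g u = some t → ∑ v, adj G u v * ci g v * z v =
      ∑ v, (ci g v - ki g t v) * z v - ∑ v, mi G g u v * z v := by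
    intro u hu
    rw [← sum_sub_distrib]
    refine sum_congr rfl fun v _ => ?_
    rw [adj_core hF.indep hu v]
    ring
  constructor
  · rw [eig hF.zd g u, hcore u hu]
    have h1 : ∑ v, adj G u v * (1 - ci g v) * z v ≤ ∑ v, (1 - ci g v) * z v := by
      refine sum_le_sum fun v _ => ?_
      have h2 := mul_nonneg (ci_le g v) (hz v)
      have h3 := mul_le_mul_of_nonneg_right (ItemKW3.adj_le_one G u v) h2
      linarith
    have h4 : 0 ≤ ∑ v, mi G g u v * z v :=
      sum_nonneg fun v _ => mul_nonneg (mi_nonneg G g u v) (hz v)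
    linarith
  · obtain ⟨T, hT⟩ : ∃ T, T = ∑ v, (ci g v - ki g t v) * z v := ⟨_, rfl⟩
    rw [← hT] at hcore ⊢
    have h1 : ∀ v, ki g t v * (T - ∑ w, mi G g v w * z w) ≤ ki g t v * (lam G * z v) := by
      intro v
      by_cases hv : g v = some t
      · refine mul_le_mul_of_nonneg_left ?_ (ki_nonneg g t v)
        rw [eig hF.zd g v, hcore v hv]
        have : 0 ≤ ∑ w, adj G v w * (1 - ci g w) * z w := sum_nonneg fun w _ =>
          mul_nonneg (mul_nonneg (ItemKW3.adj_nonneg G v w) (ci_le g w)) (hz w)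
        linarith
      · have : ki g t v = 0 := if_neg hv
        rw [this, zero_mul, zero_mul]
    have h2 := sum_le_sum fun v (_ : v ∈ univ) => h1 v
    have h3 : ∑ v, ki g t v * (T - ∑ w, mi G g v w * z w) =
        siz g t * T - ∑ v, ∑ w, ki g t v * (mi G g v w * z w) := by
      rw [← sum_ki, sum_mul, ← sum_sub_distrib]
      refine sum_congr rfl fun v _ => ?_
      rw [mul_sub, mul_sum]
    have h4 : ∑ v, ∑ w, ki g t v * (mi G g v w * z w) ≤ (1 + δ) * (missSet G g).ncard := by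
      have h5 : ∀ v w, ki g t v * (mi G g v w * z w) ≤ (1 + δ) * (ki g t v * mi G g v w) := by
        intro v w
        have h6 := mul_le_mul_of_nonneg_left (hF.bd w)
          (mul_nonneg (ki_nonneg g t v) (mi_nonneg G g v w))
        linarith
      refine (sum_le_sum fun v _ => sum_le_sum fun w _ => h5 v w).trans ?_
      simp only [← mul_sum]
      have h6 := miss_class G g t
      simp only [← mul_sum] at h6
      refine mul_le_mul_of_nonneg_left h6 ?_
      have := (hz u).trans (hF.bd u)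
      exact this
    have h5 : ∑ v, ki g t v * (lam G * z v) = lam G * (∑ v, ci g v * z v - T) := by
      rw [hT, ← sum_sub_distrib, mul_sum]
      exact sum_congr rfl fun v _ => by ring
    rw [h3, h5] at h2
    linarith

/-- (5) the core part of the quadratic form -/
theorem core_form {δ : ℝ} {G : SimpleGraph V} {z : V → ℝ} {g : V → Option (Fin r)} {m : ℕ}
    (_hδ : 0 < δ) (hδ1 : δ ≤ 1) (hF : Flat r δ G z g ∅ m)
    (hK : ∀ y : V → ℝ, qf (KU G g ∅) y ≤ lam (KU G g ∅) * ∑ i, y i ^ 2) :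
    lam G * ∑ v, ci g v * z v ^ 2 ≤ lam (KU G g ∅) * ∑ v, ci g v * z v ^ 2
      - 2 * (1 - δ) ^ 2 * (missSet G g).ncard + lam G * ∑ v, (1 - ci g v) * z v ^ 2 := by
  have hz := hF.zd.nonneg
  have h1 : lam G * ∑ v, ci g v * z v ^ 2 =
      ∑ v, ∑ u, adj G v u * ((ci g v * z v) * (ci g u * z u)) +
        ∑ v, ∑ u, (ci g v * z v) * (adj G v u * (1 - ci g u) * z u) := by
    rw [mul_sum, ← sum_add_distrib]
    refine sum_congr rfl fun v _ => ?_
    have h2 : lam G * (ci g v * z v ^ 2) = ci g v * z v * (lam G * z v) := by ring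
    rw [h2, eig hF.zd g v, mul_add, mul_sum, mul_sum]
    congr 1
    exact sum_congr rfl fun u _ => by ring
  have h2 : ∑ v, ∑ u, (ci g v * z v) * (adj G v u * (1 - ci g u) * z u) ≤
      lam G * ∑ v, (1 - ci g v) * z v ^ 2 := by
    rw [sum_comm, mul_sum]
    refine sum_le_sum fun u _ => ?_
    have h3 : lam G * ((1 - ci g u) * z u ^ 2) = (1 - ci g u) * z u * (lam G * z u) := by ring
    rw [h3, eig hF.zd g u, mul_add, mul_sum]
    have h4 : ∑ v, (ci g v * z v) * (adj G v u * (1 - ci g u) * z u) =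
        ∑ v, (1 - ci g u) * z u * (adj G u v * ci g v * z v) :=
      sum_congr rfl fun v _ => by rw [adj_comm G v u]; ring
    rw [h4]
    have h5 : 0 ≤ (1 - ci g u) * z u * ∑ v, adj G u v * (1 - ci g v) * z v :=
      mul_nonneg (mul_nonneg (ci_le g u) (hz u)) (sum_nonneg fun v _ =>
        mul_nonneg (mul_nonneg (ItemKW3.adj_nonneg G u v) (ci_le g v)) (hz v))
    linarith
  have h3 : ∀ v u, adj G v u * ((ci g v * z v) * (ci g u * z u)) ≤
      adj (KU G g ∅) v u * ((ci g v * z v) * (ci g u * z u)) - (1 - δ) ^ 2 * mi G g v u := by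
    intro v u
    have h5 : 0 ≤ (ci g v * z v) * (ci g u * z u) :=
      mul_nonneg (mul_nonneg (ci_nonneg g v) (hz v)) (mul_nonneg (ci_nonneg g u) (hz u))
    by_cases hM : COMPU.Ms G g v u
    · have h6 : adj G v u = 0 := if_neg hM.2.2.2
      have h7 : adj (KU G g ∅) v u = 1 := if_pos (Or.inl ⟨hM.1, hM.2.1, hM.2.2.1⟩)
      have h8 : mi G g v u = 1 := if_pos hM
      rw [h6, h7, h8, ci_some hM.1, ci_some hM.2.1]
      have h9 := (abs_le.1 (hF.core v hM.1)).1
      have h10 := (abs_le.1 (hF.core u hM.2.1)).1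
      have h11 : (1 - δ) * (1 - δ) ≤ z v * z u :=
        mul_le_mul (by linarith) (by linarith) (by linarith) (hz v)
      linarith
    · have h8 : mi G g v u = 0 := if_neg hM
      rw [h8, mul_zero, sub_zero]
      by_cases hv : g v = none
      · rw [ci_none hv]
        simp
      · by_cases hu : g u = none
        · rw [ci_none hu]
          simp
        · refine mul_le_mul_of_nonneg_right ?_ h5
          by_cases hA : G.Adj v u
          · have h7 : adj (KU G g ∅) v u = 1 :=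
              if_pos (Or.inl ⟨hv, hu, fun h => hF.indep v u hv h hA⟩)
            rw [h7]
            exact ItemKW3.adj_le_one G v u
          · have h6 : adj G v u = 0 := if_neg hA
            rw [h6]
            exact ItemKW3.adj_nonneg _ v u
  have h4 : ∑ v, ∑ u, adj G v u * ((ci g v * z v) * (ci g u * z u)) ≤
      lam (KU G g ∅) * ∑ v, ci g v * z v ^ 2 - 2 * (1 - δ) ^ 2 * (missSet G g).ncard := by
    have h5 := sum_le_sum fun v (_ : v ∈ univ) => sum_le_sum fun u (_ : u ∈ univ) => h3 v u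
    have h6 := hK (fun v => ci g v * z v)
    have h7 : ∑ v, (ci g v * z v) ^ 2 = ∑ v, ci g v * z v ^ 2 :=
      sum_congr rfl fun v _ => by rw [mul_pow, ci_sq]
    have h8 : ∑ v, ∑ u, (adj (KU G g ∅) v u * ((ci g v * z v) * (ci g u * z u)) -
        (1 - δ) ^ 2 * mi G g v u) = qf (KU G g ∅) (fun v => ci g v * z v) -
          (1 - δ) ^ 2 * (2 * (missSet G g).ncard) := by
      rw [← sum_mi, mul_sum]
      unfold qf
      rw [← sum_sub_distrib]
      refine sum_congr rfl fun v _ => ?_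
      rw [mul_sum, ← sum_sub_distrib]
    rw [h8] at h5
    rw [h7] at h6
    linarith
  rw [h1]
  linarith

/-- lower bound for the spectral radius -/
theorem lam_low (hP : P_statement) (hC : CNTU_statement) [Nonempty V] {δ : ℝ}
    {G : SimpleGraph V} {z : V → ℝ} {g : V → Option (Fin r)} (hr : 0 < r)
    (hF : Flat r δ G z g ∅ G.edgeSet.ncard) {n : ℕ} (hn : ∑ t, siz g t = n) :
    qq r * (n : ℝ) ^ 2 - dev (siz g) - 2 * (missSet G g).ncard ≤ lam G * n := by
  obtain ⟨-, hR, -⟩ := hP V G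
  have h1 := hR (ci g)
  have h2 : ∑ v, ci g v ^ 2 = n := by
    rw [← sum_ci g n hn]
    exact sum_congr rfl fun v _ => ci_sq g v
  rw [h2] at h1
  refine le_trans (le_of_eq ?_) h1
  -- the quadratic form of the indicator
  obtain ⟨e, he, hcnt⟩ := hC r V G g ∅ hF.indep (fun v hv => absurd hv (notMem_empty v))
  rw [card_empty, zero_mul] at he
  have he0 : e = 0 := by omega
  rw [he0, sum_empty, hn] at hcnt
  have hcnt' : 2 * (G.edgeSet.ncard : ℝ) + 2 * (missSet G g).ncard + ∑ t, (siz g t : ℝ) ^ 2 =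
      (n : ℝ) ^ 2 + 2 * (lightSet G g ∅).ncard := by
    have := congrArg (fun k : ℕ => (k : ℝ)) hcnt
    push_cast at this
    linarith
  have h3 : qf G (ci g) = 2 * (G.edgeSet.ncard : ℝ) - 2 * (lightSet G g ∅).ncard := by
    have h4 : ∑ i, ∑ j, adj G i j = 2 * (G.edgeSet.ncard : ℝ) := hF.zd.edges
    have h5 : qf G (ci g) = ∑ i, ∑ j, adj G i j - (2 * e1 G g + e2 G g) := by
      have h6 : ∀ i j, adj G i j * (ci g i * ci g j) = adj G i j -
          ((1 - ci g i) * (adj G i j * ci g j) + (1 - ci g j) * (adj G j i * ci g i) +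
            (1 - ci g i) * (adj G i j * (1 - ci g j))) := by
        intro i j
        rw [adj_comm G j i]
        ring
      have h7 : ∑ i, ∑ j, (1 - ci g j) * (adj G j i * ci g i) = e1 G g := by
        rw [sum_comm]
        unfold e1 dc
        exact sum_congr rfl fun j _ => (mul_sum _ _ _).symm
      have h8 : ∑ i, ∑ j, (1 - ci g i) * (adj G i j * ci g j) = e1 G g := by
        unfold e1 dc
        exact sum_congr rfl fun j _ => (mul_sum _ _ _).symm
      have h9 : ∑ i, ∑ j, (1 - ci g i) * (adj G i j * (1 - ci g j)) = e2 G g := by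
        unfold e2 dl
        exact sum_congr rfl fun j _ => (mul_sum _ _ _).symm
      unfold qf
      rw [sum_congr rfl fun i _ => sum_congr rfl fun j _ => h6 i j]
      simp only [sum_add_distrib, sum_sub_distrib]
      rw [h7, h8, h9]
      ring
    rw [h5, h4, light_eq]
  rw [h3]
  have hcast : (n : ℝ) = ∑ s, (siz g s : ℝ) := by rw [← hn]; push_cast; rfl
  have hdev : dev (siz g) = ∑ t, (siz g t : ℝ) ^ 2 - (n : ℝ) ^ 2 / r := by
    unfold dev
    rw [← hcast]
    have h8 : ∀ t : Fin r, ((siz g t : ℝ) - n / r) ^ 2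
        = (siz g t : ℝ) ^ 2 - 2 * (n / r) * siz g t + (n / r) ^ 2 := fun t => by ring
    rw [Finset.sum_congr rfl fun t _ => h8 t, Finset.sum_add_distrib, Finset.sum_sub_distrib,
      ← Finset.mul_sum, ← hcast, Finset.sum_const, Finset.card_univ, Fintype.card_fin,
      nsmul_eq_mul]
    field_simp
    ring
  rw [hdev]
  unfold qq
  have h9 : (1 - 1 / (r : ℝ)) * (n : ℝ) ^ 2 = (n : ℝ) ^ 2 - (n : ℝ) ^ 2 / r := by ring
  rw [h9]
  linarith

/-- the eigenvalue equation with bounds -/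
theorem eig_le {G : SimpleGraph V} {z : V → ℝ} {l : ℝ} {m : ℕ} (hz : ZD G z l m)
    {g : V → Option (Fin r)} {M Z : ℝ} (hM : ∀ u, g u ≠ none → z u ≤ M)
    (hZ : ∀ u, g u = none → z u ≤ Z) (v : V) :
    l * z v ≤ M * dc G g v + Z * dl G g v := by
  rw [eig hz g v]
  unfold dc dl
  rw [mul_sum, mul_sum]
  refine add_le_add (sum_le_sum fun u _ => ?_) (sum_le_sum fun u _ => ?_)
  · by_cases hu : g u = none
    · rw [ci_none hu]
      simp
    · rw [ci_some hu]
      have := mul_le_mul_of_nonneg_left (hM u hu) (ItemKW3.adj_nonneg G v u)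
      linarith
  · by_cases hu : g u = none
    · rw [ci_none hu]
      have := mul_le_mul_of_nonneg_left (hZ u hu) (ItemKW3.adj_nonneg G v u)
      linarith
    · rw [ci_some hu]
      simp

theorem e1_nonneg (G : SimpleGraph V) (g : V → Option (Fin r)) : 0 ≤ e1 G g :=
  sum_nonneg fun v _ => mul_nonneg (ci_le g v) (dc_nonneg G g v)

theorem e2_nonneg (G : SimpleGraph V) (g : V → Option (Fin r)) : 0 ≤ e2 G g :=
  sum_nonneg fun v _ => mul_nonneg (ci_le g v) (dl_nonneg G g v)

/-- (3) -/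
theorem light_max {G : SimpleGraph V} {z : V → ℝ} {l : ℝ} {m : ℕ} (hz : ZD G z l m)
    {g : V → Option (Fin r)} {M : ℝ} (hM0 : 0 ≤ M) (hM : ∀ u, g u ≠ none → z u ≤ M)
    (hb : 2 * ((lightSet G g ∅).ncard : ℝ) ≤ l) {w : V} (hw : g w = none) :
    ∀ u, g u = none → z u ≤ 2 * ((lightSet G g ∅).ncard : ℝ) / l * M := by
  classical
  obtain ⟨v0, hv0, hmax⟩ := exists_max_image (univ.filter fun v => g v = none) z
    ⟨w, mem_filter.2 ⟨mem_univ w, hw⟩⟩
  have hv0' : g v0 = none := (mem_filter.1 hv0).2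
  have hlight : ∀ u, g u = none → z u ≤ z v0 := fun u hu =>
    hmax u (mem_filter.2 ⟨mem_univ u, hu⟩)
  obtain ⟨b, hb'⟩ : ∃ b, b = ((lightSet G g ∅).ncard : ℝ) := ⟨_, rfl⟩
  have hbe := light_eq G g
  rw [← hb'] at hb hbe ⊢
  have h1 := eig_le hz hM hlight v0
  have h2 := dc_le G g hv0'
  have h3 := dl_le G g hv0'
  have h4 := e1_nonneg G g
  have h5 := e2_nonneg G g
  have h6 : M * dc G g v0 ≤ M * b := mul_le_mul_of_nonneg_left (by linarith) hM0
  have h7 : z v0 * dl G g v0 ≤ z v0 * (l / 2) :=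
    mul_le_mul_of_nonneg_left (by linarith) (hz.nonneg v0)
  have h8 : z v0 ≤ 2 * b / l * M := by
    have h9 : 2 * b / l * M = 2 * b * M / l := by ring
    rw [h9, le_div_iff₀ hz.lpos]
    linarith
  exact fun u hu => (hlight u hu).trans h8

/-- (4) -/
theorem light_sq {G : SimpleGraph V} {z : V → ℝ} {l : ℝ} {m : ℕ} (hz : ZD G z l m)
    {g : V → Option (Fin r)} {M b b' : ℝ} (hM0 : 0 ≤ M) (hM : ∀ u, g u ≠ none → z u ≤ M)
    (hb : b = ((lightSet G g ∅).ncard : ℝ)) (hbl : 4 * b ≤ l) {w : V} (hw : g w = none)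
    (hbb : b = dc G g w + b') (hmax : ∀ v, g v = none → dc G g v ≤ dc G g w) :
    l ^ 2 * ∑ v, (1 - ci g v) * z v ^ 2 ≤ M ^ 2 * (b ^ 2 - b * b' / 2) := by
  have hbe := light_eq G g
  rw [← hb] at hbe
  have h4 := e1_nonneg G g
  have h5 := e2_nonneg G g
  have hb0 : 0 ≤ b := by rw [hb]; exact Nat.cast_nonneg _
  have hlm := light_max hz hM0 hM (by rw [← hb]; linarith) hw
  rw [← hb] at hlm
  have hl := hz.lpos
  obtain ⟨μ, hμ⟩ : ∃ μ, μ = 2 * b / l := ⟨_, rfl⟩
  rw [← hμ] at hlm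
  have hμ0 : 0 ≤ μ := by rw [hμ]; positivity
  have hμ1 : μ ≤ 1 / 2 := by
    rw [hμ, div_le_iff₀ hl]
    linarith
  have hdw : dc G g w ≤ e1 G g := dc_le G g hw
  have hb'0 : e2 G g / 2 ≤ b' := by linarith
  have hpt : ∀ v, (1 - ci g v) * (l * z v) ^ 2 ≤
      (1 - ci g v) * (M ^ 2 * (b - b' / 2) * (dc G g v + μ * dl G g v)) := by
    intro v
    by_cases hv : g v = none
    · refine mul_le_mul_of_nonneg_left ?_ (ci_le g v)
      have h6 := eig_le hz hM hlm v
      have h7 := dc_nonneg G g v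
      have h8 := dl_nonneg G g v
      have h9 := hmax v hv
      have h10 := dl_le G g hv
      obtain ⟨y, hy⟩ : ∃ y, y = dc G g v + μ * dl G g v := ⟨_, rfl⟩
      have h11 : μ * dl G g v ≤ 1 / 2 * dl G g v := mul_le_mul_of_nonneg_right hμ1 h8
      have hy0 : 0 ≤ y := by rw [hy]; positivity
      have hy1 : y ≤ b - b' / 2 := by rw [hy]; linarith
      rw [← hy]
      have h12 : l * z v ≤ M * y := by rw [hy]; linarith
      have h13 : 0 ≤ l * z v := mul_nonneg hl.le (hz.nonneg v)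
      calc (l * z v) ^ 2 ≤ (M * y) ^ 2 := pow_le_pow_left₀ h13 h12 2
        _ = M ^ 2 * (y * y) := by ring
        _ ≤ M ^ 2 * ((b - b' / 2) * y) :=
            mul_le_mul_of_nonneg_left (mul_le_mul_of_nonneg_right hy1 hy0) (sq_nonneg M)
        _ = M ^ 2 * (b - b' / 2) * y := by ring
    · rw [ci_some hv]
      simp
  have h6 := sum_le_sum fun v (_ : v ∈ univ) => hpt v
  have h7 : ∑ v, (1 - ci g v) * (l * z v) ^ 2 = l ^ 2 * ∑ v, (1 - ci g v) * z v ^ 2 := by
    rw [mul_sum]
    exact sum_congr rfl fun v _ => by ring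
  have h8 : ∑ v, (1 - ci g v) * (M ^ 2 * (b - b' / 2) * (dc G g v + μ * dl G g v)) =
      M ^ 2 * (b - b' / 2) * (e1 G g + μ * e2 G g) := by
    unfold e1 e2
    rw [mul_sum, ← sum_add_distrib, mul_sum]
    exact sum_congr rfl fun v _ => by ring
  rw [h7, h8] at h6
  refine h6.trans ?_
  have h9 : 0 ≤ M ^ 2 * (b - b' / 2) := by
    have h10 := dc_nonneg G g w
    exact mul_nonneg (sq_nonneg M) (by linarith)
  have h10 : e1 G g + μ * e2 G g ≤ b := by
    have := mul_le_mul_of_nonneg_right hμ1 h5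
    linarith
  calc M ^ 2 * (b - b' / 2) * (e1 G g + μ * e2 G g) ≤ M ^ 2 * (b - b' / 2) * b :=
        mul_le_mul_of_nonneg_left h10 h9
    _ = M ^ 2 * (b ^ 2 - b * b' / 2) := by ring

end sums

/-! ### arithmetic -/

theorem stepC {n D S T L a b l z m : ℝ} (hn : 100 ≤ n) (hD : 0 ≤ D) (hDn : D ^ 2 ≤ n)
    (ha : 0 ≤ a) (hb : 0 ≤ b) (hab : 16 * (a + b) ≤ n) (hl : 65 / 100 * n ≤ l)
    (hm : n = m + 9 / 8 + D) (hL : 0 ≤ L) (h1 : m * T ≤ l * S + 121 / 120 * a)
    (h2 : l * z ≤ T + L) (h3 : l * L ≤ 121 / 120 * b) (hz : z ≤ 121 / 120)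
    (hS : 119 / 120 * n ≤ S) : n * z ≤ S * (1 + 3 * (1 + D) / n) := by
  have hl0 : 0 < l := by linarith
  have hL1 : L ≤ 1 / 10 := by
    refine le_of_mul_le_mul_left ?_ hl0
    linarith
  have hD1 : D ≤ n / 10 := by
    by_contra hcon
    push Not at hcon
    have h4 : (n / 10) * (n / 10) < D * D := mul_self_lt_mul_self (by linarith) hcon
    nlinarith
  have hm0 : 0 ≤ m := by linarith
  have h4 : m * (l * z) ≤ m * (T + L) := mul_le_mul_of_nonneg_left h2 hm0
  have h5 : m * L ≤ n * (1 / 10) := mul_le_mul (by linarith) hL1 hL (by linarith)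
  have h6 : l * (m * z) ≤ l * (S + 26 / 100) := by
    have : l * (m * z) = m * (l * z) := by ring
    rw [this]
    linarith
  have h7 : m * z ≤ S + 26 / 100 := le_of_mul_le_mul_left h6 hl0
  have h8 : (9 / 8 + D) * z ≤ (9 / 8 + D) * (121 / 120) :=
    mul_le_mul_of_nonneg_left hz (by linarith)
  have h9 : n * z = m * z + (9 / 8 + D) * z := by rw [hm]; ring
  have h10 : 119 / 120 * n * (3 * (1 + D) / n) ≤ S * (3 * (1 + D) / n) :=
    mul_le_mul_of_nonneg_right hS (by positivity)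
  have h11 : 119 / 120 * n * (3 * (1 + D) / n) = 119 / 120 * (3 * (1 + D)) := by
    have : n ≠ 0 := by linarith
    field_simp
  rw [h11] at h10
  have h12 : S * (1 + 3 * (1 + D) / n) = S + S * (3 * (1 + D) / n) := by ring
  rw [h12, h9]
  linarith

theorem final {n D S Q s a b b' l lK q δ : ℝ} (hn : 100 ≤ n) (hD : 0 ≤ D) (hDn : D ^ 2 ≤ n)
    (ha : 0 ≤ a) (hb' : 0 ≤ b') (hbb : b' ≤ b) (hq : 2 / 3 ≤ q) (hl : q * n - 9 / 8 ≤ l)
    (hδ0 : 0 ≤ δ) (hδ : δ ≤ 1 / 120) (hQ : 0 < Q) (hQ1 : Q ≤ (1 + δ) ^ 2 * n)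
    (hSQ : S ^ 2 ≤ n * Q)
    (h1 : l ^ 2 * s ≤ (S * (1 + 3 * (1 + D) / n) / n) ^ 2 * (b ^ 2 - b * b' / 2))
    (h2 : l * Q ≤ lK * Q - 2 * (1 - δ) ^ 2 * a + l * s) :
    l ^ 2 ≤ lK ^ 2 - 3 * q * a + 2 * b ^ 2 / n - b * b' / n
      + 18 * (1 + D) * b ^ 2 / n ^ 2 := by
  have hn0 : 0 < n := by linarith
  have hl0 : 0 < l := by nlinarith
  have hD1 : D ≤ n / 10 := by
    by_contra hcon
    push Not at hcon
    have h4 : (n / 10) * (n / 10) < D * D := mul_self_lt_mul_self (by linarith) hcon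
    nlinarith
  obtain ⟨x, hx⟩ : ∃ x, x = 3 * (1 + D) / n := ⟨_, rfl⟩
  rw [← hx] at h1
  have hx0 : 0 ≤ x := by rw [hx]; positivity
  have hx1 : x ≤ 1 := by
    rw [hx, div_le_one hn0]
    linarith
  obtain ⟨P, hP⟩ : ∃ P, P = b ^ 2 - b * b' / 2 := ⟨_, rfl⟩
  rw [← hP] at h1
  have hP0 : 0 ≤ P := by
    rw [hP]
    nlinarith
  have hP1 : P ≤ b ^ 2 := by
    rw [hP]
    nlinarith
  have h3 : l ^ 2 * s ≤ Q * ((1 + x) ^ 2 * P / n) := by
    refine h1.trans ?_
    have h4 : (S * (1 + x) / n) ^ 2 * P = S ^ 2 * ((1 + x) ^ 2 * P / n ^ 2) := by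
      field_simp
    have h5 : Q * ((1 + x) ^ 2 * P / n) = n * Q * ((1 + x) ^ 2 * P / n ^ 2) := by
      field_simp
    rw [h4, h5]
    exact mul_le_mul_of_nonneg_right hSQ (by positivity)
  have h4 : 3 / 2 * q * a * Q ≤ 2 * (1 - δ) ^ 2 * a * l := by
    have h5 : 3 / 2 * q * Q ≤ 2 * (1 - δ) ^ 2 * l := by
      have h6 : (1 + δ) ^ 2 ≤ 121 / 120 * (121 / 120) := by nlinarith
      have h7 : 119 / 120 * (119 / 120) ≤ (1 - δ) ^ 2 := by nlinarith
      have h8 : q * Q ≤ q * (121 / 120 * (121 / 120) * n) :=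
        mul_le_mul_of_nonneg_left (hQ1.trans (mul_le_mul_of_nonneg_right h6 hn0.le))
          (by linarith)
      have h9 : 119 / 120 * (119 / 120) * l ≤ (1 - δ) ^ 2 * l :=
        mul_le_mul_of_nonneg_right h7 hl0.le
      have h10 : 2 / 3 * 100 ≤ q * n := mul_le_mul hq hn (by norm_num) (by linarith)
      linarith
    have h6 := mul_le_mul_of_nonneg_left h5 ha
    linarith
  have h5 : Q * l ^ 2 ≤ Q * (l * lK - 3 / 2 * q * a + (1 + x) ^ 2 * P / n) := by
    have h6 := mul_le_mul_of_nonneg_left h2 hl0.le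
    have h7 : l * (lK * Q - 2 * (1 - δ) ^ 2 * a + l * s) =
        Q * (l * lK) - 2 * (1 - δ) ^ 2 * a * l + l ^ 2 * s := by ring
    rw [h7] at h6
    have h8 : l * (l * Q) = Q * l ^ 2 := by ring
    rw [h8] at h6
    linarith
  have h6 := le_of_mul_le_mul_left h5 hQ
  have h7 : (1 + x) ^ 2 * P / n ≤ P / n + 3 * x * b ^ 2 / n := by
    rw [← add_div]
    refine div_le_div_of_nonneg_right ?_ hn0.le
    have h8 : (1 + x) ^ 2 ≤ 1 + 3 * x := by nlinarith
    have h9 := mul_le_mul_of_nonneg_right h8 hP0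
    have h10 := mul_le_mul_of_nonneg_left hP1 (by positivity : 0 ≤ 3 * x)
    linarith
  have h8 : 3 * x * b ^ 2 / n = 9 * (1 + D) * b ^ 2 / n ^ 2 := by
    rw [hx]
    field_simp
    ring
  have h9 : P / n = b ^ 2 / n - b * b' / (2 * n) := by
    rw [hP]
    field_simp
  have h10 : 2 * b ^ 2 / n - b * b' / n = 2 * (b ^ 2 / n - b * b' / (2 * n)) := by
    field_simp
  have h11 : 18 * (1 + D) * b ^ 2 / n ^ 2 = 2 * (9 * (1 + D) * b ^ 2 / n ^ 2) := by ring
  rw [h8, h9] at h7
  rw [h11]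
  have h12 : lK ^ 2 - 3 * q * a + 2 * b ^ 2 / n - b * b' / n
      + 2 * (9 * (1 + D) * b ^ 2 / n ^ 2) = lK ^ 2 - 3 * q * a +
      (2 * b ^ 2 / n - b * b' / n) + 2 * (9 * (1 + D) * b ^ 2 / n ^ 2) := by ring
  rw [h12, h10]
  nlinarith [sq_nonneg (l - lK)]

end ItemSLB

open ItemSLB in
theorem prfSLB : P_statement → CNTU_statement → SLB_statement := by
  intro hP hC r hr
  refine ⟨18, 100, by norm_num, ?_⟩
  intro V _ G z g w n hF hw hn hsum hdev hab hdeg
  have : Nonempty V := ⟨w⟩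
  have hr' : (3 : ℝ) ≤ r := by exact_mod_cast hr
  have hr0 : (0 : ℝ) < r := by linarith
  have hnR : (100 : ℝ) ≤ n := by exact_mod_cast hn
  have hn0 : (0 : ℝ) < n := by linarith
  obtain ⟨δ, hδ⟩ : ∃ δ : ℝ, δ = 1 / (40 * (r : ℝ)) := ⟨_, rfl⟩
  rw [← hδ] at hF
  have hδ0 : 0 < δ := by rw [hδ]; positivity
  have hδ1 : δ ≤ 1 / 120 := by
    rw [hδ]
    refine one_div_le_one_div_of_le (by norm_num) ?_
    linarith
  have hlow := lam_low hP hC (by omega) hF hsum
  obtain ⟨-, hK, -⟩ := hP V (KU G g ∅)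
  have hform := core_form hδ0 (by linarith) hF hK
  have hlight := light_bound hδ0 (by linarith) hF
  -- the number of edges at `w`
  have hbw : ((lightSet G g ∅).ncard : ℝ) = dc G g w + ((lightSet G g {w}).ncard : ℝ) := by
    obtain ⟨e, he, hcnt⟩ := hC r V G g ∅ hF.indep (fun v hv => absurd hv (notMem_empty v))
    obtain ⟨e', he', hcnt'⟩ := hC r V G g {w} hF.indep (fun v hv => by
      rw [mem_singleton.1 hv]; exact hw)
    rw [card_empty, zero_mul] at he
    rw [card_singleton, Nat.sub_self, mul_zero] at he'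
    have he0 : e = 0 := by omega
    have he0' : e' = 0 := by omega
    rw [he0, sum_empty] at hcnt
    rw [he0', sum_singleton] at hcnt'
    rw [← dc_eq]
    have : (lightSet G g ∅).ncard = ∑ t, nbn G g w t + (lightSet G g {w}).ncard := by omega
    exact_mod_cast this
  have hmax : ∀ v, g v = none → dc G g v ≤ dc G g w := by
    intro v hv
    rw [← dc_eq, ← dc_eq]
    exact_mod_cast hdeg v hv
  obtain ⟨a, ha⟩ : ∃ a, a = ((missSet G g).ncard : ℝ) := ⟨_, rfl⟩
  obtain ⟨b, hb⟩ : ∃ b, b = ((lightSet G g ∅).ncard : ℝ) := ⟨_, rfl⟩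
  obtain ⟨b', hb'⟩ : ∃ b', b' = ((lightSet G g {w}).ncard : ℝ) := ⟨_, rfl⟩
  have ha0 : 0 ≤ a := by rw [ha]; exact Nat.cast_nonneg _
  have hb0 : 0 ≤ b := by rw [hb]; exact Nat.cast_nonneg _
  have hb'0 : 0 ≤ b' := by rw [hb']; exact Nat.cast_nonneg _
  have hmiss := ha
  rw [← hb, ← hb'] at hbw
  rw [← ha, ← hb] at hab
  have hclass := fun {u : V} {t : Fin r} (hu : g u = some t) => class_bound hF hu
  rw [← ha] at hlow hform hclass
  rw [← hb] at hlight
  rw [← ha, ← hb, ← hb']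
  obtain ⟨D, hD⟩ : ∃ D, D = Real.sqrt (dev (siz g)) := ⟨_, rfl⟩
  rw [← hD]
  have hdev0 : 0 ≤ dev (siz g) := sum_nonneg fun t _ => sq_nonneg _
  have hD0 : 0 ≤ D := by rw [hD]; exact Real.sqrt_nonneg _
  have hD2 : D ^ 2 = dev (siz g) := by rw [hD]; exact Real.sq_sqrt hdev0
  have hDn : D ^ 2 ≤ n := by rw [hD2]; exact hdev
  have hq : 2 / 3 ≤ qq r := by
    unfold qq
    have : 1 / (r : ℝ) ≤ 1 / 3 := one_div_le_one_div_of_le (by norm_num) hr'
    linarith
  have hl1 : qq r * n - 9 / 8 ≤ lam G := by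
    refine le_of_mul_le_mul_right ?_ hn0
    have : (qq r * n - 9 / 8) * n = qq r * (n : ℝ) ^ 2 - 9 / 8 * n := by ring
    rw [this]
    linarith
  have hl2 : 65 / 100 * (n : ℝ) ≤ lam G := by
    have : 2 / 3 * (n : ℝ) ≤ qq r * n := mul_le_mul_of_nonneg_right hq hn0.le
    linarith
  have hl0 : 0 < lam G := hF.zd.lpos
  have hz := hF.zd.nonneg
  -- the sums over the core
  obtain ⟨S, hS⟩ : ∃ S, S = ∑ v, ci g v * z v := ⟨_, rfl⟩
  obtain ⟨Q, hQ⟩ : ∃ Q, Q = ∑ v, ci g v * z v ^ 2 := ⟨_, rfl⟩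
  have hcard := sum_ci g n hsum
  have hS1 : (1 - δ) * n ≤ S := by
    rw [hS, ← hcard, mul_sum]
    refine sum_le_sum fun v _ => ?_
    by_cases hv : g v = none
    · rw [ci_none hv]
      simp
    · rw [ci_some hv]
      have := (abs_le.1 (hF.core v hv)).1
      linarith
  have hQ1 : Q ≤ (1 + δ) ^ 2 * n := by
    rw [hQ, ← hcard, mul_sum]
    refine sum_le_sum fun v _ => ?_
    rw [mul_comm]
    exact mul_le_mul_of_nonneg_right (pow_le_pow_left₀ (hz v) (hF.bd v) 2) (ci_nonneg g v)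
  have hSQ : S ^ 2 ≤ n * Q := by
    have h1 := sum_mul_sq_le_sq_mul_sq univ (ci g) fun v => ci g v * z v
    have h2 : ∑ v, ci g v * (ci g v * z v) = S := by
      rw [hS]
      refine sum_congr rfl fun v _ => ?_
      have := ci_sq g v
      calc ci g v * (ci g v * z v) = ci g v ^ 2 * z v := by ring
        _ = ci g v * z v := by rw [this]
    have h3 : ∑ v, ci g v ^ 2 = n := by
      rw [← hcard]
      exact sum_congr rfl fun v _ => ci_sq g v
    have h4 : ∑ v, (ci g v * z v) ^ 2 = Q := by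
      rw [hQ]
      exact sum_congr rfl fun v _ => by rw [mul_pow, ci_sq]
    rw [h2, h3, h4] at h1
    exact h1
  have hS0 : 0 < S := by
    have : 0 < (1 - δ) * n := mul_pos (by linarith) hn0
    linarith
  have hQ0 : 0 < Q := by
    have h1 : 0 < n * Q := lt_of_lt_of_le (by positivity) hSQ
    exact (mul_pos_iff_of_pos_left hn0).1 h1
  rw [← hQ] at hform
  rw [← hS] at hclass
  obtain ⟨L, hL⟩ : ∃ L, L = ∑ v, (1 - ci g v) * z v := ⟨_, rfl⟩
  have hL0 : 0 ≤ L := by
    rw [hL]
    exact sum_nonneg fun v _ => mul_nonneg (ci_le g v) (hz v)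
  rw [← hL] at hclass hlight
  have hb121 : (1 + δ) * b ≤ 121 / 120 * b := mul_le_mul_of_nonneg_right (by linarith) hb0
  have ha121 : (1 + δ) * a ≤ 121 / 120 * a := mul_le_mul_of_nonneg_right (by linarith) ha0
  have hcast : (n : ℝ) = ∑ s, (siz g s : ℝ) := by rw [← hsum]; push_cast; rfl
  obtain ⟨M, hM⟩ : ∃ M, M = S * (1 + 3 * (1 + D) / n) / n := ⟨_, rfl⟩
  have hM0 : 0 ≤ M := by rw [hM]; positivity
  have hcore : ∀ u, g u ≠ none → z u ≤ M := by
    intro u hu
    obtain ⟨t, ht⟩ := Option.ne_none_iff_exists'.1 hu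
    obtain ⟨h1, h2⟩ := hclass ht
    obtain ⟨T, hT⟩ : ∃ T, T = ∑ v, (ci g v - ki g t v) * z v := ⟨_, rfl⟩
    rw [← hT] at h1 h2
    have hT0 : 0 ≤ T := by
      rw [hT]
      exact sum_nonneg fun v _ => mul_nonneg (ki_le g t v) (hz v)
    have hσ : (n : ℝ) / r - D ≤ siz g t := by
      have h3 : ((siz g t : ℝ) - n / r) ^ 2 ≤ D ^ 2 := by
        rw [hD2]
        have h4 := single_le_sum (f := fun t => ((siz g t : ℝ) - (∑ s, (siz g s : ℝ)) / r) ^ 2)
          (fun i _ => sq_nonneg _) (mem_univ t)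
        simp only [← hcast] at h4
        unfold dev
        rw [← hcast]
        exact h4
      have h4 := abs_le_of_sq_le_sq' h3 hD0
      linarith [h4.1]
    have hm : (n : ℝ) - 9 / 8 - D ≤ lam G + siz g t := by
      have : qq r * n = n - n / r := by unfold qq; ring
      rw [this] at hl1
      linarith
    have h3 := stepC (m := n - 9 / 8 - D) (S := S) (T := T) (L := L) (z := z u)
      hnR hD0 hDn ha0 hb0 hab hl2 (by ring) hL0
      ((mul_le_mul_of_nonneg_right hm hT0).trans (h2.trans (by linarith))) h1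
      (by linarith) ((hF.bd u).trans (by linarith))
      (le_trans (mul_le_mul_of_nonneg_right (by linarith) hn0.le) hS1)
    rw [hM, le_div_iff₀ hn0]
    linarith
  have hsq := light_sq hF.zd hM0 hcore hb (by linarith) hw hbw hmax
  rw [hM] at hsq
  have hdw := dc_nonneg G g w
  exact final hnR hD0 hDn ha0 hb'0 (by linarith) hq hl1 hδ0.le hδ1 hQ0 hQ1 hSQ hsq hform

end MP0c3a8f
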