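import Pool.Agent.Work.MP_0c3a8f_co.PB.Stmts6
import Pool.Agent.Work.MP_0c3a8f_co.Bd.B11
import Pool.Agent.Work.MP_0c3a8f_co.Bd.B06

/-!
# MP_0c3a8f_co: item FLU (the Perron vector)
-/

open Finset

namespace MP0c3a8f

namespace ItemFLU

/-- sums over asymmetric relations -/
theorem cnt {V : Type} [Fintype V] (S : Set (Sym2 V)) (R : V → V → Prop)
    [∀ u v, Decidable (R u v)]
    (hR : ∀ u v, R u v → s(u, v) ∈ S) (hA : ∀ u v, R u v → ¬ R v u) (y : V → ℝ) (Y : ℝ)
    (hY : ∀ u v, R u v → y v ≤ Y) (hY0 : 0 ≤ Y) :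
    ∑ u, ∑ v, (if R u v then y v else 0) ≤ S.ncard * Y := by
  classical
  have h1 : (Finset.univ.filter fun p : V × V => R p.1 p.2).card ≤ S.ncard := by
    rw [Set.ncard_eq_toFinset_card S (Set.toFinite S)]
    refine Finset.card_le_card_of_injOn (fun p : V × V => s(p.1, p.2)) ?_ ?_
    · intro p hp
      have hp' := (Finset.mem_filter.1 (Finset.mem_coe.1 hp)).2
      exact Finset.mem_coe.2 ((Set.Finite.mem_toFinset _).2 (hR _ _ hp'))
    · intro p hp p' hp' h
      have h1 := (Finset.mem_filter.1 (Finset.mem_coe.1 hp)).2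
      have h2 := (Finset.mem_filter.1 (Finset.mem_coe.1 hp')).2
      rcases Sym2.eq_iff.1 h with ⟨h3, h4⟩ | ⟨h3, h4⟩
      · exact Prod.ext h3 h4
      · exfalso
        rw [h3, h4] at h1
        exact hA _ _ h1 h2
  calc ∑ u, ∑ v, (if R u v then y v else 0) ≤ ∑ u, ∑ v, (if R u v then Y else 0) := by
        refine Finset.sum_le_sum fun u _ => Finset.sum_le_sum fun v _ => ?_
        split_ifs with h
        · exact hY u v h
        · exact le_rfl
    _ = ((Finset.univ.filter fun p : V × V => R p.1 p.2).card : ℝ) * Y := by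
        rw [← Finset.sum_product', Finset.univ_product_univ, ← Finset.sum_filter,
          Finset.sum_const, nsmul_eq_mul]
    _ ≤ S.ncard * Y := mul_le_mul_of_nonneg_right (by exact_mod_cast h1) hY0

variable {V : Type} {r : ℕ}

/-- the missing pairs with first vertex in the class `t` -/
def RM (G : SimpleGraph V) (g : V → Option (Fin r)) (t : Fin r) (u v : V) : Prop :=
  g u = some t ∧ g v ≠ none ∧ g v ≠ some t ∧ ¬ G.Adj u v

/-- the edges from the class `t` to the light vertices -/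
def RL (G : SimpleGraph V) (g : V → Option (Fin r)) (t : Fin r) (u v : V) : Prop :=
  g u = some t ∧ g v = none ∧ G.Adj u v

open Classical in
noncomputable def mi (G : SimpleGraph V) (g : V → Option (Fin r)) (z : V → ℝ) (t : Fin r)
    (u v : V) : ℝ := if RM G g t u v then z v else 0

open Classical in
noncomputable def li (G : SimpleGraph V) (g : V → Option (Fin r)) (z : V → ℝ) (t : Fin r)
    (u v : V) : ℝ := if RL G g t u v then z v else 0

variable [Fintype V]

theorem mi_le (G : SimpleGraph V) (g : V → Option (Fin r)) (z : V → ℝ) (t : Fin r) (M : ℝ)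
    (hz : ∀ v, z v ≤ M) (hM : 0 ≤ M) :
    ∑ u, ∑ v, mi G g z t u v ≤ (missSet G g).ncard * M := by
  classical
  refine cnt (missSet G g) (RM G g t) ?_ ?_ z M (fun u v _ => hz v) hM
  · rintro u v ⟨h1, h2, h3, h4⟩
    exact ⟨u, v, rfl, by rw [h1]; simp, h2, by rw [h1]; exact h3.symm, h4⟩
  · rintro u v ⟨h1, h2, h3, h4⟩ ⟨h5, -⟩
    exact h3 h5

theorem li_le (G : SimpleGraph V) (g : V → Option (Fin r)) (z : V → ℝ) (t : Fin r) (Z : ℝ)
    (hz : ∀ v, g v = none → z v ≤ Z) (hZ : 0 ≤ Z) :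
    ∑ u, ∑ v, li G g z t u v ≤ (outSet G g).ncard * Z := by
  classical
  refine cnt (outSet G g) (RL G g t) ?_ ?_ z Z (fun u v h => hz v h.2.1) hZ
  · rintro u v ⟨h1, h2, h3⟩
    exact ⟨h3, v, by simp, h2⟩
  · rintro u v ⟨h1, h2, h3⟩ ⟨h5, -⟩
    rw [h5] at h2
    exact absurd h2 (by simp)

omit [Fintype V] in
theorem mi_nonneg (G : SimpleGraph V) (g : V → Option (Fin r)) (z : V → ℝ) (hz : ∀ v, 0 ≤ z v)
    (t : Fin r) (u v : V) : 0 ≤ mi G g z t u v := by
  unfold mi
  split_ifs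
  · exact hz v
  · exact le_rfl

omit [Fintype V] in
theorem li_nonneg (G : SimpleGraph V) (g : V → Option (Fin r)) (z : V → ℝ) (hz : ∀ v, 0 ≤ z v)
    (t : Fin r) (u v : V) : 0 ≤ li G g z t u v := by
  unfold li
  split_ifs
  · exact hz v
  · exact le_rfl

/-- the eigenvalue equation at a core vertex -/
theorem row {G : SimpleGraph V} {g : V → Option (Fin r)} (hI : Indep G g) (z : V → ℝ) (u : V)
    (t : Fin r) (hu : g u = some t) :
    ∑ v, adj G u v * z v = ∑ s, cw z g (some s) - cw z g (some t) - ∑ v, mi G g z t u v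
      + ∑ v, li G g z t u v := by
  classical
  unfold cw
  rw [Finset.sum_comm, ← Finset.sum_sub_distrib, ← Finset.sum_sub_distrib,
    ← Finset.sum_add_distrib]
  refine Finset.sum_congr rfl fun v _ => ?_
  rw [ItemKW3.sum_cls]
  unfold mi li adj RM RL
  by_cases hv : g v = none
  · by_cases hA : G.Adj u v
    · simp [hv, hA, hu]
    · simp [hv, hA]
  · by_cases hvt : g v = some t
    · have hA : ¬ G.Adj u v := hI u v (by rw [hu]; simp) (by rw [hu, hvt])
      simp [hvt, hA]
    · by_cases hA : G.Adj u v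
      · simp [hv, hvt, hA]
      · simp [hv, hvt, hA, hu]

theorem clsum {G : SimpleGraph V} {g : V → Option (Fin r)} (hI : Indep G g) (z : V → ℝ)
    (t : Fin r) [DecidableEq (Option (Fin r))] :
    ∑ u, (if g u = some t then ∑ v, adj G u v * z v else 0) =
      siz g t * (∑ s, cw z g (some s) - cw z g (some t)) - ∑ u, ∑ v, mi G g z t u v
      + ∑ u, ∑ v, li G g z t u v := by
  classical
  rw [← ItemKW3.sum_if_const, ← Finset.sum_sub_distrib, ← Finset.sum_add_distrib]
  refine Finset.sum_congr rfl fun u _ => ?_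
  by_cases hu : g u = some t
  · rw [if_pos hu, if_pos hu, row hI z u t hu]
  · have h1 : ∀ v, mi G g z t u v = 0 := fun v => by
      unfold mi
      rw [if_neg (fun h => hu h.1)]
    have h2 : ∀ v, li G g z t u v = 0 := fun v => by
      unfold li
      rw [if_neg (fun h => hu h.1)]
    rw [if_neg hu, if_neg hu, Finset.sum_eq_zero fun v _ => h1 v,
      Finset.sum_eq_zero fun v _ => h2 v]
    ring

/-- the equation at a light vertex -/
theorem light (G : SimpleGraph V) (g : V → Option (Fin r)) (z : V → ℝ) (hz0 : ∀ v, 0 ≤ z v)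
    (M : ℝ) (hz : ∀ v, z v ≤ M) (hM : 0 ≤ M) (v : V) (hv : g v = none) :
    ∑ u, adj G v u * z u ≤ (outSet G g).ncard * M := by
  classical
  have h1 := cnt (outSet G g) (fun a c => a = v ∧ G.Adj v c) (fun a c h => by
    rw [h.1]
    exact ⟨h.2, v, by simp, hv⟩) (fun a c h h' => by
    have h3 := h.2
    rw [h'.1] at h3
    exact G.loopless.irrefl _ h3) z M (fun a c _ => hz c) hM
  refine le_trans ?_ h1
  have h2 : ∀ a ∈ (Finset.univ : Finset V),
      0 ≤ ∑ c, (if a = v ∧ G.Adj v c then z c else 0) := fun a _ =>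
    Finset.sum_nonneg fun c _ => by
      split_ifs
      · exact hz0 c
      · exact le_rfl
  refine le_trans (le_of_eq ?_) (Finset.single_le_sum h2 (Finset.mem_univ v))
  refine Finset.sum_congr rfl fun c _ => ?_
  unfold adj
  by_cases h : G.Adj v c
  · simp [h]
  · simp [h]

/-- lower bound for the spectral radius -/
theorem lower (hP : P_statement) [Nonempty V] {G : SimpleGraph V} {g : V → Option (Fin r)}
    (hI : Indep G g) (hr : 1 ≤ r) (n : ℝ) (hn : ∑ s, (siz g s : ℝ) = n) :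
    qq r * n ^ 2 - dev (siz g) - r * (missSet G g).ncard ≤ lam G * n := by
  classical
  obtain ⟨hl0, hR, -⟩ := hP V G
  set w : V → ℝ := fun v => if g v = none then 0 else 1 with hw
  have hw0 : ∀ v, 0 ≤ w v := fun v => by
    rw [hw]
    dsimp only
    split_ifs <;> norm_num
  have hw1 : ∀ v, w v ≤ 1 := fun v => by
    rw [hw]
    dsimp only
    split_ifs <;> norm_num
  have hcw : ∀ s, cw w g (some s) = siz g s := by
    intro s
    rw [ItemKW3.siz_eq]
    unfold cw
    refine Finset.sum_congr rfl fun v _ => ?_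
    by_cases hv : g v = some s
    · simp [hv, hw]
    · simp [hv]
  have h2 : ∑ v, w v ^ 2 = n := by
    rw [← hn, Finset.sum_congr rfl fun t _ => ItemKW3.siz_eq g t, Finset.sum_comm]
    refine Finset.sum_congr rfl fun v _ => ?_
    rw [ItemKW3.sum_cls, hw]
    dsimp only
    split_ifs <;> simp
  have h4 : qf G w = ∑ t, ∑ u, (if g u = some t then ∑ v, adj G u v * w v else 0) := by
    unfold qf
    rw [Finset.sum_comm (s := (Finset.univ : Finset (Fin r)))]
    refine Finset.sum_congr rfl fun u _ => ?_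
    rw [ItemKW3.sum_cls]
    by_cases hu : g u = none
    · rw [if_pos hu]
      refine Finset.sum_eq_zero fun v _ => ?_
      simp [hw, hu]
    · rw [if_neg hu]
      refine Finset.sum_congr rfl fun v _ => ?_
      simp [hw, hu]
  have h5 : ∀ t, (siz g t : ℝ) * (n - siz g t) - (missSet G g).ncard ≤
      ∑ u, (if g u = some t then ∑ v, adj G u v * w v else 0) := by
    intro t
    rw [clsum hI w t]
    simp only [hcw, hn]
    have h6 := mi_le G g w t 1 hw1 zero_le_one
    have h7 : 0 ≤ ∑ u, ∑ v, li G g w t u v :=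
      Finset.sum_nonneg fun u _ => Finset.sum_nonneg fun v _ => li_nonneg G g w hw0 t u v
    linarith
  have h8 : ∑ t, ((siz g t : ℝ) * (n - siz g t) - (missSet G g).ncard) ≤ qf G w := by
    rw [h4]
    exact Finset.sum_le_sum fun t _ => h5 t
  have h9 : ∑ t, ((siz g t : ℝ) * (n - siz g t) - (missSet G g).ncard) =
      n ^ 2 - ∑ t, (siz g t : ℝ) ^ 2 - r * (missSet G g).ncard := by
    rw [Finset.sum_sub_distrib, Finset.sum_const, Finset.card_univ, Fintype.card_fin,
      nsmul_eq_mul]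
    congr 1
    have : ∀ t : Fin r, (siz g t : ℝ) * (n - siz g t) = n * siz g t - (siz g t : ℝ) ^ 2 :=
      fun t => by ring
    rw [Finset.sum_congr rfl fun t _ => this t, Finset.sum_sub_distrib, ← Finset.mul_sum, hn]
    ring
  have h10 := hR w
  rw [h2] at h10
  have h11 := ItemUB1.dev_eq hr (siz g)
  rw [hn] at h11
  have h12 : qq r * n ^ 2 = n ^ 2 - n ^ 2 / r := by
    unfold qq
    ring
  rw [h9] at h8
  linarith

/-- outer edges -/
theorem qf_out {G : SimpleGraph V} {g : V → Option (Fin r)} (hI : Indep G g) (x : V → ℝ)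
    (hx0 : ∀ v, 0 ≤ x v) (hx1 : ∑ v, x v ^ 2 = 1) :
    qf G x ≤ qf (KU G g ∅) x + (outSet G g).ncard := by
  classical
  have hxx : ∀ i j, i ≠ j → x i * x j ≤ 1 / 2 := by
    intro i j hij
    have h1 : x i ^ 2 + x j ^ 2 ≤ 1 := by
      have h2 := Finset.sum_pair (f := fun v => x v ^ 2) hij
      rw [← hx1, ← h2]
      exact Finset.sum_le_sum_of_subset_of_nonneg (Finset.subset_univ _)
        (fun v _ _ => sq_nonneg _)
    nlinarith [sq_nonneg (x i - x j)]
  have key : ∀ i j, adj G i j * (x i * x j) ≤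
      adj (KU G g ∅) i j * (x i * x j) + (if s(i, j) ∈ outSet G g then 1 / 2 else 0) := by
    intro i j
    have h0 : 0 ≤ x i * x j := mul_nonneg (hx0 i) (hx0 j)
    unfold adj
    by_cases hA : G.Adj i j
    · rw [if_pos hA]
      by_cases hi : g i = none
      · have h1 : s(i, j) ∈ outSet G g := ⟨hA, i, by simp, hi⟩
        rw [if_pos h1]
        have h2 := hxx i j hA.ne
        split_ifs <;> linarith
      · by_cases hj : g j = none
        · have h1 : s(i, j) ∈ outSet G g := ⟨hA, j, by simp, hj⟩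
          rw [if_pos h1]
          have h2 := hxx i j hA.ne
          split_ifs <;> linarith
        · have h1 : (KU G g ∅).Adj i j := Or.inl ⟨hi, hj, fun h => hI i j hi h hA⟩
          rw [if_pos h1]
          split_ifs <;> linarith
    · rw [if_neg hA]
      split_ifs <;> linarith
  have h1 : ∑ i, ∑ j, (if s(i, j) ∈ outSet G g then (1 / 2 : ℝ) else 0) =
      ((Finset.univ.filter fun p : V × V => s(p.1, p.2) ∈ outSet G g).card : ℝ) * (1 / 2) := by
    rw [← Finset.sum_product', Finset.univ_product_univ, ← Finset.sum_filter, Finset.sum_const,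
      nsmul_eq_mul]
  have h2 := ItemUBG.card_pairs (outSet G g)
  unfold qf
  calc ∑ i, ∑ j, adj G i j * (x i * x j) ≤ ∑ i, ∑ j, (adj (KU G g ∅) i j * (x i * x j) +
        (if s(i, j) ∈ outSet G g then 1 / 2 else 0)) :=
        Finset.sum_le_sum fun i _ => Finset.sum_le_sum fun j _ => key i j
    _ = ∑ i, ∑ j, adj (KU G g ∅) i j * (x i * x j) +
        ((Finset.univ.filter fun p : V × V => s(p.1, p.2) ∈ outSet G g).card : ℝ) * (1 / 2) := by
          simp_rw [Finset.sum_add_distrib]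
          rw [h1]
    _ ≤ _ := by linarith

/-- existence -/
theorem exist (hP : P_statement) [Nonempty V] {G : SimpleGraph V} {g : V → Option (Fin r)}
    (hI : Indep G g) (n : ℝ) (hn : 0 ≤ n) (hb : ((outSet G g).ncard : ℝ) < lam G) :
    ∃ z : V → ℝ, (∀ v, 0 ≤ z v) ∧ (∀ v, ∑ u, adj G v u * z u = lam G * z v) ∧
      ∑ t, cw z g (some t) = n := by
  classical
  obtain ⟨-, -, x, hx0, hx1, hxe⟩ := hP V G
  have hX : ∀ c : ℝ, ∑ t, cw (fun v => c * x v) g (some t) =
      c * ∑ v, (if g v = none then 0 else x v) := by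
    intro c
    unfold cw
    rw [Finset.sum_comm, Finset.mul_sum]
    refine Finset.sum_congr rfl fun v _ => ?_
    rw [ItemKW3.sum_cls]
    split_ifs <;> simp
  set X := ∑ v, (if g v = none then 0 else x v) with hXd
  have hX0 : ∀ v ∈ (Finset.univ : Finset V), 0 ≤ (if g v = none then 0 else x v) := fun v _ => by
    split_ifs
    · exact le_rfl
    · exact hx0 v
  have hXne : X ≠ 0 := by
    intro h0
    have h1 := (Finset.sum_eq_zero_iff_of_nonneg hX0).1 h0
    have h2 : ∀ v, g v ≠ none → x v = 0 := by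
      intro v hv
      have h3 := h1 v (Finset.mem_univ v)
      rwa [if_neg hv] at h3
    have h3 : qf (KU G g ∅) x = 0 := by
      unfold qf
      refine Finset.sum_eq_zero fun i _ => Finset.sum_eq_zero fun j _ => ?_
      unfold adj
      split_ifs with hA
      · rcases hA with hA | hA
        · rw [h2 i hA.1]
          ring
        · rcases hA.2.1 with h4 | h4 <;> simp at h4
      · ring
    have h4 := ItemUB1.qf_eig G x (lam G) hx1 hxe
    have h5 := qf_out hI x hx0 hx1
    rw [h3, h4] at h5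
    linarith
  have hXpos : 0 < X := lt_of_le_of_ne (Finset.sum_nonneg hX0) (Ne.symm hXne)
  refine ⟨fun v => n / X * x v, fun v => mul_nonneg (div_nonneg hn hXpos.le) (hx0 v), ?_, ?_⟩
  · intro v
    have h1 : ∀ u, adj G v u * (n / X * x u) = n / X * (adj G v u * x u) := fun u => by ring
    rw [Finset.sum_congr rfl fun u _ => h1 u, ← Finset.mul_sum, hxe v]
    ring
  · rw [hX, div_mul_cancel₀ n hXne]

/-- the equations of the classes -/
theorem cls {G : SimpleGraph V} {g : V → Option (Fin r)} (hI : Indep G g) (z : V → ℝ)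
    (hz0 : ∀ v, 0 ≤ z v) (l n M Z : ℝ) (hze : ∀ v, ∑ u, adj G v u * z u = l * z v)
    (hzs : ∑ t, cw z g (some t) = n) (hM : ∀ v, z v ≤ M) (hM0 : 0 ≤ M)
    (hZ : ∀ v, g v = none → z v ≤ Z) (hZ0 : 0 ≤ Z) (t : Fin r) :
    (l + siz g t) * (n - cw z g (some t)) ≤ l * n + (missSet G g).ncard * M ∧
    l * n - (outSet G g).ncard * Z ≤ (l + siz g t) * (n - cw z g (some t)) ∧
    ∀ u, g u = some t → n - cw z g (some t) - (missSet G g).ncard * M ≤ l * z u ∧
      l * z u ≤ n - cw z g (some t) + (outSet G g).ncard * Z := by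
  classical
  have h1 := mi_le G g z t M hM hM0
  have h2 := li_le G g z t Z hZ hZ0
  have hm0 : ∀ u ∈ (Finset.univ : Finset V), 0 ≤ ∑ v, mi G g z t u v := fun u _ =>
    Finset.sum_nonneg fun v _ => mi_nonneg G g z hz0 t u v
  have hl0 : ∀ u ∈ (Finset.univ : Finset V), 0 ≤ ∑ v, li G g z t u v := fun u _ =>
    Finset.sum_nonneg fun v _ => li_nonneg G g z hz0 t u v
  have h3 := Finset.sum_nonneg hm0
  have h4 := Finset.sum_nonneg hl0
  have h5 := clsum hI z t
  have h6 : ∑ u, (if g u = some t then ∑ v, adj G u v * z v else 0) = l * cw z g (some t) := by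
    unfold cw
    rw [Finset.mul_sum]
    refine Finset.sum_congr rfl fun u _ => ?_
    by_cases hu : g u = some t
    · simp [hu, hze u]
    · simp [hu]
  rw [h6, hzs] at h5
  have e1 : (l + siz g t) * (n - cw z g (some t)) = l * n + (siz g t *
      (n - cw z g (some t)) - l * cw z g (some t)) := by ring
  refine ⟨?_, ?_, ?_⟩
  · rw [e1]
    linarith
  · rw [e1]
    linarith
  · intro u hu
    have h7 := row hI z u t hu
    rw [hze u, hzs] at h7
    have h8 := Finset.single_le_sum hm0 (Finset.mem_univ u)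
    have h9 := Finset.single_le_sum hl0 (Finset.mem_univ u)
    have h10 := hm0 u (Finset.mem_univ u)
    have h11 := hl0 u (Finset.mem_univ u)
    constructor
    · linarith
    · linarith

/-! ### arithmetic -/

theorem ar_max {n s h l σ Y M a b C c1 c2 : ℝ} (hs : s * s = n) (hh : h * h = s) (h1 : 1 ≤ h)
    (hC : 0 ≤ C) (ha : 0 ≤ a) (hb : 0 ≤ b) (hab : a + b ≤ C * h) (hl : n / 2 ≤ l)
    (hD1 : n - c1 * s ≤ l + σ) (hD2 : l + σ ≤ n + c1 * s) (hc1 : 0 ≤ c1)
    (hc2 : c2 = c1 + 4 * C ^ 2 + 2 * C) (hs2 : 2 * c2 + 2 ≤ s) (hM : 0 ≤ M)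
    (e1 : l * M ≤ Y + b * (b * M / l)) (e2 : (l + σ) * Y ≤ l * n + a * M) :
    M ≤ 2 ∧ (M - 1) * s ≤ 2 * c2 := by
  have hc20 : 0 ≤ c2 := by rw [hc2]; positivity
  have hs1 : 2 ≤ s := by linarith
  have hsn : s ≤ n := by rw [← hs]; exact le_mul_of_one_le_left (by linarith) (by linarith)
  have hn2 : 4 ≤ n := by
    have h2 : 2 * s ≤ s * s := mul_le_mul_of_nonneg_right hs1 (by linarith)
    linarith
  have hhs : h ≤ s := by rw [← hh]; exact le_mul_of_one_le_left (by linarith) h1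
  have hl0 : 0 < l := by linarith
  have hbb : b * b ≤ C ^ 2 * s := by
    have h2 : b ≤ C * h := by linarith
    have h3 : b * b ≤ (C * h) * (C * h) := mul_le_mul h2 h2 hb (by positivity)
    calc b * b ≤ (C * h) * (C * h) := h3
      _ = C ^ 2 * s := by rw [← hh]; ring
  have hcs : c1 * s ≤ n := by
    have h2 : c1 ≤ s := by
      have : 0 ≤ 4 * C ^ 2 + 2 * C := by positivity
      linarith
    rw [← hs]
    exact mul_le_mul_of_nonneg_right h2 (by linarith)
  have hD3 : l + σ ≤ 2 * n := by linarith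
  have hD0 : 0 ≤ l + σ := by linarith
  have e3 : l * (l * M) ≤ l * Y + b * b * M := by
    have h2 := mul_le_mul_of_nonneg_left e1 hl0.le
    have h3 : l * (Y + b * (b * M / l)) = l * Y + b * b * M := by
      field_simp
    linarith
  have e4 : (l + σ) * (l * (l * M)) ≤ l * (l * n + a * M) + (l + σ) * (b * b * M) := by
    have h2 := mul_le_mul_of_nonneg_left e3 hD0
    have h3 := mul_le_mul_of_nonneg_left e2 hl0.le
    have h4 : (l + σ) * (l * Y + b * b * M) = l * ((l + σ) * Y) + (l + σ) * (b * b * M) := by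
      ring
    linarith
  have e5 : (l + σ) * (b * b) ≤ 2 * n * (C ^ 2 * s) :=
    mul_le_mul hD3 hbb (by positivity) (by positivity)
  have e6 : 2 * n * (C ^ 2 * s) ≤ 4 * C ^ 2 * s * (l * l) := by
    have h2 : n / 2 * (n / 2) ≤ l * l := mul_le_mul hl hl (by positivity) hl0.le
    have h3 : 4 * C ^ 2 * s * (n / 2 * (n / 2)) ≤ 4 * C ^ 2 * s * (l * l) :=
      mul_le_mul_of_nonneg_left h2 (by positivity)
    have h4 : 0 ≤ C ^ 2 * s * n * (n - 2) :=
      mul_nonneg (by positivity) (by linarith)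
    linarith
  have e7 : l * a ≤ 2 * C * s * (l * l) := by
    have h2 : a ≤ C * h := by linarith
    have h3 : C * h ≤ 2 * C * s * l := by
      have h4 : C * h ≤ C * s := mul_le_mul_of_nonneg_left hhs hC
      have h5 : C * s * 1 ≤ C * s * (2 * l) :=
        mul_le_mul_of_nonneg_left (by linarith) (by positivity)
      linarith
    have h4 := mul_le_mul_of_nonneg_left (h2.trans h3) hl0.le
    linarith
  have e8 : l * l * (n - c2 * s) ≤ (l + σ) * (l * l) - l * a - (l + σ) * (b * b) := by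
    have h2 : (n - c1 * s) * (l * l) ≤ (l + σ) * (l * l) :=
      mul_le_mul_of_nonneg_right hD1 (by positivity)
    rw [hc2]
    linarith
  have e9 : l * l * ((n - c2 * s) * M) ≤ l * l * n := by
    have h2 := mul_le_mul_of_nonneg_right e8 hM
    linarith
  have e10 : (n - c2 * s) * M ≤ n := le_of_mul_le_mul_left e9 (by positivity)
  have e11 : (s - c2) * M ≤ s := by
    have h2 : s * ((s - c2) * M) ≤ s * s := by
      rw [hs]
      have : s * ((s - c2) * M) = (n - c2 * s) * M := by rw [← hs]; ring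
      linarith
    exact le_of_mul_le_mul_left h2 (by linarith)
  have hM2 : M ≤ 2 := by
    have h2 : s / 2 ≤ s - c2 := by linarith
    have h3 : s / 2 * M ≤ (s - c2) * M := mul_le_mul_of_nonneg_right h2 hM
    have h4 : s * M ≤ s * 2 := by linarith
    exact le_of_mul_le_mul_left h4 (by linarith)
  refine ⟨hM2, ?_⟩
  have h5 : c2 * M ≤ c2 * 2 := mul_le_mul_of_nonneg_left hM2 hc20
  linarith

theorem ar_low {n s h l σ Y M z a b C c1 c3 : ℝ} (hs : s * s = n) (hh : h * h = s) (h1 : 1 ≤ h)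
    (hC : 0 ≤ C) (ha : 0 ≤ a) (hb : 0 ≤ b) (hab : a + b ≤ C * h) (hl : n / 2 ≤ l)
    (hD2 : l + σ ≤ n + c1 * s) (hD0 : 0 ≤ l + σ) (hc1 : 0 ≤ c1) (hs2 : c1 + 2 ≤ s)
    (hc3 : c3 = c1 + 8 * C ^ 2 + 8 * C) (hM : 0 ≤ M) (hM2 : M ≤ 2) (hz : 0 ≤ z)
    (e1 : Y - a * M ≤ l * z) (e2 : l * n - b * (b * M / l) ≤ (l + σ) * Y) :
    (1 - z) * s ≤ c3 := by
  have hs1 : 2 ≤ s := by linarith
  have hsn : s ≤ n := by rw [← hs]; exact le_mul_of_one_le_left (by linarith) (by linarith)
  have hn2 : 4 ≤ n := by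
    have h2 : 2 * s ≤ s * s := mul_le_mul_of_nonneg_right hs1 (by linarith)
    linarith
  have hhs : h ≤ s := by rw [← hh]; exact le_mul_of_one_le_left (by linarith) h1
  have hl0 : 0 < l := by linarith
  have hbb : b * b ≤ C ^ 2 * s := by
    have h2 : b ≤ C * h := by linarith
    have h3 : b * b ≤ (C * h) * (C * h) := mul_le_mul h2 h2 hb (by positivity)
    calc b * b ≤ (C * h) * (C * h) := h3
      _ = C ^ 2 * s := by rw [← hh]; ring
  have hcs : c1 * s ≤ n := by
    rw [← hs]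
    exact mul_le_mul_of_nonneg_right (by linarith) (by linarith)
  have hD3 : l + σ ≤ 2 * n := by linarith
  have hβ : b * (b * M / l) ≤ 4 * C ^ 2 := by
    have h2 : b * (b * M / l) = b * b * M / l := by ring
    rw [h2, div_le_iff₀ hl0]
    have h3 : b * b * M ≤ C ^ 2 * s * 2 := mul_le_mul hbb hM2 hM (by positivity)
    have h4 : C ^ 2 * s ≤ C ^ 2 * n := mul_le_mul_of_nonneg_left hsn (by positivity)
    have h5 : C ^ 2 * (n / 2) ≤ C ^ 2 * l := mul_le_mul_of_nonneg_left hl (by positivity)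
    linarith
  have haM : a * M ≤ 2 * (C * h) := by
    have h2 : a ≤ C * h := by linarith
    have := mul_le_mul h2 hM2 hM (by positivity)
    linarith
  have e3 : (l + σ) * (a * M) ≤ 8 * l * (C * h) := by
    have h2 : (l + σ) * (a * M) ≤ 2 * n * (2 * (C * h)) :=
      mul_le_mul hD3 haM (by positivity) (by positivity)
    have h3 : n * (C * h) ≤ 2 * l * (C * h) :=
      mul_le_mul_of_nonneg_right (by linarith) (by positivity)
    linarith
  have e4 : (l + σ) * (Y - a * M) ≤ (l + σ) * (l * z) := mul_le_mul_of_nonneg_left e1 hD0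
  have e5 : l * (n - 8 * C ^ 2 - 8 * (C * h)) ≤ l * ((l + σ) * z) := by
    have h2 : 4 * C ^ 2 ≤ 8 * C ^ 2 * l := by
      have : C ^ 2 * 1 ≤ C ^ 2 * (2 * l) :=
        mul_le_mul_of_nonneg_left (by linarith) (by positivity)
      linarith
    linarith
  have e6 : n - 8 * C ^ 2 - 8 * (C * h) ≤ (l + σ) * z := le_of_mul_le_mul_left e5 hl0
  have e7 : (l + σ) * z ≤ (n + c1 * s) * z := mul_le_mul_of_nonneg_right hD2 hz
  have e8 : (1 - z) * (n + c1 * s) ≤ c3 * s := by
    have h2 : C * h ≤ C * s := mul_le_mul_of_nonneg_left hhs hC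
    have h3 : C ^ 2 * 1 ≤ C ^ 2 * s := mul_le_mul_of_nonneg_left (by linarith) (by positivity)
    rw [hc3]
    linarith
  by_cases hz1 : 1 ≤ z
  · have h2 : (1 - z) * s ≤ 0 := mul_nonpos_of_nonpos_of_nonneg (by linarith) (by linarith)
    have h3 : 0 ≤ c3 := by rw [hc3]; positivity
    linarith
  · rw [not_le] at hz1
    have h2 : 0 ≤ (1 - z) * (c1 * s) := mul_nonneg (by linarith) (by positivity)
    have h3 : s * ((1 - z) * s) ≤ s * c3 := by
      have : s * ((1 - z) * s) = (1 - z) * n := by rw [← hs]; ring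
      linarith
    exact le_of_mul_le_mul_left h3 (by linarith)

theorem ar_Y {n s h l σ Y M a b C c1 : ℝ} (hs : s * s = n) (hh : h * h = s) (h1 : 1 ≤ h)
    (hC : 0 ≤ C) (ha : 0 ≤ a) (hb : 0 ≤ b) (hab : a + b ≤ C * h) (hl : n / 2 ≤ l)
    (hD1 : n - c1 * s ≤ l + σ) (hD2 : l + σ ≤ n + c1 * s) (hσ : 0 ≤ σ) (hc1 : 0 ≤ c1)
    (hs2 : c1 + 2 ≤ s) (hM : 0 ≤ M) (hM2 : M ≤ 2)
    (e1 : (l + σ) * Y ≤ l * n + a * M) (e2 : l * n - b * (b * M / l) ≤ (l + σ) * Y) :
    |Y - l| ≤ (c1 + 4 * C + 8 * C ^ 2) * s := by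
  have hs1 : 2 ≤ s := by linarith
  have hsn : s ≤ n := by rw [← hs]; exact le_mul_of_one_le_left (by linarith) (by linarith)
  have hn2 : 4 ≤ n := by
    have h2 : 2 * s ≤ s * s := mul_le_mul_of_nonneg_right hs1 (by linarith)
    linarith
  have hhs : h ≤ s := by rw [← hh]; exact le_mul_of_one_le_left (by linarith) h1
  have hl0 : 0 < l := by linarith
  have hD0 : 0 < l + σ := by linarith
  have hbb : b * b ≤ C ^ 2 * s := by
    have h2 : b ≤ C * h := by linarith
    have h3 : b * b ≤ (C * h) * (C * h) := mul_le_mul h2 h2 hb (by positivity)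
    calc b * b ≤ (C * h) * (C * h) := h3
      _ = C ^ 2 * s := by rw [← hh]; ring
  have hβ : b * (b * M / l) ≤ 4 * C ^ 2 := by
    have h2 : b * (b * M / l) = b * b * M / l := by ring
    rw [h2, div_le_iff₀ hl0]
    have h3 : b * b * M ≤ C ^ 2 * s * 2 := mul_le_mul hbb hM2 hM (by positivity)
    have h4 : C ^ 2 * s ≤ C ^ 2 * n := mul_le_mul_of_nonneg_left hsn (by positivity)
    have h5 : C ^ 2 * (n / 2) ≤ C ^ 2 * l := mul_le_mul_of_nonneg_left hl (by positivity)
    linarith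
  have haM : a * M ≤ 2 * (C * h) := by
    have h2 : a ≤ C * h := by linarith
    have := mul_le_mul h2 hM2 hM (by positivity)
    linarith
  have hlD : l ≤ l + σ := by linarith
  have e3 : l * (c1 * s) ≤ (l + σ) * (c1 * s) := mul_le_mul_of_nonneg_right hlD (by positivity)
  have e4 : 2 * (C * h) ≤ (l + σ) * (4 * C * s) := by
    have h2 : C * h ≤ C * s := mul_le_mul_of_nonneg_left hhs hC
    have h3 : C * s * 1 ≤ C * s * (l + σ) :=
      mul_le_mul_of_nonneg_left (by linarith) (by positivity)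
    have h4 : 0 ≤ C * s := by positivity
    linarith
  have e5 : 4 * C ^ 2 ≤ (l + σ) * (8 * C ^ 2 * s) := by
    have h3 : C ^ 2 * 1 ≤ C ^ 2 * s := mul_le_mul_of_nonneg_left (by linarith) (by positivity)
    have h4 : C ^ 2 * s * 1 ≤ C ^ 2 * s * (l + σ) :=
      mul_le_mul_of_nonneg_left (by linarith) (by positivity)
    have h5 : 0 ≤ C ^ 2 * s := by positivity
    linarith
  have e6 : 0 ≤ (l + σ) * (4 * C * s) := by positivity
  have e7 : 0 ≤ (l + σ) * (8 * C ^ 2 * s) := by positivity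
  have e8 : l * (n - (l + σ)) ≤ l * (c1 * s) := mul_le_mul_of_nonneg_left (by linarith) hl0.le
  have e9 : l * ((l + σ) - n) ≤ l * (c1 * s) := mul_le_mul_of_nonneg_left (by linarith) hl0.le
  rw [abs_le]
  constructor
  · have h2 : (l + σ) * (-((c1 + 4 * C + 8 * C ^ 2) * s)) ≤ (l + σ) * (Y - l) := by linarith
    exact le_of_mul_le_mul_left h2 hD0
  · have h2 : (l + σ) * (Y - l) ≤ (l + σ) * ((c1 + 4 * C + 8 * C ^ 2) * s) := by linarith
    exact le_of_mul_le_mul_left h2 hD0

end ItemFLU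

open ItemFLU in
theorem prfFLU : P_statement → KWS_statement → FLU_statement := by
  classical
  intro hP hK r C hr hC
  obtain ⟨C1, n₁, hK⟩ := hK r C hr hC
  obtain ⟨c1, hc1⟩ : ∃ c1 : ℝ, c1 = C + 1 + Real.sqrt C := ⟨_, rfl⟩
  obtain ⟨c2, hc2⟩ : ∃ c2 : ℝ, c2 = c1 + 4 * C ^ 2 + 2 * C := ⟨_, rfl⟩
  obtain ⟨c3, hc3⟩ : ∃ c3 : ℝ, c3 = c1 + 8 * C ^ 2 + 8 * C := ⟨_, rfl⟩
  obtain ⟨c4, hc4⟩ : ∃ c4 : ℝ, c4 = c1 + 4 * C + 8 * C ^ 2 := ⟨_, rfl⟩
  have hc10 : 0 ≤ c1 := by rw [hc1]; positivity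
  have hc20 : 0 ≤ c2 := by rw [hc2]; positivity
  have hc30 : 0 ≤ c3 := by rw [hc3]; positivity
  have hc40 : 0 ≤ c4 := by rw [hc4]; positivity
  have hr3 : (3 : ℝ) ≤ r := by exact_mod_cast hr
  have hr0 : (0 : ℝ) < r := by linarith
  have hrC : 0 ≤ (r : ℝ) * C := by positivity
  obtain ⟨n₂, hn₂⟩ := exists_nat_ge ((2 * c2 + r * C + 6 * (C + 1) + 2) ^ 2)
  refine ⟨2 * c2 + c3 + c4 + 4 * C + C + 1, max n₁ n₂, by positivity, ?_⟩
  intro V _ G g n hn hNK
  have hn1 : n₁ ≤ n := le_trans (le_max_left _ _) hn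
  have hn2 : n₂ ≤ n := le_trans (le_max_right _ _) hn
  have hn2' : (n₂ : ℝ) ≤ n := by exact_mod_cast hn2
  obtain ⟨s, hsd⟩ : ∃ s : ℝ, s = Real.sqrt n := ⟨_, rfl⟩
  obtain ⟨h, hhd⟩ : ∃ h : ℝ, h = Real.sqrt s := ⟨_, rfl⟩
  have hsS : 2 * c2 + r * C + 6 * (C + 1) + 2 ≤ s := by
    rw [hsd, Real.le_sqrt (by positivity) (by positivity)]
    exact hn₂.trans hn2'
  have hs2 : 2 ≤ s := by linarith
  have hs : s * s = n := by rw [hsd]; exact Real.mul_self_sqrt (by positivity)
  have hh : h * h = s := by rw [hhd]; exact Real.mul_self_sqrt (by linarith)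
  have h1 : 1 ≤ h := by rw [hhd, Real.one_le_sqrt]; linarith
  have hhs : h ≤ s := by rw [← hh]; exact le_mul_of_one_le_left (by linarith) h1
  have hsn : s ≤ n := by rw [← hs]; exact le_mul_of_one_le_left (by linarith) (by linarith)
  have hn0 : (0 : ℝ) < n := by linarith
  obtain ⟨hI, htot, hdev, hfew⟩ := hNK
  rw [← hsd, ← hhd] at hfew
  have ha0 : (0 : ℝ) ≤ (missSet G g).ncard := Nat.cast_nonneg _
  have hb0 : (0 : ℝ) ≤ (outSet G g).ncard := Nat.cast_nonneg _
  have hCh : C * h ≤ C * s := mul_le_mul_of_nonneg_left hhs hC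
  have hsum : ∑ t, (siz g t : ℝ) = n := by
    rw [← htot]
    push_cast
    rfl
  have : Nonempty V := by
    by_contra hne
    rw [not_nonempty_iff] at hne
    have h0 : ∑ t, siz g t = 0 := by
      refine Finset.sum_eq_zero fun t _ => ?_
      unfold siz
      rw [Set.eq_empty_of_isEmpty {v | g v = some t}, Set.ncard_empty]
    rw [h0] at htot
    rw [← htot] at hn0
    simp at hn0
  have hq1 : 2 / 3 ≤ qq r := by
    unfold qq
    have : 1 / (r : ℝ) ≤ 1 / 3 := one_div_le_one_div_of_le (by norm_num) hr3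
    linarith
  have hqn : qq r * n + n / r = n := by
    unfold qq
    field_simp
    ring
  have hlow : qq r * n - C - 1 ≤ lam G := by
    have h2 := lower hP hI (by omega : 1 ≤ r) n hsum
    have h3 : (r : ℝ) * (missSet G g).ncard ≤ n := by
      have h4 : (r : ℝ) * (missSet G g).ncard ≤ r * (C * s) :=
        mul_le_mul_of_nonneg_left (by linarith) hr0.le
      have h5 : (r * C) * s ≤ s * s := mul_le_mul_of_nonneg_right (by linarith) (by linarith)
      rw [hs] at h5
      linarith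
    have h6 : (qq r * n - C - 1) * n ≤ lam G * n := by
      have : (qq r * n - C - 1) * n = qq r * (n : ℝ) ^ 2 - C * n - n := by ring
      linarith
    exact le_of_mul_le_mul_right h6 hn0
  have hup : lam G ≤ qq r * n + C * h := by
    obtain ⟨-, -, x, hx0, hx1, hxe⟩ := hP V G
    have h2 := ItemUB1.qf_eig G x (lam G) hx1 hxe
    have h3 := qf_out hI x hx0 hx1
    have h4 := (hP V (KU G g ∅)).2.1 x
    have h5 := (hK V (KU G g ∅) g n ItemLOWU.isKU0 hn1 htot hdev).2.2
    rw [hx1, mul_one] at h4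
    linarith
  have hl : (n : ℝ) / 2 ≤ lam G := by
    have h2 : 2 / 3 * (n : ℝ) ≤ qq r * n := mul_le_mul_of_nonneg_right hq1 hn0.le
    linarith
  have hl0 : 0 < lam G := by linarith
  have hbl : ((outSet G g).ncard : ℝ) < lam G := by
    have h2 : (C + 1) * s ≤ s / 2 * s := by
      have : C ^ 2 = C * C := by ring
      have h3 : 0 ≤ 2 * c2 := by linarith
      exact mul_le_mul_of_nonneg_right (by linarith) (by linarith)
    have h3 : s / 2 * s = n / 2 := by rw [← hs]; ring
    linarith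
  have hσ : ∀ t, |(siz g t : ℝ) - n / r| ≤ Real.sqrt C * s := by
    intro t
    have h2 := ItemUB1.abs_le_sqrt_dev (siz g) t
    rw [hsum] at h2
    refine h2.trans ?_
    rw [hsd, ← Real.sqrt_mul hC]
    exact Real.sqrt_le_sqrt hdev
  have hsC : 0 ≤ Real.sqrt C := Real.sqrt_nonneg C
  have hC1s : (C + 1) * 1 ≤ (C + 1) * s := mul_le_mul_of_nonneg_left (by linarith) (by linarith)
  have hD1 : ∀ t, (n : ℝ) - c1 * s ≤ lam G + siz g t := by
    intro t
    have h2 := (abs_le.1 (hσ t)).1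
    have h3 : c1 * s = (C + 1) * s + Real.sqrt C * s := by rw [hc1]; ring
    linarith
  have hD2 : ∀ t, lam G + siz g t ≤ n + c1 * s := by
    intro t
    have h2 := (abs_le.1 (hσ t)).2
    have h3 : c1 * s = (C + 1) * s + Real.sqrt C * s := by rw [hc1]; ring
    linarith
  refine ⟨?_, ?_⟩
  · obtain ⟨z, hz0, hze, hzs⟩ := exist hP hI n hn0.le hbl
    exact ⟨z, hz0, hze, hzs⟩
  rintro z ⟨hz0, hze, hzs⟩
  obtain ⟨v₀, hv₀⟩ := Finite.exists_max z
  obtain ⟨M, hMd⟩ : ∃ M : ℝ, M = z v₀ := ⟨_, rfl⟩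
  rw [← hMd] at hv₀
  have hM0 : 0 ≤ M := by rw [hMd]; exact hz0 v₀
  have hMpos : 0 < M := by
    refine lt_of_le_of_ne hM0 fun h0 => ?_
    have h2 : ∑ t, cw z g (some t) = 0 := by
      refine Finset.sum_eq_zero fun t _ => ?_
      unfold cw
      refine Finset.sum_eq_zero fun v _ => ?_
      have h3 : z v = 0 := le_antisymm (by rw [h0]; exact hv₀ v) (hz0 v)
      rw [h3]
      simp
    rw [h2] at hzs
    linarith
  have hlt : ∀ v, g v = none → lam G * z v ≤ (outSet G g).ncard * M := by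
    intro v hv
    rw [← hze v]
    exact light G g z hz0 M hv₀ hM0 v hv
  have hZ : ∀ v, g v = none → z v ≤ (outSet G g).ncard * M / lam G := by
    intro v hv
    rw [le_div_iff₀ hl0, mul_comm]
    exact hlt v hv
  have hZ0 : 0 ≤ (outSet G g).ncard * M / lam G := by positivity
  have hcls := cls hI z hz0 (lam G) n M _ hze hzs hv₀ hM0 hZ hZ0
  obtain ⟨t₀, ht₀⟩ : ∃ t, g v₀ = some t := by
    rw [← Option.ne_none_iff_exists']
    intro h0
    have h2 := hlt v₀ h0
    rw [← hMd] at h2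
    have h3 : ((outSet G g).ncard : ℝ) * M < lam G * M := mul_lt_mul_of_pos_right hbl hMpos
    linarith
  obtain ⟨hM2, hM3⟩ : M ≤ 2 ∧ (M - 1) * s ≤ 2 * c2 := by
    obtain ⟨h2, h3, h4⟩ := hcls t₀
    have h5 := (h4 v₀ ht₀).2
    rw [← hMd] at h5
    exact ar_max hs hh h1 hC ha0 hb0 hfew hl (hD1 t₀) (hD2 t₀) hc10 hc2 (by linarith) hM0 h5 h2
  have hs0 : 0 < s := by linarith
  have hc12 : c1 ≤ c2 := by
    have h2 : 0 ≤ 4 * C ^ 2 + 2 * C := by positivity
    linarith
  rw [← hsd, ← hhd]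
  refine ⟨?_, ?_, ?_, ?_⟩
  · intro v hv
    obtain ⟨t, ht⟩ := Option.ne_none_iff_exists'.1 hv
    obtain ⟨h2, h3, h4⟩ := hcls t
    have h5 := ar_low hs hh h1 hC ha0 hb0 hfew hl (hD2 t) (by positivity) hc10 (by linarith) hc3
      hM0 hM2 (hz0 v) (h4 v ht).1 h3
    have h6 : (z v - 1) * s ≤ 2 * c2 :=
      le_trans (mul_le_mul_of_nonneg_right (by linarith [hv₀ v]) hs0.le) hM3
    rw [le_div_iff₀ hs0, ← abs_of_pos hs0, ← abs_mul, abs_le]
    constructor
    · linarith
    · linarith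
  · intro v hv
    have h2 := hlt v hv
    have h3 : ((outSet G g).ncard : ℝ) * M ≤ C * h * 2 :=
      mul_le_mul (by linarith) hM2 hM0 (by positivity)
    have h4 : n / 2 * z v ≤ lam G * z v := mul_le_mul_of_nonneg_right hl (hz0 v)
    rw [le_div_iff₀ hn0]
    have h5 : 0 ≤ (2 * c2 + c3 + c4 + C + 1) * h := by positivity
    linarith
  · have h2 : (C + 1) * 1 ≤ (C + 1) * h := mul_le_mul_of_nonneg_left h1 (by linarith)
    have h5 : 0 ≤ (2 * c2 + c3 + c4 + 4 * C) * h := by positivity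
    rw [abs_le]
    constructor
    · linarith
    · linarith
  · intro t
    obtain ⟨h2, h3, h4⟩ := hcls t
    have h5 := ar_Y hs hh h1 hC ha0 hb0 hfew hl (hD1 t) (hD2 t) (Nat.cast_nonneg _) hc10
      (by linarith) hM0 hM2 h2 h3
    rw [← hc4] at h5
    refine h5.trans (mul_le_mul_of_nonneg_right ?_ hs0.le)
    linarith

end MP0c3a8f
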