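import Pool.Agent.Work.MP_0c3a8f_co.PB.Stmts6

/-!
# (SQN) graphs with large sum of the squares of the degrees are stars up to `O(1)` edges
-/

open Finset

namespace MP0c3a8f

namespace ItemSQN

open Classical

variable {V : Type} [Fintype V]

/-- The degree. -/
noncomputable def dg (M : SimpleGraph V) (v : V) : ℕ := {u | M.Adj v u}.ncard

/-- The number of edges. -/
noncomputable def ec (M : SimpleGraph V) : ℕ := M.edgeSet.ncard

lemma dg_deg (M : SimpleGraph V) (v : V) : dg M v = M.degree v := by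
  unfold dg
  rw [← SimpleGraph.card_neighborFinset_eq_degree, Set.ncard_eq_toFinset_card']
  congr 1

lemma ec_card (M : SimpleGraph V) : ec M = M.edgeFinset.card := by
  unfold ec
  rw [Set.ncard_eq_toFinset_card']
  rfl

lemma adj_le (M : SimpleGraph V) {u v : V} (h : M.Adj u v) :
    dg M u + dg M v ≤ ec M + 1 := by
  rw [dg_deg, dg_deg, ec_card]
  have h1 : M.incidenceFinset u ∩ M.incidenceFinset v = {s(u, v)} := by
    apply Finset.coe_injective
    have h0 := M.incidenceSet_inter_incidenceSet_of_adj h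
    ext e
    have h2 := Set.ext_iff.1 h0 e
    simpa [SimpleGraph.mem_incidenceFinset] using h2
  have h2 := Finset.card_union_add_card_inter (M.incidenceFinset u) (M.incidenceFinset v)
  rw [h1, Finset.card_singleton, SimpleGraph.card_incidenceFinset_eq_degree,
    SimpleGraph.card_incidenceFinset_eq_degree] at h2
  have h3 : (M.incidenceFinset u ∪ M.incidenceFinset v).card ≤ M.edgeFinset.card :=
    Finset.card_le_card (Finset.union_subset (M.incidenceFinset_subset u)
      (M.incidenceFinset_subset v))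
  omega

/-- Entries of the adjacency matrix. -/
noncomputable def A (M : SimpleGraph V) (v u : V) : ℕ := if M.Adj v u then 1 else 0

omit [Fintype V] in
lemma A_comm (M : SimpleGraph V) (v u : V) : A M v u = A M u v := by
  unfold A
  simp only [M.adj_comm]

lemma deg_eq (M : SimpleGraph V) (v : V) : dg M v = ∑ u, A M v u := by
  unfold A
  rw [dg_deg, ← SimpleGraph.card_neighborFinset_eq_degree, Finset.sum_boole]
  congr 1
  ext u
  simp

lemma sum_dg (M : SimpleGraph V) : ∑ v, dg M v = 2 * ec M := by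
  rw [ec_card, ← M.sum_degrees_eq_twice_card_edges]
  exact Finset.sum_congr rfl fun v _ => dg_deg M v

lemma sum_A (M : SimpleGraph V) : ∑ v, ∑ u, A M v u = 2 * ec M := by
  rw [← sum_dg]
  exact Finset.sum_congr rfl fun v _ => (deg_eq M v).symm

lemma sum_sq (M : SimpleGraph V) :
    ∑ v, dg M v ^ 2 ≤ ec M ^ 2 + ec M := by
  have h1 : ∑ v, dg M v ^ 2 = ∑ v, ∑ u, A M v u * dg M v := by
    refine Finset.sum_congr rfl fun v _ => ?_
    rw [← Finset.sum_mul, ← deg_eq, sq]
  have h2 : ∑ v, dg M v ^ 2 = ∑ v, ∑ u, A M v u * dg M u := by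
    rw [h1, Finset.sum_comm]
    refine Finset.sum_congr rfl fun v _ => Finset.sum_congr rfl fun u _ => ?_
    rw [A_comm]
  have h3 : 2 * ∑ v, dg M v ^ 2 ≤ (2 * ec M) * (ec M + 1) := by
    rw [← sum_A, Finset.sum_mul, two_mul]
    nth_rewrite 1 [h1]
    rw [h2, ← Finset.sum_add_distrib]
    refine Finset.sum_le_sum fun v _ => ?_
    rw [← Finset.sum_add_distrib, Finset.sum_mul]
    refine Finset.sum_le_sum fun u _ => ?_
    rw [← mul_add]
    unfold A
    by_cases h : M.Adj v u
    · rw [if_pos h, one_mul, one_mul]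
      exact adj_le M h
    · rw [if_neg h, zero_mul, zero_mul]
  nlinarith

lemma split (M : SimpleGraph V) {v w : V} (h : v ≠ w) :
    dg M v = dg (M.deleteIncidenceSet w) v + A M v w := by
  rw [deg_eq M v, deg_eq (M.deleteIncidenceSet w) v, ← Finset.add_sum_erase _ _ (mem_univ w),
    ← Finset.add_sum_erase _ (fun u => A (M.deleteIncidenceSet w) v u) (mem_univ w)]
  have h1 : A (M.deleteIncidenceSet w) v w = 0 := by
    unfold A
    rw [if_neg]
    rw [SimpleGraph.deleteIncidenceSet_adj]
    exact fun h2 => h2.2.2 rfl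
  have h2 : ∑ u ∈ univ.erase w, A M v u =
      ∑ u ∈ univ.erase w, A (M.deleteIncidenceSet w) v u := by
    refine Finset.sum_congr rfl fun u hu => ?_
    unfold A
    have h3 : (M.deleteIncidenceSet w).Adj v u ↔ M.Adj v u := by
      rw [SimpleGraph.deleteIncidenceSet_adj]
      exact ⟨fun h4 => h4.1, fun h4 => ⟨h4, h, (Finset.mem_erase.1 hu).1⟩⟩
    simp only [h3]
  rw [h1, h2]
  ring

lemma key (M : SimpleGraph V) (w : V) :
    ∑ v, dg M v ^ 2 ≤ dg M w ^ 2 + dg M w +
      ec (M.deleteIncidenceSet w) ^ 2 +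
        5 * ec (M.deleteIncidenceSet w) := by
  have h1 := sum_sq (M.deleteIncidenceSet w)
  have h2 := sum_dg (M.deleteIncidenceSet w)
  have h3 : dg M w = ∑ v, A M v w := by
    rw [deg_eq]
    exact Finset.sum_congr rfl fun v _ => A_comm M w v
  have h4 : ∑ v ∈ univ.erase w, dg M v ^ 2 ≤
      ∑ v, (dg (M.deleteIncidenceSet w) v ^ 2 +
        2 * dg (M.deleteIncidenceSet w) v + A M v w) := by
    refine le_trans (Finset.sum_le_sum fun v hv => ?_)
      (Finset.sum_le_sum_of_subset (Finset.erase_subset w univ))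
    rw [split M (Finset.mem_erase.1 hv).1]
    have h5 : A M v w = 0 ∨ A M v w = 1 := by
      unfold A
      by_cases h : M.Adj v w
      · right; rw [if_pos h]
      · left; rw [if_neg h]
    rcases h5 with h5 | h5 <;> rw [h5] <;> nlinarith
  rw [Finset.sum_add_distrib, Finset.sum_add_distrib, ← Finset.mul_sum, ← h3, h2] at h4
  rw [← Finset.add_sum_erase _ _ (mem_univ w)]
  linarith

omit [Fintype V] in
lemma ncard_del (M : SimpleGraph V) (w : V) :
    {e | e ∈ M.edgeSet ∧ w ∉ e}.ncard = ec (M.deleteIncidenceSet w) := by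
  unfold ec
  congr 1
  ext e
  induction e with
  | _ x y =>
    simp only [Set.mem_ofPred_eq, SimpleGraph.mem_edgeSet, SimpleGraph.deleteIncidenceSet_adj,
      Sym2.mem_iff, not_or]
    constructor
    · rintro ⟨h1, h2, h3⟩
      exact ⟨h1, Ne.symm h2, Ne.symm h3⟩
    · rintro ⟨h1, h2, h3⟩
      exact ⟨h1, Ne.symm h2, Ne.symm h3⟩

lemma card_split (M : SimpleGraph V) (w : V) :
    ec M = dg M w + ec (M.deleteIncidenceSet w) := by
  have h1 := sum_dg M
  have h2 := sum_dg (M.deleteIncidenceSet w)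
  have h3 : dg M w = ∑ v, A M v w := by
    rw [deg_eq]
    exact Finset.sum_congr rfl fun v _ => A_comm M w v
  have h0 : dg (M.deleteIncidenceSet w) w = 0 := by
    rw [deg_eq]
    refine Finset.sum_eq_zero fun u _ => ?_
    unfold A
    rw [if_neg]
    rw [SimpleGraph.deleteIncidenceSet_adj]
    exact fun h2 => h2.2.1 rfl
  have hw0 : A M w w = 0 := by
    unfold A
    rw [if_neg M.irrefl]
  rw [← Finset.add_sum_erase _ _ (mem_univ w)] at h1 h2 h3
  have h4 : ∑ v ∈ univ.erase w, dg M v =
      ∑ v ∈ univ.erase w, dg (M.deleteIncidenceSet w) v + ∑ v ∈ univ.erase w, A M v w := by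
    rw [← Finset.sum_add_distrib]
    exact Finset.sum_congr rfl fun v hv => split M (Finset.mem_erase.1 hv).1
  omega

end ItemSQN

open ItemSQN in
theorem prfSQN : SQN_statement := by
  classical
  intro C hC
  refine ⟨⌈8 * C + 16⌉₊, fun V _ _ M hM => ?_⟩
  obtain ⟨w, -, hw⟩ := Finset.exists_max_image (Finset.univ : Finset V) (fun v => dg M v)
    Finset.univ_nonempty
  refine ⟨w, ?_⟩
  change (ec M : ℝ) ^ 2 - C * (ec M + 1) ≤ ∑ v, (dg M v : ℝ) ^ 2 at hM
  rw [ncard_del]
  have hk : (∑ v, (dg M v : ℝ) ^ 2) ≤ (dg M w : ℝ) ^ 2 + dg M w +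
      (ec (M.deleteIncidenceSet w) : ℝ) ^ 2 +
        5 * (ec (M.deleteIncidenceSet w) : ℝ) := by
    exact_mod_cast key M w
  have hs : (ec M : ℝ) =
      dg M w + (ec (M.deleteIncidenceSet w) : ℝ) := by
    exact_mod_cast card_split M w
  have hmax : (∑ v, (dg M v : ℝ) ^ 2) ≤ 2 * (ec M : ℝ) * dg M w := by
    have h1 : ∑ v, dg M v ^ 2 ≤ (2 * ec M) * dg M w := by
      rw [← sum_dg, Finset.sum_mul]
      refine Finset.sum_le_sum fun v _ => ?_
      rw [sq]
      exact Nat.mul_le_mul_left _ (hw v (Finset.mem_univ v))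
    exact_mod_cast h1
  have hceil : 8 * C + 16 ≤ (⌈8 * C + 16⌉₊ : ℝ) := Nat.le_ceil _
  have hgoal : (ec (M.deleteIncidenceSet w) : ℝ) ≤ 8 * C + 16 := by
    generalize (ec (M.deleteIncidenceSet w) : ℝ) = e at hk hs
    generalize (ec M : ℝ) = a at hM hs hmax
    generalize (∑ v, (dg M v : ℝ) ^ 2) = S at hM hk hmax
    have hD0 : (0 : ℝ) ≤ (dg M w : ℝ) := Nat.cast_nonneg _
    generalize (dg M w : ℝ) = D at hk hs hmax hD0
    by_contra hlt
    rw [not_le] at hlt
    have ha : 8 * C + 16 < a := by linarith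
    have ha0 : 0 < a := by linarith
    have hCa : C * (a + 1) ≤ 2 * a * C := by nlinarith
    have h1 : a ^ 2 - C * (a + 1) ≤ 2 * a * D := hM.trans hmax
    have h2 : a / 2 - C ≤ D := by
      by_contra h
      rw [not_le] at h
      nlinarith
    have h3 : a / 4 ≤ D - 2 := by linarith
    have h4 : 2 * e * (D - 2) ≤ a + C * (a + 1) := by
      have h5 := hM.trans hk
      subst hs
      nlinarith
    have h6 : 2 * e * (a / 4) ≤ 2 * e * (D - 2) :=
      mul_le_mul_of_nonneg_left h3 (by linarith)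
    have h7 : a * (e / 2) ≤ a * (1 + 2 * C) := by nlinarith
    have h8 := le_of_mul_le_mul_left h7 ha0
    linarith
  have := hgoal.trans hceil
  exact_mod_cast this

end MP0c3a8f
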