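import Pool.Agent.Work.MP_0c3a8f_co.PB.Stmts6
import Pool.Agent.Work.MP_0c3a8f_co.PB.ItemSLB

/-!
# MP_0c3a8f_co, phase B: item SWS
-/

open Finset

namespace MP0c3a8f

namespace ItemSWS

open ItemSLB (ci ki mi ci_none ci_some ci_nonneg ci_le mi_nonneg adj_comm adj_self adj_core dc dl
  e1 e2 dc_nonneg dl_nonneg sum_mi light_eq)

/-! ### linear algebra -/

section alg

variable {V : Type} [Fintype V]

/-- the quadratic form -/
def Q (M : V → V → ℝ) (x : V → ℝ) : ℝ := ∑ i, ∑ j, M i j * (x i * x j)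

/-- the product with a vector -/
def mv (M : V → V → ℝ) (x : V → ℝ) (i : V) : ℝ := ∑ j, M i j * x j

theorem Q_eq (M : V → V → ℝ) (x : V → ℝ) : Q M x = ∑ i, x i * mv M x i := by
  unfold Q mv
  refine sum_congr rfl fun i _ => ?_
  rw [mul_sum]
  refine sum_congr rfl fun j _ => ?_
  ring

theorem Q_add {M : V → V → ℝ} (hM : ∀ i j, M i j = M j i) (x y : V → ℝ) :
    Q M (fun v => x v + y v) = Q M x + 2 * ∑ i, y i * mv M x i + Q M y := by
  have h1 : ∑ i, ∑ j, M i j * (x i * y j) = ∑ i, y i * mv M x i := by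
    rw [sum_comm]
    unfold mv
    refine sum_congr rfl fun i _ => ?_
    rw [mul_sum]
    refine sum_congr rfl fun j _ => ?_
    rw [hM j i]
    ring
  have h2 : ∑ i, ∑ j, M i j * (y i * x j) = ∑ i, y i * mv M x i := by
    unfold mv
    refine sum_congr rfl fun i _ => ?_
    rw [mul_sum]
    refine sum_congr rfl fun j _ => ?_
    ring
  have h3 : Q M (fun v => x v + y v) = Q M x + ∑ i, ∑ j, M i j * (x i * y j) +
      ∑ i, ∑ j, M i j * (y i * x j) + Q M y := by
    unfold Q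
    rw [← sum_add_distrib, ← sum_add_distrib, ← sum_add_distrib]
    refine sum_congr rfl fun i _ => ?_
    rw [← sum_add_distrib, ← sum_add_distrib, ← sum_add_distrib]
    refine sum_congr rfl fun j _ => ?_
    ring
  rw [h3, h1, h2]
  ring

theorem Q_le {M : V → V → ℝ} {a R : ℝ} {x : V → ℝ} (hM0 : ∀ i j, 0 ≤ M i j)
    (hM : ∑ i, ∑ j, M i j = 2 * a) (hx : ∀ i, |x i| ≤ R) : |Q M x| ≤ 2 * a * R ^ 2 := by
  unfold Q
  refine (abs_sum_le_sum_abs _ _).trans ?_
  have h1 : ∀ i, |∑ j, M i j * (x i * x j)| ≤ ∑ j, M i j * R ^ 2 := by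
    intro i
    refine (abs_sum_le_sum_abs _ _).trans (sum_le_sum fun j _ => ?_)
    rw [abs_mul, abs_of_nonneg (hM0 i j), abs_mul, sq]
    exact mul_le_mul_of_nonneg_left
      (mul_le_mul (hx i) (hx j) (abs_nonneg _) ((abs_nonneg _).trans (hx i))) (hM0 i j)
  refine (sum_le_sum fun i _ => h1 i).trans ?_
  rw [← hM, sum_mul]
  refine le_of_eq (sum_congr rfl fun i _ => ?_)
  rw [sum_mul]

theorem Q_le_one {M : V → V → ℝ} {x : V → ℝ} (hM0 : ∀ i j, 0 ≤ M i j) (hM1 : ∀ i j, M i j ≤ 1) :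
    |Q M x| ≤ (∑ i, |x i|) ^ 2 := by
  unfold Q
  refine (abs_sum_le_sum_abs _ _).trans ?_
  rw [sq, sum_mul]
  refine sum_le_sum fun i _ => ?_
  refine (abs_sum_le_sum_abs _ _).trans ?_
  rw [mul_sum]
  refine sum_le_sum fun j _ => ?_
  rw [abs_mul, abs_of_nonneg (hM0 i j), abs_mul]
  exact mul_le_of_le_one_left (mul_nonneg (abs_nonneg _) (abs_nonneg _)) (hM1 i j)

/-- the exact identity of the second order -/
theorem core {A' M M' : V → V → ℝ} {z y mu mu' La rho eta : V → ℝ} {l : ℝ} (hl : 0 < l)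
    (hA : ∀ i j, A' i j = A' j i) (hM : ∀ i j, M i j = M j i) (hM' : ∀ i j, M' i j = M' j i)
    (hmu : ∀ i, mv M z i = mu i) (hmu' : ∀ i, mv M' z i = mu' i)
    (heig : ∀ i, mv A' z i = l * z i + mu i - mu' i)
    (hrho : ∀ i, l * rho i = mu i - La i) (heta : ∀ i, l * eta i = mu' i - mu i)
    (hQ : Q M (fun v => z v + rho v) = Q M y) (hQ' : Q M' (fun v => z v + rho v) = Q M' y)
    (hF : Q A' (fun v => z v + -eta v) ≤ l * ∑ v, (z v + -eta v) ^ 2)
    (hy : Q M' y ≤ Q M y) :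
    ∑ v, mu' v ^ 2 ≤ ∑ v, mu v ^ 2 + 2 * ∑ v, La v * (mu' v - mu v) +
      l * (Q M rho - Q M' rho - Q A' eta) := by
  have e1 := Q_add hM z rho
  have e2 := Q_add hM' z rho
  have e3 := Q_add hA z (fun v => -eta v)
  have e4 : Q A' (fun v => -eta v) = Q A' eta := by
    unfold Q
    exact sum_congr rfl fun i _ => sum_congr rfl fun j _ => by ring
  have e5 := Q_eq A' z
  have e6 := Q_eq M z
  have e7 := Q_eq M' z
  rw [e3, e4, e5] at hF
  rw [hQ, e6] at e1
  rw [hQ', e7] at e2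
  simp only [hmu, hmu', heig] at hF e1 e2
  -- everything as sums
  have s1 : ∑ i, z i * (l * z i + mu i - mu' i) =
      l * ∑ i, z i ^ 2 + ∑ i, z i * mu i - ∑ i, z i * mu' i := by
    rw [mul_sum, ← sum_add_distrib, ← sum_sub_distrib]
    exact sum_congr rfl fun i _ => by ring
  have s2 : ∑ i, -eta i * (l * z i + mu i - mu' i) =
      -(l * ∑ i, eta i * z i) + l * ∑ i, eta i ^ 2 := by
    rw [mul_sum, mul_sum, ← sum_neg_distrib, ← sum_add_distrib]
    refine sum_congr rfl fun i _ => ?_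
    linear_combination -eta i * heta i
  have s3 : ∑ v, (z v + -eta v) ^ 2 = ∑ v, z v ^ 2 - 2 * ∑ v, eta v * z v + ∑ v, eta v ^ 2 := by
    rw [mul_sum, ← sum_sub_distrib, ← sum_add_distrib]
    exact sum_congr rfl fun i _ => by ring
  rw [s1, s2, s3] at hF
  have s4 : l * (2 * (∑ i, rho i * mu' i - ∑ i, rho i * mu i) + l * ∑ i, eta i ^ 2) =
      ∑ v, mu' v ^ 2 - ∑ v, mu v ^ 2 - 2 * ∑ v, La v * (mu' v - mu v) := by
    rw [← sum_sub_distrib, mul_sum, mul_sum, mul_sum, ← sum_sub_distrib, ← sum_sub_distrib,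
      ← sum_add_distrib, mul_sum]
    refine sum_congr rfl fun i _ => ?_
    have h1 := hrho i
    have h2 := heta i
    linear_combination 2 * (mu' i - mu i) * h1 + (l * eta i + (mu' i - mu i)) * h2
  have s5 : 2 * (∑ i, rho i * mu' i - ∑ i, rho i * mu i) + l * ∑ i, eta i ^ 2 ≤
      Q M rho - Q M' rho - Q A' eta := by
    linarith
  have s6 := mul_le_mul_of_nonneg_left s5 hl.le
  linarith

end alg

/-! ### graphs -/

section graphs

variable {V : Type} {r : ℕ}

theorem mi_symm (G : SimpleGraph V) (g : V → Option (Fin r)) (u v : V) :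
    mi G g u v = mi G g v u := by
  unfold mi
  have : COMPU.Ms G g v u ↔ COMPU.Ms G g u v :=
    ⟨fun h => ⟨h.2.1, h.1, h.2.2.1.symm, fun h' => h.2.2.2 h'.symm⟩,
      fun h => ⟨h.2.1, h.1, h.2.2.1.symm, fun h' => h.2.2.2 h'.symm⟩⟩
  by_cases h : COMPU.Ms G g u v
  · rw [if_pos h, if_pos (this.2 h)]
  · rw [if_neg h, if_neg (fun h' => h (this.1 h'))]

theorem mi_none {G : SimpleGraph V} {g : V → Option (Fin r)} {u : V} (hu : g u = none) (v : V) :
    mi G g u v = 0 := if_neg fun h => h.1 hu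

theorem mi_none' {G : SimpleGraph V} {g : V → Option (Fin r)} {v : V} (hv : g v = none) (u : V) :
    mi G g u v = 0 := if_neg fun h => h.2.1 hv

/-- change of the adjacency matrix -/
theorem adj_change {G H : SimpleGraph V} {g : V → Option (Fin r)} (hG : Indep G g)
    (hH : Indep H g) (hl : ∀ u v, g u = none → (H.Adj u v ↔ G.Adj u v)) (u v : V) :
    adj H u v = adj G u v + mi G g u v - mi H g u v := by
  by_cases hu : g u = none
  · rw [mi_none hu, mi_none hu]
    have h := hl u v hu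
    unfold adj
    by_cases hA : G.Adj u v
    · rw [if_pos hA, if_pos (h.2 hA)]; ring
    · rw [if_neg hA, if_neg fun h' => hA (h.1 h')]; ring
  · by_cases hv : g v = none
    · rw [mi_none' hv, mi_none' hv, adj_comm H, adj_comm G]
      have h := hl v u hv
      unfold adj
      by_cases hA : G.Adj v u
      · rw [if_pos hA, if_pos (h.2 hA)]; ring
      · rw [if_neg hA, if_neg fun h' => hA (h.1 h')]; ring
    · obtain ⟨t, ht⟩ := Option.ne_none_iff_exists'.1 hu
      have h1 := adj_core hG ht v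
      have h2 := adj_core hH ht v
      rw [ci_some hv, mul_one] at h1 h2
      linarith

theorem mdeg_eq [Fintype V] (G : SimpleGraph V) (g : V → Option (Fin r)) (u : V) :
    (mdeg G g u : ℝ) = ∑ v, mi G g u v := by
  classical
  unfold mdeg mi
  rw [Finset.sum_boole, Set.ncard_eq_toFinset_card']
  congr 2
  ext v
  simp only [Set.mem_toFinset, Set.mem_ofPred_eq, mem_filter, mem_univ, true_and]
  exact ⟨fun h => ⟨h.1, h.2.1, h.2.2.1.symm, h.2.2.2⟩, fun h => ⟨h.1, h.2.1, h.2.2.1.symm, h.2.2.2⟩⟩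

theorem mdeg_le [Fintype V] (G : SimpleGraph V) (g : V → Option (Fin r)) (u : V) :
    mdeg G g u ≤ (missSet G g).ncard := by
  unfold mdeg
  apply Set.ncard_le_ncard_of_injOn (fun v => s(u, v))
  · intro v hv
    exact ⟨u, v, rfl, hv.1, hv.2.1, hv.2.2.1.symm, hv.2.2.2⟩
  · intro a _ b _ hab
    simpa [Sym2.eq_iff] using (Sym2.congr_right.mp hab)

theorem light_out (G : SimpleGraph V) (g : V → Option (Fin r)) :
    lightSet G g ∅ = outSet G g := by
  unfold lightSet outSet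
  ext e
  simp

/-- weight of the light neighbours -/
noncomputable def La [Fintype V] (G : SimpleGraph V) (g : V → Option (Fin r)) (z : V → ℝ)
    (u : V) : ℝ := ci g u * ∑ v, adj G u v * ((1 - ci g v) * z v)

theorem La_nonneg [Fintype V] (G : SimpleGraph V) (g : V → Option (Fin r)) {z : V → ℝ}
    (hz : ∀ v, 0 ≤ z v) (u : V) : 0 ≤ La G g z u :=
  mul_nonneg (ci_nonneg g u) (sum_nonneg fun v _ => mul_nonneg (ItemKW3.adj_nonneg G u v)
    (mul_nonneg (ci_le g v) (hz v)))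

theorem La_sum [Fintype V] (G : SimpleGraph V) (g : V → Option (Fin r)) {z : V → ℝ} {c : ℝ}
    (hc : 0 ≤ c) (hz : ∀ v, g v = none → z v ≤ c) :
    ∑ u, La G g z u ≤ c * (outSet G g).ncard := by
  have h1 : ∑ u, La G g z u ≤ c * e1 G g := by
    have h2 : ∀ u, La G g z u ≤ ∑ v, c * ((1 - ci g v) * (adj G v u * ci g u)) := by
      intro u
      unfold La
      rw [mul_sum]
      refine sum_le_sum fun v _ => ?_
      rw [adj_comm G v u]
      have h3 : (1 - ci g v) * z v ≤ (1 - ci g v) * c := by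
        by_cases hv : g v = none
        · exact mul_le_mul_of_nonneg_left (hz v hv) (ci_le g v)
        · rw [ci_some hv]; linarith
      have h4 := mul_le_mul_of_nonneg_left h3
        (mul_nonneg (ci_nonneg g u) (ItemKW3.adj_nonneg G u v))
      linarith
    refine (sum_le_sum fun u _ => h2 u).trans (le_of_eq ?_)
    rw [sum_comm]
    unfold e1 dc
    rw [mul_sum]
    refine sum_congr rfl fun v _ => ?_
    rw [mul_sum, mul_sum]
  have h2 := light_eq G g
  rw [light_out] at h2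
  have h3 : 0 ≤ e2 G g := sum_nonneg fun v _ => mul_nonneg (ci_le g v) (dl_nonneg G g v)
  refine h1.trans (mul_le_mul_of_nonneg_left ?_ hc)
  linarith

theorem sum_core [Fintype V] {G : SimpleGraph V} {z : V → ℝ} {g : V → Option (Fin r)} {n : ℕ}
    (hz : Per G z g n) : ∑ v, ci g v * z v = n := by
  classical
  rw [← hz.sum]
  unfold cw
  rw [sum_comm]
  refine sum_congr rfl fun v _ => ?_
  rcases h : g v with _ | s
  · rw [ci_none h]; simp
  · rw [ci_some (by rw [h]; simp)]; simp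

theorem sum_class [Fintype V] (z : V → ℝ) (g : V → Option (Fin r)) (t : Fin r) :
    ∑ v, ki g t v * z v = cw z g (some t) := by
  unfold cw ki
  refine sum_congr rfl fun v _ => ?_
  by_cases h : g v = some t
  · rw [if_pos h, if_pos h, one_mul]
  · rw [if_neg h, if_neg h, zero_mul]

/-- the eigenvalue equation at a core vertex -/
theorem eig_core [Fintype V] {G : SimpleGraph V} {z : V → ℝ} {g : V → Option (Fin r)} {n : ℕ}
    (hI : Indep G g) (hz : Per G z g n) {u : V} (hu : g u ≠ none) :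
    (n - cw z g (g u)) - lam G * z u = mv (mi G g) z u - La G g z u := by
  obtain ⟨t, ht⟩ := Option.ne_none_iff_exists'.1 hu
  have h1 : lam G * z u = ∑ v, adj G u v * ci g v * z v +
      ∑ v, adj G u v * ((1 - ci g v) * z v) := by
    rw [← hz.eig u, ← sum_add_distrib]
    exact sum_congr rfl fun v _ => by ring
  have h2 : ∑ v, adj G u v * ci g v * z v = n - cw z g (g u) - mv (mi G g) z u := by
    rw [← sum_core hz, ht, ← sum_class z g t]
    unfold mv
    rw [← sum_sub_distrib, ← sum_sub_distrib]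
    refine sum_congr rfl fun v _ => ?_
    rw [adj_core hI ht v]
    ring
  have h3 : La G g z u = ∑ v, adj G u v * ((1 - ci g v) * z v) := by
    unfold La
    rw [ci_some hu, one_mul]
  rw [h1, h2, h3]
  ring

theorem miss_eq [Fintype V] (G : SimpleGraph V) (g : V → Option (Fin r)) (Y : V → ℝ) {l : ℝ}
    (hl : 0 < l) : miss G Y g = l ^ 2 * Q (mi G g) (fun v => ci g v * (Y v / l)) := by
  unfold miss Q
  rw [mul_sum]
  refine sum_congr rfl fun i _ => ?_
  rw [mul_sum]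
  refine sum_congr rfl fun j _ => ?_
  by_cases h : COMPU.Ms G g i j
  · have h1 : mi G g i j = 1 := if_pos h
    rw [if_pos (show g i ≠ none ∧ g j ≠ none ∧ g i ≠ g j ∧ ¬G.Adj i j from h), h1]
    simp only [ci_some h.1, ci_some h.2.1]
    field_simp
  · have h1 : mi G g i j = 0 := if_neg h
    rw [if_neg (show ¬ (g i ≠ none ∧ g j ≠ none ∧ g i ≠ g j ∧ ¬G.Adj i j) from h), h1]
    ring

theorem Q_core [Fintype V] (G : SimpleGraph V) (g : V → Option (Fin r)) {x y : V → ℝ}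
    (h : ∀ v, g v ≠ none → x v = y v) : Q (mi G g) x = Q (mi G g) y := by
  unfold Q
  refine sum_congr rfl fun i _ => sum_congr rfl fun j _ => ?_
  by_cases hm : COMPU.Ms G g i j
  · rw [h i hm.1, h j hm.2.1]
  · have h1 : mi G g i j = 0 := if_neg hm
    rw [h1, zero_mul, zero_mul]

/-- bounds for the product with the matrix of the missing pairs -/
theorem mv_bounds [Fintype V] (G : SimpleGraph V) (g : V → Option (Fin r)) {z : V → ℝ} {k : ℝ}
    (hz : ∀ v, g v ≠ none → |z v - 1| ≤ k) (u : V) :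
    (1 - k) * mdeg G g u ≤ mv (mi G g) z u ∧ mv (mi G g) z u ≤ (1 + k) * mdeg G g u := by
  rw [mdeg_eq]
  unfold mv
  rw [mul_sum, mul_sum]
  constructor
  · refine sum_le_sum fun v _ => ?_
    by_cases hm : COMPU.Ms G g u v
    · have h1 := (abs_le.1 (hz v hm.2.1)).1
      have h2 := mul_le_mul_of_nonneg_left (show 1 - k ≤ z v by linarith) (mi_nonneg G g u v)
      linarith
    · have h1 : mi G g u v = 0 := if_neg hm
      rw [h1]; linarith
  · refine sum_le_sum fun v _ => ?_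
    by_cases hm : COMPU.Ms G g u v
    · have h1 := (abs_le.1 (hz v hm.2.1)).2
      have h2 := mul_le_mul_of_nonneg_left (show z v ≤ 1 + k by linarith) (mi_nonneg G g u v)
      linarith
    · have h1 : mi G g u v = 0 := if_neg hm
      rw [h1]; linarith

theorem mdeg_sum [Fintype V] (G : SimpleGraph V) (g : V → Option (Fin r)) :
    ∑ u, (mdeg G g u : ℝ) = 2 * (missSet G g).ncard := by
  rw [← sum_mi]
  exact sum_congr rfl fun u _ => mdeg_eq G g u

theorem mdeg_sq [Fintype V] (G : SimpleGraph V) (g : V → Option (Fin r)) :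
    ∑ u, (mdeg G g u : ℝ) ^ 2 ≤ 2 * ((missSet G g).ncard : ℝ) ^ 2 := by
  have h1 : ∑ u, (mdeg G g u : ℝ) ^ 2 ≤ ∑ u, ((missSet G g).ncard : ℝ) * mdeg G g u := by
    refine sum_le_sum fun u _ => ?_
    rw [sq]
    exact mul_le_mul_of_nonneg_right (by exact_mod_cast mdeg_le G g u) (Nat.cast_nonneg _)
  rw [← mul_sum, mdeg_sum] at h1
  linarith

end graphs

/-! ### the estimates -/

theorem real1 {l a a' s S S' L q q' e : ℝ} (hl : 0 < l) (ha : 0 ≤ a) (ha' : 0 ≤ a')
    (hs : s = a + a' + 1) (hsl : s ^ 2 ≤ l) (h : S' ≤ S + 2 * L + l * (q - q' - e))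
    (hL : L ≤ 2 * a') (hq : |q| ≤ 2 * a * ((2 * a + 1) / l) ^ 2)
    (hq' : |q'| ≤ 2 * a' * ((2 * a + 1) / l) ^ 2) (he : |e| ≤ ((4 * a + 4 * a') / l) ^ 2) :
    S' ≤ S + 28 * s := by
  have hq1 := (abs_le.1 hq).2
  have hq2 := (abs_le.1 hq').1
  have he1 := (abs_le.1 he).1
  have h1 : q - q' - e ≤ (24 * s ^ 3) / l ^ 2 := by
    have h2 : q - q' - e ≤ ((2 * a + 2 * a') * (2 * a + 1) ^ 2 + (4 * a + 4 * a') ^ 2) / l ^ 2 := by
      have e1 : ((2 * a + 2 * a') * (2 * a + 1) ^ 2 + (4 * a + 4 * a') ^ 2) / l ^ 2 =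
          2 * a * ((2 * a + 1) / l) ^ 2 + 2 * a' * ((2 * a + 1) / l) ^ 2 +
            ((4 * a + 4 * a') / l) ^ 2 := by
        field_simp
      rw [e1]
      linarith
    refine h2.trans (div_le_div_of_nonneg_right ?_ (by positivity))
    have hs1 : 1 ≤ s := by linarith
    have h3 : (2 * a + 1) ^ 2 ≤ (2 * s) ^ 2 := pow_le_pow_left₀ (by linarith) (by linarith) 2
    have h4 : (4 * a + 4 * a') ^ 2 ≤ (4 * s) ^ 2 := pow_le_pow_left₀ (by linarith) (by linarith) 2
    have h5 : (2 * a + 2 * a') * (2 * a + 1) ^ 2 ≤ (2 * s) * (2 * s) ^ 2 :=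
      mul_le_mul (by linarith) h3 (by positivity) (by linarith)
    have h6 : s ^ 2 ≤ s ^ 3 := pow_le_pow_right₀ hs1 (by norm_num)
    linarith
  have h2 : l * (q - q' - e) ≤ 24 * s := by
    have h3 := mul_le_mul_of_nonneg_left h1 hl.le
    have h4 : l * ((24 * s ^ 3) / l ^ 2) = 24 * s * (s ^ 2 / l) := by
      field_simp
    have h5 : s ^ 2 / l ≤ 1 := (div_le_one hl).2 hsl
    have h6 : 24 * s * (s ^ 2 / l) ≤ 24 * s * 1 :=
      mul_le_mul_of_nonneg_left h5 (by linarith)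
    linarith
  linarith

theorem real2 {C C1 h k a : ℝ} (hC : 0 ≤ C) (hC1 : 0 ≤ C1) (hh : 1 ≤ h) (hk : k = C1 / h ^ 2)
    (ha0 : 0 ≤ a) (ha : a ≤ C * h) : k * a ^ 2 ≤ C * C1 * a := by
  have h0 : 0 < h := by linarith
  have h1 : k * a ^ 2 ≤ k * (a * (C * h)) := by
    rw [sq]
    exact mul_le_mul_of_nonneg_left (mul_le_mul_of_nonneg_left ha ha0) (by rw [hk]; positivity)
  have h2 : k * (a * (C * h)) = C * C1 * a / h := by
    rw [hk]; field_simp
  have h3 : C * C1 * a / h ≤ C * C1 * a := div_le_self (by positivity) hh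
  linarith

theorem real3 {k D D' S S' s a a' K : ℝ} (hk0 : 0 ≤ k) (hk1 : k ≤ 1) (hD : 0 ≤ D) (hD' : 0 ≤ D')
    (h : S' ≤ S + 28 * s) (h1 : (1 - k) ^ 2 * D' ≤ S') (h2 : S ≤ (1 + k) ^ 2 * D)
    (hDa : D ≤ 2 * a ^ 2) (hDa' : D' ≤ 2 * a' ^ 2) (hka : k * a ^ 2 ≤ K * a)
    (hka' : k * a' ^ 2 ≤ K * a') (hK : 0 ≤ K) (ha : 0 ≤ a) (ha' : 0 ≤ a')
    (hs : s = a + a' + 1) : D' ≤ D + (6 * K + 28) * (a + a' + 1) := by
  have e1 : D' ≤ (1 - k) ^ 2 * D' + 2 * (k * D') := by linarith [mul_nonneg (sq_nonneg k) hD']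
  have e2 : (1 + k) ^ 2 * D ≤ D + 3 * (k * D) := by
    have : k ^ 2 * D ≤ k * D :=
      mul_le_mul_of_nonneg_right (pow_le_of_le_one hk0 hk1 two_ne_zero) hD
    linarith
  have e3 := mul_le_mul_of_nonneg_left hDa hk0
  have e4 := mul_le_mul_of_nonneg_left hDa' hk0
  have e5 : 0 ≤ K * a' := mul_nonneg hK ha'
  rw [hs] at h
  linarith

theorem real4 {r : ℕ} {C C1 b h n l T a a' : ℝ} (hr : 3 ≤ r) (hC : 0 ≤ C) (hC1 : 0 ≤ C1)
    (hb : 0 ≤ b) (hT : T = 1 + C1 + b * C1 + 6 * C1 + 2 * (2 * C + 1) ^ 2) (hTh : T ≤ h)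
    (hn : h ^ 4 = n) (hl : |l - qq r * n| ≤ C1 * h) (ha : 0 ≤ a) (ha' : 0 ≤ a')
    (hac : a ≤ C * h) (hac' : a' ≤ C * h) :
    0 < l ∧ C1 / h ^ 2 ≤ 1 ∧ C1 * h / n * b ≤ 1 ∧ (a + a' + 1) ^ 2 ≤ l := by
  have hbC : 0 ≤ b * C1 := mul_nonneg hb hC1
  have hT1 : 1 ≤ T := by rw [hT]; linarith [sq_nonneg (2 * C + 1)]
  have hh1 : 1 ≤ h := hT1.trans hTh
  have hh0 : 0 < h := by linarith
  have h2 : h ≤ h ^ 2 := le_self_pow₀ hh1 two_ne_zero
  have h4 : h ^ 2 ≤ h ^ 4 := pow_le_pow_right₀ hh1 (by norm_num)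
  have hn0 : 0 < n := by rw [← hn]; positivity
  have hC1h : C1 ≤ h := by
    refine le_trans ?_ hTh
    rw [hT]; linarith [sq_nonneg (2 * C + 1)]
  have h6C : 6 * C1 ≤ h := by
    refine le_trans ?_ hTh
    rw [hT]; linarith [sq_nonneg (2 * C + 1)]
  have hbCh : b * C1 ≤ h := by
    refine le_trans ?_ hTh
    rw [hT]; linarith [sq_nonneg (2 * C + 1)]
  have hCh : 2 * (2 * C + 1) ^ 2 ≤ h := by
    refine le_trans ?_ hTh
    rw [hT]; linarith
  have hq : 2 / 3 ≤ qq r := by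
    unfold qq
    have h3 : (3 : ℝ) ≤ r := by exact_mod_cast hr
    have : 1 / (r : ℝ) ≤ 1 / 3 := one_div_le_one_div_of_le (by norm_num) h3
    linarith
  have hln : n / 2 ≤ l := by
    have h5 := (abs_le.1 hl).1
    have h6 : 2 / 3 * n ≤ qq r * n := mul_le_mul_of_nonneg_right hq hn0.le
    have h7 : C1 * h ≤ n / 6 := by
      rw [← hn]
      have h8 : 6 * C1 * h ≤ h * h := mul_le_mul_of_nonneg_right h6C hh0.le
      linarith
    linarith
  refine ⟨by linarith, ?_, ?_, ?_⟩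
  · rw [div_le_one (by positivity)]
    linarith
  · rw [div_mul_eq_mul_div, div_le_one hn0]
    have h5 : b * C1 * h ≤ h * h := mul_le_mul_of_nonneg_right hbCh hh0.le
    linarith
  · have h5 : a + a' + 1 ≤ (2 * C + 1) * h := by linarith
    have h6 : (a + a' + 1) ^ 2 ≤ ((2 * C + 1) * h) ^ 2 := pow_le_pow_left₀ (by linarith) h5 2
    have h7 : 2 * (2 * C + 1) ^ 2 * h ^ 2 ≤ h ^ 2 * h ^ 2 :=
      mul_le_mul_of_nonneg_right (by linarith) (by positivity)
    have h8 : h ^ 2 * h ^ 2 = n := by rw [← hn]; ring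
    linarith

theorem sq_bounds {V : Type} [Fintype V] {r : ℕ} (G : SimpleGraph V) (g : V → Option (Fin r))
    {z : V → ℝ} {k : ℝ} (hk0 : 0 ≤ k) (hk1 : k ≤ 1) (hz : ∀ v, g v ≠ none → |z v - 1| ≤ k) :
    (1 - k) ^ 2 * ∑ v, (mdeg G g v : ℝ) ^ 2 ≤ ∑ v, mv (mi G g) z v ^ 2 ∧
    ∑ v, mv (mi G g) z v ^ 2 ≤ (1 + k) ^ 2 * ∑ v, (mdeg G g v : ℝ) ^ 2 := by
  rw [mul_sum, mul_sum]
  constructor
  · refine sum_le_sum fun v _ => ?_
    rw [← mul_pow]
    exact pow_le_pow_left₀ (mul_nonneg (by linarith) (Nat.cast_nonneg _))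
      (mv_bounds G g hz v).1 2
  · refine sum_le_sum fun v _ => ?_
    rw [← mul_pow]
    refine pow_le_pow_left₀ ?_ (mv_bounds G g hz v).2 2
    exact (mul_nonneg (by linarith) (Nat.cast_nonneg _)).trans (mv_bounds G g hz v).1

theorem mv_nonneg {V : Type} [Fintype V] {r : ℕ} (G : SimpleGraph V) (g : V → Option (Fin r))
    {z : V → ℝ} (hz : ∀ v, 0 ≤ z v) (u : V) : 0 ≤ mv (mi G g) z u :=
  sum_nonneg fun v _ => mul_nonneg (mi_nonneg G g u v) (hz v)

theorem mv_le {V : Type} [Fintype V] {r : ℕ} (G : SimpleGraph V) (g : V → Option (Fin r))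
    {z : V → ℝ} {k : ℝ} (hk1 : k ≤ 1) (hz : ∀ v, g v ≠ none → |z v - 1| ≤ k) (u : V) :
    mv (mi G g) z u ≤ 2 * (mdeg G g u : ℝ) := by
  refine (mv_bounds G g hz u).2.trans ?_
  exact mul_le_mul_of_nonneg_right (by linarith) (Nat.cast_nonneg _)

/-- the comparison -/
theorem main {V : Type} [Fintype V] [Nonempty V] {r : ℕ} (hP : P_statement)
    {G H : SimpleGraph V} {z : V → ℝ} {g : V → Option (Fin r)} {n : ℕ} {k c : ℝ}
    (hG : Indep G g) (hH : Indep H g) (hl : ∀ u v, g u = none → (H.Adj u v ↔ G.Adj u v))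
    (hz : Per G z g n) (hm : miss H (fun v => (n : ℝ) - cw z g (g v)) g ≤
      miss G (fun v => (n : ℝ) - cw z g (g v)) g) (hlam : lam H ≤ lam G) (hk1 : k ≤ 1)
    (hc : ∀ v, g v ≠ none → |z v - 1| ≤ k) (hc0 : 0 ≤ c) (hlt : ∀ v, g v = none → z v ≤ c)
    (hl0 : 0 < lam G) (hcb : c * (outSet G g).ncard ≤ 1)
    (hs : (((missSet G g).ncard : ℝ) + (missSet H g).ncard + 1) ^ 2 ≤ lam G) :
    ∑ v, mv (mi H g) z v ^ 2 ≤ ∑ v, mv (mi G g) z v ^ 2 +
      28 * (((missSet G g).ncard : ℝ) + (missSet H g).ncard + 1) := by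
  obtain ⟨l, hl1⟩ : ∃ l, l = lam G := ⟨_, rfl⟩
  obtain ⟨a, ha⟩ : ∃ a : ℝ, a = (missSet G g).ncard := ⟨_, rfl⟩
  obtain ⟨a', ha'⟩ : ∃ a' : ℝ, a' = (missSet H g).ncard := ⟨_, rfl⟩
  rw [← hl1] at hl0 hs hlam
  rw [← ha, ← ha'] at hs ⊢
  have ha0 : 0 ≤ a := by rw [ha]; exact Nat.cast_nonneg _
  have ha0' : 0 ≤ a' := by rw [ha']; exact Nat.cast_nonneg _
  have hmuG := mv_nonneg G g hz.nonneg
  have hmuH := mv_nonneg H g hz.nonneg
  have hmdG : ∀ u, (mdeg G g u : ℝ) ≤ a := fun u => by rw [ha]; exact_mod_cast mdeg_le G g u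
  have hmdH : ∀ u, (mdeg H g u : ℝ) ≤ a' := fun u => by rw [ha']; exact_mod_cast mdeg_le H g u
  have hLaS : ∑ u, La G g z u ≤ 1 := (La_sum G g hc0 hlt).trans hcb
  have hLa1 : ∀ u, La G g z u ≤ 1 := fun u =>
    (single_le_sum (f := fun u => La G g z u) (fun i _ => La_nonneg G g hz.nonneg i)
      (mem_univ u)).trans hLaS
  have hcore := core (A' := adj H) (M := mi G g) (M' := mi H g) (z := z)
    (y := fun v => ci g v * (((n : ℝ) - cw z g (g v)) / l))
    (mu := mv (mi G g) z) (mu' := mv (mi H g) z) (La := La G g z)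
    (rho := fun u => (mv (mi G g) z u - La G g z u) / l)
    (eta := fun u => (mv (mi H g) z u - mv (mi G g) z u) / l) hl0
    (adj_comm H) (mi_symm G g) (mi_symm H g) (fun _ => rfl) (fun _ => rfl)
    (fun u => by
      have h1 := hz.eig u
      rw [← hl1] at h1
      rw [← h1]
      unfold mv
      rw [← sum_add_distrib, ← sum_sub_distrib]
      refine sum_congr rfl fun v _ => ?_
      rw [adj_change hG hH hl u v]
      ring)
    (fun u => by field_simp) (fun u => by field_simp)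
    (Q_core G g fun v hv => by
      have h1 := eig_core hG hz hv
      rw [← hl1] at h1
      rw [ci_some hv, one_mul, ← h1]
      field_simp
      ring)
    (Q_core H g fun v hv => by
      have h1 := eig_core hG hz hv
      rw [← hl1] at h1
      rw [ci_some hv, one_mul, ← h1]
      field_simp
      ring)
    (by
      obtain ⟨-, h1, -⟩ := hP V H
      refine (h1 _).trans ?_
      exact mul_le_mul_of_nonneg_right hlam (sum_nonneg fun v _ => sq_nonneg _))
    (by
      rw [miss_eq H g _ hl0, miss_eq G g _ hl0] at hm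
      exact le_of_mul_le_mul_left hm (by positivity))
  refine real1 hl0 ha0 ha0' rfl hs hcore ?_ ?_ ?_ ?_
  · have h1 : ∀ v, La G g z v * (mv (mi H g) z v - mv (mi G g) z v) ≤ La G g z v * (2 * a') := by
      intro v
      refine mul_le_mul_of_nonneg_left ?_ (La_nonneg G g hz.nonneg v)
      have h2 := mv_le H g hk1 hc v
      have h3 := hmdH v
      have h4 := hmuG v
      linarith
    refine (sum_le_sum fun v _ => h1 v).trans ?_
    rw [← sum_mul]
    exact mul_le_of_le_one_left (by linarith) hLaS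
  · refine Q_le (mi_nonneg G g) (by rw [sum_mi, ha]) fun u => ?_
    rw [abs_div, abs_of_pos hl0]
    refine div_le_div_of_nonneg_right (abs_le.2 ⟨?_, ?_⟩) hl0.le
    · have := hmuG u; have := hLa1 u; linarith
    · have := mv_le G g hk1 hc u; have := hmdG u; have := La_nonneg G g hz.nonneg u; linarith
  · refine Q_le (mi_nonneg H g) (by rw [sum_mi, ha']) fun u => ?_
    rw [abs_div, abs_of_pos hl0]
    refine div_le_div_of_nonneg_right (abs_le.2 ⟨?_, ?_⟩) hl0.le
    · have := hmuG u; have := hLa1 u; linarith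
    · have := mv_le G g hk1 hc u; have := hmdG u; have := La_nonneg G g hz.nonneg u; linarith
  · refine (Q_le_one (ItemKW3.adj_nonneg H) (ItemKW3.adj_le_one H)).trans ?_
    refine pow_le_pow_left₀ (sum_nonneg fun v _ => abs_nonneg _) ?_ 2
    have h1 : ∀ u, |(mv (mi H g) z u - mv (mi G g) z u) / l| ≤
        (2 * (mdeg H g u : ℝ) + 2 * (mdeg G g u : ℝ)) / l := by
      intro u
      rw [abs_div, abs_of_pos hl0]
      have h2 := mv_le H g hk1 hc u
      have h3 := mv_le G g hk1 hc u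
      have h4 := hmuG u
      have h5 := hmuH u
      have h6 : (0 : ℝ) ≤ mdeg G g u := Nat.cast_nonneg _
      have h7 : (0 : ℝ) ≤ mdeg H g u := Nat.cast_nonneg _
      exact div_le_div_of_nonneg_right (abs_le.2 ⟨by linarith, by linarith⟩) hl0.le
    refine (sum_le_sum fun u _ => h1 u).trans (le_of_eq ?_)
    rw [← sum_div, sum_add_distrib, ← mul_sum, ← mul_sum, mdeg_sum, mdeg_sum, ← ha, ← ha']
    ring

end ItemSWS

open ItemSWS in
theorem prfSWS : P_statement → FLU_statement → SWS_statement := by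
  intro hP hFLU r b₀ C hr hC
  obtain ⟨C1, n1, hC1, hF⟩ := hFLU r C hr hC
  obtain ⟨T, hT⟩ : ∃ T : ℝ, T = 1 + C1 + b₀ * C1 + 6 * C1 + 2 * (2 * C + 1) ^ 2 := ⟨_, rfl⟩
  refine ⟨6 * (C * C1) + 28, max n1 ⌈T ^ 4⌉₊, by positivity, ?_⟩
  intro V _ G H z g n hn hG hH hb hl hz hm hlam
  obtain ⟨-, hflu⟩ := hF V G g n (le_trans (le_max_left _ _) hn) hG
  obtain ⟨hc, hlt, hlamG, -⟩ := hflu z hz
  have hb0 : (0 : ℝ) ≤ b₀ := Nat.cast_nonneg _
  have hT1 : 1 ≤ T := by
    rw [hT]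
    have := mul_nonneg hb0 hC1
    linarith [sq_nonneg (2 * C + 1)]
  have hTn : T ^ 4 ≤ n := (Nat.le_ceil _).trans (by exact_mod_cast (le_trans (le_max_right _ _) hn))
  obtain ⟨h, hh⟩ : ∃ h, h = Real.sqrt (Real.sqrt n) := ⟨_, rfl⟩
  have hsq : Real.sqrt n = h ^ 2 := by rw [hh]; exact (Real.sq_sqrt (Real.sqrt_nonneg _)).symm
  have hh4 : h ^ 4 = n := by
    have : h ^ 4 = (h ^ 2) ^ 2 := by ring
    rw [this, ← hsq]
    exact Real.sq_sqrt (Nat.cast_nonneg _)
  have hh0 : 0 ≤ h := by rw [hh]; exact Real.sqrt_nonneg _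
  have hTh : T ≤ h := by
    rw [← hh4] at hTn
    exact le_of_pow_le_pow_left₀ (by norm_num) hh0 hTn
  rw [← hh] at hlt hlamG
  rw [hsq] at hc
  have hfG := hG.few
  have hfH := hH.few
  rw [← hh] at hfG hfH
  have hoG : (0 : ℝ) ≤ (outSet G g).ncard := Nat.cast_nonneg _
  have hoH : (0 : ℝ) ≤ (outSet H g).ncard := Nat.cast_nonneg _
  have haG : (0 : ℝ) ≤ (missSet G g).ncard := Nat.cast_nonneg _
  have haH : (0 : ℝ) ≤ (missSet H g).ncard := Nat.cast_nonneg _
  obtain ⟨hl0, hk1, hcb, hs⟩ := real4 hr hC hC1 hb0 hT hTh hh4 hlamG haG haH (by linarith)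
    (by linarith)
  have hh1 : 1 ≤ h := hT1.trans hTh
  have hn0 : (0 : ℝ) < n := by rw [← hh4]; positivity
  have : Nonempty V := by
    by_contra hE
    rw [not_nonempty_iff] at hE
    have h1 := hz.sum
    unfold cw at h1
    simp at h1
    rw [← h1] at hn0
    exact lt_irrefl _ hn0
  have hk0 : 0 ≤ C1 / h ^ 2 := by positivity
  have hc0 : 0 ≤ C1 * h / n := by positivity
  have hcb' : C1 * h / n * (outSet G g).ncard ≤ 1 := by
    refine le_trans (mul_le_mul_of_nonneg_left ?_ hc0) hcb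
    exact_mod_cast hb
  have hmain := main hP hG.indep hH.indep hl hz hm hlam hk1 hc hc0 hlt hl0 hcb' hs
  exact real3 hk0 hk1 (sum_nonneg fun v _ => sq_nonneg _) (sum_nonneg fun v _ => sq_nonneg _)
    hmain (sq_bounds H g hk0 hk1 hc).1 (sq_bounds G g hk0 hk1 hc).2 (mdeg_sq G g) (mdeg_sq H g)
    (real2 hC hC1 hh1 rfl haG (by linarith)) (real2 hC hC1 hh1 rfl haH (by linarith))
    (mul_nonneg hC hC1) haG haH rfl

end MP0c3a8f
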