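import Pool.Agent.Work.MP_0c3a8f_co.PB.Stmts8

/-!
# MP_0c3a8f_co: item PEV (the leaves, type `P`)
-/

open Finset

namespace MP0c3a8f

namespace ItemPEV

variable {V : Type} {r : ℕ}

/-- replace the edge `w y` by `w y'` -/
def mv (G : SimpleGraph V) (w y y' : V) (h : w ≠ y') : SimpleGraph V where
  Adj a b := (G.Adj a b ∧ s(a, b) ≠ s(w, y)) ∨ s(a, b) = s(w, y')
  symm := ⟨fun a b hab => by
    rcases hab with hab | hab
    · left; refine ⟨hab.1.symm, ?_⟩; rw [Sym2.eq_swap]; exact hab.2
    · right; rw [Sym2.eq_swap]; exact hab⟩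
  loopless := ⟨fun a ha => by
    rcases ha with ha | ha
    · exact G.loopless.irrefl a ha.1
    · rw [Sym2.eq_iff] at ha
      rcases ha with ⟨h1, h2⟩ | ⟨h1, h2⟩
      · exact h (h1.symm.trans h2)
      · exact h (h2.symm.trans h1)⟩

theorem mv_adj (G : SimpleGraph V) (w y y' : V) (h : w ≠ y') (a b : V) :
    (mv G w y y' h).Adj a b ↔ (G.Adj a b ∧ s(a, b) ≠ s(w, y)) ∨ s(a, b) = s(w, y') := Iff.rfl

section

variable {G : SimpleGraph V} {g : V → Option (Fin r)} {w : V} {q : Fin r → V} {i : Fin r}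
  {L : Finset V}

theorem hw (hT : TyP G g w q i L) : g w = none := (hT.out w).2 rfl

theorem q_ne_w (hT : TyP G g w q i L) (t : Fin r) : q t ≠ w := fun h => by
  have h1 := hT.hq t
  rw [h, hw hT] at h1
  exact absurd h1 (by simp)

theorem q_inj (hT : TyP G g w q i L) : Function.Injective q := by
  intro s t h
  have h1 := hT.hq s
  rw [h, hT.hq t] at h1
  exact (Option.some_injective _ h1).symm

/-- change the neighbour `q t` of `w` -/
theorem move_w (hT : TyP G g w q i L) {t : Fin r} {y' : V} (hwy : w ≠ y') (hti : t ≠ i)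
    (hy' : g y' = some t) (hex : ∃ s, s ≠ t ∧ q s ∈ L) :
    TyP (mv G w (q t) y' hwy) g w (Function.update q t y') i L where
  out := hT.out
  hq := by
    intro s
    by_cases h : s = t
    · rw [h, Function.update_self]; exact hy'
    · rw [Function.update_of_ne h]; exact hT.hq s
  wn := by
    intro v
    rw [mv_adj, Ne, Sym2.congr_right, Sym2.congr_right, hT.wn]
    constructor
    · rintro (⟨⟨s, rfl⟩, h⟩ | rfl)
      · have hst : s ≠ t := fun e => h (by rw [e])
        exact ⟨s, by rw [Function.update_of_ne hst]⟩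
      · exact ⟨t, by rw [Function.update_self]⟩
    · rintro ⟨s, rfl⟩
      by_cases hst : s = t
      · right; rw [hst, Function.update_self]
      · left
        rw [Function.update_of_ne hst]
        exact ⟨⟨s, rfl⟩, fun h => hst (q_inj hT h)⟩
  hL := hT.hL
  core := by
    intro a b ha hb
    have haw : a ≠ w := fun e => ha (by rw [e]; exact hw hT)
    have hbw : b ≠ w := fun e => hb (by rw [e]; exact hw hT)
    rw [mv_adj, Function.update_of_ne (Ne.symm hti)]
    have h1 : s(a, b) ≠ s(w, q t) := by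
      intro e
      rcases Sym2.eq_iff.1 e with ⟨e, _⟩ | ⟨_, e⟩
      · exact haw e
      · exact hbw e
    have h2 : s(a, b) ≠ s(w, y') := by
      intro e
      rcases Sym2.eq_iff.1 e with ⟨e, _⟩ | ⟨_, e⟩
      · exact haw e
      · exact hbw e
    rw [← hT.core a b ha hb]
    constructor
    · rintro (h | h)
      · exact h.1
      · exact absurd h h2
    · intro h
      exact Or.inl ⟨h, h1⟩
  ex := by
    obtain ⟨s, hst, hs⟩ := hex
    exact ⟨s, by rw [Function.update_of_ne hst]; exact hs⟩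
  room := hT.room

/-- move a missing pair -/
theorem move_p [DecidableEq V] (hT : TyP G g w q i L) {y y' : V} (hpy : q i ≠ y) (hy : y ∈ L)
    (hy' : y' ∉ L) (hy'1 : g y' ≠ none) (hy'2 : g y' ≠ some i)
    (hex : ∃ t, q t ∈ insert y' (L.erase y)) :
    TyP (mv G (q i) y' y hpy) g w q i (insert y' (L.erase y)) where
  out := hT.out
  hq := hT.hq
  wn := by
    intro v
    have hyw : y ≠ w := fun e => (hT.hL y hy).1 (by rw [e]; exact hw hT)
    have hy'w : y' ≠ w := fun e => hy'1 (by rw [e]; exact hw hT)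
    have hpw := q_ne_w hT i
    have h1 : s(w, v) ≠ s(q i, y') := by
      intro e
      rcases Sym2.eq_iff.1 e with ⟨e, _⟩ | ⟨e, _⟩
      · exact hpw e.symm
      · exact hy'w e.symm
    have h2 : s(w, v) ≠ s(q i, y) := by
      intro e
      rcases Sym2.eq_iff.1 e with ⟨e, _⟩ | ⟨e, _⟩
      · exact hpw e.symm
      · exact hyw e.symm
    rw [mv_adj, ← hT.wn v]
    constructor
    · rintro (h | h)
      · exact h.1
      · exact absurd h h2
    · intro h
      exact Or.inl ⟨h, h1⟩
  hL := by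
    intro v hv
    rcases Finset.mem_insert.1 hv with rfl | hv
    · exact ⟨hy'1, hy'2⟩
    · exact hT.hL v (Finset.mem_of_mem_erase hv)
  core := by
    intro a b ha hb
    have hyy : y ≠ y' := fun e => hy' (e ▸ hy)
    have hyi := (hT.hL y hy).2
    have key : ∀ b, ((g b ≠ some i ∧ b ∉ L) ∧ b ≠ y') ∨ b = y ↔
        g b ≠ some i ∧ b ∉ insert y' (L.erase y) := by
      intro b
      rw [Finset.mem_insert, Finset.mem_erase]
      by_cases hby : b = y
      · subst hby
        constructor
        · intro _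
          refine ⟨hyi, ?_⟩
          rintro (h | h)
          · exact hyy h
          · exact h.1 rfl
        · intro _
          exact Or.inr rfl
      · constructor
        · rintro (⟨⟨h1, h2⟩, h3⟩ | h)
          · refine ⟨h1, ?_⟩
            rintro (h | h)
            · exact h3 h
            · exact h2 h.2
          · exact absurd h hby
        · rintro ⟨h1, h2⟩
          exact Or.inl ⟨⟨h1, fun h => h2 (Or.inr ⟨hby, h⟩)⟩, fun h => h2 (Or.inl h)⟩
    rw [mv_adj, hT.core a b ha hb]
    by_cases hap : a = q i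
    · subst hap
      by_cases hbp : b = q i
      · subst hbp
        constructor
        · rintro (⟨⟨h, _⟩, _⟩ | h)
          · exact absurd rfl h
          · exfalso
            rcases Sym2.eq_iff.1 h with ⟨_, h⟩ | ⟨h, _⟩ <;> exact hpy h
        · rintro ⟨h, _⟩
          exact absurd rfl h
      · have h1 : s(q i, b) = s(q i, y') ↔ b = y' := Sym2.congr_right
        have h2 : s(q i, b) = s(q i, y) ↔ b = y := Sym2.congr_right
        rw [Ne, Ne, h1, h2, hT.hq i]
        have h3 := key b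
        have h4 : (some i = g b) ↔ (g b = some i) := eq_comm
        rw [h4]
        tauto
    · by_cases hbp : b = q i
      · subst hbp
        have h1 : s(a, q i) = s(q i, y') ↔ a = y' := by
          rw [Sym2.eq_swap]; exact Sym2.congr_right
        have h2 : s(a, q i) = s(q i, y) ↔ a = y := by
          rw [Sym2.eq_swap]; exact Sym2.congr_right
        rw [Ne, Ne, h1, h2, hT.hq i]
        have h3 := key a
        tauto
      · have h1 : s(a, b) ≠ s(q i, y') := by
          intro e
          rcases Sym2.eq_iff.1 e with ⟨e, _⟩ | ⟨_, e⟩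
          · exact hap e
          · exact hbp e
        have h2 : s(a, b) ≠ s(q i, y) := by
          intro e
          rcases Sym2.eq_iff.1 e with ⟨e, _⟩ | ⟨_, e⟩
          · exact hap e
          · exact hbp e
        tauto
  ex := hex
  room := by
    intro t
    have h1 := hT.room t
    have h2 : 0 < L.card := Finset.card_pos.2 ⟨y, hy⟩
    rw [Finset.card_insert_of_notMem (fun h => hy' (Finset.mem_of_mem_erase h)),
      Finset.card_erase_of_mem hy]
    omega

theorem card_swap [DecidableEq V] {y y' : V} (hy : y ∈ L) (hy' : y' ∉ L) :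
    (insert y' (L.erase y)).card = L.card := by
  have h2 : 0 < L.card := Finset.card_pos.2 ⟨y, hy⟩
  rw [Finset.card_insert_of_notMem (fun h => hy' (Finset.mem_of_mem_erase h)),
    Finset.card_erase_of_mem hy]
  omega

theorem muv_eq [Fintype V] (hT : TyP G g w q i L) (z : V → ℝ) {v : V} {t : Fin r}
    (hv : g v = some t) (hti : t ≠ i) [Decidable (v ∈ L)] :
    muv G g z v = if v ∈ L then z (q i) else 0 := by
  classical
  unfold muv
  have hvp : v ≠ q i := fun e => hti (by
    have h1 := hT.hq i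
    rw [← e, hv] at h1
    exact Option.some_injective _ h1)
  have hv0 : g v ≠ none := by rw [hv]; simp
  have h1 : ∀ u, (g v ≠ none ∧ g u ≠ none ∧ g u ≠ g v ∧ ¬ G.Adj v u) ↔ (u = q i ∧ v ∈ L) := by
    intro u
    constructor
    · rintro ⟨_, h1, h2, h3⟩
      rw [hT.core v u hv0 h1] at h3
      by_contra hcon
      exact h3 ⟨h2.symm, fun h => hvp h.1, hcon⟩
    · rintro ⟨rfl, h⟩
      have hp : g (q i) ≠ none := by rw [hT.hq]; simp
      refine ⟨hv0, hp, ?_, ?_⟩
      · rw [hT.hq, hv]
        exact fun h => hti (Option.some_injective _ h).symm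
      · rw [hT.core v _ hv0 hp]
        rintro ⟨_, _, h2⟩
        exact h2 ⟨rfl, h⟩
  simp only [h1]
  by_cases hvL : v ∈ L
  · simp [hvL]
  · simp [hvL]

theorem omv_eq [Fintype V] (hT : TyP G g w q i L) (z : V → ℝ) {v : V} {t : Fin r}
    (hv : g v = some t) [Decidable (v = q t)] :
    omv G g z v = if v = q t then z w else 0 := by
  classical
  unfold omv
  have h1 : ∀ u, (g u = none ∧ G.Adj v u) ↔ (u = w ∧ v = q t) := by
    intro u
    constructor
    · rintro ⟨h1, h2⟩
      have hu : u = w := (hT.out u).1 h1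
      rw [hu] at h2
      obtain ⟨s, hs⟩ := (hT.wn v).1 h2.symm
      have h3 : s = t := by
        have h4 := hT.hq s
        rw [← hs, hv] at h4
        exact (Option.some_injective _ h4).symm
      exact ⟨hu, by rw [hs, h3]⟩
    · rintro ⟨rfl, h⟩
      exact ⟨hw hT, ((hT.wn v).2 ⟨t, h⟩).symm⟩
  simp only [h1]
  by_cases hvL : v = q t
  · simp [hvL]
  · simp [hvL]

theorem cw_muv [Fintype V] (hT : TyP G g w q i L) (z : V → ℝ) {t : Fin r} (hti : t ≠ i) :
    cw (fun v => muv G g z v) g (some t) = lc L g t * z (q i) := by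
  classical
  unfold cw lc
  have h1 : ∀ v, (if g v = some t then muv G g z v else 0)
      = if (v ∈ L ∧ g v = some t) then z (q i) else 0 := by
    intro v
    by_cases h : g v = some t
    · rw [if_pos h, muv_eq hT z h hti]; simp [h]
    · simp [h]
  simp only [h1]
  rw [← Finset.sum_filter, Finset.sum_const, nsmul_eq_mul,
    Set.ncard_eq_toFinset_card _ (Set.toFinite _)]
  congr 3
  ext v
  simp

theorem cw_omv [Fintype V] (hT : TyP G g w q i L) (z : V → ℝ) (t : Fin r) :
    cw (fun v => omv G g z v) g (some t) = z w := by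
  classical
  unfold cw
  have h1 : ∀ v, (if g v = some t then omv G g z v else 0) = if v = q t then z w else 0 := by
    intro v
    by_cases h : g v = some t
    · rw [if_pos h, omv_eq hT z h]
    · rw [if_neg h, if_neg]
      rintro rfl
      exact h (hT.hq t)
  simp only [h1]
  simp

theorem exists_out [Fintype V] (g : V → Option (Fin r)) {t : Fin r} (L : Finset V)
    (h : L.card + 2 ≤ siz g t) (x : V) : ∃ v, g v = some t ∧ v ∉ L ∧ v ≠ x := by
  classical
  by_contra hcon
  push Not at hcon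
  have h1 : {v | g v = some t} ⊆ ((insert x L : Finset V) : Set V) := by
    intro v hv
    by_cases hvL : v ∈ L
    · simp [hvL]
    · simp [hcon v hv hvL]
  have h2 := Set.ncard_le_ncard h1 (Set.toFinite _)
  rw [Set.ncard_coe_finset] at h2
  have h3 := Finset.card_insert_le x L
  unfold siz at h
  omega

theorem exists_in [Fintype V] (g : V → Option (Fin r)) {t : Fin r} (L : Finset V)
    (h : 2 ≤ lc L g t) (x : V) : ∃ v, v ∈ L ∧ g v = some t ∧ v ≠ x := by
  by_contra hcon
  push Not at hcon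
  have h1 : {v | v ∈ L ∧ g v = some t} ⊆ {x} := by
    intro v hv
    exact hcon v hv.1 hv.2
  have h2 := Set.ncard_le_ncard h1 (Set.toFinite _)
  rw [Set.ncard_singleton] at h2
  unfold lc at h
  omega

/-- graphs of type `P` with the same numbers -/
theorem maxP (hME : MEMP_statement) [Fintype V] {m : ℕ} (hr : 3 ≤ r) (hM : MxK r m G)
    (hT : TyP G g w q i L) {H : SimpleGraph V} {q' : Fin r → V} {L' : Finset V}
    (hT' : TyP H g w q' i L') (hc : L'.card = L.card) : lam H ≤ lam G := by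
  obtain ⟨-, -, -, -, -, -, h1⟩ := hME r V G g w q i L hr hT
  obtain ⟨h2, h3, h4, -, -, -, h5⟩ := hME r V H g w q' i L' hr hT'
  refine hM.2 V H ⟨h2, ?_, h4, h3⟩
  rw [hc] at h5
  have h6 := hM.1.size
  omega

theorem adj_le (G : SimpleGraph V) (a b : V) : adj G a b ≤ 1 := by
  unfold adj
  split_ifs <;> norm_num

theorem adj_nonneg (G : SimpleGraph V) (a b : V) : 0 ≤ adj G a b := by
  unfold adj
  split_ifs <;> norm_num

/-- moving a missing pair from the class `s` to the class `u` -/
theorem stepP (hMV : MVE_statement) (hME : MEMP_statement) [Fintype V] {m : ℕ} (hr : 3 ≤ r)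
    (hM : MxK r m G) (hT : TyP G g w q i L) {z : V → ℝ} (hz : ∀ v, 0 ≤ z v)
    (he : ∀ v, ∑ u, adj G v u * z u = lam G * z v) (hl : 0 < lam G) (hp : 0 < z (q i))
    {T : Fin r → ℝ} {y y' : V} {s u : Fin r}
    (hrow1 : y ≠ q s → lam G * z y = T s - z (q i))
    (hrow2 : y = q s → lam G * z y = T s - z (q i) + z w)
    (hrow3 : y' ≠ q u → lam G * z y' = T u)
    (hrow4 : y' = q u → lam G * z y' = T u + z w)
    (hy : y ∈ L) (hys : g y = some s) (hy' : y' ∉ L) (hyu : g y' = some u) (hui : u ≠ i)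
    (hiff : y = q s ↔ y' = q u) : T s - T u ≤ z (q i) / lam G := by
  classical
  by_contra hcon
  push Not at hcon
  have hgp : g (q i) = some i := hT.hq i
  have hyL := hT.hL y hy
  have hpy : q i ≠ y := fun e => hyL.2 (by rw [← e]; exact hgp)
  have hsi : s ≠ i := fun e => hyL.2 (by rw [hys, e])
  have hy'0 : g y' ≠ none := by rw [hyu]; simp
  have hy'i : g y' ≠ some i := by rw [hyu]; exact fun h => hui (Option.some_injective _ h)
  have hy'p : y' ≠ q i := fun e => hy'i (by rw [e]; exact hgp)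
  have hp0 : g (q i) ≠ none := by rw [hgp]; simp
  have hex : ∃ t, q t ∈ insert y' (L.erase y) := by
    by_cases h1 : y' = q u
    · exact ⟨u, by rw [← h1]; exact Finset.mem_insert_self _ _⟩
    · obtain ⟨t, ht⟩ := hT.ex
      refine ⟨t, Finset.mem_insert_of_mem (Finset.mem_erase.2 ⟨?_, ht⟩)⟩
      intro h2
      apply h1
      apply hiff.1
      have h3 := hT.hq t
      rw [h2, hys] at h3
      rw [Option.some_injective _ h3]
      exact h2.symm
  have hTH := move_p hT hpy hy hy' hy'0 hy'i hex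
  have hle := maxP hME hr hM hT hTH (card_swap hy hy')
  have hadj1 : G.Adj (q i) y' := by
    rw [hT.core _ _ hp0 hy'0]
    refine ⟨?_, fun h => hy' h.2, fun h => hy'p h.1⟩
    rw [hgp]
    exact hy'i.symm
  have hadj2 : ¬ G.Adj (q i) y := by
    rw [hT.core _ _ hp0 hyL.1]
    rintro ⟨_, h, _⟩
    exact h ⟨rfl, hy⟩
  have h5 : lam G * (z y - z y') + z (q i) = T s - T u := by
    by_cases h : y = q s
    · have h6 := hrow2 h
      have h7 := hrow4 (hiff.1 h)
      linarith
    · have h6 := hrow1 h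
      have h7 := hrow3 (fun h' => h (hiff.2 h'))
      linarith
  have h8 : z (q i) / lam G * adj G y' y ≤ z (q i) / lam G :=
    mul_le_of_le_one_right (div_nonneg hp.le hl.le) (adj_le G y' y)
  have h9 := hMV V G _ z (q i) y' y hz he hl hp hpy hadj1 hadj2 (mv_adj G (q i) y' y hpy)
    (by rw [h5]; linarith)
  exact absurd h9 (not_lt.2 hle)

/-- only one of the vertices `q t` is in `L` -/
theorem uniq (hMV : MVE_statement) (hME : MEMP_statement) [Fintype V] {m : ℕ} (hr : 3 ≤ r)
    (hM : MxK r m G) (hT : TyP G g w q i L) {z : V → ℝ} (hz : ∀ v, 0 ≤ z v)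
    (he : ∀ v, ∑ u, adj G v u * z u = lam G * z v) (hl : 0 < lam G) (hp : 0 < z (q i))
    (hzw : 0 < z w) {T : Fin r → ℝ}
    (hrow2 : ∀ t, q t ∈ L → lam G * z (q t) = T t - z (q i) + z w)
    (hrow3 : ∀ t y', t ≠ i → g y' = some t → y' ∉ L → y' ≠ q t → lam G * z y' = T t)
    {s t : Fin r} (hs : q s ∈ L) (ht : q t ∈ L) : s = t := by
  by_contra hst
  have hti : t ≠ i := fun e => (hT.hL _ ht).2 (by rw [hT.hq, e])
  obtain ⟨y', hy', hy'L, hy'q⟩ := exists_out g L (hT.room t) (q t)
  have hwy : w ≠ y' := fun e => by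
    rw [← e, hw hT] at hy'
    exact absurd hy' (by simp)
  have hTH := move_w hT hwy hti hy' ⟨s, hst, hs⟩
  have hle := maxP hME hr hM hT hTH rfl
  have hadj1 : G.Adj w (q t) := (hT.wn _).2 ⟨t, rfl⟩
  have hadj2 : ¬ G.Adj w y' := by
    rw [hT.wn]
    rintro ⟨s', hs'⟩
    have h1 := hT.hq s'
    rw [← hs', hy'] at h1
    rw [← Option.some_injective _ h1] at hs'
    exact hy'q hs'
  have hadj3 : adj G (q t) y' = 0 := by
    unfold adj
    rw [if_neg]
    rw [hT.core _ _ (by rw [hT.hq]; simp) (by rw [hy']; simp)]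
    rintro ⟨h, _⟩
    exact h (by rw [hT.hq, hy'])
  have h6 := hrow2 t ht
  have h7 := hrow3 t y' hti hy' hy'L hy'q
  have h9 := hMV V G _ z w (q t) y' hz he hl hzw hwy hadj1 hadj2 (mv_adj G w (q t) y' hwy)
    (by rw [hadj3]; linarith)
  exact absurd h9 (not_lt.2 hle)

end

theorem big {M : ℝ} {N n : ℕ} (hN : M ^ 4 ≤ N) (hn : N ≤ n) :
    M ≤ Real.sqrt (Real.sqrt n) := by
  have h1 : (N : ℝ) ≤ n := by exact_mod_cast hn
  apply Real.le_sqrt_of_sq_le
  apply Real.le_sqrt_of_sq_le
  have h2 : (M ^ 2) ^ 2 = M ^ 4 := by ring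
  rw [h2]
  exact hN.trans h1

/-- the numbers -/
theorem num {h n l q C C₁ C₂ a : ℝ} (hn : (h * h) * (h * h) = n) (hq : 2 / 3 ≤ q)
    (hC : 0 ≤ C) (hC₁ : 0 ≤ C₁) (hC₂ : 0 ≤ C₂)
    (hbig : 4 * C₂ * (C + 1) + 12 * C₁ + 8 ≤ h) (ha : a ≤ C * h)
    (hl : |l - q * n| ≤ C₁ * h) :
    n / 3 < l ∧ 8 < l ∧ C₁ / (h * h) ≤ 1 / 2 ∧ C₂ * (a + 1) / n ≤ 1 / 4 ∧ 0 < n := by
  have h0 : 0 ≤ 4 * C₂ * (C + 1) := by positivity
  have h8 : 8 ≤ h := by linarith
  have hh0 : 0 < h := by linarith
  have hhh : 0 < h * h := by positivity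
  have hhle : 8 * h ≤ h * h := mul_le_mul_of_nonneg_right h8 hh0.le
  have h64 : 64 ≤ h * h := by linarith
  have hn1 : 64 * (h * h) ≤ n := by
    rw [← hn]
    exact mul_le_mul_of_nonneg_right h64 hhh.le
  have hn0 : 0 < n := by linarith
  have h1 := (abs_le.1 hl).1
  have h2 : 12 * C₁ * h ≤ h * h := mul_le_mul_of_nonneg_right (by linarith) hh0.le
  have h3 : 2 / 3 * n ≤ q * n := mul_le_mul_of_nonneg_right hq hn0.le
  have hl1 : n / 3 < l := by linarith
  refine ⟨hl1, by linarith, ?_, ?_, hn0⟩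
  · rw [div_le_iff₀ hhh]
    linarith
  · rw [div_le_iff₀ hn0]
    have h4 : a + 1 ≤ (C + 1) * h := by
      have : (C + 1) * h = C * h + h := by ring
      linarith
    have h5 : C₂ * (a + 1) ≤ C₂ * ((C + 1) * h) := mul_le_mul_of_nonneg_left h4 hC₂
    have h6 : 4 * C₂ * (C + 1) * h ≤ h * h := mul_le_mul_of_nonneg_right (by linarith) hh0.le
    have h7 : 4 * C₂ * (C + 1) * h = 4 * (C₂ * ((C + 1) * h)) := by ring
    linarith

theorem three_le (σ : Fin r → ℕ) {s t i : Fin r} (hst : s ≠ t) (hsi : s ≠ i) (hti : t ≠ i) :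
    σ s + σ t + σ i ≤ ∑ t, σ t := by
  classical
  have h1 : ∑ x ∈ ({s, t, i} : Finset (Fin r)), σ x = σ s + (σ t + σ i) := by
    rw [Finset.sum_insert (by simp [hst, hsi]), Finset.sum_insert (by simp [hti]),
      Finset.sum_singleton]
  have h2 : ∑ x ∈ ({s, t, i} : Finset (Fin r)), σ x ≤ ∑ x, σ x :=
    Finset.sum_le_sum_of_subset (Finset.subset_univ _)
  omega

theorem final_le {l σ P D A : ℝ} (hl : 0 < l) (hσ : 0 ≤ σ) (hσl : σ < l) (hP : 0 < P)
    (hA : 2 * P ≤ A) (hD : (l + σ) * D = A) : P / l < D := by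
  rw [div_lt_iff₀ hl]
  by_contra hcon
  push Not at hcon
  have hD0 : 0 < D := by
    by_contra h
    push Not at h
    have : (l + σ) * D ≤ 0 := mul_nonpos_of_nonneg_of_nonpos (by linarith) h
    linarith
  have h1 : σ * D < l * D := mul_lt_mul_of_pos_right hσl hD0
  have h2 : (l + σ) * D = l * D + σ * D := by ring
  have h3 : D * l = l * D := by ring
  linarith

end ItemPEV

open ItemPEV in
theorem prfPEV : P_statement → FLU_statement → TCL_statement → MVE_statement → MEMP_statement →
    PEV_statement := by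
  classical
  intro hP hF hTC hMV hME r C c hr hC hc
  obtain ⟨C₁, n₁, hC₁, h₁⟩ := hF r C hr hC
  obtain ⟨C₂, n₂, hC₂, h₂⟩ := hTC r C hr hC
  obtain ⟨n₃, hn₃⟩ := exists_nat_ge ((4 * C₂ * (C + 1) + 12 * C₁ + 8) ^ 4)
  refine ⟨n₁ + n₂ + n₃, ?_⟩
  intro V _ G g w q i L n m hn hM hNL hT
  have hNK := hNL.nk
  obtain ⟨h, hh⟩ : ∃ h : ℝ, h = Real.sqrt (Real.sqrt n) := ⟨_, rfl⟩
  have hbig : 4 * C₂ * (C + 1) + 12 * C₁ + 8 ≤ h := by
    rw [hh]
    exact big hn₃ (by omega)
  obtain ⟨⟨z, hz⟩, hz2⟩ := h₁ V G g n (by omega) hNK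
  obtain ⟨hz1, -, hlam, -⟩ := hz2 z hz
  obtain ⟨hrow, hcls, hdif⟩ := h₂ V G z g n (by omega) hNK hz
  obtain ⟨-, -, -, -, hmL, -, -⟩ := hME r V G g w q i L hr hT
  have hfew := hNK.few
  rw [hmL, ← hh] at hfew
  have ha : (L.card : ℝ) ≤ C * h := by
    have : (0 : ℝ) ≤ (outSet G g).ncard := Nat.cast_nonneg _
    linarith
  rw [← hh] at hlam
  have hhs : h * h = Real.sqrt n := by rw [hh]; exact Real.mul_self_sqrt (Real.sqrt_nonneg _)
  have hn0 : (h * h) * (h * h) = n := by rw [hhs]; exact Real.mul_self_sqrt (Nat.cast_nonneg n)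
  have hr0 : (3 : ℝ) ≤ r := by exact_mod_cast hr
  have hq : 2 / 3 ≤ qq r := by
    unfold qq
    have : 1 / (r : ℝ) ≤ 1 / 3 := one_div_le_one_div_of_le (by norm_num) hr0
    linarith
  obtain ⟨hl1, hl8, hk, hsm, hnpos⟩ := num hn0 hq hC hC₁ hC₂ hbig ha hlam
  rw [← hhs] at hz1
  have hl : 0 < lam G := by linarith
  have hgp : g (q i) ≠ none := by rw [hT.hq]; simp
  have hp1 := abs_le.1 (hz1 _ hgp)
  have hp : 0 < z (q i) := by linarith [hp1.1]
  have hp2 : z (q i) ≤ 2 := by linarith [hp1.2]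
  have hzw : 0 < z w := by
    have h5 := hz.eig w
    have h6 : z (q i) ≤ ∑ u, adj G w u * z u := by
      have h7 : adj G w (q i) * z (q i) ≤ ∑ u, adj G w u * z u :=
        Finset.single_le_sum (f := fun u => adj G w u * z u)
          (fun u _ => mul_nonneg (adj_nonneg G w u) (hz.nonneg u)) (Finset.mem_univ (q i))
      have h8 : adj G w (q i) = 1 := by
        unfold adj
        rw [if_pos ((hT.wn _).2 ⟨i, rfl⟩)]
      rw [h8, one_mul] at h7
      exact h7
    rw [h5] at h6
    by_contra hcon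
    push Not at hcon
    have : lam G * z w ≤ 0 := mul_nonpos_of_nonneg_of_nonpos hl.le hcon
    linarith
  obtain ⟨T, hTd⟩ : ∃ T : Fin r → ℝ, T = fun t => tv g z n t := ⟨_, rfl⟩
  have hTt : ∀ t, tv g z n t = T t := fun t => by rw [hTd]
  -- the rows
  have hL1 : ∀ v t, g v = some t → t ≠ i → v ∈ L → v ≠ q t →
      lam G * z v = T t - z (q i) := by
    intro v t hv hti hvL hvq
    have h5 := hrow v t hv
    rw [hTt, muv_eq hT z hv hti, omv_eq hT z hv, if_pos hvL, if_neg hvq] at h5
    linarith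
  have hL2 : ∀ v t, g v = some t → t ≠ i → v ∈ L → v = q t →
      lam G * z v = T t - z (q i) + z w := by
    intro v t hv hti hvL hvq
    have h5 := hrow v t hv
    rw [hTt, muv_eq hT z hv hti, omv_eq hT z hv, if_pos hvL, if_pos hvq] at h5
    linarith
  have hL3 : ∀ v t, g v = some t → t ≠ i → v ∉ L → v ≠ q t → lam G * z v = T t := by
    intro v t hv hti hvL hvq
    have h5 := hrow v t hv
    rw [hTt, muv_eq hT z hv hti, omv_eq hT z hv, if_neg hvL, if_neg hvq] at h5
    linarith
  have hL4 : ∀ v t, g v = some t → t ≠ i → v ∉ L → v = q t → lam G * z v = T t + z w := by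
    intro v t hv hti hvL hvq
    have h5 := hrow v t hv
    rw [hTt, muv_eq hT z hv hti, omv_eq hT z hv, if_neg hvL, if_pos hvq] at h5
    linarith
  have hne : ∀ v ∈ L, ∀ t, g v = some t → t ≠ i := fun v hv t hvt e =>
    (hT.hL v hv).2 (by rw [hvt, e])
  have huniq : ∀ s t, q s ∈ L → q t ∈ L → s = t := fun s t hs ht =>
    uniq hMV hME hr hM hT hz.nonneg hz.eig hl hp hzw (T := T)
      (fun t ht => hL2 _ t (hT.hq t) (hne _ ht t (hT.hq t)) ht rfl)
      (fun t y' hti hy' hy'L hy'q => hL3 y' t hy' hti hy'L hy'q) hs ht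
  have step : ∀ (y y' : V) (s u : Fin r), y ∈ L → g y = some s → y' ∉ L → g y' = some u →
      u ≠ i → (y = q s ↔ y' = q u) → T s - T u ≤ z (q i) / lam G := by
    intro y y' s u hy hys hy' hyu hui hiff
    have hsi := hne y hy s hys
    exact stepP hMV hME hr hM hT hz.nonneg hz.eig hl hp (T := T)
      (fun h => hL1 y s hys hsi hy h) (fun h => hL2 y s hys hsi hy h)
      (fun h => hL3 y' u hyu hui hy' h) (fun h => hL4 y' u hyu hui hy' h)
      hy hys hy' hyu hui hiff
  refine ⟨?_, ?_, ?_⟩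
  · obtain ⟨t, ht⟩ := hT.ex
    exact ⟨t, ht, fun s hs => huniq s t hs ht⟩
  · intro v hv s hvs u hui
    by_contra hcon
    push Not at hcon
    have h5 : T s - T u ≤ z (q i) / lam G := by
      by_cases hvq : v = q s
      · refine step v (q u) s u hv hvs ?_ (hT.hq u) hui ⟨fun _ => rfl, fun _ => hvq⟩
        intro h6
        have h7 := huniq u s h6 (hvq ▸ hv)
        rw [h7] at hcon
        exact lt_irrefl _ hcon
      · obtain ⟨y', hy', hy'L, hy'q⟩ := exists_out g L (hT.room u) (q u)
        exact step v y' s u hv hvs hy'L hy' hui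
          ⟨fun h => absurd h hvq, fun h => absurd h hy'q⟩
    have h6 := hdif s u hcon.le
    rw [hTt, hTt, hmL] at h6
    have h7 : (siz g s : ℝ) + 1 ≤ siz g u := by exact_mod_cast hcon
    have h8 : z (q i) / lam G ≤ 2 / lam G := div_le_div_of_nonneg_right hp2 hl.le
    have h9 : 2 / lam G < 1 / 4 := by
      rw [div_lt_iff₀ hl]
      linarith
    linarith
  · intro s t hsi hti hst
    by_contra hcon
    push Not at hcon
    have hne' : s ≠ t := by
      rintro rfl
      omega
    obtain ⟨y, hy, hys, hyq⟩ := exists_in g L (by omega : 2 ≤ lc L g s) (q s)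
    obtain ⟨y', hy', hy'L, hy'q⟩ := exists_out g L (hT.room t) (q t)
    have h5 := step y y' s t hy hys hy'L hy' hti
      ⟨fun h => absurd h hyq, fun h => absurd h hy'q⟩
    have h6 := hcls s
    have h7 := hcls t
    rw [hTt, cw_muv hT z hsi, cw_omv hT z] at h6
    rw [hTt, cw_muv hT z hti, cw_omv hT z] at h7
    rw [← hst] at h7
    have h8 := three_le (siz g) hne' hsi hti
    rw [hNK.tot, ← hst] at h8
    have h9 := hNL.big s hsi
    have h10 : 0 ≤ c * Real.sqrt n := mul_nonneg hc.le (Real.sqrt_nonneg _)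
    have h11 : (siz g s : ℝ) + siz g s + siz g i ≤ n := by exact_mod_cast h8
    have h12 : (lc L g t : ℝ) + 2 ≤ lc L g s := by exact_mod_cast hcon
    have h13 : 2 * z (q i) ≤ ((lc L g s : ℝ) - lc L g t) * z (q i) :=
      mul_le_mul_of_nonneg_right (by linarith) hp.le
    have h14 := final_le hl (Nat.cast_nonneg (siz g s)) (by linarith) hp h13
      (D := T s - T t) (by linarith)
    linarith

end MP0c3a8f
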