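import Pool.Agent.Work.MP_0c3a8f_co.PB.Stmts8

/-!
# MP_0c3a8f_co: the exact extremal graphs for `F = K_{r+1}`: nearly balanced classes and small `D`

`q = qq r = 1 - 1/r`.  The proofs are in the specifications (table `helpwanted`).
-/

open Finset

namespace MP0c3a8f

/-! ### Tools -/

/-- (SQF) sums of squares of degrees: stars, triangles, or a deficit -/
def SQF_statement : Prop :=
  ∀ (V : Type) [Fintype V] [Nonempty V] (M : SimpleGraph V),
    (∃ w, ∀ e ∈ M.edgeSet, w ∈ e) ∨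
    (∃ x y z, M.Adj x y ∧ M.Adj y z ∧ M.Adj x z ∧
      M.edgeSet = {s(x, y), s(y, z), s(x, z)}) ∨
    4 * ∑ v, ({u | M.Adj v u}.ncard) ^ 2 + M.edgeSet.ncard
      ≤ 4 * (M.edgeSet.ncard ^ 2 + M.edgeSet.ncard)

/-- (FAMG) existence of graphs of type `P` with prescribed numbers of leaves -/
def FAMG_statement : Prop :=
  ∀ (r : ℕ) (τ l : Fin r → ℕ) (i s : Fin r), 3 ≤ r → l i = 0 → s ≠ i → 1 ≤ l s →
    (∀ t, ∑ u, l u + 2 ≤ τ t) →
    ∃ (k : ℕ) (H : SimpleGraph (Fin k)) (f : Fin k → Option (Fin r)) (w : Fin k)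
      (q : Fin r → Fin k) (L : Finset (Fin k)), TyP H f w q i L ∧ L.card = ∑ t, l t ∧
      (∀ t, lc L f t = l t) ∧ (∀ t, q t ∈ L ↔ t = s) ∧ ∀ t, siz f t = τ t

/-- (TVP) test vectors for graphs of type `P` -/
def TVP_statement : Prop :=
  ∀ (r : ℕ) (V : Type) [Fintype V] (H : SimpleGraph V) (f : V → Option (Fin r)) (w : V)
    (q : Fin r → V) (i : Fin r) (L : Finset V) (l ω P X : ℝ) (T : Fin r → ℝ), 3 ≤ r →
    TyP H f w q i L → (∃! t, q t ∈ L) → 0 < l →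
    (∀ t, t ≠ i → T t * (l + siz f t) = l + lc L f t * P - ω) →
    T i * (l + siz f i) = l + X - ω → l * P = T i - X + ω →
    l * X = ∑ t, (if t = i then 0 else lc L f t * (T t - P)) + ω →
    0 < ((r : ℝ) - 1 - ∑ t, T t) * ((r : ℝ) - ∑ t, T t)
      + (l * P + ∑ t, (if t = i then 0 else T t + ω) - P - l ^ 2 * ω) / l * ω →
    l < lam H

/-- (CEN) the centre of the star is in the larger class -/
def CEN_statement : Prop :=
  ∀ (r : ℕ) (C : ℝ), 3 ≤ r → 0 ≤ C → ∃ n₀ : ℕ, ∀ (V U : Type) [Fintype V] [Fintype U]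
    (G : SimpleGraph V) (H : SimpleGraph U) (f : V → Option (Fin r)) (f' : U → Option (Fin r))
    (w : V) (w' : U) (q : Fin r → V) (q' : Fin r → U) (s i : Fin r) (L : Finset V)
    (L' : Finset U) (n : ℕ), n₀ ≤ n → TyP G f w q s L → TyP H f' w' q' i L' → s ≠ i →
    NK n C G f → (∀ t, siz f' t = siz f t) → siz f s < siz f i → (∀ v ∈ L, f v = some i) →
    (∀ v ∈ L', f' v = some s) → L'.card = L.card → 2 ≤ L.card → lam G < lam H

/-- type `T`: three missing edges which form a triangle on `x, y, z` -/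
structure TyT {V : Type} {r : ℕ} (G : SimpleGraph V) (f : V → Option (Fin r)) (w : V)
    (q : Fin r → V) (x y z : V) : Prop where
  out : ∀ v, f v = none ↔ v = w
  hq : ∀ t, f (q t) = some t
  wn : ∀ v, G.Adj w v ↔ ∃ t, v = q t
  cx : f x ≠ none
  cy : f y ≠ none
  cz : f z ≠ none
  xy : f x ≠ f y
  yz : f y ≠ f z
  xz : f x ≠ f z
  core : ∀ u v, f u ≠ none → f v ≠ none → (G.Adj u v ↔ f u ≠ f v ∧ s(u, v) ≠ s(x, y) ∧
    s(u, v) ≠ s(y, z) ∧ s(u, v) ≠ s(x, z))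

/-- (TRI) a star is better than a triangle -/
def TRI_statement : Prop :=
  ∀ (r : ℕ) (C : ℝ), 3 ≤ r → 0 ≤ C → ∃ n₀ : ℕ, ∀ (V U : Type) [Fintype V] [Fintype U]
    (G : SimpleGraph V) (H : SimpleGraph U) (f : V → Option (Fin r)) (f' : U → Option (Fin r))
    (w x y z : V) (w' : U) (q : Fin r → V) (q' : Fin r → U) (i j k : Fin r)
    (L' : Finset U) (n : ℕ), n₀ ≤ n → TyT G f w q x y z → TyP H f' w' q' i L' →
    f x = some i → f y = some j → f z = some k → x = q i → y = q j →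
    NK n C G f → (∀ t, siz f' t = siz f t) → siz f j = siz f i → siz f k = siz f i →
    (∃! t, q' t ∈ L') → lc L' f' j = 2 → lc L' f' k = 1 → L'.card = 3 → lam G < lam H

/-- (TCG) the eigenvalue equations and the weights of the classes -/
def TCG_statement : Prop :=
  ∀ (r : ℕ) (V : Type) [Fintype V] (G : SimpleGraph V) (z : V → ℝ) (g : V → Option (Fin r))
    (n : ℕ), Indep G g → Per G z g n →
    (∀ v t, g v = some t → lam G * z v = tv g z n t - muv G g z v + omv G g z v) ∧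
    ∀ t, (lam G + siz g t) * tv g z n t = lam G * n
      + (cw (fun v => muv G g z v) g (some t) - cw (fun v => omv G g z v) g (some t))

open Classical in
/-- (SWY) second order comparison, complete core -/
def SWY_statement : Prop :=
  ∀ (r : ℕ) (V : Type) [Fintype V] (G H : SimpleGraph V) (z : V → ℝ)
    (g : V → Option (Fin r)) (w u : V) (n : ℕ), Indep G g → (missSet G g).ncard = 0 →
    Indep H g → (missSet H g).ncard = 0 → g w = none → g u = none → w ≠ u → H.Adj w u →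
    (∀ x y, g x = none → x ≠ w → x ≠ u → ¬ H.Adj x y) → Per G z g n → 0 < lam G →
    (∀ t, (siz g t : ℝ) ≤ lam G) → lam H ≤ lam G →
    cov H g z w ^ 2 + cov H g z u ^ 2 + 2 * (cov H g z w * cov H g z u) / lam G
      ≤ ∑ x, if g x = none then cov G g z x ^ 2 + cov G g z x * omv G g z x else 0

/-! ### Nearly balanced classes, few missing pairs and outer edges -/

/-- (PSN) type `P`, nearly balanced classes -/
def PSN_statement : Prop :=
  ∀ (r : ℕ) (C : ℝ), 3 ≤ r → 0 ≤ C → ∃ ε > (0 : ℝ), ∃ n₀ : ℕ, ∀ (V : Type) [Fintype V]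
    (G : SimpleGraph V) (g : V → Option (Fin r)) (n m : ℕ), n₀ ≤ n → MxK r m G →
    NK n C G g → dev (siz g) ≤ ε * n → (outSet G g).ncard = r → 1 ≤ (missSet G g).ncard →
    ∃ (w : V) (q : Fin r → V) (i : Fin r) (L : Finset V), TyP G g w q i L ∧
      ∀ t, siz g t ≤ siz g i

/-- (PEK) the leaves, type `P` -/
def PEK_statement : Prop :=
  ∀ (r : ℕ) (C : ℝ), 3 ≤ r → 0 ≤ C → ∃ n₀ : ℕ, ∀ (V : Type) [Fintype V]
    (G : SimpleGraph V) (g : V → Option (Fin r)) (w : V) (q : Fin r → V) (i : Fin r)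
    (L : Finset V) (n m : ℕ), n₀ ≤ n → MxK r m G → NK n C G g → TyP G g w q i L →
    (∃! t, q t ∈ L) ∧
    (∀ v ∈ L, ∀ t, g v = some t → ∀ s, s ≠ i → siz g s ≤ siz g t) ∧
    ∀ s t, s ≠ i → t ≠ i → siz g s = siz g t → lc L g s ≤ lc L g t + 1

/-- (QSU) type `Q` -/
def QSU_statement : Prop :=
  ∀ (r : ℕ) (C : ℝ), 3 ≤ r → 0 ≤ C → ∃ n₀ : ℕ, ∀ (V : Type) [Fintype V]
    (G : SimpleGraph V) (g : V → Option (Fin r)) (n m : ℕ), n₀ ≤ n →
    MxK r m G → NK n C G g → (missSet G g).ncard = 1 → r + 1 ≤ (outSet G g).ncard →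
    (outSet G g).ncard ≤ 2 * r - 1 →
    ∃ (w p p' : V) (i j : Fin r), Th1 G g w p p' i j ∧ (∀ t, siz g t ≤ siz g i) ∧
      (∀ t, t ≠ i → siz g t ≤ siz g j) ∧ ∑ t, nbn G g w t = (outSet G g).ncard

/-- (RIK) `w` belongs to a largest class, type `R` -/
def RIK_statement : Prop :=
  ∀ (r : ℕ) (C : ℝ), 3 ≤ r → 0 ≤ C → ∃ n₀ : ℕ, ∀ (V : Type) [Fintype V]
    (G : SimpleGraph V) (g : V → Option (Fin r)) (w u : V) (v : Fin r → V) (k : Fin r)
    (n m : ℕ), n₀ ≤ n → MxK r m G → NK n C G g → Th2 G g w u v k →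
    ∀ t, siz g t ≤ siz g k

/-! ### Small `D` -/

/-- (FLB) the Perron vector of a graph which is complete multipartite with one more vertex, up to
boundedly many edges -/
def FLB_statement : Prop :=
  ∀ r N : ℕ, 3 ≤ r → ∃ (C : ℝ) (n₀ : ℕ), 0 ≤ C ∧ ∀ (V : Type) [Fintype V]
    (G : SimpleGraph V) (g : V → Option (Fin r)) (w : V) (n : ℕ), n₀ ≤ n → Bd n N G g w →
    (∃ z, Per G z g n) ∧ ∀ z, Per G z g n →
      (∀ v, g v ≠ none → |z v - 1| ≤ C / n) ∧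
      (∀ v, g v = none → v ≠ w → z v ≤ C / n) ∧
      z w ≤ (2 * ((∑ t, nbn G g w t : ℕ) : ℝ) + C) / n ∧ |lam G - qq r * n| ≤ C

/-- (RSS) type `R`, small `D` -/
def RSS_statement : Prop :=
  ∀ r N : ℕ, 3 ≤ r → ∃ ε > (0 : ℝ), ∃ b₁ n₀ : ℕ, ∀ (V : Type) [Fintype V]
    (G : SimpleGraph V) (g : V → Option (Fin r)) (w : V) (n m : ℕ), n₀ ≤ n → MxK r m G →
    Bd n N G g w → (missSet G g).ncard = 0 → b₁ ≤ (outSet G g).ncard →
    ((outSet G g).ncard : ℝ) ≤ ε * n →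
    ∃ (w' u : V) (v : Fin r → V) (k : Fin r), Th2 G g w' u v k ∧
      (lightSet G g {w'}).ncard = r

/-- (RSE) the neighbours of `w`, type `R`, small `D` -/
def RSE_statement : Prop :=
  ∀ r N : ℕ, 3 ≤ r → ∃ ε > (0 : ℝ), ∃ n₀ : ℕ, ∀ (V : Type) [Fintype V]
    (G : SimpleGraph V) (g : V → Option (Fin r)) (w u : V) (v : Fin r → V) (k : Fin r)
    (n m : ℕ), n₀ ≤ n → MxK r m G → Bd n N G g w → ((outSet G g).ncard : ℝ) ≤ ε * n →
    Th2 G g w u v k →
    (∀ t, siz g t ≤ siz g k) ∧ (∃! t, t ≠ k ∧ ¬ G.Adj w (v t)) ∧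
    ∀ s t, s ≠ k → t ≠ k →
      (siz g s = siz g t → nbn G g w s ≤ nbn G g w t + 1) ∧
      (siz g t < siz g s → nbn G g w s = 1)

/-! ### Reduction to these cases -/

/-- (NLV) from `AltII` -/
def NLV_statement : Prop :=
  ∀ r N : ℕ, 3 ≤ r → ∃ C : ℝ, 0 ≤ C ∧ ∀ ε > (0 : ℝ), ∃ (c : ℝ) (n₀ : ℕ), 0 < c ∧
    ∀ (V : Type) [Fintype V] (G : SimpleGraph V) (n B : ℕ), n₀ ≤ n → B ≤ n →
    G.edgeSet.ncard + B = (SimpleGraph.turanGraph n r).edgeSet.ncard → AltII r n B N G →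
    ∃ g : V → Option (Fin r), NK n C G g ∧
      dev (siz g) ≤ 2 * B + C * Real.sqrt (Real.sqrt n) ∧ (ε * n ≤ B → ∃ i, NL n C c G g i)

/-- (AIK) from `AltI`, very small `D` -/
def AIK_statement : Prop :=
  ∀ r N : ℕ, 3 ≤ r → ∃ (C : ℝ) (n₀ : ℕ), 0 ≤ C ∧ ∀ (V : Type) [Fintype V]
    (G : SimpleGraph V) (n D : ℕ), n₀ ≤ n → (D : ℝ) ≤ N * Real.sqrt (Real.sqrt n) →
    G.edgeSet.ncard = (SimpleGraph.turanGraph n r).edgeSet.ncard + D → AltI r n D N G →
    ∃ g : V → Option (Fin r), NK n C G g ∧ dev (siz g) ≤ C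

end MP0c3a8f
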