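import Pool.Agent.Work.MP_0c3a8f_co.PB.Stmts8
import Pool.Agent.Work.MP_0c3a8f_co.PB.ItemFAM1

/-!
# MP_0c3a8f_co: graphs of type `P`
-/

open Finset

namespace MP0c3a8f

namespace ItemFAMP

open ItemFAM1

/-- the adjacency relation -/
def rel {r : ℕ} (τ : Fin r → ℕ) (a : ℕ) (i j : Fin r) :
    Option (Σ t : Fin r, Fin (τ t)) → Option (Σ t : Fin r, Fin (τ t)) → Prop
  | none, none => False
  | none, some q => q.2.val = 0
  | some q, none => q.2.val = 0
  | some q, some q' => q.1 ≠ q'.1 ∧ ¬ (q.1 = i ∧ q.2.val = 0 ∧ q'.1 = j ∧ q'.2.val < a) ∧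
      ¬ (q'.1 = i ∧ q'.2.val = 0 ∧ q.1 = j ∧ q.2.val < a)

/-- the graph -/
def gr {r : ℕ} (τ : Fin r → ℕ) (a : ℕ) (i j : Fin r) :
    SimpleGraph (Option (Σ t : Fin r, Fin (τ t))) where
  Adj := rel τ a i j
  symm := ⟨fun x y h => by
    rcases x with _ | q <;> rcases y with _ | q'
    · exact h
    · exact h
    · exact h
    · exact ⟨h.1.symm, h.2.2, h.2.1⟩⟩
  loopless := ⟨fun x h => by
    rcases x with _ | q
    · exact h
    · exact h.1 rfl⟩

lemma mem_iff {r : ℕ} {τ : Fin r → ℕ} {j : Fin r} {a : ℕ} (h : a ≤ τ j)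
    (q : Σ t : Fin r, Fin (τ t)) :
    (∃ y : Fin a, (⟨j, Fin.castLE h y⟩ : Σ t : Fin r, Fin (τ t)) = q) ↔
      q.1 = j ∧ q.2.val < a := by
  obtain ⟨t, y⟩ := q
  constructor
  · rintro ⟨z, hz⟩
    cases hz
    exact ⟨rfl, z.2⟩
  · rintro ⟨h1, h2⟩
    simp only at h1 h2
    subst h1
    exact ⟨⟨y.val, h2⟩, rfl⟩

end ItemFAMP

open ItemFAM1 ItemFAMP in
theorem prfFAMP : FAMP_statement := by
  intro r a τ hr ha hτ
  obtain ⟨i, hi⟩ : ∃ i : Fin r, i.val = 0 := ⟨⟨0, by omega⟩, rfl⟩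
  obtain ⟨j, hj⟩ : ∃ j : Fin r, j.val = 1 := ⟨⟨1, by omega⟩, rfl⟩
  have hij : j ≠ i := by
    intro h
    rw [h, hi] at hj
    omega
  obtain ⟨k, e, H, f, hadj, hf, hsiz, -⟩ := transfer (ItemFAMP.gr τ a i j) (clF τ)
  have h0 : ∀ t, 0 < τ t := fun t => by have := hτ t; omega
  have hal : a ≤ τ j := by have := hτ j; omega
  set L : Finset (Fin k) := Finset.univ.image
    (fun y : Fin a => e (some ⟨j, Fin.castLE hal y⟩)) with hL
  have hLc : L.card = a := by
    rw [hL, Finset.card_image_of_injective, Finset.card_univ, Fintype.card_fin]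
    intro y y' h
    have h1 := inj_some τ j (e.injective h)
    exact Fin.castLE_injective hal h1
  have hmem : ∀ q : Σ t : Fin r, Fin (τ t), e (some q) ∈ L ↔ q.1 = j ∧ q.2.val < a := by
    intro q
    rw [← ItemFAMP.mem_iff hal q, hL, Finset.mem_image]
    constructor
    · rintro ⟨y, -, hy⟩
      have := e.injective hy
      exact ⟨y, Option.some.inj this⟩
    · rintro ⟨y, hy⟩
      exact ⟨y, Finset.mem_univ _, by rw [hy]⟩
  have hmem0 : e none ∉ L := by
    rw [hL, Finset.mem_image]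
    rintro ⟨y, -, hy⟩
    have := e.injective hy
    cases this
  refine ⟨k, H, f, e none, fun t => e (some ⟨t, ⟨0, h0 t⟩⟩), i, L, ?_, hLc, ?_⟩
  swap
  · intro t
    rw [hsiz, siz_clF]
  refine ⟨?_, ?_, ?_, ?_, ?_, ?_, ?_⟩
  · intro v
    obtain ⟨x, rfl⟩ := e.surjective v
    rw [hf, e.injective.eq_iff]
    rcases x with _ | q <;> simp [clF]
  · intro t
    rw [hf]
    rfl
  · intro v
    obtain ⟨x, rfl⟩ := e.surjective v
    rw [hadj]
    rcases x with _ | q
    · constructor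
      · intro h
        exact absurd h (SimpleGraph.irrefl _)
      · rintro ⟨t, ht⟩
        have := e.injective ht
        cases this
    · constructor
      · intro h
        refine ⟨q.1, ?_⟩
        rw [e.injective.eq_iff, Option.some_inj, eq_iff (h0 q.1)]
        exact ⟨rfl, h⟩
      · rintro ⟨t, ht⟩
        rw [e.injective.eq_iff, Option.some_inj, eq_iff (h0 t)] at ht
        exact ht.2
  · intro v hv
    obtain ⟨x, rfl⟩ := e.surjective v
    rcases x with _ | q
    · exact absurd hv hmem0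
    · rw [hmem] at hv
      rw [hf]
      refine ⟨by simp [clF], ?_⟩
      simp only [clF, ne_eq, Option.some_inj]
      rw [hv.1]
      exact hij
  · intro u v hu hv
    obtain ⟨x, rfl⟩ := e.surjective u
    obtain ⟨y, rfl⟩ := e.surjective v
    rw [hf] at hu hv
    rw [hadj, hf, hf]
    rcases x with _ | q
    · exact absurd rfl hu
    rcases y with _ | q'
    · exact absurd rfl hv
    have h1 : (ItemFAMP.gr τ a i j).Adj (some q) (some q') ↔ q.1 ≠ q'.1 ∧
        ¬ (q.1 = i ∧ q.2.val = 0 ∧ q'.1 = j ∧ q'.2.val < a) ∧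
        ¬ (q'.1 = i ∧ q'.2.val = 0 ∧ q.1 = j ∧ q.2.val < a) := Iff.rfl
    have h2 : clF τ (some q) ≠ clF τ (some q') ↔ q.1 ≠ q'.1 := by simp [clF]
    rw [h1, h2, hmem, hmem, e.injective.eq_iff, e.injective.eq_iff, Option.some_inj,
      Option.some_inj, eq_iff (h0 i), eq_iff (h0 i)]
    tauto
  · refine ⟨j, ?_⟩
    rw [hmem]
    exact ⟨rfl, ha⟩
  · intro t
    rw [hLc, hsiz, siz_clF]
    exact hτ t

end MP0c3a8f
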