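import Pool.Agent.Work.MP_0c3a8f_co.PB.Stmts8

/-!
# MP_0c3a8f_co, PB8, item MVE: moving an edge
-/

open Finset

namespace MP0c3a8f

namespace ItemMVE

variable {V : Type} [Fintype V]

/-- indicator of a pair -/
noncomputable def ind (a b i j : V) : ℝ := by
  classical
  exact (if i = a then 1 else 0) * (if j = b then 1 else 0)
    + (if i = b then 1 else 0) * (if j = a then 1 else 0)

omit [Fintype V] in
theorem ind_eq (a b i j : V) (hab : a ≠ b) :
    (s(i, j) = s(a, b) → ind a b i j = 1) ∧ (s(i, j) ≠ s(a, b) → ind a b i j = 0) := by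
  classical
  constructor
  · intro h
    rw [Sym2.eq_iff] at h
    unfold ind
    rcases h with ⟨h1, h2⟩ | ⟨h1, h2⟩
    · subst h1; subst h2
      rw [if_pos rfl, if_pos rfl, if_neg hab]
      ring
    · subst h1; subst h2
      rw [if_neg (fun h => hab h.symm), if_pos rfl, if_pos rfl]
      ring
  · intro h
    rw [ne_eq, Sym2.eq_iff, not_or] at h
    unfold ind
    have e1 : (if i = a then (1 : ℝ) else 0) * (if j = b then 1 else 0) = 0 := by
      by_cases h1 : i = a
      · rw [if_neg (fun h2 => h.1 ⟨h1, h2⟩), mul_zero]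
      · rw [if_neg h1, zero_mul]
    have e2 : (if i = b then (1 : ℝ) else 0) * (if j = a then 1 else 0) = 0 := by
      by_cases h1 : i = b
      · rw [if_neg (fun h2 => h.2 ⟨h1, h2⟩), mul_zero]
      · rw [if_neg h1, zero_mul]
    rw [e1, e2, add_zero]

theorem sum_ind (a b : V) (x : V → ℝ) :
    ∑ i, ∑ j, ind a b i j * (x i * x j) = 2 * (x a * x b) := by
  classical
  have h : ∀ i j, ind a b i j * (x i * x j)
      = (if i = a then x i else 0) * (if j = b then x j else 0)
        + (if i = b then x i else 0) * (if j = a then x j else 0) := by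
    intro i j
    have h0 : ∀ (p q : Prop) [Decidable p] [Decidable q] (s t : ℝ),
        (if p then (1 : ℝ) else 0) * (if q then 1 else 0) * (s * t)
          = (if p then s else 0) * (if q then t else 0) := by
      intro p q _ _ s t
      by_cases hp : p <;> by_cases hq : q
      · rw [if_pos hp, if_pos hq, if_pos hp, if_pos hq]
        ring
      · rw [if_pos hp, if_neg hq, if_pos hp, if_neg hq]
        ring
      · rw [if_neg hp, if_pos hq, if_neg hp, if_pos hq]
        ring
      · rw [if_neg hp, if_neg hq, if_neg hp, if_neg hq]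
        ring
    unfold ind
    rw [add_mul, h0, h0]
  simp_rw [h, Finset.sum_add_distrib, ← Finset.mul_sum, ← Finset.sum_mul]
  simp only [Finset.sum_ite_eq', Finset.mem_univ, if_true]
  ring

omit [Fintype V] in
theorem adj_symm (G : SimpleGraph V) (i j : V) : adj G i j = adj G j i := by
  unfold adj
  by_cases h : G.Adj i j
  · rw [if_pos h, if_pos h.symm]
  · rw [if_neg h, if_neg (fun h' => h h'.symm)]

omit [Fintype V] in
theorem adj_diag (G : SimpleGraph V) (i : V) : adj G i i = 0 := by
  unfold adj
  rw [if_neg (G.loopless.irrefl i)]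

/-- the direction of the move -/
noncomputable def dv (y y' v : V) : ℝ := by
  classical
  exact (if v = y' then 1 else 0) - (if v = y then 1 else 0)

theorem sum_dv (y y' : V) (f : V → ℝ) : ∑ v, dv y y' v * f v = f y' - f y := by
  classical
  unfold dv
  simp only [sub_mul, ite_mul, one_mul, zero_mul, Finset.sum_sub_distrib, Finset.sum_ite_eq',
    Finset.mem_univ, if_true]

theorem qf_move (G : SimpleGraph V) (z : V → ℝ) (l s : ℝ) (y y' : V)
    (hz : ∀ v, ∑ u, adj G v u * z u = l * z v) :
    qf G (fun v => z v + s * dv y y' v)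
      = l * ∑ v, z v ^ 2 + 2 * s * (l * (z y' - z y)) - 2 * s ^ 2 * adj G y y' := by
  have e1 : ∀ i j, adj G i j * ((z i + s * dv y y' i) * (z j + s * dv y y' j))
      = z i * (adj G i j * z j) + s * (dv y y' i * (adj G i j * z j))
        + s * (z i * (dv y y' j * adj G i j)) + s ^ 2 * (dv y y' i * (dv y y' j * adj G i j)) := by
    intro i j
    ring
  have f1 : ∑ i, ∑ j, z i * (adj G i j * z j) = l * ∑ v, z v ^ 2 := by
    rw [Finset.mul_sum]
    refine Finset.sum_congr rfl fun i _ => ?_
    rw [← Finset.mul_sum, hz i]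
    ring
  have f2 : ∑ i, ∑ j, s * (dv y y' i * (adj G i j * z j)) = s * (l * (z y' - z y)) := by
    have : ∀ i, ∑ j, s * (dv y y' i * (adj G i j * z j)) = s * (dv y y' i * (l * z i)) := by
      intro i
      rw [← Finset.mul_sum, ← Finset.mul_sum, hz i]
    rw [Finset.sum_congr rfl fun i _ => this i, ← Finset.mul_sum, sum_dv]
    ring
  have f3 : ∑ i, ∑ j, s * (z i * (dv y y' j * adj G i j)) = s * (l * (z y' - z y)) := by
    rw [Finset.sum_comm, ← f2]
    refine Finset.sum_congr rfl fun i _ => Finset.sum_congr rfl fun j _ => ?_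
    rw [adj_symm G j i]
    ring
  have f4 : ∑ i, ∑ j, s ^ 2 * (dv y y' i * (dv y y' j * adj G i j))
      = s ^ 2 * (-2 * adj G y y') := by
    have : ∀ i, ∑ j, s ^ 2 * (dv y y' i * (dv y y' j * adj G i j))
        = s ^ 2 * (dv y y' i * (adj G i y' - adj G i y)) := by
      intro i
      rw [← Finset.mul_sum, ← Finset.mul_sum, sum_dv]
    rw [Finset.sum_congr rfl fun i _ => this i, ← Finset.mul_sum, sum_dv, adj_diag, adj_diag,
      adj_symm G y' y]
    ring
  unfold qf
  simp_rw [e1, Finset.sum_add_distrib]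
  rw [f1, f2, f3, f4]
  ring

omit [Fintype V] in
theorem dv_one {y y' : V} (h : y ≠ y') : dv y y' y' = 1 := by
  unfold dv
  rw [if_pos rfl, if_neg (fun h' => h h'.symm), sub_zero]

omit [Fintype V] in
theorem dv_neg {y y' : V} (h : y ≠ y') : dv y y' y = -1 := by
  unfold dv
  rw [if_pos rfl, if_neg h, zero_sub]

omit [Fintype V] in
theorem dv_zero {w y y' : V} (h : w ≠ y) (h' : w ≠ y') : dv y y' w = 0 := by
  unfold dv
  rw [if_neg h', if_neg h, sub_zero]

theorem sq_move (z : V → ℝ) (s : ℝ) {y y' : V} (h : y ≠ y') :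
    ∑ v, (z v + s * dv y y' v) ^ 2
      = ∑ v, z v ^ 2 + 2 * s * (z y' - z y) + 2 * s ^ 2 := by
  classical
  have e1 : ∀ v, (z v + s * dv y y' v) ^ 2
      = z v ^ 2 + 2 * s * (dv y y' v * z v) + s ^ 2 * (dv y y' v * dv y y' v) := by
    intro v
    ring
  simp_rw [e1, Finset.sum_add_distrib, ← Finset.mul_sum, sum_dv]
  rw [dv_one h, dv_neg h]
  ring

end ItemMVE

open ItemMVE in
theorem prfMVE : P_statement → MVE_statement := by
  intro hP V _ G H z w y y' hz0 hz hl hw hwy' hA hnA hH hc
  classical
  have hne : Nonempty V := ⟨w⟩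
  have hwy : w ≠ y := fun h => G.loopless.irrefl w (by rw [← h] at hA; exact hA)
  have hyy' : y ≠ y' := fun h => hnA (h ▸ hA)
  set l := lam G with hldef
  set s := z w / l with hsdef
  set x : V → ℝ := fun v => z v + s * dv y y' v with hx
  have hpair : s(w, y) ≠ s(w, y') := by
    intro h
    rw [Sym2.eq_iff] at h
    rcases h with ⟨_, h⟩ | ⟨h, _⟩
    · exact hyy' h
    · exact hwy' h
  have hadj : ∀ i j, adj H i j = adj G i j + ind w y' i j - ind w y i j := by
    intro i j
    have i1 := ind_eq w y' i j hwy'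
    have i2 := ind_eq w y i j hwy
    by_cases h1 : s(i, j) = s(w, y')
    · have h2 : s(i, j) ≠ s(w, y) := fun h => hpair (h.symm.trans h1)
      rw [i1.1 h1, i2.2 h2]
      have h3 : H.Adj i j := (hH i j).2 (Or.inr h1)
      have h4 : ¬ G.Adj i j := by
        intro h
        rw [Sym2.eq_iff] at h1
        rcases h1 with ⟨h5, h6⟩ | ⟨h5, h6⟩
        · subst h5; subst h6; exact hnA h
        · subst h5; subst h6; exact hnA h.symm
      unfold adj
      rw [if_pos h3, if_neg h4]
      ring
    · rw [i1.2 h1]
      by_cases h2 : s(i, j) = s(w, y)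
      · rw [i2.1 h2]
        have h3 : ¬ H.Adj i j := by
          intro h
          rcases (hH i j).1 h with h | h
          · exact h.2 h2
          · exact h1 h
        have h4 : G.Adj i j := by
          rw [Sym2.eq_iff] at h2
          rcases h2 with ⟨h5, h6⟩ | ⟨h5, h6⟩
          · rw [h5, h6]; exact hA
          · rw [h5, h6]; exact hA.symm
        unfold adj
        rw [if_neg h3, if_pos h4]
        ring
      · rw [i2.2 h2]
        unfold adj
        by_cases h3 : G.Adj i j
        · rw [if_pos h3, if_pos ((hH i j).2 (Or.inl ⟨h3, h2⟩))]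
          ring
        · have h4 : ¬ H.Adj i j := by
            intro h
            rcases (hH i j).1 h with h | h
            · exact h3 h.1
            · exact h1 h
          rw [if_neg h3, if_neg h4]
          ring
  have hqH : qf H x = qf G x + 2 * (x w * x y') - 2 * (x w * x y) := by
    unfold qf
    have : ∀ i j, adj H i j * (x i * x j) = adj G i j * (x i * x j)
        + ind w y' i j * (x i * x j) - ind w y i j * (x i * x j) := by
      intro i j
      rw [hadj i j]
      ring
    simp_rw [this, Finset.sum_sub_distrib, Finset.sum_add_distrib]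
    rw [sum_ind, sum_ind]
  have hqG := qf_move G z l s y y' hz
  have hsq := sq_move z s hyy'
  have xw : x w = z w := by
    show z w + s * dv y y' w = z w
    rw [dv_zero hwy hwy']
    ring
  have xy' : x y' = z y' + s := by
    show z y' + s * dv y y' y' = z y' + s
    rw [dv_one hyy']
    ring
  have xy : x y = z y - s := by
    show z y + s * dv y y' y = z y - s
    rw [dv_neg hyy']
    ring
  obtain ⟨hH0, hHq, _⟩ := hP V H
  have h1 := hHq x
  have hsl : s * l = z w := by
    rw [hsdef]
    field_simp
  have hs0 : 0 < s := div_pos hw hl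
  have hxpos : 0 < ∑ i, x i ^ 2 := by
    refine Finset.sum_pos' (fun i _ => sq_nonneg _) ⟨w, Finset.mem_univ w, ?_⟩
    rw [xw]
    exact pow_pos hw 2
  -- the main computation
  have hkey : l * ∑ i, x i ^ 2 < qf H x := by
    rw [hqH, xw, xy', xy]
    have hqG' : qf G x = l * ∑ v, z v ^ 2 + 2 * s * (l * (z y' - z y)) - 2 * s ^ 2 * adj G y y' :=
      hqG
    have hsq' : ∑ v, x v ^ 2 = ∑ v, z v ^ 2 + 2 * s * (z y' - z y) + 2 * s ^ 2 := hsq
    rw [hqG', hsq']
    have h2 : s * adj G y y' < l * (z y' - z y) + z w := hc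
    have h3 : 0 < s * (l * (z y' - z y) + z w - s * adj G y y') :=
      mul_pos hs0 (by linarith)
    have h4 : z w = s * l := hsl.symm
    rw [h4] at h3 ⊢
    nlinarith [h3]
  by_contra hcon
  have hcon' : lam H ≤ l := not_lt.1 hcon
  have h2 : lam H * ∑ i, x i ^ 2 ≤ l * ∑ i, x i ^ 2 :=
    mul_le_mul_of_nonneg_right hcon' hxpos.le
  linarith

end MP0c3a8f
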