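import Pool.Agent.Work.MP_0c3a8f_co.PB.Stmts8
import Pool.Agent.Work.MP_0c3a8f_co.Bd.B16
import Pool.Agent.Work.MP_0c3a8f_co.Bd.B01

/-!
# MP_0c3a8f_co, item PST: type `P`
-/

open Finset

namespace MP0c3a8f

namespace ItemPST

/-! ### Real inequalities -/

/-- not all missing pairs meet the large class -/
theorem realA {h K D c a ti tj X S : ℝ} (hh : 1 ≤ h) (hK : 1 ≤ K) (hD : 0 ≤ D)
    (hc : 1 ≤ c * K) (ha : 1 ≤ a) (haK : a ≤ K * h) (hκ : 2 * K ≤ h ^ 2)
    (hti : 1 - 2 * K / h ^ 2 ≤ ti) (htj : 1 - 2 * K / h ^ 2 ≤ tj)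
    (hX : c / 16 * h ^ 2 - 8 * K * a ^ 2 / h ^ 4 ≤ X)
    (hS : S ≤ (1 + 2 * K / h ^ 2) ^ 2 * (a ^ 2 + a))
    (hst : X + (a ^ 2 * tj ^ 2 + a * ti ^ 2) - S ≤ D * a ^ 3 / h ^ 4)
    (hbig : 16 * K * (24 * K ^ 3 + D * K ^ 3) < h) : False := by
  have hh0 : 0 < h := by linarith
  have hK0 : 0 < K := by linarith
  have ha0 : 0 < a := by linarith
  obtain ⟨κ, hκd⟩ : ∃ κ : ℝ, κ = 2 * K / h ^ 2 := ⟨_, rfl⟩
  rw [← hκd] at hti htj hS
  have hκ0 : 0 < κ := by rw [hκd]; positivity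
  have hκ1 : κ ≤ 1 := by
    rw [hκd, div_le_one (by positivity)]
    exact hκ
  have e1 : (1 - κ) ^ 2 * (a ^ 2 + a) ≤ a ^ 2 * tj ^ 2 + a * ti ^ 2 := by
    have h1 : (1 - κ) ^ 2 ≤ tj ^ 2 := pow_le_pow_left₀ (by linarith) htj 2
    have h2 : (1 - κ) ^ 2 ≤ ti ^ 2 := pow_le_pow_left₀ (by linarith) hti 2
    have h3 := mul_le_mul_of_nonneg_left h1 (sq_nonneg a)
    have h4 := mul_le_mul_of_nonneg_left h2 ha0.le
    linarith
  have ha2 : a ^ 2 ≤ (K * h) ^ 2 := pow_le_pow_left₀ ha0.le haK 2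
  have ha3 : a ^ 3 ≤ (K * h) ^ 3 := pow_le_pow_left₀ ha0.le haK 3
  have e2 : 4 * κ * (a ^ 2 + a) ≤ 16 * K ^ 3 := by
    have h1 : a ^ 2 + a ≤ 2 * (K * h) ^ 2 := by
      have : a ≤ a ^ 2 := by
        calc a = a * 1 := by ring
          _ ≤ a * a := mul_le_mul_of_nonneg_left ha ha0.le
          _ = a ^ 2 := by ring
      linarith
    calc 4 * κ * (a ^ 2 + a) ≤ 4 * κ * (2 * (K * h) ^ 2) :=
          mul_le_mul_of_nonneg_left h1 (by positivity)
      _ = 16 * K ^ 3 := by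
          rw [hκd]
          field_simp
          ring
  have e3 : (8 * K * a ^ 2 + D * a ^ 3) / h ^ 4 ≤ 8 * K ^ 3 + D * K ^ 3 := by
    rw [div_le_iff₀ (by positivity)]
    have h1 : 8 * K * a ^ 2 ≤ 8 * K ^ 3 * h ^ 4 := by
      calc 8 * K * a ^ 2 ≤ 8 * K * (K * h) ^ 2 := mul_le_mul_of_nonneg_left ha2 (by positivity)
        _ = 8 * K ^ 3 * h ^ 2 := by ring
        _ ≤ 8 * K ^ 3 * h ^ 4 := by
            refine mul_le_mul_of_nonneg_left ?_ (by positivity)
            exact pow_le_pow_right₀ hh (by norm_num)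
    have h2 : D * a ^ 3 ≤ D * K ^ 3 * h ^ 4 := by
      calc D * a ^ 3 ≤ D * (K * h) ^ 3 := mul_le_mul_of_nonneg_left ha3 hD
        _ = D * K ^ 3 * h ^ 3 := by ring
        _ ≤ D * K ^ 3 * h ^ 4 := by
            refine mul_le_mul_of_nonneg_left ?_ (by positivity)
            exact pow_le_pow_right₀ hh (by norm_num)
    linarith
  rw [add_div] at e3
  have e4 : c * h ^ 2 ≤ 16 * (24 * K ^ 3 + D * K ^ 3) := by linarith
  have e5 : h ^ 2 ≤ 16 * K * (24 * K ^ 3 + D * K ^ 3) := by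
    calc h ^ 2 = 1 * h ^ 2 := by ring
      _ ≤ c * K * h ^ 2 := mul_le_mul_of_nonneg_right hc (by positivity)
      _ = K * (c * h ^ 2) := by ring
      _ ≤ K * (16 * (24 * K ^ 3 + D * K ^ 3)) := mul_le_mul_of_nonneg_left e4 hK0.le
      _ = _ := by ring
  have e6 : h ≤ h ^ 2 := by
    calc h = h * 1 := by ring
      _ ≤ h * h := mul_le_mul_of_nonneg_left hh hh0.le
      _ = h ^ 2 := by ring
  linarith

/-- the missing pairs form a star -/
theorem realB {h K D a ti tj X S : ℝ} (hh : 1 ≤ h) (hK : 1 ≤ K) (hD : 0 ≤ D)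
    (ha : 1 ≤ a) (haK : a ≤ K * h) (hκ : 2 * K ≤ h ^ 2)
    (hti : 1 - 2 * K / h ^ 2 ≤ ti) (htj : 1 - 2 * K / h ^ 2 ≤ tj)
    (hX : - (8 * K * a ^ 2 / h ^ 4) ≤ X)
    (hS : S ≤ (1 + 2 * K / h ^ 2) ^ 2 * (a ^ 2 + a / 2))
    (hst : X + (a ^ 2 * tj ^ 2 + a * ti ^ 2) - S ≤ D * a ^ 3 / h ^ 4)
    (hbig : 2 * ((28 + D) * K ^ 2) < h) : False := by
  have hh0 : 0 < h := by linarith
  have hK0 : 0 < K := by linarith
  have ha0 : 0 < a := by linarith
  obtain ⟨κ, hκd⟩ : ∃ κ : ℝ, κ = 2 * K / h ^ 2 := ⟨_, rfl⟩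
  rw [← hκd] at hti htj hS
  have hκ0 : 0 < κ := by rw [hκd]; positivity
  have hκ1 : κ ≤ 1 := by
    rw [hκd, div_le_one (by positivity)]
    exact hκ
  have e1 : (1 - κ) ^ 2 * (a ^ 2 + a) ≤ a ^ 2 * tj ^ 2 + a * ti ^ 2 := by
    have h1 : (1 - κ) ^ 2 ≤ tj ^ 2 := pow_le_pow_left₀ (by linarith) htj 2
    have h2 : (1 - κ) ^ 2 ≤ ti ^ 2 := pow_le_pow_left₀ (by linarith) hti 2
    have h3 := mul_le_mul_of_nonneg_left h1 (sq_nonneg a)
    have h4 := mul_le_mul_of_nonneg_left h2 ha0.le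
    linarith
  have haa : a ≤ a ^ 2 := by
    calc a = a * 1 := by ring
      _ ≤ a * a := mul_le_mul_of_nonneg_left ha ha0.le
      _ = a ^ 2 := by ring
  have e2 : (1 - 2 * κ) * (a ^ 2 + a) ≤ (1 - κ) ^ 2 * (a ^ 2 + a) := by
    refine mul_le_mul_of_nonneg_right ?_ (by positivity)
    have := sq_nonneg κ
    linarith [sq_nonneg κ, show (1 - κ) ^ 2 = 1 - 2 * κ + κ ^ 2 by ring]
  have e3 : (1 + κ) ^ 2 * (a ^ 2 + a / 2) ≤ (1 + 3 * κ) * (a ^ 2 + a / 2) := by
    refine mul_le_mul_of_nonneg_right ?_ (by positivity)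
    have h1 : κ ^ 2 ≤ κ := by
      calc κ ^ 2 = κ * κ := by ring
        _ ≤ κ * 1 := mul_le_mul_of_nonneg_left hκ1 hκ0.le
        _ = κ := by ring
    linarith [show (1 + κ) ^ 2 = 1 + 2 * κ + κ ^ 2 by ring]
  have e4 : a / 2 ≤ 10 * κ * a ^ 2 + (8 * K * a ^ 2 + D * a ^ 3) / h ^ 4 := by
    rw [add_div]
    have h1 : κ * a ≤ κ * a ^ 2 := mul_le_mul_of_nonneg_left haa hκ0.le
    have h2 : 0 ≤ κ * a ^ 2 := by positivity
    linarith
  have e5 : 10 * κ * a ^ 2 + (8 * K * a ^ 2 + D * a ^ 3) / h ^ 4 ≤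
      a * ((28 + D) * K ^ 2 / h) := by
    have h1 : 10 * κ * a ^ 2 ≤ a * (20 * K ^ 2 / h) := by
      calc 10 * κ * a ^ 2 = a * (20 * K / h ^ 2 * a) := by rw [hκd]; ring
        _ ≤ a * (20 * K / h ^ 2 * (K * h)) := by
            refine mul_le_mul_of_nonneg_left ?_ ha0.le
            exact mul_le_mul_of_nonneg_left haK (by positivity)
        _ = a * (20 * K ^ 2 / h) := by field_simp
    have h2 : 8 * K * a ^ 2 / h ^ 4 ≤ a * (8 * K ^ 2 / h) := by
      calc 8 * K * a ^ 2 / h ^ 4 = a * (8 * K * a / h ^ 4) := by ring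
        _ ≤ a * (8 * K * (K * h) / h ^ 4) := by
            refine mul_le_mul_of_nonneg_left ?_ ha0.le
            exact div_le_div_of_nonneg_right
              (mul_le_mul_of_nonneg_left haK (by positivity)) (by positivity)
        _ ≤ a * (8 * K ^ 2 / h) := by
            refine mul_le_mul_of_nonneg_left ?_ ha0.le
            rw [div_le_div_iff₀ (by positivity) hh0]
            have : h ^ 2 ≤ h ^ 4 := pow_le_pow_right₀ hh (by norm_num)
            calc 8 * K * (K * h) * h = 8 * K ^ 2 * h ^ 2 := by ring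
              _ ≤ 8 * K ^ 2 * h ^ 4 := mul_le_mul_of_nonneg_left this (by positivity)
    have h3 : D * a ^ 3 / h ^ 4 ≤ a * (D * K ^ 2 / h) := by
      calc D * a ^ 3 / h ^ 4 = a * (D * a ^ 2 / h ^ 4) := by ring
        _ ≤ a * (D * (K * h) ^ 2 / h ^ 4) := by
            refine mul_le_mul_of_nonneg_left ?_ ha0.le
            exact div_le_div_of_nonneg_right
              (mul_le_mul_of_nonneg_left (pow_le_pow_left₀ ha0.le haK 2) hD) (by positivity)
        _ ≤ a * (D * K ^ 2 / h) := by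
            refine mul_le_mul_of_nonneg_left ?_ ha0.le
            rw [div_le_div_iff₀ (by positivity) hh0]
            have : h ^ 3 ≤ h ^ 4 := pow_le_pow_right₀ hh (by norm_num)
            calc D * (K * h) ^ 2 * h = D * K ^ 2 * h ^ 3 := by ring
              _ ≤ D * K ^ 2 * h ^ 4 := mul_le_mul_of_nonneg_left this (by positivity)
    rw [add_div]
    have h4 : a * ((28 + D) * K ^ 2 / h) =
      a * (20 * K ^ 2 / h) + (a * (8 * K ^ 2 / h) + a * (D * K ^ 2 / h)) := by ring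
    rw [h4]
    linarith
  have e6 : a * (1 / 2) ≤ a * ((28 + D) * K ^ 2 / h) := by linarith
  have e7 := le_of_mul_le_mul_left e6 ha0
  rw [le_div_iff₀ hh0] at e7
  linarith

/-- the centre of the star is in the large class -/
theorem realC {h K D c a L Ti Tj Ts zw X S : ℝ} (hh : 1 ≤ h) (hK : 1 ≤ K) (hD : 0 ≤ D)
    (hc : 1 ≤ c * K) (ha : 2 ≤ a) (haK : a ≤ K * h)
    (hL2 : L ≤ 2 * h ^ 4) (hL4 : 4 ≤ L) (hTi1 : L / 2 ≤ Ti) (hTi2 : Ti ≤ 2 * L)
    (hTj1 : L / 2 ≤ Tj) (hTj2 : Tj ≤ 2 * L) (hTs1 : L / 2 ≤ Ts) (hTs2 : Ts ≤ 2 * L)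
    (hz0 : 0 ≤ zw) (hz1 : zw ≤ 1) (hd1 : - (2 * K * a / h ^ 4) ≤ Ts - Tj)
    (hd2 : c / 4 * h ^ 2 ≤ Tj - Ti) (hX : X = 2 * a * Ti * (Ts - Tj) / L)
    (hS : S ≤ a ^ 2 * ((Ti + zw) / L) ^ 2 + a * ((Ts + zw) / L) ^ 2)
    (hst : X + (a ^ 2 * (Tj / L) ^ 2 + a * (Ti / L) ^ 2) - S ≤ D * a ^ 3 / h ^ 4)
    (hbig : 8 * K * (26 * K + 2 * (D * K)) < h) : False := by
  have hh0 : 0 < h := by linarith
  have hK0 : 0 < K := by linarith
  have ha0 : 0 < a := by linarith
  have hL0 : 0 < L := by linarith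
  have hh4 : 0 < h ^ 4 := by positivity
  have e0 : 2 * a * Ti * (Ts - Tj) / L + (a ^ 2 * (Tj / L) ^ 2 + a * (Ti / L) ^ 2) -
      (a ^ 2 * ((Ti + zw) / L) ^ 2 + a * ((Ts + zw) / L) ^ 2) ≤ D * a ^ 3 / h ^ 4 := by
    rw [← hX]; linarith
  have e1 : 2 * a * Ti * (Ts - Tj) / L + (a ^ 2 * (Tj / L) ^ 2 + a * (Ti / L) ^ 2) -
      (a ^ 2 * ((Ti + zw) / L) ^ 2 + a * ((Ts + zw) / L) ^ 2) =
      (a * (Ts - Tj) * (2 * Ti * L - (Ts + Tj)) + (a ^ 2 - a) * (Tj - Ti) * (Tj + Ti) -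
        (a ^ 2 * (2 * Ti * zw + zw ^ 2) + a * (2 * Ts * zw + zw ^ 2))) / L ^ 2 := by
    field_simp
    ring
  rw [e1, div_le_iff₀ (by positivity)] at e0
  -- first term
  have f1 : 0 ≤ 2 * Ti * L - (Ts + Tj) := by
    have h1 : L / 2 * L ≤ Ti * L := mul_le_mul_of_nonneg_right hTi1 hL0.le
    have h2 : 4 * L ≤ L * L := mul_le_mul_of_nonneg_right hL4 hL0.le
    linarith
  have f2 : 2 * Ti * L - (Ts + Tj) ≤ 4 * L ^ 2 := by
    have h1 : Ti * L ≤ 2 * L * L := mul_le_mul_of_nonneg_right hTi2 hL0.le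
    have h2 : 2 * L * L = 2 * L ^ 2 := by ring
    linarith
  have f3 : - (2 * K * a / h ^ 4) * (4 * L ^ 2) ≤ (Ts - Tj) * (2 * Ti * L - (Ts + Tj)) := by
    have h1 : - (2 * K * a / h ^ 4) * (2 * Ti * L - (Ts + Tj)) ≤
        (Ts - Tj) * (2 * Ti * L - (Ts + Tj)) := mul_le_mul_of_nonneg_right hd1 f1
    have h2 : (2 * K * a / h ^ 4) * (2 * Ti * L - (Ts + Tj)) ≤
        (2 * K * a / h ^ 4) * (4 * L ^ 2) := mul_le_mul_of_nonneg_left f2 (by positivity)
    linarith
  have f4 : - (a * (2 * K * a / h ^ 4) * (4 * L ^ 2)) ≤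
      a * (Ts - Tj) * (2 * Ti * L - (Ts + Tj)) := by
    have := mul_le_mul_of_nonneg_left f3 ha0.le
    linarith
  have f5 : a * (2 * K * a / h ^ 4) * (4 * L ^ 2) ≤ 16 * K * a ^ 2 * L := by
    have h1 : a * (2 * K * a / h ^ 4) * (4 * L ^ 2) = 8 * K * a ^ 2 * L * (L / h ^ 4) := by ring
    have h2 : L / h ^ 4 ≤ 2 := by
      rw [div_le_iff₀ hh4]; exact hL2
    rw [h1]
    calc 8 * K * a ^ 2 * L * (L / h ^ 4) ≤ 8 * K * a ^ 2 * L * 2 :=
          mul_le_mul_of_nonneg_left h2 (by positivity)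
      _ = 16 * K * a ^ 2 * L := by ring
  -- second term
  have hc0 : 0 < c := by
    by_contra hcon
    push Not at hcon
    have := mul_nonpos_of_nonpos_of_nonneg hcon hK0.le
    linarith
  have g1 : a ^ 2 / 2 ≤ a ^ 2 - a := by
    have : 2 * a ≤ a * a := mul_le_mul_of_nonneg_right ha ha0.le
    have h2 : a * a = a ^ 2 := by ring
    linarith
  have g2 : a ^ 2 / 2 * (c / 4 * h ^ 2) * L ≤ (a ^ 2 - a) * (Tj - Ti) * (Tj + Ti) := by
    refine mul_le_mul ?_ (by linarith) hL0.le ?_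
    · exact mul_le_mul g1 hd2 (by positivity) (by linarith [sq_nonneg a])
    · refine mul_nonneg (by linarith [sq_nonneg a]) ?_
      exact le_trans (by positivity) hd2
  -- third term
  have k1 : zw ^ 2 ≤ 1 := pow_le_one₀ hz0 hz1
  have k2 : 2 * Ti * zw ≤ 4 * L := by
    have : Ti * zw ≤ 2 * L * 1 := mul_le_mul hTi2 hz1 hz0 (by linarith)
    linarith
  have k3 : 2 * Ts * zw ≤ 4 * L := by
    have : Ts * zw ≤ 2 * L * 1 := mul_le_mul hTs2 hz1 hz0 (by linarith)
    linarith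
  have k4 : a ^ 2 * (2 * Ti * zw + zw ^ 2) ≤ a ^ 2 * (5 * L) :=
    mul_le_mul_of_nonneg_left (by linarith) (sq_nonneg a)
  have k5 : a * (2 * Ts * zw + zw ^ 2) ≤ a ^ 2 * (5 * L) := by
    have h1 : a * (2 * Ts * zw + zw ^ 2) ≤ a * (5 * L) :=
      mul_le_mul_of_nonneg_left (by linarith) ha0.le
    have h2 : a * (5 * L) ≤ a ^ 2 * (5 * L) := by
      refine mul_le_mul_of_nonneg_right ?_ (by linarith)
      linarith [sq_nonneg a]
    linarith
  -- right side
  have m1 : D * a ^ 3 / h ^ 4 * L ^ 2 ≤ 2 * D * a ^ 3 * L := by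
    have h1 : D * a ^ 3 / h ^ 4 * L ^ 2 = D * a ^ 3 * L * (L / h ^ 4) := by ring
    have h2 : L / h ^ 4 ≤ 2 := by
      rw [div_le_iff₀ hh4]; exact hL2
    rw [h1]
    calc D * a ^ 3 * L * (L / h ^ 4) ≤ D * a ^ 3 * L * 2 :=
          mul_le_mul_of_nonneg_left h2 (by positivity)
      _ = 2 * D * a ^ 3 * L := by ring
  have n1 : (a ^ 2 * L) * (c / 8 * h ^ 2) ≤ (a ^ 2 * L) * (16 * K + 10 + 2 * D * a) := by
    linarith
  have n2 : c / 8 * h ^ 2 ≤ 16 * K + 10 + 2 * D * a :=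
    le_of_mul_le_mul_left n1 (by positivity)
  have n3 : D * a ≤ D * (K * h) := mul_le_mul_of_nonneg_left haK hD
  have n4 : c * h ^ 2 ≤ 8 * (26 * K + 2 * (D * K)) * h := by
    have h1 : 26 * K ≤ 26 * K * h := by
      calc 26 * K = 26 * K * 1 := by ring
        _ ≤ 26 * K * h := mul_le_mul_of_nonneg_left hh (by positivity)
    linarith
  have n5 : h * h ≤ 8 * K * (26 * K + 2 * (D * K)) * h := by
    calc h * h = 1 * h ^ 2 := by ring
      _ ≤ c * K * h ^ 2 := mul_le_mul_of_nonneg_right hc (by positivity)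
      _ = K * (c * h ^ 2) := by ring
      _ ≤ K * (8 * (26 * K + 2 * (D * K)) * h) := mul_le_mul_of_nonneg_left n4 hK0.le
      _ = _ := by ring
  have n6 := le_of_mul_le_mul_right n5 hh0
  linarith


/-! ### The graph of the missing pairs -/

/-- the graph of the missing pairs -/
def MG {V : Type} {r : ℕ} (G : SimpleGraph V) (g : V → Option (Fin r)) : SimpleGraph V where
  Adj u v := g u ≠ none ∧ g v ≠ none ∧ g u ≠ g v ∧ ¬ G.Adj u v
  symm := ⟨fun _ _ h => ⟨h.2.1, h.1, h.2.2.1.symm, fun h' => h.2.2.2 h'.symm⟩⟩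
  loopless := ⟨fun _ h => h.2.2.1 rfl⟩

section
variable {V : Type} {r : ℕ} (G : SimpleGraph V) (g : V → Option (Fin r))

theorem edge_eq : (MG G g).edgeSet = missSet G g := by
  ext e
  induction e using Sym2.ind with
  | _ a b =>
    rw [SimpleGraph.mem_edgeSet]
    constructor
    · rintro ⟨h1, h2, h3, h4⟩
      exact ⟨a, b, rfl, h1, h2, h3, h4⟩
    · rintro ⟨v, w, he, h1, h2, h3, h4⟩
      rcases Sym2.eq_iff.1 he with ⟨rfl, rfl⟩ | ⟨rfl, rfl⟩
      · exact ⟨h1, h2, h3, h4⟩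
      · exact ⟨h2, h1, h3.symm, fun h => h4 h.symm⟩

theorem adj_pos {M : SimpleGraph V} {u v : V} (h : M.Adj u v) : adj M u v = 1 := by
  unfold adj
  exact if_pos h

theorem adj_neg {M : SimpleGraph V} {u v : V} (h : ¬ M.Adj u v) : adj M u v = 0 := by
  unfold adj
  exact if_neg h

theorem adj_nonneg (M : SimpleGraph V) (u v : V) : 0 ≤ adj M u v := by
  by_cases h : M.Adj u v
  · rw [adj_pos h]; norm_num
  · rw [adj_neg h]

variable [Fintype V]

theorem miss_eq (y : V → ℝ) : miss G y g = ∑ u, ∑ v, adj (MG G g) u v * (y u * y v) := by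
  unfold miss
  refine sum_congr rfl fun u _ => sum_congr rfl fun v _ => ?_
  by_cases h : (MG G g).Adj u v
  · rw [adj_pos h, one_mul]
    exact if_pos h
  · rw [adj_neg h, zero_mul]
    exact if_neg h

theorem muv_eq (z : V → ℝ) (v : V) : muv G g z v = ∑ u, adj (MG G g) v u * z u := by
  unfold muv
  refine sum_congr rfl fun u _ => ?_
  by_cases h : (MG G g).Adj v u
  · rw [adj_pos h, one_mul]
    exact if_pos ⟨h.1, h.2.1, h.2.2.1.symm, h.2.2.2⟩
  · rw [adj_neg h, zero_mul]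
    exact if_neg fun h' => h ⟨h'.1, h'.2.1, h'.2.2.1.symm, h'.2.2.2⟩

theorem adj_sum : ∑ u, ∑ v, adj (MG G g) u v = 2 * ((missSet G g).ncard : ℝ) := by
  have h := prfEDG.1 V (MG G g)
  rw [edge_eq] at h
  exact h

theorem adj_row (M : SimpleGraph V) (v : V) : ∑ u, adj M v u = ({u | M.Adj v u}.ncard : ℝ) := by
  classical
  unfold adj
  rw [Finset.sum_ite, Finset.sum_const_zero, add_zero, Finset.sum_const, nsmul_eq_mul, mul_one,
    Set.ncard_eq_toFinset_card', Set.toFinset_ofPred]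

theorem miss_low1 {y : V → ℝ} {T β γ : ℝ} (hβ : 0 ≤ β)
    (h : ∀ u v, (MG G g).Adj u v → T - β ≤ y u * y v) {x₀ y₀ : V} (h0 : (MG G g).Adj x₀ y₀)
    (h1 : T + γ ≤ y x₀ * y y₀) :
    2 * ((missSet G g).ncard : ℝ) * (T - β) + γ ≤ miss G y g := by
  have e1 : miss G y g - 2 * ((missSet G g).ncard : ℝ) * (T - β) =
      ∑ u, ∑ v, adj (MG G g) u v * (y u * y v - (T - β)) := by
    rw [miss_eq, ← adj_sum, Finset.sum_mul, ← Finset.sum_sub_distrib]
    refine sum_congr rfl fun u _ => ?_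
    rw [Finset.sum_mul, ← Finset.sum_sub_distrib]
    refine sum_congr rfl fun v _ => ?_
    ring
  have hnn : ∀ u v, 0 ≤ adj (MG G g) u v * (y u * y v - (T - β)) := by
    intro u v
    by_cases hA : (MG G g).Adj u v
    · rw [adj_pos hA, one_mul]
      linarith [h u v hA]
    · rw [adj_neg hA, zero_mul]
  have e2 : adj (MG G g) x₀ y₀ * (y x₀ * y y₀ - (T - β)) ≤
      ∑ u, ∑ v, adj (MG G g) u v * (y u * y v - (T - β)) := by
    refine le_trans ?_ (Finset.single_le_sum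
      (f := fun u => ∑ v, adj (MG G g) u v * (y u * y v - (T - β)))
      (fun u _ => Finset.sum_nonneg fun v _ => hnn u v) (Finset.mem_univ x₀))
    exact Finset.single_le_sum (f := fun v => adj (MG G g) x₀ v * (y x₀ * y v - (T - β)))
      (fun v _ => hnn x₀ v) (Finset.mem_univ y₀)
  rw [adj_pos h0, one_mul, ← e1] at e2
  linarith

theorem miss_low {y : V → ℝ} {T β : ℝ}
    (h : ∀ u v, (MG G g).Adj u v → T - β ≤ y u * y v) :
    2 * ((missSet G g).ncard : ℝ) * (T - β) ≤ miss G y g := by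
  rw [miss_eq, ← adj_sum, Finset.sum_mul]
  refine sum_le_sum fun u _ => ?_
  rw [Finset.sum_mul]
  refine sum_le_sum fun v _ => ?_
  by_cases hA : (MG G g).Adj u v
  · rw [adj_pos hA, one_mul, one_mul]
    exact h u v hA
  · rw [adj_neg hA, zero_mul, zero_mul]

theorem miss_const {y : V → ℝ} {T : ℝ} (h : ∀ u v, (MG G g).Adj u v → y u * y v = T) :
    miss G y g = 2 * ((missSet G g).ncard : ℝ) * T := by
  rw [miss_eq, ← adj_sum, Finset.sum_mul]
  refine sum_congr rfl fun u _ => ?_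
  rw [Finset.sum_mul]
  refine sum_congr rfl fun v _ => ?_
  by_cases hA : (MG G g).Adj u v
  · rw [h u v hA]
  · rw [adj_neg hA, zero_mul, zero_mul]

theorem muv_nonneg {z : V → ℝ} (hz : ∀ v, 0 ≤ z v) (v : V) : 0 ≤ muv G g z v := by
  rw [muv_eq]
  exact Finset.sum_nonneg fun u _ => mul_nonneg (adj_nonneg _ _ _) (hz u)

theorem mu_sq {z : V → ℝ} {k : ℝ} (hz0 : ∀ v, 0 ≤ z v) (hz : ∀ u, g u ≠ none → z u ≤ k) :
    ∑ v, muv G g z v ^ 2 ≤ k ^ 2 * ∑ v, ({u | (MG G g).Adj v u}.ncard : ℝ) ^ 2 := by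
  rw [Finset.mul_sum]
  refine sum_le_sum fun v _ => ?_
  rw [← mul_pow]
  refine pow_le_pow_left₀ (muv_nonneg G g hz0 v) ?_ 2
  rw [muv_eq, ← adj_row, Finset.mul_sum]
  refine sum_le_sum fun u _ => ?_
  by_cases hA : (MG G g).Adj v u
  · rw [adj_pos hA, one_mul, mul_one]
    exact hz u hA.2.1
  · rw [adj_neg hA, zero_mul, mul_zero]

end

/-! ### Graphs of type `P` -/

/-- the graph of type `P` -/
def HG {V : Type} {r : ℕ} (g : V → Option (Fin r)) (w : V) (q : Fin r → V) (i : Fin r)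
    (L : Finset V) : SimpleGraph V where
  Adj u v := u ≠ v ∧
    ((g u ≠ none ∧ g v ≠ none ∧ g u ≠ g v ∧ ¬ (u = q i ∧ v ∈ L) ∧ ¬ (v = q i ∧ u ∈ L)) ∨
      (u = w ∧ ∃ t, v = q t) ∨ (v = w ∧ ∃ t, u = q t))
  symm := ⟨fun u v h => ⟨h.1.symm, by
    rcases h.2 with h | h | h
    · exact Or.inl ⟨h.2.1, h.1, h.2.2.1.symm, h.2.2.2.2, h.2.2.2.1⟩
    · exact Or.inr (Or.inr h)
    · exact Or.inr (Or.inl h)⟩⟩
  loopless := ⟨fun u h => h.1 rfl⟩

theorem tyP_HG {V : Type} {r : ℕ} {g : V → Option (Fin r)} {w : V} {q : Fin r → V}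
    {i : Fin r} {L : Finset V} (out : ∀ v, g v = none ↔ v = w) (hq : ∀ t, g (q t) = some t)
    (hL : ∀ v ∈ L, g v ≠ none ∧ g v ≠ some i) (ex : ∃ t, q t ∈ L)
    (room : ∀ t, L.card + 2 ≤ siz g t) : TyP (HG g w q i L) g w q i L where
  out := out
  hq := hq
  wn v := by
    have hw : g w = none := (out w).2 rfl
    constructor
    · rintro ⟨h0, h | h | h⟩
      · exact absurd hw h.1
      · exact h.2
      · exact absurd h.1.symm h0
    · rintro ⟨t, rfl⟩
      refine ⟨?_, Or.inr (Or.inl ⟨rfl, t, rfl⟩)⟩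
      intro h
      rw [h, hq t] at hw
      exact absurd hw (Option.some_ne_none t)
  hL := hL
  core u v hu hv := by
    have hw : g w = none := (out w).2 rfl
    constructor
    · rintro ⟨h0, h | h | h⟩
      · exact h.2.2
      · exact absurd (by rw [h.1]; exact hw) hu
      · exact absurd (by rw [h.1]; exact hw) hv
    · intro h
      exact ⟨fun h' => h.1 (by rw [h']), Or.inl ⟨hu, hv, h⟩⟩
  ex := ex
  room := room

theorem mg_tyP {V : Type} {r : ℕ} {H : SimpleGraph V} {g : V → Option (Fin r)} {w : V}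
    {q : Fin r → V} {i : Fin r} {L : Finset V} (hT : TyP H g w q i L) (u v : V) :
    (MG H g).Adj u v ↔ (u = q i ∧ v ∈ L) ∨ (v = q i ∧ u ∈ L) := by
  constructor
  · rintro ⟨h1, h2, h3, h4⟩
    rw [hT.core u v h1 h2] at h4
    by_contra hcon
    push Not at hcon
    exact h4 ⟨h3, fun h => hcon.1 h.1 h.2, fun h => hcon.2 h.1 h.2⟩
  · have key : ∀ u v, u = q i → v ∈ L → (MG H g).Adj u v := by
      rintro u v rfl hv
      have h1 : g (q i) ≠ none := by rw [hT.hq]; exact Option.some_ne_none i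
      refine ⟨h1, (hT.hL v hv).1, ?_, ?_⟩
      · rw [hT.hq]; exact (hT.hL v hv).2.symm
      · rw [hT.core _ _ h1 (hT.hL v hv).1]
        rintro ⟨-, h, -⟩
        exact h ⟨rfl, hv⟩
    rintro (h | h)
    · exact key u v h.1 h.2
    · exact (key v u h.1 h.2).symm

/-- the weight of the neighbours of `w` -/
theorem cov_eq {V : Type} [Fintype V] {r : ℕ} {H : SimpleGraph V} {g : V → Option (Fin r)}
    {w : V} {q : Fin r → V} (z : V → ℝ) (hq : ∀ t, g (q t) = some t)
    (wn : ∀ v, H.Adj w v ↔ ∃ t, v = q t) : cov H g z w = ∑ t, z (q t) := by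
  classical
  have hinj : Function.Injective q := by
    intro s t hst
    have h1 := hq s
    rw [hst, hq t] at h1
    exact (Option.some.inj h1).symm
  unfold cov
  rw [← Finset.sum_image (f := z) (s := Finset.univ) (g := q) (fun x _ y _ h => hinj h)]
  have h1 : (Finset.univ.image q : Finset V) ⊆ Finset.univ := Finset.subset_univ _
  rw [← Finset.sum_subset h1 (f := fun u => if g u ≠ none ∧ H.Adj w u then z u else 0)]
  · refine sum_congr rfl fun u hu => ?_
    obtain ⟨t, -, rfl⟩ := Finset.mem_image.1 hu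
    rw [if_pos ⟨by rw [hq]; exact Option.some_ne_none t, (wn _).2 ⟨t, rfl⟩⟩]
  · intro u _ hu
    refine if_neg fun h => hu ?_
    obtain ⟨t, rfl⟩ := (wn u).1 h.2
    exact Finset.mem_image.2 ⟨t, Finset.mem_univ t, rfl⟩

/-- the sum of the squares for a graph of type `P` -/
theorem mu_tyP {V : Type} [Fintype V] {r : ℕ} {H : SimpleGraph V} {g : V → Option (Fin r)}
    {w : V} {q : Fin r → V} {i : Fin r} {L : Finset V} (hT : TyP H g w q i L) (z : V → ℝ)
    {x y : ℝ} (hx : z (q i) = x) (hy : ∀ v ∈ L, z v = y) :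
    (L.card * y) ^ 2 + L.card * x ^ 2 ≤ ∑ v, muv H g z v ^ 2 := by
  classical
  have hqi : q i ∉ L := fun h => (hT.hL _ h).2 (hT.hq i)
  have h1 : muv H g z (q i) = L.card * y := by
    rw [muv_eq]
    rw [← Finset.sum_subset (Finset.subset_univ L)]
    · rw [← nsmul_eq_mul, ← Finset.sum_const]
      refine sum_congr rfl fun v hv => ?_
      rw [adj_pos ((mg_tyP hT _ _).2 (Or.inl ⟨rfl, hv⟩)), one_mul, hy v hv]
    · intro v _ hv
      rw [adj_neg, zero_mul]
      rw [mg_tyP hT]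
      rintro (h | h)
      · exact hv h.2
      · exact hqi h.2
  have h2 : ∀ v ∈ L, muv H g z v = x := by
    intro v hv
    rw [muv_eq, Finset.sum_eq_single (q i)]
    · rw [adj_pos ((mg_tyP hT _ _).2 (Or.inr ⟨rfl, hv⟩)), one_mul, hx]
    · intro u _ hu
      rw [adj_neg, zero_mul]
      rw [mg_tyP hT]
      rintro (h | h)
      · exact hqi (h.1 ▸ hv)
      · exact hu h.1
    · intro h
      exact absurd (Finset.mem_univ _) h
  calc (L.card * y) ^ 2 + L.card * x ^ 2 = ∑ v ∈ insert (q i) L, muv H g z v ^ 2 := by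
        rw [Finset.sum_insert hqi, h1]
        congr 1
        rw [← nsmul_eq_mul, ← Finset.sum_const]
        exact sum_congr rfl fun v hv => by rw [h2 v hv]
    _ ≤ ∑ v, muv H g z v ^ 2 :=
        Finset.sum_le_sum_of_subset_of_nonneg (Finset.subset_univ _)
          (fun v _ _ => sq_nonneg _)

/-- clean vertices -/
theorem clean {V : Type} [Fintype V] {r : ℕ} (G : SimpleGraph V) (g : V → Option (Fin r))
    (j : Fin r) (a : ℕ) (ha : 1 ≤ a)
    (h : ∀ t, a + 2 * ((missSet G g).ncard + (missSet G g).ncard + (outSet G g).ncard)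
      ≤ siz g t) :
    ∃ (q : Fin r → V) (L : Finset V), (∀ t, g (q t) = some t) ∧
      (∀ t, ItemSWM.Cl G G g (q t)) ∧ L.card = a ∧
      (∀ v ∈ L, g v = some j ∧ ItemSWM.Cl G G g v) ∧ q j ∈ L := by
  classical
  have h1 : ∀ t, a ≤ (univ.filter fun v => g v = some t ∧ ItemSWM.Cl G G g v).card := by
    intro t
    have h2 := ItemSWM.many G G g t a (h t)
    rw [Set.ncard_eq_toFinset_card', Set.toFinset_ofPred] at h2
    exact h2
  have h3 : ∀ t, ∃ v, g v = some t ∧ ItemSWM.Cl G G g v := by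
    intro t
    have h4 : 0 < (univ.filter fun v => g v = some t ∧ ItemSWM.Cl G G g v).card :=
      lt_of_lt_of_le ha (h1 t)
    obtain ⟨v, hv⟩ := Finset.card_pos.1 h4
    exact ⟨v, (Finset.mem_filter.1 hv).2⟩
  choose Q hQ using h3
  obtain ⟨L, hL1, hL2⟩ := Finset.exists_subset_card_eq (h1 j)
  have hL3 : 0 < L.card := by omega
  obtain ⟨y, hy⟩ := Finset.card_pos.1 hL3
  have hL4 : ∀ v ∈ L, g v = some j ∧ ItemSWM.Cl G G g v := fun v hv =>
    (Finset.mem_filter.1 (hL1 hv)).2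
  refine ⟨Function.update Q j y, L, ?_, ?_, hL2, hL4, ?_⟩
  · intro t
    by_cases htj : t = j
    · subst htj
      rw [Function.update_self]
      exact (hL4 y hy).1
    · rw [Function.update_of_ne htj]
      exact (hQ t).1
  · intro t
    by_cases htj : t = j
    · subst htj
      rw [Function.update_self]
      exact (hL4 y hy).2
    · rw [Function.update_of_ne htj]
      exact (hQ t).2
  · rw [Function.update_self]
    exact hy


/-! ### The comparison -/

theorem z_clean {V : Type} [Fintype V] {r : ℕ} {G : SimpleGraph V} {z : V → ℝ}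
    {g : V → Option (Fin r)} {n : ℕ} (hl : 0 < lam G)
    (hTCL : ∀ v t, g v = some t → lam G * z v = tv g z n t - muv G g z v + omv G g z v)
    {v : V} {t : Fin r} (hv : g v = some t) (hc : ItemSWM.Cl G G g v) :
    z v = tv g z n t / lam G := by
  have h1 : muv G g z v = 0 := by
    rw [muv_eq]
    refine Finset.sum_eq_zero fun u _ => ?_
    rw [adj_neg, zero_mul]
    rintro ⟨-, h2, h3, h4⟩
    exact h4 (hc.gadj u h2 h3.symm)
  have h2 : omv G g z v = 0 := by
    unfold omv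
    refine Finset.sum_eq_zero fun u _ => ?_
    exact if_neg fun h => hc.nolight u h.1 h.2
  have h3 := hTCL v t hv
  rw [h1, h2] at h3
  rw [eq_div_iff hl.ne']
  linarith

theorem omv_le {V : Type} [Fintype V] {r : ℕ} {G : SimpleGraph V} {z : V → ℝ}
    {g : V → Option (Fin r)} {w : V} (hw : ∀ v, g v = none ↔ v = w) (hz : 0 ≤ z w) (v : V) :
    omv G g z v ≤ z w := by
  unfold omv
  rw [Finset.sum_eq_single w]
  · split_ifs
    · exact le_rfl
    · exact hz
  · intro u _ hu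
    exact if_neg fun h => hu ((hw u).1 h.1)
  · intro h
    exact absurd (Finset.mem_univ _) h

theorem z_le {V : Type} [Fintype V] {r : ℕ} {G : SimpleGraph V} {z : V → ℝ}
    {g : V → Option (Fin r)} {n : ℕ} {w : V} (hl : 0 < lam G)
    (hTCL : ∀ v t, g v = some t → lam G * z v = tv g z n t - muv G g z v + omv G g z v)
    (hw : ∀ v, g v = none ↔ v = w) (hz : ∀ v, 0 ≤ z v)
    {v : V} {t : Fin r} (hv : g v = some t) :
    z v ≤ (tv g z n t + z w) / lam G := by
  have h1 := muv_nonneg G g hz v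
  have h2 := omv_le (G := G) hw (hz w) v
  have h3 := hTCL v t hv
  rw [le_div_iff₀ hl]
  linarith

/-- the real inequality for the neighbours of `w` -/
theorem real_cov {A B e n R : ℝ} (hA0 : 0 ≤ A) (hA : A ≤ 2 * R) (hB0 : 0 ≤ B) (hB : B ≤ A + e)
    (he : e ≤ 2 * R / n) (hn : 1 ≤ n) (hR : 0 ≤ R) :
    B ^ 2 ≤ A ^ 2 + 12 * R ^ 2 / n := by
  have hn0 : 0 < n := by linarith
  have h1 : B ^ 2 ≤ (A + e) ^ 2 := pow_le_pow_left₀ hB0 hB 2
  have h2 : 2 * R / n ≤ 2 * R := div_le_self (by linarith) hn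
  have h3 : e * (2 * A + e) ≤ 2 * R / n * (6 * R) :=
    mul_le_mul he (by linarith) (by linarith) (by positivity)
  have h4 : 2 * R / n * (6 * R) = 12 * R ^ 2 / n := by ring
  linarith [show (A + e) ^ 2 = A ^ 2 + e * (2 * A + e) by ring]

open Classical in
/-- comparison with a graph of type `P` -/
theorem star {V : Type} [Fintype V] {r n m : ℕ} (hr : 3 ≤ r) (hCNT : CNTU_statement)
    (hMEM : MEMP_statement) {C C3 : ℝ} {G : SimpleGraph V} {z : V → ℝ}
    {g : V → Option (Fin r)} {w : V} {q : Fin r → V} {i j : Fin r} (hij : i ≠ j)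
    (hMx : MxK r m G) (hNK : NK n C G g) (hb : (outSet G g).ncard = r)
    (ha : 1 ≤ (missSet G g).ncard) (hw : ∀ v, g v = none ↔ v = w)
    (hq : ∀ t, g (q t) = some t) (wn : ∀ v, G.Adj w v ↔ ∃ t, v = q t) (hz : Per G z g n)
    (hTCL : ∀ v t, g v = some t → lam G * z v = tv g z n t - muv G g z v + omv G g z v)
    (hsz : ∀ t, 5 * (missSet G g).ncard + 2 * r + 2 ≤ siz g t) (hn1 : (1 : ℝ) ≤ n)
    (hlam : (n : ℝ) / 2 ≤ lam G) (hzw : z w ≤ 1) (hT0 : ∀ t, 0 ≤ tv g z n t)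
    (hT2 : ∀ t, tv g z n t ≤ 2 * lam G)
    (hSW : ∀ H : SimpleGraph V, NK n C H g → (∀ u v, g u = none → u ≠ w → ¬ H.Adj u v) →
      lam H ≤ lam G →
      (miss G (fun v => (n : ℝ) - cw z g (g v)) g - miss H (fun v => (n : ℝ) - cw z g (g v)) g)
        / lam G
      + (∑ v, muv H g z v ^ 2 - ∑ v, muv G g z v ^ 2)
      + (cov H g z w ^ 2 - ∑ v, if g v = none then cov G g z v ^ 2 else 0)
      ≤ C3 * ((missSet G g).ncard + (missSet H g).ncard + (outSet G g).ncard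
          + (outSet H g).ncard + 1) ^ 3 / n) :
    (miss G (fun v => (n : ℝ) - cw z g (g v)) g
        - 2 * ((missSet G g).ncard : ℝ) * (tv g z n i * tv g z n j)) / lam G
      + (((missSet G g).ncard : ℝ) ^ 2 * (tv g z n j / lam G) ^ 2
        + ((missSet G g).ncard : ℝ) * (tv g z n i / lam G) ^ 2)
      - ∑ v, muv G g z v ^ 2
      ≤ (C3 * (2 * ((missSet G g).ncard : ℝ) + 2 * r + 1) ^ 3 + 12 * (r : ℝ) ^ 2) / n := by
  obtain ⟨a, hadef⟩ : ∃ a : ℕ, a = (missSet G g).ncard := ⟨_, rfl⟩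
  have hl : 0 < lam G := by linarith
  obtain ⟨q', L, hq', hcl, hLa, hL, hqL⟩ := clean G g j a (hadef ▸ ha) (by
    intro t
    have := hsz t
    omega)
  have hTy : TyP (HG g w q' i L) g w q' i L := by
    refine tyP_HG hw hq' ?_ ⟨j, hqL⟩ ?_
    · intro v hv
      rw [(hL v hv).1]
      exact ⟨Option.some_ne_none j, fun h => hij (Option.some.inj h).symm⟩
    · intro t
      have := hsz t
      omega
  obtain ⟨H, hH⟩ : ∃ H : SimpleGraph V, H = HG g w q' i L := ⟨_, rfl⟩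
  rw [← hH] at hTy
  obtain ⟨m1, m2, m3, m4, m5, m6, m7⟩ := hMEM r V H g w q' i L hr hTy
  have hcG := ItemBLA.count0 hCNT hNK.indep hNK.tot
  have hsize : H.edgeSet.ncard = m := by
    have h1 := hMx.1.size
    have h2 := hNK.tot
    rw [h2] at m7
    rw [hLa] at m7
    omega
  have hlH : lam H ≤ lam G := hMx.2 V H ⟨m1, hsize, m3, m2⟩
  have hNKH : NK n C H g := by
    refine ⟨m4, hNK.tot, hNK.dev, ?_⟩
    have h1 := hNK.few
    rw [m5, m6, hLa]
    rw [hb, ← hadef] at h1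
    exact h1
  have key := hSW H hNKH (fun u v hu huw _ => huw ((hw u).1 hu)) hlH
  -- the missing pairs of `H`
  have tvi : ∀ {v : V} {t : Fin r}, g v = some t → (n : ℝ) - cw z g (g v) = tv g z n t := by
    intro v t hv
    unfold tv
    rw [hv]
  have e1 : miss H (fun v => (n : ℝ) - cw z g (g v)) g =
      2 * (a : ℝ) * (tv g z n i * tv g z n j) := by
    rw [miss_const (T := tv g z n i * tv g z n j), m5, hLa]
    intro u v huv
    rw [mg_tyP hTy] at huv
    rcases huv with ⟨rfl, hv⟩ | ⟨rfl, hu⟩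
    · show ((n : ℝ) - cw z g (g (q' i))) * ((n : ℝ) - cw z g (g v)) = _
      rw [tvi (hq' i), tvi (hL v hv).1]
    · show ((n : ℝ) - cw z g (g u)) * ((n : ℝ) - cw z g (g (q' i))) = _
      rw [tvi (hq' i), tvi (hL u hu).1, mul_comm]
  have e2 : ((a : ℝ) * (tv g z n j / lam G)) ^ 2 + (a : ℝ) * (tv g z n i / lam G) ^ 2 ≤
      ∑ v, muv H g z v ^ 2 := by
    have h1 := mu_tyP hTy z (x := tv g z n i / lam G) (y := tv g z n j / lam G)
      (z_clean hl hTCL (hq' i) (hcl i)) (fun v hv => z_clean hl hTCL (hL v hv).1 (hL v hv).2)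
    rw [hLa] at h1
    exact h1
  have e3 : cov H g z w = ∑ t, tv g z n t / lam G := by
    rw [cov_eq z hq' hTy.wn]
    exact sum_congr rfl fun t _ => z_clean hl hTCL (hq' t) (hcl t)
  have e4 : cov G g z w ≤ (∑ t, tv g z n t / lam G) + r * z w / lam G := by
    rw [cov_eq z hq wn]
    calc ∑ t, z (q t) ≤ ∑ t, (tv g z n t + z w) / lam G :=
          sum_le_sum fun t _ => z_le hl hTCL hw hz.nonneg (hq t)
      _ = _ := by
          simp_rw [add_div]
          rw [Finset.sum_add_distrib, Finset.sum_const, Finset.card_univ, Fintype.card_fin,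
            nsmul_eq_mul]
          ring
  have e5 : 0 ≤ cov G g z w := by
    rw [cov_eq z hq wn]
    exact Finset.sum_nonneg fun t _ => hz.nonneg _
  have e6 : (∑ v, if g v = none then cov G g z v ^ 2 else 0) = cov G g z w ^ 2 := by
    rw [Finset.sum_eq_single w]
    · exact if_pos ((hw w).2 rfl)
    · intro v _ hv
      exact if_neg fun h => hv ((hw v).1 h)
    · intro h
      exact absurd (Finset.mem_univ _) h
  have e7 : cov G g z w ^ 2 ≤ (∑ t, tv g z n t / lam G) ^ 2 + 12 * (r : ℝ) ^ 2 / n := by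
    refine real_cov ?_ ?_ e5 e4 ?_ hn1 (Nat.cast_nonneg r)
    · exact Finset.sum_nonneg fun t _ => div_nonneg (hT0 t) hl.le
    · calc ∑ t, tv g z n t / lam G ≤ ∑ _t : Fin r, (2 : ℝ) :=
            sum_le_sum fun t _ => by
              rw [div_le_iff₀ hl]
              exact hT2 t
        _ = 2 * r := by
            rw [Finset.sum_const, Finset.card_univ, Fintype.card_fin, nsmul_eq_mul]
            ring
    · rw [div_le_div_iff₀ hl (by linarith)]
      have h1 : (r : ℝ) * z w ≤ r * 1 := mul_le_mul_of_nonneg_left hzw (Nat.cast_nonneg r)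
      have hr0 : (0 : ℝ) ≤ r := Nat.cast_nonneg r
      calc (r : ℝ) * z w * n ≤ r * 1 * n := mul_le_mul_of_nonneg_right h1 (by linarith)
        _ ≤ r * 1 * (2 * lam G) := mul_le_mul_of_nonneg_left (by linarith) (by linarith)
        _ = 2 * r * lam G := by ring
  have e8 : C3 * (((missSet G g).ncard : ℝ) + (missSet H g).ncard + (outSet G g).ncard
      + (outSet H g).ncard + 1) ^ 3 / n = C3 * (2 * (a : ℝ) + 2 * r + 1) ^ 3 / n := by
    rw [m5, m6, hb, hLa, ← hadef]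
    ring
  rw [e1, e3, e6, e8] at key
  rw [← hadef]
  rw [add_div]
  have e9 : ((a : ℝ) * (tv g z n j / lam G)) ^ 2 = (a : ℝ) ^ 2 * (tv g z n j / lam G) ^ 2 := by
    ring
  linarith


/-! ### Stars -/

section
variable {V : Type} {r : ℕ} {G : SimpleGraph V} {g : V → Option (Fin r)} {x : V}

theorem mg_mem {u v : V} (h : (MG G g).Adj u v) : s(u, v) ∈ missSet G g := by
  rw [← edge_eq]
  exact h

theorem star_off (hx : ∀ e ∈ missSet G g, x ∈ e) {u v : V} (h : (MG G g).Adj u v) :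
    x = u ∨ x = v := Sym2.mem_iff.1 (hx _ (mg_mem h))

variable [Fintype V]

theorem row_off (hx : ∀ e ∈ missSet G g, x ∈ e) (f : V → ℝ) {v : V} (hv : v ≠ x) :
    ∑ u, adj (MG G g) v u * f u = adj (MG G g) v x * f x := by
  rw [Finset.sum_eq_single x]
  · intro u _ hu
    rw [adj_neg, zero_mul]
    intro h
    rcases star_off hx h with h' | h'
    · exact hv h'.symm
    · exact hu h'.symm
  · intro h
    exact absurd (Finset.mem_univ _) h

omit [Fintype V] in
theorem adj_comm' (M : SimpleGraph V) (u v : V) : adj M u v = adj M v u := by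
  by_cases h : M.Adj u v
  · rw [adj_pos h, adj_pos h.symm]
  · rw [adj_neg h, adj_neg fun h' => h h'.symm]

theorem star_row (hx : ∀ e ∈ missSet G g, x ∈ e) :
    ∑ v, adj (MG G g) x v = ((missSet G g).ncard : ℝ) := by
  classical
  have h1 := adj_sum G g
  rw [← Finset.add_sum_erase _ _ (Finset.mem_univ x)] at h1
  have h2 : ∑ u ∈ univ.erase x, ∑ v, adj (MG G g) u v = ∑ u ∈ univ.erase x, adj (MG G g) x u := by
    refine sum_congr rfl fun u hu => ?_
    have h3 := row_off hx (fun _ => (1 : ℝ)) (Finset.ne_of_mem_erase hu)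
    simp only [mul_one] at h3
    rw [h3, adj_comm']
  have h4 : ∑ u ∈ univ.erase x, adj (MG G g) x u = ∑ u, adj (MG G g) x u := by
    rw [← Finset.add_sum_erase _ _ (Finset.mem_univ x), adj_neg, zero_add]
    exact fun h => (MG G g).loopless.irrefl x h
  rw [h2, h4] at h1
  linarith

theorem star_sq (hx : ∀ e ∈ missSet G g, x ∈ e) (z : V → ℝ) :
    ∑ v, muv G g z v ^ 2 ≤ muv G g z x ^ 2 + ((missSet G g).ncard : ℝ) * z x ^ 2 := by
  classical
  rw [← Finset.add_sum_erase _ _ (Finset.mem_univ x)]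
  have h1 : ∑ v ∈ univ.erase x, muv G g z v ^ 2 ≤ ∑ v ∈ univ.erase x,
      adj (MG G g) x v * z x ^ 2 := by
    refine sum_le_sum fun v hv => ?_
    rw [muv_eq, row_off hx z (Finset.ne_of_mem_erase hv), adj_comm']
    by_cases h : (MG G g).Adj x v
    · rw [adj_pos h, one_mul, one_mul]
    · rw [adj_neg h, zero_mul, zero_mul]
      norm_num
  have h2 : ∑ v ∈ univ.erase x, adj (MG G g) x v * z x ^ 2 ≤
      ∑ v, adj (MG G g) x v * z x ^ 2 :=
    Finset.sum_le_sum_of_subset_of_nonneg (Finset.subset_univ _)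
      (fun v _ _ => mul_nonneg (adj_nonneg _ _ _) (sq_nonneg _))
  have h3 : ∑ v, adj (MG G g) x v * z x ^ 2 = ((missSet G g).ncard : ℝ) * z x ^ 2 := by
    rw [← Finset.sum_mul, star_row hx]
  linarith

end

/-- `w` and its neighbours are not a clique -/
theorem exists_miss {V : Type} {r : ℕ} {G : SimpleGraph V} {w : V} {q : Fin r → V}
    (hfree : (⊤ : SimpleGraph (Fin (r + 1))).Free G) (wn : ∀ v, G.Adj w v ↔ ∃ t, v = q t) :
    ∃ s t, s ≠ t ∧ ¬ G.Adj (q s) (q t) := by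
  by_contra hcon
  push Not at hcon
  apply hfree
  have key : ∀ a b : Fin (r + 1), a ≠ b →
      G.Adj (Fin.cases w q a : V) (Fin.cases w q b : V) := by
    intro a b
    refine Fin.cases ?_ (fun s => ?_) a
    · refine Fin.cases ?_ (fun t => ?_) b
      · intro h
        exact absurd rfl h
      · intro _
        exact (wn _).2 ⟨t, rfl⟩
    · refine Fin.cases ?_ (fun t => ?_) b
      · intro _
        exact ((wn _).2 ⟨s, rfl⟩).symm
      · intro h
        refine hcon s t ?_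
        rintro rfl
        exact h rfl
  refine ⟨⟨⟨fun a => (Fin.cases w q a : V), ?_⟩, ?_⟩⟩
  · intro a b hab
    exact key a b hab
  · intro a b hab
    by_contra hne
    have h1 := key a b hne
    have h2 : (Fin.cases w q a : V) = (Fin.cases w q b : V) := hab
    rw [h2] at h1
    exact G.loopless.irrefl _ h1

/-- products of the weights -/
theorem prod1 {L Ti Tj Tt e : ℝ} (hTi0 : 0 ≤ Ti) (hTi : Ti ≤ 2 * L) (he : 0 ≤ e)
    (h : Tj - e ≤ Tt) : Ti * Tj - 2 * L * e ≤ Ti * Tt := by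
  have h1 := mul_le_mul_of_nonneg_left h hTi0
  have h2 := mul_le_mul_of_nonneg_right hTi he
  linarith

theorem prod2 {L Ti Tj Ts Tt e c h : ℝ} (hL : 0 < L) (hc : 0 < c) (hTi2 : Ti ≤ 2 * L)
    (hTi0 : 0 ≤ Ti) (hTj1 : L / 2 ≤ Tj) (he : 0 ≤ e) (he1 : e ≤ c / 64 * h ^ 2)
    (he2 : e ≤ L / 8) (hs : Tj - e ≤ Ts) (ht : Ti + c / 4 * h ^ 2 ≤ Tt) :
    Ti * Tj + c / 16 * h ^ 2 * L ≤ Ts * Tt := by
  have h0 : 0 ≤ c / 4 * h ^ 2 := by positivity
  have h1 : (Tj - e) * (Ti + c / 4 * h ^ 2) ≤ Ts * Tt :=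
    mul_le_mul hs ht (by linarith) (by linarith)
  have h2 : c / 4 * h ^ 2 * (L / 2) ≤ c / 4 * h ^ 2 * Tj := mul_le_mul_of_nonneg_left hTj1 h0
  have h3 : e * Ti ≤ c / 64 * h ^ 2 * (2 * L) :=
    mul_le_mul he1 hTi2 hTi0 (by positivity)
  have h4 : e * (c / 4 * h ^ 2) ≤ L / 8 * (c / 4 * h ^ 2) := mul_le_mul_of_nonneg_right he2 h0
  linarith


/-- the constants -/
theorem consts {r n : ℕ} {C K : ℝ} (hr : 3 ≤ r)
    (hK1 : 1 ≤ K) {D H0 h : ℝ} (hD : D = 54 * K * (r : ℝ) ^ 3)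
    (hH0 : H0 = 8 + r * (Real.sqrt C + (5 * K + 2 * r + 2)) + 6 * K + 128 * K ^ 3 + 32 * K ^ 2
      + 16 * K * (24 * K ^ 3 + D * K ^ 3) + 2 * ((28 + D) * K ^ 2)
      + 8 * K * (26 * K + 2 * (D * K)))
    (hh : h = Real.sqrt (Real.sqrt n)) (hn : H0 ^ 4 < n) :
    H0 < h ∧ Real.sqrt n = h ^ 2 ∧ (n : ℝ) = h ^ 4 := by
  have hr3 : (3 : ℝ) ≤ r := by exact_mod_cast hr
  have hD0 : 0 ≤ D := by rw [hD]; positivity
  have hH00 : 0 ≤ H0 := by rw [hH0]; positivity
  have h2 : h ^ 2 = Real.sqrt n := by rw [hh]; exact Real.sq_sqrt (Real.sqrt_nonneg _)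
  have h4 : h ^ 4 = n := by
    calc h ^ 4 = (h ^ 2) ^ 2 := by ring
      _ = (Real.sqrt n) ^ 2 := by rw [h2]
      _ = n := Real.sq_sqrt (Nat.cast_nonneg n)
  have hh0 : 0 ≤ h := by rw [hh]; exact Real.sqrt_nonneg _
  refine ⟨?_, h2.symm, h4.symm⟩
  rw [← h4] at hn
  exact lt_of_pow_lt_pow_left₀ 4 hh0 hn

end ItemPST

open ItemPST in
theorem prfPST : P_statement → CNTU_statement → FLU_statement → TCL_statement →
    SWZ_statement → SQE_statement → CLSS_statement → MEMP_statement → PST_statement := by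
  classical
  intro _ hCNT hFLU hTCL hSWZ hSQE hCLS hMEM r C c hr hC hc0
  obtain ⟨C1, n1, hC1, hF⟩ := hFLU r C hr hC
  obtain ⟨C2, n2, hC2, hT⟩ := hTCL r C hr hC
  obtain ⟨C3, n3, hC3, hS⟩ := hSWZ r C hr hC
  have hr3 : (3 : ℝ) ≤ r := by exact_mod_cast hr
  have hr0 : (0 : ℝ) < r := by linarith
  obtain ⟨K, hKd⟩ : ∃ K : ℝ, K = 1 + C + C1 + C2 + C3 + 1 / c := ⟨_, rfl⟩
  have hc1 : 0 < 1 / c := by positivity
  have hK1 : 1 ≤ K := by linarith
  have hKC : C ≤ K := by linarith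
  have hKC1 : C1 ≤ K := by linarith
  have hKC2 : C2 ≤ K := by linarith
  have hKC3 : C3 ≤ K := by linarith
  have hcK : 1 ≤ c * K := by
    have h1 : 1 / c ≤ K := by linarith
    calc (1 : ℝ) = c * (1 / c) := by field_simp
      _ ≤ c * K := mul_le_mul_of_nonneg_left h1 hc0.le
  have hK0 : 0 < K := by linarith
  obtain ⟨D, hD⟩ : ∃ D : ℝ, D = 54 * K * (r : ℝ) ^ 3 := ⟨_, rfl⟩
  have hD0 : 0 ≤ D := by rw [hD]; positivity
  obtain ⟨H0, hH0⟩ : ∃ H0 : ℝ, H0 = 8 + r * (Real.sqrt C + (5 * K + 2 * r + 2)) + 6 * K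
      + 128 * K ^ 3 + 32 * K ^ 2
      + 16 * K * (24 * K ^ 3 + D * K ^ 3) + 2 * ((28 + D) * K ^ 2)
      + 8 * K * (26 * K + 2 * (D * K)) := ⟨_, rfl⟩
  refine ⟨max n1 (max n2 (max n3 (⌈H0 ^ 4⌉₊ + 1))), ?_⟩
  intro V _ G g i n m hn hMx hNL hb ha
  have hnn1 : n1 ≤ n := (le_max_left _ _).trans hn
  have hnn2 : n2 ≤ n := (le_max_left _ _).trans ((le_max_right _ _).trans hn)
  have hnn3 : n3 ≤ n :=
    (le_max_left _ _).trans ((le_max_right _ _).trans ((le_max_right _ _).trans hn))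
  have hnn4 : H0 ^ 4 < n := by
    have h1 : ⌈H0 ^ 4⌉₊ + 1 ≤ n :=
      (le_max_right _ _).trans ((le_max_right _ _).trans ((le_max_right _ _).trans hn))
    have h2 : (⌈H0 ^ 4⌉₊ : ℝ) + 1 ≤ n := by exact_mod_cast h1
    have h3 := Nat.le_ceil (H0 ^ 4)
    linarith
  obtain ⟨h, hh⟩ : ∃ h : ℝ, h = Real.sqrt (Real.sqrt n) := ⟨_, rfl⟩
  obtain ⟨hHh, hs2, hs4⟩ := consts hr hK1 hD hH0 hh hnn4
  -- the size of `h`
  have p1 : 0 ≤ (r : ℝ) * (Real.sqrt C + (5 * K + 2 * r + 2)) := by positivity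
  have p2 : 0 ≤ 128 * K ^ 3 := by positivity
  have p3 : 0 ≤ 32 * K ^ 2 := by positivity
  have p4 : 0 ≤ 16 * K * (24 * K ^ 3 + D * K ^ 3) := by positivity
  have p5 : 0 ≤ 2 * ((28 + D) * K ^ 2) := by positivity
  have p6 : 0 ≤ 8 * K * (26 * K + 2 * (D * K)) := by positivity
  have b1 : 8 ≤ h := by linarith
  have b2 : (r : ℝ) * (Real.sqrt C + (5 * K + 2 * r + 2)) ≤ h := by linarith
  have b3 : 6 * K ≤ h := by linarith
  have b4 : 128 * K ^ 3 ≤ h := by linarith
  have b5 : 32 * K ^ 2 ≤ h := by linarith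
  have b6 : 16 * K * (24 * K ^ 3 + D * K ^ 3) < h := by linarith
  have b7 : 2 * ((28 + D) * K ^ 2) < h := by linarith
  have b8 : 8 * K * (26 * K + 2 * (D * K)) < h := by linarith
  clear p1 p2 p3 p4 p5 p6
  have hh1 : 1 ≤ h := by linarith
  have hh0 : 0 < h := by linarith
  have hpow2 : h ≤ h ^ 2 := by
    calc h = h ^ 1 := by ring
      _ ≤ h ^ 2 := pow_le_pow_right₀ hh1 (by norm_num)
  have hpow3 : h ≤ h ^ 3 := by
    calc h = h ^ 1 := by ring
      _ ≤ h ^ 3 := pow_le_pow_right₀ hh1 (by norm_num)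
  have hpow23 : h ^ 2 ≤ h ^ 3 := pow_le_pow_right₀ hh1 (by norm_num)
  have hpow34 : h ^ 3 ≤ h ^ 4 := pow_le_pow_right₀ hh1 (by norm_num)
  have hn1 : (1 : ℝ) ≤ n := by rw [hs4]; exact one_le_pow₀ hh1
  have hn0 : (0 : ℝ) < n := by linarith
  have hh2 : 0 < h ^ 2 := by positivity
  have hh4 : 0 < h ^ 4 := by positivity
  -- the number of missing pairs
  obtain ⟨a, hadef⟩ : ∃ a : ℕ, a = (missSet G g).ncard := ⟨_, rfl⟩
  obtain ⟨A, hA⟩ : ∃ A : ℝ, A = (a : ℝ) := ⟨_, rfl⟩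
  have hNK := hNL.nk
  have hA1 : 1 ≤ A := by
    rw [hA]
    have : 1 ≤ a := by rw [hadef]; exact ha
    exact_mod_cast this
  have hA0 : 0 < A := by linarith
  have hAK : A ≤ K * h := by
    have h1 := hNK.few
    rw [← hadef, ← hA, hb, ← hh] at h1
    have h2 : C * h ≤ K * h := mul_le_mul_of_nonneg_right hKC hh0.le
    linarith
  -- the classes are large
  have hsz : ∀ t, 5 * (missSet G g).ncard + 2 * r + 2 ≤ siz g t := by
    intro t
    have h1 := ItemBLA.large hr (K := 5 * K + 2 * r + 2) hC hNK.tot hNK.dev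
      (by rw [hs2]; linarith) (by rw [hs2]; linarith) t
    rw [hs2] at h1
    have h2 : 5 * A + 2 * r + 2 ≤ (5 * K + 2 * r + 2) * h ^ 2 := by
      have h3 : K * h ≤ K * h ^ 2 := mul_le_mul_of_nonneg_left hpow2 hK0.le
      have h4 : (2 * (r : ℝ) + 2) * 1 ≤ (2 * r + 2) * h ^ 2 :=
        mul_le_mul_of_nonneg_left (by linarith) (by linarith)
      linarith
    have h3 : 5 * (a : ℝ) + 2 * r + 2 ≤ siz g t := by
      rw [← hA]; linarith
    rw [← hadef]
    exact_mod_cast h3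
  -- the light vertex
  obtain ⟨w, q, hw, hq, wn⟩ := hCLS r (siz g) (missSet G g).ncard V G g hr
    ⟨fun _ => rfl, hNK.indep, rfl, hb⟩ hMx.1.notPartite hMx.1.noIso
  -- the eigenvector
  obtain ⟨⟨z, hz⟩, hzall⟩ := hF V G g n hnn1 hNK
  obtain ⟨hz1, hz2, hz3, hz4⟩ := hzall z hz
  rw [hs2] at hz1
  rw [← hh] at hz2 hz3
  rw [hs2] at hz4
  obtain ⟨hT1, -, hT3⟩ := hT V G z g n hnn2 hNK hz
  obtain ⟨L, hL⟩ : ∃ L : ℝ, L = lam G := ⟨_, rfl⟩
  have hq23 : 2 / 3 ≤ qq r ∧ qq r ≤ 1 := by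
    unfold qq
    have h1 : 1 / (r : ℝ) ≤ 1 / 3 := one_div_le_one_div_of_le (by norm_num) hr3
    have h2 : 0 < 1 / (r : ℝ) := by positivity
    constructor <;> linarith
  have hKh : K * h ≤ h ^ 4 / 6 := by
    have h1 : 6 * K * h ≤ h * h ^ 3 := mul_le_mul (by linarith) hpow3 hh0.le (by positivity)
    have h2 : h * h ^ 3 = h ^ 4 := by ring
    linarith
  have hC1h : C1 * h ≤ K * h := mul_le_mul_of_nonneg_right hKC1 hh0.le
  have hLlow : (n : ℝ) / 2 ≤ L := by
    have h1 := (abs_le.1 hz3).1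
    rw [← hL] at h1
    have h2 : 2 / 3 * (n : ℝ) ≤ qq r * n := mul_le_mul_of_nonneg_right hq23.1 hn0.le
    rw [hs4] at h1 h2 ⊢
    linarith
  have hLup : L ≤ 2 * n := by
    have h1 := (abs_le.1 hz3).2
    rw [← hL] at h1
    have h2 : qq r * n ≤ 1 * (n : ℝ) := mul_le_mul_of_nonneg_right hq23.2 hn0.le
    rw [hs4] at h1 h2 ⊢
    linarith
  have hL0 : 0 < L := by linarith
  have hzw : z w ≤ 1 := by
    refine (hz2 w ((hw w).2 rfl)).trans ?_
    rw [div_le_one hn0, hs4]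
    linarith
  have hTabs : ∀ t, |tv g z n t - L| ≤ K * h ^ 2 := by
    intro t
    rw [hL]
    refine (hz4 t).trans ?_
    exact mul_le_mul_of_nonneg_right hKC1 hh2.le
  have hKh2 : K * h ^ 2 ≤ L / 2 := by
    have h1 : 4 * K * h ^ 2 ≤ h ^ 2 * h ^ 2 :=
      mul_le_mul_of_nonneg_right (by linarith) hh2.le
    have h2 : h ^ 2 * h ^ 2 = h ^ 4 := by ring
    rw [hs4] at hLlow
    linarith
  have hTlow : ∀ t, L / 2 ≤ tv g z n t := fun t => by
    have := (abs_le.1 (hTabs t)).1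
    linarith
  have hTup : ∀ t, tv g z n t ≤ 2 * L := fun t => by
    have := (abs_le.1 (hTabs t)).2
    linarith
  have hTdiv : ∀ t, 1 - 2 * K / h ^ 2 ≤ tv g z n t / L := by
    intro t
    rw [le_div_iff₀ hL0]
    have h1 := (abs_le.1 (hTabs t)).1
    have h2 : K * h ^ 2 ≤ 2 * K / h ^ 2 * L := by
      rw [div_mul_eq_mul_div, le_div_iff₀ hh2]
      rw [hs4] at hLlow
      calc K * h ^ 2 * h ^ 2 = 2 * K * (h ^ 4 / 2) := by ring
        _ ≤ 2 * K * L := mul_le_mul_of_nonneg_left hLlow (by positivity)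
    linarith
  have hzcore : ∀ u, g u ≠ none → z u ≤ 1 + 2 * K / h ^ 2 := by
    intro u hu
    have h1 := (abs_le.1 (hz1 u hu)).2
    have h2 : C1 / h ^ 2 ≤ 2 * K / h ^ 2 := div_le_div_of_nonneg_right (by linarith) hh2.le
    linarith
  -- the second class
  obtain ⟨j, hji, hj⟩ : ∃ j, j ≠ i ∧ ∀ t, t ≠ i → siz g t ≤ siz g j := by
    have hne : (univ.filter fun t : Fin r => t ≠ i).Nonempty := by
      have : Nontrivial (Fin r) := Fin.nontrivial_iff_two_le.2 (by omega)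
      obtain ⟨t, ht⟩ := exists_ne i
      exact ⟨t, Finset.mem_filter.2 ⟨Finset.mem_univ t, ht⟩⟩
    obtain ⟨j, hj1, hj2⟩ := Finset.exists_max_image _ (siz g) hne
    exact ⟨j, (Finset.mem_filter.1 hj1).2, fun t ht =>
      hj2 t (Finset.mem_filter.2 ⟨Finset.mem_univ t, ht⟩)⟩
  -- the error `η`
  obtain ⟨e, he⟩ : ∃ e : ℝ, e = 2 * K * A / h ^ 4 := ⟨_, rfl⟩
  have he0 : 0 ≤ e := by rw [he]; positivity
  have heη : C2 * ((missSet G g).ncard + 1) / n ≤ e := by
    rw [he, hs4, ← hadef, ← hA]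
    refine div_le_div_of_nonneg_right ?_ hh4.le
    calc C2 * (A + 1) ≤ K * (2 * A) := mul_le_mul hKC2 (by linarith) (by linarith) hK0.le
      _ = 2 * K * A := by ring
  have he1 : e ≤ 2 * K ^ 2 / h ^ 3 := by
    rw [he, div_le_div_iff₀ hh4 (by positivity)]
    calc 2 * K * A * h ^ 3 ≤ 2 * K * (K * h) * h ^ 3 := by
          refine mul_le_mul_of_nonneg_right ?_ (by positivity)
          exact mul_le_mul_of_nonneg_left hAK (by positivity)
      _ = 2 * K ^ 2 * h ^ 4 := by ring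
  have he2 : e ≤ c / 64 * h ^ 2 := by
    refine he1.trans ?_
    rw [div_le_iff₀ (by positivity)]
    have h1 : 2 * K ^ 2 * (64 * K) ≤ c * K * (h ^ 2 * h ^ 3) := by
      calc 2 * K ^ 2 * (64 * K) = 128 * K ^ 3 := by ring
        _ ≤ h := b4
        _ = 1 * (h * 1) := by ring
        _ ≤ c * K * (h ^ 2 * h ^ 3) := by
            refine mul_le_mul hcK ?_ (by positivity) (by positivity)
            exact mul_le_mul hpow2 (by linarith) (by norm_num) (by positivity)
    have h2 : (2 * K ^ 2) * (64 * K) ≤ (c / 64 * h ^ 2 * h ^ 3) * (64 * K) := by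
      calc (2 * K ^ 2) * (64 * K) ≤ c * K * (h ^ 2 * h ^ 3) := h1
        _ = _ := by ring
    exact le_of_mul_le_mul_right h2 (by positivity)
  have he3 : e ≤ L / 8 := by
    refine he1.trans ?_
    rw [div_le_iff₀ (by positivity)]
    have h1 : 32 * K ^ 2 ≤ h ^ 4 * h ^ 3 := by
      calc 32 * K ^ 2 ≤ h := b5
        _ = 1 * h := by ring
        _ ≤ h ^ 4 * h ^ 3 := mul_le_mul (by linarith) hpow3 hh0.le (by positivity)
    have h2 : h ^ 4 / 2 * h ^ 3 ≤ L * h ^ 3 := by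
      rw [hs4] at hLlow
      exact mul_le_mul_of_nonneg_right hLlow (by positivity)
    linarith
  have hTj : ∀ t, t ≠ i → tv g z n j - e ≤ tv g z n t := by
    intro t ht
    have h1 := hT3 t j (hj t ht)
    have h2 : (0 : ℝ) ≤ ((siz g j : ℝ) - siz g t) / 2 := by
      have : (siz g t : ℝ) ≤ siz g j := by exact_mod_cast hj t ht
      linarith
    linarith
  have hTi : ∀ t, t ≠ i → tv g z n i + c / 4 * h ^ 2 ≤ tv g z n t := by
    intro t ht
    have h0 := hNL.big t ht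
    rw [hs2] at h0
    have h3 : siz g t ≤ siz g i := by
      have h4 : (siz g t : ℝ) ≤ siz g i := by
        have : 0 ≤ c * h ^ 2 := by positivity
        linarith
      exact_mod_cast h4
    have h1 := hT3 t i h3
    have h5 : 0 ≤ c * h ^ 2 := by positivity
    linarith
  -- comparison
  have hst := star (i := i) (j := j) hr hCNT hMEM hji.symm hMx hNK hb ha hw hq wn hz hT1 hsz hn1
    (by rw [← hL]; exact hLlow) hzw
    (fun t => (le_trans (by linarith) (hTlow t)))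
    (fun t => by rw [← hL]; exact hTup t)
    (fun H h1 h2 h3 => hS V G H z g w n hnn3 hNK h1 ((hw w).2 rfl) h2 hz h3)
  rw [← hadef, ← hA, ← hL] at hst
  obtain ⟨y, hy⟩ : ∃ y : V → ℝ, y = fun v => (n : ℝ) - cw z g (g v) := ⟨_, rfl⟩
  have hyt : ∀ {v : V} {t : Fin r}, g v = some t → y v = tv g z n t := by
    intro v t hv
    rw [hy]
    unfold tv
    simp only [hv]
  rw [← hy] at hst
  have hE : (C3 * (2 * A + 2 * r + 1) ^ 3 + 12 * (r : ℝ) ^ 2) / n ≤ D * A ^ 3 / h ^ 4 := by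
    rw [hs4]
    refine div_le_div_of_nonneg_right ?_ hh4.le
    have h1 : 2 * A + 2 * r + 1 ≤ 3 * r * A := by
      have h2 : (3 * (r : ℝ) - 2) * 1 ≤ (3 * r - 2) * A :=
        mul_le_mul_of_nonneg_left hA1 (by linarith)
      linarith
    have h2 : C3 * (2 * A + 2 * r + 1) ^ 3 ≤ K * (3 * r * A) ^ 3 :=
      mul_le_mul hKC3 (pow_le_pow_left₀ (by positivity) h1 3) (by positivity) hK0.le
    have h3 : 12 * (r : ℝ) ^ 2 ≤ 27 * K * r ^ 3 * A ^ 3 := by
      have h4 : (1 : ℝ) ≤ K * A ^ 3 := one_le_mul_of_one_le_of_one_le hK1 (one_le_pow₀ hA1)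
      have h5 : 12 * (r : ℝ) ^ 2 ≤ 27 * r ^ 3 := by
        have h6 : (r : ℝ) ^ 2 * 1 ≤ r ^ 2 * r :=
          mul_le_mul_of_nonneg_left (by linarith) (by positivity)
        have h7 : (0 : ℝ) ≤ (r : ℝ) ^ 2 := by positivity
        have h8 : (r : ℝ) ^ 2 * r = r ^ 3 := by ring
        linarith
      calc 12 * (r : ℝ) ^ 2 ≤ 27 * r ^ 3 := h5
        _ = 27 * r ^ 3 * 1 := by ring
        _ ≤ 27 * r ^ 3 * (K * A ^ 3) := mul_le_mul_of_nonneg_left h4 (by positivity)
        _ = 27 * K * r ^ 3 * A ^ 3 := by ring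
    rw [hD]
    linarith [show K * (3 * r * A) ^ 3 = 27 * K * r ^ 3 * A ^ 3 by ring]
  have hst2 := hst.trans hE
  clear hst hE
  obtain ⟨Ti, hTid⟩ : ∃ Ti : ℝ, Ti = tv g z n i := ⟨_, rfl⟩
  obtain ⟨Tj, hTjd⟩ : ∃ Tj : ℝ, Tj = tv g z n j := ⟨_, rfl⟩
  obtain ⟨X, hX⟩ : ∃ X : ℝ, X = (miss G y g - 2 * A * (Ti * Tj)) / L := ⟨_, rfl⟩
  obtain ⟨S, hSd⟩ : ∃ S : ℝ, S = ∑ v, muv G g z v ^ 2 := ⟨_, rfl⟩
  rw [← hTid, ← hTjd, ← hX, ← hSd] at hst2
  have hTi1 : L / 2 ≤ Ti := by rw [hTid]; exact hTlow i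
  have hTi2 : Ti ≤ 2 * L := by rw [hTid]; exact hTup i
  have hTj1 : L / 2 ≤ Tj := by rw [hTjd]; exact hTlow j
  have hTi0 : 0 ≤ Ti := by linarith
  have hTid' : 1 - 2 * K / h ^ 2 ≤ Ti / L := by rw [hTid]; exact hTdiv i
  have hTjd' : 1 - 2 * K / h ^ 2 ≤ Tj / L := by rw [hTjd]; exact hTdiv j
  have h2K : 2 * K ≤ h ^ 2 := by linarith
  -- products
  have hprod : ∀ u v, (MG G g).Adj u v → ∀ s t, g u = some s → g v = some t → s ≠ i → t ≠ i →
      Ti * Tj + c / 16 * h ^ 2 * L ≤ y u * y v := by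
    intro u v _ s t hu hv hs ht
    rw [hyt hu, hyt hv]
    refine prod2 hL0 hc0 hTi2 hTi0 hTj1 he0 he2 he3 ?_ ?_
    · rw [hTjd]; exact hTj s hs
    · rw [hTid]; exact hTi t ht
  have hprod1 : ∀ v t, g v = some t → t ≠ i → Ti * Tj - 2 * L * e ≤ Ti * y v := by
    intro v t hv ht
    rw [hyt hv]
    refine prod1 hTi0 hTi2 he0 ?_
    rw [hTjd]; exact hTj t ht
  have hcl : 0 ≤ c / 16 * h ^ 2 * L := by positivity
  have hLe : 0 ≤ 2 * L * e := by positivity
  have hall : ∀ u v, (MG G g).Adj u v → Ti * Tj - 2 * L * e ≤ y u * y v := by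
    intro u v huv
    obtain ⟨s, hs⟩ := Option.ne_none_iff_exists'.1 huv.1
    obtain ⟨t, ht⟩ := Option.ne_none_iff_exists'.1 huv.2.1
    have hst' : s ≠ t := by
      intro h'
      exact huv.2.2.1 (by rw [hs, ht, h'])
    by_cases hsi : s = i
    · have h1 := hprod1 v t ht (fun h' => hst' (hsi.trans h'.symm))
      have h2 : y u = Ti := by rw [hyt hs, hsi, hTid]
      rw [h2]
      exact h1
    · by_cases hti : t = i
      · have h1 := hprod1 u s hs hsi
        have h2 : y v = Ti := by rw [hyt ht, hti, hTid]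
        rw [h2, mul_comm (y u)]
        exact h1
      · have h1 := hprod u v huv s t hs ht hsi hti
        linarith
  have hmu : S ≤ (1 + 2 * K / h ^ 2) ^ 2 * ∑ v, ({u | (MG G g).Adj v u}.ncard : ℝ) ^ 2 := by
    rw [hSd]
    exact mu_sq G g hz.nonneg hzcore
  have : Nonempty V := ⟨w⟩
  obtain ⟨hq1, hq2⟩ := hSQE V (MG G g)
  rw [edge_eq, ← hadef] at hq1 hq2
  -- all missing pairs meet the class `i`
  have hmeet : ∀ u v, (MG G g).Adj u v → g u = some i ∨ g v = some i := by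
    intro u v huv
    by_contra hcon
    push Not at hcon
    obtain ⟨s, hs⟩ := Option.ne_none_iff_exists'.1 huv.1
    obtain ⟨t, ht⟩ := Option.ne_none_iff_exists'.1 huv.2.1
    have hsi : s ≠ i := fun h' => hcon.1 (by rw [hs, h'])
    have hti : t ≠ i := fun h' => hcon.2 (by rw [ht, h'])
    have h1 := miss_low1 G g hLe hall huv (hprod u v huv s t hs ht hsi hti)
    rw [← hadef, ← hA] at h1
    refine realA (a := A) (X := X) (S := S) hh1 hK1 hD0 hcK hA1 hAK h2K hTid' hTjd' ?_ ?_ hst2 b6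
    · rw [hX, le_div_iff₀ hL0]
      have h2 : 8 * K * A ^ 2 / h ^ 4 = 4 * A * e := by rw [he]; ring
      rw [h2]
      linarith
    · refine hmu.trans (mul_le_mul_of_nonneg_left ?_ (sq_nonneg _))
      rw [hA]
      exact_mod_cast hq1
  have hlow := miss_low G g hall
  rw [← hadef, ← hA] at hlow
  have hXlow : - (8 * K * A ^ 2 / h ^ 4) ≤ X := by
    rw [hX, le_div_iff₀ hL0]
    have h2 : 8 * K * A ^ 2 / h ^ 4 = 4 * A * e := by rw [he]; ring
    rw [h2]
    linarith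
  -- the missing pairs form a star
  have hstar : ∃ x, ∀ e ∈ missSet G g, x ∈ e := by
    have htf : ∀ x y z, (MG G g).Adj x y → (MG G g).Adj y z → ¬ (MG G g).Adj x z := by
      intro u v t h1 h2 h3
      rcases hmeet u v h1 with h4 | h4
      · rcases hmeet v t h2 with h5 | h5
        · exact h1.2.2.1 (by rw [h4, h5])
        · exact h3.2.2.1 (by rw [h4, h5])
      · rcases hmeet u t h3 with h5 | h5
        · exact h1.2.2.1 (by rw [h4, h5])
        · exact h2.2.2.1 (by rw [h4, h5])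
    rcases hq2 htf with h1 | h1
    · exact h1
    · exfalso
      refine realB (a := A) (X := X) (S := S) hh1 hK1 hD0 hA1 hAK h2K hTid' hTjd' hXlow ?_ hst2 b7
      refine hmu.trans (mul_le_mul_of_nonneg_left ?_ (sq_nonneg _))
      have h2 : 2 * (∑ v, ({u | (MG G g).Adj v u}.ncard : ℝ) ^ 2) + A ≤ 2 * (A ^ 2 + A) := by
        rw [hA]
        exact_mod_cast h1
      linarith
  -- the centre is in the class `i`
  have hne : (missSet G g).Nonempty := by
    rw [← Set.ncard_pos (Set.toFinite _), ← hadef]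
    have : 1 ≤ a := by rw [hadef]; exact ha
    exact this
  obtain ⟨e0, he0'⟩ := hne
  obtain ⟨u0, v0, hadj0, he00⟩ : ∃ u v, (MG G g).Adj u v ∧ e0 = s(u, v) := by
    obtain ⟨u, v, h1, h2, h3, h4, h5⟩ := he0'
    exact ⟨u, v, ⟨h2, h3, h4, h5⟩, h1⟩
  have hcentre : ∃ x, g x = some i ∧ ∀ e ∈ missSet G g, x ∈ e := by
    obtain ⟨x, hx⟩ := hstar
    have hxg : g x ≠ none := by
      rcases star_off hx hadj0 with h1 | h1
      · rw [h1]; exact hadj0.1
      · rw [h1]; exact hadj0.2.1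
    obtain ⟨s, hs⟩ := Option.ne_none_iff_exists'.1 hxg
    by_cases hsi : s = i
    · exact ⟨x, by rw [hs, hsi], hx⟩
    · by_cases ha2 : a = 1
      · obtain ⟨e1, he1'⟩ := Set.ncard_eq_one.1 (hadef.symm.trans ha2)
        have h1 : e0 = e1 := by
          rw [he1'] at he0'
          exact he0'
        have h2 : ∀ e ∈ missSet G g, e = s(u0, v0) := by
          intro e' h3
          rw [he1'] at h3
          rw [← he00, h1]
          exact h3
        rcases hmeet u0 v0 hadj0 with h3 | h3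
        · exact ⟨u0, h3, fun e' h4 => by rw [h2 e' h4]; exact Sym2.mem_mk_left u0 v0⟩
        · exact ⟨v0, h3, fun e' h4 => by rw [h2 e' h4]; exact Sym2.mem_mk_right u0 v0⟩
      · exfalso
        have hA2 : 2 ≤ A := by
          have h1 : 1 ≤ a := by rw [hadef]; exact ha
          have h2 : 2 ≤ a := by omega
          rw [hA]
          exact_mod_cast h2
        have hleaf : ∀ v, (MG G g).Adj x v → g v = some i := by
          intro v hv
          rcases hmeet x v hv with h1 | h1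
          · rw [hs] at h1
            exact absurd (Option.some.inj h1) hsi
          · exact h1
        obtain ⟨Ts, hTs⟩ : ∃ Ts : ℝ, Ts = tv g z n s := ⟨_, rfl⟩
        have hmc : miss G y g = 2 * A * (Ts * Ti) := by
          rw [miss_const G g (T := Ts * Ti), ← hadef, ← hA]
          intro u v huv
          rcases star_off hx huv with h1 | h1
          · subst h1
            rw [hyt hs, hyt (hleaf v huv), hTs, hTid]
          · subst h1
            rw [hyt hs, hyt (hleaf u huv.symm), hTs, hTid, mul_comm]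
        have hzx : z x ≤ (Ts + z w) / L := by
          rw [hTs, hL]
          exact z_le (by rw [← hL]; exact hL0) hT1 hw hz.nonneg hs
        have hmx : muv G g z x ≤ A * ((Ti + z w) / L) := by
          have h1 := star_row hx
          rw [← hadef, ← hA] at h1
          rw [muv_eq, ← h1, Finset.sum_mul]
          refine sum_le_sum fun v _ => ?_
          by_cases hadj : (MG G g).Adj x v
          · rw [adj_pos hadj, one_mul, one_mul, hTid, hL]
            exact z_le (by rw [← hL]; exact hL0) hT1 hw hz.nonneg (hleaf v hadj)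
          · rw [adj_neg hadj, zero_mul, zero_mul]
        refine realC (a := A) (Ti := Ti) (Tj := Tj) (Ts := Ts) (zw := z w) (X := X) (S := S)
          (L := L) hh1 hK1 hD0 hcK hA2 hAK (by rw [← hs4]; exact hLup) ?_ hTi1 hTi2 hTj1
          (by rw [hTjd]; exact hTup j) (by rw [hTs]; exact hTlow s) (by rw [hTs]; exact hTup s)
          (hz.nonneg w) hzw ?_ ?_ ?_ ?_ hst2 b8
        · rw [hs4] at hLlow
          linarith
        · rw [hTs, hTjd, ← he]
          have := hTj s hsi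
          linarith
        · rw [hTjd, hTid]
          have := hTi j hji
          linarith
        · rw [hX, hmc]
          congr 1
          ring
        · rw [hSd]
          refine (star_sq hx z).trans ?_
          rw [← hadef, ← hA, ← mul_pow]
          refine add_le_add ?_ ?_
          · exact pow_le_pow_left₀ (muv_nonneg G g hz.nonneg x) hmx 2
          · exact mul_le_mul_of_nonneg_left (pow_le_pow_left₀ (hz.nonneg x) hzx 2) hA0.le
  obtain ⟨x, hxi, hx⟩ := hcentre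
  -- the pair of neighbours of `w`
  obtain ⟨s, t, hst1, hnadj⟩ := exists_miss hMx.1.free wn
  have hqadj : (MG G g).Adj (q s) (q t) := by
    refine ⟨?_, ?_, ?_, hnadj⟩
    · rw [hq]; exact Option.some_ne_none s
    · rw [hq]; exact Option.some_ne_none t
    · rw [hq, hq]
      exact fun h' => hst1 (Option.some.inj h')
  have hxq : x = q i ∧ ∃ t, (MG G g).Adj x (q t) := by
    rcases star_off hx hqadj with h1 | h1
    · have h2 : s = i := by
        have h3 := hq s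
        rw [← h1, hxi] at h3
        exact (Option.some.inj h3).symm
      exact ⟨by rw [h1, h2], t, by rw [h1]; exact hqadj⟩
    · have h2 : t = i := by
        have h3 := hq t
        rw [← h1, hxi] at h3
        exact (Option.some.inj h3).symm
      exact ⟨by rw [h1, h2], s, by rw [h1]; exact hqadj.symm⟩
  obtain ⟨hxqi, t1, ht1⟩ := hxq
  refine ⟨w, q, univ.filter fun v => (MG G g).Adj x v, hw, hq, wn, ?_, ?_, ?_, ?_⟩
  · intro v hv
    have h1 := (Finset.mem_filter.1 hv).2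
    refine ⟨h1.2.1, fun h2 => h1.2.2.1 ?_⟩
    rw [hxi, h2]
  · intro u v hu hv
    rw [← hxqi]
    constructor
    · intro huv
      refine ⟨fun h1 => hNK.indep u v hu h1 huv, ?_, ?_⟩
      · rintro ⟨rfl, h2⟩
        exact (Finset.mem_filter.1 h2).2.2.2.2 huv
      · rintro ⟨rfl, h2⟩
        exact (Finset.mem_filter.1 h2).2.2.2.2 huv.symm
    · rintro ⟨h1, h2, h3⟩
      by_contra hcon
      have h4 : (MG G g).Adj u v := ⟨hu, hv, h1, hcon⟩
      rcases star_off hx h4 with h5 | h5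
      · refine h2 ⟨h5.symm, Finset.mem_filter.2 ⟨Finset.mem_univ _, ?_⟩⟩
        rw [h5]; exact h4
      · refine h3 ⟨h5.symm, Finset.mem_filter.2 ⟨Finset.mem_univ _, ?_⟩⟩
        rw [h5]; exact h4.symm
  · exact ⟨t1, Finset.mem_filter.2 ⟨Finset.mem_univ _, ht1⟩⟩
  · intro t
    have h1 := star_row hx
    rw [adj_row, Set.ncard_eq_toFinset_card', Set.toFinset_ofPred] at h1
    have h2 : (univ.filter fun v => (MG G g).Adj x v).card = (missSet G g).ncard := by
      exact_mod_cast h1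
    rw [h2]
    have := hsz t
    omega

end MP0c3a8f
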