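import Pool.Agent.Work.MP_0c3a8f_co.PB.Stmts8
import Pool.Agent.Work.MP_0c3a8f_co.PB.ItemSLB

/-!
# MP_0c3a8f_co, phase B: item QST (type `Q`)
-/

set_option autoImplicit false

open Finset

namespace MP0c3a8f

namespace QSTx

open ItemSLB

/-- exactly one missing pair -/
structure One {V : Type} {r : ℕ} (G : SimpleGraph V) (g : V → Option (Fin r)) (p p' : V)
    (s t : Fin r) : Prop where
  st : s ≠ t
  hp : g p = some s
  hp' : g p' = some t
  core : ∀ u v, g u ≠ none → g v ≠ none → (G.Adj u v ↔ g u ≠ g v ∧ s(u, v) ≠ s(p, p'))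

section one

variable {V : Type} {r : ℕ} {G : SimpleGraph V} {g : V → Option (Fin r)} {p p' : V} {s t : Fin r}

theorem One.ne (h : One G g p p' s t) : p ≠ p' := by
  intro e
  apply h.st
  have h1 := h.hp
  rw [e, h.hp'] at h1
  exact (Option.some.inj h1).symm

theorem One.np (h : One G g p p' s t) : g p ≠ none := by
  rw [h.hp]
  exact Option.some_ne_none s

theorem One.np' (h : One G g p p' s t) : g p' ≠ none := by
  rw [h.hp']
  exact Option.some_ne_none t

theorem One.cond (h : One G g p p' s t) (i j : V) :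
    (g i ≠ none ∧ g j ≠ none ∧ g i ≠ g j ∧ ¬ G.Adj i j) ↔
      (i = p ∧ j = p') ∨ (i = p' ∧ j = p) := by
  constructor
  · rintro ⟨h1, h2, h3, h4⟩
    rw [h.core i j h1 h2, not_and, not_not] at h4
    exact Sym2.eq_iff.1 (h4 h3)
  · rintro (⟨rfl, rfl⟩ | ⟨rfl, rfl⟩)
    · refine ⟨h.np, h.np', ?_, ?_⟩
      · rw [h.hp, h.hp']
        exact fun e => h.st (Option.some.inj e)
      · rw [h.core _ _ h.np h.np']
        exact fun h1 => h1.2 rfl
    · refine ⟨h.np', h.np, ?_, ?_⟩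
      · rw [h.hp, h.hp']
        exact fun e => h.st (Option.some.inj e).symm
      · rw [h.core _ _ h.np' h.np]
        exact fun h1 => h1.2 Sym2.eq_swap

theorem One.of_ncard (hI : Indep G g) (h1 : (missSet G g).ncard = 1) :
    ∃ (p p' : V) (s t : Fin r), One G g p p' s t := by
  obtain ⟨e, he⟩ := Set.ncard_eq_one.1 h1
  have h2 : e ∈ missSet G g := by rw [he]; exact Set.mem_singleton e
  obtain ⟨p, p', rfl, hp, hp', hpp, hA⟩ := h2
  obtain ⟨s, hs⟩ := Option.ne_none_iff_exists'.1 hp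
  obtain ⟨t, ht⟩ := Option.ne_none_iff_exists'.1 hp'
  refine ⟨p, p', s, t, ?_, hs, ht, ?_⟩
  · intro e
    apply hpp
    rw [hs, ht, e]
  · intro u v hu hv
    constructor
    · intro h
      refine ⟨fun e => hI u v hu e h, ?_⟩
      intro e
      rcases Sym2.eq_iff.1 e with ⟨rfl, rfl⟩ | ⟨rfl, rfl⟩
      · exact hA h
      · exact hA h.symm
    · rintro ⟨h3, h4⟩
      by_contra h5
      have h6 : s(u, v) ∈ missSet G g := ⟨u, v, rfl, hu, hv, h3, h5⟩
      rw [he] at h6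
      exact h4 h6

variable [Fintype V]

theorem One.miss_eq (h : One G g p p' s t) (Y : Option (Fin r) → ℝ) :
    miss G (fun v => Y (g v)) g = 2 * (Y (some s) * Y (some t)) := by
  classical
  have h1 : ∀ i j, (if g i ≠ none ∧ g j ≠ none ∧ g i ≠ g j ∧ ¬ G.Adj i j
      then Y (g i) * Y (g j) else 0) =
      (if i = p then (if j = p' then Y (some s) * Y (some t) else 0) else 0) +
        (if i = p' then (if j = p then Y (some s) * Y (some t) else 0) else 0) := by
    intro i j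
    by_cases hc : g i ≠ none ∧ g j ≠ none ∧ g i ≠ g j ∧ ¬ G.Adj i j
    · rw [if_pos hc]
      rcases (h.cond i j).1 hc with ⟨rfl, rfl⟩ | ⟨rfl, rfl⟩
      · rw [if_pos rfl, if_pos rfl, if_neg h.ne, h.hp, h.hp', add_zero]
      · rw [if_neg h.ne.symm, if_pos rfl, if_pos rfl, h.hp, h.hp', zero_add, mul_comm]
    · rw [if_neg hc]
      rw [h.cond, not_or, not_and, not_and] at hc
      by_cases h2 : i = p
      · have h3 := hc.1 h2
        rw [if_pos h2, if_neg h3]
        have h4 : ¬ i = p' := by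
          rw [h2]
          exact h.ne
        rw [if_neg h4, add_zero]
      · rw [if_neg h2, zero_add]
        by_cases h4 : i = p'
        · rw [if_pos h4, if_neg (hc.2 h4)]
        · rw [if_neg h4]
  have h2 : miss G (fun v => Y (g v)) g = ∑ i, ∑ j, ((if i = p then (if j = p' then
      Y (some s) * Y (some t) else 0) else 0) +
        (if i = p' then (if j = p then Y (some s) * Y (some t) else 0) else 0)) := by
    unfold miss
    refine sum_congr rfl fun i _ => sum_congr rfl fun j _ => ?_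
    rw [← h1 i j]
  rw [h2]
  simp only [sum_add_distrib]
  have h3 : ∀ a b : V, ∑ i, ∑ j, (if i = a then (if j = b then Y (some s) * Y (some t) else 0)
      else 0) = Y (some s) * Y (some t) := by
    intro a b
    rw [sum_eq_single a (fun i _ hi => by simp [hi]) (fun ha => absurd (mem_univ a) ha)]
    simp
  rw [h3, h3]
  ring

theorem One.muv_eq (h : One G g p p' s t) (z : V → ℝ) (v : V) :
    (v = p → muv G g z v = z p') ∧ (v = p' → muv G g z v = z p) ∧
      (v ≠ p → v ≠ p' → muv G g z v = 0) := by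
  classical
  have hc : ∀ u, (g v ≠ none ∧ g u ≠ none ∧ g u ≠ g v ∧ ¬ G.Adj v u) ↔
      (v = p ∧ u = p') ∨ (v = p' ∧ u = p) := by
    intro u
    rw [← h.cond v u]
    constructor
    · rintro ⟨h1, h2, h3, h4⟩
      exact ⟨h1, h2, h3.symm, h4⟩
    · rintro ⟨h1, h2, h3, h4⟩
      exact ⟨h1, h2, h3.symm, h4⟩
  refine ⟨?_, ?_, ?_⟩
  · intro hv
    unfold muv
    rw [sum_eq_single p']
    · rw [if_pos ((hc p').2 (Or.inl ⟨hv, rfl⟩))]
    · intro u _ hu
      rw [if_neg]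
      rw [hc]
      rintro (⟨-, h1⟩ | ⟨h1, -⟩)
      · exact hu h1
      · exact h.ne (hv.symm.trans h1)
    · intro h1
      exact absurd (mem_univ p') h1
  · intro hv
    unfold muv
    rw [sum_eq_single p]
    · rw [if_pos ((hc p).2 (Or.inr ⟨hv, rfl⟩))]
    · intro u _ hu
      rw [if_neg]
      rw [hc]
      rintro (⟨h1, -⟩ | ⟨-, h1⟩)
      · exact h.ne (h1.symm.trans hv)
      · exact hu h1
    · intro h1
      exact absurd (mem_univ p) h1
  · intro h1 h2
    unfold muv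
    refine sum_eq_zero fun u _ => ?_
    rw [if_neg]
    rw [hc]
    rintro (⟨h3, -⟩ | ⟨h3, -⟩)
    · exact h1 h3
    · exact h2 h3

theorem One.sum_muv (h : One G g p p' s t) (z : V → ℝ) :
    ∑ v, muv G g z v ^ 2 = z p ^ 2 + z p' ^ 2 := by
  classical
  have h1 : ∀ v, muv G g z v ^ 2 = (if v = p then z p' ^ 2 else 0) +
      (if v = p' then z p ^ 2 else 0) := by
    intro v
    obtain ⟨h2, h3, h4⟩ := h.muv_eq z v
    by_cases h5 : v = p
    · rw [h2 h5, if_pos h5, if_neg (fun e => h.ne (h5.symm.trans e)), add_zero]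
    · by_cases h6 : v = p'
      · rw [h3 h6, if_neg h5, if_pos h6, zero_add]
      · rw [h4 h5 h6, if_neg h5, if_neg h6]
        ring
  rw [sum_congr rfl fun v _ => h1 v, sum_add_distrib, sum_ite_eq', sum_ite_eq',
    if_pos (mem_univ p), if_pos (mem_univ p')]
  ring

end one

section cov

variable {V : Type} [Fintype V] {r : ℕ}

theorem cov_le {G : SimpleGraph V} {g : V → Option (Fin r)} {z : V → ℝ} {κ : ℝ}
    (hz : ∀ u, g u ≠ none → z u ≤ 1 + κ) (x : V) : cov G g z x ≤ (1 + κ) * dc G g x := by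
  unfold cov dc
  rw [mul_sum]
  refine sum_le_sum fun u _ => ?_
  by_cases h1 : g u = none
  · rw [if_neg (fun h => h.1 h1), ci_none h1]
    simp
  · rw [ci_some h1]
    by_cases h2 : G.Adj x u
    · rw [if_pos ⟨h1, h2⟩]
      unfold adj
      rw [if_pos h2]
      have := hz u h1
      linarith
    · rw [if_neg (fun h => h2 h.2)]
      unfold adj
      rw [if_neg h2]
      simp

theorem cov_nonneg {G : SimpleGraph V} {g : V → Option (Fin r)} {z : V → ℝ}
    (hz : ∀ u, 0 ≤ z u) (x : V) : 0 ≤ cov G g z x := by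
  unfold cov
  refine sum_nonneg fun u _ => ?_
  split_ifs
  · exact hz u
  · exact le_refl _

theorem cov_ge {H : SimpleGraph V} {g : V → Option (Fin r)} {z : V → ℝ} {κ : ℝ} {w : V}
    {A : Finset V} (hA : ∀ v ∈ A, g v ≠ none) (hw : ∀ v, H.Adj w v ↔ v ∈ A)
    (hz : ∀ u, g u ≠ none → 1 - κ ≤ z u) : (1 - κ) * A.card ≤ cov H g z w := by
  classical
  have h1 : cov H g z w = ∑ u ∈ A, z u := by
    unfold cov
    rw [← sum_filter]
    refine sum_congr ?_ fun _ _ => rfl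
    ext u
    simp only [mem_filter, mem_univ, true_and]
    rw [hw u]
    exact ⟨fun h => h.2, fun h => ⟨hA u h, h⟩⟩
  rw [h1]
  have h2 := A.card_nsmul_le_sum z (1 - κ) fun u hu => hz u (hA u hu)
  rw [nsmul_eq_mul] at h2
  linarith

end cov

section light

variable {V : Type} [Fintype V] {r : ℕ}

/-- sum of the squares of the core degrees of the light vertices -/
noncomputable def Q (G : SimpleGraph V) (g : V → Option (Fin r)) : ℝ :=
  ∑ v, (1 - ci g v) * dc G g v ^ 2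

omit [Fintype V] in
theorem lightSet_empty (G : SimpleGraph V) (g : V → Option (Fin r)) :
    lightSet G g ∅ = outSet G g := by
  ext e
  constructor
  · rintro ⟨h1, v, hv, h2, -⟩
    exact ⟨h1, v, hv, h2⟩
  · rintro ⟨h1, v, hv, h2⟩
    exact ⟨h1, v, hv, h2, notMem_empty v⟩

theorem e1_nn (G : SimpleGraph V) (g : V → Option (Fin r)) : 0 ≤ e1 G g :=
  sum_nonneg fun v _ => mul_nonneg (ci_le g v) (dc_nonneg G g v)

theorem e2_nn (G : SimpleGraph V) (g : V → Option (Fin r)) : 0 ≤ e2 G g :=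
  sum_nonneg fun v _ => mul_nonneg (ci_le g v) (dl_nonneg G g v)

theorem Q_le (G : SimpleGraph V) (g : V → Option (Fin r)) {b : ℕ}
    (hb : (outSet G g).ncard = b) : Q G g ≤ (b : ℝ) ^ 2 := by
  have h1 := light_eq G g
  rw [lightSet_empty, hb] at h1
  have h2 := e2_nn G g
  have h3 : Q G g ≤ e1 G g * e1 G g := by
    unfold Q
    have h4 : e1 G g * e1 G g = ∑ v, (1 - ci g v) * dc G g v * e1 G g := by
      rw [← sum_mul]
      rfl
    rw [h4]
    refine sum_le_sum fun v _ => ?_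
    by_cases hv : g v = none
    · rw [ci_none hv, sub_zero, one_mul, one_mul, sq]
      exact mul_le_mul_of_nonneg_left (dc_le G g hv) (dc_nonneg G g v)
    · rw [ci_some hv]
      simp
  have h5 := e1_nn G g
  have h6 : e1 G g ≤ b := by linarith
  nlinarith

theorem only_light {G : SimpleGraph V} {g : V → Option (Fin r)} {b : ℕ}
    (hb : (outSet G g).ncard = b) (hb1 : 1 ≤ b) (hQ : (b : ℝ) ^ 2 - Q G g < 1)
    (hiso : ∀ v, ∃ u, G.Adj v u) :
    ∃ w, g w = none ∧ (∀ x, g x = none → x = w) ∧ ∑ t, nbn G g w t = b := by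
  classical
  have h1 := light_eq G g
  rw [lightSet_empty, hb] at h1
  have h2 := e2_nn G g
  have hne : (outSet G g).Nonempty := by
    apply Set.nonempty_of_ncard_ne_zero
    omega
  obtain ⟨e, -, v0, -, hv0⟩ := hne
  obtain ⟨w, hw, hmax⟩ := exists_max_image (univ.filter fun v => g v = none)
    (fun v => ∑ t, nbn G g v t) ⟨v0, by simp [hv0]⟩
  simp only [mem_filter, mem_univ, true_and] at hw hmax
  have hmax' : ∀ x, g x = none → dc G g x ≤ dc G g w := by
    intro x hx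
    rw [← dc_eq, ← dc_eq]
    exact_mod_cast hmax x hx
  have h3 : Q G g ≤ dc G g w * e1 G g := by
    unfold Q e1
    rw [mul_sum]
    refine sum_le_sum fun v _ => ?_
    by_cases hv : g v = none
    · rw [ci_none hv, sub_zero, one_mul, one_mul, sq]
      exact mul_le_mul_of_nonneg_right (hmax' v hv) (dc_nonneg G g v)
    · rw [ci_some hv]
      simp
  have h4 : e1 G g ≤ b := by linarith
  have h5 := dc_nonneg G g w
  have h6 : Q G g ≤ dc G g w * b := h3.trans (mul_le_mul_of_nonneg_left h4 h5)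
  have h7 := dc_le G g hw
  have hD : b ≤ ∑ t, nbn G g w t := by
    by_contra hcon
    have h8 : ((∑ t, nbn G g w t : ℕ) : ℝ) + 1 ≤ b := by
      have : ∑ t, nbn G g w t + 1 ≤ b := by omega
      exact_mod_cast this
    rw [dc_eq] at h8
    have h9 : (1 : ℝ) ≤ b := by exact_mod_cast hb1
    nlinarith
  have hD2 : (b : ℝ) ≤ dc G g w := by
    rw [← dc_eq]
    exact_mod_cast hD
  have he2 : e2 G g = 0 := by linarith
  refine ⟨w, hw, ?_, ?_⟩
  · intro x hx
    by_contra hxw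
    have h8 : dc G g x + dc G g w ≤ e1 G g := by
      have h9 : e1 G g = (1 - ci g w) * dc G g w +
          ∑ v ∈ univ.erase w, (1 - ci g v) * dc G g v := by
        unfold e1
        exact (add_sum_erase univ (fun v => (1 - ci g v) * dc G g v) (mem_univ w)).symm
      have h10 := single_le_sum (f := fun v => (1 - ci g v) * dc G g v) (s := univ.erase w)
        (fun v _ => mul_nonneg (ci_le g v) (dc_nonneg G g v))
        (mem_erase.2 ⟨hxw, mem_univ x⟩)
      simp only [ci_none hx, sub_zero, one_mul] at h10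
      rw [h9, ci_none hw]
      linarith
    have h9 := dl_le G g hx
    obtain ⟨u, hu⟩ := hiso x
    have h10 : adj G x u ≤ dc G g x + dl G g x := by
      have h11 : dc G g x + dl G g x = ∑ u, adj G x u := by
        unfold dc dl
        rw [← sum_add_distrib]
        exact sum_congr rfl fun u _ => by ring
      rw [h11]
      exact single_le_sum (f := fun u => adj G x u)
        (fun i _ => ItemKW3.adj_nonneg G x i) (mem_univ u)
    have h11 : adj G x u = 1 := by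
      unfold adj
      rw [if_pos hu]
    linarith
  · have h8 : ((∑ t, nbn G g w t : ℕ) : ℝ) = b := by
      rw [dc_eq]
      linarith
    exact_mod_cast h8

end light

theorem light_le {V : Type} [Fintype V] {r : ℕ} {G : SimpleGraph V} {z : V → ℝ}
    {g : V → Option (Fin r)} {κ : ℝ} (F : V → ℝ) (hz0 : ∀ v, 0 ≤ z v)
    (hup : ∀ v, g v ≠ none → z v ≤ 1 + κ) (h1 : ∀ v, g v = none → F v = cov G g z v ^ 2)
    (h2 : ∀ v, g v ≠ none → F v = 0) : ∑ v, F v ≤ (1 + κ) ^ 2 * Q G g := by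
  unfold Q
  rw [mul_sum]
  refine sum_le_sum fun v _ => ?_
  by_cases hv : g v = none
  · rw [h1 v hv, ci_none hv, sub_zero, one_mul, ← mul_pow]
    exact pow_le_pow_left₀ (cov_nonneg hz0 v) (cov_le hup v) 2
  · rw [h2 v hv, ci_some hv]
    simp

/-- the second order comparison for one missing pair -/
theorem pair_ineq {V : Type} [Fintype V] {r : ℕ} {G H : SimpleGraph V} {z : V → ℝ}
    {g : V → Option (Fin r)} {x y p p' w : V} {s t i j : Fin r} {A : Finset V} {κ E : ℝ}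
    {n : ℕ} {L : ℝ} (hκ : 0 ≤ κ) (hκ1 : κ ≤ 1) (hz0 : ∀ v, 0 ≤ z v)
    (hz : ∀ v, g v ≠ none → |z v - 1| ≤ κ) (hG : One G g x y s t) (hH : One H g p p' i j)
    (hA : ∀ v ∈ A, g v ≠ none) (hw : ∀ v, H.Adj w v ↔ v ∈ A)
    (hb : (outSet G g).ncard = A.card) (h6' : L ≤ (1 + κ) ^ 2 * Q G g)
    (hS : (miss G (fun v => (n : ℝ) - cw z g (g v)) g - miss H (fun v => (n : ℝ) - cw z g (g v)) g)
        / lam G
      + (∑ v, muv H g z v ^ 2 - ∑ v, muv G g z v ^ 2)
      + (cov H g z w ^ 2 - L) ≤ E) :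
    2 * (tv g z n s * tv g z n t - tv g z n i * tv g z n j) / lam G
      + ((A.card : ℝ) ^ 2 - Q G g) ≤ E + 8 * κ + 4 * κ * (A.card : ℝ) ^ 2 := by
  classical
  have e1 : miss G (fun v => (n : ℝ) - cw z g (g v)) g = 2 * (tv g z n s * tv g z n t) :=
    hG.miss_eq (fun o => (n : ℝ) - cw z g o)
  have e2 : miss H (fun v => (n : ℝ) - cw z g (g v)) g = 2 * (tv g z n i * tv g z n j) :=
    hH.miss_eq (fun o => (n : ℝ) - cw z g o)
  rw [e1, e2, hG.sum_muv, hH.sum_muv] at hS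
  have hup : ∀ v, g v ≠ none → z v ≤ 1 + κ := fun v hv => by
    have := (abs_le.1 (hz v hv)).2
    linarith
  have hlo : ∀ v, g v ≠ none → 1 - κ ≤ z v := fun v hv => by
    have := (abs_le.1 (hz v hv)).1
    linarith
  have hsq1 : ∀ v, g v ≠ none → z v ^ 2 ≤ (1 + κ) ^ 2 := fun v hv =>
    pow_le_pow_left₀ (hz0 v) (hup v hv) 2
  have hsq2 : ∀ v, g v ≠ none → (1 - κ) ^ 2 ≤ z v ^ 2 := fun v hv =>
    pow_le_pow_left₀ (by linarith) (hlo v hv) 2
  have h1 := hsq1 x hG.np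
  have h2 := hsq1 y hG.np'
  have h3 := hsq2 p hH.np
  have h4 := hsq2 p' hH.np'
  have h5 : ((1 - κ) * A.card) ^ 2 ≤ cov H g z w ^ 2 :=
    pow_le_pow_left₀ (mul_nonneg (by linarith) (Nat.cast_nonneg _)) (cov_ge hA hw hlo) 2
  have h7 := Q_le G g hb
  have h8 : 0 ≤ Q G g := sum_nonneg fun v _ => mul_nonneg (ci_le g v) (sq_nonneg _)
  obtain ⟨q, hq⟩ : ∃ q, q = Q G g := ⟨_, rfl⟩
  obtain ⟨B, hB⟩ : ∃ B : ℝ, B = (A.card : ℝ) ^ 2 := ⟨_, rfl⟩
  have h9 : ((1 - κ) * A.card) ^ 2 = (1 - κ) ^ 2 * B := by rw [hB]; ring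
  rw [h9] at h5
  rw [← hq] at h6' h7 h8 ⊢
  rw [← hB] at h7 ⊢
  have h10 : B - q - 4 * κ * B ≤ (1 - κ) ^ 2 * B - (1 + κ) ^ 2 * q := by
    nlinarith [mul_nonneg hκ (sub_nonneg.2 h7), mul_nonneg (mul_nonneg hκ hκ) (sub_nonneg.2 h7)]
  have h11 : 2 * (tv g z n s * tv g z n t - tv g z n i * tv g z n j) / lam G =
      (2 * (tv g z n s * tv g z n t) - 2 * (tv g z n i * tv g z n j)) / lam G := by
    congr 1
    ring
  rw [h11]
  have h12 : (1 + κ) ^ 2 = (1 - κ) ^ 2 + 4 * κ := by ring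
  linarith

section graphs

variable {V : Type} [Fintype V] {r : ℕ}

theorem exists_A (g : V → Option (Fin r)) (i j : Fin r) (b : ℕ) (hr : 3 ≤ r)
    (hb : r ≤ b) (hb2 : b ≤ 2 * r) (hs : ∀ t, r + 1 ≤ siz g t) :
    ∃ (A : Finset V) (p p' : V), (∀ v ∈ A, g v ≠ none) ∧
      (∀ v, (v ∈ A ∧ g v = some i) ↔ v = p) ∧ (∀ v, (v ∈ A ∧ g v = some j) ↔ v = p') ∧
      (∀ t, ∃ v ∈ A, g v = some t) ∧ A.card = b := by
  classical
  obtain ⟨k, hki, hkj⟩ : ∃ k : Fin r, k ≠ i ∧ k ≠ j := by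
    by_contra hcon
    push Not at hcon
    have h1 : (univ : Finset (Fin r)) ⊆ {i, j} := by
      intro k _
      rw [mem_insert, mem_singleton]
      by_cases h : k = i
      · exact Or.inl h
      · exact Or.inr (hcon k h)
    have h2 := card_le_card h1
    rw [card_univ, Fintype.card_fin] at h2
    have h3 : ({i, j} : Finset (Fin r)).card ≤ 2 := card_le_two
    omega
  have hcls : ∀ t, (univ.filter fun v => g v = some t).card = siz g t := by
    intro t
    unfold siz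
    rw [← Set.ncard_coe_finset]
    congr 1
    ext v
    simp
  have hex : ∀ t, ∃ B : Finset V, B ⊆ (univ.filter fun v => g v = some t) ∧
      B.card = 1 + if t = k then b - r else 0 := by
    intro t
    refine exists_subset_card_eq ?_
    rw [hcls]
    have := hs t
    split_ifs <;> omega
  choose B hB1 hB2 using hex
  have hBg : ∀ t v, v ∈ B t → g v = some t := by
    intro t v hv
    exact (mem_filter.1 (hB1 t hv)).2
  have hmem : ∀ v t, g v = some t → (v ∈ univ.biUnion B ↔ v ∈ B t) := by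
    intro v t hvt
    rw [mem_biUnion]
    constructor
    · rintro ⟨s, -, hs⟩
      have h1 := hBg s v hs
      rw [hvt] at h1
      rw [Option.some.inj h1]
      exact hs
    · intro h
      exact ⟨t, mem_univ t, h⟩
  have hone : ∀ t, t ≠ k → ∃ p, B t = {p} := by
    intro t ht
    apply card_eq_one.1
    rw [hB2, if_neg ht]
  obtain ⟨p, hp⟩ := hone i (fun h => hki h.symm)
  obtain ⟨p', hp'⟩ := hone j (fun h => hkj h.symm)
  have hch : ∀ t q, B t = {q} → ∀ v, (v ∈ univ.biUnion B ∧ g v = some t) ↔ v = q := by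
    intro t q hq v
    constructor
    · rintro ⟨h1, h2⟩
      rw [hmem v t h2, hq, mem_singleton] at h1
      exact h1
    · rintro rfl
      have h3 : v ∈ B t := by rw [hq]; exact mem_singleton_self v
      exact ⟨(hmem v t (hBg t v h3)).2 h3, hBg t v h3⟩
  refine ⟨univ.biUnion B, p, p', ?_, hch i p hp, hch j p' hp', ?_, ?_⟩
  · intro v hv
    rw [mem_biUnion] at hv
    obtain ⟨t, -, ht⟩ := hv
    rw [hBg t v ht]
    exact Option.some_ne_none t
  · intro t
    have h1 : (B t).Nonempty := by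
      rw [← card_pos, hB2]
      omega
    obtain ⟨v, hv⟩ := h1
    exact ⟨v, mem_biUnion.2 ⟨t, mem_univ t, hv⟩, hBg t v hv⟩
  · rw [card_biUnion]
    · rw [sum_congr rfl fun t _ => hB2 t, sum_add_distrib, sum_ite_eq' univ k,
        if_pos (mem_univ k), sum_const, card_univ, Fintype.card_fin]
      simp only [smul_eq_mul, mul_one]
      omega
    · intro s _ t _ hst
      change Disjoint (B s) (B t)
      rw [Finset.disjoint_left]
      intro v hv1 hv2
      have h1 := hBg s v hv1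
      rw [hBg t v hv2] at h1
      exact hst (Option.some.inj h1).symm

omit [Fintype V] in
theorem One.miss_card {G : SimpleGraph V} {g : V → Option (Fin r)} {p p' : V} {s t : Fin r}
    (h : One G g p p' s t) : (missSet G g).ncard ≤ 1 := by
  rw [← Set.ncard_singleton s(p, p')]
  refine Set.ncard_le_ncard ?_ (Set.finite_singleton _)
  rintro e ⟨v, w, rfl, h1, h2, h3, h4⟩
  rcases (h.cond v w).1 ⟨h1, h2, h3, h4⟩ with ⟨rfl, rfl⟩ | ⟨rfl, rfl⟩
  · exact rfl
  · exact Sym2.eq_swap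

omit [Fintype V] in
theorem out_card {H : SimpleGraph V} {g : V → Option (Fin r)} {w : V} {A : Finset V}
    (h1 : ∀ u v, g u = none → u ≠ w → ¬ H.Adj u v) (h2 : ∀ v, H.Adj w v ↔ v ∈ A) :
    (outSet H g).ncard ≤ A.card := by
  classical
  have h3 : outSet H g ⊆ ((A.image fun a => s(w, a) : Finset (Sym2 V)) : Set (Sym2 V)) := by
    rintro e ⟨he, v, hv, hgv⟩
    obtain ⟨u, rfl⟩ := Sym2.mem_iff_exists.1 hv
    have h4 : H.Adj v u := he
    by_cases h5 : v = w
    · subst h5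
      rw [mem_coe, mem_image]
      exact ⟨u, (h2 u).1 h4, rfl⟩
    · exact absurd h4 (h1 v u hgv h5)
  refine (Set.ncard_le_ncard h3 (finite_toSet _)).trans ?_
  rw [Set.ncard_coe_finset]
  exact card_image_le

omit [Fintype V] in
theorem siz_low {g : V → Option (Fin r)} {n : ℕ} {C : ℝ} (hn : ∑ t, siz g t = n)
    (hdev : dev (siz g) ≤ C * n) (t : Fin r) :
    (n : ℝ) / r - Real.sqrt (C * n) ≤ siz g t := by
  have h1 : ∑ s, ((siz g s : ℕ) : ℝ) = n := by
    rw [← hn]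
    push_cast
    rfl
  have h2 : ((siz g t : ℝ) - n / r) ^ 2 ≤ dev (siz g) := by
    unfold dev
    rw [h1]
    exact single_le_sum (f := fun t => ((siz g t : ℝ) - n / r) ^ 2)
      (fun _ _ => sq_nonneg _) (mem_univ t)
  have h3 := Real.abs_le_sqrt (h2.trans hdev)
  have h4 := (abs_le.1 h3).1
  linarith

end graphs

section num

theorem prod_low {Ts Tt Ti Tj δ l : ℝ} (hδ : 0 ≤ δ) (h1 : Ti - δ ≤ Ts) (h2 : Tj - δ ≤ Tt)
    (h3 : δ ≤ Ti) (h4 : δ ≤ Tj) (h5 : Ti ≤ 2 * l) (h6 : Tj ≤ 2 * l) :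
    Ti * Tj - 4 * δ * l ≤ Ts * Tt := by
  have h7 : (Ti - δ) * (Tj - δ) ≤ Ts * Tt :=
    mul_le_mul h1 h2 (by linarith) (by linarith)
  nlinarith [mul_le_mul_of_nonneg_left h5 hδ, mul_le_mul_of_nonneg_left h6 hδ, mul_nonneg hδ hδ]

theorem prod_big {Ts Tt Ti Tj δ l a : ℝ} (hδ : 0 ≤ δ) (ha : 5 * δ ≤ a) (h1 : Ti - δ + a ≤ Ts)
    (h2 : Tj - δ ≤ Tt) (h3 : 0 ≤ Ti) (h4 : l / 2 ≤ Tj - δ) (hl : 0 ≤ l) (h5 : Ti ≤ 2 * l) :
    l * (a / 2 - 5 / 2 * δ) ≤ Ts * Tt - Ti * Tj := by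
  have h8 : 0 ≤ Ti - δ + a := by linarith
  have h7 : (Ti - δ + a) * (Tj - δ) ≤ Ts * Tt :=
    mul_le_mul h1 h2 (by linarith) (h8.trans h1)
  have h9 : (a - δ) * (l / 2) ≤ (a - δ) * (Tj - δ) :=
    mul_le_mul_of_nonneg_left h4 (by linarith)
  have h10 : δ * Ti ≤ δ * (2 * l) := mul_le_mul_of_nonneg_left h5 hδ
  nlinarith

theorem div_le_of {x l y : ℝ} (hl : 0 < l) (h : 2 * x / l ≤ y) : x ≤ l * (y / 2) := by
  rw [div_le_iff₀ hl] at h
  linarith

theorem err_le {C1 C2 s n κ b D r K2 : ℝ} (hC1 : 0 ≤ C1) (hC2 : 0 ≤ C2) (hs0 : 0 < s)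
    (hsn : s ≤ n) (hκ : κ = C1 / s) (hb : 0 ≤ b) (hbr : b ≤ 2 * r) (hr : 0 ≤ r) (hD0 : 0 ≤ D)
    (hD1 : D ≤ 4 * r + 1) (hK2 : K2 = C2 * (4 * r + 1) ^ 3 + 8 * C1 + 16 * r ^ 2 * C1) :
    C2 * D ^ 3 / n + 8 * κ + 4 * κ * b ^ 2 ≤ K2 / s := by
  have hκ0 : 0 ≤ κ := by rw [hκ]; positivity
  have h4 : C2 * D ^ 3 / n ≤ C2 * (4 * r + 1) ^ 3 / s := by
    refine (div_le_div_of_nonneg_right (mul_le_mul_of_nonneg_left
      (pow_le_pow_left₀ hD0 hD1 3) hC2) (hs0.le.trans hsn)).trans ?_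
    exact div_le_div_of_nonneg_left (by positivity) hs0 hsn
  have h5 : 4 * κ * b ^ 2 ≤ 16 * r ^ 2 * C1 / s := by
    have h6 : b ^ 2 ≤ (2 * r) ^ 2 := pow_le_pow_left₀ hb hbr 2
    have h7 : 4 * κ * b ^ 2 ≤ 4 * κ * (2 * r) ^ 2 :=
      mul_le_mul_of_nonneg_left h6 (by linarith)
    refine h7.trans (le_of_eq ?_)
    rw [hκ]
    ring
  have h6 : K2 / s = C2 * (4 * r + 1) ^ 3 / s + 8 * κ + 16 * r ^ 2 * C1 / s := by
    rw [hK2, hκ]
    ring
  rw [h6]
  linarith

theorem lam_low {C1 s l q n : ℝ} (hC1 : 0 ≤ C1) (hs : 2 ≤ s) (hsC : 8 * C1 ≤ s) (hsn : s ^ 2 = n)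
    (hq : 2 / 3 ≤ q) (h : |l - q * n| ≤ C1 * Real.sqrt s) : s ^ 2 / 2 ≤ l := by
  have hss : Real.sqrt s ≤ s := by
    rw [Real.sqrt_le_left (by linarith)]
    nlinarith
  have h1 := (abs_le.1 h).1
  have h2 : C1 * Real.sqrt s ≤ C1 * s := mul_le_mul_of_nonneg_left hss hC1
  have h3 : 2 / 3 * s ^ 2 ≤ q * n := by
    rw [hsn]
    exact mul_le_mul_of_nonneg_right hq (by rw [← hsn]; positivity)
  nlinarith

theorem siz_ok {r : ℕ} {C s n σ : ℝ} (hr : 3 ≤ r) (hC : 0 ≤ C) (hs : 2 ≤ s) (hsn : s ^ 2 = n)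
    (hR : r * (Real.sqrt C + r + 2) ≤ s) (h : n / r - Real.sqrt (C * n) ≤ σ) :
    (r : ℝ) + 1 ≤ σ := by
  have hr0 : (0 : ℝ) < r := by
    have : (3 : ℝ) ≤ r := by exact_mod_cast hr
    linarith
  have h2 : Real.sqrt (C * n) = Real.sqrt C * s := by
    rw [Real.sqrt_mul hC, ← hsn, Real.sqrt_sq (by linarith)]
  have h3 : (r : ℝ) + 2 ≤ n / r - Real.sqrt (C * n) := by
    rw [h2, le_sub_iff_add_le, le_div_iff₀ hr0, ← hsn]
    have h5 := Real.sqrt_nonneg C
    have h6 : s * (r * (Real.sqrt C + r + 2)) ≤ s * s :=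
      mul_le_mul_of_nonneg_left hR (by linarith)
    have h8 : ((r : ℝ) + 2) * r ≤ s * (((r : ℝ) + 2) * r) := by
      have h9 : 0 ≤ ((r : ℝ) + 2) * r := by positivity
      nlinarith
    nlinarith
  linarith

end num

/-- what the analytic statements give -/
def Setup (r : ℕ) (C c : ℝ) : Prop :=
  ∃ (C3 K2 : ℝ) (n₀ : ℕ), 0 ≤ C3 ∧ 0 ≤ K2 ∧ ∀ (V : Type) [Fintype V]
    (G : SimpleGraph V) (g : V → Option (Fin r)) (i : Fin r) (n m : ℕ), n₀ ≤ n →
    MxK r m G → NL n C c G g i → (missSet G g).ncard = 1 → r + 1 ≤ (outSet G g).ncard →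
    (outSet G g).ncard ≤ 2 * r - 1 →
    (∀ t, 2 ≤ siz g t) ∧ ∃ (j : Fin r) (T : Fin r → ℝ) (l δ : ℝ), j ≠ i ∧
      (∀ t, t ≠ i → siz g t ≤ siz g j) ∧ 0 < l ∧ 0 ≤ δ ∧ δ ≤ 2 * C3 / Real.sqrt n ∧
      (∀ t, l / 2 ≤ T t - δ) ∧ (∀ t, T t ≤ 2 * l) ∧
      (∀ t, T i - δ + ((siz g i : ℝ) - siz g t) / 2 ≤ T t) ∧
      (∀ t, t ≠ i → T j - δ + ((siz g j : ℝ) - siz g t) / 2 ≤ T t) ∧
      ∀ x y s' t', One G g x y s' t' →
        2 * (T s' * T t' - T i * T j) / l + (((outSet G g).ncard : ℝ) ^ 2 - Q G g)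
          ≤ K2 / Real.sqrt n

theorem setup (hCN : CNTU_statement) (hFLU : FLU_statement) (hTCL : TCL_statement)
    (hSWZ : SWZ_statement) (hQMB : QMB_statement) (r : ℕ) (C c : ℝ) (hr : 3 ≤ r) (hC : 0 ≤ C)
    (hc : 0 < c) : Setup r C c := by
  classical
  obtain ⟨C1, n1, hC1, hF⟩ := hFLU r C hr hC
  obtain ⟨C3, n3, hC3, hT⟩ := hTCL r C hr hC
  obtain ⟨C2, n2, hC2, hS⟩ := hSWZ r C hr hC
  obtain ⟨K2, hK2⟩ : ∃ K2 : ℝ, K2 = C2 * (4 * r + 1) ^ 3 + 8 * C1 + 16 * r ^ 2 * C1 := ⟨_, rfl⟩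
  have hr0 : (0 : ℝ) < r := by
    have : (3 : ℝ) ≤ r := by exact_mod_cast hr
    linarith
  have hK20 : 0 ≤ K2 := by rw [hK2]; positivity
  obtain ⟨R, hR⟩ : ∃ R : ℝ, R = r * (Real.sqrt C + r + 2) := ⟨_, rfl⟩
  have hR0 : 0 ≤ R := by rw [hR]; positivity
  obtain ⟨Kb, hKb⟩ : ∃ Kb : ℝ, Kb = 2 + 8 * C1 + 24 * C3 + R := ⟨_, rfl⟩
  have hKb0 : 0 ≤ Kb := by rw [hKb]; positivity
  obtain ⟨N, hN⟩ := exists_nat_gt (Kb ^ 2)
  refine ⟨C3, K2, max (max n1 n2) (max n3 N), hC3, hK20, ?_⟩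
  intro V _ G g i n m hn hMx hNL hm1 hb1 hb2
  have hn1 : n1 ≤ n := ((le_max_left _ _).trans (le_max_left _ _)).trans hn
  have hn2 : n2 ≤ n := ((le_max_right _ _).trans (le_max_left _ _)).trans hn
  have hn3 : n3 ≤ n := ((le_max_left _ _).trans (le_max_right _ _)).trans hn
  have hnN : N ≤ n := ((le_max_right _ _).trans (le_max_right _ _)).trans hn
  have hnb : Kb ^ 2 ≤ n := by
    have : (N : ℝ) ≤ n := by exact_mod_cast hnN
    linarith
  obtain ⟨s, hs⟩ : ∃ s, s = Real.sqrt n := ⟨_, rfl⟩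
  have hsK : Kb ≤ s := by
    rw [hs]
    exact Real.le_sqrt_of_sq_le hnb
  have hsn : s ^ 2 = n := by
    rw [hs]
    exact Real.sq_sqrt (Nat.cast_nonneg n)
  have hs2 : 2 ≤ s := by linarith
  have hs0 : 0 < s := by linarith
  have hn0 : (0 : ℝ) < n := by
    rw [← hsn]
    positivity
  have hsn' : s ≤ n := by
    rw [← hsn]
    nlinarith
  have hNK := hNL.nk
  -- the Perron vector
  obtain ⟨⟨z, hz⟩, hzz⟩ := hF V G g n hn1 hNK
  obtain ⟨hcore, hlight, hlam, hTl⟩ := hzz z hz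
  rw [← hs] at hcore hlam hTl ⊢
  obtain ⟨κ, hκ⟩ : ∃ κ, κ = C1 / s := ⟨_, rfl⟩
  rw [← hκ] at hcore
  have hκ0 : 0 ≤ κ := by rw [hκ]; positivity
  have hκ1 : κ ≤ 1 := by
    rw [hκ, div_le_one hs0]
    linarith
  -- sizes
  have hsz : ∀ t, r + 1 ≤ siz g t := by
    intro t
    have h4 : ((r + 1 : ℕ) : ℝ) ≤ siz g t := by
      push_cast
      exact siz_ok hr hC hs2 hsn (by linarith) (siz_low hNK.tot hNK.dev t)
    exact_mod_cast h4
  have hsz2 : ∀ t, 2 ≤ siz g t := fun t => by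
    have := hsz t
    omega
  refine ⟨hsz2, ?_⟩
  -- the number of edges
  obtain ⟨b, hb⟩ : ∃ b, b = (outSet G g).ncard := ⟨_, rfl⟩
  rw [← hb] at hb1 hb2
  have hcount : 2 * m + 2 + ∑ t, siz g t ^ 2 = (∑ t, siz g t) ^ 2 + 2 * b := by
    obtain ⟨e, he, h1⟩ := hCN r V G g ∅ hNK.indep (fun v hv => absurd hv (notMem_empty v))
    rw [hMx.1.size, hm1, lightSet_empty, ← hb, sum_empty] at h1
    rw [card_empty] at he
    omega
  -- the second class
  obtain ⟨j, hj, hjmax⟩ : ∃ j, j ≠ i ∧ ∀ t, t ≠ i → siz g t ≤ siz g j := by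
    have h1 : (univ.erase i).Nonempty := by
      rw [← card_pos, card_erase_of_mem (mem_univ i), card_univ, Fintype.card_fin]
      omega
    obtain ⟨j, hj, hmax⟩ := exists_max_image (univ.erase i) (siz g) h1
    exact ⟨j, (mem_erase.1 hj).1, fun t ht => hmax t (mem_erase.2 ⟨ht, mem_univ t⟩)⟩
  -- the light vertex
  obtain ⟨w0, hw0⟩ : ∃ w0, g w0 = none := by
    have hne : (outSet G g).Nonempty := by
      apply Set.nonempty_of_ncard_ne_zero
      omega
    obtain ⟨e, -, v0, -, hv0⟩ := hne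
    exact ⟨v0, hv0⟩
  obtain ⟨A, p, p', hA1, hA2, hA3, hA4, hA5⟩ :=
    exists_A g i j b hr (by omega) (by omega) hsz
  obtain ⟨H, hHI, hH1, hH2, hH3, hHl⟩ := hQMB r m V G g w0 p p' i j A hr hMx hw0 hj.symm hA1
    hA2 hA3 hA4 hsz2 (by rw [hA5]; exact hcount)
  have hHone : One H g p p' i j :=
    ⟨hj.symm, ((hA2 p).2 rfl).2, ((hA3 p').2 rfl).2, hH3⟩
  have hmH := hHone.miss_card
  have hoH := out_card hH1 hH2
  rw [hA5] at hoH
  have hNKH : NK n C H g := by
    refine ⟨hHI, hNK.tot, hNK.dev, le_trans ?_ hNK.few⟩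
    rw [hm1, ← hb]
    have h1 : ((missSet H g).ncard : ℝ) ≤ 1 := by exact_mod_cast hmH
    have h2 : ((outSet H g).ncard : ℝ) ≤ b := by exact_mod_cast hoH
    push_cast
    linarith
  have hSW := hS V G H z g w0 n hn2 hNK hNKH hw0 hH1 hz hHl
  -- bounds for `lam` and the weights
  have hq : (2 : ℝ) / 3 ≤ qq r := by
    unfold qq
    have h1 : (3 : ℝ) ≤ r := by exact_mod_cast hr
    have h2 : 1 / (r : ℝ) ≤ 1 / 3 := one_div_le_one_div_of_le (by norm_num) h1
    linarith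
  have hl1 : s ^ 2 / 2 ≤ lam G := lam_low hC1 hs2 (by linarith) hsn hq hlam
  have hl0 : 0 < lam G := by
    have : 0 < s ^ 2 := by positivity
    linarith
  have hC1s : C1 * s ≤ lam G / 4 := by
    have h1 : 8 * C1 ≤ s := by linarith
    nlinarith
  obtain ⟨δ, hδ⟩ : ∃ δ : ℝ, δ = C3 * ((1 : ℝ) + 1) / n := ⟨_, rfl⟩
  have hδ0 : 0 ≤ δ := by rw [hδ]; positivity
  have hδs : δ ≤ 2 * C3 / s := by
    rw [hδ]
    have h1 : C3 * ((1 : ℝ) + 1) = 2 * C3 := by ring
    rw [h1]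
    exact div_le_div_of_nonneg_left (by positivity) hs0 hsn'
  have hδ1 : δ ≤ 2 * C3 := by
    refine hδs.trans ?_
    rw [div_le_iff₀ hs0]
    nlinarith
  have hδl : δ ≤ lam G / 4 := by
    have h1 : 24 * C3 ≤ s := by linarith
    nlinarith
  obtain ⟨-, -, hT3⟩ := hT V G z g n hn3 hNK hz
  rw [hm1, Nat.cast_one, ← hδ] at hT3
  have hbigi : ∀ t, siz g t ≤ siz g i := by
    intro t
    by_cases h : t = i
    · rw [h]
    · have h1 := hNL.big t h
      have h2 : (0 : ℝ) ≤ c * Real.sqrt n := by positivity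
      have h3 : (siz g t : ℝ) ≤ siz g i := by linarith
      exact_mod_cast h3
  refine ⟨j, tv g z n, lam G, δ, hj, hjmax, hl0, hδ0, hδs, ?_, ?_, ?_, ?_, ?_⟩
  · intro t
    have h1 := (abs_le.1 (hTl t)).1
    unfold tv
    linarith
  · intro t
    have h1 := (abs_le.1 (hTl t)).2
    unfold tv
    linarith
  · intro t
    have h1 := hT3 t i (hbigi t)
    linarith
  · intro t ht
    have h1 := hT3 t j (hjmax t ht)
    linarith
  · intro x y s' t' h1
    have hup : ∀ v, g v ≠ none → z v ≤ 1 + κ := fun v hv => by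
      have := (abs_le.1 (hcore v hv)).2
      linarith
    have hbr : (b : ℝ) ≤ 2 * r := by
      have : b ≤ 2 * r := by omega
      exact_mod_cast this
    have h2 := pair_ineq (n := n) hκ0 hκ1 hz.nonneg hcore h1 hHone hA1 hH2
      (by rw [hA5, hb]) (light_le _ hz.nonneg hup (fun v hv => if_pos hv)
        (fun v hv => if_neg hv)) hSW
    rw [hA5] at h2
    rw [← hb]
    refine h2.trans (err_le hC1 hC2 hs0 hsn' hκ (Nat.cast_nonneg b) hbr hr0.le ?_ ?_ hK2)
    · positivity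
    · rw [hm1, ← hb]
      have h1 : ((missSet H g).ncard : ℝ) ≤ 1 := by exact_mod_cast hmH
      have h2 : ((outSet H g).ncard : ℝ) ≤ b := by exact_mod_cast hoH
      have h3 : (b : ℝ) + 1 ≤ 2 * r := by
        have : b + 1 ≤ 2 * r := by omega
        exact_mod_cast this
      push_cast
      linarith

end QSTx

open QSTx in
theorem prfQST : P_statement → CNTU_statement → FLU_statement → TCL_statement →
    SWZ_statement → QMB_statement → CLB_statement → REL_statement → QST_statement := by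
  classical
  intro _ hCN hFLU hTCL hSWZ hQMB hCLB hREL r C c hr hC hc
  obtain ⟨C3, K2, n0, hC3, hK2, hst⟩ := setup hCN hFLU hTCL hSWZ hQMB r C c hr hC hc
  obtain ⟨Kb, hKb⟩ : ∃ Kb : ℝ, Kb = 2 + 16 * C3 + 5 * K2 + 4 * (5 * C3 + K2) / c + 20 * C3 / c :=
    ⟨_, rfl⟩
  have hKb0 : 0 ≤ Kb := by rw [hKb]; positivity
  obtain ⟨N, hN⟩ := exists_nat_gt (Kb ^ 2)
  refine ⟨max n0 N, ?_⟩
  intro V _ G g i n m hn hMx hNL hm1 hb1 hb2
  have hnb : Kb ^ 2 ≤ n := by
    have : (N : ℝ) ≤ n := by exact_mod_cast (le_max_right _ _).trans hn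
    linarith
  obtain ⟨hsz2, j, T, l, δ, hj, hjmax, hl0, hδ0, hδs, hTlo, hThi, hTi, hTj, hpair⟩ :=
    hst V G g i n m ((le_max_left _ _).trans hn) hMx hNL hm1 hb1 hb2
  have hNK := hNL.nk
  obtain ⟨s, hs⟩ : ∃ s, s = Real.sqrt n := ⟨_, rfl⟩
  have hsK : Kb ≤ s := by
    rw [hs]
    exact Real.le_sqrt_of_sq_le hnb
  rw [← hs] at hδs hpair
  have hd1 : 0 ≤ 4 * (5 * C3 + K2) / c := by positivity
  have hd2 : 0 ≤ 20 * C3 / c := by positivity
  have hs2 : 2 ≤ s := by linarith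
  have hs0 : 0 < s := by linarith
  have hδ1 : δ ≤ C3 := by
    refine hδs.trans ?_
    rw [div_le_iff₀ hs0]
    nlinarith
  have hδ8 : 8 * δ ≤ 16 * C3 / s := by
    have : 16 * C3 / s = 8 * (2 * C3 / s) := by ring
    rw [this]
    linarith
  have hbigi : ∀ t, siz g t ≤ siz g i := by
    intro t
    by_cases h : t = i
    · rw [h]
    · have h1 := hNL.big t h
      have h2 : (0 : ℝ) ≤ c * Real.sqrt n := by positivity
      have h3 : (siz g t : ℝ) ≤ siz g i := by linarith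
      exact_mod_cast h3
  have hTi1 : ∀ t, T i - δ ≤ T t := by
    intro t
    have h1 := hTi t
    have h2 : (siz g t : ℝ) ≤ siz g i := by exact_mod_cast hbigi t
    linarith
  have hTj1 : ∀ t, t ≠ i → T j - δ ≤ T t := by
    intro t ht
    have h1 := hTj t ht
    have h2 : (siz g t : ℝ) ≤ siz g j := by exact_mod_cast hjmax t ht
    linarith
  have hTp : ∀ t, δ ≤ T t := by
    intro t
    have := hTlo t
    linarith
  -- the light vertices
  have hQ1 : ((outSet G g).ncard : ℝ) ^ 2 - Q G g < 1 := by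
    obtain ⟨x, y, s', t', h1⟩ := One.of_ncard hNK.indep hm1
    have h2 := hpair x y s' t' h1
    have h3 : T i * T j - 4 * δ * l ≤ T s' * T t' := by
      by_cases h : t' = i
      · have h4 : s' ≠ i := fun h5 => h1.st (h5.trans h.symm)
        have h5 := prod_low hδ0 (hTi1 t') (hTj1 s' h4) (hTp i) (hTp j) (hThi i) (hThi j)
        linarith
      · exact prod_low hδ0 (hTi1 s') (hTj1 t' h) (hTp i) (hTp j) (hThi i) (hThi j)
    have h4 : -(8 * δ) ≤ 2 * (T s' * T t' - T i * T j) / l := by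
      rw [le_div_iff₀ hl0]
      linarith
    have h5 : K2 / s + 16 * C3 / s < 1 := by
      rw [← add_div, div_lt_one hs0]
      linarith
    linarith
  obtain ⟨w, hw, hwu, hwb⟩ := only_light rfl (by omega) hQ1 hMx.1.noIso
  have hls : (lightSet G g {w}).ncard = 0 := by
    have h1 : lightSet G g {w} = ∅ := by
      ext e
      constructor
      · rintro ⟨-, v, -, h2, h3⟩
        exact absurd (mem_singleton.2 (hwu v h2)) h3
      · intro h
        exact absurd h (Set.notMem_empty e)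
    rw [h1, Set.ncard_empty]
  obtain ⟨p1, p1', s', t', hTh⟩ := hCLB r V G g w hr hNK.indep hw hm1 hls hsz2 hMx.1.free
    hMx.1.notPartite hMx.1.noIso
  have hOne : One G g p1 p1' s' t' := ⟨hTh.ty.ij, hTh.ty.hp, hTh.ty.hp', hTh.ty.core⟩
  have hQ2 : Q G g ≤ ((outSet G g).ncard : ℝ) ^ 2 := Q_le G g rfl
  have hPI := hpair p1 p1' s' t' hOne
  have hP : T s' * T t' - T i * T j ≤ l * (K2 / s / 2) := div_le_of hl0 (by linarith)
  have hK2s : K2 / s ≤ K2 := by
    rw [div_le_iff₀ hs0]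
    nlinarith
  have hK2s5 : 5 * (K2 / s) < 1 := by
    rw [mul_div_assoc', div_lt_one hs0]
    linarith
  -- the key comparison
  have hkey : ∀ t, t ≠ i → T i * T t - T i * T j ≤ l * (K2 / s / 2) →
      siz g j ≤ siz g t := by
    intro t ht h1
    by_contra hcon
    have h2 : (siz g t : ℝ) + 1 ≤ siz g j := by
      have : siz g t + 1 ≤ siz g j := by omega
      exact_mod_cast this
    have h3 := hTj t ht
    have h4 : 1 / 2 - δ ≤ T t - T j := by linarith
    have h5 : δ ≤ 1 / 4 := by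
      refine hδs.trans ?_
      rw [div_le_iff₀ hs0]
      linarith
    have h6 : l / 2 ≤ T i := by
      have := hTlo i
      linarith
    have h7 : l / 2 * (1 / 4) ≤ T i * (T t - T j) :=
      mul_le_mul h6 (by linarith) (by norm_num) (by linarith)
    have h8 : l * (K2 / s / 2) < l * (1 / 8) :=
      mul_lt_mul_of_pos_left (by linarith) hl0
    nlinarith
  have hno : ¬ (s' ≠ i ∧ t' ≠ i) := by
    rintro ⟨h1, h2⟩
    have h3 := hTi s'
    have h4 := hNL.big s' h1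
    rw [← hs] at h4
    have h5 : T i - δ + c * s / 2 ≤ T s' := by linarith
    have hsc : 20 * C3 / c ≤ s := by linarith
    rw [div_le_iff₀ hc] at hsc
    have hsd : 4 * (5 * C3 + K2) / c + 2 ≤ s := by linarith
    have hse : 4 * (5 * C3 + K2) + 2 * c ≤ s * c := by
      have h6 := mul_le_mul_of_nonneg_right hsd hc.le
      rw [add_mul, div_mul_cancel₀ _ hc.ne'] at h6
      exact h6
    have h6 := prod_big hδ0 (by linarith : 5 * δ ≤ c * s / 2) h5 (hTj1 t' h2)
      (hδ0.trans (hTp i)) (hTlo j) hl0.le (hThi i)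
    have h7 := h6.trans hP
    have h8 := le_of_mul_le_mul_left h7 hl0
    linarith
  have hmono : ∀ t, siz g j ≤ siz g t → ∀ k, k ≠ i → siz g k ≤ siz g t := fun t ht k hk =>
    (hjmax k hk).trans ht
  by_cases h1 : s' = i
  · subst h1
    have h2 : t' ≠ s' := hOne.st.symm
    exact ⟨w, p1, p1', t', hTh, hmono t' (hkey t' h2 hP), hwb⟩
  · have h2 : t' = i := by
      by_contra h2
      exact hno ⟨h1, h2⟩
    subst h2
    have h3 := ((hREL r V G g (Equiv.refl _)).2.2.1 w p1 p1' s' t' hTh).2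
    refine ⟨w, p1', p1, s', h3, hmono s' (hkey s' h1 ?_), hwb⟩
    rw [mul_comm (T t') (T s')]
    exact hP

end MP0c3a8f
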