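import Pool.Agent.Work.MP_0c3a8f_co.PB.Stmts8

set_option autoImplicit false

/-!
# MP_0c3a8f_co, PB8: item RLE
-/

open Finset

namespace MP0c3a8f

namespace ItemRLE

theorem free_aux {V : Type} {r : ℕ} {G : SimpleGraph V}
    (hF : (⊤ : SimpleGraph (Fin (r + 1))).Free G) (x : V) (c : Fin r → V)
    (hx : ∀ t, G.Adj x (c t)) (hc : ∀ s t, s ≠ t → G.Adj (c s) (c t)) : False := by
  apply hF
  let h : (⊤ : SimpleGraph (Fin (r + 1))) →g G :=
    { toFun := Fin.cons x c
      map_rel' := by
        intro a b hab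
        have hab' : a ≠ b := by simpa using hab
        revert hab'
        refine Fin.cases ?_ ?_ a <;> refine Fin.cases ?_ ?_ b
        · intro h; exact absurd rfl h
        · intro t _
          simpa using hx t
        · intro t _
          simpa using (hx t).symm
        · intro s t h
          have : t ≠ s := fun e => h (by rw [e])
          simpa using hc t s this }
  exact ⟨⟨h, h.injective_of_top_hom⟩⟩

open Classical in
/-- the colours which do not occur at the core neighbours -/
noncomputable def A {V : Type} {r : ℕ} (G : SimpleGraph V) (g : V → Option (Fin r)) (v : V) :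
    Finset (Fin r) :=
  Finset.univ.filter fun t => ∀ u, g u = some t → ¬ G.Adj v u

theorem mem_A {V : Type} {r : ℕ} {G : SimpleGraph V} {g : V → Option (Fin r)} {v : V}
    {t : Fin r} : t ∈ A G g v ↔ ∀ u, g u = some t → ¬ G.Adj v u := by
  simp [A]

/-- list colourings -/
def LC {V : Type} {r : ℕ} (G : SimpleGraph V) (g : V → Option (Fin r)) (S : Finset V) : Prop :=
  ∃ c : V → Fin r, (∀ v ∈ S, c v ∈ A G g v) ∧ ∀ u ∈ S, ∀ v ∈ S, G.Adj u v → c u ≠ c v

theorem card_A {V : Type} [Fintype V] {r : ℕ} (G : SimpleGraph V) (g : V → Option (Fin r))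
    (v : V) : r ≤ (A G g v).card + cnb G g v := by
  classical
  have hc : cnb G g v = (Finset.univ.filter fun u => g u ≠ none ∧ G.Adj v u).card := by
    unfold cnb
    rw [← Set.ncard_coe_finset]
    congr 1
    ext u
    simp
  have h1 : ∀ t : Fin r, t ∉ A G g v → ∃ u, g u = some t ∧ G.Adj v u := by
    intro t ht
    rw [mem_A] at ht
    push Not at ht
    exact ht
  have h2 : ∀ t : Fin r, ∃ u : V, t ∉ A G g v → g u = some t ∧ G.Adj v u := by
    intro t
    by_cases ht : t ∈ A G g v
    · exact ⟨v, fun h => absurd ht h⟩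
    · obtain ⟨u, hu⟩ := h1 t ht
      exact ⟨u, fun _ => hu⟩
  choose u hu using h2
  have h3 : (Finset.univ \ A G g v).card ≤
      (Finset.univ.filter fun u => g u ≠ none ∧ G.Adj v u).card := by
    refine Finset.card_le_card_of_injOn u ?_ ?_
    · intro t ht
      have ht' : t ∉ A G g v := by simpa using ht
      have := hu t ht'
      simp only [Finset.coe_filter, Finset.mem_univ, true_and, Set.mem_ofPred_eq]
      exact ⟨by rw [this.1]; simp, this.2⟩
    · intro t ht t' ht' h
      have h4 : t ∉ A G g v := by simpa using ht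
      have h5 : t' ∉ A G g v := by simpa using ht'
      have h6 := (hu t h4).1
      rw [h, (hu t' h5).1] at h6
      exact (Option.some.inj h6).symm
  rw [Finset.card_sdiff_of_subset (Finset.subset_univ _), Finset.card_univ, Fintype.card_fin] at h3
  omega

open Classical in
/-- light neighbours -/
noncomputable def ln {V : Type} [Fintype V] {r : ℕ} (G : SimpleGraph V) (g : V → Option (Fin r))
    (v : V) : ℕ := (Finset.univ.filter fun u => g u = none ∧ G.Adj v u).card

open Classical in
/-- light vertices -/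
noncomputable def LL {V : Type} [Fintype V] {r : ℕ} (g : V → Option (Fin r)) : Finset V :=
  Finset.univ.filter fun u => g u = none

theorem mem_LL {V : Type} [Fintype V] {r : ℕ} {g : V → Option (Fin r)} {v : V} :
    v ∈ LL g ↔ g v = none := by simp [LL]

theorem hand {V : Type} [Fintype V] {r : ℕ} (G : SimpleGraph V) (g : V → Option (Fin r)) :
    2 * (outSet G g).ncard = 2 * ∑ v ∈ LL g, cnb G g v + ∑ v ∈ LL g, ln G g v := by
  classical
  let H : SimpleGraph V :=
    { Adj := fun u v => G.Adj u v ∧ (g u = none ∨ g v = none)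
      symm := ⟨fun u v h => ⟨h.1.symm, h.2.symm⟩⟩
      loopless := ⟨fun u h => G.loopless.irrefl u h.1⟩ }
  have hH : outSet G g = H.edgeSet := by
    ext e
    induction e using Sym2.ind with
    | _ u v =>
      simp only [outSet, Set.mem_ofPred_eq, SimpleGraph.mem_edgeSet, Sym2.mem_iff]
      constructor
      · rintro ⟨h1, x, rfl | rfl, hx⟩
        · exact ⟨h1, Or.inl hx⟩
        · exact ⟨h1, Or.inr hx⟩
      · rintro ⟨h1, h2 | h2⟩
        · exact ⟨h1, u, Or.inl rfl, h2⟩
        · exact ⟨h1, v, Or.inr rfl, h2⟩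
  have h1 : (outSet G g).ncard = H.edgeFinset.card := by
    rw [hH, ← SimpleGraph.coe_edgeFinset, Set.ncard_coe_finset]
  rw [h1, ← SimpleGraph.sum_degrees_eq_twice_card_edges]
  have h2 : ∀ v, H.degree v = ∑ u, ((if g v = none ∧ g u ≠ none ∧ G.Adj v u then 1 else 0) +
      (if g u = none ∧ g v ≠ none ∧ G.Adj u v then 1 else 0) +
      (if g v = none ∧ g u = none ∧ G.Adj v u then 1 else 0)) := by
    intro v
    rw [← SimpleGraph.card_neighborFinset_eq_degree, SimpleGraph.neighborFinset_eq_filter,
      Finset.card_filter]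
    refine Finset.sum_congr rfl fun u _ => ?_
    show (if G.Adj v u ∧ (g v = none ∨ g u = none) then 1 else 0) = _
    by_cases ha : G.Adj v u
    · have ha' : G.Adj u v := ha.symm
      by_cases hv : g v = none <;> by_cases hu : g u = none <;> simp [ha, ha', hv, hu]
    · have ha' : ¬ G.Adj u v := fun h => ha h.symm
      simp [ha, ha']
  simp_rw [h2, Finset.sum_add_distrib]
  rw [Finset.sum_comm (f := fun v u => if g u = none ∧ g v ≠ none ∧ G.Adj u v then 1 else 0)]
  have h3 : ∑ v, ∑ u, (if g v = none ∧ g u ≠ none ∧ G.Adj v u then 1 else 0) =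
      ∑ v ∈ LL g, cnb G g v := by
    rw [LL, Finset.sum_filter]
    refine Finset.sum_congr rfl fun v _ => ?_
    have hc : cnb G g v = (Finset.univ.filter fun u => g u ≠ none ∧ G.Adj v u).card := by
      unfold cnb
      rw [← Set.ncard_coe_finset]
      congr 1
      ext u
      simp
    rw [hc, Finset.card_filter]
    split_ifs with h <;> simp [h]
  have h4 : ∑ v, ∑ u, (if g v = none ∧ g u = none ∧ G.Adj v u then 1 else 0) =
      ∑ v ∈ LL g, ln G g v := by
    rw [LL, Finset.sum_filter]
    refine Finset.sum_congr rfl fun v _ => ?_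
    rw [ln, Finset.card_filter]
    split_ifs with h <;> simp [h]
  rw [h3, h4]
  ring

theorem light_w {V : Type} [Fintype V] {r : ℕ} (G : SimpleGraph V) (g : V → Option (Fin r))
    {w : V} (hw : g w = none) :
    (lightSet G g {w}).ncard + cnb G g w = (outSet G g).ncard := by
  classical
  have hcard : ((fun u => s(w, u)) '' {u | g u ≠ none ∧ G.Adj w u}).ncard = cnb G g w := by
    refine Set.InjOn.ncard_image ?_
    intro a _ b _ hab
    simp only [Sym2.eq_iff] at hab
    rcases hab with ⟨_, h⟩ | ⟨h1, h2⟩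
    · exact h
    · rw [h2, h1]
  rw [← hcard, ← Set.ncard_union_eq ?_ (Set.toFinite _) (Set.toFinite _)]
  clear hcard
  · congr 1
    ext e
    induction e using Sym2.ind with
    | _ u v =>
      simp only [outSet, lightSet, Set.mem_union, Set.mem_ofPred_eq, SimpleGraph.mem_edgeSet,
        Sym2.mem_iff, Set.mem_image, Finset.mem_singleton]
      constructor
      · rintro (⟨h1, x, hx, h2, -⟩ | ⟨x, ⟨h1, h2⟩, h3⟩)
        · exact ⟨h1, x, hx, h2⟩
        · rw [Sym2.eq_iff] at h3
          rcases h3 with ⟨rfl, rfl⟩ | ⟨rfl, rfl⟩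
          · exact ⟨h2, w, Or.inl rfl, hw⟩
          · exact ⟨h2.symm, w, Or.inr rfl, hw⟩
      · rintro ⟨h1, x, hx, h2⟩
        by_cases hc : (g u = none ∧ u ≠ w) ∨ (g v = none ∧ v ≠ w)
        · left
          rcases hc with hc | hc
          · exact ⟨h1, u, Or.inl rfl, hc⟩
          · exact ⟨h1, v, Or.inr rfl, hc⟩
        · right
          push Not at hc
          rcases hx with rfl | rfl
          · have hxw := hc.1 h2
            subst hxw
            refine ⟨v, ⟨fun h => ?_, h1⟩, rfl⟩
            have := hc.2 h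
            subst this
            exact G.loopless.irrefl _ h1
          · have hxw := hc.2 h2
            subst hxw
            refine ⟨u, ⟨fun h => ?_, h1.symm⟩, Sym2.eq_swap⟩
            have := hc.1 h
            subst this
            exact G.loopless.irrefl _ h1
  · rw [Set.disjoint_left]
    rintro e ⟨h1, x, hx, h2, h3⟩ ⟨u, ⟨h4, h5⟩, rfl⟩
    simp only [Sym2.mem_iff] at hx
    rcases hx with rfl | rfl
    · exact h3 (Finset.mem_singleton_self _)
    · exact h4 h2

/-- arithmetic, two light vertices -/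
theorem arith2 (r y1 y2 s e b E : ℕ) (hr : 3 ≤ r) (h12 : y2 ≤ y1) (h2 : r ≤ y2 + 1)
    (he : 1 ≤ e) (hb : b = y1 + y2 + s + e) (hE : E ≤ y1 ^ 2 + y2 ^ 2 + s ^ 2) :
    2 * r ≤ b + 1 ∧ ((s = 0 ∧ b = y1 + r) ∨ E + 1 ≤ (b - r) ^ 2 + (r - 1) ^ 2) := by
  refine ⟨by omega, ?_⟩
  obtain ⟨d, hd⟩ := Nat.exists_eq_add_of_le h2
  obtain ⟨r', rfl⟩ := Nat.exists_eq_add_of_le hr
  obtain ⟨e', rfl⟩ := Nat.exists_eq_add_of_le he
  obtain ⟨z, rfl⟩ := Nat.exists_eq_add_of_le h12
  have h3 : y2 = 2 + r' + d := by omega
  subst h3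
  have h4 : b - (3 + r') = (2 + r' + d + z) + d + (s + e') := by omega
  have h5 : 3 + r' - 1 = 2 + r' := by omega
  rw [h4, h5]
  rcases Nat.eq_zero_or_pos (d + (s + e')) with h6 | h6
  · left; omega
  · right
    have h7 : (2 + r' + d + z + d + (s + e')) ^ 2 + (2 + r') ^ 2 =
        (2 + r' + d + z) ^ 2 + (2 + r' + d) ^ 2 + s ^ 2 + (4 * (s + e') + 2 * (r' * (s + e')) +
        2 * d ^ 2 + 4 * (d * (s + e')) + 2 * (z * (d + (s + e'))) + (e' ^ 2 + 2 * (s * e'))) := by
      ring
    have h8 : d ≤ d ^ 2 := Nat.le_self_pow (by norm_num) d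
    rw [h7]
    refine Nat.add_le_add (hE) ?_
    omega

/-- arithmetic, at least three vertices -/
theorem arith3 (r b x e m N E : ℕ) (hr : 3 ≤ r) (hx : 2 * r ≤ x + 1) (he : 2 ≤ e)
    (hbx : b = x + m) (hbe : b = N + e) (hE : E ≤ m * N) :
    2 * r ≤ b + 1 ∧ E + 1 ≤ (b - r) ^ 2 + (r - 1) ^ 2 := by
  refine ⟨by omega, ?_⟩
  obtain ⟨r', rfl⟩ := Nat.exists_eq_add_of_le hr
  obtain ⟨u, hu⟩ := Nat.exists_eq_add_of_le hx
  have hx' : x = 5 + 2 * r' + u := by omega
  subst hx'
  have h4 : b - (3 + r') = 2 + r' + u + m := by omega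
  have h5 : 3 + r' - 1 = 2 + r' := by omega
  rw [h4, h5]
  have h6 : N ≤ 3 + 2 * r' + u + m := by omega
  have h7 : E ≤ m * (3 + 2 * r' + u + m) := hE.trans (Nat.mul_le_mul_left m h6)
  have h8 : (2 + r' + u + m) ^ 2 + (2 + r') ^ 2 = m * (3 + 2 * r' + u + m) +
    (1 * m + m * u + (2 + r' + u) ^ 2 + (2 + r') ^ 2) := by ring
  rw [h8]
  have h9 : 1 ≤ (2 + r') ^ 2 := Nat.one_le_pow _ _ (by omega)
  omega

/-- arithmetic, last claim -/
theorem arith4 (r b x e m Q E : ℕ) (hr : 3 ≤ r) (hx : r + 1 ≤ x) (he : 1 ≤ e)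
    (hbx : b = x + m) (hxe : x = Q + e) (hE1 : E ≤ m ^ 2 + Q * m) (hE2 : E ≤ m ^ 2 + Q * Q)
    (hb : 4 * r ≤ b) : E + b ≤ (b - r) ^ 2 + (r - 1) ^ 2 := by
  have key : (E : ℤ) + b ≤ ((b : ℤ) - r) ^ 2 + ((r : ℤ) - 1) ^ 2 := by
    have hr' : (3 : ℤ) ≤ r := by exact_mod_cast hr
    have hb' : (4 : ℤ) * r ≤ b := by exact_mod_cast hb
    rcases le_or_gt (x - 1) m with h | h
    · obtain ⟨u, hu⟩ := Nat.exists_eq_add_of_le hx
      have hQ : Q ≤ r + u := by omega
      have h6 : E ≤ m ^ 2 + (r + u) * (r + u) :=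
        hE2.trans (Nat.add_le_add_left (Nat.mul_le_mul hQ hQ) _)
      have h8 : r + u ≤ m := by omega
      have h6' : (E : ℤ) ≤ (m : ℤ) ^ 2 + (r + u) * (r + u) := by exact_mod_cast h6
      have h8' : (r : ℤ) + u ≤ m := by exact_mod_cast h8
      have h9 : (b : ℤ) = r + 1 + u + m := by
        have : b = r + 1 + u + m := by omega
        exact_mod_cast this
      have hu0 : (0 : ℤ) ≤ u := Int.natCast_nonneg u
      rw [h9] at hb' ⊢
      have h10 := mul_le_mul_of_nonneg_left h8' hu0
      have h11 : (0 : ℤ) ≤ (u : ℤ) * u := mul_self_nonneg _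
      linarith [h10, h11, show ((r : ℤ) + 1 + u + m - r) ^ 2 + (r - 1) ^ 2 =
        (m ^ 2 + (r + u) * (r + u)) + (r + 1 + u + m) + (2 * (u * m) + m + u + 1 - 3 * r -
          2 * (u * r)) by ring, show (u : ℤ) * (r + u) = u * r + u * u by ring]
    · have hm : 2 * m + 2 ≤ b := by omega
      have hQ : Q + m + 1 ≤ b := by omega
      have h6 : E ≤ m * (m + Q) := by
        refine hE1.trans (le_of_eq (by ring))
      have h6' : (E : ℤ) ≤ (m : ℤ) * (m + Q) := by exact_mod_cast h6
      have hm' : 2 * (m : ℤ) ≤ b - 2 := by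
        have : (2 * (m : ℤ)) + 2 ≤ b := by exact_mod_cast hm
        linarith
      have hQ' : (m : ℤ) + Q ≤ b - 1 := by
        have : (Q : ℤ) + m + 1 ≤ b := by exact_mod_cast hQ
        linarith
      have h0 : (0 : ℤ) ≤ m := Int.natCast_nonneg m
      have h0' : (0 : ℤ) ≤ (b : ℤ) - 1 := by linarith
      have h7 := mul_le_mul_of_nonneg_left hQ' h0
      have h8 := mul_le_mul_of_nonneg_right hm' h0'
      have h9 : (0 : ℤ) ≤ b * (b - 4 * r) := mul_nonneg (by linarith) (by linarith)
      have h10 : (0 : ℤ) ≤ r * (r - 1) := mul_nonneg (by linarith) (by linarith)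
      linarith [show 2 * (((b : ℤ) - r) ^ 2 + (r - 1) ^ 2) = (b - 2) * (b - 1) + 2 * b +
        (b * (b - 4 * r) + b + 4 * (r * (r - 1))) by ring,
        show 2 * (m : ℤ) * (b - 1) = 2 * (m * (b - 1)) by ring]
  have h1 : r ≤ b := by omega
  have h2 : 1 ≤ r := by omega
  zify [h1, h2]
  exact key

open Classical in
/-- a minimal set of light vertices without a list colouring -/
theorem exists_min {V : Type} [Fintype V] {r : ℕ} {G : SimpleGraph V} {g : V → Option (Fin r)}
    (hI : Indep G g) (hcol : ¬ G.Colorable r) :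
    ∃ S : Finset V, S ⊆ LL g ∧ ¬ LC G g S ∧ ∀ v ∈ S, LC G g (S.erase v) := by
  have h0 : ¬ LC G g (LL g) := by
    rintro ⟨c, hc1, hc2⟩
    refine hcol ⟨SimpleGraph.Coloring.mk (fun v => (g v).getD (c v)) ?_⟩
    intro u v huv
    rcases hgu : g u with _ | s <;> rcases hgv : g v with _ | t
    · simpa using hc2 u (mem_LL.2 hgu) v (mem_LL.2 hgv) huv
    · simp only [Option.getD_none, Option.getD_some]
      intro h
      exact (mem_A.1 (hc1 u (mem_LL.2 hgu))) v (by rw [hgv, h]) huv
    · simp only [Option.getD_none, Option.getD_some]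
      intro h
      exact (mem_A.1 (hc1 v (mem_LL.2 hgv))) u (by rw [hgu, h]) huv.symm
    · simp only [Option.getD_some]
      intro h
      exact hI u v (by simp [hgu]) (by rw [hgu, hgv, h]) huv
  obtain ⟨S, hS, hmin⟩ := Finset.exists_min_image
    ((LL g).powerset.filter fun S => ¬ LC G g S) Finset.card
    ⟨LL g, by simp [h0]⟩
  rw [Finset.mem_filter, Finset.mem_powerset] at hS
  refine ⟨S, hS.1, hS.2, fun v hv => ?_⟩
  by_contra hcon
  have h1 := hmin (S.erase v) (by
    rw [Finset.mem_filter, Finset.mem_powerset]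
    exact ⟨(Finset.erase_subset _ _).trans hS.1, hcon⟩)
  have h2 := Finset.card_erase_lt_of_mem hv
  omega

open Classical in
/-- the colours of a vertex of a minimal set are used by its neighbours -/
theorem deg_ge {V : Type} {r : ℕ} {G : SimpleGraph V} {g : V → Option (Fin r)}
    {S : Finset V} (hS : ¬ LC G g S) {v : V} (hv : v ∈ S) (hv' : LC G g (S.erase v)) :
    (A G g v).card ≤ (S.filter fun u => G.Adj v u).card := by
  obtain ⟨c, hc1, hc2⟩ := hv'
  have h1 : A G g v ⊆ (S.filter fun u => G.Adj v u).image c := by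
    intro t ht
    by_contra hcon
    apply hS
    refine ⟨Function.update c v t, ?_, ?_⟩
    · intro u hu
      by_cases huv : u = v
      · rw [huv, Function.update_self]; exact ht
      · rw [Function.update_of_ne huv]
        exact hc1 u (Finset.mem_erase.2 ⟨huv, hu⟩)
    · have h2 : ∀ u ∈ S, G.Adj v u → t ≠ c u := by
        intro u hu huv h
        apply hcon
        rw [h]
        exact Finset.mem_image_of_mem c (Finset.mem_filter.2 ⟨hu, huv⟩)
      intro u hu x hx hux
      by_cases h3 : u = v
      · have h4 : x ≠ v := by rintro rfl; rw [h3] at hux; exact G.loopless.irrefl _ hux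
        rw [h3, Function.update_self, Function.update_of_ne h4]
        exact h2 x hx (h3 ▸ hux)
      · by_cases h4 : x = v
        · rw [h4, Function.update_self, Function.update_of_ne h3]
          exact (h2 u hu (h4 ▸ hux.symm)).symm
        · rw [Function.update_of_ne h3, Function.update_of_ne h4]
          exact hc2 u (Finset.mem_erase.2 ⟨h3, hu⟩) x (Finset.mem_erase.2 ⟨h4, hx⟩) hux
  exact (Finset.card_le_card h1).trans Finset.card_image_le

/-- sum of squares -/
theorem sq_sum_le {V : Type} (L : Finset V) (n : V → ℕ) :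
    ∑ v ∈ L, n v ^ 2 ≤ (∑ v ∈ L, n v) ^ 2 := by
  classical
  induction L using Finset.induction_on with
  | empty => simp
  | insert a s ha ih =>
    rw [Finset.sum_insert ha, Finset.sum_insert ha]
    nlinarith [Nat.zero_le (n a * ∑ v ∈ s, n v)]

/-- the bound for `j (2 r - min r j)` -/
theorem jbound {r j : ℕ} (hr : 3 ≤ r) (hj : 2 ≤ j) : 4 * r ≤ j * (2 * r - min r j) + 4 := by
  rcases le_total j r with h | h
  · rw [min_eq_right h]
    obtain ⟨a, rfl⟩ := Nat.exists_eq_add_of_le hj
    obtain ⟨b, rfl⟩ := Nat.exists_eq_add_of_le h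
    have : 2 * (2 + a + b) - (2 + a) = 2 + a + 2 * b := by omega
    rw [this]
    nlinarith [Nat.zero_le (a * b), Nat.zero_le (a * a)]
  · rw [min_eq_left h]
    have : 2 * r - r = r := by omega
    rw [this]
    nlinarith [Nat.mul_le_mul h (le_refl r)]

end ItemRLE

open ItemRLE in
theorem prfRLE : CLA_statement → RLE_statement := by
  classical
  intro hCLA r b V _ G g hr hI hmiss hsiz hF hcol hiso hb
  have hmiss' : missSet G g = ∅ := by
    rwa [Set.ncard_eq_zero (Set.toFinite _)] at hmiss
  have hcore : ∀ x y, g x ≠ none → g y ≠ none → g x ≠ g y → G.Adj x y := by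
    intro x y hx hy h
    by_contra hn
    have : s(x, y) ∈ missSet G g := ⟨x, y, rfl, hx, hy, h, hn⟩
    rw [hmiss'] at this
    exact this
  have hA1 : ∀ v, 1 ≤ (A G g v).card := by
    intro v
    rw [Nat.one_le_iff_ne_zero, Ne, Finset.card_eq_zero]
    intro hcon
    have h1 : ∀ t : Fin r, ∃ u, g u = some t ∧ G.Adj v u := by
      intro t
      by_contra h2
      push Not at h2
      have h3 : t ∈ A G g v := mem_A.2 h2
      rw [hcon] at h3
      exact Finset.notMem_empty _ h3
    choose c hc hvc using h1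
    refine free_aux hF v c hvc ?_
    intro s t hst
    refine hcore _ _ (by simp [hc]) (by simp [hc]) ?_
    rw [hc, hc]
    exact fun e => hst (Option.some.inj e)
  have hA2 := card_A G g
  have hA3 : ∀ v, (A G g v).card ≤ r := by
    intro v
    have := Finset.card_le_univ (A G g v)
    rwa [Fintype.card_fin] at this
  obtain ⟨S, hSL, hS, hSe⟩ := exists_min hI hcol
  have hdeg : ∀ v ∈ S, (A G g v).card ≤ (S.filter fun u => G.Adj v u).card := fun v hv =>
    deg_ge hS hv (hSe v hv)
  have hdeg' : ∀ v ∈ S, (S.filter fun u => G.Adj v u).card + 1 ≤ S.card := by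
    intro v hv
    have h1 : (S.filter fun u => G.Adj v u) ⊆ S.erase v := by
      intro u hu
      rw [Finset.mem_filter] at hu
      refine Finset.mem_erase.2 ⟨?_, hu.1⟩
      rintro rfl
      exact G.loopless.irrefl _ hu.2
    have h2 := Finset.card_le_card h1
    have h3 := Finset.card_erase_add_one hv
    omega
  have hln : ∀ v, (S.filter fun u => G.Adj v u).card ≤ ln G g v := by
    intro v
    refine Finset.card_le_card ?_
    intro u hu
    rw [Finset.mem_filter] at hu ⊢
    exact ⟨Finset.mem_univ _, mem_LL.1 (hSL hu.1), hu.2⟩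
  have hSne : S.Nonempty := by
    rw [Finset.nonempty_iff_ne_empty]
    rintro rfl
    exact hS ⟨fun _ => ⟨0, by omega⟩, by simp, by simp⟩
  -- the vertex `w`
  obtain ⟨w, hwL, hwmax⟩ := Finset.exists_max_image (LL g) (fun v => cnb G g v)
    (hSne.mono hSL)
  have hw : g w = none := mem_LL.1 hwL
  have hhand := hand G g
  have hlw := light_w G g hw
  rw [hb] at hhand hlw
  set N := ∑ v ∈ LL g, cnb G g v with hN
  set D := ∑ v ∈ LL g, ln G g v with hD
  set x := (lightSet G g {w}).ncard with hx
  set m := cnb G g w with hm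
  set Q := ∑ v ∈ (LL g).erase w, cnb G g v with hQ
  have hNQ : N = m + Q := (Finset.add_sum_erase _ _ hwL).symm
  have hE : (∑ x, if g x = none then cnb G g x ^ 2 else 0) = ∑ v ∈ LL g, cnb G g v ^ 2 := by
    rw [LL, Finset.sum_filter]
  rw [hE]
  set E := ∑ v ∈ LL g, cnb G g v ^ 2 with hEd
  have hDS : ∑ v ∈ S, (A G g v).card ≤ D := by
    calc ∑ v ∈ S, (A G g v).card ≤ ∑ v ∈ S, ln G g v :=
          Finset.sum_le_sum fun v hv => (hdeg v hv).trans (hln v)
      _ ≤ D := Finset.sum_le_sum_of_subset hSL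
  have hk2 : 2 ≤ S.card := by
    obtain ⟨v, hv⟩ := hSne
    have h1 := hdeg v hv
    have h2 := hdeg' v hv
    have h3 := hA1 v
    omega
  have hD1 : S.card ≤ D := by
    refine le_trans ?_ hDS
    have : ∑ v ∈ S, 1 ≤ ∑ v ∈ S, (A G g v).card := Finset.sum_le_sum fun v _ => hA1 v
    simpa using this
  obtain ⟨e, he⟩ : ∃ e, b = N + e := ⟨b - N, by omega⟩
  have heD : D = 2 * e := by omega
  have hxe : x = Q + e := by omega
  have he1 : 1 ≤ e := by omega
  have hbx : b = x + m := by omega
  have hE1 : E ≤ m ^ 2 + Q * m := by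
    rw [hEd, ← Finset.add_sum_erase _ _ hwL]
    refine Nat.add_le_add_left ?_ _
    rw [hQ, Finset.sum_mul]
    refine Finset.sum_le_sum fun v hv => ?_
    rw [pow_two]
    exact Nat.mul_le_mul_left _ (hwmax v (Finset.mem_of_mem_erase hv))
  have hE2 : E ≤ m ^ 2 + Q * Q := by
    rw [hEd, ← Finset.add_sum_erase _ _ hwL]
    refine Nat.add_le_add_left ?_ _
    have := sq_sum_le ((LL g).erase w) (fun v => cnb G g v)
    rw [← hQ, pow_two] at this
    exact this
  have hmain : 2 * r ≤ b + 1 ∧ (x = r ∨ E + 1 ≤ (b - r) ^ 2 + (r - 1) ^ 2) := by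
    rcases Nat.eq_or_lt_of_le hk2 with hk | hk
    · -- two vertices
      obtain ⟨p, q, hpq, hSpq⟩ := Finset.card_eq_two.1 hk.symm
      have hp : p ∈ S := by rw [hSpq]; simp
      have hq : q ∈ S := by rw [hSpq]; simp
      have hnp : r ≤ cnb G g p + 1 := by
        have h1 := hA2 p
        have h2 := hdeg p hp
        have h3 := hdeg' p hp
        omega
      have hnq : r ≤ cnb G g q + 1 := by
        have h1 := hA2 q
        have h2 := hdeg q hq
        have h3 := hdeg' q hq
        omega
      have hqL : q ∈ (LL g).erase p := Finset.mem_erase.2 ⟨hpq.symm, hSL hq⟩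
      set s := ∑ v ∈ ((LL g).erase p).erase q, cnb G g v with hs
      have hNs : N = cnb G g p + (cnb G g q + s) := by
        rw [hN, ← Finset.add_sum_erase _ _ (hSL hp), ← Finset.add_sum_erase _ _ hqL]
      have hEs : E ≤ cnb G g p ^ 2 + (cnb G g q ^ 2 + s ^ 2) := by
        rw [hEd, ← Finset.add_sum_erase _ _ (hSL hp), ← Finset.add_sum_erase _ _ hqL]
        exact Nat.add_le_add_left (Nat.add_le_add_left (sq_sum_le _ _) _) _
      have hwcases : s = 0 → m ≤ max (cnb G g p) (cnb G g q) := by
        intro h0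
        by_cases h1 : w = p
        · rw [hm, h1]; exact le_max_left _ _
        · by_cases h2 : w = q
          · rw [hm, h2]; exact le_max_right _ _
          · have h3 : w ∈ ((LL g).erase p).erase q :=
              Finset.mem_erase.2 ⟨h2, Finset.mem_erase.2 ⟨h1, hwL⟩⟩
            have h4 := Finset.single_le_sum (f := fun v => cnb G g v)
              (fun v _ => Nat.zero_le _) h3
            rw [← hs, h0] at h4
            exact le_trans h4 (Nat.zero_le _)
      have hmp : cnb G g p ≤ m := hwmax p (hSL hp)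
      have hmq : cnb G g q ≤ m := hwmax q (hSL hq)
      rcases le_total (cnb G g q) (cnb G g p) with h | h
      · obtain ⟨h1, h2⟩ := arith2 r (cnb G g p) (cnb G g q) s e b E hr h hnq he1 (by omega)
          (by omega)
        refine ⟨h1, h2.imp ?_ id⟩
        rintro ⟨h3, h4⟩
        have h5 := hwcases h3
        rw [max_eq_left h] at h5
        omega
      · obtain ⟨h1, h2⟩ := arith2 r (cnb G g q) (cnb G g p) s e b E hr h hnp he1 (by omega)
          (by omega)
        refine ⟨h1, h2.imp ?_ id⟩
        rintro ⟨h3, h4⟩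
        have h5 := hwcases h3
        rw [max_eq_right h] at h5
        omega
    · -- at least three vertices
      have he2 : 2 ≤ e := by omega
      have h1 : ∀ v ∈ S, 2 * r - min r (S.card - 1) ≤ (A G g v).card + 2 * cnb G g v := by
        intro v hv
        have h2 := hA2 v
        have h3 := hA3 v
        have h4 := hdeg v hv
        have h5 := hdeg' v hv
        have h6 : (A G g v).card ≤ min r (S.card - 1) := le_min h3 (by omega)
        omega
      have h2 : ∑ v ∈ S.erase w, 2 * cnb G g v ≤ 2 * Q := by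
        rw [← Finset.mul_sum]
        refine Nat.mul_le_mul_left 2 ?_
        exact Finset.sum_le_sum_of_subset (Finset.erase_subset_erase w hSL)
      have h3 : (S.erase w).card * (2 * r - min r (S.card - 1)) ≤
          ∑ v ∈ S.erase w, ((A G g v).card + 2 * cnb G g v) := by
        have := Finset.card_nsmul_le_sum (S.erase w)
          (fun v => (A G g v).card + 2 * cnb G g v) (2 * r - min r (S.card - 1))
          (fun v hv => h1 v (Finset.mem_of_mem_erase hv))
        simpa [smul_eq_mul] using this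
      rw [Finset.sum_add_distrib] at h3
      have hx2 : 4 * r ≤ 2 * x + 3 := by
        by_cases hwS : w ∈ S
        · have h4 : (S.erase w).card + 1 = S.card := Finset.card_erase_add_one hwS
          have h5 : (A G g w).card + ∑ v ∈ S.erase w, (A G g v).card =
              ∑ v ∈ S, (A G g v).card :=
            Finset.add_sum_erase S (fun v => (A G g v).card) hwS
          have h6 := hA1 w
          have h7 : S.card - 1 = (S.erase w).card := by omega
          rw [h7] at h3
          have h8 := jbound (j := (S.erase w).card) hr (by omega)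
          omega
        · rw [Finset.erase_eq_of_notMem hwS] at h3 h2
          have h8 := jbound (j := S.card - 1) hr (by omega)
          have h9 : (S.card - 1) * (2 * r - min r (S.card - 1)) +
              (2 * r - min r (S.card - 1)) = S.card * (2 * r - min r (S.card - 1)) := by
            obtain ⟨a, ha⟩ : ∃ a, S.card = a + 1 := ⟨S.card - 1, by omega⟩
            rw [ha, Nat.add_sub_cancel]
            ring
          have h10 : min r (S.card - 1) ≤ r := min_le_left _ _
          omega
      have hEm : E ≤ m * N := by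
        rw [hNQ]
        refine hE1.trans (le_of_eq (by ring))
      obtain ⟨h4, h5⟩ := arith3 r b x e m N E hr (by omega) he2 hbx he hEm
      exact ⟨h4, Or.inr h5⟩
  refine ⟨by omega, w, hw, fun y hy => hwmax y (mem_LL.2 hy), hlw, ?_⟩
  rcases hmain.2 with h | h
  · exact Or.inl h
  · by_cases hxr : x = r
    · exact Or.inl hxr
    · right
      refine ⟨h, fun h4 => ?_⟩
      have h5 := (hCLA r V G g w hr hI hw hmiss hsiz hF hcol hiso).1
      exact arith4 r b x e m Q E hr (by omega) he1 hbx hxe hE1 hE2 h4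

end MP0c3a8f
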