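import Pool.Agent.Work.MP_0c3a8f_co.PB.Stmts8

/-! Sums of squares of degrees. -/

namespace MP0c3a8f

namespace ItemSQE

open Finset

open Classical in
/-- the number of edges disjoint from `e` -/
noncomputable def dd {V : Type} [Fintype V] (M : SimpleGraph V) (e : Sym2 V) : ℕ :=
  (M.edgeFinset.filter (fun f => ∀ x ∈ e, x ∉ f)).card

open Classical in
lemma edge_sum {V : Type} [Fintype V] (M : SimpleGraph V) {u v : V} (h : M.Adj u v) :
    M.degree u + M.degree v + dd M s(u, v) = M.edgeFinset.card + 1 := by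
  have hA : (M.edgeFinset.filter (fun f => u ∈ f)).card = M.degree u := by
    rw [← M.incidenceFinset_eq_filter, M.card_incidenceFinset_eq_degree]
  have hB : (M.edgeFinset.filter (fun f => v ∈ f)).card = M.degree v := by
    rw [← M.incidenceFinset_eq_filter, M.card_incidenceFinset_eq_degree]
  have hI : (M.edgeFinset.filter (fun f => u ∈ f)) ∩ (M.edgeFinset.filter (fun f => v ∈ f)) =
      {s(u, v)} := by
    ext f
    rw [mem_inter, mem_filter, mem_filter, mem_singleton]
    constructor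
    · rintro ⟨⟨_, h1⟩, _, h2⟩
      exact (Sym2.mem_and_mem_iff h.ne).1 ⟨h1, h2⟩
    · rintro rfl
      rw [SimpleGraph.mem_edgeFinset]
      exact ⟨⟨h, Sym2.mem_mk_left _ _⟩, h, Sym2.mem_mk_right _ _⟩
  have hU := Finset.card_union_add_card_inter (M.edgeFinset.filter (fun f => u ∈ f))
    (M.edgeFinset.filter (fun f => v ∈ f))
  rw [hI, card_singleton, hA, hB] at hU
  have hC : (M.edgeFinset.filter (fun f => u ∈ f)) ∪ (M.edgeFinset.filter (fun f => v ∈ f)) =
      M.edgeFinset.filter (fun f => ¬ ∀ x ∈ s(u, v), x ∉ f) := by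
    ext f
    simp only [mem_union, mem_filter, Sym2.mem_iff]
    constructor
    · rintro (⟨h1, h2⟩ | ⟨h1, h2⟩)
      · exact ⟨h1, fun h3 => h3 u (Or.inl rfl) h2⟩
      · exact ⟨h1, fun h3 => h3 v (Or.inr rfl) h2⟩
    · rintro ⟨h1, h2⟩
      by_cases hu : u ∈ f
      · exact Or.inl ⟨h1, hu⟩
      · by_cases hv : v ∈ f
        · exact Or.inr ⟨h1, hv⟩
        · exfalso
          apply h2
          rintro x (rfl | rfl)
          · exact hu
          · exact hv
  have hD := Finset.card_filter_add_card_filter_not (s := M.edgeFinset)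
    (fun f => ∀ x ∈ s(u, v), x ∉ f)
  unfold dd
  rw [hC] at hU
  omega

open Classical in
lemma sum_sq {V : Type} [Fintype V] (M : SimpleGraph V) :
    ∑ v, (M.degree v) ^ 2 + ∑ e ∈ M.edgeFinset, dd M e =
      M.edgeFinset.card ^ 2 + M.edgeFinset.card := by
  have h1 : ∑ v, (M.degree v) ^ 2 =
      ∑ e ∈ M.edgeFinset, ∑ v ∈ univ.filter (fun v => v ∈ e), M.degree v := by
    calc ∑ v, (M.degree v) ^ 2
        = ∑ v, ∑ e ∈ M.edgeFinset.filter (fun f => v ∈ f), M.degree v := by
          apply sum_congr rfl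
          intro v _
          rw [sum_const, smul_eq_mul, ← M.incidenceFinset_eq_filter,
            M.card_incidenceFinset_eq_degree, sq]
      _ = _ := by
          apply sum_comm'
          intro v e
          simp only [mem_univ, mem_filter, true_and]
          tauto
  rw [h1, ← sum_add_distrib]
  have h2 : ∀ e ∈ M.edgeFinset, ∑ v ∈ univ.filter (fun v => v ∈ e), M.degree v + dd M e =
      M.edgeFinset.card + 1 := by
    intro e
    induction e using Sym2.ind with
    | _ u v =>
      intro he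
      rw [SimpleGraph.mem_edgeFinset, SimpleGraph.mem_edgeSet] at he
      have h3 : univ.filter (fun x => x ∈ s(u, v)) = {u, v} := by
        ext x
        simp [Sym2.mem_iff]
      rw [h3, sum_pair he.ne]
      exact edge_sum M he
  rw [sum_congr rfl h2, sum_const, smul_eq_mul]
  ring

open Classical in
lemma one_zero {V : Type} [Fintype V] (M : SimpleGraph V)
    (ht : ∀ x y z, M.Adj x y → M.Adj y z → ¬ M.Adj x z)
    (hw : ¬ ∃ w, ∀ e ∈ M.edgeSet, w ∈ e) {e e' : Sym2 V} (he : e ∈ M.edgeFinset)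
    (he' : e' ∈ M.edgeFinset) (hne : e ≠ e') (h0 : dd M e = 0) (h0' : dd M e' = 0) : False := by
  unfold dd at h0 h0'
  rw [card_eq_zero, filter_eq_empty_iff] at h0 h0'
  -- a common vertex
  have hcom := h0 he'
  push Not at hcom
  obtain ⟨u, hu, hu'⟩ := hcom
  obtain ⟨v, rfl⟩ := hu
  obtain ⟨x, rfl⟩ := hu'
  rw [SimpleGraph.mem_edgeFinset, SimpleGraph.mem_edgeSet] at he he'
  push Not at hw
  obtain ⟨f, hf, huf⟩ := hw u
  have h1 := h0 (SimpleGraph.mem_edgeFinset.2 hf)
  have h2 := h0' (SimpleGraph.mem_edgeFinset.2 hf)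
  push Not at h1 h2
  obtain ⟨a, ha, haf⟩ := h1
  obtain ⟨b, hb, hbf⟩ := h2
  rw [Sym2.mem_iff] at ha hb
  have hav : a = v := by
    rcases ha with rfl | rfl
    · exact absurd haf huf
    · rfl
  have hbx : b = x := by
    rcases hb with rfl | rfl
    · exact absurd hbf huf
    · rfl
  subst hav hbx
  have hab : a ≠ b := by
    rintro rfl
    exact hne rfl
  have : f = s(a, b) := (Sym2.mem_and_mem_iff hab).1 ⟨haf, hbf⟩
  rw [this, SimpleGraph.mem_edgeSet] at hf
  exact ht u a b he hf he'

open Classical in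
lemma two_le {V : Type} [Fintype V] [Nonempty V] (M : SimpleGraph V)
    (hw : ¬ ∃ w, ∀ e ∈ M.edgeSet, w ∈ e) : 2 ≤ M.edgeFinset.card := by
  by_contra h
  apply hw
  have h1 : M.edgeFinset.card ≤ 1 := by omega
  rw [card_le_one] at h1
  by_cases h2 : ∃ e, e ∈ M.edgeFinset
  · obtain ⟨e, he⟩ := h2
    refine ⟨e.out.1, fun f hf => ?_⟩
    rw [h1 f (SimpleGraph.mem_edgeFinset.2 hf) e he]
    exact Sym2.out_fst_mem e
  · obtain ⟨w⟩ := ‹Nonempty V›
    refine ⟨w, fun f hf => ?_⟩
    exact absurd ⟨f, SimpleGraph.mem_edgeFinset.2 hf⟩ h2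

open Classical in
lemma sum_ge {V : Type} [Fintype V] [Nonempty V] (M : SimpleGraph V)
    (ht : ∀ x y z, M.Adj x y → M.Adj y z → ¬ M.Adj x z)
    (hw : ¬ ∃ w, ∀ e ∈ M.edgeSet, w ∈ e) :
    M.edgeFinset.card ≤ 2 * ∑ e ∈ M.edgeFinset, dd M e := by
  have h2 := two_le M hw
  have hZ : (M.edgeFinset.filter (fun e => dd M e = 0)).card ≤ 1 := by
    rw [card_le_one]
    intro e he e' he'
    rw [mem_filter] at he he'
    by_contra hne
    exact one_zero M ht hw he.1 he'.1 hne he.2 he'.2
  have h3 : (M.edgeFinset.filter (fun e => ¬ dd M e = 0)).card ≤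
      ∑ e ∈ M.edgeFinset, dd M e := by
    rw [card_filter]
    apply sum_le_sum
    intro e _
    split_ifs with h
    · exact Nat.zero_le _
    · exact Nat.one_le_iff_ne_zero.2 h
  have h4 := Finset.card_filter_add_card_filter_not (s := M.edgeFinset) (fun e => dd M e = 0)
  omega

end ItemSQE

open Classical in
/-- (SQE) sums of squares of degrees -/
theorem prfSQE : SQE_statement := by
  intro V _ _ M
  have hd : ∀ v, {u | M.Adj v u}.ncard = M.degree v := by
    intro v
    rw [Set.ncard_eq_toFinset_card', ← M.card_neighborFinset_eq_degree]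
    congr 1
  have hE : M.edgeSet.ncard = M.edgeFinset.card := by
    rw [Set.ncard_eq_toFinset_card']
    rfl
  have h1 := ItemSQE.sum_sq M
  simp only [hd, hE]
  refine ⟨by omega, fun ht => ?_⟩
  by_cases hw : ∃ w, ∀ e ∈ M.edgeSet, w ∈ e
  · exact Or.inl hw
  · right
    have h2 := ItemSQE.sum_ge M ht hw
    omega

end MP0c3a8f
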