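import Pool.Agent.Work.MP_0c3a8f_co.PB.Stmts9
import Pool.Agent.Work.MP_0c3a8f_co.PB.ItemFAM1

/-!
# MP_0c3a8f_co: graphs of type `P` with prescribed numbers of leaves (item FAMG)
-/

open Finset

namespace MP0c3a8f

namespace ItemFAMG

open ItemFAM1

/-- the adjacency relation -/
def rel {r : ℕ} (τ l Q : Fin r → ℕ) (i : Fin r) :
    Option (Σ t : Fin r, Fin (τ t)) → Option (Σ t : Fin r, Fin (τ t)) → Prop
  | none, none => False
  | none, some q => q.2.val = Q q.1
  | some q, none => q.2.val = Q q.1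
  | some q, some q' => q.1 ≠ q'.1 ∧ ¬ ((q.1 = i ∧ q.2.val = Q i) ∧ q'.2.val < l q'.1) ∧
      ¬ ((q'.1 = i ∧ q'.2.val = Q i) ∧ q.2.val < l q.1)

/-- the graph -/
def gr {r : ℕ} (τ l Q : Fin r → ℕ) (i : Fin r) :
    SimpleGraph (Option (Σ t : Fin r, Fin (τ t))) where
  Adj := rel τ l Q i
  symm := ⟨fun x y h => by
    rcases x with _ | q <;> rcases y with _ | q'
    · exact h
    · exact h
    · exact h
    · exact ⟨h.1.symm, h.2.2, h.2.1⟩⟩
  loopless := ⟨fun x h => by
    rcases x with _ | q
    · exact h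
    · exact h.1 rfl⟩

theorem eq_iff' {r : ℕ} {τ : Fin r → ℕ} {i : Fin r} {m : ℕ} (h : m < τ i)
    (q : Σ t : Fin r, Fin (τ t)) : q = ⟨i, ⟨m, h⟩⟩ ↔ q.1 = i ∧ q.2.val = m := by
  obtain ⟨t, y⟩ := q
  constructor
  · intro h'
    cases h'
    exact ⟨rfl, rfl⟩
  · rintro ⟨h1, h2⟩
    simp only at h1 h2
    subst h1
    subst h2
    rfl

theorem mem_iff {r : ℕ} {τ l : Fin r → ℕ} (h : ∀ t, l t ≤ τ t) (q : Σ t : Fin r, Fin (τ t)) :
    (∃ y : Σ t : Fin r, Fin (l t),
      (⟨y.1, Fin.castLE (h y.1) y.2⟩ : Σ t : Fin r, Fin (τ t)) = q) ↔ q.2.val < l q.1 := by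
  obtain ⟨t, y⟩ := q
  constructor
  · rintro ⟨⟨s, z⟩, hz⟩
    cases hz
    exact z.2
  · intro h2
    exact ⟨⟨t, ⟨y.val, h2⟩⟩, rfl⟩

end ItemFAMG

open ItemFAM1 ItemFAMG in
theorem prfFAMG : FAMG_statement := by
  classical
  intro r τ l i s hr hli hsi hls hτ
  have hl : ∀ t, l t ≤ ∑ u, l u := fun t => Finset.single_le_sum (fun _ _ => Nat.zero_le _)
    (Finset.mem_univ t)
  have hlτ : ∀ t, l t ≤ τ t := fun t => by have := hτ t; have := hl t; omega
  set Q : Fin r → ℕ := fun t => if t = s then 0 else τ t - 1 with hQ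
  have hQτ : ∀ t, Q t < τ t := by
    intro t
    have := hτ t
    rw [hQ]
    by_cases h : t = s
    · simp only [if_pos h]
      omega
    · simp only [if_neg h]
      omega
  have hQl : ∀ t, Q t < l t ↔ t = s := by
    intro t
    have h1 := hτ t
    have h2 := hl t
    rw [hQ]
    by_cases h : t = s
    · subst h
      simp only [if_true]
      simp only [iff_true]
      omega
    · simp only [if_neg h]
      constructor
      · intro h3
        omega
      · intro h3
        exact absurd h3 h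
  obtain ⟨k, e, H, f, hadj, hf, hsiz, -⟩ := transfer (ItemFAMG.gr τ l Q i) (clF τ)
  set L : Finset (Fin k) := Finset.univ.image
    (fun y : Σ t : Fin r, Fin (l t) => e (some ⟨y.1, Fin.castLE (hlτ y.1) y.2⟩)) with hL
  have hLc : L.card = ∑ t, l t := by
    rw [hL, Finset.card_image_of_injective, Finset.card_univ, Fintype.card_sigma]
    · simp
    · rintro ⟨t, y⟩ ⟨t', y'⟩ h
      have h1 := Option.some.inj (e.injective h)
      have h2 : t = t' := (Sigma.mk.inj h1).1
      subst h2
      have h3 : Fin.castLE (hlτ t) y = Fin.castLE (hlτ t) y' := eq_of_heq (Sigma.mk.inj h1).2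
      have h4 : y = y' := Fin.castLE_injective (hlτ t) h3
      rw [h4]
  have hmem : ∀ q : Σ t : Fin r, Fin (τ t), e (some q) ∈ L ↔ q.2.val < l q.1 := by
    intro q
    rw [← ItemFAMG.mem_iff hlτ q, hL, Finset.mem_image]
    constructor
    · rintro ⟨y, -, hy⟩
      exact ⟨y, Option.some.inj (e.injective hy)⟩
    · rintro ⟨y, hy⟩
      exact ⟨y, Finset.mem_univ _, by rw [hy]⟩
  have hmem0 : e none ∉ L := by
    rw [hL, Finset.mem_image]
    rintro ⟨y, -, hy⟩
    have := e.injective hy
    cases this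
  refine ⟨k, H, f, e none, fun t => e (some ⟨t, ⟨Q t, hQτ t⟩⟩), L, ?_, hLc, ?_, ?_, ?_⟩
  · refine ⟨?_, ?_, ?_, ?_, ?_, ?_, ?_⟩
    · intro v
      obtain ⟨x, rfl⟩ := e.surjective v
      rw [hf, e.injective.eq_iff]
      rcases x with _ | q <;> simp [clF]
    · intro t
      rw [hf]
      rfl
    · intro v
      obtain ⟨x, rfl⟩ := e.surjective v
      rw [hadj]
      rcases x with _ | q
      · constructor
        · intro h
          exact absurd h (SimpleGraph.irrefl _)
        · rintro ⟨t, ht⟩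
          have := e.injective ht
          cases this
      · constructor
        · intro h
          refine ⟨q.1, ?_⟩
          rw [e.injective.eq_iff, Option.some_inj, eq_iff' (hQτ q.1)]
          exact ⟨rfl, h⟩
        · rintro ⟨t, ht⟩
          rw [e.injective.eq_iff, Option.some_inj, eq_iff' (hQτ t)] at ht
          show q.2.val = Q q.1
          exact ht.2.trans (congrArg Q ht.1.symm)
    · intro v hv
      obtain ⟨x, rfl⟩ := e.surjective v
      rcases x with _ | q
      · exact absurd hv hmem0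
      · rw [hmem] at hv
        rw [hf]
        refine ⟨by simp [clF], ?_⟩
        simp only [clF, ne_eq, Option.some_inj]
        intro h
        have h2 : l q.1 = 0 := (congrArg l h).trans hli
        omega
    · intro u v hu hv
      obtain ⟨x, rfl⟩ := e.surjective u
      obtain ⟨y, rfl⟩ := e.surjective v
      rw [hf] at hu hv
      rw [hadj, hf, hf]
      rcases x with _ | q
      · exact absurd rfl hu
      rcases y with _ | q'
      · exact absurd rfl hv
      have h1 : (ItemFAMG.gr τ l Q i).Adj (some q) (some q') ↔ q.1 ≠ q'.1 ∧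
          ¬ ((q.1 = i ∧ q.2.val = Q i) ∧ q'.2.val < l q'.1) ∧
          ¬ ((q'.1 = i ∧ q'.2.val = Q i) ∧ q.2.val < l q.1) := Iff.rfl
      have h2 : clF τ (some q) ≠ clF τ (some q') ↔ q.1 ≠ q'.1 := by simp [clF]
      rw [h1, h2, hmem, hmem, e.injective.eq_iff, e.injective.eq_iff, Option.some_inj,
        Option.some_inj, eq_iff' (hQτ i), eq_iff' (hQτ i)]
    · refine ⟨s, ?_⟩
      rw [hmem]
      exact (hQl s).2 rfl
    · intro t
      rw [hLc, hsiz, siz_clF]
      exact hτ t
  · intro t
    unfold lc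
    have e1 : {v | v ∈ L ∧ f v = some t} =
        (fun y : Fin (τ t) => e (some ⟨t, y⟩)) '' {y : Fin (τ t) | y.val < l t} := by
      ext v
      constructor
      · rintro ⟨h1, h2⟩
        obtain ⟨x, rfl⟩ := e.surjective v
        rcases x with _ | ⟨t', y⟩
        · exact absurd h1 hmem0
        · rw [hf] at h2
          have hs : t' = t := by simpa [clF] using h2
          subst hs
          exact ⟨y, (hmem _).1 h1, rfl⟩
      · rintro ⟨y, hy, rfl⟩
        refine ⟨(hmem _).2 hy, ?_⟩
        rw [hf]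
        rfl
    have e2 : Function.Injective (fun y : Fin (τ t) => e (some ⟨t, y⟩)) :=
      e.injective.comp (inj_some τ t)
    rw [e1, Set.ncard_image_of_injective _ e2, ncard_lt (hlτ t)]
  · intro t
    rw [hmem]
    exact hQl t
  · intro t
    rw [hsiz, siz_clF]

end MP0c3a8f
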