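import Pool.Agent.Work.MP_0c3a8f_co.PB.Stmts2
import Pool.Agent.Work.MP_0c3a8f_co.PB.ItemTOP1

/-!
# MP_0c3a8f_co, phase B, second part: item TOPZ
-/

set_option autoImplicit false

open Finset

namespace MP0c3a8f

namespace TOPZ

/-- a graph with complete core and one more vertex is a bounded modification -/
theorem bd_of_ty0 {V : Type} [Fintype V] {r : ℕ} (n : ℕ) (G : SimpleGraph V)
    (f : V → Option (Fin r)) (w : V) (h : Ty0 G f w) (htot : ∑ t, siz f t = n)
    (hdev : dev (siz f) ≤ r) :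
    Bd n r G f w ∧ (missSet G f).ncard = 0 ∧ (lightSet G f {w}).ncard = 0 := by
  have h1 : missSet G f = ∅ := by
    rw [Set.eq_empty_iff_forall_notMem]
    rintro z ⟨u, v, -, h2, h3, h4, h5⟩
    exact h5 ((h.core u v h2 h3).2 h4)
  have h2 : lightSet G f {w} = ∅ := by
    rw [Set.eq_empty_iff_forall_notMem]
    rintro z ⟨-, v, -, h3, h4⟩
    exact h4 (Finset.mem_singleton.2 ((h.out v).1 h3))
  refine ⟨⟨?_, (h.out w).2 rfl, htot, ?_⟩, by rw [h1, Set.ncard_empty], by
    rw [h2, Set.ncard_empty]⟩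
  · intro u v hu huv hadj
    have hv : f v ≠ none := by rw [← huv]; exact hu
    exact (h.core u v hu hv).1 hadj huv
  · rw [h1, h2, Set.ncard_empty]
    push_cast
    linarith

/-- a graph with complete core which belongs to a vector `a` -/
theorem member (hDEV : DEV_statement) (hFAMZ : FAMZ_statement) (hMEMZ : MEMZ_statement)
    {W : Type} (F : SimpleGraph W) (r n D : ℕ) (hr : 3 ≤ r) (hgen : Gen2 r F)
    (τ a : Fin r → ℕ) (i j : Fin r) (hij : i ≠ j)
    (hi : a i = 1) (hj : a j = 1) (ha1 : ∀ t, 1 ≤ a t) (ha2 : ∀ t, a t ≤ τ t)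
    (hτn : ∑ t, τ t = n)
    (hτ2 : ∑ t, τ t ^ 2 = ∑ t, tz r n t ^ 2) (hsum : ∑ t, a t = D) :
    ∃ (k : ℕ) (H : SimpleGraph (Fin k)) (f : Fin k → Option (Fin r)) (w : Fin k),
      siz f = τ ∧ nbn H f w = a ∧ Bd n r H f w ∧ (missSet H f).ncard = 0 ∧
      (lightSet H f {w}).ncard = 0 ∧
      InN r ((SimpleGraph.turanGraph n r).edgeSet.ncard + D) F H := by
  obtain ⟨k, H, f, w, hTy, hs, hnb⟩ := hFAMZ r τ a hr ha2
  obtain ⟨h1, h2, h3⟩ := hMEMZ r (Fin k) H f w hr hTy (fun t => by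
    rw [hs]; exact (ha1 t).trans (ha2 t))
  have hs' : siz f = τ := funext hs
  have hnb' : nbn H f w = a := funext hnb
  have hdev : dev (siz f) ≤ r := by
    rw [hs']; exact TOP1.dev_perm hDEV r n hr τ hτn hτ2
  obtain ⟨hb1, hb2, hb3⟩ := bd_of_ty0 n H f w hTy (by rw [hs']; exact hτn) hdev
  refine ⟨k, H, f, w, hs', hnb', hb1, hb2, hb3, ?_⟩
  refine ⟨hgen (Fin k) H f w i j hij hTy (by rw [hnb, hi]) (by rw [hnb, hj]), ?_, ?_, ?_⟩
  · obtain ⟨d1, -, -, -, -, d6⟩ := hDEV r n τ (by omega) hτn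
    unfold Sz at d6
    simp only [hs, hnb] at h3
    rw [hτn, hτ2, hsum] at h3
    rw [d1] at d6
    omega
  · apply h2
    simp only [hnb]
    have : a i ≤ ∑ t, a t := Finset.single_le_sum (f := a) (fun _ _ => Nat.zero_le _)
      (Finset.mem_univ i)
    omega
  · intro hc
    obtain ⟨t, ht⟩ := h1.1 hc
    rw [hnb] at ht
    have := ha1 t
    omega

/-- a graph with complete core and no light vertices -/
theorem ty0_of {V : Type} [Fintype V] {r : ℕ} (G : SimpleGraph V) (g : V → Option (Fin r)) (w : V)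
    (hind : Indep G g) (hgw : g w = none) (hα : (missSet G g).ncard = 0)
    (hb : (lightSet G g {w}).ncard = 0) (hiso : ∀ v, ∃ u, G.Adj v u) : Ty0 G g w := by
  have h1 : missSet G g = ∅ := (Set.ncard_eq_zero (Set.toFinite _)).1 hα
  have h2 : lightSet G g {w} = ∅ := (Set.ncard_eq_zero (Set.toFinite _)).1 hb
  refine ⟨fun v => ⟨fun hv => ?_, fun hv => by rw [hv]; exact hgw⟩, fun u v hu hv =>
    ⟨fun hadj huv => hind u v hu huv hadj, fun huv => ?_⟩⟩
  · by_contra hne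
    obtain ⟨u, hu⟩ := hiso v
    have : s(v, u) ∈ lightSet G g {w} :=
      ⟨(SimpleGraph.mem_edgeSet G).2 hu, v, Sym2.mem_mk_left v u, hv, by
        rw [Finset.mem_singleton]; exact hne⟩
    rw [h2] at this
    exact this
  · by_contra hadj
    have : s(u, v) ∈ missSet G g := ⟨u, v, rfl, hu, hv, huv, hadj⟩
    rw [h1] at this
    exact this

end TOPZ

theorem prfTOPZ : P_statement → MAXE_statement → DEV_statement → CNTU_statement →
    STRB_statement → LBG_statement → UBG_statement → KXB_statement → GREE_statement →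
    JFZ_statement → JBZ_statement → FAMZ_statement → MEMZ_statement → EMBZ_statement →
    TOPZ_statement := by
  intro hP hMAXE hDEV hCNTU hSTRB hLBG hUBG hKXB hGREE hJFZ hJBZ hFAMZ hMEMZ hEMBZ
    W _ F r ε hr hcrit hcol hgen hε
  have hr' : (3 : ℝ) ≤ r := by exact_mod_cast hr
  obtain ⟨q1, q2⟩ := TOP1.qq_bounds hr
  obtain ⟨c1, hc1, hJF⟩ := hJFZ r ε hr hε
  obtain ⟨c2, hc2, hJB'⟩ := hJBZ r ε hr hε
  set ε1 : ℝ := min (min c1 c2 / 4) 1 with hε1def
  have hcm : 0 < min c1 c2 := lt_min hc1 hc2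
  have hε1 : 0 < ε1 := lt_min (by linarith) one_pos
  have hε1a : 4 * ε1 ≤ c1 := by
    have h1 : ε1 ≤ min c1 c2 / 4 := min_le_left _ _
    have h2 := min_le_left c1 c2
    linarith
  have hε1b : 4 * ε1 ≤ c2 := by
    have h1 : ε1 ≤ min c1 c2 / 4 := min_le_left _ _
    have h2 := min_le_right c1 c2
    linarith
  have hε1c : ε1 ≤ 1 := min_le_right _ _
  obtain ⟨CK, nK, hK⟩ := hKXB r r hr
  obtain ⟨nU, hU⟩ := hUBG r r ε1 hr hε1
  obtain ⟨nG, hG⟩ := hGREE r ε hr hε
  obtain ⟨N, hN⟩ := hSTRB W F r ε (CK + 1) hr hcrit hcol hε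
  obtain ⟨δ, hδ, nL, hL⟩ := hLBG r N ε1 hr hε1
  obtain ⟨nS, hS⟩ := hN δ hδ
  obtain ⟨nJ, hJ⟩ := hJF N
  set M : ℕ := Fintype.card W with hM
  obtain ⟨nB, hB⟩ := hJB' (N + M + r)
  refine ⟨nU + nK + nG + nL + nS + nJ + nB + 2 * r + r * (N + M + 3) + 1, ?_⟩
  intro n hn D hR
  have hR' := hR
  obtain ⟨hlow, hupp⟩ := hR'
  have hn1 : 1 ≤ n := by omega
  have hn1' : (1 : ℝ) ≤ n := by exact_mod_cast hn1
  have hqn : 0 < qq r * n := by positivity
  have hDq : (D : ℝ) ≤ qq r * n := by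
    refine hupp.trans ?_
    have h1 : 0 < 2 / (r : ℝ) := by positivity
    calc (1 - 2 / (r : ℝ) - ε) * (qq r * n) ≤ 1 * (qq r * n) :=
          mul_le_mul_of_nonneg_right (by linarith) hqn.le
      _ = _ := one_mul _
  have hDn : D ≤ n := by
    have : (D : ℝ) ≤ n := hDq.trans (by nlinarith)
    exact_mod_cast this
  set T : ℕ := (SimpleGraph.turanGraph n r).edgeSet.ncard with hT
  -- the comparison graph
  obtain ⟨-, -, a', hTg, hD1⟩ := hG n (by omega) D hR
  have hTg' := hTg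
  obtain ⟨g1, g2, g3, -⟩ := hTg'
  have g3' : ∑ t, a' t = D := by rw [g3]; omega
  have hσ0 : ∑ t : Fin r, (if t = ⟨0, by omega⟩ then n else 0) = n := by
    rw [Finset.sum_ite_eq' Finset.univ (⟨0, by omega⟩ : Fin r) (fun _ => n)]
    simp
  obtain ⟨d1, -, d3, -, -, d6⟩ := hDEV r n (fun t => if t = ⟨0, by omega⟩ then n else 0)
    (by omega) hσ0
  obtain ⟨k₀, H₀, f₀, w₀, hs₀, hnb₀, hbd₀, hm₀, hl₀, hin₀⟩ := TOPZ.member hDEV hFAMZ hMEMZ F r n D
    hr hgen (tz r n) a' ⟨0, by omega⟩ ⟨1, by omega⟩ (by simp [Fin.ext_iff]) (g1 _ (by simp))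
    (g1 _ (by simp)) (fun t => (g2 t).1) (fun t => (g2 t).2) d1 rfl g3'
  have hk₀ : 2 * qq r * H₀.edgeSet.ncard - lam H₀ ^ 2 ≤ Kap r (tz r n) a' + ε1 := by
    have := hU (Fin k₀) H₀ f₀ w₀ n (by omega) hbd₀
    unfold Cst at this
    rw [hs₀, hnb₀, hm₀, hl₀] at this
    push_cast at this
    linarith
  have hKap : Kap r (tz r n) a' ≤ 2 * D * (qq r - D / n) + CK := by
    have h1 := hK n (by omega) D (tz r n) a' d1 d3 (fun t => (g2 t).2) hDn (by
      have : (∑ t, (a' t : ℝ)) = D := by exact_mod_cast g3'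
      rw [this, sub_self, abs_zero]
      positivity)
    have h3 := (abs_le.1 h1).2
    linarith
  refine ⟨?_, ?_⟩
  · obtain ⟨k, G, hG1, hG2⟩ := hMAXE W F r (T + D) ⟨Fin k₀, inferInstance, H₀, hin₀⟩
    exact ⟨k, G, hG1, hG2⟩
  · intro V _ G hMx
    obtain ⟨hIn, hmax⟩ := hMx
    have hsize : G.edgeSet.ncard = T + D := hIn.size
    have hsize₀ : H₀.edgeSet.ncard = T + D := hin₀.size
    have hlam₀ : 0 ≤ lam H₀ := by
      have : Nonempty (Fin k₀) := ⟨w₀⟩
      exact (hP (Fin k₀) H₀).1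
    have hle₀ := hmax (Fin k₀) H₀ hin₀
    have hκ : 2 * qq r * G.edgeSet.ncard - lam G ^ 2 ≤ Kap r (tz r n) a' + ε1 := by
      have h1 : lam H₀ ^ 2 ≤ lam G ^ 2 := pow_le_pow_left₀ hlam₀ hle₀ 2
      rw [hsize]
      rw [hsize₀] at hk₀
      linarith
    obtain ⟨z, g, w, hStr⟩ := hS n (by omega) D hlow hupp V G hIn.free hsize (by linarith)
    obtain ⟨hflat, htot, hbnd⟩ := hStr
    have hLB := hL V G z g w n (by omega) ⟨hflat, htot, hbnd⟩
    have hgw : g w = none := hflat.exc w (Finset.mem_singleton_self w)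
    have hind : Indep G g := hflat.indep
    set σ : Fin r → ℕ := siz g with hσ
    set a : Fin r → ℕ := nbn G g w with ha
    set α : ℕ := (missSet G g).ncard with hα
    set b : ℕ := (lightSet G g {w}).ncard with hb
    have hdevσ0 : 0 ≤ dev σ := by unfold dev; positivity
    have hαb : α + b ≤ N := by
      have : (α : ℝ) + b ≤ N := by linarith
      exact_mod_cast this
    have hdevσ : dev σ ≤ N := by
      have h1 : (0 : ℝ) ≤ α := Nat.cast_nonneg _
      have h2 : (0 : ℝ) ≤ b := Nat.cast_nonneg _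
      linarith
    have haσ : ∀ t, a t ≤ σ t := fun t => TOP1.nbn_le G g w t
    have htotr : (∑ s, (σ s : ℝ)) = n := by exact_mod_cast htot
    have hσ2 : ∀ t, M + 1 ≤ σ t := by
      intro t
      have h1 := TOP1.abs_dev σ (N + 1) (by
        have : (0 : ℝ) ≤ N := Nat.cast_nonneg _
        linarith) (by linarith) t
      rw [htotr] at h1
      have h2 := (abs_le.1 h1).1
      have h3 : (N : ℝ) + M + 3 ≤ (n : ℝ) / r := by
        rw [le_div_iff₀ (by linarith)]
        have : (N + M + 3) * r ≤ n := by nlinarith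
        exact_mod_cast this
      have h4 : (M : ℝ) + 1 ≤ σ t := by linarith
      exact_mod_cast h4
    -- the number of edges
    have hrel : 2 * D + 2 * α + ∑ t, σ t ^ 2 = ∑ t, tz r n t ^ 2 + 2 * ∑ t, a t + 2 * b := by
      obtain ⟨e, he, hcnt⟩ := hCNTU r V G g {w} hind (by
        intro v hv
        rw [Finset.mem_singleton] at hv
        rw [hv]; exact hgw)
      rw [Finset.card_singleton] at he
      rw [Finset.sum_singleton, hsize, htot] at hcnt
      unfold Sz at d6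
      rw [d1] at d6
      have he0 : e = 0 := by omega
      rw [he0] at hcnt
      have hcnt' : 2 * (T + D) + 2 * α + ∑ t, σ t ^ 2 = n ^ 2 + 2 * ∑ t, a t + 2 * 0 + 2 * b := hcnt
      omega
    have hal1 : α = 0 ∧ b = 0 := by
      by_contra hcon
      have h1 := hJ n (by omega) D hR σ a a' α b htot hdevσ haσ hαb hrel hcon hTg hD1
      linarith
    obtain ⟨hα1, hb0⟩ := hal1
    have hTy : Ty0 G g w := TOPZ.ty0_of G g w hind hgw hα1 hb0 hIn.noIso
    have hpos : ∀ t, 1 ≤ nbn G g w t := by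
      obtain ⟨h1, -, -⟩ := hMEMZ r V G g w hr hTy (fun t => (by omega : 1 ≤ M + 1).trans (hσ2 t))
      intro t
      by_contra hcon
      exact hIn.notPartite (h1.2 ⟨t, by omega⟩)
    obtain ⟨i, j, hij, hi, hj⟩ := hEMBZ W F r hr hcrit V G g w hTy hIn.free hσ2 hpos
    rw [hα1, hb0] at hrel hLB
    -- balanced classes
    have hsq : ∑ t, σ t ^ 2 ≤ ∑ t, tz r n t ^ 2 := by
      by_contra hcon
      push Not at hcon
      have hdiff : (∑ t, (σ t : ℝ) ^ 2) - ∑ t, (tz r n t : ℝ) ^ 2 ≤ N := by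
        obtain ⟨-, -, -, e4, -, -⟩ := hDEV r n σ (by omega) htot
        obtain ⟨-, -, -, e4', -, -⟩ := hDEV r n (tz r n) (by omega) d1
        have h0 : 0 ≤ dev (tz r n) := by unfold dev; positivity
        linarith
      have hrelr : 2 * (D : ℝ) + ∑ t, (σ t : ℝ) ^ 2 =
          ∑ t, (tz r n t : ℝ) ^ 2 + 2 * ∑ t, (a t : ℝ) := by
        have h1 : 2 * D + ∑ t, σ t ^ 2 = ∑ t, tz r n t ^ 2 + 2 * ∑ t, a t := by omega
        exact_mod_cast h1
      have hconr : ∑ t, (tz r n t : ℝ) ^ 2 < ∑ t, (σ t : ℝ) ^ 2 := by exact_mod_cast hcon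
      have hN0 : (0 : ℝ) ≤ N := Nat.cast_nonneg _
      have hM0 : (0 : ℝ) ≤ M := Nat.cast_nonneg _
      have hsumr : |(∑ t, (a t : ℝ)) - D| ≤ ((N + M + r : ℕ) : ℝ) := by
        rw [abs_le]
        push_cast
        constructor <;> linarith
      obtain ⟨π, a'', k1, k2, k3, k4, k5, k6⟩ := hB n (by omega) D hR σ a i j hij htot (by
          push_cast; linarith) haσ (le_trans hi (by omega)) (le_trans hj (by omega)) hsumr hcon
      have hsq' : ∑ t, (tz r n (π t)) ^ 2 = ∑ t, tz r n t ^ 2 :=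
        Equiv.sum_comp π (fun t => tz r n t ^ 2)
      have hsum' : ∑ t, tz r n (π t) = n := by
        rw [Equiv.sum_comp π (fun t => tz r n t)]; exact d1
      obtain ⟨k, H, f, w', hs, hnb, hbd, hm, hl, hin⟩ := TOPZ.member hDEV hFAMZ hMEMZ F r n D hr
        hgen (fun t => tz r n (π t)) a'' i j hij k1 k2 k3 k4 hsum' hsq' (by omega)
      have h1 := hU (Fin k) H f w' n (by omega) hbd
      unfold Cst at h1
      rw [hs, hnb, hm, hl] at h1
      have h2 : H.edgeSet.ncard = T + D := hin.size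
      have h3 := hmax (Fin k) H hin
      have h4 : 0 ≤ lam H := by
        have : Nonempty (Fin k) := ⟨w'⟩
        exact (hP (Fin k) H).1
      have h5 : lam H ^ 2 ≤ lam G ^ 2 := pow_le_pow_left₀ h4 h3 2
      rw [h2] at h1
      rw [hsize] at hLB
      push_cast at hLB h1
      linarith
    obtain ⟨-, e2, -, -, e5, -⟩ := hDEV r n σ (by omega) htot
    obtain ⟨π, hπ⟩ := e5 (le_antisymm hsq e2)
    refine ⟨g, w, hTy, ⟨?_, htot⟩, ?_, hpos⟩
    · intro t
      have h1 : siz g t = tz r n (π t) := hπ t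
      rw [h1]
      unfold tz
      split_ifs <;> omega
    · have h1 : ∑ t, σ t ^ 2 = ∑ t, tz r n t ^ 2 := le_antisymm hsq e2
      have h2 : ∑ t, a t = D := by omega
      exact h2

end MP0c3a8f
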