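import Pool.Agent.Work.MP_0c3a8f_co.Bd.B27
import Pool.Agent.Work.MP_0c3a8f_co.Bd.B20
import Pool.Agent.Work.MP_0c3a8f_co.Bd.B24
import Pool.Agent.Work.MP_0c3a8f_co.Bd.B10
import Pool.Agent.Work.MP_0c3a8f_co.Bd.B25
import Pool.Agent.Work.MP_0c3a8f_co.Bd.B23
import Pool.Agent.Work.MP_0c3a8f_co.Bd.B17
import Pool.Agent.Work.MP_0c3a8f_co.Bd.B13
import Pool.Agent.Work.MP_0c3a8f_co.Bd.B22
import Pool.Agent.Work.MP_0c3a8f_co.Bd.B21
import Pool.Agent.Work.MP_0c3a8f_co.Bd.B19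

/-!
# MP_0c3a8f_co: all items of the part PB10 (`F = K_{r+1}`, all sizes) together
-/

namespace MP0c3a8f

theorem bCSB : CSB_statement := prfCSB bBDU bSEC prfCNTU prfDEV
theorem bJFT : JFT_statement := prfJFT prfEXP prfDEV
theorem bJBT : JBT_statement := prfJBT prfEXP prfDEV
theorem bTPT : TPT_statement :=
  prfTPT prfP prfDEV prfCNTU bCSB bJFT bJBT prfGRT prfFAM1 bMEM1 bCLA prfCLB
theorem bQEL : QEL_statement := prfQEL prfP bFLB prfTCG bMVE bMEM1
theorem bTVQ : TVQ_statement := prfTVQ prfP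
theorem bORQ : ORQ_statement := prfORQ prfP bFLB prfTCG bTVQ
theorem bFIT : FIT_statement := prfFIT prfP bTPT bQEL bORQ prfFAM1 bMEM1 prfREL
theorem bUNP : UNP_statement := prfUNP prfMEMP bTIP prfGVG
theorem bUNQ : UNQ_statement := prfUNQ bMEM1 prfREL prfISO1 prfGVH
theorem bUNR : UNR_statement := prfUNR bMEM2 prfREL bTI2 prfGVH
theorem bYCV : YCV_statement := prfYCV prfDEV bMEM1 bMEM2
theorem bYIN : YIN_statement := prfYIN prfMEMP bMEM1 bMEM2
theorem bYNL : YNL_statement := prfYNL bCAB bPST bPEV bQST bQEV bRST bRII bREV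
theorem bYNB : YNB_statement := prfYNB bCAB bPSN bPEK bQSU bQEV bRST bRIK bREV
theorem bSDX : SDX_statement := prfSDX prfDEV prfCNTU bRSS bRSE bMEM2 prfREL
theorem bYAB : YAB_statement := prfYAB bNLV bYNL bYNB
theorem bYRA : YRA_statement := prfYRA prfKCC prfCRT bFNS bAIK bYNB bSDX
theorem bYRC : YRC_statement := prfYRC prfKCC prfCRT prfTURN bFNT bFIT bYAB
theorem bYRD : YRD_statement := prfYRD prfKCC prfCRT bFNU bYAB
theorem bPCK : PCK_statement := prfPCK prfTURN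
theorem bFINE : FINE_statement :=
  prfFINE prfP bFINA prfKCC prfCRT bFIN3 bYCV bYIN bUNR bYRA bYRC bYRD bPCK

end MP0c3a8f
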