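import Pool.Agent.Work.MP_0c3a8f_co.PB.Stmts11

/-!
# Item RSZ: changing the sizes of the parts and the numbers of the neighbours of `w`
-/

set_option autoImplicit false

namespace MP0c3a8f

namespace RSZx

open Finset

/-! ### General facts -/

theorem encard_le {α β : Type} [Finite α] [Finite β] {s : Set α} {t : Set β}
    (h : s.ncard ≤ t.ncard) : s.encard ≤ t.encard := by
  rw [← (Set.toFinite s).cast_ncard_eq, ← (Set.toFinite t).cast_ncard_eq]
  exact_mod_cast h

/-- a map which is injective on `D`, with values in `T`, and in `T₁` on `D₁` -/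
theorem pick {α β : Type} [Finite α] [Finite β] [Nonempty β] (D D₁ : Set α) (T T₁ : Set β)
    (hD : D₁ ⊆ D) (hT : T₁ ⊆ T) (h₁ : D₁.ncard ≤ T₁.ncard) (h : D.ncard ≤ T.ncard) :
    ∃ f : α → β, Set.InjOn f D ∧ (∀ x ∈ D, f x ∈ T) ∧ ∀ x ∈ D₁, f x ∈ T₁ := by
  classical
  obtain ⟨f, hf, hfi⟩ := (Set.toFinite D₁).exists_injOn_of_encard_le (encard_le h₁)
  have hfT : f '' D₁ ⊆ T := by
    rintro _ ⟨x, hx, rfl⟩
    exact hT (hf hx)
  have h2 : (D \ D₁).ncard ≤ (T \ f '' D₁).ncard := by
    rw [Set.ncard_sdiff hD (Set.toFinite _), Set.ncard_sdiff hfT (Set.toFinite _),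
      hfi.ncard_image]
    omega
  obtain ⟨f', hf', hfi'⟩ := (Set.toFinite (D \ D₁)).exists_injOn_of_encard_le (encard_le h2)
  refine ⟨fun x => if x ∈ D₁ then f x else f' x, ?_, ?_, ?_⟩
  · intro x hx y hy hxy
    by_cases hx1 : x ∈ D₁ <;> by_cases hy1 : y ∈ D₁
    · simp only [if_pos hx1, if_pos hy1] at hxy
      exact hfi hx1 hy1 hxy
    · simp only [if_pos hx1, if_neg hy1] at hxy
      exact absurd ⟨x, hx1, hxy⟩ (hf' ⟨hy, hy1⟩).2
    · simp only [if_neg hx1, if_pos hy1] at hxy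
      exact absurd ⟨y, hy1, hxy.symm⟩ (hf' ⟨hx, hx1⟩).2
    · simp only [if_neg hx1, if_neg hy1] at hxy
      exact hfi' ⟨hx, hx1⟩ ⟨hy, hy1⟩ hxy
  · intro x hx
    by_cases hx1 : x ∈ D₁
    · simp only [if_pos hx1]
      exact hT (hf hx1)
    · simp only [if_neg hx1]
      exact (hf' ⟨hx, hx1⟩).1
  · intro x hx
    simp only [if_pos hx]
    exact hf hx

/-- transport to `Fin k` -/
theorem transport {V W : Type} [Finite V] {r : ℕ} (F : SimpleGraph W) (G : SimpleGraph V)
    (g : V → Option (Fin r)) (w : V) (hF : F.Free G) (hc : ¬ G.Colorable r)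
    (hi : ∀ v, ∃ u, G.Adj v u) (hI : Indep G g) (hw : g w = none) :
    ∃ (k : ℕ) (G' : SimpleGraph (Fin k)) (g' : Fin k → Option (Fin r)) (w' : Fin k),
      F.Free G' ∧ ¬ G'.Colorable r ∧ (∀ v, ∃ u, G'.Adj v u) ∧ Indep G' g' ∧ g' w' = none ∧
      (missSet G' g').ncard = (missSet G g).ncard ∧
      (lightSet G' g' {w'}).ncard = (lightSet G g {w}).ncard ∧ (∀ t, siz g' t = siz g t) ∧
      ∀ t, nbn G' g' w' t = nbn G g w t := by
  obtain ⟨k, ⟨e⟩⟩ := Finite.exists_equiv_fin V
  have hs : Function.Injective (Sym2.map e) := Sym2.map.injective e.injective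
  let i : G.comap e.symm ≃g G := ⟨e.symm, Iff.rfl⟩
  have hadj : ∀ u v, (G.comap e.symm).Adj (e u) (e v) ↔ G.Adj u v := by
    intro u v
    simp
  refine ⟨k, G.comap e.symm, fun x => g (e.symm x), e w, ?_, ?_, ?_, ?_, ?_, ?_, ?_, ?_, ?_⟩
  · exact fun h => hF (h.trans i.isContained)
  · exact fun h => hc (h.of_hom i.symm.toHom)
  · intro v
    obtain ⟨u, hu⟩ := hi (e.symm v)
    exact ⟨e u, by simpa using hu⟩
  · intro u v hu huv h
    exact hI _ _ hu huv h
  · simpa using hw
  · have e1 : missSet (G.comap e.symm) (fun x => g (e.symm x)) = Sym2.map e '' missSet G g := by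
      ext z
      constructor
      · rintro ⟨u, v, rfl, hu, hv, huv, hn⟩
        exact ⟨s(e.symm u, e.symm v), ⟨_, _, rfl, hu, hv, huv, hn⟩, by simp⟩
      · rintro ⟨_, ⟨u, v, rfl, hu, hv, huv, hn⟩, rfl⟩
        refine ⟨e u, e v, rfl, ?_, ?_, ?_, ?_⟩
        · simpa using hu
        · simpa using hv
        · simpa using huv
        · rw [hadj]
          exact hn
    rw [e1, Set.ncard_image_of_injective _ hs]
  · have e1 : lightSet (G.comap e.symm) (fun x => g (e.symm x)) {e w} =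
        Sym2.map e '' lightSet G g {w} := by
      ext z
      constructor
      · rintro ⟨hz, x, hx, hxn, hxw⟩
        induction z using Sym2.ind with
        | _ u v =>
          refine ⟨s(e.symm u, e.symm v), ⟨hz, e.symm x, ?_, hxn, ?_⟩, by simp⟩
          · rcases Sym2.mem_iff.1 hx with h | h
            · rw [h]
              exact Sym2.mem_mk_left _ _
            · rw [h]
              exact Sym2.mem_mk_right _ _
          · intro h
            rw [Finset.mem_singleton] at h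
            exact hxw (by rw [Finset.mem_singleton, ← h]; simp)
      · rintro ⟨z, ⟨hz, x, hx, hxn, hxw⟩, rfl⟩
        induction z using Sym2.ind with
        | _ u v =>
          refine ⟨(hadj u v).2 hz, e x, ?_, by simpa using hxn, ?_⟩
          · exact Sym2.mem_map.2 ⟨x, hx, rfl⟩
          · intro h
            rw [Finset.mem_singleton] at h
            exact hxw (Finset.mem_singleton.2 (e.injective h))
    rw [e1, Set.ncard_image_of_injective _ hs]
  · intro t
    unfold siz
    have e1 : {v | g (e.symm v) = some t} = e '' {v | g v = some t} := by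
      ext x
      constructor
      · intro hx
        exact ⟨e.symm x, hx, by simp⟩
      · rintro ⟨v, hv, rfl⟩
        simpa using hv
    rw [e1, Set.ncard_image_of_injective _ e.injective]
  · intro t
    unfold nbn
    have e1 : {v | g (e.symm v) = some t ∧ (G.comap e.symm).Adj (e w) v} =
        e '' {v | g v = some t ∧ G.Adj w v} := by
      ext x
      constructor
      · intro hx
        refine ⟨e.symm x, ⟨hx.1, ?_⟩, by simp⟩
        have := hx.2
        simpa using this
      · rintro ⟨v, hv, rfl⟩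
        refine ⟨?_, ?_⟩
        · simpa using hv.1
        · simpa using hv.2
    rw [e1, Set.ncard_image_of_injective _ e.injective]

/-- the number of the vertices which are not clean -/
theorem bad_card {V : Type} [Fintype V] {r n N : ℕ} {G : SimpleGraph V}
    {g : V → Option (Fin r)} {w : V} (h : Bd n N G g w) :
    {v | g v ≠ none ∧ ¬ Cln G g w v}.ncard ≤ 2 * N := by
  have h1 : {v | g v ≠ none ∧ ¬ Cln G g w v} ⊆
      {v | ∃ e ∈ missSet G g ∪ lightSet G g {w}, v ∈ e} := by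
    rintro v ⟨hv, hn⟩
    have hvw : v ≠ w := fun h' => hv (h' ▸ h.out)
    by_cases h2 : ∀ u, u ≠ w → g u ≠ none → g u ≠ g v → G.Adj v u
    · have h3 : ∃ u, u ≠ w ∧ g u = none ∧ G.Adj v u := by
        by_contra hc
        push Not at hc
        exact hn ⟨hvw, hv, h2, hc⟩
      obtain ⟨u, hu, hun, huv⟩ := h3
      exact ⟨s(v, u), Or.inr ⟨huv, u, Sym2.mem_mk_right _ _, hun, by simpa using hu⟩,
        Sym2.mem_mk_left _ _⟩
    · push Not at h2
      obtain ⟨u, hu, hun, huv, hnadj⟩ := h2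
      exact ⟨s(v, u), Or.inl ⟨v, u, rfl, hv, hun, huv.symm, hnadj⟩, Sym2.mem_mk_left _ _⟩
  have h2 : {v | ∃ e ∈ missSet G g ∪ lightSet G g {w}, v ∈ e}.ncard ≤
      2 * (missSet G g ∪ lightSet G g {w}).ncard := by
    classical
    set E := missSet G g ∪ lightSet G g {w}
    have hfin : E.Finite := Set.toFinite E
    have hsub : {v : V | ∃ e ∈ E, v ∈ e} =
        ((hfin.toFinset.biUnion fun e => e.toFinset : Finset V) : Set V) := by
      ext v
      simp only [Finset.mem_coe, Finset.mem_biUnion, Set.Finite.mem_toFinset, Sym2.mem_toFinset,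
        Set.mem_ofPred_eq]
    rw [hsub, Set.ncard_coe_finset, Set.ncard_eq_toFinset_card E hfin, mul_comm]
    apply Finset.card_biUnion_le_card_mul
    intro e _
    rw [Sym2.card_toFinset]
    split_ifs <;> omega
  have h3 : (missSet G g).ncard + (lightSet G g {w}).ncard ≤ N := by
    have h4 := h.bnd
    have h5 : 0 ≤ dev (siz g) := by
      unfold dev
      positivity
    have h6 : ((missSet G g).ncard : ℝ) + ((lightSet G g {w}).ncard : ℝ) ≤ N := by linarith
    exact_mod_cast h6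
  have h4 := Set.ncard_union_le (missSet G g) (lightSet G g {w})
  have h5 := Set.ncard_le_ncard h1 (Set.toFinite _)
  omega

/-! ### The new graph -/

/-- adjacency -/
def rel {V : Type} {r : ℕ} (G : SimpleGraph V) (g : V → Option (Fin r)) (w : V)
    (x ρ : Fin r → ℕ) : ({v : V // ¬ Cln G g w v} ⊕ (Σ t : Fin r, Fin (ρ t))) →
    ({v : V // ¬ Cln G g w v} ⊕ (Σ t : Fin r, Fin (ρ t))) → Prop
  | Sum.inl u, Sum.inl v => G.Adj u.1 v.1
  | Sum.inl u, Sum.inr q => (g u.1 ≠ none ∧ g u.1 ≠ some q.1) ∨ (u.1 = w ∧ q.2.val < x q.1)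
  | Sum.inr q, Sum.inl u => (g u.1 ≠ none ∧ g u.1 ≠ some q.1) ∨ (u.1 = w ∧ q.2.val < x q.1)
  | Sum.inr q, Sum.inr q' => q.1 ≠ q'.1

/-- the graph -/
def gr {V : Type} {r : ℕ} (G : SimpleGraph V) (g : V → Option (Fin r)) (w : V)
    (x ρ : Fin r → ℕ) : SimpleGraph ({v : V // ¬ Cln G g w v} ⊕ (Σ t : Fin r, Fin (ρ t))) where
  Adj := rel G g w x ρ
  symm := ⟨fun p q h => by
    rcases p with u | q' <;> rcases q with v | q''
    · exact SimpleGraph.Adj.symm (G := G) h
    · exact h
    · exact h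
    · exact Ne.symm h⟩
  loopless := ⟨fun p h => by
    rcases p with u | q'
    · exact G.loopless.irrefl _ h
    · exact h rfl⟩

/-- the classes -/
def clz {V : Type} {r : ℕ} (G : SimpleGraph V) (g : V → Option (Fin r)) (w : V)
    (ρ : Fin r → ℕ) : ({v : V // ¬ Cln G g w v} ⊕ (Σ t : Fin r, Fin (ρ t))) → Option (Fin r)
  | Sum.inl u => g u.1
  | Sum.inr q => some q.1

section

variable {V W : Type} [Fintype V] [Fintype W] {r : ℕ} {F : SimpleGraph W} {G : SimpleGraph V}
  {g : V → Option (Fin r)} {w : V} {x ρ : Fin r → ℕ}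

theorem free (hF : F.Free G) (hw : g w = none)
    (h1 : ∀ t k, k ≤ x t → k ≤ Fintype.card W →
      k ≤ {v | g v = some t ∧ G.Adj w v ∧ Cln G g w v}.ncard)
    (h2 : ∀ t, Fintype.card W ≤ {v | g v = some t ∧ Cln G g w v}.ncard) :
    F.Free (gr G g w x ρ) := by
  classical
  rintro ⟨φ⟩
  have hφ : Function.Injective (fun y => φ y) := φ.injective
  have : Nonempty V := ⟨w⟩
  have hp : ∀ t : Fin r, ∃ f : W → V, Set.InjOn f {y | ∃ j, φ y = Sum.inr ⟨t, j⟩} ∧
      (∀ y ∈ {y | ∃ j, φ y = Sum.inr ⟨t, j⟩}, f y ∈ {v | g v = some t ∧ Cln G g w v}) ∧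
      ∀ y ∈ {y | ∃ j : Fin (ρ t), φ y = Sum.inr ⟨t, j⟩ ∧ j.val < x t},
        f y ∈ {v | g v = some t ∧ G.Adj w v ∧ Cln G g w v} := by
    intro t
    refine pick _ _ _ _ ?_ ?_ ?_ ?_
    · rintro y ⟨j, hj, -⟩
      exact ⟨j, hj⟩
    · rintro v ⟨hv, -, hc⟩
      exact ⟨hv, hc⟩
    · refine h1 t _ ?_ ?_
      · have h3 : (fun y => φ y) '' {y | ∃ j : Fin (ρ t), φ y = Sum.inr ⟨t, j⟩ ∧ j.val < x t} ⊆
            (fun j : Fin (ρ t) => (Sum.inr ⟨t, j⟩ : {v : V // ¬ Cln G g w v} ⊕
              (Σ t : Fin r, Fin (ρ t)))) '' {j | j.val < x t} := by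
          rintro _ ⟨y, ⟨j, hj, hjx⟩, rfl⟩
          exact ⟨j, hjx, hj.symm⟩
        have h4 := Set.ncard_le_ncard h3 (Set.toFinite _)
        rw [Set.ncard_image_of_injective _ hφ] at h4
        have h5 := Set.ncard_image_le (f := (fun j : Fin (ρ t) => (Sum.inr ⟨t, j⟩ :
          {v : V // ¬ Cln G g w v} ⊕ (Σ t : Fin r, Fin (ρ t))))) (s := {j | j.val < x t})
          (Set.toFinite _)
        have h6 : {j : Fin (ρ t) | j.val < x t}.ncard ≤ x t := by
          have h7 : (fun j : Fin (ρ t) => j.val) '' {j : Fin (ρ t) | j.val < x t} ⊆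
              (Finset.range (x t) : Set ℕ) := by
            rintro _ ⟨j, hj, rfl⟩
            exact Finset.mem_coe.2 (Finset.mem_range.2 hj)
          have h8 := Set.ncard_le_ncard h7 (Finset.finite_toSet _)
          rw [Set.ncard_coe_finset, Finset.card_range,
            Set.ncard_image_of_injective _ Fin.val_injective] at h8
          exact h8
        omega
      · rw [← Nat.card_eq_fintype_card]
        exact Set.ncard_le_card _
    · refine le_trans ?_ (h2 t)
      rw [← Nat.card_eq_fintype_card]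
      exact Set.ncard_le_card _
  choose f hf1 hf2 hf3 using hp
  let ψ : W → V := fun y => Sum.elim (fun u => u.1) (fun q => f q.1 y) (φ y)
  have hl : ∀ y u, φ y = Sum.inl u → ψ y = u.1 := by
    intro y u h
    simp only [ψ, h, Sum.elim_inl]
  have hr : ∀ y q, φ y = Sum.inr q → ψ y = f q.1 y := by
    intro y q h
    simp only [ψ, h, Sum.elim_inr]
  have hc : ∀ y q, φ y = Sum.inr q → g (f q.1 y) = some q.1 ∧ Cln G g w (f q.1 y) := by
    intro y q h
    exact hf2 q.1 y ⟨q.2, h⟩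
  have hinj : Function.Injective ψ := by
    intro y z hyz
    rcases hy : φ y with u | q <;> rcases hz : φ z with v | q'
    · rw [hl y u hy, hl z v hz] at hyz
      refine hφ ?_
      change φ y = φ z
      rw [hy, hz, Subtype.ext hyz]
    · rw [hl y u hy, hr z q' hz] at hyz
      exact absurd (hyz ▸ (hc z q' hz).2) u.2
    · rw [hr y q hy, hl z v hz] at hyz
      exact absurd (hyz ▸ (hc y q hy).2) v.2
    · rw [hr y q hy, hr z q' hz] at hyz
      have h3 : q.1 = q'.1 := by
        have h4 := (hc y q hy).1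
        rw [hyz, (hc z q' hz).1] at h4
        exact (Option.some_injective _ h4).symm
      obtain ⟨t, j⟩ := q
      obtain ⟨t', j'⟩ := q'
      simp only at h3
      subst h3
      exact hf1 t ⟨j, hy⟩ ⟨j', hz⟩ hyz
  have hcross : ∀ y z u q, φ y = Sum.inl u → φ z = Sum.inr q → (gr G g w x ρ).Adj (φ y) (φ z) →
      G.Adj (ψ y) (ψ z) := by
    intro y z u q hy hz h
    rw [hy, hz] at h
    rw [hl y u hy, hr z q hz]
    have h3 : (g u.1 ≠ none ∧ g u.1 ≠ some q.1) ∨ (u.1 = w ∧ q.2.val < x q.1) := h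
    rcases h3 with h3 | h3
    · have h4 := (hc z q hz).2.2.2.1 u.1 (fun h' => h3.1 (by rw [h', hw])) h3.1
        (by rw [(hc z q hz).1]; exact h3.2)
      exact h4.symm
    · have h4 := hf3 q.1 z ⟨q.2, hz, h3.2⟩
      rw [h3.1]
      exact h4.2.1
  refine hF ⟨⟨⟨ψ, ?_⟩, hinj⟩⟩
  intro y z hyz
  have hadj : (gr G g w x ρ).Adj (φ y) (φ z) := φ.toHom.map_adj hyz
  rcases hy : φ y with u | q <;> rcases hz : φ z with v | q'
  · rw [hy, hz] at hadj
    rw [hl y u hy, hl z v hz]
    exact hadj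
  · exact hcross y z u q' hy hz hadj
  · exact (hcross z y v q hz hy hadj.symm).symm
  · rw [hy, hz] at hadj
    rw [hr y q hy, hr z q' hz]
    have h3 : q.1 ≠ q'.1 := hadj
    refine (hc y q hy).2.2.2.1 _ (hc z q' hz).2.1 (hc z q' hz).2.2.1 ?_
    rw [(hc y q hy).1, (hc z q' hz).1]
    exact fun h' => h3 (Option.some_injective _ h').symm

theorem notCol (hG : ¬ G.Colorable r) (hI : Indep G g) (hw : g w = none)
    (h1 : ∀ t v, g v = some t → G.Adj w v → Cln G g w v → 1 ≤ x t) (h2 : ∀ t, 1 ≤ ρ t) :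
    ¬ (gr G g w x ρ).Colorable r := by
  classical
  rintro ⟨c⟩
  apply hG
  -- the class of a clean vertex
  let T : V → Fin r → Prop := fun v t => g v = some t
  let nv : Fin r → ({v : V // ¬ Cln G g w v} ⊕ (Σ t : Fin r, Fin (ρ t))) :=
    fun t => Sum.inr ⟨t, ⟨0, h2 t⟩⟩
  let im : V → ({v : V // ¬ Cln G g w v} ⊕ (Σ t : Fin r, Fin (ρ t))) := fun v =>
    if h : Cln G g w v then nv ((g v).get (Option.isSome_iff_ne_none.2 h.2.1))
    else Sum.inl ⟨v, h⟩
  have him : ∀ v t, Cln G g w v → g v = some t → im v = nv t := by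
    intro v t hv ht
    simp only [im, dif_pos hv]
    congr 1
    simp [ht]
  have him' : ∀ v (h : ¬ Cln G g w v), im v = Sum.inl ⟨v, h⟩ := by
    intro v hv
    simp only [im, dif_neg hv]
  have hcross : ∀ u v, Cln G g w u → ¬ Cln G g w v → G.Adj u v →
      (gr G g w x ρ).Adj (im u) (im v) := by
    intro u v hu hv huv
    obtain ⟨t, ht⟩ := Option.ne_none_iff_exists'.1 hu.2.1
    rw [him u t hu ht, him' v hv]
    by_cases hvw : v = w
    · subst hvw
      exact Or.inr ⟨rfl, h1 t u ht huv.symm hu⟩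
    · refine Or.inl ⟨fun hn => hu.2.2.2 v hvw hn huv, fun hn => ?_⟩
      exact hI u v hu.2.1 (ht.trans hn.symm) huv
  refine ⟨SimpleGraph.Coloring.mk (fun v => c (im v)) ?_⟩
  intro u v huv
  refine c.valid ?_
  by_cases hu : Cln G g w u <;> by_cases hv : Cln G g w v
  · obtain ⟨t, ht⟩ := Option.ne_none_iff_exists'.1 hu.2.1
    obtain ⟨s, hs⟩ := Option.ne_none_iff_exists'.1 hv.2.1
    rw [him u t hu ht, him v s hv hs]
    intro hts
    have hts' : t = s := hts
    exact hI u v hu.2.1 (by rw [ht, hs, hts']) huv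
  · exact hcross u v hu hv huv
  · exact (hcross v u hv hu huv.symm).symm
  · rw [him' u hu, him' v hv]
    exact huv

theorem noIso (hG : ∀ v, ∃ u, G.Adj v u) (hr : 3 ≤ r)
    (h1 : ∀ t v, g v = some t → G.Adj w v → Cln G g w v → 1 ≤ x t) (h2 : ∀ t, 1 ≤ ρ t) :
    ∀ p, ∃ q, (gr G g w x ρ).Adj p q := by
  have hne : ∀ t : Fin r, ∃ s, s ≠ t := by
    intro t
    by_cases ht : t.val = 0
    · exact ⟨⟨1, by omega⟩, fun h => by rw [← h] at ht; simp at ht⟩
    · exact ⟨⟨0, by omega⟩, fun h => ht (by rw [← h])⟩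
  intro p
  rcases p with v | ⟨t, j⟩
  · rcases hg : g v.1 with _ | t
    · by_cases hvw : v.1 = w
      · obtain ⟨u, hu⟩ := hG w
        by_cases hc : Cln G g w u
        · obtain ⟨t, ht⟩ := Option.ne_none_iff_exists'.1 hc.2.1
          exact ⟨Sum.inr ⟨t, ⟨0, h2 t⟩⟩, Or.inr ⟨hvw, h1 t u ht hu hc⟩⟩
        · refine ⟨Sum.inl ⟨u, hc⟩, ?_⟩
          change G.Adj v.1 u
          rw [hvw]
          exact hu
      · obtain ⟨u, hu⟩ := hG v.1
        by_cases hc : Cln G g w u
        · exact absurd hu.symm (hc.2.2.2 v.1 hvw hg)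
        · exact ⟨Sum.inl ⟨u, hc⟩, hu⟩
    · obtain ⟨s, hs⟩ := hne t
      refine ⟨Sum.inr ⟨s, ⟨0, h2 s⟩⟩, Or.inl ⟨by rw [hg]; exact Option.some_ne_none _, ?_⟩⟩
      rw [hg]
      exact fun h => hs (Option.some_injective _ h).symm
  · obtain ⟨s, hs⟩ := hne t
    exact ⟨Sum.inr ⟨s, ⟨0, h2 s⟩⟩, hs.symm⟩

theorem indep (hI : Indep G g) (hw : g w = none) : Indep (gr G g w x ρ) (clz G g w ρ) := by
  intro p q hp hpq h
  rcases p with u | ⟨t, j⟩ <;> rcases q with v | ⟨s, i⟩
  · exact hI u.1 v.1 hp hpq h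
  · have h3 : (g u.1 ≠ none ∧ g u.1 ≠ some s) ∨ (u.1 = w ∧ i.val < x s) := h
    have h4 : g u.1 = some s := hpq
    rcases h3 with h3 | h3
    · exact h3.2 h4
    · rw [h3.1, hw] at h4
      exact Option.some_ne_none _ h4.symm
  · have h3 : (g v.1 ≠ none ∧ g v.1 ≠ some t) ∨ (v.1 = w ∧ j.val < x t) := h
    have h4 : some t = g v.1 := hpq
    rcases h3 with h3 | h3
    · exact h3.2 h4.symm
    · rw [h3.1, hw] at h4
      exact Option.some_ne_none _ h4
  · have h3 : t ≠ s := h
    have h4 : some t = some s := hpq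
    exact h3 (Option.some_injective _ h4)

theorem inl_injective : Function.Injective (Sum.inl : {v : V // ¬ Cln G g w v} →
    ({v : V // ¬ Cln G g w v} ⊕ (Σ t : Fin r, Fin (ρ t)))) := Sum.inl_injective

theorem miss_card (hw : g w = none) :
    (missSet (gr G g w x ρ) (clz G g w ρ)).ncard = (missSet G g).ncard := by
  have e1 : missSet G g = Sym2.map Subtype.val ''
      missSet (G.comap (Subtype.val : {v : V // ¬ Cln G g w v} → V)) (fun v => g v.1) := by
    ext z
    constructor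
    · rintro ⟨u, v, rfl, hu, hv, huv, hn⟩
      have hu' : ¬ Cln G g w u := fun h =>
        hn (h.2.2.1 v (fun h' => hv (h' ▸ hw)) hv huv.symm)
      have hv' : ¬ Cln G g w v := fun h =>
        hn (h.2.2.1 u (fun h' => hu (h' ▸ hw)) hu huv).symm
      exact ⟨s(⟨u, hu'⟩, ⟨v, hv'⟩), ⟨_, _, rfl, hu, hv, huv, hn⟩, rfl⟩
    · rintro ⟨_, ⟨u, v, rfl, hu, hv, huv, hn⟩, rfl⟩
      exact ⟨u.1, v.1, rfl, hu, hv, huv, hn⟩
  have e2 : missSet (gr G g w x ρ) (clz G g w ρ) = Sym2.map Sum.inl ''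
      missSet (G.comap (Subtype.val : {v : V // ¬ Cln G g w v} → V)) (fun v => g v.1) := by
    ext z
    constructor
    · rintro ⟨p, q, rfl, hp, hq, hpq, hn⟩
      rcases p with u | ⟨t, j⟩ <;> rcases q with v | ⟨s, i⟩
      · exact ⟨s(u, v), ⟨_, _, rfl, hp, hq, hpq, hn⟩, rfl⟩
      · exact absurd (Or.inl ⟨hp, hpq⟩) hn
      · exact absurd (Or.inl ⟨hq, hpq.symm⟩) hn
      · refine absurd (?_ : t ≠ s) hn
        rintro rfl
        exact hpq rfl
    · rintro ⟨_, ⟨u, v, rfl, hu, hv, huv, hn⟩, rfl⟩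
      exact ⟨Sum.inl u, Sum.inl v, rfl, hu, hv, huv, hn⟩
  rw [e1, e2, Set.ncard_image_of_injective _ (Sym2.map.injective Sum.inl_injective),
    Set.ncard_image_of_injective _ (Sym2.map.injective Subtype.val_injective)]

theorem light_card (hw' : ¬ Cln G g w w) :
    (lightSet (gr G g w x ρ) (clz G g w ρ) {Sum.inl ⟨w, hw'⟩}).ncard =
      (lightSet G g {w}).ncard := by
  have e1 : lightSet G g {w} = Sym2.map Subtype.val ''
      {z : Sym2 {v : V // ¬ Cln G g w v} |
        z ∈ (G.comap (Subtype.val : {v : V // ¬ Cln G g w v} → V)).edgeSet ∧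
        ∃ v ∈ z, g v.1 = none ∧ v.1 ≠ w} := by
    ext z
    constructor
    · rintro ⟨hz, x, hx, hxn, hxw⟩
      rw [Finset.mem_singleton] at hxw
      induction z using Sym2.ind with
      | _ u v =>
        have huv : G.Adj u v := hz
        have key : ∀ a b, G.Adj a b → g b = none → b ≠ w → ¬ Cln G g w a ∧ ¬ Cln G g w b :=
          fun a b hab hb hbw => ⟨fun h => h.2.2.2 b hbw hb hab, fun h => h.2.1 hb⟩
        rcases Sym2.mem_iff.1 hx with h | h
        · subst h
          obtain ⟨h3, h4⟩ := key v x huv.symm hxn hxw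
          exact ⟨s(⟨x, h4⟩, ⟨v, h3⟩), ⟨huv, ⟨x, h4⟩, Sym2.mem_mk_left _ _, hxn, hxw⟩, rfl⟩
        · subst h
          obtain ⟨h3, h4⟩ := key u x huv hxn hxw
          exact ⟨s(⟨u, h3⟩, ⟨x, h4⟩), ⟨huv, ⟨x, h4⟩, Sym2.mem_mk_right _ _, hxn, hxw⟩, rfl⟩
    · rintro ⟨z, ⟨hz, x, hx, hxn, hxw⟩, rfl⟩
      induction z using Sym2.ind with
      | _ u v =>
        exact ⟨hz, x.1, Sym2.mem_map.2 ⟨x, hx, rfl⟩, hxn, by
          rw [Finset.mem_singleton]
          exact hxw⟩
  have e2 : lightSet (gr G g w x ρ) (clz G g w ρ) {Sum.inl ⟨w, hw'⟩} = Sym2.map Sum.inl ''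
      {z : Sym2 {v : V // ¬ Cln G g w v} |
        z ∈ (G.comap (Subtype.val : {v : V // ¬ Cln G g w v} → V)).edgeSet ∧
        ∃ v ∈ z, g v.1 = none ∧ v.1 ≠ w} := by
    ext z
    constructor
    · rintro ⟨hz, p, hp, hpn, hpw⟩
      rw [Finset.mem_singleton] at hpw
      induction z using Sym2.ind with
      | _ a b =>
        have hab : (gr G g w x ρ).Adj a b := hz
        rcases p with y | q
        swap
        · exact absurd hpn (Option.some_ne_none _)
        have hyn : g y.1 = none := hpn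
        have hyw : y.1 ≠ w := fun h => hpw (by
          rw [Sum.inl.injEq]
          exact Subtype.ext h)
        have key : ∀ b, (gr G g w x ρ).Adj (Sum.inl y) b → ∃ u, b = Sum.inl u := by
          intro b hb
          rcases b with u | q
          · exact ⟨u, rfl⟩
          · have h3 : (g y.1 ≠ none ∧ g y.1 ≠ some q.1) ∨ (y.1 = w ∧ q.2.val < x q.1) := hb
            rcases h3 with h3 | h3
            · exact absurd hyn h3.1
            · exact absurd h3.1 hyw
        rcases Sym2.mem_iff.1 hp with h | h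
        · subst h
          obtain ⟨u, rfl⟩ := key b hab
          exact ⟨s(y, u), ⟨hab, y, Sym2.mem_mk_left _ _, hyn, hyw⟩, rfl⟩
        · subst h
          obtain ⟨u, rfl⟩ := key a hab.symm
          exact ⟨s(u, y), ⟨hab, y, Sym2.mem_mk_right _ _, hyn, hyw⟩, rfl⟩
    · rintro ⟨z, ⟨hz, x, hx, hxn, hxw⟩, rfl⟩
      induction z using Sym2.ind with
      | _ u v =>
        refine ⟨hz, Sum.inl x, Sym2.mem_map.2 ⟨x, hx, rfl⟩, hxn, ?_⟩
        rw [Finset.mem_singleton, Sum.inl.injEq]
        exact fun h => hxw (congrArg Subtype.val h)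
  rw [e1, e2, Set.ncard_image_of_injective _ (Sym2.map.injective Sum.inl_injective),
    Set.ncard_image_of_injective _ (Sym2.map.injective Subtype.val_injective)]

theorem siz_cl (t : Fin r) :
    siz (clz G g w ρ) t = {v | g v = some t ∧ ¬ Cln G g w v}.ncard + ρ t := by
  unfold siz
  have e1 : {v | clz G g w ρ v = some t} =
      (Sum.inl '' {v : {v : V // ¬ Cln G g w v} | g v.1 = some t}) ∪
        (fun j : Fin (ρ t) => (Sum.inr ⟨t, j⟩ : {v : V // ¬ Cln G g w v} ⊕
          (Σ t : Fin r, Fin (ρ t)))) '' Set.univ := by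
    ext p
    constructor
    · intro hp
      rcases p with v | ⟨s, j⟩
      · exact Or.inl ⟨v, hp, rfl⟩
      · have hs : s = t := Option.some_injective _ hp
        subst hs
        exact Or.inr ⟨j, trivial, rfl⟩
    · rintro (⟨v, hv, rfl⟩ | ⟨j, -, rfl⟩)
      · exact hv
      · rfl
  have e2 : {v | g v = some t ∧ ¬ Cln G g w v} =
      Subtype.val '' {v : {v : V // ¬ Cln G g w v} | g v.1 = some t} := by
    ext v
    constructor
    · rintro ⟨h3, h4⟩
      exact ⟨⟨v, h4⟩, h3, rfl⟩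
    · rintro ⟨v, hv, rfl⟩
      exact ⟨hv, v.2⟩
  rw [e1, e2, Set.ncard_union_eq ?_ (Set.toFinite _) (Set.toFinite _),
    Set.ncard_image_of_injective _ Sum.inl_injective, Set.ncard_image_of_injective,
    Set.ncard_image_of_injective _ Subtype.val_injective, Set.ncard_univ, Nat.card_fin]
  · intro i j hij
    simpa using hij
  · rw [Set.disjoint_left]
    rintro _ ⟨v, -, rfl⟩ ⟨j, -, hj⟩
    exact Sum.inr_ne_inl hj

theorem nbn_gr (hw : g w = none) (hw' : ¬ Cln G g w w) (t : Fin r) (hx : x t ≤ ρ t) :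
    nbn (gr G g w x ρ) (clz G g w ρ) (Sum.inl ⟨w, hw'⟩) t =
      {v | g v = some t ∧ G.Adj w v ∧ ¬ Cln G g w v}.ncard + x t := by
  unfold nbn
  have e1 : {v | clz G g w ρ v = some t ∧ (gr G g w x ρ).Adj (Sum.inl ⟨w, hw'⟩) v} =
      (Sum.inl '' {v : {v : V // ¬ Cln G g w v} | g v.1 = some t ∧ G.Adj w v.1}) ∪
        (fun j : Fin (x t) => (Sum.inr ⟨t, Fin.castLE hx j⟩ : {v : V // ¬ Cln G g w v} ⊕
          (Σ t : Fin r, Fin (ρ t)))) '' Set.univ := by
    ext p
    constructor
    · rintro ⟨hp, hp2⟩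
      rcases p with v | ⟨s, j⟩
      · exact Or.inl ⟨v, ⟨hp, hp2⟩, rfl⟩
      · have hs : s = t := Option.some_injective _ hp
        subst hs
        have h3 : (g w ≠ none ∧ g w ≠ some s) ∨ (w = w ∧ j.val < x s) := hp2
        rcases h3 with h3 | h3
        · exact absurd hw h3.1
        · exact Or.inr ⟨⟨j.val, h3.2⟩, trivial, rfl⟩
    · rintro (⟨v, hv, rfl⟩ | ⟨j, -, rfl⟩)
      · exact hv
      · exact ⟨rfl, Or.inr ⟨rfl, j.2⟩⟩
  have e2 : {v | g v = some t ∧ G.Adj w v ∧ ¬ Cln G g w v} =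
      Subtype.val '' {v : {v : V // ¬ Cln G g w v} | g v.1 = some t ∧ G.Adj w v.1} := by
    ext v
    constructor
    · rintro ⟨h3, h4, h5⟩
      exact ⟨⟨v, h5⟩, ⟨h3, h4⟩, rfl⟩
    · rintro ⟨v, hv, rfl⟩
      exact ⟨hv.1, hv.2, v.2⟩
  rw [e1, e2, Set.ncard_union_eq ?_ (Set.toFinite _) (Set.toFinite _),
    Set.ncard_image_of_injective _ Sum.inl_injective, Set.ncard_image_of_injective,
    Set.ncard_image_of_injective _ Subtype.val_injective, Set.ncard_univ, Nat.card_fin]
  · intro i j hij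
    simpa using hij
  · rw [Set.disjoint_left]
    rintro _ ⟨v, -, rfl⟩ ⟨j, -, hj⟩
    exact Sum.inr_ne_inl hj

end

end RSZx

open RSZx in
theorem prfRSZ : RSZ_statement := by
  classical
  intro W _ F r N hr
  refine ⟨2 * N + Fintype.card W + 2, ?_⟩
  intro V _ G g w n τ a hF hc hi hBd hsiz hτ ha1 ha2 ha3
  set K := 2 * N + Fintype.card W + 2 with hK
  have hw : g w = none := hBd.out
  have hw' : ¬ Cln G g w w := fun h => h.1 rfl
  -- the numbers
  have hbad : ∀ t, {v | g v = some t ∧ ¬ Cln G g w v}.ncard ≤ 2 * N := by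
    intro t
    have h1 : {v | g v = some t ∧ ¬ Cln G g w v} ⊆ {v | g v ≠ none ∧ ¬ Cln G g w v} := by
      rintro v ⟨hv1, hv2⟩
      exact ⟨by rw [hv1]; exact Option.some_ne_none _, hv2⟩
    exact (Set.ncard_le_ncard h1 (Set.toFinite _)).trans (bad_card hBd)
  have split1 : ∀ t, {v | g v = some t ∧ ¬ Cln G g w v}.ncard =
      {v | g v = some t ∧ G.Adj w v ∧ ¬ Cln G g w v}.ncard +
        {v | g v = some t ∧ ¬ G.Adj w v ∧ ¬ Cln G g w v}.ncard := by
    intro t
    rw [← Set.ncard_union_eq ?_ (Set.toFinite _) (Set.toFinite _)]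
    · congr 1
      ext v
      constructor
      · rintro ⟨h1, h2⟩
        by_cases h3 : G.Adj w v
        · exact Or.inl ⟨h1, h3, h2⟩
        · exact Or.inr ⟨h1, h3, h2⟩
      · rintro (h | h)
        · exact ⟨h.1, h.2.2⟩
        · exact ⟨h.1, h.2.2⟩
    · rw [Set.disjoint_left]
      rintro v h1 h2
      exact h2.2.1 h1.2.1
  have split2 : ∀ t, nbn G g w t = {v | g v = some t ∧ G.Adj w v ∧ Cln G g w v}.ncard +
      {v | g v = some t ∧ G.Adj w v ∧ ¬ Cln G g w v}.ncard := by
    intro t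
    unfold nbn
    rw [← Set.ncard_union_eq ?_ (Set.toFinite _) (Set.toFinite _)]
    · congr 1
      ext v
      constructor
      · rintro ⟨h1, h2⟩
        by_cases h3 : Cln G g w v
        · exact Or.inl ⟨h1, h2, h3⟩
        · exact Or.inr ⟨h1, h2, h3⟩
      · rintro (h | h)
        · exact ⟨h.1, h.2.1⟩
        · exact ⟨h.1, h.2.1⟩
    · rw [Set.disjoint_left]
      rintro v h1 h2
      exact h2.2.2 h1.2.2
  have split3 : ∀ t, siz g t = {v | g v = some t ∧ Cln G g w v}.ncard +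
      {v | g v = some t ∧ ¬ Cln G g w v}.ncard := by
    intro t
    unfold siz
    rw [← Set.ncard_union_eq ?_ (Set.toFinite _) (Set.toFinite _)]
    · congr 1
      ext v
      constructor
      · intro h1
        by_cases h3 : Cln G g w v
        · exact Or.inl ⟨h1, h3⟩
        · exact Or.inr ⟨h1, h3⟩
      · rintro (h | h)
        · exact h.1
        · exact h.1
    · rw [Set.disjoint_left]
      rintro v h1 h2
      exact h2.2 h1.2
  set e : Fin r → ℕ := fun t => {v | g v = some t ∧ G.Adj w v ∧ ¬ Cln G g w v}.ncard with he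
  set b : Fin r → ℕ := fun t => {v | g v = some t ∧ ¬ Cln G g w v}.ncard with hb
  have he' : ∀ t, {v | g v = some t ∧ G.Adj w v ∧ ¬ Cln G g w v}.ncard = e t := fun t => rfl
  have hb' : ∀ t, {v | g v = some t ∧ ¬ Cln G g w v}.ncard = b t := fun t => rfl
  have f0 : ∀ t, e t ≤ a t := by
    intro t
    have h1 := split2 t
    have h2 := split1 t
    have h3 := hbad t
    rw [he'] at h1 h2
    rw [hb'] at h2 h3
    by_cases h4 : nbn G g w t ≤ K
    · have := ha1 t h4
      omega
    · have := ha2 t (by omega)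
      omega
  have f1 : ∀ t k, k ≤ a t - e t → k ≤ Fintype.card W →
      k ≤ {v | g v = some t ∧ G.Adj w v ∧ Cln G g w v}.ncard := by
    intro t k hk1 hk2
    have h1 := split2 t
    have h2 := split1 t
    have h3 := hbad t
    rw [he'] at h1 h2
    rw [hb'] at h2 h3
    by_cases h4 : nbn G g w t ≤ K
    · have := ha1 t h4
      omega
    · omega
  have f2 : ∀ t, Fintype.card W ≤ {v | g v = some t ∧ Cln G g w v}.ncard := by
    intro t
    have h1 := split3 t
    have h2 := hsiz t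
    have h3 := hbad t
    omega
  have f3 : ∀ t v, g v = some t → G.Adj w v → Cln G g w v → 1 ≤ a t - e t := by
    intro t v h4 h5 h6
    have h1 := split2 t
    have h2 := split1 t
    have h3 := hbad t
    rw [he'] at h1 h2
    rw [hb'] at h2 h3
    have h7 : 0 < {v | g v = some t ∧ G.Adj w v ∧ Cln G g w v}.ncard :=
      (Set.ncard_pos (Set.toFinite _)).2 ⟨v, h4, h5, h6⟩
    by_cases h8 : nbn G g w t ≤ K
    · have := ha1 t h8
      omega
    · have := ha2 t (by omega)
      omega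
  have f4 : ∀ t, 1 ≤ τ t - b t := by
    intro t
    have h3 := hbad t
    rw [hb'] at h3
    have := hτ t
    omega
  have f5 : ∀ t, a t - e t ≤ τ t - b t := by
    intro t
    have h1 := split1 t
    rw [he', hb'] at h1
    have := ha3 t
    have := f0 t
    omega
  obtain ⟨k, G', g', w'', p1, p2, p3, p4, p5, p6, p7, p8, p9⟩ :=
    transport F (gr G g w (fun t => a t - e t) (fun t => τ t - b t))
      (clz G g w (fun t => τ t - b t)) (Sum.inl ⟨w, hw'⟩)
      (free hF hw f1 f2) (notCol hc hBd.indep hw f3 f4) (noIso hi hr f3 f4)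
      (indep hBd.indep hw) hw
  refine ⟨k, G', g', w'', p1, p2, p3, p4, p5, ?_, ?_, ?_, ?_⟩
  · rw [p6]
    exact miss_card hw
  · rw [p7]
    exact light_card hw'
  · intro t
    rw [p8, siz_cl, hb']
    have := f4 t
    omega
  · intro t
    rw [p9, nbn_gr hw hw' t (f5 t), he']
    have := f0 t
    omega

end MP0c3a8f
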