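import Pool.Agent.Work.MP_0c3a8f_co.PB.All10
import Pool.Agent.Work.MP_0c3a8f_co.Bd.B26
import Pool.Agent.Work.MP_0c3a8f_co.Bd.B28
import Pool.Agent.Work.MP_0c3a8f_co.PB.ItemRSZ

/-!
# MP_0c3a8f_co: all items of the part PB11 (all `F`, all sizes) together
-/

namespace MP0c3a8f

theorem bEQG : EQG_statement := prfEQG prfP prfMVG bMVE prfTCG
theorem bQEG : QEG_statement := prfQEG prfP bFLB prfTCG bEQG
theorem bQEH : QEH_statement := prfQEH prfP bFLU prfTCG bEQG
theorem bQEM : QEM_statement := prfQEM prfP bFLU prfTCG bEQG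
theorem bDIC : DIC_statement :=
  prfDIC prfP prfCNTU bFLU bBLA bSSWU bMEMS bTRF prfSWM bSWS prfSQN prfMKH
theorem bJBG : JBG_statement := prfJBG prfEXP prfDEV
theorem bSZG : SZG_statement := prfSZG prfP prfDEV prfCNTU bCSB bJBG prfRSZ
theorem bFINX : FINX_statement :=
  prfFINX prfP bMAXE prfDEV prfTURN bUPS bCHUV bFNS bMAXG bFNT bFNU
theorem bKIX : KIX_statement := prfKIX prfP prfDEV prfCNTU bQEG bSZG
theorem bKIY : KIY_statement := prfKIY prfP prfDEV prfCNTU bDIC bQEH bQEM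
theorem bFINK : FINK_statement := prfFINK bFINX bKIX bKIY

end MP0c3a8f
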