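import Pool.Agent.Work.MP_0c3a8f_co.PB.Stmts12
import Pool.Agent.Work.MP_0c3a8f_co.PB.ItemFAM1

/-!
# MP_0c3a8f_co: graphs of type `S` with prescribed numbers of leaves (item FAMX)
-/

open Finset

namespace MP0c3a8f

namespace ItemFAMX

open ItemFAM1

/-- the adjacency relation -/
def rel {r : ℕ} (τ l : Fin r → ℕ) (i : Fin r) :
    Option (Σ t : Fin r, Fin (τ t)) → Option (Σ t : Fin r, Fin (τ t)) → Prop
  | none, none => False
  | none, some q => q.2.val = 0
  | some q, none => q.2.val = 0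
  | some q, some q' => q.1 ≠ q'.1 ∧
      ¬ ((q.1 = i ∧ q.2.val = 1) ∧ (1 ≤ q'.2.val ∧ q'.2.val ≤ l q'.1)) ∧
      ¬ ((q'.1 = i ∧ q'.2.val = 1) ∧ (1 ≤ q.2.val ∧ q.2.val ≤ l q.1))

/-- the graph -/
def gr {r : ℕ} (τ l : Fin r → ℕ) (i : Fin r) :
    SimpleGraph (Option (Σ t : Fin r, Fin (τ t))) where
  Adj := rel τ l i
  symm := ⟨fun x y h => by
    rcases x with _ | q <;> rcases y with _ | q'
    · exact h
    · exact h
    · exact h
    · exact ⟨h.1.symm, h.2.2, h.2.1⟩⟩
  loopless := ⟨fun x h => by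
    rcases x with _ | q
    · exact h
    · exact h.1 rfl⟩

theorem eq_iff' {r : ℕ} {τ : Fin r → ℕ} {i : Fin r} {m : ℕ} (h : m < τ i)
    (q : Σ t : Fin r, Fin (τ t)) : q = ⟨i, ⟨m, h⟩⟩ ↔ q.1 = i ∧ q.2.val = m := by
  obtain ⟨t, y⟩ := q
  constructor
  · intro h'
    cases h'
    exact ⟨rfl, rfl⟩
  · rintro ⟨h1, h2⟩
    simp only at h1 h2
    subst h1
    subst h2
    rfl

/-- the embedding of the leaves -/
def emb {r : ℕ} {τ l : Fin r → ℕ} (h : ∀ t, l t + 1 ≤ τ t) (y : Σ t : Fin r, Fin (l t)) :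
    Σ t : Fin r, Fin (τ t) :=
  ⟨y.1, ⟨y.2.val + 1, lt_of_lt_of_le (Nat.succ_lt_succ y.2.2) (h y.1)⟩⟩

theorem emb_inj {r : ℕ} {τ l : Fin r → ℕ} (h : ∀ t, l t + 1 ≤ τ t) :
    Function.Injective (emb h) := by
  rintro ⟨t, y⟩ ⟨t', y'⟩ h1
  unfold emb at h1
  have h2 : t = t' := (Sigma.mk.inj h1).1
  subst h2
  have h3 := eq_of_heq (Sigma.mk.inj h1).2
  have h4 : y.val + 1 = y'.val + 1 := congrArg Fin.val h3
  have h5 : y = y' := Fin.ext (by omega)
  rw [h5]

theorem mem_iff {r : ℕ} {τ l : Fin r → ℕ} (h : ∀ t, l t + 1 ≤ τ t)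
    (q : Σ t : Fin r, Fin (τ t)) :
    (∃ y : Σ t : Fin r, Fin (l t), emb h y = q) ↔ 1 ≤ q.2.val ∧ q.2.val ≤ l q.1 := by
  obtain ⟨t, y⟩ := q
  constructor
  · rintro ⟨⟨s, z⟩, hz⟩
    unfold emb at hz
    cases hz
    exact ⟨Nat.le_add_left 1 _, z.2⟩
  · rintro ⟨h1, h2⟩
    have h1' : 1 ≤ y.val := h1
    have h2' : y.val ≤ l t := h2
    refine ⟨⟨t, ⟨y.val - 1, by omega⟩⟩, ?_⟩
    unfold emb
    rw [eq_comm, eq_iff']
    exact ⟨rfl, by show y.val = y.val - 1 + 1; omega⟩

end ItemFAMX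

open ItemFAM1 ItemFAMX in
theorem prfFAMX : FAMX_statement := by
  classical
  intro r τ l i hr hli hτ
  have hl : ∀ t, l t ≤ ∑ u, l u := fun t => Finset.single_le_sum (fun _ _ => Nat.zero_le _)
    (Finset.mem_univ t)
  have hlτ : ∀ t, l t + 1 ≤ τ t := fun t => by have := hτ t; have := hl t; omega
  have h0τ : ∀ t, 0 < τ t := fun t => by have := hlτ t; omega
  have h1τ : 1 < τ i := by have := hτ i; omega
  obtain ⟨k, e, H, f, hadj, hf, hsiz, -⟩ := transfer (ItemFAMX.gr τ l i) (clF τ)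
  set L : Finset (Fin k) := Finset.univ.image
    (fun y : Σ t : Fin r, Fin (l t) => e (some (emb hlτ y))) with hL
  have hinj : Function.Injective (fun y : Σ t : Fin r, Fin (l t) => e (some (emb hlτ y))) :=
    fun y y' h => emb_inj hlτ (Option.some.inj (e.injective h))
  have hLc : L.card = ∑ t, l t := by
    rw [hL, Finset.card_image_of_injective _ hinj, Finset.card_univ, Fintype.card_sigma]
    simp
  have hmem : ∀ q : Σ t : Fin r, Fin (τ t),
      e (some q) ∈ L ↔ 1 ≤ q.2.val ∧ q.2.val ≤ l q.1 := by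
    intro q
    rw [← ItemFAMX.mem_iff hlτ q, hL, Finset.mem_image]
    constructor
    · rintro ⟨y, -, hy⟩
      exact ⟨y, Option.some.inj (e.injective hy)⟩
    · rintro ⟨y, hy⟩
      exact ⟨y, Finset.mem_univ _, by rw [hy]⟩
  have hmem0 : e none ∉ L := by
    rw [hL, Finset.mem_image]
    rintro ⟨y, -, hy⟩
    have := e.injective hy
    cases this
  refine ⟨k, H, f, e none, fun t => e (some ⟨t, ⟨0, h0τ t⟩⟩), e (some ⟨i, ⟨1, h1τ⟩⟩), L, ?_,
    hLc, ?_, ?_⟩
  · refine ⟨?_, ?_, ?_, ?_, ?_, ?_, ?_, ?_, ?_⟩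
    · intro v
      obtain ⟨x, rfl⟩ := e.surjective v
      rw [hf, e.injective.eq_iff]
      rcases x with _ | q <;> simp [clF]
    · intro t
      rw [hf]
      rfl
    · intro v
      obtain ⟨x, rfl⟩ := e.surjective v
      rw [hadj]
      rcases x with _ | q
      · constructor
        · intro h
          exact absurd h (SimpleGraph.irrefl _)
        · rintro ⟨t, ht⟩
          have := e.injective ht
          cases this
      · constructor
        · intro h
          refine ⟨q.1, ?_⟩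
          rw [e.injective.eq_iff, Option.some_inj, ItemFAMX.eq_iff' (h0τ q.1)]
          exact ⟨rfl, h⟩
        · rintro ⟨t, ht⟩
          rw [e.injective.eq_iff, Option.some_inj, ItemFAMX.eq_iff' (h0τ t)] at ht
          exact ht.2
    · rw [hf]
      rfl
    · intro h
      rw [e.injective.eq_iff, Option.some_inj, ItemFAMX.eq_iff' (h0τ i)] at h
      exact absurd h.2 one_ne_zero
    · intro v hv
      obtain ⟨x, rfl⟩ := e.surjective v
      rcases x with _ | q
      · exact absurd hv hmem0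
      · rw [hmem] at hv
        rw [hf]
        refine ⟨by simp [clF], ?_⟩
        simp only [clF, ne_eq, Option.some_inj]
        intro h
        have h2 : l q.1 = 0 := (congrArg l h).trans hli
        omega
    · intro t
      rw [hmem]
      rintro ⟨h1, -⟩
      exact absurd h1 (by simp)
    · intro u v hu hv
      obtain ⟨x, rfl⟩ := e.surjective u
      obtain ⟨y, rfl⟩ := e.surjective v
      rw [hf] at hu hv
      rw [hadj, hf, hf]
      rcases x with _ | q
      · exact absurd rfl hu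
      rcases y with _ | q'
      · exact absurd rfl hv
      have h1 : (ItemFAMX.gr τ l i).Adj (some q) (some q') ↔ q.1 ≠ q'.1 ∧
          ¬ ((q.1 = i ∧ q.2.val = 1) ∧ (1 ≤ q'.2.val ∧ q'.2.val ≤ l q'.1)) ∧
          ¬ ((q'.1 = i ∧ q'.2.val = 1) ∧ (1 ≤ q.2.val ∧ q.2.val ≤ l q.1)) := Iff.rfl
      have h2 : clF τ (some q) ≠ clF τ (some q') ↔ q.1 ≠ q'.1 := by simp [clF]
      rw [h1, h2, hmem, hmem, e.injective.eq_iff, e.injective.eq_iff, Option.some_inj,
        Option.some_inj, ItemFAMX.eq_iff' h1τ, ItemFAMX.eq_iff' h1τ]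
    · intro t
      rw [hLc, hsiz, siz_clF]
      exact hτ t
  · intro t
    unfold lc
    have e1 : {v | v ∈ L ∧ f v = some t} =
        (fun y : Fin (l t) => e (some (emb hlτ ⟨t, y⟩))) '' Set.univ := by
      ext v
      constructor
      · rintro ⟨h1, h2⟩
        rw [hL, Finset.mem_image] at h1
        obtain ⟨⟨t', y⟩, -, rfl⟩ := h1
        rw [hf] at h2
        have hs : t' = t := by simpa [clF, emb] using h2
        subst hs
        exact ⟨y, trivial, rfl⟩
      · rintro ⟨y, -, rfl⟩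
        refine ⟨?_, ?_⟩
        · rw [hL, Finset.mem_image]
          exact ⟨⟨t, y⟩, Finset.mem_univ _, rfl⟩
        · rw [hf]
          rfl
    have e2 : Function.Injective (fun y : Fin (l t) => e (some (emb hlτ ⟨t, y⟩))) := by
      intro y y' h
      have h1 := hinj (a₁ := ⟨t, y⟩) (a₂ := ⟨t, y'⟩) h
      exact eq_of_heq (Sigma.mk.inj h1).2
    rw [e1, Set.ncard_image_of_injective _ e2, Set.ncard_univ, Nat.card_fin]
  · intro t
    rw [hsiz, siz_clF]

end MP0c3a8f
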