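import Pool.Agent.Work.MP_0c3a8f_co.PB.Stmts12

/-!
# Item GVCG: uniqueness of the numbers of neighbours
-/

set_option autoImplicit false

namespace MP0c3a8f

namespace GVCG

open Finset

/-- number of elements with at least `h` neighbours -/
def cnt {ι : Type} (A : Finset ι) (f : ι → ℕ) (h : ℕ) : ℕ := (A.filter fun t => h ≤ f t).card

theorem layer {ι : Type} (A : Finset ι) (f : ι → ℕ) (h : ℕ) :
    ∑ t ∈ A, min (f t) h = ∑ j ∈ Finset.range h, cnt A f (j + 1) := by
  induction h with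
  | zero => simp
  | succ h ih =>
    rw [Finset.sum_range_succ, ← ih, cnt, Finset.card_filter, ← Finset.sum_add_distrib]
    refine Finset.sum_congr rfl fun t _ => ?_
    split_ifs with h1 <;> omega

theorem step2 {ι : Type} (A : Finset ι) (P : ι → Prop) (s : ℕ) (d d' : ι → ℕ)
    (hP' : ∀ t ∈ A, P t → d' t < s)
    (rule : ∀ k ∈ A, ∀ l ∈ A, (¬ P l ∨ d l + 1 < s) → d k ≤ d l + 1)
    (hs : ∑ t ∈ A, d t = ∑ t ∈ A, d' t) (h : ℕ) (hlt : cnt A d h < cnt A d' h)
    (hmin : ∀ j < h, cnt A d j = cnt A d' j) : False := by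
  obtain ⟨l, hl, hl1, hl2⟩ : ∃ l ∈ A, h ≤ d' l ∧ d l < h := by
    by_contra hcon
    push Not at hcon
    refine absurd hlt (not_lt.mpr (Finset.card_le_card fun t ht => ?_))
    rw [Finset.mem_filter] at ht ⊢
    exact ⟨ht.1, hcon t ht.1 ht.2⟩
  have hc : ¬ P l ∨ d l + 1 < s := by
    by_cases hp : P l
    · right
      have := hP' l hl hp
      omega
    · exact Or.inl hp
  have hle : ∀ k ∈ A, d k ≤ h := fun k hk => (rule k hk l hl hc).trans (by omega)
  obtain ⟨h0, rfl⟩ : ∃ h0, h = h0 + 1 := ⟨h - 1, by omega⟩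
  have e1 : ∑ t ∈ A, d t = ∑ t ∈ A, min (d t) (h0 + 1) :=
    Finset.sum_congr rfl fun t ht => (min_eq_left (hle t ht)).symm
  have e2 : ∑ t ∈ A, min (d' t) (h0 + 1) ≤ ∑ t ∈ A, d' t :=
    Finset.sum_le_sum fun t _ => min_le_left _ _
  rw [layer, Finset.sum_range_succ] at e1 e2
  have e3 : ∑ j ∈ Finset.range h0, cnt A d (j + 1) = ∑ j ∈ Finset.range h0, cnt A d' (j + 1) :=
    Finset.sum_congr rfl fun j hj => hmin (j + 1) (by rw [Finset.mem_range] at hj; omega)
  omega

theorem cnt_eq {ι : Type} (A : Finset ι) (P : ι → Prop) (s : ℕ) (d d' : ι → ℕ)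
    (hP : ∀ t ∈ A, P t → d t < s) (hP' : ∀ t ∈ A, P t → d' t < s)
    (rule : ∀ k ∈ A, ∀ l ∈ A, (¬ P l ∨ d l + 1 < s) → d k ≤ d l + 1)
    (rule' : ∀ k ∈ A, ∀ l ∈ A, (¬ P l ∨ d' l + 1 < s) → d' k ≤ d' l + 1)
    (hs : ∑ t ∈ A, d t = ∑ t ∈ A, d' t) (h : ℕ) : cnt A d h = cnt A d' h := by
  induction h using Nat.strong_induction_on with
  | _ h ih =>
    rcases lt_trichotomy (cnt A d h) (cnt A d' h) with h1 | h1 | h1
    · exact (step2 A P s d d' hP' rule hs h h1 ih).elim
    · exact h1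
    · exact (step2 A P s d' d hP rule' hs.symm h h1 fun j hj => (ih j hj).symm).elim

theorem cnt_split {ι : Type} (A : Finset ι) (f : ι → ℕ) (w : ℕ) :
    (A.filter fun t => f t = w).card + cnt A f (w + 1) = cnt A f w := by
  classical
  rw [cnt, cnt, ← Finset.card_union_of_disjoint]
  · congr 1
    ext t
    simp only [Finset.mem_union, Finset.mem_filter]
    constructor
    · rintro (h | h)
      · exact ⟨h.1, by omega⟩
      · exact ⟨h.1, by omega⟩
    · intro h
      rcases Nat.lt_or_ge w (f t) with h1 | h1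
      · exact Or.inr ⟨h.1, h1⟩
      · exact Or.inl ⟨h.1, by omega⟩
  · rw [Finset.disjoint_left]
    intro t ht ht'
    rw [Finset.mem_filter] at ht ht'
    omega

/-- sum over a class -/
def cs {r : ℕ} (σ d : Fin r → ℕ) (v : ℕ) : ℕ := ∑ t with σ t = v, d t

theorem cs_empty {r : ℕ} (σ d : Fin r → ℕ) (v : ℕ) (hv : v ∉ Finset.univ.image σ) :
    cs σ d v = 0 := by
  rw [cs]
  refine Finset.sum_eq_zero fun t ht => ?_
  rw [Finset.mem_filter] at ht
  exact absurd (Finset.mem_image.2 ⟨t, Finset.mem_univ _, ht.2⟩) hv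

theorem sum_cs {r : ℕ} (σ d : Fin r → ℕ) : ∑ v ∈ Finset.univ.image σ, cs σ d v = ∑ t, d t :=
  Finset.sum_fiberwise_of_maps_to (fun t _ => Finset.mem_image_of_mem σ (Finset.mem_univ t)) d

/-- one of the two cases of step 1 -/
theorem case1 {r : ℕ} (s : ℕ) (σ d d' : Fin r → ℕ) (P : Fin r → Prop)
    (hd' : ∀ t, 1 ≤ d' t ∧ d' t ≤ σ t) (hP' : ∀ t, P t → d' t < s)
    (rule : ∀ k l : Fin r, (¬ P l ∨ d l + 1 < s) → σ l < σ k → 2 ≤ d k → d l = σ l)
    (v v' : ℕ) (hv : v' < v) (h1 : cs σ d' v < cs σ d v) (h2 : cs σ d v' < cs σ d' v') :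
    False := by
  obtain ⟨k, hk, hk1⟩ := Finset.exists_lt_of_sum_lt h1
  obtain ⟨l, hl, hl1⟩ := Finset.exists_lt_of_sum_lt h2
  rw [Finset.mem_filter] at hk hl
  have hc : ¬ P l ∨ d l + 1 < s := by
    by_cases hp : P l
    · right
      have := hP' l hp
      omega
    · exact Or.inl hp
  have e1 := rule k l hc (by rw [hk.2, hl.2]; exact hv) (by
    have := (hd' k).1
    omega)
  have e2 := (hd' l).2
  omega

theorem cs_eq {r : ℕ} (s : ℕ) (σ d d' : Fin r → ℕ) (P : Fin r → Prop)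
    (hd : ∀ t, 1 ≤ d t ∧ d t ≤ σ t) (hP : ∀ t, P t → d t < s)
    (hd' : ∀ t, 1 ≤ d' t ∧ d' t ≤ σ t) (hP' : ∀ t, P t → d' t < s)
    (rule : ∀ k l : Fin r, (¬ P l ∨ d l + 1 < s) → σ l < σ k → 2 ≤ d k → d l = σ l)
    (rule' : ∀ k l : Fin r, (¬ P l ∨ d' l + 1 < s) → σ l < σ k → 2 ≤ d' k → d' l = σ l)
    (hs : ∑ t, d t = ∑ t, d' t) (v : ℕ) : cs σ d v = cs σ d' v := by
  have bad : ∀ v v', cs σ d' v < cs σ d v → cs σ d v' < cs σ d' v' → False := by
    intro v v' h1 h2
    rcases lt_trichotomy v' v with h3 | h3 | h3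
    · exact case1 s σ d d' P hd' hP' rule v v' h3 h1 h2
    · subst h3; omega
    · exact case1 s σ d' d P hd hP rule' v' v h3 h2 h1
  by_cases hv : v ∈ Finset.univ.image σ
  · rw [← sum_cs σ d, ← sum_cs σ d'] at hs
    rcases lt_trichotomy (cs σ d v) (cs σ d' v) with h1 | h1 | h1
    · have h2 : ∀ v', cs σ d v' ≤ cs σ d' v' := by
        intro v'
        by_contra h3
        exact bad v' v (not_le.mp h3) h1
      exact absurd hs (Finset.sum_lt_sum (fun v' _ => h2 v') ⟨v, hv, h1⟩).ne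
    · exact h1
    · have h2 : ∀ v', cs σ d' v' ≤ cs σ d v' := by
        intro v'
        by_contra h3
        exact bad v v' h1 (not_le.mp h3)
      exact absurd hs (Finset.sum_lt_sum (fun v' _ => h2 v') ⟨v, hv, h1⟩).ne'
  · rw [cs_empty σ d v hv, cs_empty σ d' v hv]

end GVCG

open GVCG in
theorem prfGVCG : GVCG_statement := by
  classical
  intro r s σ d d' i j _ _ _ _ _ hb hi hj hi' hj' hr hr' hs
  let P : Fin r → Prop := fun t => t = i ∨ t = j
  have hnP : ∀ l, ¬ P l ↔ (l ≠ i ∧ l ≠ j) := fun l => not_or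
  have hP : ∀ t, P t → d t < s := by
    rintro t (rfl | rfl)
    · exact hi
    · exact hj
  have hP' : ∀ t, P t → d' t < s := by
    rintro t (rfl | rfl)
    · exact hi'
    · exact hj'
  have hcs := cs_eq s σ d d' P (fun t => ⟨(hb t).1, (hb t).2.1⟩) hP
    (fun t => ⟨(hb t).2.2.1, (hb t).2.2.2⟩) hP'
    (fun k l hl => (hr k l (by rw [← hnP]; exact hl)).2)
    (fun k l hl => (hr' k l (by rw [← hnP]; exact hl)).2) hs
  have hcnt : ∀ v h, cnt (Finset.univ.filter fun t => σ t = v) d h =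
      cnt (Finset.univ.filter fun t => σ t = v) d' h := by
    intro v h
    refine cnt_eq _ P s d d' (fun t _ => hP t) (fun t _ => hP' t) ?_ ?_ (hcs v) h
    · intro k hk l hl hc
      rw [Finset.mem_filter] at hk hl
      exact (hr k l (by rw [← hnP]; exact hc)).1 (hk.2.trans hl.2.symm)
    · intro k hk l hl hc
      rw [Finset.mem_filter] at hk hl
      exact (hr' k l (by rw [← hnP]; exact hc)).1 (hk.2.trans hl.2.symm)
  have hF : ∀ c : ℕ × ℕ, Fintype.card {t // (σ t, d t) = c} =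
      Fintype.card {t // (σ t, d' t) = c} := by
    rintro ⟨v, w⟩
    rw [Fintype.card_subtype, Fintype.card_subtype]
    have e : ∀ f : Fin r → ℕ, (Finset.univ.filter fun t => (σ t, f t) = (v, w)) =
        (Finset.univ.filter fun t => σ t = v).filter fun t => f t = w := by
      intro f
      ext t
      simp
    rw [e, e]
    have e1 := cnt_split (Finset.univ.filter fun t => σ t = v) d w
    have e2 := cnt_split (Finset.univ.filter fun t => σ t = v) d' w
    rw [hcnt v w, hcnt v (w + 1)] at e1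
    omega
  let π : Equiv.Perm (Fin r) := Equiv.ofFiberEquiv fun c => Fintype.equivOfCardEq (hF c)
  have hπ : ∀ t, (σ (π t), d' (π t)) = (σ t, d t) := fun t => Equiv.ofFiberEquiv_map
    (f := fun t => (σ t, d t)) (g := fun t => (σ t, d' t)) _ t
  exact ⟨π, fun t => congrArg Prod.fst (hπ t), fun t => congrArg Prod.snd (hπ t)⟩

end MP0c3a8f
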