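import Pool.Agent.Work.MP_0c3a8f_co.PB.Stmts12

/-!
# MP_0c3a8f_co: graphs of type `S` with the same parameters are isomorphic (item ISOS)
-/

open Finset

namespace MP0c3a8f

namespace ItemISOS

section

variable {V : Type} [Fintype V] {r : ℕ} {G : SimpleGraph V} {f : V → Option (Fin r)} {w : V}
  {q : Fin r → V} {c : V} {i : Fin r} {L : Finset V}

open Classical in
/-- the kind of a vertex -/
noncomputable def kd {V : Type} {r : ℕ} (q : Fin r → V) (c : V) (L : Finset V) (v : V) : Fin 4 :=
  if v = c then 3 else if ∃ t, v = q t then 2 else if v ∈ L then 1 else 0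

/-- the key of a vertex -/
noncomputable def key {V : Type} {r : ℕ} (f : V → Option (Fin r)) (q : Fin r → V) (c : V)
    (L : Finset V) (v : V) : Option (Fin r) × Fin 4 := (f v, kd q c L v)

theorem q_ne (h : TyS G f w q c i L) (t : Fin r) : q t ≠ c := by
  intro e
  have h1 := h.hq t
  rw [e, h.hc] at h1
  have h2 : i = t := Option.some.inj h1
  apply h.cq
  rw [h2, e]

theorem L_ne (h : TyS G f w q c i L) {v : V} (hv : v ∈ L) : v ≠ c := by
  intro e
  apply (h.hL v hv).2
  rw [e, h.hc]

theorem kd3 (v : V) : kd q c L v = 3 ↔ v = c := by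
  unfold kd
  split_ifs with h1 h2 h3 <;> simp [h1]

theorem kd2 (h : TyS G f w q c i L) (v : V) : kd q c L v = 2 ↔ ∃ t, v = q t := by
  unfold kd
  split_ifs with h1 h2 h3
  · constructor
    · intro h2
      exact absurd h2 (by decide)
    · rintro ⟨t, ht⟩
      exact absurd (ht.symm.trans h1) (q_ne h t)
  · exact ⟨fun _ => h2, fun _ => rfl⟩
  · constructor
    · intro h4
      exact absurd h4 (by decide)
    · intro h4
      exact absurd h4 h2
  · constructor
    · intro h4
      exact absurd h4 (by decide)
    · intro h4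
      exact absurd h4 h2

theorem kd1 (h : TyS G f w q c i L) (v : V) : kd q c L v = 1 ↔ v ∈ L := by
  unfold kd
  split_ifs with h1 h2 h3
  · constructor
    · intro h2
      exact absurd h2 (by decide)
    · intro h2
      exact absurd h1 (L_ne h h2)
  · constructor
    · intro h3
      exact absurd h3 (by decide)
    · intro h3
      obtain ⟨t, ht⟩ := h2
      rw [ht] at h3
      exact absurd h3 (h.qL t)
  · exact ⟨fun _ => h3, fun _ => rfl⟩
  · constructor
    · intro h4
      exact absurd h4 (by decide)
    · intro h4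
      exact absurd h4 h3

theorem key_set (o : Option (Fin r)) (k : Fin 4) :
    {v | key f q c L v = (o, k)} = {v | f v = o ∧ kd q c L v = k} := by
  ext v
  simp only [Set.mem_ofPred_eq, key, Prod.mk.injEq]

theorem n1 (h : TyS G f w q c i L) (t : Fin r) :
    {v | key f q c L v = (some t, 1)}.ncard = lc L f t := by
  rw [key_set]
  unfold lc
  congr 1
  ext v
  simp only [Set.mem_ofPred_eq, kd1 h]
  exact and_comm

theorem n2 (h : TyS G f w q c i L) (t : Fin r) :
    {v | key f q c L v = (some t, 2)}.ncard = 1 := by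
  rw [key_set, Set.ncard_eq_one]
  refine ⟨q t, ?_⟩
  ext v
  simp only [Set.mem_ofPred_eq, kd2 h, Set.mem_singleton_iff]
  constructor
  · rintro ⟨h1, s, hs⟩
    rw [hs, h.hq s] at h1
    rw [hs, Option.some.inj h1]
  · intro h1
    rw [h1]
    exact ⟨h.hq t, t, rfl⟩

theorem n3 (h : TyS G f w q c i L) (t : Fin r) :
    {v | key f q c L v = (some t, 3)}.ncard = if t = i then 1 else 0 := by
  rw [key_set]
  split_ifs with ht
  · rw [Set.ncard_eq_one]
    refine ⟨c, ?_⟩
    ext v
    simp only [Set.mem_ofPred_eq, kd3, Set.mem_singleton_iff]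
    constructor
    · rintro ⟨-, h1⟩
      exact h1
    · intro h1
      rw [h1, ht]
      exact ⟨h.hc, rfl⟩
  · rw [Set.ncard_eq_zero (Set.toFinite _)]
    ext v
    simp only [Set.mem_ofPred_eq, kd3, Set.mem_empty_iff_false, iff_false]
    rintro ⟨h1, h2⟩
    rw [h2, h.hc] at h1
    exact ht (Option.some.inj h1).symm

theorem n0 (h : TyS G f w q c i L) (t : Fin r) :
    {v | key f q c L v = (some t, 0)}.ncard + lc L f t + 1 + (if t = i then 1 else 0)
      = siz f t := by
  classical
  have a1 := n1 h t
  have a2 := n2 h t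
  have a3 := n3 h t
  rw [key_set] at a1 a2 a3 ⊢
  rw [← a1, ← a3]
  have a4 : ∀ x y z : ℕ, x + y + 1 + z = x + y + {v | f v = some t ∧ kd q c L v = 2}.ncard + z := by
    intro x y z
    rw [a2]
  rw [a4]
  unfold siz
  have e : ∀ k : Fin 4, {v | f v = some t ∧ kd q c L v = k}.ncard =
      ((univ.filter fun v => f v = some t).filter fun v => kd q c L v = k).card := by
    intro k
    rw [← Set.ncard_coe_finset]
    congr 1
    ext v
    simp
  have e' : {v | f v = some t}.ncard = (univ.filter fun v => f v = some t).card := by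
    rw [← Set.ncard_coe_finset]
    congr 1
    ext v
    simp
  have e'' := Finset.card_eq_sum_card_fiberwise (f := kd q c L) (t := univ)
    (s := univ.filter fun v => f v = some t) (fun v _ => Finset.mem_coe.2 (Finset.mem_univ _))
  rw [e, e, e, e, e', e'', Fin.sum_univ_four]

theorem w0 (h : TyS G f w q c i L) : kd q c L w = 0 := by
  have hw : f w = none := (h.out w).2 rfl
  unfold kd
  rw [if_neg, if_neg, if_neg]
  · intro h1
    exact (h.hL w h1).1 hw
  · rintro ⟨t, ht⟩
    have := h.hq t
    rw [← ht, hw] at this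
    exact absurd this (by simp)
  · intro h1
    have := h.hc
    rw [← h1, hw] at this
    exact absurd this (by simp)

theorem nn (h : TyS G f w q c i L) (k : Fin 4) :
    {v | key f q c L v = (none, k)}.ncard = if k = 0 then 1 else 0 := by
  rw [key_set]
  split_ifs with hk
  · rw [Set.ncard_eq_one]
    refine ⟨w, ?_⟩
    ext v
    simp only [Set.mem_ofPred_eq, h.out, Set.mem_singleton_iff]
    constructor
    · rintro ⟨h1, -⟩
      exact h1
    · intro h1
      rw [h1, hk]
      exact ⟨rfl, w0 h⟩
  · rw [Set.ncard_eq_zero (Set.toFinite _)]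
    ext v
    simp only [Set.mem_ofPred_eq, h.out, Set.mem_empty_iff_false, iff_false]
    rintro ⟨h1, h2⟩
    rw [h1, w0 h] at h2
    exact hk h2.symm

end

end ItemISOS

open ItemISOS in
theorem prfISOS : ISOS_statement := by
  classical
  intro r V V' _ _ G G' f f' w w' q q' c c' i L L' h h' hs hn
  have hcard : ∀ x : Option (Fin r) × Fin 4,
      Nonempty ({a // key f q c L a = x} ≃ {b // key f' q' c' L' b = x}) := by
    rintro ⟨o, k⟩
    rw [← Finite.card_eq]
    change Nat.card ↥{a | key f q c L a = (o, k)} = Nat.card ↥{a | key f' q' c' L' a = (o, k)}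
    rw [Nat.card_coe_set_eq, Nat.card_coe_set_eq]
    cases o with
    | none => rw [nn h, nn h']
    | some t =>
      have h1 := n0 h t
      have h2 := n0 h' t
      have h3 := hs t
      have h4 := hn t
      have h5 := n1 h t
      have h6 := n1 h' t
      have h7 := n2 h t
      have h8 := n2 h' t
      have h9 := n3 h t
      have h10 := n3 h' t
      have hk : k = 0 ∨ k = 1 ∨ k = 2 ∨ k = 3 := by
        revert k
        decide
      rcases hk with rfl | rfl | rfl | rfl
      · omega
      · omega
      · omega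
      · rw [h9, h10]
  let e : V ≃ V' := Equiv.ofFiberEquiv (f := key f q c L) (g := key f' q' c' L')
    (fun x => (hcard x).some)
  have he : ∀ v, key f' q' c' L' (e v) = key f q c L v := fun v => Equiv.ofFiberEquiv_map _ v
  have he1 : ∀ v, f' (e v) = f v := fun v => congrArg Prod.fst (he v)
  have he2 : ∀ v, kd q' c' L' (e v) = kd q c L v := fun v => congrArg Prod.snd (he v)
  have hw : e w = w' := (h'.out _).1 (by rw [he1]; exact (h.out w).2 rfl)
  have hc : ∀ v, e v = c' ↔ v = c := fun v => by
    rw [← kd3 (q := q') (L := L') (e v), he2, kd3]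
  have hL : ∀ v, e v ∈ L' ↔ v ∈ L := fun v => by
    rw [← kd1 h' (e v), he2, kd1 h]
  have hA : ∀ v, G'.Adj w' (e v) ↔ G.Adj w v := fun v => by
    rw [h'.wn, h.wn, ← kd2 h' (e v), he2, kd2 h]
  refine ⟨⟨e, ?_⟩⟩
  intro a b
  by_cases ha : f a = none
  · have haw := (h.out a).1 ha
    rw [haw, hw]
    exact hA b
  · by_cases hb : f b = none
    · have hbw := (h.out b).1 hb
      rw [hbw, hw, G'.adj_comm, G.adj_comm]
      exact hA a
    · rw [h.core a b ha hb, h'.core (e a) (e b) (by rwa [he1]) (by rwa [he1]), he1, he1,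
        hc, hc, hL, hL]

end MP0c3a8f
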