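import Pool.Agent.Work.MP_0c3a8f_co.PB.Stmts12
import Pool.Agent.Work.MP_0c3a8f_co.Bd.B27

/-!
# MP_0c3a8f_co: item PSNS (type `S`, nearly balanced classes)
-/

set_option autoImplicit false
set_option linter.unusedSectionVars false
set_option linter.unusedVariables false

open Finset

namespace MP0c3a8f

namespace ItemPSNS

open ItemPSN

variable {V : Type} [Fintype V] {r : ℕ}

/-! ### The comparison graph -/

theorem MG_TyS {H : SimpleGraph V} {g : V → Option (Fin r)} {w : V} {q : Fin r → V} {c : V}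
    {i : Fin r} {L : Finset V} (hT : TyS H g w q c i L) (u v : V) :
    (MG H g).Adj u v ↔ (u = c ∧ v ∈ L) ∨ (v = c ∧ u ∈ L) := by
  constructor
  · rintro ⟨h1, h2, h3, h4⟩
    rw [hT.core u v h1 h2] at h4
    by_contra hc
    rw [not_or] at hc
    exact h4 ⟨h3.symm, hc.1, hc.2⟩
  · rintro (⟨rfl, hv⟩ | ⟨rfl, hu⟩)
    · obtain ⟨h1, h2⟩ := hT.hL v hv
      refine ⟨by rw [hT.hc]; simp, h1, by rw [hT.hc]; exact h2, ?_⟩
      rw [hT.core _ _ (by rw [hT.hc]; simp) h1]
      exact fun h => h.2.1 ⟨rfl, hv⟩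
    · obtain ⟨h1, h2⟩ := hT.hL u hu
      refine ⟨h1, by rw [hT.hc]; simp, by rw [hT.hc]; exact fun h => h2 h.symm, ?_⟩
      rw [hT.core _ _ h1 (by rw [hT.hc]; simp)]
      exact fun h => h.2.2 ⟨rfl, hu⟩

theorem c_notMem {H : SimpleGraph V} {g : V → Option (Fin r)} {w : V} {q : Fin r → V} {c : V}
    {i : Fin r} {L : Finset V} (hT : TyS H g w q c i L) : c ∉ L := fun h =>
  (hT.hL _ h).2 hT.hc

theorem muv_centre {H : SimpleGraph V} {g : V → Option (Fin r)} {w : V} {q : Fin r → V} {c : V}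
    {i : Fin r} {L : Finset V} (hT : TyS H g w q c i L) (z : V → ℝ) :
    muv H g z c = ∑ u ∈ L, z u := by
  classical
  rw [muv_MG, ← Finset.sum_filter]
  refine Finset.sum_congr ?_ fun _ _ => rfl
  ext u
  rw [mem_filter, MG_TyS hT]
  constructor
  · rintro ⟨-, h | h⟩
    · exact h.2
    · exact absurd h.2 (c_notMem hT)
  · exact fun h => ⟨mem_univ _, Or.inl ⟨rfl, h⟩⟩

theorem muv_leaf {H : SimpleGraph V} {g : V → Option (Fin r)} {w : V} {q : Fin r → V} {c : V}
    {i : Fin r} {L : Finset V} (hT : TyS H g w q c i L) (z : V → ℝ) {y : V} (hy : y ∈ L) :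
    muv H g z y = z c := by
  classical
  rw [muv_MG, Finset.sum_eq_single c]
  · rw [if_pos ((MG_TyS hT _ _).2 (Or.inr ⟨rfl, hy⟩))]
  · intro u _ hu
    rw [if_neg]
    rw [MG_TyS hT]
    rintro (h | h)
    · exact c_notMem hT (h.1 ▸ hy)
    · exact hu h.1
  · intro h
    exact absurd (mem_univ _) h

theorem sum_muv {H : SimpleGraph V} {g : V → Option (Fin r)} {w : V} {q : Fin r → V} {c : V}
    {i : Fin r} {L : Finset V} (hT : TyS H g w q c i L) (z : V → ℝ) :
    (∑ u ∈ L, z u) ^ 2 + L.card * z c ^ 2 ≤ ∑ v, muv H g z v ^ 2 := by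
  classical
  have h1 : ∑ v ∈ insert c L, muv H g z v ^ 2 ≤ ∑ v, muv H g z v ^ 2 :=
    Finset.sum_le_sum_of_subset_of_nonneg (subset_univ _) fun _ _ _ => sq_nonneg _
  rw [Finset.sum_insert (c_notMem hT), muv_centre hT] at h1
  have h2 : ∑ v ∈ L, muv H g z v ^ 2 = L.card * z c ^ 2 := by
    rw [Finset.sum_congr rfl fun v hv => by rw [muv_leaf hT z hv], Finset.sum_const,
      nsmul_eq_mul]
  rwa [h2] at h1

open Classical in
theorem miss_TyS (hM : MEMX_statement) (hr : 3 ≤ r) {H : SimpleGraph V}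
    {g : V → Option (Fin r)} {w : V} {q : Fin r → V} {c : V}
    {i j : Fin r} {L : Finset V} (hT : TyS H g w q c i L) (hL : ∀ v ∈ L, g v = some j)
    (Y : Option (Fin r) → ℝ) :
    miss H (fun v => Y (g v)) g = 2 * L.card * (Y (some i) * Y (some j)) := by
  obtain ⟨-, h5, -, -, -⟩ := hM r V H g w q c i L hr hT
  rw [← h5, ← count_MG, miss_MG, Finset.sum_mul]
  refine Finset.sum_congr rfl fun u _ => ?_
  rw [Finset.sum_mul]
  refine Finset.sum_congr rfl fun v _ => ?_
  by_cases h : (MG H g).Adj u v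
  · rw [if_pos h, if_pos h, one_mul]
    rcases (MG_TyS hT u v).1 h with ⟨rfl, hv⟩ | ⟨rfl, hu⟩
    · rw [hT.hc, hL v hv]
    · rw [hT.hc, hL u hu, mul_comm]
  · rw [if_neg h, if_neg h, zero_mul]

theorem HH_TyS {g : V → Option (Fin r)} {w p : V} {q : Fin r → V} {i j : Fin r} {L : Finset V}
    (out : ∀ v, g v = none ↔ v = w) (hq : ∀ t, g (q t) = some t) (hij : j ≠ i)
    (hp : g p = some i) (hpq : p ≠ q i)
    (hL : ∀ v ∈ L, g v = some j) (qL : ∀ t, q t ∉ L) (room : ∀ t, L.card + 2 ≤ siz g t) :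
    TyS (HH g w q p L) g w q p i L where
  out := out
  hq := hq
  wn v := by
    have hw : g w = none := (out w).2 rfl
    constructor
    · rintro (h | h | h)
      · exact h.2.2.2
      · exact absurd hw h.2.2.1
      · exact absurd hw h.1
    · rintro ⟨t, rfl⟩
      exact Or.inl ⟨hw, rfl, by rw [hq]; simp, t, rfl⟩
  hc := hp
  cq := hpq
  hL v hv := by
    rw [hL v hv]
    exact ⟨by simp, fun h => hij (Option.some_injective _ h)⟩
  qL := qL
  core u v hu hv := by
    constructor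
    · rintro (h | h | h)
      · exact absurd h.1 hu
      · exact absurd h.1 hv
      · exact ⟨h.2.2.1, h.2.2.2.1, h.2.2.2.2⟩
    · intro h
      exact Or.inr (Or.inr ⟨hu, hv, h.1, h.2.1, h.2.2⟩)
  room := room

theorem HH_light {g : V → Option (Fin r)} {w p : V} {q : Fin r → V} {L : Finset V}
    (hw : g w = none) (u v : V) (hu : g u = none) (huw : u ≠ w) :
    ¬ (HH g w q p L).Adj u v := by
  rintro (h | h | h)
  · exact huw h.2.1
  · exact h.2.2.1 hu
  · exact h.1 hu

/-- the number of edges of `G` -/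
theorem edgesG {W : Type} [Fintype W] {F : SimpleGraph W} {G : SimpleGraph V}
    {g : V → Option (Fin r)} {m : ℕ} (hC : CNTU_statement) (hG : IsMaximiser r m F G)
    (hI : Indep G g) (ho : (outSet G g).ncard = r) :
    2 * m + 2 * (missSet G g).ncard + ∑ t, siz g t ^ 2 = (∑ t, siz g t) ^ 2 + 2 * r := by
  have h8 := edges hC G g hI
  rw [ho, hG.1.size] at h8
  exact h8

/-- graphs of type `S` with the right number of edges are not better -/
theorem lam_le {U W : Type} [Fintype U] [Fintype W] {F : SimpleGraph W} {G : SimpleGraph V}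
    {g : V → Option (Fin r)} {m : ℕ}
    (hC : CNTU_statement) (hM : MEMX_statement) (hMw : MEMW_statement) (hr : 3 ≤ r)
    (hF : Gen2 r F) (hG : IsMaximiser r m F G)
    (hI : Indep G g) (ho : (outSet G g).ncard = r) {H : SimpleGraph U}
    {f : U → Option (Fin r)} {w : U} {q : Fin r → U} {c : U} {i : Fin r} {L : Finset U}
    (hT : TyS H f w q c i L) (hL : L.card = (missSet G g).ncard)
    (hs : ∀ t, siz f t = siz g t) : lam H ≤ lam G := by
  obtain ⟨h1, h2, h3, h4, h5⟩ := hM r U H f w q c i L hr hT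
  obtain ⟨k1, k2, k3, k4, k5⟩ := hMw r U H f w hr h1 hT.out h5 (fun t => by rw [h3 t])
  obtain ⟨a, b, hab⟩ : ∃ a b : Fin r, a ≠ b :=
    ⟨⟨0, by omega⟩, ⟨1, by omega⟩, by simp⟩
  refine hG.2 U H ⟨k5 W F a b hF hab (h3 a) (h3 b), ?_, k2, k1⟩
  have h8 := edgesG hC hG hI ho
  have h9 : ∑ t, nbn H f w t = r := by
    rw [Finset.sum_congr rfl fun t _ => h3 t]
    simp
  rw [h2, hL, h9] at k4
  simp only [hs] at k4
  omega

/-- existence of the comparison graph -/
theorem comp_exists {W : Type} [Fintype W] {F : SimpleGraph W} {G : SimpleGraph V}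
    {g : V → Option (Fin r)} {m : ℕ} {w : V} {q : Fin r → V}
    (hC : CNTU_statement) (hM : MEMX_statement) (hW : WMB_statement) (hr : 3 ≤ r)
    (hF : Gen2 r F) (hG : IsMaximiser r m F G)
    (hI : Indep G g) (ho : (outSet G g).ncard = r) (out : ∀ v, g v = none ↔ v = w)
    (hq : ∀ t, g (q t) = some t) (wn : ∀ v, G.Adj w v ↔ ∃ t, v = q t)
    (i j : Fin r) (hij : j ≠ i)
    (room : ∀ t, 3 * (missSet G g).ncard + r + 2 ≤ siz g t) :
    ∃ (H : SimpleGraph V) (p : V) (L : Finset V), TyS H g w q p i L ∧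
      L.card = (missSet G g).ncard ∧ (∀ v ∈ L, g v = some j ∧ Cl G g v) ∧
      Cl G g p ∧ (∀ u v, g u = none → u ≠ w → ¬ H.Adj u v) ∧ lam H ≤ lam G := by
  classical
  have hw : g w = none := (out w).2 rfl
  have h1 : ∀ t, (missSet G g).ncard ≤ {v | g v = some t ∧ Cl G g v}.ncard := by
    intro t
    have h2 := clean_card G g t
    have h3 := room t
    omega
  have h2 : ∀ t, ∃ v, g v = some t ∧ Cl G g v := by
    intro t
    by_contra hne
    have h3 : {v | g v = some t ∧ Cl G g v} = ∅ := by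
      ext v
      simp only [Set.mem_setOf_eq, Set.mem_empty_iff_false, iff_false]
      exact fun h => hne ⟨v, h⟩
    have h4 := clean_card G g t
    have h5 := room t
    rw [h3, Set.ncard_empty] at h4
    omega
  obtain ⟨p, hp1, hp2⟩ := h2 i
  obtain ⟨L0, hL0, hL0c⟩ := Set.exists_subset_card_eq (h1 j)
  have hfin : L0.Finite := Set.toFinite _
  have hLc : hfin.toFinset.card = (missSet G g).ncard := by
    rw [← hL0c, ← Set.ncard_eq_toFinset_card L0 hfin]
  have hLm : ∀ v ∈ hfin.toFinset, g v = some j ∧ Cl G g v := by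
    intro v hv
    exact hL0 (hfin.mem_toFinset.1 hv)
  have hcq : ∀ v, Cl G g v → ∀ t, v ≠ q t := by
    intro v hv t h
    exact hv.2 w hw (((wn v).2 ⟨t, h⟩).symm)
  have hT : TyS (HH g w q p hfin.toFinset) g w q p i hfin.toFinset :=
    HH_TyS out hq hij hp1 (hcq p hp2 i) (fun v hv => (hLm v hv).1)
      (fun t ht => hcq _ (hLm _ ht).2 t rfl) (fun t => by
        rw [hLc]
        have := room t
        omega)
  obtain ⟨k1, k2, k3, k4, k5⟩ := hM r V _ g w q p i _ hr hT
  refine ⟨_, p, _, hT, hLc, hLm, hp2, fun u v => HH_light hw u v, ?_⟩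
  have h9 : ∑ t, nbn (HH g w q p hfin.toFinset) g w t = r := by
    rw [Finset.sum_congr rfl fun t _ => k3 t]
    simp
  refine hW W F r m V G _ g w i j hr hF hG hw hij.symm k1 (fun u v => HH_light hw u v)
    (k3 i) (k3 j) (fun t => by rw [k3 t]) k5 ?_
  rw [k2, hLc, h9]
  exact edgesG hC hG hI ho

/-- the main inequality -/
theorem star (hM : MEMX_statement) (hr : 3 ≤ r) {G H : SimpleGraph V}
    {g : V → Option (Fin r)} {w : V} {q : Fin r → V} {p : V} {i j : Fin r} {L : Finset V}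
    {z : V → ℝ} {n : ℕ} {E : ℝ} (hl : 0 < lam G) (hz : ∀ v, 0 ≤ z v)
    (e1 : ∀ v t, g v = some t → lam G * z v = tv g z n t - muv G g z v + omv G g z v)
    (out : ∀ v, g v = none ↔ v = w) (hq : ∀ t, g (q t) = some t)
    (wn : ∀ v, G.Adj w v ↔ ∃ t, v = q t) (hT : TyS H g w q p i L)
    (hL : ∀ v ∈ L, g v = some j ∧ Cl G g v) (hpc : Cl G g p)
    (hS : open Classical in (miss G (fun v => (n : ℝ) - cw z g (g v)) g
        - miss H (fun v => (n : ℝ) - cw z g (g v)) g) / lam G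
      + (∑ v, muv H g z v ^ 2 - ∑ v, muv G g z v ^ 2)
      + (cov H g z w ^ 2 - ∑ v, if g v = none then cov G g z v ^ 2 else 0) ≤ E) :
    (miss G (fun v => (n : ℝ) - cw z g (g v)) g
        - 2 * L.card * (tv g z n i * tv g z n j)) / lam G
      + ((L.card : ℝ) ^ 2 * tv g z n j ^ 2 + L.card * tv g z n i ^ 2) / lam G ^ 2
      - ∑ v, muv G g z v ^ 2 ≤ E := by
  classical
  have hl' := hl.ne'
  -- the missing pairs
  have h1 : miss H (fun v => (n : ℝ) - cw z g (g v)) g =
      2 * L.card * (tv g z n i * tv g z n j) :=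
    miss_TyS hM hr hT (fun v hv => (hL v hv).1) fun o => (n : ℝ) - cw z g o
  rw [h1] at hS
  -- the sum of the squares
  have hzp : z p = tv g z n i / lam G := by
    rw [eq_div_iff hl', mul_comm]
    exact clean_val e1 hT.hc hpc
  have hzL : ∀ v ∈ L, z v = tv g z n j / lam G := by
    intro v hv
    rw [eq_div_iff hl', mul_comm]
    exact clean_val e1 (hL v hv).1 (hL v hv).2
  have h2 := sum_muv hT z
  rw [Finset.sum_congr rfl hzL, Finset.sum_const, nsmul_eq_mul, hzp] at h2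
  have h3 : ((L.card : ℝ) * (tv g z n j / lam G)) ^ 2 + L.card * (tv g z n i / lam G) ^ 2 =
      ((L.card : ℝ) ^ 2 * tv g z n j ^ 2 + L.card * tv g z n i ^ 2) / lam G ^ 2 := by
    field_simp
  rw [h3] at h2
  -- the light vertices
  have h4 : (∑ v, if g v = none then cov G g z v ^ 2 else 0) = cov G g z w ^ 2 := by
    rw [Finset.sum_eq_single w]
    · rw [if_pos ((out w).2 rfl)]
    · intro v _ hv
      rw [if_neg fun h => hv ((out v).1 h)]
    · intro h
      exact absurd (mem_univ _) h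
  rw [h4, cov_w hT.hq hT.wn, cov_w hq wn] at hS
  linarith

/-! ### The end of the proof -/

/-- type `S` from a star of missing pairs -/
theorem TyS_of_star {G : SimpleGraph V} {g : V → Option (Fin r)} {w : V} {q : Fin r → V}
    (hI : Indep G g) (out : ∀ v, g v = none ↔ v = w) (hq : ∀ t, g (q t) = some t)
    (wn : ∀ v, G.Adj w v ↔ ∃ t, v = q t)
    (qc : ∀ t u, g u ≠ none → g u ≠ some t → G.Adj (q t) u) {x : V} {s : Fin r}
    (hx : g x = some s)
    (hst : ∀ e ∈ (MG G g).edgeSet, x ∈ e) (hex : ∃ y, (MG G g).Adj x y)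
    (room : ∀ t, (missSet G g).ncard + 2 ≤ siz g t) :
    ∃ L : Finset V, TyS G g w q x s L ∧ (∀ v ∈ L, (MG G g).Adj x v) := by
  classical
  have hqM : ∀ t y, ¬ (MG G g).Adj (q t) y := by
    intro t y h
    refine h.2.2.2 (qc t y h.2.1 ?_)
    have := h.2.2.1
    rwa [hq] at this
  set L : Finset V := univ.filter fun y => (MG G g).Adj x y with hL
  have hmem : ∀ y, y ∈ L ↔ (MG G g).Adj x y := by
    intro y
    rw [hL, mem_filter]
    exact ⟨fun h => h.2, fun h => ⟨mem_univ _, h⟩⟩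
  have hcard : L.card ≤ (missSet G g).ncard := by
    rw [← Set.ncard_coe_finset]
    apply Set.ncard_le_ncard_of_injOn (fun y => s(x, y)) _ _ (Set.toFinite _)
    · intro y hy
      exact (MG_iff G g _ _).1 ((hmem y).1 hy)
    · intro y _ y' _ h
      simp only [Sym2.eq_iff] at h
      rcases h with h | h
      · exact h.2
      · exact h.2.trans h.1
  refine ⟨L, ⟨out, hq, wn, hx, ?_, ?_, ?_, ?_, ?_⟩, fun v hv => (hmem v).1 hv⟩
  · obtain ⟨y, hy⟩ := hex
    rintro rfl
    exact hqM s y hy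
  · intro v hv
    obtain ⟨h1, h2, h3, h4⟩ := (hmem v).1 hv
    rw [hx] at h3
    exact ⟨h2, h3⟩
  · intro t ht
    exact hqM t x ((hmem _).1 ht).symm
  · intro u v hu hv
    constructor
    · intro h
      refine ⟨fun h' => hI u v hu h' h, ?_, ?_⟩
      · rintro ⟨rfl, hv'⟩
        exact ((hmem v).1 hv').2.2.2 h
      · rintro ⟨rfl, hu'⟩
        exact ((hmem u).1 hu').2.2.2 h.symm
    · rintro ⟨h1, h2, h3⟩
      by_contra h
      have h4 : (MG G g).Adj u v := ⟨hu, hv, h1.symm, h⟩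
      have h5 := hst s(u, v) ((SimpleGraph.mem_edgeSet _).2 h4)
      rw [Sym2.mem_iff] at h5
      rcases h5 with h5 | h5
      · exact h2 ⟨h5.symm, (hmem v).2 (by rw [h5]; exact h4)⟩
      · exact h3 ⟨h5.symm, (hmem u).2 (by rw [h5]; exact h4.symm)⟩
  · intro t
    have := room t
    omega

/-- the triangle is worse -/
theorem tri_main {W : Type} [Fintype W] {F : SimpleGraph W} {G : SimpleGraph V}
    {g : V → Option (Fin r)} {m n : ℕ} {w : V}
    {q : Fin r → V} {C : ℝ} (hC : CNTU_statement) (hM : MEMX_statement) (hMw : MEMW_statement)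
    (hFam : FAMX_statement) (hr : 3 ≤ r) (hF : Gen2 r F)
    (hTRI : ∀ (V U : Type) [Fintype V] [Fintype U]
      (G : SimpleGraph V) (H : SimpleGraph U) (f : V → Option (Fin r)) (f' : U → Option (Fin r))
      (w x y z : V) (w' : U) (q : Fin r → V) (q' : Fin r → U) (c' : U) (i j k : Fin r)
      (L' : Finset U), TyR G f w q x y z → TyS H f' w' q' c' i L' →
      f x = some i → f y = some j → f z = some k →
      NK n C G f → (∀ t, siz f' t = siz f t) → siz f j = siz f i → siz f k = siz f i →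
      lc L' f' j = 2 → lc L' f' k = 1 → L'.card = 3 → lam G < lam H)
    (hG : IsMaximiser r m F G) (hN : NK n C G g) (ho : (outSet G g).ncard = r)
    (out : ∀ v, g v = none ↔ v = w) (hq : ∀ t, g (q t) = some t)
    (wn : ∀ v, G.Adj w v ↔ ∃ t, v = q t)
    (qc : ∀ t u, g u ≠ none → g u ≠ some t → G.Adj (q t) u)
    (room : ∀ t, 5 ≤ siz g t) {A B : ℕ}
    (good : ∀ u v s t, (MG G g).Adj u v → g u = some s → g v = some t →
      (siz g s = A ∧ siz g t = B) ∨ (siz g t = A ∧ siz g s = B))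
    {x y z : V} (hT : Tr (MG G g) x y z) : False := by
  classical
  obtain ⟨h1, h2, h3, h4⟩ := hT
  obtain ⟨s, hs⟩ := Option.ne_none_iff_exists'.1 h1.1
  obtain ⟨t, ht⟩ := Option.ne_none_iff_exists'.1 h2.1
  obtain ⟨k, hk⟩ := Option.ne_none_iff_exists'.1 h2.2.1
  have hqM : ∀ t y, ¬ (MG G g).Adj (q t) y := by
    intro t y h
    refine h.2.2.2 (qc t y h.2.1 ?_)
    have := h.2.2.1
    rwa [hq] at this
  have hst : s ≠ t := by
    rintro rfl
    exact h1.2.2.1 (ht.trans hs.symm)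
  have htk : t ≠ k := by
    rintro rfl
    exact h2.2.2.1 (hk.trans ht.symm)
  have hsk : s ≠ k := by
    rintro rfl
    exact h3.2.2.1 (hk.trans hs.symm)
  have g1 := good _ _ s t h1 hs ht
  have g2 := good _ _ t k h2 ht hk
  have g3 := good _ _ s k h3 hs hk
  have e1 : siz g t = siz g s := by omega
  have e2 : siz g k = siz g s := by omega
  rw [MG_edge] at h4
  have hTy : TyR G g w q x y z := by
    refine ⟨out, hq, wn, by rw [hs]; simp, by rw [ht]; simp, by rw [hk]; simp, ?_, ?_, ?_, ?_, ?_⟩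
    · rw [hs, ht]
      exact fun h => hst (Option.some_injective _ h)
    · rw [ht, hk]
      exact fun h => htk (Option.some_injective _ h)
    · rw [hs, hk]
      exact fun h => hsk (Option.some_injective _ h)
    · intro u
      refine ⟨?_, ?_, ?_⟩
      · rintro rfl
        exact hqM u y h1
      · rintro rfl
        exact hqM u z h2
      · rintro rfl
        exact hqM u y h2.symm
    · intro u v hu hv
      constructor
      · intro h
        refine ⟨fun h' => hN.indep u v hu h' h, ?_⟩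
        have h5 : s(u, v) ∉ missSet G g := fun h' =>
          ((ItemMKH.mem_missSet G g u v).1 h').2.2.2 h
        rw [h4] at h5
        simp only [Set.mem_insert_iff, Set.mem_singleton_iff, not_or] at h5
        exact h5
      · rintro ⟨h5, h6⟩
        by_contra h
        have h7 : s(u, v) ∈ missSet G g := (ItemMKH.mem_missSet G g u v).2 ⟨hu, hv, h5, h⟩
        rw [h4] at h7
        simp only [Set.mem_insert_iff, Set.mem_singleton_iff] at h7
        tauto
  have hxy : x ≠ y := h1.ne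
  have hyz : y ≠ z := h2.ne
  have hxz : x ≠ z := h3.ne
  have hcard : (missSet G g).ncard = 3 := by
    rw [h4]
    have k1 : s(x, y) ≠ s(y, z) := by
      rw [Ne, Sym2.eq_iff]
      tauto
    have k2 : s(x, y) ≠ s(x, z) := by
      rw [Ne, Sym2.eq_iff]
      tauto
    have k3 : s(y, z) ≠ s(x, z) := by
      rw [Ne, Sym2.eq_iff]
      tauto
    rw [Set.ncard_insert_of_notMem (by simp [k1, k2]), Set.ncard_insert_of_notMem (by simp [k3]),
      Set.ncard_singleton]
  set l : Fin r → ℕ := fun u => if u = t then 2 else if u = k then 1 else 0 with hl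
  have hlt : l t = 2 := by rw [hl]; simp
  have hlk : l k = 1 := by rw [hl]; simp [htk.symm]
  have hls : l s = 0 := by rw [hl]; simp [hst, hsk]
  have hsum : ∑ u, l u = 3 := by
    have h5 : ∀ u, l u = (if u = t then 2 else 0) + (if u = k then 1 else 0) := by
      intro u
      by_cases hu : u = t
      · subst hu
        rw [hlt, if_pos rfl, if_neg htk]
      · by_cases hu' : u = k
        · subst hu'
          rw [hlk, if_neg hu, if_pos rfl]
        · rw [hl]
          simp [hu, hu']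
    rw [Finset.sum_congr rfl fun u _ => h5 u, Finset.sum_add_distrib,
      Finset.sum_ite_eq' univ t, Finset.sum_ite_eq' univ k]
    simp
  obtain ⟨K, H, f', w', q', c', L', hT', hLc, hlc, hs'⟩ := hFam r (siz g) l s hr hls
    (fun u => by
      have := room u
      omega)
  have h5 := lam_le hC hM hMw hr hF hG hN.indep ho hT' (by omega) hs'
  have h6 := hTRI V (Fin K) G H g f' w x y z w' q q' c' s t k L' hTy hT' hs ht hk
    hN hs' e1 e2 (by rw [hlc, hlt]) (by rw [hlc, hlk]) (by omega)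
  exact absurd h5 (not_le.2 h6)

/-- the end of the proof -/
theorem final {W : Type} [Fintype W] {F : SimpleGraph W} {G : SimpleGraph V}
    {g : V → Option (Fin r)} {m n : ℕ} {w : V}
    {q : Fin r → V} {C : ℝ} {i j : Fin r} (hC : CNTU_statement) (hM : MEMX_statement)
    (hMw : MEMW_statement) (hFam : FAMX_statement) (hr : 3 ≤ r) (hF : Gen2 r F)
    (hTRI : ∀ (V U : Type) [Fintype V] [Fintype U]
      (G : SimpleGraph V) (H : SimpleGraph U) (f : V → Option (Fin r)) (f' : U → Option (Fin r))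
      (w x y z : V) (w' : U) (q : Fin r → V) (q' : Fin r → U) (c' : U) (i j k : Fin r)
      (L' : Finset U), TyR G f w q x y z → TyS H f' w' q' c' i L' →
      f x = some i → f y = some j → f z = some k →
      NK n C G f → (∀ t, siz f' t = siz f t) → siz f j = siz f i → siz f k = siz f i →
      lc L' f' j = 2 → lc L' f' k = 1 → L'.card = 3 → lam G < lam H)
    (hCEN : ∀ (V U : Type) [Fintype V] [Fintype U]
      (G : SimpleGraph V) (H : SimpleGraph U) (f : V → Option (Fin r)) (f' : U → Option (Fin r))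
      (w : V) (w' : U) (q : Fin r → V) (q' : Fin r → U) (c : V) (c' : U) (s i : Fin r)
      (L : Finset V)
      (L' : Finset U), TyS G f w q c s L → TyS H f' w' q' c' i L' → s ≠ i →
      NK n C G f → (∀ t, siz f' t = siz f t) → siz f s < siz f i → (∀ v ∈ L, f v = some i) →
      (∀ v ∈ L', f' v = some s) → L'.card = L.card → 2 ≤ L.card → lam G < lam H)
    (hG : IsMaximiser r m F G) (hN : NK n C G g) (ho : (outSet G g).ncard = r)
    (out : ∀ v, g v = none ↔ v = w) (hq : ∀ t, g (q t) = some t)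
    (wn : ∀ v, G.Adj w v ↔ ∃ t, v = q t)
    (qc : ∀ t u, g u ≠ none → g u ≠ some t → G.Adj (q t) u)
    (ha : 1 ≤ (missSet G g).ncard)
    (room : ∀ t, 5 ≤ siz g t)
    (room' : ∀ t, (missSet G g).ncard + 2 ≤ siz g t)
    (hi : ∀ t, siz g t ≤ siz g i) (hj : ∀ t, t ≠ i → siz g t ≤ siz g j)
    (good : ∀ u v s t, (MG G g).Adj u v → g u = some s → g v = some t → Gd (siz g) i j s t)
    (hcase : (∃ x, ∀ e ∈ (MG G g).edgeSet, x ∈ e) ∨ ∃ x y z, Tr (MG G g) x y z) :
    ∃ (c : V) (s : Fin r) (L : Finset V), TyS G g w q c s L ∧ ∀ t, siz g t ≤ siz g s := by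
  classical
  obtain ⟨u₀, v₀, hadj⟩ : ∃ u v, (MG G g).Adj u v := by
    by_contra hne
    push Not at hne
    have h1 : missSet G g = ∅ := by
      rw [← MG_edge]
      ext e
      induction e using Sym2.ind with
      | _ u v =>
        rw [SimpleGraph.mem_edgeSet]
        simp [hne u v]
    rw [h1, Set.ncard_empty] at ha
    omega
  rcases hcase with ⟨x, hx⟩ | ⟨x, y, z, hT⟩
  · -- star
    have hmem : s(u₀, v₀) ∈ (MG G g).edgeSet := hadj
    by_cases ha1 : (missSet G g).ncard = 1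
    · -- one missing pair
      rw [← MG_edge] at ha1
      obtain ⟨e, he⟩ := Set.ncard_eq_one.1 ha1
      have he' : e = s(u₀, v₀) := by
        rw [he] at hmem
        exact hmem.symm
      have hall : ∀ e' ∈ (MG G g).edgeSet, e' = s(u₀, v₀) := by
        intro e' h'
        rw [he] at h'
        rw [h', he']
      obtain ⟨s, hs⟩ := Option.ne_none_iff_exists'.1 hadj.1
      obtain ⟨t, ht⟩ := Option.ne_none_iff_exists'.1 hadj.2.1
      rcases good _ _ s t hadj hs ht with h1 | h1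
      · obtain ⟨L, hL, -⟩ := TyS_of_star hN.indep out hq wn qc hs
          (fun e' h' => by rw [hall e' h']; simp) ⟨v₀, hadj⟩ room'
        exact ⟨u₀, s, L, hL, fun u => by rw [h1.1]; exact hi u⟩
      · obtain ⟨L, hL, -⟩ := TyS_of_star hN.indep out hq wn qc ht
          (fun e' h' => by rw [hall e' h']; simp) ⟨u₀, hadj.symm⟩ room'
        exact ⟨v₀, t, L, hL, fun u => by rw [h1.1]; exact hi u⟩
    · -- the centre is `x`
      obtain ⟨y₀, hadj₀⟩ : ∃ y₀, (MG G g).Adj x y₀ := by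
        have h1 := hx _ hmem
        rw [Sym2.mem_iff] at h1
        rcases h1 with rfl | rfl
        · exact ⟨v₀, hadj⟩
        · exact ⟨u₀, hadj.symm⟩
      obtain ⟨s₀, hs₀⟩ := Option.ne_none_iff_exists'.1 hadj₀.1
      obtain ⟨L, hL, hLa⟩ := TyS_of_star hN.indep out hq wn qc hs₀ hx ⟨y₀, hadj₀⟩ room'
      by_cases hmax : siz g s₀ = siz g i
      · exact ⟨x, s₀, L, hL, fun u => by rw [hmax]; exact hi u⟩
      exfalso
      have hLc : (missSet G g).ncard = L.card := (hM r V G g w q x s₀ L hr hL).2.1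
      obtain ⟨t₀, ht₀⟩ := Option.ne_none_iff_exists'.1 hadj₀.2.1
      have hadj₀' := good _ _ s₀ t₀ hadj₀ hs₀ ht₀
      have hsj : siz g s₀ = siz g j := by
        rcases hadj₀' with h | h
        · exact absurd h.1 hmax
        · exact h.2
      have hlt : siz g s₀ < siz g i := lt_of_le_of_ne (hi _) hmax
      have hLi : ∀ v ∈ L, g v = some i := by
        intro v hv
        have h1 := hLa v hv
        obtain ⟨u, hu⟩ := Option.ne_none_iff_exists'.1 h1.2.1
        have h2 := good _ _ s₀ u h1 hs₀ hu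
        by_cases hui : u = i
        · rw [hu, hui]
        · exfalso
          have h3 := hj u hui
          rcases h2 with h2 | h2
          · exact hmax h2.1
          · omega
      have hsi : s₀ ≠ i := by
        rintro rfl
        exact hmax rfl
      set l : Fin r → ℕ := fun u => if u = s₀ then (missSet G g).ncard else 0 with hl
      have hls : l s₀ = (missSet G g).ncard := by rw [hl]; simp
      have hl0 : ∀ u, u ≠ s₀ → l u = 0 := by
        intro u hu
        rw [hl]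
        simp [hu]
      have hsum : ∑ u, l u = (missSet G g).ncard := by
        rw [Finset.sum_eq_single s₀ (fun u _ hu => hl0 u hu)
          fun h => absurd (mem_univ _) h, hls]
      obtain ⟨K, H, f', w', q', c', L', hT', hLc', hlc, hs'⟩ := hFam r (siz g) l i hr
        (hl0 i hsi.symm) (fun u => by
          rw [hsum]
          exact room' u)
      have h5 := lam_le hC hM hMw hr hF hG hN.indep ho hT' (by omega) hs'
      have hL' : ∀ v ∈ L', f' v = some s₀ := by
        intro v hv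
        obtain ⟨u, hu⟩ := Option.ne_none_iff_exists'.1 (hT'.hL v hv).1
        by_cases hus : u = s₀
        · rw [hu, hus]
        · exfalso
          have h6 := hlc u
          rw [hl0 u hus] at h6
          unfold lc at h6
          rw [Set.ncard_eq_zero (Set.toFinite _)] at h6
          have h7 : v ∈ {v | v ∈ L' ∧ f' v = some u} := ⟨hv, hu⟩
          rw [h6] at h7
          exact h7
      have h6 := hCEN V (Fin K) G H g f' w w' q q' x c' s₀ i L L' hL hT' hsi hN hs' hlt hLi hL'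
        (by omega) (by omega)
      exact absurd h5 (not_le.2 h6)
  · -- triangle
    exfalso
    exact tri_main hC hM hMw hFam hr hF hTRI hG hN ho out hq wn qc room good hT

end ItemPSNS

open ItemPSN ItemPSNS in
theorem prfPSNS : P_statement → CNTU_statement → FLU_statement → TCL_statement →
    SWZ_statement → SQE_statement → SQF_statement → CLSS_statement → QCL_statement →
    WMB_statement → FAMX_statement → MEMX_statement → MEMW_statement → CENS_statement →
    TRIS_statement → PSNS_statement := by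
  classical
  intro hP hCN hFLU hTCL hSWZ hSQE hSQF hCLSS hQCL hWMB hFAMX hMEMX hMEMW hCEN hTRI W _ F r C hr
    hF hC
  obtain ⟨C1, n1, hC1, hFLU⟩ := hFLU r C hr hC
  obtain ⟨C2, n2, hC2, hTCL⟩ := hTCL r C hr hC
  obtain ⟨C3, n3, hC3, hSWZ⟩ := hSWZ r C hr hC
  obtain ⟨n4, hCEN⟩ := hCEN r C hr hC
  obtain ⟨n5, hTRI⟩ := hTRI r C hr hC
  obtain ⟨n7, hQCL⟩ := hQCL W F r C hr hF hC
  obtain ⟨A, hAd⟩ : ∃ A : ℝ, A = C + 1 := ⟨_, rfl⟩
  obtain ⟨R, hRd⟩ : ∃ R : ℝ, R = r := ⟨_, rfl⟩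
  have hR3 : 3 ≤ R := by rw [hRd]; exact_mod_cast hr
  have hA1 : 1 ≤ A := by linarith
  obtain ⟨M1, hM1⟩ : ∃ x : ℝ, x = 64 * (C3 * (2 * R + 1) ^ 3 * A ^ 3) := ⟨_, rfl⟩
  obtain ⟨M2, hM2⟩ : ∃ x : ℝ, x = 64 * (10 * R ^ 2) := ⟨_, rfl⟩
  obtain ⟨M3, hM3⟩ : ∃ x : ℝ, x = 64 * (8 * C2 * A ^ 2) := ⟨_, rfl⟩
  obtain ⟨M4, hM4⟩ : ∃ x : ℝ, x = 64 * (10 * A ^ 2 * (8 * A + C1)) := ⟨_, rfl⟩
  obtain ⟨M5, hM5⟩ : ∃ x : ℝ, x = 64 * (8 * C2 * A) := ⟨_, rfl⟩
  obtain ⟨M6, hM6⟩ : ∃ x : ℝ, x = 64 * (2 * C3 * (2 * R + 1) ^ 3 * A ^ 2) := ⟨_, rfl⟩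
  obtain ⟨M7, hM7⟩ : ∃ x : ℝ, x = 64 * (7 * C1 * A) := ⟨_, rfl⟩
  obtain ⟨M8, hM8⟩ : ∃ x : ℝ, x = 64 * C1 := ⟨_, rfl⟩
  obtain ⟨M9, hM9⟩ : ∃ x : ℝ, x = R * C1 := ⟨_, rfl⟩
  obtain ⟨M10, hM10⟩ : ∃ x : ℝ, x = R * (4 * A + R + 5) := ⟨_, rfl⟩
  obtain ⟨M11, hM11⟩ : ∃ x : ℝ, x = 64 * (8 * A + C1) := ⟨_, rfl⟩
  have p1 : 0 ≤ M1 := by rw [hM1]; positivity
  have p2 : 0 ≤ M2 := by rw [hM2]; positivity
  have p3 : 0 ≤ M3 := by rw [hM3]; positivity
  have p4 : 0 ≤ M4 := by rw [hM4]; positivity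
  have p5 : 0 ≤ M5 := by rw [hM5]; positivity
  have p6 : 0 ≤ M6 := by rw [hM6]; positivity
  have p7 : 0 ≤ M7 := by rw [hM7]; positivity
  have p8 : 0 ≤ M8 := by rw [hM8]; positivity
  have p9 : 0 ≤ M9 := by rw [hM9]; positivity
  have p10 : 0 ≤ M10 := by rw [hM10]; positivity
  have p11 : 0 ≤ M11 := by rw [hM11]; positivity
  obtain ⟨M, hM⟩ : ∃ x : ℝ, x = 2 + M1 + M2 + M3 + M4 + M5 + M6 + M7 + M8 + M9 + M10 + M11 :=
    ⟨_, rfl⟩
  obtain ⟨n6, hn6⟩ := exists_nat_ge (M ^ 4)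
  obtain ⟨es, hes⟩ : ∃ x : ℝ, x = 1 / (320 * A ^ 2) := ⟨_, rfl⟩
  have hes0 : 0 < es := by rw [hes]; positivity
  have hes1 : 40 * A ^ 2 * es ≤ 1 / 8 := by
    rw [hes]
    apply le_of_eq
    field_simp
    norm_num
  have hes2 : es ≤ 1 / 320 := by
    rw [hes]
    apply one_div_le_one_div_of_le (by norm_num)
    have : 1 ≤ A ^ 2 := one_le_pow₀ hA1
    linarith
  refine ⟨es ^ 2, by positivity, max n1 (max n2 (max n3 (max n4 (max n5 (max n6 n7))))), ?_⟩
  intro V _ G g n m hn hG hN hdev ho ha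
  simp only [max_le_iff] at hn
  obtain ⟨hn1, hn2, hn3, hn4, hn5, hn6', hn7⟩ := hn
  have hn6r : M ^ 4 ≤ (n : ℝ) := hn6.trans (by exact_mod_cast hn6')
  -- the scale
  obtain ⟨h, hhd⟩ : ∃ h : ℝ, h = Real.sqrt (Real.sqrt n) := ⟨_, rfl⟩
  have hMh : M ≤ h := by
    rw [hhd]
    apply Real.le_sqrt_of_sq_le
    apply Real.le_sqrt_of_sq_le
    have : (M ^ 2) ^ 2 = M ^ 4 := by ring
    rw [this]
    exact hn6r
  have hh2 : 2 ≤ h := by linarith
  have hh0 : 0 < h := by linarith
  have hh1 : 1 ≤ h := by linarith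
  have hs : Real.sqrt n = h ^ 2 := by
    rw [hhd, Real.sq_sqrt (Real.sqrt_nonneg _)]
  have hnh : (n : ℝ) = h ^ 4 := by
    have h1 : (n : ℝ) = Real.sqrt n ^ 2 := (Real.sq_sqrt (Nat.cast_nonneg n)).symm
    rw [h1, hs]
    ring
  have q1 : M1 ≤ h := by linarith only [hM, hMh, p1, p2, p3, p4, p5, p6, p7, p8, p9, p10, p11]
  have q2 : M2 ≤ h := by linarith only [hM, hMh, p1, p2, p3, p4, p5, p6, p7, p8, p9, p10, p11]
  have q3 : M3 ≤ h := by linarith only [hM, hMh, p1, p2, p3, p4, p5, p6, p7, p8, p9, p10, p11]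
  have q4 : M4 ≤ h := by linarith only [hM, hMh, p1, p2, p3, p4, p5, p6, p7, p8, p9, p10, p11]
  have q5 : M5 ≤ h := by linarith only [hM, hMh, p1, p2, p3, p4, p5, p6, p7, p8, p9, p10, p11]
  have q6 : M6 ≤ h := by linarith only [hM, hMh, p1, p2, p3, p4, p5, p6, p7, p8, p9, p10, p11]
  have q7 : M7 ≤ h := by linarith only [hM, hMh, p1, p2, p3, p4, p5, p6, p7, p8, p9, p10, p11]
  have q8 : M8 ≤ h := by linarith only [hM, hMh, p1, p2, p3, p4, p5, p6, p7, p8, p9, p10, p11]
  have q9 : M9 ≤ h := by linarith only [hM, hMh, p1, p2, p3, p4, p5, p6, p7, p8, p9, p10, p11]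
  have q10 : M10 ≤ h := by linarith only [hM, hMh, p1, p2, p3, p4, p5, p6, p7, p8, p9, p10, p11]
  have q11 : M11 ≤ h := by linarith only [hM, hMh, p1, p2, p3, p4, p5, p6, p7, p8, p9, p10, p11]
  have hn0 : (0 : ℝ) < n := by rw [hnh]; positivity
  have hh24 : h ^ 2 ≤ h ^ 4 := pow_le_pow_right₀ hh1 (by norm_num)
  have hh14 : h ≤ h ^ 4 := le_self_pow₀ hh1 (by norm_num)
  have hh12 : h ≤ h ^ 2 := le_self_pow₀ hh1 (by norm_num)
  have hh34 : h ^ 3 ≤ h ^ 4 := pow_le_pow_right₀ hh1 (by norm_num)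
  have hn2' : (2 : ℝ) ≤ n := by rw [hnh]; linarith
  -- the number of missing pairs
  obtain ⟨α, hα⟩ : ∃ x : ℝ, x = ((missSet G g).ncard : ℝ) := ⟨_, rfl⟩
  have hα1 : 1 ≤ α := by rw [hα]; exact_mod_cast ha
  have hfew := hN.few
  rw [ho, ← hα, ← hhd, ← hRd] at hfew
  have hαA : α + 1 ≤ A * h := x1 hAd hh0.le hR3 hfew
  -- the structure
  obtain ⟨w, q, out, hq, wn⟩ := hCLSS r (siz g) (missSet G g).ncard V G g hr
    ⟨fun t => rfl, hN.indep, rfl, ho⟩ hG.1.notPartite hG.1.noIso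
  have qc := hQCL V G g w q n m hn7 hG hN out hq wn
  have hne : Nonempty V := ⟨w⟩
  obtain ⟨⟨z, hz⟩, hFz⟩ := hFLU V G g n hn1 hN
  obtain ⟨f1, f2, f3, f4⟩ := hFz z hz
  rw [hs] at f1
  rw [← hhd] at f2 f3
  rw [hs] at f4
  obtain ⟨t1, t2, t3⟩ := hTCL V G z g n hn2 hN hz
  obtain ⟨l, hld⟩ : ∃ l : ℝ, l = lam G := ⟨_, rfl⟩
  -- the eigenvalue
  have hC1h : C1 * h ≤ n / 64 := by
    rw [hnh]
    exact x2 hh1 (hM8 ▸ q8)
  have hqn : qq r * n = n - n / R := by
    unfold qq
    rw [← hRd]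
    ring
  have hnR : (n : ℝ) / R ≤ n / 3 := div_le_div_of_nonneg_left hn0.le (by norm_num) hR3
  have hRC : C1 * h ≤ n / R := by
    rw [hnh]
    exact x3 hh1 hR3 (hM9 ▸ q9)
  rw [← hld, hqn] at f3
  obtain ⟨f31, f32⟩ := abs_le.1 f3
  have hl : (n : ℝ) / 2 ≤ l := by linarith
  have hl' : l ≤ n := by linarith
  have hl0 : 0 < l := by linarith
  -- sizes
  have hσ : ∀ t, |(siz g t : ℝ) - n / r| ≤ A * h ^ 2 := by
    intro t
    refine siz_dev (by linarith) (by positivity) (by rw [hnh]; ring) hN.tot ?_ t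
    exact hN.dev.trans (mul_le_mul_of_nonneg_right (x4 hC hAd) hn0.le)
  have hσ' : ∀ t, |(siz g t : ℝ) - n / r| ≤ es * h ^ 2 := fun t =>
    siz_dev hes0.le (by positivity) (by rw [hnh]; ring) hN.tot hdev t
  rw [← hRd] at hσ hσ'
  have hroom' : R * (A * h ^ 2 + 3 * (A * h) + R + 2) ≤ n := by
    rw [hnh]
    exact x5 hh1 hA1 hR3 (hM10 ▸ q10)
  have room : ∀ t, 3 * (missSet G g).ncard + r + 2 ≤ siz g t := by
    intro t
    have k1 := (abs_le.1 (hσ t)).1
    have k2 : A * h ^ 2 + 3 * (A * h) + R + 2 ≤ n / R := by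
      rw [le_div_iff₀ (by linarith)]
      linarith
    have k3 : ((3 * (missSet G g).ncard + r + 2 : ℕ) : ℝ) ≤ (siz g t : ℝ) := by
      push_cast
      rw [← hα, ← hRd]
      linarith
    exact_mod_cast k3
  have hDt : ∀ t, 3 / 4 * (n : ℝ) ≤ l + siz g t := by
    intro t
    have k1 := (abs_le.1 (hσ t)).1
    have k2 : A * h ^ 2 ≤ n / 8 := by
      rw [hnh]
      exact x6 hh1 hA1 hR3 (hM10 ▸ q10)
    linarith
  -- bounds of z
  have hz0 := hz.nonneg
  have hZ1 : C1 * h / n ≤ 1 / 64 := by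
    rw [div_le_iff₀ hn0]
    linarith
  have hZ0 : 0 ≤ C1 * h / n := by positivity
  have hκ1 : C1 / h ^ 2 ≤ 1 / 64 := small (hM8 ▸ q8) hh1 2 (by norm_num) hC1
  have hzcore : ∀ v, g v ≠ none → z v ≤ 1 + C1 / h ^ 2 := by
    intro v hv
    have := (abs_le.1 (f1 v hv)).2
    linarith
  have hz2 : ∀ v, z v ≤ 2 := by
    intro v
    by_cases hv : g v = none
    · have := f2 v hv
      linarith
    · have := hzcore v hv
      linarith
  have gw : g w = none := (out w).2 rfl
  have hzw := f2 w gw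
  -- the corrections
  have hX : ∀ t, |cw (fun v => muv G g z v) g (some t) - cw (fun v => omv G g z v) g (some t)|
      ≤ 2 * (α + 1) := by
    intro t
    rw [ItemTCL.cw_muv, ItemTCL.cw_omv]
    have k1 := ItemFLU.mi_le G g z t 2 hz2 (by norm_num)
    have k2 := ItemFLU.li_le G g z t (C1 * h / n) f2 hZ0
    have k3 : 0 ≤ ∑ v, ∑ u, ItemFLU.mi G g z t v u :=
      Finset.sum_nonneg fun v _ => Finset.sum_nonneg fun u _ => ItemFLU.mi_nonneg G g z hz0 t v u
    have k4 : 0 ≤ ∑ v, ∑ u, ItemFLU.li G g z t v u :=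
      Finset.sum_nonneg fun v _ => Finset.sum_nonneg fun u _ => ItemFLU.li_nonneg G g z hz0 t v u
    rw [← hα] at k1
    rw [ho, ← hRd] at k2
    have k5 : R * (C1 * h / n) ≤ 1 := by
      rw [← mul_div_assoc, div_le_one hn0]
      have := mul_le_mul_of_nonneg_left hRC (by linarith : (0 : ℝ) ≤ R)
      rwa [mul_div_cancel₀ _ (by linarith : R ≠ 0)] at this
    rw [abs_le]
    constructor <;> linarith
  have hTd : ∀ s t, tv g z n s - tv g z n t ≤ 2 * (2 * es * h ^ 2) + 8 * (α + 1) / n := by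
    intro s t
    have k1 := t2 s
    have k2 := t2 t
    rw [← hld] at k1 k2
    refine tv_diff hn0 hl hl' (hDt s) (hDt t) k1 k2 (hX s) (hX t) ?_
    have k3 := abs_le.1 (hσ' s)
    have k4 := abs_le.1 (hσ' t)
    rw [abs_le]
    constructor <;> linarith [k3.1, k3.2, k4.1, k4.2]
  obtain ⟨δ, hδ⟩ : ∃ x : ℝ, x = 4 * es * h ^ 2 + 8 * (α + 1) / n + C1 * h / n := ⟨_, rfl⟩
  have hδ0 : 0 ≤ δ := by rw [hδ]; positivity
  have hδ1 : ∀ s t, tv g z n s + z w ≤ tv g z n t + δ := by
    intro s t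
    have := hTd s t
    rw [hδ]
    linarith
  have hδl : δ ≤ l := (x7 hh1 hnh hes2 hαA (hM11 ▸ q11) hC1 hδ).trans hl
  -- the weights
  have hTl : ∀ t, |tv g z n t - l| ≤ C1 * h ^ 2 := by
    intro t
    have := f4 t
    rw [← hld] at this
    exact this
  have hT3 := fun t => x10 hh1 hnh hl hC1 hκ1 (hTl t)
  have hκ' : ∀ t, (1 - 2 * C1 / h ^ 2) * l ≤ tv g z n t := fun t => (hT3 t).1
  have hT : ∀ t, 3 / 4 * l ≤ tv g z n t ∧ tv g z n t ≤ 2 * l := fun t => (hT3 t).2
  have hκ'1 : 2 * C1 / h ^ 2 ≤ 1 := by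
    have : 2 * C1 / h ^ 2 = 2 * (C1 / h ^ 2) := by ring
    linarith only [this, hκ1]
  -- the error in TCL
  obtain ⟨e, he⟩ : ∃ x : ℝ, x = C2 * (α + 1) / n := ⟨_, rfl⟩
  have he0 : 0 ≤ e := by rw [he]; positivity
  have he1 : e ≤ 1 / 32 := by
    rw [he]
    exact x8 hh1 hnh hαA hC2 (hM5 ▸ q5)
  have h3 : ∀ s t, siz g s ≤ siz g t → ((siz g t : ℝ) - siz g s) / 2 - e ≤
      tv g z n s - tv g z n t := by
    intro s t hst
    have := t3 s t hst
    rw [← hα] at this
    rw [he]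
    exact this
  -- the two largest classes
  have hrpos : 0 < r := by omega
  obtain ⟨i, -, hi⟩ := Finset.exists_max_image (univ : Finset (Fin r)) (siz g)
    ⟨⟨0, hrpos⟩, mem_univ _⟩
  have hjne : (univ.erase i : Finset (Fin r)).Nonempty := by
    rw [← Finset.card_pos, Finset.card_erase_of_mem (mem_univ _), Finset.card_univ,
      Fintype.card_fin]
    omega
  obtain ⟨j, hjm, hj⟩ := Finset.exists_max_image (univ.erase i) (siz g) hjne
  have hij : j ≠ i := Finset.ne_of_mem_erase hjm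
  have hi' : ∀ t, siz g t ≤ siz g i := fun t => hi t (mem_univ _)
  have hj' : ∀ t, t ≠ i → siz g t ≤ siz g j := fun t ht =>
    hj t (Finset.mem_erase.2 ⟨ht, mem_univ _⟩)
  -- the comparison graph
  obtain ⟨H, p, L, hTy, hLc, hL, hpc, hHl, hle⟩ := ItemPSNS.comp_exists hCN hMEMX hWMB hr hF hG
    hN.indep ho out hq wn i j hij room
  obtain ⟨m4, m5, m3, m6, m7⟩ := hMEMX r V H g w q p i L hr hTy
  have hNH : NK n C H g := by
    refine ⟨m4, hN.tot, hN.dev, ?_⟩
    rw [m5, m6, hLc, ← hhd, ← hα, ← hRd]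
    exact hfew
  have hS := hSWZ V G H z g w n hn3 hN hNH gw hHl hz hle
  have hstar0 := ItemPSNS.star hMEMX hr (hld ▸ hl0) hz0 t1 out hq wn hTy hL hpc hS
  rw [m5, m6, ho, hLc, ← hα, ← hRd, ← hld] at hstar0
  have hextra : 0 ≤ R * z w / l * (4 * R + R * z w / l) := by
    have k1 : 0 ≤ R * z w / l := div_nonneg (mul_nonneg (by linarith) (hz0 w)) hl0.le
    exact mul_nonneg k1 (by linarith)
  have hstar := hstar0.trans (le_add_of_nonneg_right hextra)
  -- the error term
  have hE := numE (α := α) (R := R) (C3 := C3) (n := n) (l := l) (zw := z w) hα1 hR3 hC3 hn2' hl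
    (hz0 w) (by linarith)
  obtain ⟨E, hEd⟩ : ∃ x : ℝ, x = C3 * (2 * R + 1) ^ 3 * (α + 1) ^ 3 / n + 10 * R ^ 2 / n :=
    ⟨_, rfl⟩
  rw [← hEd] at hE
  have hstar' := hstar.trans hE
  have hnA := numA (es := es) (l := l) (δ := δ) (e := e) hα1 hR3 hC1 hC2 hC3 hA1 hh1 hnh hαA hl he
    hδ hes0.le hes1 (hM1 ▸ q1) (hM2 ▸ q2) (hM3 ▸ q3) (hM4 ▸ q4)
  have hnB := numB (κ := C1 / h ^ 2) (κ' := 2 * C1 / h ^ 2) (e := e) hα1 hR3 hC1 hC2 hC3 hA1 hh1
    hnh hαA he rfl rfl (hM2 ▸ q2) (hM5 ▸ q5) (hM6 ▸ q6) (hM7 ▸ q7)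
  rw [← hEd] at hnA hnB
  -- all missing pairs are good
  have good := caseA (G := G) (g := g) (w := w) (z := z) (n := n) (i := i) (j := j) (e := e)
    (δ := δ) (E := E) hSQE hi' hj' (hld ▸ hl0) hz0 t1 out he0 he1 h3 (hld ▸ hT) hδ1 hδ0
    (hld ▸ hδl) (by rw [← hα, ← hld]; exact hstar') (by rw [← hα, ← hld]; exact hnA)
  -- star or triangle
  have hB := caseB (G := G) (g := g) (z := z) (n := n) (i := i) (j := j) (e := e)
    (κ := C1 / h ^ 2) (κ' := 2 * C1 / h ^ 2) (E := E) hi' hj' (hld ▸ hl0) hz0 he0 h3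
    (hld ▸ hT) hzcore (by positivity) (by linarith only [hκ1]) (hld ▸ hκ') hκ'1
    (by rw [← hα, ← hld]; exact hstar') (by rw [← hα]; exact hnB)
  have hcase : (∃ x, ∀ e ∈ (MG G g).edgeSet, x ∈ e) ∨ ∃ x y z, Tr (MG G g) x y z := by
    rcases hSQF V (MG G g) with k | k | k
    · exact Or.inl k
    · exact Or.inr k
    · exfalso
      rw [MG_edge] at k
      exact hB k
  obtain ⟨c, s, L', hL', hmax⟩ := ItemPSNS.final (C := C) (i := i) (j := j) (n := n) hCN hMEMX
    hMEMW hFAMX hr hF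
    (fun V U _ _ G H f f' w x y z w' q q' c' i j k L' => hTRI V U G H f f' w x y z w' q q' c'
      i j k L' n hn5)
    (fun V U _ _ G H f f' w w' q q' c c' s i L L' => hCEN V U G H f f' w w' q q' c c' s i L L'
      n hn4)
    hG hN ho out hq wn qc ha (fun t => by
      have := room t
      omega) (fun t => by
      have := room t
      omega) hi' hj' good hcase
  exact ⟨w, q, c, s, L', hL', hmax⟩

end MP0c3a8f
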