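import Pool.Agent.Work.MP_0c3a8f_co.PB.Stmts12
import Pool.Agent.Work.MP_0c3a8f_co.Bd.B16

/-!
# MP_0c3a8f_co, PB12: item YNLS (one large class, generic case)
-/

set_option autoImplicit false

open Finset

namespace MP0c3a8f

theorem prfYNLS : CABZ_statement → PZN_statement → PSTS_statement → PEKS_statement →
    MEMZ_statement → YNLS_statement := by
  intro hCABZ hPZN hPSTS hPEKS hMEMZ W _ F r C c hr hF hC hc
  obtain ⟨n₁, h₁⟩ := hCABZ W F r C hr hF hC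
  obtain ⟨n₂, h₂⟩ := hPZN W F r C hr hF hC
  obtain ⟨n₃, h₃⟩ := hPSTS W F r C c hr hF hC hc
  obtain ⟨n₄, h₄⟩ := hPEKS W F r C hr hF hC
  obtain ⟨n₅, h₅⟩ := FNWx.num r C 2 hr hC (by norm_num)
  refine ⟨n₁ + n₂ + n₃ + n₄ + n₅, ?_⟩
  intro V _ G g i n m hn hG hNL
  obtain ⟨s1, _, s3⟩ := h₅ n (by omega)
  rcases h₁ V G g n m (by omega) hG hNL.nk with ⟨o1, o2⟩ | ⟨o1, o2⟩
  · left
    obtain ⟨w, hT⟩ := h₂ V G g n m (by omega) hG hNL.nk o1 o2
    have hone : ∀ t, 1 ≤ siz g t := by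
      intro t
      have h1 := FNWx.siz_low hNL.nk t
      have h2 : 0 ≤ 4 * (C * Real.sqrt (Real.sqrt n)) := by positivity
      have h3 : (1 : ℝ) ≤ siz g t := by linarith
      exact_mod_cast h3
    refine ⟨w, hT, fun t => ?_⟩
    by_contra h0
    exact hG.1.notPartite ((hMEMZ r V G g w hr hT hone).1.2 ⟨t, by omega⟩)
  · right
    obtain ⟨w, q, c₀, L, hT⟩ := h₃ V G g i n m (by omega) hG hNL o2 o1
    obtain ⟨e1, e2⟩ := h₄ V G g w q c₀ i L n m (by omega) hG hNL.nk hT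
    refine ⟨w, q, c₀, i, L, hT, fun t => ?_, e1, e2⟩
    by_cases ht : t = i
    · rw [ht]
    · have h1 := hNL.big t ht
      have h2 : 0 ≤ c * Real.sqrt n := by positivity
      have h3 : (siz g t : ℝ) ≤ siz g i := by linarith
      exact_mod_cast h3

end MP0c3a8f
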