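import Pool.Agent.Work.MP_0c3a8f_co.PB.All11
import Pool.Agent.Work.MP_0c3a8f_co.Bd.B29
import Pool.Agent.Work.MP_0c3a8f_co.PB.ItemFAMX
import Pool.Agent.Work.MP_0c3a8f_co.Bd.B31
import Pool.Agent.Work.MP_0c3a8f_co.Bd.B30
import Pool.Agent.Work.MP_0c3a8f_co.Bd.B32
import Pool.Agent.Work.MP_0c3a8f_co.PB.ItemPSNS
import Pool.Agent.Work.MP_0c3a8f_co.PB.ItemYNLS
import Pool.Agent.Work.MP_0c3a8f_co.PB.ItemGVCG
import Pool.Agent.Work.MP_0c3a8f_co.PB.ItemISOS

/-!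
# MP_0c3a8f_co: all items of the part PB12 (the generic case and the class `Fs`, all sizes) together
-/

namespace MP0c3a8f

theorem bMEMW : MEMW_statement := prfMEMW prfCNTU
theorem bWMB : WMB_statement := prfWMB bRSI bMEMW
theorem bSWYZ : SWYZ_statement := prfSWYZ prfP
theorem bCABZ : CABZ_statement :=
  prfCABZ prfGRD.1 prfCNTU bUPL bLOL bTRK prfFAMZ bMEMZ bMEMW prfMEMX prfFAMX
theorem bPZN : PZN_statement := prfPZN prfP prfCNTU bFLU bWMB bSWYZ
theorem bQCL : QCL_statement := prfQCL prfP bFLU bMVE bWMB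
theorem bPSTS : PSTS_statement :=
  prfPSTS prfP prfCNTU bFLU bTCL bSWZ prfSQE bCLSS bQCL bWMB
theorem bPEKS : PEKS_statement := prfPEKS prfP bFLU bTCL bMVE prfMEMX bWMB
theorem bTVS : TVS_statement := prfTVS prfP
theorem bCENS : CENS_statement := prfCENS prfP bFLU prfTCG bTVS
theorem bTRIS : TRIS_statement := prfTRIS prfP bFLU prfTCG bTVS
theorem bPSNS : PSNS_statement :=
  prfPSNS prfP prfCNTU bFLU bTCL bSWZ prfSQE prfSQF bCLSS bQCL bWMB prfFAMX prfMEMX bMEMW bCENS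
    bTRIS
theorem bYNLS : YNLS_statement := prfYNLS bCABZ bPZN bPSTS bPEKS bMEMZ
theorem bYNBS : YNBS_statement := prfYNBS bCABZ bPZN bPSNS bPEKS bMEMZ
theorem bYABS : YABS_statement := prfYABS bNLV bYNLS bYNBS
theorem bSDZ : SDZ_statement := prfSDZ prfP prfCNTU prfDEV bFLB bWMB bSWYZ bMEMZ prfREL
theorem bJFZT : JFZT_statement := prfJFZT prfEXP prfDEV
theorem bTPZ : TPZ_statement :=
  prfTPZ prfCNTU prfDEV bCSB bSZG bJFZT prfGRT prfFAMZ bMEMZ prfREL
theorem bFINR : FINR_statement := prfFINR bFINX bFNS bGENX bAIK bYABS bYNBS bSDZ bTPZ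
theorem bGENA : GENA_statement := prfGENA prfDEV bFINR bMEMZ bMEMW prfMEMX
theorem bMVM : MVM_statement := prfMVM prfP
theorem bPICKG : PICKG_statement := prfPICKG bMVM bMEMZ
theorem bPICKN : PICKN_statement := prfPICKN prfP bFLU prfTCG bTCL bPICKG
theorem bPICKB : PICKB_statement := prfPICKB prfP prfDEV bFLB prfTCG bMVM bMEMZ bPICKG
theorem bUNV : UNV_statement := prfUNV prfGVCG prfISO0 bMEMZ prfREL
theorem bUNS : UNS_statement := prfUNS bMEMW prfMEMX prfGVG prfISOS prfREL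
theorem bFINF : FINF_statement :=
  prfFINF prfEDG.2 prfDEV bFINR bPICKN bPICKB bMEMZ bMEMW prfMEMX bUNV

end MP0c3a8f
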