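import Pool.Agent.Work.MP_0c3a8f_co.Ext.Stmts

/-!
# MP_0c3a8f_co, phase B (one vertex of linear degree): definitions
-/

open Finset

namespace MP0c3a8f

/-- `1 - 1/r` -/
noncomputable def qq (r : ℕ) : ℝ := 1 - 1 / (r : ℝ)

/-- the sizes of the classes -/
noncomputable def siz {V : Type} {r : ℕ} (g : V → Option (Fin r)) (t : Fin r) : ℕ :=
  {v | g v = some t}.ncard

/-- the numbers of neighbours of `w` in the classes -/
noncomputable def nbn {V : Type} {r : ℕ} (G : SimpleGraph V) (g : V → Option (Fin r)) (w : V)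
    (t : Fin r) : ℕ :=
  {v | g v = some t ∧ G.Adj w v}.ncard

/-- the edges which meet the light vertices (`g v = none` and `v ∉ U`) -/
def lightSet {V : Type} {r : ℕ} (G : SimpleGraph V) (g : V → Option (Fin r)) (U : Finset V) :
    Set (Sym2 V) :=
  {e | e ∈ G.edgeSet ∧ ∃ v ∈ e, g v = none ∧ v ∉ U}

/-- eigenvector with `∑ z² = 2m/l` -/
structure ZD {V : Type} [Fintype V] (G : SimpleGraph V) (z : V → ℝ) (l : ℝ) (m : ℕ) : Prop where
  nonneg : ∀ v, 0 ≤ z v
  lpos : 0 < l
  mpos : 0 < m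
  eig : ∀ v, ∑ u, adj G v u * z u = l * z v
  norm : l * ∑ v, z v ^ 2 = 2 * m
  edges : ∑ i, ∑ j, adj G i j = 2 * m

/-- linear defect (`M` is of the order of the number of vertices of the core) -/
structure Lin {V : Type} [Fintype V] (r : ℕ) (C M : ℝ) (G : SimpleGraph V) (z : V → ℝ)
    (f : V → Option (Fin r)) : Prop where
  nonneg : ∀ v, 0 ≤ z v
  ed : ∑ i, ∑ j, adj G i j * (z i * z j - 1) ^ 2 ≤ C * M
  ms : miss G (fun i => z i ^ 2) f ≤ C * M
  cls : ∀ t, M / C ≤ cw (fun i => z i ^ 2) f (some t)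
  non : cw (fun i => z i ^ 2) f none ≤ C

/-- flat on the core `g v ≠ none`, small on the light vertices (`g v = none`, `v ∉ U`) -/
structure Flat {V : Type} [Fintype V] (r : ℕ) (δ : ℝ) (G : SimpleGraph V) (z : V → ℝ)
    (g : V → Option (Fin r)) (U : Finset V) (m : ℕ) : Prop where
  zd : ZD G z (lam G) m
  indep : Indep G g
  core : ∀ v, g v ≠ none → |z v - 1| ≤ δ
  light : ∀ v, g v = none → v ∉ U → z v ≤ δ
  bd : ∀ v, z v ≤ 1 + δ
  exc : ∀ v ∈ U, g v = none
  low : (2 * qq r - δ) * m ≤ lam G ^ 2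
  up : lam G ^ 2 ≤ 2 * qq r * m

/-- the rough structure -/
structure Rough {V : Type} [Fintype V] (r : ℕ) (δ : ℝ) (K : ℕ) (G : SimpleGraph V) (z : V → ℝ)
    (g : V → Option (Fin r)) (U : Finset V) (m : ℕ) : Prop where
  flat : Flat r δ G z g U m
  cardU : U.card ≤ K
  degU : ∀ v ∈ U, δ / 2 * (qq r * ((∑ t, siz g t : ℕ) : ℝ)) ≤ ((∑ t, nbn G g v t : ℕ) : ℝ) ∧
    ((∑ t, nbn G g v t : ℕ) : ℝ) ≤ (1 - δ / 2) * (qq r * ((∑ t, siz g t : ℕ) : ℝ))
  size : ∀ t, |(siz g t : ℝ) - ((∑ s, siz g s : ℕ) : ℝ) / r| ≤ δ * ((∑ s, siz g s : ℕ) : ℝ)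
  nn : (m : ℝ) ≤ ((∑ t, siz g t : ℕ) : ℝ) ^ 2

/-- complete multipartite core and the set `U`, all other vertices are isolated -/
structure IsKU {V : Type} {r : ℕ} (G : SimpleGraph V) (g : V → Option (Fin r)) (U : Finset V) :
    Prop where
  core : ∀ u v, g u ≠ none → g v ≠ none → (G.Adj u v ↔ g u ≠ g v)
  exc : ∀ v ∈ U, g v = none
  iso : ∀ u v, g u = none → u ∉ U → ¬ G.Adj u v

/-- the graph with complete multipartite core and the edges of `G` between the core and `U` and
inside of `U` -/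
def KU {V : Type} {r : ℕ} (G : SimpleGraph V) (g : V → Option (Fin r)) (U : Finset V) :
    SimpleGraph V where
  Adj u v := (g u ≠ none ∧ g v ≠ none ∧ g u ≠ g v) ∨
    (G.Adj u v ∧ (u ∈ U ∨ v ∈ U) ∧ (g u ≠ none ∨ u ∈ U) ∧ (g v ≠ none ∨ v ∈ U))
  symm := ⟨fun u v h => by
    rcases h with h | h
    · exact Or.inl ⟨h.2.1, h.1, h.2.2.symm⟩
    · exact Or.inr ⟨h.1.symm, h.2.1.symm, h.2.2.2, h.2.2.1⟩⟩
  loopless := ⟨fun u h => by
    rcases h with h | h
    · exact h.2.2 rfl
    · exact G.loopless.irrefl u h.1⟩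

/-- the structure theorem: one vertex `w` of linear degree, bounded defect -/
structure Str {V : Type} [Fintype V] (r N n : ℕ) (δ : ℝ) (G : SimpleGraph V) (z : V → ℝ)
    (g : V → Option (Fin r)) (w : V) (m : ℕ) : Prop where
  flat : Flat r δ G z g {w} m
  tot : ∑ t, siz g t = n
  bnd : ((missSet G g).ncard : ℝ) + ((lightSet G g {w}).ncard : ℝ) + dev (siz g) ≤ N

/-- asymptotic value of `λ²` for a complete multipartite graph with parts `σ t` and a vertex with
`a t` neighbours in the part `t` -/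
noncomputable def Mu (r : ℕ) (σ a : Fin r → ℕ) : ℝ :=
  let n : ℝ := ∑ t, (σ t : ℝ)
  let d : ℝ := ∑ t, (a t : ℝ)
  qq r ^ 2 * n ^ 2 + 2 * d ^ 2 / n - 2 * qq r ^ 2 * dev σ
    - 4 * d * (∑ t, (a t : ℝ) * ((σ t : ℝ) - n / r)) / n ^ 2 + 2 * d ^ 3 / (qq r ^ 2 * n ^ 3)
    - (1 + 2 * qq r) * d ^ 4 / (qq r ^ 2 * n ^ 4)
    - 2 * d ^ 2 * (∑ t, (a t : ℝ) ^ 2) / (qq r ^ 2 * n ^ 4)

/-- asymptotic value of `2(1-1/r)m - λ²` for the same graph -/
noncomputable def Kap (r : ℕ) (σ a : Fin r → ℕ) : ℝ :=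
  qq r * (qq r * (∑ t, (σ t : ℝ)) ^ 2 - dev σ) + 2 * qq r * ∑ t, (a t : ℝ) - Mu r σ a

/-- type one: complete multipartite core without the edge `pp'`, and a vertex `w` -/
structure Ty1 {V : Type} {r : ℕ} (G : SimpleGraph V) (f : V → Option (Fin r)) (w p p' : V)
    (i j : Fin r) : Prop where
  out : ∀ v, f v = none ↔ v = w
  ij : i ≠ j
  hp : f p = some i
  hp' : f p' = some j
  core : ∀ u v, f u ≠ none → f v ≠ none → (G.Adj u v ↔ f u ≠ f v ∧ s(u, v) ≠ s(p, p'))

/-- type two: complete multipartite core, a vertex `w` and a vertex `u` joined to `w` and to one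
vertex `v t` of each part `t ≠ i` -/
structure Ty2 {V : Type} {r : ℕ} (G : SimpleGraph V) (f : V → Option (Fin r)) (w u : V)
    (v : Fin r → V) (i : Fin r) : Prop where
  out : ∀ y, f y = none ↔ y = w ∨ y = u
  ne : w ≠ u
  core : ∀ x y, f x ≠ none → f y ≠ none → (G.Adj x y ↔ f x ≠ f y)
  uw : G.Adj u w
  hv : ∀ t, t ≠ i → f (v t) = some t
  un : ∀ y, f y ≠ none → (G.Adj u y ↔ ∃ t, t ≠ i ∧ y = v t)

/-- thin graphs of type one -/
structure Th1 {V : Type} {r : ℕ} (G : SimpleGraph V) (f : V → Option (Fin r)) (w p p' : V)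
    (i j : Fin r) : Prop where
  ty : Ty1 G f w p p' i j
  wp : G.Adj w p
  wp' : G.Adj w p'
  ni : nbn G f w i = 1
  nj : nbn G f w j = 1
  pos : ∀ t, 1 ≤ nbn G f w t

/-- thin graphs of type two -/
structure Th2 {V : Type} {r : ℕ} (G : SimpleGraph V) (f : V → Option (Fin r)) (w u : V)
    (v : Fin r → V) (i : Fin r) : Prop where
  ty : Ty2 G f w u v i
  ni : nbn G f w i = 0
  pos : ∀ t, t ≠ i → 1 ≤ nbn G f w t
  exc : ∃ t, t ≠ i ∧ ¬ G.Adj w (v t)

/-- balanced part sizes -/
def Bal {V : Type} {r : ℕ} (n : ℕ) (f : V → Option (Fin r)) : Prop :=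
  (∀ t, n / r ≤ siz f t ∧ siz f t ≤ n / r + 1) ∧ ∑ t, siz f t = n

/-- the first family of extremal graphs: `n` vertices in classes of the sizes of the Turán graph
`T_r(n)` (classes `t < n % r` have one vertex more), all edges between different classes except
one edge `p p'` between the classes `0` and `1`, and one new vertex `w` with `D + 1` neighbours:
`p` and `p'` are its only neighbours in the classes `0` and `1`, it has a neighbour in every
class, its neighbours are spread evenly over the other classes of equal size, and if it has two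
neighbours in a large class `t ≥ 2` then it is joined to all vertices of the small classes
`t ≥ 2` -/
def IsG1 {V : Type} (r n D : ℕ) (G : SimpleGraph V) : Prop :=
  ∃ (f : V → Option (Fin r)) (w p p' : V) (i j : Fin r), i.val = 0 ∧ j.val = 1 ∧
    Th1 G f w p p' i j ∧ (∀ t, siz f t = tz r n t) ∧ ∑ t, nbn G f w t = D + 1 ∧
    (∀ s t : Fin r, 2 ≤ s.val → 2 ≤ t.val → tz r n s = tz r n t →
      nbn G f w s ≤ nbn G f w t + 1) ∧
    (∀ s t : Fin r, 2 ≤ s.val → 2 ≤ t.val → tz r n t < tz r n s → 2 ≤ nbn G f w s →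
      nbn G f w t = tz r n t)

/-- the second family of extremal graphs: `n` vertices in classes of the sizes of the Turán graph
`T_r(n)`, all edges between different classes, one new vertex `w` with `D - r` neighbours in
these classes: none in class `0`, at least one in every other class, spread evenly over the
classes `≠ 0` of equal size, and if it has two neighbours in a large class `≠ 0` then it is joined
to all vertices of the small classes `≠ 0`; and one new vertex `u` joined to `w` and to exactly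
one vertex `v t` of each class `t ≠ 0`, where exactly one of the vertices `v t` is not a neighbour
of `w` -/
def IsG2 {V : Type} (r n D : ℕ) (G : SimpleGraph V) : Prop :=
  ∃ (f : V → Option (Fin r)) (w u : V) (v : Fin r → V) (i : Fin r), i.val = 0 ∧
    Th2 G f w u v i ∧ (∃! t, t ≠ i ∧ ¬ G.Adj w (v t)) ∧ (∀ t, siz f t = tz r n t) ∧
    ∑ t, nbn G f w t + r = D ∧
    (∀ s t : Fin r, 1 ≤ s.val → 1 ≤ t.val → tz r n s = tz r n t →
      nbn G f w s ≤ nbn G f w t + 1) ∧
    (∀ s t : Fin r, 1 ≤ s.val → 1 ≤ t.val → tz r n t < tz r n s → 2 ≤ nbn G f w s →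
      nbn G f w t = tz r n t)

end MP0c3a8f
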