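import Pool.Agent.Work.MP_0c3a8f_co.PB.Stmts

/-!
# MP_0c3a8f_co, phase B: the second family
-/

open Finset

namespace MP0c3a8f

namespace ItemFAM2

lemma ncard_lt {n a : ℕ} (h : a ≤ n) : {y : Fin n | y.val < a}.ncard = a := by
  have e : {y : Fin n | y.val < a} = Fin.castLE h '' Set.univ := by
    ext y
    constructor
    · intro hy
      exact ⟨⟨y.val, hy⟩, trivial, rfl⟩
    · rintro ⟨z, -, rfl⟩
      exact z.2
  rw [e, Set.ncard_image_of_injective _ (Fin.castLE_injective h), Set.ncard_univ, Nat.card_fin]

lemma transfer {V : Type} [Fintype V] {r : ℕ} (G : SimpleGraph V) (g : V → Option (Fin r)) :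
    ∃ (k : ℕ) (e : V ≃ Fin k) (H : SimpleGraph (Fin k)) (f : Fin k → Option (Fin r)),
      (∀ x y, H.Adj (e x) (e y) ↔ G.Adj x y) ∧ (∀ x, f (e x) = g x) ∧
      (∀ t, siz f t = siz g t) ∧ ∀ w t, nbn H f (e w) t = nbn G g w t := by
  refine ⟨Fintype.card V, Fintype.equivFin V, G.comap (Fintype.equivFin V).symm,
    fun x => g ((Fintype.equivFin V).symm x), ?_, ?_, ?_, ?_⟩
  · intro x y
    simp
  · intro x
    simp
  · intro t
    unfold siz
    have e : {v : Fin (Fintype.card V) | g ((Fintype.equivFin V).symm v) = some t} =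
        (Fintype.equivFin V) '' {v | g v = some t} := by
      ext x
      constructor
      · intro hx
        exact ⟨(Fintype.equivFin V).symm x, hx, by simp⟩
      · rintro ⟨v, hv, rfl⟩
        simpa using hv
    rw [e, Set.ncard_image_of_injective _ (Fintype.equivFin V).injective]
  · intro w t
    unfold nbn
    have e : {v : Fin (Fintype.card V) | g ((Fintype.equivFin V).symm v) = some t ∧
        (G.comap (Fintype.equivFin V).symm).Adj ((Fintype.equivFin V) w) v} =
        (Fintype.equivFin V) '' {v | g v = some t ∧ G.Adj w v} := by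
      ext x
      constructor
      · intro hx
        refine ⟨(Fintype.equivFin V).symm x, ⟨hx.1, ?_⟩, by simp⟩
        have := hx.2
        simpa using this
      · rintro ⟨v, hv, rfl⟩
        refine ⟨?_, ?_⟩
        · simpa using hv.1
        · simpa using hv.2
    rw [e, Set.ncard_image_of_injective _ (Fintype.equivFin V).injective]

/-- the index of the neighbour of `u` -/
def vi {r : ℕ} (τ : Fin r → ℕ) (t₀ t : Fin r) : ℕ := if t = t₀ then τ t₀ - 1 else 0

/-- the adjacency relation; `none` is the vertex `w`, `some none` the vertex `u` -/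
def rel {r : ℕ} (τ a : Fin r → ℕ) (i t₀ : Fin r) :
    Option (Option (Σ t : Fin r, Fin (τ t))) → Option (Option (Σ t : Fin r, Fin (τ t))) → Prop
  | none, none => False
  | none, some none => True
  | some none, none => True
  | some none, some none => False
  | none, some (some q) => q.2.val < a q.1
  | some (some q), none => q.2.val < a q.1
  | some none, some (some q) => q.1 ≠ i ∧ q.2.val = vi τ t₀ q.1
  | some (some q), some none => q.1 ≠ i ∧ q.2.val = vi τ t₀ q.1
  | some (some q), some (some q') => q.1 ≠ q'.1

/-- the graph -/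
def gr {r : ℕ} (τ a : Fin r → ℕ) (i t₀ : Fin r) :
    SimpleGraph (Option (Option (Σ t : Fin r, Fin (τ t)))) where
  Adj := rel τ a i t₀
  symm := ⟨fun x y h => by
    rcases x with _ | _ | q <;> rcases y with _ | _ | q'
    · exact h
    · exact h
    · exact h
    · exact h
    · exact h
    · exact h
    · exact h
    · exact h
    · exact Ne.symm h⟩
  loopless := ⟨fun x h => by
    rcases x with _ | _ | q
    · exact h
    · exact h
    · exact h rfl⟩

/-- the classes -/
def clF {r : ℕ} (τ : Fin r → ℕ) : Option (Option (Σ t : Fin r, Fin (τ t))) → Option (Fin r)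
  | none => none
  | some none => none
  | some (some q) => some q.1

lemma inj_some {r : ℕ} (τ : Fin r → ℕ) (t : Fin r) :
    Function.Injective (fun y : Fin (τ t) =>
      (some (some ⟨t, y⟩) : Option (Option (Σ t : Fin r, Fin (τ t))))) := by
  intro y y' h
  simp only [Option.some.injEq] at h
  exact eq_of_heq (Sigma.mk.inj h).2

lemma siz_clF {r : ℕ} (τ : Fin r → ℕ) (t : Fin r) : siz (clF τ) t = τ t := by
  unfold siz
  have e : {v | clF τ v = some t} =
      (fun y : Fin (τ t) =>
        (some (some ⟨t, y⟩) : Option (Option (Σ t : Fin r, Fin (τ t))))) '' Set.univ := by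
    ext x
    constructor
    · intro hx
      rcases x with _ | _ | ⟨s, y⟩
      · exact absurd hx (by simp [clF])
      · exact absurd hx (by simp [clF])
      · have hs : s = t := by simpa [clF] using hx
        subst hs
        exact ⟨y, trivial, rfl⟩
    · rintro ⟨y, -, rfl⟩
      rfl
  rw [e, Set.ncard_image_of_injective _ (inj_some τ t), Set.ncard_univ, Nat.card_fin]

lemma nbn_clF {r : ℕ} (τ a : Fin r → ℕ) (i t₀ t : Fin r) (h : a t ≤ τ t) :
    nbn (gr τ a i t₀) (clF τ) none t = a t := by
  unfold nbn
  have e : {v | clF τ v = some t ∧ (gr τ a i t₀).Adj none v} =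
      (fun y : Fin (τ t) => (some (some ⟨t, y⟩) : Option (Option (Σ t : Fin r, Fin (τ t))))) ''
        {y : Fin (τ t) | y.val < a t} := by
    ext x
    constructor
    · intro hx
      rcases x with _ | _ | ⟨s, y⟩
      · exact absurd hx.1 (by simp [clF])
      · exact absurd hx.1 (by simp [clF])
      · have hs : s = t := by simpa [clF] using hx.1
        subst hs
        exact ⟨y, hx.2, rfl⟩
    · rintro ⟨y, hy, rfl⟩
      exact ⟨rfl, hy⟩
  rw [e, Set.ncard_image_of_injective _ (inj_some τ t), ncard_lt h]

end ItemFAM2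

open ItemFAM2 in
theorem prfFAM2 : FAM2_statement := by
  intro r τ a i t₀ hr hai hτi ha ht₀ hat₀
  obtain ⟨k, e, H, f, hadj, hf, hsiz, hnbn⟩ := transfer (gr τ a i t₀) (clF τ)
  have hpos : ∀ t, 0 < τ t := by
    intro t
    by_cases h : t = i
    · rw [h]; exact hτi
    · have := ha t h; omega
  have hle : ∀ t, a t ≤ τ t := by
    intro t
    by_cases h : t = i
    · rw [h, hai]; exact Nat.zero_le _
    · exact (ha t h).2
  have hvi : ∀ t, vi τ t₀ t < τ t := by
    intro t
    unfold vi
    split_ifs with h
    · have := hpos t; rw [h] at this ⊢; omega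
    · exact hpos t
  have hn : ∀ t, nbn H f (e none) t = a t := fun t => by rw [hnbn, nbn_clF _ _ _ _ _ (hle t)]
  have hwv : ∀ t, t ≠ i → (H.Adj (e none) (e (some (some ⟨t, ⟨vi τ t₀ t, hvi t⟩⟩))) ↔ t ≠ t₀) := by
    intro t ht
    rw [hadj]
    show vi τ t₀ t < a t ↔ t ≠ t₀
    unfold vi
    have h1 := ha t ht
    split_ifs with h
    · subst h
      constructor
      · intro h2; omega
      · intro h2; exact absurd rfl h2
    · constructor
      · intro _; exact h
      · intro _; omega
  refine ⟨k, H, f, e none, e (some none), fun t => e (some (some ⟨t, ⟨vi τ t₀ t, hvi t⟩⟩)),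
    ?_, hwv, ?_, hn⟩
  · refine ⟨⟨?_, ?_, ?_, ?_, ?_, ?_⟩, ?_, ?_, ?_⟩
    · intro v
      obtain ⟨x, rfl⟩ := e.surjective v
      rw [hf, e.injective.eq_iff, e.injective.eq_iff]
      rcases x with _ | _ | q <;> simp [clF]
    · intro h
      have := e.injective h
      exact absurd this (by simp)
    · intro u v hu hv
      obtain ⟨x, rfl⟩ := e.surjective u
      obtain ⟨y, rfl⟩ := e.surjective v
      rw [hf] at hu hv
      rw [hadj, hf, hf]
      rcases x with _ | _ | q
      · exact absurd rfl hu
      · exact absurd rfl hu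
      rcases y with _ | _ | q'
      · exact absurd rfl hv
      · exact absurd rfl hv
      have h1 : (gr τ a i t₀).Adj (some (some q)) (some (some q')) ↔ q.1 ≠ q'.1 := Iff.rfl
      rw [h1]
      simp [clF]
    · rw [hadj]
      exact trivial
    · intro t _
      show f (e _) = some t
      rw [hf]
      rfl
    · intro y hy
      obtain ⟨x, rfl⟩ := e.surjective y
      rw [hf] at hy
      rw [hadj]
      rcases x with _ | _ | q
      · exact absurd rfl hy
      · exact absurd rfl hy
      have h1 : (gr τ a i t₀).Adj (some none) (some (some q)) ↔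
          q.1 ≠ i ∧ q.2.val = vi τ t₀ q.1 := Iff.rfl
      rw [h1]
      constructor
      · rintro ⟨h2, h3⟩
        refine ⟨q.1, h2, ?_⟩
        congr 3
        obtain ⟨t, y⟩ := q
        simp only at h3 ⊢
        congr 1
        exact Fin.ext h3
      · rintro ⟨t, ht, h2⟩
        have h3 := e.injective h2
        simp only [Option.some.injEq] at h3
        subst h3
        exact ⟨ht, rfl⟩
    · rw [hn, hai]
    · intro t ht
      rw [hn]
      exact (ha t ht).1
    · exact ⟨t₀, ht₀, fun h => (hwv t₀ ht₀).1 h rfl⟩
  · intro t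
    rw [hsiz, siz_clF]

end MP0c3a8f
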