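import Pool.Agent.Work.MP_0c3a8f_co.PB.Stmts2
import Pool.Agent.Work.MP_0c3a8f_co.PB.ItemJF2

set_option autoImplicit false

open Finset

namespace MP0c3a8f

namespace JFCx

open JF2x

/-- Cauchy on the classes `≠ i, j` -/
lemma cauchyA {r : ℕ} (θ : Fin r → ℝ) (i j : Fin r) (hij : i ≠ j) :
    (∑ t, θ t - θ i - θ j) ^ 2 ≤ ((r : ℝ) - 2) * ∑ t, θ t ^ 2 := by
  classical
  set T : Finset (Fin r) := (Finset.univ.erase i).erase j with hT
  have hj : j ∈ Finset.univ.erase i := Finset.mem_erase.2 ⟨hij.symm, Finset.mem_univ _⟩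
  have hsum : ∑ t ∈ T, θ t = ∑ t, θ t - θ i - θ j := by
    have h1 := Finset.add_sum_erase (Finset.univ : Finset (Fin r)) θ (Finset.mem_univ i)
    have h2 := Finset.add_sum_erase (Finset.univ.erase i) θ hj
    rw [hT]
    linarith
  have hr2 : 2 ≤ r := by
    have h := Fintype.one_lt_card_iff.2 ⟨i, j, hij⟩
    rw [Fintype.card_fin] at h
    omega
  have hcard : (T.card : ℝ) = (r : ℝ) - 2 := by
    rw [hT, Finset.card_erase_of_mem hj, Finset.card_erase_of_mem (Finset.mem_univ _)]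
    simp only [Finset.card_univ, Fintype.card_fin]
    have : r - 1 - 1 = r - 2 := by omega
    rw [this, Nat.cast_sub hr2]
    norm_num
  have h3 := sq_sum_le_card_mul_sum_sq (s := T) (f := θ)
  rw [hsum, hcard] at h3
  refine h3.trans ?_
  apply mul_le_mul_of_nonneg_left
  · exact Finset.sum_le_sum_of_subset_of_nonneg (Finset.subset_univ _) fun t _ _ => sq_nonneg _
  · have : (2 : ℝ) ≤ r := by exact_mod_cast hr2
    linarith

/-- evenly spread numbers -/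
lemma evenQ {r : ℕ} (θ : Fin r → ℝ) (T : Finset (Fin r)) (κ : ℝ)
    (hκ : ∀ s ∈ T, ∀ t ∈ T, |θ s - θ t| ≤ κ) (hT : T.Nonempty) :
    ∑ t ∈ T, θ t ^ 2 ≤ (∑ t ∈ T, θ t) ^ 2 / T.card + T.card * κ ^ 2 := by
  have hc : (0 : ℝ) < T.card := by exact_mod_cast hT.card_pos
  set μ : ℝ := (∑ t ∈ T, θ t) / T.card with hμ
  have hμ' : ∑ t ∈ T, θ t = T.card * μ := by rw [hμ]; field_simp
  have h1 : ∀ t ∈ T, (θ t - μ) ^ 2 ≤ κ ^ 2 := by
    intro t ht
    have h2 : T.card * (θ t - μ) = ∑ s ∈ T, (θ t - θ s) := by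
      rw [Finset.sum_sub_distrib, hμ']
      simp
      ring
    have h3 : |T.card * (θ t - μ)| ≤ T.card * κ := by
      rw [h2]
      refine (Finset.abs_sum_le_sum_abs _ _).trans ?_
      refine (Finset.sum_le_sum fun s hs => hκ t ht s hs).trans ?_
      simp
    rw [abs_mul, abs_of_pos hc] at h3
    have h4 : |θ t - μ| ≤ κ := le_of_mul_le_mul_left h3 hc
    have := pow_le_pow_left₀ (abs_nonneg _) h4 2
    rwa [sq_abs] at this
  have h5 : ∑ t ∈ T, θ t ^ 2 = ∑ t ∈ T, (θ t - μ) ^ 2 + T.card * μ ^ 2 := by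
    have h6 : ∀ t ∈ T, θ t ^ 2 = (θ t - μ) ^ 2 + (2 * μ * θ t - μ ^ 2) := fun t _ => by ring
    rw [Finset.sum_congr rfl h6, Finset.sum_add_distrib, Finset.sum_sub_distrib,
      ← Finset.mul_sum, hμ']
    simp
    ring
  rw [h5, hμ']
  have h7 : ∑ t ∈ T, (θ t - μ) ^ 2 ≤ T.card * κ ^ 2 := by
    refine (Finset.sum_le_sum h1).trans ?_
    simp
  have h8 : (T.card * μ) ^ 2 / (T.card : ℝ) = T.card * μ ^ 2 := by
    rw [div_eq_iff hc.ne']; ring
  rw [h8]
  linarith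

/-- the main inequality of case B -/
lemma caseB {r ρ : ℕ} (hr : 3 ≤ r) (hρ : ρ < r) (s : Fin r → ℤ) (θ : Fin r → ℝ) (x q E : ℝ)
    (hq : q = 1 - 1 / (r : ℝ)) (hx0 : 0 ≤ x) (hx : x * (r + 1) ≤ 1) (hs : ∑ t, (s t : ℝ) = ρ)
    (hθ : ∀ t, 0 ≤ θ t) (hΘ : ∑ t, θ t ≤ 1) (hE : E = ∑ t, (s t : ℝ) * ((s t : ℝ) - 1)) :
    x ^ 2 / (q * r ^ 2) * ((∑ t, θ t) ^ 2 / ((r : ℝ) - ρ)) ≤
      (q - x) * E + 2 * x / r * ∑ t, θ t * s t + x ^ 2 / (q * r ^ 2) * ∑ t, θ t ^ 2 := by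
  classical
  have hr3 : (3 : ℝ) ≤ r := by exact_mod_cast hr
  have hr0 : (0 : ℝ) < r := by linarith
  have hρr : (ρ : ℝ) + 1 ≤ r := by exact_mod_cast hρ
  have hm : (1 : ℝ) ≤ (r : ℝ) - ρ := by linarith
  have h13 : 1 / (r : ℝ) ≤ 1 / 3 := one_div_le_one_div_of_le (by norm_num) hr3
  have hq23 : 2 / 3 ≤ q := by rw [hq]; linarith
  have hq0 : 0 < q := by linarith
  set lam : ℝ := x ^ 2 / (q * r ^ 2) with hlam
  have hlam0 : 0 ≤ lam := by positivity
  have hx1 : x ≤ 1 / 4 := by nlinarith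
  have hxr : x ≤ 1 / r := by
    rw [le_div_iff₀ hr0]; nlinarith
  -- `lam ≤ x / r`
  have hlamx : lam ≤ x / r := by
    rw [hlam, div_le_div_iff₀ (by positivity) hr0]
    have h1 : x ≤ q * r := by nlinarith
    have h2 : x * (x * r) ≤ (q * r) * (x * r) := mul_le_mul_of_nonneg_right h1 (by positivity)
    calc x ^ 2 * r = x * (x * r) := by ring
      _ ≤ (q * r) * (x * r) := h2
      _ = x * (q * r ^ 2) := by ring
  have hΘ0 : 0 ≤ ∑ t, θ t := Finset.sum_nonneg fun t _ => hθ t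
  have hQ0 : 0 ≤ ∑ t, θ t ^ 2 := Finset.sum_nonneg fun t _ => sq_nonneg _
  by_cases hb : ∀ t, s t = 0 ∨ s t = 1
  · -- balanced
    have hE0 : E = 0 := by
      rw [hE]
      apply Finset.sum_eq_zero
      intro t _
      rcases hb t with h | h <;> rw [h] <;> norm_num
    set L : Finset (Fin r) := Finset.univ.filter (fun t => s t = 1) with hL
    set Sm : Finset (Fin r) := Finset.univ.filter (fun t => ¬ s t = 1) with hSm
    have hcL : (L.card : ℝ) = ρ := by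
      rw [← hs, hL, Finset.card_filter]
      push_cast
      apply Finset.sum_congr rfl
      intro t _
      rcases hb t with h | h <;> simp [h]
    have hcS : (Sm.card : ℝ) = (r : ℝ) - ρ := by
      have h1 := Finset.card_filter_add_card_filter_not (s := (Finset.univ : Finset (Fin r)))
        (fun t => s t = 1)
      rw [Finset.card_univ, Fintype.card_fin] at h1
      have h2 : (L.card : ℝ) + Sm.card = r := by exact_mod_cast h1
      linarith
    have hst : ∑ t, θ t * s t = ∑ t ∈ L, θ t := by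
      rw [hL, Finset.sum_filter]
      apply Finset.sum_congr rfl
      intro t _
      rcases hb t with h | h <;> simp [h]
    set u : ℝ := ∑ t ∈ L, θ t with hu
    set v : ℝ := ∑ t ∈ Sm, θ t with hv
    have huv : ∑ t, θ t = u + v := by
      rw [hu, hv, hL, hSm]
      exact (Finset.sum_filter_add_sum_filter_not _ _ _).symm
    have hu0 : 0 ≤ u := Finset.sum_nonneg fun t _ => hθ t
    have hv0 : 0 ≤ v := Finset.sum_nonneg fun t _ => hθ t
    have hQv : v ^ 2 ≤ ((r : ℝ) - ρ) * ∑ t, θ t ^ 2 := by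
      have h1 := sq_sum_le_card_mul_sum_sq (s := Sm) (f := θ)
      rw [hcS] at h1
      refine h1.trans ?_
      apply mul_le_mul_of_nonneg_left _ (by linarith)
      exact Finset.sum_le_sum_of_subset_of_nonneg (Finset.subset_univ _) fun t _ _ => sq_nonneg _
    have hQv' : v ^ 2 / ((r : ℝ) - ρ) ≤ ∑ t, θ t ^ 2 := by
      rw [div_le_iff₀ (by linarith)]
      linarith
    rw [huv] at hΘ ⊢
    rw [hE0, hst]
    have h2 : (u + v) ^ 2 / ((r : ℝ) - ρ) ≤ v ^ 2 / ((r : ℝ) - ρ) + 2 * u := by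
      have h3 : (u + v) ^ 2 = v ^ 2 + u * (u + 2 * v) := by ring
      rw [h3, add_div]
      have h4 : u * (u + 2 * v) ≤ u * 2 := mul_le_mul_of_nonneg_left (by linarith) hu0
      have h5 : u * (u + 2 * v) / ((r : ℝ) - ρ) ≤ u * (u + 2 * v) := by
        apply div_le_self (by positivity) hm
      linarith
    have h6 : lam * ((u + v) ^ 2 / ((r : ℝ) - ρ)) ≤ lam * (v ^ 2 / ((r : ℝ) - ρ) + 2 * u) :=
      mul_le_mul_of_nonneg_left h2 hlam0
    have h7 : lam * (2 * u) ≤ x / r * (2 * u) := mul_le_mul_of_nonneg_right hlamx (by linarith)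
    have h8 : lam * (v ^ 2 / ((r : ℝ) - ρ)) ≤ lam * ∑ t, θ t ^ 2 :=
      mul_le_mul_of_nonneg_left hQv' hlam0
    have h9 : x / r * (2 * u) = 2 * x / r * u := by ring
    have h10 : lam * (v ^ 2 / ((r : ℝ) - ρ) + 2 * u)
        = lam * (v ^ 2 / ((r : ℝ) - ρ)) + lam * (2 * u) := by ring
    linarith
  · -- unbalanced
    push Not at hb
    obtain ⟨t0, ht0, ht1⟩ := hb
    have hs0 : ∀ t, 0 ≤ (s t : ℝ) * ((s t : ℝ) - 1) := fun t => int_sq _
    have hE2 : 2 ≤ E := by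
      have h1 : (2 : ℝ) ≤ (s t0 : ℝ) * ((s t0 : ℝ) - 1) := by
        have h2 : (2 : ℤ) ≤ s t0 * (s t0 - 1) := by
          rcases le_or_gt (s t0) 0 with h | h
          · have : s t0 ≤ -1 := by omega
            nlinarith
          · have : 2 ≤ s t0 := by omega
            nlinarith
        exact_mod_cast h2
      refine h1.trans ?_
      rw [hE]
      exact Finset.single_le_sum (f := fun t => (s t : ℝ) * ((s t : ℝ) - 1))
        (fun t _ => hs0 t) (Finset.mem_univ t0)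
    have h1 : ∀ t, -(θ t * s t) ≤ θ t * (E / 2) := by
      intro t
      have h2 : -(s t : ℝ) ≤ E / 2 := by
        have h3 : (s t : ℝ) * ((s t : ℝ) - 1) ≤ E := by
          rw [hE]
          exact Finset.single_le_sum (f := fun t => (s t : ℝ) * ((s t : ℝ) - 1))
            (fun t _ => hs0 t) (Finset.mem_univ t)
        rcases le_or_gt 0 (s t) with h | h
        · have : (0 : ℝ) ≤ s t := by exact_mod_cast h
          linarith
        · have : (s t : ℝ) ≤ -1 := by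
            have : s t ≤ -1 := by omega
            exact_mod_cast this
          nlinarith
      have := mul_le_mul_of_nonneg_left h2 (hθ t)
      linarith
    have h2 : -(∑ t, θ t * s t) ≤ (∑ t, θ t) * (E / 2) := by
      rw [← Finset.sum_neg_distrib, Finset.sum_mul]
      exact Finset.sum_le_sum fun t _ => h1 t
    have h3 : (∑ t, θ t) * (E / 2) ≤ E / 2 := by
      have := mul_le_mul_of_nonneg_right hΘ (show 0 ≤ E / 2 by linarith)
      linarith
    have h4 : 2 * x / r * (-(E / 2)) ≤ 2 * x / r * ∑ t, θ t * s t :=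
      mul_le_mul_of_nonneg_left (by linarith) (by positivity)
    have h5 : 2 * x / r * (-(E / 2)) = -(x / r * E) := by ring
    have h6 : (∑ t, θ t) ^ 2 / ((r : ℝ) - ρ) ≤ 1 := by
      rw [div_le_one (by linarith)]
      nlinarith
    have h7 : lam * ((∑ t, θ t) ^ 2 / ((r : ℝ) - ρ)) ≤ lam * 1 :=
      mul_le_mul_of_nonneg_left h6 hlam0
    have h8 : 0 ≤ lam * ∑ t, θ t ^ 2 := mul_nonneg hlam0 hQ0
    have hxr3 : x / r ≤ 1 / 4 / 3 := by
      apply div_le_div₀ (by norm_num) hx1 (by norm_num) hr3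
    have h9 : (q - x - x / r) * 2 ≤ (q - x - x / r) * E :=
      mul_le_mul_of_nonneg_left hE2 (by linarith)
    have h10 : (q - x - x / r) * E = (q - x) * E - x / r * E := by ring
    linarith


lemma rn2 {r n : ℝ} (hr0 : 0 < r) (hn1 : 1 ≤ n) : r * (r / n) ^ 2 ≤ r ^ 3 / n := by
  have h1 : r * (r / n) ^ 2 = r ^ 3 / n * (1 / n) := by ring
  rw [h1]
  have h2 : 1 / n ≤ 1 := by rw [div_le_one (by linarith)]; exact hn1
  exact mul_le_of_le_one_right (by positivity) h2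

lemma lam_le {r x q : ℝ} (hr3 : 3 ≤ r) (hx0 : 0 < x) (hx1 : x ≤ 1) (hq : 2 / 3 ≤ q) :
    x ^ 2 / (q * r ^ 2) ≤ 1 := by
  rw [div_le_one (by positivity)]
  have h1 : x ^ 2 ≤ 1 := pow_le_one₀ hx0.le hx1
  have h2 : (9 : ℝ) ≤ r ^ 2 := by nlinarith
  nlinarith

lemma wsq {y w κ : ℝ} (hy0 : 0 ≤ y) (hwy : y - 2 * κ ≤ w) :
    y ^ 2 - 4 * κ * y ≤ w ^ 2 := by
  rcases le_or_gt 0 (y - 2 * κ) with h | h
  · have h8 : (y - 2 * κ) ^ 2 ≤ w ^ 2 := pow_le_pow_left₀ h hwy 2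
    nlinarith [sq_nonneg κ]
  · have h8 : y * (y - 4 * κ) ≤ 0 := by
      apply mul_nonpos_of_nonneg_of_nonpos hy0
      linarith
    nlinarith [sq_nonneg w]

lemma KK {r n N : ℝ} (hn : 0 < n) :
    (r * (N + r + 1) + r ^ 2 * ((N + 1) * (N + 2)) + 5 * r ^ 2 + 2 * r ^ 3) / n
      = r * (N + r + 1) / n + r * (N + 1) / n * (r * (N + 2)) + 5 * r ^ 2 / n + 2 * r ^ 3 / n := by
  field_simp

/-- case A -/
lemma mainA {r n N ρ : ℕ} (hr : 3 ≤ r) (hn1 : 1 ≤ n) (hρ : ρ ≤ r) (x q E y : ℝ)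
    (hqe : q = 1 - 1 / (r : ℝ)) (hx0 : 0 < x) (hx1 : x ≤ 1) (hqx : 1 / (r : ℝ) ≤ q - x)
    (hE0 : 0 ≤ E) (s : Fin r → ℤ) (hEs : E = ∑ t, (s t : ℝ) * ((s t : ℝ) - 1))
    (hsB : ∀ t, (s t : ℝ) * ((s t : ℝ) - 1) ≤ N) (θ θ' : Fin r → ℝ) (hθ0 : ∀ t, 0 ≤ θ t)
    (hθ1 : ∀ t, θ t ≤ 1 + r * (N + 1) / n) (hθ'0 : ∀ t, 0 ≤ θ' t) (hy : y = r * q * x)
    (hdiff0 : 0 ≤ ∑ t, θ t - ∑ t, θ' t) (hdiff1 : ∑ t, θ t - ∑ t, θ' t ≤ r * (N + r + 1) / n)
    (hΘ'y : ∑ t, θ' t ≤ y) (hyΘ : y ≤ ∑ t, θ t)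
    (hij : ∃ i j, i ≠ j ∧ θ i ≤ r / n ∧ θ j ≤ r / n) (hz : ∀ t, t.val = 0 → θ' t = 0)
    (hev : ∀ u v : Fin r, 1 ≤ u.val → 1 ≤ v.val → |θ' u - θ' v| ≤ r / n) :
    x ^ 4 / (r * ((r : ℝ) - 2)) - (r * ((N : ℝ) + r + 1) + (r : ℝ) ^ 2 * ((N + 1) * (N + 2))
      + 5 * (r : ℝ) ^ 2 + 2 * (r : ℝ) ^ 3) / n ≤
    (q - x) * E + 2 * x / r * (∑ t, θ t * s t - ρ / r * (∑ t, θ t - ∑ t, θ' t))
      + x ^ 2 / (q * r ^ 2) * (∑ t, θ t ^ 2 - ∑ t, θ' t ^ 2) := by
  classical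
  have hrN : 0 < r := by omega
  have hr3 : (3 : ℝ) ≤ r := by exact_mod_cast hr
  have hr0 : (0 : ℝ) < r := by linarith
  have hn1R : (1 : ℝ) ≤ n := by exact_mod_cast hn1
  have hn0 : (0 : ℝ) < n := by linarith
  have h13 : 1 / (r : ℝ) ≤ 1 / 3 := one_div_le_one_div_of_le (by norm_num) hr3
  have hq23 : 2 / 3 ≤ q := by rw [hqe]; linarith
  have hq1 : q ≤ 1 := by
    rw [hqe]
    have : 0 ≤ 1 / (r : ℝ) := by positivity
    linarith
  have hlam1 := lam_le hr3 hx0 hx1 hq23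
  have hrn2 := rn2 hr0 hn1R
  have hρr : (ρ : ℝ) / r ≤ 1 := by
    rw [div_le_one hr0]
    exact_mod_cast hρ
  have hρ0 : 0 ≤ (ρ : ℝ) / r := by positivity
  have h2xr0 : 0 ≤ 2 * x / r := by positivity
  have h2xr : 2 * x / r ≤ 1 := by
    rw [div_le_one hr0]; linarith
  set η : ℝ := r * (N + 1) / n with hη
  have hη0 : 0 ≤ η := by positivity
  set lam : ℝ := x ^ 2 / (q * r ^ 2) with hlam
  have hlam0 : 0 ≤ lam := by positivity
  have hΘ'0 : 0 ≤ ∑ t, θ' t := Finset.sum_nonneg fun t _ => hθ'0 t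
  set Θ := ∑ t, θ t with hΘ
  set Θ' := ∑ t, θ' t with hΘ'
  have hcc : 2 * x / r * (ρ / r * (Θ - Θ')) ≤ Θ - Θ' := by
    have h1 : ρ / r * (Θ - Θ') ≤ Θ - Θ' := mul_le_of_le_one_left hdiff0 hρr
    have h2 : 0 ≤ ρ / r * (Θ - Θ') := mul_nonneg hρ0 hdiff0
    have h3 : 2 * x / r * (ρ / r * (Θ - Θ')) ≤ ρ / r * (Θ - Θ') := mul_le_of_le_one_left h2 h2xr
    linarith only [h1, h3]
  have hy0 : 0 ≤ y := by rw [hy]; positivity
  have h1 : -(∑ t, θ t * s t) ≤ E / 2 + η * (r * (N + 2)) := by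
    have hη2 : ∑ t : Fin r, ((s t : ℝ) * ((s t : ℝ) - 1) / 2 + η * (N + 2))
        = E / 2 + η * (r * (N + 2)) := by
      rw [Finset.sum_add_distrib, ← Finset.sum_div, ← hEs]
      simp
      ring
    rw [← hη2, ← Finset.sum_neg_distrib]
    exact Finset.sum_le_sum fun t _ => term_a (s t) (θ t) η N (hθ0 t) (hθ1 t) hη0 (hsB t)
  have h2 : 2 * x / r * (-(E / 2 + η * (r * (N + 2)))) ≤ 2 * x / r * ∑ t, θ t * s t :=
    mul_le_mul_of_nonneg_left (by linarith only [h1]) h2xr0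
  have h3 : 2 * x / r * (η * (r * (N + 2))) ≤ η * (r * (N + 2)) :=
    mul_le_of_le_one_left (by positivity) h2xr
  have h4 : 0 ≤ (q - x - x / r) * E := by
    apply mul_nonneg _ hE0
    have : x / r ≤ 1 / r := div_le_div_of_nonneg_right hx1 hr0.le
    linarith only [this, hqx]
  -- the squares
  obtain ⟨i1, j1, hij1, hai, haj⟩ := hij
  have h5 := cauchyA θ i1 j1 hij1
  rw [← hΘ] at h5
  set w : ℝ := Θ - θ i1 - θ j1 with hw
  have hwy : y - 2 * (r / n) ≤ w := by rw [hw]; linarith only [hyΘ, hai, haj]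
  have hyr : y ≤ r := by
    rw [hy]
    have h6 : q * x ≤ 1 * 1 := mul_le_mul hq1 hx1 hx0.le (by norm_num)
    have h7 : r * (q * x) ≤ r * (1 * 1) := mul_le_mul_of_nonneg_left h6 hr0.le
    linarith only [h7]
  have h6 : y ^ 2 - 4 * r ^ 2 / n ≤ w ^ 2 := by
    have h7 := wsq hy0 hwy
    have h9 : 4 * (r / n) * y ≤ 4 * (r / n) * r := mul_le_mul_of_nonneg_left hyr (by positivity)
    have h10 : 4 * ((r : ℝ) / n) * r = 4 * r ^ 2 / n := by ring
    linarith only [h7, h9, h10]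
  have hr2 : (1 : ℝ) ≤ (r : ℝ) - 2 := by linarith only [hr3]
  have h7 : y ^ 2 / ((r : ℝ) - 2) - 4 * r ^ 2 / n ≤ ∑ t, θ t ^ 2 := by
    have h8 : (y ^ 2 - 4 * r ^ 2 / n) / ((r : ℝ) - 2) ≤ ∑ t, θ t ^ 2 := by
      rw [div_le_iff₀ (by linarith only [hr2])]
      linarith only [h5, h6]
    have h9 : 4 * (r : ℝ) ^ 2 / n / ((r : ℝ) - 2) ≤ 4 * r ^ 2 / n :=
      div_le_self (by positivity) hr2
    rw [sub_div] at h8
    linarith only [h8, h9]
  -- the target
  set T : Finset (Fin r) := Finset.univ.filter (fun t => 1 ≤ t.val) with hTd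
  have hTc : (T.card : ℝ) = (r : ℝ) - 1 := by
    have h8 : T = Finset.univ.erase ⟨0, hrN⟩ := by
      ext t
      simp only [hTd, Finset.mem_filter, Finset.mem_univ, true_and, Finset.mem_erase, ne_eq,
        and_true, Fin.ext_iff]
      omega
    rw [h8, Finset.card_erase_of_mem (Finset.mem_univ _), Finset.card_univ, Fintype.card_fin,
      Nat.cast_sub (by omega)]
    norm_num
  have hTne : T.Nonempty := by
    rw [← Finset.card_pos]
    have : (0 : ℝ) < T.card := by rw [hTc]; linarith only [hr3]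
    exact_mod_cast this
  have hκ : ∀ u ∈ T, ∀ v ∈ T, |θ' u - θ' v| ≤ r / n := fun u hu v hv =>
    hev u v (Finset.mem_filter.1 hu).2 (Finset.mem_filter.1 hv).2
  have h8 := evenQ θ' T (r / n) hκ hTne
  have hz0 : ∀ t ∉ T, θ' t = 0 := by
    intro t ht
    apply hz
    by_contra h
    exact ht (Finset.mem_filter.2 ⟨Finset.mem_univ _, by omega⟩)
  have hs1 : ∑ t ∈ T, θ' t = Θ' := by
    rw [hΘ']
    exact Finset.sum_subset (Finset.subset_univ _) fun t _ ht => hz0 t ht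
  have hs2 : ∑ t ∈ T, θ' t ^ 2 = ∑ t, θ' t ^ 2 :=
    Finset.sum_subset (Finset.subset_univ _) fun t _ ht => by rw [hz0 t ht]; ring
  rw [hs1, hs2, hTc] at h8
  have h9 : ∑ t, θ' t ^ 2 ≤ y ^ 2 / ((r : ℝ) - 1) + r ^ 3 / n := by
    have h10 : Θ' ^ 2 / ((r : ℝ) - 1) ≤ y ^ 2 / ((r : ℝ) - 1) := by
      apply div_le_div_of_nonneg_right _ (by linarith only [hr3])
      exact pow_le_pow_left₀ hΘ'0 hΘ'y 2
    have h11 : ((r : ℝ) - 1) * (r / n) ^ 2 ≤ r * (r / n) ^ 2 :=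
      mul_le_mul_of_nonneg_right (by linarith only) (sq_nonneg _)
    linarith only [h8, h10, h11, hrn2]
  have h10 : lam * (y ^ 2 / ((r : ℝ) - 2) - y ^ 2 / ((r : ℝ) - 1)) - (4 * r ^ 2 / n + r ^ 3 / n)
      ≤ lam * (∑ t, θ t ^ 2 - ∑ t, θ' t ^ 2) := by
    have h11 : lam * (y ^ 2 / ((r : ℝ) - 2) - y ^ 2 / ((r : ℝ) - 1)
        - (4 * r ^ 2 / n + r ^ 3 / n)) ≤ lam * (∑ t, θ t ^ 2 - ∑ t, θ' t ^ 2) :=
      mul_le_mul_of_nonneg_left (by linarith only [h7, h9]) hlam0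
    have h12 : lam * (4 * r ^ 2 / n + r ^ 3 / n) ≤ 4 * r ^ 2 / n + r ^ 3 / n :=
      mul_le_of_le_one_left (by positivity) hlam1
    have h13 : lam * (y ^ 2 / ((r : ℝ) - 2) - y ^ 2 / ((r : ℝ) - 1)
        - (4 * r ^ 2 / n + r ^ 3 / n))
      = lam * (y ^ 2 / ((r : ℝ) - 2) - y ^ 2 / ((r : ℝ) - 1))
        - lam * (4 * r ^ 2 / n + r ^ 3 / n) := by ring
    linarith only [h11, h12, h13]
  have h11 : lam * (y ^ 2 / ((r : ℝ) - 2) - y ^ 2 / ((r : ℝ) - 1))
      = x ^ 4 / (r * ((r : ℝ) - 2)) := by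
    have ha1 : (r : ℝ) - 2 ≠ 0 := by linarith only [hr3]
    have ha2 : (r : ℝ) - 1 ≠ 0 := by
      intro h; linarith only [hr3, h]
    have hqr : q = ((r : ℝ) - 1) / r := by rw [hqe]; field_simp
    rw [hlam, hy, hqr]
    field_simp
    ring
  have h13' : 2 * x / r * (-(E / 2 + η * (r * (N + 2))))
      = -(x / r * E) - 2 * x / r * (η * (r * (N + 2))) := by ring
  have h14 : (q - x - x / r) * E = (q - x) * E - x / r * E := by ring
  have h16 : 0 ≤ (r : ℝ) ^ 2 / n := by positivity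
  have h17 : 0 ≤ (r : ℝ) ^ 3 / n := by positivity
  have h18 : 5 * (r : ℝ) ^ 2 / n = 4 * r ^ 2 / n + r ^ 2 / n := by ring
  have h19 : 2 * (r : ℝ) ^ 3 / n = r ^ 3 / n + r ^ 3 / n := by ring
  have h12 : 2 * x / r * (∑ t, θ t * s t - ρ / r * (Θ - Θ'))
      = 2 * x / r * (∑ t, θ t * s t) - 2 * x / r * (ρ / r * (Θ - Θ')) := by ring
  rw [KK hn0, ← hη, h12]
  linarith only [h2, h3, h4, h10, h11, h13', h14, h16, h17, h18, h19, hcc, hdiff1]

/-- case B -/
lemma mainB {r n N ρ : ℕ} (hr : 3 ≤ r) (hn1 : 1 ≤ n) (hρ2 : 2 ≤ ρ) (hρ : ρ < r) (x q E : ℝ)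
    (hqe : q = 1 - 1 / (r : ℝ)) (hx0 : 0 < x) (hxr1 : x * (r + 1) ≤ 1)
    (s : Fin r → ℤ) (hEs : E = ∑ t, (s t : ℝ) * ((s t : ℝ) - 1))
    (hssum : ∑ t, (s t : ℝ) = ρ) (θ θ' i : Fin r → ℝ) (hθ0 : ∀ t, 0 ≤ θ t)
    (hΘ1 : ∑ t, θ t ≤ 1) (hθ'0 : ∀ t, 0 ≤ θ' t)
    (hdiff0 : 0 ≤ ∑ t, θ t - ∑ t, θ' t) (hdiff1 : ∑ t, θ t - ∑ t, θ' t ≤ r * (N + r + 1) / n)
    (hi : ∀ t, i t = if t.val < ρ then 1 else 0) (hisum : ∑ t, i t = ρ)
    (hsm : ∀ t : Fin r, t.val < ρ → θ' t ≤ r / n)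
    (hev : ∀ u v : Fin r, ρ ≤ u.val → ρ ≤ v.val → |θ' u - θ' v| ≤ r / n) :
    - ((r * ((N : ℝ) + r + 1) + (r : ℝ) ^ 2 * ((N + 1) * (N + 2))
      + 5 * (r : ℝ) ^ 2 + 2 * (r : ℝ) ^ 3) / n) ≤
    (q - x) * E + 2 * x / r * (∑ t, θ t * s t - ∑ t, θ' t * i t
        - ρ / r * (∑ t, θ t - ∑ t, θ' t))
      + x ^ 2 / (q * r ^ 2) * (∑ t, θ t ^ 2 - ∑ t, θ' t ^ 2) := by
  classical
  have hrN : 0 < r := by omega
  have hr3 : (3 : ℝ) ≤ r := by exact_mod_cast hr
  have hr0 : (0 : ℝ) < r := by linarith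
  have hn1R : (1 : ℝ) ≤ n := by exact_mod_cast hn1
  have hn0 : (0 : ℝ) < n := by linarith
  have hm1 : (1 : ℝ) ≤ (r : ℝ) - ρ := by
    have : (ρ : ℝ) + 1 ≤ r := by exact_mod_cast hρ
    linarith
  have h13 : 1 / (r : ℝ) ≤ 1 / 3 := one_div_le_one_div_of_le (by norm_num) hr3
  have hq23 : 2 / 3 ≤ q := by rw [hqe]; linarith
  have hx1 : x ≤ 1 := by
    have : 0 ≤ x * r := by positivity
    linarith only [hxr1, this]
  have hlam1 := lam_le hr3 hx0 hx1 hq23
  have hrn2 := rn2 hr0 hn1R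
  have hρr : (ρ : ℝ) / r ≤ 1 := by
    rw [div_le_one hr0]
    exact_mod_cast hρ.le
  have hρ0 : 0 ≤ (ρ : ℝ) / r := by positivity
  have h2xr0 : 0 ≤ 2 * x / r := by positivity
  have h2xr : 2 * x / r ≤ 1 := by
    rw [div_le_one hr0]; linarith only [hx1, hr3]
  have hcB := caseB hr hρ s θ x q E hqe hx0.le hxr1 hssum hθ0 hΘ1 hEs
  set lam : ℝ := x ^ 2 / (q * r ^ 2) with hlam
  have hlam0 : 0 ≤ lam := by positivity
  have hΘ'0 : 0 ≤ ∑ t, θ' t := Finset.sum_nonneg fun t _ => hθ'0 t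
  set Θ := ∑ t, θ t with hΘ
  set Θ' := ∑ t, θ' t with hΘ'
  have hcc : 2 * x / r * (ρ / r * (Θ - Θ')) ≤ Θ - Θ' := by
    have h1 : ρ / r * (Θ - Θ') ≤ Θ - Θ' := mul_le_of_le_one_left hdiff0 hρr
    have h2 : 0 ≤ ρ / r * (Θ - Θ') := mul_nonneg hρ0 hdiff0
    have h3 : 2 * x / r * (ρ / r * (Θ - Θ')) ≤ ρ / r * (Θ - Θ') := mul_le_of_le_one_left h2 h2xr
    linarith only [h1, h3]
  have hrn0 : 0 ≤ (r : ℝ) / n := by positivity
  have hSi : ∑ t, θ' t * i t ≤ (r : ℝ) ^ 2 / n := by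
    have h1 : ∀ t : Fin r, θ' t * i t ≤ (r : ℝ) / n := by
      intro t
      rw [hi]
      split_ifs with h
      · rw [mul_one]
        exact hsm t h
      · rw [mul_zero]
        exact hrn0
    calc ∑ t, θ' t * i t ≤ ∑ _t : Fin r, (r : ℝ) / n := Finset.sum_le_sum fun t _ => h1 t
      _ = (r : ℝ) ^ 2 / n := by simp; ring
  have hSi0 : 0 ≤ ∑ t, θ' t * i t := by
    apply Finset.sum_nonneg
    intro t _
    apply mul_nonneg (hθ'0 t)
    rw [hi]
    split_ifs <;> norm_num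
  -- the squares of the target
  set T : Finset (Fin r) := Finset.univ.filter (fun t => ¬ t.val < ρ) with hTd
  have hTc : (T.card : ℝ) = (r : ℝ) - ρ := by
    rw [hTd, Finset.card_filter]
    push_cast
    rw [← hisum]
    have : (r : ℝ) = ∑ _t : Fin r, (1 : ℝ) := by simp
    rw [this, ← Finset.sum_sub_distrib]
    apply Finset.sum_congr rfl
    intro t _
    rw [hi]
    split_ifs <;> norm_num
  have hTne : T.Nonempty := by
    rw [← Finset.card_pos]
    have : (0 : ℝ) < T.card := by rw [hTc]; linarith only [hm1]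
    exact_mod_cast this
  have hκ : ∀ u ∈ T, ∀ v ∈ T, |θ' u - θ' v| ≤ r / n := fun u hu v hv =>
    hev u v (not_lt.1 (Finset.mem_filter.1 hu).2) (not_lt.1 (Finset.mem_filter.1 hv).2)
  have h8 := evenQ θ' T (r / n) hκ hTne
  rw [hTc] at h8
  have hT1 : ∑ t ∈ T, θ' t ≤ Θ' := by
    rw [hΘ']
    exact Finset.sum_le_sum_of_subset_of_nonneg (Finset.subset_univ _) fun t _ _ => hθ'0 t
  have hT0 : 0 ≤ ∑ t ∈ T, θ' t := Finset.sum_nonneg fun t _ => hθ'0 t
  have h9 : ∑ t, θ' t ^ 2 ≤ Θ' ^ 2 / ((r : ℝ) - ρ) + 2 * r ^ 3 / n := by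
    have h10 : ∑ t, θ' t ^ 2 = ∑ t ∈ Finset.univ.filter (fun t : Fin r => t.val < ρ), θ' t ^ 2
        + ∑ t ∈ T, θ' t ^ 2 := by
      rw [hTd]
      exact (Finset.sum_filter_add_sum_filter_not _ _ _).symm
    have h11 : ∑ t ∈ Finset.univ.filter (fun t : Fin r => t.val < ρ), θ' t ^ 2
        ≤ r * (r / n) ^ 2 := by
      have h12 : ∀ t ∈ Finset.univ.filter (fun t : Fin r => t.val < ρ),
          θ' t ^ 2 ≤ (r / n : ℝ) ^ 2 := by
        intro t ht
        exact pow_le_pow_left₀ (hθ'0 t) (hsm t (Finset.mem_filter.1 ht).2) 2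
      refine (Finset.sum_le_sum h12).trans ?_
      rw [Finset.sum_const, nsmul_eq_mul]
      apply mul_le_mul_of_nonneg_right _ (sq_nonneg _)
      have : (Finset.univ.filter (fun t : Fin r => t.val < ρ)).card ≤ r := by
        refine (Finset.card_le_univ _).trans ?_
        simp
      exact_mod_cast this
    have h13 : (∑ t ∈ T, θ' t) ^ 2 / ((r : ℝ) - ρ) ≤ Θ' ^ 2 / ((r : ℝ) - ρ) := by
      apply div_le_div_of_nonneg_right _ (by linarith only [hm1])
      exact pow_le_pow_left₀ hT0 hT1 2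
    have h14 : ((r : ℝ) - ρ) * (r / n) ^ 2 ≤ r * (r / n) ^ 2 := by
      apply mul_le_mul_of_nonneg_right _ (sq_nonneg _)
      have : (0 : ℝ) ≤ ρ := Nat.cast_nonneg _
      linarith only [this]
    have h15 : 2 * (r : ℝ) ^ 3 / n = r ^ 3 / n + r ^ 3 / n := by ring
    rw [h10, h15]
    linarith only [h11, h8, h13, h14, hrn2]
  have h10 : lam * ∑ t, θ' t ^ 2 ≤ lam * (Θ ^ 2 / ((r : ℝ) - ρ)) + 2 * r ^ 3 / n := by
    have h11 : Θ' ^ 2 / ((r : ℝ) - ρ) ≤ Θ ^ 2 / ((r : ℝ) - ρ) := by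
      apply div_le_div_of_nonneg_right _ (by linarith only [hm1])
      exact pow_le_pow_left₀ hΘ'0 (by linarith only [hdiff0]) 2
    have h12 : lam * ∑ t, θ' t ^ 2 ≤ lam * (Θ ^ 2 / ((r : ℝ) - ρ) + 2 * r ^ 3 / n) :=
      mul_le_mul_of_nonneg_left (by linarith only [h9, h11]) hlam0
    have h13 : lam * (2 * r ^ 3 / n) ≤ 2 * r ^ 3 / n :=
      mul_le_of_le_one_left (by positivity) hlam1
    have h14 : lam * (Θ ^ 2 / ((r : ℝ) - ρ) + 2 * r ^ 3 / n)
        = lam * (Θ ^ 2 / ((r : ℝ) - ρ)) + lam * (2 * r ^ 3 / n) := by ring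
    linarith only [h12, h13, h14]
  have h12 : 2 * x / r * (∑ t, θ t * s t - ∑ t, θ' t * i t - ρ / r * (Θ - Θ'))
      = 2 * x / r * (∑ t, θ t * s t)
      - 2 * x / r * (ρ / r * (Θ - Θ')) - 2 * x / r * ∑ t, θ' t * i t := by
    ring
  have h13' : 2 * x / r * ∑ t, θ' t * i t ≤ r ^ 2 / n := by
    have h15 := mul_le_of_le_one_left hSi0 h2xr
    linarith only [h15, hSi]
  have h16 : 0 ≤ (r : ℝ) ^ 2 / n := by positivity
  have h18 : 5 * (r : ℝ) ^ 2 / n = 4 * (r ^ 2 / n) + r ^ 2 / n := by ring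
  have h19 : 0 ≤ (r : ℝ) * (N + 1) / n * (r * (N + 2)) := by positivity
  have h20 : lam * (∑ t, θ t ^ 2 - ∑ t, θ' t ^ 2)
      = lam * ∑ t, θ t ^ 2 - lam * ∑ t, θ' t ^ 2 := by ring
  rw [KK hn0, h12, h20]
  linarith only [hcB, h10, h13', h16, h18, h19, hcc, hdiff1]

/-- no class is full in case B -/
lemma notfull {r n ρ m0 D q x : ℝ} (hr3 : 3 ≤ r) (hn0 : 0 < n) (hqe : q = 1 - 1 / r)
    (hx0 : 0 < x) (hxr1 : x * (r + 1) ≤ 1) (hDx : D = q * n * x) (hdmR : r * m0 + ρ = n)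
    (hρ : ρ ≤ r) (h3 : m0 ≤ D - r) : False := by
  have hr0 : 0 < r := by linarith
  have h5 : r * D = n * ((r - 1) * x) := by
    rw [hDx, hqe]
    field_simp
  have h6 : (r - 1) * x ≤ 1 := by nlinarith
  have h7 : n * ((r - 1) * x) ≤ n * 1 := mul_le_mul_of_nonneg_left h6 hn0.le
  have h8 : r * m0 ≤ r * (D - r) := mul_le_mul_of_nonneg_left h3 hr0.le
  have h10 : 3 * r ≤ r * r := mul_le_mul_of_nonneg_right hr3 hr0.le
  linarith only [h5, h7, h8, hρ, h10, hdmR, hr3]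

end JFCx

open JF2x JFCx in
theorem prfJFC : EXP_statement → DEV_statement → JFC_statement := by
  classical
  intro hEXP hDev r ε hr hε
  have hrN : 0 < r := by omega
  have hr3 : (3 : ℝ) ≤ r := by exact_mod_cast hr
  have hr0 : (0 : ℝ) < r := by linarith
  have hq := qq_pos hr
  have hq1 := qq_le (r := r)
  set q := qq r with hqd
  have hqe : q = 1 - 1 / (r : ℝ) := rfl
  refine ⟨q * ε, by positivity, ?_⟩
  intro N
  obtain ⟨n1, hn1⟩ := hEXP r (2 * N + r + 2) (q * ε / 4) hr (by positivity)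
  set K' : ℝ := r * ((N : ℝ) + r + 1) + (r : ℝ) ^ 2 * ((N + 1) * (N + 2)) + 5 * (r : ℝ) ^ 2
    + 2 * (r : ℝ) ^ 3 with hK'
  have hK0 : 0 < K' := by positivity
  refine ⟨max n1 (max 1 (max ⌈4 * K' / ε⌉₊ (r * (r + 1) * (N + 1)))), ?_⟩
  intro n hn D hRR hgap σ a a' hσ hdev ha hE hij hT hEv
  have hnn1 : n1 ≤ n := (le_max_left _ _).trans hn
  have hn1' : 1 ≤ n := ((le_max_left _ _).trans (le_max_right _ _)).trans hn
  have hn2 : r * (r + 1) * (N + 1) ≤ n :=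
    ((le_max_right _ _).trans ((le_max_right _ _).trans (le_max_right _ _))).trans hn
  have hnK : 4 * K' / ε ≤ n := by
    have h1 : ⌈4 * K' / ε⌉₊ ≤ n :=
      ((le_max_left _ _).trans ((le_max_right _ _).trans (le_max_right _ _))).trans hn
    exact (Nat.le_ceil _).trans (by exact_mod_cast h1)
  have hn0 : (0 : ℝ) < n := by exact_mod_cast hn1'
  have hn1R : (1 : ℝ) ≤ n := by exact_mod_cast hn1'
  have hK4 : K' / n ≤ ε / 4 := by
    rw [div_le_iff₀ hε] at hnK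
    rw [div_le_iff₀ hn0]
    linarith only [hnK]
  obtain ⟨hD1, hD2⟩ := hRR
  rw [← hqd] at hD1 hD2
  unfold gap at hgap
  rw [← hqd] at hgap
  set x : ℝ := D / (q * n) with hx
  have hqn : 0 < q * n := by positivity
  have hDx : (D : ℝ) = q * n * x := by
    rw [hx]; field_simp
  have hxε : ε ≤ x := by
    rw [hx, le_div_iff₀ hqn]; exact hD1
  have hx0 : 0 < x := by linarith only [hε, hxε]
  have hxX : x ≤ 1 - 2 / (r : ℝ) - ε := by
    rw [hx, div_le_iff₀ hqn]; exact hD2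
  have hir : 0 < 1 / (r : ℝ) := by positivity
  have h2r : 2 / (r : ℝ) = 2 * (1 / r) := by ring
  have hx1 : x ≤ 1 := by linarith only [hxX, hir, h2r, hε]
  have hqx : 1 / (r : ℝ) ≤ q - x := by
    rw [hqe]; linarith only [hxX, hir, h2r, hε]
  have hDn : D ≤ n := by
    have : (D : ℝ) ≤ n := by
      rw [hDx]
      have h1 : q * x ≤ 1 * 1 := mul_le_mul hq1 hx1 hx0.le (by norm_num)
      have h2 : n * (q * x) ≤ n * (1 * 1) := mul_le_mul_of_nonneg_left h1 hn0.le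
      linarith only [h2]
    exact_mod_cast this
  have hTz : ∑ t, tz r n t = n := (hDev r n σ (by omega) hσ).1
  have hE0 := (core hDev hr hn1' σ a a' hσ hdev ha hT).1
  have hexc := exc hDev hr σ hσ
  set E := dev σ - dev (tz r n) with hEd
  have hdT : 0 ≤ dev (tz r n) := by
    unfold dev
    exact Finset.sum_nonneg fun t _ => sq_nonneg _
  have hEN : E ≤ N := by linarith only [hEd, hdev, hdT]
  have hd1 := (hDev r n σ (by omega) hσ).2.2.2.1
  have hd2 := (hDev r n (tz r n) (by omega) hTz).2.2.2.1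
  have hdTr : dev (tz r n) ≤ r := (hDev r n σ (by omega) hσ).2.2.1
  have hER : 2 * (D : ℝ) + 2 + ∑ t, (σ t : ℝ) ^ 2
      = ∑ t, (tz r n t : ℝ) ^ 2 + 2 * ∑ t, (a t : ℝ) := by exact_mod_cast hE
  have hsa : (∑ t, (a t : ℝ)) - D = 1 + E / 2 := by
    rw [hEd, hd1, hd2]
    linarith only [hER]
  have hsa' : (∑ t, (a' t : ℝ)) = D - r := by
    have h1 := hT.2.2.2.1
    have : (∑ t, (a' t : ℝ)) + r = D := by exact_mod_cast h1
    linarith only [this]
  have hN0 : (0 : ℝ) ≤ N := Nat.cast_nonneg _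
  have e1 := hn1 n D σ a hnn1 hσ (by push_cast; linarith only [hdev, hN0, hr0]) ha hDn (by
    push_cast
    rw [hsa, abs_of_nonneg (by linarith only [hE0])]
    linarith only [hEN, hN0, hr0])
  have e2 := hn1 n D (tz r n) a' hnn1 hTz (by push_cast; linarith only [hdTr, hN0]) hT.2.2.1 hDn (by
    rw [hsa']
    push_cast
    rw [show (D : ℝ) - r - D = -r by ring, abs_neg, abs_of_nonneg hr0.le]
    linarith only [hN0])
  have e1' := (abs_le.1 e1).1
  have e2' := (abs_le.1 e2).2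
  clear e1 e2 hn1
  -- notation
  obtain ⟨m0, hm0⟩ : ∃ m0 : ℕ, m0 = n / r := ⟨_, rfl⟩
  obtain ⟨ρ, hρd⟩ : ∃ ρ : ℕ, ρ = n % r := ⟨_, rfl⟩
  have hρ : ρ < r := by rw [hρd]; exact Nat.mod_lt _ (by omega)
  have hdm : r * m0 + ρ = n := by rw [hm0, hρd]; exact Nat.div_add_mod n r
  have hdmR : (r : ℝ) * m0 + ρ = n := by exact_mod_cast hdm
  have hnr : (n : ℝ) / r = m0 + ρ / r := by
    rw [← hdmR]; field_simp
  obtain ⟨s, hsd⟩ : ∃ s : Fin r → ℤ, s = fun t => (σ t : ℤ) - m0 := ⟨_, rfl⟩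
  have hs : ∀ t, (s t : ℝ) = (σ t : ℝ) - m0 := by intro t; rw [hsd]; simp
  have hEs : E = ∑ t, (s t : ℝ) * ((s t : ℝ) - 1) := by
    rw [hexc]
    apply Finset.sum_congr rfl
    intro t _
    rw [hs, hm0]
  have hsB : ∀ t, (s t : ℝ) * ((s t : ℝ) - 1) ≤ N := by
    intro t
    refine le_trans ?_ hEN
    rw [hEs]
    exact Finset.single_le_sum (f := fun t => (s t : ℝ) * ((s t : ℝ) - 1))
      (fun t _ => int_sq _) (Finset.mem_univ t)
  have hssum : ∑ t, (s t : ℝ) = ρ := by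
    have hσR : ∑ t, (σ t : ℝ) = n := by exact_mod_cast hσ
    rw [Finset.sum_congr rfl (fun t _ => hs t), Finset.sum_sub_distrib, hσR]
    simp only [Finset.sum_const, Finset.card_univ, Fintype.card_fin, nsmul_eq_mul]
    linarith only [hdmR]
  obtain ⟨θ, hθd⟩ : ∃ θ : Fin r → ℝ, θ = fun t => r * (a t : ℝ) / n := ⟨_, rfl⟩
  obtain ⟨θ', hθ'd⟩ : ∃ θ' : Fin r → ℝ, θ' = fun t => r * (a' t : ℝ) / n := ⟨_, rfl⟩
  have hθe : ∀ t, r * (a t : ℝ) / n = θ t := fun t => by rw [hθd]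
  have hθ'e : ∀ t, r * (a' t : ℝ) / n = θ' t := fun t => by rw [hθ'd]
  have hθ0 : ∀ t, 0 ≤ θ t := fun t => by rw [← hθe]; positivity
  have hθ'0 : ∀ t, 0 ≤ θ' t := fun t => by rw [← hθ'e]; positivity
  have hρ0R : (0 : ℝ) ≤ ρ := Nat.cast_nonneg _
  have hθ1 : ∀ t, θ t ≤ 1 + r * (N + 1) / n := by
    intro t
    have h1 : (a t : ℝ) ≤ σ t := by exact_mod_cast ha t
    have h2 : (σ t : ℝ) = m0 + s t := by rw [hs]; ring
    have h3 := (abs_le.1 (int_bd (s t) N (hsB t))).2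
    rw [← hθe, div_le_iff₀ hn0, add_mul, div_mul_cancel₀ _ hn0.ne']
    have h4 : (r : ℝ) * a t ≤ r * (m0 + (N + 1)) := by
      apply mul_le_mul_of_nonneg_left _ hr0.le
      linarith only [h1, h2, h3]
    linarith only [h4, hdmR, hρ0R]
  have hΘe : ∑ t, θ t = r / n * ∑ t, (a t : ℝ) := by
    rw [Finset.mul_sum]
    apply Finset.sum_congr rfl
    intro t _
    rw [← hθe]; ring
  have hΘ'e : ∑ t, θ' t = r / n * ∑ t, (a' t : ℝ) := by
    rw [Finset.mul_sum]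
    apply Finset.sum_congr rfl
    intro t _
    rw [← hθ'e]; ring
  obtain ⟨y, hy⟩ : ∃ y : ℝ, y = r * q * x := ⟨_, rfl⟩
  have hyD : r / n * (D : ℝ) = y := by
    rw [hDx, hy]; field_simp
  have hΘy : ∑ t, θ t = y + r / n * (1 + E / 2) := by
    rw [hΘe, ← hyD, ← hsa]; ring
  have hΘ'y : ∑ t, θ' t = y - r / n * r := by
    rw [hΘ'e, ← hyD, hsa']; ring
  have hrn0 : 0 ≤ (r : ℝ) / n := by positivity
  have hdiff : ∑ t, θ t - ∑ t, θ' t = r / n * (1 + E / 2 + r) := by rw [hΘy, hΘ'y]; ring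
  have hdiff0 : 0 ≤ ∑ t, θ t - ∑ t, θ' t := by rw [hdiff]; positivity
  have hdiff1 : ∑ t, θ t - ∑ t, θ' t ≤ r * (N + r + 1) / n := by
    rw [hdiff]
    have : r / n * (1 + E / 2 + r) ≤ r / n * (N + r + 1) :=
      mul_le_mul_of_nonneg_left (by linarith only [hEN, hN0]) hrn0
    calc r / n * (1 + E / 2 + r) ≤ r / n * (N + r + 1) := this
      _ = r * (N + r + 1) / n := by ring
  have hΘ'y' : ∑ t, θ' t ≤ y := by
    rw [hΘ'y]
    have : 0 ≤ (r : ℝ) / n * r := by positivity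
    linarith only [this]
  have hyΘ : y ≤ ∑ t, θ t := by
    rw [hΘy]
    have : 0 ≤ (r : ℝ) / n * (1 + E / 2) := by positivity
    linarith only [this]
  obtain ⟨i, hid⟩ : ∃ i : Fin r → ℝ, i = fun t => if t.val < ρ then 1 else 0 := ⟨_, rfl⟩
  have hie : ∀ t, i t = if t.val < ρ then 1 else 0 := fun t => by rw [hid]
  have hi : ∀ t, (tz r n t : ℝ) = m0 + i t := by
    intro t
    rw [hie]
    simp only [tz]
    push_cast
    rw [hm0, hρd]
  have hisum : ∑ t, i t = ρ := by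
    have hTR : ∑ t, (tz r n t : ℝ) = n := by exact_mod_cast hTz
    have : ∑ t, (tz r n t : ℝ) = ∑ t : Fin r, ((m0 : ℝ) + i t) :=
      Finset.sum_congr rfl (fun t _ => hi t)
    rw [this, Finset.sum_add_distrib] at hTR
    simp only [Finset.sum_const, Finset.card_univ, Fintype.card_fin, nsmul_eq_mul] at hTR
    linarith only [hTR, hdmR]
  have hS : ∑ t, (r * (a t : ℝ) / n) * ((σ t : ℝ) - n / r)
      = ∑ t, θ t * s t - ρ / r * ∑ t, θ t := by
    rw [Finset.mul_sum, ← Finset.sum_sub_distrib]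
    apply Finset.sum_congr rfl
    intro t _
    rw [hs, hnr, hθe]
    ring
  have hS' : ∑ t, (r * (a' t : ℝ) / n) * ((tz r n t : ℝ) - n / r)
      = ∑ t, θ' t * i t - ρ / r * ∑ t, θ' t := by
    rw [Finset.mul_sum, ← Finset.sum_sub_distrib]
    apply Finset.sum_congr rfl
    intro t _
    rw [hi, hnr, hθ'e]
    ring
  have hQ : ∑ t, (r * (a t : ℝ) / n) ^ 2 = ∑ t, θ t ^ 2 :=
    Finset.sum_congr rfl fun t _ => by rw [hθe]
  have hQ' : ∑ t, (r * (a' t : ℝ) / n) ^ 2 = ∑ t, θ' t ^ 2 :=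
    Finset.sum_congr rfl fun t _ => by rw [hθ'e]
  have hKx : Kx r n D σ a - Kx r n D (tz r n) a'
      = 2 * q * ((1 - 2 * x) * ((∑ t, (a t : ℝ)) - ∑ t, (a' t : ℝ)) + (1 / 2 - 1 / (r : ℝ)) * E
        + 2 * x / r * (∑ t, θ t * s t - ∑ t, θ' t * i t
          - ρ / r * (∑ t, θ t - ∑ t, θ' t))
        + x ^ 2 / (q * r ^ 2) * (∑ t, θ t ^ 2 - ∑ t, θ' t ^ 2)) := by
    unfold Kx
    simp only [← hqd, ← hx]
    rw [hS, hS', hQ, hQ', hEd]
    ring
  have hdist : ∀ u v : Fin r, 1 ≤ u.val → 1 ≤ v.val → tz r n u = tz r n v →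
      |θ' u - θ' v| ≤ r / n := by
    intro u v hu1 hv1 huv
    have h8 := hEv u v hu1 hv1 huv
    have h9 := hEv v u hv1 hu1 huv.symm
    have h8' : (a' u : ℝ) ≤ a' v + 1 := by exact_mod_cast h8
    have h9' : (a' v : ℝ) ≤ a' u + 1 := by exact_mod_cast h9
    have h10 : θ' u - θ' v = r / n * ((a' u : ℝ) - a' v) := by rw [← hθ'e, ← hθ'e]; ring
    rw [h10, abs_mul, abs_of_nonneg hrn0]
    apply mul_le_of_le_one_right hrn0
    rw [abs_le]
    constructor
    · linarith only [h9']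
    · linarith only [h8']
  -- the main inequality
  have hmain : ε - K' / n ≤ 2 - 2 * (r + 1) * x + ((q - x) * E
      + 2 * x / r * (∑ t, θ t * s t - ∑ t, θ' t * i t
          - ρ / r * (∑ t, θ t - ∑ t, θ' t))
      + x ^ 2 / (q * r ^ 2) * (∑ t, θ t ^ 2 - ∑ t, θ' t ^ 2)) := by
    by_cases hρ1 : ρ ≤ 1
    · -- case A
      have hg : 2 * ((r : ℝ) + 1) * x - 2 - x ^ 4 / (r * ((r : ℝ) - 2)) ≤ -ε := by
        have : n % r ≤ 1 := by rw [← hρd]; exact hρ1
        rw [if_pos this] at hgap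
        exact hgap
      have hz : ∀ t, t.val = 0 → θ' t = 0 := by
        intro t h0
        rw [← hθ'e, hT.1 t h0]
        simp
      have hzs : ∑ t, θ' t * i t = 0 := by
        apply Finset.sum_eq_zero
        intro t _
        rw [hie]
        split_ifs with h
        · rw [hz t (by omega), zero_mul]
        · rw [mul_zero]
      have hij' : ∃ i j, i ≠ j ∧ θ i ≤ r / n ∧ θ j ≤ r / n := by
        obtain ⟨i1, j1, hij1, hai, haj⟩ := hij
        have hh : ∀ t, a t ≤ 1 → θ t ≤ r / n := by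
          intro t ht
          rw [← hθe]
          apply div_le_div_of_nonneg_right _ hn0.le
          have : (a t : ℝ) ≤ 1 := by exact_mod_cast ht
          exact mul_le_of_le_one_right hr0.le this
        exact ⟨i1, j1, hij1, hh i1 hai, hh j1 haj⟩
      have hA := mainA (N := N) hr hn1' hρ.le x q E y hqe hx0 hx1 hqx hE0 s hEs hsB θ θ' hθ0 hθ1
        hθ'0 hy hdiff0 hdiff1 hΘ'y' hyΘ hij' hz (by
          intro u v hu hv
          apply hdist u v hu hv
          simp only [tz]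
          rw [← hρd, if_neg (by omega), if_neg (by omega)])
      rw [← hK'] at hA
      rw [hzs, sub_zero]
      linarith only [hA, hg]
    · -- case B
      have hg : 2 * ((r : ℝ) + 1) * x - 2 ≤ -ε := by
        have : ¬ n % r ≤ 1 := by rw [← hρd]; exact hρ1
        rw [if_neg this, sub_zero] at hgap
        exact hgap
      have hxr1 : x * (r + 1) ≤ 1 := by linarith only [hg, hε]
      have hn2R : (r : ℝ) * (r + 1) * (N + 1) ≤ n := by exact_mod_cast hn2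
      have hΘ1 : ∑ t, θ t ≤ 1 := by
        rw [hΘy]
        have h1 : y = (r - 1) * x := by
          rw [hy, hqe]; field_simp
        have h2 : r / n * (1 + E / 2) ≤ 1 / (r + 1) := by
          rw [le_div_iff₀ (by positivity)]
          have h3 : r / n * (1 + E / 2) * (r + 1) = r * (r + 1) * (1 + E / 2) / n := by ring
          rw [h3, div_le_one hn0]
          refine le_trans ?_ hn2R
          apply mul_le_mul_of_nonneg_left _ (by positivity)
          linarith only [hEN, hN0]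
        have h4 : (r - 1) * x ≤ (r - 1) / (r + 1) := by
          rw [le_div_iff₀ (by positivity)]
          have h5 : ((r : ℝ) - 1) * (x * (r + 1)) ≤ (r - 1) * 1 :=
            mul_le_mul_of_nonneg_left hxr1 (by linarith only [hr3])
          linarith only [h5]
        have h5 : ((r : ℝ) - 1) / (r + 1) + 1 / (r + 1) ≤ 1 := by
          rw [← add_div, div_le_one (by positivity)]
          linarith only
        rw [h1]
        linarith only [h2, h4, h5]
      -- the second alternative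
      have hg4 : ∀ t : Fin r, 1 ≤ t.val → n / r < tz r n t → a' t = 1 := by
        rcases hT.2.2.2.2 with h | h
        · exfalso
          have h1 : tz r n ⟨r - 1, by omega⟩ = n / r := by
            simp only [tz]
            rw [← hρd, if_neg (by omega), add_zero]
          have h2 := h ⟨r - 1, by omega⟩ (by simp only; omega) h1
          rw [h1, ← hm0] at h2
          have h3 : (m0 : ℝ) ≤ ∑ t, (a' t : ℝ) := by
            have h4 : ((a' ⟨r - 1, by omega⟩ : ℕ) : ℝ) ≤ ∑ t, (a' t : ℝ) :=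
              Finset.single_le_sum (f := fun t => (a' t : ℝ)) (fun t _ => Nat.cast_nonneg _)
                (Finset.mem_univ _)
            rw [h2] at h4
            exact h4
          rw [hsa'] at h3
          exact notfull hr3 hn0 hqe hx0 hxr1 hDx hdmR (by exact_mod_cast hρ.le) h3
        · exact h
      have hsm : ∀ t : Fin r, t.val < ρ → θ' t ≤ r / n := by
        intro t h
        rw [← hθ'e]
        apply div_le_div_of_nonneg_right _ hn0.le
        have h5 : (a' t : ℝ) ≤ 1 := by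
          by_cases h0 : t.val = 0
          · rw [hT.1 t h0]; simp
          · have h6 : n / r < tz r n t := by
              simp only [tz]
              rw [← hρd, if_pos h]
              omega
            rw [hg4 t (by omega) h6]
            simp
        exact mul_le_of_le_one_right hr0.le h5
      have hB := mainB (N := N) hr hn1' (by omega) hρ x q E hqe hx0 hxr1 s hEs hssum θ θ' i hθ0
        hΘ1 hθ'0 hdiff0 hdiff1 hie hisum hsm (by
          intro u v hu hv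
          apply hdist u v (by omega) (by omega)
          simp only [tz]
          rw [← hρd, if_neg (by omega), if_neg (by omega)])
      rw [← hK'] at hB
      linarith only [hB, hg]
  have hJ : 3 / 4 * ε ≤ (1 - 2 * x) * ((∑ t, (a t : ℝ)) - ∑ t, (a' t : ℝ))
        + (1 / 2 - 1 / (r : ℝ)) * E
        + 2 * x / r * (∑ t, θ t * s t - ∑ t, θ' t * i t
          - ρ / r * (∑ t, θ t - ∑ t, θ' t))
        + x ^ 2 / (q * r ^ 2) * (∑ t, θ t ^ 2 - ∑ t, θ' t ^ 2) + (1 - r) := by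
    have h1 : (1 - 2 * x) * ((∑ t, (a t : ℝ)) - ∑ t, (a' t : ℝ))
        = (1 - 2 * x) * (1 + E / 2 + r) := by
      rw [hsa', ← hsa]; ring
    rw [h1]
    have h3 : (1 - 2 * x) * (1 + E / 2 + r) + (1 / 2 - 1 / (r : ℝ)) * E + (1 - r)
        = 2 - 2 * (r + 1) * x + (q - x) * E := by
      rw [hqe]; ring
    linarith only [h3, hmain, hK4]
  have hfin := mul_le_mul_of_nonneg_left hJ (show (0 : ℝ) ≤ 2 * q by positivity)
  have h9 : 2 * q * ((1 - 2 * x) * ((∑ t, (a t : ℝ)) - ∑ t, (a' t : ℝ))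
        + (1 / 2 - 1 / (r : ℝ)) * E
        + 2 * x / r * (∑ t, θ t * s t - ∑ t, θ' t * i t
          - ρ / r * (∑ t, θ t - ∑ t, θ' t))
        + x ^ 2 / (q * r ^ 2) * (∑ t, θ t ^ 2 - ∑ t, θ' t ^ 2) + (1 - r))
      = (Kx r n D σ a - Kx r n D (tz r n) a') + 2 * q - 2 * q * r := by
    rw [hKx]; ring
  rw [h9] at hfin
  have h10 : 2 * q * (3 / 4 * ε) = q * ε + 2 * (q * ε / 4) := by ring
  rw [h10] at hfin
  linarith only [hfin, e1', e2']

end MP0c3a8f
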