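import Pool.Agent.Work.MP_0c3a8f_co.PB.Stmts10

/-!
# MP_0c3a8f_co: the neighbours of the special vertex and the sizes of the parts, all `F`, all `m`

`q = qq r = 1 - 1/r`.  The proofs are in the specifications (table `helpwanted`).
-/

open Finset

namespace MP0c3a8f

/-- `v` is a vertex of a part, joined to all vertices of the other parts and to no vertex outside
of the parts, with the possible exception of `w` -/
def Cln {V : Type} {r : ℕ} (G : SimpleGraph V) (g : V → Option (Fin r)) (w v : V) : Prop :=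
  v ≠ w ∧ g v ≠ none ∧ (∀ u, u ≠ w → g u ≠ none → g u ≠ g v → G.Adj v u) ∧
    ∀ u, u ≠ w → g u = none → ¬ G.Adj v u

/-- number of the vertices of the part `t` which are not joined to `w` -/
noncomputable def mis {V : Type} {r : ℕ} (G : SimpleGraph V) (g : V → Option (Fin r)) (w : V)
    (t : Fin r) : ℕ :=
  {v | g v = some t ∧ ¬ G.Adj w v}.ncard

/-! ### Moving an edge at `w` -/

/-- (MVG) moving an edge at `w` -/
def MVG_statement : Prop :=
  ∀ (W : Type) [Fintype W] (F : SimpleGraph W) (r m : ℕ) (V : Type) [Fintype V]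
    (G : SimpleGraph V) (g : V → Option (Fin r)) (w y y' : V), InN r m F G → Indep G g →
    Cln G g w y → Cln G g w y' → g y ≠ g y' → g w ≠ g y' → G.Adj w y → ¬ G.Adj w y' →
    Fintype.card W ≤ {c | Cln G g w c ∧ g c = g y' ∧ G.Adj w c}.ncard →
    (∃ c, c ≠ y ∧ Cln G g w c ∧ g c = g y ∧ G.Adj w c) →
    ∃ H : SimpleGraph V,
      (∀ u v, H.Adj u v ↔ (G.Adj u v ∧ s(u, v) ≠ s(w, y)) ∨ s(u, v) = s(w, y')) ∧ InN r m F H

/-- (EQG) first order conditions -/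
def EQG_statement : Prop :=
  ∀ (W : Type) [Fintype W] (F : SimpleGraph W) (r m : ℕ) (V : Type) [Fintype V]
    (G : SimpleGraph V) (z : V → ℝ) (g : V → Option (Fin r)) (w y y' : V) (s t : Fin r)
    (n : ℕ), IsMaximiser r m F G → Indep G g → Per G z g n → 0 < lam G → 0 < z w →
    Cln G g w y → Cln G g w y' → s ≠ t → g y = some s → g y' = some t → g w ≠ some t →
    G.Adj w y → ¬ G.Adj w y' →
    Fintype.card W ≤ {c | Cln G g w c ∧ g c = g y' ∧ G.Adj w c}.ncard →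
    (∃ c, c ≠ y ∧ Cln G g w c ∧ g c = g y ∧ G.Adj w c) →
    tv g z n t - tv g z n s ≤ z w / lam G

/-- (QEG) the neighbours of `w`, bounded defect -/
def QEG_statement : Prop :=
  ∀ (W : Type) [Fintype W] (F : SimpleGraph W) (r N : ℕ), 3 ≤ r → ∃ N' n₀ : ℕ,
    ∀ (V : Type) [Fintype V] (G : SimpleGraph V) (g : V → Option (Fin r)) (w : V) (n m : ℕ),
    n₀ ≤ n → IsMaximiser r m F G → Bd n N G g w →
    ((missSet G g).ncard = 0 ∨ n ≤ N * ∑ t, nbn G g w t) →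
    ∀ s t, N' ≤ nbn G g w s → N' ≤ nbn G g w t →
      (siz g s = siz g t → nbn G g w s ≤ nbn G g w t + N') ∧
      (siz g t < siz g s → siz g t ≤ nbn G g w t + N')

/-- (QEH) the neighbours of `w`, complete core -/
def QEH_statement : Prop :=
  ∀ (W : Type) [Fintype W] (F : SimpleGraph W) (r N : ℕ) (C : ℝ), 3 ≤ r → 0 ≤ C →
    ∃ N' n₀ : ℕ, ∀ (V : Type) [Fintype V] (G : SimpleGraph V) (g : V → Option (Fin r)) (w : V)
    (n m : ℕ), n₀ ≤ n → IsMaximiser r m F G → NK n C G g → (missSet G g).ncard = 0 →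
    g w = none → (lightSet G g {w}).ncard ≤ N →
    ∀ s t, N' ≤ nbn G g w s → N' ≤ nbn G g w t →
      siz g s = siz g t ∧ nbn G g w s ≤ nbn G g w t + N'

/-- (QEM) the non-neighbours of `w`, few outer edges -/
def QEM_statement : Prop :=
  ∀ (W : Type) [Fintype W] (F : SimpleGraph W) (r N : ℕ) (C : ℝ), 3 ≤ r → 0 ≤ C →
    ∃ N' n₀ : ℕ, ∀ (V : Type) [Fintype V] (G : SimpleGraph V) (g : V → Option (Fin r)) (w : V)
    (k : Fin r) (n m : ℕ), n₀ ≤ n → IsMaximiser r m F G → NK n C G g →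
    (outSet G g).ncard ≤ N → g w = some k → {e | e ∈ missSet G g ∧ w ∉ e}.ncard ≤ N →
    ∀ s t, s ≠ k → t ≠ k → N' ≤ mis G g w s → siz g t ≤ siz g s ∧
      (siz g t = siz g s → mis G g w s ≤ mis G g w t + N')

/-- (DIC) few outer edges or complete core -/
def DIC_statement : Prop :=
  ∀ (W : Type) [Fintype W] (F : SimpleGraph W) (r : ℕ) (C : ℝ), 3 ≤ r → ¬ F.Colorable r →
    0 ≤ C → ∃ N n₀ : ℕ, ∀ (V : Type) [Fintype V] (G : SimpleGraph V)
    (g : V → Option (Fin r)) (n m : ℕ), n₀ ≤ n → IsMaximiser r m F G → NK n C G g →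
    (∃ w, g w = none ∧ (missSet G g).ncard = 0 ∧ (lightSet G g {w}).ncard ≤ N) ∨
    ∃ (w : V) (k : Fin r), g w = some k ∧ (outSet G g).ncard ≤ N ∧
      {e | e ∈ missSet G g ∧ w ∉ e}.ncard ≤ N

/-! ### The sizes of the parts, bounded defect -/

/-- (RSZ) changing the sizes of the parts and the numbers of the neighbours of `w` -/
def RSZ_statement : Prop :=
  ∀ (W : Type) [Fintype W] (F : SimpleGraph W) (r N : ℕ), 3 ≤ r → ∃ K : ℕ,
    ∀ (V : Type) [Fintype V] (G : SimpleGraph V) (g : V → Option (Fin r)) (w : V) (n : ℕ)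
    (τ a : Fin r → ℕ), F.Free G → ¬ G.Colorable r → (∀ v, ∃ u, G.Adj v u) → Bd n N G g w →
    (∀ t, K ≤ siz g t) → (∀ t, K ≤ τ t) → (∀ t, nbn G g w t ≤ K → a t = nbn G g w t) →
    (∀ t, K < nbn G g w t → K ≤ a t) →
    (∀ t, a t + {v | g v = some t ∧ ¬ G.Adj w v ∧ ¬ Cln G g w v}.ncard ≤ τ t) →
    ∃ (k : ℕ) (G' : SimpleGraph (Fin k)) (g' : Fin k → Option (Fin r)) (w' : Fin k),
      F.Free G' ∧ ¬ G'.Colorable r ∧ (∀ v, ∃ u, G'.Adj v u) ∧ Indep G' g' ∧ g' w' = none ∧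
      (missSet G' g').ncard = (missSet G g).ncard ∧
      (lightSet G' g' {w'}).ncard = (lightSet G g {w}).ncard ∧ (∀ t, siz g' t = τ t) ∧
      ∀ t, nbn G' g' w' t = a t

/-- (JBG) unbalanced parts are worse -/
def JBG_statement : Prop :=
  ∀ (r : ℕ) (ε : ℝ), 3 ≤ r → 0 < ε → ∃ c > (0 : ℝ), ∀ N K : ℕ, ∃ n₀ : ℕ, ∀ n ≥ n₀, ∀ D : ℕ,
    ε * (qq r * n) ≤ D →
    (D : ℝ) ≤ (1 - 2 / (r : ℝ) + 1 / (4 * (r : ℝ) ^ 2)) * (qq r * n) →
    ∀ (σ a v : Fin r → ℕ), ∑ t, σ t = n → dev σ ≤ N → (∀ t, a t + v t ≤ σ t) →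
    (∀ t, v t ≤ N) → |(∑ t, (a t : ℝ)) - D| ≤ N → ∑ t, tz r n t ^ 2 < ∑ t, σ t ^ 2 →
    ∃ (π : Equiv.Perm (Fin r)) (a' : Fin r → ℕ), (∀ t, a t ≤ K → a' t = a t) ∧
      (∀ t, K < a t → K ≤ a' t) ∧ (∀ t, a' t + v t ≤ tz r n (π t)) ∧
      2 * ∑ t, a' t + ∑ t, σ t ^ 2 = 2 * ∑ t, a t + ∑ t, tz r n t ^ 2 ∧
      Kap r (fun t => tz r n (π t)) a' + c ≤ Kap r σ a

/-- (SZG) the parts are balanced -/
def SZG_statement : Prop :=
  ∀ (W : Type) [Fintype W] (F : SimpleGraph W) (r N : ℕ) (ε : ℝ), 3 ≤ r → 0 < ε → ∃ n₀ : ℕ,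
    ∀ (V : Type) [Fintype V] (G : SimpleGraph V) (g : V → Option (Fin r)) (w : V) (n D : ℕ),
    n₀ ≤ n → ε * (qq r * n) ≤ D →
    (D : ℝ) ≤ (1 - 2 / (r : ℝ) + 1 / (4 * (r : ℝ) ^ 2)) * (qq r * n) → MxF r n D F G →
    Bd n N G g w → ∃ π : Equiv.Perm (Fin r), ∀ t, siz g t = tz r n (π t)

/-! ### All sizes -/

/-- (FINX) all maximisers for all sufficiently large `m`, with the range of alternative one -/
def FINX_statement : Prop :=
  ∀ (W : Type) [Fintype W] (F : SimpleGraph W) (r : ℕ), 3 ≤ r → Crit r F →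
    F.Colorable (r + 1) → ¬ F.Colorable r → ∃ N : ℕ, ∀ n₀ : ℕ, ∃ m₀ : ℕ, ∀ m ≥ m₀,
    ∃ n D B : ℕ, n₀ ≤ n ∧ (SimpleGraph.turanGraph n r).edgeSet.ncard + D = m ∧
      m + B = (SimpleGraph.turanGraph (n + 1) r).edgeSet.ncard ∧ 1 ≤ B ∧ B ≤ n ∧
      (∃ (k : ℕ) (G : SimpleGraph (Fin k)), IsMaximiser r m F G) ∧
      ∀ (V : Type) [Fintype V] (G : SimpleGraph V), IsMaximiser r m F G →
        |Def r G - min (2 * D * (qq r - D / n)) (AB r (n + 1) B)|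
          ≤ N * Real.sqrt (Real.sqrt n) ∧
        ((AltI r n D N G ∧
          (D : ℝ) ≤ (1 - 2 / (r : ℝ) + 1 / (4 * (r : ℝ) ^ 2)) * (qq r * n)) ∨
          AltII r (n + 1) B N G)

/-- alternative one: the parts have `n` vertices, `m = e(T_r(n)) + D` -/
def KI {V : Type} [Fintype V] {r : ℕ} (n D N : ℕ) (G : SimpleGraph V)
    (g : V → Option (Fin r)) (w : V) : Prop :=
  |Def r G - 2 * D * (qq r - D / n)| ≤ N ∧ Bd n N G g w ∧
    (N ≤ D → ∃ π : Equiv.Perm (Fin r), ∀ t, siz g t = tz r n (π t)) ∧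
    (N ≤ D → N * D ≤ n → (missSet G g).ncard = 0) ∧
    ∀ s t, N ≤ nbn G g w s → N ≤ nbn G g w t →
      (siz g s = siz g t → nbn G g w s ≤ nbn G g w t + N) ∧
      (siz g t < siz g s → siz g t ≤ nbn G g w t + N)

/-- alternative two: the parts have `n` vertices, `m = e(T_r(n)) - B` -/
def KII {V : Type} [Fintype V] {r : ℕ} (n B N : ℕ) (G : SimpleGraph V)
    (g : V → Option (Fin r)) (w : V) : Prop :=
  |Def r G - AB r n B| ≤ N * Real.sqrt (Real.sqrt n) ∧ NK n N G g ∧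
    ((g w = none ∧ (missSet G g).ncard = 0 ∧ (lightSet G g {w}).ncard ≤ N ∧
      ∀ s t, N ≤ nbn G g w s → N ≤ nbn G g w t →
        siz g s = siz g t ∧ nbn G g w s ≤ nbn G g w t + N) ∨
    ∃ k, g w = some k ∧ (outSet G g).ncard ≤ N ∧ {e | e ∈ missSet G g ∧ w ∉ e}.ncard ≤ N ∧
      ∀ s t, s ≠ k → t ≠ k → N ≤ mis G g w s → siz g t ≤ siz g s ∧
        (siz g t = siz g s → mis G g w s ≤ mis G g w t + N)) ∧
    ∃ t₀, B * |(siz g t₀ : ℝ) - (n / r + Real.sqrt (2 * B * ((r : ℝ) - 1) / r))|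
        ≤ N * (n * Real.sqrt (Real.sqrt n)) ∧
      ∀ t, t ≠ t₀ → Real.sqrt B * ((siz g t : ℝ)
        - (n / r - Real.sqrt (2 * B * ((r : ℝ) - 1) / r) / ((r : ℝ) - 1))) ^ 2
        ≤ N * (n * Real.sqrt (Real.sqrt n))

/-- (KIX) alternative one -/
def KIX_statement : Prop :=
  ∀ (W : Type) [Fintype W] (F : SimpleGraph W) (r N : ℕ), 3 ≤ r → ∃ N' n₀ : ℕ, ∀ n ≥ n₀,
    ∀ D : ℕ, (D : ℝ) ≤ (1 - 2 / (r : ℝ) + 1 / (4 * (r : ℝ) ^ 2)) * (qq r * n) →
    ∀ (V : Type) [Fintype V] (G : SimpleGraph V), MxF r n D F G → AltI r n D N G →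
      ∃ (g : V → Option (Fin r)) (w : V), KI n D N' G g w

/-- (KIY) alternative two -/
def KIY_statement : Prop :=
  ∀ (W : Type) [Fintype W] (F : SimpleGraph W) (r N : ℕ), 3 ≤ r → ¬ F.Colorable r →
    ∃ N' n₀ : ℕ, ∀ n ≥ n₀, ∀ B m : ℕ, B ≤ n →
    m + B = (SimpleGraph.turanGraph n r).edgeSet.ncard →
    ∀ (V : Type) [Fintype V] (G : SimpleGraph V), IsMaximiser r m F G → AltII r n B N G →
      ∃ (g : V → Option (Fin r)) (w : V), KII n B N' G g w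

/-- (FINK) all maximisers for all sufficiently large `m` -/
def FINK_statement : Prop :=
  ∀ (W : Type) [Fintype W] (F : SimpleGraph W) (r : ℕ), 3 ≤ r → Crit r F →
    F.Colorable (r + 1) → ¬ F.Colorable r → ∃ N m₀ : ℕ, ∀ m ≥ m₀,
    ∃ n D B : ℕ, (SimpleGraph.turanGraph n r).edgeSet.ncard + D = m ∧
      m + B = (SimpleGraph.turanGraph (n + 1) r).edgeSet.ncard ∧ 1 ≤ B ∧
      (∃ (k : ℕ) (G : SimpleGraph (Fin k)), IsMaximiser r m F G) ∧
      ∀ (V : Type) [Fintype V] (G : SimpleGraph V), IsMaximiser r m F G →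
        |Def r G - min (2 * D * (qq r - D / n)) (AB r (n + 1) B)|
          ≤ N * Real.sqrt (Real.sqrt n) ∧
        ∃ (g : V → Option (Fin r)) (w : V), KI n D N G g w ∨ KII (n + 1) B N G g w

end MP0c3a8f
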