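import Pool.Agent.Work.MP_0c3a8f_co.PB.Stmts3
import Pool.Agent.Work.MP_0c3a8f_co.PB.Stmts11

/-!
# MP_0c3a8f_co: the exact extremal graphs for the generic color-critical graphs and for the class
`Fs` (which contains `K_{1,1,s,...,s}`), for all sufficiently large `m`

`q = qq r = 1 - 1/r`.  The proofs are in the specifications (table `helpwanted`).
-/

open Finset

namespace MP0c3a8f

/-! ### Definitions -/

/-- type `S`: the complete multipartite graph without the edges between the vertex `c` of the part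
`i` and the vertices in `L` (in the other parts), and one new vertex `w`, joined to one vertex
`q t` of each part; `c` and the vertices in `L` are not joined to `w` -/
structure TyS {V : Type} {r : ℕ} (G : SimpleGraph V) (f : V → Option (Fin r)) (w : V)
    (q : Fin r → V) (c : V) (i : Fin r) (L : Finset V) : Prop where
  out : ∀ v, f v = none ↔ v = w
  hq : ∀ t, f (q t) = some t
  wn : ∀ v, G.Adj w v ↔ ∃ t, v = q t
  hc : f c = some i
  cq : c ≠ q i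
  hL : ∀ v ∈ L, f v ≠ none ∧ f v ≠ some i
  qL : ∀ t, q t ∉ L
  core : ∀ u v, f u ≠ none → f v ≠ none →
    (G.Adj u v ↔ f u ≠ f v ∧ ¬ (u = c ∧ v ∈ L) ∧ ¬ (v = c ∧ u ∈ L))
  room : ∀ t, L.card + 2 ≤ siz f t

/-- candidate of type `Z` with the parts `g` -/
def WZ {V : Type} {r : ℕ} (G : SimpleGraph V) (g : V → Option (Fin r)) : Prop :=
  ∃ w : V, Ty0 G g w ∧ ∀ t, 1 ≤ nbn G g w t

/-- candidate of type `S` with the parts `g` -/
def WS {V : Type} {r : ℕ} (G : SimpleGraph V) (g : V → Option (Fin r)) : Prop :=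
  ∃ (w : V) (q : Fin r → V) (c : V) (i : Fin r) (L : Finset V), TyS G g w q c i L ∧
    (∀ t, siz g t ≤ siz g i) ∧
    (∀ v ∈ L, ∀ t, g v = some t → ∀ s, s ≠ i → siz g s ≤ siz g t) ∧
    ∀ s t, s ≠ i → t ≠ i → siz g s = siz g t → lc L g s ≤ lc L g t + 1

/-- the candidates of type `Z` with parts of the sizes `σ t` -/
def IsWZ {V : Type} {r : ℕ} (σ : Fin r → ℕ) (G : SimpleGraph V) : Prop :=
  ∃ (f : V → Option (Fin r)) (w : V), Ty0 G f w ∧ (∀ t, siz f t = σ t) ∧ ∀ t, 1 ≤ nbn G f w t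

/-- the candidates of type `S` with parts of the sizes `σ t` -/
def IsWS {V : Type} {r : ℕ} (σ : Fin r → ℕ) (G : SimpleGraph V) : Prop :=
  ∃ (f : V → Option (Fin r)) (w : V) (q : Fin r → V) (c : V) (i : Fin r) (L : Finset V),
    TyS G f w q c i L ∧ (∀ t, siz f t = σ t) ∧ (∀ t, σ t ≤ σ i) ∧
    (∀ v ∈ L, ∀ t, f v = some t → ∀ s, s ≠ i → σ s ≤ σ t) ∧
    ∀ s t, s ≠ i → t ≠ i → σ s = σ t → lc L f s ≤ lc L f t + 1

/-- the candidates with `m` edges, parts of sizes `≥ 2`, and `n` or `n + 1` vertices in the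
parts -/
def IsU0 {V : Type} (r n m : ℕ) (G : SimpleGraph V) : Prop :=
  ∃ σ : Fin r → ℕ, (∑ t, σ t = n ∨ ∑ t, σ t = n + 1) ∧ (∀ t, 2 ≤ σ t) ∧
    G.edgeSet.ncard = m ∧ (IsWZ σ G ∨ IsWS σ G)

/-- the neighbours of `w` in an extremal graph of type `Z`, class `Fs` -/
def VR {V : Type} {r : ℕ} (s : ℕ) (G : SimpleGraph V) (g : V → Option (Fin r)) (w : V)
    (i j : Fin r) : Prop :=
  i ≠ j ∧ (∀ t, siz g t ≤ siz g i) ∧ (∀ t, t ≠ i → siz g t ≤ siz g j) ∧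
    nbn G g w i < s ∧ nbn G g w j < s ∧
    ∀ k l : Fin r, ((l ≠ i ∧ l ≠ j) ∨ nbn G g w l + 1 < s) →
      (siz g k = siz g l → nbn G g w k ≤ nbn G g w l + 1) ∧
      (siz g l < siz g k → 2 ≤ nbn G g w k → nbn G g w l = siz g l)

/-- the candidates of type `V` (class `Fs`) with parts of the sizes `σ t` -/
def IsVZ {V : Type} {r : ℕ} (s : ℕ) (σ : Fin r → ℕ) (G : SimpleGraph V) : Prop :=
  ∃ (f : V → Option (Fin r)) (w : V) (i j : Fin r), Ty0 G f w ∧ (∀ t, siz f t = σ t) ∧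
    (∀ t, 1 ≤ nbn G f w t) ∧ i ≠ j ∧ (∀ t, σ t ≤ σ i) ∧ (∀ t, t ≠ i → σ t ≤ σ j) ∧
    nbn G f w i < s ∧ nbn G f w j < s ∧
    ∀ k l : Fin r, ((l ≠ i ∧ l ≠ j) ∨ nbn G f w l + 1 < s) →
      (σ k = σ l → nbn G f w k ≤ nbn G f w l + 1) ∧
      (σ l < σ k → 2 ≤ nbn G f w k → nbn G f w l = σ l)

/-- the candidates for the class `Fs` with `m` edges, parts of sizes `≥ s`, and `n` or `n + 1`
vertices in the parts -/
def IsUs {V : Type} (r n m s : ℕ) (G : SimpleGraph V) : Prop :=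
  ∃ σ : Fin r → ℕ, (∑ t, σ t = n ∨ ∑ t, σ t = n + 1) ∧ (∀ t, s ≤ σ t) ∧
    G.edgeSet.ncard = m ∧ (IsVZ s σ G ∨ IsWS σ G)

/-! ### Members -/

/-- (MEMW) graphs with one vertex outside of the parts -/
def MEMW_statement : Prop :=
  ∀ (r : ℕ) (V : Type) [Fintype V] (G : SimpleGraph V) (f : V → Option (Fin r)) (w : V),
    3 ≤ r → Indep G f → (∀ v, f v = none ↔ v = w) →
    (∀ t, (missSet G f).ncard + 1 ≤ siz f t) → (∀ t, 1 ≤ nbn G f w t) →
    ¬ G.Colorable r ∧ (∀ v, ∃ u, G.Adj v u) ∧ (outSet G f).ncard = ∑ t, nbn G f w t ∧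
    2 * G.edgeSet.ncard + 2 * (missSet G f).ncard + ∑ t, siz f t ^ 2
      = (∑ t, siz f t) ^ 2 + 2 * ∑ t, nbn G f w t ∧
    ∀ (W : Type) [Fintype W] (F : SimpleGraph W) (i j : Fin r), Gen2 r F → i ≠ j →
      nbn G f w i = 1 → nbn G f w j = 1 → F.Free G

/-- (MEMX) graphs of type `S` -/
def MEMX_statement : Prop :=
  ∀ (r : ℕ) (V : Type) [Fintype V] (G : SimpleGraph V) (f : V → Option (Fin r)) (w : V)
    (q : Fin r → V) (c : V) (i : Fin r) (L : Finset V), 3 ≤ r → TyS G f w q c i L →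
    Indep G f ∧ (missSet G f).ncard = L.card ∧ (∀ t, nbn G f w t = 1) ∧
    (outSet G f).ncard = r ∧ (∀ t, (missSet G f).ncard + 1 ≤ siz f t)

/-- (FAMX) existence of graphs of type `S` with prescribed numbers of leaves -/
def FAMX_statement : Prop :=
  ∀ (r : ℕ) (τ l : Fin r → ℕ) (i : Fin r), 3 ≤ r → l i = 0 → (∀ t, ∑ u, l u + 2 ≤ τ t) →
    ∃ (k : ℕ) (H : SimpleGraph (Fin k)) (f : Fin k → Option (Fin r)) (w : Fin k)
      (q : Fin r → Fin k) (c : Fin k) (L : Finset (Fin k)), TyS H f w q c i L ∧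
      L.card = ∑ t, l t ∧ (∀ t, lc L f t = l t) ∧ ∀ t, siz f t = τ t

/-- (WMB) comparison graphs on the same vertex set -/
def WMB_statement : Prop :=
  ∀ (W : Type) [Fintype W] (F : SimpleGraph W) (r m : ℕ) (V : Type) [Fintype V]
    (G H : SimpleGraph V) (g : V → Option (Fin r)) (w : V) (i j : Fin r), 3 ≤ r → Gen2 r F →
    IsMaximiser r m F G → g w = none → i ≠ j → Indep H g →
    (∀ u v, g u = none → u ≠ w → ¬ H.Adj u v) → nbn H g w i = 1 → nbn H g w j = 1 →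
    (∀ t, 1 ≤ nbn H g w t) → (∀ t, (missSet H g).ncard + 1 ≤ siz g t) →
    2 * m + 2 * (missSet H g).ncard + ∑ t, siz g t ^ 2
      = (∑ t, siz g t) ^ 2 + 2 * ∑ t, nbn H g w t →
    lam H ≤ lam G

open Classical in
/-- (SWYZ) second order comparison, complete core, one vertex outside of the parts -/
def SWYZ_statement : Prop :=
  ∀ (r : ℕ) (V : Type) [Fintype V] (G H : SimpleGraph V) (z : V → ℝ)
    (g : V → Option (Fin r)) (w : V) (n : ℕ), Indep G g → (missSet G g).ncard = 0 →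
    Indep H g → (missSet H g).ncard = 0 → g w = none →
    (∀ x y, g x = none → x ≠ w → ¬ H.Adj x y) → Per G z g n → 0 < lam G → lam H ≤ lam G →
    cov H g z w ^ 2
      ≤ ∑ x, if g x = none then cov G g z x ^ 2 + cov G g z x * omv G g z x else 0

/-! ### Few missing pairs and outer edges -/

/-- (CABZ) the numbers of missing pairs and outer edges -/
def CABZ_statement : Prop :=
  ∀ (W : Type) [Fintype W] (F : SimpleGraph W) (r : ℕ) (C : ℝ), 3 ≤ r → Gen2 r F → 0 ≤ C →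
    ∃ n₀ : ℕ, ∀ (V : Type) [Fintype V] (G : SimpleGraph V) (g : V → Option (Fin r)) (n m : ℕ),
    n₀ ≤ n → IsMaximiser r m F G → NK n C G g →
    ((missSet G g).ncard = 0 ∧ r ≤ (outSet G g).ncard) ∨
    (1 ≤ (missSet G g).ncard ∧ (outSet G g).ncard = r)

/-- (PZN) complete core -/
def PZN_statement : Prop :=
  ∀ (W : Type) [Fintype W] (F : SimpleGraph W) (r : ℕ) (C : ℝ), 3 ≤ r → Gen2 r F → 0 ≤ C →
    ∃ n₀ : ℕ, ∀ (V : Type) [Fintype V] (G : SimpleGraph V) (g : V → Option (Fin r)) (n m : ℕ),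
    n₀ ≤ n → IsMaximiser r m F G → NK n C G g → (missSet G g).ncard = 0 →
    r ≤ (outSet G g).ncard → ∃ w, Ty0 G g w

/-- (QCL) the neighbours of `w` are in no missing pair -/
def QCL_statement : Prop :=
  ∀ (W : Type) [Fintype W] (F : SimpleGraph W) (r : ℕ) (C : ℝ), 3 ≤ r → Gen2 r F → 0 ≤ C →
    ∃ n₀ : ℕ, ∀ (V : Type) [Fintype V] (G : SimpleGraph V) (g : V → Option (Fin r)) (w : V)
    (q : Fin r → V) (n m : ℕ), n₀ ≤ n → IsMaximiser r m F G → NK n C G g →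
    (∀ v, g v = none ↔ v = w) → (∀ t, g (q t) = some t) → (∀ v, G.Adj w v ↔ ∃ t, v = q t) →
    ∀ t u, g u ≠ none → g u ≠ some t → G.Adj (q t) u

/-- (PSTS) type `S`, one large class -/
def PSTS_statement : Prop :=
  ∀ (W : Type) [Fintype W] (F : SimpleGraph W) (r : ℕ) (C c : ℝ), 3 ≤ r → Gen2 r F → 0 ≤ C →
    0 < c → ∃ n₀ : ℕ, ∀ (V : Type) [Fintype V] (G : SimpleGraph V) (g : V → Option (Fin r))
    (i : Fin r) (n m : ℕ), n₀ ≤ n → IsMaximiser r m F G → NL n C c G g i →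
    (outSet G g).ncard = r → 1 ≤ (missSet G g).ncard →
    ∃ (w : V) (q : Fin r → V) (c₀ : V) (L : Finset V), TyS G g w q c₀ i L

/-- (PEKS) the leaves, type `S` -/
def PEKS_statement : Prop :=
  ∀ (W : Type) [Fintype W] (F : SimpleGraph W) (r : ℕ) (C : ℝ), 3 ≤ r → Gen2 r F → 0 ≤ C →
    ∃ n₀ : ℕ, ∀ (V : Type) [Fintype V] (G : SimpleGraph V) (g : V → Option (Fin r)) (w : V)
    (q : Fin r → V) (c : V) (i : Fin r) (L : Finset V) (n m : ℕ), n₀ ≤ n →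
    IsMaximiser r m F G → NK n C G g → TyS G g w q c i L →
    (∀ v ∈ L, ∀ t, g v = some t → ∀ s, s ≠ i → siz g s ≤ siz g t) ∧
    ∀ s t, s ≠ i → t ≠ i → siz g s = siz g t → lc L g s ≤ lc L g t + 1

/-- (TVS) test vectors for graphs of type `S` -/
def TVS_statement : Prop :=
  ∀ (r : ℕ) (V : Type) [Fintype V] (H : SimpleGraph V) (f : V → Option (Fin r)) (w : V)
    (q : Fin r → V) (c : V) (i : Fin r) (L : Finset V) (l ω P X : ℝ) (T : Fin r → ℝ), 3 ≤ r →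
    TyS H f w q c i L → 0 < l → (∀ t, t ≠ i → T t * (l + siz f t) = l + lc L f t * P - ω) →
    T i * (l + siz f i) = l + X - ω → l * P = T i - X →
    l * X = ∑ t, (if t = i then 0 else lc L f t * (T t - P)) →
    0 < ((r : ℝ) - 1 - ∑ t, T t) * ((r : ℝ) - ∑ t, T t)
      + (∑ t, (T t + ω) - l ^ 2 * ω) / l * ω →
    l < lam H

/-- (CENS) the centre of the star is in the larger class -/
def CENS_statement : Prop :=
  ∀ (r : ℕ) (C : ℝ), 3 ≤ r → 0 ≤ C → ∃ n₀ : ℕ, ∀ (V U : Type) [Fintype V] [Fintype U]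
    (G : SimpleGraph V) (H : SimpleGraph U) (f : V → Option (Fin r)) (f' : U → Option (Fin r))
    (w : V) (w' : U) (q : Fin r → V) (q' : Fin r → U) (c : V) (c' : U) (s i : Fin r)
    (L : Finset V) (L' : Finset U) (n : ℕ), n₀ ≤ n → TyS G f w q c s L →
    TyS H f' w' q' c' i L' → s ≠ i → NK n C G f → (∀ t, siz f' t = siz f t) →
    siz f s < siz f i → (∀ v ∈ L, f v = some i) → (∀ v ∈ L', f' v = some s) →
    L'.card = L.card → 2 ≤ L.card → lam G < lam H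

/-- three missing edges which form a triangle on `x, y, z`, and a vertex `w` joined to one other
vertex of each part -/
structure TyR {V : Type} {r : ℕ} (G : SimpleGraph V) (f : V → Option (Fin r)) (w : V)
    (q : Fin r → V) (x y z : V) : Prop where
  out : ∀ v, f v = none ↔ v = w
  hq : ∀ t, f (q t) = some t
  wn : ∀ v, G.Adj w v ↔ ∃ t, v = q t
  cx : f x ≠ none
  cy : f y ≠ none
  cz : f z ≠ none
  xy : f x ≠ f y
  yz : f y ≠ f z
  xz : f x ≠ f z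
  qx : ∀ t, q t ≠ x ∧ q t ≠ y ∧ q t ≠ z
  core : ∀ u v, f u ≠ none → f v ≠ none → (G.Adj u v ↔ f u ≠ f v ∧ s(u, v) ≠ s(x, y) ∧
    s(u, v) ≠ s(y, z) ∧ s(u, v) ≠ s(x, z))

/-- (TRIS) a star is better than a triangle -/
def TRIS_statement : Prop :=
  ∀ (r : ℕ) (C : ℝ), 3 ≤ r → 0 ≤ C → ∃ n₀ : ℕ, ∀ (V U : Type) [Fintype V] [Fintype U]
    (G : SimpleGraph V) (H : SimpleGraph U) (f : V → Option (Fin r)) (f' : U → Option (Fin r))
    (w x y z : V) (w' : U) (q : Fin r → V) (q' : Fin r → U) (c' : U) (i j k : Fin r)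
    (L' : Finset U) (n : ℕ), n₀ ≤ n → TyR G f w q x y z → TyS H f' w' q' c' i L' →
    f x = some i → f y = some j → f z = some k → NK n C G f → (∀ t, siz f' t = siz f t) →
    siz f j = siz f i → siz f k = siz f i → lc L' f' j = 2 → lc L' f' k = 1 →
    L'.card = 3 → lam G < lam H

/-- (PSNS) type `S`, nearly balanced classes -/
def PSNS_statement : Prop :=
  ∀ (W : Type) [Fintype W] (F : SimpleGraph W) (r : ℕ) (C : ℝ), 3 ≤ r → Gen2 r F → 0 ≤ C →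
    ∃ ε > (0 : ℝ), ∃ n₀ : ℕ, ∀ (V : Type) [Fintype V] (G : SimpleGraph V)
    (g : V → Option (Fin r)) (n m : ℕ), n₀ ≤ n → IsMaximiser r m F G → NK n C G g →
    dev (siz g) ≤ ε * n → (outSet G g).ncard = r → 1 ≤ (missSet G g).ncard →
    ∃ (w : V) (q : Fin r → V) (c : V) (i : Fin r) (L : Finset V), TyS G g w q c i L ∧
      ∀ t, siz g t ≤ siz g i

/-- (YNLS) one large class -/
def YNLS_statement : Prop :=
  ∀ (W : Type) [Fintype W] (F : SimpleGraph W) (r : ℕ) (C c : ℝ), 3 ≤ r → Gen2 r F → 0 ≤ C →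
    0 < c → ∃ n₀ : ℕ, ∀ (V : Type) [Fintype V] (G : SimpleGraph V) (g : V → Option (Fin r))
    (i : Fin r) (n m : ℕ), n₀ ≤ n → IsMaximiser r m F G → NL n C c G g i → WZ G g ∨ WS G g

/-- (YNBS) nearly balanced classes -/
def YNBS_statement : Prop :=
  ∀ (W : Type) [Fintype W] (F : SimpleGraph W) (r : ℕ) (C : ℝ), 3 ≤ r → Gen2 r F → 0 ≤ C →
    ∃ ε > (0 : ℝ), ∃ n₀ : ℕ, ∀ (V : Type) [Fintype V] (G : SimpleGraph V)
    (g : V → Option (Fin r)) (n m : ℕ), n₀ ≤ n → IsMaximiser r m F G → NK n C G g →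
    dev (siz g) ≤ ε * n → WZ G g ∨ WS G g

/-- (YABS) alternative two -/
def YABS_statement : Prop :=
  ∀ (W : Type) [Fintype W] (F : SimpleGraph W) (r N : ℕ), 3 ≤ r → Gen2 r F → ∃ C : ℝ, 0 ≤ C ∧
    ∃ n₀ : ℕ, ∀ (V : Type) [Fintype V] (G : SimpleGraph V) (n B m : ℕ), n₀ ≤ n → B ≤ n →
    m + B = (SimpleGraph.turanGraph n r).edgeSet.ncard → IsMaximiser r m F G →
    AltII r n B N G → ∃ g : V → Option (Fin r), NK n C G g ∧ (WZ G g ∨ WS G g)

/-! ### Alternative one -/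

/-- (SDZ) small `D` -/
def SDZ_statement : Prop :=
  ∀ (W : Type) [Fintype W] (F : SimpleGraph W) (r N : ℕ), 3 ≤ r → Gen2 r F →
    ∃ ε > (0 : ℝ), ∃ b₁ n₀ : ℕ, ∀ n ≥ n₀, ∀ D : ℕ, b₁ ≤ D → (D : ℝ) ≤ ε * n → N ≤ D →
    N * D ≤ n → ∀ (V : Type) [Fintype V] (G : SimpleGraph V), MxF r n D F G →
      AltI r n D N G → IsG0 r n D G

/-- (JFZT) all other types are worse, balanced classes -/
def JFZT_statement : Prop :=
  ∀ (r : ℕ) (ε : ℝ), 3 ≤ r → 0 < ε → ∃ c > (0 : ℝ), ∀ N : ℕ, ∃ n₀ : ℕ, ∀ n ≥ n₀, ∀ D : ℕ,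
    ε * (qq r * n) ≤ D →
    (D : ℝ) ≤ (1 - 2 / (r : ℝ) + 1 / (4 * (r : ℝ) ^ 2)) * (qq r * n) →
    ∀ (a a' : Fin r → ℕ) (π : Equiv.Perm (Fin r)) (α b : ℕ), (∀ t, a t ≤ tz r n (π t)) →
    α + b ≤ N → D + α = ∑ t, a t + b → ¬ (α = 0 ∧ b = 0) → Tg1 r n (D - 1) a' → 1 ≤ D →
    Kap r (tz r n) a' + c ≤ Kap r (fun t => tz r n (π t)) a + 2 * qq r * (α + b)

/-- (TPZ) linear `D` -/
def TPZ_statement : Prop :=
  ∀ (W : Type) [Fintype W] (F : SimpleGraph W) (r N : ℕ) (ε : ℝ), 3 ≤ r → Gen2 r F → 0 < ε →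
    ∃ n₀ : ℕ, ∀ (V : Type) [Fintype V] (G : SimpleGraph V) (g : V → Option (Fin r)) (w : V)
    (n D : ℕ), n₀ ≤ n → ε * (qq r * n) ≤ D →
    (D : ℝ) ≤ (1 - 2 / (r : ℝ) + 1 / (4 * (r : ℝ) ^ 2)) * (qq r * n) → MxF r n D F G →
    Bd n N G g w → IsG0 r n D G

/-! ### The generic case -/

/-- (FINR) the structure for all sufficiently large `m` -/
def FINR_statement : Prop :=
  ∀ (W : Type) [Fintype W] (F : SimpleGraph W) (r : ℕ) (ε : ℝ), 3 ≤ r → Crit r F →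
    F.Colorable (r + 1) → ¬ F.Colorable r → Gen2 r F → 0 < ε → ∃ (C : ℝ) (N : ℕ), 0 ≤ C ∧
    ∀ n₀ : ℕ, ∃ m₀ : ℕ, ∀ m ≥ m₀, ∃ n D : ℕ, n₀ ≤ n ∧
    (SimpleGraph.turanGraph n r).edgeSet.ncard + D = m ∧
    m < (SimpleGraph.turanGraph (n + 1) r).edgeSet.ncard ∧
    (∃ (k : ℕ) (G : SimpleGraph (Fin k)), IsMaximiser r m F G) ∧
    ∀ (V : Type) [Fintype V] (G : SimpleGraph V), IsMaximiser r m F G →
      ((IsG0 r n D G ∧
          (D : ℝ) ≤ (1 - 2 / (r : ℝ) + 1 / (4 * (r : ℝ) ^ 2)) * (qq r * n)) ∨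
        ∃ (k : ℕ) (g : V → Option (Fin r)), (k = n ∨ k = n + 1) ∧ NK k C G g ∧
          (WZ G g ∨ WS G g)) ∧
      (N * Real.sqrt (Real.sqrt n) ≤ D → (D : ℝ) ≤ (1 - 2 / (r : ℝ) - ε) * (qq r * n) →
        IsG0 r n D G)

/-- (GENA) the extremal graphs in the generic case for all sufficiently large `m` -/
def GENA_statement : Prop :=
  ∀ (W : Type) [Fintype W] (F : SimpleGraph W) (r : ℕ) (ε : ℝ), 3 ≤ r → Crit r F →
    F.Colorable (r + 1) → ¬ F.Colorable r → Gen2 r F → 0 < ε → ∃ N m₀ : ℕ, ∀ m ≥ m₀,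
    ∃ n D : ℕ, (SimpleGraph.turanGraph n r).edgeSet.ncard + D = m ∧
    m < (SimpleGraph.turanGraph (n + 1) r).edgeSet.ncard ∧
    (∃ (k : ℕ) (G : SimpleGraph (Fin k)), IsMaximiser r m F G) ∧
    (∀ (V : Type) [Fintype V] (G : SimpleGraph V), IsMaximiser r m F G ↔
      (IsU0 r n m G ∧ F.Free G) ∧ ∀ (U : Type) [Fintype U] (H : SimpleGraph U),
        IsU0 r n m H → F.Free H → lam H ≤ lam G) ∧
    (N * Real.sqrt (Real.sqrt n) ≤ D → (D : ℝ) ≤ (1 - 2 / (r : ℝ) - ε) * (qq r * n) →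
      ∀ (V : Type) [Fintype V] (G : SimpleGraph V), IsMaximiser r m F G ↔
        (IsG0 r n D G ∧ F.Free G) ∧ ∀ (U : Type) [Fintype U] (H : SimpleGraph U),
          IsG0 r n D H → F.Free H → lam H ≤ lam G)

/-! ### The class `Fs` -/

/-- (MVM) moving neighbours of `w` -/
def MVM_statement : Prop :=
  ∀ (r : ℕ) (V : Type) [Fintype V] (G H : SimpleGraph V) (f : V → Option (Fin r)) (w : V)
    (k l : Fin r) (M M' : Finset V) (z : V → ℝ), Ty0 G f w → Ty0 H f w → (∀ v, 0 ≤ z v) →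
    (∀ v, ∑ u, adj G v u * z u = lam G * z v) → 0 < lam G → 0 < z w → k ≠ l → M.Nonempty →
    M.card = M'.card → (∀ y ∈ M, f y = some k ∧ G.Adj w y) →
    (∀ y ∈ M', f y = some l ∧ ¬ G.Adj w y) →
    (∀ y, H.Adj w y ↔ (G.Adj w y ∧ y ∉ M) ∨ y ∈ M') →
    M.card * z w / lam G < cw z f (some k) - cw z f (some l) → lam G < lam H

/-- (PICKG) the neighbours of `w`, from estimates for the weights of the classes -/
def PICKG_statement : Prop :=
  ∀ (W : Type) [Fintype W] (F : SimpleGraph W) (r s s₁ m : ℕ) (V : Type) [Fintype V]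
    (G : SimpleGraph V) (g : V → Option (Fin r)) (w : V) (z : V → ℝ), 3 ≤ r → 2 ≤ s →
    Fs r s s₁ F → IsMaximiser r m F G → Ty0 G g w → (∀ t, s₁ ≤ siz g t ∧ 1 ≤ siz g t) →
    (∀ t, 1 ≤ nbn G g w t) → (∀ v, 0 ≤ z v) →
    (∀ v, ∑ u, adj G v u * z u = lam G * z v) → 0 < lam G → 0 < z w →
    (∀ k l, siz g l < siz g k → nbn G g w k ≤ siz g l) →
    (∀ (k l : Fin r) (M : ℕ), siz g l < siz g k → 1 ≤ M → M ≤ nbn G g w k →
      M + nbn G g w l ≤ siz g l →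
      M * z w / lam G < cw z g (some k) - cw z g (some l)) →
    (∀ k l : Fin r, siz g k = siz g l → nbn G g w l + 2 ≤ nbn G g w k →
      z w / lam G < cw z g (some k) - cw z g (some l)) →
    ∃ i j, VR s G g w i j

/-- (PICKN) the neighbours of `w`, few outer edges -/
def PICKN_statement : Prop :=
  ∀ (W : Type) [Fintype W] (F : SimpleGraph W) (r s s₁ : ℕ) (C : ℝ), 3 ≤ r → 2 ≤ s →
    Fs r s s₁ F → 0 ≤ C → ∃ n₀ : ℕ, ∀ (V : Type) [Fintype V] (G : SimpleGraph V)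
    (g : V → Option (Fin r)) (w : V) (n m : ℕ), n₀ ≤ n → IsMaximiser r m F G → NK n C G g →
    Ty0 G g w → (∀ t, 1 ≤ nbn G g w t) → ∃ i j, VR s G g w i j

/-- (PICKB) the neighbours of `w`, balanced classes -/
def PICKB_statement : Prop :=
  ∀ (W : Type) [Fintype W] (F : SimpleGraph W) (r s s₁ : ℕ), 3 ≤ r → 2 ≤ s →
    Fs r s s₁ F → ∃ n₀ : ℕ, ∀ (V : Type) [Fintype V] (G : SimpleGraph V)
    (g : V → Option (Fin r)) (w : V) (n D m : ℕ), n₀ ≤ n → IsMaximiser r m F G →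
    Ty0 G g w → (∀ t, siz g t = tz r n t) → ∑ t, nbn G g w t = D → (∀ t, 1 ≤ nbn G g w t) →
    (D : ℝ) ≤ (1 - 2 / (r : ℝ) + 1 / (4 * (r : ℝ) ^ 2)) * (qq r * n) →
    ∃ i j, VR s G g w i j

/-- (GVCG) uniqueness of the numbers of neighbours -/
def GVCG_statement : Prop :=
  ∀ (r s : ℕ) (σ d d' : Fin r → ℕ) (i j : Fin r), 2 ≤ s → i ≠ j → (∀ t, s ≤ σ t) →
    (∀ t, σ t ≤ σ i) → (∀ t, t ≠ i → σ t ≤ σ j) →
    (∀ t, 1 ≤ d t ∧ d t ≤ σ t ∧ 1 ≤ d' t ∧ d' t ≤ σ t) → d i < s → d j < s → d' i < s →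
    d' j < s →
    (∀ k l : Fin r, ((l ≠ i ∧ l ≠ j) ∨ d l + 1 < s) → (σ k = σ l → d k ≤ d l + 1) ∧
      (σ l < σ k → 2 ≤ d k → d l = σ l)) →
    (∀ k l : Fin r, ((l ≠ i ∧ l ≠ j) ∨ d' l + 1 < s) → (σ k = σ l → d' k ≤ d' l + 1) ∧
      (σ l < σ k → 2 ≤ d' k → d' l = σ l)) → ∑ t, d t = ∑ t, d' t →
    ∃ π : Equiv.Perm (Fin r), (∀ t, σ (π t) = σ t) ∧ ∀ t, d' (π t) = d t

/-- (UNV) uniqueness, type `V` -/
def UNV_statement : Prop :=
  ∀ (r s m : ℕ) (σ : Fin r → ℕ) (V U : Type) [Fintype V] [Fintype U] (G : SimpleGraph V)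
    (H : SimpleGraph U), 3 ≤ r → 2 ≤ s → (∀ t, s ≤ σ t) → G.edgeSet.ncard = m →
    H.edgeSet.ncard = m → IsVZ s σ G → IsVZ s σ H → Nonempty (G ≃g H)

/-- (ISOS) graphs of type `S` with the same parameters are isomorphic -/
def ISOS_statement : Prop :=
  ∀ (r : ℕ) (V V' : Type) [Fintype V] [Fintype V'] (G : SimpleGraph V) (G' : SimpleGraph V')
    (f : V → Option (Fin r)) (f' : V' → Option (Fin r)) (w : V) (w' : V') (q : Fin r → V)
    (q' : Fin r → V') (c : V) (c' : V') (i : Fin r) (L : Finset V) (L' : Finset V'),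
    TyS G f w q c i L → TyS G' f' w' q' c' i L' → (∀ t, siz f t = siz f' t) →
    (∀ t, lc L f t = lc L' f' t) → Nonempty (G ≃g G')

/-- (UNS) uniqueness, type `S` -/
def UNS_statement : Prop :=
  ∀ (r m : ℕ) (σ : Fin r → ℕ) (V U : Type) [Fintype V] [Fintype U] (G : SimpleGraph V)
    (H : SimpleGraph U), 3 ≤ r → G.edgeSet.ncard = m → H.edgeSet.ncard = m → IsWS σ G →
    IsWS σ H → Nonempty (G ≃g H)

/-- (FINF) the extremal graphs for the class `Fs` for all sufficiently large `m` -/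
def FINF_statement : Prop :=
  ∀ (W : Type) [Fintype W] (F : SimpleGraph W) (r s s₁ : ℕ) (ε : ℝ), 3 ≤ r → 2 ≤ s →
    Crit r F → F.Colorable (r + 1) → ¬ F.Colorable r → Fs r s s₁ F → 0 < ε →
    ∃ N m₀ : ℕ, ∀ m ≥ m₀, ∃ n D : ℕ, (SimpleGraph.turanGraph n r).edgeSet.ncard + D = m ∧
    m < (SimpleGraph.turanGraph (n + 1) r).edgeSet.ncard ∧
    (∃ (k : ℕ) (G : SimpleGraph (Fin k)), IsMaximiser r m F G) ∧
    (∀ (V : Type) [Fintype V] (G : SimpleGraph V), IsMaximiser r m F G ↔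
      IsUs r n m s G ∧ ∀ (U : Type) [Fintype U] (H : SimpleGraph U), IsUs r n m s H →
        lam H ≤ lam G) ∧
    (N * Real.sqrt (Real.sqrt n) ≤ D → (D : ℝ) ≤ (1 - 2 / (r : ℝ) - ε) * (qq r * n) →
      ∀ (V : Type) [Fintype V] (G : SimpleGraph V), IsMaximiser r m F G ↔
        G.edgeSet.ncard = m ∧ IsVZ s (fun t : Fin r => tz r n t) G)

end MP0c3a8f
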